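import Pool.Agent.RDM.Ru

/-!
# Ruled parametrizations
-/

set_option autoImplicit false

namespace Pool.Agent.RDP

universe u v w

section

open Pool.Agent.TBR Polynomial

section

theorem emb1_T {E : Type u} [Field E] :
    Transcendental E (algebraMap (RatFunc E) (AlgebraicClosure (RatFunc E)) RatFunc.X) := by
  intro h
  rw [isAlgebraic_algebraMap_iff (algebraMap (RatFunc E) (AlgebraicClosure (RatFunc E))).injective] at h
  exact RatFunc.transcendental_X h

theorem emb1_TK {K E : Type u} [Field K] [Field E] [Algebra K E] :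
    Transcendental K (algebraMap (RatFunc E) (AlgebraicClosure (RatFunc E)) RatFunc.X) := by
  intro h
  exact emb1_T (E := E) (h.tower_top (L := E))

theorem emb1_alg {K E : Type u} [Field K] [Field E] [Algebra K E] (c : K) :
    algebraMap K (AlgebraicClosure (RatFunc E)) c =
      algebraMap (RatFunc E) (AlgebraicClosure (RatFunc E)) (RatFunc.C (algebraMap K E c)) := by
  rw [IsScalarTower.algebraMap_apply K (RatFunc E) (AlgebraicClosure (RatFunc E))]
  congr 1

theorem emb1_ex {K k₁ Ω : Type u} [Field K] [Field k₁] [Field Ω] [Algebra K k₁] [Algebra K Ω]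
    [IsAlgClosed Ω] (t : k₁) (ht : Transcendental K t) (T : Ω) (hT : Transcendental K T)
    (halg : ∀ x : k₁, IsAlgebraic (IntermediateField.adjoin K {t}) x) :
    ∃ ι : k₁ →+* Ω, (∀ c : K, ι (algebraMap K k₁ c) = algebraMap K Ω c) ∧ ι t = T := by
  let e1 := RatFunc.algEquivOfTranscendental t ht
  let e2 := RatFunc.algEquivOfTranscendental T hT
  let e : IntermediateField.adjoin K {t} →ₐ[K] Ω :=
    (IntermediateField.val _).comp (e2.toAlgHom.comp e1.symm.toAlgHom)
  let _ : Algebra (IntermediateField.adjoin K {t}) Ω := e.toRingHom.toAlgebra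
  have : Algebra.IsAlgebraic (IntermediateField.adjoin K {t}) k₁ := ⟨halg⟩
  let ι : k₁ →ₐ[IntermediateField.adjoin K {t}] Ω := IsAlgClosed.lift
  refine ⟨ι.toRingHom, fun c => ?_, ?_⟩
  · have h1 := ι.commutes (algebraMap K _ c)
    have h2 : algebraMap (IntermediateField.adjoin K {t}) Ω (algebraMap K _ c) = algebraMap K Ω c :=
      e.commutes c
    rw [h2] at h1
    exact h1
  · have h1 := ι.commutes (IntermediateField.AdjoinSimple.gen K t)
    have h2 : algebraMap (IntermediateField.adjoin K {t}) Ω (IntermediateField.AdjoinSimple.gen K t)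
        = T := by
      change e _ = T
      change IntermediateField.val _ (e2 (e1.symm (IntermediateField.AdjoinSimple.gen K t))) = T
      rw [RatFunc.algEquivOfTranscendental_symm_gen t ht]
      exact RatFunc.algEquivOfTranscendental_X T hT
    rw [h2] at h1
    exact h1

theorem emb1_tr {K E k₁ Ω : Type u} [Field K] [Field E] [Field k₁] [Algebra K E] [Algebra K k₁]
    [Field Ω] [Algebra E Ω] [Algebra K Ω] [IsScalarTower K E Ω]
    (ι : k₁ →+* Ω) (hι : ∀ c : K, ι (algebraMap K k₁ c) = algebraMap K Ω c) (t d : k₁)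
    (h : IsAlgebraic (IntermediateField.adjoin K {d}) t) (hd : IsAlgebraic E (ι d)) :
    IsAlgebraic E (ι t) := by
  set A := algebraicClosure E Ω with hA
  let M : IntermediateField K k₁ := (A.toSubfield.comap ι).toIntermediateField (fun c => by
    rw [Subfield.mem_comap, hι, IsScalarTower.algebraMap_apply K E Ω]
    exact A.algebraMap_mem _)
  have hM : IntermediateField.adjoin K {d} ≤ M := by
    rw [IntermediateField.adjoin_simple_le_iff]
    exact mem_algebraicClosure_iff.2 hd
  let θ : IntermediateField.adjoin K {d} →+* A :=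
    (ι.comp (algebraMap (IntermediateField.adjoin K {d}) k₁)).codRestrict A (fun x => hM x.2)
  obtain ⟨p, hp, hp0⟩ := h
  have h1 : IsAlgebraic A (ι t) := by
    refine ⟨p.map θ, (Polynomial.map_ne_zero_iff θ.injective).2 hp, ?_⟩
    rw [Polynomial.aeval_def, Polynomial.eval₂_map]
    have h2 : (algebraMap A Ω).comp θ = ι.comp (algebraMap (IntermediateField.adjoin K {d}) k₁) := rfl
    rw [h2, ← Polynomial.hom_eval₂]
    rw [Polynomial.aeval_def] at hp0
    rw [hp0, map_zero]
  exact h1.restrictScalars E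

theorem emb1 {K E k₁ : Type u} [Field K] [Field E] [Field k₁] [Algebra K E] [Algebra K k₁]
    (htd : Td1 K k₁) : ∃ ι : k₁ →+* AlgebraicClosure (RatFunc E),
      (∀ c : K, ι (algebraMap K k₁ c) =
        algebraMap (RatFunc E) (AlgebraicClosure (RatFunc E)) (RatFunc.C (algebraMap K E c))) ∧
      ∀ d : k₁, Transcendental K d → Transcendental E (ι d) := by
  by_cases hex : ∃ t : k₁, Transcendental K t
  · obtain ⟨t, ht⟩ := hex
    obtain ⟨ι, h1, h2⟩ := emb1_ex t ht _ (emb1_TK (K := K) (E := E)) (htd t ht)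
    refine ⟨ι, fun c => (h1 c).trans (emb1_alg c), fun d hd hcon => ?_⟩
    refine emb1_T (E := E) ?_
    rw [← h2]
    exact emb1_tr ι h1 t d (htd d hd t) hcon
  · have hal : ∀ x : k₁, IsAlgebraic K x := fun x => by
      by_contra hx
      exact hex ⟨x, hx⟩
    have : Algebra.IsAlgebraic K k₁ := ⟨hal⟩
    let ι : k₁ →ₐ[K] AlgebraicClosure (RatFunc E) := IsAlgClosed.lift
    refine ⟨ι.toRingHom, fun c => (ι.commutes c).trans (emb1_alg c), fun d hd => ?_⟩
    exact absurd ⟨d, hd⟩ hex

end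

end

section

open Pool.Agent.TBR Polynomial

section

open scoped IntermediateField.algebraAdjoinAdjoin in
private theorem ratalg_trdeg {K k₁ : Type u} [Field K] [Field k₁] [Algebra K k₁]
    (htd : Td1 K k₁) : Algebra.trdeg K k₁ ≤ 1 := by
  by_cases h : Algebra.IsAlgebraic K k₁
  · rw [trdeg_eq_zero]
    exact zero_le_one
  · obtain ⟨t, ht⟩ : ∃ t : k₁, Transcendental K t := by
      by_contra hne
      exact h ⟨fun x => by
        by_contra hx
        exact hne ⟨x, hx⟩⟩
    have h1 : Algebra.IsAlgebraic (IntermediateField.adjoin K {t}) k₁ := ⟨htd t ht⟩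
    have h2 : Algebra.IsAlgebraic (Algebra.adjoin K ({t} : Set k₁)) k₁ :=
      (IsFractionRing.comap_isAlgebraic_iff (K := IntermediateField.adjoin K {t})).mpr h1
    have h3 := Algebra.IsAlgebraic.trdeg_le_cardinalMk K ({t} : Set k₁)
    simpa using h3

theorem ratalg {K k₁ : Type u} [Field K] [Field k₁] [Algebra K k₁] (htd : Td1 K k₁)
    (y : Fin 2 → RatFunc k₁) (ai : AlgebraicIndependent K y) (x : RatFunc k₁) :
    IsAlgebraic (Algebra.adjoin K (Set.range y)) x := by
  have h0 : Algebra.IsAlgebraic (Polynomial k₁) (RatFunc k₁) :=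
    IsLocalization.isAlgebraic (RatFunc k₁) (nonZeroDivisors (Polynomial k₁))
  have h1 : Algebra.trdeg k₁ (RatFunc k₁) = 1 := by
    rw [← trdeg_add_eq k₁ (Polynomial k₁) (A := RatFunc k₁),
      trdeg_eq_zero (R := Polynomial k₁) (A := RatFunc k₁), add_zero,
      Polynomial.trdeg_of_isDomain]
  have h2 : Algebra.trdeg K (RatFunc k₁) ≤ 2 := by
    rw [← trdeg_add_eq K k₁ (A := RatFunc k₁), h1, ← one_add_one_eq_two]
    exact add_le_add_left (ratalg_trdeg htd) 1
  have h3 := ai.isTranscendenceBasis_of_lift_trdeg_le_of_finite (by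
    rw [Cardinal.mk_fin, Cardinal.lift_natCast]
    exact Cardinal.lift_le.mpr h2 |>.trans (by simp))
  exact h3.isAlgebraic.isAlgebraic x

end

end

section

open Pool.Agent.TBR Polynomial

section

theorem rdmk_td1_of_trdeg {E K : Type u} [Field E] [Field K] [Algebra E K]
    (h : Algebra.trdeg E K ≤ 1) : Td1 E K := by
  intro t ht x
  have h5 : AlgebraicIndependent E (fun _ : PUnit.{u+1} => t) :=
    algebraicIndependent_unique_type_iff.2 ht
  have h6 : IsTranscendenceBasis E (fun _ : PUnit.{u+1} => t) := by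
    refine h5.isTranscendenceBasis_of_trdeg_le_of_finite ?_
    rw [Cardinal.mk_punit]
    exact h
  have h7 := h6.isAlgebraic_field
  have h8 : Set.range (fun _ : PUnit.{u+1} => t) = {t} := Set.range_const
  rw [h8] at h7
  exact h7.isAlgebraic x

open scoped IntermediateField.algebraAdjoinAdjoin in
theorem rdmk_trdeg_of_td1 {E K : Type u} [Field E] [Field K] [Algebra E K]
    (h : Td1 E K) : Algebra.trdeg E K ≤ 1 := by
  by_cases h1 : ∃ t : K, Transcendental E t
  · obtain ⟨t, ht⟩ := h1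
    have h2 : Algebra.IsAlgebraic (Algebra.adjoin E {t}) K := by
      refine ⟨fun y => ?_⟩
      exact (IsFractionRing.isAlgebraic_iff (Algebra.adjoin E {t})
        (IntermediateField.adjoin E {t}) K).mpr (h t ht y)
    have := Algebra.IsAlgebraic.trdeg_le_cardinalMk E ({t} : Set K)
    rwa [Cardinal.mk_singleton] at this
  · push Not at h1
    have h2 : Algebra.IsAlgebraic E K := ⟨fun x => by
      by_contra hx
      exact h1 x hx⟩
    rw [_root_.trdeg_eq_zero_iff.2 h2]
    exact zero_le_one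

/-- algebraicity over a generated subalgebra is preserved and reflected by an embedding -/
theorem rdmk_alg_tr {K A B : Type*} [Field K] [Field A] [Field B] [Algebra K A] [Algebra K B]
    (φ : A →ₐ[K] B) (S : Set A) (x : A) :
    IsAlgebraic (Algebra.adjoin K S) x ↔ IsAlgebraic (Algebra.adjoin K (φ '' S)) (φ x) := by
  have hS : Algebra.adjoin K (φ '' S) = (Algebra.adjoin K S).map φ :=
    (AlgHom.map_adjoin φ S).symm
  let f : Algebra.adjoin K S →+* Algebra.adjoin K (φ '' S) :=
    RingHom.codRestrict ((φ : A →+* B).comp (Algebra.adjoin K S).val.toRingHom)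
      (Algebra.adjoin K (φ '' S)) (fun z => by
        rw [hS]
        exact ⟨z, z.2, rfl⟩)
  have hf1 : Function.Injective f := fun a b hab => by
    have := congrArg (fun z : Algebra.adjoin K (φ '' S) => (z : B)) hab
    exact Subtype.ext (φ.injective this)
  have hf2 : Function.Surjective f := fun b => by
    have hb : (b : B) ∈ (Algebra.adjoin K S).map φ := hS ▸ b.2
    obtain ⟨a, ha, hab⟩ := hb
    exact ⟨⟨a, ha⟩, Subtype.ext hab⟩
  have hcomp : (algebraMap (Algebra.adjoin K (φ '' S)) B).comp f =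
      (φ : A →+* B).comp (algebraMap (Algebra.adjoin K S) A) := rfl
  constructor
  · intro h
    exact IsAlgebraic.ringHom_of_comp_eq f (φ : A →+* B) h hf1 hcomp
  · intro h
    exact IsAlgebraic.of_ringHom_of_comp_eq f (φ : A →+* B) h hf2 φ.injective hcomp

/-- the relative algebraic closure of `K[S]` is a field of transcendence degree at most `#S` -/
theorem rdmk_trdeg_le_of_alg {K A : Type u} [Field K] [Field A] [Algebra K A] (S T : Set A)
    (hT : ∀ x ∈ T, IsAlgebraic (Algebra.adjoin K S) x) (hTop : IntermediateField.adjoin K T = ⊤)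
    (x : A) : IsAlgebraic (Algebra.adjoin K S) x := by
  have h1 : ∀ x ∈ IntermediateField.adjoin K T, IsAlgebraic (Algebra.adjoin K S) x := by
    intro x hx
    refine IntermediateField.adjoin_induction K
      (p := fun x _ => IsAlgebraic (Algebra.adjoin K S) x) hT (fun c => ?_)
      (fun a b _ _ ha hb => ha.add hb) (fun a _ ha => ha.inv) (fun a b _ _ ha hb => ha.mul hb) hx
    exact isAlgebraic_algebraMap (R := Algebra.adjoin K S) (algebraMap K (Algebra.adjoin K S) c)
  exact h1 x (by rw [hTop]; trivial)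

theorem rdmk_alg_sub {K A : Type*} [Field K] [Field A] [Algebra K A] {S T : Subalgebra K A}
    (h : S ≤ T) {x : A} (hx : IsAlgebraic S x) : IsAlgebraic T x := by
  obtain ⟨p, hp0, hp⟩ := hx
  refine ⟨p.map (Subalgebra.inclusion h : S →+* T),
    (Polynomial.map_ne_zero_iff (Subalgebra.inclusion_injective h)).2 hp0, ?_⟩
  rw [Polynomial.aeval_def, Polynomial.eval₂_map]
  exact hp

theorem rdmk_dep_of_alg {K A : Type u} [Field K] [Field A] [Algebra K A] (x : A) (y : Fin 2 → A)
    (hy : AlgebraicIndependent K y) (h : ∀ i, IsAlgebraic (Algebra.adjoin K {x}) (y i)) :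
    False := by
  have h1 : (AlgebraicIndependent.matroid K A).Indep (Set.range y) :=
    AlgebraicIndependent.matroid_indep_iff.2 hy.to_subtype_range
  have h2 : Set.range y ⊆ (AlgebraicIndependent.matroid K A).closure {x} := by
    rw [AlgebraicIndependent.matroid_closure_eq]
    rintro _ ⟨i, rfl⟩
    exact h i
  have h3 : (Set.range y).encard = 2 := by
    rw [← Set.image_univ, hy.injective.encard_image, Set.encard_univ]
    simp
  have h4 := h1.eRk_eq_encard
  have h5 := (AlgebraicIndependent.matroid K A).eRk_mono h2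
  rw [Matroid.eRk_closure_eq, h4, h3] at h5
  have h6 := h5.trans (Matroid.eRk_le_encard _ _)
  rw [Set.encard_singleton] at h6
  norm_num at h6

/-- the map of the rational function fields -/
noncomputable def rdmk_rfm {F₁ F₂ : Type*} [Field F₁] [Field F₂] (φ : F₁ →+* F₂) :
    RatFunc F₁ →+* RatFunc F₂ :=
  IsFractionRing.lift (A := Polynomial F₁) (g := (algebraMap (Polynomial F₂) (RatFunc F₂)).comp
    (Polynomial.mapRingHom φ)) (by
      intro a b hab
      have h1 := (RatFunc.algebraMap_injective F₂) hab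
      exact Polynomial.map_injective φ φ.injective h1)

theorem rdmk_rfm_alg {F₁ F₂ : Type*} [Field F₁] [Field F₂] (φ : F₁ →+* F₂) (p : Polynomial F₁) :
    rdmk_rfm φ (algebraMap (Polynomial F₁) (RatFunc F₁) p) =
      algebraMap (Polynomial F₂) (RatFunc F₂) (p.map φ) := by
  unfold rdmk_rfm
  rw [IsFractionRing.lift_algebraMap]
  rfl

theorem rdmk_rfm_C {F₁ F₂ : Type*} [Field F₁] [Field F₂] (φ : F₁ →+* F₂) (c : F₁) :
    rdmk_rfm φ (RatFunc.C c) = RatFunc.C (φ c) := by
  rw [← RatFunc.algebraMap_C, rdmk_rfm_alg, Polynomial.map_C, RatFunc.algebraMap_C]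

theorem rdmk_rfm_X {F₁ F₂ : Type*} [Field F₁] [Field F₂] (φ : F₁ →+* F₂) :
    rdmk_rfm φ (RatFunc.X) = RatFunc.X := by
  rw [← RatFunc.algebraMap_X, rdmk_rfm_alg, Polynomial.map_X, RatFunc.algebraMap_X]

/-- one of the coefficients of a ruled parametrization is transcendental -/
theorem rdmk_ru_trans {K k₁ : Type u} [Field K] [Field k₁] [Algebra K k₁]
    {f g : MvPolynomial (Fin 2) K} {l : K} {𝒟₁ : Finset k₁}
    {n₁ : Fin 3 → Polynomial k₁} {δ₁ : Polynomial k₁} {y₁ : Fin 3 → RatFunc k₁}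
    (h : RU f g l 𝒟₁ n₁ δ₁ y₁) : ∃ d ∈ 𝒟₁, Transcendental K d := by
  by_contra hcon
  push Not at hcon
  have hcon' : ∀ d ∈ 𝒟₁, IsAlgebraic K d := fun d hd => by
    by_contra h1
    exact hcon d hd h1
  have hC : ∀ c ∈ Algebra.adjoin K (𝒟₁ : Set k₁), IsAlgebraic K c := by
    intro c hc
    refine Algebra.adjoin_induction (p := fun c _ => IsAlgebraic K c) (fun d hd => hcon' d hd)
      (fun r => isAlgebraic_algebraMap r) (fun a b _ _ ha hb => ha.add hb)
      (fun a b _ _ ha hb => ha.mul hb) hc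
  have hCC : ∀ c ∈ Algebra.adjoin K (𝒟₁ : Set k₁),
      IsAlgebraic (Algebra.adjoin K {(RatFunc.X : RatFunc k₁)}) (RatFunc.C c) := by
    intro c hc
    have h1 : IsAlgebraic K (algebraMap k₁ (RatFunc k₁) c) := (hC c hc).algebraMap
    rw [RatFunc.algebraMap_eq_C] at h1
    exact h1.extendScalars (FaithfulSMul.algebraMap_injective K _)
  have hX : IsAlgebraic (Algebra.adjoin K {(RatFunc.X : RatFunc k₁)}) (RatFunc.X : RatFunc k₁) :=
    isAlgebraic_algebraMap (⟨RatFunc.X, Algebra.subset_adjoin rfl⟩ :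
      Algebra.adjoin K {(RatFunc.X : RatFunc k₁)})
  have hP : ∀ p : Polynomial k₁, (∀ m, p.coeff m ∈ Algebra.adjoin K (𝒟₁ : Set k₁)) →
      IsAlgebraic (Algebra.adjoin K {(RatFunc.X : RatFunc k₁)})
        (algebraMap (Polynomial k₁) (RatFunc k₁) p) := by
    intro p hp
    rw [p.as_sum_range_C_mul_X_pow, map_sum]
    refine Finset.sum_induction _ (fun z => IsAlgebraic (Algebra.adjoin K
      {(RatFunc.X : RatFunc k₁)}) z) (fun a b ha hb => ha.add hb) isAlgebraic_zero fun m _ => ?_
    rw [map_mul, map_pow, RatFunc.algebraMap_C, RatFunc.algebraMap_X]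
    exact (hCC _ (hp m)).mul (hX.pow m)
  have hy : ∀ i, IsAlgebraic (Algebra.adjoin K {(RatFunc.X : RatFunc k₁)}) (y₁ i) := by
    intro i
    have h1 : y₁ i = algebraMap (Polynomial k₁) (RatFunc k₁) (n₁ i) *
        (algebraMap (Polynomial k₁) (RatFunc k₁) δ₁)⁻¹ := by
      rw [← h.y_eq i, mul_assoc, mul_inv_cancel₀, mul_one]
      exact RatFunc.algebraMap_ne_zero h.d0
    rw [h1]
    exact (hP _ (h.cn i)).mul (hP _ h.cd).inv
  refine rdmk_dep_of_alg (RatFunc.X : RatFunc k₁) _ h.ai fun i => ?_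
  fin_cases i
  · exact hy 0
  · exact hy 1

/-- two elements over which everything is algebraic -/
theorem rdmk_ai_of_alg {E N : Type u} [Field E] [Field N] [Algebra E N] (y : Fin 2 → N)
    (h1 : ∀ x : N, IsAlgebraic (Algebra.adjoin E (Set.range y)) x)
    (h2 : (2 : Cardinal.{u}) ≤ Algebra.trdeg E N) : AlgebraicIndependent E y := by
  have h0 : Algebra.IsAlgebraic (Algebra.adjoin E (Set.range y)) N := ⟨h1⟩
  have h3 : Cardinal.lift.{u} (Cardinal.mk (Fin 2)) ≤
      Cardinal.lift.{0} (Algebra.trdeg E N) := by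
    simpa using h2
  exact (Algebra.IsAlgebraic.isTranscendenceBasis_of_lift_le_trdeg_of_finite E y h3).1

theorem rdmk_two_le_trdeg {E M N : Type u} [Field E] [Field M] [Field N] [Algebra E M] [Algebra M N]
    [Algebra E N] [IsScalarTower E M N] (a : M) (ha : Transcendental E a) (θ : N)
    (hθ : Transcendental M θ) : (2 : Cardinal.{u}) ≤ Algebra.trdeg E N := by
  have h3 : (1 : Cardinal.{u}) ≤ Algebra.trdeg E M := by
    have h5 : AlgebraicIndependent E (fun _ : PUnit.{u+1} => a) :=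
      algebraicIndependent_unique_type_iff.2 ha
    have h6 := h5.cardinalMk_le_trdeg
    rwa [Cardinal.mk_punit] at h6
  have h4 : (1 : Cardinal.{u}) ≤ Algebra.trdeg M N := by
    have h5 : AlgebraicIndependent M (fun _ : PUnit.{u+1} => θ) :=
      algebraicIndependent_unique_type_iff.2 hθ
    have h6 := h5.cardinalMk_le_trdeg
    rwa [Cardinal.mk_punit] at h6
  rw [← _root_.trdeg_add_eq E M (A := N)]
  calc (2 : Cardinal.{u}) = 1 + 1 := by norm_num
    _ ≤ _ := add_le_add h3 h4

/-- algebraicity over a larger ring of constants -/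
theorem rdmk_alg_base {K E N : Type u} [Field K] [Field E] [Field N] [Algebra K E] [Algebra K N]
    [Algebra E N] [IsScalarTower K E N] (S : Set N) (x : N)
    (hx : IsAlgebraic (Algebra.adjoin K S) x) : IsAlgebraic (Algebra.adjoin E S) x := by
  have hle : ∀ z ∈ Algebra.adjoin K S, z ∈ Algebra.adjoin E S := by
    intro z hz
    refine Algebra.adjoin_induction (p := fun z _ => z ∈ Algebra.adjoin E S)
      (fun d hd => Algebra.subset_adjoin hd) (fun r => ?_)
      (fun a b _ _ ha hb => add_mem ha hb) (fun a b _ _ ha hb => mul_mem ha hb) hz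
    rw [IsScalarTower.algebraMap_apply K E N]
    exact Subalgebra.algebraMap_mem _ _
  let φ : Algebra.adjoin K S →+* Algebra.adjoin E S :=
    RingHom.codRestrict (Algebra.adjoin K S).val.toRingHom
      (Algebra.adjoin E S) (fun z => hle z z.2)
  have hφ : Function.Injective φ := fun a b hab =>
    Subtype.ext (congrArg (fun z : Algebra.adjoin E S => (z : N)) hab)
  exact IsAlgebraic.ringHom_of_comp_eq φ (RingHom.id N) hx hφ rfl

theorem rdmk_aux {K E k₁ EE : Type u} [Field K] [Field E] [Field k₁] [Field EE]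
    [Algebra K E] [Algebra K k₁] [Algebra E EE] [Algebra K EE] [IsScalarTower K E EE]
    (f g : MvPolynomial (Fin 2) K) (l : K) (𝒟₁ : Finset k₁)
    (n₁ : Fin 3 → Polynomial k₁) (δ₁ : Polynomial k₁) (y₁ : Fin 3 → RatFunc k₁)
    (h : RU f g l 𝒟₁ n₁ δ₁ y₁) (ι : k₁ →+* EE)
    (hιK : ∀ c : K, ι (algebraMap K k₁ c) = algebraMap K EE c)
    (hιt : ∀ d : k₁, Transcendental K d → Transcendental E (ι d))
    (htrEE : Algebra.trdeg E EE ≤ 1) :
    ∃ (M N : Type u) (_ : Field M) (_ : Field N) (_ : Algebra E M) (_ : Algebra M N)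
      (_ : Algebra E N) (_ : Algebra K M) (_ : Algebra K N) (_ : IsScalarTower E M N)
      (_ : IsScalarTower K E M) (_ : IsScalarTower K E N) (_ : IsScalarTower K M N)
      (𝒟 : Finset M) (θ : N) (n : Fin 3 → Polynomial M) (δ : Polynomial M) (y : Fin 3 → N),
      RD (k' := K) (MvPolynomial.map (algebraMap K E) f) (MvPolynomial.map (algebraMap K E) g)
        (algebraMap K E l) 𝒟 θ n δ y ∧
      Algebra.trdeg K (Algebra.adjoin K (𝒟 : Set M)) ≤ 1 ∧
      ∀ a : k₁, 𝒟₁ = {a} → Transcendental K a → ∃ a₀ : M, 𝒟 = {a₀} ∧ Transcendental E a₀ := by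
  classical
  obtain ⟨ιK, hιKι⟩ : ∃ ιK : k₁ →ₐ[K] EE, ∀ x, ιK x = ι x :=
    ⟨{ ι with commutes' := hιK }, fun _ => rfl⟩
  obtain ⟨M, hMdef⟩ : ∃ M : IntermediateField E EE,
    M = IntermediateField.adjoin E (ι '' (𝒟₁ : Set k₁)) := ⟨_, rfl⟩
  obtain ⟨jM, hjM⟩ : ∃ jM : M →ₐ[K] EE, ∀ x : M, jM x =
      (x : EE) :=
    ⟨{ algebraMap M EE with commutes' := fun c => rfl },
      fun _ => rfl⟩
  have hjMi : Function.Injective jM := jM.injective
  -- the finite set
  have hmemM : ∀ d ∈ 𝒟₁, ι d ∈ M := fun d hd => by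
    rw [hMdef]
    exact IntermediateField.subset_adjoin E _ ⟨d, hd, rfl⟩
  obtain ⟨𝒟, h𝒟def⟩ : ∃ 𝒟 : Finset M, 𝒟 = 𝒟₁.attach.image
    (fun d : {x // x ∈ 𝒟₁} => (⟨ι (d : k₁), hmemM d d.2⟩ : M)) := ⟨_, rfl⟩
  have h𝒟 : jM '' (𝒟 : Set M) = ιK '' (𝒟₁ : Set k₁) := by
    ext z
    constructor
    · rintro ⟨x, hx, rfl⟩
      rw [Finset.mem_coe, h𝒟def, Finset.mem_image] at hx
      obtain ⟨d, -, rfl⟩ := hx
      exact ⟨d, d.2, by rw [hιKι, hjM]⟩
    · rintro ⟨d, hd, rfl⟩
      exact ⟨⟨ι d, hmemM d hd⟩, Finset.mem_coe.2 (h𝒟def ▸ Finset.mem_image.2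
        ⟨⟨d, hd⟩, Finset.mem_attach _ _, rfl⟩), by rw [hιKι, hjM]⟩
  -- coefficients
  have hadj : ∀ c ∈ Algebra.adjoin K (𝒟₁ : Set k₁), ∃ x : M, x ∈ Algebra.adjoin K (𝒟 : Set M) ∧
      jM x = ι c := by
    intro c hc
    have h1 : ιK c ∈ (Algebra.adjoin K (𝒟₁ : Set k₁)).map ιK := ⟨c, hc, rfl⟩
    rw [AlgHom.map_adjoin, ← h𝒟, ← AlgHom.map_adjoin] at h1
    obtain ⟨x, hx, hxc⟩ := h1
    exact ⟨x, hx, (hxc : jM x = ιK c).trans (hιKι c)⟩
  have hpol : ∀ p : Polynomial k₁, (∀ m, p.coeff m ∈ Algebra.adjoin K (𝒟₁ : Set k₁)) →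
      ∃ q : Polynomial M, (∀ m, q.coeff m ∈ Algebra.adjoin K (𝒟 : Set M)) ∧
        q.map (jM : M →+* EE) = p.map ι := by
    intro p hp
    have h1 : p.map ι ∈ Polynomial.lifts (jM : M →+* EE) := by
      rw [Polynomial.lifts_iff_coeff_lifts]
      intro m
      rw [Polynomial.coeff_map]
      obtain ⟨x, -, hx⟩ := hadj _ (hp m)
      exact ⟨x, hx⟩
    obtain ⟨q, hq⟩ := (Polynomial.mem_lifts _).1 h1
    refine ⟨q, fun m => ?_, hq⟩
    obtain ⟨x, hx1, hx2⟩ := hadj _ (hp m)
    have h2 := congrArg (fun r => Polynomial.coeff r m) hq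
    simp only [Polynomial.coeff_map] at h2
    have h3 : q.coeff m = x := hjMi (by rw [hx2, ← h2]; rfl)
    rw [h3]
    exact hx1
  choose n hn1 hn2 using fun i => hpol (n₁ i) (h.cn i)
  obtain ⟨δ, hδ1, hδ2⟩ := hpol δ₁ h.cd
  have hδ0 : δ ≠ 0 := by
    intro h0
    rw [h0, Polynomial.map_zero] at hδ2
    exact h.d0 ((Polynomial.map_eq_zero_iff ι.injective).1 hδ2.symm)
  -- the rational function fields
  have hJK : ∀ c : K, rdmk_rfm (jM : M →+* EE) (algebraMap K (RatFunc M) c) =
      algebraMap K (RatFunc EE) c := by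
    intro c
    rw [IsScalarTower.algebraMap_apply K M (RatFunc M), RatFunc.algebraMap_eq_C, rdmk_rfm_C,
      IsScalarTower.algebraMap_apply K EE
        (RatFunc EE), RatFunc.algebraMap_eq_C]
    congr 1
    exact jM.commutes c
  have hIK : ∀ c : K, rdmk_rfm ι (algebraMap K (RatFunc k₁) c) =
      algebraMap K (RatFunc EE) c := by
    intro c
    rw [IsScalarTower.algebraMap_apply K k₁ (RatFunc k₁), RatFunc.algebraMap_eq_C, rdmk_rfm_C,
      IsScalarTower.algebraMap_apply K EE
        (RatFunc EE), RatFunc.algebraMap_eq_C, hιK]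
  obtain ⟨J, hJ⟩ : ∃ J : RatFunc M →ₐ[K] RatFunc EE, ∀ x,
      J x = rdmk_rfm (jM : M →+* EE) x :=
    ⟨{ rdmk_rfm (jM : M →+* EE) with commutes' := hJK }, fun _ => rfl⟩
  obtain ⟨I, hI⟩ : ∃ I : RatFunc k₁ →ₐ[K] RatFunc EE, ∀ x,
      I x = rdmk_rfm ι x := ⟨{ rdmk_rfm ι with commutes' := hIK }, fun _ => rfl⟩
  obtain ⟨y, hydef⟩ : ∃ y : Fin 3 → RatFunc M, ∀ i, y i =
    algebraMap (Polynomial M) (RatFunc M) (n i) / algebraMap (Polynomial M) (RatFunc M) δ :=
    ⟨_, fun _ => rfl⟩
  have hδr : algebraMap (Polynomial M) (RatFunc M) δ ≠ 0 := RatFunc.algebraMap_ne_zero hδ0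
  have hδr₁ : algebraMap (Polynomial k₁) (RatFunc k₁) δ₁ ≠ 0 := RatFunc.algebraMap_ne_zero h.d0
  have hJy : ∀ i, J (y i) = I (y₁ i) := by
    intro i
    have h1 : y₁ i = algebraMap (Polynomial k₁) (RatFunc k₁) (n₁ i) /
        algebraMap (Polynomial k₁) (RatFunc k₁) δ₁ := by
      rw [eq_div_iff hδr₁, h.y_eq]
    rw [h1, hydef i]
    rw [map_div₀, map_div₀, hJ, hJ, hI, hI, rdmk_rfm_alg, rdmk_rfm_alg, rdmk_rfm_alg, rdmk_rfm_alg, hn2, hδ2]
  have hJi : Function.Injective J := J.injective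
  have hII : Function.Injective I := I.injective
  have hrange : J '' (Set.range ![y 0, y 1]) = I '' (Set.range ![y₁ 0, y₁ 1]) := by
    have e1 : J ∘ ![y 0, y 1] = I ∘ ![y₁ 0, y₁ 1] := by
      funext i
      fin_cases i
      · exact hJy 0
      · exact hJy 1
    rw [← Set.range_comp, ← Set.range_comp, e1]
  -- algebraic elements
  have halg : ∀ (x : RatFunc M) (x₁ : RatFunc k₁), J x = I x₁ →
      IsAlgebraic (Algebra.adjoin K (Set.range ![y 0, y 1])) x := by
    intro x x₁ hx
    rw [rdmk_alg_tr J, hrange, hx, ← rdmk_alg_tr I]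
    exact ratalg h.td _ h.ai x₁
  have halgθ : IsAlgebraic (Algebra.adjoin K (Set.range ![y 0, y 1])) (RatFunc.X : RatFunc M) :=
    halg _ RatFunc.X (by rw [hJ, hI, rdmk_rfm_X, rdmk_rfm_X])
  have halgD : ∀ d ∈ 𝒟, IsAlgebraic (Algebra.adjoin K (Set.range ![y 0, y 1]))
      (algebraMap M (RatFunc M) d) := by
    intro d hd
    rw [h𝒟def, Finset.mem_image] at hd
    obtain ⟨d₁, -, rfl⟩ := hd
    refine halg _ (RatFunc.C (d₁ : k₁)) ?_
    rw [hJ, hI, RatFunc.algebraMap_eq_C, rdmk_rfm_C, rdmk_rfm_C]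
    congr 1
    exact hjM _
  have hsub : Algebra.adjoin K (Set.range ![y 0, y 1]) ≤ Algebra.adjoin K (Set.range y) := by
    refine Algebra.adjoin_mono ?_
    rintro _ ⟨i, rfl⟩
    fin_cases i
    · exact ⟨0, rfl⟩
    · exact ⟨1, rfl⟩
  -- transcendence degrees
  have htM : ∀ d (hd : d ∈ 𝒟₁), Transcendental K d →
      Transcendental E (⟨ι d, hmemM d hd⟩ : M) := by
    intro d hd hdt halg
    exact hιt d hdt (halg.algebraMap (A := EE))
  have htrM : Algebra.trdeg E M ≤ 1 :=
    (_root_.trdeg_le_of_injective M.val M.val.injective).trans htrEE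
  -- the algebraic independence over `E`
  have hgD : IntermediateField.adjoin E (𝒟 : Set M) = ⊤ := by
    rw [eq_top_iff]
    intro x _
    have h1 : (x : EE) ∈ (IntermediateField.adjoin E (𝒟 : Set M)).map
        M.val := by
      rw [IntermediateField.adjoin_map]
      have h2 : (M.val '' (𝒟 : Set M)) = ι '' (𝒟₁ : Set k₁) := by
        have e1 : M.val '' (𝒟 : Set M) = jM '' (𝒟 : Set M) :=
          Set.image_congr fun x _ => (hjM x).symm
        rw [e1, h𝒟]
        exact Set.image_congr fun x _ => hιKι x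
      rw [h2, ← hMdef]
      exact x.2
    obtain ⟨x', hx', hxx⟩ := h1
    have h3 : x' = x := Subtype.ext hxx
    rw [← h3]
    exact hx'
  have hEtop : IntermediateField.adjoin E (({RatFunc.X} : Set (RatFunc M)) ∪
      (algebraMap M (RatFunc M)) '' (𝒟 : Set M)) = ⊤ := by
    rw [eq_top_iff]
    have h1 : ∀ m : M, algebraMap M (RatFunc M) m ∈ IntermediateField.adjoin E
        (({RatFunc.X} : Set (RatFunc M)) ∪ (algebraMap M (RatFunc M)) '' (𝒟 : Set M)) := by
      intro m
      have hm : m ∈ IntermediateField.adjoin E (𝒟 : Set M) := by rw [hgD]; trivial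
      refine IntermediateField.adjoin_induction E (p := fun m _ =>
        algebraMap M (RatFunc M) m ∈ IntermediateField.adjoin E
        (({RatFunc.X} : Set (RatFunc M)) ∪ (algebraMap M (RatFunc M)) '' (𝒟 : Set M)))
        (fun d hd => IntermediateField.subset_adjoin E _ (Or.inr ⟨d, hd, rfl⟩)) (fun c => ?_)
        (fun a b _ _ ha hb => ?_) (fun a _ ha => ?_) (fun a b _ _ ha hb => ?_) hm
      · rw [← IsScalarTower.algebraMap_apply E M (RatFunc M)]
        exact IntermediateField.algebraMap_mem _ c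
      · rw [map_add]; exact add_mem ha hb
      · rw [map_inv₀]; exact inv_mem ha
      · rw [map_mul]; exact mul_mem ha hb
    intro x _
    have hx : x ∈ IntermediateField.adjoin M {(RatFunc.X : RatFunc M)} := by
      rw [RatFunc.adjoin_X]; trivial
    refine IntermediateField.adjoin_induction M (p := fun x _ => x ∈ IntermediateField.adjoin E
        (({RatFunc.X} : Set (RatFunc M)) ∪ (algebraMap M (RatFunc M)) '' (𝒟 : Set M)))
        (fun d hd => IntermediateField.subset_adjoin E _ (Or.inl hd)) (fun c => h1 c)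
        (fun a b _ _ ha hb => add_mem ha hb) (fun a _ ha => inv_mem ha)
        (fun a b _ _ ha hb => mul_mem ha hb) hx
  have hai : AlgebraicIndependent E ![y 0, y 1] := by
    obtain ⟨d, hd, hdt⟩ := rdmk_ru_trans h
    refine rdmk_ai_of_alg _ (fun x => rdmk_trdeg_le_of_alg _ _ ?_ hEtop x)
      (rdmk_two_le_trdeg (⟨ι d, hmemM d hd⟩ : M) (htM d hd hdt) (RatFunc.X : RatFunc M)
        RatFunc.transcendental_X)
    rintro x (hx | ⟨d, hd, rfl⟩)
    · rw [Set.mem_singleton_iff] at hx
      rw [hx]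
      exact rdmk_alg_base _ _ halgθ
    · exact rdmk_alg_base _ _ (halgD d hd)
  have hfE : ∀ (q : MvPolynomial (Fin 2) K), MvPolynomial.aeval ![y 0, y 1]
      (MvPolynomial.map (algebraMap K E) q) = MvPolynomial.aeval ![y 0, y 1] q := by
    intro q
    exact MvPolynomial.aeval_map_algebraMap E ![y 0, y 1] q
  have hJq : ∀ (q : MvPolynomial (Fin 2) K), J (MvPolynomial.aeval ![y 0, y 1] q) =
      I (MvPolynomial.aeval ![y₁ 0, y₁ 1] q) := by
    intro q
    have e1 : (fun i => J (![y 0, y 1] i)) = fun i => I (![y₁ 0, y₁ 1] i) := by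
      funext i
      fin_cases i
      · exact hJy 0
      · exact hJy 1
    have e2 := AlgHom.congr_fun (MvPolynomial.comp_aeval ![y 0, y 1] J) q
    have e3 := AlgHom.congr_fun (MvPolynomial.comp_aeval ![y₁ 0, y₁ 1] I) q
    rw [AlgHom.comp_apply] at e2 e3
    rw [e2, e3, e1]
  have hJl : J (algebraMap E (RatFunc M) (algebraMap K E l)) =
      I (algebraMap K (RatFunc k₁) l) := by
    rw [← IsScalarTower.algebraMap_apply K E (RatFunc M), AlgHom.commutes, AlgHom.commutes]
  have hθ : ∀ p : Polynomial M, Polynomial.aeval (RatFunc.X : RatFunc M) p =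
      algebraMap (Polynomial M) (RatFunc M) p := fun p => RatFunc.aeval_X_left_eq_algebraMap p
  have hRD : RD (k' := K) (MvPolynomial.map (algebraMap K E) f)
      (MvPolynomial.map (algebraMap K E) g) (algebraMap K E l) 𝒟 (RatFunc.X : RatFunc M) n δ y := by
    refine ⟨rdmk_td1_of_trdeg htrM, hgD, RatFunc.transcendental_X, RatFunc.adjoin_X, hn1, hδ1, hδ0,
      fun i => ?_, hai, ?_, fun d hd => rdmk_alg_sub hsub (halgD d hd), rdmk_alg_sub hsub halgθ⟩
    · rw [hθ, hθ, hydef]
      exact div_mul_cancel₀ _ hδr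
    · apply hJi
      rw [hfE, hfE, map_mul, map_sub, map_mul, map_pow, hJq, hJq, hJl, hJy, ← map_pow, ← map_mul,
        ← map_mul, ← map_sub, h.eq]
  have htrD : Algebra.trdeg K (Algebra.adjoin K (𝒟 : Set M)) ≤ 1 := by
    have e0 : (Algebra.adjoin K (𝒟 : Set M)).map jM =
        (Algebra.adjoin K (𝒟₁ : Set k₁)).map ιK := by
      rw [AlgHom.map_adjoin, AlgHom.map_adjoin, h𝒟]
    have e1 := (Subalgebra.equivMapOfInjective (Algebra.adjoin K (𝒟 : Set M)) jM
      jM.injective).trdeg_eq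
    have e2 := (Subalgebra.equivMapOfInjective (Algebra.adjoin K (𝒟₁ : Set k₁)) ιK
      ιK.injective).trdeg_eq
    rw [e1, e0, ← e2]
    exact (_root_.trdeg_le_of_injective (Algebra.adjoin K (𝒟₁ : Set k₁)).val
      Subtype.val_injective).trans (rdmk_trdeg_of_td1 h.td)
  refine ⟨M, RatFunc M, inferInstance, inferInstance, inferInstance, inferInstance, inferInstance,
    inferInstance, inferInstance, inferInstance, inferInstance, inferInstance, inferInstance,
    𝒟, RatFunc.X, n, δ, y, hRD, htrD, ?_⟩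
  intro a ha hat
  have haD : a ∈ 𝒟₁ := by rw [ha]; exact Finset.mem_singleton_self a
  refine ⟨⟨ι a, hmemM a haD⟩, ?_, htM a haD hat⟩
  ext x
  rw [h𝒟def, Finset.mem_image, Finset.mem_singleton]
  constructor
  · rintro ⟨d, -, rfl⟩
    have h1 : ∀ x ∈ 𝒟₁, x = a := fun x hx => by rwa [ha, Finset.mem_singleton] at hx
    exact Subtype.ext (congrArg ι (h1 d d.2))
  · rintro rfl
    exact ⟨⟨a, haD⟩, Finset.mem_attach _ _, rfl⟩

theorem rdmk {K E k₁ : Type u} [Field K] [Field E] [IsAlgClosed E] [Field k₁] [Algebra K E]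
    [Algebra K k₁] (f g : MvPolynomial (Fin 2) K) (hg : g ≠ 0) (l : K) (𝒟₁ : Finset k₁)
    (n₁ : Fin 3 → Polynomial k₁) (δ₁ : Polynomial k₁) (y₁ : Fin 3 → RatFunc k₁)
    (h : RU f g l 𝒟₁ n₁ δ₁ y₁) :
    ∃ (M N : Type u) (_ : Field M) (_ : Field N) (_ : Algebra E M) (_ : Algebra M N)
      (_ : Algebra E N) (_ : Algebra K M) (_ : Algebra K N) (_ : IsScalarTower E M N)
      (_ : IsScalarTower K E M) (_ : IsScalarTower K E N) (_ : IsScalarTower K M N)
      (𝒟 : Finset M) (θ : N) (n : Fin 3 → Polynomial M) (δ : Polynomial M) (y : Fin 3 → N),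
      RD (k' := K) (MvPolynomial.map (algebraMap K E) f) (MvPolynomial.map (algebraMap K E) g)
        (algebraMap K E l) 𝒟 θ n δ y ∧
      Algebra.trdeg K (Algebra.adjoin K (𝒟 : Set M)) ≤ 1 ∧
      ∀ a : k₁, 𝒟₁ = {a} → Transcendental K a → ∃ a₀ : M, 𝒟 = {a₀} ∧ Transcendental E a₀ := by
  obtain ⟨ι, hι, hιt⟩ := emb1 (E := E) h.td
  -- `ι` as a homomorphism over `K`
  have hιK : ∀ c : K, ι (algebraMap K k₁ c) = algebraMap K (AlgebraicClosure (RatFunc E)) c := by
    intro c
    rw [hι, IsScalarTower.algebraMap_apply K (RatFunc E) (AlgebraicClosure (RatFunc E)),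
      IsScalarTower.algebraMap_apply K E (RatFunc E), RatFunc.algebraMap_eq_C]
  have htrEE : Algebra.trdeg E (AlgebraicClosure (RatFunc E)) ≤ 1 := by
    have h1 : Algebra.IsAlgebraic (Algebra.adjoin E {(RatFunc.X : RatFunc E)}) (RatFunc E) := by
      refine ⟨fun x => rdmk_trdeg_le_of_alg {(RatFunc.X : RatFunc E)} {(RatFunc.X : RatFunc E)} ?_
        RatFunc.adjoin_X x⟩
      intro x hx
      exact isAlgebraic_algebraMap (⟨x, Algebra.subset_adjoin hx⟩ :
        Algebra.adjoin E {(RatFunc.X : RatFunc E)})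
    have h2 : Algebra.trdeg E (RatFunc E) ≤ 1 := by
      have := Algebra.IsAlgebraic.trdeg_le_cardinalMk E ({RatFunc.X} : Set (RatFunc E))
      rwa [Cardinal.mk_singleton] at this
    have h3 : Algebra.trdeg (RatFunc E) (AlgebraicClosure (RatFunc E)) = 0 :=
      _root_.trdeg_eq_zero_iff.2 inferInstance
    have h4 := _root_.trdeg_add_eq E (RatFunc E) (A := AlgebraicClosure (RatFunc E))
    rw [h3, add_zero] at h4
    rw [← h4]
    exact h2
  exact rdmk_aux f g l 𝒟₁ n₁ δ₁ y₁ h ι hιK hιt htrEE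

end

end

section

open Pool.Agent.TBR Polynomial

section

private theorem rgA_td (K : Type u) [Field K] : Td1 K (RatFunc K) := by
  have h0 : Algebra.IsAlgebraic (Polynomial K) (RatFunc K) :=
    IsLocalization.isAlgebraic (RatFunc K) (nonZeroDivisors (Polynomial K))
  have h1 : Algebra.trdeg K (RatFunc K) = 1 := by
    rw [← trdeg_add_eq K (Polynomial K) (A := RatFunc K),
      trdeg_eq_zero (R := Polynomial K) (A := RatFunc K), add_zero,
      Polynomial.trdeg_of_isDomain]
  intro t ht x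
  have h2 : AlgebraicIndependent K (fun _ : PUnit.{u+1} => t) := by
    rw [algebraicIndependent_unique_type_iff]
    exact ht
  have h3 := (h2.isTranscendenceBasis_of_trdeg_le_of_finite (by simpa using h1.le)).isAlgebraic_field
  have h4 : Set.range (fun _ : PUnit.{u+1} => t) = {t} := Set.range_const
  rw [h4] at h3
  exact h3.isAlgebraic x

private theorem rgA_psi (K : Type u) [Field K] :
    ∃ ψ : MvPolynomial (Fin 2) K →ₐ[K] Polynomial (RatFunc K), Function.Injective ψ ∧
      ∀ p m, (ψ p).coeff m ∈ Algebra.adjoin K ({RatFunc.X} : Set (RatFunc K)) := by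
  let α : MvPolynomial (Fin 1) K →ₐ[K] RatFunc K := MvPolynomial.aeval fun _ => RatFunc.X
  have hα : Function.Injective α := by
    have h1 : AlgebraicIndependent K (fun _ : Fin 1 => (RatFunc.X : RatFunc K)) := by
      rw [algebraicIndependent_unique_type_iff]
      exact RatFunc.transcendental_X
    exact h1
  refine ⟨(Polynomial.mapAlgHom α).comp (MvPolynomial.finSuccEquiv K 1).toAlgHom, ?_, ?_⟩
  · exact (Polynomial.map_injective α.toRingHom hα).comp (MvPolynomial.finSuccEquiv K 1).injective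
  · intro p m
    change (Polynomial.map α.toRingHom (MvPolynomial.finSuccEquiv K 1 p)).coeff m ∈ _
    rw [Polynomial.coeff_map]
    have h1 : α ((MvPolynomial.finSuccEquiv K 1 p).coeff m) ∈
        (MvPolynomial.aeval fun _ : Fin 1 => (RatFunc.X : RatFunc K)).range := ⟨_, rfl⟩
    rw [← Algebra.adjoin_range_eq_range_aeval, Set.range_const] at h1
    exact h1

theorem rgA {k K : Type u} [Field k] [Field K] [Algebra k K] (f g : MvPolynomial (Fin 2) k) (l : K)
    (h : DPU f g K l) :
    ∃ (n : Fin 3 → Polynomial (RatFunc K)) (δ : Polynomial (RatFunc K))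
      (y : Fin 3 → RatFunc (RatFunc K)),
      RU (MvPolynomial.map (algebraMap k K) f) (MvPolynomial.map (algebraMap k K) g) l
        {RatFunc.X} n δ y := by
  classical
  obtain ⟨ψ, hψ, hψc⟩ := rgA_psi K
  obtain ⟨X, W, hX, hW⟩ := h
  have hg : Function.Injective ((IsScalarTower.toAlgHom K (Polynomial (RatFunc K))
      (RatFunc (RatFunc K))).comp ψ) :=
    (IsFractionRing.injective (Polynomial (RatFunc K)) (RatFunc (RatFunc K))).comp hψ
  let Φ : FractionRing (MvPolynomial (Fin 2) K) →ₐ[K] RatFunc (RatFunc K) :=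
    IsFractionRing.liftAlgHom hg
  have hΦ : ∀ a : MvPolynomial (Fin 2) K, Φ (algebraMap _ _ a) =
      algebraMap (Polynomial (RatFunc K)) (RatFunc (RatFunc K)) (ψ a) := by
    intro a
    rw [IsFractionRing.liftAlgHom_apply, IsFractionRing.lift_algebraMap]
    rfl
  obtain ⟨b, hb⟩ := IsLocalization.exist_integer_multiples_of_finite
    (nonZeroDivisors (MvPolynomial (Fin 2) K)) ![X 0, X 1, W]
  choose N hN using hb
  have hΦb : ∀ i, Φ (![X 0, X 1, W] i) *
      algebraMap (Polynomial (RatFunc K)) (RatFunc (RatFunc K)) (ψ b) =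
      algebraMap (Polynomial (RatFunc K)) (RatFunc (RatFunc K)) (ψ (N i)) := by
    intro i
    rw [← hΦ, ← hΦ, hN, ← map_mul, Algebra.smul_def, mul_comm]
  have hy : ![Φ (X 0), Φ (X 1)] = fun i => Φ (X i) := by
    funext i
    fin_cases i <;> rfl
  have hev : ∀ p : MvPolynomial (Fin 2) k, Φ (MvPolynomial.aeval X p) =
      MvPolynomial.aeval (fun i => Φ (X i)) (MvPolynomial.map (algebraMap k K) p) := by
    intro p
    rw [← MvPolynomial.aeval_map_algebraMap K X p, MvPolynomial.comp_aeval_apply]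
  refine ⟨fun i => ψ (N i), ψ b, fun i => Φ (![X 0, X 1, W] i), ⟨rgA_td K, ?_, ?_, ?_, hΦb, ?_, ?_⟩⟩
  · intro i m
    simpa using hψc (N i) m
  · intro m
    simpa using hψc b m
  · intro h0
    exact nonZeroDivisors.ne_zero b.2 (hψ (h0.trans (map_zero ψ).symm))
  · change AlgebraicIndependent K ![Φ (X 0), Φ (X 1)]
    rw [hy]
    exact hX.map' Φ.injective
  · change Φ W ^ 2 * MvPolynomial.aeval ![Φ (X 0), Φ (X 1)] (MvPolynomial.map (algebraMap k K) g) =
      MvPolynomial.aeval ![Φ (X 0), Φ (X 1)] (MvPolynomial.map (algebraMap k K) f) -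
      algebraMap K (RatFunc (RatFunc K)) l *
        MvPolynomial.aeval ![Φ (X 0), Φ (X 1)] (MvPolynomial.map (algebraMap k K) g)
    have h1 := congrArg Φ hW
    rw [map_mul, map_sub, map_mul, map_pow, AlgHom.commutes, hev, hev] at h1
    rw [hy]
    exact h1

end

end

end Pool.Agent.RDP
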