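import Pool.Agent.RDM.Len

/-!
# Discrete valuations and multiplicities of points
-/

set_option autoImplicit false

namespace Pool.Agent.RDP

universe u v w

/-- `o` is the discrete valuation of the valuation ring `V` -/
structure Dv {L : Type u} [Field L] (V : ValuationSubring L) (o : L → ℤ) : Prop where
  mul : ∀ x y : L, x ≠ 0 → y ≠ 0 → o (x * y) = o x + o y
  mem : ∀ x : L, x ≠ 0 → (x ∈ V ↔ 0 ≤ o x)
  unif : ∃ x : L, x ≠ 0 ∧ o x = 1

/-- the multiplicity of the point `Q` in the divisor of `h` on the plane curve `G = 0` -/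
noncomputable def oQ {E : Type u} [Field E] (G h : MvPolynomial (Fin 2) E) (Q : Fin 2 → E) : ℕ∞ :=
  len (mQ Q) (MvPolynomial (Fin 2) E ⧸ Ideal.span {G, h})

noncomputable instance alg23 {E : Type u} [Field E] :
    Algebra (MvPolynomial (Fin 2) E) (MvPolynomial (Fin 3) E) :=
  (MvPolynomial.rename Fin.castSucc : MvPolynomial (Fin 2) E →ₐ[E] _).toRingHom.toAlgebra

theorem alg23_apply {E : Type u} [Field E] (h : MvPolynomial (Fin 2) E) :
    algebraMap (MvPolynomial (Fin 2) E) (MvPolynomial (Fin 3) E) h =
      MvPolynomial.rename Fin.castSucc h := rfl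

instance {E : Type u} [Field E] :
    IsScalarTower E (MvPolynomial (Fin 2) E) (MvPolynomial (Fin 3) E) :=
  IsScalarTower.of_algebraMap_eq fun e => by
    rw [alg23_apply, MvPolynomial.algebraMap_eq, MvPolynomial.algebraMap_eq, MvPolynomial.rename_C]

/-- the multiplicity of `Q` in the projection of the intersection of the curve `J = 0` of the space
with the plane `X₂ + s = 0` -/
noncomputable def cy {E : Type u} [Field E] (J : Ideal (MvPolynomial (Fin 3) E)) (s : E)
    (Q : Fin 2 → E) : ℕ∞ :=
  len (mQ Q) (MvPolynomial (Fin 3) E ⧸ (J ⊔ Ideal.span {MvPolynomial.X 2 + MvPolynomial.C s}))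

/-- a smooth point of the curve `G = 0` with `g ≠ 0` -/
def Gp {E : Type u} [Field E] (G g : MvPolynomial (Fin 2) E) (Q : Fin 2 → E) : Prop :=
  MvPolynomial.eval Q G = 0 ∧ MvPolynomial.eval Q g ≠ 0 ∧
    ∃ i, MvPolynomial.eval Q (MvPolynomial.pderiv i G) ≠ 0

/-- the field `K` has the transcendence degree at most one over `E` -/
def Td1 (E : Type u) (K : Type v) [Field E] [Field K] [Algebra E K] : Prop :=
  ∀ t : K, Transcendental E t → ∀ x : K, IsAlgebraic (IntermediateField.adjoin E {t}) x

/-- the elements of `E` are in the valuation ring `V` -/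
def Ov (E : Type u) {K : Type v} [Field E] [Field K] [Algebra E K] (V : ValuationSubring K) :
    Prop := ∀ e : E, algebraMap E K e ∈ V

end Pool.Agent.RDP
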