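import Pool.Agent.RDM.Len
import Pool.Agent.RDM.Dv

/-!
# Lengths and curves on surfaces
-/

set_option autoImplicit false

section


namespace Pool.Agent.RDP

universe u v w

section

theorem len_exact {R : Type u} [CommRing R] (p : Ideal R) [p.IsPrime] {N M P : Type v}
    [AddCommGroup N] [Module R N] [AddCommGroup M] [Module R M] [AddCommGroup P] [Module R P]
    (f : N →ₗ[R] M) (g : M →ₗ[R] P) (hf : Function.Injective f) (hg : Function.Surjective g)
    (h : Function.Exact f g) : len p M = len p N + len p P := by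
  have h1 : Function.Injective (IsLocalizedModule.mapExtendScalars p.primeCompl
      (LocalizedModule.mkLinearMap p.primeCompl N) (LocalizedModule.mkLinearMap p.primeCompl M)
      (Localization.AtPrime p) f) :=
    IsLocalizedModule.map_injective p.primeCompl (LocalizedModule.mkLinearMap p.primeCompl N)
      (LocalizedModule.mkLinearMap p.primeCompl M) f hf
  have h2 : Function.Surjective (IsLocalizedModule.mapExtendScalars p.primeCompl
      (LocalizedModule.mkLinearMap p.primeCompl M) (LocalizedModule.mkLinearMap p.primeCompl P)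
      (Localization.AtPrime p) g) :=
    IsLocalizedModule.map_surjective p.primeCompl (LocalizedModule.mkLinearMap p.primeCompl M)
      (LocalizedModule.mkLinearMap p.primeCompl P) g hg
  have h3 : Function.Exact (IsLocalizedModule.mapExtendScalars p.primeCompl
      (LocalizedModule.mkLinearMap p.primeCompl N) (LocalizedModule.mkLinearMap p.primeCompl M)
      (Localization.AtPrime p) f) (IsLocalizedModule.mapExtendScalars p.primeCompl
      (LocalizedModule.mkLinearMap p.primeCompl M) (LocalizedModule.mkLinearMap p.primeCompl P)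
      (Localization.AtPrime p) g) :=
    IsLocalizedModule.map_exact p.primeCompl (LocalizedModule.mkLinearMap p.primeCompl N)
      (LocalizedModule.mkLinearMap p.primeCompl M) (LocalizedModule.mkLinearMap p.primeCompl P)
      f g h
  exact Module.length_eq_add_of_exact _ _ h1 h2 h3

end

end Pool.Agent.RDP

end

section


namespace Pool.Agent.RDP

universe u v w

section

theorem len_equiv {R : Type u} [CommRing R] (p : Ideal R) [p.IsPrime] {M : Type v} {N : Type w}
    [AddCommGroup M] [Module R M] [AddCommGroup N] [Module R N] (e : M ≃ₗ[R] N) :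
    len p M = len p N := by
  unfold len
  exact (IsLocalizedModule.mapEquiv p.primeCompl (LocalizedModule.mkLinearMap p.primeCompl M)
    (LocalizedModule.mkLinearMap p.primeCompl N) (Localization.AtPrime p) e).length_eq

end

end Pool.Agent.RDP

end

section


namespace Pool.Agent.RDP

universe u v w

section

theorem len_kill {R : Type u} [CommRing R] (p : Ideal R) [p.IsPrime] {M : Type v}
    [AddCommGroup M] [Module R M] (s : R) (hs : s ∉ p) (h : ∀ m : M, s • m = 0) : len p M = 0 := by
  unfold len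
  rw [Module.length_eq_zero_iff, LocalizedModule.subsingleton_iff]
  intro m
  exact ⟨s, hs, h m⟩

end

end Pool.Agent.RDP

end

section


namespace Pool.Agent.RDP

universe u v w

section

theorem len_res {R : Type u} [CommRing R] (p : Ideal R) [p.IsPrime] : len p (R ⧸ p) = 1 := by
  unfold len
  rw [Module.length_eq_one_iff, isSimpleModule_iff_toSpanSingleton_surjective]
  refine ⟨⟨⟨LocalizedModule.mk 1 1, 0, ?_⟩⟩, ?_⟩
  · intro h
    rw [← LocalizedModule.zero_mk (1 : p.primeCompl), LocalizedModule.mk_eq] at h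
    obtain ⟨u, hu⟩ := h
    rw [smul_zero, smul_zero, one_smul] at hu
    have h1 : (Ideal.Quotient.mk p (u : R)) = 0 := by
      have h2 : (u : R) • (1 : R ⧸ p) = 0 := hu
      rw [Algebra.smul_def, mul_one] at h2
      exact h2
    exact u.2 (Ideal.Quotient.eq_zero_iff_mem.1 h1)
  · intro x hx y
    induction x using LocalizedModule.induction_on with
    | h m s =>
    induction y using LocalizedModule.induction_on with
    | h m' t =>
    obtain ⟨a, rfl⟩ := Ideal.Quotient.mk_surjective m
    obtain ⟨b, rfl⟩ := Ideal.Quotient.mk_surjective m'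
    have ha : a ∉ p := by
      intro ha
      apply hx
      rw [Ideal.Quotient.eq_zero_iff_mem.2 ha]
      exact LocalizedModule.zero_mk s
    refine ⟨Localization.mk (b * s) (t * ⟨a, ha⟩), ?_⟩
    rw [LinearMap.toSpanSingleton_apply, LocalizedModule.mk_smul_mk, LocalizedModule.mk_eq]
    refine ⟨1, ?_⟩
    rw [one_smul, one_smul]
    show (t : R) • ((b * (s : R)) • Ideal.Quotient.mk p a) =
      ((t : R) * a * (s : R)) • Ideal.Quotient.mk p b
    rw [Algebra.smul_def, Algebra.smul_def, Algebra.smul_def, Ideal.Quotient.algebraMap_eq,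
      ← map_mul, ← map_mul, ← map_mul]
    congr 1
    ring

end

end Pool.Agent.RDP

end

section


namespace Pool.Agent.RDP

universe u v w

section

theorem len_surj {R : Type u} {R' : Type v} [CommRing R] [CommRing R'] [Algebra R R']
    (hs : Function.Surjective (algebraMap R R')) (p' : Ideal R') [p'.IsPrime] (p : Ideal R)
    [p.IsPrime] (hp : p = p'.comap (algebraMap R R')) (M : Type w) [AddCommGroup M] [Module R' M]
    [Module R M] [IsScalarTower R R' M] : len p M = len p' M := by
  classical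
  have hc : ∀ x : p.primeCompl, algebraMap R R' (x : R) ∈ p'.primeCompl := by
    rintro ⟨x, hx⟩ h
    apply hx
    rw [hp]
    exact h
  let g : Localization.AtPrime p →+* Localization.AtPrime p' :=
    Localization.localRingHom p p' (algebraMap R R') hp
  have hgs : Function.Surjective g := by
    intro y
    obtain ⟨a, s, rfl⟩ := IsLocalization.exists_mk'_eq p'.primeCompl y
    obtain ⟨a, rfl⟩ := hs a
    obtain ⟨s, hs'⟩ := s
    obtain ⟨s, rfl⟩ := hs s
    have hsp : s ∈ p.primeCompl := by
      intro h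
      apply hs'
      rw [hp] at h
      exact h
    refine ⟨IsLocalization.mk' _ a ⟨s, hsp⟩, ?_⟩
    exact Localization.localRingHom_mk' p p' (algebraMap R R') hp a ⟨s, hsp⟩
  let algL : Algebra (Localization.AtPrime p) (Localization.AtPrime p') := g.toAlgebra
  have st0 : IsScalarTower R R' (LocalizedModule p'.primeCompl M) := inferInstance
  let modL : Module (Localization.AtPrime p) (LocalizedModule p'.primeCompl M) :=
    Module.compHom _ g
  have st1 : IsScalarTower (Localization.AtPrime p) (Localization.AtPrime p')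
      (LocalizedModule p'.primeCompl M) := by
    constructor
    intro a b m
    change (g a * b) • m = g a • (b • m)
    rw [mul_smul]
  have st2 : IsScalarTower R (Localization.AtPrime p) (LocalizedModule p'.primeCompl M) := by
    constructor
    intro a b m
    rw [← algebraMap_smul R' a (b • m)]
    change g (a • b) • m = algebraMap R R' a • (g b • m)
    rw [Algebra.smul_def, map_mul, mul_smul]
    have : g (algebraMap R (Localization.AtPrime p) a)
        = algebraMap R' (Localization.AtPrime p') (algebraMap R R' a) :=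
      Localization.localRingHom_to_map p p' (algebraMap R R') hp a
    rw [this, algebraMap_smul]
  let f : M →ₗ[R] LocalizedModule p'.primeCompl M :=
    { toFun := fun m => LocalizedModule.mkLinearMap p'.primeCompl M m
      map_add' := fun x y => map_add _ x y
      map_smul' := fun r x => by
        rw [← algebraMap_smul R' r x, map_smul, algebraMap_smul]
        rfl }
  have hf : IsLocalizedModule p.primeCompl f := by
    constructor
    · intro x
      have h1 := IsLocalizedModule.map_units (S := p'.primeCompl)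
        (LocalizedModule.mkLinearMap p'.primeCompl M) ⟨algebraMap R R' x, hc x⟩
      rw [Module.End.isUnit_iff] at h1 ⊢
      have h2 : (fun y : LocalizedModule p'.primeCompl M => (x : R) • y)
          = fun y => algebraMap R R' (x : R) • y := by
        funext y
        rw [algebraMap_smul]
      change Function.Bijective (fun y : LocalizedModule p'.primeCompl M => (x : R) • y)
      rw [h2]
      exact h1
    · intro y
      obtain ⟨⟨m, ⟨s, hs'⟩⟩, h⟩ := IsLocalizedModule.surj p'.primeCompl
        (LocalizedModule.mkLinearMap p'.primeCompl M) y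
      obtain ⟨s, rfl⟩ := hs s
      have hsp : s ∈ p.primeCompl := by
        intro h
        apply hs'
        rw [hp] at h
        exact h
      refine ⟨⟨m, ⟨s, hsp⟩⟩, ?_⟩
      change (algebraMap R R' s) • y = LocalizedModule.mkLinearMap p'.primeCompl M m at h
      change s • y = LocalizedModule.mkLinearMap p'.primeCompl M m
      rw [← h, algebraMap_smul]
    · intro x₁ x₂ h
      have h' : LocalizedModule.mkLinearMap p'.primeCompl M x₁
          = LocalizedModule.mkLinearMap p'.primeCompl M x₂ := h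
      obtain ⟨⟨s, hs'⟩, h⟩ := IsLocalizedModule.exists_of_eq (S := p'.primeCompl) h'
      obtain ⟨s, rfl⟩ := hs s
      have hsp : s ∈ p.primeCompl := by
        intro h
        apply hs'
        rw [hp] at h
        exact h
      refine ⟨⟨s, hsp⟩, ?_⟩
      change (algebraMap R R' s) • x₁ = (algebraMap R R' s) • x₂ at h
      change s • x₁ = s • x₂
      rw [algebraMap_smul, algebraMap_smul] at h
      exact h
  let e : LocalizedModule p.primeCompl M ≃ₗ[R] LocalizedModule p'.primeCompl M :=
    IsLocalizedModule.iso p.primeCompl f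
  let e' : LocalizedModule p.primeCompl M ≃ₗ[Localization.AtPrime p]
      LocalizedModule p'.primeCompl M :=
    e.extendScalarsOfIsLocalization p.primeCompl (Localization.AtPrime p)
  unfold len
  rw [e'.length_eq]
  exact Module.length_eq_of_surjective (R := Localization.AtPrime p')
    (S := Localization.AtPrime p) hgs

end

end Pool.Agent.RDP

end

section


namespace Pool.Agent.RDP

universe u v w

section

theorem len_li {R : Type u} [CommRing R] (p : Ideal R) [p.IsPrime] {M : Type v} {N : Type w}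
    [AddCommGroup M] [Module R M] [AddCommGroup N] [Module R N] (f : M →ₗ[R] N)
    (hker : ∀ m, f m = 0 → ∃ s, s ∉ p ∧ s • m = 0) (hcok : ∀ n, ∃ s, s ∉ p ∧ ∃ m, f m = s • n) :
    len p M = len p N := by
  have key : Function.Bijective (LocalizedModule.map p.primeCompl f) := by
    constructor
    · rw [injective_iff_map_eq_zero]
      intro x
      induction x using LocalizedModule.induction_on with
      | h m t =>
        intro h
        rw [LocalizedModule.map_mk, ← LocalizedModule.zero_mk 1, LocalizedModule.mk_eq] at h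
        obtain ⟨v, hv⟩ := h
        rw [smul_zero, smul_zero, one_smul] at hv
        have h1 : f ((v : R) • m) = 0 := by
          rw [map_smul]
          exact hv
        obtain ⟨s, hs, h2⟩ := hker _ h1
        rw [← LocalizedModule.zero_mk 1, LocalizedModule.mk_eq]
        refine ⟨⟨s, hs⟩ * v, ?_⟩
        rw [smul_zero, smul_zero, one_smul, mul_smul]
        exact h2
    · intro y
      induction y using LocalizedModule.induction_on with
      | h n t =>
        obtain ⟨s, hs, m, hm⟩ := hcok n
        refine ⟨LocalizedModule.mk m (⟨s, hs⟩ * t), ?_⟩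
        rw [LocalizedModule.map_mk, LocalizedModule.mk_eq, hm]
        refine ⟨1, ?_⟩
        rw [one_smul, one_smul, mul_comm, mul_smul]
        rfl
  exact (LinearEquiv.ofBijective _ key).length_eq

end

end Pool.Agent.RDP

end

section


namespace Pool.Agent.RDP

universe u v w

section

private theorem len_bot_aux {D₁ D : Type u} [CommRing D₁] [IsDomain D₁] [CommRing D] [Algebra D₁ D]
    (S : Submonoid D₁) (hS : S = nonZeroDivisors D₁) (n : ℕ) (hn : 0 < n)
    (h : Module.finrank D₁ D = n) :
    Module.length (Localization S) (LocalizedModule S D) = (n : ℕ) := by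
  subst hS
  have e1 : Module.finrank D₁ (LocalizedModule (nonZeroDivisors D₁) D) = n := by
    rw [IsLocalizedModule.finrank_eq (nonZeroDivisors D₁)
      (LocalizedModule.mkLinearMap (nonZeroDivisors D₁) D) le_rfl, h]
  have e2 : Module.finrank (FractionRing D₁) (LocalizedModule (nonZeroDivisors D₁) D) = n := by
    rw [← e1]
    exact IsLocalization.finrank_eq (FractionRing D₁) (nonZeroDivisors D₁) le_rfl
  have hf : Module.Finite (FractionRing D₁) (LocalizedModule (nonZeroDivisors D₁) D) :=
    Module.finite_of_finrank_pos (by rw [e2]; exact hn)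
  have e3 := Module.length_eq_finrank (FractionRing D₁) (LocalizedModule (nonZeroDivisors D₁) D)
  rw [e2] at e3
  exact e3

theorem len_bot {D₁ K₁ D K : Type u} [CommRing D₁] [IsDomain D₁] [Field K₁] [Algebra D₁ K₁]
    [IsFractionRing D₁ K₁] [CommRing D] [IsDomain D] [Field K] [Algebra D K] [IsFractionRing D K]
    [Algebra D₁ D] [Algebra K₁ K] [Algebra D₁ K] [IsScalarTower D₁ K₁ K] [IsScalarTower D₁ D K]
    [FiniteDimensional K₁ K] (hint : Algebra.IsIntegral D₁ D) :
    len (⊥ : Ideal D₁) D = (Module.finrank K₁ K : ℕ) := by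
  have h1 : Module.finrank K₁ K = Module.finrank D₁ D := IsFractionRing.finrank_eq D₁ K₁ D K
  exact len_bot_aux _ Ideal.primeCompl_bot _ Module.finrank_pos h1.symm

end

end Pool.Agent.RDP

end

section


namespace Pool.Agent.RDP

universe u v w

section

theorem len_max {E : Type u} [Field E] [IsAlgClosed E] {B : Type v} [CommRing B] [Algebra E B]
    [Algebra (MvPolynomial (Fin 2) E) B] [IsScalarTower E (MvPolynomial (Fin 2) E) B]
    (hB : Algebra.FiniteType E B) (Q : Fin 2 → E) (n : Ideal B) (hn : n.IsMaximal) :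
    len (mQ Q) (B ⧸ n) ≠ ⊤ := by
  let _ := Ideal.Quotient.field n
  have : Algebra.FiniteType E (B ⧸ n) := inferInstance
  have : Module.Finite E (B ⧸ n) := finite_of_finite_type_of_isJacobsonRing E (B ⧸ n)
  have : Algebra.IsIntegral E (B ⧸ n) := inferInstance
  have h1 : Function.Bijective (algebraMap E (B ⧸ n)) :=
    IsAlgClosed.algebraMap_bijective_of_isIntegral
  have h2 : Function.Surjective (algebraMap (MvPolynomial (Fin 2) E) (B ⧸ n)) := by
    intro y
    obtain ⟨x, hx⟩ := h1.2 y
    refine ⟨algebraMap E _ x, ?_⟩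
    rw [← hx]
    exact (IsScalarTower.algebraMap_apply E (MvPolynomial (Fin 2) E) (B ⧸ n) x).symm
  have h3 : (RingHom.ker (algebraMap (MvPolynomial (Fin 2) E) (B ⧸ n))).IsMaximal :=
    RingHom.ker_isMaximal_of_surjective _ h2
  by_cases h4 : RingHom.ker (algebraMap (MvPolynomial (Fin 2) E) (B ⧸ n)) ≤ mQ Q
  · have h5 : RingHom.ker (algebraMap (MvPolynomial (Fin 2) E) (B ⧸ n)) = mQ Q :=
      h3.eq_of_le (inferInstance : (mQ Q).IsPrime).ne_top h4
    have e1 : (MvPolynomial (Fin 2) E ⧸ LinearMap.ker (Algebra.linearMap (MvPolynomial (Fin 2) E) (B ⧸ n)))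
        ≃ₗ[MvPolynomial (Fin 2) E] (B ⧸ n) :=
      LinearMap.quotKerEquivOfSurjective _ h2
    have h6 : (mQ Q : Submodule (MvPolynomial (Fin 2) E) (MvPolynomial (Fin 2) E)) =
        LinearMap.ker (Algebra.linearMap (MvPolynomial (Fin 2) E) (B ⧸ n)) := by
      rw [← h5]
      rfl
    rw [← len_equiv (mQ Q) ((Submodule.quotEquivOfEq _ _ h6).trans e1), len_res]
    exact ENat.one_ne_top
  · obtain ⟨s, hs1, hs2⟩ := SetLike.not_le_iff_exists.1 h4
    rw [len_kill (mQ Q) s hs2 ?_]
    · exact ENat.zero_ne_top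
    · intro m
      rw [Algebra.smul_def, RingHom.mem_ker.1 hs1, zero_mul]

end

end Pool.Agent.RDP

end

section


namespace Pool.Agent.RDP

universe u v w

section

/-- In a surface a prime which is not maximal contains no other nonzero prime. -/
theorem len_fin1_eq {E : Type u} [Field E] {B : Type v} [CommRing B] [Algebra E B] (hB : Srf E B)
    {q p : Ideal B} (hq : q.IsPrime) (hp : p.IsPrime) (hq0 : q ≠ ⊥) (hqp : q ≤ p)
    (hpm : ¬ p.IsMaximal) : q = p := by
  have hdim := hB.d2 q hq hq0
  have hker : RingHom.ker (Ideal.Quotient.mk q) ≤ p := by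
    rw [Ideal.mk_ker]
    exact hqp
  have hprime : (p.map (Ideal.Quotient.mk q)).IsPrime :=
    Ideal.map_isPrime_of_surjective Ideal.Quotient.mk_surjective hker
  have hcm : (p.map (Ideal.Quotient.mk q)).comap (Ideal.Quotient.mk q) = p := by
    rw [Ideal.comap_map_of_surjective' _ Ideal.Quotient.mk_surjective]
    exact sup_eq_left.2 hker
  by_cases h0 : p.map (Ideal.Quotient.mk q) = ⊥
  · refine le_antisymm hqp ?_
    rw [← hcm, h0, ← RingHom.ker_eq_comap_bot, Ideal.mk_ker]
  · exfalso
    apply hpm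
    have hmax : (p.map (Ideal.Quotient.mk q)).IsMaximal := hdim.maximalOfPrime h0 hprime
    rw [← hcm]
    exact Ideal.comap_isMaximal_of_surjective _ Ideal.Quotient.mk_surjective

/-- the localization of a quotient `B ⧸ I` at `p` has the length of `B_p ⧸ I B_p` -/
theorem len_fin1_quot {B : Type v} [CommRing B] (I : Ideal B) (p : Ideal B) [p.IsPrime] :
    len p (B ⧸ I) = Module.length (Localization.AtPrime p)
      (Localization.AtPrime p ⧸ I.map (algebraMap B (Localization.AtPrime p))) := by
  have h1 : Submodule.localized' (Localization.AtPrime p) p.primeCompl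
      (Algebra.linearMap B (Localization.AtPrime p)) I =
      I.map (algebraMap B (Localization.AtPrime p)) := by
    rw [Submodule.localized'_eq_span]
    rfl
  rw [← h1]
  let g := Submodule.toLocalizedQuotient' (Localization.AtPrime p) p.primeCompl
      (Algebra.linearMap B (Localization.AtPrime p)) I
  let e : LocalizedModule p.primeCompl (B ⧸ I) ≃ₗ[B] _ := IsLocalizedModule.iso p.primeCompl g
  exact (e.extendScalarsOfIsLocalization p.primeCompl (Localization.AtPrime p)).length_eq

theorem len_fin1 {E : Type u} [Field E] {B : Type v} [CommRing B] [Algebra E B] (hB : Srf E B)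
    (a : B) (ha : a ≠ 0) (p : Ideal B) [p.IsPrime] (hp : ¬ p.IsMaximal) :
    len p (B ⧸ Ideal.span {a}) ≠ ⊤ := by
  have := hB.noe
  have := hB.dom
  have hdim : Ring.KrullDimLE 1 (Localization.AtPrime p) := by
    rw [Ring.krullDimLE_one_iff_of_noZeroDivisors]
    intro I hI0 hI
    have hq : (I.comap (algebraMap B (Localization.AtPrime p))).IsPrime := inferInstance
    have hmap : (I.comap (algebraMap B (Localization.AtPrime p))).map
        (algebraMap B (Localization.AtPrime p)) = I :=
      IsLocalization.map_under p.primeCompl (Localization.AtPrime p) I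
    have hle : I.comap (algebraMap B (Localization.AtPrime p)) ≤ p := by
      have h1 : I ≤ IsLocalRing.maximalIdeal (Localization.AtPrime p) :=
        IsLocalRing.le_maximalIdeal hI.ne_top
      have h2 := Ideal.comap_mono (f := algebraMap B (Localization.AtPrime p)) h1
      have h3 : Ideal.comap (algebraMap B (Localization.AtPrime p))
          (IsLocalRing.maximalIdeal (Localization.AtPrime p)) = p :=
        IsLocalization.AtPrime.under_maximalIdeal (Localization.AtPrime p) p
      rwa [h3] at h2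
    have hne : I.comap (algebraMap B (Localization.AtPrime p)) ≠ ⊥ := by
      intro h0
      rw [h0, Ideal.map_bot] at hmap
      exact hI0 hmap.symm
    have heq := len_fin1_eq hB hq ‹p.IsPrime› hne hle hp
    rw [← hmap, heq, IsLocalization.AtPrime.map_eq_maximalIdeal p (Localization.AtPrime p)]
    exact IsLocalRing.maximalIdeal.isMaximal _
  have ha' : algebraMap B (Localization.AtPrime p) a ∈
      nonZeroDivisors (Localization.AtPrime p) := by
    rw [mem_nonZeroDivisors_iff_ne_zero]
    intro h0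
    rw [IsLocalization.map_eq_zero_iff p.primeCompl] at h0
    obtain ⟨c, hc⟩ := h0
    rcases mul_eq_zero.1 hc with h | h
    · exact c.2 (by rw [h]; exact p.zero_mem)
    · exact ha h
  rw [len_fin1_quot, Ideal.map_span, Set.image_singleton]
  exact Ring.ord_ne_top ha'

end

end Pool.Agent.RDP

end

section


namespace Pool.Agent.RDP

universe u v w

section

private theorem chi_mid {R : Type u} [CommRing R] (p : Ideal R) [p.IsPrime] {X Y Z : Type w}
    [AddCommGroup X] [Module R X] [AddCommGroup Y] [Module R Y] [AddCommGroup Z] [Module R Z]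
    (f : X →ₗ[R] Y) (g : Y →ₗ[R] Z) (h : Function.Exact f g) :
    len p Y = len p (LinearMap.range f) + len p (LinearMap.range g) := by
  refine len_exact p (LinearMap.range f).subtype g.rangeRestrict
    (Submodule.subtype_injective _) (LinearMap.surjective_rangeRestrict g) ?_
  intro y
  have h1 : g.rangeRestrict y = 0 ↔ g y = 0 := by
    rw [Subtype.ext_iff]; rfl
  rw [h1, h y]
  simp

private theorem chi_six {R : Type u} [CommRing R] (p : Ideal R) [p.IsPrime]
    {A1 A2 A3 A4 A5 A6 : Type w}
    [AddCommGroup A1] [Module R A1] [AddCommGroup A2] [Module R A2]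
    [AddCommGroup A3] [Module R A3] [AddCommGroup A4] [Module R A4]
    [AddCommGroup A5] [Module R A5] [AddCommGroup A6] [Module R A6]
    (f1 : A1 →ₗ[R] A2) (f2 : A2 →ₗ[R] A3) (f3 : A3 →ₗ[R] A4) (f4 : A4 →ₗ[R] A5)
    (f5 : A5 →ₗ[R] A6) (h1 : Function.Injective f1) (h12 : Function.Exact f1 f2)
    (h23 : Function.Exact f2 f3) (h34 : Function.Exact f3 f4) (h45 : Function.Exact f4 f5)
    (h5 : Function.Surjective f5) :
    len p A1 + len p A3 + len p A5 = len p A2 + len p A4 + len p A6 := by
  have e1 : len p (LinearMap.range f1) = len p A1 :=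
    (len_equiv p (LinearEquiv.ofInjective f1 h1)).symm
  have e6 : len p (LinearMap.range f5) = len p A6 :=
    len_equiv p (LinearEquiv.ofTop _ (LinearMap.range_eq_top.2 h5))
  rw [chi_mid p f1 f2 h12, chi_mid p f2 f3 h23, chi_mid p f3 f4 h34, chi_mid p f4 f5 h45, e1, e6]
  ring

theorem chi {R : Type u} [CommRing R] (p : Ideal R) [p.IsPrime] {B : Type v} [CommRing B]
    [Algebra R B] (b : B) {N M P : Type w}
    [AddCommGroup N] [Module B N] [Module R N] [IsScalarTower R B N]
    [AddCommGroup M] [Module B M] [Module R M] [IsScalarTower R B M]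
    [AddCommGroup P] [Module B P] [Module R P] [IsScalarTower R B P]
    (f : N →ₗ[B] M) (g : M →ₗ[B] P) (hf : Function.Injective f) (hg : Function.Surjective g)
    (h : Function.Exact f g) :
    lk p b N + lk p b P + lq p b M = lk p b M + lq p b N + lq p b P := by
  unfold lk lq
  set iN := LinearMap.lsmul B N b with hiN
  set iM := LinearMap.lsmul B M b with hiM
  set iP := LinearMap.lsmul B P b with hiP
  have c1 : f.comp iN = iM.comp f := by
    ext x; simp [hiN, hiM]
  have c2 : g.comp iM = iP.comp g := by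
    ext x; simp [hiP, hiM]
  obtain ⟨σ, hσ⟩ := hg.hasRightInverse
  have hσ' : g ∘ σ = id := funext hσ
  obtain ⟨ρ, hρ⟩ := hf.hasLeftInverse
  have hρ' : ρ ∘ f = id := funext hρ
  -- the maps between the kernels
  have m1 : ∀ x ∈ LinearMap.ker iN, f x ∈ LinearMap.ker iM := by
    intro x hx
    rw [LinearMap.mem_ker] at hx ⊢
    rw [← LinearMap.comp_apply, ← c1, LinearMap.comp_apply, hx, map_zero]
  have m2 : ∀ x ∈ LinearMap.ker iM, g x ∈ LinearMap.ker iP := by
    intro x hx
    rw [LinearMap.mem_ker] at hx ⊢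
    rw [← LinearMap.comp_apply, ← c2, LinearMap.comp_apply, hx, map_zero]
  let F1 : LinearMap.ker iN →ₗ[B] LinearMap.ker iM := f.restrict m1
  let F2 : LinearMap.ker iM →ₗ[B] LinearMap.ker iP := g.restrict m2
  -- the maps between the cokernels
  have n1 : LinearMap.range iN ≤ (LinearMap.range iM).comap f := by
    rintro _ ⟨x, rfl⟩
    exact ⟨f x, by rw [← LinearMap.comp_apply, ← c1]; rfl⟩
  have n2 : LinearMap.range iM ≤ (LinearMap.range iP).comap g := by
    rintro _ ⟨x, rfl⟩
    exact ⟨g x, by rw [← LinearMap.comp_apply, ← c2]; rfl⟩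
  let G1 : (N ⧸ LinearMap.range iN) →ₗ[B] (M ⧸ LinearMap.range iM) := Submodule.mapQ _ _ f n1
  let G2 : (M ⧸ LinearMap.range iM) →ₗ[B] (P ⧸ LinearMap.range iP) := Submodule.mapQ _ _ g n2
  -- the snake
  have k2 : Function.Exact (LinearMap.ker iM).subtype iM := by
    intro x; simp
  have k3 : Function.Exact (LinearMap.ker iP).subtype iP := by
    intro x; simp
  have q1 : Function.Exact iN (LinearMap.range iN).mkQ := by
    intro x; simp
  have q2 : Function.Exact iM (LinearMap.range iM).mkQ := by
    intro x; simp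
  let D := SnakeLemma.δ iN iM iP f g h f g h c1 c2 σ hσ' ρ hρ' (LinearMap.ker iP).subtype k3
    (LinearMap.range iN).mkQ q1
  have x23 : Function.Exact F2 D :=
    SnakeLemma.exact_δ_right iN iM iP f g h f g h c1 c2 σ hσ' ρ hρ' (LinearMap.ker iM).subtype k2
      (LinearMap.ker iP).subtype k3 (LinearMap.range iN).mkQ q1 F2 (by ext x; rfl)
      (Submodule.subtype_injective _)
  have x34 : Function.Exact D G1 :=
    SnakeLemma.exact_δ_left iN iM iP f g h f g h c1 c2 σ hσ' ρ hρ' (LinearMap.ker iP).subtype k3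
      (LinearMap.range iN).mkQ q1 (LinearMap.range iM).mkQ q2 G1 (by ext x; rfl)
      (Submodule.mkQ_surjective _)
  have x12 : Function.Exact F1 F2 := by
    intro x
    constructor
    · intro hx
      have hx' : g x.1 = 0 := by
        have := congrArg Subtype.val hx
        exact this
      obtain ⟨y, hy⟩ := (h x.1).1 hx'
      refine ⟨⟨y, ?_⟩, Subtype.ext hy⟩
      rw [LinearMap.mem_ker]
      apply hf
      rw [map_zero, ← LinearMap.comp_apply, c1, LinearMap.comp_apply, hy]
      exact LinearMap.mem_ker.1 x.2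
    · rintro ⟨y, rfl⟩
      apply Subtype.ext
      exact h.apply_apply_eq_zero y.1
  have x1 : Function.Injective F1 := by
    intro x y hxy
    apply Subtype.ext
    apply hf
    exact congrArg Subtype.val hxy
  have x45 : Function.Exact G1 G2 := by
    intro x
    obtain ⟨x, rfl⟩ := Submodule.mkQ_surjective _ x
    constructor
    · intro hx
      have hx' : g x ∈ LinearMap.range iP := by
        rw [← Submodule.Quotient.mk_eq_zero]
        exact hx
      obtain ⟨y, hy⟩ := hx'
      obtain ⟨y, rfl⟩ := hg y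
      have h3 : g (x - iM y) = 0 := by
        rw [map_sub, ← hy, sub_eq_zero, ← LinearMap.comp_apply, ← LinearMap.comp_apply, c2]
      obtain ⟨z, hz⟩ := (h _).1 h3
      refine ⟨(LinearMap.range iN).mkQ z, ?_⟩
      have h4 : G1 ((LinearMap.range iN).mkQ z) = (LinearMap.range iM).mkQ (f z) := rfl
      rw [h4, hz, map_sub, sub_eq_self]
      simp
    · rintro ⟨y, hy⟩
      obtain ⟨y, rfl⟩ := Submodule.mkQ_surjective _ y
      rw [← hy]
      have h4 : G2 (G1 ((LinearMap.range iN).mkQ y)) = (LinearMap.range iP).mkQ (g (f y)) := rfl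
      rw [h4, h.apply_apply_eq_zero, map_zero]
  have x5 : Function.Surjective G2 := by
    intro x
    obtain ⟨x, rfl⟩ := Submodule.mkQ_surjective _ x
    obtain ⟨y, rfl⟩ := hg x
    exact ⟨(LinearMap.range iM).mkQ y, rfl⟩
  have key := chi_six p (F1.restrictScalars R) (F2.restrictScalars R) (D.restrictScalars R)
    (G1.restrictScalars R) (G2.restrictScalars R) x1 x12 x23 x34 x45 x5
  exact key

end

end Pool.Agent.RDP

end

section


namespace Pool.Agent.RDP

universe u v w

section

private theorem devis_sub {R : Type u} [CommRing R] (p : Ideal R) [p.IsPrime] {M : Type v}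
    [AddCommGroup M] [Module R M] [Subsingleton M] : len p M = 0 := by
  have h1 : (1 : R) ∉ p := fun h => Ideal.IsPrime.ne_top' ((Ideal.eq_top_iff_one p).mpr h)
  exact len_kill p 1 h1 fun m => Subsingleton.elim _ _

private theorem devis_le {R : Type u} [CommRing R] (p : Ideal R) [p.IsPrime] {N M : Type v}
    [AddCommGroup N] [Module R N] [AddCommGroup M] [Module R M]
    (f : N →ₗ[R] M) (hf : Function.Injective f) : len p N ≤ len p M := by
  have h := len_exact p f (LinearMap.range f).mkQ hf (Submodule.mkQ_surjective _)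
    (LinearMap.exact_map_mkQ_range f)
  rw [h]
  exact le_self_add

private theorem devis_lk_le {R : Type u} [CommRing R] (p : Ideal R) [p.IsPrime] {B : Type v}
    [CommRing B] [Algebra R B] (b : B) {N M P : Type w}
    [AddCommGroup N] [Module B N] [Module R N] [IsScalarTower R B N]
    [AddCommGroup M] [Module B M] [Module R M] [IsScalarTower R B M]
    [AddCommGroup P] [Module B P] [Module R P] [IsScalarTower R B P]
    (f : N →ₗ[B] M) (g : M →ₗ[B] P) (hf : Function.Injective f)
    (h : Function.Exact f g) : lk p b M ≤ lk p b N + lk p b P := by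
  have hf1 : ∀ x ∈ LinearMap.ker (LinearMap.lsmul B N b),
      f x ∈ LinearMap.ker (LinearMap.lsmul B M b) := by
    intro x hx
    rw [LinearMap.mem_ker, LinearMap.lsmul_apply] at hx ⊢
    rw [← map_smul, hx, map_zero]
  have hg1 : ∀ x ∈ LinearMap.ker (LinearMap.lsmul B M b),
      g x ∈ LinearMap.ker (LinearMap.lsmul B P b) := by
    intro x hx
    rw [LinearMap.mem_ker, LinearMap.lsmul_apply] at hx ⊢
    rw [← map_smul, hx, map_zero]
  let kf := f.restrict hf1
  let kg := g.restrict hg1
  have e1 : len p (LinearMap.ker (LinearMap.lsmul B M b)) =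
      len p (LinearMap.ker (LinearMap.lsmul B N b)) + len p (LinearMap.range kg) := by
    refine len_exact p (kf.restrictScalars R) (kg.rangeRestrict.restrictScalars R) ?_ ?_ ?_
    · intro x y hxy
      apply Subtype.ext
      apply hf
      exact congrArg Subtype.val hxy
    · exact kg.surjective_rangeRestrict
    · intro y
      constructor
      · intro hy
        have h1 : g y.1 = 0 := by
          have h2 := congrArg Subtype.val (congrArg Subtype.val hy)
          exact h2
        obtain ⟨x, hx⟩ := (h y.1).mp h1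
        refine ⟨⟨x, ?_⟩, Subtype.ext hx⟩
        have h3 := y.2
        rw [LinearMap.mem_ker, LinearMap.lsmul_apply] at h3 ⊢
        apply hf
        rw [map_smul, hx, h3, map_zero]
      · rintro ⟨x, rfl⟩
        apply Subtype.ext
        apply Subtype.ext
        exact (h (f x.1)).mpr ⟨x.1, rfl⟩
  have e2 : len p (LinearMap.range kg) ≤ len p (LinearMap.ker (LinearMap.lsmul B P b)) :=
    devis_le p ((LinearMap.range kg).subtype.restrictScalars R) Subtype.val_injective
  unfold lk
  rw [e1]
  exact add_le_add le_rfl e2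

private theorem devis_quot {R : Type u} [CommRing R] (m : Ideal R) [m.IsPrime] {B : Type v}
    [CommRing B] [Algebra R B] (b : B) (q : Ideal B) (N : Type v)
    [AddCommGroup N] [Module B N] [Module R N] [IsScalarTower R B N] (e : N ≃ₗ[B] B ⧸ q) :
    lq m b N = len m (B ⧸ (q ⊔ Ideal.span {b})) := by
  let F : B →ₗ[B] N ⧸ LinearMap.range (LinearMap.lsmul B N b) :=
    (LinearMap.range (LinearMap.lsmul B N b)).mkQ ∘ₗ (e.symm : B ⧸ q →ₗ[B] N) ∘ₗ
      (Submodule.mkQ q)
  have hF : Function.Surjective F :=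
    (Submodule.mkQ_surjective _).comp (e.symm.surjective.comp (Submodule.mkQ_surjective _))
  have hk : LinearMap.ker F = q ⊔ Ideal.span {b} := by
    ext x
    rw [LinearMap.mem_ker]
    change (Submodule.Quotient.mk (e.symm (Submodule.Quotient.mk x)) :
      N ⧸ LinearMap.range (LinearMap.lsmul B N b)) = 0 ↔ _
    rw [Submodule.Quotient.mk_eq_zero, LinearMap.mem_range, Submodule.mem_sup]
    constructor
    · rintro ⟨n, hn⟩
      rw [LinearMap.lsmul_apply] at hn
      have h1 : b • e n = Submodule.Quotient.mk x := by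
        rw [← map_smul, hn, LinearEquiv.apply_symm_apply]
      obtain ⟨y, hy⟩ := Submodule.Quotient.mk_surjective q (e n)
      rw [← hy, ← Submodule.Quotient.mk_smul] at h1
      have h2 := (Submodule.Quotient.eq q).mp h1.symm
      refine ⟨x - b • y, h2, b • y, ?_, by abel⟩
      exact Ideal.mul_mem_right _ _ (Ideal.mem_span_singleton_self b)
    · rintro ⟨y, hy, z, hz, rfl⟩
      obtain ⟨c, rfl⟩ := Ideal.mem_span_singleton'.mp hz
      refine ⟨e.symm (Submodule.Quotient.mk c), ?_⟩
      rw [LinearMap.lsmul_apply, ← map_smul, ← Submodule.Quotient.mk_smul]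
      congr 1
      refine ((Submodule.Quotient.eq q).mpr ?_).symm
      have h3 : y + c * b - b • c = y := by
        rw [smul_eq_mul]; ring
      rw [h3]
      exact hy
  have E : (B ⧸ (q ⊔ Ideal.span {b})) ≃ₗ[B] N ⧸ LinearMap.range (LinearMap.lsmul B N b) :=
    (Submodule.quotEquivOfEq _ _ hk.symm).trans (F.quotKerEquivOfSurjective hF)
  exact (len_equiv m (E.restrictScalars R)).symm

private theorem devis_quotient {R : Type u} [CommRing R] (m : Ideal R) [m.IsPrime] {B : Type v}
    [CommRing B] [Algebra R B] (b : B)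
    (hmax : ∀ n : Ideal B, n.IsMaximal → len m (B ⧸ n) ≠ ⊤)
    (S : Finset (PrimeSpectrum B)) (hS : ∀ p ∈ S, b ∉ p.asIdeal ∧ ¬ p.asIdeal.IsMaximal)
    (hanti : ∀ p ∈ S, ∀ p' ∈ S, p.asIdeal ≤ p'.asIdeal → p = p')
    (q : PrimeSpectrum B) (M : Type v) [AddCommGroup M] [Module B M] [Module R M]
    [IsScalarTower R B M] (e : M ≃ₗ[B] B ⧸ q.asIdeal)
    (hsupp : ∀ p : PrimeSpectrum B, len p.asIdeal M ≠ 0 → p.asIdeal.IsMaximal ∨ p ∈ S) :
    lk m b M ≠ ⊤ ∧ lq m b M = lk m b M + ∑ p ∈ S, len p.asIdeal M *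
      len m (B ⧸ (p.asIdeal ⊔ Ideal.span {b})) := by
  have hq1 : len q.asIdeal M = 1 := by
    rw [len_equiv q.asIdeal e, len_res]
  have hkill : ∀ x ∈ q.asIdeal, ∀ y : M, x • y = 0 := by
    intro x hx y
    apply e.injective
    rw [map_smul, map_zero]
    obtain ⟨z, hz⟩ := Submodule.Quotient.mk_surjective _ (e y)
    rw [← hz, ← Submodule.Quotient.mk_smul, Submodule.Quotient.mk_eq_zero]
    exact Ideal.mul_mem_right _ _ hx
  have hzero : ∀ p : PrimeSpectrum B, ¬ q.asIdeal ≤ p.asIdeal → len p.asIdeal M = 0 := by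
    intro p hp
    obtain ⟨x, hx, hxp⟩ := Set.not_subset.mp hp
    exact len_kill p.asIdeal x hxp (hkill x hx)
  have hinj : b ∉ q.asIdeal → ∀ y : M, b • y = 0 → y = 0 := by
    intro hb y hy
    apply e.injective
    have h1 : b • e y = 0 := by rw [← map_smul, hy, map_zero]
    obtain ⟨z, hz⟩ := Submodule.Quotient.mk_surjective _ (e y)
    rw [← hz, ← Submodule.Quotient.mk_smul, Submodule.Quotient.mk_eq_zero] at h1
    rw [← hz, map_zero, Submodule.Quotient.mk_eq_zero]
    exact (q.isPrime.mem_or_mem h1).resolve_left hb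
  have hlk0 : b ∉ q.asIdeal → lk m b M = 0 := by
    intro hb
    unfold lk
    have : Subsingleton (LinearMap.ker (LinearMap.lsmul B M b)) := by
      constructor
      intro x y
      apply Subtype.ext
      rw [hinj hb x.1 x.2, hinj hb y.1 y.2]
    exact devis_sub m
  rcases hsupp q (by rw [hq1]; exact one_ne_zero) with hmx | hqS
  · have hsum : ∑ p ∈ S, len p.asIdeal M * len m (B ⧸ (p.asIdeal ⊔ Ideal.span {b})) = 0 := by
      refine Finset.sum_eq_zero fun p hp => ?_
      rw [hzero p, zero_mul]
      intro hle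
      have h1 := hmx.eq_of_le p.isPrime.ne_top hle
      exact (hS p hp).2 (h1 ▸ hmx)
    rw [hsum, add_zero]
    by_cases hb : b ∈ q.asIdeal
    · have e1 : lk m b M = len m M := by
        have h1 : LinearMap.ker (LinearMap.lsmul B M b) = ⊤ := by
          rw [eq_top_iff]
          intro x _
          exact hkill b hb x
        unfold lk
        rw [h1]
        exact len_equiv m ((Submodule.topEquiv (R := B) (M := M)).restrictScalars R)
      have e2 : lq m b M = len m M := by
        have h1 : LinearMap.range (LinearMap.lsmul B M b) = ⊥ := by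
          rw [eq_bot_iff]
          rintro _ ⟨x, rfl⟩
          exact hkill b hb x
        unfold lq
        exact len_equiv m ((Submodule.quotEquivOfEqBot _ h1).restrictScalars R)
      have e3 : len m M = len m (B ⧸ q.asIdeal) := len_equiv m (e.restrictScalars R)
      refine ⟨?_, by rw [e1, e2]⟩
      rw [e1, e3]
      exact hmax _ hmx
    · rw [hlk0 hb, devis_quot m b q.asIdeal M e]
      refine ⟨by simp, ?_⟩
      have h1 : q.asIdeal ⊔ Ideal.span {b} = ⊤ := by
        by_contra hne
        have h2 := hmx.eq_of_le hne le_sup_left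
        apply hb
        rw [h2]
        exact Ideal.mem_sup_right (Ideal.mem_span_singleton_self b)
      have : Subsingleton (B ⧸ (q.asIdeal ⊔ Ideal.span {b})) := by
        rw [h1]
        exact Ideal.Quotient.subsingleton_iff.mpr rfl
      exact devis_sub m
  · have hb := (hS q hqS).1
    rw [hlk0 hb, zero_add, devis_quot m b q.asIdeal M e]
    refine ⟨by simp, ?_⟩
    rw [Finset.sum_eq_single_of_mem q hqS, hq1, one_mul]
    intro p hp hne
    rw [hzero p, zero_mul]
    intro hle
    exact hne (hanti q hqS p hp hle).symm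

theorem devis {R : Type u} [CommRing R] (m : Ideal R) [m.IsPrime] {B : Type v} [CommRing B]
    [Algebra R B] [IsNoetherianRing B] (b : B)
    (hmax : ∀ n : Ideal B, n.IsMaximal → len m (B ⧸ n) ≠ ⊤)
    (S : Finset (PrimeSpectrum B)) (hS : ∀ p ∈ S, b ∉ p.asIdeal ∧ ¬ p.asIdeal.IsMaximal)
    (hanti : ∀ p ∈ S, ∀ p' ∈ S, p.asIdeal ≤ p'.asIdeal → p = p')
    (M : Type v) [AddCommGroup M] [Module B M] [Module R M] [IsScalarTower R B M]
    [Module.Finite B M]
    (hsupp : ∀ p : PrimeSpectrum B, len p.asIdeal M ≠ 0 → p.asIdeal.IsMaximal ∨ p ∈ S) :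
    lk m b M ≠ ⊤ ∧ lq m b M = lk m b M + ∑ p ∈ S, len p.asIdeal M *
      len m (B ⧸ (p.asIdeal ⊔ Ideal.span {b})) := by
  have key : ∀ [Module R M] [IsScalarTower R B M],
      (∀ p : PrimeSpectrum B, len p.asIdeal M ≠ 0 → p.asIdeal.IsMaximal ∨ p ∈ S) →
      lk m b M ≠ ⊤ ∧ lq m b M = lk m b M + ∑ p ∈ S, len p.asIdeal M *
        len m (B ⧸ (p.asIdeal ⊔ Ideal.span {b})) := by
    refine IsNoetherianRing.induction_on_isQuotientEquivQuotientPrime B
      (M := M) inferInstance
      (motive := fun (N : Type v) _ _ _ => ∀ [Module R N] [IsScalarTower R B N],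
        (∀ p : PrimeSpectrum B, len p.asIdeal N ≠ 0 → p.asIdeal.IsMaximal ∨ p ∈ S) →
        lk m b N ≠ ⊤ ∧ lq m b N = lk m b N + ∑ p ∈ S, len p.asIdeal N *
          len m (B ⧸ (p.asIdeal ⊔ Ideal.span {b}))) ?_ ?_ ?_
    · intro N _ _ _ _ _ _ _
      have e1 : lk m b N = 0 := by
        unfold lk
        exact devis_sub m
      have e2 : lq m b N = 0 := by
        unfold lq
        exact devis_sub m
      rw [e1, e2, zero_add]
      refine ⟨by simp, ?_⟩
      symm
      refine Finset.sum_eq_zero fun p hp => ?_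
      rw [devis_sub p.asIdeal, zero_mul]
    · intro N _ _ _ q e _ _ hs
      exact devis_quotient m b hmax S hS hanti q N e hs
    · intro N₁ _ _ _ N₂ _ _ _ N₃ _ _ _ f g hf hg hfg h1 h3 _ _ hs
      let i1 : Module R N₁ := Module.compHom N₁ (algebraMap R B)
      have t1 : IsScalarTower R B N₁ := ⟨fun r c x => by
        change (r • c) • x = (algebraMap R B r) • (c • x)
        rw [Algebra.smul_def, mul_smul]⟩
      let i3 : Module R N₃ := Module.compHom N₃ (algebraMap R B)
      have t3 : IsScalarTower R B N₃ := ⟨fun r c x => by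
        change (r • c) • x = (algebraMap R B r) • (c • x)
        rw [Algebra.smul_def, mul_smul]⟩
      have hlen : ∀ p : PrimeSpectrum B, len p.asIdeal N₂ = len p.asIdeal N₁ + len p.asIdeal N₃ :=
        fun p => len_exact p.asIdeal f g hf hg hfg
      obtain ⟨a1, b1⟩ := h1 fun p hp => hs p (by
        rw [hlen]
        intro h0
        exact hp (add_eq_zero.mp h0).1)
      obtain ⟨a3, b3⟩ := h3 fun p hp => hs p (by
        rw [hlen]
        intro h0
        exact hp (add_eq_zero.mp h0).2)
      have hle : lk m b N₂ ≤ lk m b N₁ + lk m b N₃ := devis_lk_le m b f g hf hfg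
      have hfin : lk m b N₁ + lk m b N₃ ≠ ⊤ := WithTop.add_ne_top.mpr ⟨a1, a3⟩
      have hchi := chi m b f g hf hg hfg
      refine ⟨ne_top_of_le_ne_top hfin hle, ?_⟩
      have hsum : ∑ p ∈ S, len p.asIdeal N₂ * len m (B ⧸ (p.asIdeal ⊔ Ideal.span {b})) =
          ∑ p ∈ S, len p.asIdeal N₁ * len m (B ⧸ (p.asIdeal ⊔ Ideal.span {b})) +
          ∑ p ∈ S, len p.asIdeal N₃ * len m (B ⧸ (p.asIdeal ⊔ Ideal.span {b})) := by
        rw [← Finset.sum_add_distrib]
        refine Finset.sum_congr rfl fun p _ => ?_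
        rw [hlen, add_mul]
      rw [hsum]
      rw [b1, b3] at hchi
      have h4 : (lk m b N₁ + lk m b N₃) + lq m b N₂ = (lk m b N₁ + lk m b N₃) +
          (lk m b N₂ + (∑ p ∈ S, len p.asIdeal N₁ * len m (B ⧸ (p.asIdeal ⊔ Ideal.span {b})) +
          ∑ p ∈ S, len p.asIdeal N₃ * len m (B ⧸ (p.asIdeal ⊔ Ideal.span {b})))) := by
        rw [hchi]
        ac_rfl
      exact WithTop.add_left_cancel hfin h4
  exact key hsupp

end

end Pool.Agent.RDP

end

section


namespace Pool.Agent.RDP

universe u v w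

section

private theorem comm_quot {B : Type v} [CommRing B] (a b : B) :
    Nonempty (((B ⧸ Ideal.span {a}) ⧸ LinearMap.range (LinearMap.lsmul B (B ⧸ Ideal.span {a}) b))
      ≃ₗ[B] (B ⧸ (Ideal.span {a} ⊔ Ideal.span {b}))) := by
  let φ : B →ₗ[B] ((B ⧸ Ideal.span {a}) ⧸
      LinearMap.range (LinearMap.lsmul B (B ⧸ Ideal.span {a}) b)) :=
    (Submodule.mkQ _).comp (Submodule.mkQ (Ideal.span {a}))
  have hφ : Function.Surjective φ :=
    (Submodule.mkQ_surjective _).comp (Submodule.mkQ_surjective _)
  have hk : LinearMap.ker φ = Ideal.span {a} ⊔ Ideal.span {b} := by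
    ext x
    have h1 : x ∈ LinearMap.ker φ ↔ Submodule.mkQ (Ideal.span {a}) x ∈
        LinearMap.range (LinearMap.lsmul B (B ⧸ Ideal.span {a}) b) := by
      rw [LinearMap.mem_ker]
      exact Submodule.Quotient.mk_eq_zero _
    rw [h1]
    constructor
    · rintro ⟨y, hy⟩
      obtain ⟨y, rfl⟩ := Submodule.mkQ_surjective _ y
      have h2 : Submodule.mkQ (Ideal.span {a}) (x - b * y) = 0 := by
        rw [map_sub, ← hy, sub_eq_zero]
        rfl
      have h3 : x - b * y ∈ Ideal.span {a} := (Submodule.Quotient.mk_eq_zero _).1 h2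
      have h4 : b * y ∈ Ideal.span {b} := Ideal.mul_mem_right _ _ (Ideal.subset_span rfl)
      have h5 : x = (x - b * y) + b * y := by ring
      rw [h5]
      exact Submodule.add_mem_sup h3 h4
    · intro hx
      obtain ⟨y, hy, z, hz, rfl⟩ := Submodule.mem_sup.1 hx
      obtain ⟨w, rfl⟩ := Ideal.mem_span_singleton'.1 hz
      refine ⟨Submodule.mkQ (Ideal.span {a}) w, ?_⟩
      have h2 : Submodule.mkQ (Ideal.span {a}) y = 0 := (Submodule.Quotient.mk_eq_zero _).2 hy
      rw [map_add, h2, zero_add, mul_comm w b]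
      rfl
  exact ⟨(φ.quotKerEquivOfSurjective hφ).symm.trans (Submodule.quotEquivOfEq _ _ hk)⟩

/-- the pairs `(x, y)` with `b x = a y` -/
private def commK {B : Type v} [CommRing B] (a b : B) : Submodule B (B × B) :=
  LinearMap.ker ((LinearMap.lsmul B B b).comp (LinearMap.fst B B B) -
    (LinearMap.lsmul B B a).comp (LinearMap.snd B B B))

private theorem mem_commK {B : Type v} [CommRing B] (a b : B) (x : B × B) :
    x ∈ commK a b ↔ b * x.1 = a * x.2 := by
  rw [commK, LinearMap.mem_ker, LinearMap.sub_apply, sub_eq_zero]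
  rfl

private theorem comm_ker {B : Type v} [CommRing B] [IsDomain B] (a b : B) (ha : a ≠ 0)
    (hb : b ≠ 0) :
    Nonempty (LinearMap.ker (LinearMap.lsmul B (B ⧸ Ideal.span {a}) b) ≃ₗ[B]
      LinearMap.ker (LinearMap.lsmul B (B ⧸ Ideal.span {b}) a)) := by
  have m1 : ∀ x : commK a b, Submodule.mkQ (Ideal.span {a}) x.1.1 ∈
      LinearMap.ker (LinearMap.lsmul B (B ⧸ Ideal.span {a}) b) := by
    intro x
    rw [LinearMap.mem_ker]
    have h1 := (mem_commK a b x.1).1 x.2
    have h2 : LinearMap.lsmul B (B ⧸ Ideal.span {a}) b (Submodule.mkQ (Ideal.span {a}) x.1.1) =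
        Submodule.mkQ (Ideal.span {a}) (b * x.1.1) := rfl
    rw [h2, h1]
    exact (Submodule.Quotient.mk_eq_zero _).2 (Ideal.mul_mem_right _ _ (Ideal.subset_span rfl))
  have m2 : ∀ x : commK a b, Submodule.mkQ (Ideal.span {b}) x.1.2 ∈
      LinearMap.ker (LinearMap.lsmul B (B ⧸ Ideal.span {b}) a) := by
    intro x
    rw [LinearMap.mem_ker]
    have h1 := (mem_commK a b x.1).1 x.2
    have h2 : LinearMap.lsmul B (B ⧸ Ideal.span {b}) a (Submodule.mkQ (Ideal.span {b}) x.1.2) =
        Submodule.mkQ (Ideal.span {b}) (a * x.1.2) := rfl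
    rw [h2, ← h1]
    exact (Submodule.Quotient.mk_eq_zero _).2 (Ideal.mul_mem_right _ _ (Ideal.subset_span rfl))
  let T1 : commK a b →ₗ[B] LinearMap.ker (LinearMap.lsmul B (B ⧸ Ideal.span {a}) b) :=
    LinearMap.codRestrict _ ((Submodule.mkQ (Ideal.span {a})).comp
      ((LinearMap.fst B B B).comp (commK a b).subtype)) m1
  let T2 : commK a b →ₗ[B] LinearMap.ker (LinearMap.lsmul B (B ⧸ Ideal.span {b}) a) :=
    LinearMap.codRestrict _ ((Submodule.mkQ (Ideal.span {b})).comp
      ((LinearMap.snd B B B).comp (commK a b).subtype)) m2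
  have s1 : Function.Surjective T1 := by
    rintro ⟨x, hx⟩
    obtain ⟨x, rfl⟩ := Submodule.mkQ_surjective _ x
    rw [LinearMap.mem_ker] at hx
    have h2 : Submodule.mkQ (Ideal.span {a}) (b * x) = 0 := hx
    have h3 : b * x ∈ Ideal.span {a} := (Submodule.Quotient.mk_eq_zero _).1 h2
    obtain ⟨y, hy⟩ := Ideal.mem_span_singleton'.1 h3
    refine ⟨⟨(x, y), (mem_commK a b _).2 ?_⟩, rfl⟩
    show b * x = a * y
    rw [← hy, mul_comm]
  have s2 : Function.Surjective T2 := by
    rintro ⟨x, hx⟩
    obtain ⟨x, rfl⟩ := Submodule.mkQ_surjective _ x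
    rw [LinearMap.mem_ker] at hx
    have h2 : Submodule.mkQ (Ideal.span {b}) (a * x) = 0 := hx
    have h3 : a * x ∈ Ideal.span {b} := (Submodule.Quotient.mk_eq_zero _).1 h2
    obtain ⟨y, hy⟩ := Ideal.mem_span_singleton'.1 h3
    refine ⟨⟨(y, x), (mem_commK a b _).2 ?_⟩, rfl⟩
    show b * y = a * x
    rw [← hy, mul_comm]
  have hk : LinearMap.ker T1 = LinearMap.ker T2 := by
    ext ⟨⟨x, y⟩, hxy⟩
    have h0 : b * x = a * y := (mem_commK a b _).1 hxy
    have h1 : (⟨(x, y), hxy⟩ : commK a b) ∈ LinearMap.ker T1 ↔ x ∈ Ideal.span {a} := by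
      rw [LinearMap.mem_ker, Subtype.ext_iff]
      exact Submodule.Quotient.mk_eq_zero _
    have h2 : (⟨(x, y), hxy⟩ : commK a b) ∈ LinearMap.ker T2 ↔ y ∈ Ideal.span {b} := by
      rw [LinearMap.mem_ker, Subtype.ext_iff]
      exact Submodule.Quotient.mk_eq_zero _
    rw [h1, h2]
    constructor
    · intro h
      obtain ⟨z, rfl⟩ := Ideal.mem_span_singleton'.1 h
      refine Ideal.mem_span_singleton'.2 ⟨z, ?_⟩
      apply mul_left_cancel₀ ha
      rw [← h0]; ring
    · intro h
      obtain ⟨z, rfl⟩ := Ideal.mem_span_singleton'.1 h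
      refine Ideal.mem_span_singleton'.2 ⟨z, ?_⟩
      apply mul_left_cancel₀ hb
      rw [h0]; ring
  exact ⟨(T1.quotKerEquivOfSurjective s1).symm.trans
    ((Submodule.quotEquivOfEq _ _ hk).trans (T2.quotKerEquivOfSurjective s2))⟩

theorem comm {E : Type u} [Field E] [IsAlgClosed E] {B : Type v} [CommRing B] [Algebra E B]
    [Algebra (MvPolynomial (Fin 2) E) B] [IsScalarTower E (MvPolynomial (Fin 2) E) B]
    (hB : Srf E B) (Q : Fin 2 → E) (a b : B) (ha : a ≠ 0) (hb : b ≠ 0)
    (Sa Sb : Finset (PrimeSpectrum B)) (hSa : Cur a Sa) (hSb : Cur b Sb)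
    (hd : ∀ p ∈ Sa, b ∉ p.asIdeal) :
    ∑ p ∈ Sa, len p.asIdeal (B ⧸ Ideal.span {a}) * len (mQ Q) (B ⧸ (p.asIdeal ⊔ Ideal.span {b})) =
    ∑ p ∈ Sb, len p.asIdeal (B ⧸ Ideal.span {b}) * len (mQ Q) (B ⧸ (p.asIdeal ⊔ Ideal.span {a})) := by
  have := hB.dom
  have := hB.noe
  have hd' : ∀ p ∈ Sb, a ∉ p.asIdeal := by
    intro p hp hap
    rcases hSa.all p hap with h | h
    · exact (hSb.mem p hp).2 h
    · exact hd p h (hSb.mem p hp).1
  have supp : ∀ (c : B) (p : PrimeSpectrum B), len p.asIdeal (B ⧸ Ideal.span {c}) ≠ 0 →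
      c ∈ p.asIdeal := by
    intro c p hp
    by_contra hc
    apply hp
    refine len_kill p.asIdeal c hc ?_
    intro m
    obtain ⟨m, rfl⟩ := Submodule.mkQ_surjective _ m
    have h2 : c • Submodule.mkQ (Ideal.span {c}) m = Submodule.mkQ (Ideal.span {c}) (c * m) := rfl
    rw [h2]
    exact (Submodule.Quotient.mk_eq_zero _).2 (Ideal.mul_mem_right _ _ (Ideal.subset_span rfl))
  obtain ⟨k1, e1⟩ := devis (mQ Q) b (fun n hn => len_max hB.ft Q n hn) Sa
    (fun p hp => ⟨hd p hp, (hSa.mem p hp).2⟩) hSa.anti (B ⧸ Ideal.span {a})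
    (fun p hp => hSa.all p (supp a p hp))
  obtain ⟨k2, e2⟩ := devis (mQ Q) a (fun n hn => len_max hB.ft Q n hn) Sb
    (fun p hp => ⟨hd' p hp, (hSb.mem p hp).2⟩) hSb.anti (B ⧸ Ideal.span {b})
    (fun p hp => hSb.all p (supp b p hp))
  obtain ⟨q1⟩ := comm_quot a b
  obtain ⟨q2⟩ := comm_quot b a
  obtain ⟨r⟩ := comm_ker a b ha hb
  have hq : lq (mQ Q) b (B ⧸ Ideal.span {a}) = lq (mQ Q) a (B ⧸ Ideal.span {b}) :=
    len_equiv (mQ Q) ((q1.trans ((Submodule.quotEquivOfEq _ _ (sup_comm _ _)).trans
      q2.symm)).restrictScalars (MvPolynomial (Fin 2) E))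
  have hk : lk (mQ Q) b (B ⧸ Ideal.span {a}) = lk (mQ Q) a (B ⧸ Ideal.span {b}) :=
    len_equiv (mQ Q) (r.restrictScalars (MvPolynomial (Fin 2) E))
  have h : lk (mQ Q) b (B ⧸ Ideal.span {a}) + ∑ p ∈ Sa, len p.asIdeal (B ⧸ Ideal.span {a}) *
        len (mQ Q) (B ⧸ (p.asIdeal ⊔ Ideal.span {b})) =
      lk (mQ Q) b (B ⧸ Ideal.span {a}) + ∑ p ∈ Sb, len p.asIdeal (B ⧸ Ideal.span {b}) *
        len (mQ Q) (B ⧸ (p.asIdeal ⊔ Ideal.span {a})) := by
    rw [← e1, hq, hk, e2]
  exact WithTop.add_left_cancel k1 h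

end

end Pool.Agent.RDP

end

section


namespace Pool.Agent.RDP

universe u v w

section

theorem len_fin2 {E : Type u} [Field E] [IsAlgClosed E] {B : Type v} [CommRing B] [Algebra E B]
    [Algebra (MvPolynomial (Fin 2) E) B] [IsScalarTower E (MvPolynomial (Fin 2) E) B]
    (hB : Srf E B) (Q : Fin 2 → E) (p : Ideal B) [p.IsPrime] (hp : p ≠ ⊥) (b : B) (hb : b ∉ p) :
    len (mQ Q) (B ⧸ (p ⊔ Ideal.span {b})) ≠ ⊤ := by
  have hnoe : IsNoetherianRing B := hB.noe
  have hdom : IsDomain B := hB.dom
  set I : Ideal B := p ⊔ Ideal.span {b} with hI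
  have hbI : b ∈ I := (le_sup_right : Ideal.span {b} ≤ I) (Ideal.mem_span_singleton_self b)
  have hpI : p ≤ I := le_sup_left
  have hmx : ∀ q : PrimeSpectrum B, I ≤ q.asIdeal → q.asIdeal.IsMaximal := by
    intro q hq
    have hd := hB.d2 p inferInstance hp
    have hpq : p ≤ q.asIdeal := hpI.trans hq
    set f : B →+* B ⧸ p := Ideal.Quotient.mk p with hf
    have hsurj : Function.Surjective f := Ideal.Quotient.mk_surjective
    have hker : RingHom.ker f = p := Ideal.mk_ker
    have hprime : (q.asIdeal.map f).IsPrime :=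
      Ideal.map_isPrime_of_surjective hsurj (by rw [hker]; exact hpq)
    have hne : q.asIdeal.map f ≠ ⊥ := by
      intro h0
      apply hb
      have h1 : f b ∈ q.asIdeal.map f := Ideal.mem_map_of_mem f (hq hbI)
      rw [h0, Ideal.mem_bot] at h1
      exact Ideal.Quotient.eq_zero_iff_mem.1 h1
    have hmax : (q.asIdeal.map f).IsMaximal := hd.maximalOfPrime hne hprime
    have hcom : (q.asIdeal.map f).comap f = q.asIdeal := by
      rw [Ideal.comap_map_of_surjective f hsurj]
      refine sup_eq_left.2 ?_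
      intro x hx
      apply hpq
      rw [← hker]
      exact hx
    rw [← hcom]
    exact Ideal.comap_isMaximal_of_surjective f hsurj
  have h := (devis (mQ Q) (0 : B) (fun n hn => len_max hB.ft Q n hn) ∅
    (fun q hq => absurd hq (Finset.notMem_empty q))
    (fun q hq => absurd hq (Finset.notMem_empty q)) (B ⧸ I) (by
      intro q hq
      left
      apply hmx
      intro s hs
      by_contra hsq
      apply hq
      apply len_kill q.asIdeal s hsq
      intro m
      obtain ⟨x, rfl⟩ := Ideal.Quotient.mk_surjective m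
      have h1 : s • (Ideal.Quotient.mk I x) = Ideal.Quotient.mk I (s * x) := rfl
      rw [h1, Ideal.Quotient.eq_zero_iff_mem]
      exact Ideal.mul_mem_right _ _ hs)).1
  have e : (LinearMap.ker (LinearMap.lsmul B (B ⧸ I) 0)) ≃ₗ[MvPolynomial (Fin 2) E] (B ⧸ I) :=
    LinearEquiv.ofBijective
      { toFun := fun x => x.1
        map_add' := fun _ _ => rfl
        map_smul' := fun _ _ => rfl }
      ⟨fun x y hxy => Subtype.ext hxy, fun x => ⟨⟨x, by
        rw [LinearMap.mem_ker, map_zero]
        rfl⟩, rfl⟩⟩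
  have h2 := len_equiv (mQ Q) e
  rw [← h2]
  exact h

end

end Pool.Agent.RDP

end

section


namespace Pool.Agent.RDP

universe u v w

section

theorem comm_psi_cast {ι : Type v} (S : Finset ι) (f g : ι → ℕ∞) (hf : ∀ i ∈ S, f i ≠ ⊤)
    (hg : ∀ i ∈ S, g i ≠ ⊤) :
    ∑ i ∈ S, f i * g i = ((∑ i ∈ S, (f i).toNat * (g i).toNat : ℕ) : ℕ∞) := by
  rw [Nat.cast_sum]
  apply Finset.sum_congr rfl
  intro i hi
  rw [Nat.cast_mul, ENat.natCast_toNat (hf i hi), ENat.natCast_toNat (hg i hi)]

theorem comm_psi_half {E : Type u} [Field E] [IsAlgClosed E] {B : Type v} [CommRing B]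
    [Algebra E B]
    [Algebra (MvPolynomial (Fin 2) E) B] [IsScalarTower E (MvPolynomial (Fin 2) E) B]
    (hB : Srf E B) (Q : Fin 2 → E) (a c : B) (ha : a ≠ 0) (hc : c ≠ 0)
    (S T : Finset (PrimeSpectrum B)) (hS0 : ∀ p ∈ S, p.asIdeal ≠ ⊥)
    (hSm : ∀ p ∈ S, ¬ p.asIdeal.IsMaximal)
    (hSa : ∀ p : PrimeSpectrum B, a ∈ p.asIdeal → p.asIdeal.IsMaximal ∨ p ∈ S)
    (hanti : ∀ p ∈ S, ∀ p' ∈ S, p.asIdeal ≤ p'.asIdeal → p = p')
    (hT : Cur c T)
    (hd : ∀ p ∈ S, c ∉ p.asIdeal) :
    ∑ p ∈ S, ((len p.asIdeal (B ⧸ Ideal.span {a})).toNat : ℤ) *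
        (len (mQ Q) (B ⧸ (p.asIdeal ⊔ Ideal.span {c}))).toNat =
    ∑ p ∈ T, ((len p.asIdeal (B ⧸ Ideal.span {c})).toNat : ℤ) *
        ((len (mQ Q) (B ⧸ (p.asIdeal ⊔ Ideal.span {a}))).toNat : ℤ) := by
  classical
  have hcur : Cur a (S.filter fun p => a ∈ p.asIdeal) := by
    refine ⟨?_, ?_, ?_⟩
    · intro p hp
      rw [Finset.mem_filter] at hp
      exact ⟨hp.2, hSm p hp.1⟩
    · intro p hp
      rcases hSa p hp with h | h
      · exact Or.inl h
      · exact Or.inr (Finset.mem_filter.2 ⟨h, hp⟩)
    · intro p hp p' hp' h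
      exact hanti p (Finset.mem_filter.1 hp).1 p' (Finset.mem_filter.1 hp').1 h
  have h1 := comm hB Q a c ha hc _ T hcur hT (fun p hp => hd p (Finset.mem_filter.1 hp).1)
  have h2 : ∑ p ∈ S.filter (fun p => a ∈ p.asIdeal), len p.asIdeal (B ⧸ Ideal.span {a}) *
      len (mQ Q) (B ⧸ (p.asIdeal ⊔ Ideal.span {c})) =
      ∑ p ∈ S, len p.asIdeal (B ⧸ Ideal.span {a}) *
      len (mQ Q) (B ⧸ (p.asIdeal ⊔ Ideal.span {c})) := by
    apply Finset.sum_subset (Finset.filter_subset _ _)
    intro p hp hp2
    have hap : a ∉ p.asIdeal := fun h => hp2 (Finset.mem_filter.2 ⟨hp, h⟩)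
    rw [len_kill p.asIdeal a hap, zero_mul]
    intro m
    obtain ⟨m, rfl⟩ := Ideal.Quotient.mk_surjective m
    rw [Algebra.smul_def]
    have : (algebraMap B (B ⧸ Ideal.span {a})) a = 0 :=
      Ideal.Quotient.eq_zero_iff_mem.2 (Ideal.mem_span_singleton_self a)
    rw [this, zero_mul]
  rw [h2] at h1
  rw [comm_psi_cast S _ _ (fun p hp => len_fin1 hB a ha p.asIdeal (hSm p hp))
    (fun p hp => len_fin2 hB Q p.asIdeal (hS0 p hp) c (hd p hp)),
    comm_psi_cast T _ _ (fun p hp => len_fin1 hB c hc p.asIdeal (hT.mem p hp).2)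
    (fun p hp => len_fin2 hB Q p.asIdeal (fun h => hc (by
      have := (hT.mem p hp).1
      rw [h] at this
      exact (Ideal.mem_bot).1 this)) a (fun h => by
        rcases hSa p h with h3 | h3
        · exact (hT.mem p hp).2 h3
        · exact hd p h3 (hT.mem p hp).1)), Nat.cast_inj] at h1
  exact_mod_cast h1

theorem comm_psi {E : Type u} [Field E] [IsAlgClosed E] {B : Type v} [CommRing B] [Algebra E B]
    [Algebra (MvPolynomial (Fin 2) E) B] [IsScalarTower E (MvPolynomial (Fin 2) E) B]
    (hB : Srf E B) (Q : Fin 2 → E) (a b c : B) (ha : a ≠ 0) (hb : b ≠ 0) (hc : c ≠ 0)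
    (S T : Finset (PrimeSpectrum B)) (hS : Cur (a * b) S) (hT : Cur c T)
    (hd : ∀ p ∈ S, c ∉ p.asIdeal) :
    ∑ p ∈ S, (((len p.asIdeal (B ⧸ Ideal.span {a})).toNat : ℤ) -
        (len p.asIdeal (B ⧸ Ideal.span {b})).toNat) *
        (len (mQ Q) (B ⧸ (p.asIdeal ⊔ Ideal.span {c}))).toNat =
    ∑ p ∈ T, ((len p.asIdeal (B ⧸ Ideal.span {c})).toNat : ℤ) *
        (((len (mQ Q) (B ⧸ (p.asIdeal ⊔ Ideal.span {a}))).toNat : ℤ) -
          (len (mQ Q) (B ⧸ (p.asIdeal ⊔ Ideal.span {b}))).toNat) := by
  have := hB.dom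
  have hS0 : ∀ p ∈ S, p.asIdeal ≠ ⊥ := by
    intro p hp h
    have h1 := (hS.mem p hp).1
    rw [h, Ideal.mem_bot] at h1
    exact (mul_ne_zero ha hb) h1
  have hSm : ∀ p ∈ S, ¬ p.asIdeal.IsMaximal := fun p hp => (hS.mem p hp).2
  have h1 := comm_psi_half hB Q a c ha hc S T hS0 hSm
    (fun p hp => hS.all p (Ideal.mul_mem_right _ _ hp)) hS.anti hT hd
  have h2 := comm_psi_half hB Q b c hb hc S T hS0 hSm
    (fun p hp => hS.all p (Ideal.mul_mem_left _ _ hp)) hS.anti hT hd
  simp only [sub_mul, mul_sub, Finset.sum_sub_distrib]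
  rw [h1, h2]

end

end Pool.Agent.RDP

end

section


namespace Pool.Agent.RDP

universe u v w

section

theorem detlen_ord {D : Type u} [CommRing D] [IsDomain D] {ι : Type*} (S : Finset ι) (a : ι → D)
    (ha : ∀ i, a i ≠ 0) :
    ∑ i ∈ S, Ring.ord D (a i) = Ring.ord D (∏ i ∈ S, a i) := by
  classical
  induction S using Finset.induction_on with
  | empty =>
    rw [Finset.sum_empty, Finset.prod_empty, Ring.ord, Ideal.span_singleton_one]
    symm
    rw [Module.length_eq_zero_iff]
    exact Ideal.Quotient.subsingleton_iff.2 rfl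
  | insert i S hi ih =>
    rw [Finset.sum_insert hi, Finset.prod_insert hi, Ring.ord_mul' D
      (mem_nonZeroDivisors_of_ne_zero (ha i)), ih]

theorem detlen_assoc {D : Type u} [CommRing D] [IsDomain D] [IsPrincipalIdealRing D] {M : Type v}
    [AddCommGroup M] [Module D M] {ι : Type*} [Fintype ι] (b : Module.Basis ι D M)
    (φ : M →ₗ[D] M)
    (hφ : Function.Injective φ)
    (h : Module.finrank D (LinearMap.range φ) = Module.finrank D M) :
    Associated (∏ i, Submodule.smithNormalFormCoeffs b h i) (LinearMap.det φ) := by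
  classical
  set b' := Submodule.smithNormalFormTopBasis b h with hb'
  set ab := Submodule.smithNormalFormBotBasis b h with hab
  set a := Submodule.smithNormalFormCoeffs b h with ha
  rw [← Matrix.det_diagonal, ← LinearMap.det_toLin b']
  let e : M ≃ₗ[D] M := (b'.equiv ab (Equiv.refl _)).trans (LinearEquiv.ofInjective φ hφ).symm
  refine LinearMap.associated_det_of_eq_comp e _ _ ?_
  intro x
  have h1 : φ ∘ₗ e.toLinearMap = (Matrix.toLin b' b') (Matrix.diagonal a) := by
    refine b'.ext fun i => ?_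
    rw [LinearMap.comp_apply, LinearEquiv.coe_toLinearMap]
    have h2 : φ (e (b' i)) = ab i := by
      show φ ((LinearEquiv.ofInjective φ hφ).symm (b'.equiv ab (Equiv.refl _) (b' i))) = ab i
      rw [Module.Basis.equiv_apply]
      have h3 := LinearEquiv.apply_symm_apply (LinearEquiv.ofInjective φ hφ) (ab i)
      have h4 := congrArg Subtype.val h3
      rw [LinearEquiv.ofInjective_apply] at h4
      exact h4
    rw [h2, Submodule.smithNormalFormBotBasis_def, Matrix.toLin_self]
    rw [Finset.sum_eq_single i]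
    · rw [Matrix.diagonal_apply_eq]
    · intro j _ hj
      rw [Matrix.diagonal_apply_ne _ hj, zero_smul]
    · intro hi
      exact absurd (Finset.mem_univ i) hi
  rw [← h1]
  rfl

theorem detlen {D : Type u} [CommRing D] [IsDomain D] [IsDiscreteValuationRing D] {M : Type v}
    [AddCommGroup M] [Module D M] [Module.Finite D M] [Module.Free D M] (φ : M →ₗ[D] M)
    (hφ : Function.Injective φ) :
    Module.length D (M ⧸ LinearMap.range φ) = Module.length D (D ⧸ Ideal.span {LinearMap.det φ}) := by
  classical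
  have h : Module.finrank D (LinearMap.range φ) = Module.finrank D M :=
    (LinearEquiv.finrank_eq (LinearEquiv.ofInjective φ hφ)).symm
  let b := Module.Free.chooseBasis D M
  have h1 := (Submodule.quotientEquivPiSpan (LinearMap.range φ) b h).length_eq
  rw [Module.length_pi_of_fintype] at h1
  have h2 := detlen_ord (D := D) Finset.univ (Submodule.smithNormalFormCoeffs b h)
    (fun i => Submodule.smithNormalFormCoeffs_ne_zero b h i)
  have h3 := detlen_assoc b φ hφ h
  rw [h1]
  refine Eq.trans h2 ?_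
  rw [Ring.ord, Ideal.span_singleton_eq_span_singleton.2 h3]

end

end Pool.Agent.RDP

end

section


namespace Pool.Agent.RDP

universe u v w

section

open scoped IntermediateField.algebraAdjoinAdjoin in
theorem dim1 {E K : Type u} [Field E] [Field K] [Algebra E K] (htr : Td1 E K)
    (B : Subalgebra E K) : Ring.DimensionLEOne B := by
  refine ⟨fun {p} hp0 hp => ?_⟩
  obtain ⟨f, hfp, hf0⟩ := Submodule.exists_mem_ne_zero_of_ne_bot hp0
  have hf0' : (f : K) ≠ 0 := fun h => hf0 (Subtype.ext h)
  -- every element of `B` is algebraic over `E` modulo `p`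
  have key : ∀ x : B, ∃ d : Polynomial E, d ≠ 0 ∧ Polynomial.aeval x d ∈ p := by
    intro x
    by_cases hx : IsAlgebraic E (x : K)
    · obtain ⟨d, hd, h⟩ := hx
      refine ⟨d, hd, ?_⟩
      have : Polynomial.aeval x d = 0 := by
        apply Subtype.ext
        rw [← Subalgebra.coe_val, ← Polynomial.aeval_algHom_apply]
        simpa using h
      rw [this]
      exact p.zero_mem
    · have h1 := htr (x : K) hx (f : K)
      have h2 : IsAlgebraic (Algebra.adjoin E {(x : K)}) (f : K) :=
        (IsFractionRing.isAlgebraic_iff (Algebra.adjoin E {(x : K)})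
          (IntermediateField.adjoin E {(x : K)}) K).mpr h1
      obtain ⟨t, ht, r, hr0, hr⟩ := h2.exists_nonzero_eq_adjoin_mul
        (mem_nonZeroDivisors_of_ne_zero hf0')
      have hxB : Algebra.adjoin E {(x : K)} ≤ B :=
        Algebra.adjoin_le (Set.singleton_subset_iff.2 x.2)
      have htB : t ∈ B := by
        refine Algebra.adjoin_induction (p := fun y _ => y ∈ B) ?_ ?_ ?_ ?_ ht
        · intro y hy
          rw [Set.mem_singleton_iff.1 hy]
          exact f.2
        · intro y
          exact hxB y.2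
        · intro y z _ _ hy hz
          exact B.add_mem hy hz
        · intro y z _ _ hy hz
          exact B.mul_mem hy hz
      obtain ⟨d, hd⟩ := (Algebra.adjoin_singleton_eq_range_aeval E (x : K)).le r.2
      have hd' : Polynomial.aeval (x : K) d = (r : K) := hd
      refine ⟨d, ?_, ?_⟩
      · rintro rfl
        rw [map_zero] at hd'
        exact hr0 (Subtype.ext hd'.symm)
      · have e : Polynomial.aeval x d = f * ⟨t, htB⟩ := by
          apply Subtype.ext
          rw [← Subalgebra.coe_val, ← Polynomial.aeval_algHom_apply]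
          show Polynomial.aeval (x : K) d = (f : K) * t
          rw [hd', hr]
          rfl
        rw [e]
        exact p.mul_mem_right _ hfp
  have hdom : IsDomain (B ⧸ p) := Ideal.Quotient.isDomain p
  have hint : Algebra.IsIntegral E (B ⧸ p) := by
    refine ⟨fun y => ?_⟩
    obtain ⟨x, rfl⟩ := Ideal.Quotient.mk_surjective y
    obtain ⟨d, hd, h⟩ := key x
    refine IsAlgebraic.isIntegral ⟨d, hd, ?_⟩
    have e : Polynomial.aeval (Ideal.Quotient.mk p x) d =
        Ideal.Quotient.mk p (Polynomial.aeval x d) :=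
      Polynomial.aeval_algHom_apply (Ideal.Quotient.mkₐ E p) x d
    rw [e, Ideal.Quotient.eq_zero_iff_mem]
    exact h
  exact Ideal.Quotient.maximal_of_isField p (isField_of_isIntegral_of_isField' (Field.toIsField E))

end

end Pool.Agent.RDP

end

section


namespace Pool.Agent.RDP

universe u v w

section

private theorem dimE_act {E : Type u} [Field E] (Q : Fin 2 → E) (M : Type v) [AddCommGroup M]
    [Module E M] [Module (MvPolynomial (Fin 2) E) M] [IsScalarTower E (MvPolynomial (Fin 2) E) M]
    (h : ∀ (i : Fin 2) (m : M), (MvPolynomial.X i : MvPolynomial (Fin 2) E) • m = Q i • m)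
    (p : MvPolynomial (Fin 2) E) (m : M) : p • m = (MvPolynomial.eval Q p) • m := by
  induction p using MvPolynomial.induction_on generalizing m with
  | C a =>
    rw [MvPolynomial.eval_C, ← MvPolynomial.algebraMap_eq, algebraMap_smul]
  | add p q hp hq => rw [add_smul, hp, hq, map_add, add_smul]
  | mul_X p i hp =>
    rw [mul_smul, h, hp, map_mul, MvPolynomial.eval_X, mul_smul]

private theorem dimE_bot {E : Type u} [Field E] (M : Type v) [AddCommGroup M] [Module E M]
    [(⊥ : Ideal E).IsPrime] : len (⊥ : Ideal E) M = Module.length E M := by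
  have hne : ∀ s : (⊥ : Ideal E).primeCompl, (s : E) ≠ 0 := fun s hs => s.2 (by
    rw [hs]; exact Submodule.zero_mem _)
  have hsur : Function.Surjective (algebraMap E (Localization.AtPrime (⊥ : Ideal E))) := by
    intro z
    obtain ⟨a, s, rfl⟩ := IsLocalization.exists_mk'_eq (⊥ : Ideal E).primeCompl z
    refine ⟨a * (s : E)⁻¹, ?_⟩
    rw [IsLocalization.eq_mk'_iff_mul_eq, ← map_mul, inv_mul_cancel_right₀ (hne s)]
  unfold len
  rw [← Module.length_eq_of_surjective hsur]
  refine (LinearEquiv.length_eq (LinearEquiv.ofBijective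
    (LocalizedModule.mkLinearMap (⊥ : Ideal E).primeCompl M) ⟨?_, ?_⟩)).symm
  · rw [injective_iff_map_eq_zero]
    intro m hm
    rw [IsLocalizedModule.eq_zero_iff (⊥ : Ideal E).primeCompl] at hm
    obtain ⟨s, hs⟩ := hm
    have hs' : (s : E) • m = 0 := hs
    exact (smul_eq_zero.mp hs').resolve_left (hne s)
  · intro z
    obtain ⟨⟨m, s⟩, hms⟩ := IsLocalizedModule.surj (⊥ : Ideal E).primeCompl
      (LocalizedModule.mkLinearMap (⊥ : Ideal E).primeCompl M) z
    refine ⟨(s : E)⁻¹ • m, ?_⟩
    have hms' : (s : E) • z = LocalizedModule.mkLinearMap (⊥ : Ideal E).primeCompl M m := hms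
    rw [map_smul, ← hms', smul_smul, inv_mul_cancel₀ (hne s), one_smul]

theorem dimE {E : Type u} [Field E] (Q : Fin 2 → E) (M : Type v) [AddCommGroup M] [Module E M]
    [Module (MvPolynomial (Fin 2) E) M] [IsScalarTower E (MvPolynomial (Fin 2) E) M]
    (h : ∀ (i : Fin 2) (m : M), (MvPolynomial.X i : MvPolynomial (Fin 2) E) • m = Q i • m) :
    len (mQ Q) M = Module.length E M ∧ ∀ Q' : Fin 2 → E, Q' ≠ Q → len (mQ Q') M = 0 := by
  have hact := dimE_act Q M h
  refine ⟨?_, ?_⟩
  · letI : Algebra (MvPolynomial (Fin 2) E) E := (MvPolynomial.eval Q).toAlgebra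
    have halg : ∀ p : MvPolynomial (Fin 2) E, algebraMap (MvPolynomial (Fin 2) E) E p =
        MvPolynomial.eval Q p := fun _ => rfl
    haveI : IsScalarTower (MvPolynomial (Fin 2) E) E M := ⟨fun p e m => by
      rw [Algebra.smul_def, halg, mul_smul, hact p]⟩
    have hs : Function.Surjective (algebraMap (MvPolynomial (Fin 2) E) E) := fun e =>
      ⟨MvPolynomial.C e, by rw [halg, MvPolynomial.eval_C]⟩
    haveI : (⊥ : Ideal E).IsPrime := Ideal.isPrime_bot
    rw [len_surj hs (⊥ : Ideal E) (mQ Q) rfl M]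
    exact dimE_bot M
  · intro Q' hQ'
    obtain ⟨i, hi⟩ := Function.ne_iff.mp hQ'
    refine len_kill (mQ Q') (MvPolynomial.X i - MvPolynomial.C (Q i)) ?_ ?_
    · rw [mem_mQ, map_sub, MvPolynomial.eval_X, MvPolynomial.eval_C]
      exact sub_ne_zero.mpr hi
    · intro m
      rw [hact, map_sub, MvPolynomial.eval_X, MvPolynomial.eval_C, sub_self, zero_smul]

end

end Pool.Agent.RDP

end

section


namespace Pool.Agent.RDP

universe u v w

section

theorem rk_len_zero {R : Type u} [CommRing R] (p : Ideal R) [p.IsPrime] (M : Type v)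
    [AddCommGroup M] [Module R M] [Subsingleton M] : len p M = 0 := by
  unfold len
  rw [Module.length_eq_zero_iff]
  constructor
  intro a b
  induction a using LocalizedModule.induction_on with
  | h m t =>
    induction b using LocalizedModule.induction_on with
    | h n t' =>
      rw [Subsingleton.elim m 0, Subsingleton.elim n 0, LocalizedModule.zero_mk,
        LocalizedModule.zero_mk]

theorem rk_quot {R D₁ D : Type u} [CommRing R] [CommRing D₁] [CommRing D] [Algebra R D₁]
    [Algebra D₁ D] [Algebra R D] [IsScalarTower R D₁ D] (p : Ideal R) [p.IsPrime] (b : D₁) :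
    lq p b D = len p (D ⧸ Ideal.span {algebraMap D₁ D b}) := by
  unfold lq
  have hle : LinearMap.range (LinearMap.lsmul D₁ D b) ≤
      LinearMap.ker (Ideal.Quotient.mkₐ D₁ (Ideal.span {algebraMap D₁ D b})).toLinearMap := by
    rintro _ ⟨y, rfl⟩
    rw [LinearMap.mem_ker]
    show Ideal.Quotient.mk _ (b • y) = 0
    rw [Ideal.Quotient.eq_zero_iff_mem, Algebra.smul_def]
    exact Ideal.mul_mem_right _ _ (Ideal.mem_span_singleton_self _)
  have hbij : Function.Bijective ((LinearMap.range (LinearMap.lsmul D₁ D b)).liftQ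
      (Ideal.Quotient.mkₐ D₁ (Ideal.span {algebraMap D₁ D b})).toLinearMap hle) := by
    constructor
    · rw [← LinearMap.ker_eq_bot]
      refine Submodule.ker_liftQ_eq_bot _ _ _ ?_
      intro y hy
      rw [LinearMap.mem_ker] at hy
      have hy' : Ideal.Quotient.mk (Ideal.span {algebraMap D₁ D b}) y = 0 := hy
      rw [Ideal.Quotient.eq_zero_iff_mem, Ideal.mem_span_singleton] at hy'
      obtain ⟨z, rfl⟩ := hy'
      exact ⟨z, by rw [LinearMap.lsmul_apply, Algebra.smul_def]⟩
    · intro y
      obtain ⟨z, rfl⟩ := Ideal.Quotient.mk_surjective y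
      exact ⟨Submodule.Quotient.mk z, rfl⟩
  exact len_equiv p ((LinearEquiv.ofBijective _ hbij).restrictScalars R)

theorem rk {E : Type u} [Field E] [IsAlgClosed E] {D₁ K₁ D K : Type u} [CommRing D₁] [IsDomain D₁]
    [Field K₁] [Algebra D₁ K₁] [IsFractionRing D₁ K₁] [CommRing D] [IsDomain D] [Field K]
    [Algebra D K] [IsFractionRing D K] [Algebra D₁ D] [Algebra K₁ K] [Algebra D₁ K]
    [IsScalarTower D₁ K₁ K] [IsScalarTower D₁ D K] [FiniteDimensional K₁ K] [Algebra E D₁]
    [Algebra (MvPolynomial (Fin 2) E) D₁] [IsScalarTower E (MvPolynomial (Fin 2) E) D₁]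
    [Algebra (MvPolynomial (Fin 2) E) D] [IsScalarTower (MvPolynomial (Fin 2) E) D₁ D]
    (hft : Algebra.FiniteType E D₁) (hdim : Ring.DimensionLEOne D₁) [Module.Finite D₁ D] (b : D₁)
    (hb : b ≠ 0) (Q : Fin 2 → E) :
    len (mQ Q) (D ⧸ Ideal.span {algebraMap D₁ D b}) =
      (Module.finrank K₁ K : ℕ) * len (mQ Q) (D₁ ⧸ Ideal.span {b}) := by
  have hinj : Function.Injective (algebraMap D₁ D) := by
    have h1 : Function.Injective (algebraMap D₁ K) := by
      rw [IsScalarTower.algebraMap_eq D₁ K₁ K]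
      exact (algebraMap K₁ K).injective.comp (IsFractionRing.injective D₁ K₁)
    rw [IsScalarTower.algebraMap_eq D₁ D K] at h1
    exact Function.Injective.of_comp h1
  by_cases hf : IsField D₁
  · have hu : IsUnit b := by
      obtain ⟨c, hc⟩ := hf.mul_inv_cancel hb
      exact IsUnit.of_mul_eq_one c hc
    have e1 : Ideal.span {b} = ⊤ := Ideal.span_singleton_eq_top.2 hu
    have e2 : Ideal.span {algebraMap D₁ D b} = ⊤ :=
      Ideal.span_singleton_eq_top.2 (hu.map _)
    have s1 : Subsingleton (D₁ ⧸ Ideal.span {b}) := Ideal.Quotient.subsingleton_iff.2 e1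
    have s2 : Subsingleton (D ⧸ Ideal.span {algebraMap D₁ D b}) :=
      Ideal.Quotient.subsingleton_iff.2 e2
    rw [rk_len_zero, rk_len_zero, mul_zero]
  have hnoe : IsNoetherianRing D₁ := Algebra.FiniteType.isNoetherianRing E D₁
  have hbot : ¬ (⊥ : Ideal D₁).IsMaximal := by
    intro h
    exact Ring.ne_bot_of_isMaximal_of_not_isField h hf rfl
  have hdev := devis (mQ Q) b (fun n hn => len_max hft Q n hn)
    ({⟨⊥, Ideal.isPrime_bot⟩} : Finset (PrimeSpectrum D₁)) (by
      intro p hp
      rw [Finset.mem_singleton] at hp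
      subst hp
      exact ⟨fun h => hb ((Ideal.mem_bot).1 h), hbot⟩) (by
      intro p hp p' hp' _
      rw [Finset.mem_singleton] at hp hp'
      rw [hp, hp']) D (by
      intro p _
      by_cases h0 : p.asIdeal = ⊥
      · right
        rw [Finset.mem_singleton]
        exact PrimeSpectrum.ext h0
      · left
        exact hdim.maximalOfPrime h0 p.isPrime)
  have hlk : lk (mQ Q) b D = 0 := by
    unfold lk
    have : Subsingleton (LinearMap.ker (LinearMap.lsmul D₁ D b)) := by
      rw [Submodule.subsingleton_iff_eq_bot, LinearMap.ker_eq_bot']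
      intro y hy
      rw [LinearMap.lsmul_apply, Algebra.smul_def, mul_eq_zero] at hy
      rcases hy with h1 | h1
      · exact absurd ((injective_iff_map_eq_zero _).1 hinj b h1) hb
      · exact h1
    exact rk_len_zero _ _
  have h2 := hdev.2
  rw [hlk, zero_add, Finset.sum_singleton, rk_quot] at h2
  rw [h2]
  have hD := len_bot (D₁ := D₁) (K₁ := K₁) (D := D) (K := K)
    (Algebra.IsIntegral.of_finite D₁ D)
  have e3 : (⊥ : Ideal D₁) ⊔ Ideal.span {b} = Ideal.span {b} := bot_sup_eq _
  rw [show len (⟨⊥, Ideal.isPrime_bot⟩ : PrimeSpectrum D₁).asIdeal D =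
    (Module.finrank K₁ K : ℕ) from hD]
  congr 1
  show len (mQ Q) (D₁ ⧸ ((⊥ : Ideal D₁) ⊔ Ideal.span {b})) = _
  rw [e3]

end

end Pool.Agent.RDP

end

section


namespace Pool.Agent.RDP

universe u v w

section

/-- In a surface a prime which is not maximal contains no other nonzero prime. -/
theorem cur_ex_eq {E : Type u} [Field E] {B : Type v} [CommRing B] [Algebra E B] (hB : Srf E B)
    {q p : Ideal B} (hq : q.IsPrime) (hp : p.IsPrime) (hq0 : q ≠ ⊥) (hqp : q ≤ p)
    (hpm : ¬ p.IsMaximal) : q = p := by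
  have hdim := hB.d2 q hq hq0
  have hker : RingHom.ker (Ideal.Quotient.mk q) ≤ p := by
    rw [Ideal.mk_ker]
    exact hqp
  have hprime : (p.map (Ideal.Quotient.mk q)).IsPrime :=
    Ideal.map_isPrime_of_surjective Ideal.Quotient.mk_surjective hker
  have hcm : (p.map (Ideal.Quotient.mk q)).comap (Ideal.Quotient.mk q) = p := by
    rw [Ideal.comap_map_of_surjective' _ Ideal.Quotient.mk_surjective]
    exact sup_eq_left.2 hker
  by_cases h0 : p.map (Ideal.Quotient.mk q) = ⊥
  · refine le_antisymm hqp ?_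
    rw [← hcm, h0, ← RingHom.ker_eq_comap_bot, Ideal.mk_ker]
  · exfalso
    apply hpm
    have hmax : (p.map (Ideal.Quotient.mk q)).IsMaximal := hdim.maximalOfPrime h0 hprime
    rw [← hcm]
    exact Ideal.comap_isMaximal_of_surjective _ Ideal.Quotient.mk_surjective

theorem cur_ex {E : Type u} [Field E] {B : Type v} [CommRing B] [Algebra E B] (hB : Srf E B)
    (b : B) (hb : b ≠ 0) : ∃ S : Finset (PrimeSpectrum B), Cur b S := by
  classical
  have := hB.noe
  have hfin : {p : PrimeSpectrum B | b ∈ p.asIdeal ∧ ¬ p.asIdeal.IsMaximal}.Finite := by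
    have h1 : (Ideal.span {b}).minimalPrimes.Finite :=
      Ideal.finite_minimalPrimes_of_isNoetherianRing B _
    have hinj : Set.InjOn (PrimeSpectrum.asIdeal (R := B))
        {p : PrimeSpectrum B | b ∈ p.asIdeal ∧ ¬ p.asIdeal.IsMaximal} :=
      fun p _ p' _ h => PrimeSpectrum.ext h
    refine Set.Finite.of_finite_image (h1.subset ?_) hinj
    rintro _ ⟨p, ⟨hbp, hpm⟩, rfl⟩
    refine ⟨⟨p.isPrime, (Ideal.span_singleton_le_iff_mem _).2 hbp⟩, ?_⟩
    rintro q ⟨hq, hbq⟩ hqp
    have hbq' : b ∈ q := (Ideal.span_singleton_le_iff_mem _).1 hbq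
    have hq0 : q ≠ ⊥ := by
      rintro rfl
      exact hb ((Submodule.mem_bot B).1 hbq')
    exact (cur_ex_eq hB hq p.isPrime hq0 hqp hpm).ge
  refine ⟨hfin.toFinset, ⟨fun p hp => hfin.mem_toFinset.1 hp, fun p hp => ?_, ?_⟩⟩
  · by_cases hm : p.asIdeal.IsMaximal
    · exact Or.inl hm
    · exact Or.inr (hfin.mem_toFinset.2 ⟨hp, hm⟩)
  · intro p hp p' hp' hpp
    have h1 := hfin.mem_toFinset.1 hp
    have h2 := hfin.mem_toFinset.1 hp'
    have hp0 : p.asIdeal ≠ ⊥ := by
      intro h0
      have h3 := h1.1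
      rw [h0] at h3
      exact hb ((Submodule.mem_bot B).1 h3)
    exact PrimeSpectrum.ext (cur_ex_eq hB p.isPrime p'.isPrime hp0 hpp h2.2)

end

end Pool.Agent.RDP

end

section


namespace Pool.Agent.RDP

universe u v w

section

theorem srf_trdeg_lt {E : Type u} [Field E] {B : Type u} [CommRing B] [Algebra E B] [IsDomain B]
    (hfin : Algebra.trdeg E B < Cardinal.aleph0) (p : Ideal B) (hp : p.IsPrime) (hp0 : p ≠ ⊥) :
    Algebra.trdeg E (B ⧸ p) < Algebra.trdeg E B := by
  have := hp
  have : IsDomain (B ⧸ p) := Ideal.Quotient.isDomain p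
  by_contra hcon
  rw [not_lt] at hcon
  obtain ⟨s, hs⟩ := exists_isTranscendenceBasis E (B ⧸ p)
  have hcard := hs.cardinalMk_eq_trdeg
  choose x hx using fun i : s => Ideal.Quotient.mk_surjective (I := p) i.1
  have hcomp : ((Ideal.Quotient.mkₐ E p) ∘ x) = ((↑) : s → B ⧸ p) := by
    funext i
    exact hx i
  have hind : AlgebraicIndependent E x := by
    apply AlgebraicIndependent.of_comp (Ideal.Quotient.mkₐ E p)
    rw [hcomp]
    exact hs.1
  have hbas : IsTranscendenceBasis E x :=
    hind.isTranscendenceBasis_of_trdeg_le hfin (by rw [hcard]; exact hcon)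
  have halg : Algebra.IsAlgebraic (Algebra.adjoin E (Set.range x)) B := hbas.isAlgebraic
  obtain ⟨f, hfp, hf0⟩ := Submodule.exists_mem_ne_zero_of_ne_bot hp0
  obtain ⟨r, hr0, hr⟩ := (halg.isAlgebraic f).exists_nonzero_dvd (mem_nonZeroDivisors_of_ne_zero hf0)
  have hrp : (r : B) ∈ p := Ideal.mem_of_dvd p hr hfp
  have hr2 : (r : B) ∈ (MvPolynomial.aeval x : MvPolynomial s E →ₐ[E] B).range := by
    rw [← Algebra.adjoin_range_eq_range_aeval]
    exact r.2
  obtain ⟨P, hP⟩ := hr2
  have hP' : MvPolynomial.aeval x P = (r : B) := hP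
  have h0 : MvPolynomial.aeval ((↑) : s → B ⧸ p) P = 0 := by
    rw [← hcomp]
    have h1 : (MvPolynomial.aeval ((Ideal.Quotient.mkₐ E p) ∘ x)) P =
        (Ideal.Quotient.mkₐ E p) (MvPolynomial.aeval x P) :=
      (MvPolynomial.comp_aeval_apply (f := x) (φ := Ideal.Quotient.mkₐ E p) P).symm
    rw [h1, hP']
    exact Ideal.Quotient.eq_zero_iff_mem.2 hrp
  have hP0 : P = 0 := (algebraicIndependent_iff.1 hs.1) P h0
  rw [hP0, map_zero] at hP'
  exact hr0 (Subtype.ext hP'.symm)

theorem srf_trdeg {E : Type u} [Field E] {B : Type u} [CommRing B] [Algebra E B] [IsDomain B]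
    (hft : Algebra.FiniteType E B) (h : Algebra.trdeg E B ≤ 2) : Srf E B := by
  have := hft
  refine ⟨inferInstance, Algebra.FiniteType.isNoetherianRing E B, hft, ?_⟩
  intro p hp hp0
  have := hp
  have : IsDomain (B ⧸ p) := Ideal.Quotient.isDomain p
  have h2 : (2 : Cardinal.{u}) < Cardinal.aleph0 := Cardinal.natCast_lt_aleph0 (n := 2)
  have h1 : Algebra.trdeg E (B ⧸ p) < Algebra.trdeg E B :=
    srf_trdeg_lt (lt_of_le_of_lt h h2) p hp hp0
  refine ⟨?_⟩
  intro q hq0 hq
  have := hq
  have : IsDomain ((B ⧸ p) ⧸ q) := Ideal.Quotient.isDomain q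
  have h3 : Algebra.trdeg E ((B ⧸ p) ⧸ q) < Algebra.trdeg E (B ⧸ p) :=
    srf_trdeg_lt (lt_trans (lt_of_lt_of_le h1 h) h2) q hq hq0
  have h4 : Algebra.trdeg E ((B ⧸ p) ⧸ q) = 0 := by
    obtain ⟨b, hb⟩ := Cardinal.lt_aleph0.1 (lt_trans (lt_of_lt_of_le h1 h) h2)
    have hb2 : (b : Cardinal.{u}) < (2 : ℕ) := by
      rw [← hb]
      exact_mod_cast lt_of_lt_of_le h1 h
    rw [hb] at h3
    obtain ⟨a, ha⟩ := Cardinal.lt_aleph0.1 (lt_trans h3 Cardinal.natCast_lt_aleph0)
    rw [ha] at h3 ⊢
    have e1 : b < 2 := by exact_mod_cast hb2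
    have e2 : a < b := by exact_mod_cast h3
    have : a = 0 := by omega
    rw [this]
    rfl
  have h5 : Algebra.IsAlgebraic E ((B ⧸ p) ⧸ q) := _root_.trdeg_eq_zero_iff.1 h4
  have h6 : Algebra.IsIntegral E ((B ⧸ p) ⧸ q) := Algebra.isAlgebraic_iff_isIntegral.1 h5
  apply Ideal.Quotient.maximal_of_isField
  exact isField_of_isIntegral_of_isField' (Field.toIsField E)

end

end Pool.Agent.RDP

end

section


namespace Pool.Agent.RDP

universe u v w

section

open scoped IntermediateField.algebraAdjoinAdjoin in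
/-- a nonzero polynomial of `y` over `E[ξ]` -/
private theorem hc1_pol {E K : Type u} [Field E] [Field K] [Algebra E K] (ξ y : K)
    (h : IsAlgebraic (IntermediateField.adjoin E {ξ}) y) :
    ∃ P : Polynomial (Polynomial E), P ≠ 0 ∧
      Polynomial.eval₂ (Polynomial.aeval ξ : Polynomial E →ₐ[E] K).toRingHom y P = 0 := by
  have h1 : IsAlgebraic (Algebra.adjoin E ({ξ} : Set K)) y :=
    (IsFractionRing.isAlgebraic_iff (Algebra.adjoin E ({ξ} : Set K))
      (IntermediateField.adjoin E {ξ}) K).mpr h
  obtain ⟨p, hp, hpy⟩ := h1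
  have hmem : ∀ q : Polynomial E, Polynomial.aeval ξ q ∈ Algebra.adjoin E ({ξ} : Set K) := fun q =>
    Polynomial.aeval_mem_adjoin_singleton E ξ
  let f : Polynomial E →+* Algebra.adjoin E ({ξ} : Set K) :=
    ((Polynomial.aeval ξ : Polynomial E →ₐ[E] K).codRestrict _ hmem).toRingHom
  have hf : Function.Surjective f := by
    rintro ⟨a, ha⟩
    rw [Algebra.adjoin_singleton_eq_range_aeval] at ha
    obtain ⟨q, hq⟩ := ha
    exact ⟨q, Subtype.ext hq⟩
  obtain ⟨P, hP⟩ := Polynomial.map_surjective f hf p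
  refine ⟨P, ?_, ?_⟩
  · rintro rfl
    exact hp (by rw [← hP, Polynomial.map_zero])
  · have e : (Polynomial.aeval ξ : Polynomial E →ₐ[E] K).toRingHom =
        (algebraMap (Algebra.adjoin E ({ξ} : Set K)) K).comp f := by
      ext <;> rfl
    rw [e, ← Polynomial.eval₂_map, hP]
    exact hpy

/-- a polynomial whose value at `ξ = 0` is not zero -/
private theorem hc1_min {E K : Type u} [Field E] [Field K] [Algebra E K] (ξ y : K) (hξ : ξ ≠ 0)
    (n : ℕ) : ∀ P : Polynomial (Polynomial E), P.leadingCoeff.natDegree < n → P ≠ 0 →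
      Polynomial.eval₂ (Polynomial.aeval ξ : Polynomial E →ₐ[E] K).toRingHom y P = 0 →
      ∃ P : Polynomial (Polynomial E), P.map (Polynomial.evalRingHom (0 : E)) ≠ 0 ∧
        Polynomial.eval₂ (Polynomial.aeval ξ : Polynomial E →ₐ[E] K).toRingHom y P = 0 := by
  induction n with
  | zero => intro P h; exact absurd h (Nat.not_lt_zero _)
  | succ n ih =>
    intro P hn hP0 hP
    by_cases h0 : P.map (Polynomial.evalRingHom (0 : E)) = 0
    · have hdvd : Polynomial.C (Polynomial.X : Polynomial E) ∣ P := by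
        rw [Polynomial.C_dvd_iff_dvd_coeff]
        intro i
        rw [Polynomial.X_dvd_iff, Polynomial.coeff_zero_eq_eval_zero]
        have := congrArg (fun q => Polynomial.coeff q i) h0
        simpa [Polynomial.coeff_map] using this
      obtain ⟨Q, rfl⟩ := hdvd
      have hQ0 : Q ≠ 0 := right_ne_zero_of_mul hP0
      refine ih Q ?_ hQ0 ?_
      · rw [Polynomial.leadingCoeff_mul, Polynomial.leadingCoeff_C,
          Polynomial.natDegree_mul Polynomial.X_ne_zero (Polynomial.leadingCoeff_ne_zero.mpr hQ0),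
          Polynomial.natDegree_X] at hn
        omega
      · rw [Polynomial.eval₂_mul, Polynomial.eval₂_C] at hP
        have hx : (Polynomial.aeval ξ : Polynomial E →ₐ[E] K).toRingHom Polynomial.X = ξ :=
          Polynomial.aeval_X ξ
        rw [hx] at hP
        exact (mul_eq_zero.mp hP).resolve_left hξ
    · exact ⟨P, h0, hP⟩

theorem hc1 {E K : Type u} [Field E] [IsAlgClosed E] [Field K] [Algebra E K] (htr : Td1 E K)
    (ξ y : K) (hξ : ξ ≠ 0) :
    {c : E | ∃ W : ValuationSubring K, Ov E W ∧ ξ ∈ W.nonunits ∧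
      y - algebraMap E K c ∈ W.nonunits}.Finite := by
  by_cases hal : IsAlgebraic E ξ
  · -- the set is empty
    have hr : ξ ∈ (algebraMap E K).range := by
      have hint : IsIntegral E ξ := hal.isIntegral
      have hs := IsAlgClosed.splits (minpoly E ξ)
      have hd : (minpoly E ξ).degree = 1 :=
        IsAlgClosed.degree_eq_one_of_irreducible E (minpoly.irreducible hint)
      exact minpoly.mem_range_of_degree_eq_one E ξ hd
    obtain ⟨e, he⟩ := hr
    have he0 : e ≠ 0 := by
      rintro rfl
      rw [map_zero] at he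
      exact hξ he.symm
    refine Set.Finite.subset Set.finite_empty ?_
    rintro c ⟨W, hW, h1, -⟩
    exfalso
    rw [ValuationSubring.mem_nonunits_iff, ← he] at h1
    have h2 : W.valuation (algebraMap E K e⁻¹) ≤ 1 := (W.valuation_le_one_iff _).mpr (hW _)
    have h3 : W.valuation (algebraMap E K e) * W.valuation (algebraMap E K e⁻¹) = 1 := by
      rw [← map_mul, ← map_mul, mul_inv_cancel₀ he0, map_one, map_one]
    have h4 : W.valuation (algebraMap E K e) * W.valuation (algebraMap E K e⁻¹) < 1 :=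
      mul_lt_one_of_lt_of_le h1 h2
    exact absurd h3 (ne_of_lt h4)
  · have htr' := htr ξ hal y
    obtain ⟨P1, hP1, hP1y⟩ := hc1_pol ξ y htr'
    obtain ⟨P, hP0, hPy⟩ := hc1_min ξ y hξ _ P1 (Nat.lt_succ_self _) hP1 hP1y
    classical
    refine Set.Finite.subset (P.map (Polynomial.evalRingHom (0 : E))).roots.toFinset.finite_toSet ?_
    rintro c ⟨W, hW, h1, h2⟩
    rw [Finset.mem_coe, Multiset.mem_toFinset, Polynomial.mem_roots hP0, Polynomial.IsRoot.def]
    have hξW : ξ ∈ W := ValuationSubring.nonunits_subset h1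
    have hyW : y ∈ W := by
      have h3 : y - algebraMap E K c ∈ W := ValuationSubring.nonunits_subset h2
      have h4 := W.add_mem _ _ h3 (hW c)
      rwa [sub_add_cancel] at h4
    let ι : E →+* W := (algebraMap E K).codRestrict W.toSubring hW
    let ξ' : W := ⟨ξ, hξW⟩
    let y' : W := ⟨y, hyW⟩
    let res : W →+* IsLocalRing.ResidueField W := IsLocalRing.residue W
    have hres0 : res ξ' = 0 := by
      rw [IsLocalRing.residue_eq_zero_iff]
      exact (ValuationSubring.mem_nonunits_iff_exists_mem_maximalIdeal.mp h1).elim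
        (fun _ h => h)
    have hresy : res y' = res (ι c) := by
      rw [← sub_eq_zero, ← map_sub, IsLocalRing.residue_eq_zero_iff]
      exact (ValuationSubring.mem_nonunits_iff_exists_mem_maximalIdeal.mp h2).elim
        (fun _ h => h)
    let φ : Polynomial E →+* W := Polynomial.eval₂RingHom ι ξ'
    have e1 : (Polynomial.aeval ξ : Polynomial E →ₐ[E] K).toRingHom = W.subtype.comp φ := by
      apply Polynomial.ringHom_ext
      · intro a
        simp [φ, ι]
      · simp [φ, ξ']
    have e2 : Polynomial.eval₂ φ y' P = 0 := by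
      have h5 : W.subtype (Polynomial.eval₂ φ y' P) = 0 := by
        rw [Polynomial.hom_eval₂, ← e1]
        exact hPy
      exact Subtype.ext h5
    have e3 := congrArg res e2
    rw [Polynomial.hom_eval₂, map_zero, hresy] at e3
    have e4 : res.comp φ = (res.comp ι).comp (Polynomial.evalRingHom (0 : E)) := by
      apply Polynomial.ringHom_ext
      · intro a
        simp [φ]
      · simp [φ, hres0]
    rw [e4, ← Polynomial.eval₂_map] at e3
    have e5 : (res.comp ι) (Polynomial.eval c (P.map (Polynomial.evalRingHom (0 : E)))) = 0 := by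
      rw [← Polynomial.eval₂_at_apply]
      exact e3
    exact (map_eq_zero _).mp e5

end

end Pool.Agent.RDP

end

section


namespace Pool.Agent.RDP

universe u v w

section

theorem plane_h {E K : Type u} [Field E] [IsAlgClosed E] [Field K] [Algebra E K] (htr : Td1 E K)
    (x : Fin 2 → K) (hnc : ¬ ∀ i, ∃ e : E, x i = algebraMap E K e) :
    ∃ h : MvPolynomial (Fin 2) E, Irreducible h ∧
      ∀ p : MvPolynomial (Fin 2) E, MvPolynomial.aeval x p = 0 ↔ h ∣ p := by
  classical
  set I : Ideal (MvPolynomial (Fin 2) E) :=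
    RingHom.ker (MvPolynomial.aeval x : MvPolynomial (Fin 2) E →ₐ[E] K) with hI
  have hmem : ∀ p, p ∈ I ↔ MvPolynomial.aeval x p = 0 := fun p => RingHom.mem_ker
  have hpr : I.IsPrime := RingHom.ker_isPrime _
  have hbot : I ≠ ⊥ := by
    intro hb
    have hinj : Function.Injective (MvPolynomial.aeval x : MvPolynomial (Fin 2) E →ₐ[E] K) :=
      (RingHom.injective_iff_ker_eq_bot _).2 hb
    have hai : AlgebraicIndependent E x := hinj
    have h1 := hai.transcendental_adjoin (s := {0}) (i := 1) (by simp)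
    rw [Set.image_singleton] at h1
    have h2 := htr (x 0) (hai.transcendental 0) (x 1)
    open scoped IntermediateField.algebraAdjoinAdjoin in
    exact h1 ((IsFractionRing.isAlgebraic_iff (Algebra.adjoin E {x 0})
      (IntermediateField.adjoin E {x 0}) K).2 h2)
  have hnm : ¬ I.IsMaximal := by
    intro hm
    apply hnc
    let _ := Ideal.Quotient.field I
    have : Module.Finite E (MvPolynomial (Fin 2) E ⧸ I) :=
      finite_of_finite_type_of_isJacobsonRing _ _
    have hbij : Function.Bijective (algebraMap E (MvPolynomial (Fin 2) E ⧸ I)) :=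
      IsAlgClosed.algebraMap_bijective_of_isIntegral
    intro i
    obtain ⟨e, he⟩ := hbij.2 (Ideal.Quotient.mk I (MvPolynomial.X i))
    refine ⟨e, ?_⟩
    have h1 : Ideal.Quotient.mk I (MvPolynomial.X i - MvPolynomial.C e) = 0 := by
      rw [map_sub, ← he]
      exact sub_self _
    have h2 := (hmem _).1 (Ideal.Quotient.eq_zero_iff_mem.1 h1)
    rw [map_sub, MvPolynomial.aeval_X, MvPolynomial.aeval_C, sub_eq_zero] at h2
    exact h2
  obtain ⟨h, hh, hh'⟩ := Ideal.IsPrime.exists_mem_prime_of_ne_bot hpr hbot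
  have heq : Ideal.span {h} = I := by
    by_contra hne
    have hlt : Ideal.span {h} < I :=
      lt_of_le_of_ne ((Ideal.span_singleton_le_iff_mem I).2 hh) hne
    obtain ⟨m, hm, hle⟩ := Ideal.exists_le_maximal I hpr.ne_top
    have hlt2 : I < m := lt_of_le_of_ne hle (fun h => hnm (h ▸ hm))
    have hspr : (Ideal.span {h}).IsPrime := (Ideal.span_singleton_prime hh'.ne_zero).2 hh'
    have hlt0 : (⊥ : Ideal (MvPolynomial (Fin 2) E)) < Ideal.span {h} := by
      rw [bot_lt_iff_ne_bot, Ne, Ideal.span_singleton_eq_bot]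
      exact hh'.ne_zero
    let c : LTSeries (PrimeSpectrum (MvPolynomial (Fin 2) E)) :=
      LTSeries.mk 3 ![⟨⊥, Ideal.isPrime_bot⟩, ⟨Ideal.span {h}, hspr⟩, ⟨I, hpr⟩, ⟨m, hm.isPrime⟩] (by
        rw [Fin.strictMono_iff_lt_succ]
        intro i
        fin_cases i
        · exact hlt0
        · exact hlt
        · exact hlt2)
    have h3 : ((3 : ℕ) : WithBot ℕ∞) ≤ ringKrullDim (MvPolynomial (Fin 2) E) :=
      Order.LTSeries.length_le_krullDim c
    rw [MvPolynomial.ringKrullDim_of_isNoetherianRing, ringKrullDim_eq_zero_of_field, zero_add,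
      Nat.card_eq_fintype_card, Fintype.card_fin] at h3
    have h4 : (3 : ℕ) ≤ 2 := by exact_mod_cast h3
    omega
  refine ⟨h, hh'.irreducible, fun p => ?_⟩
  rw [← hmem, ← heq, Ideal.mem_span_singleton]

end

end Pool.Agent.RDP

end
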