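import Pool.Agent.RDM.Dv

/-!
# The line through the generic point, and the charts
-/

set_option autoImplicit false

namespace Pool.Agent.RDP

universe u

variable {E κ L : Type u} [Field E] [Field κ] [Field L] [Algebra E κ] [Algebra κ L] [Algebra E L]

/-- The line data. `κ` is finite over `E(s)`, `L = κ(τ)`, the point `(x,w)` of the surface
`w² = f/g - (t - s²)` has the value `(P,s)` at `τ = 1` and the value `(q,qw)` at `τ = 0`. -/
structure LD (f g : MvPolynomial (Fin 2) E) (t : E) (P : Fin 2 → E) (s : κ) (τ : L)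
    (x : Fin 2 → L) (w : L) (q : Fin 2 → κ) (qw : κ) (𝒜 : Set (Fin 2 → E)) : Prop where
  two : (2 : E) ≠ 0
  st : Transcendental E s
  fd : FiniteDimensional (IntermediateField.adjoin E {s}) κ
  tau : Transcendental κ τ
  gen : IntermediateField.adjoin κ {τ} = ⊤
  gP : MvPolynomial.eval P g ≠ 0
  gx : MvPolynomial.aeval x g ≠ 0
  eq : w ^ 2 * MvPolynomial.aeval x g = MvPolynomial.aeval x f -
    (algebraMap E L t - algebraMap κ L s ^ 2) * MvPolynomial.aeval x g
  one : ∀ V : ValuationSubring L, Ov κ V → τ - 1 ∈ V.nonunits →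
    (∀ i, x i - algebraMap E L (P i) ∈ V.nonunits) ∧ w - algebraMap κ L s ∈ V.nonunits
  zer : ∀ V : ValuationSubring L, Ov κ V → τ ∈ V.nonunits →
    (∀ i, x i - algebraMap κ L (q i) ∈ V.nonunits) ∧ w - algebraMap κ L qw ∈ V.nonunits
  qs : qw + s ≠ 0
  qA : ∀ V : ValuationSubring κ, Ov E V → ∀ Q : Fin 2 → E,
    (∀ i, q i - algebraMap E κ (Q i) ∈ V.nonunits) → qw + s ∈ V.nonunits → Q ∈ 𝒜
  xnc : ¬ ∀ i, x i ∈ (algebraMap κ L).range

/-- the generators of the ring of the chart `c` -/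
def bs (g : MvPolynomial (Fin 2) E) (s : κ) (x : Fin 2 → L) (w : L) (c : E) : Set L :=
  {x 0, x 1, (MvPolynomial.aeval x g)⁻¹, (w - algebraMap κ L s - algebraMap E L c)⁻¹,
    w + algebraMap κ L s}

/-- `B` is the normal ring of the chart `c` -/
structure Ch (g : MvPolynomial (Fin 2) E) (s : κ) (x : Fin 2 → L) (w : L) (c : E)
    (B : Subalgebra E L) : Prop where
  mem : ∀ y : L, y ∈ B ↔ IsIntegral (Algebra.adjoin E (bs g s x w c)) y
  srf : Srf E B
  fr : ∀ y : L, ∃ a ∈ B, ∃ b ∈ B, b ≠ 0 ∧ y * b = a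

/-- the valuation ring of the curve `p` of `B` -/
structure At (B : Subalgebra E L) (p : Ideal B) (V : ValuationSubring L) : Prop where
  non : ∀ b : B, b ∈ p ↔ (b : L) ∈ V.nonunits
  loc : ∀ y : L, y ∈ V ↔ ∃ a b : B, b ∉ p ∧ y * (b : L) = a

/-- `V` is a zero of `w + s` which contains `κ` -/
structure TT (g : MvPolynomial (Fin 2) E) (s : κ) (x : Fin 2 → L) (w : L)
    (V : ValuationSubring L) : Prop where
  kap : Ov κ V
  top : V ≠ ⊤
  zero : w + algebraMap κ L s ∈ V.nonunits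
  memx : ∀ i, x i ∈ V
  memg : (MvPolynomial.aeval x g)⁻¹ ∈ V

/-- `V` is over `s = s'`, its centre is a curve of the surface, and `ψ` has a zero or a pole
at `V` -/
structure DA (g : MvPolynomial (Fin 2) E) (s : κ) (x : Fin 2 → L) (w ψ : L)
    (V : ValuationSubring L) (s' : E) : Prop where
  ov : Ov E V
  top : V ≠ ⊤
  memx : ∀ i, x i ∈ V
  memg : (MvPolynomial.aeval x g)⁻¹ ∈ V
  memw : w ∈ V
  at_ : algebraMap κ L s - algebraMap E L s' ∈ V.nonunits
  nc : ¬ ((∀ i, ∃ e : E, x i - algebraMap E L e ∈ V.nonunits) ∧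
    ∃ e : E, w - algebraMap E L e ∈ V.nonunits)
  psi : ψ ∈ V.nonunits ∨ ψ⁻¹ ∈ V.nonunits

/-- `V` is over `s = ∞`, its centre is a curve, and `ψ` has a zero or a pole at `V` -/
structure DB (g : MvPolynomial (Fin 2) E) (s : κ) (x : Fin 2 → L) (w ψ : L)
    (V : ValuationSubring L) : Prop where
  ov : Ov E V
  top : V ≠ ⊤
  memx : ∀ i, x i ∈ V
  memg : (MvPolynomial.aeval x g)⁻¹ ∈ V
  memv : w + algebraMap κ L s ∈ V
  nots : algebraMap κ L s ∉ V
  nc : ¬ ∀ i, ∃ e : E, x i - algebraMap E L e ∈ V.nonunits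
  psi : ψ ∈ V.nonunits ∨ ψ⁻¹ ∈ V.nonunits

/-- the function `v (u - c)` of the chart `c` -/
def vc (s : κ) (w : L) (c : E) : L :=
  (w + algebraMap κ L s) * (w - algebraMap κ L s - algebraMap E L c)

/-- `B` is an algebra over the polynomial ring by the functions `x` -/
def Xb (x : Fin 2 → L) (B : Subalgebra E L) [Algebra (MvPolynomial (Fin 2) E) B] : Prop :=
  ∀ i, ((algebraMap (MvPolynomial (Fin 2) E) B (MvPolynomial.X i) : B) : L) = x i

/-- the intersection number over `Q` of the curve `p` and the divisor of `b` -/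
noncomputable def iQ (Q : Fin 2 → E) (B : Subalgebra E L) [Algebra (MvPolynomial (Fin 2) E) B]
    (p : Ideal B) (b : B) : ℤ :=
  ((len (mQ Q) (B ⧸ (p ⊔ Ideal.span {b}))).toNat : ℤ)

/-- the equation `g w² = f - l g` of the double plane -/
noncomputable def sf (f g : MvPolynomial (Fin 2) E) (l : E) : MvPolynomial (Fin 3) E :=
  MvPolynomial.rename Fin.castSucc g * MvPolynomial.X 2 ^ 2 -
    MvPolynomial.rename Fin.castSucc (f - MvPolynomial.C l * g)

/-- `J` is the ideal of a curve on the double plane `g w² = f - l g`, not the curve `w = - s'` -/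
structure Sc (f g : MvPolynomial (Fin 2) E) (l s' : E) (J : Ideal (MvPolynomial (Fin 3) E)) :
    Prop where
  pr : J.IsPrime
  nm : ¬ J.IsMaximal
  mem : sf f g l ∈ J
  al : ∃ h : MvPolynomial (Fin 2) E, h ≠ 0 ∧ MvPolynomial.rename Fin.castSucc h ∈ J
  ne : MvPolynomial.X 2 + MvPolynomial.C s' ∉ J

/-- the curve `G = 0` is not dominated by a rational curve -/
def ND (G : MvPolynomial (Fin 2) E) : Prop :=
  ∀ ξ : Fin 2 → RatFunc E, MvPolynomial.aeval ξ G = 0 → ∀ i, ∃ e : E, ξ i = RatFunc.C e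

end Pool.Agent.RDP
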