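import Pool.Agent.RDM.Len
import Pool.Agent.RDM.A1
import Pool.Agent.RDM.Dv
import Pool.Agent.RDM.Ld

set_option maxSynthPendingDepth 3

/-!
# Valuations and norms
-/

set_option autoImplicit false

section


namespace Pool.Agent.RDP

universe u v w

section

theorem qpow (E : Type u) [Field E] [IsAlgClosed E] (p : ℕ) [Fact p.Prime] [CharP E p] (n r : ℕ) :
    (iterateFrobenius (MvPolynomial (Fin n) E) p r).Finite := by
  have hint : (iterateFrobenius (MvPolynomial (Fin n) E) p r).IsIntegral := by
    intro x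
    refine ⟨Polynomial.X ^ (p ^ r) - Polynomial.C x, ?_, ?_⟩
    · exact Polynomial.monic_X_pow_sub_C x (pow_ne_zero _ (Fact.out : p.Prime).ne_zero)
    · rw [Polynomial.eval₂_sub, Polynomial.eval₂_X_pow, Polynomial.eval₂_C, iterateFrobenius_def,
        sub_self]
  have hft : (iterateFrobenius (MvPolynomial (Fin n) E) p r).FiniteType := by
    have h1 : (MvPolynomial.C : E →+* MvPolynomial (Fin n) E).FiniteType := by
      have h2 : (algebraMap E (MvPolynomial (Fin n) E)).FiniteType :=
        RingHom.finiteType_algebraMap.2 inferInstance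
      exact h2
    have h3 : (iterateFrobenius E p r).FiniteType :=
      RingHom.FiniteType.of_surjective _ (bijective_iterateFrobenius E p r).2
    have h4 : ((iterateFrobenius (MvPolynomial (Fin n) E) p r).comp MvPolynomial.C).FiniteType := by
      have e : (iterateFrobenius (MvPolynomial (Fin n) E) p r).comp MvPolynomial.C =
          (MvPolynomial.C : E →+* MvPolynomial (Fin n) E).comp (iterateFrobenius E p r) := by
        ext c
        simp only [RingHom.comp_apply, iterateFrobenius_def, map_pow]
      rw [e]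
      exact h1.comp h3
    exact RingHom.FiniteType.of_comp_finiteType h4
  exact hint.to_finite hft

end

end Pool.Agent.RDP

end

section


namespace Pool.Agent.RDP

universe u v w

section

private theorem nrm_poly_aux {A : Type u} {O : Type v} {B : Type w} [CommRing A]
    [IsNoetherianRing A] [CommRing O] [Algebra A O] [CommRing B] (Fr : O →+* B)
    (hinj : Function.Injective Fr) (g : A →+* B) (hg : g.Finite)
    (h : ∀ a, Fr (algebraMap A O a) = g a) : Module.Finite A O := by
  let _ := g.toAlgebra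
  have h1 : Module.Finite A B := hg
  let f : O →ₗ[A] B :=
    { toFun := Fr
      map_add' := map_add Fr
      map_smul' := by
        intro a x
        rw [Algebra.smul_def, map_mul, h, RingHom.id_apply, Algebra.smul_def]
        rfl }
  exact Module.Finite.of_injective f hinj

theorem nrm_poly (E : Type u) [Field E] [IsAlgClosed E] (n : ℕ) (K L : Type u) [Field K]
    [Algebra (MvPolynomial (Fin n) E) K] [IsFractionRing (MvPolynomial (Fin n) E) K] [Field L]
    [Algebra K L] [Algebra (MvPolynomial (Fin n) E) L]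
    [IsScalarTower (MvPolynomial (Fin n) E) K L] [FiniteDimensional K L] :
    Module.Finite (MvPolynomial (Fin n) E) (integralClosure (MvPolynomial (Fin n) E) L) := by
  have hinj : Function.Injective ((algebraMap (MvPolynomial (Fin n) E) K).comp MvPolynomial.C) :=
    (IsFractionRing.injective (MvPolynomial (Fin n) E) K).comp
      (MvPolynomial.C_injective (Fin n) E)
  obtain ⟨p, hp⟩ := CharP.exists E
  rcases CharP.char_is_prime_or_zero E p with hp' | rfl
  · have : Fact p.Prime := ⟨hp'⟩
    have : CharP K p := charP_of_injective_ringHom hinj p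
    have : ExpChar K p := inferInstance
    have : ExpChar (separableClosure K L) p :=
      expChar_of_injective_algebraMap (algebraMap K (separableClosure K L)).injective p
    have : Module.Finite (MvPolynomial (Fin n) E)
        (integralClosure (MvPolynomial (Fin n) E) (separableClosure K L)) :=
      IsIntegralClosure.finite (MvPolynomial (Fin n) E) K (separableClosure K L)
        (integralClosure (MvPolynomial (Fin n) E) (separableClosure K L))
    have hst : IsScalarTower (MvPolynomial (Fin n) E) (separableClosure K L) L :=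
      IsScalarTower.to₁₃₄ (MvPolynomial (Fin n) E) K (separableClosure K L) L
    let φ := IsPurelyInseparable.iterateFrobenius (separableClosure K L) L p
      (le_refl (IsPurelyInseparable.exponent (separableClosure K L) L))
    have hφ : ∀ x : L, algebraMap (separableClosure K L) L (φ x) =
        x ^ p ^ (IsPurelyInseparable.exponent (separableClosure K L) L) := fun x =>
      IsPurelyInseparable.algebraMap_iterateFrobenius (separableClosure K L) p _ x
    have hφi : ∀ x : integralClosure (MvPolynomial (Fin n) E) L,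
        φ.comp (algebraMap (integralClosure (MvPolynomial (Fin n) E) L) L) x ∈
          integralClosure (MvPolynomial (Fin n) E) (separableClosure K L) := by
      intro x
      have h1 : IsIntegral (MvPolynomial (Fin n) E)
          (algebraMap (separableClosure K L) L (φ (x : L))) := by
        rw [hφ]
        exact IsIntegral.pow x.2 _
      exact (isIntegral_algebraMap_iff (algebraMap (separableClosure K L) L).injective).1 h1
    let Fr : integralClosure (MvPolynomial (Fin n) E) L →+*
        integralClosure (MvPolynomial (Fin n) E) (separableClosure K L) :=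
      (φ.comp (algebraMap (integralClosure (MvPolynomial (Fin n) E) L) L)).codRestrict _ hφi
    refine nrm_poly_aux Fr ?_ ((algebraMap (MvPolynomial (Fin n) E)
      (integralClosure (MvPolynomial (Fin n) E) (separableClosure K L))).comp
        (iterateFrobenius (MvPolynomial (Fin n) E) p
          (IsPurelyInseparable.exponent (separableClosure K L) L)))
      (RingHom.Finite.comp (RingHom.finite_algebraMap.2 inferInstance)
        (qpow E p n _)) ?_
    · intro x y hxy
      have h1 : φ (x : L) = φ (y : L) := congrArg Subtype.val hxy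
      exact Subtype.ext (φ.injective h1)
    · intro a
      apply Subtype.ext
      apply (algebraMap (separableClosure K L) L).injective
      have h1 : algebraMap (separableClosure K L) L
          (φ (algebraMap (MvPolynomial (Fin n) E) L a)) =
          algebraMap (separableClosure K L) L (algebraMap (MvPolynomial (Fin n) E)
            (separableClosure K L) (iterateFrobenius (MvPolynomial (Fin n) E) p
          (IsPurelyInseparable.exponent (separableClosure K L) L) a)) := by
        rw [hφ, iterateFrobenius_def, ← IsScalarTower.algebraMap_apply, map_pow]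
      exact h1
  · have : CharZero E := CharP.charP_to_charZero E
    have : CharZero K := charZero_of_injective_ringHom hinj
    exact IsIntegralClosure.finite (MvPolynomial (Fin n) E) K L
      (integralClosure (MvPolynomial (Fin n) E) L)

end

end Pool.Agent.RDP

end

section


namespace Pool.Agent.RDP

universe u v w

section

private theorem nrm_aux {E L : Type u} [Field E] [IsAlgClosed E] [Field L] [Algebra E L]
    (G : Finset L) (hG : IntermediateField.adjoin E (G : Set L) = ⊤) (B₀ : Subalgebra E L)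
    (hft : Algebra.FiniteType E B₀)
    (hS : ∀ x : L, IsAlgebraic B₀ x) (htr : Algebra.trdeg E L ≤ 2) :
    ∃ B : Subalgebra E L, (∀ x : L, x ∈ B ↔ IsIntegral B₀ x) ∧
      Srf E B ∧ (∃ T : Finset L, (T : Set L) ⊆ B ∧
        ∀ x ∈ B, x ∈ Submodule.span B₀ (T : Set L)) ∧
      ∀ x : L, ∃ a ∈ B, ∃ b ∈ B, b ≠ 0 ∧ x * b = a := by
  classical
  obtain ⟨n, φ, hφi, hφf⟩ := exists_finite_inj_algHom_of_fg E B₀
  let i1 : Algebra (MvPolynomial (Fin n) E) B₀ := φ.toRingHom.toAlgebra
  let i2 : Algebra (MvPolynomial (Fin n) E) L := (B₀.val.comp φ).toRingHom.toAlgebra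
  have t1 : IsScalarTower E (MvPolynomial (Fin n) E) L :=
    IsScalarTower.of_algebraMap_eq fun x => ((B₀.val.comp φ).commutes x).symm
  have t2 : IsScalarTower (MvPolynomial (Fin n) E) B₀ L :=
    IsScalarTower.of_algebraMap_eq fun x => rfl
  have hinj : Function.Injective (algebraMap (MvPolynomial (Fin n) E) L) := by
    intro a b hab
    apply hφi
    exact Subtype.ext hab
  have f1 : FaithfulSMul (MvPolynomial (Fin n) E) L := (faithfulSMul_iff_algebraMap_injective _ _).2 hinj
  have fin0 : Module.Finite (MvPolynomial (Fin n) E) B₀ := hφf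
  let i3 : Algebra (FractionRing (MvPolynomial (Fin n) E)) L :=
    FractionRing.liftAlgebra (MvPolynomial (Fin n) E) L
  have t3 : IsScalarTower (MvPolynomial (Fin n) E) (FractionRing (MvPolynomial (Fin n) E)) L :=
    FractionRing.isScalarTower_liftAlgebra _ _
  -- integral over B₀ iff integral over A
  have hint : ∀ x : L, IsIntegral B₀ x ↔ IsIntegral (MvPolynomial (Fin n) E) x := by
    intro x
    constructor
    · intro hx
      have : Algebra.IsIntegral (MvPolynomial (Fin n) E) B₀ := inferInstance
      exact isIntegral_trans x hx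
    · intro hx
      exact hx.tower_top
  -- finite dimension
  have halg : ∀ x : L, IsIntegral (FractionRing (MvPolynomial (Fin n) E)) x := by
    intro x
    obtain ⟨y, hy, hyx⟩ := (hS x).exists_integral_multiple
    have h1 : IsIntegral (FractionRing (MvPolynomial (Fin n) E)) (y • x) := ((hint _).1 hyx).tower_top
    have h2 : IsIntegral (FractionRing (MvPolynomial (Fin n) E)) (algebraMap B₀ L y) := by
      have h3 : IsIntegral B₀ (algebraMap B₀ L y) := isIntegral_algebraMap
      exact ((hint _).1 h3).tower_top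
    have h4 : algebraMap B₀ L y ≠ 0 := by
      intro h0
      exact hy (Subtype.ext h0)
    have h5 : x = (algebraMap B₀ L y)⁻¹ * (y • x) := by
      rw [Algebra.smul_def, inv_mul_cancel_left₀ h4]
    rw [h5]
    exact (IsIntegral.inv h2).mul h1
  have t4 : IsScalarTower E (FractionRing (MvPolynomial (Fin n) E)) L := by
    refine IsScalarTower.of_algebraMap_eq fun x => ?_
    rw [IsScalarTower.algebraMap_apply E (MvPolynomial (Fin n) E) L,
      IsScalarTower.algebraMap_apply (MvPolynomial (Fin n) E) (FractionRing (MvPolynomial (Fin n) E)) L,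
      ← IsScalarTower.algebraMap_apply E (MvPolynomial (Fin n) E) (FractionRing (MvPolynomial (Fin n) E))]
  have htop : IntermediateField.adjoin (FractionRing (MvPolynomial (Fin n) E)) (G : Set L) = ⊤ := by
    rw [eq_top_iff]
    intro x _
    have h1 : x ∈ IntermediateField.adjoin E (G : Set L) := by
      rw [hG]
      trivial
    have h2 : IntermediateField.adjoin E (G : Set L) ≤
        (IntermediateField.adjoin (FractionRing (MvPolynomial (Fin n) E)) (G : Set L)).restrictScalars E := by
      rw [IntermediateField.adjoin_le_iff]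
      intro g hg
      have h3 : g ∈ IntermediateField.adjoin (FractionRing (MvPolynomial (Fin n) E)) (G : Set L) :=
        IntermediateField.subset_adjoin _ _ hg
      rw [SetLike.mem_coe, IntermediateField.mem_restrictScalars]
      exact h3
    exact h2 h1
  have fd : FiniteDimensional (FractionRing (MvPolynomial (Fin n) E)) L := by
    have h1 : FiniteDimensional (FractionRing (MvPolynomial (Fin n) E))
        (IntermediateField.adjoin (FractionRing (MvPolynomial (Fin n) E)) (G : Set L)) :=
      IntermediateField.finiteDimensional_adjoin fun x _ => halg x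
    rw [htop] at h1
    exact Module.Finite.equiv IntermediateField.topEquiv.toLinearEquiv
  have hfin : Module.Finite (MvPolynomial (Fin n) E) (integralClosure (MvPolynomial (Fin n) E) L) :=
    nrm_poly E n (FractionRing (MvPolynomial (Fin n) E)) L
  -- B
  refine ⟨(integralClosure (MvPolynomial (Fin n) E) L).restrictScalars E, ?_, ?_, ?_, ?_⟩
  · intro x
    rw [hint x]
    exact mem_integralClosure_iff _ _
  · refine srf_trdeg ?_ ?_
    · have t5 : IsScalarTower E (MvPolynomial (Fin n) E)
          (integralClosure (MvPolynomial (Fin n) E) L) :=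
        IsScalarTower.of_algebraMap_eq fun x =>
          Subtype.ext (IsScalarTower.algebraMap_apply E (MvPolynomial (Fin n) E) L x)
      have h7 : Algebra.FiniteType E (MvPolynomial (Fin n) E) := inferInstance
      have h8 : Algebra.FiniteType (MvPolynomial (Fin n) E)
          (integralClosure (MvPolynomial (Fin n) E) L) := Module.Finite.finiteType _
      have h9 : Algebra.FiniteType E (integralClosure (MvPolynomial (Fin n) E) L) :=
        Algebra.FiniteType.trans h7 h8
      exact h9
    · refine le_trans ?_ htr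
      exact trdeg_le_of_injective
        ((integralClosure (MvPolynomial (Fin n) E) L).restrictScalars E).val Subtype.val_injective
  · obtain ⟨T, hT⟩ := hfin.fg_top
    refine ⟨T.image Subtype.val, ?_, ?_⟩
    · intro x hx
      rw [Finset.coe_image] at hx
      obtain ⟨y, -, rfl⟩ := hx
      exact y.2
    · intro x hx
      have h1 : (⟨x, hx⟩ : integralClosure (MvPolynomial (Fin n) E) L) ∈
          Submodule.span (MvPolynomial (Fin n) E) (T : Set (integralClosure (MvPolynomial (Fin n) E) L)) := by
        rw [hT]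
        trivial
      have h2 : x ∈ Submodule.map (integralClosure (MvPolynomial (Fin n) E) L).val.toLinearMap
          (Submodule.span (MvPolynomial (Fin n) E) (T : Set (integralClosure (MvPolynomial (Fin n) E) L))) :=
        ⟨_, h1, rfl⟩
      rw [Submodule.map_span] at h2
      have h3 : x ∈ Submodule.span (MvPolynomial (Fin n) E) ((T.image Subtype.val : Finset L) : Set L) := by
        rw [Finset.coe_image]
        exact h2
      exact Submodule.span_subset_span (MvPolynomial (Fin n) E) B₀ _ h3
  · intro x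
    obtain ⟨y, hy, hyx⟩ := (hS x).exists_integral_multiple
    refine ⟨y • x, ?_, algebraMap B₀ L y, ?_, ?_, ?_⟩
    · exact (mem_integralClosure_iff _ _).2 ((hint _).1 hyx)
    · have h3 : IsIntegral B₀ (algebraMap B₀ L y) := isIntegral_algebraMap
      exact (mem_integralClosure_iff _ _).2 ((hint _).1 h3)
    · intro h0
      exact hy (Subtype.ext h0)
    · rw [Algebra.smul_def, mul_comm]

theorem nrm {E L : Type u} [Field E] [IsAlgClosed E] [Field L] [Algebra E L] (G S : Finset L)
    (hG : IntermediateField.adjoin E (G : Set L) = ⊤)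
    (hS : ∀ x : L, IsAlgebraic (Algebra.adjoin E (S : Set L)) x) (htr : Algebra.trdeg E L ≤ 2) :
    ∃ B : Subalgebra E L, (∀ x : L, x ∈ B ↔ IsIntegral (Algebra.adjoin E (S : Set L)) x) ∧
      Srf E B ∧ (∃ T : Finset L, (T : Set L) ⊆ B ∧
        ∀ x ∈ B, x ∈ Submodule.span (Algebra.adjoin E (S : Set L)) (T : Set L)) ∧
      ∀ x : L, ∃ a ∈ B, ∃ b ∈ B, b ≠ 0 ∧ x * b = a := by
  exact nrm_aux G hG (Algebra.adjoin E (S : Set L))
    ((Subalgebra.fg_iff_finiteType _).1 ⟨S, rfl⟩) hS htr

end

end Pool.Agent.RDP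

end

section


namespace Pool.Agent.RDP

universe u v w

section

theorem res1 {E K : Type u} [Field E] [IsAlgClosed E] [Field K] [Algebra E K] (htr : Td1 E K)
    (V : ValuationSubring K) (hE : Ov E V) (hV : V ≠ ⊤) (x : K) (hx : x ∈ V) :
    ∃ e : E, x - algebraMap E K e ∈ V.nonunits := by
  by_contra hcon
  push Not at hcon
  have h1 : ∀ e : E, V.valuation (x - algebraMap E K e) = 1 := by
    intro e
    apply le_antisymm
    · rw [ValuationSubring.valuation_le_one_iff]
      exact sub_mem hx (hE e)
    · have := hcon e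
      rw [ValuationSubring.mem_nonunits_iff, not_lt] at this
      exact this
  have hEv : ∀ e : E, e ≠ 0 → V.valuation (algebraMap E K e) = 1 := by
    intro e he
    apply le_antisymm
    · rw [ValuationSubring.valuation_le_one_iff]
      exact hE e
    · have h2 : V.valuation (algebraMap E K e⁻¹) ≤ 1 := by
        rw [ValuationSubring.valuation_le_one_iff]
        exact hE _
      have h3 : V.valuation (algebraMap E K e) * V.valuation (algebraMap E K e⁻¹) = 1 := by
        rw [← map_mul, ← map_mul, mul_inv_cancel₀ he, map_one, map_one]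
      calc (1 : _) = V.valuation (algebraMap E K e) * V.valuation (algebraMap E K e⁻¹) := h3.symm
        _ ≤ V.valuation (algebraMap E K e) * 1 := by gcongr
        _ = _ := mul_one _
  have hpol : ∀ h : Polynomial E, h ≠ 0 → V.valuation (Polynomial.aeval x h) = 1 := by
    intro h hh
    have hs := IsAlgClosed.splits h
    rw [hs.eq_prod_roots]
    rw [map_mul, map_mul, Polynomial.aeval_C, hEv _ (Polynomial.leadingCoeff_ne_zero.2 hh), one_mul,
      map_multiset_prod, map_multiset_prod, Multiset.map_map, Multiset.map_map]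
    apply Multiset.prod_eq_one
    intro y hy
    rw [Multiset.mem_map] at hy
    obtain ⟨e, -, rfl⟩ := hy
    simpa using h1 e
  have htx : Transcendental E x := by
    intro ⟨h, hh, h0⟩
    have := hpol h hh
    rw [h0, map_zero] at this
    exact zero_ne_one this
  have hadj : ∀ z : IntermediateField.adjoin E {x}, (z : K) ∈ V := by
    intro z
    obtain ⟨r, s, hrs⟩ := (IntermediateField.mem_adjoin_simple_iff E (z : K)).1 z.2
    rw [hrs]
    by_cases hr : r = 0
    · rw [hr, map_zero, zero_div]
      exact zero_mem _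
    by_cases hs : s = 0
    · rw [hs, map_zero, div_zero]
      exact zero_mem _
    rw [← ValuationSubring.valuation_le_one_iff, map_div₀, hpol r hr, hpol s hs, div_one]
  apply hV
  rw [eq_top_iff]
  intro y _
  have hy : IsIntegral (IntermediateField.adjoin E {x}) y := (htr x htx y).isIntegral
  let φ : IntermediateField.adjoin E {x} →+* V :=
    (algebraMap (IntermediateField.adjoin E {x}) K).codRestrict V.toSubring hadj
  have hy2 : IsIntegral V (RingHom.id K y) :=
    hy.map_of_comp_eq φ (RingHom.id K) (by ext; rfl)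
  obtain ⟨w, hw⟩ := (IsIntegrallyClosed.isIntegral_iff (R := V) (K := K)).1 hy2
  have : (w : K) = y := hw
  rw [← this]
  exact w.2

end

end Pool.Agent.RDP

end

section


namespace Pool.Agent.RDP

universe u v w

section

theorem vext {L L' : Type u} [Field L] [Field L'] [Algebra L L'] (V : ValuationSubring L) :
    ∃ V' : ValuationSubring L', ∀ x : L, algebraMap L L' x ∈ V' ↔ x ∈ V := by
  let f : L →+* L' := algebraMap L L'
  have hf : Function.Injective f := f.injective
  let e : V.toSubring ≃+* V.toSubring.map f := V.toSubring.equivMapOfInjective f hf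
  let I : Ideal (V.toSubring.map f) :=
    (IsLocalRing.maximalIdeal V).comap (e.symm : V.toSubring.map f →+* V.toSubring)
  have hI : I ≠ ⊤ := Ideal.comap_ne_top _ (IsLocalRing.maximalIdeal.isMaximal V).ne_top
  obtain ⟨V', h1, h2⟩ := Ideal.image_subset_nonunits_valuationSubring I hI
  refine ⟨V', fun x => ⟨fun hx => ?_, fun hx => h1 ⟨x, hx, rfl⟩⟩⟩
  by_contra hxV
  have hx0 : x ≠ 0 := by
    rintro rfl
    exact hxV V.zero_mem
  have h3 : x⁻¹ ∈ V.nonunits := V.inv_mem_nonunits_iff.mpr (Or.inr hxV)
  have h4 : x⁻¹ ∈ V := V.nonunits_le h3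
  obtain ⟨h4', h5⟩ := V.mem_nonunits_iff_exists_mem_maximalIdeal.mp h3
  have h6 : (e ⟨x⁻¹, h4⟩) ∈ I := by
    have h8 : e.symm (e ⟨x⁻¹, h4⟩) = ⟨x⁻¹, h4⟩ := e.symm_apply_apply _
    refine Ideal.mem_comap.mpr ?_
    have h9 : (e.symm : V.toSubring.map f →+* V.toSubring) (e ⟨x⁻¹, h4⟩) = ⟨x⁻¹, h4⟩ := h8
    rw [h9]
    exact h5
  have h7 : f x⁻¹ ∈ V'.nonunits := h2 ⟨e ⟨x⁻¹, h4⟩, h6, rfl⟩
  rw [map_inv₀] at h7
  rcases V'.inv_mem_nonunits_iff.mp h7 with h8 | h8
  · exact hx0 (hf (by rw [h8, map_zero]))
  · exact h8 hx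

end

end Pool.Agent.RDP

end

section


namespace Pool.Agent.RDP

universe u v w

section

private theorem dvr_dom {B : Type u} [CommRing B] [IsDomain B] (p : Ideal B) [p.IsPrime] :
    IsDomain (Localization.AtPrime p) :=
  IsLocalization.isDomain_localization p.primeCompl_le_nonZeroDivisors

private theorem dvr_notField {B : Type u} [CommRing B] [IsDomain B] (p : Ideal B) [p.IsPrime] (hp : p ≠ ⊥) :
    ¬ IsField (Localization.AtPrime p) := by
  intro h
  have := dvr_dom p
  rw [IsLocalRing.isField_iff_maximalIdeal_eq, ← Localization.AtPrime.map_eq_maximalIdeal] at h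
  obtain ⟨x, hx, hx0⟩ := Submodule.exists_mem_ne_zero_of_ne_bot hp
  have h1 : algebraMap B (Localization.AtPrime p) x ∈ Ideal.map (algebraMap B (Localization.AtPrime p)) p :=
    Ideal.mem_map_of_mem _ hx
  rw [h, Ideal.mem_bot] at h1
  rw [IsLocalization.to_map_eq_zero_iff (M := p.primeCompl) _ p.primeCompl_le_nonZeroDivisors] at h1
  exact hx0 h1

private theorem dvr_isDVR {B : Type u} [CommRing B] [IsDomain B] [IsNoetherianRing B] [IsIntegrallyClosed B]
    (hd : ∀ q : Ideal B, q.IsPrime → q ≠ ⊥ → Ring.DimensionLEOne (B ⧸ q))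
    (p : Ideal B) [p.IsPrime] (hp : p ≠ ⊥) (hm : ¬ p.IsMaximal) [IsDomain (Localization.AtPrime p)] :
    IsDiscreteValuationRing (Localization.AtPrime p) := by
  have hno : IsNoetherianRing (Localization.AtPrime p) := IsLocalization.isNoetherianRing p.primeCompl _ inferInstance
  have h0 := (IsDiscreteValuationRing.TFAE (Localization.AtPrime p) (dvr_notField p hp)).out 0 3
  rw [h0]
  refine ⟨isIntegrallyClosed_of_isLocalization _ p.primeCompl p.primeCompl_le_nonZeroDivisors,
      IsLocalRing.maximalIdeal _, ⟨fun h => dvr_notField p hp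
        (IsLocalRing.isField_iff_maximalIdeal_eq.2 h), inferInstance⟩, ?_⟩
  rintro P ⟨hP, hP'⟩
  have hmc : Ideal.map (algebraMap B (Localization.AtPrime p)) (Ideal.comap (algebraMap B (Localization.AtPrime p)) P) = P :=
    IsLocalization.map_under p.primeCompl (Localization.AtPrime p) P
  have h1 : (P.comap (algebraMap B (Localization.AtPrime p))).IsPrime := Ideal.IsPrime.comap _
  have h2 : P.comap (algebraMap B (Localization.AtPrime p)) ≤ p := by
    intro x hx
    by_contra hxp
    exact hP'.ne_top (Ideal.eq_top_of_isUnit_mem _ hx (IsLocalization.map_units _ (⟨x, hxp⟩ : p.primeCompl)))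
  have h3 : P.comap (algebraMap B (Localization.AtPrime p)) ≠ ⊥ := by
    intro h
    apply hP
    rw [h, Ideal.map_bot] at hmc
    exact hmc.symm
  have h4 : P.comap (algebraMap B (Localization.AtPrime p)) = p := by
    by_contra hne
    apply hm
    have h5 := hd _ h1 h3
    have h6 : (Ideal.map (Ideal.Quotient.mk (P.comap (algebraMap B (Localization.AtPrime p)))) p).IsPrime :=
      Ideal.map_isPrime_of_surjective Ideal.Quotient.mk_surjective (by rwa [Ideal.mk_ker])
    have h7 : Ideal.map (Ideal.Quotient.mk (P.comap (algebraMap B (Localization.AtPrime p)))) p ≠ ⊥ := by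
      intro h
      rw [Ideal.map_eq_bot_iff_le_ker, Ideal.mk_ker] at h
      exact hne (le_antisymm h2 h)
    have h8 := h5.maximalOfPrime h7 h6
    have h9 := Ideal.comap_isMaximal_of_surjective _ (Ideal.Quotient.mk_surjective (I := P.comap (algebraMap B (Localization.AtPrime p)))) (K := Ideal.map (Ideal.Quotient.mk (P.comap (algebraMap B (Localization.AtPrime p)))) p)
    rw [Ideal.comap_map_of_surjective' _ Ideal.Quotient.mk_surjective, Ideal.mk_ker, sup_eq_left.2 h2] at h9
    exact h9
  rw [← hmc, h4]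
  exact Localization.AtPrime.map_eq_maximalIdeal

private theorem dvr_len {B : Type u} [CommRing B] [IsDomain B] (p : Ideal B) [p.IsPrime] (b : B) :
    len p (B ⧸ Ideal.span {b}) = Ring.ord (Localization.AtPrime p) (algebraMap B _ b) := by
  have h1 := IsLocalizedModule.toLocalizedQuotient' (Localization.AtPrime p) p.primeCompl
    (Algebra.linearMap B (Localization.AtPrime p)) (Ideal.span {b})
  have e := (IsLocalizedModule.linearEquiv p.primeCompl (LocalizedModule.mkLinearMap p.primeCompl (B ⧸ Ideal.span {b}))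
    (Submodule.toLocalizedQuotient' (Localization.AtPrime p) p.primeCompl
      (Algebra.linearMap B (Localization.AtPrime p)) (Ideal.span {b}))).extendScalarsOfIsLocalization p.primeCompl (Localization.AtPrime p)
  have h2 : Submodule.localized' (Localization.AtPrime p) p.primeCompl
      (Algebra.linearMap B (Localization.AtPrime p)) (Ideal.span {b}) =
        Ideal.span {algebraMap B (Localization.AtPrime p) b} := by
    rw [Ideal.localized'_eq_map, Ideal.map_span, Set.image_singleton]
  rw [len, e.length_eq, Ring.ord, h2]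

private theorem dvr_gen (A : Type u) (L : Type v) [CommRing A] [IsDomain A] [IsDiscreteValuationRing A] [Field L] [Algebra A L]
    [IsFractionRing A L] : ∃ (V : ValuationSubring L) (o : L → ℤ), Dv V o ∧ V ≠ ⊤ ∧
      (∀ x : L, x ∈ V ↔ ∃ a : A, algebraMap A L a = x) ∧
      ∀ a : A, a ≠ 0 → ((Ring.ord A a).toNat : ℤ) = o (algebraMap A L a) := by
  have hor : ∀ x : L, x ∈ (algebraMap A L).range ∨ x⁻¹ ∈ (algebraMap A L).range := fun x =>
    ValuationRing.isInteger_or_isInteger A x
  obtain ⟨ϖ, hϖ⟩ := IsDiscreteValuationRing.exists_irreducible A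
  have hord : ∀ a : A, a ≠ 0 → ((Ring.ord A a).toNat : ℤ) = WithZero.log (Ring.ordFrac A (algebraMap A L a)) := by
    intro a ha
    have ha' : a ∈ nonZeroDivisors A := mem_nonZeroDivisors_of_ne_zero ha
    have h1 : Ring.ord A a = (Ring.ord A a).toNat := (ENat.natCast_toNat (Ring.ord_ne_top ha')).symm
    rw [Ring.ordFrac_eq_ord A ha, Ring.ordMonoidWithZeroHom_eq_coe A ha' h1]
    rfl
  have hϖ0 : algebraMap A L ϖ ≠ 0 := by
    rw [Ne, FaithfulSMul.algebraMap_eq_zero_iff]
    exact hϖ.ne_zero
  refine ⟨ValuationSubring.ofSubring (algebraMap A L).range hor, fun x => WithZero.log (Ring.ordFrac A x), ?_, ?_, ?_, hord⟩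
  · refine ⟨fun x y hx hy => ?_, fun x hx => ?_, algebraMap A L ϖ, hϖ0, ?_⟩
    · show WithZero.log (Ring.ordFrac A (x * y)) = WithZero.log (Ring.ordFrac A x) + WithZero.log (Ring.ordFrac A y)
      rw [map_mul, WithZero.log_mul ((map_ne_zero _).2 hx) ((map_ne_zero _).2 hy)]
    · rw [ValuationSubring.mem_ofSubring]
      constructor
      · rintro ⟨a, rfl⟩
        have ha : a ≠ 0 := by
          rintro rfl
          exact hx (map_zero _)
        rw [← hord a ha]
        positivity
      · intro h
        rcases hor x with h1 | ⟨a, ha⟩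
        · exact h1
        · have ha0 : a ≠ 0 := by
            rintro rfl
            rw [map_zero] at ha
            exact inv_ne_zero hx ha.symm
          have h2 := hord a ha0
          rw [ha, map_inv₀, WithZero.log_inv] at h2
          have h3 : (Ring.ord A a).toNat = 0 := by omega
          have h4 : Ring.ord A a = 0 := by
            rw [← ENat.natCast_toNat (Ring.ord_ne_top (mem_nonZeroDivisors_of_ne_zero ha0)), h3]
            rfl
          have h5 : IsUnit a := by
            rw [Ring.ord, Module.length_eq_zero_iff, Ideal.Quotient.subsingleton_iff,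
              Ideal.span_singleton_eq_top] at h4
            exact h4
          obtain ⟨u, hu⟩ := h5
          refine ⟨(u⁻¹ : Aˣ), ?_⟩
          have h6 : algebraMap A L (u⁻¹ : Aˣ) * x⁻¹ = 1 := by
            rw [← ha, ← hu, ← map_mul, Units.inv_mul, map_one]
          exact (mul_inv_eq_one₀ hx).1 h6
    · show WithZero.log (Ring.ordFrac A (algebraMap A L ϖ)) = 1
      rw [← hord ϖ hϖ.ne_zero, Ring.ord_of_irreducible hϖ]
      rfl
  · intro h
    have h1 : (algebraMap A L ϖ)⁻¹ ∈ ValuationSubring.ofSubring (algebraMap A L).range hor := by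
      rw [h]
      exact ValuationSubring.mem_top _
    rw [ValuationSubring.mem_ofSubring] at h1
    obtain ⟨a, ha⟩ := h1
    apply hϖ.not_isUnit
    refine IsUnit.of_mul_eq_one a (FaithfulSMul.algebraMap_injective A L ?_)
    rw [map_mul, ha, mul_inv_cancel₀ hϖ0, map_one]
  · intro x
    rw [ValuationSubring.mem_ofSubring]
    rfl

private theorem dvr_main {B : Type u} {L : Type v} [CommRing B] [IsDomain B] [IsNoetherianRing B] [IsIntegrallyClosed B]
    [Field L] [Algebra B L] [IsFractionRing B L]
    (hd : ∀ q : Ideal B, q.IsPrime → q ≠ ⊥ → Ring.DimensionLEOne (B ⧸ q))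
    (p : Ideal B) [p.IsPrime] (hp : p ≠ ⊥) (hm : ¬ p.IsMaximal) :
    ∃ (V : ValuationSubring L) (o : L → ℤ), Dv V o ∧ V ≠ ⊤ ∧
      (∀ x : L, x ∈ V ↔ ∃ a b : B, b ∉ p ∧ x * algebraMap B L b = algebraMap B L a) ∧
      (∀ b : B, algebraMap B L b ∈ V.nonunits ↔ b ∈ p) ∧
      ∀ b : B, b ≠ 0 → ((len p (B ⧸ Ideal.span {b})).toNat : ℤ) = o (algebraMap B L b) := by
  have hu : ∀ y : p.primeCompl, IsUnit (algebraMap B L y) := by
    intro y
    rw [isUnit_iff_ne_zero, Ne, FaithfulSMul.algebraMap_eq_zero_iff]
    intro h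
    apply y.2
    rw [h]
    exact p.zero_mem
  let _ : Algebra (Localization.AtPrime p) L := (IsLocalization.lift hu).toAlgebra
  have htow : IsScalarTower B (Localization.AtPrime p) L := IsScalarTower.of_algebraMap_eq fun x =>
    (IsLocalization.lift_eq hu x).symm
  have hdomA : IsDomain (Localization.AtPrime p) := dvr_dom p
  have hdvr : IsDiscreteValuationRing (Localization.AtPrime p) := dvr_isDVR hd p hp hm
  have hfrac : IsFractionRing (Localization.AtPrime p) L :=
    IsFractionRing.isFractionRing_of_isDomain_of_isLocalization p.primeCompl (Localization.AtPrime p) L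
  obtain ⟨V, o, hV, hVt, hmem, ho⟩ := dvr_gen (Localization.AtPrime p) L
  have hinj : Function.Injective (algebraMap B (Localization.AtPrime p)) :=
    IsLocalization.injective _ p.primeCompl_le_nonZeroDivisors
  have hin : ∀ b : B, b ≠ 0 → algebraMap B L b ≠ 0 := fun b hb => by
    rwa [Ne, FaithfulSMul.algebraMap_eq_zero_iff]
  have hmem' : ∀ x : L, x ∈ V ↔ ∃ a b : B, b ∉ p ∧ x * algebraMap B L b = algebraMap B L a := by
    intro x
    rw [hmem]
    constructor
    · rintro ⟨y, rfl⟩
      obtain ⟨⟨a, s⟩, has⟩ := IsLocalization.surj p.primeCompl y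
      refine ⟨a, s, s.2, ?_⟩
      rw [IsScalarTower.algebraMap_apply B (Localization.AtPrime p) L s, ← map_mul, has,
        ← IsScalarTower.algebraMap_apply]
    · rintro ⟨a, b, hb, hab⟩
      refine ⟨IsLocalization.mk' _ a (⟨b, hb⟩ : p.primeCompl), ?_⟩
      have hb0 : b ≠ 0 := by
        rintro rfl
        exact hb p.zero_mem
      apply mul_right_cancel₀ (hin b hb0)
      rw [hab, IsScalarTower.algebraMap_apply B (Localization.AtPrime p) L b, ← map_mul,
        IsLocalization.mk'_spec (Localization.AtPrime p) a (⟨b, hb⟩ : p.primeCompl),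
        ← IsScalarTower.algebraMap_apply]
  refine ⟨V, o, hV, hVt, hmem', fun b => ?_, fun b hb => ?_⟩
  · rw [ValuationSubring.mem_nonunits_iff]
    have hbV : algebraMap B L b ∈ V := (hmem' _).2 ⟨b, 1, p.primeCompl.one_mem, by rw [map_one, mul_one]⟩
    constructor
    · intro h
      by_contra hbp
      have hb0 : b ≠ 0 := by
        rintro rfl
        exact hbp p.zero_mem
      have h1 : (algebraMap B L b)⁻¹ ∈ V := (hmem' _).2 ⟨1, b, hbp, by rw [inv_mul_cancel₀ (hin b hb0), map_one]⟩
      rw [← ValuationSubring.valuation_le_one_iff, map_inv₀] at h1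
      have h2 : V.valuation (algebraMap B L b) ≠ 0 := (map_ne_zero _).2 (hin b hb0)
      exact absurd h (not_lt.2 ((inv_le_one₀ (zero_lt_iff.2 h2)).1 h1))
    · intro h
      by_contra h1
      rw [not_lt] at h1
      have h2 : algebraMap B L b ≠ 0 := by
        intro h0
        rw [h0, map_zero] at h1
        exact absurd h1 (not_le.2 zero_lt_one)
      have h3 : (algebraMap B L b)⁻¹ ∈ V := by
        rw [← ValuationSubring.valuation_le_one_iff, map_inv₀]
        exact inv_le_one_of_one_le₀ h1
      obtain ⟨a, c, hc, hac⟩ := (hmem' _).1 h3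
      apply hc
      have h4 : c = b * a := by
        apply FaithfulSMul.algebraMap_injective B L
        rw [map_mul, ← hac, mul_inv_cancel_left₀ h2]
      rw [h4]
      exact p.mul_mem_right _ h
  · rw [dvr_len, ho _ ((map_ne_zero_iff _ hinj).2 hb), ← IsScalarTower.algebraMap_apply]

theorem dvr {E L : Type u} [Field E] [Field L] [Algebra E L] (B : Subalgebra E L) (hB : Srf E B)
    (hfr : ∀ x : L, ∃ a ∈ B, ∃ b ∈ B, b ≠ 0 ∧ x * b = a) (hic : ∀ x : L, IsIntegral B x → x ∈ B)
    (p : Ideal B) [p.IsPrime] (hp : p ≠ ⊥) (hm : ¬ p.IsMaximal) :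
    ∃ (V : ValuationSubring L) (o : L → ℤ), Dv V o ∧ V ≠ ⊤ ∧
      (∀ x : L, x ∈ V ↔ ∃ a b : B, b ∉ p ∧ x * (b : L) = a) ∧
      (∀ b : B, (b : L) ∈ V.nonunits ↔ b ∈ p) ∧
      ∀ b : B, b ≠ 0 → ((len p (B ⧸ Ideal.span {b})).toNat : ℤ) = o b := by
  have hno := hB.noe
  have hfrac : IsFractionRing B L := by
    refine IsFractionRing.of_field B L fun x => ?_
    obtain ⟨a, ha, b, hb, hb0, h⟩ := hfr x
    exact ⟨⟨a, ha⟩, ⟨b, hb⟩, eq_div_of_mul_eq hb0 h⟩
  have hint : IsIntegrallyClosed B := (isIntegrallyClosed_iff L).2 fun {x} hx => ⟨⟨x, hic x hx⟩, rfl⟩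
  exact dvr_main hB.d2 p hp hm

end

end Pool.Agent.RDP

end

section


namespace Pool.Agent.RDP

universe u v w

section

private theorem dv_max_one {L : Type u} [Field L] {V : ValuationSubring L} {o : L → ℤ} (h : Dv V o) :
    o 1 = 0 := by
  have h1 := h.mul 1 1 one_ne_zero one_ne_zero
  rw [one_mul] at h1
  omega

private theorem dv_max_inv {L : Type u} [Field L] {V : ValuationSubring L} {o : L → ℤ} (h : Dv V o)
    {x : L} (hx : x ≠ 0) : o x⁻¹ = - o x := by
  have h1 := h.mul x x⁻¹ hx (inv_ne_zero hx)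
  rw [mul_inv_cancel₀ hx, dv_max_one h] at h1
  omega

private theorem dv_max_pow {L : Type u} [Field L] {V : ValuationSubring L} {o : L → ℤ} (h : Dv V o)
    {x : L} (hx : x ≠ 0) (m : ℕ) : o (x ^ m) = m * o x := by
  induction m with
  | zero => rw [pow_zero, dv_max_one h]; simp
  | succ m ih =>
    rw [pow_succ, h.mul _ _ (pow_ne_zero _ hx) hx, ih]
    push_cast
    ring

theorem dv_max {L : Type u} [Field L] (V W : ValuationSubring L) (o : L → ℤ) (hV : Dv V o)
    (h : V ≤ W) (hW : W ≠ ⊤) : V = W := by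
  by_contra hne
  have hlt : ¬ W ≤ V := fun h' => hne (le_antisymm h h')
  rw [SetLike.not_le_iff_exists] at hlt
  obtain ⟨x, hxW, hxV⟩ := hlt
  have hx0 : x ≠ 0 := by
    rintro rfl
    exact hxV V.zero_mem
  have hox : o x < 0 := by
    rw [hV.mem x hx0] at hxV
    omega
  apply hW
  rw [eq_top_iff]
  intro y _
  by_cases hy : y = 0
  · rw [hy]
    exact W.zero_mem
  have hxi : x⁻¹ ≠ 0 := inv_ne_zero hx0
  have hz : y * x⁻¹ ^ (o y).natAbs ∈ V := by
    rw [hV.mem _ (mul_ne_zero hy (pow_ne_zero _ hxi)), hV.mul _ _ hy (pow_ne_zero _ hxi),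
      dv_max_pow hV hxi, dv_max_inv hV hx0]
    have h1 : -(o y) ≤ ((o y).natAbs : ℤ) := by omega
    have h2 : (0 : ℤ) ≤ ((o y).natAbs : ℤ) := by omega
    nlinarith
  have hy' : y = y * x⁻¹ ^ (o y).natAbs * x ^ (o y).natAbs := by
    rw [mul_assoc, ← mul_pow, inv_mul_cancel₀ hx0, one_pow, mul_one]
  rw [hy']
  exact W.mul_mem _ _ (h hz) (pow_mem hxW _)

end

end Pool.Agent.RDP

end

section


namespace Pool.Agent.RDP

universe u v w

section

private theorem dv_uniq_one {L : Type u} [Field L] {V : ValuationSubring L} {o : L → ℤ} (h : Dv V o) :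
    o 1 = 0 := by
  have h1 := h.mul 1 1 one_ne_zero one_ne_zero
  rw [one_mul] at h1
  omega

private theorem dv_uniq_inv {L : Type u} [Field L] {V : ValuationSubring L} {o : L → ℤ} (h : Dv V o)
    {x : L} (hx : x ≠ 0) : o x⁻¹ = - o x := by
  have h1 := h.mul x x⁻¹ hx (inv_ne_zero hx)
  rw [mul_inv_cancel₀ hx, dv_uniq_one h] at h1
  omega

private theorem dv_uniq_zpow {L : Type u} [Field L] {V : ValuationSubring L} {o : L → ℤ}
    (h : Dv V o) {x : L} (hx : x ≠ 0) (m : ℤ) : o (x ^ m) = m * o x := by
  have hp : ∀ (y : L), y ≠ 0 → ∀ n : ℕ, o (y ^ n) = n * o y := by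
    intro y hy n
    induction n with
    | zero => rw [pow_zero, dv_uniq_one h]; simp
    | succ n ih =>
      rw [pow_succ, h.mul _ _ (pow_ne_zero _ hy) hy, ih]
      push_cast
      ring
  obtain ⟨n, rfl | rfl⟩ := m.eq_nat_or_neg
  · rw [zpow_natCast, hp x hx]
  · rw [zpow_neg, zpow_natCast, dv_uniq_inv h (pow_ne_zero _ hx), hp x hx]
    ring

private theorem dv_uniq_zero {L : Type u} [Field L] {V : ValuationSubring L} {o o' : L → ℤ}
    (h : Dv V o) (h' : Dv V o') {y : L} (hy : y ≠ 0) (h0 : o y = 0) : o' y = 0 := by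
  have h1 : y ∈ V := (h.mem y hy).2 h0.ge
  have h2 : y⁻¹ ∈ V := (h.mem _ (inv_ne_zero hy)).2 (by rw [dv_uniq_inv h hy]; omega)
  have h3 := (h'.mem y hy).1 h1
  have h4 := (h'.mem _ (inv_ne_zero hy)).1 h2
  rw [dv_uniq_inv h' hy] at h4
  omega

private theorem dv_uniq_key {L : Type u} [Field L] {V : ValuationSubring L} {o o' : L → ℤ}
    (h : Dv V o) (h' : Dv V o') {q x : L} (hq : q ≠ 0) (hoq : o q = 1) (hx : x ≠ 0) :
    o' x = o x * o' q := by
  have hz : q ^ (-(o x)) ≠ 0 := zpow_ne_zero _ hq
  have h1 : o (x * q ^ (-(o x))) = 0 := by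
    rw [h.mul _ _ hx hz, dv_uniq_zpow h hq, hoq]
    ring
  have h2 := dv_uniq_zero h h' (mul_ne_zero hx hz) h1
  rw [h'.mul _ _ hx hz, dv_uniq_zpow h' hq] at h2
  linarith

theorem dv_uniq {L : Type u} [Field L] (V : ValuationSubring L) (o o' : L → ℤ) (h : Dv V o)
    (h' : Dv V o') (x : L) (hx : x ≠ 0) : o x = o' x := by
  obtain ⟨q, hq, hoq⟩ := h.unif
  obtain ⟨q', hq', hoq'⟩ := h'.unif
  have h1 := dv_uniq_key h h' hq hoq hx
  have h2 := dv_uniq_key h h' hq hoq hq'
  rw [hoq'] at h2
  have h3 : 0 ≤ o' q := (h'.mem q hq).1 ((h.mem q hq).2 (by omega))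
  have h4 : o' q = 1 := Int.eq_one_of_mul_eq_one_left h3 h2.symm
  rw [h1, h4, mul_one]

end

end Pool.Agent.RDP

end

section


namespace Pool.Agent.RDP

universe u v w

section

theorem ctr {E L : Type u} [Field E] [Field L] [Algebra E L] (B : Subalgebra E L) (hB : Srf E B)
    (hfr : ∀ x : L, ∃ a ∈ B, ∃ b ∈ B, b ≠ 0 ∧ x * b = a) (hic : ∀ x : L, IsIntegral B x → x ∈ B)
    (V : ValuationSubring L) (hBV : ∀ b ∈ B, b ∈ V) (hV : V ≠ ⊤) :
    ∃ p : Ideal B, p.IsPrime ∧ p ≠ ⊥ ∧ (∀ b : B, b ∈ p ↔ (b : L) ∈ V.nonunits) ∧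
      (¬ p.IsMaximal → ∀ x : L, x ∈ V ↔ ∃ a b : B, b ∉ p ∧ x * (b : L) = a) := by
  let φ : B →+* V :=
    { toFun := fun b => ⟨(b : L), hBV b b.2⟩
      map_one' := rfl
      map_mul' := fun _ _ => rfl
      map_zero' := rfl
      map_add' := fun _ _ => rfl }
  have hmem : ∀ b : B, b ∈ (IsLocalRing.maximalIdeal V).comap φ ↔ (b : L) ∈ V.nonunits := by
    intro b
    rw [Ideal.mem_comap, ← ValuationSubring.coe_mem_nonunits_iff]
    exact Iff.rfl
  have hinv : ∀ b ∈ V, b ∉ V.nonunits → b⁻¹ ∈ V := by
    intro b hb hn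
    rw [ValuationSubring.mem_nonunits_iff] at hn
    rw [← ValuationSubring.valuation_le_one_iff] at hb ⊢
    have h1 : V.valuation b = 1 := le_antisymm hb (not_lt.1 hn)
    rw [map_inv₀, h1, inv_one]
  have hpp : ((IsLocalRing.maximalIdeal V).comap φ).IsPrime := Ideal.comap_isPrime _ _
  have hbot : (IsLocalRing.maximalIdeal V).comap φ ≠ ⊥ := by
    intro h0
    apply hV
    rw [eq_top_iff]
    intro x _
    obtain ⟨a, ha, b, hb, hb0, hab⟩ := hfr x
    have h1 : b ∉ V.nonunits := by
      intro h2
      have h3 := (hmem ⟨b, hb⟩).2 h2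
      rw [h0, Ideal.mem_bot] at h3
      exact hb0 (congrArg Subtype.val h3)
    have h2 := hinv b (hBV b hb) h1
    have h3 : x = a * b⁻¹ := by
      rw [← hab, mul_assoc, mul_inv_cancel₀ hb0, mul_one]
    rw [h3]
    exact V.mul_mem _ _ (hBV a ha) h2
  refine ⟨(IsLocalRing.maximalIdeal V).comap φ, hpp, hbot, hmem, ?_⟩
  intro hm
  obtain ⟨V', o, hDv, -, hV', -, -⟩ := dvr B hB hfr hic ((IsLocalRing.maximalIdeal V).comap φ)
    hbot hm
  have hle : V' ≤ V := by
    intro x hx
    obtain ⟨a, b, hb, hab⟩ := (hV' x).1 hx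
    rw [hmem] at hb
    have hb0 : (b : L) ≠ 0 := by
      intro h0
      apply hb
      rw [h0, ValuationSubring.mem_nonunits_iff, map_zero]
      exact zero_lt_one
    have h2 := hinv b (hBV b b.2) hb
    have h3 : x = a * (b : L)⁻¹ := by
      rw [← hab, mul_assoc, mul_inv_cancel₀ hb0, mul_one]
    rw [h3]
    exact V.mul_mem _ _ (hBV a a.2) h2
  have heq := dv_max V' V o hDv hle hV
  intro x
  rw [← hV' x, heq]

end

end Pool.Agent.RDP

end

section


namespace Pool.Agent.RDP

universe u v w

section

/-- leading term equivalence is multiplicative -/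
theorem gs_mul {L : Type u} [Field L] {Γ : Type u} [LinearOrderedCommGroupWithZero Γ]
    (v : Valuation L Γ) {x y x' y' : L} (h : v (x - y) < v x) (h' : v (x' - y') < v x') :
    v (x * x' - y * y') < v (x * x') := by
  have hy' : v y' = v x' := by
    have e : y' = x' - (x' - y') := by ring
    rw [e]
    exact Valuation.map_sub_eq_of_lt_left v h'
  have hx0 : 0 < v x := lt_of_le_of_lt zero_le h
  have hx0' : 0 < v x' := lt_of_le_of_lt zero_le h'
  have e : x * x' - y * y' = x * (x' - y') + (x - y) * y' := by ring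
  rw [e]
  refine (v.map_add _ _).trans_lt (max_lt ?_ ?_)
  · rw [map_mul, map_mul]
    exact mul_lt_mul_of_pos_left h' hx0
  · rw [map_mul, map_mul, hy']
    exact mul_lt_mul_of_pos_right h hx0'

theorem gs_inv {L : Type u} [Field L] {Γ : Type u} [LinearOrderedCommGroupWithZero Γ]
    (v : Valuation L Γ) {x y : L} (h : v (x - y) < v x) : v (x⁻¹ - y⁻¹) < v x⁻¹ := by
  have hy : v y = v x := by
    have e : y = x - (x - y) := by ring
    rw [e]
    exact Valuation.map_sub_eq_of_lt_left v h
  have hx0 : 0 < v x := lt_of_le_of_lt zero_le h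
  have hx : x ≠ 0 := (Valuation.ne_zero_iff v).1 hx0.ne'
  have hy0 : y ≠ 0 := (Valuation.ne_zero_iff v).1 (by rw [hy]; exact hx0.ne')
  have e : x⁻¹ - y⁻¹ = -(x - y) * (x⁻¹ * y⁻¹) := by
    field_simp
    ring
  rw [e, map_mul, Valuation.map_neg, map_mul, map_inv₀ v y, hy, map_inv₀]
  have h1 : v (x - y) * ((v x)⁻¹ * (v x)⁻¹) < v x * ((v x)⁻¹ * (v x)⁻¹) :=
    mul_lt_mul_of_pos_right h (mul_pos (inv_pos.2 hx0) (inv_pos.2 hx0))
  rwa [mul_inv_cancel_left₀ hx0.ne'] at h1

/-- induction over the nonzero elements of `K(τ)` -/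
theorem gs_ind {K L : Type u} [Field K] [IsAlgClosed K] [Field L] [Algebra K L] (τ : L)
    (hgen : IntermediateField.adjoin K {τ} = ⊤) (P : L → Prop)
    (hK : ∀ a : K, a ≠ 0 → P (algebraMap K L a)) (hP : ∀ c : K, P (τ - algebraMap K L c))
    (hmul : ∀ x y, P x → P y → P (x * y)) (hinv : ∀ x, P x → P x⁻¹) : ∀ x, x ≠ 0 → P x := by
  have h1 : P 1 := by
    have := hK 1 one_ne_zero
    rwa [map_one] at this
  have hpoly : ∀ r : Polynomial K, r ≠ 0 → P (Polynomial.aeval τ r) := by
    intro r hr
    have hs : r = Polynomial.C r.leadingCoeff *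
        (r.roots.map fun a => Polynomial.X - Polynomial.C a).prod :=
      (IsAlgClosed.splits r).eq_prod_roots
    have hm : ∀ s : Multiset K, P (Polynomial.aeval τ
        ((s.map fun a => Polynomial.X - Polynomial.C a).prod)) := by
      intro s
      induction s using Multiset.induction_on with
      | empty =>
        rw [Multiset.map_zero, Multiset.prod_zero, map_one]
        exact h1
      | cons a s ih =>
        rw [Multiset.map_cons, Multiset.prod_cons, map_mul]
        refine hmul _ _ ?_ ih
        rw [map_sub, Polynomial.aeval_X, Polynomial.aeval_C]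
        exact hP a
    rw [hs, map_mul, Polynomial.aeval_C]
    exact hmul _ _ (hK _ (Polynomial.leadingCoeff_ne_zero.2 hr)) (hm _)
  intro x hx
  have hx' : x ∈ IntermediateField.adjoin K {τ} := by rw [hgen]; exact IntermediateField.mem_top
  obtain ⟨r, s, hrs⟩ := (IntermediateField.mem_adjoin_simple_iff K x).1 hx'
  have hr : r ≠ 0 := by
    rintro rfl
    apply hx
    rw [hrs, map_zero, zero_div]
  have hs : s ≠ 0 := by
    rintro rfl
    apply hx
    rw [hrs, map_zero, div_zero]
  rw [hrs, div_eq_mul_inv]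
  exact hmul _ _ (hpoly r hr) (hinv _ (hpoly s hs))

/-- a value is a root of unity only if it is `1` -/
theorem gs_pow {Γ : Type u} [LinearOrderedCommGroupWithZero Γ] {a b : Γ} {n : ℕ} (hn : n ≠ 0)
    (h : a ^ n = b ^ n) : a = b := by
  rcases lt_trichotomy a b with h1 | h1 | h1
  · exact absurd h (pow_lt_pow_left₀ h1 zero_le hn).ne
  · exact h1
  · exact absurd h (pow_lt_pow_left₀ h1 zero_le hn).ne'

theorem gs_case1 {K L : Type u} [Field K] [IsAlgClosed K] [Field L] [Algebra K L] (τ : L)
    (hτ : Transcendental K τ) (hgen : IntermediateField.adjoin K {τ} = ⊤) {Γ : Type u}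
    [LinearOrderedCommGroupWithZero Γ] (v : Valuation L Γ) (c₀ : K)
    (h : ∀ d : K, d ≠ 0 → v (τ - algebraMap K L c₀) ≠ v (algebraMap K L d)) (x : L)
    (hx : v x ≤ 1) : ∃ c : K, v (x - algebraMap K L c) < 1 := by
  have hne : ∀ c : K, τ - algebraMap K L c ≠ 0 := by
    intro c hc
    exact hτ (by rw [sub_eq_zero.1 hc]; exact isAlgebraic_algebraMap c)
  have hinj : ∀ a : K, a ≠ 0 → algebraMap K L a ≠ 0 := fun a ha => by
    rwa [Ne, map_eq_zero]
  set w : L := τ - algebraMap K L c₀ with hw
  have hw0 : w ≠ 0 := hne c₀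
  have key : ∀ x : L, x ≠ 0 → ∃ a : K, a ≠ 0 ∧ ∃ n : ℤ, v (x - algebraMap K L a * w ^ n) < v x := by
    refine gs_ind τ hgen _ ?_ ?_ ?_ ?_
    · intro a ha
      refine ⟨a, ha, 0, ?_⟩
      rw [zpow_zero, mul_one, sub_self, map_zero]
      exact zero_lt_iff.2 ((Valuation.ne_zero_iff v).2 (hinj a ha))
    · intro c
      by_cases hc : c = c₀
      · refine ⟨1, one_ne_zero, 1, ?_⟩
        rw [map_one, one_mul, zpow_one, hc, ← hw, sub_self, map_zero]
        exact zero_lt_iff.2 ((Valuation.ne_zero_iff v).2 hw0)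
      · have hd : c - c₀ ≠ 0 := sub_ne_zero.2 hc
        have hx : τ - algebraMap K L c = w - algebraMap K L (c - c₀) := by
          rw [hw, map_sub]; ring
        rcases lt_or_gt_of_ne (h _ hd) with h1 | h1
        · refine ⟨c₀ - c, sub_ne_zero.2 (Ne.symm hc), 0, ?_⟩
          have e : w - algebraMap K L (c - c₀) - algebraMap K L (c₀ - c) * w ^ (0 : ℤ) = w := by
            rw [zpow_zero, map_sub, map_sub]; ring
          rw [hx, e, Valuation.map_sub_eq_of_lt_right v h1]
          exact h1
        · refine ⟨1, one_ne_zero, 1, ?_⟩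
          have e : w - algebraMap K L (c - c₀) - algebraMap K L 1 * w ^ (1 : ℤ) =
              -algebraMap K L (c - c₀) := by
            rw [zpow_one, map_one]; ring
          rw [hx, e, Valuation.map_neg, Valuation.map_sub_eq_of_lt_left v h1]
          exact h1
    · rintro x y ⟨a, ha, n, h1⟩ ⟨b, hb, m, h2⟩
      refine ⟨a * b, mul_ne_zero ha hb, n + m, ?_⟩
      have e : algebraMap K L (a * b) * w ^ (n + m) =
          (algebraMap K L a * w ^ n) * (algebraMap K L b * w ^ m) := by
        rw [map_mul, zpow_add₀ hw0]; ring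
      rw [e]
      exact gs_mul v h1 h2
    · rintro x ⟨a, ha, n, h1⟩
      refine ⟨a⁻¹, inv_ne_zero ha, -n, ?_⟩
      have e : algebraMap K L a⁻¹ * w ^ (-n) = (algebraMap K L a * w ^ n)⁻¹ := by
        rw [map_inv₀, zpow_neg, mul_inv]
      rw [e]
      exact gs_inv v h1
  rcases hx.lt_or_eq with hlt | heq
  · exact ⟨0, by rwa [map_zero, sub_zero]⟩
  · have hx0 : x ≠ 0 := by
      rintro rfl
      rw [map_zero] at heq
      exact zero_ne_one heq
    obtain ⟨a, ha, n, h1⟩ := key x hx0
    rw [heq] at h1
    have h2 : v (algebraMap K L a * w ^ n) = 1 := by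
      have e : algebraMap K L a * w ^ n = x - (x - algebraMap K L a * w ^ n) := by ring
      rw [e, Valuation.map_sub_eq_of_lt_left v (by rw [heq]; exact h1), heq]
    by_cases hn : n = 0
    · subst hn
      rw [zpow_zero, mul_one] at h1
      exact ⟨a, h1⟩
    · exfalso
      have hN : 0 < n.natAbs := Int.natAbs_pos.2 hn
      obtain ⟨b, hb⟩ := IsAlgClosed.exists_pow_nat_eq a hN
      have hb0 : b ≠ 0 := by
        rintro rfl
        rw [zero_pow hN.ne'] at hb
        exact ha hb.symm
      have hvw : v w ≠ 0 := (Valuation.ne_zero_iff v).2 hw0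
      have hvb : v (algebraMap K L b) ≠ 0 := (Valuation.ne_zero_iff v).2 (hinj b hb0)
      rw [← hb, map_pow, map_mul, map_pow, map_zpow₀] at h2
      rcases Int.natAbs_eq n with h3 | h3
      · -- positive exponent
        have h4 : (v (algebraMap K L b) * v w) ^ n.natAbs = 1 ^ n.natAbs := by
          rw [mul_pow, one_pow, ← zpow_natCast (v w), ← h3]
          exact h2
        have h5 := gs_pow hN.ne' h4
        apply h b⁻¹ (inv_ne_zero hb0)
        rw [map_inv₀, map_inv₀]
        exact eq_inv_of_mul_eq_one_right h5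
      · have h4 : v (algebraMap K L b) ^ n.natAbs = v w ^ n.natAbs := by
          rw [h3, zpow_neg, zpow_natCast] at h2
          rw [Int.natAbs_neg, Int.natAbs_natCast] at h2
          exact eq_of_mul_inv_eq_one h2
        exact h b hb0 (gs_pow hN.ne' h4).symm

theorem gs_case2b {K L : Type u} [Field K] [IsAlgClosed K] [Field L] [Algebra K L] (τ : L)
    (hτ : Transcendental K τ) (hgen : IntermediateField.adjoin K {τ} = ⊤) {Γ : Type u}
    [LinearOrderedCommGroupWithZero Γ] (v : Valuation L Γ)
    (h : ∀ c : K, ∃ a : K, v (τ - algebraMap K L c - algebraMap K L a) <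
      v (τ - algebraMap K L c)) (x : L)
    (hx : v x ≤ 1) : ∃ c : K, v (x - algebraMap K L c) < 1 := by
  have key : ∀ x : L, x ≠ 0 → ∃ a : K, v (x - algebraMap K L a) < v x := by
    refine gs_ind τ hgen _ ?_ h ?_ ?_
    · intro a ha
      refine ⟨a, ?_⟩
      rw [sub_self, map_zero]
      exact zero_lt_iff.2 ((Valuation.ne_zero_iff v).2 (by rwa [Ne, map_eq_zero]))
    · rintro x y ⟨a, h1⟩ ⟨b, h2⟩
      refine ⟨a * b, ?_⟩
      rw [map_mul (algebraMap K L)]
      exact gs_mul v h1 h2
    · rintro x ⟨a, h1⟩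
      refine ⟨a⁻¹, ?_⟩
      rw [map_inv₀ (algebraMap K L)]
      exact gs_inv v h1
  by_cases hx0 : x = 0
  · refine ⟨0, ?_⟩
    rw [hx0, map_zero, sub_zero, map_zero]
    exact zero_lt_one
  · obtain ⟨a, ha⟩ := key x hx0
    exact ⟨a, ha.trans_le hx⟩

theorem gs_coeff {K L : Type u} [Field K] [Field L] [Algebra K L] (V : ValuationSubring L)
    {p q : Polynomial K} (hp : ∀ n, algebraMap K L (p.coeff n) ∈ V)
    (hq : ∀ n, algebraMap K L (q.coeff n) ∈ V) (n : ℕ) : algebraMap K L ((p * q).coeff n) ∈ V := by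
  rw [Polynomial.coeff_mul, map_sum]
  refine sum_mem fun i _ => ?_
  rw [map_mul]
  exact mul_mem (hp _) (hq _)

theorem gs_case2a {K L : Type u} [Field K] [IsAlgClosed K] [Field L] [Algebra K L] (τ : L)
    (hτ : Transcendental K τ) (hgen : IntermediateField.adjoin K {τ} = ⊤) (V : ValuationSubring L)
    (c₀ d₀ : K) (hd₀ : d₀ ≠ 0)
    (h1 : V.valuation (τ - algebraMap K L c₀) = V.valuation (algebraMap K L d₀))
    (h2 : ∀ e : K, ¬ V.valuation ((τ - algebraMap K L c₀) / algebraMap K L d₀ -
      algebraMap K L e) < 1) (x : L) (hx : V.valuation x ≤ 1) :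
    ∃ p q : Polynomial K, (∀ n, algebraMap K L (p.coeff n) ∈ V) ∧
        (∀ n, algebraMap K L (q.coeff n) ∈ V) ∧
        V.valuation (Polynomial.aeval ((τ - algebraMap K L c₀) / algebraMap K L d₀) q) = 1 ∧
        V.valuation (x * Polynomial.aeval ((τ - algebraMap K L c₀) / algebraMap K L d₀) q -
          Polynomial.aeval ((τ - algebraMap K L c₀) / algebraMap K L d₀) p) < 1 := by
  set v := V.valuation with hv
  have hinj : ∀ a : K, a ≠ 0 → algebraMap K L a ≠ 0 := fun a ha => by
    rwa [Ne, map_eq_zero]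
  have hd0 := hinj d₀ hd₀
  have hvd : v (algebraMap K L d₀) ≠ 0 := (Valuation.ne_zero_iff v).2 hd0
  set θ : L := (τ - algebraMap K L c₀) / algebraMap K L d₀ with hθ
  have hθ1 : v θ = 1 := by
    rw [hθ, map_div₀, h1, div_self hvd]
  have hone : ∀ n, algebraMap K L ((1 : Polynomial K).coeff n) ∈ V := by
    intro n
    rw [Polynomial.coeff_one]
    split_ifs
    · rw [map_one]; exact one_mem V
    · rw [map_zero]; exact zero_mem V
  have key : ∀ x : L, x ≠ 0 → ∃ a : K, a ≠ 0 ∧ ∃ p q : Polynomial K,
      (∀ n, algebraMap K L (p.coeff n) ∈ V) ∧ (∀ n, algebraMap K L (q.coeff n) ∈ V) ∧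
      v (Polynomial.aeval θ p) = 1 ∧ v (Polynomial.aeval θ q) = 1 ∧
      v (x - algebraMap K L a * (Polynomial.aeval θ p * (Polynomial.aeval θ q)⁻¹)) < v x := by
    refine gs_ind τ hgen _ ?_ ?_ ?_ ?_
    · intro a ha
      refine ⟨a, ha, 1, 1, hone, hone, by rw [map_one, map_one], by rw [map_one, map_one], ?_⟩
      rw [map_one, inv_one, mul_one, mul_one, sub_self, map_zero]
      exact zero_lt_iff.2 ((Valuation.ne_zero_iff v).2 (hinj a ha))
    · intro c
      set e : K := (c - c₀) / d₀ with he
      have hce : algebraMap K L d₀ * algebraMap K L e = algebraMap K L (c - c₀) := by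
        rw [← map_mul, he, mul_div_cancel₀ _ hd₀]
      have hτθ : algebraMap K L d₀ * θ = τ - algebraMap K L c₀ := by
        rw [hθ, mul_div_cancel₀ _ hd0]
      have hx : τ - algebraMap K L c = algebraMap K L d₀ * (θ - algebraMap K L e) := by
        rw [mul_sub, hce, hτθ, map_sub]
        ring
      by_cases hev : v (algebraMap K L e) ≤ 1
      · have h3 : v (θ - algebraMap K L e) = 1 := by
          refine le_antisymm ?_ (not_lt.1 (h2 e))
          exact (v.map_sub _ _).trans (max_le hθ1.le hev)
        refine ⟨d₀, hd₀, Polynomial.X - Polynomial.C e, 1, ?_, hone, ?_, by rw [map_one, map_one],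
          ?_⟩
        · intro n
          rw [Polynomial.coeff_sub, map_sub, Polynomial.coeff_X, Polynomial.coeff_C]
          refine sub_mem ?_ ?_
          · split_ifs
            · rw [map_one]; exact one_mem V
            · rw [map_zero]; exact zero_mem V
          · split_ifs
            · exact (V.valuation_le_one_iff _).1 hev
            · rw [map_zero]; exact zero_mem V
        · rw [map_sub, Polynomial.aeval_X, Polynomial.aeval_C]
          exact h3
        · have e2 : Polynomial.aeval θ (Polynomial.X - Polynomial.C e) = θ - algebraMap K L e := by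
            rw [map_sub, Polynomial.aeval_X, Polynomial.aeval_C]
          have e3 : Polynomial.aeval θ (1 : Polynomial K) = 1 := map_one _
          rw [e2, e3, inv_one, mul_one, hx, sub_self, map_zero, map_mul, h3, mul_one]
          exact zero_lt_iff.2 hvd
      · have hev' : 1 < v (algebraMap K L e) := not_le.1 hev
        have he0 : e ≠ 0 := by
          intro h0
          rw [h0, map_zero, map_zero] at hev'
          exact absurd hev' (not_lt.2 zero_le)
        have h3 : v (θ - algebraMap K L e) = v (algebraMap K L e) :=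
          Valuation.map_sub_eq_of_lt_right v (by rw [hθ1]; exact hev')
        refine ⟨-(d₀ * e), neg_ne_zero.2 (mul_ne_zero hd₀ he0), 1, 1, hone, hone,
          by rw [map_one, map_one], by rw [map_one, map_one], ?_⟩
        have e1 : τ - algebraMap K L c -
            algebraMap K L (-(d₀ * e)) * ((Polynomial.aeval θ) (1 : Polynomial K) *
              ((Polynomial.aeval θ) (1 : Polynomial K))⁻¹) = algebraMap K L d₀ * θ := by
          rw [map_one, inv_one, mul_one, mul_one, hx, map_neg, map_mul]
          ring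
        rw [e1, hx, map_mul, map_mul, hθ1, h3]
        exact mul_lt_mul_of_pos_left hev' (zero_lt_iff.2 hvd)
    · rintro x y ⟨a, ha, p, q, p1, q1, p2, q2, h3⟩ ⟨a', ha', p', q', p1', q1', p2', q2', h3'⟩
      refine ⟨a * a', mul_ne_zero ha ha', p * p', q * q', gs_coeff V p1 p1', gs_coeff V q1 q1',
        by rw [map_mul, map_mul, p2, p2', mul_one], by rw [map_mul, map_mul, q2, q2', mul_one], ?_⟩
      have e : algebraMap K L (a * a') * (Polynomial.aeval θ (p * p') *
          (Polynomial.aeval θ (q * q'))⁻¹) =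
          (algebraMap K L a * (Polynomial.aeval θ p * (Polynomial.aeval θ q)⁻¹)) *
          (algebraMap K L a' * (Polynomial.aeval θ p' * (Polynomial.aeval θ q')⁻¹)) := by
        rw [map_mul, map_mul, map_mul, mul_inv]
        ring
      rw [e]
      exact gs_mul v h3 h3'
    · rintro x ⟨a, ha, p, q, p1, q1, p2, q2, h3⟩
      refine ⟨a⁻¹, inv_ne_zero ha, q, p, q1, p1, q2, p2, ?_⟩
      have e : algebraMap K L a⁻¹ * (Polynomial.aeval θ q * (Polynomial.aeval θ p)⁻¹) =
          (algebraMap K L a * (Polynomial.aeval θ p * (Polynomial.aeval θ q)⁻¹))⁻¹ := by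
        rw [map_inv₀, mul_inv, mul_inv, inv_inv]
        ring
      rw [e]
      exact gs_inv v h3
  by_cases hx0 : x = 0
  · refine ⟨0, 1, ?_, hone, by rw [map_one, map_one], ?_⟩
    · intro n
      rw [Polynomial.coeff_zero, map_zero]
      exact zero_mem V
    · rw [hx0, map_zero, zero_mul, sub_zero, map_zero]
      exact zero_lt_one
  · obtain ⟨a, ha, p, q, p1, q1, p2, q2, h3⟩ := key x hx0
    set P := Polynomial.aeval θ p with hP
    set Q := Polynomial.aeval θ q with hQ
    have hQ0 : Q ≠ 0 := by
      intro h0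
      rw [h0, map_zero] at q2
      exact zero_ne_one q2
    have hva : v (algebraMap K L a) ≤ 1 := by
      have h4 : v (algebraMap K L a * (P * Q⁻¹)) = v x := by
        have e : algebraMap K L a * (P * Q⁻¹) = x - (x - algebraMap K L a * (P * Q⁻¹)) := by ring
        rw [e]
        exact Valuation.map_sub_eq_of_lt_left v h3
      rw [map_mul, map_mul, map_inv₀, p2, q2, inv_one, mul_one, mul_one] at h4
      rw [h4]
      exact hx
    refine ⟨Polynomial.C a * p, q, ?_, q1, q2, ?_⟩
    · intro n
      rw [Polynomial.coeff_C_mul, map_mul]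
      exact mul_mem ((V.valuation_le_one_iff _).1 hva) (p1 n)
    · rw [map_mul, Polynomial.aeval_C, ← hP]
      have e : x * Q - algebraMap K L a * P = (x - algebraMap K L a * (P * Q⁻¹)) * Q := by
        field_simp
      rw [e, map_mul, q2, mul_one]
      exact h3.trans_le hx

theorem gs {K L : Type u} [Field K] [IsAlgClosed K] [Field L] [Algebra K L] (τ : L)
    (hτ : Transcendental K τ) (hgen : IntermediateField.adjoin K {τ} = ⊤) (V : ValuationSubring L) :
    (∀ x ∈ V, ∃ c : K, x - algebraMap K L c ∈ V.nonunits) ∨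
    ∃ θ ∈ V, (∀ c : K, algebraMap K L c ∈ V → θ - algebraMap K L c ∉ V.nonunits) ∧
      ∀ x ∈ V, ∃ p q : Polynomial K, (∀ n, algebraMap K L (p.coeff n) ∈ V) ∧
        (∀ n, algebraMap K L (q.coeff n) ∈ V) ∧ Polynomial.aeval θ q ∉ V.nonunits ∧
        x * Polynomial.aeval θ q - Polynomial.aeval θ p ∈ V.nonunits := by
  have hne : ∀ c : K, τ - algebraMap K L c ≠ 0 := by
    intro c hc
    exact hτ (by rw [sub_eq_zero.1 hc]; exact isAlgebraic_algebraMap c)
  by_cases hc1 : ∃ c₀ : K, ∀ d : K, d ≠ 0 →
      V.valuation (τ - algebraMap K L c₀) ≠ V.valuation (algebraMap K L d)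
  · left
    obtain ⟨c₀, h⟩ := hc1
    intro x hx
    exact gs_case1 τ hτ hgen V.valuation c₀ h x ((V.valuation_le_one_iff x).2 hx)
  push Not at hc1
  by_cases hc2 : ∃ c₀ d₀ : K, d₀ ≠ 0 ∧
      V.valuation (τ - algebraMap K L c₀) = V.valuation (algebraMap K L d₀) ∧
      ∀ e : K, ¬ V.valuation ((τ - algebraMap K L c₀) / algebraMap K L d₀ -
        algebraMap K L e) < 1
  · right
    obtain ⟨c₀, d₀, hd₀, h1, h2⟩ := hc2
    have hvd : V.valuation (algebraMap K L d₀) ≠ 0 :=
      (Valuation.ne_zero_iff _).2 (by rwa [Ne, map_eq_zero])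
    refine ⟨(τ - algebraMap K L c₀) / algebraMap K L d₀, ?_, fun c _ => h2 c, ?_⟩
    · rw [← V.valuation_le_one_iff, map_div₀, h1, div_self hvd]
    · intro x hx
      obtain ⟨p, q, hp, hq, hq1, hlt⟩ :=
        gs_case2a τ hτ hgen V c₀ d₀ hd₀ h1 h2 x ((V.valuation_le_one_iff x).2 hx)
      refine ⟨p, q, hp, hq, ?_, hlt⟩
      intro h3
      rw [ValuationSubring.mem_nonunits_iff, hq1] at h3
      exact lt_irrefl _ h3
  · left
    push Not at hc2
    intro x hx
    refine gs_case2b τ hτ hgen V.valuation ?_ x ((V.valuation_le_one_iff x).2 hx)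
    intro c
    obtain ⟨d, hd, h1⟩ := hc1 c
    obtain ⟨e, he⟩ := hc2 c d hd h1
    have hd0 : algebraMap K L d ≠ 0 := by rwa [Ne, map_eq_zero]
    have hvd : V.valuation (algebraMap K L d) ≠ 0 := (Valuation.ne_zero_iff _).2 hd0
    refine ⟨d * e, ?_⟩
    have e1 : τ - algebraMap K L c - algebraMap K L (d * e) =
        algebraMap K L d * ((τ - algebraMap K L c) / algebraMap K L d - algebraMap K L e) := by
      rw [mul_sub, mul_div_cancel₀ _ hd0, map_mul]
    rw [e1, map_mul, h1]
    calc V.valuation (algebraMap K L d) * V.valuation ((τ - algebraMap K L c) / algebraMap K L d -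
          algebraMap K L e) < V.valuation (algebraMap K L d) * 1 :=
          mul_lt_mul_of_pos_left he (zero_lt_iff.2 hvd)
      _ = V.valuation (algebraMap K L d) := mul_one _

end

end Pool.Agent.RDP

end

section


namespace Pool.Agent.RDP

universe u v w

section

open MvPolynomial in
theorem smooth_gen {E : Type u} [Field E] (Q : Fin 2 → E) :
    mQ Q = Ideal.span (Set.range fun i : Fin 2 => (X i - C (Q i) : MvPolynomial (Fin 2) E)) := by
  apply le_antisymm
  · intro f hf
    rw [mem_mQ] at hf
    set I := Ideal.span (Set.range fun i : Fin 2 => (X i - C (Q i) : MvPolynomial (Fin 2) E))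
      with hI
    have h : Ideal.Quotient.mkₐ E I =
        (Algebra.ofId E (MvPolynomial (Fin 2) E ⧸ I)).comp (aeval Q) := by
      apply MvPolynomial.algHom_ext
      intro i
      have h1 : (X i - C (Q i) : MvPolynomial (Fin 2) E) ∈ I :=
        Ideal.subset_span ⟨i, rfl⟩
      have h2 := Ideal.Quotient.eq.2 h1
      rw [AlgHom.comp_apply, aeval_X]
      exact h2
    have h3 := AlgHom.congr_fun h f
    rw [AlgHom.comp_apply] at h3
    have h4 : (aeval Q) f = eval Q f := by
      rw [aeval_eq_eval]
    rw [h4, hf, map_zero] at h3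
    exact Ideal.Quotient.eq_zero_iff_mem.1 h3
  · rw [Ideal.span_le]
    rintro _ ⟨i, rfl⟩
    show _ ∈ mQ Q
    rw [mem_mQ]
    simp

open MvPolynomial in
/-- the linear part at `Q` -/
noncomputable def smoothLin {E : Type u} [Field E] (Q : Fin 2 → E)
    (f : MvPolynomial (Fin 2) E) : MvPolynomial (Fin 2) E :=
  ∑ i, C (eval Q (pderiv i f)) * (X i - C (Q i))

open MvPolynomial in
theorem smooth_lin_mem {E : Type u} [Field E] (Q : Fin 2 → E) (f : MvPolynomial (Fin 2) E) :
    smoothLin Q f ∈ mQ Q := by
  rw [mem_mQ, smoothLin, map_sum]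
  simp

open MvPolynomial in
theorem smooth_taylor {E : Type u} [Field E] (Q : Fin 2 → E) (f : MvPolynomial (Fin 2) E) :
    f - (C (eval Q f) + smoothLin Q f) ∈ mQ Q ^ 2 := by
  induction f using MvPolynomial.induction_on with
  | C a =>
    have : smoothLin Q (C a) = 0 := by simp [smoothLin]
    rw [this, eval_C, add_zero, sub_self]
    exact Ideal.zero_mem _
  | add p q hp hq =>
    have : smoothLin Q (p + q) = smoothLin Q p + smoothLin Q q := by
      simp [smoothLin, Finset.sum_add_distrib, add_mul]
    rw [this, map_add, map_add]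
    have h := Ideal.add_mem _ hp hq
    convert h using 1
    ring
  | mul_X p j hp =>
    have h1 : smoothLin Q (p * X j) = C (Q j) * smoothLin Q p +
        C (eval Q p) * (X j - C (Q j)) := by
      have h2 : ∀ i, eval Q (pderiv i (p * X j)) =
          eval Q (pderiv i p) * Q j + eval Q p * (if i = j then 1 else 0) := by
        intro i
        rw [pderiv_mul, map_add, map_mul, map_mul, eval_X, pderiv_X, Pi.single_apply]
        by_cases hij : i = j
        · subst hij
          simp
        · rw [if_neg hij, if_neg (fun h => hij h.symm), map_zero]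
      simp only [smoothLin, h2, Finset.mul_sum]
      have h3 : C (eval Q p) * (X j - C (Q j)) = ∑ i, C (eval Q p * (if i = j then 1 else 0)) *
          (X i - C (Q i) : MvPolynomial (Fin 2) E) := by
        rw [Finset.sum_eq_single j]
        · rw [if_pos rfl, mul_one]
        · intro i _ hi
          rw [if_neg hi, mul_zero, C_0, zero_mul]
        · intro h
          exact absurd (Finset.mem_univ j) h
      rw [h3, ← Finset.sum_add_distrib]
      apply Finset.sum_congr rfl
      intro i _
      rw [C_add, C_mul]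
      ring
    have h4 : p * X j - (C (eval Q (p * X j)) + smoothLin Q (p * X j)) =
        X j * (p - (C (eval Q p) + smoothLin Q p)) + smoothLin Q p * (X j - C (Q j)) := by
      rw [h1, map_mul, eval_X, C_mul]
      ring
    rw [h4]
    refine Ideal.add_mem _ (Ideal.mul_mem_left _ _ hp) ?_
    rw [pow_two]
    refine Ideal.mul_mem_mul (smooth_lin_mem Q p) ?_
    rw [mem_mQ]
    simp

/-- Nakayama for two generators -/
theorem smooth_princ {D : Type u} [CommRing D] [IsLocalRing D] [IsNoetherianRing D] (x y a b : D)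
    (hm : IsLocalRing.maximalIdeal D = Ideal.span {x, y}) (ha : IsUnit a)
    (h : a * x + b * y ∈ IsLocalRing.maximalIdeal D ^ 2) :
    (IsLocalRing.maximalIdeal D).IsPrincipal := by
  have h1 : IsLocalRing.maximalIdeal D ≤ Ideal.span {y} ⊔
      IsLocalRing.maximalIdeal D • IsLocalRing.maximalIdeal D := by
    conv_lhs => rw [hm]
    rw [Ideal.span_le]
    have hy : y ∈ Ideal.span {y} ⊔
      IsLocalRing.maximalIdeal D • IsLocalRing.maximalIdeal D :=
      Ideal.mem_sup_left (Ideal.mem_span_singleton_self y)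
    rintro z (rfl | hz)
    · obtain ⟨u, rfl⟩ := ha
      have h2 : (u : D) * z + b * y ∈ Ideal.span {y} ⊔
        IsLocalRing.maximalIdeal D • IsLocalRing.maximalIdeal D := by
        apply Ideal.mem_sup_right
        rw [smul_eq_mul, ← pow_two]
        exact h
      have h3 : z = (↑u⁻¹ : D) * ((u : D) * z + b * y) - (↑u⁻¹ * b) * y := by
        rw [mul_add, ← mul_assoc, Units.inv_mul, one_mul]
        ring
      show z ∈ Ideal.span {y} ⊔ IsLocalRing.maximalIdeal D • IsLocalRing.maximalIdeal D
      rw [h3]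
      exact Ideal.sub_mem _ (Ideal.mul_mem_left _ _ h2) (Ideal.mul_mem_left _ _ hy)
    · rw [Set.mem_singleton_iff] at hz
      subst hz
      exact hy
  have h2 : IsLocalRing.maximalIdeal D ≤ Ideal.span {y} :=
    Submodule.le_of_le_smul_of_le_jacobson_bot (IsNoetherian.noetherian _)
      (IsLocalRing.maximalIdeal_le_jacobson _) h1
  have h3 : IsLocalRing.maximalIdeal D = Ideal.span {y} := by
    apply le_antisymm h2
    rw [hm, Ideal.span_le]
    intro z hz
    rw [Set.mem_singleton_iff] at hz
    subst hz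
    exact Ideal.subset_span (by simp)
  exact ⟨y, h3⟩

open MvPolynomial in
theorem smooth_dvd {E : Type u} [Field E] (G : MvPolynomial (Fin 2) E) (Q : Fin 2 → E)
    (hQ : eval Q G = 0) (h0 : G ∣ X 0 - C (Q 0)) (h1 : G ∣ X 1 - C (Q 1)) : False := by
  obtain ⟨u, hu⟩ := h0
  obtain ⟨w, hw⟩ := h1
  have a1 := congrArg (fun f => eval Q (pderiv 1 f)) hu
  have a0 := congrArg (fun f => eval Q (pderiv 0 f)) hu
  have b1 := congrArg (fun f => eval Q (pderiv 1 f)) hw
  simp [hQ, pderiv_X] at a1 a0 b1
  rcases a1 with a1 | a1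
  · rw [a1, zero_mul] at a0
    exact one_ne_zero a0
  · rw [a1, mul_zero] at b1
    exact one_ne_zero b1

open MvPolynomial in
theorem smooth_aux {E : Type u} [Field E] [IsAlgClosed E] (G : MvPolynomial (Fin 2) E)
    (hG : Irreducible G) (Q : Fin 2 → E) (hQ : MvPolynomial.eval Q G = 0)
    (hsm : ∃ i, MvPolynomial.eval Q (MvPolynomial.pderiv i G) ≠ 0)
    (m : Ideal (MvPolynomial (Fin 2) E ⧸ Ideal.span {G})) [m.IsPrime]
    (hm : m = Ideal.map (Ideal.Quotient.mk (Ideal.span {G})) (mQ Q)) (D : Type u) [CommRing D]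
    [IsDomain D] [Algebra (MvPolynomial (Fin 2) E ⧸ Ideal.span {G}) D]
    [IsLocalization.AtPrime D m] : IsDiscreteValuationRing D := by
  have hGp : Prime G := UniqueFactorizationMonoid.irreducible_iff_prime.1 hG
  have hGP : (Ideal.span {G}).IsPrime := (Ideal.span_singleton_prime hG.ne_zero).2 hGp
  have hAd : IsDomain (MvPolynomial (Fin 2) E ⧸ Ideal.span {G}) := Ideal.Quotient.isDomain _
  have hN : IsNoetherianRing D := IsLocalization.isNoetherianRing m.primeCompl D inferInstance
  have hL : IsLocalRing D := IsLocalization.AtPrime.isLocalRing D m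
  have hinj : Function.Injective (algebraMap (MvPolynomial (Fin 2) E ⧸ Ideal.span {G}) D) :=
    IsLocalization.injective D m.primeCompl_le_nonZeroDivisors
  have hmax : Ideal.map (algebraMap (MvPolynomial (Fin 2) E ⧸ Ideal.span {G}) D) m =
      IsLocalRing.maximalIdeal D := IsLocalization.AtPrime.map_eq_maximalIdeal m D
  set φ : MvPolynomial (Fin 2) E →+* D :=
    (algebraMap (MvPolynomial (Fin 2) E ⧸ Ideal.span {G}) D).comp
      (Ideal.Quotient.mk (Ideal.span {G})) with hφ
  have hmap : Ideal.map φ (mQ Q) = IsLocalRing.maximalIdeal D := by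
    rw [← hmax, hm, Ideal.map_map]
  have hspan : IsLocalRing.maximalIdeal D =
      Ideal.span {φ (X 0 - C (Q 0)), φ (X 1 - C (Q 1))} := by
    rw [← hmap, smooth_gen, Ideal.map_span, ← Set.range_comp]
    congr 1
    ext z
    simp only [Set.mem_range, Function.comp_apply, Fin.exists_fin_two, Set.mem_insert_iff,
      Set.mem_singleton_iff, eq_comm]
  have hφG : φ G = 0 := by
    rw [hφ, RingHom.comp_apply, Ideal.Quotient.eq_zero_iff_mem.2
      (Ideal.mem_span_singleton_self G), map_zero]
  have htay : φ (C (eval Q (pderiv 0 G))) * φ (X 0 - C (Q 0)) +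
      φ (C (eval Q (pderiv 1 G))) * φ (X 1 - C (Q 1)) ∈ IsLocalRing.maximalIdeal D ^ 2 := by
    have h1 := Ideal.mem_map_of_mem φ (smooth_taylor Q G)
    rw [Ideal.map_pow, hmap, hQ, C_0, zero_add, map_sub, hφG, zero_sub, neg_mem_iff,
      smoothLin, Fin.sum_univ_two, map_add, map_mul, map_mul] at h1
    exact h1
  have hunit : ∀ a : E, a ≠ 0 → IsUnit (φ (C a)) := by
    intro a ha
    exact ((isUnit_iff_ne_zero.2 ha).map (C : E →+* MvPolynomial (Fin 2) E)).map φ
  have hprin : (IsLocalRing.maximalIdeal D).IsPrincipal := by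
    obtain ⟨i, hi⟩ := hsm
    have h01 : i = 0 ∨ i = 1 := by omega
    rcases h01 with rfl | rfl
    · exact smooth_princ _ _ _ _ hspan (hunit _ hi) htay
    · rw [Set.pair_comm] at hspan
      rw [add_comm] at htay
      exact smooth_princ _ _ _ _ hspan (hunit _ hi) htay
  have hnf : ¬ IsField D := by
    intro hF
    rw [IsLocalRing.isField_iff_maximalIdeal_eq] at hF
    rw [hF] at hspan
    have hz : ∀ f : MvPolynomial (Fin 2) E, φ f = 0 → G ∣ f := by
      intro f hf
      rw [hφ, RingHom.comp_apply] at hf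
      have h2 := (injective_iff_map_eq_zero _).1 hinj _ hf
      exact Ideal.mem_span_singleton.1 (Ideal.Quotient.eq_zero_iff_mem.1 h2)
    refine smooth_dvd G Q hQ (hz _ ?_) (hz _ ?_)
    · have h3 : φ (X 0 - C (Q 0)) ∈ (⊥ : Ideal D) := by
        rw [hspan]
        exact Ideal.subset_span (by simp)
      exact (Ideal.mem_bot).1 h3
    · have h3 : φ (X 1 - C (Q 1)) ∈ (⊥ : Ideal D) := by
        rw [hspan]
        exact Ideal.subset_span (by simp)
      exact (Ideal.mem_bot).1 h3
  exact ((IsDiscreteValuationRing.TFAE D hnf).out 4 0).1 hprin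

theorem smooth {E : Type u} [Field E] [IsAlgClosed E] (G : MvPolynomial (Fin 2) E)
    (hG : Irreducible G) (Q : Fin 2 → E) (hQ : MvPolynomial.eval Q G = 0)
    (hsm : ∃ i, MvPolynomial.eval Q (MvPolynomial.pderiv i G) ≠ 0)
    (m : Ideal (MvPolynomial (Fin 2) E ⧸ Ideal.span {G})) [m.IsPrime]
    (hm : m = Ideal.map (Ideal.Quotient.mk (Ideal.span {G})) (mQ Q)) (D : Type u) [CommRing D]
    [IsDomain D] [Algebra (MvPolynomial (Fin 2) E ⧸ Ideal.span {G}) D]
    [IsLocalization.AtPrime D m] : IsDiscreteValuationRing D :=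
  smooth_aux G hG Q hQ hsm m hm D

end

end Pool.Agent.RDP

end

section


namespace Pool.Agent.RDP

universe u v w

section

theorem avoid {E L : Type u} [Field E] [Field L] [Algebra E L] (B : Subalgebra E L)
    (hfr : ∀ x : L, ∃ a ∈ B, ∃ b ∈ B, b ≠ 0 ∧ x * b = a) (ψ : L) (hψ : ψ ≠ 0)
    (T : Finset (PrimeSpectrum B)) (hT : ∀ q ∈ T, ∃ V : ValuationSubring L, At B q.asIdeal V ∧
      ψ ∈ V ∧ ψ⁻¹ ∈ V) :
    ∃ a b : B, a ≠ 0 ∧ b ≠ 0 ∧ ψ * (b : L) = a ∧ ∀ q ∈ T, a ∉ q.asIdeal ∧ b ∉ q.asIdeal := by
  classical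
  let I : Ideal B :=
    { carrier := {b | ψ * (b : L) ∈ B}
      add_mem' := by
        intro b c hb hc
        show ψ * ((b + c : B) : L) ∈ B
        rw [AddMemClass.coe_add, mul_add]
        exact B.add_mem hb hc
      zero_mem' := by
        show ψ * ((0 : B) : L) ∈ B
        rw [ZeroMemClass.coe_zero, mul_zero]
        exact B.zero_mem
      smul_mem' := by
        intro c b hb
        show ψ * ((c * b : B) : L) ∈ B
        rw [MulMemClass.coe_mul, mul_left_comm]
        exact B.mul_mem c.2 hb }
  have hI : ∀ b : B, b ∈ I ↔ ψ * (b : L) ∈ B := fun b => Iff.rfl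
  -- an element of `I` outside of `T`
  obtain ⟨b, hbI, hb0, hbT⟩ : ∃ b : B, b ∈ I ∧ b ≠ 0 ∧ ∀ q ∈ T, b ∉ q.asIdeal := by
    rcases T.eq_empty_or_nonempty with hTe | hTn
    · obtain ⟨a, ha, b, hb, hb0, hab⟩ := hfr ψ
      refine ⟨⟨b, hb⟩, ?_, ?_, ?_⟩
      · rw [hI]
        show ψ * b ∈ B
        rw [hab]
        exact ha
      · intro h
        exact hb0 (congrArg Subtype.val h)
      · intro q hq
        rw [hTe] at hq
        exact absurd hq (Finset.notMem_empty q)
    · have h1 : ¬ ((I : Set B) ⊆ ⋃ q ∈ (T : Set (PrimeSpectrum B)), (q.asIdeal : Set B)) := by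
        rw [Ideal.subset_union_prime (f := fun q : PrimeSpectrum B => q.asIdeal) hTn.choose
          hTn.choose (fun q _ _ _ => q.isPrime)]
        rintro ⟨q, hq, hIq⟩
        obtain ⟨V, hV, hV1, hV2⟩ := hT q hq
        obtain ⟨a, b, hb, hab⟩ := (hV.loc ψ).1 hV1
        refine hb (hIq ?_)
        rw [hI, hab]
        exact a.2
      rw [Set.not_subset] at h1
      obtain ⟨b, hb, hb'⟩ := h1
      have h2 : ∀ q ∈ T, b ∉ q.asIdeal := by
        intro q hq hbq
        apply hb'
        simp only [Set.mem_iUnion]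
        exact ⟨q, Finset.mem_coe.2 hq, hbq⟩
      refine ⟨b, hb, ?_, h2⟩
      intro h0
      obtain ⟨q, hq⟩ := hTn
      apply h2 q hq
      rw [h0]
      exact q.asIdeal.zero_mem
  refine ⟨⟨ψ * (b : L), (hI b).1 hbI⟩, b, ?_, hb0, rfl, fun q hq => ⟨?_, hbT q hq⟩⟩
  · intro h
    have h1 : ψ * (b : L) = 0 := congrArg Subtype.val h
    rcases mul_eq_zero.1 h1 with h2 | h2
    · exact hψ h2
    · exact hb0 (Subtype.ext h2)
  · intro h
    obtain ⟨V, hV, hV1, hV2⟩ := hT q hq
    have h1 : ψ * (b : L) ∈ V.nonunits := (hV.non _).1 h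
    apply hbT q hq
    rw [hV.non]
    have h2 : (b : L) = ψ⁻¹ * (ψ * (b : L)) := by
      rw [← mul_assoc, inv_mul_cancel₀ hψ, one_mul]
    rw [h2, ValuationSubring.mem_nonunits_iff, map_mul]
    rw [ValuationSubring.mem_nonunits_iff] at h1
    have h3 : V.valuation ψ⁻¹ ≤ 1 := (V.valuation_le_one_iff _).2 hV2
    exact (mul_le_of_le_one_left' h3).trans_lt h1

end

end Pool.Agent.RDP

end
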