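import Mathlib

/-!
# Lengths of localized modules
-/

set_option autoImplicit false

namespace Pool.Agent.RDP

universe u v w

/-- the length of the localization of `M` at the prime ideal `p` -/
noncomputable def len {R : Type u} [CommRing R] (p : Ideal R) [p.IsPrime] (M : Type v)
    [AddCommGroup M] [Module R M] : ℕ∞ :=
  Module.length (Localization.AtPrime p) (LocalizedModule p.primeCompl M)

/-- the maximal ideal of the point `Q` of the plane -/
noncomputable def mQ {E : Type u} [Field E] (Q : Fin 2 → E) : Ideal (MvPolynomial (Fin 2) E) :=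
  RingHom.ker (MvPolynomial.eval Q)

instance {E : Type u} [Field E] (Q : Fin 2 → E) : (mQ Q).IsPrime :=
  RingHom.ker_isPrime _

theorem mem_mQ {E : Type u} [Field E] (Q : Fin 2 → E) (h : MvPolynomial (Fin 2) E) :
    h ∈ mQ Q ↔ MvPolynomial.eval Q h = 0 := RingHom.mem_ker

/-- the length of the quotient of `M` by `v M`, localized at `p` -/
noncomputable def lq {R : Type u} [CommRing R] (p : Ideal R) [p.IsPrime] {B : Type v} [CommRing B]
    [Algebra R B] (b : B) (M : Type w) [AddCommGroup M] [Module B M] [Module R M]
    [IsScalarTower R B M] : ℕ∞ :=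
  len p (M ⧸ LinearMap.range (LinearMap.lsmul B M b))

/-- the length of the kernel of `v` on `M`, localized at `p` -/
noncomputable def lk {R : Type u} [CommRing R] (p : Ideal R) [p.IsPrime] {B : Type v} [CommRing B]
    [Algebra R B] (b : B) (M : Type w) [AddCommGroup M] [Module B M] [Module R M]
    [IsScalarTower R B M] : ℕ∞ :=
  len p (LinearMap.ker (LinearMap.lsmul B M b))

/-- a finitely generated domain of dimension at most two over the field `E` -/
structure Srf (E : Type u) (B : Type v) [Field E] [CommRing B] [Algebra E B] : Prop where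
  dom : IsDomain B
  noe : IsNoetherianRing B
  ft : Algebra.FiniteType E B
  d2 : ∀ p : Ideal B, p.IsPrime → p ≠ ⊥ → Ring.DimensionLEOne (B ⧸ p)

/-- `S` is the set of the prime ideals which contain `b` and are not maximal -/
structure Cur {B : Type v} [CommRing B] (b : B) (S : Finset (PrimeSpectrum B)) : Prop where
  mem : ∀ p ∈ S, b ∈ p.asIdeal ∧ ¬ p.asIdeal.IsMaximal
  all : ∀ p : PrimeSpectrum B, b ∈ p.asIdeal → p.asIdeal.IsMaximal ∨ p ∈ S
  anti : ∀ p ∈ S, ∀ p' ∈ S, p.asIdeal ≤ p'.asIdeal → p = p'

end Pool.Agent.RDP
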