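import Pool.Agent.RDM.Ld
import Pool.Agent.RDM.Dv
import Pool.Agent.RDM.A2
import Pool.Agent.RDM.Len
import Pool.Agent.RDM.A1

set_option maxSynthPendingDepth 3

/-!
# The charts
-/

set_option autoImplicit false

section


namespace Pool.Agent.RDP

universe u v w

private theorem ld_td_trdeg {F K : Type u} [Field F] [Field K] [Algebra F K] (a : K)
    (h : Algebra.IsAlgebraic (IntermediateField.adjoin F {a}) K) : Algebra.trdeg F K ≤ 1 := by
  have h1 : Algebra.IsAlgebraic (Algebra.adjoin F {a}) K :=
    IntermediateField.isAlgebraic_adjoin_iff_top.1 h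
  refine (Algebra.IsAlgebraic.trdeg_le_cardinalMk F ({a} : Set K)).trans ?_
  simp

private theorem ld_td_one {F K : Type u} [Field F] [Field K] [Algebra F K]
    (h : Algebra.trdeg F K ≤ 1) : Td1 F K := by
  intro t ht x
  have h1 : AlgebraicIndependent F (fun _ : Unit => t) :=
    algebraicIndependent_unique_type_iff.2 ht
  have h2 : IsTranscendenceBasis F (fun _ : Unit => t) := by
    refine h1.isTranscendenceBasis_of_lift_trdeg_le_of_finite ?_
    simpa using h
  have h3 := h2.isAlgebraic
  rw [Set.range_const] at h3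
  exact (IntermediateField.isAlgebraic_adjoin_iff_top.2 h3).isAlgebraic x

section

variable {E κ L : Type u} [Field E] [IsAlgClosed E] [Field κ] [Field L] [Algebra E κ] [Algebra κ L]
  [Algebra E L] [IsScalarTower E κ L] {f g : MvPolynomial (Fin 2) E} {t : E} {P : Fin 2 → E} {s : κ}
  {τ : L} {x : Fin 2 → L} {w : L} {q : Fin 2 → κ} {qw : κ} {𝒜 : Set (Fin 2 → E)} {c : E}
  {B : Subalgebra E L}
theorem ld_td (hL : LD f g t P s τ x w q qw 𝒜) :
    Td1 E κ ∧ Algebra.trdeg E L ≤ 2 ∧ (∃ S : Finset L, IntermediateField.adjoin E (S : Set L) = ⊤) ∧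
      ∀ y : κ, IsAlgebraic (IntermediateField.adjoin E {s}) y := by
  have hfd := hL.fd
  have alg1 : Algebra.IsAlgebraic (IntermediateField.adjoin E {s}) κ :=
    Algebra.IsAlgebraic.of_finite _ _
  have t1 : Algebra.trdeg E κ ≤ 1 := ld_td_trdeg s alg1
  have alg2 : Algebra.IsAlgebraic (IntermediateField.adjoin κ {τ}) L := by
    constructor
    intro y
    have hy : y ∈ IntermediateField.adjoin κ {τ} := by
      rw [hL.gen]
      exact IntermediateField.mem_top
    exact isAlgebraic_algebraMap (⟨y, hy⟩ : IntermediateField.adjoin κ {τ})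
  have t2 : Algebra.trdeg κ L ≤ 1 := ld_td_trdeg τ alg2
  refine ⟨ld_td_one t1, ?_, ?_, fun y => alg1.isAlgebraic y⟩
  · rw [← trdeg_add_eq E κ (A := L)]
    refine (add_le_add t1 t2).trans (le_of_eq ?_)
    norm_num
  · have e1 : Algebra.EssFiniteType E (IntermediateField.adjoin E {s}) :=
      IntermediateField.essFiniteType_iff.2 ⟨{s}, by simp⟩
    have e2 : Algebra.EssFiniteType (IntermediateField.adjoin E {s}) κ := inferInstance
    have e3 : Algebra.EssFiniteType E κ :=
      Algebra.EssFiniteType.comp E (IntermediateField.adjoin E {s}) κ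
    have e4 : Algebra.EssFiniteType κ L :=
      IntermediateField.fg_top_iff.1 ⟨{τ}, by simpa using hL.gen⟩
    have e5 : Algebra.EssFiniteType E L := Algebra.EssFiniteType.comp E κ L
    exact IntermediateField.fg_top_iff.2 e5

end

end Pool.Agent.RDP

end

section


namespace Pool.Agent.RDP

universe u v w

section

variable {E κ L : Type u} [Field E] [IsAlgClosed E] [Field κ] [Field L] [Algebra E κ] [Algebra κ L]
  [Algebra E L] [IsScalarTower E κ L] {f g : MvPolynomial (Fin 2) E} {t : E} {P : Fin 2 → E} {s : κ}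
  {τ : L} {x : Fin 2 → L} {w : L} {q : Fin 2 → κ} {qw : κ} {𝒜 : Set (Fin 2 → E)} {c : E}
  {B : Subalgebra E L}
omit [IsAlgClosed E] [Algebra E κ] [Algebra E L] [IsScalarTower E κ L] in
omit [Field E] in
private theorem ld_alg_val (hτ : Transcendental κ τ) (a : κ) :
    ∃ V : ValuationSubring L, Ov κ V ∧ τ - algebraMap κ L a ∈ V.nonunits := by
  have hmem : τ - algebraMap κ L a ∈ (Algebra.adjoin κ {τ}).toSubring :=
    sub_mem (Algebra.self_mem_adjoin_singleton κ τ) (Subalgebra.algebraMap_mem _ a)
  have hne : Ideal.span {(⟨τ - algebraMap κ L a, hmem⟩ : (Algebra.adjoin κ {τ}).toSubring)} ≠ ⊤ := by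
    intro h
    rw [Ideal.span_singleton_eq_top, isUnit_iff_exists_inv] at h
    obtain ⟨⟨y, hy⟩, hxy⟩ := h
    have hy' : y ∈ Algebra.adjoin κ {τ} := hy
    rw [Algebra.adjoin_singleton_eq_range_aeval] at hy'
    obtain ⟨p, rfl⟩ := hy'
    have h1 : (τ - algebraMap κ L a) * Polynomial.aeval τ p = 1 := congrArg Subtype.val hxy
    have h2 : Polynomial.aeval τ ((Polynomial.X - Polynomial.C a) * p - 1) = 0 := by
      simp only [map_sub, map_mul, Polynomial.aeval_X, Polynomial.aeval_C, map_one]
      exact sub_eq_zero.2 h1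
    have h3 := (transcendental_iff.1 hτ) _ h2
    have h4 := congrArg (Polynomial.eval a) h3
    simp at h4
  obtain ⟨V, hV1, hV2⟩ := Ideal.image_subset_nonunits_valuationSubring _ hne
  refine ⟨V, fun e => ?_, ?_⟩
  · exact hV1 (Subalgebra.algebraMap_mem (Algebra.adjoin κ {τ}) e)
  · exact hV2 ⟨_, Ideal.subset_span rfl, rfl⟩

omit [IsAlgClosed E] [Algebra E κ] [Algebra E L] [IsScalarTower E κ L] in
omit [Field E] in
private theorem ld_alg_unit {V : ValuationSubring L} (hV : Ov κ V) {z : κ} (hz : z ≠ 0) :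
    algebraMap κ L z ∉ V.nonunits := by
  rw [ValuationSubring.mem_nonunits_iff_or, not_or, not_not]
  refine ⟨?_, ?_⟩
  · intro h
    exact hz ((algebraMap κ L).injective (h.trans (map_zero _).symm))
  · rw [← map_inv₀]
    exact hV z⁻¹

theorem ld_alg (hL : LD f g t P s τ x w q qw 𝒜) (hc : c ≠ 0) :
    w + algebraMap κ L s ≠ 0 ∧ w - algebraMap κ L s - algebraMap E L c ≠ 0 ∧
      ∀ y : L, IsAlgebraic (Algebra.adjoin E (bs g s x w c)) y := by
  obtain ⟨-, -, -, hκs⟩ := ld_td hL
  have hv : w + algebraMap κ L s ≠ 0 := by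
    intro h
    obtain ⟨V, hV, hτ⟩ := ld_alg_val hL.tau (0 : κ)
    rw [map_zero, sub_zero] at hτ
    have h1 := (hL.zer V hV hτ).2
    have h2 : w - algebraMap κ L qw = algebraMap κ L (-(qw + s)) := by
      rw [map_neg, map_add, eq_neg_of_add_eq_zero_left h]
      ring
    rw [h2] at h1
    exact ld_alg_unit hV (neg_ne_zero.2 hL.qs) h1
  have hu : w - algebraMap κ L s - algebraMap E L c ≠ 0 := by
    intro h
    obtain ⟨V, hV, hτ⟩ := ld_alg_val hL.tau (1 : κ)
    rw [map_one] at hτ
    have h1 := (hL.one V hV hτ).2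
    have h2 : w - algebraMap κ L s = algebraMap κ L (algebraMap E κ c) := by
      rw [← IsScalarTower.algebraMap_apply E κ L]
      exact sub_eq_zero.1 h
    rw [h2] at h1
    exact ld_alg_unit hV (fun h3 => hc ((algebraMap E κ).injective (h3.trans (map_zero _).symm))) h1
  refine ⟨hv, hu, ?_⟩
  -- the field generated by the functions
  let M : IntermediateField E L := IntermediateField.adjoin E (bs g s x w c)
  have hMx : ∀ i, x i ∈ M := by
    intro i
    refine IntermediateField.subset_adjoin _ _ ?_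
    fin_cases i
    · exact Or.inl rfl
    · exact Or.inr (Or.inl rfl)
  have hMv : w + algebraMap κ L s ∈ M :=
    IntermediateField.subset_adjoin _ _ (Or.inr (Or.inr (Or.inr (Or.inr rfl))))
  have hMu : w - algebraMap κ L s ∈ M := by
    have h1 : (w - algebraMap κ L s - algebraMap E L c)⁻¹ ∈ M :=
      IntermediateField.subset_adjoin _ _ (Or.inr (Or.inr (Or.inr (Or.inl rfl))))
    have h2 := M.inv_mem h1
    rw [inv_inv] at h2
    have h3 := M.add_mem h2 (M.algebraMap_mem c)
    rwa [sub_add_cancel] at h3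
  have hMs : algebraMap κ L s ∈ M := by
    have h1 : algebraMap κ L s = algebraMap E L (2 : E)⁻¹ *
        ((w + algebraMap κ L s) - (w - algebraMap κ L s)) := by
      have h2 : (2 : L) ≠ 0 := by
        have h3 : algebraMap E L 2 ≠ 0 := fun h4 =>
          hL.two ((algebraMap E L).injective (h4.trans (map_zero _).symm))
        rwa [map_ofNat] at h3
      rw [map_inv₀, map_ofNat]
      field_simp
      ring
    rw [h1]
    exact M.mul_mem (M.algebraMap_mem _) (M.sub_mem hMv hMu)
  let C : IntermediateField M L := algebraicClosure M L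
  -- κ is contained in C
  have hCκ : ∀ y : κ, algebraMap κ L y ∈ C := by
    intro y
    rw [mem_algebraicClosure_iff]
    obtain ⟨p, hp, hpy⟩ := hκs y
    have hφ : ∀ z : IntermediateField.adjoin E {s}, algebraMap κ L z ∈ M := by
      have h1 : (IntermediateField.adjoin E {s}) ≤ M.comap (IsScalarTower.toAlgHom E κ L) := by
        rw [IntermediateField.adjoin_le_iff]
        intro z hz
        rw [Set.mem_singleton_iff] at hz
        subst hz
        exact hMs
      intro z
      exact h1 z.2
    let φ : IntermediateField.adjoin E {s} →+* M :=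
      { toFun := fun z => ⟨algebraMap κ L z, hφ z⟩
        map_one' := Subtype.ext (map_one _)
        map_mul' := fun a b => Subtype.ext (map_mul _ _ _)
        map_zero' := Subtype.ext (map_zero _)
        map_add' := fun a b => Subtype.ext (map_add _ _ _) }
    refine ⟨p.map φ, (Polynomial.map_ne_zero_iff φ.injective).2 hp, ?_⟩
    have h2 : algebraMap κ L (Polynomial.aeval y p) = 0 := by rw [hpy, map_zero]
    rw [Polynomial.aeval_def, Polynomial.eval₂_map]
    rw [Polynomial.aeval_def, Polynomial.hom_eval₂] at h2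
    exact h2
  have hCM : ∀ z ∈ M, z ∈ C := fun z hz => C.algebraMap_mem ⟨z, hz⟩
  -- τ is in C
  have hCτ : τ ∈ C := by
    obtain ⟨i, hi⟩ : ∃ i, x i ∉ (algebraMap κ L).range := by
      by_contra hcon
      push Not at hcon
      exact hL.xnc hcon
    have h1 : x i ∈ IntermediateField.adjoin κ {τ} := by
      rw [hL.gen]
      trivial
    obtain ⟨P, Q, hPQ⟩ := (IntermediateField.mem_adjoin_simple_iff κ (x i)).1 h1
    let ψ : κ →+* C :=
      { toFun := fun z => ⟨algebraMap κ L z, hCκ z⟩
        map_one' := Subtype.ext (map_one _)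
        map_mul' := fun a b => Subtype.ext (map_mul _ _ _)
        map_zero' := Subtype.ext (map_zero _)
        map_add' := fun a b => Subtype.ext (map_add _ _ _) }
    have hQ0 : Polynomial.aeval τ Q ≠ 0 := by
      intro h0
      rw [h0, div_zero] at hPQ
      exact hi ⟨0, by rw [hPQ, map_zero]⟩
    have hQne : Q ≠ 0 := by
      rintro rfl
      exact hQ0 (map_zero _)
    let ξ : C := ⟨x i, hCM _ (hMx i)⟩
    have hne : P.map ψ - Polynomial.C ξ * Q.map ψ ≠ 0 := by
      intro h0
      have h2 := congrArg (fun r => Polynomial.coeff r Q.natDegree) h0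
      simp only [Polynomial.coeff_sub, Polynomial.coeff_map, Polynomial.coeff_C_mul,
        Polynomial.coeff_zero] at h2
      have h3 := congrArg (Subtype.val : C → L) h2
      have h4 : algebraMap κ L (P.coeff Q.natDegree) - x i * algebraMap κ L (Q.coeff Q.natDegree) = 0 := h3
      have h5 : Q.coeff Q.natDegree ≠ 0 := Polynomial.leadingCoeff_ne_zero.2 hQne
      have h6 : algebraMap κ L (Q.coeff Q.natDegree) ≠ 0 := fun h7 =>
        h5 ((algebraMap κ L).injective (h7.trans (map_zero _).symm))
      refine hi ⟨P.coeff Q.natDegree / Q.coeff Q.natDegree, ?_⟩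
      rw [map_div₀, div_eq_iff h6]
      exact sub_eq_zero.1 h4
    have hψ : ∀ R : Polynomial κ, Polynomial.aeval τ (R.map ψ) = Polynomial.aeval τ R := by
      intro R
      rw [Polynomial.aeval_def, Polynomial.eval₂_map, Polynomial.aeval_def]
      rfl
    have h7 : Polynomial.aeval τ (P.map ψ - Polynomial.C ξ * Q.map ψ) = 0 := by
      rw [map_sub, map_mul, hψ, hψ, Polynomial.aeval_C]
      have h8 : algebraMap C L ξ = Polynomial.aeval τ P / Polynomial.aeval τ Q := hPQ
      rw [h8, div_mul_cancel₀ _ hQ0, sub_self]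
    have h9 : IsAlgebraic C τ := ⟨_, hne, h7⟩
    rw [mem_algebraicClosure_iff]
    exact h9.restrictScalars M
  -- everything is in C
  have hCpol : ∀ R : Polynomial κ, Polynomial.aeval τ R ∈ C := by
    intro R
    rw [Polynomial.aeval_eq_sum_range]
    refine C.sum_mem fun j _ => ?_
    rw [Algebra.smul_def]
    exact C.mul_mem (hCκ _) (pow_mem hCτ _)
  intro y
  have h1 : y ∈ IntermediateField.adjoin κ {τ} := by
    rw [hL.gen]
    trivial
  obtain ⟨P, Q, rfl⟩ := (IntermediateField.mem_adjoin_simple_iff κ y).1 h1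
  have h2 : Polynomial.aeval τ P / Polynomial.aeval τ Q ∈ C := C.div_mem (hCpol P) (hCpol Q)
  rw [mem_algebraicClosure_iff] at h2
  open scoped IntermediateField.algebraAdjoinAdjoin in
  exact (IsFractionRing.isAlgebraic_iff (Algebra.adjoin E (bs g s x w c))
    (IntermediateField.adjoin E (bs g s x w c)) L).2 h2

end

end Pool.Agent.RDP

end

section


namespace Pool.Agent.RDP

universe u v w

section

variable {E κ L : Type u} [Field E] [IsAlgClosed E] [Field κ] [Field L] [Algebra E κ] [Algebra κ L]
  [Algebra E L] [IsScalarTower E κ L] {f g : MvPolynomial (Fin 2) E} {t : E} {P : Fin 2 → E} {s : κ}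
  {τ : L} {x : Fin 2 → L} {w : L} {q : Fin 2 → κ} {qw : κ} {𝒜 : Set (Fin 2 → E)} {c : E}
  {B : Subalgebra E L}
theorem at_uniq {p p' : Ideal B} {V V' : ValuationSubring L} (h : At B p V) :
    (At B p V' → V = V') ∧ (At B p' V → p = p') := by
  refine ⟨fun h' => ?_, fun h' => ?_⟩
  · ext y
    rw [h.loc, h'.loc]
  · ext b
    rw [h.non, h'.non]

end

end Pool.Agent.RDP

end

section


namespace Pool.Agent.RDP

universe u v w

section

variable {E κ L : Type u} [Field E] [IsAlgClosed E] [Field κ] [Field L] [Algebra E κ] [Algebra κ L]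
  [Algebra E L] [IsScalarTower E κ L] {f g : MvPolynomial (Fin 2) E} {t : E} {P : Fin 2 → E} {s : κ}
  {τ : L} {x : Fin 2 → L} {w : L} {q : Fin 2 → κ} {qw : κ} {𝒜 : Set (Fin 2 → E)} {c : E}
  {B : Subalgebra E L}
theorem ch_hic (hB : Ch g s x w c B) (y : L) (hy : IsIntegral B y) : y ∈ B := by
  have hle : Algebra.adjoin E (bs g s x w c) ≤ B := fun z hz =>
    (hB.mem z).2 (isIntegral_algebraMap (x := (⟨z, hz⟩ : Algebra.adjoin E (bs g s x w c))))
  letI : Algebra (Algebra.adjoin E (bs g s x w c)) B := (Subalgebra.inclusion hle).toAlgebra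
  have : IsScalarTower (Algebra.adjoin E (bs g s x w c)) B L :=
    IsScalarTower.of_algebraMap_eq fun _ => rfl
  have : Algebra.IsIntegral (Algebra.adjoin E (bs g s x w c)) B := ⟨fun b => by
    have h1 := (hB.mem (b : L)).1 b.2
    exact (isIntegral_algebraMap_iff (A := B) (B := L) Subtype.val_injective).1 h1⟩
  exact (hB.mem y).2 (isIntegral_trans y hy)

end

end Pool.Agent.RDP

end

section


namespace Pool.Agent.RDP

universe u v w

section

variable {E κ L : Type u} [Field E] [IsAlgClosed E] [Field κ] [Field L] [Algebra E κ] [Algebra κ L]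
  [Algebra E L] [IsScalarTower E κ L] {f g : MvPolynomial (Fin 2) E} {t : E} {P : Fin 2 → E} {s : κ}
  {τ : L} {x : Fin 2 → L} {w : L} {q : Fin 2 → κ} {qw : κ} {𝒜 : Set (Fin 2 → E)} {c : E}
  {B : Subalgebra E L}
theorem ch_mem (hL : LD f g t P s τ x w q qw 𝒜) (hB : Ch g s x w c B) :
    (∀ i, x i ∈ B) ∧ (MvPolynomial.aeval x g)⁻¹ ∈ B ∧
      (w - algebraMap κ L s - algebraMap E L c)⁻¹ ∈ B ∧ w + algebraMap κ L s ∈ B ∧
      vc s w c ∈ B ∧ vc s w c * MvPolynomial.aeval x g =
        MvPolynomial.aeval x (f - MvPolynomial.C t * g) -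
          algebraMap E L c * (w + algebraMap κ L s) * MvPolynomial.aeval x g := by
  have hbs : ∀ y ∈ bs g s x w c, y ∈ B := by
    intro y hy
    exact (hB.mem y).2 (isIntegral_algebraMap
      (x := (⟨y, Algebra.subset_adjoin hy⟩ : Algebra.adjoin E (bs g s x w c))))
  have hx : ∀ i, x i ∈ B := by
    intro i
    fin_cases i
    · exact hbs _ (by simp [bs])
    · exact hbs _ (by simp [bs])
  have hg : (MvPolynomial.aeval x g)⁻¹ ∈ B := hbs _ (by simp [bs])
  have hc : (w - algebraMap κ L s - algebraMap E L c)⁻¹ ∈ B := hbs _ (by simp [bs])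
  have hw : w + algebraMap κ L s ∈ B := hbs _ (by simp [bs])
  have hpoly : ∀ p : MvPolynomial (Fin 2) E, MvPolynomial.aeval x p ∈ B := by
    intro p
    induction p using MvPolynomial.induction_on with
    | C a =>
      rw [MvPolynomial.aeval_C]
      exact B.algebraMap_mem a
    | add p q hp hq =>
      rw [map_add]
      exact B.add_mem hp hq
    | mul_X p i hp =>
      rw [map_mul, MvPolynomial.aeval_X]
      exact B.mul_mem hp (hx i)
  have hid : vc s w c * MvPolynomial.aeval x g =
        MvPolynomial.aeval x (f - MvPolynomial.C t * g) -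
          algebraMap E L c * (w + algebraMap κ L s) * MvPolynomial.aeval x g := by
    rw [map_sub, map_mul, MvPolynomial.aeval_C, vc]
    linear_combination hL.eq
  refine ⟨hx, hg, hc, hw, ?_, hid⟩
  have hv : vc s w c = MvPolynomial.aeval x (f - MvPolynomial.C t * g) * (MvPolynomial.aeval x g)⁻¹ -
      algebraMap E L c * (w + algebraMap κ L s) := by
    have h0 := hL.gx
    field_simp
    linear_combination hid
  rw [hv]
  exact B.sub_mem (B.mul_mem (hpoly _) hg) (B.mul_mem (B.algebraMap_mem c) hw)

end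

end Pool.Agent.RDP

end

section


namespace Pool.Agent.RDP

universe u v w

section

variable {E κ L : Type u} [Field E] [IsAlgClosed E] [Field κ] [Field L] [Algebra E κ] [Algebra κ L]
  [Algebra E L] [IsScalarTower E κ L] {f g : MvPolynomial (Fin 2) E} {t : E} {P : Fin 2 → E} {s : κ}
  {τ : L} {x : Fin 2 → L} {w : L} {q : Fin 2 → κ} {qw : κ} {𝒜 : Set (Fin 2 → E)} {c : E}
  {B : Subalgebra E L}
theorem ch_at (hB : Ch g s x w c B) (V : ValuationSubring L) (hE : Ov E V) (hV : V ≠ ⊤)
    (hbs : ∀ y ∈ bs g s x w c, y ∈ V)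
    (hnc : ¬ ∀ y ∈ bs g s x w c, ∃ e : E, y - algebraMap E L e ∈ V.nonunits) :
    ∃ p : Ideal B, p.IsPrime ∧ p ≠ ⊥ ∧ ¬ p.IsMaximal ∧ At B p V := by
  have hA : ∀ y ∈ Algebra.adjoin E (bs g s x w c), y ∈ V := by
    intro y hy
    induction hy using Algebra.adjoin_induction with
    | mem y hy => exact hbs y hy
    | algebraMap e => exact hE e
    | add a b _ _ ha hb => exact add_mem ha hb
    | mul a b _ _ ha hb => exact mul_mem ha hb
  have hBV : ∀ b ∈ B, b ∈ V := by
    intro b hb
    obtain ⟨P, hP, hPb⟩ := (hB.mem b).mp hb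
    let φ : Algebra.adjoin E (bs g s x w c) →+* V :=
      (algebraMap (Algebra.adjoin E (bs g s x w c)) L).codRestrict V fun y => hA y y.2
    have hφ : (algebraMap V L).comp φ = algebraMap (Algebra.adjoin E (bs g s x w c)) L := by
      ext y
      rfl
    have hint : IsIntegral V b := by
      refine ⟨P.map φ, hP.map φ, ?_⟩
      rw [Polynomial.eval₂_map, hφ]
      exact hPb
    obtain ⟨y, hy⟩ := (IsIntegrallyClosed.isIntegral_iff (R := V) (K := L)).mp hint
    rw [← hy]
    exact y.2
  obtain ⟨p, hp, hp0, hnon, hloc⟩ := ctr B hB.srf hB.fr (fun y hy => ch_hic hB y hy) V hBV hV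
  have hnm : ¬ p.IsMaximal := by
    intro hm
    apply hnc
    intro y hy
    have hyB : y ∈ B := (hB.mem y).mpr
      (isIntegral_algebraMap (x := (⟨y, Algebra.subset_adjoin hy⟩ :
        Algebra.adjoin E (bs g s x w c))))
    have := hB.srf.ft
    let : Field (B ⧸ p) := Ideal.Quotient.field p
    have : Algebra.FiniteType E (B ⧸ p) :=
      Algebra.FiniteType.of_surjective (Ideal.Quotient.mkₐ E p) (Ideal.Quotient.mkₐ_surjective E p)
    have : Module.Finite E (B ⧸ p) := finite_of_finite_type_of_isJacobsonRing E (B ⧸ p)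
    obtain ⟨e, he⟩ := (IsAlgClosed.algebraMap_bijective_of_isIntegral (k := E) (K := B ⧸ p)).2
      (Ideal.Quotient.mk p ⟨y, hyB⟩)
    refine ⟨e, ?_⟩
    have h1 : (⟨y, hyB⟩ : B) - algebraMap E B e ∈ p := by
      rw [← Ideal.Quotient.eq, ← he]
      rfl
    exact (hnon _).mp h1
  exact ⟨p, hp, hp0, hnm, ⟨hnon, hloc hnm⟩⟩

end

end Pool.Agent.RDP

end

section


namespace Pool.Agent.RDP

universe u v w

section

variable {E κ L : Type u} [Field E] [IsAlgClosed E] [Field κ] [Field L] [Algebra E κ] [Algebra κ L]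
  [Algebra E L] [IsScalarTower E κ L] {f g : MvPolynomial (Fin 2) E} {t : E} {P : Fin 2 → E} {s : κ}
  {τ : L} {x : Fin 2 → L} {w : L} {q : Fin 2 → κ} {qw : κ} {𝒜 : Set (Fin 2 → E)} {c : E}
  {B : Subalgebra E L}
theorem ch_pr (hB : Ch g s x w c B) (p : Ideal B) [p.IsPrime] (hp : p ≠ ⊥) (hm : ¬ p.IsMaximal) :
    ∃ (V : ValuationSubring L) (o : L → ℤ), Dv V o ∧ V ≠ ⊤ ∧ Ov E V ∧ At B p V ∧
      (∀ y ∈ bs g s x w c, y ∈ V) ∧
      (¬ ∀ y ∈ bs g s x w c, ∃ e : E, y - algebraMap E L e ∈ V.nonunits) ∧
      ∀ b : B, b ≠ 0 → ((len p (B ⧸ Ideal.span {b})).toNat : ℤ) = o b := by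
  obtain ⟨V, o, hDv, hVt, hmem, hnon, hlen⟩ := dvr B hB.srf hB.fr (ch_hic hB) p hp hm
  have hBV : ∀ b : B, (b : L) ∈ V := by
    intro b
    refine (hmem b).2 ⟨b, 1, ?_, ?_⟩
    · exact (Ideal.ne_top_iff_one p).1 (Ideal.IsPrime.ne_top inferInstance)
    · simp
  have hbsB : ∀ y ∈ bs g s x w c, y ∈ B := by
    intro y hy
    have h1 : y ∈ Algebra.adjoin E (bs g s x w c) := Algebra.subset_adjoin hy
    refine (hB.mem y).2 ?_
    exact isIntegral_algebraMap (R := Algebra.adjoin E (bs g s x w c)) (x := ⟨y, h1⟩)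
  refine ⟨V, o, hDv, hVt, ?_, ⟨fun b => (hnon b).symm, hmem⟩, fun y hy => hBV ⟨y, hbsB y hy⟩, ?_,
    hlen⟩
  · intro e
    exact hBV (algebraMap E B e)
  · intro hall
    apply hm
    -- every element of the adjoin is congruent to a constant
    have hcong : ∀ y (hy : y ∈ Algebra.adjoin E (bs g s x w c)),
        ∃ (h : y ∈ B) (e : E), (⟨y, h⟩ : B) - algebraMap E B e ∈ p := by
      intro y hy
      refine Algebra.adjoin_induction (p := fun y _ => ∃ (h : y ∈ B) (e : E),
        (⟨y, h⟩ : B) - algebraMap E B e ∈ p) ?_ ?_ ?_ ?_ hy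
      · intro y hy
        obtain ⟨e, he⟩ := hall y hy
        exact ⟨hbsB y hy, e, (hnon _).1 he⟩
      · intro e
        refine ⟨(algebraMap E B e).2, e, ?_⟩
        have h1 : (⟨algebraMap E L e, (algebraMap E B e).2⟩ : B) - algebraMap E B e = 0 := by
          apply Subtype.ext
          simp
        rw [h1]
        exact p.zero_mem
      · rintro a b _ _ ⟨ha, e1, h1⟩ ⟨hb, e2, h2⟩
        refine ⟨B.add_mem ha hb, e1 + e2, ?_⟩
        have h3 := p.add_mem h1 h2
        have h4 : (⟨a + b, B.add_mem ha hb⟩ : B) - algebraMap E B (e1 + e2) =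
            ((⟨a, ha⟩ : B) - algebraMap E B e1) + ((⟨b, hb⟩ : B) - algebraMap E B e2) := by
          rw [map_add]
          have h5 : (⟨a + b, B.add_mem ha hb⟩ : B) = ⟨a, ha⟩ + ⟨b, hb⟩ := rfl
          rw [h5]
          ring
        rw [h4]
        exact h3
      · rintro a b _ _ ⟨ha, e1, h1⟩ ⟨hb, e2, h2⟩
        refine ⟨B.mul_mem ha hb, e1 * e2, ?_⟩
        have h3 := p.add_mem (p.mul_mem_left (⟨a, ha⟩ : B) h2) (p.mul_mem_left (algebraMap E B e2) h1)
        have h4 : (⟨a * b, B.mul_mem ha hb⟩ : B) - algebraMap E B (e1 * e2) =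
            (⟨a, ha⟩ : B) * ((⟨b, hb⟩ : B) - algebraMap E B e2) +
              algebraMap E B e2 * ((⟨a, ha⟩ : B) - algebraMap E B e1) := by
          rw [map_mul]
          have h5 : (⟨a * b, B.mul_mem ha hb⟩ : B) = ⟨a, ha⟩ * ⟨b, hb⟩ := rfl
          rw [h5]
          ring
        rw [h4]
        exact h3
    have hint : Algebra.IsIntegral E (B ⧸ p) := by
      constructor
      intro z
      obtain ⟨b, rfl⟩ := Ideal.Quotient.mk_surjective z
      obtain ⟨P, hPm, hP⟩ := (hB.mem (b : L)).1 b.2
      -- the inclusion of the adjoin into B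
      have hle : Algebra.adjoin E (bs g s x w c) ≤ B := fun y hy => (hcong y hy).1
      let ι : Algebra.adjoin E (bs g s x w c) →+* B := (Subalgebra.inclusion hle).toRingHom
      let χ : Algebra.adjoin E (bs g s x w c) →+* (B ⧸ p) := (Ideal.Quotient.mk p).comp ι
      have hι : Polynomial.eval₂ ι b P = 0 := by
        apply Subtype.ext
        have h1 : ((Polynomial.eval₂ ι b P : B) : L) =
            Polynomial.eval₂ ((B.val : B →+* L).comp ι) (B.val b) P := by
          exact Polynomial.hom_eval₂ P ι (B.val : B →+* L) b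
        rw [h1]
        exact hP
      have hχ : Polynomial.eval₂ χ (Ideal.Quotient.mk p b) P = 0 := by
        rw [← Polynomial.hom_eval₂, hι, map_zero]
      have hlift : P.map χ ∈ Polynomial.lifts (algebraMap E (B ⧸ p)) := by
        rw [Polynomial.lifts_iff_coeff_lifts]
        intro n
        rw [Polynomial.coeff_map]
        obtain ⟨h1, e, he⟩ := hcong _ (P.coeff n).2
        refine ⟨e, ?_⟩
        have h2 : Ideal.Quotient.mk p (⟨(P.coeff n : L), h1⟩ : B) =
            Ideal.Quotient.mk p (algebraMap E B e) := Ideal.Quotient.eq.2 he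
        exact h2.symm
      obtain ⟨q, hq, -, hqm⟩ := Polynomial.lifts_and_natDegree_eq_and_monic hlift (hPm.map χ)
      refine ⟨q, hqm, ?_⟩
      rw [← Polynomial.eval_map, hq, Polynomial.eval_map]
      exact hχ
    exact Ideal.Quotient.maximal_of_isField p
      (isField_of_isIntegral_of_isField' (R := E) (Field.toIsField E))

end

end Pool.Agent.RDP

end

section


namespace Pool.Agent.RDP

universe u v w

section

variable {E κ L : Type u} [Field E] [IsAlgClosed E] [Field κ] [Field L] [Algebra E κ] [Algebra κ L]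
  [Algebra E L] [IsScalarTower E κ L] {f g : MvPolynomial (Fin 2) E} {t : E} {P : Fin 2 → E} {s : κ}
  {τ : L} {x : Fin 2 → L} {w : L} {q : Fin 2 → κ} {qw : κ} {𝒜 : Set (Fin 2 → E)} {c : E}
  {B : Subalgebra E L}
theorem ch_ex (hL : LD f g t P s τ x w q qw 𝒜) (hc : c ≠ 0) :
    ∃ B : Subalgebra E L, Ch g s x w c B := by
  classical
  obtain ⟨-, h2, ⟨G, hG⟩, -⟩ := ld_td hL
  have hS : (({x 0, x 1, (MvPolynomial.aeval x g)⁻¹, (w - algebraMap κ L s - algebraMap E L c)⁻¹,
    w + algebraMap κ L s} : Finset L) : Set L) = bs g s x w c := by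
    unfold bs
    push_cast
    rfl
  obtain ⟨B, h3, h4, -, h5⟩ := nrm G _ hG (by rw [hS]; exact (ld_alg hL hc).2.2) h2
  rw [hS] at h3
  exact ⟨B, h3, h4, h5⟩

end

end Pool.Agent.RDP

end

section


namespace Pool.Agent.RDP

universe u v w

section

open scoped IntermediateField.algebraAdjoinAdjoin in
theorem vr2_td1 {E κ : Type u} [Field E] [Field κ] [Algebra E κ] (htr : Td1 E κ) {c : κ}
    (hc : Transcendental E c) : Td1 E (AlgebraicClosure κ) := by
  have h1 : Algebra.IsAlgebraic (Algebra.adjoin E {c}) κ := by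
    refine ⟨fun y => ?_⟩
    exact (IsFractionRing.isAlgebraic_iff (Algebra.adjoin E {c})
      (IntermediateField.adjoin E {c}) κ).mpr (htr c hc y)
  have h2 : Algebra.trdeg E κ ≤ 1 := by
    have := Algebra.IsAlgebraic.trdeg_le_cardinalMk E ({c} : Set κ)
    rwa [Cardinal.mk_singleton] at this
  have h3 : Algebra.trdeg κ (AlgebraicClosure κ) = 0 :=
    _root_.trdeg_eq_zero_iff.2 inferInstance
  have h4 := _root_.trdeg_add_eq E κ (A := AlgebraicClosure κ)
  rw [h3, add_zero] at h4
  intro t ht x
  have h5 : AlgebraicIndependent E (fun _ : PUnit.{u+1} => t) :=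
    algebraicIndependent_unique_type_iff.2 ht
  have h6 : IsTranscendenceBasis E (fun _ : PUnit.{u+1} => t) := by
    refine h5.isTranscendenceBasis_of_trdeg_le_of_finite ?_
    rw [← h4, Cardinal.mk_punit]
    exact h2
  have h7 := h6.isAlgebraic_field
  have h8 : Set.range (fun _ : PUnit.{u+1} => t) = {t} := Set.range_const
  rw [h8] at h7
  exact h7.isAlgebraic x

theorem vr2_lem1 {E k : Type u} [Field E] [Field k] (ρ : E →+* k) (h : Function.Surjective ρ) :
    ∃ ψ : k →+* RatFunc E, ∀ e, ψ (ρ e) = RatFunc.C e := by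
  let f := RingEquiv.ofBijective ρ ⟨ρ.injective, h⟩
  refine ⟨(RatFunc.C : E →+* RatFunc E).comp (f.symm : k →+* E), fun e => ?_⟩
  show RatFunc.C (f.symm (f e)) = RatFunc.C e
  rw [f.symm_apply_apply]

theorem vr2_lem2 {E k : Type u} [Field E] [IsAlgClosed E] [Field k] [Algebra E k] (θ : k)
    (h1 : ∀ e : E, θ ≠ algebraMap E k e)
    (h2 : ∀ y : k, ∃ a b, a ∈ Algebra.adjoin E {θ} ∧ b ∈ Algebra.adjoin E {θ} ∧ b ≠ 0 ∧
      y * b = a) :
    ∃ ψ : k →+* RatFunc E, ∀ e, ψ (algebraMap E k e) = RatFunc.C e := by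
  have htr : Transcendental E θ := by
    intro halg
    have h3 := IsAlgClosed.degree_eq_one_of_irreducible E (minpoly.irreducible halg.isIntegral)
    obtain ⟨e, he⟩ := minpoly.mem_range_of_degree_eq_one E θ h3
    exact h1 e he.symm
  have hm : ∀ y : k, y ∈ IntermediateField.adjoin E {θ} := by
    intro y
    obtain ⟨a, b, ha, hb, hb0, hy⟩ := h2 y
    have h4 : y = a / b := by
      rw [eq_div_iff hb0]
      exact hy
    rw [h4]
    exact div_mem (IntermediateField.algebra_adjoin_le_adjoin E {θ} ha)
      (IntermediateField.algebra_adjoin_le_adjoin E {θ} hb)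
  let e := RatFunc.algEquivOfTranscendental θ htr
  let g : k →+* IntermediateField.adjoin E {θ} := (RingHom.id k).codRestrict _ hm
  refine ⟨((e.symm : IntermediateField.adjoin E {θ} ≃ₐ[E] RatFunc E) :
    IntermediateField.adjoin E {θ} →+* RatFunc E).comp g, fun x => ?_⟩
  have h5 : g (algebraMap E k x) = algebraMap E (IntermediateField.adjoin E {θ}) x := rfl
  show e.symm (g (algebraMap E k x)) = _
  rw [h5, AlgEquiv.commutes, RatFunc.algebraMap_eq_C]

/-- an embedding of `κ(τ)` into `K(X)`, `K` the algebraic closure of `κ` -/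
theorem vr2_emb {κ L : Type u} [Field κ] [Field L] [Algebra κ L] (τ : L)
    (hτ : Transcendental κ τ) (hgen : IntermediateField.adjoin κ {τ} = ⊤) :
    ∃ ι : L →+* RatFunc (AlgebraicClosure κ), ∀ c : κ, ι (algebraMap κ L c) =
      algebraMap (AlgebraicClosure κ) (RatFunc (AlgebraicClosure κ))
        (algebraMap κ (AlgebraicClosure κ) c) := by
  let K := AlgebraicClosure κ
  have hX : Transcendental κ (RatFunc.X : RatFunc K) :=
    Transcendental.restrictScalars (S := K) (algebraMap κ K).injective RatFunc.transcendental_X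
  let e1 := RatFunc.algEquivOfTranscendental τ hτ
  let e2 := RatFunc.algEquivOfTranscendental (RatFunc.X : RatFunc K) hX
  have hm : ∀ y : L, y ∈ IntermediateField.adjoin κ {τ} := fun y => by
    rw [hgen]
    exact IntermediateField.mem_top
  let g : L →+* IntermediateField.adjoin κ {τ} := (RingHom.id L).codRestrict _ hm
  let f : IntermediateField.adjoin κ {τ} →ₐ[κ] RatFunc K :=
    ((IntermediateField.adjoin κ {(RatFunc.X : RatFunc K)}).val.comp
      (e2 : RatFunc κ →ₐ[κ] _)).comp (e1.symm : IntermediateField.adjoin κ {τ} →ₐ[κ] RatFunc κ)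
  refine ⟨(f : IntermediateField.adjoin κ {τ} →+* RatFunc K).comp g, fun c => ?_⟩
  have h5 : g (algebraMap κ L c) = algebraMap κ (IntermediateField.adjoin κ {τ}) c := rfl
  show f (g (algebraMap κ L c)) = _
  rw [h5, f.commutes, IsScalarTower.algebraMap_apply κ K (RatFunc K)]

end

section

theorem vr2 {E κ L : Type u} [Field E] [IsAlgClosed E] [Field κ] [Field L] [Algebra E κ]
    [Algebra κ L] [Algebra E L] [IsScalarTower E κ L] (htr : Td1 E κ) (τ : L)
    (hτ : Transcendental κ τ) (hgen : IntermediateField.adjoin κ {τ} = ⊤) (V : ValuationSubring L)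
    (hE : Ov E V) (hκ : ∃ c : κ, algebraMap κ L c ∉ V) :
    ∃ Φ : V →+* RatFunc E, (∀ e : E, Φ ⟨algebraMap E L e, hE e⟩ = RatFunc.C e) ∧
      ∀ x : V, Φ x = 0 ↔ (x : L) ∈ V.nonunits := by
  classical
  obtain ⟨c, hc⟩ := hκ
  have hct : Transcendental E c := by
    intro halg
    have h3 := IsAlgClosed.degree_eq_one_of_irreducible E (minpoly.irreducible halg.isIntegral)
    obtain ⟨e, he⟩ := minpoly.mem_range_of_degree_eq_one E c h3
    apply hc
    rw [← he, ← IsScalarTower.algebraMap_apply]
    exact hE e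
  have htrK : Td1 E (AlgebraicClosure κ) := vr2_td1 htr hct
  obtain ⟨ι, hι⟩ := vr2_emb τ hτ hgen
  obtain ⟨V', hV'⟩ := @vext L (RatFunc (AlgebraicClosure κ)) _ _ ι.toAlgebra V
  replace hV' : ∀ x : L, ι x ∈ V' ↔ x ∈ V := hV'
  let K := AlgebraicClosure κ
  let aK : K →+* RatFunc K := algebraMap K (RatFunc K)
  let j : E →+* RatFunc K := aK.comp (algebraMap E K)
  have hj : ∀ e : E, j e = ι (algebraMap E L e) := by
    intro e
    rw [IsScalarTower.algebraMap_apply E κ L, hι]
    show aK (algebraMap E K e) = aK (algebraMap κ K (algebraMap E κ e))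
    rw [← IsScalarTower.algebraMap_apply E κ K]
  have hjV : ∀ e : E, j e ∈ V' := fun e => by
    rw [hj e, hV']
    exact hE e
  let W : ValuationSubring K := V'.comap aK
  have hWn : ∀ x : K, x ∈ W.nonunits → aK x ∈ V'.nonunits := by
    intro x hx
    rw [ValuationSubring.mem_nonunits_iff_or] at hx ⊢
    rcases hx with rfl | hx
    · exact Or.inl (map_zero _)
    · refine Or.inr fun h => hx ?_
      rw [← map_inv₀] at h
      exact h
  have hWE : Ov E W := fun e => hjV e
  have hWtop : W ≠ ⊤ := by
    intro h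
    have h1 : algebraMap κ K c ∈ W := by
      rw [h]
      exact ValuationSubring.mem_top _
    have h2 : aK (algebraMap κ K c) ∈ V' := h1
    rw [← hι c, hV'] at h2
    exact hc h2
  have hres : ∀ x : K, aK x ∈ V' → ∃ e : E, aK x - j e ∈ V'.nonunits := by
    intro x hx
    obtain ⟨e, he⟩ := res1 htrK W hWE hWtop x hx
    refine ⟨e, ?_⟩
    have h1 := hWn _ he
    rwa [map_sub] at h1
  let i : E →+* V' := j.codRestrict V' hjV
  let r : V' →+* IsLocalRing.ResidueField V' := IsLocalRing.residue V'
  let ρ : E →+* IsLocalRing.ResidueField V' := r.comp i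
  have hr : ∀ x y : V', ((x : RatFunc K) - y) ∈ V'.nonunits → r x = r y := by
    intro x y h
    have h1 : ((x - y : V') : RatFunc K) ∈ V'.nonunits := h
    rw [ValuationSubring.coe_mem_nonunits_iff] at h1
    rw [← sub_eq_zero, ← map_sub]
    exact (IsLocalRing.residue_eq_zero_iff _).mpr h1
  have hr' : ∀ x y : V', r x = r y → ((x : RatFunc K) - y) ∈ V'.nonunits := by
    intro x y h
    rw [← sub_eq_zero, ← map_sub] at h
    have h1 := (IsLocalRing.residue_eq_zero_iff _).mp h
    rw [← ValuationSubring.coe_mem_nonunits_iff] at h1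
    exact h1
  have hrs : Function.Surjective r := IsLocalRing.residue_surjective
  have hψ : ∃ ψ : IsLocalRing.ResidueField V' →+* RatFunc E, ∀ e, ψ (ρ e) = RatFunc.C e := by
    rcases gs (RatFunc.X : RatFunc K) RatFunc.transcendental_X RatFunc.adjoin_X V' with
      h | ⟨θ, hθV, hθ, h⟩
    · apply vr2_lem1
      intro y
      obtain ⟨x, rfl⟩ := hrs y
      obtain ⟨d, hd⟩ := h x x.2
      have hdV : aK d ∈ V' := by
        have h2 : aK d = (x : RatFunc K) - ((x : RatFunc K) - aK d) := by ring
        rw [h2]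
        exact V'.sub_mem x.2 (V'.nonunits_le hd)
      obtain ⟨e, he⟩ := hres d hdV
      refine ⟨e, (hr _ _ ?_).symm⟩
      have h3 : (x : RatFunc K) - j e = ((x : RatFunc K) - aK d) + (aK d - j e) := by ring
      show (x : RatFunc K) - j e ∈ V'.nonunits
      rw [h3]
      exact V'.nonunits.add_mem hd he
    · let := ρ.toAlgebra
      let θ' : V' := ⟨θ, hθV⟩
      have claim : ∀ p : Polynomial K, (∀ n, aK (p.coeff n) ∈ V') →
          ∃ s : V', (s : RatFunc K) = Polynomial.aeval θ p ∧
            r s ∈ Algebra.adjoin E {r θ'} := by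
        intro p hp
        refine ⟨∑ n ∈ Finset.range (p.natDegree + 1), ⟨aK (p.coeff n), hp n⟩ * θ' ^ n, ?_, ?_⟩
        · rw [Polynomial.aeval_eq_sum_range]
          push_cast
          refine Finset.sum_congr rfl fun n _ => ?_
          rw [Algebra.smul_def]
        · rw [map_sum]
          refine Subalgebra.sum_mem _ fun n _ => ?_
          rw [map_mul, map_pow]
          refine Subalgebra.mul_mem _ ?_ (Subalgebra.pow_mem _ (Algebra.self_mem_adjoin_singleton E _) n)
          obtain ⟨e, he⟩ := hres _ (hp n)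
          have h4 : r ⟨aK (p.coeff n), hp n⟩ = r (i e) := hr _ _ he
          rw [h4]
          exact Subalgebra.algebraMap_mem _ e
      apply vr2_lem2 (r θ')
      · intro e he
        have h1 := hr' _ _ he
        exact hθ (algebraMap E K e) (hjV e) h1
      · intro y
        obtain ⟨x, rfl⟩ := hrs y
        obtain ⟨p, q, hp, hq, hq0, hx⟩ := h x x.2
        obtain ⟨sp, hsp, hsp'⟩ := claim p hp
        obtain ⟨sq, hsq, hsq'⟩ := claim q hq
        refine ⟨r sp, r sq, hsp', hsq', ?_, ?_⟩
        · intro h0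
          apply hq0
          have h1 := (IsLocalRing.residue_eq_zero_iff _).mp h0
          rw [← ValuationSubring.coe_mem_nonunits_iff, hsq] at h1
          exact h1
        · rw [← map_mul]
          apply hr
          push_cast
          rw [hsp, hsq]
          exact hx
  obtain ⟨ψ, hψ⟩ := hψ
  let ιV : V →+* V' := (ι.comp V.subtype).codRestrict V' (fun x => (hV' x).2 x.2)
  refine ⟨ψ.comp (r.comp ιV), fun e => ?_, fun x => ⟨fun hx => ?_, fun hx => ?_⟩⟩
  · rw [← hψ e]
    show ψ (r (ιV _)) = ψ (r (i e))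
    congr 2
    apply Subtype.ext
    exact (hj e).symm
  · have h1 : ψ (r (ιV x)) = ψ 0 := by
      rw [map_zero]
      exact hx
    have h2 := ψ.injective h1
    have h3 := (IsLocalRing.residue_eq_zero_iff _).mp h2
    rw [← ValuationSubring.coe_mem_nonunits_iff] at h3
    have h4 : ι (x : L) ∈ V'.nonunits := h3
    rw [ValuationSubring.mem_nonunits_iff_or] at h4 ⊢
    rcases h4 with h5 | h5
    · left
      exact ι.injective (by rw [h5, map_zero])
    · right
      rw [← map_inv₀, hV'] at h5
      exact h5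
  · show ψ (r (ιV x)) = 0
    have h4 : ι (x : L) ∈ V'.nonunits := by
      rw [ValuationSubring.mem_nonunits_iff_or] at hx ⊢
      rcases hx with h5 | h5
      · left
        rw [h5, map_zero]
      · right
        rw [← map_inv₀, hV']
        exact h5
    have h3 : r (ιV x) = 0 := by
      apply (IsLocalRing.residue_eq_zero_iff _).mpr
      rw [← ValuationSubring.coe_mem_nonunits_iff]
      exact h4
    rw [h3, map_zero]

end

end Pool.Agent.RDP

end

section


namespace Pool.Agent.RDP

universe u v w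

section

variable {E κ L : Type u} [Field E] [IsAlgClosed E] [Field κ] [Field L] [Algebra E κ] [Algebra κ L]
  [Algebra E L] [IsScalarTower E κ L] {f g : MvPolynomial (Fin 2) E} {t : E} {P : Fin 2 → E} {s : κ}
  {τ : L} {x : Fin 2 → L} {w : L} {q : Fin 2 → κ} {qw : κ} {𝒜 : Set (Fin 2 → E)} {c : E}
  {B : Subalgebra E L}
omit [IsAlgClosed E] [Algebra κ L] [Field κ] [Algebra E κ] [IsScalarTower E κ L] in
private theorem cls_t_mem (V : ValuationSubring L) (hE : Ov E V) (hx : ∀ i, x i ∈ V)
    (h : MvPolynomial (Fin 2) E) : MvPolynomial.aeval x h ∈ V := by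
  induction h using MvPolynomial.induction_on with
  | C a =>
    rw [MvPolynomial.aeval_C]
    exact hE a
  | add p q hp hq =>
    rw [map_add]
    exact add_mem hp hq
  | mul_X p i hp =>
    rw [map_mul, MvPolynomial.aeval_X]
    exact mul_mem hp (hx i)

omit [IsAlgClosed E] in
private theorem cls_t_con (e : Fin 2 → E) (h : MvPolynomial (Fin 2) E) :
    MvPolynomial.aeval (fun i => algebraMap E (RatFunc E) (e i)) h =
      RatFunc.C (MvPolynomial.eval e h) := by
  induction h using MvPolynomial.induction_on with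
  | C a =>
    rw [MvPolynomial.aeval_C, MvPolynomial.eval_C]
    rfl
  | add p q hp hq => rw [map_add, hp, hq, map_add, map_add]
  | mul_X p i hp =>
    rw [map_mul, hp, MvPolynomial.aeval_X, map_mul, MvPolynomial.eval_X, map_mul]
    rfl

omit [IsAlgClosed E] [Algebra κ L] [Field κ] [Algebra E κ] [IsScalarTower E κ L] in
private theorem cls_t_phi (V : ValuationSubring L) (hE : Ov E V) (hx : ∀ i, x i ∈ V)
    (Φ : V →+* RatFunc E) (hΦ : ∀ e : E, Φ ⟨algebraMap E L e, hE e⟩ = RatFunc.C e)
    (h : MvPolynomial (Fin 2) E) :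
    Φ ⟨MvPolynomial.aeval x h, cls_t_mem V hE hx h⟩ =
      MvPolynomial.aeval (fun i => Φ ⟨x i, hx i⟩) h := by
  induction h using MvPolynomial.induction_on with
  | C a =>
    have e : (⟨MvPolynomial.aeval x (MvPolynomial.C a), cls_t_mem V hE hx _⟩ : V) =
        ⟨algebraMap E L a, hE a⟩ := Subtype.ext (MvPolynomial.aeval_C _ _)
    rw [e, hΦ, MvPolynomial.aeval_C]
    rfl
  | add p q hp hq =>
    have e : (⟨MvPolynomial.aeval x (p + q), cls_t_mem V hE hx _⟩ : V) =
        ⟨MvPolynomial.aeval x p, cls_t_mem V hE hx p⟩ +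
          ⟨MvPolynomial.aeval x q, cls_t_mem V hE hx q⟩ := Subtype.ext (map_add _ _ _)
    rw [e, map_add, hp, hq, map_add]
  | mul_X p i hp =>
    have e : (⟨MvPolynomial.aeval x (p * MvPolynomial.X i), cls_t_mem V hE hx _⟩ : V) =
        ⟨MvPolynomial.aeval x p, cls_t_mem V hE hx p⟩ * ⟨x i, hx i⟩ :=
      Subtype.ext (by
        show MvPolynomial.aeval x (p * MvPolynomial.X i) = MvPolynomial.aeval x p * x i
        rw [map_mul, MvPolynomial.aeval_X])
    rw [e, map_mul, hp, map_mul, MvPolynomial.aeval_X]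

theorem cls_t (hL : LD f g t P s τ x w q qw 𝒜) (hc : c ≠ 0) (hnd : ND (f - MvPolynomial.C t * g))
    (V : ValuationSubring L) (hE : Ov E V) (hV : V ≠ ⊤) (hbs : ∀ y ∈ bs g s x w c, y ∈ V)
    (hnc : ¬ ∀ y ∈ bs g s x w c, ∃ e : E, y - algebraMap E L e ∈ V.nonunits)
    (hv : vc s w c ∈ V.nonunits) : TT g s x w V := by
  obtain ⟨hv0, hu0, -⟩ := ld_alg hL hc
  have hx : ∀ i, x i ∈ V := by
    intro i
    fin_cases i
    · exact hbs _ (by simp [bs])
    · exact hbs _ (by simp [bs])
  have hgi : (MvPolynomial.aeval x g)⁻¹ ∈ V := hbs _ (by simp [bs])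
  have hui : (w - algebraMap κ L s - algebraMap E L c)⁻¹ ∈ V := hbs _ (by simp [bs])
  have hg0 : MvPolynomial.aeval x g ≠ 0 := hL.gx
  have hgm : MvPolynomial.aeval x g ∈ V := cls_t_mem V hE hx g
  -- `v` is a nonunit
  have hmul : ∀ a b : L, a ∈ V.nonunits → b ∈ V → a * b ∈ V.nonunits := by
    intro a b ha hb
    rw [ValuationSubring.mem_nonunits_iff] at ha ⊢
    rw [map_mul]
    have hb' := (V.valuation_le_one_iff b).2 hb
    exact lt_of_le_of_lt (mul_le_of_le_one_right' hb') ha
  have hvn : w + algebraMap κ L s ∈ V.nonunits := by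
    have h1 := hmul _ _ hv hui
    have h2 : vc s w c * (w - algebraMap κ L s - algebraMap E L c)⁻¹ = w + algebraMap κ L s := by
      unfold vc
      rw [mul_assoc, mul_inv_cancel₀ hu0, mul_one]
    rwa [h2] at h1
  have hG : MvPolynomial.aeval x (f - MvPolynomial.C t * g) ∈ V.nonunits := by
    have h1 : MvPolynomial.aeval x (f - MvPolynomial.C t * g) = vc s w c * MvPolynomial.aeval x g +
        (w + algebraMap κ L s) * (algebraMap E L c * MvPolynomial.aeval x g) := by
      rw [map_sub, map_mul, MvPolynomial.aeval_C]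
      unfold vc
      linear_combination -hL.eq
    rw [h1]
    exact add_mem (hmul _ _ hv hgm) (hmul _ _ hvn (mul_mem (hE c) hgm))
  refine ⟨?_, hV, hvn, hx, hgi⟩
  by_contra hκ
  unfold Ov at hκ
  push Not at hκ
  obtain ⟨htd, -⟩ := ld_td hL
  obtain ⟨Φ, hΦ, hΦ0⟩ := vr2 htd τ hL.tau hL.gen V hE hκ
  have hξ : MvPolynomial.aeval (fun i => Φ ⟨x i, hx i⟩) (f - MvPolynomial.C t * g) = 0 := by
    rw [← cls_t_phi V hE hx Φ hΦ, hΦ0]
    exact hG
  have hc1 := hnd _ hξ
  choose e he using hc1
  -- elements of `V` congruent to constants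
  have hcon : ∀ (y : L) (hy : y ∈ V) (a : E), Φ ⟨y, hy⟩ = RatFunc.C a →
      y - algebraMap E L a ∈ V.nonunits := by
    intro y hy a h1
    have h2 := (hΦ0 (⟨y, hy⟩ - ⟨algebraMap E L a, hE a⟩)).1 (by rw [map_sub, h1, hΦ, sub_self])
    exact h2
  have hgc : Φ ⟨MvPolynomial.aeval x g, hgm⟩ = RatFunc.C (MvPolynomial.eval e g) := by
    rw [cls_t_phi V hE hx Φ hΦ]
    have h1 : (fun i => Φ ⟨x i, hx i⟩) = fun i => algebraMap E (RatFunc E) (e i) := by
      funext i
      exact he i
    rw [h1, cls_t_con]
  have hgic : Φ ⟨(MvPolynomial.aeval x g)⁻¹, hgi⟩ = RatFunc.C (MvPolynomial.eval e g)⁻¹ := by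
    have h1 : Φ ⟨MvPolynomial.aeval x g, hgm⟩ * Φ ⟨(MvPolynomial.aeval x g)⁻¹, hgi⟩ = 1 := by
      rw [← map_mul, ← map_one Φ]
      congr 1
      exact Subtype.ext (mul_inv_cancel₀ hg0)
    rw [hgc] at h1
    rw [map_inv₀]
    exact (inv_eq_of_mul_eq_one_right h1).symm
  -- the residue of `s`
  have hui_const : ∃ a : E, (w - algebraMap κ L s - algebraMap E L c)⁻¹ - algebraMap E L a ∈
      V.nonunits := by
    by_cases hs : algebraMap κ L s ∈ V
    · have hVκ : V.comap (algebraMap κ L) ≠ ⊤ := by
        intro h1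
        obtain ⟨k, hk⟩ := hκ
        apply hk
        have h2 : k ∈ V.comap (algebraMap κ L) := by
          rw [h1]
          trivial
        exact h2
      have hEκ : Ov E (V.comap (algebraMap κ L)) := by
        intro a
        rw [ValuationSubring.mem_comap, ← IsScalarTower.algebraMap_apply]
        exact hE a
      obtain ⟨s', hs'⟩ := res1 htd (V.comap (algebraMap κ L)) hEκ hVκ s
        (by rw [ValuationSubring.mem_comap]; exact hs)
      have hs2 : algebraMap κ L s - algebraMap E L s' ∈ V.nonunits := by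
        by_cases h0 : s - algebraMap E κ s' = 0
        · have h1 : algebraMap κ L s - algebraMap E L s' = 0 := by
            rw [IsScalarTower.algebraMap_apply E κ L, ← map_sub, h0, map_zero]
          rw [h1]
          exact zero_mem _
        · have h2 : (s - algebraMap E κ s')⁻¹ ∉ V.comap (algebraMap κ L) := by
            intro h3
            rw [ValuationSubring.mem_nonunits_iff] at hs'
            have h4 := ((V.comap (algebraMap κ L)).valuation_le_one_iff _).2 h3
            rw [map_inv₀] at h4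
            have h5 : (V.comap (algebraMap κ L)).valuation (s - algebraMap E κ s') ≠ 0 :=
              (Valuation.ne_zero_iff _).2 h0
            exact absurd h4 (not_le.2 ((one_lt_inv₀ (zero_lt_iff.2 h5)).2 hs'))
          rw [ValuationSubring.mem_comap, map_inv₀, map_sub,
            ← IsScalarTower.algebraMap_apply] at h2
          rw [ValuationSubring.mem_nonunits_iff]
          by_contra h3
          apply h2
          rw [← V.valuation_le_one_iff, map_inv₀]
          exact inv_le_one_of_one_le₀ (not_lt.1 h3)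
      have hum : w - algebraMap κ L s - algebraMap E L c ∈ V := by
        have h1 : w - algebraMap κ L s - algebraMap E L c =
            (w + algebraMap κ L s) - 2 * algebraMap κ L s - algebraMap E L c := by ring
        rw [h1]
        refine sub_mem (sub_mem ?_ (mul_mem ?_ hs)) (hE c)
        · rw [← V.valuation_le_one_iff]
          exact ((V.mem_nonunits_iff).1 hvn).le
        · have := hE 2
          rwa [map_ofNat] at this
      have hΦs : Φ ⟨w - algebraMap κ L s - algebraMap E L c, hum⟩ = RatFunc.C (-(2 * s') - c) := by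
        rw [← hΦ, ← sub_eq_zero, ← map_sub, hΦ0]
        show (w - algebraMap κ L s - algebraMap E L c) - algebraMap E L (-(2 * s') - c) ∈ V.nonunits
        have h1 : (w - algebraMap κ L s - algebraMap E L c) - algebraMap E L (-(2 * s') - c) =
            (w + algebraMap κ L s) - (algebraMap κ L s - algebraMap E L s') * 2 := by
          rw [map_sub, map_neg, map_mul, map_ofNat]
          ring
        rw [h1]
        refine sub_mem hvn (hmul _ _ hs2 ?_)
        have := hE 2
        rwa [map_ofNat] at this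
      refine ⟨(-(2 * s') - c)⁻¹, hcon _ hui _ ?_⟩
      have h1 : Φ ⟨w - algebraMap κ L s - algebraMap E L c, hum⟩ *
          Φ ⟨(w - algebraMap κ L s - algebraMap E L c)⁻¹, hui⟩ = 1 := by
        rw [← map_mul, ← map_one Φ]
        congr 1
        exact Subtype.ext (mul_inv_cancel₀ hu0)
      rw [hΦs] at h1
      rw [map_inv₀]
      exact (inv_eq_of_mul_eq_one_right h1).symm
    · refine ⟨0, ?_⟩
      rw [map_zero, sub_zero, ValuationSubring.mem_nonunits_iff]
      by_contra h3
      apply hs
      have h4 : V.valuation (w - algebraMap κ L s - algebraMap E L c)⁻¹ = 1 :=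
        le_antisymm ((V.valuation_le_one_iff _).2 hui) (not_lt.1 h3)
      have h5 : w - algebraMap κ L s - algebraMap E L c ∈ V := by
        rw [← V.valuation_le_one_iff]
        rw [map_inv₀] at h4
        rw [← inv_inv (V.valuation (w - algebraMap κ L s - algebraMap E L c)), h4, inv_one]
      have h6 : algebraMap κ L s = ((w + algebraMap κ L s) - algebraMap E L c -
          (w - algebraMap κ L s - algebraMap E L c)) * algebraMap E L (2⁻¹) := by
        rw [map_inv₀, map_ofNat]
        have h2 : (2 : L) ≠ 0 := by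
          have := (map_ne_zero (algebraMap E L)).2 hL.two
          rwa [map_ofNat] at this
        field_simp
        ring
      rw [h6]
      refine mul_mem (sub_mem (sub_mem ?_ (hE c)) h5) (hE _)
      rw [← V.valuation_le_one_iff]
      exact ((V.mem_nonunits_iff).1 hvn).le
  apply hnc
  intro y hy
  simp only [bs, Set.mem_insert_iff, Set.mem_singleton_iff] at hy
  rcases hy with rfl | rfl | rfl | rfl | rfl
  · exact ⟨e 0, hcon _ (hx 0) _ (he 0)⟩
  · exact ⟨e 1, hcon _ (hx 1) _ (he 1)⟩
  · exact ⟨_, hcon _ hgi _ hgic⟩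
  · exact hui_const
  · exact ⟨0, by rw [map_zero, sub_zero]; exact hvn⟩

end

end Pool.Agent.RDP

end

section


namespace Pool.Agent.RDP

universe u v w

section

private theorem cls_p_nu {K : Type v} [Field K] (V : ValuationSubring K) (a : K) :
    a ∈ V.nonunits ↔ V.valuation a < 1 :=
  ValuationSubring.mem_nonunits_iff V

private theorem cls_p_mem {K : Type v} [Field K] (V : ValuationSubring K) (a : K) :
    a ∈ V ↔ V.valuation a ≤ 1 :=
  (V.valuation_le_one_iff a).symm

private theorem cls_p_nui {K : Type v} [Field K] (V : ValuationSubring K) (a : K) (ha : a ≠ 0) :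
    a ∈ V.nonunits ↔ a⁻¹ ∉ V := by
  rw [cls_p_nu, cls_p_mem, map_inv₀, not_le]
  have h0 : (0 : V.ValueGroup) < V.valuation a := by
    rw [zero_lt_iff]
    exact (Valuation.ne_zero_iff _).2 ha
  exact (one_lt_inv₀ h0).symm

private theorem cls_p_zero {K : Type v} [Field K] (V : ValuationSubring K) :
    (0 : K) ∈ V.nonunits := by
  rw [cls_p_nu, map_zero]
  exact zero_lt_one

private theorem cls_p_add {K : Type v} [Field K] (V : ValuationSubring K) (a b : K)
    (ha : a ∈ V.nonunits) (hb : b ∈ V.nonunits) : a + b ∈ V.nonunits := by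
  rw [cls_p_nu] at *
  exact lt_of_le_of_lt (V.valuation.map_add a b) (max_lt ha hb)

private theorem cls_p_mul {K : Type v} [Field K] (V : ValuationSubring K) (a b : K)
    (ha : a ∈ V.nonunits) (hb : b ∈ V) : a * b ∈ V.nonunits := by
  rw [cls_p_nu] at *
  rw [cls_p_mem] at hb
  rw [map_mul]
  exact mul_lt_one_of_lt_of_le ha hb

private theorem cls_p_neg {K : Type v} [Field K] (V : ValuationSubring K) (a : K)
    (ha : a ∈ V.nonunits) : -a ∈ V.nonunits := by
  rw [cls_p_nu] at *
  rwa [Valuation.map_neg]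

private theorem cls_p_sub {K : Type v} [Field K] (V : ValuationSubring K) (a : K)
    (ha : a ∈ V.nonunits) : a ∈ V := by
  rw [cls_p_nu] at ha
  rw [cls_p_mem]
  exact ha.le

private theorem cls_p_inv {E : Type u} {K : Type v} [Field E] [Field K] [Algebra E K]
    (V : ValuationSubring K) (hE : Ov E V) (y : K) (e : E) (hy : y ≠ 0) (hyi : y⁻¹ ∈ V)
    (h : y - algebraMap E K e ∈ V.nonunits) :
    y⁻¹ - algebraMap E K e⁻¹ ∈ V.nonunits := by
  have he : e ≠ 0 := by
    rintro rfl
    rw [map_zero, sub_zero, cls_p_nui V y hy] at h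
    exact h hyi
  have he' : algebraMap E K e ≠ 0 := by
    rw [Ne, map_eq_zero]
    exact he
  have h1 : y⁻¹ - algebraMap E K e⁻¹ =
      (-(y - algebraMap E K e)) * (y⁻¹ * algebraMap E K e⁻¹) := by
    rw [map_inv₀]
    field_simp
    ring
  rw [h1]
  exact cls_p_mul V _ _ (cls_p_neg V _ h) (V.mul_mem _ _ hyi (hE e⁻¹))

private theorem cls_p_aev {E : Type u} {K : Type v} [Field E] [Field K] [Algebra E K]
    (V : ValuationSubring K) (hE : Ov E V) (x : Fin 2 → K) (hx : ∀ i, x i ∈ V)
    (p : MvPolynomial (Fin 2) E) : MvPolynomial.aeval x p ∈ V := by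
  induction p using MvPolynomial.induction_on with
  | C a => rw [MvPolynomial.aeval_C]; exact hE a
  | add p q hp hq => rw [map_add]; exact V.add_mem _ _ hp hq
  | mul_X p i hp =>
    rw [map_mul, MvPolynomial.aeval_X]
    exact V.mul_mem _ _ hp (hx i)

private theorem cls_p_aec {E : Type u} {K : Type v} [Field E] [Field K] [Algebra E K]
    (V : ValuationSubring K) (hE : Ov E V) (x : Fin 2 → K) (e : Fin 2 → E)
    (hx : ∀ i, x i ∈ V) (h : ∀ i, x i - algebraMap E K (e i) ∈ V.nonunits)
    (p : MvPolynomial (Fin 2) E) :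
    MvPolynomial.aeval x p - algebraMap E K (MvPolynomial.eval e p) ∈ V.nonunits := by
  induction p using MvPolynomial.induction_on with
  | C a =>
    rw [MvPolynomial.aeval_C, MvPolynomial.eval_C, sub_self]
    exact cls_p_zero V
  | add p q hp hq =>
    rw [map_add, map_add, map_add, add_sub_add_comm]
    exact cls_p_add V _ _ hp hq
  | mul_X p i hp =>
    rw [map_mul, MvPolynomial.aeval_X, map_mul, MvPolynomial.eval_X, map_mul]
    have h1 : MvPolynomial.aeval x p * x i -
        algebraMap E K (MvPolynomial.eval e p) * algebraMap E K (e i) =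
        (MvPolynomial.aeval x p - algebraMap E K (MvPolynomial.eval e p)) * x i +
          (x i - algebraMap E K (e i)) * algebraMap E K (MvPolynomial.eval e p) := by ring
    rw [h1]
    exact cls_p_add V _ _ (cls_p_mul V _ _ hp (hx i)) (cls_p_mul V _ _ (h i) (hE _))

variable {E κ L : Type u} [Field E] [IsAlgClosed E] [Field κ] [Field L] [Algebra E κ] [Algebra κ L]
  [Algebra E L] [IsScalarTower E κ L] {f g : MvPolynomial (Fin 2) E} {t : E} {P : Fin 2 → E} {s : κ}
  {τ : L} {x : Fin 2 → L} {w : L} {q : Fin 2 → κ} {qw : κ} {𝒜 : Set (Fin 2 → E)} {c : E}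
  {B : Subalgebra E L}
theorem cls_p (hL : LD f g t P s τ x w q qw 𝒜)
    (V : ValuationSubring L) (hE : Ov E V) (hV : V ≠ ⊤) (hbs : ∀ y ∈ bs g s x w c, y ∈ V)
    (hnc : ¬ ∀ y ∈ bs g s x w c, ∃ e : E, y - algebraMap E L e ∈ V.nonunits)
    (hψ : (τ - 1) / τ ∈ V.nonunits ∨ ((τ - 1) / τ)⁻¹ ∈ V.nonunits)
    (hwc : w - algebraMap κ L s - algebraMap E L c ≠ 0) :
    (Ov κ V ∧ τ - 1 ∈ V.nonunits) ∨ (Ov κ V ∧ τ ∈ V.nonunits) ∨
      (∃ s', DA g s x w ((τ - 1) / τ) V s') ∨ DB g s x w ((τ - 1) / τ) V := by
  have hx0 : x 0 ∈ V := hbs _ (by simp [bs])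
  have hx1 : x 1 ∈ V := hbs _ (by simp [bs])
  have hxi : ∀ i, x i ∈ V := fun i => by fin_cases i <;> assumption
  have hgi : (MvPolynomial.aeval x g)⁻¹ ∈ V := hbs _ (by simp [bs])
  have hwi : (w - algebraMap κ L s - algebraMap E L c)⁻¹ ∈ V := hbs _ (by simp [bs])
  have hws : w + algebraMap κ L s ∈ V := hbs _ (by simp [bs])
  have hgc : (∀ i, ∃ e : E, x i - algebraMap E L e ∈ V.nonunits) →
      ∃ e : E, (MvPolynomial.aeval x g)⁻¹ - algebraMap E L e ∈ V.nonunits := by
    intro h
    choose e he using h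
    exact ⟨(MvPolynomial.eval e g)⁻¹,
      cls_p_inv V hE _ _ hL.gx hgi (cls_p_aec V hE x e hxi he g)⟩
  by_cases hκ : Ov κ V
  · by_contra hcon
    have h1 : ¬ τ - 1 ∈ V.nonunits := fun h => hcon (Or.inl ⟨hκ, h⟩)
    have h2 : ¬ τ ∈ V.nonunits := fun h => hcon (Or.inr (Or.inl ⟨hκ, h⟩))
    have hψ1 : V.valuation ((τ - 1) / τ) = 1 := by
      by_cases hτ : τ ∈ V
      · have h3 : V.valuation τ = 1 := by
          apply le_antisymm ((cls_p_mem V _).1 hτ)
          rw [cls_p_nu, not_lt] at h2
          exact h2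
        have h4 : V.valuation (τ - 1) = 1 := by
          apply le_antisymm ((cls_p_mem V _).1 (sub_mem hτ V.one_mem))
          rw [cls_p_nu, not_lt] at h1
          exact h1
        rw [map_div₀, h3, h4, div_one]
      · have h3 : 1 < V.valuation τ := by
          rw [cls_p_mem, not_le] at hτ
          exact hτ
        have h4 : V.valuation (τ - 1) = V.valuation τ := by
          apply Valuation.map_sub_eq_of_lt_left
          rw [map_one]
          exact h3
        rw [map_div₀, h4]
        apply div_self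
        exact (lt_trans zero_lt_one h3).ne'
    rcases hψ with h | h
    · rw [cls_p_nu, hψ1] at h
      exact lt_irrefl _ h
    · rw [cls_p_nu, map_inv₀, hψ1, inv_one] at h
      exact lt_irrefl _ h
  · right
    right
    by_cases hs : algebraMap κ L s ∈ V
    · left
      have hW : V.comap (algebraMap κ L) ≠ ⊤ := by
        intro h
        apply hκ
        intro y
        have : y ∈ V.comap (algebraMap κ L) := by rw [h]; trivial
        exact this
      have hEW : Ov E (V.comap (algebraMap κ L)) := by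
        intro e
        rw [ValuationSubring.mem_comap, ← IsScalarTower.algebraMap_apply]
        exact hE e
      obtain ⟨s', hs'⟩ := res1 (ld_td hL).1 (V.comap (algebraMap κ L)) hEW hW s
        (by rw [ValuationSubring.mem_comap]; exact hs)
      have hs2 : algebraMap κ L s - algebraMap E L s' ∈ V.nonunits := by
        by_cases h0 : s - algebraMap E κ s' = 0
        · have : algebraMap κ L s - algebraMap E L s' = 0 := by
            rw [IsScalarTower.algebraMap_apply E κ L, ← map_sub, h0, map_zero]
          rw [this]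
          exact cls_p_zero V
        · have h0' : algebraMap κ L s - algebraMap E L s' ≠ 0 := by
            rw [IsScalarTower.algebraMap_apply E κ L, ← map_sub, Ne, map_eq_zero]
            exact h0
          rw [cls_p_nui _ _ h0] at hs'
          rw [cls_p_nui _ _ h0']
          intro h
          apply hs'
          rw [ValuationSubring.mem_comap, map_inv₀, map_sub,
            ← IsScalarTower.algebraMap_apply E κ L]
          exact h
      have hw : w ∈ V := by
        have := sub_mem hws hs
        rwa [add_sub_cancel_right] at this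
      refine ⟨s', hE, hV, hxi, hgi, hw, hs2, ?_, hψ⟩
      rintro ⟨hc, e, he⟩
      apply hnc
      intro y hy
      rcases hy with rfl | rfl | rfl | rfl | rfl
      · exact hc 0
      · exact hc 1
      · exact hgc hc
      · refine ⟨(e - s' - c)⁻¹, cls_p_inv V hE _ _ hwc hwi ?_⟩
        have : w - algebraMap κ L s - algebraMap E L c - algebraMap E L (e - s' - c) =
            (w - algebraMap E L e) + -(algebraMap κ L s - algebraMap E L s') := by
          rw [map_sub, map_sub]; ring
        rw [this]
        exact cls_p_add V _ _ he (cls_p_neg V _ hs2)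
      · refine ⟨e + s', ?_⟩
        have : w + algebraMap κ L s - algebraMap E L (e + s') =
            (w - algebraMap E L e) + (algebraMap κ L s - algebraMap E L s') := by
          rw [map_add]; ring
        rw [this]
        exact cls_p_add V _ _ he hs2
    · right
      refine ⟨hE, hV, hxi, hgi, hws, hs, ?_, hψ⟩
      intro hc
      apply hnc
      have h2 : (algebraMap E L 2) ≠ 0 := by
        rw [Ne, map_eq_zero]
        exact hL.two
      have h2s : (2 : L) * algebraMap κ L s ∉ V := by
        intro h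
        apply hs
        have h3 := V.mul_mem _ _ (hE (2 : E)⁻¹) h
        have h4 : algebraMap E L (2 : E)⁻¹ * (2 * algebraMap κ L s) = algebraMap κ L s := by
          have h5 : (2 : L) = algebraMap E L 2 := (map_ofNat (algebraMap E L) 2).symm
          rw [h5, map_inv₀, ← mul_assoc, inv_mul_cancel₀ h2, one_mul]
        rwa [h4] at h3
      have hv1 : w - algebraMap κ L s - algebraMap E L c ∉ V := by
        intro h
        apply h2s
        have h3 := sub_mem (sub_mem hws h) (hE c)
        have h4 : w + algebraMap κ L s - (w - algebraMap κ L s - algebraMap E L c) -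
            algebraMap E L c = 2 * algebraMap κ L s := by ring
        rwa [h4] at h3
      have hv2 : w - algebraMap κ L s ∉ V := by
        intro h
        exact hv1 (sub_mem h (hE c))
      intro y hy
      rcases hy with rfl | rfl | rfl | rfl | rfl
      · exact hc 0
      · exact hc 1
      · exact hgc hc
      · refine ⟨0, ?_⟩
        rw [map_zero, sub_zero, cls_p_nui V _ (inv_ne_zero hwc), inv_inv]
        exact hv1
      · refine ⟨0, ?_⟩
        rw [map_zero, sub_zero]
        have hG : (w + algebraMap κ L s) * (w - algebraMap κ L s) * MvPolynomial.aeval x g =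
            MvPolynomial.aeval x (f - MvPolynomial.C t * g) := by
          rw [map_sub, map_mul, MvPolynomial.aeval_C]
          have := hL.eq
          linear_combination this
        have hGV : (w + algebraMap κ L s) * (w - algebraMap κ L s) ∈ V := by
          have h3 := V.mul_mem _ _ (cls_p_aev V hE x hxi (f - MvPolynomial.C t * g)) hgi
          rwa [← hG, mul_assoc, mul_inv_cancel₀ hL.gx, mul_one] at h3
        have h0 : w - algebraMap κ L s ≠ 0 := by
          intro h
          apply hv2
          rw [h]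
          exact V.zero_mem
        have h5 : w + algebraMap κ L s = (w - algebraMap κ L s)⁻¹ *
            ((w + algebraMap κ L s) * (w - algebraMap κ L s)) := by
          field_simp
        rw [h5]
        refine cls_p_mul V _ _ ?_ hGV
        rw [cls_p_nui V _ (inv_ne_zero h0), inv_inv]
        exact hv2

end

end Pool.Agent.RDP

end

section


namespace Pool.Agent.RDP

universe u v w

section

variable {E κ L : Type u} [Field E] [IsAlgClosed E] [Field κ] [Field L] [Algebra E κ] [Algebra κ L]
  [Algebra E L] [IsScalarTower E κ L] {f g : MvPolynomial (Fin 2) E} {t : E} {P : Fin 2 → E} {s : κ}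
  {τ : L} {x : Fin 2 → L} {w : L} {q : Fin 2 → κ} {qw : κ} {𝒜 : Set (Fin 2 → E)} {c : E}
  {B : Subalgebra E L}
theorem da_c (V : ValuationSubring L) (s' : E) {ψ : L} (hV : DA g s x w ψ V s') (c c' : E)
    (hc : (w - algebraMap κ L s - algebraMap E L c)⁻¹ ∉ V)
    (hc' : (w - algebraMap κ L s - algebraMap E L c')⁻¹ ∉ V) : c = c'  := by
  have hs : algebraMap κ L s ∈ V := by
    have h1 := V.nonunits_subset hV.at_
    have h2 := V.add_mem _ _ h1 (hV.ov s')
    simpa using h2
  have key : ∀ e : E, (w - algebraMap κ L s - algebraMap E L e)⁻¹ ∉ V →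
      V.valuation (w - algebraMap κ L s - algebraMap E L e) < 1 := by
    intro e he
    by_contra hn
    rw [not_lt] at hn
    apply he
    rw [← V.valuation_le_one_iff, map_inv₀]
    exact inv_le_one_of_one_le₀ hn
  have h1 := key c hc
  have h2 := key c' hc'
  by_contra hne
  have h3 : V.valuation (algebraMap E L (c - c')) < 1 := by
    have h4 : algebraMap E L (c - c') = (w - algebraMap κ L s - algebraMap E L c') -
        (w - algebraMap κ L s - algebraMap E L c) := by
      rw [map_sub]; ring
    rw [h4]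
    exact lt_of_le_of_lt (V.valuation.map_sub _ _) (max_lt h2 h1)
  have h5 : V.valuation (algebraMap E L (c - c')⁻¹) ≤ 1 := by
    rw [V.valuation_le_one_iff]
    exact hV.ov _
  have h6 : c - c' ≠ 0 := sub_ne_zero.mpr hne
  have h7 : V.valuation (algebraMap E L (c - c')) * V.valuation (algebraMap E L (c - c')⁻¹) = 1 := by
    rw [← map_mul, ← map_mul, mul_inv_cancel₀ h6, map_one, map_one]
  have h8 : V.valuation (algebraMap E L (c - c')) * V.valuation (algebraMap E L (c - c')⁻¹) < 1 :=
    mul_lt_one_of_lt_of_le h3 h5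
  exact absurd h7 h8.ne

end

end Pool.Agent.RDP

end

section


namespace Pool.Agent.RDP

universe u v w

section

variable {E κ L : Type u} [Field E] [IsAlgClosed E] [Field κ] [Field L] [Algebra E κ] [Algebra κ L]
  [Algebra E L] [IsScalarTower E κ L] {f g : MvPolynomial (Fin 2) E} {t : E} {P : Fin 2 → E} {s : κ}
  {τ : L} {x : Fin 2 → L} {w : L} {q : Fin 2 → κ} {qw : κ} {𝒜 : Set (Fin 2 → E)} {c : E}
  {B : Subalgebra E L}
theorem da_ch (V : ValuationSubring L) (s' : E) {ψ : L} (hV : DA g s x w ψ V s')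
    (hc : (w - algebraMap κ L s - algebraMap E L c)⁻¹ ∈ V)
    (hc0 : w - algebraMap κ L s - algebraMap E L c ≠ 0) :
    (∀ y ∈ bs g s x w c, y ∈ V) ∧
      ¬ ∀ y ∈ bs g s x w c, ∃ e : E, y - algebraMap E L e ∈ V.nonunits := by
  have hnv : ∀ {y : L}, y ∈ V.nonunits → y ∈ V := fun {y} hy =>
    (V.valuation_le_one_iff y).1 (V.mem_nonunits_iff.1 hy).le
  have hsV : algebraMap κ L s ∈ V := by
    have h1 := V.add_mem _ _ (hnv hV.at_) (hV.ov s')
    rwa [sub_add_cancel] at h1
  constructor
  · intro y hy
    unfold bs at hy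
    simp only [Set.mem_insert_iff, Set.mem_singleton_iff] at hy
    rcases hy with rfl | rfl | rfl | rfl | rfl
    · exact hV.memx 0
    · exact hV.memx 1
    · exact hV.memg
    · exact hc
    · exact V.add_mem _ _ hV.memw hsV
  · intro hall
    apply hV.nc
    constructor
    · intro i
      fin_cases i
      · exact hall (x 0) (by simp [bs])
      · exact hall (x 1) (by simp [bs])
    · obtain ⟨e, he⟩ := hall (w + algebraMap κ L s) (by simp [bs])
      refine ⟨e - s', ?_⟩
      rw [V.mem_nonunits_iff] at he ⊢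
      have h2 := V.mem_nonunits_iff.1 hV.at_
      have e1 : w - algebraMap E L (e - s') = (w + algebraMap κ L s - algebraMap E L e) -
          (algebraMap κ L s - algebraMap E L s') := by
        rw [map_sub]
        ring
      rw [e1]
      exact Valuation.map_sub_lt _ he h2

end

end Pool.Agent.RDP

end

section


namespace Pool.Agent.RDP

universe u v w

section

variable {E κ L : Type u} [Field E] [IsAlgClosed E] [Field κ] [Field L] [Algebra E κ] [Algebra κ L]
  [Algebra E L] [IsScalarTower E κ L] {f g : MvPolynomial (Fin 2) E} {t : E} {P : Fin 2 → E} {s : κ}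
  {τ : L} {x : Fin 2 → L} {w : L} {q : Fin 2 → κ} {qw : κ} {𝒜 : Set (Fin 2 → E)} {c : E}
  {B : Subalgebra E L}
theorem db_ch (h2 : (2 : E) ≠ 0) (V : ValuationSubring L) {ψ : L} (hV : DB g s x w ψ V) (c : E) :
    (∀ y ∈ bs g s x w c, y ∈ V) ∧
      ¬ ∀ y ∈ bs g s x w c, ∃ e : E, y - algebraMap E L e ∈ V.nonunits := by
  have hL2 : (2 : L) ≠ 0 := by
    have h := (map_ne_zero (algebraMap E L)).2 h2
    rwa [map_ofNat] at h
  have hhalf : (2 : L)⁻¹ ∈ V := by
    have h := hV.ov (2 : E)⁻¹
    rwa [map_inv₀, map_ofNat] at h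
  have hnot : w - algebraMap κ L s - algebraMap E L c ∉ V := by
    intro h
    apply hV.nots
    have h1 : algebraMap κ L s = (2 : L)⁻¹ * ((w + algebraMap κ L s) -
        (w - algebraMap κ L s - algebraMap E L c) - algebraMap E L c) := by
      field_simp
      ring
    rw [h1]
    exact mul_mem hhalf (sub_mem (sub_mem hV.memv h) (hV.ov c))
  refine ⟨?_, fun h => hV.nc ?_⟩
  · intro y hy
    simp only [bs, Set.mem_insert_iff, Set.mem_singleton_iff] at hy
    rcases hy with rfl | rfl | rfl | rfl | rfl
    · exact hV.memx 0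
    · exact hV.memx 1
    · exact hV.memg
    · exact (V.mem_or_inv_mem _).resolve_left hnot
    · exact hV.memv
  · intro i
    fin_cases i
    · exact h _ (by simp [bs])
    · exact h _ (by simp [bs])

end

end Pool.Agent.RDP

end

section


namespace Pool.Agent.RDP

universe u v w

section

variable {E κ L : Type u} [Field E] [IsAlgClosed E] [Field κ] [Field L] [Algebra E κ] [Algebra κ L]
  [Algebra E L] [IsScalarTower E κ L] {f g : MvPolynomial (Fin 2) E} {t : E} {P : Fin 2 → E} {s : κ}
  {τ : L} {x : Fin 2 → L} {w : L} {q : Fin 2 → κ} {qw : κ} {𝒜 : Set (Fin 2 → E)} {c : E}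
  {B : Subalgebra E L}
theorem tt_psi (hL : LD f g t P s τ x w q qw 𝒜) (V : ValuationSubring L) (hV : TT g s x w V) :
    (τ - 1) / τ ∈ V ∧ ((τ - 1) / τ)⁻¹ ∈ V := by
  have hunit : ∀ y : κ, y ≠ 0 → algebraMap κ L y ∉ V.nonunits := by
    intro y hy hn
    have h0 : algebraMap κ L y ≠ 0 := by
      rw [Ne, map_eq_zero]
      exact hy
    rcases V.mem_nonunits_iff_or.mp hn with h | h
    · exact h0 h
    · apply h
      rw [← map_inv₀]
      exact hV.kap y⁻¹
  have key : V.valuation ((τ - 1) / τ) = 1 → (τ - 1) / τ ∈ V ∧ ((τ - 1) / τ)⁻¹ ∈ V := by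
    intro h
    constructor
    · rw [← V.valuation_le_one_iff, h]
    · rw [← V.valuation_le_one_iff, map_inv₀, h, inv_one]
  apply key
  by_cases h1 : τ ∈ V
  · have h2 : τ ∉ V.nonunits := by
      intro h
      have h3 := (hL.zer V hV.kap h).2
      have h4 := V.nonunits.sub_mem hV.zero h3
      have h5 : w + algebraMap κ L s - (w - algebraMap κ L qw) = algebraMap κ L (qw + s) := by
        rw [map_add]
        ring
      rw [h5] at h4
      exact hunit _ hL.qs h4
    have h6 : τ - 1 ∉ V.nonunits := by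
      intro h
      have h3 := (hL.one V hV.kap h).2
      have h4 := V.nonunits.sub_mem hV.zero h3
      have h5 : w + algebraMap κ L s - (w - algebraMap κ L s) = algebraMap κ L (2 * s) := by
        rw [map_mul, map_ofNat]
        ring
      rw [h5] at h4
      refine hunit _ (mul_ne_zero ?_ ?_) h4
      · have h7 := (map_ne_zero (algebraMap E κ)).mpr hL.two
        rwa [map_ofNat] at h7
      · intro h8
        apply hL.st
        rw [h8]
        exact isAlgebraic_zero
    rw [ValuationSubring.mem_nonunits_iff, not_lt] at h2 h6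
    have h9 : V.valuation τ = 1 := le_antisymm ((V.valuation_le_one_iff τ).mpr h1) h2
    have h10 : V.valuation (τ - 1) = 1 :=
      le_antisymm ((V.valuation_le_one_iff _).mpr (sub_mem h1 V.one_mem)) h6
    rw [map_div₀, h9, h10, div_one]
  · have h0 : τ ≠ 0 := by
      intro h
      apply h1
      rw [h]
      exact V.zero_mem
    have h2 : τ⁻¹ ∈ V.nonunits := V.inv_mem_nonunits_iff.mpr (Or.inr h1)
    rw [ValuationSubring.mem_nonunits_iff] at h2
    have h3 : (τ - 1) / τ = 1 - τ⁻¹ := by
      field_simp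
    rw [h3]
    exact V.valuation.map_one_sub_of_lt h2

end

end Pool.Agent.RDP

end

section


namespace Pool.Agent.RDP

universe u v w

section

variable {E κ L : Type u} [Field E] [IsAlgClosed E] [Field κ] [Field L] [Algebra E κ] [Algebra κ L]
  [Algebra E L] [IsScalarTower E κ L] {f g : MvPolynomial (Fin 2) E} {t : E} {P : Fin 2 → E} {s : κ}
  {τ : L} {x : Fin 2 → L} {w : L} {q : Fin 2 → κ} {qw : κ} {𝒜 : Set (Fin 2 → E)} {c : E}
  {B : Subalgebra E L}
theorem tt_ch (hL : LD f g t P s τ x w q qw 𝒜) (V : ValuationSubring L) (hV : TT g s x w V)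
    (c : E) : (∀ y ∈ bs g s x w c, y ∈ V) ∧
      (¬ ∀ y ∈ bs g s x w c, ∃ e : E, y - algebraMap E L e ∈ V.nonunits) ∧
      vc s w c ∈ V.nonunits ∧ (vc s w c ≠ 0) ∧
      ∀ o : L → ℤ, Dv V o → o (vc s w c) = o (w + algebraMap κ L s) := by
  have hκ : ∀ a : κ, a ≠ 0 → V.valuation (algebraMap κ L a) = 1 := by
    intro a ha
    apply le_antisymm
    · rw [ValuationSubring.valuation_le_one_iff]
      exact hV.kap a
    · have h2 : V.valuation (algebraMap κ L a⁻¹) ≤ 1 := by
        rw [ValuationSubring.valuation_le_one_iff]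
        exact hV.kap _
      have h3 : V.valuation (algebraMap κ L a) * V.valuation (algebraMap κ L a⁻¹) = 1 := by
        rw [← map_mul, ← map_mul, mul_inv_cancel₀ ha, map_one, map_one]
      calc (1 : _) = V.valuation (algebraMap κ L a) * V.valuation (algebraMap κ L a⁻¹) := h3.symm
        _ ≤ V.valuation (algebraMap κ L a) * 1 := by gcongr
        _ = _ := mul_one _
  have hne : ∀ e : E, 2 * s + algebraMap E κ e ≠ 0 := by
    intro e he
    apply hL.st
    have h2 : (2 : κ) ≠ 0 := by
      have := hL.two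
      intro h
      apply this
      apply (algebraMap E κ).injective
      rw [map_ofNat, map_zero]
      exact h
    have hs : s = algebraMap E κ (-(e / 2)) := by
      rw [map_neg, map_div₀, map_ofNat]
      field_simp
      linear_combination he
    rw [hs]
    exact isAlgebraic_algebraMap _
  have hE : ∀ e : E, algebraMap E L e = algebraMap κ L (algebraMap E κ e) := fun e =>
    IsScalarTower.algebraMap_apply E κ L e
  have hwv : V.valuation (w + algebraMap κ L s) < 1 := hV.zero
  have key : ∀ e : E, V.valuation (w - algebraMap κ L s - algebraMap E L e) = 1 := by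
    intro e
    have h1 : w - algebraMap κ L s - algebraMap E L e =
        (w + algebraMap κ L s) - algebraMap κ L (2 * s + algebraMap E κ e) := by
      rw [map_add, map_mul, map_ofNat, ← hE]
      ring
    rw [h1, Valuation.map_sub_eq_of_lt_right]
    · exact hκ _ (hne e)
    · rw [hκ _ (hne e)]
      exact hwv
  have hu0 : w - algebraMap κ L s - algebraMap E L c ≠ 0 := by
    intro h
    have := key c
    rw [h, map_zero] at this
    exact zero_ne_one this
  have hw0 : w + algebraMap κ L s ≠ 0 := (ld_alg hL (one_ne_zero : (1 : E) ≠ 0)).1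
  have hinv : V.valuation (w - algebraMap κ L s - algebraMap E L c)⁻¹ = 1 := by
    rw [map_inv₀, key c, inv_one]
  refine ⟨?_, ?_, ?_, ?_, ?_⟩
  · intro y hy
    simp only [bs, Set.mem_insert_iff, Set.mem_singleton_iff] at hy
    rcases hy with rfl | rfl | rfl | rfl | rfl
    · exact hV.memx 0
    · exact hV.memx 1
    · exact hV.memg
    · rw [← ValuationSubring.valuation_le_one_iff, hinv]
    · exact ValuationSubring.nonunits_subset hV.zero
  · intro h
    obtain ⟨e, he⟩ := h (w - algebraMap κ L s - algebraMap E L c)⁻¹ (by simp [bs])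
    have he0 : e ≠ 0 := by
      rintro rfl
      rw [map_zero, sub_zero, ValuationSubring.mem_nonunits_iff, hinv] at he
      exact lt_irrefl _ he
    rw [ValuationSubring.mem_nonunits_iff] at he
    have he1 : V.valuation (algebraMap E L e) = 1 := by
      rw [hE]
      apply hκ
      simpa using he0
    have he0' : algebraMap E L e ≠ 0 := by simpa using he0
    have h2 : algebraMap κ L (2 * s + algebraMap E κ (c + e⁻¹)) =
        (w + algebraMap κ L s) + ((w - algebraMap κ L s - algebraMap E L c)⁻¹ - algebraMap E L e)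
          * (w - algebraMap κ L s - algebraMap E L c) * (algebraMap E L e)⁻¹ := by
      rw [map_add, map_mul, map_ofNat, ← hE, map_add, map_inv₀]
      field_simp
      ring
    have h3 : V.valuation (algebraMap κ L (2 * s + algebraMap E κ (c + e⁻¹))) < 1 := by
      rw [h2]
      apply Valuation.map_add_lt
      · exact hwv
      · rw [map_mul, map_mul, key c, map_inv₀ V.valuation, he1, inv_one, mul_one, mul_one]
        exact he
    rw [hκ _ (hne _)] at h3
    exact lt_irrefl _ h3
  · rw [ValuationSubring.mem_nonunits_iff, vc, map_mul, key c, mul_one]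
    exact hwv
  · exact mul_ne_zero hw0 hu0
  · intro o ho
    have h1 : o 1 = 0 := by
      have := ho.mul 1 1 one_ne_zero one_ne_zero
      rw [mul_one] at this
      omega
    have h2 : o (w - algebraMap κ L s - algebraMap E L c)
        + o (w - algebraMap κ L s - algebraMap E L c)⁻¹ = 0 := by
      rw [← ho.mul _ _ hu0 (inv_ne_zero hu0), mul_inv_cancel₀ hu0, h1]
    have h3 : 0 ≤ o (w - algebraMap κ L s - algebraMap E L c) := by
      rw [← ho.mem _ hu0, ← ValuationSubring.valuation_le_one_iff, key c]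
    have h4 : 0 ≤ o (w - algebraMap κ L s - algebraMap E L c)⁻¹ := by
      rw [← ho.mem _ (inv_ne_zero hu0), ← ValuationSubring.valuation_le_one_iff, hinv]
    rw [vc, ho.mul _ _ hw0 hu0]
    omega

end

end Pool.Agent.RDP

end

section


namespace Pool.Agent.RDP

universe u v w

section

variable {E κ L : Type u} [Field E] [IsAlgClosed E] [Field κ] [Field L] [Algebra E κ] [Algebra κ L]
  [Algebra E L] [IsScalarTower E κ L] {f g : MvPolynomial (Fin 2) E} {t : E} {P : Fin 2 → E} {s : κ}
  {τ : L} {x : Fin 2 → L} {w : L} {q : Fin 2 → κ} {qw : κ} {𝒜 : Set (Fin 2 → E)} {c : E}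
  {B : Subalgebra E L}
theorem tt_fin (hL : LD f g t P s τ x w q qw 𝒜) : {V : ValuationSubring L | TT g s x w V}.Finite := by
  classical
  obtain ⟨B, hB⟩ := ch_ex hL (one_ne_zero (α := E))
  obtain ⟨-, -, -, -, hvB, -⟩ := ch_mem hL hB
  obtain ⟨h1, h2, -⟩ := ld_alg hL (one_ne_zero (α := E))
  have hv0 : vc s w (1 : E) ≠ 0 := mul_ne_zero h1 h2
  obtain ⟨S, hS⟩ := cur_ex hB.srf (⟨vc s w (1 : E), hvB⟩ : B)
    (fun h => hv0 (congrArg (Subtype.val) h))
  have hex : ∀ V : ValuationSubring L, TT g s x w V →
      ∃ p : PrimeSpectrum B, p ∈ S ∧ At B p.asIdeal V := by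
    intro V hV
    have hE : Ov E V := fun e => by
      rw [IsScalarTower.algebraMap_apply E κ L]
      exact hV.kap _
    obtain ⟨hbs, hnc, hvn, -⟩ := tt_ch hL V hV (1 : E)
    obtain ⟨p, hp, -, hpm, hAt⟩ := ch_at hB V hE hV.top hbs hnc
    have hvp : (⟨vc s w (1 : E), hvB⟩ : B) ∈ p := (hAt.non _).2 hvn
    exact ⟨⟨p, hp⟩, (hS.all ⟨p, hp⟩ hvp).resolve_left hpm, hAt⟩
  choose! F hF using hex
  refine Set.Finite.of_injOn (f := F) (t := (S : Set (PrimeSpectrum B))) (fun V hV => (hF V hV).1) ?_
    S.finite_toSet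
  intro V hV V' hV' h
  have h3 := (hF V hV).2
  have h4 := (hF V' hV').2
  rw [← h] at h4
  exact (at_uniq (p' := (F V).asIdeal) h3).1 h4

end

end Pool.Agent.RDP

end

section


namespace Pool.Agent.RDP

universe u v w

section

variable {E κ L : Type u} [Field E] [IsAlgClosed E] [Field κ] [Field L] [Algebra E κ] [Algebra κ L]
  [Algebra E L] [IsScalarTower E κ L] {f g : MvPolynomial (Fin 2) E} {t : E} {P : Fin 2 → E} {s : κ}
  {τ : L} {x : Fin 2 → L} {w : L} {q : Fin 2 → κ} {qw : κ} {𝒜 : Set (Fin 2 → E)} {c : E}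
  {B : Subalgebra E L}
private theorem d_fin_psi (hL : LD f g t P s τ x w q qw 𝒜) : (τ - 1) / τ ≠ 0 := by
  have h0 : τ ≠ 0 := fun h => hL.tau (h ▸ isAlgebraic_zero)
  have h1 : τ - 1 ≠ 0 := fun h => hL.tau ((sub_eq_zero.mp h) ▸ isAlgebraic_one)
  exact div_ne_zero h1 h0

private theorem d_fin_chart (hL : LD f g t P s τ x w q qw 𝒜) (hc : c ≠ 0) :
    {V : ValuationSubring L | Ov E V ∧ V ≠ ⊤ ∧ (∀ y ∈ bs g s x w c, y ∈ V) ∧
      (¬ ∀ y ∈ bs g s x w c, ∃ e : E, y - algebraMap E L e ∈ V.nonunits) ∧
      ((τ - 1) / τ ∈ V.nonunits ∨ ((τ - 1) / τ)⁻¹ ∈ V.nonunits)}.Finite := by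
  classical
  obtain ⟨B, hB⟩ := ch_ex hL hc
  have hψ := d_fin_psi hL
  obtain ⟨a, ha, b, hb, hb0, hab⟩ := hB.fr ((τ - 1) / τ)
  have ha0 : a ≠ 0 := by
    rw [← hab]
    exact mul_ne_zero hψ hb0
  set a' : B := ⟨a, ha⟩ with ha'
  set b' : B := ⟨b, hb⟩ with hb'
  have hne : a' * b' ≠ 0 := by
    intro h
    have h2 := congrArg (Subtype.val : B → L) h
    simp only [MulMemClass.coe_mul, ZeroMemClass.coe_zero, ha', hb'] at h2
    exact mul_ne_zero ha0 hb0 h2
  obtain ⟨S, hS⟩ := cur_ex hB.srf (a' * b') hne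
  refine Set.Finite.subset (Set.Finite.biUnion (S.finite_toSet)
    (t := fun p => {V : ValuationSubring L | At B p.asIdeal V}) ?_) ?_
  · intro p _
    refine Set.Subsingleton.finite ?_
    intro V hV V' hV'
    exact (at_uniq (p' := p.asIdeal) (V' := V') hV).1 hV'
  · rintro V ⟨hov, htop, hbs, hnc, hpsi⟩
    obtain ⟨p, hp, hp0, hpm, hat⟩ := ch_at hB V hov htop hbs hnc
    have memV : ∀ y : B, (y : L) ∈ V := by
      intro y
      rw [hat.loc]
      refine ⟨y, 1, ?_, by simp⟩
      exact fun h => hp.ne_top ((Ideal.eq_top_iff_one _).mpr h)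
    have hmul : ∀ u ∈ V.nonunits, ∀ v ∈ V, u * v ∈ V.nonunits := by
      intro u hu v hv
      rw [ValuationSubring.mem_nonunits_iff] at hu ⊢
      rw [map_mul]
      have hv' := (V.valuation_le_one_iff v).mpr hv
      calc V.valuation u * V.valuation v ≤ V.valuation u * 1 := by gcongr
        _ = V.valuation u := mul_one _
        _ < 1 := hu
    have hmem : a' * b' ∈ p := by
      rcases hpsi with h | h
      · have : a' ∈ p := by
          rw [hat.non]
          change a ∈ V.nonunits
          rw [← hab]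
          exact hmul _ h _ (memV b')
        exact Ideal.mul_mem_right _ _ this
      · have : b' ∈ p := by
          rw [hat.non]
          change b ∈ V.nonunits
          have hbb : b = ((τ - 1) / τ)⁻¹ * a := by
            rw [← hab, inv_mul_cancel_left₀ hψ]
          rw [hbb]
          exact hmul _ h _ (memV a')
        exact Ideal.mul_mem_left _ _ this
    rcases hS.all ⟨p, hp⟩ hmem with h | h
    · exact absurd h hpm
    · exact Set.mem_biUnion (Finset.mem_coe.mpr h) hat

theorem d_fin (hL : LD f g t P s τ x w q qw 𝒜) :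
    {V : ValuationSubring L | ∃ s', DA g s x w ((τ - 1) / τ) V s'}.Finite ∧
      {V : ValuationSubring L | DB g s x w ((τ - 1) / τ) V}.Finite := by
  have h1 := d_fin_chart hL (one_ne_zero (α := E))
  have h2 := d_fin_chart hL hL.two
  refine ⟨(h1.union h2).subset ?_, h1.subset ?_⟩
  · rintro V ⟨s', hV⟩
    by_cases hm : (w - algebraMap κ L s - algebraMap E L 1)⁻¹ ∈ V
    · left
      have := da_ch V s' hV hm (ld_alg hL one_ne_zero).2.1
      exact ⟨hV.ov, hV.top, this.1, this.2, hV.psi⟩
    · by_cases hm2 : (w - algebraMap κ L s - algebraMap E L 2)⁻¹ ∈ V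
      · right
        have := da_ch V s' hV hm2 (ld_alg hL hL.two).2.1
        exact ⟨hV.ov, hV.top, this.1, this.2, hV.psi⟩
      · exfalso
        have h12 := da_c V s' hV 1 2 hm hm2
        have : (1 : E) = 0 := by linear_combination -h12
        exact one_ne_zero this
  · intro V hV
    have := db_ch hL.two V hV 1
    exact ⟨hV.ov, hV.top, this.1, this.2, hV.psi⟩

end

end Pool.Agent.RDP

end

section


namespace Pool.Agent.RDP

universe u v w

private theorem da_ws_mul {L : Type u} [Field L] {V : ValuationSubring L} {a b : L} (ha : a ∈ V.nonunits)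
    (hb : b ∈ V) : a * b ∈ V.nonunits := by
  rw [ValuationSubring.mem_nonunits_iff] at ha ⊢
  rw [← ValuationSubring.valuation_le_one_iff] at hb
  rw [map_mul]
  exact mul_lt_one_of_lt_of_le ha hb

private theorem da_ws_sub {L : Type u} [Field L] {V : ValuationSubring L} {a b : L} (ha : a ∈ V.nonunits)
    (hb : b ∈ V.nonunits) : a - b ∈ V.nonunits := by
  rw [ValuationSubring.mem_nonunits_iff] at ha hb ⊢
  exact lt_of_le_of_lt (Valuation.map_sub _ _ _) (max_lt ha hb)

private theorem da_ws_mem {L : Type u} [Field L] {V : ValuationSubring L} {a : L} (ha : a ∈ V.nonunits) :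
    a ∈ V := by
  rw [ValuationSubring.mem_nonunits_iff] at ha
  exact (ValuationSubring.valuation_le_one_iff _ _).1 ha.le

private theorem da_ws_inv {L : Type u} [Field L] {V : ValuationSubring L} {a : L} (ha : a ∉ V) :
    a⁻¹ ∈ V.nonunits := by
  have h0 : a ≠ 0 := by
    rintro rfl
    exact ha V.zero_mem
  rw [← ValuationSubring.valuation_le_one_iff, not_le] at ha
  rw [ValuationSubring.mem_nonunits_iff, map_inv₀]
  exact inv_lt_one_of_one_lt₀ ha

private theorem da_ws_not {L : Type u} [Field L] {V : ValuationSubring L} {a : L} (h0 : a ≠ 0)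
    (ha : a ∈ V.nonunits) (h : a⁻¹ ∈ V) : False := by
  have h1 := da_ws_mul ha h
  rw [mul_inv_cancel₀ h0, ValuationSubring.mem_nonunits_iff, map_one] at h1
  exact lt_irrefl _ h1

private theorem da_ws_aeval {E : Type u} {L : Type u} [Field E] [Field L] [Algebra E L] {V : ValuationSubring L}
    (hE : Ov E V) {x : Fin 2 → L} (hx : ∀ i, x i ∈ V) (h : MvPolynomial (Fin 2) E) :
    MvPolynomial.aeval x h ∈ V := by
  induction h using MvPolynomial.induction_on with
  | C a =>
    rw [MvPolynomial.aeval_C]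
    exact hE a
  | add p q hp hq =>
    rw [map_add]
    exact V.add_mem _ _ hp hq
  | mul_X p i hp =>
    rw [map_mul, MvPolynomial.aeval_X]
    exact V.mul_mem _ _ hp (hx i)

section

variable {E κ L : Type u} [Field E] [IsAlgClosed E] [Field κ] [Field L] [Algebra E κ] [Algebra κ L]
  [Algebra E L] [IsScalarTower E κ L] {f g : MvPolynomial (Fin 2) E} {t : E} {P : Fin 2 → E} {s : κ}
  {τ : L} {x : Fin 2 → L} {w : L} {q : Fin 2 → κ} {qw : κ} {𝒜 : Set (Fin 2 → E)} {c : E}
  {B : Subalgebra E L}
theorem da_ws (hL : LD f g t P s τ x w q qw 𝒜) (hnd : ND (f - MvPolynomial.C t * g))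
    (V : ValuationSubring L) :
    (∀ s', DA g s x w ((τ - 1) / τ) V s' → w + algebraMap κ L s ∉ V.nonunits) ∧
      (DB g s x w ((τ - 1) / τ) V →
        MvPolynomial.aeval x (f - MvPolynomial.C t * g) ∉ V.nonunits ∧
        w + algebraMap κ L s ∈ V.nonunits) := by
  refine ⟨fun s' hV hnu => ?_, fun hV => ?_⟩
  · obtain ⟨c, hc, hcV⟩ : ∃ c : E, c ≠ 0 ∧ (w - algebraMap κ L s - algebraMap E L c)⁻¹ ∈ V := by
      by_cases h1 : (w - algebraMap κ L s - algebraMap E L 1)⁻¹ ∈ V
      · exact ⟨1, one_ne_zero, h1⟩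
      · by_cases h2 : (w - algebraMap κ L s - algebraMap E L 2)⁻¹ ∈ V
        · exact ⟨2, hL.two, h2⟩
        · exfalso
          have h3 := da_c V s' hV 1 2 h1 h2
          have h4 : (2 : E) - 1 = 0 := by rw [← h3, sub_self]
          norm_num at h4
    have hc0 := (ld_alg hL hc).2.1
    obtain ⟨hbs, hnc⟩ := da_ch V s' hV hcV hc0
    have hsV : algebraMap κ L s ∈ V := by
      have h1 := V.add_mem _ _ (da_ws_mem hV.at_) (hV.ov s')
      rwa [sub_add_cancel] at h1
    have hv : vc s w c ∈ V.nonunits :=
      da_ws_mul hnu (sub_mem (sub_mem hV.memw hsV) (hV.ov c))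
    have hTT := cls_t hL hc hnd V hV.ov hV.top hbs hnc hv
    have h1 : s - algebraMap E κ s' ≠ 0 := by
      intro h
      apply hL.st
      rw [sub_eq_zero.1 h]
      exact isAlgebraic_algebraMap s'
    have h2 : algebraMap κ L (s - algebraMap E κ s') = algebraMap κ L s - algebraMap E L s' := by
      rw [map_sub, ← IsScalarTower.algebraMap_apply]
    have h3 := hTT.kap (s - algebraMap E κ s')⁻¹
    rw [map_inv₀, h2] at h3
    refine da_ws_not ?_ hV.at_ h3
    rw [← h2]
    exact (map_ne_zero _).2 h1
  · have heq : (w + algebraMap κ L s) * (w - algebraMap κ L s) * MvPolynomial.aeval x g =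
        MvPolynomial.aeval x (f - MvPolynomial.C t * g) := by
      rw [map_sub, map_mul, MvPolynomial.aeval_C]
      linear_combination hL.eq
    have h2V : (algebraMap E L 2)⁻¹ ∈ V := by
      rw [← map_inv₀]
      exact hV.ov _
    have h20 : algebraMap E L 2 ≠ 0 := (map_ne_zero _).2 hL.two
    have hws : w - algebraMap κ L s ∉ V := by
      intro h
      apply hV.nots
      have h1 := V.mul_mem _ _ (sub_mem hV.memv h) h2V
      have h3 : (w + algebraMap κ L s - (w - algebraMap κ L s)) * (algebraMap E L 2)⁻¹ = algebraMap κ L s := by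
        rw [map_ofNat] at h20 ⊢
        field_simp
        ring
      rwa [h3] at h1
    have hws0 : w - algebraMap κ L s ≠ 0 := by
      intro h
      apply hws
      rw [h]
      exact V.zero_mem
    have hG : MvPolynomial.aeval x (f - MvPolynomial.C t * g) ∈ V := da_ws_aeval hV.ov hV.memx _
    have hwsn : w + algebraMap κ L s ∈ V.nonunits := by
      have h1 := da_ws_mul (da_ws_inv hws) (V.mul_mem _ _ hG hV.memg)
      have h3 : (w - algebraMap κ L s)⁻¹ * (MvPolynomial.aeval x (f - MvPolynomial.C t * g) *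
          (MvPolynomial.aeval x g)⁻¹) = w + algebraMap κ L s := by
        rw [← heq]
        have := hL.gx
        field_simp
      rwa [h3] at h1
    refine ⟨fun hGn => ?_, hwsn⟩
    have hv : vc s w (1 : E) ∈ V.nonunits := by
      have h1 := da_ws_sub (da_ws_mul hGn hV.memg) hwsn
      have h3 : MvPolynomial.aeval x (f - MvPolynomial.C t * g) * (MvPolynomial.aeval x g)⁻¹ -
          (w + algebraMap κ L s) = vc s w (1 : E) := by
        rw [← heq, mul_inv_cancel_right₀ hL.gx, vc, map_one]
        ring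
      rwa [h3] at h1
    obtain ⟨hbs, hnc⟩ := db_ch hL.two V hV 1
    have hTT := cls_t hL one_ne_zero hnd V hV.ov hV.top hbs hnc hv
    exact hV.nots (hTT.kap s)

end

end Pool.Agent.RDP

end

section


namespace Pool.Agent.RDP

universe u v w

section

private theorem v0_place {κ : Type v} {L : Type u} [Field κ] [Field L] [Algebra κ L] {τ : L}
    (ht : Transcendental κ τ) (hg : IntermediateField.adjoin κ {τ} = ⊤) (a : κ) :
    ∃ (V : ValuationSubring L) (o : L → ℤ), Dv V o ∧ Ov κ V ∧ V ≠ ⊤ ∧
      τ - algebraMap κ L a ∈ V.nonunits ∧ o (τ - algebraMap κ L a) = 1 ∧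
      (∀ b : κ, b ≠ a → o (τ - algebraMap κ L b) = 0) ∧
      (∀ V' : ValuationSubring L, Ov κ V' → V' ≠ ⊤ → τ - algebraMap κ L a ∈ V'.nonunits →
        V' = V) ∧ (∀ y ∈ V, ∃ e : κ, y - algebraMap κ L e ∈ V.nonunits) := by
  classical
  let _ : Algebra (Polynomial κ) L := (Polynomial.aeval τ).toRingHom.toAlgebra
  have hmap : ∀ p : Polynomial κ, algebraMap (Polynomial κ) L p = Polynomial.aeval τ p :=
    fun p => rfl
  have hinj : Function.Injective (algebraMap (Polynomial κ) L) :=
    transcendental_iff_injective.1 ht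
  have hfr : IsFractionRing (Polynomial κ) L := by
    have : FaithfulSMul (Polynomial κ) L := (faithfulSMul_iff_algebraMap_injective _ _).2 hinj
    refine IsFractionRing.of_field _ _ fun y => ?_
    have hy : y ∈ IntermediateField.adjoin κ {τ} := by rw [hg]; trivial
    obtain ⟨r, s, h⟩ := (IntermediateField.mem_adjoin_simple_iff κ y).1 hy
    exact ⟨r, s, h⟩
  have hpr : Prime (Polynomial.X - Polynomial.C a) := Polynomial.prime_X_sub_C a
  let v : IsDedekindDomain.HeightOneSpectrum (Polynomial κ) :=
    { asIdeal := Ideal.span {Polynomial.X - Polynomial.C a}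
      isPrime := (Ideal.span_singleton_prime hpr.ne_zero).2 hpr
      ne_bot := by
        intro h
        exact hpr.ne_zero (Ideal.span_singleton_eq_bot.1 h) }
  have hmem : ∀ p : Polynomial κ, p ∈ v.asIdeal ↔ p.eval a = 0 := by
    intro p
    change p ∈ Ideal.span {Polynomial.X - Polynomial.C a} ↔ _
    rw [Ideal.mem_span_singleton, Polynomial.dvd_iff_isRoot]
    rfl
  let V : ValuationSubring L := (v.valuation L).valuationSubring
  have hV : ∀ y : L, y ∈ V ↔ v.valuation L y ≤ 1 := fun y => Iff.rfl
  have hVn : ∀ y : L, y ∈ V.nonunits ↔ v.valuation L y < 1 := by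
    intro y
    rw [ValuationSubring.mem_nonunits_iff_or, hV]
    rcases eq_or_ne y 0 with rfl | hy
    · simp
    · have h0 : v.valuation L y ≠ 0 := (Valuation.ne_zero_iff _).2 hy
      simp only [hy, false_or, map_inv₀, not_le]
      exact one_lt_inv₀ (zero_lt_iff.2 h0)
  have hone : ∀ b : κ, b ≠ a → v.valuation L (τ - algebraMap κ L b) = 1 := by
    intro b hb
    have : τ - algebraMap κ L b =
        algebraMap (Polynomial κ) L (Polynomial.X - Polynomial.C b) := by
      rw [hmap]; simp
    rw [this, IsDedekindDomain.HeightOneSpectrum.valuation_eq_one_iff_notMem, hmem]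
    simp only [Polynomial.eval_sub, Polynomial.eval_X, Polynomial.eval_C]
    exact fun h => hb (sub_eq_zero.1 h).symm
  have huni : v.valuation L (τ - algebraMap κ L a) = WithZero.exp (-1 : ℤ) := by
    have : τ - algebraMap κ L a =
        algebraMap (Polynomial κ) L (Polynomial.X - Polynomial.C a) := by
      rw [hmap]; simp
    rw [this, IsDedekindDomain.HeightOneSpectrum.valuation_of_algebraMap]
    exact v.intValuation_singleton hpr.ne_zero rfl
  have hτa : τ - algebraMap κ L a ≠ 0 := by
    intro h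
    rw [h, map_zero] at huni
    exact WithZero.exp_ne_zero huni.symm
  have hκ : ∀ e : κ, algebraMap κ L e = algebraMap (Polynomial κ) L (Polynomial.C e) := by
    intro e; rw [hmap]; simp
  have hOv : Ov κ V := by
    intro e
    rw [hV, hκ, IsDedekindDomain.HeightOneSpectrum.valuation_of_algebraMap]
    exact v.intValuation_le_one _
  have hdv : Dv V (fun y => - WithZero.log (v.valuation L y)) := by
    refine ⟨?_, ?_, ?_⟩
    · intro x y hx hy
      have hx0 : v.valuation L x ≠ 0 := (Valuation.ne_zero_iff _).2 hx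
      have hy0 : v.valuation L y ≠ 0 := (Valuation.ne_zero_iff _).2 hy
      simp only [map_mul, WithZero.log_mul hx0 hy0]
      ring
    · intro x hx
      have hx0 : v.valuation L x ≠ 0 := (Valuation.ne_zero_iff _).2 hx
      rw [hV]
      simp only [Left.nonneg_neg_iff]
      rw [WithZero.log_le_iff_le_exp hx0, WithZero.exp_zero]
    · exact ⟨_, hτa, by simp only [huni, WithZero.log_exp]; norm_num⟩
  have hnon : τ - algebraMap κ L a ∈ V.nonunits := by
    rw [hVn, huni, ← WithZero.exp_zero, WithZero.exp_lt_exp]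
    norm_num
  have htop : V ≠ ⊤ := by
    intro h
    have h1 : (τ - algebraMap κ L a)⁻¹ ∈ V := by rw [h]; trivial
    rcases (ValuationSubring.mem_nonunits_iff_or V).1 hnon with h2 | h2
    · exact hτa h2
    · exact h2 h1
  refine ⟨V, fun y => - WithZero.log (v.valuation L y), hdv, hOv, htop, hnon, ?_, ?_, ?_, ?_⟩
  · simp only [huni, WithZero.log_exp]; norm_num
  · intro b hb
    simp only [hone b hb, WithZero.log_one, neg_zero]
  · intro V' hκV' hV't hnV'
    have hτV' : τ ∈ V' := by
      have h1 := V'.nonunits_subset hnV'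
      have h2 := V'.add_mem _ _ h1 (hκV' a)
      simpa using h2
    have hpol : ∀ p : Polynomial κ, Polynomial.aeval τ p ∈ V' := by
      intro p
      induction p using Polynomial.induction_on' with
      | add p q hp hq => rw [map_add]; exact V'.add_mem _ _ hp hq
      | monomial n c =>
        rw [Polynomial.aeval_monomial]
        exact V'.mul_mem _ _ (hκV' c) (pow_mem hτV' n)
    have hpi : ∀ p : Polynomial κ, p.eval a ≠ 0 → (Polynomial.aeval τ p)⁻¹ ∈ V' := by
      intro p hp
      by_contra hcon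
      have h1 : Polynomial.aeval τ p ∈ V'.nonunits :=
        (ValuationSubring.mem_nonunits_iff_or V').2 (Or.inr hcon)
      have h2 : (Polynomial.X - Polynomial.C a) ∣ p - Polynomial.C (p.eval a) := by
        rw [Polynomial.dvd_iff_isRoot]
        simp [Polynomial.IsRoot]
      obtain ⟨r, hr⟩ := h2
      have h3 : Polynomial.aeval τ p - algebraMap κ L (p.eval a) =
          (τ - algebraMap κ L a) * Polynomial.aeval τ r := by
        have := congrArg (Polynomial.aeval τ) hr
        simpa using this
      have h4 : (τ - algebraMap κ L a) * Polynomial.aeval τ r ∈ V'.nonunits := by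
        rw [ValuationSubring.mem_nonunits_iff] at hnV' ⊢
        rw [map_mul]
        exact mul_lt_one_of_lt_of_le hnV' ((V'.valuation_le_one_iff _).2 (hpol r))
      have h5 : algebraMap κ L (p.eval a) ∈ V'.nonunits := by
        have : algebraMap κ L (p.eval a) = Polynomial.aeval τ p -
            (τ - algebraMap κ L a) * Polynomial.aeval τ r := by rw [← h3]; ring
        rw [this]
        rw [ValuationSubring.mem_nonunits_iff] at h1 h4 ⊢
        exact (Valuation.map_sub _ _ _).trans_lt (max_lt h1 h4)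
      rcases (ValuationSubring.mem_nonunits_iff_or V').1 h5 with h6 | h6
      · exact hp ((map_eq_zero _).1 h6)
      · apply h6
        rw [← map_inv₀]
        exact hκV' _
    refine (dv_max V V' _ hdv ?_ hV't).symm
    intro y hy
    obtain ⟨n, d, hnd⟩ := v.exists_primeCompl_mul_eq_of_integer y ((hV y).1 hy)
    have hd : (d : Polynomial κ).eval a ≠ 0 := fun h => d.2 ((hmem _).2 h)
    have hd0 : Polynomial.aeval τ (d : Polynomial κ) ≠ 0 := by
      intro h
      apply hd
      have : (d : Polynomial κ) = 0 := hinj (by rw [hmap, h, map_zero])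
      rw [this]; simp
    have : y = Polynomial.aeval τ n * (Polynomial.aeval τ (d : Polynomial κ))⁻¹ := by
      rw [eq_mul_inv_iff_mul_eq₀ hd0]
      exact hnd
    rw [this]
    exact V'.mul_mem _ _ (hpol n) (hpi _ hd)
  · intro y hy
    obtain ⟨n, d, hnd⟩ := v.exists_primeCompl_mul_eq_of_integer y ((hV y).1 hy)
    have hd : (d : Polynomial κ).eval a ≠ 0 := fun h => d.2 ((hmem _).2 h)
    refine ⟨n.eval a / (d : Polynomial κ).eval a, ?_⟩
    rw [hVn]
    have hvd : v.valuation L (algebraMap (Polynomial κ) L d) = 1 := by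
      rw [IsDedekindDomain.HeightOneSpectrum.valuation_eq_one_iff_notMem]
      exact d.2
    have h1 : (y - algebraMap κ L (n.eval a / (d : Polynomial κ).eval a)) *
        algebraMap (Polynomial κ) L d =
        algebraMap (Polynomial κ) L
          (n - Polynomial.C (n.eval a / (d : Polynomial κ).eval a) * d) := by
      rw [sub_mul, hnd, map_sub, map_mul, hκ]
    have h2 : v.valuation L ((y - algebraMap κ L (n.eval a / (d : Polynomial κ).eval a)) *
        algebraMap (Polynomial κ) L d) < 1 := by
      rw [h1, IsDedekindDomain.HeightOneSpectrum.valuation_lt_one_iff_mem, hmem]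
      simp only [Polynomial.eval_sub, Polynomial.eval_mul, Polynomial.eval_C]
      field_simp
      ring
    rwa [map_mul, hvd, mul_one] at h2

end

section

variable {E κ L : Type u} [Field E] [IsAlgClosed E] [Field κ] [Field L] [Algebra E κ] [Algebra κ L]
  [Algebra E L] [IsScalarTower E κ L] {f g : MvPolynomial (Fin 2) E} {t : E} {P : Fin 2 → E} {s : κ}
  {τ : L} {x : Fin 2 → L} {w : L} {q : Fin 2 → κ} {qw : κ} {𝒜 : Set (Fin 2 → E)} {c : E}
  {B : Subalgebra E L}
theorem v0 (hL : LD f g t P s τ x w q qw 𝒜) :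
    ∃ (V : ValuationSubring L) (o : L → ℤ), Dv V o ∧ Ov κ V ∧ Ov E V ∧ V ≠ ⊤ ∧ τ ∈ V.nonunits ∧
      o ((τ - 1) / τ) = -1 ∧ (∀ V' : ValuationSubring L, Ov κ V' → V' ≠ ⊤ → τ ∈ V'.nonunits →
        V' = V) ∧ ∀ y ∈ V, ∃ e : κ, y - algebraMap κ L e ∈ V.nonunits := by
  obtain ⟨V, o, hdv, hκ, hVt, hn, ho1, ho0, huniq, hres⟩ := v0_place hL.tau hL.gen (0 : κ)
  rw [map_zero, sub_zero] at hn ho1
  have hOE : Ov E V := fun e => by
    rw [IsScalarTower.algebraMap_apply E κ L e]; exact hκ _
  have hτ0 : τ ≠ 0 := by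
    rintro rfl
    exact hL.tau (isAlgebraic_zero)
  have hτ1 : τ - 1 ≠ 0 := by
    intro h
    apply hL.tau
    have : τ = algebraMap κ L 1 := by rw [map_one]; exact sub_eq_zero.1 h
    rw [this]
    exact isAlgebraic_algebraMap _
  have hoτ : o (τ - 1) = 0 := by
    have := ho0 1 (one_ne_zero)
    rwa [map_one] at this
  have ho : o ((τ - 1) / τ) = -1 := by
    have hq : (τ - 1) / τ ≠ 0 := div_ne_zero hτ1 hτ0
    have h1 := hdv.mul ((τ - 1) / τ) τ hq hτ0
    rw [div_mul_cancel₀ _ hτ0, ho1, hoτ] at h1
    linarith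
  refine ⟨V, o, hdv, hκ, hOE, hVt, hn, ho, ?_, hres⟩
  intro V' h1 h2 h3
  exact huniq V' h1 h2 (by rw [map_zero, sub_zero]; exact h3)

end

end Pool.Agent.RDP

end

section


namespace Pool.Agent.RDP

universe u v w

section

private theorem v1_place {κ : Type v} {L : Type u} [Field κ] [Field L] [Algebra κ L] {τ : L}
    (ht : Transcendental κ τ) (hg : IntermediateField.adjoin κ {τ} = ⊤) (a : κ) :
    ∃ (V : ValuationSubring L) (o : L → ℤ), Dv V o ∧ Ov κ V ∧ V ≠ ⊤ ∧
      τ - algebraMap κ L a ∈ V.nonunits ∧ o (τ - algebraMap κ L a) = 1 ∧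
      (∀ b : κ, b ≠ a → o (τ - algebraMap κ L b) = 0) ∧
      (∀ V' : ValuationSubring L, Ov κ V' → V' ≠ ⊤ → τ - algebraMap κ L a ∈ V'.nonunits →
        V' = V) ∧ (∀ y ∈ V, ∃ e : κ, y - algebraMap κ L e ∈ V.nonunits) := by
  classical
  let _ : Algebra (Polynomial κ) L := (Polynomial.aeval τ).toRingHom.toAlgebra
  have hmap : ∀ p : Polynomial κ, algebraMap (Polynomial κ) L p = Polynomial.aeval τ p :=
    fun p => rfl
  have hinj : Function.Injective (algebraMap (Polynomial κ) L) :=
    transcendental_iff_injective.1 ht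
  have hfr : IsFractionRing (Polynomial κ) L := by
    have : FaithfulSMul (Polynomial κ) L := (faithfulSMul_iff_algebraMap_injective _ _).2 hinj
    refine IsFractionRing.of_field _ _ fun y => ?_
    have hy : y ∈ IntermediateField.adjoin κ {τ} := by rw [hg]; trivial
    obtain ⟨r, s, h⟩ := (IntermediateField.mem_adjoin_simple_iff κ y).1 hy
    exact ⟨r, s, h⟩
  have hpr : Prime (Polynomial.X - Polynomial.C a) := Polynomial.prime_X_sub_C a
  let v : IsDedekindDomain.HeightOneSpectrum (Polynomial κ) :=
    { asIdeal := Ideal.span {Polynomial.X - Polynomial.C a}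
      isPrime := (Ideal.span_singleton_prime hpr.ne_zero).2 hpr
      ne_bot := by
        intro h
        exact hpr.ne_zero (Ideal.span_singleton_eq_bot.1 h) }
  have hmem : ∀ p : Polynomial κ, p ∈ v.asIdeal ↔ p.eval a = 0 := by
    intro p
    change p ∈ Ideal.span {Polynomial.X - Polynomial.C a} ↔ _
    rw [Ideal.mem_span_singleton, Polynomial.dvd_iff_isRoot]
    rfl
  let V : ValuationSubring L := (v.valuation L).valuationSubring
  have hV : ∀ y : L, y ∈ V ↔ v.valuation L y ≤ 1 := fun y => Iff.rfl
  have hVn : ∀ y : L, y ∈ V.nonunits ↔ v.valuation L y < 1 := by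
    intro y
    rw [ValuationSubring.mem_nonunits_iff_or, hV]
    rcases eq_or_ne y 0 with rfl | hy
    · simp
    · have h0 : v.valuation L y ≠ 0 := (Valuation.ne_zero_iff _).2 hy
      simp only [hy, false_or, map_inv₀, not_le]
      exact one_lt_inv₀ (zero_lt_iff.2 h0)
  have hone : ∀ b : κ, b ≠ a → v.valuation L (τ - algebraMap κ L b) = 1 := by
    intro b hb
    have : τ - algebraMap κ L b =
        algebraMap (Polynomial κ) L (Polynomial.X - Polynomial.C b) := by
      rw [hmap]; simp
    rw [this, IsDedekindDomain.HeightOneSpectrum.valuation_eq_one_iff_notMem, hmem]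
    simp only [Polynomial.eval_sub, Polynomial.eval_X, Polynomial.eval_C]
    exact fun h => hb (sub_eq_zero.1 h).symm
  have huni : v.valuation L (τ - algebraMap κ L a) = WithZero.exp (-1 : ℤ) := by
    have : τ - algebraMap κ L a =
        algebraMap (Polynomial κ) L (Polynomial.X - Polynomial.C a) := by
      rw [hmap]; simp
    rw [this, IsDedekindDomain.HeightOneSpectrum.valuation_of_algebraMap]
    exact v.intValuation_singleton hpr.ne_zero rfl
  have hτa : τ - algebraMap κ L a ≠ 0 := by
    intro h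
    rw [h, map_zero] at huni
    exact WithZero.exp_ne_zero huni.symm
  have hκ : ∀ e : κ, algebraMap κ L e = algebraMap (Polynomial κ) L (Polynomial.C e) := by
    intro e; rw [hmap]; simp
  have hOv : Ov κ V := by
    intro e
    rw [hV, hκ, IsDedekindDomain.HeightOneSpectrum.valuation_of_algebraMap]
    exact v.intValuation_le_one _
  have hdv : Dv V (fun y => - WithZero.log (v.valuation L y)) := by
    refine ⟨?_, ?_, ?_⟩
    · intro x y hx hy
      have hx0 : v.valuation L x ≠ 0 := (Valuation.ne_zero_iff _).2 hx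
      have hy0 : v.valuation L y ≠ 0 := (Valuation.ne_zero_iff _).2 hy
      simp only [map_mul, WithZero.log_mul hx0 hy0]
      ring
    · intro x hx
      have hx0 : v.valuation L x ≠ 0 := (Valuation.ne_zero_iff _).2 hx
      rw [hV]
      simp only [Left.nonneg_neg_iff]
      rw [WithZero.log_le_iff_le_exp hx0, WithZero.exp_zero]
    · exact ⟨_, hτa, by simp only [huni, WithZero.log_exp]; norm_num⟩
  have hnon : τ - algebraMap κ L a ∈ V.nonunits := by
    rw [hVn, huni, ← WithZero.exp_zero, WithZero.exp_lt_exp]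
    norm_num
  have htop : V ≠ ⊤ := by
    intro h
    have h1 : (τ - algebraMap κ L a)⁻¹ ∈ V := by rw [h]; trivial
    rcases (ValuationSubring.mem_nonunits_iff_or V).1 hnon with h2 | h2
    · exact hτa h2
    · exact h2 h1
  refine ⟨V, fun y => - WithZero.log (v.valuation L y), hdv, hOv, htop, hnon, ?_, ?_, ?_, ?_⟩
  · simp only [huni, WithZero.log_exp]; norm_num
  · intro b hb
    simp only [hone b hb, WithZero.log_one, neg_zero]
  · intro V' hκV' hV't hnV'
    have hτV' : τ ∈ V' := by
      have h1 := V'.nonunits_subset hnV'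
      have h2 := V'.add_mem _ _ h1 (hκV' a)
      simpa using h2
    have hpol : ∀ p : Polynomial κ, Polynomial.aeval τ p ∈ V' := by
      intro p
      induction p using Polynomial.induction_on' with
      | add p q hp hq => rw [map_add]; exact V'.add_mem _ _ hp hq
      | monomial n c =>
        rw [Polynomial.aeval_monomial]
        exact V'.mul_mem _ _ (hκV' c) (pow_mem hτV' n)
    have hpi : ∀ p : Polynomial κ, p.eval a ≠ 0 → (Polynomial.aeval τ p)⁻¹ ∈ V' := by
      intro p hp
      by_contra hcon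
      have h1 : Polynomial.aeval τ p ∈ V'.nonunits :=
        (ValuationSubring.mem_nonunits_iff_or V').2 (Or.inr hcon)
      have h2 : (Polynomial.X - Polynomial.C a) ∣ p - Polynomial.C (p.eval a) := by
        rw [Polynomial.dvd_iff_isRoot]
        simp [Polynomial.IsRoot]
      obtain ⟨r, hr⟩ := h2
      have h3 : Polynomial.aeval τ p - algebraMap κ L (p.eval a) =
          (τ - algebraMap κ L a) * Polynomial.aeval τ r := by
        have := congrArg (Polynomial.aeval τ) hr
        simpa using this
      have h4 : (τ - algebraMap κ L a) * Polynomial.aeval τ r ∈ V'.nonunits := by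
        rw [ValuationSubring.mem_nonunits_iff] at hnV' ⊢
        rw [map_mul]
        exact mul_lt_one_of_lt_of_le hnV' ((V'.valuation_le_one_iff _).2 (hpol r))
      have h5 : algebraMap κ L (p.eval a) ∈ V'.nonunits := by
        have : algebraMap κ L (p.eval a) = Polynomial.aeval τ p -
            (τ - algebraMap κ L a) * Polynomial.aeval τ r := by rw [← h3]; ring
        rw [this]
        rw [ValuationSubring.mem_nonunits_iff] at h1 h4 ⊢
        exact (Valuation.map_sub _ _ _).trans_lt (max_lt h1 h4)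
      rcases (ValuationSubring.mem_nonunits_iff_or V').1 h5 with h6 | h6
      · exact hp ((map_eq_zero _).1 h6)
      · apply h6
        rw [← map_inv₀]
        exact hκV' _
    refine (dv_max V V' _ hdv ?_ hV't).symm
    intro y hy
    obtain ⟨n, d, hnd⟩ := v.exists_primeCompl_mul_eq_of_integer y ((hV y).1 hy)
    have hd : (d : Polynomial κ).eval a ≠ 0 := fun h => d.2 ((hmem _).2 h)
    have hd0 : Polynomial.aeval τ (d : Polynomial κ) ≠ 0 := by
      intro h
      apply hd
      have : (d : Polynomial κ) = 0 := hinj (by rw [hmap, h, map_zero])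
      rw [this]; simp
    have : y = Polynomial.aeval τ n * (Polynomial.aeval τ (d : Polynomial κ))⁻¹ := by
      rw [eq_mul_inv_iff_mul_eq₀ hd0]
      exact hnd
    rw [this]
    exact V'.mul_mem _ _ (hpol n) (hpi _ hd)
  · intro y hy
    obtain ⟨n, d, hnd⟩ := v.exists_primeCompl_mul_eq_of_integer y ((hV y).1 hy)
    have hd : (d : Polynomial κ).eval a ≠ 0 := fun h => d.2 ((hmem _).2 h)
    refine ⟨n.eval a / (d : Polynomial κ).eval a, ?_⟩
    rw [hVn]
    have hvd : v.valuation L (algebraMap (Polynomial κ) L d) = 1 := by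
      rw [IsDedekindDomain.HeightOneSpectrum.valuation_eq_one_iff_notMem]
      exact d.2
    have h1 : (y - algebraMap κ L (n.eval a / (d : Polynomial κ).eval a)) *
        algebraMap (Polynomial κ) L d =
        algebraMap (Polynomial κ) L
          (n - Polynomial.C (n.eval a / (d : Polynomial κ).eval a) * d) := by
      rw [sub_mul, hnd, map_sub, map_mul, hκ]
    have h2 : v.valuation L ((y - algebraMap κ L (n.eval a / (d : Polynomial κ).eval a)) *
        algebraMap (Polynomial κ) L d) < 1 := by
      rw [h1, IsDedekindDomain.HeightOneSpectrum.valuation_lt_one_iff_mem, hmem]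
      simp only [Polynomial.eval_sub, Polynomial.eval_mul, Polynomial.eval_C]
      field_simp
      ring
    rwa [map_mul, hvd, mul_one] at h2

end

section

variable {E κ L : Type u} [Field E] [IsAlgClosed E] [Field κ] [Field L] [Algebra E κ] [Algebra κ L]
  [Algebra E L] [IsScalarTower E κ L] {f g : MvPolynomial (Fin 2) E} {t : E} {P : Fin 2 → E} {s : κ}
  {τ : L} {x : Fin 2 → L} {w : L} {q : Fin 2 → κ} {qw : κ} {𝒜 : Set (Fin 2 → E)} {c : E}
  {B : Subalgebra E L}
theorem v1 (hL : LD f g t P s τ x w q qw 𝒜) :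
    ∃ (V : ValuationSubring L) (o : L → ℤ), Dv V o ∧ Ov κ V ∧ Ov E V ∧ V ≠ ⊤ ∧ τ - 1 ∈ V.nonunits ∧
      o ((τ - 1) / τ) = 1 ∧ (∀ V' : ValuationSubring L, Ov κ V' → V' ≠ ⊤ → τ - 1 ∈ V'.nonunits →
        V' = V) ∧ (∀ y ∈ V, ∃ e : κ, y - algebraMap κ L e ∈ V.nonunits) ∧
      ∀ c : E, c ≠ 0 → (∀ y ∈ bs g s x w c, y ∈ V) ∧
        ¬ ∀ y ∈ bs g s x w c, ∃ e : E, y - algebraMap E L e ∈ V.nonunits := by
  obtain ⟨V, o, hdv, hκ, hVt, hn, ho1, ho0, huniq, hres⟩ := v1_place hL.tau hL.gen (1 : κ)
  rw [map_one] at hn ho1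
  have hEκ : ∀ e : E, algebraMap E L e = algebraMap κ L (algebraMap E κ e) :=
    fun e => IsScalarTower.algebraMap_apply E κ L e
  have hOE : Ov E V := fun e => by rw [hEκ]; exact hκ _
  -- τ is a unit
  have hτ0 : τ ≠ 0 := by
    rintro rfl
    exact hL.tau (isAlgebraic_zero)
  have hτ1 : τ - 1 ≠ 0 := by
    intro h
    apply hL.tau
    have : τ = algebraMap κ L 1 := by rw [map_one]; exact sub_eq_zero.1 h
    rw [this]
    exact isAlgebraic_algebraMap _
  have hoτ : o τ = 0 := by
    have := ho0 0 (zero_ne_one)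
    rwa [map_zero, sub_zero] at this
  have ho : o ((τ - 1) / τ) = 1 := by
    have hq : (τ - 1) / τ ≠ 0 := div_ne_zero hτ1 hτ0
    have h1 := hdv.mul ((τ - 1) / τ) τ hq hτ0
    rw [div_mul_cancel₀ _ hτ0, ho1, hoτ, add_zero] at h1
    exact h1.symm
  obtain ⟨hx, hw⟩ := hL.one V hκ hn
  refine ⟨V, o, hdv, hκ, hOE, hVt, hn, ho, ?_, hres, ?_⟩
  · intro V' h1 h2 h3
    exact huniq V' h1 h2 (by rw [map_one]; exact h3)
  -- constants which are nonunits vanish
  have hzero : ∀ e : κ, algebraMap κ L e ∈ V.nonunits → e = 0 := by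
    intro e he
    by_contra hne
    rcases (ValuationSubring.mem_nonunits_iff_or V).1 he with h6 | h6
    · exact hne ((map_eq_zero _).1 h6)
    · apply h6
      rw [← map_inv₀]
      exact hκ _
  have hsub : ∀ y z : L, y ∈ V.nonunits → z ∈ V.nonunits → y - z ∈ V.nonunits := by
    intro y z hy hz
    rw [ValuationSubring.mem_nonunits_iff] at hy hz ⊢
    exact (Valuation.map_sub _ _ _).trans_lt (max_lt hy hz)
  have hadd : ∀ y z : L, y ∈ V.nonunits → z ∈ V.nonunits → y + z ∈ V.nonunits := by
    intro y z hy hz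
    rw [ValuationSubring.mem_nonunits_iff] at hy hz ⊢
    exact (Valuation.map_add _ _ _).trans_lt (max_lt hy hz)
  have hmul : ∀ y z : L, y ∈ V.nonunits → z ∈ V → y * z ∈ V.nonunits := by
    intro y z hy hz
    rw [ValuationSubring.mem_nonunits_iff] at hy ⊢
    rw [map_mul]
    exact mul_lt_one_of_lt_of_le hy ((V.valuation_le_one_iff _).2 hz)
  have hxV : ∀ i, x i ∈ V := by
    intro i
    have h1 := V.add_mem _ _ (V.nonunits_subset (hx i)) (hOE (P i))
    simpa using h1
  have hpol : ∀ p : MvPolynomial (Fin 2) E, MvPolynomial.aeval x p ∈ V ∧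
      MvPolynomial.aeval x p - algebraMap E L (MvPolynomial.eval P p) ∈ V.nonunits := by
    intro p
    induction p using MvPolynomial.induction_on with
    | C a =>
      refine ⟨?_, ?_⟩
      · rw [MvPolynomial.aeval_C]; exact hOE a
      · rw [MvPolynomial.aeval_C, MvPolynomial.eval_C, sub_self]
        exact (ValuationSubring.mem_nonunits_iff_or V).2 (Or.inl rfl)
    | add p q hp hq =>
      refine ⟨?_, ?_⟩
      · rw [map_add]; exact V.add_mem _ _ hp.1 hq.1
      · have := hadd _ _ hp.2 hq.2
        rw [map_add, map_add, map_add]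
        convert this using 1
        ring
    | mul_X p i hp =>
      refine ⟨?_, ?_⟩
      · rw [map_mul, MvPolynomial.aeval_X]; exact V.mul_mem _ _ hp.1 (hxV i)
      · have := hadd _ _ (hmul _ _ hp.2 (hxV i)) (hmul _ _ (hx i)
          (hOE (MvPolynomial.eval P p)))
        rw [map_mul, map_mul, map_mul, MvPolynomial.aeval_X, MvPolynomial.eval_X]
        convert this using 1
        ring
  have hginv : (MvPolynomial.aeval x g)⁻¹ ∈ V := by
    by_contra hcon
    have h1 : MvPolynomial.aeval x g ∈ V.nonunits :=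
      (ValuationSubring.mem_nonunits_iff_or V).2 (Or.inr hcon)
    have h2 := hsub _ _ h1 (hpol g).2
    rw [sub_sub_cancel, hEκ] at h2
    have h3 := hzero _ h2
    exact hL.gP ((map_eq_zero _).1 h3)
  intro c hc
  have hwc : (w - algebraMap κ L s - algebraMap E L c)⁻¹ ∈ V := by
    by_contra hcon
    have h1 : w - algebraMap κ L s - algebraMap E L c ∈ V.nonunits :=
      (ValuationSubring.mem_nonunits_iff_or V).2 (Or.inr hcon)
    have h2 := hsub _ _ hw h1
    rw [sub_sub_cancel, hEκ] at h2
    exact hc ((map_eq_zero _).1 (hzero _ h2))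
  have hwV : w ∈ V := by
    have h1 := V.add_mem _ _ (V.nonunits_subset hw) (hκ s)
    simpa using h1
  refine ⟨?_, ?_⟩
  · intro y hy
    simp only [bs, Set.mem_insert_iff, Set.mem_singleton_iff] at hy
    rcases hy with rfl | rfl | rfl | rfl | rfl
    · exact hxV 0
    · exact hxV 1
    · exact hginv
    · exact hwc
    · exact V.add_mem _ _ hwV (hκ s)
  · intro hall
    obtain ⟨e, he⟩ := hall (w + algebraMap κ L s) (by
      simp [bs])
    have h1 := hsub _ _ he hw
    have h2 : w + algebraMap κ L s - algebraMap E L e - (w - algebraMap κ L s) =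
        algebraMap κ L (2 * s - algebraMap E κ e) := by
      rw [map_sub, map_mul, map_ofNat, hEκ]
      ring
    rw [h2] at h1
    have h3 := hzero _ h1
    apply hL.st
    have h4 : s = algebraMap E κ (e / 2) := by
      rw [map_div₀, map_ofNat]
      have h5 : (2 : κ) ≠ 0 := by
        intro h
        apply hL.two
        apply (algebraMap E κ).injective
        rw [map_ofNat, map_zero]
        exact h
      field_simp
      linear_combination h3
    rw [h4]
    exact isAlgebraic_algebraMap _

end

end Pool.Agent.RDP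

end
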