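import Pool.Agent.RDM.Ld

/-!
# Residue fields and principal divisors
-/

set_option autoImplicit false

namespace Pool.Agent.RDP

universe u

/-- `π : V → K` is the residue field of `V`, as a field over `E` -/
structure Rp (E : Type u) {L : Type u} [Field E] [Field L] [Algebra E L] (V : ValuationSubring L)
    (K : Type u) [Field K] [Algebra E K] (π : V →+* K) : Prop where
  surj : Function.Surjective π
  ker : ∀ y : V, π y = 0 ↔ (y : L) ∈ V.nonunits
  alg : ∀ (e : E) (h : algebraMap E L e ∈ V), π ⟨algebraMap E L e, h⟩ = algebraMap E K e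

/-- the divisor `D` on the good points of the curve `G = 0` is principal -/
def Pri {E : Type u} [Field E] (G g : MvPolynomial (Fin 2) E) (D : (Fin 2 → E) → ℤ) : Prop :=
  ∃ R₁ R₂ : MvPolynomial (Fin 2) E, ¬ G ∣ R₁ ∧ ¬ G ∣ R₂ ∧ ∀ Q, Gp G g Q →
    D Q = ((oQ G R₁ Q).toNat : ℤ) - (oQ G R₂ Q).toNat

end Pool.Agent.RDP
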