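import Pool.Agent.RDM.Dv
import Pool.Agent.RDM.Len
import Pool.Agent.RDM.A2
import Pool.Agent.RDM.A1
import Pool.Agent.RDM.Lc
import Pool.Agent.RDM.Ld
import Pool.Agent.RDM.A3

/-!
# The cycles of the charts
-/

set_option autoImplicit false

section


namespace Pool.Agent.RDP

universe u v w

section

private theorem oQ_dv_len {B : Type u} [CommRing B] [IsDomain B] (p : Ideal B) [p.IsPrime] (b : B) :
    len p (B ⧸ Ideal.span {b}) = Ring.ord (Localization.AtPrime p) (algebraMap B _ b) := by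
  have h1 := IsLocalizedModule.toLocalizedQuotient' (Localization.AtPrime p) p.primeCompl
    (Algebra.linearMap B (Localization.AtPrime p)) (Ideal.span {b})
  have e := (IsLocalizedModule.linearEquiv p.primeCompl (LocalizedModule.mkLinearMap p.primeCompl (B ⧸ Ideal.span {b}))
    (Submodule.toLocalizedQuotient' (Localization.AtPrime p) p.primeCompl
      (Algebra.linearMap B (Localization.AtPrime p)) (Ideal.span {b}))).extendScalarsOfIsLocalization p.primeCompl (Localization.AtPrime p)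
  have h2 : Submodule.localized' (Localization.AtPrime p) p.primeCompl
      (Algebra.linearMap B (Localization.AtPrime p)) (Ideal.span {b}) =
        Ideal.span {algebraMap B (Localization.AtPrime p) b} := by
    rw [Ideal.localized'_eq_map, Ideal.map_span, Set.image_singleton]
  rw [len, e.length_eq, Ring.ord, h2]

private theorem oQ_dv_gen (A : Type u) (L : Type v) [CommRing A] [IsDomain A] [IsDiscreteValuationRing A] [Field L] [Algebra A L]
    [IsFractionRing A L] : ∃ (V : ValuationSubring L) (o : L → ℤ), Dv V o ∧ V ≠ ⊤ ∧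
      (∀ x : L, x ∈ V ↔ ∃ a : A, algebraMap A L a = x) ∧
      ∀ a : A, a ≠ 0 → ((Ring.ord A a).toNat : ℤ) = o (algebraMap A L a) := by
  have hor : ∀ x : L, x ∈ (algebraMap A L).range ∨ x⁻¹ ∈ (algebraMap A L).range := fun x =>
    ValuationRing.isInteger_or_isInteger A x
  obtain ⟨ϖ, hϖ⟩ := IsDiscreteValuationRing.exists_irreducible A
  have hord : ∀ a : A, a ≠ 0 → ((Ring.ord A a).toNat : ℤ) = WithZero.log (Ring.ordFrac A (algebraMap A L a)) := by
    intro a ha
    have ha' : a ∈ nonZeroDivisors A := mem_nonZeroDivisors_of_ne_zero ha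
    have h1 : Ring.ord A a = (Ring.ord A a).toNat := (ENat.natCast_toNat (Ring.ord_ne_top ha')).symm
    rw [Ring.ordFrac_eq_ord A ha, Ring.ordMonoidWithZeroHom_eq_coe A ha' h1]
    rfl
  have hϖ0 : algebraMap A L ϖ ≠ 0 := by
    rw [Ne, FaithfulSMul.algebraMap_eq_zero_iff]
    exact hϖ.ne_zero
  refine ⟨ValuationSubring.ofSubring (algebraMap A L).range hor, fun x => WithZero.log (Ring.ordFrac A x), ?_, ?_, ?_, hord⟩
  · refine ⟨fun x y hx hy => ?_, fun x hx => ?_, algebraMap A L ϖ, hϖ0, ?_⟩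
    · show WithZero.log (Ring.ordFrac A (x * y)) = WithZero.log (Ring.ordFrac A x) + WithZero.log (Ring.ordFrac A y)
      rw [map_mul, WithZero.log_mul ((map_ne_zero _).2 hx) ((map_ne_zero _).2 hy)]
    · rw [ValuationSubring.mem_ofSubring]
      constructor
      · rintro ⟨a, rfl⟩
        have ha : a ≠ 0 := by
          rintro rfl
          exact hx (map_zero _)
        rw [← hord a ha]
        positivity
      · intro h
        rcases hor x with h1 | ⟨a, ha⟩
        · exact h1
        · have ha0 : a ≠ 0 := by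
            rintro rfl
            rw [map_zero] at ha
            exact inv_ne_zero hx ha.symm
          have h2 := hord a ha0
          rw [ha, map_inv₀, WithZero.log_inv] at h2
          have h3 : (Ring.ord A a).toNat = 0 := by omega
          have h4 : Ring.ord A a = 0 := by
            rw [← ENat.natCast_toNat (Ring.ord_ne_top (mem_nonZeroDivisors_of_ne_zero ha0)), h3]
            rfl
          have h5 : IsUnit a := by
            rw [Ring.ord, Module.length_eq_zero_iff, Ideal.Quotient.subsingleton_iff,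
              Ideal.span_singleton_eq_top] at h4
            exact h4
          obtain ⟨u, hu⟩ := h5
          refine ⟨(u⁻¹ : Aˣ), ?_⟩
          have h6 : algebraMap A L (u⁻¹ : Aˣ) * x⁻¹ = 1 := by
            rw [← ha, ← hu, ← map_mul, Units.inv_mul, map_one]
          exact (mul_inv_eq_one₀ hx).1 h6
    · show WithZero.log (Ring.ordFrac A (algebraMap A L ϖ)) = 1
      rw [← hord ϖ hϖ.ne_zero, Ring.ord_of_irreducible hϖ]
      rfl
  · intro h
    have h1 : (algebraMap A L ϖ)⁻¹ ∈ ValuationSubring.ofSubring (algebraMap A L).range hor := by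
      rw [h]
      exact ValuationSubring.mem_top _
    rw [ValuationSubring.mem_ofSubring] at h1
    obtain ⟨a, ha⟩ := h1
    apply hϖ.not_isUnit
    refine IsUnit.of_mul_eq_one a (FaithfulSMul.algebraMap_injective A L ?_)
    rw [map_mul, ha, mul_inv_cancel₀ hϖ0, map_one]
  · intro x
    rw [ValuationSubring.mem_ofSubring]
    rfl

private theorem oQ_dv_main {B : Type u} {L : Type v} [CommRing B] [IsDomain B]
    [Field L] [Algebra B L] [IsFractionRing B L]
    (p : Ideal B) [p.IsPrime] [IsDomain (Localization.AtPrime p)]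
    [IsDiscreteValuationRing (Localization.AtPrime p)] :
    ∃ (V : ValuationSubring L) (o : L → ℤ), Dv V o ∧ V ≠ ⊤ ∧
      (∀ x : L, x ∈ V ↔ ∃ a b : B, b ∉ p ∧ x * algebraMap B L b = algebraMap B L a) ∧
      (∀ b : B, algebraMap B L b ∈ V.nonunits ↔ b ∈ p) ∧
      ∀ b : B, b ≠ 0 → len p (B ⧸ Ideal.span {b}) ≠ ⊤ ∧
        ((len p (B ⧸ Ideal.span {b})).toNat : ℤ) = o (algebraMap B L b) := by
  have hu : ∀ y : p.primeCompl, IsUnit (algebraMap B L y) := by
    intro y
    rw [isUnit_iff_ne_zero, Ne, FaithfulSMul.algebraMap_eq_zero_iff]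
    intro h
    apply y.2
    rw [h]
    exact p.zero_mem
  let _ : Algebra (Localization.AtPrime p) L := (IsLocalization.lift hu).toAlgebra
  have htow : IsScalarTower B (Localization.AtPrime p) L := IsScalarTower.of_algebraMap_eq fun x =>
    (IsLocalization.lift_eq hu x).symm
  have hfrac : IsFractionRing (Localization.AtPrime p) L :=
    IsFractionRing.isFractionRing_of_isDomain_of_isLocalization p.primeCompl (Localization.AtPrime p) L
  obtain ⟨V, o, hV, hVt, hmem, ho⟩ := oQ_dv_gen (Localization.AtPrime p) L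
  have hinj : Function.Injective (algebraMap B (Localization.AtPrime p)) :=
    IsLocalization.injective _ p.primeCompl_le_nonZeroDivisors
  have hin : ∀ b : B, b ≠ 0 → algebraMap B L b ≠ 0 := fun b hb => by
    rwa [Ne, FaithfulSMul.algebraMap_eq_zero_iff]
  have hmem' : ∀ x : L, x ∈ V ↔ ∃ a b : B, b ∉ p ∧ x * algebraMap B L b = algebraMap B L a := by
    intro x
    rw [hmem]
    constructor
    · rintro ⟨y, rfl⟩
      obtain ⟨⟨a, s⟩, has⟩ := IsLocalization.surj p.primeCompl y
      refine ⟨a, s, s.2, ?_⟩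
      rw [IsScalarTower.algebraMap_apply B (Localization.AtPrime p) L s, ← map_mul, has,
        ← IsScalarTower.algebraMap_apply]
    · rintro ⟨a, b, hb, hab⟩
      refine ⟨IsLocalization.mk' _ a (⟨b, hb⟩ : p.primeCompl), ?_⟩
      have hb0 : b ≠ 0 := by
        rintro rfl
        exact hb p.zero_mem
      apply mul_right_cancel₀ (hin b hb0)
      rw [hab, IsScalarTower.algebraMap_apply B (Localization.AtPrime p) L b, ← map_mul,
        IsLocalization.mk'_spec (Localization.AtPrime p) a (⟨b, hb⟩ : p.primeCompl),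
        ← IsScalarTower.algebraMap_apply]
  refine ⟨V, o, hV, hVt, hmem', fun b => ?_, fun b hb => ?_⟩
  · rw [ValuationSubring.mem_nonunits_iff]
    have hbV : algebraMap B L b ∈ V := (hmem' _).2 ⟨b, 1, p.primeCompl.one_mem, by rw [map_one, mul_one]⟩
    constructor
    · intro h
      by_contra hbp
      have hb0 : b ≠ 0 := by
        rintro rfl
        exact hbp p.zero_mem
      have h1 : (algebraMap B L b)⁻¹ ∈ V := (hmem' _).2 ⟨1, b, hbp, by rw [inv_mul_cancel₀ (hin b hb0), map_one]⟩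
      rw [← ValuationSubring.valuation_le_one_iff, map_inv₀] at h1
      have h2 : V.valuation (algebraMap B L b) ≠ 0 := (map_ne_zero _).2 (hin b hb0)
      exact absurd h (not_lt.2 ((inv_le_one₀ (zero_lt_iff.2 h2)).1 h1))
    · intro h
      by_contra h1
      rw [not_lt] at h1
      have h2 : algebraMap B L b ≠ 0 := by
        intro h0
        rw [h0, map_zero] at h1
        exact absurd h1 (not_le.2 zero_lt_one)
      have h3 : (algebraMap B L b)⁻¹ ∈ V := by
        rw [← ValuationSubring.valuation_le_one_iff, map_inv₀]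
        exact inv_le_one_of_one_le₀ h1
      obtain ⟨a, c, hc, hac⟩ := (hmem' _).1 h3
      apply hc
      have h4 : c = b * a := by
        apply FaithfulSMul.algebraMap_injective B L
        rw [map_mul, ← hac, mul_inv_cancel_left₀ h2]
      rw [h4]
      exact p.mul_mem_right _ h
  · have h0 : algebraMap B (Localization.AtPrime p) b ≠ 0 := (map_ne_zero_iff _ hinj).2 hb
    rw [oQ_dv_len]
    exact ⟨Ring.ord_ne_top (mem_nonZeroDivisors_of_ne_zero h0), by
      rw [ho _ h0, ← IsScalarTower.algebraMap_apply]⟩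

private theorem oQ_dv_equiv {E : Type u} [Field E] (G h : MvPolynomial (Fin 2) E) :
    Nonempty ((MvPolynomial (Fin 2) E ⧸ Ideal.span {G, h}) ≃ₗ[MvPolynomial (Fin 2) E]
      ((MvPolynomial (Fin 2) E ⧸ Ideal.span {G}) ⧸
        Ideal.span {Ideal.Quotient.mk (Ideal.span {G}) h})) := by
  have hs : Function.Surjective (Algebra.linearMap (MvPolynomial (Fin 2) E)
      ((MvPolynomial (Fin 2) E ⧸ Ideal.span {G}) ⧸
        Ideal.span {Ideal.Quotient.mk (Ideal.span {G}) h})) := by
    intro y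
    obtain ⟨y1, rfl⟩ := Ideal.Quotient.mk_surjective y
    obtain ⟨y2, rfl⟩ := Ideal.Quotient.mk_surjective y1
    exact ⟨y2, rfl⟩
  have hk : Ideal.span {G, h} = LinearMap.ker (Algebra.linearMap (MvPolynomial (Fin 2) E)
      ((MvPolynomial (Fin 2) E ⧸ Ideal.span {G}) ⧸
        Ideal.span {Ideal.Quotient.mk (Ideal.span {G}) h})) := by
    ext r
    rw [LinearMap.mem_ker, Ideal.mem_span_pair]
    have h1 : Algebra.linearMap (MvPolynomial (Fin 2) E)
      ((MvPolynomial (Fin 2) E ⧸ Ideal.span {G}) ⧸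
        Ideal.span {Ideal.Quotient.mk (Ideal.span {G}) h}) r =
        Ideal.Quotient.mk (Ideal.span {Ideal.Quotient.mk (Ideal.span {G}) h})
          (Ideal.Quotient.mk (Ideal.span {G}) r) := rfl
    rw [h1, Ideal.Quotient.eq_zero_iff_mem, Ideal.mem_span_singleton']
    constructor
    · rintro ⟨a, b, rfl⟩
      refine ⟨Ideal.Quotient.mk _ b, ?_⟩
      rw [map_add, map_mul, map_mul, Ideal.Quotient.eq_zero_iff_mem.2 (Ideal.mem_span_singleton_self G),
        mul_zero, zero_add]
    · rintro ⟨c, hc⟩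
      obtain ⟨c, rfl⟩ := Ideal.Quotient.mk_surjective c
      rw [← map_mul, eq_comm, Ideal.Quotient.eq, Ideal.mem_span_singleton'] at hc
      obtain ⟨a, ha⟩ := hc
      exact ⟨a, c, by rw [ha]; ring⟩
  exact ⟨(Submodule.quotEquivOfEq _ _ hk).trans (LinearMap.quotKerEquivOfSurjective _ hs)⟩

private theorem oQ_dv_val {E F : Type u} [Field E] [Field F] [Algebra E F] (x : Fin 2 → F)
    (Q : Fin 2 → E) (V' : ValuationSubring F) (hE : Ov E V')
    (hV' : ∀ i, x i - algebraMap E F (Q i) ∈ V'.nonunits) (h : MvPolynomial (Fin 2) E) :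
    V'.valuation (MvPolynomial.aeval x h) ≤ 1 ∧
      V'.valuation (MvPolynomial.aeval x h - algebraMap E F (MvPolynomial.eval Q h)) < 1 := by
  have hE1 : ∀ e : E, V'.valuation (algebraMap E F e) ≤ 1 := fun e =>
    (ValuationSubring.valuation_le_one_iff _ _).2 (hE e)
  have hx0 : ∀ i, V'.valuation (x i - algebraMap E F (Q i)) < 1 := fun i =>
    (ValuationSubring.mem_nonunits_iff V').1 (hV' i)
  have hx1 : ∀ i, V'.valuation (x i) ≤ 1 := fun i => by
    have := V'.valuation.map_add_le (hx0 i).le (hE1 (Q i))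
    rwa [sub_add_cancel] at this
  induction h using MvPolynomial.induction_on with
  | C a =>
    rw [MvPolynomial.aeval_C, MvPolynomial.eval_C, sub_self, map_zero]
    exact ⟨hE1 a, zero_lt_one⟩
  | add p q hp hq =>
    have h0 := V'.valuation.map_add_le hp.1 hq.1
    have h1 := V'.valuation.map_add_lt hp.2 hq.2
    rw [← map_add] at h0
    rw [sub_add_sub_comm, ← map_add, ← map_add, ← map_add] at h1
    exact ⟨h0, h1⟩
  | mul_X p i hp =>
    have e1 : MvPolynomial.aeval x (p * MvPolynomial.X i) = MvPolynomial.aeval x p * x i := by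
      rw [map_mul, MvPolynomial.aeval_X]
    have e2 : MvPolynomial.eval Q (p * MvPolynomial.X i) = MvPolynomial.eval Q p * Q i := by
      rw [map_mul, MvPolynomial.eval_X]
    rw [e1, e2]
    refine ⟨by rw [map_mul]; exact mul_le_one' hp.1 (hx1 i), ?_⟩
    have h1 : MvPolynomial.aeval x p * x i - algebraMap E F (MvPolynomial.eval Q p * Q i) =
        MvPolynomial.aeval x p * (x i - algebraMap E F (Q i)) +
          (MvPolynomial.aeval x p - algebraMap E F (MvPolynomial.eval Q p)) *
            algebraMap E F (Q i) := by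
      rw [map_mul]
      ring
    rw [h1]
    refine V'.valuation.map_add_lt ?_ ?_
    · rw [map_mul]
      exact (mul_le_of_le_one_left' hp.1).trans_lt (hx0 i)
    · rw [map_mul]
      exact (mul_le_of_le_one_right' (hE1 _)).trans_lt hp.2

theorem oQ_dv {E F : Type u} [Field E] [IsAlgClosed E] [Field F] [Algebra E F]
    (G g : MvPolynomial (Fin 2) E) (hG : Irreducible G) (x : Fin 2 → F)
    (hx : ∀ h : MvPolynomial (Fin 2) E, MvPolynomial.aeval x h = 0 ↔ G ∣ h)
    (hgen : IntermediateField.adjoin E (Set.range x) = ⊤) (Q : Fin 2 → E) (hQ : Gp G g Q) :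
    ∃ (V : ValuationSubring F) (o : F → ℤ), Dv V o ∧ V ≠ ⊤ ∧ Ov E V ∧
      (∀ i, x i - algebraMap E F (Q i) ∈ V.nonunits) ∧
      (∀ y : F, y ∈ V ↔ ∃ a b : MvPolynomial (Fin 2) E, MvPolynomial.eval Q b ≠ 0 ∧
        y * MvPolynomial.aeval x b = MvPolynomial.aeval x a) ∧
      (∀ V' : ValuationSubring F, Ov E V' → V' ≠ ⊤ →
        (∀ i, x i - algebraMap E F (Q i) ∈ V'.nonunits) → V' = V) ∧
      ∀ h : MvPolynomial (Fin 2) E, ¬ G ∣ h → oQ G h Q ≠ ⊤ ∧
        ((oQ G h Q).toNat : ℤ) = o (MvPolynomial.aeval x h) := by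
  have hGp : (Ideal.span {G}).IsPrime := (Ideal.span_singleton_prime hG.ne_zero).2 hG.prime
  have hle : Ideal.span {G} ≤ mQ Q := by
    rw [Ideal.span_singleton_le_iff_mem, mem_mQ]
    exact hQ.1
  have hlift : ∀ a ∈ Ideal.span {G}, (MvPolynomial.aeval x : MvPolynomial (Fin 2) E →ₐ[E] F).toRingHom a = 0 :=
    fun a ha => (hx a).2 (Ideal.mem_span_singleton.1 ha)
  let _ : Algebra (MvPolynomial (Fin 2) E ⧸ Ideal.span {G}) F :=
    (Ideal.Quotient.lift (Ideal.span {G}) (MvPolynomial.aeval x : MvPolynomial (Fin 2) E →ₐ[E] F).toRingHom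
      hlift).toAlgebra
  have hmk : ∀ a : MvPolynomial (Fin 2) E, algebraMap (MvPolynomial (Fin 2) E ⧸ Ideal.span {G}) F
      (Ideal.Quotient.mk (Ideal.span {G}) a) = MvPolynomial.aeval x a := fun a => rfl
  have hinj : Function.Injective (algebraMap (MvPolynomial (Fin 2) E ⧸ Ideal.span {G}) F) := by
    rw [injective_iff_map_eq_zero]
    intro y hy
    obtain ⟨a, rfl⟩ := Ideal.Quotient.mk_surjective y
    rw [hmk] at hy
    exact Ideal.Quotient.eq_zero_iff_mem.2 (Ideal.mem_span_singleton.2 ((hx a).1 hy))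
  have hfa : FaithfulSMul (MvPolynomial (Fin 2) E ⧸ Ideal.span {G}) F :=
    (faithfulSMul_iff_algebraMap_injective _ _).2 hinj
  have hfr : IsFractionRing (MvPolynomial (Fin 2) E ⧸ Ideal.span {G}) F := by
    refine IsFractionRing.of_field _ _ fun z => ?_
    have hz : z ∈ IntermediateField.adjoin E (Set.range x) := by
      rw [hgen]
      exact IntermediateField.mem_top
    rw [IntermediateField.mem_adjoin_range_iff] at hz
    obtain ⟨r, s, hrs⟩ := hz
    exact ⟨Ideal.Quotient.mk _ r, Ideal.Quotient.mk _ s, hrs⟩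
  have hm : (Ideal.map (Ideal.Quotient.mk (Ideal.span {G})) (mQ Q)).IsPrime :=
    Ideal.map_isPrime_of_surjective Ideal.Quotient.mk_surjective (by rwa [Ideal.mk_ker])
  have hcm : Ideal.comap (Ideal.Quotient.mk (Ideal.span {G}))
      (Ideal.map (Ideal.Quotient.mk (Ideal.span {G})) (mQ Q)) = mQ Q := by
    rw [Ideal.comap_map_of_surjective' _ Ideal.Quotient.mk_surjective, Ideal.mk_ker, sup_eq_left.2 hle]
  have hmm : ∀ a : MvPolynomial (Fin 2) E, Ideal.Quotient.mk (Ideal.span {G}) a ∈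
      Ideal.map (Ideal.Quotient.mk (Ideal.span {G})) (mQ Q) ↔ MvPolynomial.eval Q a = 0 := by
    intro a
    rw [← Ideal.mem_comap, hcm, mem_mQ]
  have hdom : IsDomain (Localization.AtPrime (Ideal.map (Ideal.Quotient.mk (Ideal.span {G})) (mQ Q))) :=
    IsLocalization.isDomain_localization (Ideal.primeCompl_le_nonZeroDivisors _)
  have hdvr : IsDiscreteValuationRing
      (Localization.AtPrime (Ideal.map (Ideal.Quotient.mk (Ideal.span {G})) (mQ Q))) :=
    smooth G hG Q hQ.1 hQ.2.2 _ rfl _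
  obtain ⟨V, o, hV, hVt, hmem, hnon, ho⟩ := oQ_dv_main (L := F)
    (Ideal.map (Ideal.Quotient.mk (Ideal.span {G})) (mQ Q))
  have hmem' : ∀ y : F, y ∈ V ↔ ∃ a b : MvPolynomial (Fin 2) E, MvPolynomial.eval Q b ≠ 0 ∧
        y * MvPolynomial.aeval x b = MvPolynomial.aeval x a := by
    intro y
    rw [hmem]
    constructor
    · rintro ⟨a, b, hb, hab⟩
      obtain ⟨a, rfl⟩ := Ideal.Quotient.mk_surjective a
      obtain ⟨b, rfl⟩ := Ideal.Quotient.mk_surjective b
      exact ⟨a, b, fun h => hb ((hmm b).2 h), hab⟩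
    · rintro ⟨a, b, hb, hab⟩
      exact ⟨Ideal.Quotient.mk _ a, Ideal.Quotient.mk _ b, fun h => hb ((hmm b).1 h), hab⟩
  refine ⟨V, o, hV, hVt, fun e => ?_, fun i => ?_, hmem', fun V' hE' hV't hV' => ?_, fun h hGh => ?_⟩
  · rw [hmem']
    refine ⟨MvPolynomial.C e, 1, by rw [map_one]; exact one_ne_zero, ?_⟩
    rw [map_one, mul_one, MvPolynomial.aeval_C]
  · have h1 := (hnon (Ideal.Quotient.mk _ (MvPolynomial.X i - MvPolynomial.C (Q i)))).2 ((hmm _).2 (by
      rw [map_sub, MvPolynomial.eval_X, MvPolynomial.eval_C, sub_self]))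
    rwa [hmk, map_sub, MvPolynomial.aeval_X, MvPolynomial.aeval_C] at h1
  · refine (dv_max V V' o hV (fun y hy => ?_) hV't).symm
    obtain ⟨a, b, hb, hab⟩ := (hmem' y).1 hy
    have hval := oQ_dv_val x Q V' hE' hV'
    have hc : V'.valuation (algebraMap E F (MvPolynomial.eval Q b)) = 1 := by
      have h1 := (ValuationSubring.valuation_le_one_iff V' _).2 (hE' (MvPolynomial.eval Q b))
      have h2 := (ValuationSubring.valuation_le_one_iff V' _).2 (hE' (MvPolynomial.eval Q b)⁻¹)
      rw [map_inv₀, map_inv₀] at h2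
      refine le_antisymm h1 ?_
      have h3 : V'.valuation (algebraMap E F (MvPolynomial.eval Q b)) ≠ 0 := by
        rw [Ne, map_eq_zero, map_eq_zero]
        exact hb
      exact (inv_le_one₀ (zero_lt_iff.2 h3)).1 h2
    have hb1 : V'.valuation (MvPolynomial.aeval x b) = 1 := by
      rw [← hc]
      apply Valuation.map_eq_of_sub_lt
      rw [hc]
      exact (hval b).2
    rw [← ValuationSubring.valuation_le_one_iff]
    have h4 := (hval a).1
    rwa [← hab, map_mul, hb1, mul_one] at h4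
  · have hb0 : Ideal.Quotient.mk (Ideal.span {G}) h ≠ 0 := by
      rw [Ne, Ideal.Quotient.eq_zero_iff_mem, Ideal.mem_span_singleton]
      exact hGh
    obtain ⟨e⟩ := oQ_dv_equiv G h
    have h1 : oQ G h Q = len (Ideal.map (Ideal.Quotient.mk (Ideal.span {G})) (mQ Q))
        ((MvPolynomial (Fin 2) E ⧸ Ideal.span {G}) ⧸
          Ideal.span {Ideal.Quotient.mk (Ideal.span {G}) h}) := by
      rw [oQ, len_equiv (mQ Q) e]
      exact len_surj (Ideal.Quotient.mk_surjective) _ _ hcm.symm _
    rw [h1]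
    exact ho _ hb0

end

end Pool.Agent.RDP

end

section


namespace Pool.Agent.RDP

universe u v w

section

open Polynomial in
private theorem tcon_norm {E K D : Type u} [Field E] [Field K] [CommRing D] [IsDomain D]
    [Algebra E D] [Algebra E[X] D] [IsScalarTower E E[X] D] [Module.Finite E[X] D]
    [FaithfulSMul E[X] D] [Algebra E K] [Algebra D K] [IsFractionRing D K] [IsScalarTower E D K]
    (a b : D) (ha : a ≠ 0) (hb : b ≠ 0)
    (hW : ∀ W : ValuationSubring K, Ov E W → algebraMap D K (algebraMap E[X] D X) ∉ W →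
      algebraMap D K a / algebraMap D K b ∈ W) :
    (Algebra.norm E[X] a).natDegree ≤ (Algebra.norm E[X] b).natDegree := by
  classical
  let _ : Algebra E[X] K := ((algebraMap D K).comp (algebraMap E[X] D)).toAlgebra
  have : IsScalarTower E[X] D K := IsScalarTower.of_algebraMap_eq fun _ => rfl
  have hinjD : Function.Injective (algebraMap D K) := IsFractionRing.injective D K
  have hinjX : Function.Injective (algebraMap E[X] D) := FaithfulSMul.algebraMap_injective _ _
  have hinj : Function.Injective (algebraMap E[X] K) := hinjD.comp hinjX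
  let _ : Algebra (RatFunc E) K := (IsFractionRing.lift (A := E[X]) (K := RatFunc E) hinj).toAlgebra
  have : IsScalarTower E[X] (RatFunc E) K := IsScalarTower.of_algebraMap_eq fun p =>
    (IsFractionRing.lift_algebraMap (A := E[X]) (K := RatFunc E) hinj p).symm
  have : Algebra.IsIntegral E[X] D := Algebra.IsIntegral.of_finite _ _
  have : Algebra.IsAlgebraic E[X] D := Algebra.IsIntegral.isAlgebraic
  have : Algebra.IsAlgebraic E[X] K := by
    have : Algebra.IsAlgebraic D K := IsLocalization.isAlgebraic _ (nonZeroDivisors D)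
    exact Algebra.IsAlgebraic.trans E[X] D K
  have : Algebra.IsAlgebraic (RatFunc E) K :=
    Algebra.IsAlgebraic.extendScalars (R := E[X]) (IsFractionRing.injective E[X] (RatFunc E))
  have : Algebra.IsIntegral (RatFunc E) K := inferInstance
  have : Module.Free E[X] D := by
    have : Module.IsTorsionFree E[X] D := inferInstance
    infer_instance
  set ψ : K := algebraMap D K a / algebraMap D K b with hψ
  have hna : Algebra.norm (RatFunc E) (algebraMap D K a) =
      algebraMap E[X] (RatFunc E) (Algebra.norm E[X] a) :=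
    Algebra.norm_localization E[X] (nonZeroDivisors E[X]) a
  have hnb : Algebra.norm (RatFunc E) (algebraMap D K b) =
      algebraMap E[X] (RatFunc E) (Algebra.norm E[X] b) :=
    Algebra.norm_localization E[X] (nonZeroDivisors E[X]) b
  have hna0 : Algebra.norm E[X] a ≠ 0 :=
    (Algebra.norm_ne_zero_iff_of_basis (Module.Free.chooseBasis E[X] D)).mpr ha
  have hnb0 : Algebra.norm E[X] b ≠ 0 :=
    (Algebra.norm_ne_zero_iff_of_basis (Module.Free.chooseBasis E[X] D)).mpr hb
  have hnab : Algebra.norm (RatFunc E) ψ = algebraMap E[X] (RatFunc E) (Algebra.norm E[X] a) /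
      algebraMap E[X] (RatFunc E) (Algebra.norm E[X] b) := by
    have hnb1 : algebraMap E[X] (RatFunc E) (Algebra.norm E[X] b) ≠ 0 := by
      rw [Ne, map_eq_zero_iff _ (IsFractionRing.injective E[X] (RatFunc E))]
      exact hnb0
    have hb1 : algebraMap D K b ≠ 0 := by
      rw [Ne, map_eq_zero_iff _ hinjD]
      exact hb
    rw [eq_div_iff hnb1, ← hna, ← hnb, ← map_mul, hψ, div_mul_cancel₀ _ hb1]
  -- the ring of the place at infinity
  let O := (RatFunc.inftyValuation E).integer
  have hint : IsIntegral O ψ := by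
    by_contra hc
    have hc' : ψ ∉ (integralClosure O K).toSubring := hc
    have : IsIntegrallyClosedIn (integralClosure O K).toSubring K :=
      inferInstanceAs (IsIntegrallyClosedIn (integralClosure O K) K)
    obtain ⟨V, hV, hx⟩ := Subring.exists_le_valuationSubring_of_isIntegrallyClosedIn hc'
    have hOV : ∀ f : RatFunc E, RatFunc.inftyValuation E f ≤ 1 → algebraMap (RatFunc E) K f ∈ V := by
      intro f hf
      exact hV ((integralClosure O K).algebraMap_mem (⟨f, hf⟩ : O))
    have hEV : Ov E V := by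
      intro e
      have h1 := hOV (algebraMap E[X] (RatFunc E) (C e)) (by
        by_cases he : e = 0
        · simp [he]
        · rw [RatFunc.algebraMap_C, RatFunc.inftyValuation.C _ he])
      have h2 : algebraMap (RatFunc E) K (algebraMap E[X] (RatFunc E) (C e)) = algebraMap E K e := by
        rw [← IsScalarTower.algebraMap_apply E[X] (RatFunc E) K,
          IsScalarTower.algebraMap_apply E[X] D K, IsScalarTower.algebraMap_apply E D K,
          IsScalarTower.algebraMap_apply E E[X] D]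
        rfl
      rwa [h2] at h1
    by_cases hy : algebraMap D K (algebraMap E[X] D X) ∈ V
    · have hy' : algebraMap (RatFunc E) K RatFunc.X ∈ V := by
        have h2 : algebraMap (RatFunc E) K (algebraMap E[X] (RatFunc E) X) =
            algebraMap D K (algebraMap E[X] D X) := by
          rw [← IsScalarTower.algebraMap_apply E[X] (RatFunc E) K,
            IsScalarTower.algebraMap_apply E[X] D K]
        rw [RatFunc.algebraMap_X] at h2
        rw [h2]
        exact hy
      have hF : ∀ f : RatFunc E, algebraMap (RatFunc E) K f ∈ V := by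
        intro f
        by_cases hf : f = 0
        · rw [hf, map_zero]
          exact V.zero_mem
        have hX : (RatFunc.X : RatFunc E) ≠ 0 := RatFunc.X_ne_zero
        have h3 : RatFunc.inftyValuation E (f / RatFunc.X ^ (f.intDegree.toNat)) ≤ 1 := by
          rw [map_div₀, map_pow, RatFunc.inftyValuation.X, RatFunc.inftyValuation_apply,
            RatFunc.inftyValuation_of_nonzero _ hf, ← WithZero.exp_nsmul, ← WithZero.exp_sub,
            ← WithZero.exp_zero, WithZero.exp_le_exp]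
          simp only [nsmul_eq_mul, mul_one]
          omega
        have h4 := hOV _ h3
        have h5 : f = f / RatFunc.X ^ (f.intDegree.toNat) * RatFunc.X ^ (f.intDegree.toNat) := by
          field_simp
        rw [h5, map_mul, map_pow]
        exact V.mul_mem _ _ h4 (pow_mem hy' _)
      let _ : Algebra (RatFunc E) V := ((algebraMap (RatFunc E) K).codRestrict V.toSubring hF).toAlgebra
      have : IsScalarTower (RatFunc E) V K := IsScalarTower.of_algebraMap_eq fun _ => rfl
      have h6 : IsIntegral (RatFunc E) ψ := Algebra.IsIntegral.isIntegral ψ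
      have h7 : IsIntegral V ψ := h6.tower_top
      obtain ⟨z, hz⟩ := (IsIntegrallyClosedIn.isIntegral_iff (R := V) (A := K)).mp h7
      exact hx (hz ▸ z.2)
    · exact hx (hW V hEV hy)
  have hn := Algebra.isIntegral_norm (RatFunc E) hint
  have hn1 : RatFunc.inftyValuation E (Algebra.norm (RatFunc E) ψ) ≤ 1 :=
    (Valuation.integer.integers (RatFunc.inftyValuation E)).isIntegral_iff_v_le_one.mp hn
  rw [hnab, map_div₀, RatFunc.inftyValuation_apply, RatFunc.inftyValuation_apply,
    RatFunc.inftyValuation.polynomial _ hna0, RatFunc.inftyValuation.polynomial _ hnb0,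
    ← WithZero.exp_sub, ← WithZero.exp_zero, WithZero.exp_le_exp] at hn1
  omega

open Polynomial in
private theorem tcon_fin {E D : Type u} [Field E] [CommRing D] [IsDomain D]
    [Algebra E D] [Algebra E[X] D] [IsScalarTower E E[X] D] [Module.Finite E[X] D]
    [FaithfulSMul E[X] D] (a : D) (ha : a ≠ 0) :
    Module.length E (D ⧸ Ideal.span {a}) = ((Algebra.norm E[X] a).natDegree : ℕ∞) := by
  have : Module.Free E[X] D := by
    have : Module.IsTorsionFree E[X] D := inferInstance
    infer_instance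
  let b := Module.Free.chooseBasis E[X] D
  have hI : Ideal.span {a} ≠ ⊥ := Ideal.span_singleton_eq_bot.not.2 ha
  have hfin : Module.Finite E (D ⧸ Ideal.span {a}) :=
    Module.Finite.equiv (Ideal.quotientEquivDirectSum E b hI).symm
  rw [Module.length_eq_finrank, finrank_quotient_span_eq_natDegree_norm b ha]

theorem tcon {E K D : Type u} [Field E] [IsAlgClosed E] [Field K] [Algebra E K] [CommRing D]
    [IsDomain D] [Algebra E D] [Algebra (MvPolynomial (Fin 2) E) D]
    [IsScalarTower E (MvPolynomial (Fin 2) E) D] [Algebra D K] [IsFractionRing D K]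
    [IsScalarTower E D K] (hft : Algebra.FiniteType E D) (Q : Fin 2 → E)
    (hxD : ∀ i, algebraMap (MvPolynomial (Fin 2) E) D (MvPolynomial.X i) = algebraMap E D (Q i))
    (y : D) (hy : ∀ d : D, IsIntegral (Algebra.adjoin E {y}) d) (hyt : Transcendental E y)
    (a b : D) (ha : a ≠ 0) (hb : b ≠ 0)
    (hW : ∀ W : ValuationSubring K, Ov E W → algebraMap D K y ∉ W →
      algebraMap D K a / algebraMap D K b ∈ W ∧ algebraMap D K b / algebraMap D K a ∈ W) :
    len (mQ Q) (D ⧸ Ideal.span {a}) ≠ ⊤ ∧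
      len (mQ Q) (D ⧸ Ideal.span {a}) = len (mQ Q) (D ⧸ Ideal.span {b}) := by
  classical
  let A := Algebra.adjoin E {y}
  let yA : A := ⟨y, Algebra.subset_adjoin rfl⟩
  let _ : Algebra (Polynomial E) D := (Polynomial.aeval (R := E) y).toRingHom.toAlgebra
  let _ : Algebra (Polynomial E) A := (Polynomial.aeval (R := E) yA).toRingHom.toAlgebra
  have hX : algebraMap (Polynomial E) D Polynomial.X = y := Polynomial.aeval_X y
  have : IsScalarTower E (Polynomial E) D := IsScalarTower.of_algebraMap_eq fun e =>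
    ((Polynomial.aeval (R := E) y).commutes e).symm
  have : IsScalarTower (Polynomial E) A D := IsScalarTower.of_algebraMap_eq fun p => by
    change Polynomial.aeval y p = ((Polynomial.aeval yA p : A) : D)
    exact (Polynomial.aeval_subalgebra_coe p A yA).symm
  have hinj : Function.Injective (algebraMap (Polynomial E) D) :=
    transcendental_iff_injective.mp hyt
  have : FaithfulSMul (Polynomial E) D :=
    (faithfulSMul_iff_algebraMap_injective (Polynomial E) D).mpr hinj
  have hsur : Function.Surjective (algebraMap (Polynomial E) A) := by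
    rintro ⟨z, hz⟩
    have hz' : z ∈ (Polynomial.aeval (R := E) y).range := by
      rw [← Algebra.adjoin_singleton_eq_range_aeval]
      exact hz
    obtain ⟨p, hp⟩ := hz'
    refine ⟨p, Subtype.ext ?_⟩
    refine Eq.trans ?_ hp
    exact Polynomial.aeval_subalgebra_coe p A yA
  have : Algebra.IsIntegral (Polynomial E) A := Algebra.isIntegral_of_surjective hsur
  have : Algebra.IsIntegral (Polynomial E) D := ⟨fun d => isIntegral_trans (A := A) d (hy d)⟩
  have : Algebra.FiniteType (Polynomial E) D :=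
    Algebra.FiniteType.of_restrictScalars_finiteType E (Polynomial E) D
  have : Module.Finite (Polynomial E) D := Algebra.IsIntegral.finite
  have hQ : ∀ c : D, ∀ (i : Fin 2) (m : D ⧸ Ideal.span {c}),
      (MvPolynomial.X i : MvPolynomial (Fin 2) E) • m = Q i • m := by
    intro c i m
    obtain ⟨d, rfl⟩ := Ideal.Quotient.mk_surjective m
    have h1 : (MvPolynomial.X i : MvPolynomial (Fin 2) E) • d = Q i • d := by
      rw [Algebra.smul_def, Algebra.smul_def, hxD]
    exact congrArg (Ideal.Quotient.mk (Ideal.span {c})) h1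
  have hl : ∀ c : D, c ≠ 0 → len (mQ Q) (D ⧸ Ideal.span {c}) =
      ((Algebra.norm (Polynomial E) c).natDegree : ℕ∞) := by
    intro c hc
    rw [(dimE Q (D ⧸ Ideal.span {c}) (hQ c)).1, tcon_fin c hc]
  have hle := tcon_norm (E := E) (K := K) a b ha hb (fun W h1 h2 => (hW W h1 (by rwa [hX] at h2)).1)
  have hge := tcon_norm (E := E) (K := K) b a hb ha (fun W h1 h2 => (hW W h1 (by rwa [hX] at h2)).2)
  rw [hl a ha, hl b hb, le_antisymm hle hge]
  exact ⟨ENat.natCast_ne_top _, rfl⟩

end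

end Pool.Agent.RDP

end

section


namespace Pool.Agent.RDP

universe u v w

section

theorem tfin_abs {R A D D' : Type u} [CommRing R] [CommRing A] [CommRing D] [CommRing D']
    [Algebra R A] [Algebra R D] [Algebra A D'] [Algebra D D'] [Algebra R D']
    [IsScalarTower R A D'] [IsScalarTower R D D'] (p : Ideal R) [p.IsPrime]
    (hu : ∀ b, b ∉ p → IsUnit (algebraMap R A b))
    (hs : ∀ v : A, ∃ a b : R, b ∉ p ∧ v * algebraMap R A b = algebraMap R A a)
    (hD : ∀ y : D', ∃ (d : D) (b : R), b ∉ p ∧ algebraMap R D' b * y = algebraMap D D' d)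
    (hinj : Function.Injective (algebraMap D D')) (a : D) :
    len p (D ⧸ Ideal.span {a}) =
      Module.length A (D' ⧸ Ideal.span {algebraMap D D' a}) := by
  have hu' : ∀ y : p.primeCompl, IsUnit (algebraMap R A y) := fun y => hu y y.2
  let l : Localization.AtPrime p →+* A := IsLocalization.lift (M := p.primeCompl) hu'
  have hl : ∀ r : R, l (algebraMap R (Localization.AtPrime p) r) = algebraMap R A r :=
    fun r => IsLocalization.lift_eq hu' r
  let _ : Algebra (Localization.AtPrime p) A := l.toAlgebra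
  have _ : IsScalarTower R (Localization.AtPrime p) A :=
    IsScalarTower.of_algebraMap_eq fun r => (hl r).symm
  let _ : Algebra (Localization.AtPrime p) D' := ((algebraMap A D').comp l).toAlgebra
  have _ : IsScalarTower (Localization.AtPrime p) A D' :=
    IsScalarTower.of_algebraMap_eq fun r => rfl
  have _ : IsScalarTower R (Localization.AtPrime p) D' :=
    IsScalarTower.of_algebraMap_eq fun r => by
      change algebraMap R D' r = algebraMap A D' (l (algebraMap R (Localization.AtPrime p) r))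
      rw [hl, ← IsScalarTower.algebraMap_apply]
  have hsurj : Function.Surjective (algebraMap (Localization.AtPrime p) A) := by
    intro v
    obtain ⟨r, b, hb, h⟩ := hs v
    refine ⟨IsLocalization.mk' _ r (⟨b, hb⟩ : p.primeCompl), ?_⟩
    change l _ = v
    rw [IsLocalization.lift_mk'_spec]
    rw [mul_comm]
    exact h.symm
  rw [← Module.length_eq_of_surjective (M := D' ⧸ Ideal.span {algebraMap D D' a}) hsurj]
  have hle : Ideal.span {a} ≤ (Ideal.span {algebraMap D D' a}).comap
      (IsScalarTower.toAlgHom R D D') := by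
    rw [Ideal.span_singleton_le_iff_mem, Ideal.mem_comap]
    exact Ideal.mem_span_singleton_self _
  let f : (D ⧸ Ideal.span {a}) →ₗ[R] (D' ⧸ Ideal.span {algebraMap D D' a}) :=
    (Ideal.quotientMapₐ (Ideal.span {algebraMap D D' a}) (IsScalarTower.toAlgHom R D D')
      hle).toLinearMap
  have hf : ∀ d : D, f (Ideal.Quotient.mk _ d) = Ideal.Quotient.mk _ (algebraMap D D' d) :=
    fun d => rfl
  have hloc : IsLocalizedModule p.primeCompl f := by
    refine ⟨?_, ?_, ?_⟩
    · intro x
      have h1 : IsUnit (algebraMap R (D' ⧸ Ideal.span {algebraMap D D' a}) x) := by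
        have e : algebraMap R (D' ⧸ Ideal.span {algebraMap D D' a}) x =
            Ideal.Quotient.mk _ (algebraMap A D' (algebraMap R A x)) := by
          rw [← IsScalarTower.algebraMap_apply]
          rfl
        rw [e]
        exact ((hu' x).map (algebraMap A D')).map (Ideal.Quotient.mk _)
      have h2 := h1.map (Algebra.lmul R (D' ⧸ Ideal.span {algebraMap D D' a}))
      have e : (algebraMap R (Module.End R (D' ⧸ Ideal.span {algebraMap D D' a}))) x =
          Algebra.lmul R (D' ⧸ Ideal.span {algebraMap D D' a})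
            (algebraMap R (D' ⧸ Ideal.span {algebraMap D D' a}) x) := by
        refine LinearMap.ext fun y => ?_
        rw [Module.algebraMap_end_apply]
        simp [Algebra.smul_def]
      rw [e]
      exact h2
    · intro y
      obtain ⟨y, rfl⟩ := Ideal.Quotient.mk_surjective y
      obtain ⟨d, b, hb, h⟩ := hD y
      refine ⟨⟨Ideal.Quotient.mk _ d, ⟨b, hb⟩⟩, ?_⟩
      change b • (Ideal.Quotient.mk _ y) = f (Ideal.Quotient.mk _ d)
      rw [hf, ← h, Algebra.smul_def, map_mul]
      rfl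
    · intro x₁ x₂ h
      obtain ⟨d₁, rfl⟩ := Ideal.Quotient.mk_surjective x₁
      obtain ⟨d₂, rfl⟩ := Ideal.Quotient.mk_surjective x₂
      rw [hf, hf, Ideal.Quotient.eq, ← map_sub, Ideal.mem_span_singleton] at h
      obtain ⟨y, hy⟩ := h
      obtain ⟨d, b, hb, h⟩ := hD y
      refine ⟨⟨b, hb⟩, ?_⟩
      change b • (Ideal.Quotient.mk (Ideal.span {a}) d₁) = b • (Ideal.Quotient.mk (Ideal.span {a}) d₂)
      rw [← sub_eq_zero, ← smul_sub, ← map_sub, Algebra.smul_def]
      change Ideal.Quotient.mk (Ideal.span {a}) (algebraMap R D b) *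
        Ideal.Quotient.mk _ (d₁ - d₂) = 0
      rw [← map_mul, Ideal.Quotient.eq_zero_iff_mem, Ideal.mem_span_singleton]
      refine ⟨d, hinj ?_⟩
      rw [map_mul, map_mul, hy, ← h, ← IsScalarTower.algebraMap_apply]
      ring
  unfold len
  exact (IsLocalizedModule.mapEquiv p.primeCompl
    (LocalizedModule.mkLinearMap p.primeCompl (D ⧸ Ideal.span {a})) f (Localization.AtPrime p)
      (LinearEquiv.refl R _)).length_eq

theorem tfin_norm {A F D' K : Type u} [CommRing A] [IsDomain A] [IsDiscreteValuationRing A]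
    [Field F] [Algebra A F] [IsFractionRing A F] [CommRing D'] [IsDomain D'] [Algebra A D']
    [Module.Finite A D'] (hinj : Function.Injective (algebraMap A D')) [Field K] [Algebra D' K]
    [IsFractionRing D' K] [Algebra F K] [Algebra A K] [IsScalarTower A F K]
    [IsScalarTower A D' K] (a : D') (ha : a ≠ 0) :
    ∃ c : A, c ≠ 0 ∧ algebraMap A F c = Algebra.norm F (algebraMap D' K a) ∧
      Module.length A (D' ⧸ Ideal.span {a}) = Ring.ord A c := by
  have hfaith : FaithfulSMul A D' := (faithfulSMul_iff_algebraMap_injective A D').2 hinj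
  have htf : Module.IsTorsionFree A D' := inferInstance
  have hfree : Module.Free A D' := inferInstance
  have hint : ∀ y : D', IsIntegral A y := fun y => IsIntegral.of_finite A y
  have hAK : ∀ r : A, r ≠ 0 → algebraMap A K r ≠ 0 := by
    intro r hr
    rw [IsScalarTower.algebraMap_apply A D' K, Ne, FaithfulSMul.algebraMap_eq_zero_iff]
    rw [← map_zero (algebraMap A D')]
    exact fun h => hr (hinj h)
  have hloc : IsLocalization (Algebra.algebraMapSubmonoid D' (nonZeroDivisors A)) K := by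
    rw [isLocalization_iff]
    refine ⟨?_, ?_, ?_⟩
    · rintro ⟨y, r, hr, rfl⟩
      have hr0 : r ≠ 0 := nonZeroDivisors.ne_zero hr
      change IsUnit (algebraMap D' K (algebraMap A D' r))
      rw [← IsScalarTower.algebraMap_apply A D' K]
      exact (hAK r hr0).isUnit
    · intro z
      obtain ⟨u, w, hw, hz⟩ := IsFractionRing.div_surjective (A := D') z
      obtain ⟨r, hr, t, ht⟩ := (hint w).isAlgebraic.exists_nonzero_dvd hw
      have hw0 : algebraMap D' K w ≠ 0 := by
        rw [Ne, FaithfulSMul.algebraMap_eq_zero_iff]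
        exact nonZeroDivisors.ne_zero hw
      refine ⟨⟨u * t, ⟨algebraMap A D' r, r, mem_nonZeroDivisors_of_ne_zero hr, rfl⟩⟩, ?_⟩
      change z * algebraMap D' K (algebraMap A D' r) = algebraMap D' K (u * t)
      rw [ht, ← hz, map_mul, map_mul, ← mul_assoc, div_mul_cancel₀ _ hw0]
    · intro x y hxy
      refine ⟨1, ?_⟩
      rw [IsFractionRing.injective D' K hxy]
  refine ⟨Algebra.norm A a, Algebra.norm_ne_zero_iff.2 ha, ?_, ?_⟩
  · exact (Algebra.norm_localization A (nonZeroDivisors A) (Rₘ := F) (Sₘ := K) a).symm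
  · have hφ : Function.Injective (Algebra.lmul A D' a) := by
      intro x y hxy
      exact mul_left_cancel₀ ha hxy
    have h1 := detlen (D := A) (Algebra.lmul A D' a) hφ
    have e : (Ideal.span {a}).restrictScalars A = LinearMap.range (Algebra.lmul A D' a) := by
      ext y
      rw [Submodule.restrictScalars_mem, Ideal.mem_span_singleton, LinearMap.mem_range]
      constructor
      · rintro ⟨t, ht⟩
        exact ⟨t, ht.symm⟩
      · rintro ⟨t, ht⟩
        exact ⟨t, ht.symm⟩
    have h2 := ((Submodule.quotEquivOfEq _ _ e).symm.trans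
      (Submodule.Quotient.restrictScalarsEquiv A (Ideal.span {a}))).length_eq
    rw [← h2, h1]
    rfl

theorem tfin_dvr {F : Type u} [Field F] (V : ValuationSubring F) (o : F → ℤ) (hV : Dv V o) :
    IsDiscreteValuationRing V ∧ ∀ c : V, c ≠ 0 → Ring.ord V c ≠ ⊤ ∧
      ((Ring.ord V c).toNat : ℤ) = o c := by
  have ho1 : o 1 = 0 := by
    have h := hV.mul 1 1 one_ne_zero one_ne_zero
    rw [mul_one] at h
    omega
  have hinv : ∀ x : F, x ≠ 0 → o x⁻¹ = -o x := by
    intro x hx
    have h := hV.mul x x⁻¹ hx (inv_ne_zero hx)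
    rw [mul_inv_cancel₀ hx, ho1] at h
    omega
  have hpow : ∀ x : F, x ≠ 0 → ∀ n : ℕ, o (x ^ n) = n * o x := by
    intro x hx n
    induction n with
    | zero => rw [pow_zero, ho1]; simp
    | succ n ih =>
      rw [pow_succ, hV.mul _ _ (pow_ne_zero n hx) hx, ih]
      push_cast
      ring
  have hne : ∀ c : V, c ≠ 0 → (c : F) ≠ 0 := fun c hc h => hc (Subtype.ext h)
  have hnn : ∀ c : V, c ≠ 0 → 0 ≤ o c := fun c hc => (hV.mem _ (hne c hc)).1 c.2
  have hunit : ∀ c : V, c ≠ 0 → o c = 0 → IsUnit c := by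
    intro c hc h0
    have h1 : (c : F)⁻¹ ∈ V := (hV.mem _ (inv_ne_zero (hne c hc))).2 (by
      rw [hinv _ (hne c hc)]; omega)
    exact IsUnit.of_mul_eq_one ⟨_, h1⟩ (Subtype.ext (mul_inv_cancel₀ (hne c hc)))
  have hunit' : ∀ c : V, IsUnit c → o c = 0 := by
    rintro c ⟨w, rfl⟩
    have hw0 : (w : V) ≠ 0 := w.ne_zero
    have hw1 : ((w⁻¹ : Vˣ) : V) ≠ 0 := (w⁻¹).ne_zero
    have h1 := hV.mul _ _ (hne _ hw0) (hne _ hw1)
    have h2 : ((w : V) : F) * (((w⁻¹ : Vˣ) : V) : F) = 1 := by
      have := congrArg (fun z : V => (z : F)) (Units.mul_inv w)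
      exact this
    rw [h2, ho1] at h1
    have h3 := hnn _ hw0
    have h4 := hnn _ hw1
    omega
  obtain ⟨q, hq0, hq1⟩ := hV.unif
  have hqV : q ∈ V := (hV.mem q hq0).2 (by omega)
  set π : V := ⟨q, hqV⟩ with hπ
  have hπ0 : π ≠ 0 := fun h => hq0 (congrArg Subtype.val h)
  have hirr : Irreducible π := by
    constructor
    · intro h
      have := hunit' π h
      change o q = 0 at this
      omega
    · intro a b hab
      have ha : a ≠ 0 := by
        rintro rfl
        rw [zero_mul] at hab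
        exact hπ0 hab
      have hb : b ≠ 0 := by
        rintro rfl
        rw [mul_zero] at hab
        exact hπ0 hab
      have h1 := hV.mul _ _ (hne a ha) (hne b hb)
      have h2 : (a : F) * (b : F) = q := by
        have := congrArg (fun z : V => (z : F)) hab
        exact this.symm
      rw [h2, hq1] at h1
      have h3 := hnn a ha
      have h4 := hnn b hb
      have h5 : o a = 0 ∨ o b = 0 := by omega
      rcases h5 with h5 | h5
      · exact Or.inl (hunit a ha h5)
      · exact Or.inr (hunit b hb h5)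
  have hassoc : ∀ c : V, c ≠ 0 → Associated (π ^ (o c).toNat) c := by
    intro c hc
    have hc0 := hne c hc
    have hcn := hnn c hc
    have hpn : o (q ^ (o c).toNat) = o c := by
      rw [hpow q hq0, hq1, mul_one]
      exact Int.toNat_of_nonneg hcn
    have hy0 : (c : F) * (q ^ (o c).toNat)⁻¹ ≠ 0 :=
      mul_ne_zero hc0 (inv_ne_zero (pow_ne_zero _ hq0))
    have hoy : o ((c : F) * (q ^ (o c).toNat)⁻¹) = 0 := by
      rw [hV.mul _ _ hc0 (inv_ne_zero (pow_ne_zero _ hq0)), hinv _ (pow_ne_zero _ hq0), hpn]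
      omega
    have hyV : (c : F) * (q ^ (o c).toNat)⁻¹ ∈ V := (hV.mem _ hy0).2 hoy.ge
    have hyu : IsUnit (⟨_, hyV⟩ : V) := hunit _ (fun h => hy0 (congrArg Subtype.val h)) hoy
    obtain ⟨w, hw⟩ := hyu
    refine ⟨w, ?_⟩
    rw [hw]
    apply Subtype.ext
    change q ^ (o c).toNat * ((c : F) * (q ^ (o c).toNat)⁻¹) = c
    rw [mul_comm, mul_assoc, inv_mul_cancel₀ (pow_ne_zero _ hq0), mul_one]
  have hdvr : IsDiscreteValuationRing V :=
    IsDiscreteValuationRing.ofHasUnitMulPowIrreducibleFactorization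
      ⟨π, hirr, fun {c} hc => ⟨_, hassoc c hc⟩⟩
  refine ⟨hdvr, fun c hc => ?_⟩
  have h1 : Ring.ord V c = (o c).toNat := by
    rw [← Ring.ord_eq_of_associated (hassoc c hc),
      Ring.ord_pow (mem_nonZeroDivisors_of_ne_zero hπ0), Ring.ord_of_irreducible hirr]
    simp
  rw [h1]
  refine ⟨ENat.natCast_ne_top _, ?_⟩
  rw [ENat.toNat_natCast]
  exact Int.toNat_of_nonneg (hnn c hc)

theorem tfin_int {F K : Type u} [Field F] [Field K] [Algebra F K] (V : ValuationSubring F) (z : K)
    (h : ∀ W : ValuationSubring K, (∀ v ∈ V, algebraMap F K v ∈ W) → z ∈ W) : IsIntegral V z := by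
  set S : Subring K := V.toSubring.map (algebraMap F K) with hS
  have h1 : z ∈ (integralClosure (Subring.closure (S : Set K)) K).toSubring := by
    rw [← iInf_valuationSubring_superset, Subring.mem_iInf]
    rintro ⟨W, hW⟩
    exact h W fun v hv => hW ⟨v, hv, rfl⟩
  rw [Subring.closure_eq] at h1
  have h2 : IsIntegral S z := h1
  let g : V →+* S := ((algebraMap F K).comp (algebraMap V F)).codRestrict S
    (fun x => ⟨x, x.2, rfl⟩)
  let _ : Algebra V S := g.toAlgebra
  have _ : IsScalarTower V S K := IsScalarTower.of_algebraMap_eq fun _ => rfl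
  have hsurj : Function.Surjective (algebraMap V S) := by
    rintro ⟨_, x, hx, rfl⟩
    exact ⟨⟨x, hx⟩, rfl⟩
  have _ : Algebra.IsIntegral V S := Algebra.isIntegral_of_surjective hsurj
  exact isIntegral_trans z h2

theorem tfin_top {F K : Type u} [Field F] [Field K] [Algebra F K] [FiniteDimensional F K]
    (W : ValuationSubring K) (h : ∀ a : F, algebraMap F K a ∈ W) : W = ⊤ := by
  refine top_unique fun z _ => ?_
  have h1 : IsIntegral F z := IsIntegral.of_finite F z
  let g : F →+* W := (algebraMap F K).codRestrict W h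
  let _ : Algebra F W := g.toAlgebra
  have _ : IsScalarTower F W K := IsScalarTower.of_algebraMap_eq fun _ => rfl
  have h2 : IsIntegral W z := h1.tower_top
  obtain ⟨y, rfl⟩ := IsIntegrallyClosed.isIntegral_iff.1 h2
  exact y.2

theorem tfin_notTop {F : Type u} [Field F] {V : ValuationSubring F} {o : F → ℤ} (hV : Dv V o) :
    V ≠ ⊤ := by
  rintro rfl
  obtain ⟨q, hq0, hq1⟩ := hV.unif
  have h1 := (hV.mem q⁻¹ (inv_ne_zero hq0)).1 (ValuationSubring.mem_top _)
  have h2 := hV.mul q q⁻¹ hq0 (inv_ne_zero hq0)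
  have h3 := hV.mul 1 1 one_ne_zero one_ne_zero
  rw [mul_one] at h3
  rw [mul_inv_cancel₀ hq0] at h2
  omega

theorem tfin_dom {F K : Type u} [Field F] [Field K] [Algebra F K] {V : ValuationSubring F}
    {W : ValuationSubring K} (h : V = W.comap (algebraMap F K)) {z : F} (hz : z ∈ V.nonunits) :
    algebraMap F K z ∈ W.nonunits := by
  rw [ValuationSubring.mem_nonunits_iff_or] at hz ⊢
  rcases hz with hz | hz
  · left
    rw [hz, map_zero]
  · right
    intro h1
    apply hz
    rw [h, ValuationSubring.mem_comap, map_inv₀]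
    exact h1

end

section

theorem tfin {E F K D : Type u} [Field E] [IsAlgClosed E] [Field F] [Algebra E F] [Field K]
    [Algebra F K] [Algebra E K] [IsScalarTower E F K] [FiniteDimensional F K] [CommRing D]
    [IsDomain D] [Algebra E D] [Algebra (MvPolynomial (Fin 2) E) D]
    [IsScalarTower E (MvPolynomial (Fin 2) E) D] [Algebra D K] [IsFractionRing D K]
    [IsScalarTower E D K] (hft : Algebra.FiniteType E D) (G g : MvPolynomial (Fin 2) E)
    (hG : Irreducible G) (x : Fin 2 → F)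
    (hx : ∀ h : MvPolynomial (Fin 2) E, MvPolynomial.aeval x h = 0 ↔ G ∣ h)
    (hgen : IntermediateField.adjoin E (Set.range x) = ⊤)
    (hxD : ∀ i, algebraMap F K (x i) =
      algebraMap D K (algebraMap (MvPolynomial (Fin 2) E) D (MvPolynomial.X i)))
    (Q : Fin 2 → E) (hQ : Gp G g Q) (V : ValuationSubring F) (o : F → ℤ) (hV : Dv V o)
    (hVE : Ov E V) (hVQ : ∀ i, x i - algebraMap E F (Q i) ∈ V.nonunits)
    (hD : ∀ W : ValuationSubring K, Ov E W → W ≠ ⊤ →
      (∀ i, algebraMap F K (x i) - algebraMap E K (Q i) ∈ W.nonunits) →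
        ∀ y : D, algebraMap D K y ∈ W) (a : D) (ha : a ≠ 0) :
    len (mQ Q) (D ⧸ Ideal.span {a}) ≠ ⊤ ∧
      ((len (mQ Q) (D ⧸ Ideal.span {a})).toNat : ℤ) = o (Algebra.norm F (algebraMap D K a)) := by
  have hVt := tfin_notTop hV
  -- the local ring of the point
  have hmem : ∀ y : F, y ∈ V ↔ ∃ a b : MvPolynomial (Fin 2) E, MvPolynomial.eval Q b ≠ 0 ∧
      y * MvPolynomial.aeval x b = MvPolynomial.aeval x a := by
    obtain ⟨V₁, o₁, _, _, _, _, hmem, huniq, _⟩ := oQ_dv G g hG x hx hgen Q hQ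
    rw [huniq V hVE hVt hVQ]
    exact hmem
  obtain ⟨hdvr, hord⟩ := tfin_dvr V o hV
  have hb0 : ∀ b : MvPolynomial (Fin 2) E, MvPolynomial.eval Q b ≠ 0 →
      MvPolynomial.aeval x b ≠ 0 := by
    intro b hb h
    obtain ⟨c, hc⟩ := (hx b).1 h
    apply hb
    rw [hc, map_mul, hQ.1, zero_mul]
  -- the polynomials
  have hcomp : ∀ h : MvPolynomial (Fin 2) E, algebraMap F K (MvPolynomial.aeval x h) =
      algebraMap D K (algebraMap (MvPolynomial (Fin 2) E) D h) := by
    have h1 : (algebraMap F K).comp (MvPolynomial.aeval x : MvPolynomial (Fin 2) E →ₐ[E] F).toRingHom =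
        (algebraMap D K).comp (algebraMap (MvPolynomial (Fin 2) E) D) := by
      refine MvPolynomial.ringHom_ext (fun e => ?_) fun i => ?_
      · change algebraMap F K (MvPolynomial.aeval x (MvPolynomial.C e)) =
          algebraMap D K (algebraMap (MvPolynomial (Fin 2) E) D (MvPolynomial.C e))
        rw [MvPolynomial.aeval_C, ← IsScalarTower.algebraMap_apply E F K,
          ← MvPolynomial.algebraMap_eq, ← IsScalarTower.algebraMap_apply E _ D,
          ← IsScalarTower.algebraMap_apply E D K]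
      · change algebraMap F K (MvPolynomial.aeval x (MvPolynomial.X i)) =
          algebraMap D K (algebraMap (MvPolynomial (Fin 2) E) D (MvPolynomial.X i))
        rw [MvPolynomial.aeval_X]
        exact hxD i
    intro h
    exact congrArg (fun φ : MvPolynomial (Fin 2) E →+* K => φ h) h1
  -- integrality
  have hint : ∀ y : D, IsIntegral V (algebraMap D K y) := by
    intro y
    refine tfin_int V _ fun W hW => ?_
    by_cases hWt : W = ⊤
    · rw [hWt]
      exact ValuationSubring.mem_top _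
    · have hle : V ≤ W.comap (algebraMap F K) := fun v hv => hW v hv
      have hne : W.comap (algebraMap F K) ≠ ⊤ := by
        intro h
        apply hWt
        refine tfin_top (F := F) W fun a => ?_
        rw [← ValuationSubring.mem_comap, h]
        exact ValuationSubring.mem_top _
      have heq := dv_max V _ o hV hle hne
      refine hD W (fun e => ?_) hWt (fun i => ?_) y
      · rw [IsScalarTower.algebraMap_apply E F K]
        exact hW _ (hVE e)
      · have h1 := tfin_dom heq (hVQ i)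
        rwa [map_sub, ← IsScalarTower.algebraMap_apply E F K] at h1
  -- the ring `D'`
  obtain ⟨t, ht⟩ := hft.out
  let D' : Subalgebra V K := Algebra.adjoin V (algebraMap D K '' (t : Set D))
  have hfin : Module.Finite V D' := by
    refine Module.Finite.iff_fg.2 (fg_adjoin_of_finite (t.finite_toSet.image _) ?_)
    rintro _ ⟨y, _, rfl⟩
    exact hint y
  have hEV : ∀ e : E, algebraMap E K e = algebraMap V K ⟨algebraMap E F e, hVE e⟩ := fun e => by
    rw [IsScalarTower.algebraMap_apply E F K]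
    rfl
  have hDD' : ∀ y : D, algebraMap D K y ∈ D' := by
    intro y
    have hy : y ∈ Algebra.adjoin E (t : Set D) := by rw [ht]; exact Algebra.mem_top
    induction hy using Algebra.adjoin_induction with
    | mem y hy => exact Algebra.subset_adjoin ⟨y, hy, rfl⟩
    | algebraMap e =>
      rw [← IsScalarTower.algebraMap_apply E D K, hEV e]
      exact D'.algebraMap_mem _
    | add y z _ _ hy hz => rw [map_add]; exact D'.add_mem hy hz
    | mul y z _ _ hy hz => rw [map_mul]; exact D'.mul_mem hy hz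
  have hinjDK : Function.Injective (algebraMap D K) := IsFractionRing.injective D K
  let gD : D →+* D' := (algebraMap D K).codRestrict D' hDD'
  let _ : Algebra D D' := gD.toAlgebra
  have hxV : ∀ h : MvPolynomial (Fin 2) E, MvPolynomial.aeval x h ∈ V := fun h =>
    (hmem _).2 ⟨h, 1, by rw [map_one]; exact one_ne_zero, by rw [map_one, mul_one]⟩
  let gV : MvPolynomial (Fin 2) E →+* V :=
    (MvPolynomial.aeval x : MvPolynomial (Fin 2) E →ₐ[E] F).toRingHom.codRestrict V hxV
  let _ : Algebra (MvPolynomial (Fin 2) E) V := gV.toAlgebra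
  let _ : Algebra (MvPolynomial (Fin 2) E) D' := ((algebraMap V D').comp gV).toAlgebra
  have _ : IsScalarTower (MvPolynomial (Fin 2) E) V D' :=
    IsScalarTower.of_algebraMap_eq fun _ => rfl
  have _ : IsScalarTower (MvPolynomial (Fin 2) E) D D' :=
    IsScalarTower.of_algebraMap_eq fun h => Subtype.ext (hcomp h)
  have hu : ∀ b, b ∉ mQ Q → IsUnit (algebraMap (MvPolynomial (Fin 2) E) V b) := by
    intro b hb
    rw [mem_mQ] at hb
    have h1 : (MvPolynomial.aeval x b)⁻¹ ∈ V :=
      (hmem _).2 ⟨1, b, hb, by rw [inv_mul_cancel₀ (hb0 b hb), map_one]⟩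
    exact IsUnit.of_mul_eq_one ⟨_, h1⟩ (Subtype.ext (mul_inv_cancel₀ (hb0 b hb)))
  have hs : ∀ v : V, ∃ a b : MvPolynomial (Fin 2) E, b ∉ mQ Q ∧
      v * algebraMap (MvPolynomial (Fin 2) E) V b = algebraMap (MvPolynomial (Fin 2) E) V a := by
    intro v
    obtain ⟨a, b, hb, h⟩ := (hmem v).1 v.2
    exact ⟨a, b, by rwa [mem_mQ], Subtype.ext h⟩
  have hD'K : ∀ z ∈ D', ∃ (d : D) (b : MvPolynomial (Fin 2) E), MvPolynomial.eval Q b ≠ 0 ∧
      algebraMap F K (MvPolynomial.aeval x b) * z = algebraMap D K d := by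
    intro z hz
    induction hz using Algebra.adjoin_induction with
    | mem z hz =>
      obtain ⟨y, _, rfl⟩ := hz
      exact ⟨y, 1, by rw [map_one]; exact one_ne_zero, by rw [map_one, map_one, one_mul]⟩
    | algebraMap v =>
      obtain ⟨a, b, hb, h⟩ := (hmem v).1 v.2
      refine ⟨algebraMap _ D a, b, hb, ?_⟩
      have e : algebraMap V K v = algebraMap F K v := rfl
      rw [e, ← map_mul, mul_comm, h, hcomp]
    | add y z _ _ hy hz =>
      obtain ⟨d₁, b₁, h1, e1⟩ := hy
      obtain ⟨d₂, b₂, h2, e2⟩ := hz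
      refine ⟨algebraMap _ D b₂ * d₁ + algebraMap _ D b₁ * d₂, b₁ * b₂,
        by rw [map_mul]; exact mul_ne_zero h1 h2, ?_⟩
      rw [map_add, map_mul (algebraMap D K), map_mul (algebraMap D K), ← hcomp, ← hcomp, ← e1,
        ← e2, map_mul, map_mul]
      ring
    | mul y z _ _ hy hz =>
      obtain ⟨d₁, b₁, h1, e1⟩ := hy
      obtain ⟨d₂, b₂, h2, e2⟩ := hz
      refine ⟨d₁ * d₂, b₁ * b₂, by rw [map_mul]; exact mul_ne_zero h1 h2, ?_⟩
      rw [map_mul (algebraMap D K), ← e1, ← e2, map_mul, map_mul]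
      ring
  have hD' : ∀ y : D', ∃ (d : D) (b : MvPolynomial (Fin 2) E), b ∉ mQ Q ∧
      algebraMap (MvPolynomial (Fin 2) E) D' b * y = algebraMap D D' d := by
    intro y
    obtain ⟨d, b, hb, h⟩ := hD'K y y.2
    exact ⟨d, b, by rwa [mem_mQ], Subtype.ext h⟩
  have hinj : Function.Injective (algebraMap D D') := fun y z h =>
    hinjDK (congrArg Subtype.val h)
  have hinjV : Function.Injective (algebraMap V D') := by
    intro y z h
    have h1 : algebraMap F K (y : F) = algebraMap F K (z : F) := congrArg Subtype.val h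
    exact Subtype.ext ((algebraMap F K).injective h1)
  have hinjD'K : Function.Injective (algebraMap D' K) := Subtype.val_injective
  have hfr : IsFractionRing D' K := by
    rw [IsFractionRing, isLocalization_iff]
    refine ⟨?_, ?_, ?_⟩
    · rintro ⟨y, hy⟩
      have hy0 : y ≠ 0 := nonZeroDivisors.ne_zero hy
      refine IsUnit.mk0 _ ?_
      intro h0
      exact hy0 (hinjD'K (h0.trans (map_zero _).symm))
    · intro z
      obtain ⟨u, w, hw, hz⟩ := IsFractionRing.div_surjective (A := D) z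
      have hw0 : algebraMap D K w ≠ 0 := by
        intro h0
        exact nonZeroDivisors.ne_zero hw (hinjDK (h0.trans (map_zero _).symm))
      have hw1 : algebraMap D D' w ≠ 0 := by
        intro h0
        exact nonZeroDivisors.ne_zero hw (hinj (h0.trans (map_zero _).symm))
      refine ⟨⟨algebraMap D D' u, ⟨algebraMap D D' w, mem_nonZeroDivisors_of_ne_zero hw1⟩⟩, ?_⟩
      change z * algebraMap D K w = algebraMap D K u
      rw [← hz, div_mul_cancel₀ _ hw0]
    · intro y z h
      exact ⟨1, by rw [hinjD'K h]⟩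
  have ha' : algebraMap D D' a ≠ 0 := fun h0 => ha (hinj (h0.trans (map_zero _).symm))
  obtain ⟨c, hc0, hc1, hc2⟩ := tfin_norm (A := V) (F := F) (D' := D') (K := K) hinjV
    (algebraMap D D' a) ha'
  have h1 := tfin_abs (A := V) (D' := D') (mQ Q) hu hs hD' hinj a
  rw [hc2] at h1
  obtain ⟨h2, h3⟩ := hord c hc0
  rw [h1]
  refine ⟨h2, ?_⟩
  rw [h3]
  have h4 : (c : F) = Algebra.norm F (algebraMap D K a) := hc1
  rw [h4]

end

end Pool.Agent.RDP

end

section


namespace Pool.Agent.RDP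

universe u v w

section

theorem pa_loc {E : Type u} [Field E] {A : Type v} {A' : Type w} [CommRing A] [CommRing A']
    [Algebra (MvPolynomial (Fin 2) E) A] [Algebra (MvPolynomial (Fin 2) E) A'] [Algebra A A']
    [IsScalarTower (MvPolynomial (Fin 2) E) A A'] (hinj : Function.Injective (algebraMap A A'))
    (g : MvPolynomial (Fin 2) E) (h b : A) (u : E) (hu : u ≠ 0)
    (hb : b ∣ h - algebraMap (MvPolynomial (Fin 2) E) A (MvPolynomial.C u))
    (hloc : ∀ y : A', ∃ n : ℕ, ∃ a : A, (algebraMap (MvPolynomial (Fin 2) E) A' g *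
      algebraMap A A' h) ^ n * y = algebraMap A A' a)
    (Q : Fin 2 → E) (hQ : MvPolynomial.eval Q g ≠ 0) (b' : A') (hb' : algebraMap A A' b = b') :
    len (mQ Q) (A ⧸ Ideal.span {b}) = len (mQ Q) (A' ⧸ Ideal.span {b'}) := by
  subst hb'
  have hs : ∀ n : ℕ, (g * MvPolynomial.C u) ^ n ∉ mQ Q := by
    intro n hn
    rw [mem_mQ, map_pow, map_mul, MvPolynomial.eval_C] at hn
    exact (pow_ne_zero n (mul_ne_zero hQ hu)) hn
  have hd : ∀ n : ℕ, b ∣ h ^ n - algebraMap (MvPolynomial (Fin 2) E) A (MvPolynomial.C u) ^ n :=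
    fun n => hb.trans (sub_dvd_pow_sub_pow _ _ n)
  have hmem : ∀ a ∈ Ideal.span {b}, ((Ideal.Quotient.mkₐ (MvPolynomial (Fin 2) E)
      (Ideal.span {algebraMap A A' b})).comp
        (IsScalarTower.toAlgHom (MvPolynomial (Fin 2) E) A A')) a = 0 := by
    intro a ha
    rw [Ideal.mem_span_singleton] at ha
    obtain ⟨c, rfl⟩ := ha
    rw [AlgHom.comp_apply, Ideal.Quotient.mkₐ_eq_mk, Ideal.Quotient.eq_zero_iff_mem,
      Ideal.mem_span_singleton]
    exact ⟨algebraMap A A' c, by simp⟩
  let f : (A ⧸ Ideal.span {b}) →ₐ[MvPolynomial (Fin 2) E] (A' ⧸ Ideal.span {algebraMap A A' b}) :=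
    Ideal.Quotient.liftₐ (Ideal.span {b}) ((Ideal.Quotient.mkₐ (MvPolynomial (Fin 2) E)
      (Ideal.span {algebraMap A A' b})).comp
        (IsScalarTower.toAlgHom (MvPolynomial (Fin 2) E) A A')) hmem
  have hf : ∀ a : A, f (Ideal.Quotient.mk _ a) = Ideal.Quotient.mk _ (algebraMap A A' a) :=
    fun a => rfl
  refine len_li (mQ Q) f.toLinearMap ?_ ?_
  · intro m hm
    obtain ⟨a, rfl⟩ := Ideal.Quotient.mk_surjective m
    have hm' : f (Ideal.Quotient.mk _ a) = 0 := hm
    rw [hf, Ideal.Quotient.eq_zero_iff_mem, Ideal.mem_span_singleton] at hm'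
    obtain ⟨y, hy⟩ := hm'
    obtain ⟨n, a', ha'⟩ := hloc y
    refine ⟨(g * MvPolynomial.C u) ^ n, hs n, ?_⟩
    have h1 : (algebraMap (MvPolynomial (Fin 2) E) A g * h) ^ n * a = b * a' := by
      apply hinj
      rw [map_mul, map_pow, map_mul, ← IsScalarTower.algebraMap_apply, hy, map_mul, ← ha']
      ring
    have h2 : ((g * MvPolynomial.C u) ^ n : MvPolynomial (Fin 2) E) • a ∈ Ideal.span {b} := by
      obtain ⟨z, hz⟩ := hd n
      rw [Ideal.mem_span_singleton, Algebra.smul_def, map_pow, map_mul, mul_pow]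
      refine ⟨a' - algebraMap (MvPolynomial (Fin 2) E) A g ^ n * z * a, ?_⟩
      rw [mul_sub, ← h1, mul_pow]
      have h3 : algebraMap (MvPolynomial (Fin 2) E) A (MvPolynomial.C u) ^ n = h ^ n - b * z := by
        rw [← hz]; ring
      rw [h3]
      ring
    exact Ideal.Quotient.eq_zero_iff_mem.mpr h2
  · intro y
    obtain ⟨y, rfl⟩ := Ideal.Quotient.mk_surjective y
    obtain ⟨n, a', ha'⟩ := hloc y
    refine ⟨(g * MvPolynomial.C u) ^ n, hs n, Ideal.Quotient.mk _ a', ?_⟩
    have h2 : algebraMap A A' a' - ((g * MvPolynomial.C u) ^ n : MvPolynomial (Fin 2) E) • y ∈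
        Ideal.span {algebraMap A A' b} := by
      obtain ⟨z, hz⟩ := hd n
      rw [Ideal.mem_span_singleton, Algebra.smul_def, map_pow, map_mul, mul_pow, ← ha', mul_pow]
      refine ⟨algebraMap (MvPolynomial (Fin 2) E) A' g ^ n * algebraMap A A' z * y, ?_⟩
      have h3 := congrArg (algebraMap A A') hz
      rw [map_sub, map_pow, map_pow, map_mul, ← IsScalarTower.algebraMap_apply] at h3
      linear_combination (algebraMap (MvPolynomial (Fin 2) E) A' g ^ n * y) * h3
    exact Ideal.Quotient.eq.mpr h2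

theorem pa_tr {E K : Type u} [Field E] [IsAlgClosed E] [Field K] [Algebra E K] (t : K)
    (ht : ¬ ∃ e : E, t = algebraMap E K e) : Transcendental E t := by
  intro h
  apply ht
  have h1 : t ∈ (algebraMap E K).range := by
    have hi : IsIntegral E t := h.isIntegral
    have hd := IsAlgClosed.degree_eq_one_of_irreducible E (minpoly.irreducible hi)
    exact minpoly.mem_range_of_degree_eq_one E t hd
  obtain ⟨e, he⟩ := h1
  exact ⟨e, he.symm⟩

theorem pa_fd {E K D : Type u} [Field E] [IsAlgClosed E] [Field K] [Algebra E K] [CommRing D]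
    [IsDomain D] [Algebra E D] [Algebra D K] [IsFractionRing D K]
    [IsScalarTower E D K] (hft : Algebra.FiniteType E D) (htr : Td1 E K)
    (L : IntermediateField E K) (t : K) (ht : t ∈ L) (htt : Transcendental E t) :
    FiniteDimensional L K := by
  have halg : Algebra.IsAlgebraic L K := by
    refine ⟨fun y => ?_⟩
    have h1 := htr t htt y
    have hle : IntermediateField.adjoin E {t} ≤ L := by
      rw [IntermediateField.adjoin_le_iff]
      rintro z hz
      rw [Set.mem_singleton_iff] at hz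
      rw [hz]
      exact ht
    let : Algebra (IntermediateField.adjoin E {t}) L := (IntermediateField.inclusion hle).toAlgebra
    have : IsScalarTower (IntermediateField.adjoin E {t}) L K :=
      IsScalarTower.of_algebraMap_eq fun _ => rfl
    exact h1.tower_top L
  have : Algebra.EssFiniteType D K := Algebra.EssFiniteType.of_isLocalization K (nonZeroDivisors D)
  have : Algebra.EssFiniteType E K := Algebra.EssFiniteType.comp E D K
  have : Algebra.EssFiniteType L K := Algebra.EssFiniteType.of_comp E L K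
  exact Algebra.finite_of_essFiniteType_of_isAlgebraic

theorem pa_sub {E K D : Type u} [Field E] [Field K] [Algebra E K] [CommRing D]
    [Algebra E D] [Algebra D K] [IsScalarTower E D K] (k : D) :
    ∃ B : Subalgebra E K, ∀ y, y ∈ B ↔ ∃ n : ℕ, ∃ d : D,
      algebraMap D K k ^ n * y = algebraMap D K d := by
  refine ⟨{ carrier := {y | ∃ n : ℕ, ∃ d : D, algebraMap D K k ^ n * y = algebraMap D K d}
            mul_mem' := ?_
            add_mem' := ?_
            algebraMap_mem' := ?_ }, fun y => Iff.rfl⟩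
  · rintro y z ⟨n, d, h⟩ ⟨m, d', h'⟩
    refine ⟨n + m, d * d', ?_⟩
    rw [map_mul, ← h, ← h']
    ring
  · rintro y z ⟨n, d, h⟩ ⟨m, d', h'⟩
    refine ⟨n + m, k ^ m * d + k ^ n * d', ?_⟩
    rw [map_add, map_mul, map_mul, ← h, ← h', map_pow, map_pow]
    ring
  · intro e
    exact ⟨0, algebraMap E D e, by rw [pow_zero, one_mul, ← IsScalarTower.algebraMap_apply]⟩

theorem pa_ft {E K D : Type u} [Field E] [Field K] [Algebra E K] [CommRing D]
    [Algebra E D] [Algebra D K] [IsScalarTower E D K] (k : D) (hk : algebraMap D K k ≠ 0)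
    (hft : Algebra.FiniteType E D) (B : Subalgebra E K) (hB : ∀ y, y ∈ B ↔ ∃ n : ℕ, ∃ d : D,
      algebraMap D K k ^ n * y = algebraMap D K d) : Algebra.FiniteType E B := by
  have hm : ∀ d : D, algebraMap D K d ∈ B := fun d => (hB _).2 ⟨0, d, by simp⟩
  let : Algebra D B := (RingHom.codRestrict (algebraMap D K) B hm).toAlgebra
  have : IsScalarTower E D B := IsScalarTower.of_algebraMap_eq fun e => by
    apply Subtype.ext
    exact IsScalarTower.algebraMap_apply E D K e
  let i : B := ⟨(algebraMap D K k)⁻¹, (hB _).2 ⟨1, 1, by simp [hk]⟩⟩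
  have h1 : Algebra.FiniteType D B := by
    refine Algebra.FiniteType.of_surjective (Polynomial.aeval i : Polynomial D →ₐ[D] B) ?_
    rintro ⟨y, hy⟩
    obtain ⟨n, d, h⟩ := (hB y).1 hy
    refine ⟨Polynomial.C d * Polynomial.X ^ n, ?_⟩
    rw [map_mul, map_pow, Polynomial.aeval_X, Polynomial.aeval_C]
    apply Subtype.ext
    change algebraMap D K d * (algebraMap D K k)⁻¹ ^ n = y
    rw [← h, inv_pow]
    field_simp
  exact Algebra.FiniteType.trans hft h1

theorem pa_le {E K D : Type u} [Field E] [Field K] [Algebra E K] [CommRing D]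
    [Algebra E D] [Algebra D K] [IsScalarTower E D K] (k : D) (B : Subalgebra E K)
    (hB : ∀ y, y ∈ B ↔ ∃ n : ℕ, ∃ d : D, algebraMap D K k ^ n * y = algebraMap D K d)
    (x0 x1 w G H : K) (h0 : ∃ d, algebraMap D K d = x0) (h1 : ∃ d, algebraMap D K d = x1)
    (hw : ∃ d, algebraMap D K d = w) (hG : ∃ d, algebraMap D K d = G)
    (hH : ∃ d, algebraMap D K d = H) (hk : algebraMap D K k = G * H) (hG0 : G ≠ 0) (hH0 : H ≠ 0) :
    Algebra.adjoin E {x0, x1, G⁻¹, w, H⁻¹} ≤ B := by
  rw [Algebra.adjoin_le_iff]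
  intro y hy
  simp only [Set.mem_insert_iff, Set.mem_singleton_iff] at hy
  have hm : ∀ y, (∃ d, algebraMap D K d = y) → y ∈ B := by
    rintro y ⟨d, rfl⟩
    exact (hB _).2 ⟨0, d, by simp⟩
  rcases hy with rfl | rfl | rfl | rfl | rfl
  · exact hm _ h0
  · exact hm _ h1
  · obtain ⟨d, hd⟩ := hH
    exact (hB _).2 ⟨1, d, by rw [pow_one, hk, hd]; field_simp⟩
  · exact hm _ hw
  · obtain ⟨d, hd⟩ := hG
    exact (hB _).2 ⟨1, d, by rw [pow_one, hk, hd]; field_simp⟩

/-- the plane section of the curve of the space -/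
theorem pa_cy {E K : Type u} [Field E] [Field K] [Algebra E K]
    (g : MvPolynomial (Fin 2) E) (x : Fin 2 → K) (w : K) (s c : E) (hc : c ≠ - 2 * s)
    (hg : MvPolynomial.aeval x g ≠ 0) (hwc : w - algebraMap E K s - algebraMap E K c ≠ 0)
    (J : Ideal (MvPolynomial (Fin 3) E))
    (hJ : ∀ h, h ∈ J ↔ MvPolynomial.aeval ![x 0, x 1, w] h = 0)
    (D₁ : Subalgebra E K) (hD₁ : D₁ = Algebra.adjoin E {x 0, x 1, (MvPolynomial.aeval x g)⁻¹, w,
      (w - algebraMap E K s - algebraMap E K c)⁻¹}) [Algebra (MvPolynomial (Fin 2) E) D₁]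
    (hR : ∀ h, ((algebraMap (MvPolynomial (Fin 2) E) D₁ h : D₁) : K) = MvPolynomial.aeval x h)
    (Q : Fin 2 → E) (hQ : MvPolynomial.eval Q g ≠ 0) (b : D₁) (hb : (b : K) = w + algebraMap E K s) :
    len (mQ Q) (D₁ ⧸ Ideal.span {b}) = cy J s Q := by
  have hx0 : x 0 ∈ D₁ := by rw [hD₁]; exact Algebra.subset_adjoin (by simp)
  have hx1 : x 1 ∈ D₁ := by rw [hD₁]; exact Algebra.subset_adjoin (by simp)
  have hxw : w ∈ D₁ := by rw [hD₁]; exact Algebra.subset_adjoin (by simp)
  let φ : MvPolynomial (Fin 3) E →ₐ[E] D₁ := MvPolynomial.aeval ![⟨x 0, hx0⟩, ⟨x 1, hx1⟩, ⟨w, hxw⟩]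
  have hφ : ∀ h, ((φ h : D₁) : K) = MvPolynomial.aeval ![x 0, x 1, w] h := by
    intro h
    have h1 : D₁.val.comp φ = MvPolynomial.aeval ![x 0, x 1, w] := by
      apply MvPolynomial.algHom_ext
      intro i
      rw [AlgHom.comp_apply, MvPolynomial.aeval_X, MvPolynomial.aeval_X]
      fin_cases i <;> rfl
    exact AlgHom.congr_fun h1 h
  have hk : ∀ h ∈ J, φ h = 0 := by
    intro h hh
    apply Subtype.ext
    rw [hφ]
    exact (hJ h).1 hh
  let ψ : (MvPolynomial (Fin 3) E ⧸ J) →+* D₁ := Ideal.Quotient.lift J φ.toRingHom hk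
  let : Algebra (MvPolynomial (Fin 3) E ⧸ J) D₁ := ψ.toAlgebra
  have hψ : ∀ h, algebraMap (MvPolynomial (Fin 3) E ⧸ J) D₁ (Ideal.Quotient.mk J h) = φ h :=
    fun h => rfl
  have hRA : ∀ h : MvPolynomial (Fin 2) E, algebraMap (MvPolynomial (Fin 2) E)
      (MvPolynomial (Fin 3) E ⧸ J) h =
        Ideal.Quotient.mk J (MvPolynomial.rename Fin.castSucc h) := fun h => rfl
  have : IsScalarTower (MvPolynomial (Fin 2) E) (MvPolynomial (Fin 3) E ⧸ J) D₁ :=
    IsScalarTower.of_algebraMap_eq (R := MvPolynomial (Fin 2) E)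
      (S := MvPolynomial (Fin 3) E ⧸ J) (A := D₁) fun h => by
      rw [hRA, hψ]
      apply Subtype.ext
      rw [hφ, hR, MvPolynomial.aeval_rename]
      congr 2
      funext i
      fin_cases i <;> rfl
  have hinj : Function.Injective (algebraMap (MvPolynomial (Fin 3) E ⧸ J) D₁) := by
    rw [injective_iff_map_eq_zero]
    intro a ha
    obtain ⟨a, rfl⟩ := Ideal.Quotient.mk_surjective a
    rw [hψ] at ha
    rw [Ideal.Quotient.eq_zero_iff_mem, hJ, ← hφ, ha]
    rfl
  have hbA : algebraMap (MvPolynomial (Fin 3) E ⧸ J) D₁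
      (Ideal.Quotient.mk J (MvPolynomial.X 2 + MvPolynomial.C s)) = b := by
    rw [hψ]
    apply Subtype.ext
    rw [hφ, hb, map_add, MvPolynomial.aeval_X, MvPolynomial.aeval_C]
    rfl
  have hu : - (2 * s + c) ≠ 0 := by
    intro h
    apply hc
    linear_combination -h
  have hloc : ∀ y : D₁, ∃ n : ℕ, ∃ a : MvPolynomial (Fin 3) E ⧸ J,
      (algebraMap (MvPolynomial (Fin 2) E) D₁ g * algebraMap (MvPolynomial (Fin 3) E ⧸ J) D₁
        (Ideal.Quotient.mk J (MvPolynomial.X 2 - MvPolynomial.C s - MvPolynomial.C c))) ^ n * y =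
          algebraMap (MvPolynomial (Fin 3) E ⧸ J) D₁ a := by
    let : Algebra (MvPolynomial (Fin 3) E) K :=
      (MvPolynomial.aeval ![x 0, x 1, w] : MvPolynomial (Fin 3) E →ₐ[E] K).toRingHom.toAlgebra
    have ha : ∀ h : MvPolynomial (Fin 3) E, algebraMap (MvPolynomial (Fin 3) E) K h =
      MvPolynomial.aeval ![x 0, x 1, w] h := fun h => rfl
    have : IsScalarTower E (MvPolynomial (Fin 3) E) K :=
      IsScalarTower.of_algebraMap_eq fun e => by
        rw [ha, MvPolynomial.algebraMap_eq, MvPolynomial.aeval_C]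
    have hg3 : algebraMap (MvPolynomial (Fin 3) E) K (MvPolynomial.rename Fin.castSucc g) =
        MvPolynomial.aeval x g := by
      rw [ha, MvPolynomial.aeval_rename]
      congr 2
      funext i
      fin_cases i <;> rfl
    have hh3 : algebraMap (MvPolynomial (Fin 3) E) K (MvPolynomial.X 2 - MvPolynomial.C s -
        MvPolynomial.C c) = w - algebraMap E K s - algebraMap E K c := by
      rw [ha, map_sub, map_sub, MvPolynomial.aeval_X, MvPolynomial.aeval_C, MvPolynomial.aeval_C]
      rfl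
    obtain ⟨B, hB⟩ := pa_sub (E := E) (K := K) (D := MvPolynomial (Fin 3) E)
      (MvPolynomial.rename Fin.castSucc g * (MvPolynomial.X 2 - MvPolynomial.C s -
        MvPolynomial.C c))
    have hle := pa_le _ B hB (x 0) (x 1) w (MvPolynomial.aeval x g)
      (w - algebraMap E K s - algebraMap E K c) ⟨MvPolynomial.X 0, by rw [ha]; simp⟩
      ⟨MvPolynomial.X 1, by rw [ha]; simp⟩ ⟨MvPolynomial.X 2, by rw [ha]; simp⟩
      ⟨_, hg3⟩ ⟨_, hh3⟩ (by rw [map_mul, hg3, hh3]) hg hwc
    rintro ⟨y, hy⟩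
    have hy' : y ∈ B := by
      rw [hD₁] at hy
      exact hle hy
    obtain ⟨n, d, hd⟩ := (hB y).1 hy'
    refine ⟨n, Ideal.Quotient.mk J d, ?_⟩
    rw [hψ, hψ]
    apply Subtype.ext
    rw [hφ]
    rw [map_mul, hg3, ha, ha] at hd
    push_cast
    rw [hR, hφ]
    exact hd
  have h1 := pa_loc hinj g (Ideal.Quotient.mk J (MvPolynomial.X 2 - MvPolynomial.C s -
      MvPolynomial.C c)) (Ideal.Quotient.mk J (MvPolynomial.X 2 + MvPolynomial.C s))
      (-(2 * s + c)) hu ?_ hloc Q hQ b hbA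
  · rw [← h1]
    unfold cy
    have e := DoubleQuot.quotQuotEquivQuotSupₐ (MvPolynomial (Fin 2) E) J
      (Ideal.span {MvPolynomial.X 2 + MvPolynomial.C s})
    rw [Ideal.map_span, Set.image_singleton] at e
    exact len_equiv (mQ Q) e.toLinearEquiv
  · refine ⟨1, ?_⟩
    rw [hRA, MvPolynomial.rename_C, ← map_sub, mul_one]
    congr 1
    rw [map_neg, map_add, map_mul]
    have h2 : (MvPolynomial.C (2 : E) : MvPolynomial (Fin 3) E) = 2 := map_ofNat _ 2
    rw [h2]
    ring

theorem pa {E K D : Type u} [Field E] [IsAlgClosed E] [Field K] [Algebra E K] [CommRing D]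
    [IsDomain D] [Algebra E D] [Algebra (MvPolynomial (Fin 2) E) D]
    [IsScalarTower E (MvPolynomial (Fin 2) E) D] [Algebra D K] [IsFractionRing D K]
    [IsScalarTower E D K] (hft : Algebra.FiniteType E D) (htr : Td1 E K)
    (g : MvPolynomial (Fin 2) E) (x : Fin 2 → K) (w : K)
    (hxD : ∀ i, x i = algebraMap D K (algebraMap (MvPolynomial (Fin 2) E) D (MvPolynomial.X i)))
    (hnc : ¬ ((∀ i, ∃ e : E, x i = algebraMap E K e) ∧ ∃ e : E, w = algebraMap E K e))
    (s c : E) (hc : c ≠ - 2 * s)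
    (hint : ∀ d : D, IsIntegral (Algebra.adjoin E {x 0, x 1, (MvPolynomial.aeval x g)⁻¹, w,
      (w - algebraMap E K s - algebraMap E K c)⁻¹}) (algebraMap D K d))
    (hg : MvPolynomial.aeval x g ≠ 0) (hwc : w - algebraMap E K s - algebraMap E K c ≠ 0)
    (J : Ideal (MvPolynomial (Fin 3) E))
    (hJ : ∀ h, h ∈ J ↔ MvPolynomial.aeval ![x 0, x 1, w] h = 0) (wD : D)
    (hw : algebraMap D K wD = w) (hws : wD + algebraMap E D s ≠ 0) (Q : Fin 2 → E)
    (hQ : MvPolynomial.eval Q g ≠ 0) :
    len (mQ Q) (D ⧸ Ideal.span {wD + algebraMap E D s}) =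
      (Module.finrank (IntermediateField.adjoin E {x 0, x 1, w}) K : ℕ) * cy J s Q := by
  have hRD : ∀ h : MvPolynomial (Fin 2) E,
      algebraMap D K (algebraMap (MvPolynomial (Fin 2) E) D h) = MvPolynomial.aeval x h := by
    intro h
    have h1 : (IsScalarTower.toAlgHom E D K).comp
        (IsScalarTower.toAlgHom E (MvPolynomial (Fin 2) E) D) = MvPolynomial.aeval x := by
      apply MvPolynomial.algHom_ext
      intro i
      rw [AlgHom.comp_apply, MvPolynomial.aeval_X, hxD]
      rfl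
    exact AlgHom.congr_fun h1 h
  have hinj : Function.Injective (algebraMap D K) := IsFractionRing.injective D K
  have hH : algebraMap D K (wD - algebraMap E D s - algebraMap E D c) =
      w - algebraMap E K s - algebraMap E K c := by
    rw [map_sub, map_sub, hw, ← IsScalarTower.algebraMap_apply, ← IsScalarTower.algebraMap_apply]
  have hk : algebraMap D K (algebraMap (MvPolynomial (Fin 2) E) D g *
      (wD - algebraMap E D s - algebraMap E D c)) =
        MvPolynomial.aeval x g * (w - algebraMap E K s - algebraMap E K c) := by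
    rw [map_mul, hRD, hH]
  have hk0 : algebraMap D K (algebraMap (MvPolynomial (Fin 2) E) D g *
      (wD - algebraMap E D s - algebraMap E D c)) ≠ 0 := by
    rw [hk]
    exact mul_ne_zero hg hwc
  obtain ⟨B, hB⟩ := pa_sub (E := E) (K := K) (algebraMap (MvPolynomial (Fin 2) E) D g *
      (wD - algebraMap E D s - algebraMap E D c))
  have hle := pa_le _ B hB (x 0) (x 1) w _ _ ⟨_, (hxD 0).symm⟩ ⟨_, (hxD 1).symm⟩ ⟨wD, hw⟩
    ⟨_, hRD g⟩ ⟨_, hH⟩ hk hg hwc
  have hBD : ∀ d : D, algebraMap D K d ∈ B := fun d => (hB _).2 ⟨0, d, by simp⟩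
  have hftB : Algebra.FiniteType E B := pa_ft _ hk0 hft B hB
  -- the algebra structures
  generalize hD₁ : Algebra.adjoin E {x 0, x 1, (MvPolynomial.aeval x g)⁻¹, w,
      (w - algebraMap E K s - algebraMap E K c)⁻¹} = D₁ at hle hint
  have hx : ∀ i, x i ∈ D₁ := by
    intro i
    rw [← hD₁]
    apply Algebra.subset_adjoin
    fin_cases i <;> simp
  have hxw : w ∈ D₁ := by rw [← hD₁]; exact Algebra.subset_adjoin (by simp)
  let ρ : MvPolynomial (Fin 2) E →ₐ[E] D₁ := MvPolynomial.aeval fun i => ⟨x i, hx i⟩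
  let : Algebra (MvPolynomial (Fin 2) E) D₁ := ρ.toRingHom.toAlgebra
  have hR : ∀ h : MvPolynomial (Fin 2) E,
      ((algebraMap (MvPolynomial (Fin 2) E) D₁ h : D₁) : K) = MvPolynomial.aeval x h := by
    intro h
    have h1 : D₁.val.comp ρ = MvPolynomial.aeval x := by
      apply MvPolynomial.algHom_ext
      intro i
      rw [AlgHom.comp_apply, MvPolynomial.aeval_X, MvPolynomial.aeval_X]
      rfl
    exact AlgHom.congr_fun h1 h
  have : IsScalarTower E (MvPolynomial (Fin 2) E) D₁ :=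
    IsScalarTower.of_algebraMap_eq (R := E) (S := MvPolynomial (Fin 2) E) (A := D₁) fun e => by
      apply Subtype.ext
      rw [hR, MvPolynomial.algebraMap_eq, MvPolynomial.aeval_C]
      rfl
  let : Algebra D₁ B := (Subalgebra.inclusion hle).toRingHom.toAlgebra
  have hDB : ∀ d : D₁, ((algebraMap D₁ B d : B) : K) = d := fun d => rfl
  have : IsScalarTower D₁ B K := IsScalarTower.of_algebraMap_eq (R := D₁) (S := B) (A := K)
    fun d => rfl
  have : IsScalarTower E D₁ B := IsScalarTower.of_algebraMap_eq (R := E) (S := D₁) (A := B)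
    fun d => rfl
  let : Algebra (MvPolynomial (Fin 2) E) B :=
    ((algebraMap D₁ B).comp (algebraMap (MvPolynomial (Fin 2) E) D₁)).toAlgebra
  have hRB : ∀ h : MvPolynomial (Fin 2) E,
      ((algebraMap (MvPolynomial (Fin 2) E) B h : B) : K) = MvPolynomial.aeval x h := hR
  have : IsScalarTower (MvPolynomial (Fin 2) E) D₁ B :=
    IsScalarTower.of_algebraMap_eq (R := MvPolynomial (Fin 2) E) (S := D₁) (A := B) fun h => rfl
  let : Algebra D B := (RingHom.codRestrict (algebraMap D K) B hBD).toAlgebra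
  have hDB' : ∀ d : D, ((algebraMap D B d : B) : K) = algebraMap D K d := fun d => rfl
  have : IsScalarTower (MvPolynomial (Fin 2) E) D B :=
    IsScalarTower.of_algebraMap_eq (R := MvPolynomial (Fin 2) E) (S := D) (A := B) fun h => by
      apply Subtype.ext
      rw [hDB', hRB, hRD]
  -- finiteness
  have hftD₁ : Algebra.FiniteType E D₁ := by
    rw [← hD₁]
    exact Algebra.FiniteType.adjoin_of_finite (Set.toFinite _)
  have : Algebra.FiniteType D₁ B := Algebra.FiniteType.of_restrictScalars_finiteType E D₁ B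
  have : Algebra.IsIntegral D₁ B := by
    refine ⟨fun y => ?_⟩
    obtain ⟨n, d, hd⟩ := (hB y).1 y.2
    have hval : Function.Injective (algebraMap B K) := Subtype.val_injective
    rw [← isIntegral_algebraMap_iff hval]
    have h1 : IsIntegral D₁ (algebraMap D K d) := hint d
    have hG : (MvPolynomial.aeval x g)⁻¹ ∈ D₁ := by
      rw [← hD₁]; exact Algebra.subset_adjoin (by simp)
    have hH' : (w - algebraMap E K s - algebraMap E K c)⁻¹ ∈ D₁ := by
      rw [← hD₁]; exact Algebra.subset_adjoin (by simp)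
    have h2 : IsIntegral D₁ ((MvPolynomial.aeval x g)⁻¹) :=
      isIntegral_algebraMap (R := D₁) (A := K) (x := ⟨_, hG⟩)
    have h3 : IsIntegral D₁ ((w - algebraMap E K s - algebraMap E K c)⁻¹) :=
      isIntegral_algebraMap (R := D₁) (A := K) (x := ⟨_, hH'⟩)
    have h4 : algebraMap B K y = ((MvPolynomial.aeval x g)⁻¹ *
        (w - algebraMap E K s - algebraMap E K c)⁻¹) ^ n * algebraMap D K d := by
      change (y : K) = _
      rw [← hd, hk, ← mul_inv, inv_pow]
      have h5 := pow_ne_zero n (mul_ne_zero hg hwc)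
      field_simp
    rw [h4]
    exact ((h2.mul h3).pow n).mul h1
  have : Module.Finite D₁ B := Algebra.IsIntegral.finite
  have hdim : Ring.DimensionLEOne D₁ := dim1 htr D₁
  -- fractions
  have : IsFractionRing B K := by
    refine IsFractionRing.of_field B K fun z => ?_
    obtain ⟨a, b, hb, rfl⟩ := IsFractionRing.div_surjective (A := D) z
    exact ⟨algebraMap D B a, algebraMap D B b, rfl⟩
  have hGK : MvPolynomial.aeval x g ∈ IntermediateField.adjoin E {x 0, x 1, w} := by
    have h1 : MvPolynomial.aeval x g ∈ Algebra.adjoin E (Set.range x) := by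
      rw [Algebra.adjoin_range_eq_range_aeval]
      exact ⟨g, rfl⟩
    have h2 : Algebra.adjoin E (Set.range x) ≤
        (IntermediateField.adjoin E {x 0, x 1, w}).toSubalgebra := by
      rw [Algebra.adjoin_le_iff]
      rintro _ ⟨i, rfl⟩
      apply IntermediateField.subset_adjoin
      fin_cases i <;> simp
    exact h2 h1
  have hwK : w ∈ IntermediateField.adjoin E {x 0, x 1, w} :=
    IntermediateField.subset_adjoin E _ (by simp)
  have hHK : w - algebraMap E K s - algebraMap E K c ∈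
      IntermediateField.adjoin E {x 0, x 1, w} :=
    sub_mem (sub_mem hwK (IntermediateField.algebraMap_mem _ _))
      (IntermediateField.algebraMap_mem _ _)
  have hDK : D₁ ≤ (IntermediateField.adjoin E {x 0, x 1, w}).toSubalgebra := by
    rw [← hD₁, Algebra.adjoin_le_iff]
    intro y hy
    simp only [Set.mem_insert_iff, Set.mem_singleton_iff] at hy
    rcases hy with rfl | rfl | rfl | rfl | rfl
    · exact IntermediateField.subset_adjoin E _ (by simp)
    · exact IntermediateField.subset_adjoin E _ (by simp)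
    · exact (IntermediateField.adjoin E {x 0, x 1, w}).inv_mem hGK
    · exact hwK
    · exact (IntermediateField.adjoin E {x 0, x 1, w}).inv_mem hHK
  have hKD : Algebra.adjoin E {x 0, x 1, w} ≤ D₁ := by
    rw [← hD₁]
    apply Algebra.adjoin_mono
    intro y hy
    simp only [Set.mem_insert_iff, Set.mem_singleton_iff] at hy ⊢
    tauto
  let : Algebra D₁ (IntermediateField.adjoin E {x 0, x 1, w}) :=
    (Subalgebra.inclusion hDK).toRingHom.toAlgebra
  have hDK' : ∀ d : D₁, ((algebraMap D₁ (IntermediateField.adjoin E {x 0, x 1, w}) d :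
    IntermediateField.adjoin E {x 0, x 1, w}) : K) = d := fun d => rfl
  have : IsScalarTower D₁ (IntermediateField.adjoin E {x 0, x 1, w}) K :=
    IsScalarTower.of_algebraMap_eq (R := D₁) (S := IntermediateField.adjoin E {x 0, x 1, w})
      (A := K) fun d => rfl
  have : FaithfulSMul D₁ (IntermediateField.adjoin E {x 0, x 1, w}) := by
    rw [faithfulSMul_iff_algebraMap_injective]
    intro a b hab
    apply Subtype.ext
    rw [← hDK', ← hDK', hab]
  have : IsFractionRing D₁ (IntermediateField.adjoin E {x 0, x 1, w}) := by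
    refine IsFractionRing.of_field D₁ (IntermediateField.adjoin E {x 0, x 1, w}) fun z => ?_
    obtain ⟨a, ha, b, hb, hab⟩ := IntermediateField.mem_adjoin_iff_div.mp z.2
    exact ⟨⟨a, hKD ha⟩, ⟨b, hKD hb⟩, Subtype.ext hab⟩
  have : FiniteDimensional (IntermediateField.adjoin E {x 0, x 1, w}) K := by
    have h1 : ∃ t ∈ IntermediateField.adjoin E {x 0, x 1, w}, Transcendental E t := by
      by_contra h
      push Not at h
      apply hnc
      refine ⟨fun i => ?_, ?_⟩
      · by_contra h2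
        exact h (x i) (IntermediateField.subset_adjoin E _ (by fin_cases i <;> simp))
          (pa_tr (x i) h2)
      · by_contra h2
        exact h w hwK (pa_tr w h2)
    obtain ⟨t, ht, htt⟩ := h1
    exact pa_fd (D := D) hft htr _ t ht htt
  have hbm : w + algebraMap E K s ∈ D₁ := add_mem hxw (D₁.algebraMap_mem s)
  have hb1 : (⟨w + algebraMap E K s, hbm⟩ : D₁) ≠ 0 := by
    intro h
    have h1 : w + algebraMap E K s = 0 := congrArg Subtype.val h
    apply hws
    apply hinj
    rw [map_add, hw, ← IsScalarTower.algebraMap_apply, h1, map_zero]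
  have hrk := rk (E := E) (D₁ := D₁) (K₁ := IntermediateField.adjoin E {x 0, x 1, w})
    (D := B) (K := K) hftD₁ hdim ⟨w + algebraMap E K s, hbm⟩ hb1 Q
  have hcy := pa_cy g x w s c hc hg hwc J hJ D₁ hD₁.symm hR Q hQ ⟨w + algebraMap E K s, hbm⟩ rfl
  rw [hcy] at hrk
  rw [← hrk]
  have hu : - (2 * s + c) ≠ 0 := by
    intro h
    apply hc
    linear_combination -h
  have hDBi : Function.Injective (algebraMap D B) := by
    intro a b hab
    apply hinj
    rw [← hDB', ← hDB', hab]
  refine pa_loc hDBi g (wD - algebraMap E D s - algebraMap E D c) (wD + algebraMap E D s)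
    (-(2 * s + c)) hu ?_ ?_ Q hQ _ ?_
  · refine ⟨1, ?_⟩
    have h3 : algebraMap (MvPolynomial (Fin 2) E) D (MvPolynomial.C (-(2 * s + c))) =
        - (2 * algebraMap E D s + algebraMap E D c) := by
      rw [← MvPolynomial.algebraMap_eq, ← IsScalarTower.algebraMap_apply, map_neg, map_add,
        map_mul, map_ofNat]
    rw [h3]
    ring
  · intro y
    obtain ⟨n, d, hd⟩ := (hB y).1 y.2
    refine ⟨n, d, ?_⟩
    apply Subtype.ext
    rw [hDB', ← hd, hk, ← hRB, ← hH, ← hDB']
    rfl
  · apply Subtype.ext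
    rw [hDB', map_add, hw, ← IsScalarTower.algebraMap_apply]
    rfl

end

end Pool.Agent.RDP

end

section


namespace Pool.Agent.RDP

universe u v w

section

private theorem pb_len {R : Type u} {A : Type v} {B : Type w} [CommRing R] [CommRing A] [CommRing B]
    [Algebra R A] [Algebra R B] (p : Ideal R) [p.IsPrime] (j : A →ₐ[R] B) (I : Ideal A) (J : Ideal B)
    (s : R) (hs : s ∉ p) (hIJ : I ≤ J.comap j) (hker : ∀ a, j a ∈ J → ∃ n : ℕ, s ^ n • a ∈ I)
    (hcok : ∀ b : B, ∃ n : ℕ, ∃ a, j a = s ^ n • b) : len p (A ⧸ I) = len p (B ⧸ J) := by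
  have hsn : ∀ n : ℕ, s ^ n ∉ p := fun n h => hs (Ideal.IsPrime.mem_of_pow_mem ‹_› n h)
  refine len_li p (Ideal.quotientMapₐ J j hIJ).toLinearMap ?_ ?_
  · intro m hm
    obtain ⟨a, rfl⟩ := Ideal.Quotient.mk_surjective m
    have h1 : Ideal.Quotient.mk J (j a) = 0 := hm
    obtain ⟨n, hn⟩ := hker a (Ideal.Quotient.eq_zero_iff_mem.1 h1)
    refine ⟨s ^ n, hsn n, ?_⟩
    have h2 : s ^ n • Ideal.Quotient.mk I a = Ideal.Quotient.mk I (s ^ n • a) := rfl
    rw [h2]
    exact Ideal.Quotient.eq_zero_iff_mem.2 hn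
  · intro b
    obtain ⟨b, rfl⟩ := Ideal.Quotient.mk_surjective b
    obtain ⟨n, a, ha⟩ := hcok b
    refine ⟨s ^ n, hsn n, Ideal.Quotient.mk I a, ?_⟩
    show Ideal.Quotient.mk J (j a) = s ^ n • Ideal.Quotient.mk J b
    rw [ha]
    rfl

end

section

theorem pb {E K D : Type u} [Field E] [IsAlgClosed E] [Field K] [Algebra E K] [CommRing D]
    [IsDomain D] [Algebra E D] [Algebra (MvPolynomial (Fin 2) E) D]
    [IsScalarTower E (MvPolynomial (Fin 2) E) D] [Algebra D K] [IsFractionRing D K]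
    [IsScalarTower E D K] (hft : Algebra.FiniteType E D) (htr : Td1 E K)
    (G g : MvPolynomial (Fin 2) E) (x : Fin 2 → K)
    (hxD : ∀ i, x i = algebraMap D K (algebraMap (MvPolynomial (Fin 2) E) D (MvPolynomial.X i)))
    (hnc : ¬ ∀ i, ∃ e : E, x i = algebraMap E K e)
    (hint : ∀ d : D, IsIntegral (Algebra.adjoin E {x 0, x 1, (MvPolynomial.aeval x g)⁻¹})
      (algebraMap D K d)) (h : MvPolynomial (Fin 2) E)
    (hh : ∀ p : MvPolynomial (Fin 2) E, MvPolynomial.aeval x p = 0 ↔ h ∣ p)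
    (hg : ¬ h ∣ g) (hhG : ¬ h ∣ G) (Q : Fin 2 → E) (hQ : MvPolynomial.eval Q g ≠ 0) :
    len (mQ Q) (D ⧸ Ideal.span {algebraMap (MvPolynomial (Fin 2) E) D G}) =
      (Module.finrank (IntermediateField.adjoin E (Set.range x)) K : ℕ) * oQ G h Q := by
  classical
  set gx : K := MvPolynomial.aeval x g with hgx
  have hgx0 : gx ≠ 0 := fun h0 => hg ((hh g).1 h0)
  set D₁ : Subalgebra E K := Algebra.adjoin E {x 0, x 1, gx⁻¹} with hD₁
  have hx : ∀ i, x i ∈ D₁ := by
    intro i
    fin_cases i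
    · exact Algebra.subset_adjoin (Or.inl rfl)
    · exact Algebra.subset_adjoin (Or.inr (Or.inl rfl))
  have hgi : gx⁻¹ ∈ D₁ := Algebra.subset_adjoin (Or.inr (Or.inr rfl))
  let φ₁ : MvPolynomial (Fin 2) E →ₐ[E] D₁ := MvPolynomial.aeval fun i => (⟨x i, hx i⟩ : D₁)
  have hφ₁ : ∀ p, ((φ₁ p : D₁) : K) = MvPolynomial.aeval x p := by
    intro p
    have h1 : D₁.val.comp φ₁ = MvPolynomial.aeval x := by
      apply MvPolynomial.algHom_ext
      intro i
      rw [MvPolynomial.aeval_X]
      show ((MvPolynomial.aeval (fun i => (⟨x i, hx i⟩ : D₁)) (MvPolynomial.X i) : D₁) : K) = x i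
      rw [MvPolynomial.aeval_X]
    exact AlgHom.congr_fun h1 p
  let _ : Algebra (MvPolynomial (Fin 2) E) D₁ := φ₁.toRingHom.toAlgebra
  have hal₁ : ∀ p, algebraMap (MvPolynomial (Fin 2) E) D₁ p = φ₁ p := fun _ => rfl
  have _ : IsScalarTower E (MvPolynomial (Fin 2) E) D₁ :=
    IsScalarTower.of_algebraMap_eq fun e => (φ₁.commutes e).symm
  -- the elements of `D₁`
  have hD₁e : ∀ y ∈ D₁, ∃ (n : ℕ) (q : MvPolynomial (Fin 2) E),
      gx ^ n * y = MvPolynomial.aeval x q := by
    intro y hy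
    induction hy using Algebra.adjoin_induction with
    | mem y hy =>
      rcases hy with rfl | rfl | rfl
      · exact ⟨0, MvPolynomial.X 0, by rw [pow_zero, one_mul, MvPolynomial.aeval_X]⟩
      · exact ⟨0, MvPolynomial.X 1, by rw [pow_zero, one_mul, MvPolynomial.aeval_X]⟩
      · exact ⟨1, 1, by rw [pow_one, mul_inv_cancel₀ hgx0, map_one]⟩
    | algebraMap e => exact ⟨0, MvPolynomial.C e, by rw [pow_zero, one_mul, MvPolynomial.aeval_C]⟩
    | add y z _ _ hy hz =>
      obtain ⟨n, q, hq⟩ := hy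
      obtain ⟨m, r, hr⟩ := hz
      refine ⟨n + m, g ^ m * q + g ^ n * r, ?_⟩
      rw [map_add, map_mul, map_mul, map_pow, map_pow, ← hq, ← hr, ← hgx]
      ring
    | mul y z _ _ hy hz =>
      obtain ⟨n, q, hq⟩ := hy
      obtain ⟨m, r, hr⟩ := hz
      refine ⟨n + m, q * r, ?_⟩
      rw [map_mul, ← hq, ← hr]
      ring
  -- the image of `D`
  have hDx : ∀ p, algebraMap D K (algebraMap (MvPolynomial (Fin 2) E) D p) =
      MvPolynomial.aeval x p := by
    intro p
    have h1 : (IsScalarTower.toAlgHom E D K).comp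
        (IsScalarTower.toAlgHom E (MvPolynomial (Fin 2) E) D) = MvPolynomial.aeval x := by
      apply MvPolynomial.algHom_ext
      intro i
      rw [MvPolynomial.aeval_X]
      exact (hxD i).symm
    exact AlgHom.congr_fun h1 p
  obtain ⟨T, hT⟩ := hft.out
  set S₂ : Set K := algebraMap D K '' (T : Set D) with hS₂
  have hS₂fin : S₂.Finite := T.finite_toSet.image _
  have hS₂int : ∀ y ∈ S₂, IsIntegral D₁ y := by
    rintro _ ⟨d, _, rfl⟩
    exact hint d
  set D₂ : Subalgebra D₁ K := Algebra.adjoin D₁ S₂ with hD₂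
  have hfin : Module.Finite D₁ D₂ := Algebra.finite_adjoin_of_finite_of_isIntegral hS₂fin hS₂int
  have hDD₂ : ∀ d : D, algebraMap D K d ∈ D₂ := by
    intro d
    have hd : d ∈ Algebra.adjoin E (T : Set D) := by
      rw [hT]
      trivial
    induction hd using Algebra.adjoin_induction with
    | mem d hd => exact Algebra.subset_adjoin ⟨d, hd, rfl⟩
    | algebraMap e =>
      rw [← IsScalarTower.algebraMap_apply E D K]
      exact D₂.algebraMap_mem (algebraMap E D₁ e)
    | add y z _ _ hy hz =>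
      rw [map_add]
      exact D₂.add_mem hy hz
    | mul y z _ _ hy hz =>
      rw [map_mul]
      exact D₂.mul_mem hy hz
  have hD₂e : ∀ y ∈ D₂, ∃ (n : ℕ) (d : D), gx ^ n * y = algebraMap D K d := by
    intro y hy
    induction hy using Algebra.adjoin_induction with
    | mem y hy =>
      obtain ⟨d, _, rfl⟩ := hy
      exact ⟨0, d, by rw [pow_zero, one_mul]⟩
    | algebraMap e =>
      obtain ⟨n, q, hq⟩ := hD₁e e e.2
      refine ⟨n, algebraMap (MvPolynomial (Fin 2) E) D q, ?_⟩
      rw [hDx]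
      exact hq
    | add y z _ _ hy hz =>
      obtain ⟨n, q, hq⟩ := hy
      obtain ⟨m, r, hr⟩ := hz
      refine ⟨n + m, algebraMap (MvPolynomial (Fin 2) E) D (g ^ m) * q +
        algebraMap (MvPolynomial (Fin 2) E) D (g ^ n) * r, ?_⟩
      rw [map_add, map_mul, map_mul, hDx, hDx, map_pow, map_pow, ← hq, ← hr, ← hgx]
      ring
    | mul y z _ _ hy hz =>
      obtain ⟨n, q, hq⟩ := hy
      obtain ⟨m, r, hr⟩ := hz
      refine ⟨n + m, q * r, ?_⟩
      rw [map_mul, ← hq, ← hr]
      ring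
  let _ : Algebra (MvPolynomial (Fin 2) E) D₂ :=
    ((algebraMap D₁ D₂).comp (algebraMap (MvPolynomial (Fin 2) E) D₁)).toAlgebra
  have _ : IsScalarTower (MvPolynomial (Fin 2) E) D₁ D₂ :=
    IsScalarTower.of_algebraMap_eq fun _ => rfl
  have hal₂ : ∀ p, ((algebraMap (MvPolynomial (Fin 2) E) D₂ p : D₂) : K) =
      MvPolynomial.aeval x p := hφ₁
  -- fraction fields
  have _ : FaithfulSMul D₂ K := (faithfulSMul_iff_algebraMap_injective D₂ K).2 Subtype.val_injective
  have hfr₂ : IsFractionRing D₂ K := by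
    refine IsFractionRing.of_field D₂ K fun z => ?_
    obtain ⟨a, b, hb, rfl⟩ := IsFractionRing.div_surjective D z
    exact ⟨⟨_, hDD₂ a⟩, ⟨_, hDD₂ b⟩, rfl⟩
  set K₁ : IntermediateField E K := IntermediateField.adjoin E (Set.range x) with hK₁
  have hKx : ∀ p : MvPolynomial (Fin 2) E,
      MvPolynomial.aeval x p ∈ Algebra.adjoin E (Set.range x) := by
    intro p
    rw [Algebra.adjoin_range_eq_range_aeval]
    exact ⟨p, rfl⟩
  have hle₁ : ∀ y ∈ D₁, y ∈ K₁ := by
    intro y hy
    have h1 : D₁ ≤ K₁.toSubalgebra := by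
      rw [hD₁]
      refine Algebra.adjoin_le ?_
      rintro _ (rfl | rfl | rfl)
      · exact IntermediateField.subset_adjoin E _ ⟨0, rfl⟩
      · exact IntermediateField.subset_adjoin E _ ⟨1, rfl⟩
      · exact K₁.inv_mem (IntermediateField.algebra_adjoin_le_adjoin E _ (hKx g))
    exact h1 hy
  have hle₂ : ∀ y ∈ Algebra.adjoin E (Set.range x), y ∈ D₁ := by
    intro y hy
    have h1 : Algebra.adjoin E (Set.range x) ≤ D₁ := by
      refine Algebra.adjoin_le ?_
      rintro _ ⟨i, rfl⟩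
      exact hx i
    exact h1 hy
  let ι : D₁ →+* K₁ :=
    { toFun := fun y => ⟨y, hle₁ y y.2⟩
      map_one' := rfl
      map_mul' := fun _ _ => rfl
      map_zero' := rfl
      map_add' := fun _ _ => rfl }
  let _ : Algebra D₁ K₁ := ι.toAlgebra
  have _ : IsScalarTower D₁ K₁ K := IsScalarTower.of_algebraMap_eq fun _ => rfl
  have _ : FaithfulSMul D₁ K₁ := (faithfulSMul_iff_algebraMap_injective D₁ K₁).2 (by
    intro a b hab
    exact Subtype.ext (congrArg (fun z : K₁ => (z : K)) hab))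
  have hfr₁ : IsFractionRing D₁ K₁ := by
    refine IsFractionRing.of_field D₁ K₁ fun z => ?_
    obtain ⟨r, hr, s, hs, hz⟩ := IntermediateField.mem_adjoin_iff_div.1 z.2
    exact ⟨⟨r, hle₂ r hr⟩, ⟨s, hle₂ s hs⟩, Subtype.ext hz⟩
  -- `K` is finite over `K₁`
  have hfd : FiniteDimensional K₁ K := by
    have _ : Finite S₂ := hS₂fin.to_subtype
    have h1 : FiniteDimensional K₁ (IntermediateField.adjoin K₁ S₂) :=
      IntermediateField.finiteDimensional_adjoin fun y hy => (hS₂int y hy).tower_top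
    have h2 : IntermediateField.adjoin K₁ S₂ = ⊤ := by
      rw [eq_top_iff]
      intro z _
      obtain ⟨a, b, hb, rfl⟩ := IsFractionRing.div_surjective D z
      have h3 : ∀ d : D, algebraMap D K d ∈ IntermediateField.adjoin K₁ S₂ := by
        intro d
        have hd : d ∈ Algebra.adjoin E (T : Set D) := by
          rw [hT]
          trivial
        induction hd using Algebra.adjoin_induction with
        | mem d hd => exact IntermediateField.subset_adjoin _ _ ⟨d, hd, rfl⟩
        | algebraMap e =>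
          rw [← IsScalarTower.algebraMap_apply E D K]
          exact IntermediateField.algebraMap_mem _ (algebraMap E K₁ e)
        | add y z _ _ hy hz =>
          rw [map_add]
          exact add_mem hy hz
        | mul y z _ _ hy hz =>
          rw [map_mul]
          exact mul_mem hy hz
      exact div_mem (h3 a) (h3 b)
    rw [h2] at h1
    exact Module.Finite.equiv (IntermediateField.topEquiv (F := K₁) (E := K)).toLinearEquiv
  have hft₁ : Algebra.FiniteType E D₁ := by
    rw [← Subalgebra.fg_iff_finiteType, hD₁]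
    have h1 : ({x 0, x 1, gx⁻¹} : Set K) = (({x 0, x 1, gx⁻¹} : Finset K) : Set K) := by
      simp
    rw [h1]
    exact Subalgebra.fg_adjoin_finset _
  have hb : φ₁ G ≠ 0 := by
    intro h0
    have h1 : MvPolynomial.aeval x G = 0 := by
      rw [← hφ₁, h0]
      rfl
    exact hhG ((hh G).1 h1)
  have hgQ : g ∉ mQ Q := fun h1 => hQ ((mem_mQ Q g).1 h1)
  have hsm₁ : ∀ (n : ℕ) (y : D₁), ((g ^ n • y : D₁) : K) = gx ^ n * y := by
    intro n y
    have h1 : g ^ n • y = φ₁ (g ^ n) * y := rfl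
    rw [h1, MulMemClass.coe_mul, hφ₁, map_pow]
  have hsm₂ : ∀ (n : ℕ) (y : D₂), ((g ^ n • y : D₂) : K) = gx ^ n * y := by
    intro n y
    have h1 : g ^ n • y = algebraMap (MvPolynomial (Fin 2) E) D₂ (g ^ n) * y := rfl
    rw [h1, MulMemClass.coe_mul, hal₂, map_pow]
  have e1 := rk (D₁ := D₁) (K₁ := K₁) (D := D₂) (K := K) hft₁ (dim1 htr D₁) (φ₁ G) hb Q
  -- from `D` to `D₂`
  let j₂ : D →ₐ[MvPolynomial (Fin 2) E] D₂ :=
    { toFun := fun d => ⟨algebraMap D K d, hDD₂ d⟩
      map_one' := Subtype.ext (map_one _)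
      map_mul' := fun _ _ => Subtype.ext (map_mul _ _ _)
      map_zero' := Subtype.ext (map_zero _)
      map_add' := fun _ _ => Subtype.ext (map_add _ _ _)
      commutes' := fun p => Subtype.ext ((hDx p).trans (hal₂ p).symm) }
  have hj₂ : ∀ d, ((j₂ d : D₂) : K) = algebraMap D K d := fun _ => rfl
  have hinj : Function.Injective (algebraMap D K) := IsFractionRing.injective D K
  have e2 : len (mQ Q) (D ⧸ Ideal.span {algebraMap (MvPolynomial (Fin 2) E) D G}) =
      len (mQ Q) (D₂ ⧸ Ideal.span {algebraMap D₁ D₂ (φ₁ G)}) := by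
    refine pb_len (mQ Q) j₂ _ _ g hgQ ?_ ?_ ?_
    · rw [Ideal.span_singleton_le_iff_mem, Ideal.mem_comap]
      refine Ideal.subset_span ?_
      rw [Set.mem_singleton_iff]
      exact j₂.commutes G
    · intro d hd
      obtain ⟨c, hc⟩ := Ideal.mem_span_singleton'.1 hd
      obtain ⟨n, d', hd'⟩ := hD₂e c c.2
      refine ⟨n, ?_⟩
      rw [Ideal.mem_span_singleton']
      refine ⟨d', hinj ?_⟩
      have h1 : (c : K) * MvPolynomial.aeval x G = algebraMap D K d := by
        rw [← hφ₁ G]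
        exact congrArg (fun z : D₂ => (z : K)) hc
      have h2 : g ^ n • d = algebraMap (MvPolynomial (Fin 2) E) D (g ^ n) * d :=
        Algebra.smul_def _ _
      rw [h2, map_mul, map_mul, hDx, hDx, ← hd', ← h1, map_pow, mul_assoc]
    · intro b
      obtain ⟨n, d, hd⟩ := hD₂e b b.2
      refine ⟨n, d, Subtype.ext ?_⟩
      rw [hj₂, hsm₂, hd]
  -- from the plane to `D₁`
  have e3 : oQ G h Q = len (mQ Q) (D₁ ⧸ Ideal.span {φ₁ G}) := by
    unfold oQ
    refine pb_len (mQ Q) (Algebra.ofId (MvPolynomial (Fin 2) E) D₁) _ _ g hgQ ?_ ?_ ?_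
    · rw [Ideal.span_le]
      intro y hy
      show φ₁ y ∈ Ideal.span {φ₁ G}
      rcases hy with hy | hy
      · rw [hy]
        exact Ideal.subset_span rfl
      · have h1 : φ₁ h = 0 := by
          apply Subtype.ext
          rw [hφ₁]
          exact (hh h).2 dvd_rfl
        rw [Set.mem_singleton_iff.1 hy, h1]
        exact Ideal.zero_mem _
    · intro p hp
      obtain ⟨c, hc⟩ := Ideal.mem_span_singleton'.1 hp
      obtain ⟨n, q, hq⟩ := hD₁e c c.2
      refine ⟨n, ?_⟩
      have h1 : (c : K) * MvPolynomial.aeval x G = MvPolynomial.aeval x p := by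
        rw [← hφ₁ G, ← hφ₁ p]
        exact congrArg (fun z : D₁ => (z : K)) hc
      have h2 : MvPolynomial.aeval x (g ^ n * p - q * G) = 0 := by
        rw [map_sub, map_mul, map_mul, map_pow, ← hq, ← h1, ← hgx]
        ring
      obtain ⟨r, hr⟩ := (hh _).1 h2
      rw [Ideal.mem_span_pair]
      refine ⟨q, r, ?_⟩
      rw [smul_eq_mul, eq_comm, ← sub_eq_iff_eq_add', hr, mul_comm]
    · intro b
      obtain ⟨n, q, hq⟩ := hD₁e b b.2
      refine ⟨n, q, Subtype.ext ?_⟩
      rw [hsm₁, hq]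
      exact hφ₁ q
  rw [e2, e1, e3]

end

end Pool.Agent.RDP

end

section


namespace Pool.Agent.RDP

universe u v w

section

theorem p1_ex {E K : Type u} [Field E] [Field K] [Algebra E K] (σ : K) (x : K)
    (hx : x ∈ Algebra.adjoin E {σ}) : ∃ p : Polynomial E, Polynomial.aeval σ p = x := by
  rw [Algebra.adjoin_singleton_eq_range_aeval] at hx
  obtain ⟨p, hp⟩ := hx
  exact ⟨p, hp⟩

theorem p1_one {E K : Type u} [Field E] [Field K] [Algebra E K] (σ : K) (hσ : Transcendental E σ)
    (b : Algebra.adjoin E {σ}) (hb : (b : K) = σ) :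
    Function.Bijective (algebraMap E (Algebra.adjoin E {σ} ⧸ Ideal.span {b})) := by
  constructor
  · have : Nontrivial (Algebra.adjoin E {σ} ⧸ Ideal.span {b}) := by
      rw [Ideal.Quotient.nontrivial_iff]
      intro h
      rw [Ideal.span_singleton_eq_top] at h
      obtain ⟨c, hc⟩ := h.exists_right_inv
      have hc' : σ * (c : K) = 1 := by
        have := congrArg (Subtype.val) hc
        simpa [hb] using this
      obtain ⟨p, hp⟩ := p1_ex σ _ c.2
      have h0 : Polynomial.aeval σ (Polynomial.X * p - 1) = 0 := by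
        rw [map_sub, map_mul, Polynomial.aeval_X, map_one]
        rw [hp, hc', sub_self]
      have h1 := (transcendental_iff.mp hσ) _ h0
      have h2 := congrArg (Polynomial.eval 0) h1
      simp at h2
    exact (algebraMap E (Algebra.adjoin E {σ} ⧸ Ideal.span {b})).injective
  · intro m
    obtain ⟨d, rfl⟩ := Ideal.Quotient.mk_surjective m
    obtain ⟨p, hp'⟩ := p1_ex σ _ d.2
    refine ⟨p.coeff 0, ?_⟩
    have e0 : algebraMap E (Algebra.adjoin E {σ} ⧸ Ideal.span {b}) (p.coeff 0) =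
        Ideal.Quotient.mk (Ideal.span {b}) (algebraMap E (Algebra.adjoin E {σ}) (p.coeff 0)) := rfl
    rw [e0, Ideal.Quotient.eq, Ideal.mem_span_singleton]
    have hmem : Polynomial.aeval σ p.divX ∈ Algebra.adjoin E {σ} := by
      rw [Algebra.adjoin_singleton_eq_range_aeval]
      exact ⟨_, rfl⟩
    refine ⟨-⟨_, hmem⟩, ?_⟩
    apply Subtype.ext
    have e1 : Polynomial.aeval σ p = Polynomial.aeval σ p.divX * σ +
        algebraMap E K (p.coeff 0) := by
      conv_lhs => rw [← Polynomial.divX_mul_X_add p]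
      rw [map_add, map_mul, Polynomial.aeval_X, Polynomial.aeval_C]
    push_cast
    rw [hb, ← hp', e1]
    ring

open scoped IntermediateField.algebraAdjoinAdjoin in
theorem p1_aux {E K D : Type u} [Field E] [IsAlgClosed E] [Field K] [Algebra E K] [CommRing D]
    [IsDomain D] [Algebra E D] [Algebra (MvPolynomial (Fin 2) E) D]
    [IsScalarTower E (MvPolynomial (Fin 2) E) D] [Algebra D K] [IsFractionRing D K]
    [IsScalarTower E D K] (hft : Algebra.FiniteType E D) (P : Fin 2 → E)
    (hxD : ∀ i, algebraMap (MvPolynomial (Fin 2) E) D (MvPolynomial.X i) = algebraMap E D (P i))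
    (s : D) (hst : Transcendental E s) (hs : ∀ d : D, IsIntegral (Algebra.adjoin E {s}) d)
    [FiniteDimensional (IntermediateField.adjoin E {algebraMap D K s}) K] :
    len (mQ P) (D ⧸ Ideal.span {s}) =
      (Module.finrank (IntermediateField.adjoin E {algebraMap D K s}) K : ℕ) := by
  set σ : K := algebraMap D K s with hσd
  have hinj : Function.Injective (algebraMap D K) := IsFractionRing.injective D K
  have hσ : Transcendental E σ := by
    intro h
    apply hst
    exact (isAlgebraic_algebraMap_iff hinj).mp h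
  let f : D →ₐ[E] K := IsScalarTower.toAlgHom E D K
  have hf : Function.Injective f := hinj
  have hle : Algebra.adjoin E {σ} ≤ f.range := by
    rw [Algebra.adjoin_le_iff]
    rintro x hx
    rw [Set.mem_singleton_iff] at hx
    subst hx
    exact ⟨s, rfl⟩
  let φ : Algebra.adjoin E {σ} →ₐ[E] D :=
    ((AlgEquiv.ofInjective f hf).symm : f.range →ₐ[E] D).comp (Subalgebra.inclusion hle)
  have hφ : ∀ x : Algebra.adjoin E {σ}, algebraMap D K (φ x) = (x : K) := by
    intro x
    have h1 := (AlgEquiv.ofInjective f hf).apply_symm_apply (Subalgebra.inclusion hle x)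
    have h2 := congrArg Subtype.val h1
    exact h2
  let : Algebra (Algebra.adjoin E {σ}) D := φ.toRingHom.toAlgebra
  have hφ' : ∀ x : Algebra.adjoin E {σ}, algebraMap (Algebra.adjoin E {σ}) D x = φ x :=
    fun x => rfl
  have : IsScalarTower (Algebra.adjoin E {σ}) D K :=
    IsScalarTower.of_algebraMap_eq fun x => (hφ x).symm
  have : IsScalarTower E (Algebra.adjoin E {σ}) D :=
    IsScalarTower.of_algebraMap_eq fun x => (φ.commutes x).symm
  let : Algebra (MvPolynomial (Fin 2) E) (Algebra.adjoin E {σ}) :=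
    ((algebraMap E (Algebra.adjoin E {σ})).comp (MvPolynomial.eval P)).toAlgebra
  have hR : ∀ h : MvPolynomial (Fin 2) E, algebraMap (MvPolynomial (Fin 2) E)
      (Algebra.adjoin E {σ}) h = algebraMap E (Algebra.adjoin E {σ}) (MvPolynomial.eval P h) :=
    fun h => rfl
  have : IsScalarTower E (MvPolynomial (Fin 2) E) (Algebra.adjoin E {σ}) :=
    IsScalarTower.of_algebraMap_eq fun x => by
      rw [hR, MvPolynomial.algebraMap_eq, MvPolynomial.eval_C]
  have : IsScalarTower (MvPolynomial (Fin 2) E) (Algebra.adjoin E {σ}) D := by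
    have h1 : (IsScalarTower.toAlgHom E (MvPolynomial (Fin 2) E) D) =
        (Algebra.ofId E D).comp (MvPolynomial.aeval P) := by
      apply MvPolynomial.algHom_ext
      intro i
      simp only [IsScalarTower.coe_toAlgHom', AlgHom.comp_apply, MvPolynomial.aeval_X]
      rw [hxD]
      rfl
    refine IsScalarTower.of_algebraMap_eq fun h => ?_
    rw [hR, hφ', AlgHom.commutes]
    have h2 := AlgHom.congr_fun h1 h
    have h3 : (MvPolynomial.aeval P : MvPolynomial (Fin 2) E →ₐ[E] E) h =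
        MvPolynomial.eval P h := by
      rw [MvPolynomial.aeval_eq_eval]
    simp only [IsScalarTower.coe_toAlgHom', AlgHom.comp_apply] at h2
    rw [h2, h3]
    rfl
  have hft1 : Algebra.FiniteType E (Algebra.adjoin E {σ}) := by
    rw [← Subalgebra.fg_iff_finiteType]
    exact ⟨{σ}, by simp⟩
  have hdim : Ring.DimensionLEOne (Algebra.adjoin E {σ}) := by
    have : IsPrincipalIdealRing (Algebra.adjoin E {σ}) := by
      let g : Polynomial E →ₐ[E] Algebra.adjoin E {σ} :=
        Polynomial.aeval ⟨σ, Algebra.self_mem_adjoin_singleton E σ⟩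
      refine IsPrincipalIdealRing.of_surjective g.toRingHom ?_
      intro d
      obtain ⟨p, hp⟩ := p1_ex σ _ d.2
      refine ⟨p, ?_⟩
      apply Subtype.ext
      rw [← hp]
      change ((Polynomial.aeval (⟨σ, Algebra.self_mem_adjoin_singleton E σ⟩ :
        Algebra.adjoin E {σ}) p : Algebra.adjoin E {σ}) : K) = Polynomial.aeval σ p
      rw [Polynomial.aeval_subalgebra_coe]
    infer_instance
  have : Algebra.FiniteType (Algebra.adjoin E {σ}) D :=
    Algebra.FiniteType.of_restrictScalars_finiteType E (Algebra.adjoin E {σ}) D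
  have : Algebra.IsIntegral (Algebra.adjoin E {σ}) D := by
    refine ⟨fun d => ?_⟩
    have hmem : ∀ x : Algebra.adjoin E {s}, algebraMap D K (x : D) ∈ Algebra.adjoin E {σ} := by
      intro x
      have h1 : f (x : D) ∈ (Algebra.adjoin E {s}).map f := ⟨_, x.2, rfl⟩
      rw [AlgHom.map_adjoin, Set.image_singleton] at h1
      exact h1
    let ψ : Algebra.adjoin E {s} →+* Algebra.adjoin E {σ} :=
      ((algebraMap D K).comp (algebraMap (Algebra.adjoin E {s}) D)).codRestrict
        (Algebra.adjoin E {σ}) (fun x => hmem x)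
    refine (hs d).map_of_comp_eq ψ (RingHom.id D) ?_
    ext x
    apply hinj
    rw [RingHom.comp_apply, RingHom.comp_apply, hφ', hφ]
    rfl
  have : Module.Finite (Algebra.adjoin E {σ}) D := Algebra.IsIntegral.finite
  let b : Algebra.adjoin E {σ} := ⟨σ, Algebra.self_mem_adjoin_singleton E σ⟩
  have hb : b ≠ 0 := by
    intro h
    have h1 : σ = 0 := congrArg Subtype.val h
    apply hσ
    rw [h1]
    exact isAlgebraic_zero
  have hbs : algebraMap (Algebra.adjoin E {σ}) D b = s := by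
    apply hinj
    rw [hφ', hφ]
  have : IsFractionRing (Algebra.adjoin E {σ}) (IntermediateField.adjoin E {σ}) := by
    exact IntermediateField.algebraAdjoinAdjoin.instIsFractionRingSubtypeMemSubalgebraAdjoinAdjoin E {σ}
  have hrk := rk (E := E) (D₁ := Algebra.adjoin E {σ}) (K₁ := IntermediateField.adjoin E {σ})
    (D := D) (K := K) hft1 hdim b hb P
  rw [hbs] at hrk
  rw [hrk]
  have hlen : len (mQ P) (Algebra.adjoin E {σ} ⧸ Ideal.span {b}) = 1 := by
    rw [(dimE P (Algebra.adjoin E {σ} ⧸ Ideal.span {b}) ?_).1]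
    · let e : E ≃ₗ[E] (Algebra.adjoin E {σ} ⧸ Ideal.span {b}) :=
        LinearEquiv.ofBijective (Algebra.linearMap E (Algebra.adjoin E {σ} ⧸ Ideal.span {b}))
          (p1_one σ hσ b rfl)
      rw [← e.length_eq]
      exact Module.length_eq_one E E
    · intro i m
      obtain ⟨d, rfl⟩ := Ideal.Quotient.mk_surjective m
      have e1 : (MvPolynomial.X i : MvPolynomial (Fin 2) E) • d = P i • d := by
        rw [Algebra.smul_def, hR, MvPolynomial.eval_X, ← Algebra.smul_def]
      exact congrArg (Ideal.Quotient.mk (Ideal.span {b})) e1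
  rw [hlen, mul_one]

theorem p1 {E K D : Type u} [Field E] [IsAlgClosed E] [Field K] [Algebra E K] [CommRing D]
    [IsDomain D] [Algebra E D] [Algebra (MvPolynomial (Fin 2) E) D]
    [IsScalarTower E (MvPolynomial (Fin 2) E) D] [Algebra D K] [IsFractionRing D K]
    [IsScalarTower E D K] (hft : Algebra.FiniteType E D) (P : Fin 2 → E)
    (hxD : ∀ i, algebraMap (MvPolynomial (Fin 2) E) D (MvPolynomial.X i) = algebraMap E D (P i))
    (s : D) (hst : Transcendental E s) (hs : ∀ d : D, IsIntegral (Algebra.adjoin E {s}) d)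
    [FiniteDimensional (IntermediateField.adjoin E {algebraMap D K s}) K] (Q : Fin 2 → E) :
    (Q = P → len (mQ Q) (D ⧸ Ideal.span {s}) =
      (Module.finrank (IntermediateField.adjoin E {algebraMap D K s}) K : ℕ)) ∧
    (Q ≠ P → len (mQ Q) (D ⧸ Ideal.span {s}) = 0) := by
  have hsm : ∀ (i : Fin 2) (m : D ⧸ Ideal.span {s}),
      (MvPolynomial.X i : MvPolynomial (Fin 2) E) • m = P i • m := by
    intro i m
    obtain ⟨d, rfl⟩ := Ideal.Quotient.mk_surjective m
    have e1 : (MvPolynomial.X i : MvPolynomial (Fin 2) E) • d = P i • d := by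
      rw [Algebra.smul_def, hxD, ← Algebra.smul_def]
    exact congrArg (Ideal.Quotient.mk (Ideal.span {s})) e1
  constructor
  · rintro rfl
    open scoped IntermediateField.algebraAdjoinAdjoin in
    exact p1_aux hft Q hxD s hst hs
  · intro hQ
    exact (dimE P (D ⧸ Ideal.span {s}) hsm).2 Q hQ

end

end Pool.Agent.RDP

end

section


namespace Pool.Agent.RDP

universe u v w

section

theorem rp_ex {E L : Type u} [Field E] [Field L] [Algebra E L] (V : ValuationSubring L)
    (hE : Ov E V) : ∃ (K : Type u) (_ : Field K) (_ : Algebra E K) (π : V →+* K), Rp E V K π := by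
  let i : E →+* V := (algebraMap E L).codRestrict V.toSubring hE
  let alg : Algebra E (IsLocalRing.ResidueField V) := ((IsLocalRing.residue V).comp i).toAlgebra
  refine ⟨IsLocalRing.ResidueField V, inferInstance, alg, IsLocalRing.residue V,
    ⟨IsLocalRing.residue_surjective, fun y => ?_, fun e h => rfl⟩⟩
  rw [IsLocalRing.residue_eq_zero_iff, ValuationSubring.mem_nonunits_iff_exists_mem_maximalIdeal]
  exact ⟨fun h => ⟨y.2, h⟩, fun ⟨_, h⟩ => h⟩

end

end Pool.Agent.RDP

end

section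


namespace Pool.Agent.RDP

universe u v w

private theorem loc_0_len {R : Type u} [CommRing R] (q : Ideal R) [q.IsPrime] (M : Type v)
    [AddCommGroup M] [Module R M] (h : R) (hq : h ∉ q) (hM : ∀ m : M, h • m = 0) :
    len q M = 0 := by
  unfold len
  rw [Module.length_eq_zero_iff]
  have key : ∀ a : LocalizedModule q.primeCompl M, a = 0 := by
    intro a
    induction a using LocalizedModule.induction_on with
    | h m t =>
      rw [← LocalizedModule.zero_mk t, LocalizedModule.mk_eq]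
      refine ⟨⟨h, hq⟩, ?_⟩
      rw [smul_zero, smul_zero]
      exact hM _
  exact ⟨fun a b => by rw [key a, key b]⟩

private theorem loc_0_rho {κ L : Type u} [Field κ] [Field L] [Algebra κ L]
    (V : ValuationSubring L) (hκ : Ov κ V)
    (hres : ∀ y ∈ V, ∃ e : κ, y - algebraMap κ L e ∈ V.nonunits) :
    ∃ ρ : V →+* κ, (∀ y : V, (y : L) - algebraMap κ L (ρ y) ∈ V.nonunits) ∧
      ∀ (y : V) (e : κ), (y : L) - algebraMap κ L e ∈ V.nonunits → ρ y = e := by
  let j : κ →+* V := (algebraMap κ L).codRestrict V hκ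
  let f : κ →+* IsLocalRing.ResidueField V := (IsLocalRing.residue V).comp j
  have hf : Function.Bijective f := by
    refine ⟨f.injective, fun z => ?_⟩
    obtain ⟨y, rfl⟩ := IsLocalRing.residue_surjective z
    obtain ⟨e, he⟩ := hres y y.2
    refine ⟨e, ?_⟩
    have h1 : ((y - j e : V) : L) ∈ V.nonunits := he
    rw [ValuationSubring.coe_mem_nonunits_iff, ← IsLocalRing.residue_eq_zero_iff, map_sub,
      sub_eq_zero] at h1
    exact h1.symm
  let g : κ ≃+* IsLocalRing.ResidueField V := RingEquiv.ofBijective f hf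
  have h1 : ∀ y : V, (y : L) - algebraMap κ L (g.symm (IsLocalRing.residue V y)) ∈ V.nonunits := by
    intro y
    have h2 : ((y - j (g.symm (IsLocalRing.residue V y)) : V) : L) ∈ V.nonunits := by
      rw [ValuationSubring.coe_mem_nonunits_iff, ← IsLocalRing.residue_eq_zero_iff, map_sub,
        sub_eq_zero]
      exact (g.apply_symm_apply (IsLocalRing.residue V y)).symm
    exact h2
  refine ⟨g.symm.toRingHom.comp (IsLocalRing.residue V), h1, fun y e he => ?_⟩
  have h2 : ((y - j e : V) : L) ∈ V.nonunits := he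
  rw [ValuationSubring.coe_mem_nonunits_iff, ← IsLocalRing.residue_eq_zero_iff, map_sub,
    sub_eq_zero] at h2
  show g.symm (IsLocalRing.residue V y) = e
  rw [h2]
  exact g.symm_apply_apply e

section

variable {E κ L : Type u} [Field E] [IsAlgClosed E] [Field κ] [Field L] [Algebra E κ] [Algebra κ L]
  [Algebra E L] [IsScalarTower E κ L] {f g : MvPolynomial (Fin 2) E} {t : E} {P : Fin 2 → E} {s : κ}
  {τ : L} {x : Fin 2 → L} {w : L} {q : Fin 2 → κ} {qw : κ} {𝒜 : Set (Fin 2 → E)} {c : E}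
  {B : Subalgebra E L}
theorem loc_0 (hL : LD f g t P s τ x w q qw 𝒜) (V : ValuationSubring L) (hκ : Ov κ V)
    (hV : V ≠ ⊤) (h0 : τ ∈ V.nonunits) (Q : Fin 2 → E) (hQ : Q ∉ 𝒜) (c : E)
    (B : Subalgebra E L) [Algebra (MvPolynomial (Fin 2) E) B]
    [IsScalarTower E (MvPolynomial (Fin 2) E) B] (hB : Ch g s x w c B) (hx : Xb x B) (p : Ideal B)
    (hp : p.IsPrime) (hpV : At B p V) (v : B) (hv : (v : L) = vc s w c) (hvp : v ∉ p) :
    iQ Q B p v = 0 := by
  classical
  by_contra hne
  obtain ⟨hxB, hgB, hiB, hwB, hvB, -⟩ := ch_mem hL hB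
  have h1 : ∀ h : MvPolynomial (Fin 2) E, h ∉ mQ Q →
      algebraMap (MvPolynomial (Fin 2) E) B h ∉ p ⊔ Ideal.span {v} := by
    intro h hh hmem
    apply hne
    unfold iQ
    rw [loc_0_len (mQ Q) (B ⧸ (p ⊔ Ideal.span {v})) h hh]
    · rfl
    · intro m
      obtain ⟨b, rfl⟩ := Ideal.Quotient.mk_surjective m
      show Ideal.Quotient.mk (p ⊔ Ideal.span {v}) (h • b) = 0
      rw [Ideal.Quotient.eq_zero_iff_mem, Algebra.smul_def]
      exact Ideal.mul_mem_right _ _ hmem
  have hdisj : Disjoint ((p ⊔ Ideal.span {v} : Ideal B) : Set B)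
      ((Submonoid.map (algebraMap (MvPolynomial (Fin 2) E) B) (mQ Q).primeCompl : Submonoid B) :
        Set B) := by
    rw [Set.disjoint_left]
    rintro _ hb ⟨h, hh, rfl⟩
    exact h1 h hh hb
  obtain ⟨n, hn, hIn, hdis⟩ := Ideal.exists_le_prime_disjoint _ _ hdisj
  have hnQ : ∀ h : MvPolynomial (Fin 2) E, algebraMap (MvPolynomial (Fin 2) E) B h ∈ n →
      h ∈ mQ Q := by
    intro h hh
    by_contra hc
    exact Set.disjoint_left.1 hdis hh ⟨h, hc, rfl⟩
  have hpn : p ≤ n := le_sup_left.trans hIn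
  have hvn : v ∈ n := hIn (Ideal.mem_sup_right (Ideal.mem_span_singleton_self v))
  have hp0 : p ≠ ⊥ := by
    intro hpb
    apply hV
    rw [eq_top_iff]
    intro y _
    obtain ⟨a, ha, b, hb, hb0, hyb⟩ := hB.fr y
    refine (hpV.loc y).2 ⟨⟨a, ha⟩, ⟨b, hb⟩, ?_, hyb⟩
    rw [hpb, Ideal.mem_bot]
    intro h
    exact hb0 (congrArg Subtype.val h)
  have hd := hB.srf.d2 p hp hp0
  have hnm : n.IsMaximal := by
    have hprime : (n.map (Ideal.Quotient.mk p)).IsPrime :=
      Ideal.map_isPrime_of_surjective Ideal.Quotient.mk_surjective (by rw [Ideal.mk_ker]; exact hpn)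
    have hnb : n.map (Ideal.Quotient.mk p) ≠ ⊥ := by
      intro h
      apply hvp
      rw [← Ideal.Quotient.eq_zero_iff_mem, ← Ideal.mem_bot, ← h]
      exact Ideal.mem_map_of_mem _ hvn
    have hmax := hd.maximalOfPrime hnb hprime
    have h2 := Ideal.comap_isMaximal_of_surjective (Ideal.Quotient.mk p)
      Ideal.Quotient.mk_surjective (K := n.map (Ideal.Quotient.mk p))
    rwa [Ideal.comap_map_of_surjective _ Ideal.Quotient.mk_surjective, ← RingHom.ker_eq_comap_bot,
      Ideal.mk_ker, sup_eq_left.2 hpn] at h2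
  have hE : ∀ b : B, ∃ e : E, b - algebraMap E B e ∈ n := by
    let _ : Field (B ⧸ n) := Ideal.Quotient.field n
    have := hB.srf.ft
    have : Algebra.FiniteType E (B ⧸ n) :=
      Algebra.FiniteType.of_surjective (Ideal.Quotient.mkₐ E n) (Ideal.Quotient.mkₐ_surjective E n)
    have : Module.Finite E (B ⧸ n) := finite_of_finite_type_of_isJacobsonRing E (B ⧸ n)
    intro b
    obtain ⟨e, he⟩ := (IsAlgClosed.algebraMap_bijective_of_isIntegral (k := E) (K := B ⧸ n)).2
      (Ideal.Quotient.mk n b)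
    refine ⟨e, ?_⟩
    rw [← Ideal.Quotient.eq_zero_iff_mem, map_sub, sub_eq_zero, ← he]
    rfl
  have hX : ∀ i, (⟨x i, hxB i⟩ : B) - algebraMap E B (Q i) ∈ n := by
    intro i
    obtain ⟨e, he⟩ := hE ⟨x i, hxB i⟩
    have h2 : algebraMap (MvPolynomial (Fin 2) E) B (MvPolynomial.X i - MvPolynomial.C e) ∈ n := by
      have h3 : algebraMap (MvPolynomial (Fin 2) E) B (MvPolynomial.X i - MvPolynomial.C e) =
          ⟨x i, hxB i⟩ - algebraMap E B e := by
        rw [map_sub, IsScalarTower.algebraMap_apply E (MvPolynomial (Fin 2) E) B e]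
        congr 1
        exact Subtype.ext (hx i)
      rw [h3]
      exact he
    have h3 := hnQ _ h2
    rw [mem_mQ, map_sub, MvPolynomial.eval_X, MvPolynomial.eval_C, sub_eq_zero] at h3
    rw [h3]
    exact he
  obtain ⟨V₀, o, -, -, -, -, -, -, huniq, hres⟩ := v0 hL
  have hVV : V₀ = V := (huniq V hκ hV h0).symm
  subst hVV
  obtain ⟨ρ, hρ1, hρ2⟩ := loc_0_rho V₀ hκ hres
  have hone : (1 : B) ∉ p := fun h => hp.ne_top ((Ideal.eq_top_iff_one p).2 h)
  have hBV : ∀ b : B, (b : L) ∈ V₀ := fun b => (hpV.loc b).2 ⟨b, 1, hone, by simp⟩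
  let j : B →+* V₀ := (algebraMap B L).codRestrict V₀ hBV
  have hj : ∀ b : B, ((j b : V₀) : L) = b := fun _ => rfl
  let σ : B →+* κ := ρ.comp j
  have hσ : ∀ (b : B) (e : κ), (b : L) - algebraMap κ L e ∈ V₀.nonunits → σ b = e :=
    fun b e h => hρ2 (j b) e h
  have hσ0 : ∀ b : B, σ b = 0 → b ∈ p := by
    intro b hb
    have h2 := hρ1 (j b)
    have h3 : ρ (j b) = 0 := hb
    rw [h3, map_zero, sub_zero] at h2
    exact (hpV.non b).2 h2
  have hI' : n.map σ.rangeRestrict ≠ ⊤ := by
    intro htop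
    have h2 : Ideal.comap σ.rangeRestrict (n.map σ.rangeRestrict) = ⊤ := by
      rw [htop, Ideal.comap_top]
    rw [Ideal.comap_map_of_surjective _ σ.rangeRestrict_surjective,
      ← RingHom.ker_eq_comap_bot] at h2
    have h3 : RingHom.ker σ.rangeRestrict ≤ n := by
      intro b hb
      rw [RingHom.mem_ker] at hb
      exact hpn (hσ0 b (congrArg Subtype.val hb))
    rw [sup_eq_left.2 h3] at h2
    exact hn.ne_top h2
  obtain ⟨W, hW1, hW2⟩ := Ideal.image_subset_nonunits_valuationSubring _ hI'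
  have hWn : ∀ b ∈ n, σ b ∈ W.nonunits := fun b hb =>
    hW2 ⟨σ.rangeRestrict b, Ideal.mem_map_of_mem _ hb, rfl⟩
  have hEL : ∀ e : E, ((algebraMap E B e : B) : L) = algebraMap κ L (algebraMap E κ e) := by
    intro e
    rw [← IsScalarTower.algebraMap_apply E κ L]
    rfl
  have hz : (0 : L) ∈ V₀.nonunits := by
    rw [ValuationSubring.mem_nonunits_iff, map_zero]
    exact zero_lt_one
  have hWE : Ov E W := by
    intro e
    have h2 : σ (algebraMap E B e) = algebraMap E κ e := by
      refine hσ _ _ ?_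
      rw [hEL, sub_self]
      exact hz
    exact hW1 ⟨algebraMap E B e, h2⟩
  obtain ⟨hq, hqw⟩ := hL.zer V₀ hκ h0
  refine hQ (hL.qA W hWE Q (fun i => ?_) ?_)
  · have h4 : σ ((⟨x i, hxB i⟩ : B) - algebraMap E B (Q i)) = q i - algebraMap E κ (Q i) := by
      refine hσ _ _ ?_
      have h5 : (((⟨x i, hxB i⟩ : B) - algebraMap E B (Q i) : B) : L) -
          algebraMap κ L (q i - algebraMap E κ (Q i)) = x i - algebraMap κ L (q i) := by
        rw [map_sub, ← hEL]
        show x i - ((algebraMap E B (Q i) : B) : L) - _ = _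
        ring
      rw [h5]
      exact hq i
    rw [← h4]
    exact hWn _ (hX i)
  · have hne0 : w - algebraMap κ L s - algebraMap E L c ≠ 0 := by
      intro h
      apply hvp
      have h2 : v = 0 := by
        apply Subtype.ext
        rw [hv, vc, h, mul_zero]
        rfl
      rw [h2]
      exact Ideal.zero_mem p
    have hwn : (⟨w + algebraMap κ L s, hwB⟩ : B) ∈ n := by
      have h2 : (⟨w + algebraMap κ L s, hwB⟩ : B) =
          v * ⟨(w - algebraMap κ L s - algebraMap E L c)⁻¹, hiB⟩ := by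
        apply Subtype.ext
        show w + algebraMap κ L s = (v : L) * (w - algebraMap κ L s - algebraMap E L c)⁻¹
        rw [hv, vc, mul_assoc, mul_inv_cancel₀ hne0, mul_one]
      rw [h2]
      exact Ideal.mul_mem_right _ _ hvn
    have h4 : σ (⟨w + algebraMap κ L s, hwB⟩ : B) = qw + s := by
      refine hσ _ _ ?_
      have h5 : ((⟨w + algebraMap κ L s, hwB⟩ : B) : L) - algebraMap κ L (qw + s) =
          w - algebraMap κ L qw := by
        rw [map_add]
        show w + algebraMap κ L s - _ = _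
        ring
      rw [h5]
      exact hqw
    rw [← h4]
    exact hWn _ hwn

end

end Pool.Agent.RDP

end

section


namespace Pool.Agent.RDP

universe u v w

section

theorem td_dim {E D K : Type u} [Field E] [CommRing D] [IsDomain D] [Algebra E D] [Field K]
    [Algebra D K] [IsFractionRing D K] [Algebra E K] [IsScalarTower E D K]
    (hft : Algebra.FiniteType E D) (hdim : Ring.DimensionLEOne D) :
    Td1 E K ∧ ∃ S : Finset K, IntermediateField.adjoin E (S : Set K) = ⊤ := by
  classical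
  refine ⟨?_, ?_⟩
  · obtain ⟨n, φ, hφi, hφf⟩ := exists_finite_inj_algHom_of_fg E D
    let a1 : Algebra (MvPolynomial (Fin n) E) D := φ.toRingHom.toAlgebra
    have hmf : Module.Finite (MvPolynomial (Fin n) E) D := hφf
    have hint : Algebra.IsIntegral (MvPolynomial (Fin n) E) D := inferInstance
    have hn : n ≤ 1 := by
      by_contra hn
      have h0 : 0 < n := by omega
      have h1 : 1 < n := by omega
      set i0 : Fin n := ⟨0, h0⟩ with hi0
      set i1 : Fin n := ⟨1, h1⟩ with hi1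
      have hi : i0 ≠ i1 := by
        rw [hi0, hi1]
        intro h
        have := congrArg Fin.val h
        simp at this
      have hP : (Ideal.span {(MvPolynomial.X i0 : MvPolynomial (Fin n) E)}).IsPrime := by
        rw [Ideal.span_singleton_prime (MvPolynomial.X_ne_zero i0)]
        exact MvPolynomial.X_prime
      obtain ⟨Q, hQ, hQp⟩ := Ideal.exists_ideal_over_prime_of_isIntegral_of_isDomain
        (S := D) (Ideal.span {(MvPolynomial.X i0 : MvPolynomial (Fin n) E)}) (by
          have h2 : RingHom.ker (algebraMap (MvPolynomial (Fin n) E) D) = ⊥ :=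
            (RingHom.injective_iff_ker_eq_bot _).mp hφi
          rw [h2]
          exact bot_le)
      have hQ0 : Q ≠ ⊥ := by
        intro h
        rw [h] at hQp
        have h3 : (MvPolynomial.X i0 : MvPolynomial (Fin n) E) ∈
            Ideal.comap (algebraMap (MvPolynomial (Fin n) E) D) ⊥ := by
          rw [hQp]
          exact Ideal.mem_span_singleton_self _
        rw [Ideal.mem_comap, Ideal.mem_bot] at h3
        exact MvPolynomial.X_ne_zero i0 (hφi (h3.trans (map_zero φ).symm))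
      have hQm : Q.IsMaximal := hdim.maximalOfPrime hQ0 hQ
      have hPm := Ideal.isMaximal_comap_of_isIntegral_of_isMaximal (R := MvPolynomial (Fin n) E) Q
      rw [hQp] at hPm
      have h4 : (MvPolynomial.X i1 : MvPolynomial (Fin n) E) ∉
          Ideal.span {(MvPolynomial.X i0 : MvPolynomial (Fin n) E)} := by
        intro h
        rw [Ideal.mem_span_singleton] at h
        obtain ⟨c, hc⟩ := h
        have h5 := congrArg (MvPolynomial.eval (Pi.single i1 (1 : E))) hc
        rw [map_mul, MvPolynomial.eval_X, MvPolynomial.eval_X, Pi.single_eq_same,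
          Pi.single_eq_of_ne hi, zero_mul] at h5
        exact one_ne_zero h5
      obtain ⟨y, z, hz, hyz⟩ := hPm.exists_inv h4
      rw [Ideal.mem_span_singleton] at hz
      obtain ⟨c, hc⟩ := hz
      have h5 := congrArg (MvPolynomial.eval (fun _ => (0 : E))) hyz
      rw [hc, map_add, map_mul, map_mul, MvPolynomial.eval_X, MvPolynomial.eval_X, map_one] at h5
      simp at h5
    let a2 : Algebra (MvPolynomial (Fin n) E) K := ((algebraMap D K).comp φ.toRingHom).toAlgebra
    have st1 : IsScalarTower (MvPolynomial (Fin n) E) D K := IsScalarTower.of_algebraMap_eq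
      fun _ => rfl
    have st2 : IsScalarTower E (MvPolynomial (Fin n) E) K := IsScalarTower.of_algebraMap_eq
      fun e => by
        change algebraMap E K e = algebraMap D K (φ (MvPolynomial.C e))
        rw [← MvPolynomial.algebraMap_eq, AlgHom.commutes, IsScalarTower.algebraMap_apply E D K]
    have hinj : Function.Injective (algebraMap (MvPolynomial (Fin n) E) K) :=
      (IsFractionRing.injective D K).comp hφi
    have hfs : FaithfulSMul (MvPolynomial (Fin n) E) K :=
      (faithfulSMul_iff_algebraMap_injective _ _).mpr hinj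
    have halg : Algebra.IsAlgebraic (MvPolynomial (Fin n) E) K := by
      have h1 : Algebra.IsAlgebraic D K := IsLocalization.isAlgebraic K (nonZeroDivisors D)
      have h2 : Algebra.IsAlgebraic (MvPolynomial (Fin n) E) D := inferInstance
      exact Algebra.IsAlgebraic.trans _ D _
    have htr : Algebra.trdeg E K ≤ 1 := by
      rw [← trdeg_add_eq E (MvPolynomial (Fin n) E) (A := K),
        trdeg_eq_zero (R := MvPolynomial (Fin n) E) (A := K), add_zero,
        MvPolynomial.trdeg_of_isDomain]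
      simpa using hn
    intro t ht x
    have h1 : AlgebraicIndependent E (fun _ : PUnit.{u+1} => t) := by
      rw [algebraicIndependent_unique_type_iff]
      exact ht
    have h2 := h1.isTranscendenceBasis_of_trdeg_le_of_finite (by simpa using htr)
    have h3 := h2.isAlgebraic_field
    have h4 : Set.range (fun _ : PUnit.{u+1} => t) = {t} := Set.range_const
    rw [h4] at h3
    exact h3.isAlgebraic x
  · obtain ⟨S, hS⟩ := hft
    refine ⟨S.image (algebraMap D K), ?_⟩
    rw [eq_top_iff]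
    intro y _
    obtain ⟨a, b, hb, rfl⟩ := IsFractionRing.div_surjective (A := D) y
    have h1 : ∀ d : D, algebraMap D K d ∈
        IntermediateField.adjoin E ((S.image (algebraMap D K) : Finset K) : Set K) := by
      intro d
      have hd : d ∈ Algebra.adjoin E (S : Set D) := by rw [hS]; trivial
      induction hd using Algebra.adjoin_induction with
      | mem d hd =>
        exact IntermediateField.subset_adjoin _ _ (by
          rw [Finset.coe_image]
          exact ⟨d, hd, rfl⟩)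
      | algebraMap e =>
        rw [← IsScalarTower.algebraMap_apply E D K]
        exact IntermediateField.algebraMap_mem _ e
      | add a b _ _ ha hb => rw [map_add]; exact add_mem ha hb
      | mul a b _ _ ha hb => rw [map_mul]; exact mul_mem ha hb
    exact div_mem (h1 a) (h1 b)

end

end Pool.Agent.RDP

end

section


namespace Pool.Agent.RDP

universe u v w

section

variable {E κ L : Type u} [Field E] [IsAlgClosed E] [Field κ] [Field L] [Algebra E κ] [Algebra κ L]
  [Algebra E L] [IsScalarTower E κ L] {f g : MvPolynomial (Fin 2) E} {t : E} {P : Fin 2 → E} {s : κ}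
  {τ : L} {x : Fin 2 → L} {w : L} {q : Fin 2 → κ} {qw : κ} {𝒜 : Set (Fin 2 → E)} {c : E}
  {B : Subalgebra E L}
theorem dk (hB : Ch g s x w c B) [Algebra (MvPolynomial (Fin 2) E) B]
    [IsScalarTower E (MvPolynomial (Fin 2) E) B] (hx : Xb x B) (p : Ideal B) [p.IsPrime]
    (hp : p ≠ ⊥) (V : ValuationSubring L) (hV : At B p V) (K : Type u) [Field K] [Algebra E K]
    (π : V →+* K) (hπ : Rp E V K π) :
    ∃ (_ : Algebra (B ⧸ p) K) (_ : IsFractionRing (B ⧸ p) K) (_ : IsScalarTower E (B ⧸ p) K),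
      (∀ (b : B) (hb : (b : L) ∈ V), algebraMap (B ⧸ p) K (Ideal.Quotient.mk p b) = π ⟨b, hb⟩) ∧
      Td1 E K ∧ Algebra.FiniteType E (B ⧸ p) ∧
      ∃ S : Finset K, IntermediateField.adjoin E (S : Set K) = ⊤ := by
  have h1p : (1 : B) ∉ p := fun h => Ideal.IsPrime.ne_top ‹p.IsPrime› ((Ideal.eq_top_iff_one p).mpr h)
  have hBV : ∀ b : B, (b : L) ∈ V := fun b => (hV.loc b).mpr ⟨b, 1, h1p, by simp⟩
  let ψ : B →+* V := (algebraMap B L).codRestrict V hBV
  let φ : (B ⧸ p) →+* K := Ideal.Quotient.lift p (π.comp ψ) (fun a ha =>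
    (hπ.ker _).mpr ((hV.non a).mp ha))
  let a1 : Algebra (B ⧸ p) K := φ.toAlgebra
  have hφ : ∀ (b : B) (hb : (b : L) ∈ V),
      algebraMap (B ⧸ p) K (Ideal.Quotient.mk p b) = π ⟨b, hb⟩ := fun b hb => rfl
  have hinj : Function.Injective (algebraMap (B ⧸ p) K) := by
    rw [injective_iff_map_eq_zero]
    intro y hy
    obtain ⟨b, rfl⟩ := Ideal.Quotient.mk_surjective y
    rw [hφ b (hBV b), hπ.ker] at hy
    exact Ideal.Quotient.eq_zero_iff_mem.mpr ((hV.non b).mpr hy)
  have hfs : FaithfulSMul (B ⧸ p) K := (faithfulSMul_iff_algebraMap_injective _ _).mpr hinj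
  have hfr : IsFractionRing (B ⧸ p) K := by
    refine IsFractionRing.of_field _ _ fun y => ?_
    obtain ⟨v, rfl⟩ := hπ.surj y
    obtain ⟨a, b, hb, hab⟩ := (hV.loc v).mp v.2
    refine ⟨Ideal.Quotient.mk p a, Ideal.Quotient.mk p b, ?_⟩
    have hb0 : algebraMap (B ⧸ p) K (Ideal.Quotient.mk p b) ≠ 0 := by
      intro h
      rw [← map_zero (algebraMap (B ⧸ p) K)] at h
      exact hb (Ideal.Quotient.eq_zero_iff_mem.mp (hinj h))
    rw [eq_div_iff hb0, hφ b (hBV b), hφ a (hBV a), ← map_mul]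
    congr 1
    exact Subtype.ext hab
  have hst : IsScalarTower E (B ⧸ p) K := IsScalarTower.of_algebraMap_eq fun e => by
    change algebraMap E K e = algebraMap (B ⧸ p) K (Ideal.Quotient.mk p (algebraMap E B e))
    rw [hφ _ (hBV _)]
    exact (hπ.alg e (hBV (algebraMap E B e))).symm
  have hft : Algebra.FiniteType E (B ⧸ p) := by
    have := hB.srf.ft
    exact Algebra.FiniteType.of_surjective (Ideal.Quotient.mkₐ E p)
      (Ideal.Quotient.mkₐ_surjective E p)
  have h := td_dim (K := K) hft (hB.srf.d2 p ‹_› hp)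
  exact ⟨a1, hfr, hst, hφ, h.1, hft, h.2⟩

end

end Pool.Agent.RDP

end

section


namespace Pool.Agent.RDP

universe u v w

private theorem loc_1_fd {E κ K : Type u} [Field E] [Field κ] [Field K] [Algebra E κ] [Algebra E K]
    (e : κ ≃ₐ[E] K) (s : κ) (hfd : FiniteDimensional (IntermediateField.adjoin E {s}) κ) :
    FiniteDimensional (IntermediateField.adjoin E {e s}) K := by
  have h1 : (IntermediateField.adjoin E {s}).map e.toAlgHom = IntermediateField.adjoin E {e s} := by
    rw [IntermediateField.adjoin_map, Set.image_singleton]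
    rfl
  rw [← h1]
  exact Module.Finite.of_equiv_equiv (IntermediateField.intermediateFieldMap e _).toRingEquiv
    e.toRingEquiv (by ext; rfl)

private theorem loc_1_eq {E L K : Type u} [Field E] [Field L] [Algebra E L] {V : ValuationSubring L}
    [Field K] [Algebra E K] {π : V →+* K} (hπ : Rp E V K π) {a b : L} (ha : a ∈ V) (hb : b ∈ V)
    (h : a - b ∈ V.nonunits) : π ⟨a, ha⟩ = π ⟨b, hb⟩ := by
  rw [← sub_eq_zero, ← map_sub]
  exact (hπ.ker _).2 h

private theorem loc_1_aeval {E L K : Type u} [Field E] [Field L] [Algebra E L]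
    {V : ValuationSubring L} [Field K] [Algebra E K] {π : V →+* K} (hπ : Rp E V K π)
    (hE : Ov E V) (x : Fin 2 → L) (hx : ∀ i, x i ∈ V) (h : MvPolynomial (Fin 2) E) :
    ∃ hm : MvPolynomial.aeval x h ∈ V,
      π ⟨MvPolynomial.aeval x h, hm⟩ = MvPolynomial.aeval (fun i => π ⟨x i, hx i⟩) h := by
  induction h using MvPolynomial.induction_on with
  | C a =>
    have h1 : MvPolynomial.aeval x (MvPolynomial.C a : MvPolynomial (Fin 2) E) =
        algebraMap E L a := by simp
    have h2 : MvPolynomial.aeval (fun i => π ⟨x i, hx i⟩)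
        (MvPolynomial.C a : MvPolynomial (Fin 2) E) = algebraMap E K a := by simp
    refine ⟨by rw [h1]; exact hE a, ?_⟩
    rw [h2, ← hπ.alg a (hE a)]
    congr 1
    exact Subtype.ext h1
  | add p q hp hq =>
    obtain ⟨h1, h2⟩ := hp
    obtain ⟨h3, h4⟩ := hq
    have e1 : MvPolynomial.aeval x (p + q) ∈ V := by rw [map_add]; exact add_mem h1 h3
    refine ⟨e1, ?_⟩
    have e2 : (⟨MvPolynomial.aeval x (p + q), e1⟩ : V) =
      ⟨MvPolynomial.aeval x p, h1⟩ + ⟨MvPolynomial.aeval x q, h3⟩ := Subtype.ext (map_add _ _ _)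
    exact (congrArg π e2).trans (by rw [map_add, h2, h4, map_add])
  | mul_X p i hp =>
    obtain ⟨h1, h2⟩ := hp
    have e1 : MvPolynomial.aeval x (p * MvPolynomial.X i) ∈ V := by
      rw [map_mul, MvPolynomial.aeval_X]; exact mul_mem h1 (hx i)
    refine ⟨e1, ?_⟩
    have e2 : (⟨MvPolynomial.aeval x (p * MvPolynomial.X i), e1⟩ : V) =
        ⟨MvPolynomial.aeval x p, h1⟩ * ⟨x i, hx i⟩ := by
      apply Subtype.ext
      show MvPolynomial.aeval x (p * MvPolynomial.X i) = MvPolynomial.aeval x p * x i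
      rw [map_mul, MvPolynomial.aeval_X]
    exact (congrArg π e2).trans (by rw [map_mul, h2, map_mul, MvPolynomial.aeval_X])

private theorem loc_1_int {E L : Type u} [Field E] [Field L] [Algebra E L] {S : Set L}
    {B : Subalgebra E L} (hB : ∀ y ∈ B, IsIntegral (Algebra.adjoin E S) y) (hSB : ∀ y ∈ S, y ∈ B)
    (p : Ideal B) (T : Subalgebra E (B ⧸ p))
    (hT : ∀ y (hy : y ∈ S), Ideal.Quotient.mk p ⟨y, hSB y hy⟩ ∈ T) (d : B ⧸ p) :
    IsIntegral T d := by
  have hcong : ∀ y (hy : y ∈ Algebra.adjoin E S),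
      ∃ (h : y ∈ B), Ideal.Quotient.mk p (⟨y, h⟩ : B) ∈ T := by
    intro y hy
    refine Algebra.adjoin_induction (p := fun y _ => ∃ (h : y ∈ B),
      Ideal.Quotient.mk p (⟨y, h⟩ : B) ∈ T) ?_ ?_ ?_ ?_ hy
    · intro y hy
      exact ⟨hSB y hy, hT y hy⟩
    · intro e
      exact ⟨(algebraMap E B e).2, T.algebraMap_mem e⟩
    · rintro a b _ _ ⟨ha, h1⟩ ⟨hb, h2⟩
      exact ⟨B.add_mem ha hb, T.add_mem h1 h2⟩
    · rintro a b _ _ ⟨ha, h1⟩ ⟨hb, h2⟩
      exact ⟨B.mul_mem ha hb, T.mul_mem h1 h2⟩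
  obtain ⟨b, rfl⟩ := Ideal.Quotient.mk_surjective d
  obtain ⟨P, hPm, hP⟩ := hB (b : L) b.2
  have hle : Algebra.adjoin E S ≤ B := fun y hy => (hcong y hy).1
  let ι : Algebra.adjoin E S →+* B := (Subalgebra.inclusion hle).toRingHom
  let χ : Algebra.adjoin E S →+* (B ⧸ p) := (Ideal.Quotient.mk p).comp ι
  have hι : Polynomial.eval₂ ι b P = 0 := by
    apply Subtype.ext
    have h1 : ((Polynomial.eval₂ ι b P : B) : L) =
        Polynomial.eval₂ ((B.val : B →+* L).comp ι) (B.val b) P :=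
      Polynomial.hom_eval₂ P ι (B.val : B →+* L) b
    rw [h1]
    exact hP
  have hχ : Polynomial.eval₂ χ (Ideal.Quotient.mk p b) P = 0 := by
    rw [← Polynomial.hom_eval₂, hι, map_zero]
  have hlift : P.map χ ∈ Polynomial.lifts (algebraMap T (B ⧸ p)) := by
    rw [Polynomial.lifts_iff_coeff_lifts]
    intro n
    rw [Polynomial.coeff_map]
    obtain ⟨h1, he⟩ := hcong _ (P.coeff n).2
    exact ⟨⟨_, he⟩, rfl⟩
  obtain ⟨q, hq, -, hqm⟩ := Polynomial.lifts_and_natDegree_eq_and_monic hlift (hPm.map χ)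
  refine ⟨q, hqm, ?_⟩
  rw [← Polynomial.eval_map, hq, Polynomial.eval_map]
  exact hχ

private theorem loc_1_iQ {E L : Type u} [Field E] [Field L] [Algebra E L] {B : Subalgebra E L}
    [Algebra (MvPolynomial (Fin 2) E) B] (p : Ideal B) (v : B) (u : B ⧸ p)
    (h : Ideal.span {Ideal.Quotient.mk p v} = Ideal.span {u}) (Q : Fin 2 → E) :
    iQ Q B p v = ((len (mQ Q) ((B ⧸ p) ⧸ Ideal.span {u})).toNat : ℤ) := by
  have h1 : (Ideal.span {v}).map (Ideal.Quotient.mkₐ (MvPolynomial (Fin 2) E) p) =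
      Ideal.span {u} := by
    rw [Ideal.map_span, Set.image_singleton]
    exact h
  let e1 := DoubleQuot.quotQuotEquivQuotSupₐ (MvPolynomial (Fin 2) E) p (Ideal.span {v})
  let e2 := Ideal.quotientEquivAlgOfEq (MvPolynomial (Fin 2) E) h1
  have e3 : (B ⧸ (p ⊔ Ideal.span {v})) ≃ₐ[MvPolynomial (Fin 2) E] ((B ⧸ p) ⧸ Ideal.span {u}) :=
    e1.symm.trans e2
  have h2 : len (mQ Q) (B ⧸ (p ⊔ Ideal.span {v})) = len (mQ Q) ((B ⧸ p) ⧸ Ideal.span {u}) :=
    len_equiv (mQ Q) e3.toLinearEquiv
  unfold iQ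
  rw [h2]

section

variable {E κ L : Type u} [Field E] [IsAlgClosed E] [Field κ] [Field L] [Algebra E κ] [Algebra κ L]
  [Algebra E L] [IsScalarTower E κ L] {f g : MvPolynomial (Fin 2) E} {t : E} {P : Fin 2 → E} {s : κ}
  {τ : L} {x : Fin 2 → L} {w : L} {q : Fin 2 → κ} {qw : κ} {𝒜 : Set (Fin 2 → E)} {c : E}
  {B : Subalgebra E L}
theorem loc_1 (hL : LD f g t P s τ x w q qw 𝒜) (V : ValuationSubring L) (hκ : Ov κ V)
    (hV : V ≠ ⊤) (h1 : τ - 1 ∈ V.nonunits) :
    ∃ n : ℕ, 0 < n ∧ ∀ (Q : Fin 2 → E) (c : E), c ≠ 0 →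
        ∀ (B : Subalgebra E L) [Algebra (MvPolynomial (Fin 2) E) B]
        [IsScalarTower E (MvPolynomial (Fin 2) E) B], Ch g s x w c B → Xb x B →
        ∀ (p : Ideal B) (_ : p.IsPrime), At B p V → ∀ v : B, (v : L) = vc s w c →
          (Q = P → iQ Q B p v = n) ∧ (Q ≠ P → iQ Q B p v = 0) := by
  classical
  obtain ⟨V1, o, hDv, hκ1, hE1, hV1, h11, ho1, huniq, hcong, hbs⟩ := v1 hL
  have hVV : V = V1 := huniq V hκ hV h1
  subst hVV
  obtain ⟨K, _, _, π, hπ⟩ := rp_ex (E := E) V hE1
  obtain ⟨hxP, hws⟩ := hL.one V hκ h1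
  have hsub : ∀ y, y ∈ V.nonunits → y ∈ V := fun y hy => V.nonunits_subset hy
  have hxV : ∀ i, x i ∈ V := by
    intro i
    have h2 := add_mem (hsub _ (hxP i)) (hE1 (P i))
    rwa [sub_add_cancel] at h2
  have hsV : algebraMap κ L s ∈ V := hκ1 s
  have hwV : w ∈ V := by
    have h2 := add_mem (hsub _ hws) hsV
    rwa [sub_add_cancel] at h2
  -- the residue field is κ
  let ικ : κ →+* V := (algebraMap κ L).codRestrict V hκ1
  let φ : κ →ₐ[E] K := { π.comp ικ with
    commutes' := fun e => by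
      show π ⟨algebraMap κ L (algebraMap E κ e), _⟩ = algebraMap E K e
      rw [← hπ.alg e (hE1 e)]
      congr 1
      exact Subtype.ext (IsScalarTower.algebraMap_apply E κ L e).symm }
  have hφ : ∀ a, φ a = π ⟨algebraMap κ L a, hκ1 a⟩ := fun a => rfl
  have hφs : Function.Surjective φ := by
    intro z
    obtain ⟨y, rfl⟩ := hπ.surj z
    obtain ⟨e, he⟩ := hcong y y.2
    refine ⟨e, ?_⟩
    rw [hφ]
    exact (loc_1_eq hπ y.2 (hκ1 e) he).symm
  let ε : κ ≃ₐ[E] K := AlgEquiv.ofBijective φ ⟨φ.injective, hφs⟩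
  have hεs : ε s = π ⟨algebraMap κ L s, hsV⟩ := rfl
  have hfd := loc_1_fd ε s hL.fd
  have hst : Transcendental E (ε s) := by
    intro h2
    exact hL.st ((isAlgebraic_algHom_iff φ φ.injective).1 h2)
  refine ⟨Module.finrank (IntermediateField.adjoin E {ε s}) K, Module.finrank_pos, ?_⟩
  intro Q c hc B _ _ hB hXb p hp hAt v hv
  obtain ⟨hxB, hgB, hcB, hwsB, hvcB, -⟩ := ch_mem hL hB
  have hp0 : p ≠ ⊥ := by
    intro h0
    apply hV
    rw [eq_top_iff]
    intro y _
    obtain ⟨a, ha, b, hb, hb0, hab⟩ := hB.fr y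
    refine (hAt.loc y).2 ⟨⟨a, ha⟩, ⟨b, hb⟩, ?_, hab⟩
    rw [h0, Ideal.mem_bot]
    intro h2
    exact hb0 (congrArg Subtype.val h2)
  obtain ⟨_, _, _, hcomp, -, hft, -⟩ := dk hB hXb p hp0 V hAt K π hπ
  have hinj : Function.Injective (algebraMap (B ⧸ p) K) := IsFractionRing.injective (B ⧸ p) K
  have h2K : (2 : K) ≠ 0 := by
    have h2 : (2 : K) = algebraMap E K 2 := (map_ofNat (algebraMap E K) 2).symm
    rw [h2]
    exact (map_ne_zero _).2 hL.two
  have hπw : π ⟨w, hwV⟩ = ε s := loc_1_eq hπ hwV hsV hws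
  have hwsV : w + algebraMap κ L s ∈ V := add_mem hwV hsV
  have hπws : π ⟨w + algebraMap κ L s, hwsV⟩ = 2 * ε s := by
    have h2 : (⟨w + algebraMap κ L s, hwsV⟩ : V) = ⟨w, hwV⟩ + ⟨algebraMap κ L s, hsV⟩ := rfl
    rw [h2, map_add, hπw, hεs]
    ring
  have hcV : w - algebraMap κ L s - algebraMap E L c ∈ V := sub_mem (sub_mem hwV hsV) (hE1 c)
  have hπc : π ⟨w - algebraMap κ L s - algebraMap E L c, hcV⟩ = algebraMap E K (-c) := by
    rw [map_neg, ← hπ.alg c (hE1 c), ← map_neg]
    refine loc_1_eq hπ hcV (neg_mem (hE1 c)) ?_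
    have h2 : w - algebraMap κ L s - algebraMap E L c - -algebraMap E L c =
        w - algebraMap κ L s := by ring
    rw [h2]
    exact hws
  -- the element s' of B / p
  set sD : B ⧸ p := algebraMap E (B ⧸ p) (2⁻¹) *
    Ideal.Quotient.mk p ⟨w + algebraMap κ L s, hwsB⟩ with hsD
  have halg : ∀ e : E, algebraMap (B ⧸ p) K (algebraMap E (B ⧸ p) e) = algebraMap E K e :=
    fun e => (IsScalarTower.algebraMap_apply E (B ⧸ p) K e).symm
  have hsDK : algebraMap (B ⧸ p) K sD = ε s := by
    rw [hsD, map_mul, halg, hcomp ⟨w + algebraMap κ L s, hwsB⟩ hwsV, hπws, map_inv₀]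
    have h2 : (algebraMap E K 2) = 2 := map_ofNat (algebraMap E K) 2
    rw [h2]
    field_simp
  have hmk2 : Ideal.Quotient.mk p ⟨w + algebraMap κ L s, hwsB⟩ = algebraMap E (B ⧸ p) 2 * sD := by
    apply hinj
    rw [hcomp ⟨w + algebraMap κ L s, hwsB⟩ hwsV, hπws, map_mul, halg, hsDK]
    have h2 : (algebraMap E K 2) = 2 := map_ofNat (algebraMap E K) 2
    rw [h2]
  -- classes of the generators
  have hmkx : ∀ i, Ideal.Quotient.mk p ⟨x i, hxB i⟩ = algebraMap E (B ⧸ p) (P i) := by
    intro i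
    apply hinj
    rw [hcomp ⟨x i, hxB i⟩ (hxV i), halg, ← hπ.alg (P i) (hE1 _)]
    exact loc_1_eq hπ (hxV i) (hE1 _) (hxP i)
  have hmkg : Ideal.Quotient.mk p ⟨(MvPolynomial.aeval x g)⁻¹, hgB⟩ =
      algebraMap E (B ⧸ p) (MvPolynomial.eval P g)⁻¹ := by
    have hgV : (MvPolynomial.aeval x g)⁻¹ ∈ V := (hbs c hc).1 _ (by simp [bs])
    apply hinj
    rw [hcomp ⟨_, hgB⟩ hgV, halg, map_inv₀]
    obtain ⟨hm, hm'⟩ := loc_1_aeval hπ hE1 x hxV g
    have h2 : MvPolynomial.aeval (fun i => π ⟨x i, hxV i⟩) g =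
        algebraMap E K (MvPolynomial.eval P g) := by
      have h3 : (fun i => π ⟨x i, hxV i⟩) = fun i => algebraMap E K (P i) := by
        funext i
        rw [← hπ.alg (P i) (hE1 _)]
        exact loc_1_eq hπ (hxV i) (hE1 _) (hxP i)
      rw [h3]
      have h4 := MvPolynomial.aeval_algebraMap_apply (B := K) P g
      have h5 : MvPolynomial.aeval P g = MvPolynomial.eval P g := by
        rw [← MvPolynomial.coe_aeval_eq_eval]
        rfl
      rw [← h5]
      exact h4
    rw [h2] at hm'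
    rw [← hm']
    apply eq_inv_of_mul_eq_one_left
    rw [← map_mul]
    have h5 : (⟨(MvPolynomial.aeval x g)⁻¹, hgV⟩ : V) * ⟨MvPolynomial.aeval x g, hm⟩ = 1 := by
      apply Subtype.ext
      show (MvPolynomial.aeval x g)⁻¹ * MvPolynomial.aeval x g = 1
      exact inv_mul_cancel₀ hL.gx
    rw [h5, map_one]
  have hmkc : Ideal.Quotient.mk p ⟨(w - algebraMap κ L s - algebraMap E L c)⁻¹, hcB⟩ =
      algebraMap E (B ⧸ p) (-c)⁻¹ := by
    have hcV' : (w - algebraMap κ L s - algebraMap E L c)⁻¹ ∈ V := (hbs c hc).1 _ (by simp [bs])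
    apply hinj
    rw [hcomp ⟨_, hcB⟩ hcV', halg, map_inv₀, ← hπc]
    apply eq_inv_of_mul_eq_one_left
    rw [← map_mul]
    have h5 : (⟨(w - algebraMap κ L s - algebraMap E L c)⁻¹, hcV'⟩ : V) *
        ⟨w - algebraMap κ L s - algebraMap E L c, hcV⟩ = 1 := by
      apply Subtype.ext
      show (w - algebraMap κ L s - algebraMap E L c)⁻¹ *
        (w - algebraMap κ L s - algebraMap E L c) = 1
      apply inv_mul_cancel₀
      intro h0
      have h6 : π ⟨w - algebraMap κ L s - algebraMap E L c, hcV⟩ = 0 := by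
        rw [hπ.ker]
        show w - algebraMap κ L s - algebraMap E L c ∈ V.nonunits
        rw [h0]
        exact V.nonunits.zero_mem
      rw [hπc] at h6
      exact (neg_ne_zero.2 hc) ((map_eq_zero _).1 h6)
    rw [h5, map_one]
  have hSB : ∀ y ∈ bs g s x w c, y ∈ B := by
    intro y hy
    simp only [bs, Set.mem_insert_iff, Set.mem_singleton_iff] at hy
    rcases hy with rfl | rfl | rfl | rfl | rfl
    · exact hxB 0
    · exact hxB 1
    · exact hgB
    · exact hcB
    · exact hwsB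
  have hint : ∀ d : B ⧸ p, IsIntegral (Algebra.adjoin E {sD}) d := by
    refine loc_1_int (fun y hy => (hB.mem y).1 hy) hSB p (Algebra.adjoin E {sD}) ?_
    intro y hy
    have hy' := hy
    simp only [bs, Set.mem_insert_iff, Set.mem_singleton_iff] at hy'
    rcases hy' with rfl | rfl | rfl | rfl | rfl
    · rw [hmkx 0]; exact Subalgebra.algebraMap_mem _ _
    · rw [hmkx 1]; exact Subalgebra.algebraMap_mem _ _
    · rw [hmkg]; exact Subalgebra.algebraMap_mem _ _
    · rw [hmkc]; exact Subalgebra.algebraMap_mem _ _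
    · rw [hmk2]
      exact Subalgebra.mul_mem _ (Subalgebra.algebraMap_mem _ _)
        (Algebra.subset_adjoin (Set.mem_singleton _))
  have hstD : Transcendental E sD := by
    have h2 : Transcendental E (algebraMap (B ⧸ p) K sD) := by rw [hsDK]; exact hst
    exact (transcendental_algebraMap_iff hinj).1 h2
  have hxD : ∀ i, algebraMap (MvPolynomial (Fin 2) E) (B ⧸ p) (MvPolynomial.X i) =
      algebraMap E (B ⧸ p) (P i) := by
    intro i
    rw [← hmkx i]
    have h2 : algebraMap (MvPolynomial (Fin 2) E) (B ⧸ p) (MvPolynomial.X i) =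
      Ideal.Quotient.mk p (algebraMap (MvPolynomial (Fin 2) E) B (MvPolynomial.X i)) := rfl
    rw [h2]
    congr 1
    exact Subtype.ext (hXb i)
  have hfdD : FiniteDimensional (IntermediateField.adjoin E {algebraMap (B ⧸ p) K sD}) K := by
    rw [hsDK]
    exact hfd
  have hspan : Ideal.span {Ideal.Quotient.mk p v} = Ideal.span {sD} := by
    have hvV : (v : L) ∈ V := by
      rw [hv]
      exact mul_mem hwsV hcV
    have h2 : Ideal.Quotient.mk p v = sD * algebraMap E (B ⧸ p) (2 * -c) := by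
      apply hinj
      rw [hcomp v hvV, map_mul, halg, hsDK]
      have h3 : (⟨(v : L), hvV⟩ : V) = ⟨w + algebraMap κ L s, hwsV⟩ *
          ⟨w - algebraMap κ L s - algebraMap E L c, hcV⟩ := Subtype.ext hv
      rw [h3, map_mul, hπws, hπc, map_mul]
      have h4 : (algebraMap E K 2) = 2 := map_ofNat (algebraMap E K) 2
      rw [h4]
      ring
    rw [h2]
    have h3 : IsUnit (algebraMap E (B ⧸ p) (2 * -c)) := by
      apply RingHom.isUnit_map
      exact IsUnit.mk0 _ (mul_ne_zero hL.two (neg_ne_zero.2 hc))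
    exact Ideal.span_singleton_mul_right_unit h3 sD
  have hfinal := p1 (E := E) (K := K) (D := B ⧸ p) hft P hxD sD hstD hint Q
  rw [hsDK] at hfinal
  rw [loc_1_iQ p v sD hspan Q]
  constructor
  · intro hQ
    rw [hfinal.1 hQ]
    simp
  · intro hQ
    rw [hfinal.2 hQ]
    simp

end

end Pool.Agent.RDP

end

section


namespace Pool.Agent.RDP

universe u v w

section

variable {E κ L : Type u} [Field E] [IsAlgClosed E] [Field κ] [Field L] [Algebra E κ] [Algebra κ L]
  [Algebra E L] [IsScalarTower E κ L] {f g : MvPolynomial (Fin 2) E} {t : E} {P : Fin 2 → E} {s : κ}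
  {τ : L} {x : Fin 2 → L} {w : L} {q : Fin 2 → κ} {qw : κ} {𝒜 : Set (Fin 2 → E)} {c : E}
  {B : Subalgebra E L}

omit [Field κ] [Algebra E κ] [Algebra κ L] [IsScalarTower E κ L] [IsAlgClosed E] in
private theorem loc_a_eval {n : ℕ} {V : ValuationSubring L} (hE : Ov E V) {K : Type u} [Field K]
    [Algebra E K] {π : V →+* K} (hπ : Rp E V K π) (ξ : Fin n → L) (hξ : ∀ i, ξ i ∈ V)
    (h : MvPolynomial (Fin n) E) : ∃ hV : MvPolynomial.aeval ξ h ∈ V,
      π ⟨MvPolynomial.aeval ξ h, hV⟩ = MvPolynomial.aeval (fun i => π ⟨ξ i, hξ i⟩) h := by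
  let ι : E →+* V :=
    { toFun := fun e => ⟨algebraMap E L e, hE e⟩
      map_one' := Subtype.ext (map_one _)
      map_mul' := fun a b => Subtype.ext (map_mul _ _ _)
      map_zero' := Subtype.ext (map_zero _)
      map_add' := fun a b => Subtype.ext (map_add _ _ _) }
  have h1 : ((MvPolynomial.eval₂ ι (fun i => (⟨ξ i, hξ i⟩ : V)) h : V) : L) =
      MvPolynomial.aeval ξ h := by
    have h2 := MvPolynomial.eval₂_comp_left V.subtype ι (fun i => (⟨ξ i, hξ i⟩ : V)) h
    exact h2
  have h3 : π (MvPolynomial.eval₂ ι (fun i => (⟨ξ i, hξ i⟩ : V)) h) =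
      MvPolynomial.aeval (fun i => π ⟨ξ i, hξ i⟩) h := by
    rw [MvPolynomial.eval₂_comp_left π ι]
    have h4 : π.comp ι = algebraMap E K := by
      ext e
      exact hπ.alg e (hE e)
    rw [h4]
    rfl
  refine ⟨by rw [← h1]; exact Subtype.property _, ?_⟩
  rw [← h3]
  congr 1
  exact Subtype.ext h1.symm

omit [IsAlgClosed E] [Algebra E κ] [IsScalarTower E κ L] in
private theorem loc_a_s (V : ValuationSubring L) (s' : E) {ψ : L} (hV : DA g s x w ψ V s')
    {K : Type u} [Field K] [Algebra E K] {π : V →+* K} (hπ : Rp E V K π) :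
    ∃ hs : algebraMap κ L s ∈ V, π ⟨algebraMap κ L s, hs⟩ = algebraMap E K s' := by
  have h1 : algebraMap κ L s - algebraMap E L s' ∈ V := V.nonunits_subset hV.at_
  have hs : algebraMap κ L s ∈ V := by
    have h2 := add_mem h1 (hV.ov s')
    rwa [sub_add_cancel] at h2
  refine ⟨hs, ?_⟩
  have h3 : π (⟨algebraMap κ L s, hs⟩ - ⟨algebraMap E L s', hV.ov s'⟩) = 0 :=
    (hπ.ker _).2 hV.at_
  rw [map_sub, sub_eq_zero] at h3
  rw [h3, hπ.alg]

private theorem loc_a_td (hL : LD f g t P s τ x w q qw 𝒜) (V : ValuationSubring L) (s' : E) {ψ : L}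
    (hV : DA g s x w ψ V s') (K : Type u) [Field K] [Algebra E K] (π : V →+* K)
    (hπ : Rp E V K π) : Td1 E K := by
  obtain ⟨c₁, hc₁, hcV⟩ : ∃ c₁ : E, c₁ ≠ 0 ∧ (w - algebraMap κ L s - algebraMap E L c₁)⁻¹ ∈ V := by
    by_cases h1 : (w - algebraMap κ L s - algebraMap E L 1)⁻¹ ∈ V
    · exact ⟨1, one_ne_zero, h1⟩
    · by_cases h2 : (w - algebraMap κ L s - algebraMap E L (-1))⁻¹ ∈ V
      · exact ⟨-1, neg_ne_zero.2 one_ne_zero, h2⟩
      · exfalso
        have h3 := da_c V s' hV 1 (-1) h1 h2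
        apply hL.two
        linear_combination h3
  have hne := (ld_alg hL hc₁).2.1
  obtain ⟨B, hB⟩ := ch_ex hL hc₁
  obtain ⟨h1, h2⟩ := da_ch V s' hV hcV hne
  obtain ⟨p, hp, hp0, -, hAt⟩ := ch_at hB V hV.ov hV.top h1 h2
  have hxB := (ch_mem hL hB).1
  let φ : MvPolynomial (Fin 2) E →ₐ[E] B := MvPolynomial.aeval fun i => (⟨x i, hxB i⟩ : B)
  let i1 : Algebra (MvPolynomial (Fin 2) E) B := φ.toRingHom.toAlgebra
  have i2 : IsScalarTower E (MvPolynomial (Fin 2) E) B :=
    IsScalarTower.of_algebraMap_eq fun e => (φ.commutes e).symm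
  have hx : Xb x B := by
    intro i
    have h3 : algebraMap (MvPolynomial (Fin 2) E) B (MvPolynomial.X i) = ⟨x i, hxB i⟩ :=
      MvPolynomial.aeval_X _ i
    rw [h3]
  obtain ⟨-, -, -, -, htd, -⟩ := dk hB hx p hp0 V hAt K π hπ
  exact htd

omit [IsScalarTower E κ L] in
private theorem loc_a_sc (hL : LD f g t P s τ x w q qw 𝒜) (V : ValuationSubring L) (s' : E) {ψ : L}
    (hV : DA g s x w ψ V s') (hws : w + algebraMap κ L s ∉ V.nonunits)
    (K : Type u) [Field K] [Algebra E K] (π : V →+* K)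
    (hπ : Rp E V K π) (htd : Td1 E K) : Sc f g (t - s' ^ 2) s' (RingHom.ker (MvPolynomial.aeval
      ![π ⟨x 0, hV.memx 0⟩, π ⟨x 1, hV.memx 1⟩, π ⟨w, hV.memw⟩] :
        MvPolynomial (Fin 3) E →ₐ[E] K)) := by
  obtain ⟨hs, hπs⟩ := loc_a_s V s' hV hπ
  set x' : Fin 2 → K := fun i => π ⟨x i, hV.memx i⟩ with hx'
  set w' : K := π ⟨w, hV.memw⟩ with hw'
  have hvec : (![π ⟨x 0, hV.memx 0⟩, π ⟨x 1, hV.memx 1⟩, w'] : Fin 3 → K) ∘ Fin.castSucc = x' := by
    funext i
    fin_cases i <;> rfl
  have hren : ∀ h : MvPolynomial (Fin 2) E, MvPolynomial.aeval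
      ![π ⟨x 0, hV.memx 0⟩, π ⟨x 1, hV.memx 1⟩, w'] (MvPolynomial.rename Fin.castSucc h) =
      MvPolynomial.aeval x' h := by
    intro h
    rw [MvPolynomial.aeval_rename, hvec]
  have hX2 : MvPolynomial.aeval ![π ⟨x 0, hV.memx 0⟩, π ⟨x 1, hV.memx 1⟩, w']
      (MvPolynomial.X 2 : MvPolynomial (Fin 3) E) = w' := by
    rw [MvPolynomial.aeval_X]
    rfl
  have hEval := fun h : MvPolynomial (Fin 2) E => loc_a_eval hV.ov hπ x hV.memx h
  refine ⟨RingHom.ker_isPrime _, ?_, ?_, ?_, ?_⟩
  · intro hmax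
    rw [MvPolynomial.isMaximal_iff_eq_vanishingIdeal_singleton] at hmax
    obtain ⟨e, he⟩ := hmax
    have hconst : ∀ i : Fin 3, (![π ⟨x 0, hV.memx 0⟩, π ⟨x 1, hV.memx 1⟩, w'] : Fin 3 → K) i =
        algebraMap E K (e i) := by
      intro i
      have h1 : (MvPolynomial.X i - MvPolynomial.C (e i) : MvPolynomial (Fin 3) E) ∈
          MvPolynomial.vanishingIdeal E {e} := by
        rw [MvPolynomial.mem_vanishingIdeal_singleton_iff]
        simp
      rw [← he, RingHom.mem_ker] at h1
      rw [map_sub, MvPolynomial.aeval_X, MvPolynomial.aeval_C, sub_eq_zero] at h1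
      exact h1
    apply hV.nc
    have hlift : ∀ (y : L) (hy : y ∈ V) (e₀ : E), π ⟨y, hy⟩ = algebraMap E K e₀ →
        y - algebraMap E L e₀ ∈ V.nonunits := by
      intro y hy e₀ h1
      refine (hπ.ker (⟨y, hy⟩ - ⟨algebraMap E L e₀, hV.ov e₀⟩)).1 ?_
      rw [map_sub, h1, hπ.alg, sub_self]
    refine ⟨fun i => ?_, e 2, hlift _ _ _ (hconst 2)⟩
    fin_cases i
    · exact ⟨e 0, hlift _ _ _ (hconst 0)⟩
    · exact ⟨e 1, hlift _ _ _ (hconst 1)⟩
  · rw [RingHom.mem_ker]
    obtain ⟨hf, hπf⟩ := hEval f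
    obtain ⟨hg, hπg⟩ := hEval g
    have h1 : (⟨w, hV.memw⟩ : V) ^ 2 * ⟨MvPolynomial.aeval x g, hg⟩ =
        ⟨MvPolynomial.aeval x f, hf⟩ - (⟨algebraMap E L t, hV.ov t⟩ - ⟨algebraMap κ L s, hs⟩ ^ 2) *
          ⟨MvPolynomial.aeval x g, hg⟩ := Subtype.ext hL.eq
    have h2 := congrArg π h1
    rw [map_mul, map_pow, map_sub, map_mul, map_sub, map_pow, hπf, hπg, hπs, hπ.alg] at h2
    unfold sf
    rw [map_sub, map_mul, map_pow, hren, hren, hX2, map_sub, map_mul, MvPolynomial.aeval_C,
      map_sub, map_pow]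
    linear_combination h2
  · by_contra hcon
    push Not at hcon
    have hind : AlgebraicIndependent E x' := by
      rw [algebraicIndependent_iff]
      intro h hh
      by_contra hne
      exact hcon h hne (by rw [RingHom.mem_ker, hren]; exact hh)
    have h1 : Transcendental E (x' 0) := hind.transcendental 0
    have h2 := htd _ h1 (x' 1)
    rw [IntermediateField.isAlgebraic_adjoin_iff] at h2
    have h3 := hind.transcendental_adjoin (s := {0}) (i := 1) (by simp)
    rw [Set.image_singleton] at h3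
    exact h3 h2
  · rw [RingHom.mem_ker, map_add, hX2, MvPolynomial.aeval_C]
    intro h1
    apply hws
    have h2 : π (⟨w, hV.memw⟩ + ⟨algebraMap κ L s, hs⟩) = 0 := by
      rw [map_add, hπs]
      exact h1
    exact (hπ.ker _).1 h2

private theorem loc_a_len (hL : LD f g t P s τ x w q qw 𝒜) (V : ValuationSubring L) (s' : E) {ψ : L}
    (hV : DA g s x w ψ V s') (hws : w + algebraMap κ L s ∉ V.nonunits)
    (K : Type u) [Field K] [Algebra E K] (π : V →+* K) (hπ : Rp E V K π)
    (J : Ideal (MvPolynomial (Fin 3) E)) (hJ : ∀ h, h ∈ J ↔ MvPolynomial.aeval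
      ![π ⟨x 0, hV.memx 0⟩, π ⟨x 1, hV.memx 1⟩, π ⟨w, hV.memw⟩] h = 0)
    (Q : Fin 2 → E) (hQ : MvPolynomial.eval Q g ≠ 0) (hc : c ≠ 0) (hc' : c ≠ - 2 * s')
    [Algebra (MvPolynomial (Fin 2) E) B] [IsScalarTower E (MvPolynomial (Fin 2) E) B]
    (hB : Ch g s x w c B) (hx : Xb x B) (p : Ideal B) (hp : p.IsPrime) (hAt : At B p V) (v : B)
    (hv : (v : L) = vc s w c) :
    len (mQ Q) (B ⧸ (p ⊔ Ideal.span {v})) =
      (Module.finrank (IntermediateField.adjoin E
        {π ⟨x 0, hV.memx 0⟩, π ⟨x 1, hV.memx 1⟩, π ⟨w, hV.memw⟩}) K : ℕ) * cy J s' Q := by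
  obtain ⟨hs, hπs⟩ := loc_a_s V s' hV hπ
  have hEval := fun h : MvPolynomial (Fin 2) E => loc_a_eval hV.ov hπ x hV.memx h
  obtain ⟨hxB, hgB, hcB, hvB, -, -⟩ := ch_mem hL hB
  have hwc : w - algebraMap κ L s - algebraMap E L c ≠ 0 := (ld_alg hL hc).2.1
  have hBV : ∀ b : B, (b : L) ∈ V := by
    intro b
    refine (hAt.loc b).2 ⟨b, 1, ?_, ?_⟩
    · exact fun h1 => hp.ne_top ((Ideal.eq_top_iff_one _).2 h1)
    · exact mul_one _
  have hpne : p ≠ ⊥ := by
    rintro rfl
    apply hV.top
    rw [eq_top_iff]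
    intro y _
    obtain ⟨a, ha, b, hb, hb0, hab⟩ := hB.fr y
    refine (hAt.loc y).2 ⟨⟨a, ha⟩, ⟨b, hb⟩, fun h1 => hb0 ?_, hab⟩
    exact congrArg Subtype.val (Ideal.mem_bot.1 h1)
  have hgV : (MvPolynomial.aeval x g)⁻¹ ∈ V := hV.memg
  have hcV : (w - algebraMap κ L s - algebraMap E L c)⁻¹ ∈ V := hBV ⟨_, hcB⟩
  obtain ⟨i1, i2, i3, hcomp, htd, hft, -⟩ := dk hB hx p hpne V hAt K π hπ
  set x' : Fin 2 → K := fun i => π ⟨x i, hV.memx i⟩ with hx'
  set w' : K := π ⟨w, hV.memw⟩ with hw'
  have hinj : Function.Injective (algebraMap (B ⧸ p) K) := IsFractionRing.injective _ _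
  have hcomp' : ∀ b : B, algebraMap (B ⧸ p) K (Ideal.Quotient.mk p b) = π ⟨b, hBV b⟩ :=
    fun b => hcomp b (hBV b)
  have hEK : ∀ e : E, algebraMap (B ⧸ p) K (algebraMap E (B ⧸ p) e) = algebraMap E K e := fun e =>
    (IsScalarTower.algebraMap_apply E (B ⧸ p) K e).symm
  -- g(x') ≠ 0
  obtain ⟨hgxV, hπg⟩ := hEval g
  have hgx : MvPolynomial.aeval x' g * π ⟨_, hgV⟩ = 1 := by
    rw [← hπg, ← map_mul]
    have h1 : (⟨MvPolynomial.aeval x g, hgxV⟩ * ⟨_, hgV⟩ : V) = 1 :=
      Subtype.ext (mul_inv_cancel₀ hL.gx)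
    rw [h1, map_one]
  have hg0 : MvPolynomial.aeval x' g ≠ 0 := left_ne_zero_of_mul_eq_one hgx
  have hginv : π ⟨_, hgV⟩ = (MvPolynomial.aeval x' g)⁻¹ := eq_inv_of_mul_eq_one_right hgx
  -- w' - s' - c ≠ 0
  have hucV : w - algebraMap κ L s - algebraMap E L c ∈ V :=
    sub_mem (sub_mem hV.memw hs) (hV.ov c)
  have hπu : π ⟨_, hucV⟩ = w' - algebraMap E K s' - algebraMap E K c := by
    have h1 : (⟨_, hucV⟩ : V) = ⟨w, hV.memw⟩ - ⟨algebraMap κ L s, hs⟩ - ⟨algebraMap E L c, hV.ov c⟩ :=
      rfl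
    rw [h1, map_sub, map_sub, hπs, hπ.alg]
  have hu1 : (w' - algebraMap E K s' - algebraMap E K c) * π ⟨_, hcV⟩ = 1 := by
    rw [← hπu, ← map_mul]
    have h1 : (⟨_, hucV⟩ * ⟨_, hcV⟩ : V) = 1 := Subtype.ext (mul_inv_cancel₀ hwc)
    rw [h1, map_one]
  have hu0 : w' - algebraMap E K s' - algebraMap E K c ≠ 0 := left_ne_zero_of_mul_eq_one hu1
  have huinv : π ⟨_, hcV⟩ = (w' - algebraMap E K s' - algebraMap E K c)⁻¹ :=
    eq_inv_of_mul_eq_one_right hu1
  have hvsV : w + algebraMap κ L s ∈ V := add_mem hV.memw hs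
  have hπv : π ⟨_, hvsV⟩ = w' + algebraMap E K s' := by
    have h1 : (⟨_, hvsV⟩ : V) = ⟨w, hV.memw⟩ + ⟨algebraMap κ L s, hs⟩ := rfl
    rw [h1, map_add, hπs]
  -- the element wD
  let b1 : B := ⟨w + algebraMap κ L s, hvB⟩
  let wD : B ⧸ p := Ideal.Quotient.mk p b1 - algebraMap E (B ⧸ p) s'
  have hwD : algebraMap (B ⧸ p) K wD = w' := by
    have h1 : algebraMap (B ⧸ p) K (Ideal.Quotient.mk p b1) = w' + algebraMap E K s' :=
      (hcomp' b1).trans hπv
    rw [map_sub, h1, hEK, add_sub_cancel_right]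
  have hwDs : wD + algebraMap E (B ⧸ p) s' = Ideal.Quotient.mk p b1 := sub_add_cancel _ _
  have hb1p : b1 ∉ p := fun h1 => hws ((hAt.non b1).1 h1)
  have hwD0 : wD + algebraMap E (B ⧸ p) s' ≠ 0 := by
    rw [hwDs]
    intro h1
    exact hb1p (Ideal.Quotient.eq_zero_iff_mem.1 h1)
  -- integrality
  have hAd : ∀ y : L, y ∈ Algebra.adjoin E (bs g s x w c) → ∃ hy : y ∈ V, π ⟨y, hy⟩ ∈
      Algebra.adjoin E {x' 0, x' 1, (MvPolynomial.aeval x' g)⁻¹, w',
        (w' - algebraMap E K s' - algebraMap E K c)⁻¹} := by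
    intro y hy
    induction hy using Algebra.adjoin_induction with
    | mem y hy =>
      unfold bs at hy
      rcases hy with rfl | rfl | rfl | rfl | rfl
      · exact ⟨hV.memx 0, Algebra.subset_adjoin (Or.inl rfl)⟩
      · exact ⟨hV.memx 1, Algebra.subset_adjoin (Or.inr (Or.inl rfl))⟩
      · exact ⟨hgV, by rw [hginv]; exact Algebra.subset_adjoin (Or.inr (Or.inr (Or.inl rfl)))⟩
      · exact ⟨hcV, by
          rw [huinv]
          exact Algebra.subset_adjoin (Or.inr (Or.inr (Or.inr (Or.inr rfl))))⟩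
      · refine ⟨hvsV, ?_⟩
        rw [hπv]
        exact add_mem (Algebra.subset_adjoin (Or.inr (Or.inr (Or.inr (Or.inl rfl)))))
          (Subalgebra.algebraMap_mem _ _)
    | algebraMap e => exact ⟨hV.ov e, by rw [hπ.alg]; exact Subalgebra.algebraMap_mem _ _⟩
    | add a b _ _ ha hb =>
      obtain ⟨h1, h2⟩ := ha
      obtain ⟨h3, h4⟩ := hb
      refine ⟨add_mem h1 h3, ?_⟩
      have h5 := add_mem h2 h4
      rw [← map_add] at h5
      exact h5
    | mul a b _ _ ha hb =>
      obtain ⟨h1, h2⟩ := ha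
      obtain ⟨h3, h4⟩ := hb
      refine ⟨mul_mem h1 h3, ?_⟩
      have h5 := mul_mem h2 h4
      rw [← map_mul] at h5
      exact h5
  have hint : ∀ d : B ⧸ p, IsIntegral (Algebra.adjoin E {x' 0, x' 1, (MvPolynomial.aeval x' g)⁻¹, w',
      (w' - algebraMap E K s' - algebraMap E K c)⁻¹}) (algebraMap (B ⧸ p) K d) := by
    intro d
    obtain ⟨b, rfl⟩ := Ideal.Quotient.mk_surjective d
    rw [hcomp']
    obtain ⟨F, hF1, hF2⟩ := (hB.mem b).1 b.2
    let φ : Algebra.adjoin E (bs g s x w c) →+* V :=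
      { toFun := fun y => ⟨y, (hAd y y.2).1⟩
        map_one' := rfl
        map_mul' := fun a b => rfl
        map_zero' := rfl
        map_add' := fun a b => rfl }
    let φ' : Algebra.adjoin E (bs g s x w c) →+* (Algebra.adjoin E {x' 0, x' 1,
        (MvPolynomial.aeval x' g)⁻¹, w', (w' - algebraMap E K s' - algebraMap E K c)⁻¹} :
          Subalgebra E K) :=
      { toFun := fun y => ⟨π (φ y), (hAd y y.2).2⟩
        map_one' := Subtype.ext (by simp)
        map_mul' := fun a b => Subtype.ext (by simp)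
        map_zero' := Subtype.ext (by simp)
        map_add' := fun a b => Subtype.ext (by simp) }
    refine ⟨F.map φ', hF1.map φ', ?_⟩
    have h1 : Polynomial.eval₂ φ (⟨b, hBV b⟩ : V) F = 0 := by
      apply Subtype.ext
      have h2 := Polynomial.hom_eval₂ F φ V.subtype (⟨b, hBV b⟩ : V)
      exact h2.trans hF2
    have h3 := congrArg π h1
    rw [Polynomial.hom_eval₂, map_zero] at h3
    rw [Polynomial.eval₂_map]
    exact h3
  have hpa := pa (E := E) (K := K) (D := B ⧸ p) hft htd g x' w' (fun i => ?_) ?_ s' c hc' hint hg0 hu0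
    J hJ wD hwD hwD0 Q hQ
  · -- the quotient
    have hspan : Ideal.span {wD + algebraMap E (B ⧸ p) s'} =
        (Ideal.span {v}).map (Ideal.Quotient.mkₐ (MvPolynomial (Fin 2) E) p) := by
      rw [Ideal.map_span, Set.image_singleton, hwDs]
      apply le_antisymm
      · rw [Ideal.span_singleton_le_iff_mem, Ideal.mem_span_singleton]
        refine ⟨Ideal.Quotient.mk p ⟨_, hcB⟩, ?_⟩
        change Ideal.Quotient.mk p b1 = Ideal.Quotient.mk p v * Ideal.Quotient.mk p ⟨_, hcB⟩
        rw [← map_mul]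
        congr 1
        apply Subtype.ext
        change w + algebraMap κ L s = (v : L) * (w - algebraMap κ L s - algebraMap E L c)⁻¹
        rw [hv, vc, mul_assoc, mul_inv_cancel₀ hwc, mul_one]
      · rw [Ideal.span_singleton_le_iff_mem, Ideal.mem_span_singleton]
        refine ⟨wD - algebraMap E (B ⧸ p) s' - algebraMap E (B ⧸ p) c, ?_⟩
        change Ideal.Quotient.mk p v = _
        apply hinj
        rw [map_mul, map_sub, map_sub, hEK, hEK, hwD, hcomp', hcomp']
        have h1 : (⟨(v : L), hBV v⟩ : V) = ⟨_, hvsV⟩ * ⟨_, hucV⟩ := Subtype.ext hv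
        rw [h1, map_mul, hπu]
    rw [hspan] at hpa
    rw [← hpa]
    exact (len_equiv (mQ Q) (DoubleQuot.quotQuotEquivQuotSupₐ (MvPolynomial (Fin 2) E) p
      (Ideal.span {v})).toLinearEquiv).symm
  · -- x'
    have h1 : (algebraMap (MvPolynomial (Fin 2) E) (B ⧸ p) (MvPolynomial.X i)) =
        Ideal.Quotient.mk p (algebraMap (MvPolynomial (Fin 2) E) B (MvPolynomial.X i)) := rfl
    rw [h1, hcomp']
    rw [hx']
    simp only
    congr 1
    exact Subtype.ext (hx i).symm
  · intro h1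
    apply hV.nc
    have hlift : ∀ (y : L) (hy : y ∈ V), (∃ e₀ : E, π ⟨y, hy⟩ = algebraMap E K e₀) →
        ∃ e₀ : E, y - algebraMap E L e₀ ∈ V.nonunits := by
      rintro y hy ⟨e₀, h2⟩
      refine ⟨e₀, (hπ.ker (⟨y, hy⟩ - ⟨algebraMap E L e₀, hV.ov e₀⟩)).1 ?_⟩
      rw [map_sub, h2, hπ.alg, sub_self]
    exact ⟨fun i => hlift _ _ (h1.1 i), hlift _ _ h1.2⟩

theorem loc_a (hL : LD f g t P s τ x w q qw 𝒜) (V : ValuationSubring L) (s' : E)
    (hV : DA g s x w ((τ - 1) / τ) V s') (hws : w + algebraMap κ L s ∉ V.nonunits) :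
    ∃ (J : Ideal (MvPolynomial (Fin 3) E)) (d : ℕ), Sc f g (t - s' ^ 2) s' J ∧
      ∀ Q : Fin 2 → E, MvPolynomial.eval Q g ≠ 0 → ∀ c : E, c ≠ 0 → c ≠ - 2 * s' →
        ∀ (B : Subalgebra E L) [Algebra (MvPolynomial (Fin 2) E) B]
        [IsScalarTower E (MvPolynomial (Fin 2) E) B], Ch g s x w c B → Xb x B →
        ∀ (p : Ideal B) (_ : p.IsPrime), At B p V → ∀ v : B, (v : L) = vc s w c → v ∉ p →
          iQ Q B p v = (d : ℤ) * (cy J s' Q).toNat := by
  obtain ⟨K, i1, i2, π, hπ⟩ := rp_ex V hV.ov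
  have htd := loc_a_td hL V s' hV K π hπ
  refine ⟨RingHom.ker (MvPolynomial.aeval
      ![π ⟨x 0, hV.memx 0⟩, π ⟨x 1, hV.memx 1⟩, π ⟨w, hV.memw⟩] :
        MvPolynomial (Fin 3) E →ₐ[E] K), Module.finrank (IntermediateField.adjoin E
        {π ⟨x 0, hV.memx 0⟩, π ⟨x 1, hV.memx 1⟩, π ⟨w, hV.memw⟩}) K,
    loc_a_sc hL V s' hV hws K π hπ htd, ?_⟩
  intro Q hQ c hc hc' B _ _ hB hx p hp hAt v hv _
  have h1 := loc_a_len hL V s' hV hws K π hπ _ (fun h => RingHom.mem_ker) Q hQ hc hc' hB hx p hp hAt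
    v hv
  unfold iQ
  rw [h1, ENat.toNat_mul]
  push_cast
  simp

end

end Pool.Agent.RDP

end

section


namespace Pool.Agent.RDP

universe u v w

section

theorem pri_poly {E : Type u} [Field E] (G g h : MvPolynomial (Fin 2) E) (hG : Irreducible G)
    (hh : ¬ G ∣ h) : Pri G g (fun Q => ((oQ G h Q).toNat : ℤ)) := by
  refine ⟨h, 1, hh, fun h1 => hG.not_isUnit (isUnit_of_dvd_one h1), fun Q _ => ?_⟩
  have h0 : oQ G 1 Q = 0 := by
    unfold oQ len
    have h1 : Ideal.span {G, (1 : MvPolynomial (Fin 2) E)} = ⊤ :=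
      (Ideal.eq_top_iff_one _).2 (Ideal.subset_span (Or.inr rfl))
    have h2 : Subsingleton (MvPolynomial (Fin 2) E ⧸ Ideal.span {G, (1 : MvPolynomial (Fin 2) E)}) :=
      Ideal.Quotient.subsingleton_iff.2 h1
    have h3 : Subsingleton (LocalizedModule (mQ Q).primeCompl
        (MvPolynomial (Fin 2) E ⧸ Ideal.span {G, (1 : MvPolynomial (Fin 2) E)})) := by
      refine ⟨fun a b => ?_⟩
      induction a, b using LocalizedModule.induction_on₂ with
      | _ m m' s s' => exact LocalizedModule.mk_eq.2 ⟨1, Subsingleton.elim _ _⟩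
    exact Module.length_eq_zero
  rw [h0]
  simp

end

end Pool.Agent.RDP

end

section


namespace Pool.Agent.RDP

universe u v w

section

theorem pri_add {E : Type u} [Field E] [IsAlgClosed E] (G g : MvPolynomial (Fin 2) E)
    (hG : Irreducible G) (D D' : (Fin 2 → E) → ℤ) (h : Pri G g D) (h' : Pri G g D') :
    Pri G g (fun Q => D Q + D' Q) ∧ Pri G g (fun Q => - D Q) ∧ Pri G g (fun _ => 0) := by
  have hGp : Prime G := hG.prime
  obtain ⟨R₁, R₂, h1, h2, h3⟩ := h
  obtain ⟨R₁', R₂', h1', h2', h3'⟩ := h'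
  have hmul : ∀ a b : MvPolynomial (Fin 2) E, ¬ G ∣ a → ¬ G ∣ b → ¬ G ∣ a * b := by
    intro a b ha hb hab
    rcases hGp.dvd_or_dvd hab with h | h
    · exact ha h
    · exact hb h
  have hone : ¬ G ∣ 1 := fun h => hG.not_isUnit (isUnit_of_dvd_one h)
  refine ⟨⟨R₁ * R₁', R₂ * R₂', hmul _ _ h1 h1', hmul _ _ h2 h2', ?_⟩,
    ⟨R₂, R₁, h2, h1, ?_⟩, ⟨1, 1, hone, hone, ?_⟩⟩
  · have hI : (Ideal.span {G}).IsPrime := (Ideal.span_singleton_prime hG.ne_zero).mpr hGp
    let A := MvPolynomial (Fin 2) E ⧸ Ideal.span {G}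
    let F := FractionRing A
    let x : Fin 2 → F := fun i => algebraMap A F (Ideal.Quotient.mk _ (MvPolynomial.X i))
    have hae : ∀ h : MvPolynomial (Fin 2) E, MvPolynomial.aeval x h =
        algebraMap A F (Ideal.Quotient.mk _ h) := by
      intro h
      have h4 : (MvPolynomial.aeval x : MvPolynomial (Fin 2) E →ₐ[E] F) =
          (IsScalarTower.toAlgHom E A F).comp (Ideal.Quotient.mkₐ E (Ideal.span {G})) := by
        apply MvPolynomial.algHom_ext
        intro i
        rw [MvPolynomial.aeval_X]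
        rfl
      rw [h4]
      rfl
    have hx : ∀ h : MvPolynomial (Fin 2) E, MvPolynomial.aeval x h = 0 ↔ G ∣ h := by
      intro h
      rw [hae, map_eq_zero_iff _ (IsFractionRing.injective A F), Ideal.Quotient.eq_zero_iff_mem,
        Ideal.mem_span_singleton]
    have hgen : IntermediateField.adjoin E (Set.range x) = ⊤ := by
      rw [eq_top_iff]
      intro y _
      obtain ⟨a, b, hb, rfl⟩ := IsFractionRing.div_surjective (A := A) y
      have h5 : ∀ d : A, algebraMap A F d ∈ IntermediateField.adjoin E (Set.range x) := by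
        intro d
        obtain ⟨h, rfl⟩ := Ideal.Quotient.mk_surjective d
        rw [← hae]
        induction h using MvPolynomial.induction_on with
        | C e =>
          rw [MvPolynomial.aeval_C]
          exact IntermediateField.algebraMap_mem _ e
        | add p q hp hq =>
          rw [map_add]
          exact add_mem hp hq
        | mul_X p i hp =>
          rw [map_mul, MvPolynomial.aeval_X]
          exact mul_mem hp (IntermediateField.subset_adjoin _ _ ⟨i, rfl⟩)
      exact div_mem (h5 a) (h5 b)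
    intro Q hQ
    obtain ⟨V, o, ho, -, -, -, -, -, hoQ⟩ := oQ_dv G g hG x hx hgen Q hQ
    have hne : ∀ a : MvPolynomial (Fin 2) E, ¬ G ∣ a → MvPolynomial.aeval x a ≠ 0 :=
      fun a ha h => ha ((hx a).mp h)
    have hadd : ∀ a b : MvPolynomial (Fin 2) E, ¬ G ∣ a → ¬ G ∣ b →
        ((oQ G (a * b) Q).toNat : ℤ) = (oQ G a Q).toNat + (oQ G b Q).toNat := by
      intro a b ha hb
      rw [(hoQ a ha).2, (hoQ b hb).2, (hoQ _ (hmul a b ha hb)).2, map_mul,
        ho.mul _ _ (hne a ha) (hne b hb)]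
    beta_reduce
    rw [h3 Q hQ, h3' Q hQ, hadd _ _ h1 h1', hadd _ _ h2 h2']
    ring
  · intro Q hQ
    beta_reduce
    rw [h3 Q hQ]
    ring
  · intro Q _
    ring

end

end Pool.Agent.RDP

end

section


namespace Pool.Agent.RDP

universe u v w

private theorem pri_sum_nat {E : Type u} [Field E] [IsAlgClosed E] (G g : MvPolynomial (Fin 2) E)
    (hG : Irreducible G) (D : (Fin 2 → E) → ℤ) (h : Pri G g D) (n : ℕ) :
    Pri G g (fun Q => (n : ℤ) * D Q) := by
  induction n with
  | zero =>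
    have h1 := (pri_add G g hG D D h h).2.2
    have h2 : (fun Q => ((0 : ℕ) : ℤ) * D Q) = fun _ => 0 := by
      funext Q
      simp
    rw [h2]
    exact h1
  | succ n ih =>
    have h1 := (pri_add G g hG _ _ ih h).1
    have h2 : (fun Q => ((n + 1 : ℕ) : ℤ) * D Q) = fun Q => (n : ℤ) * D Q + D Q := by
      funext Q
      push_cast
      ring
    rw [h2]
    exact h1

private theorem pri_sum_int {E : Type u} [Field E] [IsAlgClosed E] (G g : MvPolynomial (Fin 2) E)
    (hG : Irreducible G) (D : (Fin 2 → E) → ℤ) (h : Pri G g D) (n : ℤ) :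
    Pri G g (fun Q => n * D Q) := by
  obtain ⟨m, rfl | rfl⟩ := n.eq_nat_or_neg
  · exact pri_sum_nat G g hG D h m
  · have h1 := (pri_add G g hG _ _ (pri_sum_nat G g hG D h m) h).2.1
    have h2 : (fun Q => -(m : ℤ) * D Q) = fun Q => -((m : ℤ) * D Q) := by
      funext Q
      ring
    rw [h2]
    exact h1

section

theorem pri_sum {E : Type u} [Field E] [IsAlgClosed E] (G g : MvPolynomial (Fin 2) E)
    (hG : Irreducible G) {ι : Type v} (S : Finset ι) (n : ι → ℤ) (D : ι → (Fin 2 → E) → ℤ)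
    (h : ∀ i ∈ S, Pri G g (D i)) : Pri G g (fun Q => ∑ i ∈ S, n i * D i Q) := by
  classical
  induction S using Finset.induction_on with
  | empty =>
    have h1 : ¬ G ∣ 1 := fun h => hG.not_isUnit (isUnit_of_dvd_one h)
    refine ⟨1, 1, h1, h1, fun Q _ => ?_⟩
    simp only [Finset.sum_empty, sub_self]
  | insert a S ha ih =>
    have h1 := pri_sum_int G g hG _ (h a (Finset.mem_insert_self a S)) (n a)
    have h2 := ih fun i hi => h i (Finset.mem_insert_of_mem hi)
    have h3 := (pri_add G g hG _ _ h1 h2).1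
    have h4 : (fun Q => ∑ i ∈ insert a S, n i * D i Q) = fun Q => n a * D a Q + ∑ i ∈ S, n i * D i Q := by
      funext Q
      rw [Finset.sum_insert ha]
    rw [h4]
    exact h3

end

end Pool.Agent.RDP

end

section


namespace Pool.Agent.RDP

universe u v w

private theorem loc_b_eq {E L K : Type u} [Field E] [Field L] [Algebra E L] {V : ValuationSubring L}
    [Field K] [Algebra E K] {π : V →+* K} (hπ : Rp E V K π) {a b : L} (ha : a ∈ V) (hb : b ∈ V)
    (h : a - b ∈ V.nonunits) : π ⟨a, ha⟩ = π ⟨b, hb⟩ := by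
  rw [← sub_eq_zero, ← map_sub]
  exact (hπ.ker _).2 h

private theorem loc_b_aeval {E L K : Type u} [Field E] [Field L] [Algebra E L]
    {V : ValuationSubring L} [Field K] [Algebra E K] {π : V →+* K} (hπ : Rp E V K π)
    (hE : Ov E V) (x : Fin 2 → L) (hx : ∀ i, x i ∈ V) (h : MvPolynomial (Fin 2) E) :
    ∃ hm : MvPolynomial.aeval x h ∈ V,
      π ⟨MvPolynomial.aeval x h, hm⟩ = MvPolynomial.aeval (fun i => π ⟨x i, hx i⟩) h := by
  induction h using MvPolynomial.induction_on with
  | C a =>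
    have h1 : MvPolynomial.aeval x (MvPolynomial.C a : MvPolynomial (Fin 2) E) =
        algebraMap E L a := by simp
    have h2 : MvPolynomial.aeval (fun i => π ⟨x i, hx i⟩)
        (MvPolynomial.C a : MvPolynomial (Fin 2) E) = algebraMap E K a := by simp
    refine ⟨by rw [h1]; exact hE a, ?_⟩
    rw [h2, ← hπ.alg a (hE a)]
    congr 1
    exact Subtype.ext h1
  | add p q hp hq =>
    obtain ⟨h1, h2⟩ := hp
    obtain ⟨h3, h4⟩ := hq
    have e1 : MvPolynomial.aeval x (p + q) ∈ V := by rw [map_add]; exact add_mem h1 h3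
    refine ⟨e1, ?_⟩
    have e2 : (⟨MvPolynomial.aeval x (p + q), e1⟩ : V) =
      ⟨MvPolynomial.aeval x p, h1⟩ + ⟨MvPolynomial.aeval x q, h3⟩ := Subtype.ext (map_add _ _ _)
    exact (congrArg π e2).trans (by rw [map_add, h2, h4, map_add])
  | mul_X p i hp =>
    obtain ⟨h1, h2⟩ := hp
    have e1 : MvPolynomial.aeval x (p * MvPolynomial.X i) ∈ V := by
      rw [map_mul, MvPolynomial.aeval_X]; exact mul_mem h1 (hx i)
    refine ⟨e1, ?_⟩
    have e2 : (⟨MvPolynomial.aeval x (p * MvPolynomial.X i), e1⟩ : V) =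
        ⟨MvPolynomial.aeval x p, h1⟩ * ⟨x i, hx i⟩ := by
      apply Subtype.ext
      show MvPolynomial.aeval x (p * MvPolynomial.X i) = MvPolynomial.aeval x p * x i
      rw [map_mul, MvPolynomial.aeval_X]
    exact (congrArg π e2).trans (by rw [map_mul, h2, map_mul, MvPolynomial.aeval_X])

private theorem loc_b_int {E L : Type u} [Field E] [Field L] [Algebra E L] {S : Set L}
    {B : Subalgebra E L} (hB : ∀ y ∈ B, IsIntegral (Algebra.adjoin E S) y) (hSB : ∀ y ∈ S, y ∈ B)
    {K : Type u} [CommRing K] [Algebra E K] (ψ : B →ₐ[E] K) (T : Subalgebra E K)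
    (hT : ∀ y (hy : y ∈ S), ψ ⟨y, hSB y hy⟩ ∈ T) (b : B) :
    IsIntegral T (ψ b) := by
  have hcong : ∀ y (hy : y ∈ Algebra.adjoin E S),
      ∃ (h : y ∈ B), ψ (⟨y, h⟩ : B) ∈ T := by
    intro y hy
    refine Algebra.adjoin_induction (p := fun y _ => ∃ (h : y ∈ B),
      ψ (⟨y, h⟩ : B) ∈ T) ?_ ?_ ?_ ?_ hy
    · intro y hy
      exact ⟨hSB y hy, hT y hy⟩
    · intro e
      refine ⟨(algebraMap E B e).2, ?_⟩
      have h1 : ψ ⟨algebraMap E L e, (algebraMap E B e).2⟩ = algebraMap E K e := ψ.commutes e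
      rw [h1]
      exact T.algebraMap_mem e
    · rintro a b _ _ ⟨ha, h1⟩ ⟨hb, h2⟩
      refine ⟨B.add_mem ha hb, ?_⟩
      have h3 : ψ ⟨a + b, B.add_mem ha hb⟩ = ψ ⟨a, ha⟩ + ψ ⟨b, hb⟩ := map_add ψ ⟨a, ha⟩ ⟨b, hb⟩
      rw [h3]
      exact T.add_mem h1 h2
    · rintro a b _ _ ⟨ha, h1⟩ ⟨hb, h2⟩
      refine ⟨B.mul_mem ha hb, ?_⟩
      have h3 : ψ ⟨a * b, B.mul_mem ha hb⟩ = ψ ⟨a, ha⟩ * ψ ⟨b, hb⟩ := map_mul ψ ⟨a, ha⟩ ⟨b, hb⟩
      rw [h3]
      exact T.mul_mem h1 h2
  obtain ⟨P, hPm, hP⟩ := hB (b : L) b.2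
  have hle : Algebra.adjoin E S ≤ B := fun y hy => (hcong y hy).1
  let ι : Algebra.adjoin E S →+* B := (Subalgebra.inclusion hle).toRingHom
  let χ : Algebra.adjoin E S →+* K := (ψ : B →+* K).comp ι
  have hι : Polynomial.eval₂ ι b P = 0 := by
    apply Subtype.ext
    have h1 : ((Polynomial.eval₂ ι b P : B) : L) =
        Polynomial.eval₂ ((B.val : B →+* L).comp ι) (B.val b) P :=
      Polynomial.hom_eval₂ P ι (B.val : B →+* L) b
    rw [h1]
    exact hP
  have hχ : Polynomial.eval₂ χ (ψ b) P = 0 := by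
    have h1 : (ψ : B →+* K) (Polynomial.eval₂ ι b P) = Polynomial.eval₂ χ ((ψ : B →+* K) b) P :=
      Polynomial.hom_eval₂ P ι (ψ : B →+* K) b
    rw [hι, map_zero] at h1
    exact h1.symm
  have hlift : P.map χ ∈ Polynomial.lifts (algebraMap T K) := by
    rw [Polynomial.lifts_iff_coeff_lifts]
    intro n
    rw [Polynomial.coeff_map]
    obtain ⟨h1, he⟩ := hcong _ (P.coeff n).2
    exact ⟨⟨_, he⟩, rfl⟩
  obtain ⟨q, hq, -, hqm⟩ := Polynomial.lifts_and_natDegree_eq_and_monic hlift (hPm.map χ)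
  refine ⟨q, hqm, ?_⟩
  rw [← Polynomial.eval_map, hq, Polynomial.eval_map]
  exact hχ

private theorem loc_b_iQ {E L : Type u} [Field E] [Field L] [Algebra E L] {B : Subalgebra E L}
    [Algebra (MvPolynomial (Fin 2) E) B] (p : Ideal B) (v : B) (u : B ⧸ p)
    (h : Ideal.span {Ideal.Quotient.mk p v} = Ideal.span {u}) (Q : Fin 2 → E) :
    iQ Q B p v = ((len (mQ Q) ((B ⧸ p) ⧸ Ideal.span {u})).toNat : ℤ) := by
  have h1 : (Ideal.span {v}).map (Ideal.Quotient.mkₐ (MvPolynomial (Fin 2) E) p) =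
      Ideal.span {u} := by
    rw [Ideal.map_span, Set.image_singleton]
    exact h
  let e1 := DoubleQuot.quotQuotEquivQuotSupₐ (MvPolynomial (Fin 2) E) p (Ideal.span {v})
  let e2 := Ideal.quotientEquivAlgOfEq (MvPolynomial (Fin 2) E) h1
  have e3 : (B ⧸ (p ⊔ Ideal.span {v})) ≃ₐ[MvPolynomial (Fin 2) E] ((B ⧸ p) ⧸ Ideal.span {u}) :=
    e1.symm.trans e2
  have h2 : len (mQ Q) (B ⧸ (p ⊔ Ideal.span {v})) = len (mQ Q) ((B ⧸ p) ⧸ Ideal.span {u}) :=
    len_equiv (mQ Q) e3.toLinearEquiv
  unfold iQ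
  rw [h2]

private theorem loc_b_val {E L : Type u} [Field E] [Field L] [Algebra E L] {B : Subalgebra E L}
    [Algebra (MvPolynomial (Fin 2) E) B] [IsScalarTower E (MvPolynomial (Fin 2) E) B]
    {x : Fin 2 → L} (hx : Xb x B) (h : MvPolynomial (Fin 2) E) :
    ((algebraMap (MvPolynomial (Fin 2) E) B h : B) : L) = MvPolynomial.aeval x h := by
  have h1 : B.val.comp (IsScalarTower.toAlgHom E (MvPolynomial (Fin 2) E) B) =
      MvPolynomial.aeval x := by
    apply MvPolynomial.algHom_ext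
    intro i
    rw [MvPolynomial.aeval_X]
    exact hx i
  exact DFunLike.congr_fun h1 h

private theorem loc_b_ne_bot {E L : Type u} [Field E] [Field L] [Algebra E L] {B : Subalgebra E L}
    (hfr : ∀ y : L, ∃ a ∈ B, ∃ b ∈ B, b ≠ 0 ∧ y * b = a) {p : Ideal B} {V : ValuationSubring L}
    (hAt : At B p V) (hV : V ≠ ⊤) : p ≠ ⊥ := by
  intro h0
  apply hV
  rw [eq_top_iff]
  intro y _
  obtain ⟨a, ha, b, hb, hb0, hab⟩ := hfr y
  refine (hAt.loc y).2 ⟨⟨a, ha⟩, ⟨b, hb⟩, ?_, hab⟩
  rw [h0, Ideal.mem_bot]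
  intro h2
  exact hb0 (congrArg Subtype.val h2)

section

variable {E κ L : Type u} [Field E] [IsAlgClosed E] [Field κ] [Field L] [Algebra E κ] [Algebra κ L]
  [Algebra E L] [IsScalarTower E κ L] {f g : MvPolynomial (Fin 2) E} {t : E} {P : Fin 2 → E} {s : κ}
  {τ : L} {x : Fin 2 → L} {w : L} {q : Fin 2 → κ} {qw : κ} {𝒜 : Set (Fin 2 → E)} {c : E}
  {B : Subalgebra E L}
theorem loc_b (hL : LD f g t P s τ x w q qw 𝒜) (hG : Irreducible (f - MvPolynomial.C t * g))
    (V : ValuationSubring L) (hV : DB g s x w ((τ - 1) / τ) V)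
    (hGx : MvPolynomial.aeval x (f - MvPolynomial.C t * g) ∉ V.nonunits)
    (hws : w + algebraMap κ L s ∈ V.nonunits) :
    ∃ D : (Fin 2 → E) → ℤ, Pri (f - MvPolynomial.C t * g) g D ∧
      ∀ Q : Fin 2 → E, MvPolynomial.eval Q g ≠ 0 → ∀ c : E,
        ∀ (B : Subalgebra E L) [Algebra (MvPolynomial (Fin 2) E) B]
        [IsScalarTower E (MvPolynomial (Fin 2) E) B], Ch g s x w c B → Xb x B →
        ∀ (p : Ideal B) (_ : p.IsPrime), At B p V → ∀ v : B, (v : L) = vc s w c → v ∉ p →
          iQ Q B p v = D Q := by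
  classical
  set G : MvPolynomial (Fin 2) E := f - MvPolynomial.C t * g with hGdef
  have hE := hV.ov
  have hxV := hV.memx
  obtain ⟨K, _, _, π, hπ⟩ := rp_ex (E := E) V hE
  have hnc : ¬ ∀ i, ∃ e : E, π ⟨x i, hxV i⟩ = algebraMap E K e := by
    intro h0
    apply hV.nc
    intro i
    obtain ⟨e, he⟩ := h0 i
    refine ⟨e, ?_⟩
    rw [← hπ.alg e (hE e), ← sub_eq_zero, ← map_sub, hπ.ker] at he
    exact he
  -- transcendence degree of K
  obtain ⟨B1, hB1⟩ := ch_ex hL (one_ne_zero : (1 : E) ≠ 0)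
  obtain ⟨hxB1, -, -, -, -, -⟩ := ch_mem hL hB1
  have htd : Td1 E K := by
    obtain ⟨hb1, hb2⟩ := db_ch hL.two V hV (1 : E)
    obtain ⟨p1, hp1, hp10, -, hAt1⟩ := ch_at hB1 V hE hV.top hb1 hb2
    let θ : MvPolynomial (Fin 2) E →ₐ[E] B1 := MvPolynomial.aeval (fun i => ⟨x i, hxB1 i⟩)
    let _ : Algebra (MvPolynomial (Fin 2) E) B1 := θ.toRingHom.toAlgebra
    have _ : IsScalarTower E (MvPolynomial (Fin 2) E) B1 :=
      IsScalarTower.of_algebraMap_eq fun e => (θ.commutes e).symm
    have hXb1 : Xb x B1 := by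
      intro i
      have h2 : θ (MvPolynomial.X i) = ⟨x i, hxB1 i⟩ := MvPolynomial.aeval_X _ i
      exact congrArg Subtype.val h2
    obtain ⟨_, _, _, -, h3, -, -⟩ := dk hB1 hXb1 p1 hp10 V hAt1 K π hπ
    exact h3
  obtain ⟨h, hirr, hh⟩ := plane_h htd (fun i => π ⟨x i, hxV i⟩) hnc
  have hhG : ¬ h ∣ G := by
    intro h0
    obtain ⟨hm, hm'⟩ := loc_b_aeval hπ hE x hxV G
    rw [(hh G).2 h0, hπ.ker] at hm'
    exact hGx hm'
  have hgx : MvPolynomial.aeval (fun i => π ⟨x i, hxV i⟩) g ≠ 0 := by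
    intro h0
    obtain ⟨hm, hm'⟩ := loc_b_aeval hπ hE x hxV g
    rw [h0] at hm'
    have h5 : (⟨(MvPolynomial.aeval x g)⁻¹, hV.memg⟩ : V) * ⟨MvPolynomial.aeval x g, hm⟩ = 1 := by
      apply Subtype.ext
      show (MvPolynomial.aeval x g)⁻¹ * MvPolynomial.aeval x g = 1
      exact inv_mul_cancel₀ hL.gx
    have h6 := congrArg π h5
    rw [map_mul, hm', mul_zero, map_one] at h6
    exact zero_ne_one h6
  have hhg : ¬ h ∣ g := fun h0 => hgx ((hh g).2 h0)
  have hGh : ¬ G ∣ h := fun h0 => hhG (hG.dvd_symm hirr h0)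
  set d : ℕ := Module.finrank (IntermediateField.adjoin E
    (Set.range fun i => π ⟨x i, hxV i⟩)) K with hd
  refine ⟨fun Q => (d : ℤ) * ((oQ G h Q).toNat : ℤ), ?_, ?_⟩
  · have h2 := pri_sum G g hG ({()} : Finset Unit) (fun _ => (d : ℤ))
      (fun _ Q => ((oQ G h Q).toNat : ℤ)) (fun _ _ => pri_poly G g h hG hGh)
    simpa using h2
  intro Q hQ c B _ _ hB hXb p hp hAt v hv _
  obtain ⟨hxB, hgB, hcB, hwsB, hvcB, hvc⟩ := ch_mem hL hB
  have hp0 : p ≠ ⊥ := loc_b_ne_bot hB.fr hAt hV.top
  obtain ⟨_, _, _, hcomp, -, hft, -⟩ := dk hB hXb p hp0 V hAt K π hπ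
  have hinj : Function.Injective (algebraMap (B ⧸ p) K) := IsFractionRing.injective (B ⧸ p) K
  have hmk : ∀ (b : B), (b : L) ∈ V.nonunits → Ideal.Quotient.mk p b = 0 := by
    intro b hb
    exact Ideal.Quotient.eq_zero_iff_mem.2 ((hAt.non b).2 hb)
  have hmkws : Ideal.Quotient.mk p ⟨w + algebraMap κ L s, hwsB⟩ = 0 := hmk _ hws
  have hcn : (w - algebraMap κ L s - algebraMap E L c)⁻¹ ∈ V.nonunits := by
    rw [ValuationSubring.inv_mem_nonunits_iff]
    right
    intro h0
    apply hV.nots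
    have h2 : algebraMap κ L s = algebraMap E L (2⁻¹) * ((w + algebraMap κ L s) -
        (w - algebraMap κ L s - algebraMap E L c) - algebraMap E L c) := by
      have h3 : algebraMap E L (2⁻¹) * 2 = 1 := by
        have h4 : (2 : L) = algebraMap E L 2 := (map_ofNat (algebraMap E L) 2).symm
        rw [h4, ← map_mul, inv_mul_cancel₀ hL.two, map_one]
      linear_combination (-(algebraMap κ L s)) * h3
    rw [h2]
    exact mul_mem (hE _) (sub_mem (sub_mem hV.memv h0) (hE c))
  have hmkc : Ideal.Quotient.mk p ⟨(w - algebraMap κ L s - algebraMap E L c)⁻¹, hcB⟩ = 0 :=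
    hmk _ hcn
  have hSB : ∀ y ∈ bs g s x w c, y ∈ B := by
    intro y hy
    simp only [bs, Set.mem_insert_iff, Set.mem_singleton_iff] at hy
    rcases hy with rfl | rfl | rfl | rfl | rfl
    · exact hxB 0
    · exact hxB 1
    · exact hgB
    · exact hcB
    · exact hwsB
  have hKx : ∀ i, algebraMap (B ⧸ p) K (Ideal.Quotient.mk p ⟨x i, hxB i⟩) = π ⟨x i, hxV i⟩ :=
    fun i => hcomp ⟨x i, hxB i⟩ (hxV i)
  have hKg : algebraMap (B ⧸ p) K (Ideal.Quotient.mk p ⟨(MvPolynomial.aeval x g)⁻¹, hgB⟩) =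
      (MvPolynomial.aeval (fun i => π ⟨x i, hxV i⟩) g)⁻¹ := by
    rw [hcomp ⟨_, hgB⟩ hV.memg]
    obtain ⟨hm, hm'⟩ := loc_b_aeval hπ hE x hxV g
    rw [← hm']
    apply eq_inv_of_mul_eq_one_left
    rw [← map_mul]
    have h5 : (⟨(MvPolynomial.aeval x g)⁻¹, hV.memg⟩ : V) * ⟨MvPolynomial.aeval x g, hm⟩ = 1 := by
      apply Subtype.ext
      show (MvPolynomial.aeval x g)⁻¹ * MvPolynomial.aeval x g = 1
      exact inv_mul_cancel₀ hL.gx
    rw [h5, map_one]
  let ψ : B →ₐ[E] K := (IsScalarTower.toAlgHom E (B ⧸ p) K).comp (Ideal.Quotient.mkₐ E p)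
  have hψ : ∀ b : B, ψ b = algebraMap (B ⧸ p) K (Ideal.Quotient.mk p b) := fun b => rfl
  have hint : ∀ D : B ⧸ p, IsIntegral (Algebra.adjoin E {π ⟨x 0, hxV 0⟩, π ⟨x 1, hxV 1⟩,
      (MvPolynomial.aeval (fun i => π ⟨x i, hxV i⟩) g)⁻¹}) (algebraMap (B ⧸ p) K D) := by
    intro D
    obtain ⟨b, rfl⟩ := Ideal.Quotient.mk_surjective D
    refine loc_b_int (fun y hy => (hB.mem y).1 hy) hSB ψ _ ?_ b
    intro y hy
    have hy' := hy
    simp only [bs, Set.mem_insert_iff, Set.mem_singleton_iff] at hy'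
    rw [hψ]
    rcases hy' with rfl | rfl | rfl | rfl | rfl
    · rw [hKx 0]; exact Algebra.subset_adjoin (by simp)
    · rw [hKx 1]; exact Algebra.subset_adjoin (by simp)
    · rw [hKg]; exact Algebra.subset_adjoin (by simp)
    · rw [hmkc, map_zero]; exact Subalgebra.zero_mem _
    · rw [hmkws, map_zero]; exact Subalgebra.zero_mem _
  have hxD : ∀ i, π ⟨x i, hxV i⟩ = algebraMap (B ⧸ p) K
      (algebraMap (MvPolynomial (Fin 2) E) (B ⧸ p) (MvPolynomial.X i)) := by
    intro i
    rw [← hKx i]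
    have h2 : algebraMap (MvPolynomial (Fin 2) E) (B ⧸ p) (MvPolynomial.X i) =
      Ideal.Quotient.mk p (algebraMap (MvPolynomial (Fin 2) E) B (MvPolynomial.X i)) := rfl
    rw [h2]
    congr 2
    exact Subtype.ext (hXb i).symm
  have hspan : Ideal.span {Ideal.Quotient.mk p v} =
      Ideal.span {algebraMap (MvPolynomial (Fin 2) E) (B ⧸ p) G} := by
    have h2 : v * algebraMap (MvPolynomial (Fin 2) E) B g =
        algebraMap (MvPolynomial (Fin 2) E) B G - algebraMap E B c *
          ⟨w + algebraMap κ L s, hwsB⟩ * algebraMap (MvPolynomial (Fin 2) E) B g := by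
      apply Subtype.ext
      have h3 : ((v * algebraMap (MvPolynomial (Fin 2) E) B g : B) : L) =
          (v : L) * ((algebraMap (MvPolynomial (Fin 2) E) B g : B) : L) := rfl
      have h4 : ((algebraMap (MvPolynomial (Fin 2) E) B G - algebraMap E B c *
          ⟨w + algebraMap κ L s, hwsB⟩ * algebraMap (MvPolynomial (Fin 2) E) B g : B) : L) =
          ((algebraMap (MvPolynomial (Fin 2) E) B G : B) : L) - algebraMap E L c *
          (w + algebraMap κ L s) * ((algebraMap (MvPolynomial (Fin 2) E) B g : B) : L) := rfl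
      rw [h3, h4, loc_b_val hXb, loc_b_val hXb, hv]
      exact hvc
    have h3 : Ideal.Quotient.mk p v * Ideal.Quotient.mk p (algebraMap (MvPolynomial (Fin 2) E) B g) =
        algebraMap (MvPolynomial (Fin 2) E) (B ⧸ p) G := by
      rw [← map_mul, h2, map_sub, map_mul, map_mul, hmkws, mul_zero, zero_mul, sub_zero]
      rfl
    have h4 : IsUnit (Ideal.Quotient.mk p (algebraMap (MvPolynomial (Fin 2) E) B g)) := by
      apply RingHom.isUnit_map
      refine IsUnit.of_mul_eq_one ⟨(MvPolynomial.aeval x g)⁻¹, hgB⟩ ?_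
      apply Subtype.ext
      have h5 : ((algebraMap (MvPolynomial (Fin 2) E) B g *
          ⟨(MvPolynomial.aeval x g)⁻¹, hgB⟩ : B) : L) =
          ((algebraMap (MvPolynomial (Fin 2) E) B g : B) : L) * (MvPolynomial.aeval x g)⁻¹ := rfl
      rw [h5, loc_b_val hXb]
      exact mul_inv_cancel₀ hL.gx
    rw [← h3]
    exact (Ideal.span_singleton_mul_right_unit h4 _).symm
  have hfinal := pb (E := E) (K := K) (D := B ⧸ p) hft htd G g (fun i => π ⟨x i, hxV i⟩) hxD hnc
    hint h hh hhg hhG Q hQ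
  rw [loc_b_iQ p v _ hspan Q, hfinal, ENat.toNat_mul, ENat.toNat_natCast]
  push_cast
  rfl

end

end Pool.Agent.RDP

end

section


namespace Pool.Agent.RDP

universe u v w

section

private theorem loc_t1_eval {E L K : Type u} [Field E] [Field L] [Algebra E L] [Field K]
    [Algebra E K] (V : ValuationSubring L) (π : V →+* K) (hπ : Rp E V K π) (hE : Ov E V)
    (x : Fin 2 → L) (hx : ∀ i, x i ∈ V) (h : MvPolynomial (Fin 2) E) :
    ∃ hm : MvPolynomial.aeval x h ∈ V,
      π ⟨MvPolynomial.aeval x h, hm⟩ = MvPolynomial.aeval (fun i => π ⟨x i, hx i⟩) h := by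
  induction h using MvPolynomial.induction_on with
  | C e =>
    have h1 : MvPolynomial.aeval x (MvPolynomial.C e) ∈ V := by
      rw [MvPolynomial.aeval_C]; exact hE e
    have h2 : (⟨MvPolynomial.aeval x (MvPolynomial.C e), h1⟩ : V) = ⟨algebraMap E L e, hE e⟩ :=
      Subtype.ext (MvPolynomial.aeval_C x e)
    exact ⟨h1, by rw [h2, hπ.alg, MvPolynomial.aeval_C]⟩
  | add p q hp hq =>
    obtain ⟨p1, p2⟩ := hp
    obtain ⟨q1, q2⟩ := hq
    have h1 : MvPolynomial.aeval x (p + q) ∈ V := by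
      rw [map_add]; exact add_mem p1 q1
    have h2 : (⟨MvPolynomial.aeval x (p + q), h1⟩ : V) =
        ⟨MvPolynomial.aeval x p, p1⟩ + ⟨MvPolynomial.aeval x q, q1⟩ :=
      Subtype.ext (map_add _ _ _)
    exact ⟨h1, by rw [h2, map_add, p2, q2, map_add]⟩
  | mul_X p i hp =>
    obtain ⟨p1, p2⟩ := hp
    have h1 : MvPolynomial.aeval x (p * MvPolynomial.X i) ∈ V := by
      rw [map_mul, MvPolynomial.aeval_X]; exact mul_mem p1 (hx i)
    have h2 : (⟨MvPolynomial.aeval x (p * MvPolynomial.X i), h1⟩ : V) =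
        ⟨MvPolynomial.aeval x p, p1⟩ * ⟨x i, hx i⟩ :=
      Subtype.ext ((map_mul _ _ _).trans (by rw [MvPolynomial.aeval_X]; rfl))
    exact ⟨h1, by rw [h2, map_mul, p2, map_mul, MvPolynomial.aeval_X]⟩

private theorem loc_t1_nonunits {K : Type u} [Field K] (W : ValuationSubring K) {z : K}
    (hz : z ∉ W.nonunits) : z⁻¹ ∈ W := by
  by_contra h
  apply hz
  rw [ValuationSubring.mem_nonunits_iff]
  have h1 := (ValuationSubring.valuation_le_one_iff W z⁻¹).not.2 h
  rw [map_inv₀] at h1
  push Not at h1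
  have h2 : W.valuation z ≠ 0 := by
    intro h3
    rw [h3, inv_zero] at h1
    exact absurd h1 (not_lt.2 zero_le)
  exact (one_lt_inv₀ (zero_lt_iff.2 h2)).1 h1

private theorem loc_t1_nu0 {K : Type u} [Field K] (W : ValuationSubring K) :
    (0 : K) ∈ W.nonunits := by
  rw [ValuationSubring.mem_nonunits_iff, map_zero]
  exact zero_lt_one

private theorem loc_t1_nuadd {K : Type u} [Field K] (W : ValuationSubring K) {a b : K}
    (ha : a ∈ W.nonunits) (hb : b ∈ W.nonunits) : a + b ∈ W.nonunits := by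
  rw [ValuationSubring.mem_nonunits_iff] at *
  exact Valuation.map_add_lt _ ha hb

private theorem loc_t1_numul {K : Type u} [Field K] (W : ValuationSubring K) {a b : K}
    (ha : a ∈ W) (hb : b ∈ W.nonunits) : a * b ∈ W.nonunits := by
  rw [ValuationSubring.mem_nonunits_iff] at *
  rw [map_mul]
  exact mul_lt_one_of_nonneg_of_lt_one_right ((ValuationSubring.valuation_le_one_iff W a).2 ha)
    zero_le hb

private theorem loc_t1_mem {K : Type u} [Field K] (W : ValuationSubring K) {a b : K}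
    (hb : b ∈ W) (h : a - b ∈ W.nonunits) : a ∈ W := by
  have h1 := add_mem (ValuationSubring.nonunits_subset h) hb
  rwa [sub_add_cancel] at h1

/-- the composite of valuation rings -/
private theorem loc_t1_comp {E L K : Type u} [Field E] [Field L] [Algebra E L] [Field K]
    [Algebra E K] (V : ValuationSubring L) (π : V →+* K) (hπ : Rp E V K π)
    (W : ValuationSubring K) : ∃ W' : ValuationSubring L, ∀ y : L,
      y ∈ W' ↔ ∃ hy : y ∈ V, π ⟨y, hy⟩ ∈ W := by
  refine ⟨{ carrier := {y | ∃ hy : y ∈ V, π ⟨y, hy⟩ ∈ W}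
            mul_mem' := ?_, one_mem' := ?_, add_mem' := ?_, zero_mem' := ?_, neg_mem' := ?_
            mem_or_inv_mem' := ?_ }, fun y => Iff.rfl⟩
  · rintro a b ⟨ha, ha'⟩ ⟨hb, hb'⟩
    refine ⟨mul_mem ha hb, ?_⟩
    have : (⟨a * b, mul_mem ha hb⟩ : V) = ⟨a, ha⟩ * ⟨b, hb⟩ := rfl
    rw [this, map_mul]
    exact mul_mem ha' hb'
  · refine ⟨one_mem V, ?_⟩
    have : (⟨1, one_mem V⟩ : V) = 1 := rfl
    rw [this, map_one]
    exact one_mem W
  · rintro a b ⟨ha, ha'⟩ ⟨hb, hb'⟩
    refine ⟨add_mem ha hb, ?_⟩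
    have : (⟨a + b, add_mem ha hb⟩ : V) = ⟨a, ha⟩ + ⟨b, hb⟩ := rfl
    rw [this, map_add]
    exact add_mem ha' hb'
  · refine ⟨zero_mem V, ?_⟩
    have : (⟨0, zero_mem V⟩ : V) = 0 := rfl
    rw [this, map_zero]
    exact zero_mem W
  · rintro a ⟨ha, ha'⟩
    refine ⟨neg_mem ha, ?_⟩
    have : (⟨-a, neg_mem ha⟩ : V) = -⟨a, ha⟩ := rfl
    rw [this, map_neg]
    exact neg_mem ha'
  · intro y
    by_cases hy : y ∈ V.nonunits
    · left
      have h1 : y ∈ V := ValuationSubring.nonunits_subset hy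
      refine ⟨h1, ?_⟩
      rw [(hπ.ker ⟨y, h1⟩).2 hy]
      exact zero_mem W
    · have h2 : y⁻¹ ∈ V := loc_t1_nonunits V hy
      by_cases hy' : y⁻¹ ∈ V.nonunits
      · right
        refine ⟨h2, ?_⟩
        rw [(hπ.ker ⟨y⁻¹, h2⟩).2 hy']
        exact zero_mem W
      · have h1 : y ∈ V := by
          have := loc_t1_nonunits V hy'
          rwa [inv_inv] at this
        have hy0 : y ≠ 0 := by
          rintro rfl
          exact hy (by rw [ValuationSubring.mem_nonunits_iff, map_zero]; exact zero_lt_one)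
        have h3 : π ⟨y, h1⟩ * π ⟨y⁻¹, h2⟩ = 1 := by
          rw [← map_mul]
          have : (⟨y, h1⟩ * ⟨y⁻¹, h2⟩ : V) = 1 := Subtype.ext (mul_inv_cancel₀ hy0)
          rw [this, map_one]
        have h4 : π ⟨y⁻¹, h2⟩ = (π ⟨y, h1⟩)⁻¹ := (inv_eq_of_mul_eq_one_right h3).symm
        rcases W.mem_or_inv_mem (π ⟨y, h1⟩) with h5 | h5
        · exact Or.inl ⟨h1, h5⟩
        · exact Or.inr ⟨h2, by rw [h4]; exact h5⟩

private theorem loc_t1_inv {L K : Type u} [Field L] [Field K] (V : ValuationSubring L)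
    (π : V →+* K) (W : ValuationSubring K) {z : L} (hz : z ∈ V) (hz' : z⁻¹ ∈ V)
    (hy : π ⟨z, hz⟩ ∉ W.nonunits) : π ⟨z⁻¹, hz'⟩ ∈ W := by
  have hz0 : z ≠ 0 := by
    rintro rfl
    apply hy
    have : (⟨0, hz⟩ : V) = 0 := rfl
    rw [this, map_zero]
    exact loc_t1_nu0 W
  have h3 : π ⟨z, hz⟩ * π ⟨z⁻¹, hz'⟩ = 1 := by
    rw [← map_mul]
    have : (⟨z, hz⟩ * ⟨z⁻¹, hz'⟩ : V) = 1 := Subtype.ext (mul_inv_cancel₀ hz0)
    rw [this, map_one]
  have h4 : π ⟨z⁻¹, hz'⟩ = (π ⟨z, hz⟩)⁻¹ := (inv_eq_of_mul_eq_one_right h3).symm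
  rw [h4]
  exact loc_t1_nonunits W hy

private theorem loc_t1_const {E K : Type u} [Field E] [Field K] [Algebra E K]
    (W : ValuationSubring K) (hW : Ov E W) {e : E} (he : e ≠ 0) :
    algebraMap E K e ∉ W.nonunits := by
  intro h
  have h1 := loc_t1_numul W (hW e⁻¹) h
  rw [← map_mul, inv_mul_cancel₀ he, map_one, ValuationSubring.mem_nonunits_iff, map_one] at h1
  exact lt_irrefl _ h1

private theorem loc_t1_int {L : Type u} [Field L] (W : ValuationSubring L) {E : Type u} [Field E]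
    [Algebra E L] (A : Subalgebra E L) (hA : ∀ y ∈ A, y ∈ W) {y : L} (hy : IsIntegral A y) :
    y ∈ W := by
  have h1 : IsIntegral W y := by
    refine IsIntegral.map_of_comp_eq (R := A) (S := L) (T := W) (U := L)
      ((algebraMap A L).codRestrict W.toSubring fun a => hA _ a.2) (RingHom.id L) ?_ hy
    ext a
    rfl
  obtain ⟨z, hz⟩ := IsIntegrallyClosed.isIntegral_iff.1 h1
  rw [← hz]
  exact z.2

/-- polynomials at congruent points -/
private theorem loc_t1_congr {E K : Type u} [Field E] [Field K] [Algebra E K]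
    (W : ValuationSubring K) (hW : Ov E W) (x : Fin 2 → K) (Q : Fin 2 → E)
    (h : ∀ i, x i - algebraMap E K (Q i) ∈ W.nonunits) (g : MvPolynomial (Fin 2) E) :
    MvPolynomial.aeval x g - algebraMap E K (MvPolynomial.eval Q g) ∈ W.nonunits := by
  induction g using MvPolynomial.induction_on with
  | C e =>
    rw [MvPolynomial.aeval_C, MvPolynomial.eval_C, sub_self]
    exact loc_t1_nu0 W
  | add p q hp hq =>
    rw [map_add, map_add, map_add, add_sub_add_comm]
    exact loc_t1_nuadd W hp hq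
  | mul_X p i hp =>
    have h1 : MvPolynomial.aeval x (p * MvPolynomial.X i) -
        algebraMap E K (MvPolynomial.eval Q (p * MvPolynomial.X i)) =
        x i * (MvPolynomial.aeval x p - algebraMap E K (MvPolynomial.eval Q p)) +
          algebraMap E K (MvPolynomial.eval Q p) * (x i - algebraMap E K (Q i)) := by
      simp only [map_mul, MvPolynomial.aeval_X, MvPolynomial.eval_X]
      ring
    rw [h1]
    apply loc_t1_nuadd W
    · exact loc_t1_numul W (loc_t1_mem W (hW _) (h i)) hp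
    · exact loc_t1_numul W (hW _) (h i)

private theorem loc_t1_fd {E K : Type u} [Field E] [IsAlgClosed E] [Field K] [Algebra E K]
    (htr : Td1 E K) (S : Finset K) (hS : IntermediateField.adjoin E (S : Set K) = ⊤)
    (x : Fin 2 → K) (i : Fin 2) (hi : ∀ e : E, x i ≠ algebraMap E K e) :
    FiniteDimensional (IntermediateField.adjoin E (Set.range x)) K := by
  have htrans : Transcendental E (x i) := by
    intro halg
    obtain ⟨e, he⟩ := minpoly.mem_range_of_degree_eq_one E (x i)
      (IsAlgClosed.degree_eq_one_of_irreducible E (minpoly.irreducible halg.isIntegral))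
    exact hi e he.symm
  have hle : IntermediateField.adjoin E {x i} ≤ IntermediateField.adjoin E (Set.range x) :=
    IntermediateField.adjoin.mono _ _ _ (Set.singleton_subset_iff.2 ⟨i, rfl⟩)
  have hint : ∀ y : K, IsIntegral (IntermediateField.adjoin E (Set.range x)) y := by
    intro y
    have h1 : IsIntegral (IntermediateField.adjoin E {x i}) y := (htr _ htrans y).isIntegral
    exact IsIntegral.map_of_comp_eq (IntermediateField.inclusion hle : _ →+* _) (RingHom.id K)
      (by ext a; rfl) h1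
  have hfin : FiniteDimensional (IntermediateField.adjoin E (Set.range x))
      (IntermediateField.adjoin (IntermediateField.adjoin E (Set.range x)) (S : Set K)) :=
    IntermediateField.finiteDimensional_adjoin fun y _ => hint y
  have htop : IntermediateField.adjoin (IntermediateField.adjoin E (Set.range x)) (S : Set K) = ⊤ := by
    rw [eq_top_iff]
    intro y _
    have h1 : IntermediateField.adjoin E (S : Set K) ≤
        (IntermediateField.adjoin (IntermediateField.adjoin E (Set.range x)) (S : Set K)).restrictScalars E :=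
      IntermediateField.adjoin_le_iff.2 (IntermediateField.subset_adjoin _ _)
    rw [hS] at h1
    exact h1 (IntermediateField.mem_top (x := y))
  rw [htop] at hfin
  exact Module.Finite.equiv (IntermediateField.topEquiv (F := IntermediateField.adjoin E (Set.range x)) (E := K)).toLinearEquiv

private theorem loc_t1_gen {E K : Type u} [Field E] [Field K] [Algebra E K] (x : Fin 2 → K)
    (x' : Fin 2 → IntermediateField.adjoin E (Set.range x)) (hx : ∀ i, (x' i : K) = x i) :
    IntermediateField.adjoin E (Set.range x') = ⊤ := by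
  apply IntermediateField.map_injective (IntermediateField.adjoin E (Set.range x)).val
  rw [IntermediateField.adjoin_map, ← AlgHom.fieldRange_eq_map, IntermediateField.fieldRange_val,
    ← Set.range_comp]
  congr 2
  funext i
  exact hx i

end

section

variable {E κ L : Type u} [Field E] [IsAlgClosed E] [Field κ] [Field L] [Algebra E κ] [Algebra κ L]
  [Algebra E L] [IsScalarTower E κ L] {f g : MvPolynomial (Fin 2) E} {t : E} {P : Fin 2 → E} {s : κ}
  {τ : L} {x : Fin 2 → L} {w : L} {q : Fin 2 → κ} {qw : κ} {𝒜 : Set (Fin 2 → E)} {c : E}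
  {B : Subalgebra E L}
private theorem loc_t1_iQ {E L : Type u} [Field E] [Field L] [Algebra E L] (Q : Fin 2 → E)
    (B : Subalgebra E L) [Algebra (MvPolynomial (Fin 2) E) B] (p : Ideal B) (a : B) :
    iQ Q B p a = ((len (mQ Q) ((B ⧸ p) ⧸ Ideal.span {Ideal.Quotient.mk p a})).toNat : ℤ) := by
  unfold iQ
  have h1 : Ideal.span {Ideal.Quotient.mk p a} =
      (Ideal.span {a}).map (Ideal.Quotient.mkₐ (MvPolynomial (Fin 2) E) p) := by
    rw [Ideal.map_span, Set.image_singleton]
    rfl
  rw [h1, len_equiv (mQ Q)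
    (DoubleQuot.quotQuotEquivQuotSupₐ (MvPolynomial (Fin 2) E) p (Ideal.span {a})).toLinearEquiv]

private theorem loc_t1_res (hL : LD f g t P s τ x w q qw 𝒜) (V : ValuationSubring L)
    (hV : TT g s x w V) (hE : Ov E V) (K : Type u) [Field K] [Algebra E K] (π : V →+* K)
    (hπ : Rp E V K π) :
    Td1 E K ∧ ∃ S : Finset K, IntermediateField.adjoin E (S : Set K) = ⊤ := by
  obtain ⟨B, hB⟩ := ch_ex hL (one_ne_zero : (1 : E) ≠ 0)
  obtain ⟨h1, h2, -⟩ := tt_ch hL V hV 1
  obtain ⟨p, hp, hp0, -, hat⟩ := ch_at hB V hE hV.top h1 h2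
  have hx := (ch_mem hL hB).1
  let _ : Algebra (MvPolynomial (Fin 2) E) B :=
    (MvPolynomial.aeval (fun i => (⟨x i, hx i⟩ : B))).toRingHom.toAlgebra
  have : IsScalarTower E (MvPolynomial (Fin 2) E) B :=
    IsScalarTower.of_algebraMap_eq fun e => by
      show _ = MvPolynomial.aeval (fun i => (⟨x i, hx i⟩ : B)) (algebraMap E _ e)
      rw [MvPolynomial.algebraMap_eq, MvPolynomial.aeval_C]
  have hXb : Xb x B := fun i => by
    show ((MvPolynomial.aeval (fun i => (⟨x i, hx i⟩ : B)) (MvPolynomial.X i) : B) : L) = x i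
    rw [MvPolynomial.aeval_X]
  obtain ⟨_, _, _, -, h3, -, h4⟩ := dk hB hXb p hp0 V hat K π hπ
  exact ⟨h3, h4⟩

theorem loc_t1 (hL : LD f g t P s τ x w q qw 𝒜) (hG : Irreducible (f - MvPolynomial.C t * g))
    (V : ValuationSubring L) (hV : TT g s x w V)
    (hnc : ¬ ∀ i, ∃ e : E, x i - algebraMap E L e ∈ V.nonunits) :
    ∃ D : (Fin 2 → E) → ℤ, Pri (f - MvPolynomial.C t * g) g D ∧
      ∀ Q, Gp (f - MvPolynomial.C t * g) g Q → ∃ N : Set E, N.Finite ∧ ∀ c : E, c ∉ N → c ≠ 0 →
        ∀ (B : Subalgebra E L) [Algebra (MvPolynomial (Fin 2) E) B]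
        [IsScalarTower E (MvPolynomial (Fin 2) E) B], Ch g s x w c B → Xb x B →
        ∀ (p : Ideal B) (_ : p.IsPrime), At B p V → ∀ a b : B, a ∉ p → b ∉ p →
          (τ - 1) / τ * (b : L) = a → iQ Q B p a - iQ Q B p b = D Q := by
  have hE : Ov E V := fun e => by
    rw [IsScalarTower.algebraMap_apply E κ L]
    exact hV.kap _
  obtain ⟨K, iK, iA, π, hπ⟩ := rp_ex V hE
  obtain ⟨htr, S, hS⟩ := loc_t1_res hL V hV hE K π hπ
  -- the functions on the curve
  set x' : Fin 2 → K := fun i => π ⟨x i, hV.memx i⟩ with hx'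
  have hnc' : ¬ ∀ i, ∃ e : E, x' i = algebraMap E K e := by
    intro h
    apply hnc
    intro i
    obtain ⟨e, he⟩ := h i
    refine ⟨e, ?_⟩
    have h1 : π (⟨x i, hV.memx i⟩ - ⟨algebraMap E L e, hE e⟩) = 0 := by
      rw [map_sub, hπ.alg, ← he, sub_self]
    exact (hπ.ker _).1 h1
  have hev := loc_t1_eval V π hπ hE x hV.memx
  have hs : algebraMap κ L s ∈ V := hV.kap s
  obtain ⟨hψ1, hψ2⟩ := tt_psi hL V hV
  have hGx : MvPolynomial.aeval x' (f - MvPolynomial.C t * g) = 0 := by
    obtain ⟨h1, h2⟩ := hev (f - MvPolynomial.C t * g)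
    rw [← h2, hπ.ker]
    show MvPolynomial.aeval x (f - MvPolynomial.C t * g) ∈ V.nonunits
    have h3 : MvPolynomial.aeval x (f - MvPolynomial.C t * g) =
        ((w + algebraMap κ L s - 2 * algebraMap κ L s) * MvPolynomial.aeval x g) *
          (w + algebraMap κ L s) := by
      rw [map_sub, map_mul, MvPolynomial.aeval_C]
      linear_combination -hL.eq
    rw [h3]
    refine loc_t1_numul V (mul_mem (sub_mem (ValuationSubring.nonunits_subset hV.zero)
      (mul_mem (by exact_mod_cast natCast_mem V 2) hs)) (hev g).1) hV.zero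
  obtain ⟨h, hirr, hh⟩ := plane_h htr x' hnc'
  have hGh : ∀ p : MvPolynomial (Fin 2) E,
      MvPolynomial.aeval x' p = 0 ↔ (f - MvPolynomial.C t * g) ∣ p := by
    have h1 : h ∣ (f - MvPolynomial.C t * g) := (hh _).1 hGx
    have h2 : Associated h (f - MvPolynomial.C t * g) := hirr.associated_of_dvd hG h1
    intro p
    rw [hh, h2.dvd_iff_dvd_left]
  obtain ⟨i₀, hi₀⟩ : ∃ i, ∀ e : E, x' i ≠ algebraMap E K e := by
    by_contra hc
    push Not at hc
    exact hnc' hc
  have hfd := loc_t1_fd htr S hS x' i₀ hi₀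
  -- the norm of `ψ`
  obtain ⟨ψ', hψ'⟩ : ∃ ψ' : K, ψ' = π ⟨(τ - 1) / τ, hψ1⟩ := ⟨_, rfl⟩
  have hτ0 : τ ≠ 0 := fun h0 => hL.tau (h0 ▸ isAlgebraic_zero)
  have hτ1 : τ - 1 ≠ 0 := fun h0 => hL.tau ((sub_eq_zero.1 h0) ▸ isAlgebraic_one)
  have hψL : (τ - 1) / τ ≠ 0 := div_ne_zero hτ1 hτ0
  have hψ0 : ψ' ≠ 0 := by
    have h1 : π ⟨(τ - 1) / τ, hψ1⟩ * π ⟨((τ - 1) / τ)⁻¹, hψ2⟩ = 1 := by
      rw [← map_mul]
      have : (⟨(τ - 1) / τ, hψ1⟩ * ⟨((τ - 1) / τ)⁻¹, hψ2⟩ : V) = 1 :=
        Subtype.ext (mul_inv_cancel₀ hψL)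
      rw [this, map_one]
    rw [hψ']
    exact left_ne_zero_of_mul_eq_one h1
  have hFx : ∀ i, x' i ∈ IntermediateField.adjoin E (Set.range x') := fun i =>
    IntermediateField.subset_adjoin E _ ⟨i, rfl⟩
  obtain ⟨x'', hx''⟩ : ∃ x'' : Fin 2 → IntermediateField.adjoin E (Set.range x'),
      ∀ i, (x'' i : K) = x' i := ⟨fun i => ⟨x' i, hFx i⟩, fun i => rfl⟩
  have hgen := loc_t1_gen x' x'' hx''
  have hev' : ∀ r : MvPolynomial (Fin 2) E,
      ((MvPolynomial.aeval x'' r : IntermediateField.adjoin E (Set.range x')) : K) =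
        MvPolynomial.aeval x' r := by
    intro r
    have h1 := DFunLike.congr_fun
      (MvPolynomial.comp_aeval x'' (IntermediateField.adjoin E (Set.range x')).val) r
    have h2 : (fun i => (IntermediateField.adjoin E (Set.range x')).val (x'' i)) = x' :=
      funext hx''
    rw [h2] at h1
    exact h1
  have hker : ∀ r : MvPolynomial (Fin 2) E,
      MvPolynomial.aeval x'' r = 0 ↔ (f - MvPolynomial.C t * g) ∣ r := by
    intro r
    rw [← hGh, ← hev']
    exact (ZeroMemClass.coe_eq_zero).symm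
  have hN0 : Algebra.norm (IntermediateField.adjoin E (Set.range x')) ψ' ≠ 0 :=
    Algebra.norm_ne_zero_iff.2 hψ0
  obtain ⟨R₁, R₂, hR⟩ := (IntermediateField.mem_adjoin_range_iff E x' _).1
    (Algebra.norm (IntermediateField.adjoin E (Set.range x')) ψ').2
  have hR0 : MvPolynomial.aeval x' R₁ / MvPolynomial.aeval x' R₂ ≠ 0 := by
    rw [← hR]
    exact fun h0 => hN0 (Subtype.ext h0)
  have hR1 : MvPolynomial.aeval x' R₁ ≠ 0 := (div_ne_zero_iff.1 hR0).1
  have hR2 : MvPolynomial.aeval x' R₂ ≠ 0 := (div_ne_zero_iff.1 hR0).2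
  have hR1' : MvPolynomial.aeval x'' R₁ ≠ 0 := fun h0 => hR1 (by rw [← hev', h0]; rfl)
  have hR2' : MvPolynomial.aeval x'' R₂ ≠ 0 := fun h0 => hR2 (by rw [← hev', h0]; rfl)
  have hG1 : ¬ (f - MvPolynomial.C t * g) ∣ R₁ := fun h0 => hR1 ((hGh _).2 h0)
  have hG2 : ¬ (f - MvPolynomial.C t * g) ∣ R₂ := fun h0 => hR2 ((hGh _).2 h0)
  have hNR : Algebra.norm (IntermediateField.adjoin E (Set.range x')) ψ' *
      MvPolynomial.aeval x'' R₂ = MvPolynomial.aeval x'' R₁ := by
    apply Subtype.ext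
    show (_ : K) * _ = _
    rw [hR, hev', hev', div_mul_cancel₀ _ hR2]
  refine ⟨fun Q => ((oQ (f - MvPolynomial.C t * g) R₁ Q).toNat : ℤ) -
    (oQ (f - MvPolynomial.C t * g) R₂ Q).toNat, ⟨R₁, R₂, hG1, hG2, fun Q _ => rfl⟩, fun Q hQ => ?_⟩
  obtain ⟨VQ, o, hDv, -, hVE, hVQ, -, -, ho⟩ := oQ_dv (f - MvPolynomial.C t * g) g hG x'' hker hgen Q hQ
  have hoN : ((oQ (f - MvPolynomial.C t * g) R₁ Q).toNat : ℤ) -
      (oQ (f - MvPolynomial.C t * g) R₂ Q).toNat =
      o (Algebra.norm (IntermediateField.adjoin E (Set.range x')) ψ') := by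
    rw [(ho R₁ hG1).2, (ho R₂ hG2).2, ← hNR, hDv.mul _ _ hN0 hR2']
    ring
  obtain ⟨s', hs'⟩ : ∃ s' : K, s' = π ⟨algebraMap κ L s, hs⟩ := ⟨_, rfl⟩
  refine ⟨_, hc1 htr (x' i₀ - algebraMap E K (Q i₀)) (-2 * s')
    (sub_ne_zero.2 (hi₀ _)), fun c hcN hc0 B iB iT hB hXb p hp hat a b ha hb hab => ?_⟩
  obtain ⟨t1, t2, t3, t4, -⟩ := tt_ch hL V hV c
  obtain ⟨m1, m2, m3, m4, m5, -⟩ := ch_mem hL hB
  have hp0 : p ≠ ⊥ := by
    rintro rfl
    have h1 : (⟨vc s w c, m5⟩ : B) ∈ (⊥ : Ideal B) := (hat.non _).2 t3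
    exact t4 (congrArg Subtype.val (Ideal.mem_bot.1 h1))
  obtain ⟨j1, j2, j3, hd1, -, hd3, -⟩ := dk hB hXb p hp0 V hat K π hπ
  have hBV : ∀ y : B, (y : L) ∈ V := fun y =>
    (hat.loc y).2 ⟨y, 1, (Ideal.ne_top_iff_one p).1 hp.ne_top, mul_one _⟩
  have hxD : ∀ i, algebraMap (IntermediateField.adjoin E (Set.range x')) K (x'' i) =
      algebraMap (B ⧸ p) K (algebraMap (MvPolynomial (Fin 2) E) (B ⧸ p) (MvPolynomial.X i)) := by
    intro i
    have h1 : algebraMap (MvPolynomial (Fin 2) E) (B ⧸ p) (MvPolynomial.X i) =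
      Ideal.Quotient.mk p (algebraMap (MvPolynomial (Fin 2) E) B (MvPolynomial.X i)) := rfl
    rw [h1, hd1 _ (hBV _)]
    refine (hx'' i).trans ?_
    show π _ = π _
    congr 1
    exact Subtype.ext (hXb i).symm
  have hD : ∀ W : ValuationSubring K, Ov E W → W ≠ ⊤ →
      (∀ i, algebraMap (IntermediateField.adjoin E (Set.range x')) K (x'' i) -
        algebraMap E K (Q i) ∈ W.nonunits) → ∀ y : B ⧸ p, algebraMap (B ⧸ p) K y ∈ W := by
    intro W hW1 hW2 hW3 y
    obtain ⟨y, rfl⟩ := Ideal.Quotient.mk_surjective y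
    rw [hd1 y (hBV y)]
    have hW3' : ∀ i, x' i - algebraMap E K (Q i) ∈ W.nonunits := by
      intro i
      rw [← hx'' i]
      exact hW3 i
    obtain ⟨W', hW'⟩ := loc_t1_comp V π hπ W
    have hA : ∀ z ∈ Algebra.adjoin E (bs g s x w c), z ∈ W' := by
      intro z hz
      induction hz using Algebra.adjoin_induction with
      | algebraMap e => exact (hW' _).2 ⟨hE e, by rw [hπ.alg]; exact hW1 e⟩
      | add y z _ _ hy hz => exact add_mem hy hz
      | mul y z _ _ hy hz => exact mul_mem hy hz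
      | mem z hz =>
        rcases hz with rfl | rfl | rfl | rfl | rfl
        · exact (hW' _).2 ⟨hV.memx 0, loc_t1_mem W (hW1 (Q 0)) (hW3' 0)⟩
        · exact (hW' _).2 ⟨hV.memx 1, loc_t1_mem W (hW1 (Q 1)) (hW3' 1)⟩
        · refine (hW' _).2 ⟨hV.memg, loc_t1_inv V π W (hev g).1 hV.memg ?_⟩
          rw [(hev g).2]
          intro h1
          have h2 := loc_t1_nuadd W h1 (loc_t1_numul W (neg_mem (one_mem W))
            (loc_t1_congr W hW1 x' Q hW3' g))
          rw [show MvPolynomial.aeval x' g +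
            -1 * (MvPolynomial.aeval x' g - algebraMap E K (MvPolynomial.eval Q g)) =
            algebraMap E K (MvPolynomial.eval Q g) by ring] at h2
          exact loc_t1_const W hW1 hQ.2.1 h2
        · have hw : w - algebraMap κ L s - algebraMap E L c ∈ V := by
            have h1 : w - algebraMap κ L s - algebraMap E L c =
              (w + algebraMap κ L s) - (algebraMap κ L s + algebraMap κ L s) - algebraMap E L c := by
              ring
            rw [h1]
            exact sub_mem (sub_mem (ValuationSubring.nonunits_subset hV.zero)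
              (add_mem hs hs)) (hE c)
          have hw' : (w - algebraMap κ L s - algebraMap E L c)⁻¹ ∈ V :=
            t1 _ (Or.inr (Or.inr (Or.inr (Or.inl rfl))))
          refine (hW' _).2 ⟨hw', loc_t1_inv V π W hw hw' ?_⟩
          have h2 : (⟨w - algebraMap κ L s - algebraMap E L c, hw⟩ : V) =
              ⟨w + algebraMap κ L s, ValuationSubring.nonunits_subset hV.zero⟩ -
                (⟨algebraMap κ L s, hs⟩ + ⟨algebraMap κ L s, hs⟩) - ⟨algebraMap E L c, hE c⟩ :=
            Subtype.ext (by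
              show w - algebraMap κ L s - algebraMap E L c =
                (w + algebraMap κ L s) - (algebraMap κ L s + algebraMap κ L s) - algebraMap E L c
              ring)
          rw [h2, map_sub, map_sub, map_add, hπ.alg, ← hs', (hπ.ker _).2 hV.zero,
            show 0 - (s' + s') - algebraMap E K c = -2 * s' - algebraMap E K c by ring]
          exact fun h3 => hcN ⟨W, hW1, hW3' i₀, h3⟩
        · refine (hW' _).2 ⟨ValuationSubring.nonunits_subset hV.zero, ?_⟩
          rw [(hπ.ker _).2 hV.zero]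
          exact zero_mem W
    obtain ⟨_, h1⟩ := (hW' _).1
      (loc_t1_int W' (Algebra.adjoin E (bs g s x w c)) hA ((hB.mem y).1 y.2))
    exact h1
  have tf := tfin (D := B ⧸ p) hd3 (f - MvPolynomial.C t * g) g hG x'' hker hgen hxD Q hQ VQ o
    hDv hVE hVQ hD
  have ha' : Ideal.Quotient.mk p a ≠ 0 := fun h0 => ha (Ideal.Quotient.eq_zero_iff_mem.1 h0)
  have hb' : Ideal.Quotient.mk p b ≠ 0 := fun h0 => hb (Ideal.Quotient.eq_zero_iff_mem.1 h0)
  obtain ⟨-, ea⟩ := tf _ ha'
  obtain ⟨-, eb⟩ := tf _ hb'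
  have hπb : π ⟨b, hBV b⟩ ≠ 0 := by
    intro h0
    exact hb ((hat.non b).2 ((hπ.ker _).1 h0))
  have hπa : π ⟨a, hBV a⟩ = ψ' * π ⟨b, hBV b⟩ := by
    rw [hψ', ← map_mul]
    congr 1
    exact Subtype.ext hab.symm
  rw [loc_t1_iQ, loc_t1_iQ, ea, eb, hd1 a (hBV a), hd1 b (hBV b), hπa, map_mul,
    hDv.mul _ _ hN0 (Algebra.norm_ne_zero_iff.2 hπb)]
  show _ = ((oQ (f - MvPolynomial.C t * g) R₁ Q).toNat : ℤ) -
      (oQ (f - MvPolynomial.C t * g) R₂ Q).toNat
  rw [hoN]
  ring

end

end Pool.Agent.RDP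

end

section


namespace Pool.Agent.RDP

universe u v w

private theorem loc_t2_nonunits {K : Type u} [Field K] (W : ValuationSubring K) (y : K)
    (hy : y ∉ W) : y⁻¹ ∈ W.nonunits := by
  have hy0 : y ≠ 0 := fun h => hy (h ▸ W.zero_mem)
  rw [ValuationSubring.mem_nonunits_iff]
  have h1 : 1 < W.valuation y := by
    rw [← not_le, ValuationSubring.valuation_le_one_iff]
    exact hy
  rw [map_inv₀]
  exact inv_lt_one_of_one_lt₀ h1

private theorem loc_t2_mem {K : Type u} [Field K] (W : ValuationSubring K) (y : K)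
    (hy : y⁻¹ ∉ W.nonunits) : y ∈ W := by
  by_contra h
  exact hy (loc_t2_nonunits W y h)

/-- the embedding of the coefficient field in the residue field -/
private theorem loc_t2_rho {E κ L K : Type u} [Field E] [Field κ] [Field L] [Algebra E κ]
    [Algebra κ L] [Algebra E L] [IsScalarTower E κ L] [Field K] [Algebra E K]
    (V : ValuationSubring L) (hk : Ov κ V) (π : V →+* K) (hπ : Rp E V K π) :
    ∃ ρ : κ →ₐ[E] K, ∀ z : κ, ρ z = π ⟨algebraMap κ L z, hk z⟩ := by
  let r : κ →+* K := π.comp ((algebraMap κ L).codRestrict V.toSubring hk)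
  refine ⟨{ r with commutes' := ?_ }, fun z => rfl⟩
  intro z
  change π ⟨algebraMap κ L (algebraMap E κ z), hk _⟩ = _
  have h := hπ.alg z (by rw [IsScalarTower.algebraMap_apply E κ L]; exact hk _)
  rw [← h]
  congr 1
  exact Subtype.ext (IsScalarTower.algebraMap_apply E κ L z).symm

private theorem loc_t2_int {E L : Type u} [Field E] [Field L] [Algebra E L] (S : Set L)
    (B : Subalgebra E L) (hB : ∀ y : L, y ∈ B ↔ IsIntegral (Algebra.adjoin E S) y)
    (p : Ideal B) (y : B ⧸ p)
    (hS : ∀ z ∈ S, ∃ hz : z ∈ B, Ideal.Quotient.mk p ⟨z, hz⟩ ∈ Algebra.adjoin E {y}) (d : B ⧸ p) :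
    IsIntegral (Algebra.adjoin E {y}) d := by
  obtain ⟨b, rfl⟩ := Ideal.Quotient.mk_surjective d
  have hle : Algebra.adjoin E S ≤ B := Algebra.adjoin_le fun z hz => (hS z hz).1
  have hle2 : ∀ a : L, ∀ ha : a ∈ Algebra.adjoin E S,
      Ideal.Quotient.mk p ⟨a, hle ha⟩ ∈ Algebra.adjoin E {y} := by
    intro a ha
    induction ha using Algebra.adjoin_induction with
    | mem z hz => exact (hS z hz).2
    | algebraMap r =>
      have : Ideal.Quotient.mk p ⟨algebraMap E L r, hle (Subalgebra.algebraMap_mem _ r)⟩ =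
          algebraMap E (B ⧸ p) r := rfl
      rw [this]
      exact Subalgebra.algebraMap_mem _ _
    | add a b ha hb iha ihb =>
      have : Ideal.Quotient.mk p ⟨a + b, hle (add_mem ha hb)⟩ =
          Ideal.Quotient.mk p ⟨a, hle ha⟩ + Ideal.Quotient.mk p ⟨b, hle hb⟩ := by
        rw [← map_add]; rfl
      rw [this]
      exact add_mem iha ihb
    | mul a b ha hb iha ihb =>
      have : Ideal.Quotient.mk p ⟨a * b, hle (mul_mem ha hb)⟩ =
          Ideal.Quotient.mk p ⟨a, hle ha⟩ * Ideal.Quotient.mk p ⟨b, hle hb⟩ := by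
        rw [← map_mul]; rfl
      rw [this]
      exact mul_mem iha ihb
  let ι : Algebra.adjoin E S →+* B := (Subalgebra.inclusion hle).toRingHom
  let ψ : Algebra.adjoin E S →+* Algebra.adjoin E {y} :=
    ((Ideal.Quotient.mk p).comp ι).codRestrict (Algebra.adjoin E {y}).toSubring
      (fun a => hle2 a.1 a.2)
  obtain ⟨F, hF, hF0⟩ := (hB (b : L)).1 b.2
  refine ⟨F.map ψ, hF.map ψ, ?_⟩
  rw [Polynomial.eval₂_map]
  have h1 : (algebraMap (Algebra.adjoin E {y}) (B ⧸ p)).comp ψ = (Ideal.Quotient.mk p).comp ι := by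
    ext a; rfl
  rw [h1, ← Polynomial.hom_eval₂]
  have h2 : Polynomial.eval₂ ι b F = 0 := by
    apply Subtype.val_injective
    have h3 : B.val.toRingHom (Polynomial.eval₂ ι b F) =
        Polynomial.eval₂ (B.val.toRingHom.comp ι) (b : L) F := by
      rw [Polynomial.hom_eval₂]; rfl
    have h4 : B.val.toRingHom.comp ι = algebraMap (Algebra.adjoin E S) L := by
      ext a; rfl
    rw [h4, hF0] at h3
    exact h3
  rw [h2, map_zero]

/-- the elements of `B` are in `V` -/
private theorem loc_t2_le {E L : Type u} [Field E] [Field L] [Algebra E L]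
    {B : Subalgebra E L} {p : Ideal B} {V : ValuationSubring L} (hAt : At B p V) (b : B)
    (hp : p ≠ ⊤) : (b : L) ∈ V :=
  (hAt.loc b).2 ⟨b, 1, fun h => hp ((Ideal.eq_top_iff_one p).2 h), by simp⟩

private theorem loc_t2_dq {R B : Type u} [CommRing R] [CommRing B] [Algebra R B] (m : Ideal R)
    [m.IsPrime] (p : Ideal B) (a : B) :
    len m (B ⧸ (p ⊔ Ideal.span {a})) =
      len m ((B ⧸ p) ⧸ Ideal.span {Ideal.Quotient.mk p a}) := by
  have h : (Ideal.span {a}).map (Ideal.Quotient.mkₐ R p) =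
      Ideal.span {Ideal.Quotient.mk p a} := by
    rw [Ideal.map_span, Set.image_singleton]; rfl
  exact len_equiv m (((DoubleQuot.quotQuotEquivQuotSupₐ R p (Ideal.span {a})).symm.trans
    (Ideal.quotientEquivAlgOfEq R h)).toLinearEquiv)

private theorem loc_t2_g {E L K : Type u} [Field E] [Field L] [Algebra E L] [Field K]
    [Algebra E K] (V : ValuationSubring L) (hE : Ov E V) (π : V →+* K) (hπ : Rp E V K π)
    (x : Fin 2 → L) (e : Fin 2 → E) (he : ∀ i, x i - algebraMap E L (e i) ∈ V.nonunits)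
    (g : MvPolynomial (Fin 2) E) (hg : (MvPolynomial.aeval x g)⁻¹ ∈ V)
    (hg0 : MvPolynomial.aeval x g ≠ 0) :
    (MvPolynomial.aeval x g)⁻¹ - algebraMap E L (MvPolynomial.eval e g)⁻¹ ∈ V.nonunits := by
  have hx : ∀ i, x i ∈ V := by
    intro i
    have := add_mem (V.nonunits_le (he i)) (hE (e i))
    rwa [sub_add_cancel] at this
  let j : E →+* V := (algebraMap E L).codRestrict V.toSubring hE
  let ev : MvPolynomial (Fin 2) E →+* V := MvPolynomial.eval₂Hom j (fun i => ⟨x i, hx i⟩)
  have h1 : V.subtype.comp ev = (MvPolynomial.aeval x : MvPolynomial (Fin 2) E →ₐ[E] L).toRingHom := by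
    apply MvPolynomial.ringHom_ext
    · intro r
      simp only [ev, RingHom.comp_apply, MvPolynomial.coe_eval₂Hom, MvPolynomial.eval₂_C,
        AlgHom.toRingHom_eq_coe, RingHom.coe_coe, MvPolynomial.aeval_C]
      rfl
    · intro i
      simp only [ev, RingHom.comp_apply, MvPolynomial.coe_eval₂Hom, MvPolynomial.eval₂_X,
        AlgHom.toRingHom_eq_coe, RingHom.coe_coe, MvPolynomial.aeval_X]
      rfl
  have h2 : π.comp ev = (algebraMap E K).comp (MvPolynomial.eval e) := by
    apply MvPolynomial.ringHom_ext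
    · intro r
      simp only [ev, RingHom.comp_apply, MvPolynomial.coe_eval₂Hom, MvPolynomial.eval₂_C,
        MvPolynomial.eval_C]
      exact hπ.alg r (hE r)
    · intro i
      simp only [ev, RingHom.comp_apply, MvPolynomial.coe_eval₂Hom, MvPolynomial.eval₂_X,
        MvPolynomial.eval_X]
      rw [← hπ.alg (e i) (hE (e i)), ← sub_eq_zero, ← map_sub, hπ.ker]
      exact he i
  have h3 : ((ev g : V) : L) = MvPolynomial.aeval x g := RingHom.congr_fun h1 g
  have h4 : π (ev g) = algebraMap E K (MvPolynomial.eval e g) := RingHom.congr_fun h2 g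
  have h5 : π (ev g) * π ⟨(MvPolynomial.aeval x g)⁻¹, hg⟩ = 1 := by
    rw [← map_mul, ← map_one π]
    congr 1
    apply Subtype.ext
    change ((ev g : V) : L) * (MvPolynomial.aeval x g)⁻¹ = 1
    rw [h3]
    exact mul_inv_cancel₀ hg0
  have h6 : (⟨(MvPolynomial.aeval x g)⁻¹, hg⟩ - ⟨algebraMap E L (MvPolynomial.eval e g)⁻¹, hE _⟩ :
      V) = ⟨(MvPolynomial.aeval x g)⁻¹ - algebraMap E L (MvPolynomial.eval e g)⁻¹,
        sub_mem hg (hE _)⟩ := rfl
  have h7 := hπ.ker ⟨(MvPolynomial.aeval x g)⁻¹ - algebraMap E L (MvPolynomial.eval e g)⁻¹,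
        sub_mem hg (hE _)⟩
  refine h7.1 ?_
  rw [← h6, map_sub, hπ.alg _ (hE _), map_inv₀, ← h4, sub_eq_zero]
  exact eq_inv_of_mul_eq_one_right h5

section

variable {E κ L : Type u} [Field E] [IsAlgClosed E] [Field κ] [Field L] [Algebra E κ] [Algebra κ L]
  [Algebra E L] [IsScalarTower E κ L] {f g : MvPolynomial (Fin 2) E} {t : E} {P : Fin 2 → E} {s : κ}
  {τ : L} {x : Fin 2 → L} {w : L} {q : Fin 2 → κ} {qw : κ} {𝒜 : Set (Fin 2 → E)} {c : E}
  {B : Subalgebra E L}

/-- the contribution in the chart `c`, if `c` is not exceptional -/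
private theorem loc_t2_aux (hL : LD f g t P s τ x w q qw 𝒜) (V : ValuationSubring L)
    (hV : TT g s x w V) (e : Fin 2 → E) (he : ∀ i, x i - algebraMap E L (e i) ∈ V.nonunits)
    (Q : Fin 2 → E) {K : Type u} [Field K] [Algebra E K] (π : V →+* K) (hπ : Rp E V K π)
    (hψ : (τ - 1) / τ ∈ V) (c : E) (hs : algebraMap κ L s ∈ V)
    (hN : ∀ W : ValuationSubring K, Ov E W →
      -2 * π ⟨algebraMap κ L s, hs⟩ - algebraMap E K c ∈ W.nonunits →
      π ⟨(τ - 1) / τ, hψ⟩ ∈ W ∧ (π ⟨(τ - 1) / τ, hψ⟩)⁻¹ ∈ W)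
    (B : Subalgebra E L) [Algebra (MvPolynomial (Fin 2) E) B]
    [IsScalarTower E (MvPolynomial (Fin 2) E) B] (hB : Ch g s x w c B) (hx : Xb x B)
    (p : Ideal B) (hp : p.IsPrime) (hAt : At B p V) (a b : B) (ha : a ∉ p) (hb : b ∉ p)
    (hab : (τ - 1) / τ * (b : L) = a) : iQ Q B p a - iQ Q B p b = 0 := by
  classical
  obtain ⟨hm1, hm2, hm3, hm4, hm5, -⟩ := ch_mem hL hB
  obtain ⟨-, -, hvc, hvc0, -⟩ := tt_ch hL V hV c
  have hpb : p ≠ ⊥ := by
    intro h
    have h1 : (⟨vc s w c, hm5⟩ : B) ∈ p := (hAt.non _).2 hvc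
    rw [h, Ideal.mem_bot] at h1
    exact hvc0 (congrArg Subtype.val h1)
  obtain ⟨i1, i2, i3, hmap, hTd, hft, -⟩ := dk hB hx p hpb V hAt K π hπ
  let := i1
  have := i2
  have := i3
  have hXe : ∀ i, algebraMap (MvPolynomial (Fin 2) E) B (MvPolynomial.X i) -
      algebraMap E B (e i) ∈ p := by
    intro i
    rw [hAt.non]
    have : ((algebraMap (MvPolynomial (Fin 2) E) B (MvPolynomial.X i) -
      algebraMap E B (e i) : B) : L) = x i - algebraMap E L (e i) := by
      rw [← hx i]; rfl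
    rw [this]
    exact he i
  unfold iQ
  by_cases hQ : Q = e
  · subst hQ
    have hcinv : (⟨(w - algebraMap κ L s - algebraMap E L c)⁻¹, hm3⟩ : B).1 ∈ V := loc_t2_le hAt _ hp.ne_top
    obtain ⟨ρ, hρ⟩ := loc_t2_rho V hV.kap π hπ
    -- the class of the generator `(w - s - c)⁻¹`
    set y : B ⧸ p := Ideal.Quotient.mk p ⟨(w - algebraMap κ L s - algebraMap E L c)⁻¹, hm3⟩ with hy
    have hE : Ov E V := fun r => by rw [IsScalarTower.algebraMap_apply E κ L]; exact hV.kap _
    have hwV : w ∈ V := by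
      have h1 := V.nonunits_le hV.zero
      have := sub_mem h1 hs
      rwa [add_sub_cancel_right] at this
    have hyK : algebraMap (B ⧸ p) K y = (-2 * π ⟨algebraMap κ L s, hs⟩ - algebraMap E K c)⁻¹ := by
      have hu0 : w - algebraMap κ L s - algebraMap E L c ≠ 0 := by
        intro h
        apply hvc0
        rw [vc, h, mul_zero]
      rw [hy, hmap _ hcinv]
      apply eq_inv_of_mul_eq_one_left
      have h2 : π ⟨w - algebraMap κ L s - algebraMap E L c, sub_mem (sub_mem hwV hs) (hE c)⟩ =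
          -2 * π ⟨algebraMap κ L s, hs⟩ - algebraMap E K c := by
        have h3 : π ⟨w + algebraMap κ L s, add_mem hwV hs⟩ = 0 := (hπ.ker _).2 hV.zero
        have h4 : (⟨w - algebraMap κ L s - algebraMap E L c, sub_mem (sub_mem hwV hs) (hE c)⟩ : V) =
            ⟨w + algebraMap κ L s, add_mem hwV hs⟩ - 2 * ⟨algebraMap κ L s, hs⟩ -
              ⟨algebraMap E L c, hE c⟩ := by
          apply Subtype.ext
          change w - algebraMap κ L s - algebraMap E L c =
            w + algebraMap κ L s - 2 * algebraMap κ L s - algebraMap E L c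
          ring
        rw [h4, map_sub, map_sub, map_mul, h3, hπ.alg c (hE c), map_ofNat]
        ring
      rw [← h2, ← map_mul, ← map_one π]
      congr 1
      apply Subtype.ext
      exact inv_mul_cancel₀ hu0
    have hyt : Transcendental E y := by
      intro h
      have h1 : IsAlgebraic E (algebraMap (B ⧸ p) K y) := h.algebraMap
      rw [hyK] at h1
      have h2 := h1.inv
      rw [inv_inv] at h2
      have h3 : IsAlgebraic E (-2 * π ⟨algebraMap κ L s, hs⟩) := by
        have := h2.add (isAlgebraic_algebraMap (R := E) (A := K) c)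
        rwa [sub_add_cancel] at this
      have h20 : (2 : K) ≠ 0 := by
        have := (map_ne_zero (algebraMap E K)).2 hL.two
        rwa [map_ofNat] at this
      have h4 : IsAlgebraic E (π ⟨algebraMap κ L s, hs⟩) := by
        have h5 : IsAlgebraic E (algebraMap E K (-(2 : E))⁻¹ *
            (-2 * π ⟨algebraMap κ L s, hs⟩)) :=
          (isAlgebraic_algebraMap (R := E) (A := K) _).mul h3
        have h6 : algebraMap E K (-(2 : E))⁻¹ * (-2 * π ⟨algebraMap κ L s, hs⟩) =
            π ⟨algebraMap κ L s, hs⟩ := by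
          rw [map_inv₀, map_neg, map_ofNat, ← mul_assoc, inv_mul_cancel₀ (neg_ne_zero.2 h20),
            one_mul]
        rwa [h6] at h5
      have h7 : ρ s = π ⟨algebraMap κ L s, hs⟩ := hρ s
      rw [← h7] at h4
      exact hL.st ((isAlgebraic_algHom_iff ρ ρ.toRingHom.injective).1 h4)
    have hyi : ∀ d : B ⧸ p, IsIntegral (Algebra.adjoin E {y}) d := by
      apply loc_t2_int (bs g s x w c) B hB.mem p y
      intro z hz
      have hc : ∀ (z : L) (hz : z ∈ B) (r : E), z - algebraMap E L r ∈ V.nonunits →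
          Ideal.Quotient.mk p ⟨z, hz⟩ ∈ Algebra.adjoin E {y} := by
        intro z hz r hr
        have h1 : Ideal.Quotient.mk p ⟨z, hz⟩ = algebraMap E (B ⧸ p) r := by
          change _ = Ideal.Quotient.mk p (algebraMap E B r)
          rw [Ideal.Quotient.eq, hAt.non]
          exact hr
        rw [h1]
        exact Subalgebra.algebraMap_mem _ _
      simp only [bs, Set.mem_insert_iff, Set.mem_singleton_iff] at hz
      rcases hz with rfl | rfl | rfl | rfl | rfl
      · exact ⟨hm1 0, hc _ _ (Q 0) (he 0)⟩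
      · exact ⟨hm1 1, hc _ _ (Q 1) (he 1)⟩
      · exact ⟨hm2, hc _ _ _ (loc_t2_g V hE π hπ x Q he g hV.memg hL.gx)⟩
      · exact ⟨hm3, Algebra.self_mem_adjoin_singleton E y⟩
      · refine ⟨hm4, hc _ _ 0 ?_⟩
        rw [map_zero, sub_zero]
        exact hV.zero
    have ha0 : Ideal.Quotient.mk p a ≠ 0 := fun h => ha (Ideal.Quotient.eq_zero_iff_mem.1 h)
    have hb0 : Ideal.Quotient.mk p b ≠ 0 := fun h => hb (Ideal.Quotient.eq_zero_iff_mem.1 h)
    have hratio : algebraMap (B ⧸ p) K (Ideal.Quotient.mk p a) =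
        π ⟨(τ - 1) / τ, hψ⟩ * algebraMap (B ⧸ p) K (Ideal.Quotient.mk p b) := by
      rw [hmap a (loc_t2_le hAt a hp.ne_top), hmap b (loc_t2_le hAt b hp.ne_top), ← map_mul]
      congr 1
      apply Subtype.ext
      exact hab.symm
    have hinj : Function.Injective (algebraMap (B ⧸ p) K) := IsFractionRing.injective _ _
    have hbK : algebraMap (B ⧸ p) K (Ideal.Quotient.mk p b) ≠ 0 := fun h =>
      hb0 (hinj (by rw [h, map_zero]))
    have : IsDomain (B ⧸ p) := Ideal.Quotient.isDomain p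
    have key := tcon (E := E) (K := K) (D := B ⧸ p) hft Q
      (by
        intro i
        change Ideal.Quotient.mk p (algebraMap (MvPolynomial (Fin 2) E) B (MvPolynomial.X i)) =
          Ideal.Quotient.mk p (algebraMap E B (Q i))
        rw [Ideal.Quotient.eq]
        exact hXe i) y hyi hyt (Ideal.Quotient.mk p a) (Ideal.Quotient.mk p b) ha0 hb0
      (by
        intro W hW hyW
        rw [hyK] at hyW
        have h1 := loc_t2_nonunits W _ hyW
        rw [inv_inv] at h1
        obtain ⟨h2, h3⟩ := hN W hW h1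
        rw [hratio]
        constructor
        · rwa [mul_div_cancel_right₀ _ hbK]
        · rw [div_mul_cancel_right₀ hbK]
          exact h3)
    rw [loc_t2_dq, loc_t2_dq, key.2, sub_self]
  · have hz : ∀ a : B, len (mQ Q) (B ⧸ (p ⊔ Ideal.span {a})) = 0 := by
      intro a
      refine (dimE e (B ⧸ (p ⊔ Ideal.span {a})) ?_).2 Q hQ
      intro i m
      obtain ⟨d, rfl⟩ := Ideal.Quotient.mk_surjective m
      rw [Algebra.smul_def, Algebra.smul_def]
      change Ideal.Quotient.mk _ (algebraMap (MvPolynomial (Fin 2) E) B (MvPolynomial.X i)) * _ =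
          Ideal.Quotient.mk _ (algebraMap E B (e i)) * _
      rw [← sub_eq_zero, ← sub_mul, ← map_sub]
      rw [Ideal.Quotient.eq_zero_iff_mem.2 (Ideal.mem_sup_left (hXe i)), zero_mul]
    rw [hz, hz, sub_self]

theorem loc_t2 (hL : LD f g t P s τ x w q qw 𝒜) (V : ValuationSubring L) (hV : TT g s x w V)
    (hco : ∀ i, ∃ e : E, x i - algebraMap E L e ∈ V.nonunits) :
    ∀ Q : Fin 2 → E, ∃ N : Set E, N.Finite ∧ ∀ c : E, c ∉ N → c ≠ 0 →
        ∀ (B : Subalgebra E L) [Algebra (MvPolynomial (Fin 2) E) B]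
        [IsScalarTower E (MvPolynomial (Fin 2) E) B], Ch g s x w c B → Xb x B →
        ∀ (p : Ideal B) (_ : p.IsPrime), At B p V → ∀ a b : B, a ∉ p → b ∉ p →
          (τ - 1) / τ * (b : L) = a → iQ Q B p a - iQ Q B p b = 0 := by
  classical
  intro Q
  choose e he using hco
  have hE : Ov E V := fun r => by rw [IsScalarTower.algebraMap_apply E κ L]; exact hV.kap _
  obtain ⟨K, iK, iA, π, hπ⟩ := rp_ex V hE
  obtain ⟨hψ, hψ'⟩ := tt_psi hL V hV
  have hs : algebraMap κ L s ∈ V := hV.kap s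
  have hτ : ∀ z : κ, τ ≠ algebraMap κ L z := by
    intro z h
    exact hL.tau (h ▸ isAlgebraic_algebraMap z)
  have hψ0 : (τ - 1) / τ ≠ 0 := by
    apply div_ne_zero
    · intro h
      exact hτ 1 (by rw [map_one]; exact sub_eq_zero.1 h)
    · intro h
      exact hτ 0 (by rw [map_zero]; exact h)
  have hπψ : π ⟨(τ - 1) / τ, hψ⟩ ≠ 0 := by
    intro h
    have h1 : π ⟨(τ - 1) / τ, hψ⟩ * π ⟨((τ - 1) / τ)⁻¹, hψ'⟩ = 1 := by
      rw [← map_mul, ← map_one π]
      congr 1
      apply Subtype.ext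
      exact mul_inv_cancel₀ hψ0
    rw [h, zero_mul] at h1
    exact zero_ne_one h1
  by_cases hT : Td1 E K
  · have hf1 := hc1 hT (π ⟨(τ - 1) / τ, hψ⟩) (-2 * π ⟨algebraMap κ L s, hs⟩) hπψ
    have hf2 := hc1 hT (π ⟨(τ - 1) / τ, hψ⟩)⁻¹ (-2 * π ⟨algebraMap κ L s, hs⟩) (inv_ne_zero hπψ)
    refine ⟨_, hf1.union hf2, ?_⟩
    intro c hc _ B _ _ hB hx p hp hAt a b ha hb hab
    refine loc_t2_aux hL V hV e he Q π hπ hψ c hs ?_ B hB hx p hp hAt a b ha hb hab
    intro W hW hW2
    rw [Set.mem_union, not_or] at hc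
    constructor
    · apply loc_t2_mem
      intro h
      exact hc.2 ⟨W, hW, h, hW2⟩
    · apply loc_t2_mem
      rw [inv_inv]
      intro h
      exact hc.1 ⟨W, hW, h, hW2⟩
  · refine ⟨∅, Set.finite_empty, ?_⟩
    intro c _ _ B _ _ hB hx p hp hAt a b ha hb hab
    exfalso
    obtain ⟨-, -, -, -, hm5, -⟩ := ch_mem hL hB
    obtain ⟨-, -, hvc, hvc0, -⟩ := tt_ch hL V hV c
    have hpb : p ≠ ⊥ := by
      intro h
      have h1 : (⟨vc s w c, hm5⟩ : B) ∈ p := (hAt.non _).2 hvc
      rw [h, Ideal.mem_bot] at h1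
      exact hvc0 (congrArg Subtype.val h1)
    obtain ⟨-, -, -, -, hTd, -⟩ := dk hB hx p hpb V hAt K π hπ
    exact hT hTd

end

end Pool.Agent.RDP

end

section


namespace Pool.Agent.RDP

universe u v w

section

theorem sum_tr {E L : Type u} [Field E] [Field L] [Algebra E L] {B : Subalgebra E L}
    (S : Finset (PrimeSpectrum B)) (hS : ∀ p ∈ S, ∃ V, At B p.asIdeal V)
    (𝒱 : Finset (ValuationSubring L)) (F : ValuationSubring L → ℤ) (F' : PrimeSpectrum B → ℤ)
    (h1 : ∀ p ∈ S, ∀ V, At B p.asIdeal V → V ∈ 𝒱 → F' p = F V)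
    (h2 : ∀ p ∈ S, ∀ V, At B p.asIdeal V → V ∉ 𝒱 → F' p = 0)
    (h3 : ∀ V ∈ 𝒱, F V ≠ 0 → ∃ p ∈ S, At B p.asIdeal V) :
    ∑ p ∈ S, F' p = ∑ V ∈ 𝒱, F V := by
  classical
  have uV : ∀ {p : Ideal B} {V V' : ValuationSubring L}, At B p V → At B p V' → V = V' := by
    intro p V V' h h'
    ext y
    rw [h.loc, h'.loc]
  have uP : ∀ {p p' : Ideal B} {V : ValuationSubring L}, At B p V → At B p' V → p = p' := by
    intro p p' V h h'
    ext b
    rw [h.non, h'.non]
  choose! W hW using hS
  have e1 : ∑ p ∈ S, F' p = ∑ p ∈ S.filter (fun p => W p ∈ 𝒱), F (W p) := by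
    rw [Finset.sum_filter]
    refine Finset.sum_congr rfl fun p hp => ?_
    split_ifs with h
    · exact h1 p hp _ (hW p hp) h
    · exact h2 p hp _ (hW p hp) h
  have inj : Set.InjOn W (S.filter (fun p => W p ∈ 𝒱) : Finset (PrimeSpectrum B)) := by
    intro p hp p' hp' h
    have hp1 := (Finset.mem_filter.1 hp).1
    have hp2 := (Finset.mem_filter.1 hp').1
    have a1 := hW p hp1
    have a2 := hW p' hp2
    rw [← h] at a2
    exact PrimeSpectrum.ext (uP a1 a2)
  rw [e1, ← Finset.sum_image inj]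
  refine Finset.sum_subset ?_ ?_
  · intro V hV
    obtain ⟨p, hp, rfl⟩ := Finset.mem_image.1 hV
    exact (Finset.mem_filter.1 hp).2
  · intro V hV hV'
    by_contra hF
    obtain ⟨p, hp, hA⟩ := h3 V hV hF
    have e2 : W p = V := uV (hW p hp) hA
    exact hV' (Finset.mem_image.2 ⟨p, Finset.mem_filter.2 ⟨hp, by rw [e2]; exact hV⟩, e2⟩)

end

end Pool.Agent.RDP

end
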