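import Pool.Agent.RDM.Lc
import Pool.Agent.RDM.Ld
import Pool.Agent.RDM.Len
import Pool.Agent.RDM.A3
import Pool.Agent.RDM.A1
import Pool.Agent.RDM.A2
import Pool.Agent.RDM.Dv
import Pool.Agent.RDM.A4

/-!
# The relation before specialization
-/

set_option autoImplicit false

section


namespace Pool.Agent.RDP

universe u v w

section

variable {E κ L : Type u} [Field E] [IsAlgClosed E] [Field κ] [Field L] [Algebra E κ] [Algebra κ L]
  [Algebra E L] [IsScalarTower E κ L] {f g : MvPolynomial (Fin 2) E} {t : E} {P : Fin 2 → E} {s : κ}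
  {τ : L} {x : Fin 2 → L} {w : L} {q : Fin 2 → κ} {qw : κ} {𝒜 : Set (Fin 2 → E)} {c : E}
  {B : Subalgebra E L}
theorem ch_rel (hL : LD f g t P s τ x w q qw 𝒜) (hc : c ≠ 0)
    (hnd : ND (f - MvPolynomial.C t * g)) (hB : Ch g s x w c B)
    [Algebra (MvPolynomial (Fin 2) E) B] [IsScalarTower E (MvPolynomial (Fin 2) E) B]
    (hx : Xb x B) (Q : Fin 2 → E) (v : B) (hv : (v : L) = vc s w c) :
    ∃ (S T : Finset (PrimeSpectrum B)) (a b : B), a ≠ 0 ∧ b ≠ 0 ∧ (τ - 1) / τ * (b : L) = a ∧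
      Cur (a * b) S ∧ Cur v T ∧ (∀ p ∈ T, a ∉ p.asIdeal ∧ b ∉ p.asIdeal) ∧
      (∀ p ∈ S, v ∉ p.asIdeal) ∧
      ∑ p ∈ S, (((len p.asIdeal (B ⧸ Ideal.span {a})).toNat : ℤ) -
          (len p.asIdeal (B ⧸ Ideal.span {b})).toNat) * iQ Q B p.asIdeal v =
        ∑ p ∈ T, ((len p.asIdeal (B ⧸ Ideal.span {v})).toNat : ℤ) *
          (iQ Q B p.asIdeal a - iQ Q B p.asIdeal b) := by
  classical
  obtain ⟨hws, hwc, -⟩ := ld_alg hL hc
  have hv0 : v ≠ 0 := by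
    rintro rfl
    have h0 : vc s w c = 0 := by rw [← hv]; rfl
    exact mul_ne_zero hws hwc h0
  obtain ⟨T, hT⟩ := cur_ex hB.srf v hv0
  have hτ0 : τ ≠ 0 := by
    intro h
    have h1 := hL.tau
    rw [h] at h1
    exact h1 isAlgebraic_zero
  have hτ1 : τ - 1 ≠ 0 := by
    intro h
    have h1 := hL.tau
    rw [sub_eq_zero.1 h] at h1
    exact h1 isAlgebraic_one
  have hψ : (τ - 1) / τ ≠ 0 := div_ne_zero hτ1 hτ0
  have hTV : ∀ q ∈ T, ∃ V : ValuationSubring L, At B q.asIdeal V ∧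
      (τ - 1) / τ ∈ V ∧ ((τ - 1) / τ)⁻¹ ∈ V := by
    intro q hq
    have hp : q.asIdeal.IsPrime := q.2
    obtain ⟨hvq, hqm⟩ := hT.mem q hq
    have hne : q.asIdeal ≠ ⊥ := by
      intro h
      rw [h] at hvq
      exact hv0 (Ideal.mem_bot.1 hvq)
    obtain ⟨V, o, hD, hVt, hE, hAt, hbs, hnc, -⟩ := ch_pr hB q.asIdeal hne hqm
    have hvV : vc s w c ∈ V.nonunits := by
      rw [← hv]
      exact (hAt.non v).1 hvq
    exact ⟨V, hAt, tt_psi hL V (cls_t hL hc hnd V hE hVt hbs hnc hvV)⟩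
  obtain ⟨a, b, ha, hb, hab, hT'⟩ := avoid B hB.fr ((τ - 1) / τ) hψ T hTV
  obtain ⟨S, hS⟩ := cur_ex hB.srf (a * b) (mul_ne_zero ha hb)
  have hd : ∀ p ∈ S, v ∉ p.asIdeal := by
    intro p hp hvp
    obtain ⟨habp, hpm⟩ := hS.mem p hp
    rcases hT.all p hvp with h | h
    · exact hpm h
    · rcases p.2.mem_or_mem habp with h' | h'
      · exact (hT' p h).1 h'
      · exact (hT' p h).2 h'
  exact ⟨S, T, a, b, ha, hb, hab, hS, hT, hT', hd,
    comm_psi hB.srf Q a b v ha hb hv0 S T hS hT hd⟩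

end

end Pool.Agent.RDP

end

section


namespace Pool.Agent.RDP

universe u v w

section

variable {E κ L : Type u} [Field E] [IsAlgClosed E] [Field κ] [Field L] [Algebra E κ] [Algebra κ L]
  [Algebra E L] [IsScalarTower E κ L] {f g : MvPolynomial (Fin 2) E} {t : E} {P : Fin 2 → E} {s : κ}
  {τ : L} {x : Fin 2 → L} {w : L} {q : Fin 2 → κ} {qw : κ} {𝒜 : Set (Fin 2 → E)} {c : E}
  {B : Subalgebra E L}
theorem rel0 (hL : LD f g t P s τ x w q qw 𝒜) (hG : Irreducible (f - MvPolynomial.C t * g))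
    (hnd : ND (f - MvPolynomial.C t * g)) :
    ∃ (n m : ℕ) (e : Fin m → ℤ) (J : Fin m → Ideal (MvPolynomial (Fin 3) E)) (σ : Fin m → E)
      (D : (Fin 2 → E) → ℤ), 0 < n ∧ (∀ i, Sc f g (t - σ i ^ 2) (σ i) (J i)) ∧
      Pri (f - MvPolynomial.C t * g) g D ∧ ∀ Q, Gp (f - MvPolynomial.C t * g) g Q → Q ∉ 𝒜 →
        ((Q = P → D Q = n + ∑ i, e i * (cy (J i) (σ i) Q).toNat) ∧
          (Q ≠ P → D Q = ∑ i, e i * (cy (J i) (σ i) Q).toNat)) := by
  classical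
  have hτ0 : τ ≠ 0 := by
    intro h
    have h1 := hL.tau
    rw [h] at h1
    exact h1 isAlgebraic_zero
  have hτ1 : τ - 1 ≠ 0 := by
    intro h
    have h1 := hL.tau
    rw [sub_eq_zero.1 h] at h1
    exact h1 isAlgebraic_one
  have hψ : (τ - 1) / τ ≠ 0 := div_ne_zero hτ1 hτ0
  -- valuations
  obtain ⟨oV, hoV⟩ : ∃ oV : ValuationSubring L → L → ℤ,
      ∀ V : ValuationSubring L, (∃ o, Dv V o) → Dv V (oV V) := by
    have h0 : ∀ V : ValuationSubring L, ∃ o' : L → ℤ, (∃ o, Dv V o) → Dv V o' := by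
      intro V
      by_cases h : ∃ o, Dv V o
      · exact ⟨h.choose, fun _ => h.choose_spec⟩
      · exact ⟨0, fun h' => (h h').elim⟩
    choose oV h using h0
    exact ⟨oV, h⟩
  have nu : ∀ (V : ValuationSubring L) (y : L), y ≠ 0 → (y ∈ V.nonunits ↔ y⁻¹ ∉ V) := by
    intro V y hy
    have hy' : 0 < V.valuation y := zero_lt_iff.2 ((Valuation.ne_zero_iff _).2 hy)
    rw [ValuationSubring.mem_nonunits_iff, ← ValuationSubring.valuation_le_one_iff, map_inv₀,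
      inv_le_one₀ hy', not_le]
  have nm : ∀ (V : ValuationSubring L) (y z : L), y ∈ V.nonunits → z ∈ V →
      y * z ∈ V.nonunits := by
    intro V y z hy hz
    rw [ValuationSubring.mem_nonunits_iff] at hy ⊢
    rw [← ValuationSubring.valuation_le_one_iff] at hz
    rw [map_mul]
    calc V.valuation y * V.valuation z ≤ V.valuation y * 1 := mul_le_mul_right hz _
      _ = V.valuation y := mul_one _
      _ < 1 := hy
  have dv1 : ∀ (V : ValuationSubring L) (o : L → ℤ), Dv V o → o 1 = 0 := by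
    intro V o h
    have h1 := h.mul 1 1 one_ne_zero one_ne_zero
    rw [mul_one] at h1
    omega
  have dvi : ∀ (V : ValuationSubring L) (o : L → ℤ), Dv V o → ∀ y : L, y ≠ 0 →
      o y⁻¹ = - o y := by
    intro V o h y hy
    have h1 := h.mul y y⁻¹ hy (inv_ne_zero hy)
    rw [mul_inv_cancel₀ hy, dv1 V o h] at h1
    omega
  have dvn : ∀ (V : ValuationSubring L) (o : L → ℤ), Dv V o → ∀ y : L, y ≠ 0 →
      (y ∈ V.nonunits ↔ 0 < o y) := by
    intro V o h y hy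
    rw [nu V y hy, h.mem y⁻¹ (inv_ne_zero hy), dvi V o h y hy]
    omega
  -- the finite sets
  have hTf := tt_fin hL
  obtain ⟨hAf, hBf⟩ := d_fin hL
  obtain ⟨V₁, o₁, hD₁, hκ₁, hE₁, ht₁, hz₁, hψ₁, hu₁, -, hc₁⟩ := v1 hL
  obtain ⟨V₀, o₀, hD₀, hκ₀, hE₀, ht₀, hz₀, hψ₀, hu₀, -⟩ := v0 hL
  have hDV₁ : Dv V₁ (oV V₁) := hoV V₁ ⟨o₁, hD₁⟩
  have hDV₀ : Dv V₀ (oV V₀) := hoV V₀ ⟨o₀, hD₀⟩
  have hoψ₁ : oV V₁ ((τ - 1) / τ) = 1 := by
    rw [← hψ₁]
    exact dv_uniq V₁ (oV V₁) o₁ hDV₁ hD₁ _ hψ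
  have hoψ₀ : oV V₀ ((τ - 1) / τ) = -1 := by
    rw [← hψ₀]
    exact dv_uniq V₀ (oV V₀) o₀ hDV₀ hD₀ _ hψ
  obtain ⟨𝒯, h𝒯⟩ : ∃ 𝒯 : Finset (ValuationSubring L), ∀ V, V ∈ 𝒯 ↔ TT g s x w V :=
    ⟨hTf.toFinset, fun V => by rw [hTf.mem_toFinset]; rfl⟩
  obtain ⟨𝒟a, h𝒟a⟩ : ∃ 𝒟a : Finset (ValuationSubring L), ∀ V, V ∈ 𝒟a ↔
      ∃ s', DA g s x w ((τ - 1) / τ) V s' :=
    ⟨hAf.toFinset, fun V => by rw [hAf.mem_toFinset]; rfl⟩
  obtain ⟨𝒟b, h𝒟b⟩ : ∃ 𝒟b : Finset (ValuationSubring L), ∀ V, V ∈ 𝒟b ↔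
      DB g s x w ((τ - 1) / τ) V :=
    ⟨hBf.toFinset, fun V => by rw [hBf.mem_toFinset]; rfl⟩
  -- the data
  have hT : ∀ V : ValuationSubring L, V ∈ 𝒯 → ∃ D : (Fin 2 → E) → ℤ,
      Pri (f - MvPolynomial.C t * g) g D ∧
      ∀ Q, Gp (f - MvPolynomial.C t * g) g Q → ∃ N : Set E, N.Finite ∧ ∀ c : E, c ∉ N → c ≠ 0 →
        ∀ (B : Subalgebra E L) [Algebra (MvPolynomial (Fin 2) E) B]
        [IsScalarTower E (MvPolynomial (Fin 2) E) B], Ch g s x w c B → Xb x B →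
        ∀ (p : Ideal B) (_ : p.IsPrime), At B p V → ∀ a b : B, a ∉ p → b ∉ p →
          (τ - 1) / τ * (b : L) = a → iQ Q B p a - iQ Q B p b = D Q := by
    intro V hV
    rw [h𝒯] at hV
    by_cases hco : ∀ i, ∃ e : E, x i - algebraMap E L e ∈ V.nonunits
    · refine ⟨fun _ => 0, ?_, fun Q _ => loc_t2 hL V hV hco Q⟩
      have h0 := pri_sum (f - MvPolynomial.C t * g) g hG (∅ : Finset ℕ) (fun _ => 0)
        (fun _ _ => 0) (by simp)
      simpa using h0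
    · exact loc_t1 hL hG V hV hco
  choose! DT hDTp hDT using hT
  have hA : ∀ V : ValuationSubring L, V ∈ 𝒟a → ∃ (s' : E) (J : Ideal (MvPolynomial (Fin 3) E))
      (d : ℕ), DA g s x w ((τ - 1) / τ) V s' ∧ Sc f g (t - s' ^ 2) s' J ∧
      ∀ Q : Fin 2 → E, MvPolynomial.eval Q g ≠ 0 → ∀ c : E, c ≠ 0 → c ≠ - 2 * s' →
        ∀ (B : Subalgebra E L) [Algebra (MvPolynomial (Fin 2) E) B]
        [IsScalarTower E (MvPolynomial (Fin 2) E) B], Ch g s x w c B → Xb x B →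
        ∀ (p : Ideal B) (_ : p.IsPrime), At B p V → ∀ v : B, (v : L) = vc s w c → v ∉ p →
          iQ Q B p v = (d : ℤ) * (cy J s' Q).toNat := by
    intro V hV
    obtain ⟨s', hs'⟩ := (h𝒟a V).1 hV
    obtain ⟨J, d, hJ, hJd⟩ := loc_a hL V s' hs' ((da_ws hL hnd V).1 s' hs')
    exact ⟨s', J, d, hs', hJ, hJd⟩
  choose! σ J d hDA hSc hJd using hA
  have hB' : ∀ V : ValuationSubring L, V ∈ 𝒟b → ∃ D : (Fin 2 → E) → ℤ,
      Pri (f - MvPolynomial.C t * g) g D ∧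
      ∀ Q : Fin 2 → E, MvPolynomial.eval Q g ≠ 0 → ∀ c : E,
        ∀ (B : Subalgebra E L) [Algebra (MvPolynomial (Fin 2) E) B]
        [IsScalarTower E (MvPolynomial (Fin 2) E) B], Ch g s x w c B → Xb x B →
        ∀ (p : Ideal B) (_ : p.IsPrime), At B p V → ∀ v : B, (v : L) = vc s w c → v ∉ p →
          iQ Q B p v = D Q := by
    intro V hV
    rw [h𝒟b] at hV
    obtain ⟨h1, h2⟩ := (da_ws hL hnd V).2 hV
    exact loc_b hL hG V hV h1 h2
  choose! Db hDbp hDb using hB'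
  obtain ⟨n, hn, hloc1⟩ := loc_1 hL V₁ hκ₁ ht₁ hz₁
  -- the sets are disjoint
  have hκa : ∀ V ∈ 𝒟a, ¬ Ov κ V := by
    intro V hV hκ
    have h1 := (hDA V hV).at_
    have h2 : algebraMap κ L s - algebraMap E L (σ V) =
        algebraMap κ L (s - algebraMap E κ (σ V)) := by
      rw [map_sub, ← IsScalarTower.algebraMap_apply]
    have h3 : s - algebraMap E κ (σ V) ≠ 0 := by
      intro h
      have h4 := hL.st
      rw [sub_eq_zero.1 h] at h4
      exact h4 (isAlgebraic_algebraMap _)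
    have h5 : algebraMap κ L (s - algebraMap E κ (σ V)) ≠ 0 := by
      intro h
      exact h3 ((map_eq_zero (algebraMap κ L)).1 h)
    rw [h2, nu V _ h5, ← map_inv₀] at h1
    exact h1 (hκ _)
  have hκb : ∀ V ∈ 𝒟b, ¬ Ov κ V := by
    intro V hV hκ
    exact ((h𝒟b V).1 hV).nots (hκ s)
  have hab𝒟 : Disjoint 𝒟a 𝒟b := by
    rw [Finset.disjoint_left]
    intro V hVa hVb
    have h1 := (hDA V hVa).at_
    have h2 := (hDA V hVa).ov (σ V)
    have h3 : algebraMap κ L s - algebraMap E L (σ V) ∈ V := V.nonunits_subset h1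
    refine ((h𝒟b V).1 hVb).nots ?_
    have h4 := V.add_mem _ _ h3 h2
    rwa [sub_add_cancel] at h4
  have hV10 : V₁ ≠ V₀ := by
    intro h
    rw [h, hoψ₀] at hoψ₁
    omega
  have hne1 : ∀ V ∈ 𝒟a ∪ 𝒟b, V ≠ V₁ := by
    intro V hV h
    subst h
    rcases Finset.mem_union.1 hV with h | h
    · exact hκa _ h hκ₁
    · exact hκb _ h hκ₁
  have hne0 : ∀ V ∈ 𝒟a ∪ 𝒟b, V ≠ V₀ := by
    intro V hV h
    subst h
    rcases Finset.mem_union.1 hV with h | h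
    · exact hκa _ h hκ₀
    · exact hκb _ h hκ₀
  -- the result
  let ε : Fin 𝒟a.card ≃ {V // V ∈ 𝒟a} := 𝒟a.equivFin.symm
  have hsum : ∀ Q : Fin 2 → E, ∑ i : Fin 𝒟a.card,
      (oV (ε i : ValuationSubring L) ((τ - 1) / τ) * (d (ε i : ValuationSubring L) : ℤ)) *
        ((cy (J (ε i : ValuationSubring L)) (σ (ε i : ValuationSubring L)) Q).toNat : ℤ) =
      ∑ V ∈ 𝒟a, oV V ((τ - 1) / τ) * ((d V : ℤ) * ((cy (J V) (σ V) Q).toNat : ℤ)) := by
    intro Q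
    rw [← Finset.sum_coe_sort 𝒟a, ← Equiv.sum_comp ε]
    refine Finset.sum_congr rfl fun i _ => ?_
    ring
  refine ⟨n, 𝒟a.card, fun i => oV (ε i : ValuationSubring L) ((τ - 1) / τ) *
      (d (ε i : ValuationSubring L) : ℤ), fun i => J (ε i : ValuationSubring L),
    fun i => σ (ε i : ValuationSubring L),
    fun Q => ∑ V ∈ 𝒯, oV V (w + algebraMap κ L s) * DT V Q +
      - ∑ V ∈ 𝒟b, oV V ((τ - 1) / τ) * Db V Q, hn,
    fun i => hSc _ (ε i).2, ?_, ?_⟩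
  · have p1 := pri_sum (f - MvPolynomial.C t * g) g hG 𝒯
      (fun V => oV V (w + algebraMap κ L s)) DT hDTp
    have p2 := pri_sum (f - MvPolynomial.C t * g) g hG 𝒟b
      (fun V => oV V ((τ - 1) / τ)) Db hDbp
    have p3 := (pri_add _ _ hG _ _ p2 p2).2.1
    exact (pri_add _ _ hG _ _ p1 p3).1
  intro Q hQ hQA
  -- the choice of the chart
  have hNe : ∀ V ∈ 𝒯, ∃ N : Set E, N.Finite ∧ ∀ c : E, c ∉ N → c ≠ 0 →
        ∀ (B : Subalgebra E L) [Algebra (MvPolynomial (Fin 2) E) B]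
        [IsScalarTower E (MvPolynomial (Fin 2) E) B], Ch g s x w c B → Xb x B →
        ∀ (p : Ideal B) (_ : p.IsPrime), At B p V → ∀ a b : B, a ∉ p → b ∉ p →
          (τ - 1) / τ * (b : L) = a → iQ Q B p a - iQ Q B p b = DT V Q :=
    fun V hV => hDT V hV Q hQ
  choose! N hNf hN using hNe
  have hbad : ((({0} : Set E) ∪ ⋃ V ∈ 𝒯, N V) ∪ ⋃ V ∈ 𝒟a, (({-2 * σ V} : Set E) ∪
      {c | (w - algebraMap κ L s - algebraMap E L c)⁻¹ ∉ V})).Finite := by
    refine ((Set.finite_singleton _).union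
      (Set.Finite.biUnion 𝒯.finite_toSet fun V hV => hNf V hV)).union
      (Set.Finite.biUnion 𝒟a.finite_toSet fun V hV =>
        (Set.finite_singleton _).union (Set.Subsingleton.finite ?_))
    intro c hc c' hc'
    exact da_c V (σ V) (hDA V hV) c c' hc hc'
  obtain ⟨c, hc⟩ := hbad.exists_notMem
  have hc0 : c ≠ 0 := fun h => hc (Or.inl (Or.inl h))
  have hcN : ∀ V ∈ 𝒯, c ∉ N V := fun V hV h => hc (Or.inl (Or.inr (Set.mem_biUnion hV h)))
  have hcσ : ∀ V ∈ 𝒟a, c ≠ -2 * σ V :=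
    fun V hV h => hc (Or.inr (Set.mem_biUnion hV (Or.inl h)))
  have hcw : ∀ V ∈ 𝒟a, (w - algebraMap κ L s - algebraMap E L c)⁻¹ ∈ V := by
    intro V hV
    by_contra h
    exact hc (Or.inr (Set.mem_biUnion hV (Or.inr h)))
  obtain ⟨hws0, hwc0, -⟩ := ld_alg hL hc0
  obtain ⟨B, hB⟩ := ch_ex hL hc0
  obtain ⟨hmx, -, -, -, hmv, -⟩ := ch_mem hL hB
  letI algB : Algebra (MvPolynomial (Fin 2) E) B :=
    (MvPolynomial.aeval (R := E) (fun i => (⟨x i, hmx i⟩ : B))).toRingHom.toAlgebra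
  haveI towB : IsScalarTower E (MvPolynomial (Fin 2) E) B :=
    IsScalarTower.of_algebraMap_eq fun e =>
      ((MvPolynomial.aeval (R := E) (fun i => (⟨x i, hmx i⟩ : B))).commutes e).symm
  have hx : Xb x B := by
    intro i
    change ((MvPolynomial.aeval (R := E) (fun i => (⟨x i, hmx i⟩ : B)) (MvPolynomial.X i) : B) : L)
      = x i
    rw [MvPolynomial.aeval_X]
  obtain ⟨v, hv⟩ : ∃ v : B, (v : L) = vc s w c := ⟨⟨vc s w c, hmv⟩, rfl⟩
  have hv0 : v ≠ 0 := by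
    rintro rfl
    have h0 : vc s w c = 0 := by rw [← hv]; rfl
    exact mul_ne_zero hws0 hwc0 h0
  obtain ⟨S, T, a, b, ha, hb, hab, hS, hT, hTab, hSv, hrel⟩ := ch_rel hL hc0 hnd hB hx Q v hv
  -- curves and valuation rings
  have hcur : ∀ (p : Ideal B) (_ : p.IsPrime), p ≠ ⊥ → ¬ p.IsMaximal →
      ∃ V : ValuationSubring L, Dv V (oV V) ∧ V ≠ ⊤ ∧ Ov E V ∧ At B p V ∧
        (∀ y ∈ bs g s x w c, y ∈ V) ∧
        (¬ ∀ y ∈ bs g s x w c, ∃ e : E, y - algebraMap E L e ∈ V.nonunits) ∧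
        ∀ b : B, b ≠ 0 → ((len p (B ⧸ Ideal.span {b})).toNat : ℤ) = oV V b := by
    intro p hp h1 h2
    obtain ⟨V, o, hD, hV, hE, hAt, hbs, hnc, hl⟩ := ch_pr hB p h1 h2
    have hD' := hoV V ⟨o, hD⟩
    refine ⟨V, hD', hV, hE, hAt, hbs, hnc, fun y hy => ?_⟩
    rw [hl y hy]
    exact dv_uniq V o (oV V) hD hD' y (fun h => hy (Subtype.ext h))
  have hatV : ∀ V : ValuationSubring L, Ov E V → V ≠ ⊤ → (∀ y ∈ bs g s x w c, y ∈ V) →
      (¬ ∀ y ∈ bs g s x w c, ∃ e : E, y - algebraMap E L e ∈ V.nonunits) →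
      ∃ (p : Ideal B) (_ : p.IsPrime), ¬ p.IsMaximal ∧ At B p V ∧ Dv V (oV V) := by
    intro V hE hV hbs hnc
    obtain ⟨p, hp, h1, h2, hAt⟩ := ch_at hB V hE hV hbs hnc
    obtain ⟨V', hD, -, -, hAt', -⟩ := hcur p hp h1 h2
    have hVV : V = V' := (at_uniq (p' := p) hAt).1 hAt'
    rw [← hVV] at hD
    exact ⟨p, hp, h2, hAt, hD⟩
  have hTcur : ∀ p ∈ T, ∃ V : ValuationSubring L, Dv V (oV V) ∧ V ≠ ⊤ ∧ Ov E V ∧
      At B p.asIdeal V ∧ (∀ y ∈ bs g s x w c, y ∈ V) ∧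
        (¬ ∀ y ∈ bs g s x w c, ∃ e : E, y - algebraMap E L e ∈ V.nonunits) ∧
        ∀ b : B, b ≠ 0 → ((len p.asIdeal (B ⧸ Ideal.span {b})).toNat : ℤ) = oV V b := by
    intro p hp
    refine hcur p.asIdeal p.2 ?_ (hT.mem p hp).2
    intro h
    have h1 := (hT.mem p hp).1
    rw [h] at h1
    exact hv0 (Ideal.mem_bot.1 h1)
  have hScur : ∀ p ∈ S, ∃ V : ValuationSubring L, Dv V (oV V) ∧ V ≠ ⊤ ∧ Ov E V ∧
      At B p.asIdeal V ∧ (∀ y ∈ bs g s x w c, y ∈ V) ∧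
        (¬ ∀ y ∈ bs g s x w c, ∃ e : E, y - algebraMap E L e ∈ V.nonunits) ∧
        ∀ b : B, b ≠ 0 → ((len p.asIdeal (B ⧸ Ideal.span {b})).toNat : ℤ) = oV V b := by
    intro p hp
    refine hcur p.asIdeal p.2 ?_ (hS.mem p hp).2
    intro h
    have h1 := (hS.mem p hp).1
    rw [h] at h1
    exact mul_ne_zero ha hb (Ideal.mem_bot.1 h1)
  -- the right side
  have hR : ∑ p ∈ T, ((len p.asIdeal (B ⧸ Ideal.span {v})).toNat : ℤ) *
      (iQ Q B p.asIdeal a - iQ Q B p.asIdeal b) =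
      ∑ V ∈ 𝒯, oV V (w + algebraMap κ L s) * DT V Q := by
    refine sum_tr T ?_ 𝒯 (fun V => oV V (w + algebraMap κ L s) * DT V Q)
      (fun p => ((len p.asIdeal (B ⧸ Ideal.span {v})).toNat : ℤ) *
        (iQ Q B p.asIdeal a - iQ Q B p.asIdeal b)) ?_ ?_ ?_
    · intro p hp
      obtain ⟨V, -, -, -, hAt, -⟩ := hTcur p hp
      exact ⟨V, hAt⟩
    · intro p hp V hAt hV
      obtain ⟨V', hD, hVt, hE, hAt', hbs, hnc, hl⟩ := hTcur p hp
      have hVV : V = V' := (at_uniq (p' := p.asIdeal) hAt).1 hAt'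
      subst hVV
      have e1 := hl v hv0
      have e2 := (tt_ch hL V ((h𝒯 V).1 hV) c).2.2.2.2 (oV V) hD
      have e3 := hN V hV c (hcN V hV) hc0 B hB hx p.asIdeal p.2 hAt a b (hTab p hp).1
        (hTab p hp).2 hab
      change ((len p.asIdeal (B ⧸ Ideal.span {v})).toNat : ℤ) *
        (iQ Q B p.asIdeal a - iQ Q B p.asIdeal b) = oV V (w + algebraMap κ L s) * DT V Q
      rw [e1, e3, hv, e2]
    · intro p hp V hAt hV
      exfalso
      obtain ⟨V', hD, hVt, hE, hAt', hbs, hnc, hl⟩ := hTcur p hp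
      have hVV : V = V' := (at_uniq (p' := p.asIdeal) hAt).1 hAt'
      subst hVV
      refine hV ((h𝒯 V).2 (cls_t hL hc0 hnd V hE hVt hbs hnc ?_))
      rw [← hv]
      exact (hAt.non v).1 (hT.mem p hp).1
    · intro V hV _
      obtain ⟨h1, h2, h3, -, -⟩ := tt_ch hL V ((h𝒯 V).1 hV) c
      have hE : Ov E V := by
        intro e
        rw [IsScalarTower.algebraMap_apply E κ L]
        exact ((h𝒯 V).1 hV).kap _
      obtain ⟨p, hp, hm, hAt, -⟩ := hatV V hE ((h𝒯 V).1 hV).top h1 h2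
      have h4 : v ∈ p := by
        rw [hAt.non v, hv]
        exact h3
      exact ⟨⟨p, hp⟩, (hT.all ⟨p, hp⟩ h4).resolve_left hm, hAt⟩
  -- the left side
  obtain ⟨K, hK1, hK0, hKa, hKb⟩ : ∃ K : ValuationSubring L → ℤ,
      K V₁ = (if Q = P then (n : ℤ) else 0) ∧ K V₀ = 0 ∧
      (∀ V ∈ 𝒟a, K V = (d V : ℤ) * ((cy (J V) (σ V) Q).toNat : ℤ)) ∧
      (∀ V ∈ 𝒟b, K V = Db V Q) := by
    refine ⟨fun V => if V = V₁ then (if Q = P then (n : ℤ) else 0) else if V = V₀ then 0 else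
      if V ∈ 𝒟a then (d V : ℤ) * ((cy (J V) (σ V) Q).toNat : ℤ) else Db V Q, ?_, ?_, ?_, ?_⟩
    · simp only [if_true]
    · simp only [if_neg hV10.symm, if_true]
    · intro V hV
      have h1 := hne1 V (Finset.mem_union_left _ hV)
      have h2 := hne0 V (Finset.mem_union_left _ hV)
      simp only [if_neg h1, if_neg h2, if_pos hV]
    · intro V hV
      have h1 := hne1 V (Finset.mem_union_right _ hV)
      have h2 := hne0 V (Finset.mem_union_right _ hV)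
      have h3 : V ∉ 𝒟a := fun h => (Finset.disjoint_left.1 hab𝒟 h) hV
      simp only [if_neg h1, if_neg h2, if_neg h3]
  have hSp : ∀ (V : ValuationSubring L) (p : Ideal B) (hp : p.IsPrime), ¬ p.IsMaximal →
      At B p V → ((τ - 1) / τ ∈ V.nonunits ∨ ((τ - 1) / τ)⁻¹ ∈ V.nonunits) →
      (⟨p, hp⟩ : PrimeSpectrum B) ∈ S := by
    intro V p hp hm hAt hψV
    have hBV : ∀ y : B, (y : L) ∈ V := by
      intro y
      rw [hAt.loc]
      refine ⟨y, 1, fun h => hp.ne_top ((Ideal.eq_top_iff_one _).2 h), ?_⟩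
      rw [OneMemClass.coe_one, mul_one]
    have h1 : a * b ∈ p := by
      rcases hψV with h | h
      · refine Ideal.mul_mem_right _ _ ((hAt.non a).2 ?_)
        rw [← hab]
        exact nm V _ _ h (hBV b)
      · refine Ideal.mul_mem_left _ _ ((hAt.non b).2 ?_)
        have h2 : (b : L) = ((τ - 1) / τ)⁻¹ * a := by
          rw [← hab, inv_mul_cancel_left₀ hψ]
        rw [h2]
        exact nm V _ _ h (hBV a)
    exact (hS.all ⟨p, hp⟩ h1).resolve_left hm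
  have hlenψ : ∀ (V : ValuationSubring L) (_ : Dv V (oV V)),
      oV V (a : L) - oV V (b : L) = oV V ((τ - 1) / τ) := by
    intro V hD
    have hb' : (b : L) ≠ 0 := fun h => hb (Subtype.ext h)
    rw [← hab, hD.mul _ _ hψ hb']
    ring
  have hgQ : MvPolynomial.eval Q g ≠ 0 := hQ.2.1
  have hLs : ∑ p ∈ S, (((len p.asIdeal (B ⧸ Ideal.span {a})).toNat : ℤ) -
      (len p.asIdeal (B ⧸ Ideal.span {b})).toNat) * iQ Q B p.asIdeal v =
      ∑ V ∈ insert V₁ (insert V₀ (𝒟a ∪ 𝒟b)), oV V ((τ - 1) / τ) * K V := by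
    refine sum_tr S ?_ (insert V₁ (insert V₀ (𝒟a ∪ 𝒟b))) (fun V => oV V ((τ - 1) / τ) * K V)
      (fun p => (((len p.asIdeal (B ⧸ Ideal.span {a})).toNat : ℤ) -
        (len p.asIdeal (B ⧸ Ideal.span {b})).toNat) * iQ Q B p.asIdeal v) ?_ ?_ ?_
    · intro p hp
      obtain ⟨V, -, -, -, hAt, -⟩ := hScur p hp
      exact ⟨V, hAt⟩
    · intro p hp V hAt hV
      obtain ⟨V', hD, hVt, hE, hAt', hbs, hnc, hl⟩ := hScur p hp
      have hVV : V = V' := (at_uniq (p' := p.asIdeal) hAt).1 hAt'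
      subst hVV
      have e1 := hl a ha
      have e2 := hl b hb
      have e3 : iQ Q B p.asIdeal v = K V := by
        rcases Finset.mem_insert.1 hV with rfl | hV
        · rw [hK1]
          have h1 := hloc1 Q c hc0 B hB hx p.asIdeal p.2 hAt v hv
          split_ifs with h
          · exact h1.1 h
          · exact h1.2 h
        rcases Finset.mem_insert.1 hV with rfl | hV
        · rw [hK0]
          exact loc_0 hL _ hκ₀ ht₀ hz₀ Q hQA c B hB hx p.asIdeal p.2 hAt v hv (hSv p hp)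
        rcases Finset.mem_union.1 hV with hV | hV
        · rw [hKa V hV]
          exact hJd V hV Q hgQ c hc0 (hcσ V hV) B hB hx p.asIdeal p.2 hAt v hv (hSv p hp)
        · rw [hKb V hV]
          exact hDb V hV Q hgQ c B hB hx p.asIdeal p.2 hAt v hv (hSv p hp)
      change (((len p.asIdeal (B ⧸ Ideal.span {a})).toNat : ℤ) -
        (len p.asIdeal (B ⧸ Ideal.span {b})).toNat) * iQ Q B p.asIdeal v =
        oV V ((τ - 1) / τ) * K V
      rw [e1, e2, e3, hlenψ V hD]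
    · intro p hp V hAt hV
      obtain ⟨V', hD, hVt, hE, hAt', hbs, hnc, hl⟩ := hScur p hp
      have hVV : V = V' := (at_uniq (p' := p.asIdeal) hAt).1 hAt'
      subst hVV
      have e1 := hl a ha
      have e2 := hl b hb
      have h0 : ¬ ((τ - 1) / τ ∈ V.nonunits ∨ ((τ - 1) / τ)⁻¹ ∈ V.nonunits) := by
        intro hψV
        apply hV
        rcases cls_p hL V hE hVt hbs hnc hψV hwc0 with ⟨h1, h2⟩ | ⟨h1, h2⟩ | h1 | h1
        · rw [hu₁ V h1 hVt h2]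
          exact Finset.mem_insert_self _ _
        · rw [hu₀ V h1 hVt h2]
          exact Finset.mem_insert_of_mem (Finset.mem_insert_self _ _)
        · exact Finset.mem_insert_of_mem (Finset.mem_insert_of_mem
            (Finset.mem_union_left _ ((h𝒟a V).2 h1)))
        · exact Finset.mem_insert_of_mem (Finset.mem_insert_of_mem
            (Finset.mem_union_right _ ((h𝒟b V).2 h1)))
      rw [dvn V _ hD _ hψ, dvn V _ hD _ (inv_ne_zero hψ), dvi V _ hD _ hψ] at h0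
      have h00 : oV V ((τ - 1) / τ) = 0 := by omega
      change (((len p.asIdeal (B ⧸ Ideal.span {a})).toNat : ℤ) -
        (len p.asIdeal (B ⧸ Ideal.span {b})).toNat) * iQ Q B p.asIdeal v = 0
      rw [e1, e2, hlenψ V hD, h00, zero_mul]
    · intro V hV hF
      rcases Finset.mem_insert.1 hV with rfl | hV
      · obtain ⟨h1, h2⟩ := hc₁ c hc0
        obtain ⟨p, hp, hm, hAt, hD⟩ := hatV _ hE₁ ht₁ h1 h2
        refine ⟨⟨p, hp⟩, hSp _ p hp hm hAt (Or.inl ?_), hAt⟩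
        rw [dvn _ _ hDV₁ _ hψ, hoψ₁]
        exact one_pos
      rcases Finset.mem_insert.1 hV with rfl | hV
      · exfalso
        apply hF
        change oV _ ((τ - 1) / τ) * K _ = 0
        rw [hK0, mul_zero]
      rcases Finset.mem_union.1 hV with hV | hV
      · have hd := hDA V hV
        obtain ⟨h1, h2⟩ := da_ch V (σ V) hd (hcw V hV) hwc0
        obtain ⟨p, hp, hm, hAt, hD⟩ := hatV V hd.ov hd.top h1 h2
        exact ⟨⟨p, hp⟩, hSp V p hp hm hAt hd.psi, hAt⟩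
      · have hd := (h𝒟b V).1 hV
        obtain ⟨h1, h2⟩ := db_ch hL.two V hd c
        obtain ⟨p, hp, hm, hAt, hD⟩ := hatV V hd.ov hd.top h1 h2
        exact ⟨⟨p, hp⟩, hSp V p hp hm hAt hd.psi, hAt⟩
  have hV0 : V₀ ∉ 𝒟a ∪ 𝒟b := fun h => hne0 _ h rfl
  have hV1 : V₁ ∉ insert V₀ (𝒟a ∪ 𝒟b) := by
    intro h
    rcases Finset.mem_insert.1 h with h | h
    · exact hV10 h
    · exact hne1 _ h rfl
  have hLs2 : ∑ V ∈ insert V₁ (insert V₀ (𝒟a ∪ 𝒟b)), oV V ((τ - 1) / τ) * K V =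
      (if Q = P then (n : ℤ) else 0) +
      (∑ V ∈ 𝒟a, oV V ((τ - 1) / τ) * ((d V : ℤ) * ((cy (J V) (σ V) Q).toNat : ℤ)) +
        ∑ V ∈ 𝒟b, oV V ((τ - 1) / τ) * Db V Q) := by
    rw [Finset.sum_insert hV1, Finset.sum_insert hV0, Finset.sum_union hab𝒟, hoψ₁, hK1, hK0,
      mul_zero, zero_add, one_mul]
    congr 2
    · exact Finset.sum_congr rfl fun V hV => by rw [hKa V hV]
    · exact Finset.sum_congr rfl fun V hV => by rw [hKb V hV]
  have hfin : ∑ V ∈ 𝒯, oV V (w + algebraMap κ L s) * DT V Q +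
      - ∑ V ∈ 𝒟b, oV V ((τ - 1) / τ) * Db V Q = (if Q = P then (n : ℤ) else 0) +
      ∑ V ∈ 𝒟a, oV V ((τ - 1) / τ) * ((d V : ℤ) * ((cy (J V) (σ V) Q).toNat : ℤ)) := by
    rw [← hR, ← hrel, hLs, hLs2]
    ring
  have hs2 := hsum Q
  refine ⟨fun hQP => ?_, fun hQP => ?_⟩
  · change ∑ V ∈ 𝒯, oV V (w + algebraMap κ L s) * DT V Q +
      - ∑ V ∈ 𝒟b, oV V ((τ - 1) / τ) * Db V Q = _
    rw [hfin, if_pos hQP, ← hs2]
  · change ∑ V ∈ 𝒯, oV V (w + algebraMap κ L s) * DT V Q +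
      - ∑ V ∈ 𝒟b, oV V ((τ - 1) / τ) * Db V Q = _
    rw [hfin, if_neg hQP, zero_add, ← hs2]

end

end Pool.Agent.RDP

end
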