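import Pool.Agent.RDM.Dpu

/-!
# Parametrizations
-/

set_option autoImplicit false

section


namespace Pool.Agent.RDP

universe u v w

section

theorem dpu_tr {k : Type u} [Field k] (f g : MvPolynomial (Fin 2) k) (K K' : Type u) [Field K]
    [Algebra k K] [Field K'] [Algebra k K'] (e : K ≃ₐ[k] K') (l : K) (h : DPU f g K l) :
    DPU f g K' (e l) := by
  obtain ⟨X, W, hX, hW⟩ := h
  let φ : MvPolynomial (Fin 2) K ≃+* MvPolynomial (Fin 2) K' := MvPolynomial.mapEquiv (Fin 2) e.toRingEquiv
  let E2 : FractionRing (MvPolynomial (Fin 2) K) ≃+* FractionRing (MvPolynomial (Fin 2) K') :=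
    IsFractionRing.ringEquivOfRingEquiv φ
  have hE : ∀ p : MvPolynomial (Fin 2) K,
      E2 (algebraMap _ (FractionRing (MvPolynomial (Fin 2) K)) p) =
        algebraMap _ (FractionRing (MvPolynomial (Fin 2) K')) (φ p) := fun p =>
    IsFractionRing.ringEquivOfRingEquiv_algebraMap φ p
  have hC : ∀ a : K, E2 (algebraMap K (FractionRing (MvPolynomial (Fin 2) K)) a) =
      algebraMap K' (FractionRing (MvPolynomial (Fin 2) K')) (e a) := by
    intro a
    rw [IsScalarTower.algebraMap_apply K (MvPolynomial (Fin 2) K), hE,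
      IsScalarTower.algebraMap_apply K' (MvPolynomial (Fin 2) K')]
    congr 1
    exact MvPolynomial.map_C _ a
  have hk : ∀ a : k, E2 (algebraMap k (FractionRing (MvPolynomial (Fin 2) K)) a) =
      algebraMap k (FractionRing (MvPolynomial (Fin 2) K')) a := by
    intro a
    rw [IsScalarTower.algebraMap_apply k K (FractionRing (MvPolynomial (Fin 2) K)), hC,
      IsScalarTower.algebraMap_apply k K' (FractionRing (MvPolynomial (Fin 2) K')), e.commutes]
  let E3 : FractionRing (MvPolynomial (Fin 2) K) →ₐ[k] FractionRing (MvPolynomial (Fin 2) K') :=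
    { E2.toRingHom with commutes' := hk }
  have hE3 : ∀ y, E3 y = E2 y := fun _ => rfl
  refine ⟨fun i => E2 (X i), E2 W, ?_, ?_⟩
  · have h1 := AlgebraicIndependent.ringHom_of_comp_eq (f := (e : K →+* K'))
      (g := (E2 : FractionRing (MvPolynomial (Fin 2) K) →+* FractionRing (MvPolynomial (Fin 2) K')))
      hX e.surjective E2.injective (by ext a; exact (hC a).symm)
    exact h1
  · have h1 := congrArg E3 hW
    rw [map_mul, map_pow, map_sub, map_mul, MvPolynomial.comp_aeval_apply,
      MvPolynomial.comp_aeval_apply, hE3 (algebraMap K _ l), hC] at h1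
    exact h1

end

end Pool.Agent.RDP

end

section


namespace Pool.Agent.RDP

universe u v w

section

theorem dpu_gen {k : Type u} [Field k] (f g : MvPolynomial (Fin 2) k)
    (h : DPU f g (AlgebraicClosure (RatFunc k))
      (algebraMap (RatFunc k) (AlgebraicClosure (RatFunc k)) RatFunc.X))
    (K : Type u) [Field K] [Algebra k K] [IsAlgClosed K] (l : K) (hl : Transcendental k l)
    (halg : ∀ y : K, IsAlgebraic (IntermediateField.adjoin k {l}) y) : DPU f g K l := by
  let e₀ : RatFunc k ≃ₐ[k] IntermediateField.adjoin k {l} := RatFunc.algEquivOfTranscendental l hl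
  have : Algebra.IsAlgebraic (IntermediateField.adjoin k {l}) K := ⟨halg⟩
  have : IsAlgClosure (IntermediateField.adjoin k {l}) K := ⟨inferInstance, inferInstance⟩
  let e : AlgebraicClosure (RatFunc k) ≃+* K :=
    IsAlgClosure.equivOfEquiv (AlgebraicClosure (RatFunc k)) K e₀.toRingEquiv
  have he : ∀ s : RatFunc k, e (algebraMap (RatFunc k) (AlgebraicClosure (RatFunc k)) s) =
      algebraMap (IntermediateField.adjoin k {l}) K (e₀ s) :=
    fun s => IsAlgClosure.equivOfEquiv_algebraMap (AlgebraicClosure (RatFunc k)) K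
      e₀.toRingEquiv s
  let e' : AlgebraicClosure (RatFunc k) ≃ₐ[k] K := AlgEquiv.ofRingEquiv (f := e) (by
    intro r
    rw [IsScalarTower.algebraMap_apply k (RatFunc k) (AlgebraicClosure (RatFunc k)) r, he,
      e₀.commutes, ← IsScalarTower.algebraMap_apply])
  have h2 := dpu_tr f g (AlgebraicClosure (RatFunc k)) K e' _ h
  have h3 : e' (algebraMap (RatFunc k) (AlgebraicClosure (RatFunc k)) RatFunc.X) = l := by
    show e (algebraMap (RatFunc k) (AlgebraicClosure (RatFunc k)) RatFunc.X) = l
    rw [he]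
    exact RatFunc.algEquivOfTranscendental_X l hl
  rwa [h3] at h2

end

end Pool.Agent.RDP

end

section


namespace Pool.Agent.RDP

universe u v w

section

theorem l1 {k E 𝕂 : Type u} [Field k] [Field E] [Field 𝕂] [Algebra k E] [Algebra E 𝕂]
    [Algebra k 𝕂] [IsScalarTower k E 𝕂] (h2 : (2 : k) ≠ 0) (f g : MvPolynomial (Fin 2) k)
    (P : Fin 2 → E) (hP : AlgebraicIndependent k P) (hg : g ≠ 0) (t : E)
    (ht : t * MvPolynomial.aeval P g = MvPolynomial.aeval P f) (htt : Transcendental k t) (s : 𝕂)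
    (hs : Transcendental E s) (l : 𝕂) (hl : l = algebraMap E 𝕂 t - s ^ 2)
    (K : IntermediateField k 𝕂) (hK : ∀ y ∈ K, IsAlgebraic (IntermediateField.adjoin k {l}) y) :
    Transcendental k l ∧ AlgebraicIndependent K (fun i => algebraMap E 𝕂 (P i)) ∧ s ∉ K ∧
      ∀ y : K, algebraMap K 𝕂 y ≠ - s := by
  have hinj : Function.Injective (algebraMap E 𝕂) := (algebraMap E 𝕂).injective
  have hinjk : Function.Injective (algebraMap k E) := (algebraMap k E).injective
  have hlE : Transcendental E l := by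
    intro h
    apply hs
    have h1 : IsAlgebraic E (s ^ 2) := by
      have h2' : s ^ 2 = algebraMap E 𝕂 t - l := by rw [hl]; ring
      rw [h2']
      exact (isAlgebraic_algebraMap t).sub h
    exact h1.of_pow two_pos
  have hlk : Transcendental k l := hlE.restrictScalars hinjk
  -- the family `P, l`
  let y : Unit → 𝕂 := fun _ => l
  have hy : AlgebraicIndependent E y :=
    (algebraicIndependent_unique_type_iff).2 hlE
  have hrange : Set.range y = {l} := by
    ext z
    simp [y, eq_comm]
  have h1 : AlgebraicIndependent k (Sum.elim y (algebraMap E 𝕂 ∘ P)) := hP.sumElim_comp hy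
  have h2' : AlgebraicIndependent k (Sum.elim (algebraMap E 𝕂 ∘ P) y) := by
    have h3 := h1.comp Sum.swap (Equiv.sumComm _ _).injective
    convert h3 using 1
    funext z
    rcases z with z | z <;> rfl
  have h3 : AlgebraicIndependent (Algebra.adjoin k {l}) (algebraMap E 𝕂 ∘ P) := by
    have h4 := (AlgebraicIndependent.sumElim_iff.1 h2').2
    rwa [hrange] at h4
  have h4 : AlgebraicIndependent (IntermediateField.adjoin k {l}) (algebraMap E 𝕂 ∘ P) :=
    IntermediateField.algebraicIndependent_adjoin_iff.2 h3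
  have h5 : AlgebraicIndependent (algebraicClosure (IntermediateField.adjoin k {l}) 𝕂)
      (algebraMap E 𝕂 ∘ P) := h4.algebraicClosure
  set A := algebraicClosure (IntermediateField.adjoin k {l}) 𝕂 with hA
  have hmem : ∀ z : 𝕂, z ∈ A ↔ IsAlgebraic (IntermediateField.adjoin k {l}) z := fun z => by
    rw [hA]
    exact mem_algebraicClosure_iff
  -- the part about `K`
  have hPK : AlgebraicIndependent K (algebraMap E 𝕂 ∘ P) := by
    let φ : K →+* A :=
      { toFun := fun z => ⟨z.1, (hmem z.1).2 (hK z.1 z.2)⟩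
        map_one' := rfl
        map_mul' := fun _ _ => rfl
        map_zero' := rfl
        map_add' := fun _ _ => rfl }
    let _ : Algebra K A := φ.toAlgebra
    have : IsScalarTower K A 𝕂 := IsScalarTower.of_algebraMap_eq (fun z => rfl)
    exact h5.restrictScalars φ.injective
  -- `s` is not in `K`
  have hsK : s ∉ K := by
    intro hsK
    have hsA : s ∈ A := (hmem s).2 (hK s hsK)
    have hlA : l ∈ A := (hmem l).2
      (isAlgebraic_algebraMap (⟨l, IntermediateField.mem_adjoin_simple_self k l⟩ :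
        IntermediateField.adjoin k {l}))
    have htA : algebraMap E 𝕂 t ∈ A := by
      have h6 : algebraMap E 𝕂 t = l + s ^ 2 := by rw [hl]; ring
      rw [h6]
      exact add_mem hlA (pow_mem hsA 2)
    let τ : A := ⟨algebraMap E 𝕂 t, htA⟩
    have hkA : IsScalarTower k A 𝕂 := IsScalarTower.of_algebraMap_eq (fun z => rfl)
    -- the polynomial `t g - f` over `A`
    have h7 : (MvPolynomial.aeval (algebraMap E 𝕂 ∘ P)
        (MvPolynomial.C τ * MvPolynomial.map (algebraMap k A) g -
          MvPolynomial.map (algebraMap k A) f) : 𝕂) = 0 := by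
      rw [map_sub, map_mul, MvPolynomial.aeval_C, MvPolynomial.aeval_map_algebraMap,
        MvPolynomial.aeval_map_algebraMap]
      have h8 : ∀ p : MvPolynomial (Fin 2) k, MvPolynomial.aeval (algebraMap E 𝕂 ∘ P) p =
          algebraMap E 𝕂 (MvPolynomial.aeval P p) := fun p => by
        rw [← MvPolynomial.aeval_algebraMap_apply]
      rw [h8, h8, ← ht, map_mul]
      exact sub_self _
    have h9 := h5.eq_zero_of_aeval_eq_zero _ h7
    obtain ⟨m, hm⟩ := MvPolynomial.ne_zero_iff.1 hg
    have h10 := congrArg (MvPolynomial.coeff m) h9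
    rw [MvPolynomial.coeff_sub, MvPolynomial.coeff_C_mul, MvPolynomial.coeff_map,
      MvPolynomial.coeff_map, MvPolynomial.coeff_zero] at h10
    have h11 := congrArg (algebraMap A 𝕂) h10
    rw [map_sub, map_mul, map_zero, ← IsScalarTower.algebraMap_apply k A 𝕂,
      ← IsScalarTower.algebraMap_apply k A 𝕂] at h11
    have h12 : algebraMap A 𝕂 τ = algebraMap E 𝕂 t := rfl
    rw [h12, IsScalarTower.algebraMap_apply k E 𝕂, IsScalarTower.algebraMap_apply k E 𝕂 (f.coeff m),
      ← map_mul, ← map_sub] at h11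
    have h13 : t * algebraMap k E (g.coeff m) - algebraMap k E (f.coeff m) = 0 :=
      hinj (by rw [h11, map_zero])
    have h14 : t = algebraMap k E (f.coeff m / g.coeff m) := by
      have hm' : algebraMap k E (g.coeff m) ≠ 0 := by
        rw [Ne, map_eq_zero_iff _ hinjk]
        exact hm
      rw [map_div₀, eq_div_iff hm']
      exact sub_eq_zero.1 h13
    apply htt
    rw [h14]
    exact isAlgebraic_algebraMap _
  refine ⟨hlk, hPK, hsK, fun z hz => hsK ?_⟩
  have h6 : s = -(algebraMap K 𝕂 z) := by rw [hz, neg_neg]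
  rw [h6]
  exact neg_mem z.2

end

end Pool.Agent.RDP

end

section


namespace Pool.Agent.RDP

universe u v w

section

theorem l2 {k K 𝕂 : Type u} [Field k] [Field K] [Field 𝕂] [Algebra k K] [Algebra K 𝕂]
    [Algebra k 𝕂] [IsScalarTower k K 𝕂] [IsAlgClosed 𝕂] (f g : MvPolynomial (Fin 2) k) (hg : g ≠ 0)
    (l : K) (h : DPU f g K l) (P : Fin 2 → 𝕂) (hP : AlgebraicIndependent K P) (s : 𝕂)
    (hs : s ^ 2 * MvPolynomial.aeval P g = MvPolynomial.aeval P f -
      algebraMap K 𝕂 l * MvPolynomial.aeval P g) :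
    ∃ (X : Fin 2 → FractionRing (MvPolynomial (Fin 2) K))
      (W : FractionRing (MvPolynomial (Fin 2) K))
      (θ : FractionRing (MvPolynomial (Fin 2) K) →ₐ[K] 𝕂), AlgebraicIndependent K X ∧
      W ^ 2 * MvPolynomial.aeval X g = MvPolynomial.aeval X f -
        algebraMap K (FractionRing (MvPolynomial (Fin 2) K)) l * MvPolynomial.aeval X g ∧
      (∀ i, θ (X i) = P i) ∧ θ W = s := by
  classical
  obtain ⟨X, W, hX, hW⟩ := h
  -- `(FractionRing (MvPolynomial (Fin 2) K))` is algebraic over `K(X)`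
  have htr : Algebra.trdeg K (FractionRing (MvPolynomial (Fin 2) K)) = 2 := by
    have h1 : Algebra.IsAlgebraic (MvPolynomial (Fin 2) K) (FractionRing (MvPolynomial (Fin 2) K)) :=
      IsLocalization.isAlgebraic (FractionRing (MvPolynomial (Fin 2) K)) (nonZeroDivisors (MvPolynomial (Fin 2) K))
    rw [← trdeg_add_eq K (MvPolynomial (Fin 2) K) (A := (FractionRing (MvPolynomial (Fin 2) K))),
      trdeg_eq_zero (R := MvPolynomial (Fin 2) K) (A := (FractionRing (MvPolynomial (Fin 2) K))), add_zero,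
      MvPolynomial.trdeg_of_isDomain]
    simp
  have hXb : IsTranscendenceBasis K X := by
    apply hX.isTranscendenceBasis_of_lift_trdeg_le_of_finite
    rw [htr]
    simp
  have halg : Algebra.IsAlgebraic (IntermediateField.adjoin K (Set.range X)) (FractionRing (MvPolynomial (Fin 2) K)) :=
    hXb.isAlgebraic_field
  -- the embedding of `K(X)`
  have hPi := algebraicIndependent_iff_injective_aeval.mp hP
  let σ : IntermediateField.adjoin K (Set.range X) →ₐ[K] 𝕂 :=
    (IsFractionRing.liftAlgHom (K := (FractionRing (MvPolynomial (Fin 2) K))) hPi).comp hX.aevalEquivField.symm.toAlgHom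
  have hσ : ∀ i, σ ⟨X i, IntermediateField.subset_adjoin K _ ⟨i, rfl⟩⟩ = P i := by
    intro i
    have h1 : hX.aevalEquivField (algebraMap (MvPolynomial (Fin 2) K)
        (FractionRing (MvPolynomial (Fin 2) K)) (MvPolynomial.X i)) =
        ⟨X i, IntermediateField.subset_adjoin K _ ⟨i, rfl⟩⟩ := by
      apply Subtype.ext
      rw [AlgebraicIndependent.aevalEquivField_algebraMap_apply_coe, MvPolynomial.aeval_X]
    rw [← h1]
    change (IsFractionRing.liftAlgHom (K := (FractionRing (MvPolynomial (Fin 2) K))) hPi) (hX.aevalEquivField.symm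
      (hX.aevalEquivField (algebraMap (MvPolynomial (Fin 2) K)
        (FractionRing (MvPolynomial (Fin 2) K)) (MvPolynomial.X i)))) = P i
    rw [AlgEquiv.symm_apply_apply, IsFractionRing.liftAlgHom_apply, IsFractionRing.lift_algebraMap]
    exact MvPolynomial.aeval_X _ _
  obtain ⟨θ, hθ⟩ := IsAlgClosed.surjective_domRestrict_of_isAlgebraic
    (K := K) (L := IntermediateField.adjoin K (Set.range X)) (M := 𝕂)
    (E := FractionRing (MvPolynomial (Fin 2) K)) σ
  have hθX : ∀ i, θ (X i) = P i := by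
    intro i
    rw [← hσ i, ← hθ]
    rfl
  have hθk : ∀ p : MvPolynomial (Fin 2) k, θ (MvPolynomial.aeval X p) = MvPolynomial.aeval P p := by
    intro p
    have h1 := MvPolynomial.comp_aeval_apply (R := k) X (θ.restrictScalars k) p
    have h2 : (fun i => (θ.restrictScalars k) (X i)) = P := funext hθX
    rw [h2] at h1
    exact h1
  have hgP : MvPolynomial.aeval P g ≠ 0 := by
    intro h0
    have h1 : MvPolynomial.aeval P (MvPolynomial.map (algebraMap k K) g) = 0 := by
      rw [MvPolynomial.aeval_map_algebraMap]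
      exact h0
    have h2 := hPi (h1.trans (map_zero _).symm)
    apply hg
    apply MvPolynomial.map_injective (algebraMap k K) (algebraMap k K).injective
    rw [h2, map_zero]
  have hsq : θ W ^ 2 = s ^ 2 := by
    have h1 := congrArg θ hW
    rw [map_mul, map_pow, map_sub, map_mul, hθk, hθk, AlgHom.commutes, ← hs] at h1
    exact mul_right_cancel₀ hgP h1
  rcases sq_eq_sq_iff_eq_or_eq_neg.mp hsq with h1 | h1
  · exact ⟨X, W, θ, hX, hW, hθX, h1⟩
  · refine ⟨X, -W, θ, hX, ?_, hθX, ?_⟩
    · rw [neg_sq]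
      exact hW
    · rw [map_neg, h1, neg_neg]

end

end Pool.Agent.RDP

end

section


namespace Pool.Agent.RDP

universe u v w

section

private theorem l3_loc {K A F Ω : Type u} {ι : Type} [Field K] [CommRing A] [IsDomain A]
    [Algebra K A] [Field F] [Algebra A F] [IsFractionRing A F] [Algebra K F] [IsScalarTower K A F]
    [CommRing Ω] [Algebra K Ω] (d : A) (hd : d ≠ 0) (ρ : A →ₐ[K] Ω) (hρ : IsUnit (ρ d))
    (Y : ι → F) (n : ι → A) (hY : ∀ i, algebraMap A F d * Y i = algebraMap A F (n i)) :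
    ∃ (S : Subalgebra K F) (ρ' : S →ₐ[K] Ω), ∀ i, ∃ h : Y i ∈ S, ρ' ⟨Y i, h⟩ * ρ d = ρ (n i) := by
  have hdF : algebraMap A F d ≠ 0 := by
    rw [Ne, map_eq_zero_iff _ (IsFractionRing.injective A F)]
    exact hd
  have h1 : ∀ y : Submonoid.powers d, IsUnit ((IsScalarTower.toAlgHom K A F) (y : A)) := by
    rintro ⟨y, n, rfl⟩
    change IsUnit (algebraMap A F (d ^ n))
    rw [map_pow]
    exact (IsUnit.mk0 _ hdF).pow n
  have h2 : ∀ y : Submonoid.powers d, IsUnit (ρ (y : A)) := by
    rintro ⟨y, n, rfl⟩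
    change IsUnit (ρ (d ^ n))
    rw [map_pow]
    exact hρ.pow n
  let L := Localization (Submonoid.powers d)
  let j : L →ₐ[K] F := IsLocalization.liftAlgHom (M := Submonoid.powers d)
    (f := IsScalarTower.toAlgHom K A F) h1
  let r : L →ₐ[K] Ω := IsLocalization.liftAlgHom (M := Submonoid.powers d) (f := ρ) h2
  have hj : ∀ a : A, j (algebraMap A L a) = algebraMap A F a := fun a =>
    IsLocalization.lift_eq h1 a
  have hr : ∀ a : A, r (algebraMap A L a) = ρ a := fun a => IsLocalization.lift_eq h2 a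
  have hjinj : Function.Injective j := by
    rw [injective_iff_map_eq_zero]
    intro z hz
    obtain ⟨a, y, rfl⟩ := IsLocalization.exists_mk'_eq (Submonoid.powers d) z
    have h3 : j (algebraMap A L a) = 0 := by
      rw [← IsLocalization.mk'_spec L a y, map_mul, hz, zero_mul]
    rw [hj, map_eq_zero_iff _ (IsFractionRing.injective A F)] at h3
    rw [h3, IsLocalization.mk'_zero]
  let e : L ≃ₐ[K] j.range := AlgEquiv.ofInjective j hjinj
  refine ⟨j.range, r.comp e.symm.toAlgHom, fun i => ?_⟩
  have h4 : j (IsLocalization.mk' L (n i) ⟨d, Submonoid.mem_powers d⟩) = Y i := by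
    have h5 : j (algebraMap A L (n i)) =
        j (IsLocalization.mk' L (n i) ⟨d, Submonoid.mem_powers d⟩) * algebraMap A F d := by
      rw [← hj, ← map_mul]
      congr 1
      exact (IsLocalization.mk'_spec L (n i) ⟨d, Submonoid.mem_powers d⟩).symm
    rw [hj, ← hY i, mul_comm] at h5
    exact (mul_right_cancel₀ hdF h5).symm
  refine ⟨⟨_, h4⟩, ?_⟩
  have h6 : e.symm ⟨Y i, ⟨_, h4⟩⟩ = IsLocalization.mk' L (n i) ⟨d, Submonoid.mem_powers d⟩ := by
    rw [AlgEquiv.symm_apply_eq]
    exact Subtype.ext h4.symm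
  change r (e.symm ⟨Y i, ⟨_, h4⟩⟩) * ρ d = ρ (n i)
  rw [h6, ← hr, ← hr, ← map_mul]
  congr 1
  exact IsLocalization.mk'_spec L (n i) ⟨d, Submonoid.mem_powers d⟩

private theorem l3_app {k K F Ω : Type u} [Field k] [Field K] [Algebra k K] [Field F]
    [Algebra K F] [Algebra k F] [IsScalarTower k K F] [CommRing Ω] [Algebra K Ω] [Algebra k Ω]
    [IsScalarTower k K Ω] (S : Subalgebra K F) (ρ' : S →ₐ[K] Ω) (X : Fin 2 → F)
    (hX : ∀ i, X i ∈ S) (p : MvPolynomial (Fin 2) k) : ∃ h : MvPolynomial.aeval X p ∈ S,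
    ρ' ⟨MvPolynomial.aeval X p, h⟩ = MvPolynomial.aeval (fun i => ρ' ⟨X i, hX i⟩) p := by
  induction p using MvPolynomial.induction_on with
  | C c =>
    have h1 : MvPolynomial.aeval X (MvPolynomial.C c : MvPolynomial (Fin 2) k) =
        algebraMap K F (algebraMap k K c) := by
      rw [MvPolynomial.aeval_C, ← IsScalarTower.algebraMap_apply]
    refine ⟨h1 ▸ S.algebraMap_mem _, ?_⟩
    have h2 : (⟨MvPolynomial.aeval X (MvPolynomial.C c : MvPolynomial (Fin 2) k),
        h1 ▸ S.algebraMap_mem _⟩ : S) = algebraMap K S (algebraMap k K c) := Subtype.ext h1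
    rw [h2, AlgHom.commutes, MvPolynomial.aeval_C, ← IsScalarTower.algebraMap_apply]
  | add p q hp hq =>
    obtain ⟨h1, h2⟩ := hp
    obtain ⟨h3, h4⟩ := hq
    have h5 : MvPolynomial.aeval X (p + q) ∈ S := by
      rw [map_add]
      exact add_mem h1 h3
    refine ⟨h5, ?_⟩
    have h6 : (⟨MvPolynomial.aeval X (p + q), h5⟩ : S) =
        ⟨MvPolynomial.aeval X p, h1⟩ + ⟨MvPolynomial.aeval X q, h3⟩ :=
      Subtype.ext (map_add _ _ _)
    rw [h6, map_add, map_add, h2, h4]
  | mul_X p i hp =>
    obtain ⟨h1, h2⟩ := hp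
    have h5 : MvPolynomial.aeval X (p * MvPolynomial.X i) ∈ S := by
      rw [map_mul, MvPolynomial.aeval_X]
      exact mul_mem h1 (hX i)
    refine ⟨h5, ?_⟩
    have h6 : (⟨MvPolynomial.aeval X (p * MvPolynomial.X i), h5⟩ : S) =
        ⟨MvPolynomial.aeval X p, h1⟩ * ⟨X i, hX i⟩ :=
      Subtype.ext (by
        change MvPolynomial.aeval X (p * MvPolynomial.X i) = MvPolynomial.aeval X p * X i
        rw [map_mul, MvPolynomial.aeval_X])
    rw [h6, map_mul, map_mul, MvPolynomial.aeval_X, h2]

private theorem l3_eq {k K F Ω : Type u} [Field k] [Field K] [Algebra k K] [Field F]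
    [Algebra K F] [Algebra k F] [IsScalarTower k K F] [CommRing Ω] [Algebra K Ω] [Algebra k Ω]
    [IsScalarTower k K Ω] (S : Subalgebra K F) (ρ' : S →ₐ[K] Ω) (X : Fin 2 → F)
    (hX : ∀ i, X i ∈ S) (W : F) (hWS : W ∈ S) (f g : MvPolynomial (Fin 2) k) (l : K)
    (hW : W ^ 2 * MvPolynomial.aeval X g = MvPolynomial.aeval X f -
      algebraMap K F l * MvPolynomial.aeval X g) :
    (ρ' ⟨W, hWS⟩) ^ 2 * MvPolynomial.aeval (fun i => ρ' ⟨X i, hX i⟩) g =
      MvPolynomial.aeval (fun i => ρ' ⟨X i, hX i⟩) f -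
      algebraMap K Ω l * MvPolynomial.aeval (fun i => ρ' ⟨X i, hX i⟩) g := by
  obtain ⟨hg, hg'⟩ := l3_app S ρ' X hX g
  obtain ⟨hf, hf'⟩ := l3_app S ρ' X hX f
  have h1 : (⟨W, hWS⟩ : S) ^ 2 * ⟨MvPolynomial.aeval X g, hg⟩ =
      ⟨MvPolynomial.aeval X f, hf⟩ - algebraMap K S l * ⟨MvPolynomial.aeval X g, hg⟩ :=
    Subtype.ext hW
  have h2 := congrArg ρ' h1
  rw [map_mul, map_pow, map_sub, map_mul, AlgHom.commutes, hg', hf'] at h2
  exact h2

theorem l3 {k K 𝕂 : Type u} [Field k] [Field K] [Field 𝕂] [Algebra k K] [Algebra K 𝕂]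
    [Algebra k 𝕂] [IsScalarTower k K 𝕂] [IsAlgClosed K] (f g : MvPolynomial (Fin 2) k) (hg : g ≠ 0)
    (l : K) (X : Fin 2 → FractionRing (MvPolynomial (Fin 2) K))
    (W : FractionRing (MvPolynomial (Fin 2) K))
    (θ : FractionRing (MvPolynomial (Fin 2) K) →ₐ[K] 𝕂) (hX : AlgebraicIndependent K X)
    (hW : W ^ 2 * MvPolynomial.aeval X g = MvPolynomial.aeval X f -
        algebraMap K (FractionRing (MvPolynomial (Fin 2) K)) l * MvPolynomial.aeval X g)
    (P : Fin 2 → 𝕂) (s : 𝕂) (hP : ∀ i, θ (X i) = P i) (hs : θ W = s) :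
    ∃ (N : Fin 2 → Polynomial 𝕂) (Nw D : Polynomial 𝕂) (q : Fin 2 → K) (qw : K),
      Ln f g l P s N Nw D q qw := by
  classical
  have hXi := algebraicIndependent_iff_injective_aeval.mp hX
  have hG : MvPolynomial.aeval X g ≠ 0 := by
    intro h0
    have h1 : MvPolynomial.aeval X (MvPolynomial.map (algebraMap k K) g) = 0 := by
      rw [MvPolynomial.aeval_map_algebraMap]
      exact h0
    have h2 := hXi (h1.trans (map_zero _).symm)
    apply hg
    apply MvPolynomial.map_injective (algebraMap k K) (algebraMap k K).injective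
    rw [h2, map_zero]
  let Y : Fin 2 ⊕ Bool → FractionRing (MvPolynomial (Fin 2) K) :=
    Sum.elim X (fun b => cond b W (MvPolynomial.aeval X g)⁻¹)
  obtain ⟨⟨d, hd⟩, hn⟩ := IsLocalization.exist_integer_multiples_of_finite
    (nonZeroDivisors (MvPolynomial (Fin 2) K)) Y
  have hd0 : d ≠ 0 := nonZeroDivisors.ne_zero hd
  choose n hn using hn
  have hY : ∀ i, algebraMap (MvPolynomial (Fin 2) K) (FractionRing (MvPolynomial (Fin 2) K)) d *
      Y i = algebraMap _ _ (n i) := by
    intro i
    rw [hn i, Algebra.smul_def]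
  obtain ⟨a, ha⟩ : ∃ a : Fin 2 → K, MvPolynomial.aeval a d ≠ 0 := by
    by_contra h
    push Not at h
    apply hd0
    have hinf : Infinite K := inferInstance
    apply MvPolynomial.funext
    intro x
    rw [map_zero]
    exact h x
  -- evaluation at `a`
  obtain ⟨S₀, ρ₀, h₀⟩ := l3_loc d hd0 (MvPolynomial.aeval a : MvPolynomial (Fin 2) K →ₐ[K] K)
    (IsUnit.mk0 _ ha) Y n hY
  choose m₀ h₀ using h₀
  have hX₀ : ∀ i, X i ∈ S₀ := fun i => m₀ (Sum.inl i)
  -- the line
  let b : Fin 2 → 𝕂 := fun i => θ (algebraMap (MvPolynomial (Fin 2) K) _ (MvPolynomial.X i))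
  let lam : MvPolynomial (Fin 2) K →ₐ[K] Polynomial 𝕂 := MvPolynomial.aeval fun i =>
    Polynomial.C (algebraMap K 𝕂 (a i)) + Polynomial.X * Polynomial.C (b i - algebraMap K 𝕂 (a i))
  have hl0 : ∀ p, (lam p).eval 0 = algebraMap K 𝕂 (MvPolynomial.aeval a p) := by
    intro p
    induction p using MvPolynomial.induction_on with
    | C c =>
      simp only [lam, MvPolynomial.aeval_C]
      rw [IsScalarTower.algebraMap_apply K 𝕂 (Polynomial 𝕂), Polynomial.algebraMap_eq,
        Polynomial.eval_C]
      rfl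
    | add p q hp hq => rw [map_add, Polynomial.eval_add, hp, hq, map_add, map_add]
    | mul_X p i hp =>
      rw [map_mul, Polynomial.eval_mul, hp, map_mul, map_mul, MvPolynomial.aeval_X]
      congr 1
      simp
  have hl1 : ∀ p, (lam p).eval 1 = θ (algebraMap (MvPolynomial (Fin 2) K) _ p) := by
    intro p
    induction p using MvPolynomial.induction_on with
    | C c =>
      have h1 : algebraMap (MvPolynomial (Fin 2) K) (FractionRing (MvPolynomial (Fin 2) K))
          (MvPolynomial.C c) = algebraMap K (FractionRing (MvPolynomial (Fin 2) K)) c := by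
        rw [IsScalarTower.algebraMap_apply K (MvPolynomial (Fin 2) K)
          (FractionRing (MvPolynomial (Fin 2) K))]
        rfl
      simp only [lam, MvPolynomial.aeval_C]
      rw [h1, AlgHom.commutes, IsScalarTower.algebraMap_apply K 𝕂 (Polynomial 𝕂),
        Polynomial.algebraMap_eq, Polynomial.eval_C]
    | add p q hp hq => rw [map_add, Polynomial.eval_add, hp, hq, map_add, map_add]
    | mul_X p i hp =>
      rw [map_mul, Polynomial.eval_mul, hp, map_mul, map_mul]
      congr 1
      simp [lam, b]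
  have hD0 : (lam d).eval 0 ≠ 0 := by
    rw [hl0]
    exact (map_ne_zero _).mpr ha
  have hDne : lam d ≠ 0 := by
    intro h
    rw [h, Polynomial.eval_zero] at hD0
    exact hD0 rfl
  let ρ₁ : MvPolynomial (Fin 2) K →ₐ[K] RatFunc 𝕂 :=
    (IsScalarTower.toAlgHom K (Polynomial 𝕂) (RatFunc 𝕂)).comp lam
  have hρ₁ : ∀ p, ρ₁ p = algebraMap (Polynomial 𝕂) (RatFunc 𝕂) (lam p) := fun p => rfl
  have hρd : ρ₁ d ≠ 0 := by
    rw [hρ₁]
    exact RatFunc.algebraMap_ne_zero hDne
  obtain ⟨S₁, ρ₁', h₁⟩ := l3_loc d hd0 ρ₁ (IsUnit.mk0 _ hρd) Y n hY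
  choose m₁ h₁ using h₁
  have hX₁ : ∀ i, X i ∈ S₁ := fun i => m₁ (Sum.inl i)
  refine ⟨fun i => lam (n (Sum.inl i)), lam (n (Sum.inr true)), lam d,
    fun i => ρ₀ ⟨X i, hX₀ i⟩, ρ₀ ⟨W, m₀ (Sum.inr true)⟩, ?_⟩
  constructor
  · exact hD0
  · rw [hl1]
    intro h
    have h1 := θ.toRingHom.injective (h.trans (map_zero θ).symm)
    rw [← map_zero (algebraMap (MvPolynomial (Fin 2) K) _)] at h1
    exact hd0 (IsFractionRing.injective (MvPolynomial (Fin 2) K)
      (FractionRing (MvPolynomial (Fin 2) K)) h1)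
  · intro i
    rw [hl1, hl1, ← hY, map_mul, ← hP i, mul_comm]
    rfl
  · rw [hl1, hl1, ← hY, map_mul, ← hs, mul_comm]
    rfl
  · intro i
    rw [hl0, hl0, ← map_mul]
    congr 1
    exact (h₀ (Sum.inl i)).symm
  · rw [hl0, hl0, ← map_mul]
    congr 1
    exact (h₀ (Sum.inr true)).symm
  · obtain ⟨hgS, hg'⟩ := l3_app S₀ ρ₀ X hX₀ g
    rw [← hg']
    intro h
    have h1 : (⟨MvPolynomial.aeval X g, hgS⟩ : S₀) * ⟨(MvPolynomial.aeval X g)⁻¹,
        m₀ (Sum.inr false)⟩ = 1 := Subtype.ext (mul_inv_cancel₀ hG)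
    have h2 := congrArg ρ₀ h1
    rw [map_mul, h, zero_mul, map_one] at h2
    exact zero_ne_one h2
  · intro X' W' hX' hW'
    have e1 : X' = fun i => ρ₁' ⟨X i, hX₁ i⟩ := by
      funext i
      apply mul_right_cancel₀ hρd
      exact (hX' i).trans (h₁ (Sum.inl i)).symm
    have e2 : W' = ρ₁' ⟨W, m₁ (Sum.inr true)⟩ := by
      apply mul_right_cancel₀ hρd
      exact hW'.trans (h₁ (Sum.inr true)).symm
    have h3 := l3_eq S₁ ρ₁' X hX₁ W (m₁ (Sum.inr true)) f g l hW
    rw [e1, e2, h3]
    rfl

end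

end Pool.Agent.RDP

end

section


namespace Pool.Agent.RDP

universe u v w

section

theorem red {k 𝕂 : Type u} [Field k] [Field 𝕂] [Algebra k 𝕂] (V : ValuationSubring 𝕂)
    (hV : ∀ e : k, algebraMap k 𝕂 e ∈ V) (R : Type u) [Field R] [Algebra k R] (π : V →+* R)
    (hπ : ∀ y : V, π y = 0 ↔ (y : 𝕂) ∈ V.nonunits)
    (hk : ∀ e : k, π ⟨algebraMap k 𝕂 e, hV e⟩ = algebraMap k R e) (l y : 𝕂) (hl : l ∈ V)
    (hy : y ∈ V) (halg : IsAlgebraic (IntermediateField.adjoin k {l}) y) :
    IsAlgebraic (IntermediateField.adjoin k {π ⟨l, hl⟩}) (π ⟨y, hy⟩) := by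
  classical
  set l' : R := π ⟨l, hl⟩ with hl'
  set y' : R := π ⟨y, hy⟩ with hy'
  -- the homomorphism to `V`
  let κ : k →+* V := (algebraMap k 𝕂).codRestrict V hV
  let φ : Polynomial k →+* V := Polynomial.eval₂RingHom κ ⟨l, hl⟩
  have hφ1 : V.subtype.comp φ = (Polynomial.aeval l : Polynomial k →ₐ[k] 𝕂).toRingHom := by
    apply Polynomial.ringHom_ext
    · intro e
      simp only [RingHom.comp_apply, φ, Polynomial.coe_eval₂RingHom, Polynomial.eval₂_C,
        AlgHom.toRingHom_eq_coe, RingHom.coe_coe, Polynomial.aeval_C]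
      rfl
    · simp only [RingHom.comp_apply, φ, Polynomial.coe_eval₂RingHom, Polynomial.eval₂_X,
        AlgHom.toRingHom_eq_coe, RingHom.coe_coe, Polynomial.aeval_X]
      rfl
  have hφ2 : π.comp φ = (Polynomial.aeval l' : Polynomial k →ₐ[k] R).toRingHom := by
    apply Polynomial.ringHom_ext
    · intro e
      simp only [RingHom.comp_apply, φ, Polynomial.coe_eval₂RingHom, Polynomial.eval₂_C,
        AlgHom.toRingHom_eq_coe, RingHom.coe_coe, Polynomial.aeval_C]
      exact hk e
    · simp only [RingHom.comp_apply, φ, Polynomial.coe_eval₂RingHom, Polynomial.eval₂_X,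
        AlgHom.toRingHom_eq_coe, RingHom.coe_coe, Polynomial.aeval_X]
      rfl
  have key : ∀ p : Polynomial (Polynomial k),
      p.eval₂ (Polynomial.aeval l : Polynomial k →ₐ[k] 𝕂).toRingHom y = 0 →
      p.eval₂ (Polynomial.aeval l' : Polynomial k →ₐ[k] R).toRingHom y' = 0 := by
    intro p hp
    have h1 : V.subtype (p.eval₂ φ ⟨y, hy⟩) = 0 := by
      rw [Polynomial.hom_eval₂, hφ1]
      exact hp
    have h2 : p.eval₂ φ ⟨y, hy⟩ = 0 := Subtype.ext h1
    have h3 := congrArg π h2
    rw [Polynomial.hom_eval₂, hφ2, map_zero] at h3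
    exact h3
  -- conclusion from a good polynomial
  have fin : ∀ p : Polynomial (Polynomial k),
      p.eval₂ (Polynomial.aeval l' : Polynomial k →ₐ[k] R).toRingHom y' = 0 →
      p.map (Polynomial.aeval l' : Polynomial k →ₐ[k] R).toRingHom ≠ 0 →
      IsAlgebraic (IntermediateField.adjoin k {l'}) y' := by
    intro p hp hp0
    let F := IntermediateField.adjoin k {l'}
    let gl : F := ⟨l', IntermediateField.mem_adjoin_simple_self k l'⟩
    let g : Polynomial k →+* F := (Polynomial.aeval gl : Polynomial k →ₐ[k] F).toRingHom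
    have hg : (algebraMap F R).comp g =
        (Polynomial.aeval l' : Polynomial k →ₐ[k] R).toRingHom := by
      apply Polynomial.ringHom_ext
      · intro e
        simp only [RingHom.comp_apply, g, AlgHom.toRingHom_eq_coe, RingHom.coe_coe,
          Polynomial.aeval_C]
        rfl
      · simp only [RingHom.comp_apply, g, AlgHom.toRingHom_eq_coe, RingHom.coe_coe,
          Polynomial.aeval_X]
        rfl
    refine ⟨p.map g, ?_, ?_⟩
    · intro h
      apply hp0
      rw [← hg, ← Polynomial.map_map, h, Polynomial.map_zero]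
    · rw [Polynomial.aeval_def, Polynomial.eval₂_map, hg]
      exact hp
  by_cases hlt : Transcendental k l
  · -- a polynomial relation
    have hinj : Function.Injective (Polynomial.aeval l : Polynomial k →ₐ[k] 𝕂) :=
      transcendental_iff_injective.mp hlt
    obtain ⟨p0, hp00, hp0⟩ : ∃ p : Polynomial (Polynomial k), p ≠ 0 ∧
        p.eval₂ (Polynomial.aeval l : Polynomial k →ₐ[k] 𝕂).toRingHom y = 0 := by
      open scoped IntermediateField.algebraAdjoinAdjoin in
      have h1 : IsAlgebraic (Algebra.adjoin k {l}) y :=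
        (IsFractionRing.isAlgebraic_iff (Algebra.adjoin k {l}) (IntermediateField.adjoin k {l})
          𝕂).mpr halg
      obtain ⟨P, hP0, hP⟩ := h1
      have hmem : ∀ q : Polynomial k, Polynomial.aeval l q ∈ Algebra.adjoin k {l} := fun q =>
        Polynomial.aeval_mem_adjoin_singleton k l
      let ψ : Polynomial k →+* Algebra.adjoin k {l} :=
        (Polynomial.aeval l : Polynomial k →ₐ[k] 𝕂).toRingHom.codRestrict
          (Algebra.adjoin k {l}) hmem
      have hψ : Function.Surjective ψ := by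
        rintro ⟨z, hz⟩
        rw [Algebra.adjoin_singleton_eq_range_aeval] at hz
        obtain ⟨q, hq⟩ := hz
        exact ⟨q, Subtype.ext hq⟩
      obtain ⟨p, hp⟩ := Polynomial.map_surjective ψ hψ P
      refine ⟨p, ?_, ?_⟩
      · intro h
        apply hP0
        rw [← hp, h, Polynomial.map_zero]
      · rw [← hp, Polynomial.aeval_def, Polynomial.eval₂_map] at hP
        exact hP
    by_cases hlt' : Transcendental k l'
    · refine fin p0 (key p0 hp0) ?_
      have hinj' : Function.Injective (Polynomial.aeval l' : Polynomial k →ₐ[k] R) :=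
        transcendental_iff_injective.mp hlt'
      intro h
      apply hp00
      apply Polynomial.map_injective
        (Polynomial.aeval l' : Polynomial k →ₐ[k] R).toRingHom hinj'
      rw [h, Polynomial.map_zero]
    · have hal : IsAlgebraic k l' := by
        by_contra h
        exact hlt' h
      have hint : IsIntegral k l' := hal.isIntegral
      set m := minpoly k l' with hm
      have hm0 : m ≠ 0 := minpoly.ne_zero hint
      have hmd : 0 < m.natDegree := minpoly.natDegree_pos hint
      have hml : Polynomial.aeval l m ≠ 0 := by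
        intro h
        exact hm0 (hinj (h.trans (map_zero _).symm))
      have ind : ∀ n : ℕ, ∀ p : Polynomial (Polynomial k), p ≠ 0 →
          p.leadingCoeff.natDegree = n →
          p.eval₂ (Polynomial.aeval l : Polynomial k →ₐ[k] 𝕂).toRingHom y = 0 →
          IsAlgebraic (IntermediateField.adjoin k {l'}) y' := by
        intro n
        induction n using Nat.strong_induction_on with
        | _ n ih =>
          intro p hp hn hpy
          by_cases h : p.map (Polynomial.aeval l' : Polynomial k →ₐ[k] R).toRingHom = 0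
          · have hdvd : Polynomial.C m ∣ p := by
              rw [Polynomial.C_dvd_iff_dvd_coeff]
              intro i
              apply minpoly.dvd
              have h1 := congrArg (fun q => Polynomial.coeff q i) h
              simp only [Polynomial.coeff_map, Polynomial.coeff_zero] at h1
              exact h1
            obtain ⟨q, hq⟩ := hdvd
            have hq0 : q ≠ 0 := by
              rintro rfl
              exact hp (by rw [hq, mul_zero])
            have hlc : p.leadingCoeff = m * q.leadingCoeff := by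
              rw [hq, Polynomial.leadingCoeff_mul, Polynomial.leadingCoeff_C]
            have hdeg : q.leadingCoeff.natDegree < n := by
              rw [← hn, hlc, Polynomial.natDegree_mul hm0 (Polynomial.leadingCoeff_ne_zero.mpr hq0)]
              omega
            refine ih _ hdeg q hq0 rfl ?_
            rw [hq, Polynomial.eval₂_mul, Polynomial.eval₂_C] at hpy
            rcases mul_eq_zero.mp hpy with h2 | h2
            · exact absurd h2 hml
            · exact h2
          · exact fin p (key p hpy) h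
      exact ind _ p0 hp00 rfl hp0
  · -- `l` algebraic over `k`
    have hal : IsAlgebraic k l := by
      by_contra h
      exact hlt h
    have hfl : Algebra.IsAlgebraic k (IntermediateField.adjoin k {l}) :=
      IntermediateField.isAlgebraic_adjoin_simple hal.isIntegral
    have hy0 : IsAlgebraic k y := by
      have := halg.restrictScalars k
      exact this
    obtain ⟨q, hq0, hq⟩ := hy0
    have hq1 : IsAlgebraic k y' := by
      refine ⟨q, hq0, ?_⟩
      have h1 : V.subtype (q.eval₂ κ ⟨y, hy⟩) = 0 := by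
        rw [Polynomial.hom_eval₂]
        exact hq
      have h2 : q.eval₂ κ ⟨y, hy⟩ = 0 := Subtype.ext h1
      have h3 := congrArg π h2
      rw [Polynomial.hom_eval₂, map_zero] at h3
      have h4 : π.comp κ = algebraMap k R := by
        ext e
        exact hk e
      rw [h4] at h3
      exact h3
    exact hq1.tower_top _

end

end Pool.Agent.RDP

end

section


namespace Pool.Agent.RDP

universe u v w

section

private theorem qA_cl {k R : Type u} [Field k] [Field R] [Algebra k R] (a y : R) :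
    IsAlgebraic (IntermediateField.adjoin k {a}) y ↔
      y ∈ (AlgebraicIndependent.matroid k R).closure {a} := by
  rw [AlgebraicIndependent.matroid_closure_eq, SetLike.mem_coe,
    Subalgebra.mem_algebraicClosure]
  open scoped IntermediateField.algebraAdjoinAdjoin in
  exact (IsFractionRing.isAlgebraic_iff (Algebra.adjoin k {a})
    (IntermediateField.adjoin k {a}) R).symm

private theorem qA_trans {k R : Type u} [Field k] [Field R] [Algebra k R] {a b y : R}
    (h1 : IsAlgebraic (IntermediateField.adjoin k {a}) y)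
    (h2 : IsAlgebraic (IntermediateField.adjoin k {b}) a) :
    IsAlgebraic (IntermediateField.adjoin k {b}) y := by
  rw [qA_cl] at h1 h2 ⊢
  have h3 : ({a} : Set R) ⊆ (AlgebraicIndependent.matroid k R).closure {b} :=
    Set.singleton_subset_iff.2 h2
  exact Matroid.closure_subset_closure_of_subset_closure h3 h1

private theorem qA_exch {k R : Type u} [Field k] [Field R] [Algebra k R] {a b : R}
    (hb : Transcendental k b) (h : IsAlgebraic (IntermediateField.adjoin k {a}) b) :
    IsAlgebraic (IntermediateField.adjoin k {b}) a := by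
  rw [qA_cl] at h ⊢
  have h1 : b ∉ (AlgebraicIndependent.matroid k R).closure ∅ := by
    rw [AlgebraicIndependent.matroid_closure_eq, SetLike.mem_coe,
      Subalgebra.mem_algebraicClosure, Algebra.adjoin_empty]
    intro h2
    exact hb (h2.of_ringHom_of_comp_eq (algebraMap k (⊥ : Subalgebra k R)) (RingHom.id R)
      (fun x => Algebra.mem_bot.1 x.2 |>.imp fun y hy => Subtype.ext hy) (fun _ _ h => h) rfl)
  have h2 := Matroid.mem_closure_insert h1 (f := a) (by rwa [LawfulSingleton.insert_empty_eq])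
  rwa [LawfulSingleton.insert_empty_eq] at h2

private theorem qA_down {k E R : Type u} [Field k] [Field E] [Field R] [Algebra k E] [Algebra k R]
    [Algebra E R] [IsScalarTower k E R] (t z : E)
    (h : IsAlgebraic (IntermediateField.adjoin k {algebraMap E R t}) (algebraMap E R z)) :
    IsAlgebraic (IntermediateField.adjoin k {t}) z := by
  have h1 : IntermediateField.adjoin k {algebraMap E R t} =
      (IntermediateField.adjoin k {t}).map (IsScalarTower.toAlgHom k E R) := by
    rw [IntermediateField.adjoin_map, Set.image_singleton]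
    rfl
  rw [h1] at h
  exact h.of_ringHom_of_comp_eq
    (IntermediateField.equivMap (IntermediateField.adjoin k {t}) (IsScalarTower.toAlgHom k E R))
    (algebraMap E R) (AlgEquiv.surjective _) (algebraMap E R).injective (RingHom.ext fun _ => rfl)

theorem qA {k E κ : Type u} [Field k] [Field E] [IsAlgClosed E] [Field κ] [Algebra k E]
    [Algebra E κ] [Algebra k κ] [IsScalarTower k E κ] (t : E) (htt : Transcendental k t) (s : κ)
    (q : Fin 2 → κ) (qw : κ)
    (hq : ∀ i, IsAlgebraic (IntermediateField.adjoin k {algebraMap E κ t - s ^ 2}) (q i))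
    (hqw : IsAlgebraic (IntermediateField.adjoin k {algebraMap E κ t - s ^ 2}) qw)
    (V : ValuationSubring κ) (hV : Ov E V) (Q : Fin 2 → E)
    (h1 : ∀ i, q i - algebraMap E κ (Q i) ∈ V.nonunits) (h2 : qw + s ∈ V.nonunits) (i : Fin 2) :
    Q i ∈ Acl k t := by
  let R := IsLocalRing.ResidueField V
  let π : V →+* R := IsLocalRing.residue V
  have hπ : ∀ y : V, π y = 0 ↔ (y : κ) ∈ V.nonunits := by
    intro y
    rw [IsLocalRing.residue_eq_zero_iff]
    exact (ValuationSubring.coe_mem_nonunits_iff).symm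
  let jE : E →+* V := (algebraMap E κ).codRestrict V.toSubring hV
  let : Algebra E R := (π.comp jE).toAlgebra
  let : Algebra k R := ((algebraMap E R).comp (algebraMap k E)).toAlgebra
  have : IsScalarTower k E R := IsScalarTower.of_algebraMap_eq fun _ => rfl
  have hkV : ∀ e : k, algebraMap k κ e ∈ V := by
    intro e
    rw [IsScalarTower.algebraMap_apply k E κ]
    exact hV _
  have hπE : ∀ (e : E) (h : algebraMap E κ e ∈ V), π ⟨algebraMap E κ e, h⟩ = algebraMap E R e :=
    fun e h => rfl
  have hπk : ∀ e : k, π ⟨algebraMap k κ e, hkV e⟩ = algebraMap k R e := by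
    intro e
    have h3 : (⟨algebraMap k κ e, hkV e⟩ : V) = ⟨algebraMap E κ (algebraMap k E e), hV _⟩ :=
      Subtype.ext (IsScalarTower.algebraMap_apply k E κ e)
    rw [h3, hπE]
    rfl
  have hqV : q i ∈ V := by
    have h3 := V.add_mem _ _ (V.nonunits_subset (h1 i)) (hV (Q i))
    rwa [sub_add_cancel] at h3
  have hπq : π ⟨q i, hqV⟩ = algebraMap E R (Q i) := by
    rw [← hπE _ (hV (Q i)), ← sub_eq_zero, ← map_sub, hπ]
    exact h1 i
  have htR : Transcendental k (algebraMap E R t) := by
    intro h3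
    exact htt ((isAlgebraic_algebraMap_iff (algebraMap E R).injective).1 h3)
  refine qA_down (R := R) t (Q i) ?_
  by_cases hs : s ∈ V
  · have hlV : algebraMap E κ t - s ^ 2 ∈ V := sub_mem (hV t) (pow_mem hs 2)
    have hqwV : qw ∈ V := by
      have h3 := sub_mem (V.nonunits_subset h2) hs
      rwa [add_sub_cancel_right] at h3
    have hπqw : π ⟨qw, hqwV⟩ = - π ⟨s, hs⟩ := by
      rw [eq_neg_iff_add_eq_zero, ← map_add, hπ]
      exact h2
    have hπl : π ⟨algebraMap E κ t - s ^ 2, hlV⟩ = algebraMap E R t - π ⟨s, hs⟩ ^ 2 := by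
      rw [← hπE t (hV t), ← map_pow, ← map_sub]
      rfl
    have h3 := red V hkV R π hπ hπk (algebraMap E κ t - s ^ 2) (q i) hlV hqV (hq i)
    have h4 := red V hkV R π hπ hπk (algebraMap E κ t - s ^ 2) qw hlV hqwV hqw
    rw [hπq] at h3
    rw [hπqw] at h4
    refine qA_trans h3 (qA_exch htR ?_)
    have h5 : algebraMap E R t = π ⟨algebraMap E κ t - s ^ 2, hlV⟩ + (- π ⟨s, hs⟩) ^ 2 := by
      rw [hπl]
      ring
    rw [h5]
    refine IsAlgebraic.add ?_ (h4.pow 2)
    exact isAlgebraic_algebraMap (⟨_, IntermediateField.mem_adjoin_simple_self k _⟩ :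
      IntermediateField.adjoin k {π ⟨algebraMap E κ t - s ^ 2, hlV⟩})
  · have hs2 : s ^ 2 ∉ V := by
      intro h3
      rcases V.mem_or_inv_mem s with h4 | h4
      · exact hs h4
      · have h5 := V.mul_mem _ _ h3 h4
        have hs0 : s ≠ 0 := by
          rintro rfl
          exact hs V.zero_mem
        rw [sq, mul_assoc, mul_inv_cancel₀ hs0, mul_one] at h5
        exact hs h5
    have hlV : algebraMap E κ t - s ^ 2 ∉ V := by
      intro h3
      have h4 := sub_mem (hV t) h3
      rw [sub_sub_cancel] at h4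
      exact hs2 h4
    have hlN : (algebraMap E κ t - s ^ 2)⁻¹ ∈ V.nonunits := by
      rw [ValuationSubring.mem_nonunits_iff_or, inv_inv]
      exact Or.inr hlV
    have hadj : IntermediateField.adjoin k {algebraMap E κ t - s ^ 2} =
        IntermediateField.adjoin k {(algebraMap E κ t - s ^ 2)⁻¹} := by
      refine le_antisymm (IntermediateField.adjoin_simple_le_iff.2 ?_)
        (IntermediateField.adjoin_simple_le_iff.2 ?_)
      · have h3 := IntermediateField.inv_mem _ (IntermediateField.mem_adjoin_simple_self k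
          (algebraMap E κ t - s ^ 2)⁻¹)
        rwa [inv_inv] at h3
      · exact IntermediateField.inv_mem _ (IntermediateField.mem_adjoin_simple_self k _)
    have h3 := hq i
    rw [hadj] at h3
    have h4 := red V hkV R π hπ hπk _ (q i) (V.nonunits_subset hlN) hqV h3
    have h5 : π ⟨(algebraMap E κ t - s ^ 2)⁻¹, V.nonunits_subset hlN⟩ = 0 := (hπ _).2 hlN
    rw [hπq, h5] at h4
    exact qA_trans h4 isAlgebraic_zero

end

end Pool.Agent.RDP

end

section


namespace Pool.Agent.RDP

universe u v w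

section

private theorem l4_nonunits {K : Type u} [Field K] (W : ValuationSubring K) {z : K}
    (hz : z ∉ W.nonunits) : z⁻¹ ∈ W := by
  by_contra h
  exact hz ((ValuationSubring.mem_nonunits_iff_or W).2 (Or.inr h))

private theorem l4_numul {K : Type u} [Field K] (W : ValuationSubring K) {a b : K}
    (ha : a ∈ W) (hb : b ∈ W.nonunits) : a * b ∈ W.nonunits := by
  rw [ValuationSubring.mem_nonunits_iff] at *
  rw [map_mul]
  exact mul_lt_one_of_nonneg_of_lt_one_right ((ValuationSubring.valuation_le_one_iff W a).2 ha)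
    zero_le hb

private theorem l4_mem {K : Type u} [Field K] (W : ValuationSubring K) {a b : K}
    (hb : b ∈ W) (h : a - b ∈ W.nonunits) : a ∈ W := by
  have h1 := add_mem (ValuationSubring.nonunits_subset h) hb
  rwa [sub_add_cancel] at h1

private theorem l4_const {E K : Type u} [Field E] [Field K] [Algebra E K]
    (W : ValuationSubring K) (hW : Ov E W) {e : E} (he : e ≠ 0) :
    algebraMap E K e ∉ W.nonunits := by
  intro h
  have h1 := l4_numul W (hW e⁻¹) h
  rw [← map_mul, inv_mul_cancel₀ he, map_one, ValuationSubring.mem_nonunits_iff, map_one] at h1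
  exact lt_irrefl _ h1

/-- polynomials at congruent points -/
private theorem l4_congr {E K : Type u} [Field E] [Field K] [Algebra E K]
    (W : ValuationSubring K) (hW : Ov E W) (x : Fin 2 → K) (Q : Fin 2 → E)
    (h : ∀ i, x i - algebraMap E K (Q i) ∈ W.nonunits) (g : MvPolynomial (Fin 2) E) :
    MvPolynomial.aeval x g - algebraMap E K (MvPolynomial.eval Q g) ∈ W.nonunits := by
  induction g using MvPolynomial.induction_on with
  | C e =>
    rw [MvPolynomial.aeval_C, MvPolynomial.eval_C, sub_self]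
    exact zero_mem _
  | add p q hp hq =>
    rw [map_add, map_add, map_add, add_sub_add_comm]
    exact add_mem hp hq
  | mul_X p i hp =>
    have h1 : MvPolynomial.aeval x (p * MvPolynomial.X i) -
        algebraMap E K (MvPolynomial.eval Q (p * MvPolynomial.X i)) =
        x i * (MvPolynomial.aeval x p - algebraMap E K (MvPolynomial.eval Q p)) +
          algebraMap E K (MvPolynomial.eval Q p) * (x i - algebraMap E K (Q i)) := by
      simp only [map_mul, MvPolynomial.aeval_X, MvPolynomial.eval_X]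
      ring
    rw [h1]
    apply add_mem
    · exact l4_numul W (l4_mem W (hW _) (h i)) hp
    · exact l4_numul W (hW _) (h i)

private theorem l4_val {κ : Type u} [Field κ] (V : ValuationSubring (RatFunc κ)) (hV : Ov κ V)
    (a : κ) (ha : RatFunc.X - algebraMap κ (RatFunc κ) a ∈ V.nonunits) (A : Polynomial κ) :
    algebraMap (Polynomial κ) (RatFunc κ) A - algebraMap κ (RatFunc κ) (A.eval a) ∈
      V.nonunits := by
  induction A using Polynomial.induction_on' with
  | add p q hp hq =>
    rw [map_add, Polynomial.eval_add, map_add, add_sub_add_comm]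
    exact add_mem hp hq
  | monomial n c =>
    have hX : (RatFunc.X : RatFunc κ) ∈ V := l4_mem V (hV a) ha
    have h1 : ∀ n : ℕ, (RatFunc.X : RatFunc κ) ^ n - algebraMap κ (RatFunc κ) (a ^ n) ∈
        V.nonunits := by
      intro n
      induction n with
      | zero =>
        rw [pow_zero, pow_zero, map_one, sub_self]
        exact zero_mem _
      | succ n ih =>
        have h2 : (RatFunc.X : RatFunc κ) ^ (n + 1) - algebraMap κ (RatFunc κ) (a ^ (n + 1)) =
            RatFunc.X * ((RatFunc.X : RatFunc κ) ^ n - algebraMap κ (RatFunc κ) (a ^ n)) +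
              algebraMap κ (RatFunc κ) (a ^ n) * (RatFunc.X - algebraMap κ (RatFunc κ) a) := by
          rw [pow_succ a n, map_mul]
          ring
        rw [h2]
        exact add_mem (l4_numul V hX ih) (l4_numul V (hV _) ha)
    have h3 : algebraMap (Polynomial κ) (RatFunc κ) (Polynomial.monomial n c) =
        algebraMap κ (RatFunc κ) c * RatFunc.X ^ n := by
      rw [← Polynomial.C_mul_X_pow_eq_monomial, map_mul, map_pow, RatFunc.algebraMap_X]
      rfl
    rw [h3, Polynomial.eval_monomial, map_mul, ← mul_sub]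
    exact l4_numul V (hV c) (h1 n)

private theorem l4_quot {κ : Type u} [Field κ] (V : ValuationSubring (RatFunc κ)) (hV : Ov κ V)
    (a : κ) (ha : RatFunc.X - algebraMap κ (RatFunc κ) a ∈ V.nonunits) (A B : Polynomial κ)
    (c : κ) (hA : A.eval a = c * B.eval a) (hB : B.eval a ≠ 0) :
    algebraMap (Polynomial κ) (RatFunc κ) A / algebraMap (Polynomial κ) (RatFunc κ) B -
      algebraMap κ (RatFunc κ) c ∈ V.nonunits := by
  have h1 := l4_val V hV a ha (A - Polynomial.C c * B)
  rw [Polynomial.eval_sub, Polynomial.eval_mul, Polynomial.eval_C, hA, sub_self, map_zero,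
    sub_zero] at h1
  have h2 := l4_val V hV a ha B
  have h3 : algebraMap (Polynomial κ) (RatFunc κ) B ∉ V.nonunits := by
    intro h4
    have h5 := sub_mem h4 h2
    rw [sub_sub_cancel] at h5
    exact l4_const V hV hB h5
  have h4 : algebraMap (Polynomial κ) (RatFunc κ) B ≠ 0 := by
    intro h5
    rw [h5] at h3
    exact h3 (zero_mem _)
  have h5 : algebraMap (Polynomial κ) (RatFunc κ) A / algebraMap (Polynomial κ) (RatFunc κ) B -
      algebraMap κ (RatFunc κ) c = (algebraMap (Polynomial κ) (RatFunc κ) B)⁻¹ *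
        algebraMap (Polynomial κ) (RatFunc κ) (A - Polynomial.C c * B) := by
    rw [map_sub, map_mul, show algebraMap (Polynomial κ) (RatFunc κ) (Polynomial.C c) =
      algebraMap κ (RatFunc κ) c from rfl]
    field_simp
  rw [h5]
  exact l4_numul V (l4_nonunits V h3) h1

private theorem l4_V0 (κ : Type u) [Field κ] : ∃ V : ValuationSubring (RatFunc κ), Ov κ V ∧
    (RatFunc.X : RatFunc κ) ∈ V.nonunits := by
  refine ⟨((Polynomial.idealX κ).valuation (RatFunc κ)).valuationSubring, fun c => ?_, ?_⟩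
  · exact (Polynomial.idealX κ).valuation_le_one (K := RatFunc κ) (Polynomial.C c)
  · rw [ValuationSubring.mem_nonunits_iff,
      ← (Valuation.isEquiv_valuation_valuationSubring _).lt_one_iff_lt_one,
      Polynomial.valuation_X_eq_neg_one, ← WithZero.exp_zero, WithZero.exp_lt_exp]
    norm_num

private theorem l4_alg {k A B : Type u} [Field k] [Field A] [Field B] [Algebra k A] [Algebra k B]
    (φ : A →ₐ[k] B) (a y : A) :
    IsAlgebraic (IntermediateField.adjoin k {φ a}) (φ y) ↔
      IsAlgebraic (IntermediateField.adjoin k {a}) y := by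
  have h1 : (IntermediateField.adjoin k {a}).map φ = IntermediateField.adjoin k {φ a} := by
    rw [IntermediateField.adjoin_map, Set.image_singleton]
  exact isAlgebraic_ringHom_iff_of_comp_eq
    ((IntermediateField.equivMap (IntermediateField.adjoin k {a}) φ).trans
      (IntermediateField.equivOfEq h1)) φ φ.injective (by ext z; rfl)

private theorem l4_fd {E 𝕂 : Type u} [Field E] [Field 𝕂] [Algebra E 𝕂] (s : 𝕂)
    (halg : ∀ y : 𝕂, IsAlgebraic (IntermediateField.adjoin E {s}) y) (T : Set 𝕂) (hT : T.Finite)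
    (s₁ : IntermediateField.adjoin E T) (hs : (s₁ : 𝕂) = s) :
    FiniteDimensional (IntermediateField.adjoin E {s₁}) (IntermediateField.adjoin E T) := by
  have hint : ∀ y : IntermediateField.adjoin E T,
      IsIntegral (IntermediateField.adjoin E {s₁}) y := by
    intro y
    have h1 := halg y
    rw [← hs] at h1
    exact ((l4_alg (IntermediateField.adjoin E T).val s₁ y).1 h1).isIntegral
  let T₁ : Set (IntermediateField.adjoin E T) := Subtype.val ⁻¹' T
  have hT₁ : T₁.Finite := hT.preimage Subtype.val_injective.injOn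
  have himg : Subtype.val '' T₁ = T := by
    ext y
    constructor
    · rintro ⟨z, hz, rfl⟩
      exact hz
    · intro hy
      exact ⟨⟨y, IntermediateField.subset_adjoin E T hy⟩, hy, rfl⟩
  have hgen : IntermediateField.adjoin E T₁ = ⊤ := by
    apply IntermediateField.map_injective (IntermediateField.adjoin E T).val
    rw [IntermediateField.adjoin_map, ← AlgHom.fieldRange_eq_map,
      IntermediateField.fieldRange_val]
    exact congrArg _ himg
  have := hT₁.to_subtype
  have hfin : FiniteDimensional (IntermediateField.adjoin E {s₁})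
      (IntermediateField.adjoin (IntermediateField.adjoin E {s₁}) T₁) :=
    IntermediateField.finiteDimensional_adjoin fun y _ => hint y
  have htop : IntermediateField.adjoin (IntermediateField.adjoin E {s₁}) T₁ = ⊤ := by
    rw [eq_top_iff]
    intro y _
    have h1 : IntermediateField.adjoin E T₁ ≤
        (IntermediateField.adjoin (IntermediateField.adjoin E {s₁}) T₁).restrictScalars E :=
      IntermediateField.adjoin_le_iff.2 (IntermediateField.subset_adjoin _ _)
    rw [hgen] at h1
    exact h1 (IntermediateField.mem_top (x := y))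
  rw [htop] at hfin
  exact Module.Finite.equiv (IntermediateField.topEquiv
    (F := IntermediateField.adjoin E {s₁}) (E := IntermediateField.adjoin E T)).toLinearEquiv

end

section

private theorem l4_core {k E κ 𝕂 K : Type u} [Field k] [Field E] [IsAlgClosed E] [Field κ]
    [Field 𝕂] [Field K] [Algebra k E] [Algebra E κ] [Algebra k κ] [IsScalarTower k E κ]
    [Algebra κ 𝕂] [Algebra E 𝕂] [IsScalarTower E κ 𝕂] [Algebra k 𝕂] [IsScalarTower k E 𝕂]
    [IsScalarTower k κ 𝕂] [Algebra k K] [Algebra K 𝕂] [IsScalarTower k K 𝕂] (h2 : (2 : k) ≠ 0)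
    (f g : MvPolynomial (Fin 2) k) (P : Fin 2 → E) (hgP : MvPolynomial.aeval P g ≠ 0) (t : E)
    (htt : Transcendental k t) (s : κ) (hs : Transcendental E s)
    (hfd : FiniteDimensional (IntermediateField.adjoin E {s}) κ) (l : K)
    (hl : algebraMap K 𝕂 l = algebraMap κ 𝕂 (algebraMap E κ t - s ^ 2))
    (hK : ∀ y : K, IsAlgebraic (IntermediateField.adjoin k {l}) y)
    (hsK : ∀ y : K, algebraMap K 𝕂 y ≠ - algebraMap κ 𝕂 s) (N : Fin 2 → Polynomial κ)
    (Nw D : Polynomial κ) (q : Fin 2 → K) (qw : K) (q₁ : Fin 2 → κ) (qw₁ : κ)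
    (hq₁ : ∀ i, algebraMap κ 𝕂 (q₁ i) = algebraMap K 𝕂 (q i))
    (hqw₁ : algebraMap κ 𝕂 qw₁ = algebraMap K 𝕂 qw)
    (hPK : ∃ i, ∀ y : K, algebraMap K 𝕂 y ≠ algebraMap E 𝕂 (P i))
    (hN : Ln f g l (fun i => algebraMap E 𝕂 (P i)) (algebraMap κ 𝕂 s)
      (fun i => (N i).map (algebraMap κ 𝕂)) (Nw.map (algebraMap κ 𝕂)) (D.map (algebraMap κ 𝕂))
      q qw) :
    ∃ (x : Fin 2 → RatFunc κ) (w : RatFunc κ),
      LD (MvPolynomial.map (algebraMap k E) f) (MvPolynomial.map (algebraMap k E) g) t P s
        (RatFunc.X : RatFunc κ) x w q₁ qw₁ {Q | ∀ i, Q i ∈ Acl k t} := by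
  have hj : Function.Injective (algebraMap κ 𝕂) := (algebraMap κ 𝕂).injective
  have hD0 : D.eval 0 ≠ 0 := by
    intro h
    apply hN.d0
    rw [Polynomial.eval_zero_map, h, map_zero]
  have hD1 : D.eval 1 ≠ 0 := by
    intro h
    apply hN.d1
    rw [Polynomial.eval_one_map, h, map_zero]
  have hD : D ≠ 0 := by
    rintro rfl
    exact hD0 Polynomial.eval_zero
  have hn1 : ∀ i, (N i).eval 1 = algebraMap E κ (P i) * D.eval 1 := by
    intro i
    apply hj
    have := hN.n1 i
    rw [Polynomial.eval_one_map, Polynomial.eval_one_map] at this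
    rw [this, map_mul, ← IsScalarTower.algebraMap_apply]
  have hw1 : Nw.eval 1 = s * D.eval 1 := by
    apply hj
    have := hN.w1
    rw [Polynomial.eval_one_map, Polynomial.eval_one_map] at this
    rw [this, map_mul]
  have hn0 : ∀ i, (N i).eval 0 = q₁ i * D.eval 0 := by
    intro i
    apply hj
    have := hN.n0 i
    rw [Polynomial.eval_zero_map, Polynomial.eval_zero_map] at this
    rw [this, map_mul, hq₁]
  have hw0 : Nw.eval 0 = qw₁ * D.eval 0 := by
    apply hj
    have := hN.w0
    rw [Polynomial.eval_zero_map, Polynomial.eval_zero_map] at this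
    rw [this, map_mul, hqw₁]
  obtain ⟨x, hx⟩ : ∃ x : Fin 2 → RatFunc κ, ∀ i, x i = algebraMap (Polynomial κ) (RatFunc κ) (N i) /
    algebraMap (Polynomial κ) (RatFunc κ) D := ⟨_, fun i => rfl⟩
  obtain ⟨w, hw⟩ : ∃ w : RatFunc κ, w = algebraMap (Polynomial κ) (RatFunc κ) Nw /
    algebraMap (Polynomial κ) (RatFunc κ) D := ⟨_, rfl⟩
  have hzer : ∀ V : ValuationSubring (RatFunc κ), Ov κ V → RatFunc.X ∈ V.nonunits →
      (∀ i, x i - algebraMap κ (RatFunc κ) (q₁ i) ∈ V.nonunits) ∧
        w - algebraMap κ (RatFunc κ) qw₁ ∈ V.nonunits := by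
    intro V hV hX
    have hX' : RatFunc.X - algebraMap κ (RatFunc κ) 0 ∈ V.nonunits := by
      rwa [map_zero, sub_zero]
    refine ⟨fun i => ?_, ?_⟩
    · rw [hx]
      exact l4_quot V hV 0 hX' _ _ _ (hn0 i) hD0
    · rw [hw]
      exact l4_quot V hV 0 hX' _ _ _ hw0 hD0
  have hone : ∀ V : ValuationSubring (RatFunc κ), Ov κ V → RatFunc.X - 1 ∈ V.nonunits →
      (∀ i, x i - algebraMap E (RatFunc κ) (P i) ∈ V.nonunits) ∧
        w - algebraMap κ (RatFunc κ) s ∈ V.nonunits := by
    intro V hV hX
    have hX' : RatFunc.X - algebraMap κ (RatFunc κ) 1 ∈ V.nonunits := by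
      rwa [map_one]
    refine ⟨fun i => ?_, ?_⟩
    · rw [hx, IsScalarTower.algebraMap_apply E κ (RatFunc κ)]
      exact l4_quot V hV 1 hX' _ _ _ (hn1 i) hD1
    · rw [hw]
      exact l4_quot V hV 1 hX' _ _ _ hw1 hD1
  have hgx : MvPolynomial.aeval x (MvPolynomial.map (algebraMap k E) g) ≠ 0 := by
    obtain ⟨V, hV, hX⟩ := l4_V0 κ
    have h1 := l4_congr V hV x q₁ (hzer V hV hX).1
      (MvPolynomial.map (algebraMap E κ) (MvPolynomial.map (algebraMap k E) g))
    rw [MvPolynomial.aeval_map_algebraMap, MvPolynomial.map_map,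
      ← IsScalarTower.algebraMap_eq k E κ, MvPolynomial.eval_map, ← MvPolynomial.aeval_def] at h1
    have h3 : MvPolynomial.aeval q₁ g ≠ 0 := by
      intro h0
      apply hN.gq
      apply (algebraMap K 𝕂).injective
      rw [← MvPolynomial.aeval_algebraMap_apply, map_zero]
      have h4 := congrArg (algebraMap κ 𝕂) h0
      rw [← MvPolynomial.aeval_algebraMap_apply, map_zero] at h4
      rw [← h4]
      congr 2
      funext i
      exact (hq₁ i).symm
    intro h0
    rw [h0, zero_sub] at h1
    have h5 := neg_mem h1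
    rw [neg_neg] at h5
    exact l4_const V hV h3 h5
  have heq : w ^ 2 * MvPolynomial.aeval x (MvPolynomial.map (algebraMap k E) g) =
      MvPolynomial.aeval x (MvPolynomial.map (algebraMap k E) f) -
        (algebraMap E (RatFunc κ) t - algebraMap κ (RatFunc κ) s ^ 2) *
          MvPolynomial.aeval x (MvPolynomial.map (algebraMap k E) g) := by
    let J : RatFunc κ →+* RatFunc 𝕂 := RatFunc.mapRingHom (Polynomial.mapRingHom (algebraMap κ 𝕂))
      (nonZeroDivisors_le_comap_nonZeroDivisors_of_injective _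
        (Polynomial.map_injective _ hj))
    have hJp : ∀ p : Polynomial κ, J (algebraMap (Polynomial κ) (RatFunc κ) p) =
        algebraMap (Polynomial 𝕂) (RatFunc 𝕂) (p.map (algebraMap κ 𝕂)) := by
      intro p
      have h1 := RatFunc.map_apply_div (Polynomial.mapRingHom (algebraMap κ 𝕂))
        (nonZeroDivisors_le_comap_nonZeroDivisors_of_injective _
        (Polynomial.map_injective _ hj)) p 1
      rw [map_one, div_one, map_one, map_one, div_one] at h1
      exact h1
    have hJc : ∀ c : κ, J (algebraMap κ (RatFunc κ) c) = RatFunc.C (algebraMap κ 𝕂 c) := by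
      intro c
      have h1 := hJp (Polynomial.C c)
      rw [Polynomial.map_C] at h1
      exact h1
    have hJ : ∀ p : MvPolynomial (Fin 2) k,
        J (MvPolynomial.aeval x (MvPolynomial.map (algebraMap k E) p)) =
          MvPolynomial.aeval (fun i => J (x i)) p := by
      intro p
      induction p using MvPolynomial.induction_on with
      | C e =>
        rw [MvPolynomial.map_C, MvPolynomial.aeval_C, MvPolynomial.aeval_C,
          IsScalarTower.algebraMap_apply E κ (RatFunc κ), hJc,
          ← IsScalarTower.algebraMap_apply k E κ, ← IsScalarTower.algebraMap_apply k κ 𝕂]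
        rfl
      | add p q hp hq => simp only [map_add, hp, hq]
      | mul_X p i hp => simp only [map_mul, hp, MvPolynomial.map_X, MvPolynomial.aeval_X]
    have hDL : algebraMap (Polynomial κ) (RatFunc κ) D ≠ 0 :=
      (map_ne_zero_iff _ (IsFractionRing.injective (Polynomial κ) (RatFunc κ))).2 hD
    have h1 := hN.eq (fun i => J (x i)) (J w) (fun i => by
      rw [← hJp, ← hJp, ← map_mul, hx, div_mul_cancel₀ _ hDL]) (by
      rw [← hJp, ← hJp, ← map_mul, hw, div_mul_cancel₀ _ hDL])
    apply J.injective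
    rw [map_mul, map_sub, map_mul, map_pow, map_sub, map_pow, hJ, hJ, hJc, h1,
      IsScalarTower.algebraMap_apply E κ (RatFunc κ), hJc, hl, map_sub, map_sub, map_pow, map_pow]
  have htr : ∀ y : K, ∀ z : κ, algebraMap κ 𝕂 z = algebraMap K 𝕂 y →
      IsAlgebraic (IntermediateField.adjoin k {algebraMap E κ t - s ^ 2}) z := by
    intro y z hz
    have h1 := (l4_alg (IsScalarTower.toAlgHom k K 𝕂) l y).2 (hK y)
    apply (l4_alg (IsScalarTower.toAlgHom k κ 𝕂) (algebraMap E κ t - s ^ 2) z).1
    rw [IsScalarTower.coe_toAlgHom'] at h1 ⊢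
    rw [hl] at h1
    rw [hz]
    exact h1
  refine ⟨x, w, ?_, hs, hfd, RatFunc.transcendental_X, RatFunc.adjoin_X, ?_, hgx, heq, hone, hzer,
    ?_, ?_, ?_⟩
  · intro h
    apply h2
    apply (algebraMap k E).injective
    rw [map_ofNat, map_zero, h]
  · rwa [MvPolynomial.eval_map, ← MvPolynomial.aeval_def]
  · intro h
    apply hsK qw
    rw [← hqw₁, ← map_neg, eq_neg_of_add_eq_zero_left h]
  · intro V hV Q hQ1 hQ2 i
    exact qA t htt s q₁ qw₁ (fun i => htr _ _ (hq₁ i)) (htr _ _ hqw₁) V hV Q hQ1 hQ2 i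
  · intro h
    obtain ⟨i, hi⟩ := hPK
    obtain ⟨c, hc⟩ := h i
    have hDL : algebraMap (Polynomial κ) (RatFunc κ) D ≠ 0 :=
      (map_ne_zero_iff _ (IsFractionRing.injective (Polynomial κ) (RatFunc κ))).2 hD
    have h3 : N i = Polynomial.C c * D := by
      apply IsFractionRing.injective (Polynomial κ) (RatFunc κ)
      rw [hx, eq_div_iff hDL] at hc
      rw [map_mul, ← hc]
      rfl
    have h4 : c = algebraMap E κ (P i) := by
      have h5 := hn1 i
      rw [h3, Polynomial.eval_mul, Polynomial.eval_C] at h5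
      exact mul_right_cancel₀ hD1 h5
    have h6 : c = q₁ i := by
      have h5 := hn0 i
      rw [h3, Polynomial.eval_mul, Polynomial.eval_C] at h5
      exact mul_right_cancel₀ hD0 h5
    apply hi (q i)
    rw [← hq₁ i, ← h6, h4, ← IsScalarTower.algebraMap_apply]

theorem l4 {k E 𝕂 K : Type u} [Field k] [Field E] [IsAlgClosed E] [Field 𝕂] [Field K]
    [Algebra k E] [Algebra E 𝕂] [Algebra k 𝕂] [IsScalarTower k E 𝕂] [Algebra k K] [Algebra K 𝕂]
    [IsScalarTower k K 𝕂] (h2 : (2 : k) ≠ 0) (f g : MvPolynomial (Fin 2) k) (P : Fin 2 → E)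
    (hgP : MvPolynomial.aeval P g ≠ 0) (t : E) (htt : Transcendental k t) (s : 𝕂)
    (hs : Transcendental E s) (halg : ∀ y : 𝕂, IsAlgebraic (IntermediateField.adjoin E {s}) y)
    (l : K) (hl : algebraMap K 𝕂 l = algebraMap E 𝕂 t - s ^ 2)
    (hK : ∀ y : K, IsAlgebraic (IntermediateField.adjoin k {l}) y)
    (hsK : ∀ y : K, algebraMap K 𝕂 y ≠ - s) (N : Fin 2 → Polynomial 𝕂) (Nw D : Polynomial 𝕂)
    (q : Fin 2 → K) (qw : K) (hPK : ∃ i, ∀ y : K, algebraMap K 𝕂 y ≠ algebraMap E 𝕂 (P i))
    (hN : Ln f g l (fun i => algebraMap E 𝕂 (P i)) s N Nw D q qw) :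
    ∃ (κ L : Type u) (_ : Field κ) (_ : Field L) (_ : Algebra E κ) (_ : Algebra κ L)
      (_ : Algebra E L) (_ : IsScalarTower E κ L) (s₁ : κ) (τ : L) (x : Fin 2 → L) (w : L)
      (q₁ : Fin 2 → κ) (qw₁ : κ),
      LD (MvPolynomial.map (algebraMap k E) f) (MvPolynomial.map (algebraMap k E) g) t P s₁ τ x w
        q₁ qw₁ {Q | ∀ i, Q i ∈ Acl k t} := by
  -- the finite set of generators
  obtain ⟨T, hT⟩ : ∃ T : Set 𝕂, T = {s} ∪ ((N 0).coeffs : Set 𝕂) ∪ ((N 1).coeffs : Set 𝕂) ∪
    (Nw.coeffs : Set 𝕂) ∪ (D.coeffs : Set 𝕂) ∪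
      {algebraMap K 𝕂 (q 0), algebraMap K 𝕂 (q 1), algebraMap K 𝕂 qw} := ⟨_, rfl⟩
  have hTfin : T.Finite := by
    rw [hT]
    exact Set.toFinite _
  have hsub : T ⊆ IntermediateField.adjoin E T := IntermediateField.subset_adjoin E T
  have hlift : ∀ A : Polynomial 𝕂, (A.coeffs : Set 𝕂) ⊆ T →
      ∃ A' : Polynomial (IntermediateField.adjoin E T),
        A'.map (algebraMap (IntermediateField.adjoin E T) 𝕂) = A := by
    intro A hA
    rw [← Polynomial.mem_lifts, Polynomial.lifts_iff_coeffs_subset_range]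
    intro y hy
    exact ⟨⟨y, hsub (hA hy)⟩, rfl⟩
  obtain ⟨N0, hN0⟩ := hlift (N 0) (by rw [hT]; intro y hy; simp [hy])
  obtain ⟨N1, hN1⟩ := hlift (N 1) (by rw [hT]; intro y hy; simp [hy])
  obtain ⟨Nw', hNw⟩ := hlift Nw (by rw [hT]; intro y hy; simp [hy])
  obtain ⟨D', hD⟩ := hlift D (by rw [hT]; intro y hy; simp [hy])
  have hqT : ∀ i, algebraMap K 𝕂 (q i) ∈ T := by
    intro i
    rw [hT]
    fin_cases i <;> simp
  obtain ⟨s₁, hs₁⟩ : ∃ s₁ : IntermediateField.adjoin E T, (s₁ : 𝕂) = s :=
    ⟨⟨s, hsub (by rw [hT]; simp)⟩, rfl⟩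
  obtain ⟨q₁, hq₁⟩ : ∃ q₁ : Fin 2 → IntermediateField.adjoin E T,
      ∀ i, algebraMap (IntermediateField.adjoin E T) 𝕂 (q₁ i) = algebraMap K 𝕂 (q i) :=
    ⟨fun i => ⟨algebraMap K 𝕂 (q i), hsub (hqT i)⟩, fun i => rfl⟩
  obtain ⟨qw₁, hqw₁⟩ : ∃ qw₁ : IntermediateField.adjoin E T,
      algebraMap (IntermediateField.adjoin E T) 𝕂 qw₁ = algebraMap K 𝕂 qw :=
    ⟨⟨algebraMap K 𝕂 qw, hsub (by rw [hT]; simp)⟩, rfl⟩
  have hfd := l4_fd s halg T hTfin s₁ hs₁
  have htrs : Transcendental E s₁ := by
    intro h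
    apply hs
    rw [← hs₁]
    exact h.algHom (IntermediateField.adjoin E T).val
  have hs₁' : algebraMap (IntermediateField.adjoin E T) 𝕂 s₁ = s := hs₁
  have hN' : Ln f g l (fun i => algebraMap E 𝕂 (P i))
      (algebraMap (IntermediateField.adjoin E T) 𝕂 s₁)
      (fun i => ((![N0, N1] : Fin 2 → Polynomial (IntermediateField.adjoin E T)) i).map
        (algebraMap (IntermediateField.adjoin E T) 𝕂))
      (Nw'.map (algebraMap (IntermediateField.adjoin E T) 𝕂))
      (D'.map (algebraMap (IntermediateField.adjoin E T) 𝕂)) q qw := by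
    have h1 : (fun i => ((![N0, N1] : Fin 2 → Polynomial (IntermediateField.adjoin E T)) i).map
        (algebraMap (IntermediateField.adjoin E T) 𝕂)) = N := by
      funext i
      fin_cases i
      · exact hN0
      · exact hN1
    rw [h1, hNw, hD, hs₁']
    exact hN
  have hsc : IsScalarTower k (IntermediateField.adjoin E T) 𝕂 := by
    apply IsScalarTower.of_algebraMap_eq
    intro e
    rw [IsScalarTower.algebraMap_apply k E (IntermediateField.adjoin E T),
      ← IsScalarTower.algebraMap_apply E (IntermediateField.adjoin E T) 𝕂,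
      ← IsScalarTower.algebraMap_apply k E 𝕂]
  obtain ⟨x, w, h⟩ := l4_core (κ := IntermediateField.adjoin E T) (𝕂 := 𝕂) h2 f g P hgP t htt s₁
    htrs hfd l (by rw [hl, map_sub, map_pow, hs₁', ← IsScalarTower.algebraMap_apply]) hK
    (by rw [hs₁']; exact hsK) ![N0, N1] Nw' D' q qw q₁ qw₁ hq₁ hqw₁ hPK hN'
  exact ⟨IntermediateField.adjoin E T, RatFunc (IntermediateField.adjoin E T), inferInstance,
    inferInstance, inferInstance, inferInstance, inferInstance, inferInstance, s₁, RatFunc.X, x, w,
    q₁, qw₁, h⟩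

end

end Pool.Agent.RDP

end

section


namespace Pool.Agent.RDP

universe u v w

section

theorem ld_ex_mem {E : Type u} [Field E] (x : RatFunc E) :
    algebraMap (RatFunc E) (AlgebraicClosure (RatFunc E)) x ∈ IntermediateField.adjoin E
      {algebraMap (RatFunc E) (AlgebraicClosure (RatFunc E)) RatFunc.X} := by
  have h1 : x ∈ IntermediateField.adjoin E {(RatFunc.X : RatFunc E)} := by
    rw [RatFunc.adjoin_X]
    exact IntermediateField.mem_top
  have h2 := (IntermediateField.adjoin_map E {(RatFunc.X : RatFunc E)}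
    (IsScalarTower.toAlgHom E (RatFunc E) (AlgebraicClosure (RatFunc E))))
  rw [Set.image_singleton] at h2
  have h3 : algebraMap (RatFunc E) (AlgebraicClosure (RatFunc E)) x ∈
      (IntermediateField.adjoin E {(RatFunc.X : RatFunc E)}).map
        (IsScalarTower.toAlgHom E (RatFunc E) (AlgebraicClosure (RatFunc E))) := ⟨x, h1, rfl⟩
  rw [h2] at h3
  exact h3

theorem ld_ex_alg {E : Type u} [Field E] (y : AlgebraicClosure (RatFunc E)) :
    IsAlgebraic (IntermediateField.adjoin E
      {algebraMap (RatFunc E) (AlgebraicClosure (RatFunc E)) RatFunc.X}) y := by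
  have h1 : IsAlgebraic (RatFunc E) y := Algebra.IsAlgebraic.isAlgebraic y
  exact h1.ringHom_of_comp_eq ((algebraMap (RatFunc E) (AlgebraicClosure (RatFunc E))).codRestrict
    (IntermediateField.adjoin E {algebraMap (RatFunc E) (AlgebraicClosure (RatFunc E)) RatFunc.X})
    ld_ex_mem) (RingHom.id _) (fun a b h => (algebraMap (RatFunc E)
      (AlgebraicClosure (RatFunc E))).injective (congrArg Subtype.val h)) (by ext x; rfl)

/-- elements of `K` algebraic over `k(l)` -/
theorem ld_ex_sub {k 𝕂 : Type u} [Field k] [Field 𝕂] [Algebra k 𝕂] (K : IntermediateField k 𝕂)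
    (l : K) (y : K) (hy : IsAlgebraic (IntermediateField.adjoin k {(l : 𝕂)}) (y : 𝕂)) :
    IsAlgebraic (IntermediateField.adjoin k {l}) y := by
  have h2 := (IntermediateField.adjoin_map k {l} K.val)
  rw [Set.image_singleton] at h2
  have hmem : ∀ x : IntermediateField.adjoin k {l},
      ((x : K) : 𝕂) ∈ IntermediateField.adjoin k {(l : 𝕂)} := by
    intro x
    have h3 : ((x : K) : 𝕂) ∈ (IntermediateField.adjoin k {l}).map K.val := ⟨x, x.2, rfl⟩
    rw [h2] at h3
    exact h3
  refine IsAlgebraic.of_ringHom_of_comp_eq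
    (((algebraMap K 𝕂).comp (algebraMap (IntermediateField.adjoin k {l}) K)).codRestrict
      (IntermediateField.adjoin k {(l : 𝕂)}) hmem) (algebraMap K 𝕂) hy ?_
    (algebraMap K 𝕂).injective (by ext x; rfl)
  rintro ⟨z, hz⟩
  have h3 : z ∈ (IntermediateField.adjoin k {l}).map K.val := by
    rw [h2]
    exact hz
  obtain ⟨x, hx, hxz⟩ := h3
  exact ⟨⟨x, hx⟩, Subtype.ext hxz⟩

theorem ld_ex_core {k E 𝕂 : Type u} [Field k] [Field E] [IsAlgClosed E] [Field 𝕂] [IsAlgClosed 𝕂]
    [Algebra k E] [Algebra E 𝕂] [Algebra k 𝕂] [IsScalarTower k E 𝕂] (h2 : (2 : k) ≠ 0)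
    (f g : MvPolynomial (Fin 2) k) (hg : g ≠ 0) (P : Fin 2 → E) (hP : AlgebraicIndependent k P)
    (t : E) (ht : t * MvPolynomial.aeval P g = MvPolynomial.aeval P f)
    (htt : Transcendental k t)
    (hR : DPU f g (AlgebraicClosure (RatFunc k))
      (algebraMap (RatFunc k) (AlgebraicClosure (RatFunc k)) RatFunc.X)) (s : 𝕂)
    (hs : Transcendental E s) (halg : ∀ y : 𝕂, IsAlgebraic (IntermediateField.adjoin E {s}) y) :
    ∃ (κ L : Type u) (_ : Field κ) (_ : Field L) (_ : Algebra E κ) (_ : Algebra κ L)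
      (_ : Algebra E L) (_ : IsScalarTower E κ L) (s : κ) (τ : L) (x : Fin 2 → L) (w : L)
      (q : Fin 2 → κ) (qw : κ),
      LD (MvPolynomial.map (algebraMap k E) f) (MvPolynomial.map (algebraMap k E) g) t P s τ x w
        q qw {Q | ∀ i, Q i ∈ Acl k t} := by
  set l : 𝕂 := algebraMap E 𝕂 t - s ^ 2 with hl
  set K : IntermediateField k 𝕂 :=
    (algebraicClosure (IntermediateField.adjoin k {l}) 𝕂).restrictScalars k with hKdef
  have hKa : ∀ y ∈ K, IsAlgebraic (IntermediateField.adjoin k {l}) y := by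
    intro y hy
    exact mem_algebraicClosure_iff.1 hy
  have hlK : l ∈ K := by
    refine mem_algebraicClosure_iff.2 ?_
    exact isAlgebraic_algebraMap (⟨l, IntermediateField.mem_adjoin_simple_self k l⟩ :
      IntermediateField.adjoin k {l})
  have hKc : IsAlgClosed K := by
    have : IsAlgClosed (algebraicClosure (IntermediateField.adjoin k {l}) 𝕂) :=
      IsAlgClosure.isAlgClosed (IntermediateField.adjoin k {l})
    exact this
  obtain ⟨c1, c2, c3, c4⟩ := l1 h2 f g P hP hg t ht htt s hs l hl K hKa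
  have hlt : Transcendental k (⟨l, hlK⟩ : K) := by
    intro h
    exact c1 (h.algebraMap (A := 𝕂))
  have hKl : ∀ y : K, IsAlgebraic (IntermediateField.adjoin k {(⟨l, hlK⟩ : K)}) y := fun y =>
    ld_ex_sub K ⟨l, hlK⟩ y (hKa _ y.2)
  have hD := dpu_gen f g hR K ⟨l, hlK⟩ hlt hKl
  have hae : ∀ p : MvPolynomial (Fin 2) k, MvPolynomial.aeval (fun i => algebraMap E 𝕂 (P i)) p =
      algebraMap E 𝕂 (MvPolynomial.aeval P p) := fun p => MvPolynomial.aeval_algebraMap_apply 𝕂 P p
  obtain ⟨X, W, θ, d1, d2, d3, d4⟩ := l2 f g hg (⟨l, hlK⟩ : K) hD (fun i => algebraMap E 𝕂 (P i))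
    c2 s (by
      rw [hae, hae, ← ht, map_mul]
      have : algebraMap K 𝕂 ⟨l, hlK⟩ = l := rfl
      rw [this, hl]
      ring)
  obtain ⟨N, Nw, D, q, qw, hN⟩ := l3 f g hg (⟨l, hlK⟩ : K) X W θ d1 d2
    (fun i => algebraMap E 𝕂 (P i)) s d3 d4
  have hgP : MvPolynomial.aeval P g ≠ 0 := by
    intro h
    apply hg
    exact hP (by rw [h, map_zero])
  refine l4 h2 f g P hgP t htt s hs halg (⟨l, hlK⟩ : K) rfl hKl c4 N Nw D q qw ⟨0, ?_⟩ hN
  intro y hy
  have h5 := c2.transcendental 0
  apply h5
  rw [← hy]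
  exact isAlgebraic_algebraMap y

theorem ld_ex {k E : Type u} [Field k] [Field E] [IsAlgClosed E] [Algebra k E] (h2 : (2 : k) ≠ 0)
    (f g : MvPolynomial (Fin 2) k) (hg : g ≠ 0) (P : Fin 2 → E) (hP : AlgebraicIndependent k P)
    (t : E) (ht : t * MvPolynomial.aeval P g = MvPolynomial.aeval P f)
    (htt : Transcendental k t)
    (hR : DPU f g (AlgebraicClosure (RatFunc k))
      (algebraMap (RatFunc k) (AlgebraicClosure (RatFunc k)) RatFunc.X)) :
    ∃ (κ L : Type u) (_ : Field κ) (_ : Field L) (_ : Algebra E κ) (_ : Algebra κ L)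
      (_ : Algebra E L) (_ : IsScalarTower E κ L) (s : κ) (τ : L) (x : Fin 2 → L) (w : L)
      (q : Fin 2 → κ) (qw : κ),
      LD (MvPolynomial.map (algebraMap k E) f) (MvPolynomial.map (algebraMap k E) g) t P s τ x w
        q qw {Q | ∀ i, Q i ∈ Acl k t} := by
  have : IsScalarTower k E (AlgebraicClosure (RatFunc E)) := IsScalarTower.of_algebraMap_eq' rfl
  refine ld_ex_core (𝕂 := AlgebraicClosure (RatFunc E)) h2 f g hg P hP t ht htt hR
    (algebraMap (RatFunc E) (AlgebraicClosure (RatFunc E)) RatFunc.X) ?_ ld_ex_alg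
  intro h
  exact RatFunc.transcendental_X (isAlgebraic_algebraMap_iff
    (algebraMap (RatFunc E) (AlgebraicClosure (RatFunc E))).injective |>.1 h)

end

end Pool.Agent.RDP

end
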