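import Pool.Agent.RDM.Rd
import Pool.Agent.RDM.Len
import Pool.Agent.RDM.A1
import Pool.Agent.RDM.Dv
import Pool.Agent.RDM.A2
import Pool.Agent.RDM.Lc
import Pool.Agent.RDM.A4

/-!
# Curves on the double planes
-/

set_option autoImplicit false

section


namespace Pool.Agent.RDP

universe u v w

section

private theorem sfirr_poly {R : Type u} [CommRing R] [IsDomain R] [UniqueFactorizationMonoid R]
    (a g : R) (hg : g ≠ 0) (hc : ∀ c : R, c ∣ g → c ∣ a → IsUnit c)
    (hsq : ∀ b c e : R, IsUnit e → g = b ^ 2 * e → a = c ^ 2 * e → False) :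
    Irreducible (Polynomial.C g * Polynomial.X ^ 2 - Polynomial.C a : Polynomial R) := by
  have hdeg : (Polynomial.C g * Polynomial.X ^ 2 - Polynomial.C a : Polynomial R).natDegree = 2 := by
    compute_degree!
  have hk2 : (Polynomial.C g * Polynomial.X ^ 2 - Polynomial.C a : Polynomial R).coeff 2 = g := by
    simp [Polynomial.coeff_C]
  have hk1 : (Polynomial.C g * Polynomial.X ^ 2 - Polynomial.C a : Polynomial R).coeff 1 = 0 := by
    simp [Polynomial.coeff_C, Polynomial.coeff_X_pow]
  have hk0 : (Polynomial.C g * Polynomial.X ^ 2 - Polynomial.C a : Polynomial R).coeff 0 = - a := by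
    simp [Polynomial.coeff_C]
  have hu : ∀ u : Polynomial R, u.natDegree = 0 →
      u ∣ (Polynomial.C g * Polynomial.X ^ 2 - Polynomial.C a : Polynomial R) → IsUnit u := by
    intro u h0 hd
    rw [Polynomial.eq_C_of_natDegree_eq_zero h0] at hd ⊢
    rw [Polynomial.C_dvd_iff_dvd_coeff] at hd
    have h2 := hd 2
    have h3 := hd 0
    rw [hk2] at h2
    rw [hk0] at h3
    exact (hc _ h2 ((dvd_neg).1 h3)).map Polynomial.C
  refine ⟨?_, ?_⟩
  · intro h
    have := Polynomial.natDegree_eq_zero_of_isUnit h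
    rw [hdeg] at this
    exact absurd this (by norm_num)
  · intro u v huv
    have hne : (Polynomial.C g * Polynomial.X ^ 2 - Polynomial.C a : Polynomial R) ≠ 0 := by
      intro h
      rw [h] at hdeg
      simp at hdeg
    have hu0 : u ≠ 0 := by
      rintro rfl
      exact hne (by rw [huv, zero_mul])
    have hv0 : v ≠ 0 := by
      rintro rfl
      exact hne (by rw [huv, mul_zero])
    have hs : u.natDegree + v.natDegree = 2 := by
      rw [← Polynomial.natDegree_mul hu0 hv0, ← huv, hdeg]
    rcases Nat.eq_zero_or_pos u.natDegree with h1 | h1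
    · left
      exact hu u h1 ⟨v, huv⟩
    rcases Nat.eq_zero_or_pos v.natDegree with h2 | h2
    · right
      exact hu v h2 ⟨u, by rw [huv, mul_comm]⟩
    exfalso
    obtain ⟨b₁, c₁, rfl⟩ := Polynomial.exists_eq_X_add_C_of_natDegree_le_one
      (p := u) (by omega)
    obtain ⟨b₂, c₂, rfl⟩ := Polynomial.exists_eq_X_add_C_of_natDegree_le_one
      (p := v) (by omega)
    have hex : (Polynomial.C b₁ * Polynomial.X + Polynomial.C c₁) *
        (Polynomial.C b₂ * Polynomial.X + Polynomial.C c₂) =
        Polynomial.C (b₁ * b₂) * Polynomial.X ^ 2 + Polynomial.C (b₁ * c₂ + c₁ * b₂) * Polynomial.X +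
          Polynomial.C (c₁ * c₂) := by
      simp only [map_mul, map_add]
      ring
    rw [hex] at huv
    have e2 : g = b₁ * b₂ := by
      have := congrArg (fun q => Polynomial.coeff q 2) huv
      simp only [hk2] at this
      rw [this]
      simp [Polynomial.coeff_C, Polynomial.coeff_X, -map_mul, -map_add]
    have e1 : b₁ * c₂ + c₁ * b₂ = 0 := by
      have := congrArg (fun q => Polynomial.coeff q 1) huv
      simp only [hk1] at this
      rw [this]
      simp [Polynomial.coeff_C, Polynomial.coeff_X_pow, -map_mul, -map_add]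
    have e0 : - a = c₁ * c₂ := by
      have := congrArg (fun q => Polynomial.coeff q 0) huv
      simp only [hk0] at this
      rw [this]
      simp [-map_mul, -map_add]
    have r1 : IsRelPrime b₁ c₁ := by
      intro d hd1 hd2
      exact hc d (e2 ▸ hd1.mul_right _) ((dvd_neg).1 (e0 ▸ hd2.mul_right _))
    have r2 : IsRelPrime b₂ c₂ := by
      intro d hd1 hd2
      exact hc d (e2 ▸ hd1.mul_left _) ((dvd_neg).1 (e0 ▸ hd2.mul_left _))
    have d1 : b₁ ∣ b₂ := by
      exact r1.dvd_of_dvd_mul_left ⟨- c₂, by linear_combination e1⟩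
    have d2 : b₂ ∣ b₁ := by
      exact r2.dvd_of_dvd_mul_right ⟨- c₁, by linear_combination e1⟩
    obtain ⟨e, he⟩ := associated_of_dvd_dvd d1 d2
    have hb1 : b₁ ≠ 0 := by
      rintro rfl
      exact hg (by rw [e2, zero_mul])
    have hc2 : c₂ = - (c₁ * e) := by
      apply mul_left_cancel₀ hb1
      rw [← he] at e1
      linear_combination e1
    refine hsq b₁ c₁ e e.isUnit ?_ ?_
    · rw [e2, ← he]
      ring
    · have : a = - (c₁ * c₂) := by rw [← e0, neg_neg]
      rw [this, hc2]
      ring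

theorem sfirr {E : Type u} [Field E] [IsAlgClosed E] (a g : MvPolynomial (Fin 2) E) (hg : g ≠ 0)
    (ha : a ≠ 0) (hc : ∀ d : MvPolynomial (Fin 2) E, Irreducible d → d ∣ g → ¬ d ∣ a)
    (hsq : ¬ ∃ h₁ h₂ : MvPolynomial (Fin 2) E, a = h₁ ^ 2 ∧ g = h₂ ^ 2) :
    Irreducible (MvPolynomial.rename Fin.castSucc g * MvPolynomial.X 2 ^ 2 -
      MvPolynomial.rename Fin.castSucc a : MvPolynomial (Fin 3) E) := by
  classical
  have hrel : ∀ c : MvPolynomial (Fin 2) E, c ∣ g → c ∣ a → IsUnit c := by
    intro c h1 h2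
    by_contra hcu
    have hc0 : c ≠ 0 := by
      rintro rfl
      exact hg (zero_dvd_iff.1 h1)
    obtain ⟨d, hd, hdc⟩ := WfDvdMonoid.exists_irreducible_factor hcu hc0
    exact hc d hd (hdc.trans h1) (hdc.trans h2)
  have hirr := sfirr_poly a g hg hrel (by
    intro b c e he h1 h2
    obtain ⟨r, hr, rfl⟩ := MvPolynomial.isUnit_iff_eq_C_of_isReduced.1 he
    obtain ⟨s, hs⟩ := IsAlgClosed.exists_pow_nat_eq r (n := 2) (by norm_num)
    refine hsq ⟨c * MvPolynomial.C s, b * MvPolynomial.C s, ?_, ?_⟩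
    · rw [h2, ← hs, map_pow]
      ring
    · rw [h1, ← hs, map_pow]
      ring)
  let φ : MvPolynomial (Fin 3) E ≃ₐ[E] Polynomial (MvPolynomial (Fin 2) E) :=
    (MvPolynomial.renameEquiv E (finRotate 3)).trans (MvPolynomial.finSuccEquiv E 2)
  have hr : ∀ i : Fin 2, finRotate 3 (Fin.castSucc i) = Fin.succ i := by decide
  have hφc : ∀ q : MvPolynomial (Fin 2) E, φ (MvPolynomial.rename Fin.castSucc q) =
      Polynomial.C q := by
    intro q
    induction q using MvPolynomial.induction_on with
    | C r =>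
      simp only [MvPolynomial.algHom_C, φ]
      rw [← MvPolynomial.algebraMap_eq, AlgEquiv.commutes]
      rfl
    | add p q hp hq => rw [map_add, map_add, hp, hq, map_add]
    | mul_X p i hp =>
      rw [map_mul, map_mul, hp, map_mul, MvPolynomial.rename_X]
      congr 1
      simp only [φ, AlgEquiv.trans_apply, MvPolynomial.renameEquiv_apply, MvPolynomial.rename_X]
      rw [hr, MvPolynomial.finSuccEquiv_X_succ]
  have hφX : φ (MvPolynomial.X 2) = Polynomial.X := by
    simp only [φ, AlgEquiv.trans_apply, MvPolynomial.renameEquiv_apply, MvPolynomial.rename_X]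
    have : finRotate 3 2 = 0 := by decide
    rw [this, MvPolynomial.finSuccEquiv_X_zero]
  rw [← MulEquiv.irreducible_iff φ.toMulEquiv]
  have hfin : φ.toMulEquiv (MvPolynomial.rename Fin.castSucc g * MvPolynomial.X 2 ^ 2 -
      MvPolynomial.rename Fin.castSucc a : MvPolynomial (Fin 3) E) =
      Polynomial.C g * Polynomial.X ^ 2 - Polynomial.C a := by
    change φ _ = _
    rw [map_sub, map_mul, map_pow, hφc, hφX, hφc]
  rw [hfin]
  exact hirr

end

end Pool.Agent.RDP

end

section


namespace Pool.Agent.RDP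

universe u v w

section

private theorem sq_T {k E : Type u} [Field k] [Field E] [Algebra k E]
    (f g : MvPolynomial (Fin 2) k) (t : E) (h0 : ∀ c : k, algebraMap k E c ≠ t) (m : Fin 2 →₀ ℕ)
    (h : (MvPolynomial.map (algebraMap k E) f).coeff m =
      t * (MvPolynomial.map (algebraMap k E) g).coeff m) :
    (MvPolynomial.map (algebraMap k E) g).coeff m = 0 := by
  by_contra hne
  rw [MvPolynomial.coeff_map, MvPolynomial.coeff_map] at h
  rw [MvPolynomial.coeff_map] at hne
  apply h0 (f.coeff m / g.coeff m)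
  rw [map_div₀, h, mul_div_assoc, div_self hne, mul_one]

private theorem sq_const {E : Type u} [Field E] (c : E) :
    ¬ Irreducible (MvPolynomial.C c : MvPolynomial (Fin 2) E) := by
  intro h
  have hc : c ≠ 0 := by
    rintro rfl
    exact h.ne_zero (map_zero _)
  exact h.not_isUnit ((isUnit_iff_ne_zero.2 hc).map MvPolynomial.C)

private theorem sq_cop {k E : Type u} [Field k] [Field E] [Algebra k E]
    (f g : MvPolynomial (Fin 2) k) (P : Fin 2 → E) (hP : AlgebraicIndependent k P) (hg : g ≠ 0)
    (t : E) (ht : t * MvPolynomial.aeval P g = MvPolynomial.aeval P f)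
    (h0 : ∀ c : k, algebraMap k E c ≠ t)
    (hG : Irreducible (MvPolynomial.map (algebraMap k E) f -
      MvPolynomial.C t * MvPolynomial.map (algebraMap k E) g))
    (d : MvPolynomial (Fin 2) E) (hd : Irreducible d)
    (hdg : d ∣ MvPolynomial.map (algebraMap k E) g)
    (hdf : d ∣ MvPolynomial.map (algebraMap k E) f) : False := by
  have hinj : Function.Injective (MvPolynomial.map (σ := Fin 2) (algebraMap k E)) :=
    MvPolynomial.map_injective _ (algebraMap k E).injective
  have hPg : MvPolynomial.aeval P g ≠ 0 := fun h => hg ((algebraicIndependent_iff.1 hP) g h)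
  have hGg0 : MvPolynomial.map (algebraMap k E) g ≠ 0 := by
    intro h
    exact hg (hinj (by rw [h, map_zero]))
  have hTc := sq_T f g t h0
  have hFe : ∀ c : k, MvPolynomial.map (algebraMap k E) f =
      MvPolynomial.C (algebraMap k E c) * MvPolynomial.map (algebraMap k E) g → False := by
    intro c hc
    have h1 : f = MvPolynomial.C c * g := by
      apply hinj
      rw [hc, map_mul, MvPolynomial.map_C]
    have h2 : MvPolynomial.aeval P f = algebraMap k E c * MvPolynomial.aeval P g := by
      rw [h1, map_mul, MvPolynomial.aeval_C]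
    rw [h2] at ht
    exact h0 c (mul_right_cancel₀ hPg ht).symm
  have hFc : ∀ n, (MvPolynomial.map (algebraMap k E) f).coeff n = algebraMap k E (f.coeff n) :=
    fun n => MvPolynomial.coeff_map _ _ _
  have hGc : ∀ n, (MvPolynomial.map (algebraMap k E) g).coeff n = algebraMap k E (g.coeff n) :=
    fun n => MvPolynomial.coeff_map _ _ _
  generalize MvPolynomial.map (algebraMap k E) f = F at *
  generalize hGg : MvPolynomial.map (algebraMap k E) g = Gg at *
  have hdG : d ∣ F - MvPolynomial.C t * Gg := dvd_sub hdf (hdg.mul_left _)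
  have hass := hd.associated_of_dvd hG hdG
  obtain ⟨f₁, hf₁⟩ := hass.symm.dvd.trans hdf
  obtain ⟨g₁, hg₁⟩ := hass.symm.dvd.trans hdg
  have ht0 : t ≠ 0 := by
    intro h
    exact h0 0 (by rw [map_zero, h])
  have hf1 : f₁ = MvPolynomial.C t * g₁ + 1 := by
    apply mul_left_cancel₀ hG.ne_zero
    rw [← hf₁, mul_add, mul_one, mul_left_comm, ← hg₁]
    ring
  have hg1 : g₁ ≠ 0 := by
    rintro rfl
    exact hGg0 (by rw [hg₁, mul_zero])
  let m : MonomialOrder (Fin 2) := MonomialOrder.lex
  by_cases hdeg : m.degree g₁ = 0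
  · obtain ⟨γ, hγ⟩ : ∃ γ : E, g₁ = MvPolynomial.C γ := ⟨_, m.eq_C_of_degree_eq_zero hdeg⟩
    have hγ0 : γ ≠ 0 := by
      rintro rfl
      exact hg1 (by rw [hγ, map_zero])
    have hFG : F = MvPolynomial.C (γ⁻¹ + t) * Gg := by
      have h3 : MvPolynomial.C γ⁻¹ * Gg = F - MvPolynomial.C t * Gg := by
        conv_lhs => rw [hg₁, hγ, mul_comm, mul_assoc, ← map_mul, mul_inv_cancel₀ hγ0, map_one,
          mul_one]
      rw [map_add, add_mul, h3]
      ring
    obtain ⟨n, hn⟩ : ∃ n, Gg.coeff n ≠ 0 := by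
      by_contra hcon
      push Not at hcon
      exact hGg0 (MvPolynomial.ext _ _ (fun n => by rw [hcon n, MvPolynomial.coeff_zero]))
    have hc0 : γ⁻¹ + t = algebraMap k E (f.coeff n / g.coeff n) := by
      have h4 : F.coeff n = (γ⁻¹ + t) * Gg.coeff n := by
        rw [hFG, MvPolynomial.coeff_C_mul]
      rw [map_div₀, ← hFc n, h4, ← hGc n, mul_div_assoc, div_self hn, mul_one]
    rw [hc0] at hFG
    exact hFe _ hFG
  · have hlt : m.toSyn (m.degree (1 : MvPolynomial (Fin 2) E)) <
        m.toSyn (m.degree (MvPolynomial.C t * g₁)) := by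
      have h5 : m.degree (MvPolynomial.C t * g₁) = m.degree g₁ := by
        rw [m.degree_mul (by rwa [Ne, MvPolynomial.C_eq_zero]) hg1, m.degree_C, zero_add]
      rw [h5, m.degree_one, map_zero, lt_iff_le_and_ne]
      refine ⟨m.zero_le _, fun h => hdeg ?_⟩
      apply m.toSyn.injective
      rw [← h, map_zero]
    have hdf1 : m.degree f₁ = m.degree g₁ := by
      rw [hf1, m.degree_add_of_lt hlt, m.degree_mul (by rwa [Ne, MvPolynomial.C_eq_zero]) hg1,
        m.degree_C, zero_add]
    have hf10 : f₁ ≠ 0 := by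
      rintro rfl
      rw [m.degree_zero] at hdf1
      exact hdeg hdf1.symm
    have hlc1 : m.leadingCoeff f₁ = t * m.leadingCoeff g₁ := by
      rw [hf1, m.leadingCoeff_add_of_lt hlt, m.leadingCoeff_mul, m.leadingCoeff_C]
    have hdeq : m.degree F = m.degree Gg := by
      rw [hf₁, m.degree_mul hG.ne_zero hf10, hdf1, ← m.degree_mul hG.ne_zero hg1, ← hg₁]
    have hlc : m.leadingCoeff F = t * m.leadingCoeff Gg := by
      conv_lhs => rw [hf₁]
      conv_rhs => rw [hg₁]
      rw [m.leadingCoeff_mul, m.leadingCoeff_mul, hlc1]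
      ring
    have h6 := hTc (m.degree Gg) (by
      have h7 : F.coeff (m.degree F) = t * Gg.coeff (m.degree Gg) := hlc
      rwa [hdeq] at h7)
    exact hGg0 (m.coeff_degree_eq_zero_iff.1 h6)

theorem sq {k E : Type u} [Field k] [Field E] [IsAlgClosed E] [Algebra k E]
    (f g : MvPolynomial (Fin 2) k) (P : Fin 2 → E) (hP : AlgebraicIndependent k P) (hg : g ≠ 0)
    (t : E) (ht : t * MvPolynomial.aeval P g = MvPolynomial.aeval P f)
    (hG : Irreducible (MvPolynomial.map (algebraMap k E) f -
      MvPolynomial.C t * MvPolynomial.map (algebraMap k E) g)) (l : E) :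
    Irreducible (sf (MvPolynomial.map (algebraMap k E) f) (MvPolynomial.map (algebraMap k E) g) l)
      ∧ ∀ d : MvPolynomial (Fin 2) E, Irreducible d → d ∣ MvPolynomial.map (algebraMap k E) g →
        ¬ d ∣ MvPolynomial.map (algebraMap k E) f := by
  have hinj : Function.Injective (MvPolynomial.map (σ := Fin 2) (algebraMap k E)) :=
    MvPolynomial.map_injective _ (algebraMap k E).injective
  have h0 : ∀ c : k, algebraMap k E c ≠ t := by
    intro c hc
    have h1 : MvPolynomial.aeval P (f - MvPolynomial.C c * g) = 0 := by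
      rw [map_sub, map_mul, MvPolynomial.aeval_C, hc, ht, sub_self]
    have h2 : f - MvPolynomial.C c * g = 0 := (algebraicIndependent_iff.1 hP) _ h1
    apply hG.ne_zero
    rw [sub_eq_zero.1 h2, map_mul, MvPolynomial.map_C, hc, sub_self]
  have hcop := sq_cop f g P hP hg t ht h0 hG
  refine ⟨?_, hcop⟩
  have hGg0 : MvPolynomial.map (algebraMap k E) g ≠ 0 := by
    intro h
    exact hg (hinj (by rw [h, map_zero]))
  have hTc := sq_T f g t h0
  unfold sf
  generalize MvPolynomial.map (algebraMap k E) f = F at *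
  generalize MvPolynomial.map (algebraMap k E) g = Gg at *
  refine sfirr _ _ hGg0 ?_ ?_ ?_
  · intro ha
    have hF : F = MvPolynomial.C l * Gg := sub_eq_zero.1 ha
    have hGe : F - MvPolynomial.C t * Gg = MvPolynomial.C (l - t) * Gg := by
      rw [hF, map_sub]
      ring
    have hlt : l - t ≠ 0 := by
      intro h
      apply hG.ne_zero
      rw [hGe, h, map_zero, zero_mul]
    have hdv : F - MvPolynomial.C t * Gg ∣ Gg := by
      refine ⟨MvPolynomial.C (l - t)⁻¹, ?_⟩
      rw [hGe, mul_comm, ← mul_assoc, ← map_mul, inv_mul_cancel₀ hlt, map_one, one_mul]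
    refine hcop _ hG hdv ?_
    rw [hF] at hdv ⊢
    exact hdv.mul_left _
  · intro d hd hdg hda
    refine hcop d hd hdg ?_
    have h3 := dvd_add hda (hdg.mul_left (MvPolynomial.C l))
    rwa [sub_add_cancel] at h3
  · rintro ⟨h₁, h₂, ha, hgs⟩
    obtain ⟨s, hs⟩ := IsAlgClosed.exists_pow_nat_eq (t - l) (n := 2) (by norm_num)
    have hprod : F - MvPolynomial.C t * Gg = (h₁ - MvPolynomial.C s * h₂) *
        (h₁ + MvPolynomial.C s * h₂) := by
      have h4 : MvPolynomial.C t = MvPolynomial.C (σ := Fin 2) s ^ 2 + MvPolynomial.C l := by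
        rw [← map_pow, hs, ← map_add]
        congr 1
        ring
      have h5 : F = h₁ ^ 2 + MvPolynomial.C l * Gg := by
        rw [← ha]
        ring
      rw [h5, h4, hgs]
      ring
    obtain ⟨c, s', hs', hh⟩ : ∃ c s' : E, s' ^ 2 = t - l ∧
        h₁ = MvPolynomial.C c + MvPolynomial.C s' * h₂ := by
      rcases hG.isUnit_or_isUnit hprod with hu | hu
      · obtain ⟨c, -, hc⟩ := MvPolynomial.isUnit_iff_eq_C_of_isReduced.1 hu
        exact ⟨c, s, hs, by rw [← hc]; ring⟩
      · obtain ⟨c, -, hc⟩ := MvPolynomial.isUnit_iff_eq_C_of_isReduced.1 hu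
        refine ⟨c, - s, by rw [neg_sq, hs], ?_⟩
        rw [← hc, map_neg]
        ring
    have hF : F = MvPolynomial.C (c ^ 2) + MvPolynomial.C (2 * c * s') * h₂ +
        MvPolynomial.C t * Gg := by
      have h5 : F = h₁ ^ 2 + MvPolynomial.C l * Gg := by
        rw [← ha]
        ring
      have h4 : MvPolynomial.C t = MvPolynomial.C (σ := Fin 2) s' ^ 2 + MvPolynomial.C l := by
        rw [← map_pow, hs', ← map_add]
        congr 1
        ring
      have h6 : (MvPolynomial.C (2 * c * s') : MvPolynomial (Fin 2) E) =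
          2 * MvPolynomial.C c * MvPolynomial.C s' := by
        rw [map_mul, map_mul]
        congr 2
      rw [h5, h4, h6, hgs, hh, map_pow]
      ring
    let m : MonomialOrder (Fin 2) := MonomialOrder.lex
    by_cases hdeg : m.degree h₂ = 0
    · obtain ⟨b, hb⟩ : ∃ b : E, h₂ = MvPolynomial.C b := ⟨_, m.eq_C_of_degree_eq_zero hdeg⟩
      apply sq_const (c ^ 2 + 2 * c * s' * b)
      have h7 : F - MvPolynomial.C t * Gg = MvPolynomial.C (c ^ 2 + 2 * c * s' * b) := by
        rw [hF, hb, map_add (MvPolynomial.C), map_mul _ (2 * c * s') b]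
        ring
      rw [← h7]
      exact hG
    · have h20 : h₂ ≠ 0 := by
        rintro rfl
        exact hGg0 (by rw [hgs]; ring)
      have hdG : m.degree Gg = m.degree h₂ + m.degree h₂ := by
        rw [hgs, pow_two, m.degree_mul h20 h20]
      have hpos : 0 < m.toSyn (m.degree h₂) := by
        rw [lt_iff_le_and_ne]
        refine ⟨m.zero_le _, fun h => hdeg ?_⟩
        apply m.toSyn.injective
        rw [← h, map_zero]
      have hlt2 : m.toSyn (m.degree h₂) < m.toSyn (m.degree Gg) := by
        rw [hdG, map_add]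
        exact lt_add_of_pos_left _ hpos
      have hne0 : m.degree Gg ≠ 0 := by
        intro h
        rw [h, map_zero] at hlt2
        exact absurd (hpos.trans hlt2) (lt_irrefl _)
      have h8 := hTc (m.degree Gg) (by
        conv_lhs => rw [hF]
        rw [MvPolynomial.coeff_add, MvPolynomial.coeff_add, MvPolynomial.coeff_C_mul,
          MvPolynomial.coeff_C_mul, m.coeff_eq_zero_of_lt hlt2, MvPolynomial.coeff_C,
          if_neg (Ne.symm hne0), mul_zero, add_zero, zero_add])
      exact hGg0 (m.coeff_degree_eq_zero_iff.1 h8)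

end

end Pool.Agent.RDP

end

section


namespace Pool.Agent.RDP

universe u v w

section

theorem oJ_q {E : Type u} [Field E] (F : MvPolynomial (Fin 3) E)
    (p : Ideal (MvPolynomial (Fin 3) E ⧸ Ideal.span {F})) [p.IsPrime]
    (J : Ideal (MvPolynomial (Fin 3) E)) [J.IsPrime]
    (hJ : J = p.comap (Ideal.Quotient.mk (Ideal.span {F}))) (a : MvPolynomial (Fin 3) E) :
    oJ F J a = len p ((MvPolynomial (Fin 3) E ⧸ Ideal.span {F}) ⧸
      Ideal.span {Ideal.Quotient.mk (Ideal.span {F}) a}) := by
  have hs : Function.Surjective (algebraMap (MvPolynomial (Fin 3) E)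
      (MvPolynomial (Fin 3) E ⧸ Ideal.span {F})) := Ideal.Quotient.mk_surjective
  have h1 := len_surj hs p J hJ ((MvPolynomial (Fin 3) E ⧸ Ideal.span {F}) ⧸
      Ideal.span {Ideal.Quotient.mk (Ideal.span {F}) a})
  rw [← h1]
  unfold oJ
  apply len_equiv
  have e1 : Ideal.span {F, a} = Ideal.span {F} ⊔ Ideal.span {a} := Ideal.span_insert F {a}
  have e2 : Ideal.span {Ideal.Quotient.mk (Ideal.span {F}) a} =
      (Ideal.span {a}).map (Ideal.Quotient.mkₐ (MvPolynomial (Fin 3) E) (Ideal.span {F})) := by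
    rw [Ideal.map_span, Set.image_singleton]
    rfl
  exact ((Ideal.quotientEquivAlgOfEq (MvPolynomial (Fin 3) E) e1).trans
    (DoubleQuot.quotQuotEquivQuotSupₐ (MvPolynomial (Fin 3) E) (Ideal.span {F}) (Ideal.span {a})).symm).toLinearEquiv.trans
    ((Ideal.quotientEquivAlgOfEq (MvPolynomial (Fin 3) E ⧸ Ideal.span {F}) e2.symm).toLinearEquiv.restrictScalars
      (MvPolynomial (Fin 3) E))

end

end Pool.Agent.RDP

end

section


namespace Pool.Agent.RDP

universe u v w

section

open Polynomial in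
private theorem cu_al_red {R : Type u} [CommRing R] (g c : R) (a : Polynomial R) :
    ∃ (m : ℕ) (p q : R) (s : Polynomial R),
      C g ^ m * a = C p + C q * X + s * (C g * X ^ 2 - C c) := by
  induction a using Polynomial.induction_on' with
  | add a b ha hb =>
    obtain ⟨m, p, q, s, h⟩ := ha
    obtain ⟨m', p', q', s', h'⟩ := hb
    refine ⟨m + m', g ^ m' * p + g ^ m * p', g ^ m' * q + g ^ m * q',
      C g ^ m' * s + C g ^ m * s', ?_⟩
    have e : C g ^ (m + m') * (a + b) = C g ^ m' * (C g ^ m * a) + C g ^ m * (C g ^ m' * b) := by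
      ring
    rw [e, h, h']
    simp only [map_add, map_mul, map_pow]
    ring
  | monomial n r =>
    have key : ∀ n : ℕ, ∃ (m : ℕ) (p q : R) (s : Polynomial R),
        C g ^ m * X ^ n = C p + C q * X + s * (C g * X ^ 2 - C c) := by
      intro n
      induction n with
      | zero => exact ⟨0, 1, 0, 0, by simp⟩
      | succ n ih =>
        obtain ⟨m, p, q, s, h⟩ := ih
        refine ⟨m + 1, q * c, g * p, C q + C g * s * X, ?_⟩
        have e : C g ^ (m + 1) * X ^ (n + 1) = C g * X * (C g ^ m * X ^ n) := by ring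
        rw [e, h]
        simp only [map_mul]
        ring
    obtain ⟨m, p, q, s, h⟩ := key n
    refine ⟨m, r * p, r * q, C r * s, ?_⟩
    have e : C g ^ m * monomial n r = C r * (C g ^ m * X ^ n) := by
      rw [← C_mul_X_pow_eq_monomial]
      ring
    rw [e, h]
    simp only [map_mul]
    ring

open Polynomial in
/-- the main argument, over a domain -/
private theorem cu_al_main {R : Type u} [CommRing R] [IsDomain R] (g c : R) (hg : g ≠ 0)
    (hF : Prime (C g * X ^ 2 - C c : Polynomial R)) (J : Ideal (Polynomial R))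
    (hm : C g * X ^ 2 - C c ∈ J) (a : Polynomial R) (ha : a ∈ J)
    (hFa : ¬ (C g * X ^ 2 - C c : Polynomial R) ∣ a) : ∃ h : R, h ≠ 0 ∧ C h ∈ J := by
  have hdeg : (C g * X ^ 2 - C c : Polynomial R).natDegree = 2 := by
    rw [natDegree_sub_C, natDegree_C_mul_X_pow 2 g hg]
  have hnd : ∀ b : Polynomial R, b ≠ 0 → b.natDegree < 2 →
      ¬ (C g * X ^ 2 - C c : Polynomial R) ∣ b := by
    intro b hb hb2 h
    have := natDegree_le_of_dvd h hb
    omega
  have hlin : ∀ p q : R, (C p + C q * X : Polynomial R).natDegree < 2 := by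
    intro p q
    have h1 : (C q * X + C p : Polynomial R).natDegree ≤ 1 := natDegree_linear_le
    rw [add_comm]
    omega
  obtain ⟨m, p, q, s, h⟩ := cu_al_red g c a
  have hpq : (C p + C q * X : Polynomial R) ≠ 0 := by
    intro h0
    rw [h0, zero_add] at h
    have h1 : (C g * X ^ 2 - C c : Polynomial R) ∣ C g ^ m * a := ⟨s, by rw [h, mul_comm]⟩
    rcases hF.dvd_or_dvd h1 with h2 | h2
    · have h3 := hF.dvd_of_dvd_pow h2
      exact hnd (C g) (by rwa [Ne, C_eq_zero]) (by rw [natDegree_C]; omega) h3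
    · exact hFa h2
  have hpq' : (C p - C q * X : Polynomial R) ≠ 0 := by
    intro h0
    apply hpq
    have h1 : p = 0 := by
      have := congrArg (fun b => coeff b 0) h0
      simpa using this
    have h2 : q = 0 := by
      have := congrArg (fun b => coeff b 1) h0
      simpa [h1, coeff_C] using this
    rw [h1, h2]
    simp
  have hJ1 : (C p + C q * X : Polynomial R) ∈ J := by
    have e : (C p + C q * X : Polynomial R) = C g ^ m * a - s * (C g * X ^ 2 - C c) := by
      rw [h]
      ring
    rw [e]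
    exact sub_mem (J.mul_mem_left _ ha) (J.mul_mem_left _ hm)
  refine ⟨g * p ^ 2 - q ^ 2 * c, ?_, ?_⟩
  · intro h0
    have e : C g * ((C p + C q * X) * (C p - C q * X)) =
        C (g * p ^ 2 - q ^ 2 * c) - C q ^ 2 * (C g * X ^ 2 - C c) := by
      simp only [map_sub, map_mul, map_pow]
      ring
    rw [h0, map_zero, zero_sub] at e
    have h1 : (C g * X ^ 2 - C c : Polynomial R) ∣ C g * ((C p + C q * X) * (C p - C q * X)) := by
      rw [e]
      exact (Dvd.intro_left _ rfl).neg_right
    rcases hF.dvd_or_dvd h1 with h2 | h2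
    · exact hnd (C g) (by rwa [Ne, C_eq_zero]) (by rw [natDegree_C]; omega) h2
    · rcases hF.dvd_or_dvd h2 with h3 | h3
      · exact hnd _ hpq (hlin p q) h3
      · have e2 : (C p - C q * X : Polynomial R) = C p + C (-q) * X := by
          rw [map_neg]
          ring
        rw [e2] at h3 hpq'
        exact hnd _ hpq' (hlin p (-q)) h3
  · have e : C (g * p ^ 2 - q ^ 2 * c) =
        C g * (C p - C q * X) * (C p + C q * X) + C q ^ 2 * (C g * X ^ 2 - C c) := by
      simp only [map_sub, map_mul, map_pow]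
      ring
    rw [e]
    exact add_mem (J.mul_mem_left _ hJ1) (J.mul_mem_left _ hm)

private theorem cu_al_gen {E : Type u} [Field E] (f g : MvPolynomial (Fin 2) E) (l : E)
    (hF : Irreducible (sf f g l)) (hg : g ≠ 0) (J : Ideal (MvPolynomial (Fin 3) E))
    (hm : sf f g l ∈ J) (a : MvPolynomial (Fin 3) E) (ha : a ∈ J) (hFa : ¬ sf f g l ∣ a) :
    ∃ h : MvPolynomial (Fin 2) E, h ≠ 0 ∧ MvPolynomial.rename Fin.castSucc h ∈ J := by
  let Φ : Polynomial (MvPolynomial (Fin 2) E) →+* MvPolynomial (Fin 3) E :=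
    Polynomial.eval₂RingHom (MvPolynomial.rename Fin.castSucc :
      MvPolynomial (Fin 2) E →ₐ[E] MvPolynomial (Fin 3) E).toRingHom (MvPolynomial.X 2)
  let Ψ : MvPolynomial (Fin 3) E →ₐ[E] Polynomial (MvPolynomial (Fin 2) E) :=
    MvPolynomial.aeval ![Polynomial.C (MvPolynomial.X 0), Polynomial.C (MvPolynomial.X 1),
      Polynomial.X]
  have hΦC : ∀ r, Φ (Polynomial.C r) = MvPolynomial.rename Fin.castSucc r := fun r =>
    Polynomial.eval₂_C _ _
  have hΦX : Φ Polynomial.X = MvPolynomial.X 2 := Polynomial.eval₂_X _ _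
  have hΨr : ∀ r : MvPolynomial (Fin 2) E, Ψ (MvPolynomial.rename Fin.castSucc r) =
      Polynomial.C r := by
    intro r
    induction r using MvPolynomial.induction_on with
    | C c =>
      rw [MvPolynomial.rename_C]
      change MvPolynomial.aeval _ (MvPolynomial.C c) = _
      rw [MvPolynomial.aeval_C]
      rfl
    | add p q hp hq => rw [map_add, map_add, hp, hq, map_add]
    | mul_X p i hp =>
      rw [map_mul, map_mul, hp, map_mul, MvPolynomial.rename_X]
      congr 1
      change MvPolynomial.aeval _ (MvPolynomial.X _) = _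
      rw [MvPolynomial.aeval_X]
      fin_cases i <;> rfl
  have hΦΨ : ∀ b, Φ (Ψ b) = b := by
    intro b
    induction b using MvPolynomial.induction_on with
    | C c =>
      change Φ (MvPolynomial.aeval _ (MvPolynomial.C c)) = _
      rw [MvPolynomial.aeval_C]
      change Φ (Polynomial.C (MvPolynomial.C c)) = _
      rw [hΦC, MvPolynomial.rename_C]
    | add p q hp hq => rw [map_add, map_add, hp, hq]
    | mul_X p i hp =>
      rw [map_mul, map_mul, hp]
      congr 1
      change Φ (MvPolynomial.aeval _ (MvPolynomial.X _)) = _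
      rw [MvPolynomial.aeval_X]
      fin_cases i
      · change Φ (Polynomial.C (MvPolynomial.X 0)) = _
        rw [hΦC, MvPolynomial.rename_X]
        rfl
      · change Φ (Polynomial.C (MvPolynomial.X 1)) = _
        rw [hΦC, MvPolynomial.rename_X]
        rfl
      · exact hΦX
  have hΨΦ : ∀ b, Ψ (Φ b) = b := by
    intro b
    have h1 : (Ψ : MvPolynomial (Fin 3) E →+* _).comp Φ = RingHom.id _ := by
      apply Polynomial.ringHom_ext
      · intro r
        change Ψ (Φ (Polynomial.C r)) = Polynomial.C r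
        rw [hΦC, hΨr]
      · change Ψ (Φ Polynomial.X) = Polynomial.X
        rw [hΦX]
        change MvPolynomial.aeval _ (MvPolynomial.X _) = _
        rw [MvPolynomial.aeval_X]
        rfl
    exact RingHom.congr_fun h1 b
  let e : Polynomial (MvPolynomial (Fin 2) E) ≃+* MvPolynomial (Fin 3) E :=
    { Φ with
      invFun := Ψ
      left_inv := hΨΦ
      right_inv := hΦΨ }
  set F' : Polynomial (MvPolynomial (Fin 2) E) :=
    Polynomial.C g * Polynomial.X ^ 2 - Polynomial.C (f - MvPolynomial.C l * g) with hF'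
  have hΦF : Φ F' = sf f g l := by
    rw [hF', map_sub, map_mul, map_pow, hΦC, hΦC, hΦX]
    rfl
  have hpr : Prime F' := by
    have h1 : Prime (e F') := by
      change Prime (Φ F')
      rw [hΦF]
      exact hF.prime
    exact (MulEquiv.prime_iff e.toMulEquiv).mp h1
  obtain ⟨h, h0, hh⟩ := cu_al_main g (f - MvPolynomial.C l * g) hg hpr (J.comap Φ) (by
      rw [Ideal.mem_comap]
      change Φ F' ∈ J
      rw [hΦF]
      exact hm) (Ψ a) (by
      rw [Ideal.mem_comap, hΦΨ]
      exact ha) (by
      intro hd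
      apply hFa
      have h1 := map_dvd Φ hd
      rw [hΦΨ] at h1
      change Φ F' ∣ a at h1
      rwa [hΦF] at h1)
  refine ⟨h, h0, ?_⟩
  rw [Ideal.mem_comap, hΦC] at hh
  exact hh

theorem cu_al {E : Type u} [Field E] (f g : MvPolynomial (Fin 2) E) (l : E)
    (hF : Irreducible (sf f g l)) (hg : g ≠ 0) (J : PrimeSpectrum (MvPolynomial (Fin 3) E))
    (hJ : Cu (sf f g l) J) :
    ∃ h : MvPolynomial (Fin 2) E, h ≠ 0 ∧ MvPolynomial.rename Fin.castSucc h ∈ J.asIdeal := by
  obtain ⟨a, ha, hFa⟩ : ∃ a ∈ J.asIdeal, ¬ sf f g l ∣ a := by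
    by_contra hcon
    push Not at hcon
    apply hJ.ne
    apply le_antisymm
    · intro a ha
      rw [Ideal.mem_span_singleton]
      exact hcon a ha
    · rw [Ideal.span_singleton_le_iff_mem]
      exact hJ.mem
  exact cu_al_gen f g l hF hg J.asIdeal hJ.mem a ha hFa

end

end Pool.Agent.RDP

end

section


namespace Pool.Agent.RDP

universe u v w

section

open Polynomial in
private theorem ker3_red {R : Type u} [CommRing R] (g c : R) (a : Polynomial R) :
    ∃ (m : ℕ) (p q : R) (s : Polynomial R),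
      C g ^ m * a = C p + C q * X + s * (C g * X ^ 2 - C c) := by
  induction a using Polynomial.induction_on' with
  | add a b ha hb =>
    obtain ⟨m, p, q, s, h⟩ := ha
    obtain ⟨m', p', q', s', h'⟩ := hb
    refine ⟨m + m', g ^ m' * p + g ^ m * p', g ^ m' * q + g ^ m * q',
      C g ^ m' * s + C g ^ m * s', ?_⟩
    have e : C g ^ (m + m') * (a + b) = C g ^ m' * (C g ^ m * a) + C g ^ m * (C g ^ m' * b) := by
      ring
    rw [e, h, h']
    simp only [map_add, map_mul, map_pow]
    ring
  | monomial n r =>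
    have key : ∀ n : ℕ, ∃ (m : ℕ) (p q : R) (s : Polynomial R),
        C g ^ m * X ^ n = C p + C q * X + s * (C g * X ^ 2 - C c) := by
      intro n
      induction n with
      | zero => exact ⟨0, 1, 0, 0, by simp⟩
      | succ n ih =>
        obtain ⟨m, p, q, s, h⟩ := ih
        refine ⟨m + 1, q * c, g * p, C q + C g * s * X, ?_⟩
        have e : C g ^ (m + 1) * X ^ (n + 1) = C g * X * (C g ^ m * X ^ n) := by ring
        rw [e, h]
        simp only [map_mul]
        ring
    obtain ⟨m, p, q, s, h⟩ := key n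
    refine ⟨m, r * p, r * q, C r * s, ?_⟩
    have e : C g ^ m * monomial n r = C r * (C g ^ m * X ^ n) := by
      rw [← C_mul_X_pow_eq_monomial]
      ring
    rw [e, h]
    simp only [map_mul]
    ring

open Polynomial in
/-- the main argument, over a domain -/
private theorem ker3_main {R : Type u} [CommRing R] [IsDomain R] (g c : R) (hg : g ≠ 0)
    (hF : Prime (C g * X ^ 2 - C c : Polynomial R)) (J : Ideal (Polynomial R))
    (hm : C g * X ^ 2 - C c ∈ J) (a : Polynomial R) (ha : a ∈ J)
    (hFa : ¬ (C g * X ^ 2 - C c : Polynomial R) ∣ a) : ∃ h : R, h ≠ 0 ∧ C h ∈ J := by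
  have hdeg : (C g * X ^ 2 - C c : Polynomial R).natDegree = 2 := by
    rw [natDegree_sub_C, natDegree_C_mul_X_pow 2 g hg]
  have hnd : ∀ b : Polynomial R, b ≠ 0 → b.natDegree < 2 →
      ¬ (C g * X ^ 2 - C c : Polynomial R) ∣ b := by
    intro b hb hb2 h
    have := natDegree_le_of_dvd h hb
    omega
  have hlin : ∀ p q : R, (C p + C q * X : Polynomial R).natDegree < 2 := by
    intro p q
    have h1 : (C q * X + C p : Polynomial R).natDegree ≤ 1 := natDegree_linear_le
    rw [add_comm]
    omega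
  obtain ⟨m, p, q, s, h⟩ := ker3_red g c a
  have hpq : (C p + C q * X : Polynomial R) ≠ 0 := by
    intro h0
    rw [h0, zero_add] at h
    have h1 : (C g * X ^ 2 - C c : Polynomial R) ∣ C g ^ m * a := ⟨s, by rw [h, mul_comm]⟩
    rcases hF.dvd_or_dvd h1 with h2 | h2
    · have h3 := hF.dvd_of_dvd_pow h2
      exact hnd (C g) (by rwa [Ne, C_eq_zero]) (by rw [natDegree_C]; omega) h3
    · exact hFa h2
  have hpq' : (C p - C q * X : Polynomial R) ≠ 0 := by
    intro h0
    apply hpq
    have h1 : p = 0 := by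
      have := congrArg (fun b => coeff b 0) h0
      simpa using this
    have h2 : q = 0 := by
      have := congrArg (fun b => coeff b 1) h0
      simpa [h1, coeff_C] using this
    rw [h1, h2]
    simp
  have hJ1 : (C p + C q * X : Polynomial R) ∈ J := by
    have e : (C p + C q * X : Polynomial R) = C g ^ m * a - s * (C g * X ^ 2 - C c) := by
      rw [h]
      ring
    rw [e]
    exact sub_mem (J.mul_mem_left _ ha) (J.mul_mem_left _ hm)
  refine ⟨g * p ^ 2 - q ^ 2 * c, ?_, ?_⟩
  · intro h0
    have e : C g * ((C p + C q * X) * (C p - C q * X)) =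
        C (g * p ^ 2 - q ^ 2 * c) - C q ^ 2 * (C g * X ^ 2 - C c) := by
      simp only [map_sub, map_mul, map_pow]
      ring
    rw [h0, map_zero, zero_sub] at e
    have h1 : (C g * X ^ 2 - C c : Polynomial R) ∣ C g * ((C p + C q * X) * (C p - C q * X)) := by
      rw [e]
      exact (Dvd.intro_left _ rfl).neg_right
    rcases hF.dvd_or_dvd h1 with h2 | h2
    · exact hnd (C g) (by rwa [Ne, C_eq_zero]) (by rw [natDegree_C]; omega) h2
    · rcases hF.dvd_or_dvd h2 with h3 | h3
      · exact hnd _ hpq (hlin p q) h3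
      · have e2 : (C p - C q * X : Polynomial R) = C p + C (-q) * X := by
          rw [map_neg]
          ring
        rw [e2] at h3 hpq'
        exact hnd _ hpq' (hlin p (-q)) h3
  · have e : C (g * p ^ 2 - q ^ 2 * c) =
        C g * (C p - C q * X) * (C p + C q * X) + C q ^ 2 * (C g * X ^ 2 - C c) := by
      simp only [map_sub, map_mul, map_pow]
      ring
    rw [e]
    exact add_mem (J.mul_mem_left _ hJ1) (J.mul_mem_left _ hm)

private theorem ker3_gen {E : Type u} [Field E] (f g : MvPolynomial (Fin 2) E) (l : E)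
    (hF : Irreducible (sf f g l)) (hg : g ≠ 0) (J : Ideal (MvPolynomial (Fin 3) E))
    (hm : sf f g l ∈ J) (a : MvPolynomial (Fin 3) E) (ha : a ∈ J) (hFa : ¬ sf f g l ∣ a) :
    ∃ h : MvPolynomial (Fin 2) E, h ≠ 0 ∧ MvPolynomial.rename Fin.castSucc h ∈ J := by
  let Φ : Polynomial (MvPolynomial (Fin 2) E) →+* MvPolynomial (Fin 3) E :=
    Polynomial.eval₂RingHom (MvPolynomial.rename Fin.castSucc :
      MvPolynomial (Fin 2) E →ₐ[E] MvPolynomial (Fin 3) E).toRingHom (MvPolynomial.X 2)
  let Ψ : MvPolynomial (Fin 3) E →ₐ[E] Polynomial (MvPolynomial (Fin 2) E) :=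
    MvPolynomial.aeval ![Polynomial.C (MvPolynomial.X 0), Polynomial.C (MvPolynomial.X 1),
      Polynomial.X]
  have hΦC : ∀ r, Φ (Polynomial.C r) = MvPolynomial.rename Fin.castSucc r := fun r =>
    Polynomial.eval₂_C _ _
  have hΦX : Φ Polynomial.X = MvPolynomial.X 2 := Polynomial.eval₂_X _ _
  have hΨr : ∀ r : MvPolynomial (Fin 2) E, Ψ (MvPolynomial.rename Fin.castSucc r) =
      Polynomial.C r := by
    intro r
    induction r using MvPolynomial.induction_on with
    | C c =>
      rw [MvPolynomial.rename_C]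
      change MvPolynomial.aeval _ (MvPolynomial.C c) = _
      rw [MvPolynomial.aeval_C]
      rfl
    | add p q hp hq => rw [map_add, map_add, hp, hq, map_add]
    | mul_X p i hp =>
      rw [map_mul, map_mul, hp, map_mul, MvPolynomial.rename_X]
      congr 1
      change MvPolynomial.aeval _ (MvPolynomial.X _) = _
      rw [MvPolynomial.aeval_X]
      fin_cases i <;> rfl
  have hΦΨ : ∀ b, Φ (Ψ b) = b := by
    intro b
    induction b using MvPolynomial.induction_on with
    | C c =>
      change Φ (MvPolynomial.aeval _ (MvPolynomial.C c)) = _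
      rw [MvPolynomial.aeval_C]
      change Φ (Polynomial.C (MvPolynomial.C c)) = _
      rw [hΦC, MvPolynomial.rename_C]
    | add p q hp hq => rw [map_add, map_add, hp, hq]
    | mul_X p i hp =>
      rw [map_mul, map_mul, hp]
      congr 1
      change Φ (MvPolynomial.aeval _ (MvPolynomial.X _)) = _
      rw [MvPolynomial.aeval_X]
      fin_cases i
      · change Φ (Polynomial.C (MvPolynomial.X 0)) = _
        rw [hΦC, MvPolynomial.rename_X]
        rfl
      · change Φ (Polynomial.C (MvPolynomial.X 1)) = _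
        rw [hΦC, MvPolynomial.rename_X]
        rfl
      · exact hΦX
  have hΨΦ : ∀ b, Ψ (Φ b) = b := by
    intro b
    have h1 : (Ψ : MvPolynomial (Fin 3) E →+* _).comp Φ = RingHom.id _ := by
      apply Polynomial.ringHom_ext
      · intro r
        change Ψ (Φ (Polynomial.C r)) = Polynomial.C r
        rw [hΦC, hΨr]
      · change Ψ (Φ Polynomial.X) = Polynomial.X
        rw [hΦX]
        change MvPolynomial.aeval _ (MvPolynomial.X _) = _
        rw [MvPolynomial.aeval_X]
        rfl
    exact RingHom.congr_fun h1 b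
  let e : Polynomial (MvPolynomial (Fin 2) E) ≃+* MvPolynomial (Fin 3) E :=
    { Φ with
      invFun := Ψ
      left_inv := hΨΦ
      right_inv := hΦΨ }
  set F' : Polynomial (MvPolynomial (Fin 2) E) :=
    Polynomial.C g * Polynomial.X ^ 2 - Polynomial.C (f - MvPolynomial.C l * g) with hF'
  have hΦF : Φ F' = sf f g l := by
    rw [hF', map_sub, map_mul, map_pow, hΦC, hΦC, hΦX]
    rfl
  have hpr : Prime F' := by
    have h1 : Prime (e F') := by
      change Prime (Φ F')
      rw [hΦF]
      exact hF.prime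
    exact (MulEquiv.prime_iff e.toMulEquiv).mp h1
  obtain ⟨h, h0, hh⟩ := ker3_main g (f - MvPolynomial.C l * g) hg hpr (J.comap Φ) (by
      rw [Ideal.mem_comap]
      change Φ F' ∈ J
      rw [hΦF]
      exact hm) (Ψ a) (by
      rw [Ideal.mem_comap, hΦΨ]
      exact ha) (by
      intro hd
      apply hFa
      have h1 := map_dvd Φ hd
      rw [hΦΨ] at h1
      change Φ F' ∣ a at h1
      rwa [hΦF] at h1)
  refine ⟨h, h0, ?_⟩
  rw [Ideal.mem_comap, hΦC] at hh
  exact hh

theorem ker3 {E N : Type u} [Field E] [Field N] [Algebra E N] (f g : MvPolynomial (Fin 2) E)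
    (l : E) (hF : Irreducible (sf f g l)) (hg : g ≠ 0) (y : Fin 3 → N)
    (ai : AlgebraicIndependent E ![y 0, y 1])
    (heq : y 2 ^ 2 * MvPolynomial.aeval ![y 0, y 1] g = MvPolynomial.aeval ![y 0, y 1] f -
      algebraMap E N l * MvPolynomial.aeval ![y 0, y 1] g) (h : MvPolynomial (Fin 3) E) :
    MvPolynomial.aeval y h = 0 ↔ sf f g l ∣ h := by
  have hy : y ∘ Fin.castSucc = ![y 0, y 1] := by
    funext i
    fin_cases i <;> rfl
  have hr : ∀ p : MvPolynomial (Fin 2) E, MvPolynomial.aeval y (MvPolynomial.rename Fin.castSucc p) =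
      MvPolynomial.aeval ![y 0, y 1] p := by
    intro p
    rw [MvPolynomial.aeval_rename, hy]
  have hsf : MvPolynomial.aeval y (sf f g l) = 0 := by
    unfold sf
    rw [map_sub, map_mul, map_pow, hr, hr, MvPolynomial.aeval_X, map_sub, map_mul,
      MvPolynomial.aeval_C, mul_comm, heq, sub_self]
  constructor
  · intro hh
    by_contra hFa
    obtain ⟨h', h0, hm⟩ := ker3_gen f g l hF hg
      (RingHom.ker (MvPolynomial.aeval y : MvPolynomial (Fin 3) E →ₐ[E] N))
      ((RingHom.mem_ker).mpr hsf) h ((RingHom.mem_ker).mpr hh) hFa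
    rw [RingHom.mem_ker, hr] at hm
    exact h0 (algebraicIndependent_iff_injective_aeval.mp ai (hm.trans (map_zero _).symm))
  · rintro ⟨c, rfl⟩
    rw [map_mul, hsf, zero_mul]

end

end Pool.Agent.RDP

end

section


namespace Pool.Agent.RDP

universe u v w

section

variable {k' E M N : Type u} [Field k'] [Field E] [IsAlgClosed E] [Field M] [Field N] [Algebra k' E]
  [Algebra E M] [Algebra M N] [Algebra E N] [Algebra k' M] [Algebra k' N] [IsScalarTower E M N]
  [IsScalarTower k' E M] [IsScalarTower k' E N] [IsScalarTower k' M N]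
  {f g : MvPolynomial (Fin 2) E} {l : E} {𝒟 : Finset M} {θ : N} {n : Fin 3 → Polynomial M}
  {δ : Polynomial M} {y : Fin 3 → N}
private theorem rdint_mono {K₁ K₂ N : Type u} [Field K₁] [Field K₂] [Field N] [Algebra K₁ N]
    [Algebra K₂ N] (A : Subalgebra K₁ N) (B : Subalgebra K₂ N) (h : ∀ x ∈ A, x ∈ B) (z : N)
    (hz : IsIntegral A z) : IsIntegral B z := by
  obtain ⟨P, hP, he⟩ := hz
  let φ : A →+* B := (algebraMap A N).codRestrict B fun x => h x x.2
  have hφ : (algebraMap B N).comp φ = algebraMap A N := by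
    ext x
    rfl
  refine ⟨P.map φ, hP.map φ, ?_⟩
  rw [Polynomial.eval₂_map, hφ]
  exact he

private theorem rdint_mem {k' E N : Type u} [Field k'] [Field E] [Field N] [Algebra k' E]
    [Algebra E N] [Algebra k' N] [IsScalarTower k' E N] (y : Fin 3 → N) (s : Set N)
    (p : MvPolynomial (Fin 3) k') :
    MvPolynomial.aeval y p ∈ Algebra.adjoin E (Set.range y ∪ s) := by
  induction p using MvPolynomial.induction_on with
  | C a =>
    rw [MvPolynomial.aeval_C, IsScalarTower.algebraMap_apply k' E N]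
    exact Subalgebra.algebraMap_mem _ _
  | add p q hp hq =>
    rw [map_add]
    exact add_mem hp hq
  | mul_X p i hp =>
    rw [map_mul, MvPolynomial.aeval_X]
    exact mul_mem hp (Algebra.subset_adjoin (Or.inl ⟨i, rfl⟩))

private theorem rdint_aux {k' E N : Type u} [Field k'] [Field E] [Field N] [Algebra k' E]
    [Algebra E N] [Algebra k' N] [IsScalarTower k' E N] (y : Fin 3 → N) (Z : Finset N)
    (hZ : ∀ z ∈ Z, IsAlgebraic (Algebra.adjoin k' (Set.range y)) z) :
    ∃ h₀ : MvPolynomial (Fin 3) k', MvPolynomial.aeval y h₀ ≠ 0 ∧ ∀ z ∈ Z,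
      IsIntegral (Algebra.adjoin E (Set.range y ∪ {(MvPolynomial.aeval y h₀)⁻¹})) z := by
  classical
  induction Z using Finset.induction_on with
  | empty => exact ⟨1, by simp, by simp⟩
  | insert z Z hz ih =>
    obtain ⟨h₀, hw, hint⟩ := ih fun x hx => hZ x (Finset.mem_insert_of_mem hx)
    obtain ⟨c, hc0, hc⟩ := (hZ z (Finset.mem_insert_self _ _)).exists_integral_multiple
    have hcm : (c : N) ∈ (MvPolynomial.aeval y : MvPolynomial (Fin 3) k' →ₐ[k'] N).range := by
      rw [← Algebra.adjoin_range_eq_range_aeval]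
      exact c.2
    obtain ⟨c₀, hc₀⟩ := hcm
    have hc₀' : MvPolynomial.aeval y c₀ = (c : N) := hc₀
    have hcN : (c : N) ≠ 0 := fun h => hc0 (Subtype.ext h)
    have hprod : MvPolynomial.aeval y (h₀ * c₀) = MvPolynomial.aeval y h₀ * (c : N) := by
      rw [map_mul, hc₀']
    refine ⟨h₀ * c₀, ?_, ?_⟩
    · rw [hprod]
      exact mul_ne_zero hw hcN
    · set S' := Algebra.adjoin E (Set.range y ∪ {(MvPolynomial.aeval y (h₀ * c₀))⁻¹}) with hS'
      have hinv : (MvPolynomial.aeval y h₀ * (c : N))⁻¹ ∈ S' := by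
        rw [← hprod]
        exact Algebra.subset_adjoin (Or.inr rfl)
      have hcS : (c : N) ∈ S' := by
        rw [← hc₀']
        exact rdint_mem y _ c₀
      have hwS : MvPolynomial.aeval y h₀ ∈ S' := rdint_mem y _ h₀
      have hwi : (MvPolynomial.aeval y h₀)⁻¹ ∈ S' := by
        have e : (MvPolynomial.aeval y h₀)⁻¹ = (MvPolynomial.aeval y h₀ * (c : N))⁻¹ * c := by
          field_simp
        rw [e]
        exact mul_mem hinv hcS
      have hci : (c : N)⁻¹ ∈ S' := by
        have e : (c : N)⁻¹ = (MvPolynomial.aeval y h₀ * (c : N))⁻¹ * MvPolynomial.aeval y h₀ := by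
          field_simp
        rw [e]
        exact mul_mem hinv hwS
      intro x hx
      rcases Finset.mem_insert.mp hx with rfl | hx
      · have h1 : IsIntegral S' (c • x) := by
          refine rdint_mono (Algebra.adjoin k' (Set.range y)) S' ?_ _ hc
          intro u hu
          rw [Algebra.adjoin_range_eq_range_aeval] at hu
          obtain ⟨u₀, hu₀⟩ := hu
          have hu₀' : MvPolynomial.aeval y u₀ = u := hu₀
          rw [← hu₀']
          exact rdint_mem y _ u₀
        have h2 : IsIntegral S' ((c : N)⁻¹) :=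
          isIntegral_algebraMap (R := S') (A := N) (x := ⟨(c : N)⁻¹, hci⟩)
        have h3 := h2.mul h1
        have e : (c : N)⁻¹ * (c • x) = x := by
          rw [Algebra.smul_def]
          change (c : N)⁻¹ * ((c : N) * x) = x
          field_simp
        rwa [e] at h3
      · refine rdint_mono _ S' ?_ _ (hint x hx)
        intro u hu
        induction hu using Algebra.adjoin_induction with
        | mem u hu =>
          rcases hu with ⟨i, rfl⟩ | hu
          · exact Algebra.subset_adjoin (Or.inl ⟨i, rfl⟩)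
          · rw [Set.mem_singleton_iff] at hu
            rw [hu]
            exact hwi
        | algebraMap a => exact Subalgebra.algebraMap_mem _ _
        | add a b _ _ ha hb => exact add_mem ha hb
        | mul a b _ _ ha hb => exact mul_mem ha hb

theorem rdint (h : RD (k' := k') f g l 𝒟 θ n δ y) :
    ∃ h₀ : MvPolynomial (Fin 3) k', RH 𝒟 θ δ y (MvPolynomial.map (algebraMap k' E) h₀) := by
  classical
  have hco : ∀ d ∈ Algebra.adjoin k' (𝒟 : Set M),
      IsAlgebraic (Algebra.adjoin k' (Set.range y)) (algebraMap M N d) := by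
    intro d hd
    induction hd using Algebra.adjoin_induction with
    | mem d hd => exact h.alD d hd
    | algebraMap a =>
      rw [← IsScalarTower.algebraMap_apply k' M N,
        IsScalarTower.algebraMap_apply k' (Algebra.adjoin k' (Set.range y)) N]
      exact isAlgebraic_algebraMap _
    | add a b _ _ ha hb =>
      rw [map_add]
      exact ha.add hb
    | mul a b _ _ ha hb =>
      rw [map_mul]
      exact ha.mul hb
  have hδ : IsAlgebraic (Algebra.adjoin k' (Set.range y)) (Polynomial.aeval θ δ) := by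
    rw [Polynomial.aeval_eq_sum_range]
    refine sum_mem (S := Subalgebra.algebraicClosure (Algebra.adjoin k' (Set.range y)) N)
      fun m _ => ?_
    rw [Algebra.smul_def]
    exact (hco _ (h.cd m)).mul (h.alT.pow m)
  obtain ⟨h₀, hw, hint⟩ := rdint_aux (k' := k') (E := E) y
    (insert θ (insert (Polynomial.aeval θ δ)⁻¹ (𝒟.image (algebraMap M N)))) (by
      intro z hz
      rw [Finset.mem_insert, Finset.mem_insert, Finset.mem_image] at hz
      rcases hz with h1 | h1 | ⟨d, hd, h1⟩
      · rw [h1]; exact h.alT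
      · rw [h1]; exact hδ.inv
      · rw [← h1]; exact h.alD d hd)
  refine ⟨h₀, ?_⟩
  unfold RH
  rw [MvPolynomial.aeval_map_algebraMap]
  refine ⟨hw, fun z hz => hint z ?_⟩
  rw [Finset.mem_insert, Finset.mem_insert, Finset.mem_image]
  rcases hz with h1 | h1 | ⟨d, hd, h1⟩
  · exact Or.inl h1
  · exact Or.inr (Or.inl h1)
  · exact Or.inr (Or.inr ⟨d, hd, h1.symm⟩)

end

end Pool.Agent.RDP

end

section


namespace Pool.Agent.RDP

universe u v w

section

theorem ft_uniq {E M : Type u} [Field E] [Field M] [Algebra E M] {𝒟 : Finset M}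
    (ρ : Algebra.adjoin E (𝒟 : Set M) →ₐ[E] E) (n : Fin 3 → Polynomial M) (δ : Polynomial M)
    (hn : ∀ i m, (n i).coeff m ∈ Algebra.adjoin E (𝒟 : Set M))
    (hδ : ∀ m, δ.coeff m ∈ Algebra.adjoin E (𝒟 : Set M)) (J J' : Ideal (MvPolynomial (Fin 3) E))
    (h : FT ρ n δ J) (h' : FT ρ n δ J') : J = J'  := by
  obtain ⟨n₁, δ₁, hn₁, hδ₁, -, hJ₁⟩ := h
  obtain ⟨n₂, δ₂, hn₂, hδ₂, -, hJ₂⟩ := h'
  have e1 : n₁ = n₂ := by
    funext i
    ext m
    rw [hn₁ i m (hn i m), hn₂ i m (hn i m)]
  have e2 : δ₁ = δ₂ := by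
    ext m
    rw [hδ₁ m (hδ m), hδ₂ m (hδ m)]
  subst e1 e2
  ext p
  rw [hJ₁, hJ₂]

end

end Pool.Agent.RDP

end

section


namespace Pool.Agent.RDP

universe u v w

section

private theorem hcase_mem {M N : Type u} [Field M] [Field N] [Algebra M N] (θ : N)
    (V : ValuationSubring N) (hM : Ov M V) (hθ : θ ∈ V) (q : Polynomial M) :
    Polynomial.aeval θ q ∈ V := by
  rw [Polynomial.aeval_eq_sum_range]
  refine sum_mem fun i _ => ?_
  rw [Algebra.smul_def]
  exact V.mul_mem _ _ (hM _) (pow_mem hθ i)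

private theorem hcase_mulnon {N : Type u} [Field N] (V : ValuationSubring N) (x y : N)
    (hx : x ∈ V) (hy : y ∈ V.nonunits) : x * y ∈ V.nonunits := by
  rw [ValuationSubring.mem_nonunits_iff] at hy ⊢
  rw [map_mul]
  have h1 := (ValuationSubring.valuation_le_one_iff V x).2 hx
  calc V.valuation x * V.valuation y ≤ 1 * V.valuation y := by gcongr
    _ = V.valuation y := one_mul _
    _ < 1 := hy

private theorem hcase_one {N : Type u} [Field N] (V : ValuationSubring N) :
    (1 : N) ∉ V.nonunits := by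
  rw [ValuationSubring.mem_nonunits_iff, map_one]
  exact lt_irrefl _

private theorem hcase_val {M N : Type u} [Field M] [Field N] [Algebra M N] (θ : N)
    (th : Transcendental M θ) (gen : IntermediateField.adjoin M {θ} = ⊤)
    (V : ValuationSubring N) (hM : Ov M V) (hθ : θ ∈ V) (p : Polynomial M) (hp : Irreducible p)
    (hpV : Polynomial.aeval θ p ∈ V.nonunits) (z : N) :
    z ∈ V ↔ ∃ q r : Polynomial M, ¬ p ∣ r ∧ z * Polynomial.aeval θ r = Polynomial.aeval θ q := by
  have hco : ∀ r : Polynomial M, ¬ p ∣ r → Polynomial.aeval θ r ∉ V.nonunits := by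
    intro r hr hr'
    obtain ⟨u, v, huv⟩ := (hp.coprime_iff_not_dvd (n := r)).2 hr
    apply hcase_one V
    have h1 : (1 : N) = Polynomial.aeval θ u * Polynomial.aeval θ p +
        Polynomial.aeval θ v * Polynomial.aeval θ r := by
      rw [← map_mul, ← map_mul, ← map_add, huv, map_one]
    rw [h1]
    exact add_mem (hcase_mulnon V _ _ (hcase_mem θ V hM hθ u) hpV)
      (hcase_mulnon V _ _ (hcase_mem θ V hM hθ v) hr')
  constructor
  · intro hz
    have hz' : z ∈ IntermediateField.adjoin M {θ} := by rw [gen]; trivial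
    obtain ⟨q₀, r₀, h0⟩ := (IntermediateField.mem_adjoin_simple_iff M z).1 hz'
    by_cases hr0 : r₀ = 0
    · refine ⟨0, 1, fun h => hp.not_isUnit (isUnit_of_dvd_one h), ?_⟩
      rw [h0, hr0, map_zero, div_zero, zero_mul]
    · obtain ⟨q, r, c, hrel, hq, hr⟩ := UniqueFactorizationMonoid.exists_reduced_factors' q₀ r₀ hr0
      have hrne : Polynomial.aeval θ r₀ ≠ 0 := fun h => hr0 ((transcendental_iff.1 th) _ h)
      have hc0 : Polynomial.aeval θ c ≠ 0 := by
        intro h
        apply hrne
        rw [← hr, map_mul, h, zero_mul]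
      have hzr : z * Polynomial.aeval θ r = Polynomial.aeval θ q := by
        have h1 : z * Polynomial.aeval θ r₀ = Polynomial.aeval θ q₀ := by
          rw [h0]; field_simp
        rw [← hq, ← hr, map_mul, map_mul] at h1
        apply mul_left_cancel₀ hc0
        rw [← h1]; ring
      refine ⟨q, r, ?_, hzr⟩
      intro hpr
      have hpq : ¬ p ∣ q := fun h => hp.not_isUnit (hrel h hpr)
      apply hco q hpq
      rw [← hzr]
      obtain ⟨r', rfl⟩ := hpr
      rw [map_mul, mul_comm (Polynomial.aeval θ p), ← mul_assoc]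
      exact hcase_mulnon V _ _ (V.mul_mem _ _ hz (hcase_mem θ V hM hθ r')) hpV
  · rintro ⟨q, r, hpr, h⟩
    have h1 := hco r hpr
    have hr : Polynomial.aeval θ r ≠ 0 := by
      intro h0
      apply h1
      rw [h0]
      exact zero_mem _
    rw [ValuationSubring.mem_nonunits_iff_or] at h1
    push Not at h1
    have hz : z = Polynomial.aeval θ q * (Polynomial.aeval θ r)⁻¹ := by
      rw [← h]; field_simp
    rw [hz]
    exact V.mul_mem _ _ (hcase_mem θ V hM hθ q) h1.2

private theorem hcase_th {M N : Type u} [Field M] [Field N] [Algebra M N] (θ : N)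
    (V : ValuationSubring N) (hM : Ov M V) (p : Polynomial M) (hp : Irreducible p)
    (hpV : Polynomial.aeval θ p ∈ V.nonunits) : θ ∈ V := by
  have hpV' : Polynomial.aeval θ p ∈ V := ValuationSubring.nonunits_subset hpV
  let ι : M →+* V :=
    { toFun := fun m => ⟨algebraMap M N m, hM m⟩
      map_one' := Subtype.ext (map_one _)
      map_mul' := fun a b => Subtype.ext (map_mul _ _ _)
      map_zero' := Subtype.ext (map_zero _)
      map_add' := fun a b => Subtype.ext (map_add _ _ _) }
  have hι : (algebraMap V N).comp ι = algebraMap M N := by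
    ext m; rfl
  have hp0 : p ≠ 0 := hp.ne_zero
  have hlc : p.leadingCoeff ≠ 0 := Polynomial.leadingCoeff_ne_zero.2 hp0
  have hdeg : 0 < p.degree := Polynomial.degree_pos_of_irreducible hp
  let P : Polynomial V := (Polynomial.C (ι p.leadingCoeff⁻¹)) * (p.map ι) -
    Polynomial.C (ι p.leadingCoeff⁻¹ * ⟨_, hpV'⟩)
  have hmonic : (Polynomial.C (ι p.leadingCoeff⁻¹) * (p.map ι)).Monic := by
    have h2 : Polynomial.C (ι p.leadingCoeff⁻¹) * (p.map ι) =
        (Polynomial.C p.leadingCoeff⁻¹ * p).map ι := by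
      rw [Polynomial.map_mul, Polynomial.map_C]
    rw [h2]
    apply Polynomial.Monic.map
    rw [mul_comm]
    exact Polynomial.monic_mul_leadingCoeff_inv hp0
  have hdeg2 : 0 < (Polynomial.C (ι p.leadingCoeff⁻¹) * (p.map ι)).degree := by
    have h2 : Polynomial.C (ι p.leadingCoeff⁻¹) * (p.map ι) =
        (Polynomial.C p.leadingCoeff⁻¹ * p).map ι := by
      rw [Polynomial.map_mul, Polynomial.map_C]
    rw [h2, Polynomial.Monic.degree_map]
    · rw [Polynomial.degree_C_mul (inv_ne_zero hlc)]
      exact hdeg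
    · rw [mul_comm]
      exact Polynomial.monic_mul_leadingCoeff_inv hp0
  have hP : P.Monic := by
    apply hmonic.sub_of_left
    exact lt_of_le_of_lt Polynomial.degree_C_le hdeg2
  have hroot : Polynomial.eval₂ (algebraMap V N) θ P = 0 := by
    simp only [P]
    rw [Polynomial.eval₂_sub, Polynomial.eval₂_mul, Polynomial.eval₂_C, Polynomial.eval₂_C,
      Polynomial.eval₂_map, hι, map_mul]
    have h3 : algebraMap V N ⟨Polynomial.aeval θ p, hpV'⟩ = Polynomial.aeval θ p := rfl
    rw [h3, Polynomial.aeval_def, sub_self]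
  have hint : IsIntegral V θ := ⟨P, hP, hroot⟩
  obtain ⟨y, hy⟩ := IsIntegrallyClosed.isIntegral_iff.1 hint
  rw [← hy]
  exact y.2

theorem hcase {M N : Type u} [Field M] [Field N] [Algebra M N] (θ : N) (th : Transcendental M θ)
    (gen : IntermediateField.adjoin M {θ} = ⊤) (W : ValuationSubring N) (hM : Ov M W) (hW : W ≠ ⊤)
    (hθ : θ ∈ W) :
    ∃ p : Polynomial M, Irreducible p ∧
      (∀ q : Polynomial M, Polynomial.aeval θ q ∈ W.nonunits ↔ p ∣ q) ∧
      ∀ W' : ValuationSubring N, Ov M W' → W' ≠ ⊤ → Polynomial.aeval θ p ∈ W'.nonunits → W' = W := by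
  classical
  let φ : Polynomial M →+* W :=
    { toFun := fun q => ⟨Polynomial.aeval θ q, hcase_mem θ W hM hθ q⟩
      map_one' := Subtype.ext (map_one _)
      map_mul' := fun a b => Subtype.ext (map_mul _ _ _)
      map_zero' := Subtype.ext (map_zero _)
      map_add' := fun a b => Subtype.ext (map_add _ _ _) }
  let 𝔮 : Ideal (Polynomial M) := (IsLocalRing.maximalIdeal W).comap φ
  have hmem : ∀ q : Polynomial M, Polynomial.aeval θ q ∈ W.nonunits ↔ q ∈ 𝔮 := by
    intro q
    rw [Ideal.mem_comap]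
    exact ValuationSubring.coe_mem_nonunits_iff (a := φ q)
  have hprime : 𝔮.IsPrime := Ideal.comap_isPrime φ _
  have hne : 𝔮 ≠ ⊥ := by
    intro hbot
    apply hW
    rw [eq_top_iff]
    intro z _
    have hz' : z ∈ IntermediateField.adjoin M {θ} := by rw [gen]; trivial
    obtain ⟨q₀, r₀, h0⟩ := (IntermediateField.mem_adjoin_simple_iff M z).1 hz'
    by_cases hr0 : r₀ = 0
    · rw [h0, hr0, map_zero, div_zero]
      exact W.zero_mem
    · have h1 : Polynomial.aeval θ r₀ ∉ W.nonunits := by
        rw [hmem, hbot, Ideal.mem_bot]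
        exact hr0
      rw [ValuationSubring.mem_nonunits_iff_or] at h1
      push Not at h1
      rw [h0, div_eq_mul_inv]
      exact W.mul_mem _ _ (hcase_mem θ W hM hθ q₀) h1.2
  obtain ⟨p, hp⟩ := (IsPrincipalIdealRing.principal 𝔮).principal
  have hp' : 𝔮 = Ideal.span {p} := hp
  have hp0 : p ≠ 0 := by
    rintro rfl
    apply hne
    rw [hp', Ideal.span_singleton_eq_bot]
  have hpp : Prime p := by
    rw [← Ideal.span_singleton_prime hp0, ← hp']
    exact hprime
  have hdvd : ∀ q : Polynomial M, Polynomial.aeval θ q ∈ W.nonunits ↔ p ∣ q := by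
    intro q
    rw [hmem, hp', Ideal.mem_span_singleton]
  refine ⟨p, hpp.irreducible, hdvd, ?_⟩
  intro W' hM' _ hpW'
  have hθ' := hcase_th θ W' hM' p hpp.irreducible hpW'
  apply ValuationSubring.ext
  intro z
  rw [hcase_val θ th gen W' hM' hθ' p hpp.irreducible hpW' z,
    hcase_val θ th gen W hM hθ p hpp.irreducible ((hdvd p).2 dvd_rfl) z]

end

end Pool.Agent.RDP

end

section


namespace Pool.Agent.RDP

universe u v w

/-- integral elements over a subring of a valuation ring are in the valuation ring -/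
theorem vcase_int {N : Type u} [Field N] (W : ValuationSubring N) {E : Type u} [Field E]
    [Algebra E N] (R : Subalgebra E N) (hR : ∀ r ∈ R, r ∈ W) (z : N) (hz : IsIntegral R z) :
    z ∈ W := by
  let φ : R →+* W := (R.subtype : R →+* N).codRestrict W.toSubring (fun r => hR _ r.2)
  have h1 : (algebraMap W N).comp φ = (RingHom.id N).comp (algebraMap R N) := by
    ext r
    rfl
  have h2 : IsIntegral W ((RingHom.id N) z) := IsIntegral.map_of_comp_eq φ (RingHom.id N) h1 hz
  obtain ⟨w, hw⟩ := IsIntegrallyClosed.isIntegral_iff.mp h2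
  have h3 : (w : N) = z := hw
  rw [← h3]
  exact w.2

/-- the residue map `W → κ` restricted to `E` is injective, and an element of an algebraically closed field
is hit by an algebraic element -/
theorem vcase_root {E K : Type u} [Field E] [IsAlgClosed E] [Field K] (κ : E →+* K) (t : K)
    (q : Polynomial E) (hq : q ≠ 0) (h0 : q.eval₂ κ t = 0) : ∃ e : E, κ e = t := by
  have h1 : (q.map κ).IsRoot t := by
    rw [Polynomial.IsRoot, Polynomial.eval_map]
    exact h0
  exact (IsAlgClosed.splits q).mem_range_of_isRoot hq h1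

/-- the specialization of the coefficients -/
theorem vcase_rho {E M N : Type u} [Field E] [IsAlgClosed E] [Field M] [Field N]
    [Algebra E M] [Algebra M N] [Algebra E N] [IsScalarTower E M N] (htd : Td1 E M)
    (W : ValuationSubring N) (hE : Ov E W) (A : Subalgebra E M)
    (hA : ∀ z ∈ A, algebraMap M N z ∈ W) (hm : ∃ m : M, algebraMap M N m ∉ W) :
    ∃ ρ : A →ₐ[E] E, ∀ z : A, algebraMap M N z - algebraMap E N (ρ z) ∈ W.nonunits := by
  classical
  let V : ValuationSubring M := W.comap (algebraMap M N)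
  have hVmem : ∀ x : M, x ∈ V ↔ algebraMap M N x ∈ W := fun x => ValuationSubring.mem_comap
  have hVE : Ov E V := by
    intro e
    rw [hVmem, ← IsScalarTower.algebraMap_apply E M N]
    exact hE e
  have hVtop : V ≠ ⊤ := by
    intro h
    obtain ⟨m, hm⟩ := hm
    apply hm
    rw [← hVmem, h]
    exact ValuationSubring.mem_top m
  have hVnon : ∀ x : M, x ∈ V.nonunits ↔ algebraMap M N x ∈ W.nonunits := by
    intro x
    rw [ValuationSubring.mem_nonunits_iff_or, ValuationSubring.mem_nonunits_iff_or, hVmem, map_inv₀,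
      map_eq_zero]
  have hex : ∀ z : A, ∃ e : E, algebraMap M N z - algebraMap E N e ∈ W.nonunits := by
    intro z
    obtain ⟨e, he⟩ := res1 htd V hVE hVtop (z : M) ((hVmem _).mpr (hA z z.2))
    refine ⟨e, ?_⟩
    rw [hVnon, map_sub, ← IsScalarTower.algebraMap_apply E M N] at he
    exact he
  have huniq : ∀ e : E, algebraMap E N e ∈ W.nonunits → e = 0 := by
    intro e he
    rw [ValuationSubring.mem_nonunits_iff_or] at he
    rcases he with h | h
    · exact (map_eq_zero _).mp h
    · exfalso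
      apply h
      rw [← map_inv₀]
      exact hE _
  choose r hr using hex
  have hr' : ∀ (z : A) (e : E), algebraMap M N z - algebraMap E N e ∈ W.nonunits → r z = e := by
    intro z e he
    have h1 := W.nonunits.sub_mem he (hr z)
    have h2 : algebraMap M N z - algebraMap E N e - (algebraMap M N z - algebraMap E N (r z)) =
        algebraMap E N (r z - e) := by
      rw [map_sub]
      ring
    rw [h2] at h1
    exact sub_eq_zero.mp (huniq _ h1)
  have hmulW : ∀ a b : N, a ∈ W.nonunits → b ∈ W → a * b ∈ W.nonunits := by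
    intro a b ha hb
    rw [ValuationSubring.mem_nonunits_iff] at ha ⊢
    rw [map_mul]
    have hb' : W.valuation b ≤ 1 := (W.valuation_le_one_iff b).mpr hb
    calc W.valuation a * W.valuation b ≤ W.valuation a * 1 := mul_le_mul_right hb' _
      _ = W.valuation a := mul_one _
      _ < 1 := ha
  have hc : ∀ e : E, r (algebraMap E A e) = e := by
    intro e
    apply hr'
    have : algebraMap M N ((algebraMap E A e : A) : M) = algebraMap E N e := by
      rw [Subalgebra.coe_algebraMap, ← IsScalarTower.algebraMap_apply E M N]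
    rw [this, sub_self]
    exact W.nonunits.zero_mem
  let ρ : A →ₐ[E] E :=
    { toFun := r
      map_one' := by
        have := hc 1
        rwa [map_one] at this
      map_mul' := by
        intro x y
        apply hr'
        have h1 : algebraMap M N ((x * y : A) : M) - algebraMap E N (r x * r y) =
            (algebraMap M N x - algebraMap E N (r x)) * algebraMap M N y +
            (algebraMap M N y - algebraMap E N (r y)) * algebraMap E N (r x) := by
          rw [MulMemClass.coe_mul, map_mul, map_mul]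
          ring
        rw [h1]
        exact W.nonunits.add_mem (hmulW _ _ (hr x) (hA y y.2)) (hmulW _ _ (hr y) (hE _))
      map_zero' := by
        have := hc 0
        rwa [map_zero] at this
      map_add' := by
        intro x y
        apply hr'
        have h1 : algebraMap M N ((x + y : A) : M) - algebraMap E N (r x + r y) =
            (algebraMap M N x - algebraMap E N (r x)) +
            (algebraMap M N y - algebraMap E N (r y)) := by
          rw [AddMemClass.coe_add, map_add, map_add]
          ring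
        rw [h1]
        exact W.nonunits.add_mem (hr x) (hr y)
      commutes' := hc }
  exact ⟨ρ, hr⟩

section

variable {k' E M N : Type u} [Field k'] [Field E] [IsAlgClosed E] [Field M] [Field N] [Algebra k' E]
  [Algebra E M] [Algebra M N] [Algebra E N] [Algebra k' M] [Algebra k' N] [IsScalarTower E M N]
  [IsScalarTower k' E M] [IsScalarTower k' E N] [IsScalarTower k' M N]
  {f g : MvPolynomial (Fin 2) E} {l : E} {𝒟 : Finset M} {θ : N} {n : Fin 3 → Polynomial M}
  {δ : Polynomial M} {y : Fin 3 → N}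
theorem vcase (h : RD (k' := k') f g l 𝒟 θ n δ y) (h₀ : MvPolynomial (Fin 3) E)
    (hh : RH 𝒟 θ δ y h₀) (J : PrimeSpectrum (MvPolynomial (Fin 3) E))
    (hJm : ¬ J.asIdeal.IsMaximal) (hJh : h₀ ∉ J.asIdeal) (W : ValuationSubring N) (hE : Ov E W)
    (hWJ : ∀ a : MvPolynomial (Fin 3) E, MvPolynomial.aeval y a ∈ W ∧
      (MvPolynomial.aeval y a ∈ W.nonunits ↔ a ∈ J.asIdeal)) :
    θ ∈ W ∧ (∀ d ∈ 𝒟, algebraMap M N d ∈ W) ∧ ((∃ m : M, algebraMap M N m ∉ W) →
      ∃ ρ : Algebra.adjoin E (𝒟 : Set M) →ₐ[E] E,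
        (∀ z : Algebra.adjoin E (𝒟 : Set M), algebraMap M N z - algebraMap E N (ρ z) ∈ W.nonunits) ∧
        FT ρ n δ J.asIdeal ∧ ∀ q : Polynomial E, q ≠ 0 → Polynomial.aeval θ q ∉ W.nonunits) := by
  classical
  have hyW : ∀ i, y i ∈ W := by
    intro i
    have := (hWJ (MvPolynomial.X i)).1
    rwa [MvPolynomial.aeval_X] at this
  have hinv : (MvPolynomial.aeval y h₀)⁻¹ ∈ W := by
    have h1 : MvPolynomial.aeval y h₀ ∉ W.nonunits := fun h2 => hJh ((hWJ h₀).2.mp h2)
    rw [ValuationSubring.mem_nonunits_iff_or, not_or, not_not] at h1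
    exact h1.2
  have hR : ∀ r ∈ Algebra.adjoin E (Set.range y ∪ {(MvPolynomial.aeval y h₀)⁻¹}), r ∈ W := by
    intro r hr
    induction hr using Algebra.adjoin_induction with
    | mem x hx =>
      rcases hx with ⟨i, rfl⟩ | hx
      · exact hyW i
      · rw [Set.mem_singleton_iff] at hx
        rw [hx]
        exact hinv
    | algebraMap e => exact hE e
    | add x y _ _ hx hy => exact W.add_mem _ _ hx hy
    | mul x y _ _ hx hy => exact W.mul_mem _ _ hx hy
  have hint : ∀ z : N, (z = θ ∨ z = (Polynomial.aeval θ δ)⁻¹ ∨ ∃ d ∈ 𝒟, z = algebraMap M N d) →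
      z ∈ W := fun z hz => vcase_int W _ hR z (hh.2 z hz)
  have hθ : θ ∈ W := hint θ (Or.inl rfl)
  have hδi : (Polynomial.aeval θ δ)⁻¹ ∈ W := hint _ (Or.inr (Or.inl rfl))
  have hD : ∀ d ∈ 𝒟, algebraMap M N d ∈ W := fun d hd => hint _ (Or.inr (Or.inr ⟨d, hd, rfl⟩))
  refine ⟨hθ, hD, ?_⟩
  intro hm
  have hA : ∀ z ∈ Algebra.adjoin E (𝒟 : Set M), algebraMap M N z ∈ W := by
    intro z hz
    induction hz using Algebra.adjoin_induction with
    | mem x hx => exact hD x hx
    | algebraMap e =>
      rw [← IsScalarTower.algebraMap_apply E M N]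
      exact hE e
    | add x y _ _ hx hy =>
      rw [map_add]
      exact W.add_mem _ _ hx hy
    | mul x y _ _ hx hy =>
      rw [map_mul]
      exact W.mul_mem _ _ hx hy
  obtain ⟨ρ, hρ⟩ := vcase_rho h.td W hE _ hA hm
  refine ⟨ρ, hρ, ?_⟩
  -- the ring homomorphisms
  let ιE : E →+* W := (algebraMap E N).codRestrict W.toSubring (fun e => hE e)
  let DW : Algebra.adjoin E (𝒟 : Set M) →+* W :=
    ((algebraMap M N).comp (Algebra.adjoin E (𝒟 : Set M)).subtype).codRestrict W.toSubring
      (fun z => hA z z.2)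
  let yW : Fin 3 → W := fun i => ⟨y i, hyW i⟩
  let θW : W := ⟨θ, hθ⟩
  let π : W →+* IsLocalRing.ResidueField W := IsLocalRing.residue W
  let κ : E →+* IsLocalRing.ResidueField W := π.comp ιE
  let Φ : MvPolynomial (Fin 3) E →+* W := MvPolynomial.eval₂Hom ιE yW
  have hπ : ∀ w : W, π w = 0 ↔ (w : N) ∈ W.nonunits := by
    intro w
    rw [ValuationSubring.coe_mem_nonunits_iff]
    exact IsLocalRing.residue_eq_zero_iff w
  have hΦ : ∀ a, ((Φ a : W) : N) = MvPolynomial.aeval y a := by
    intro a
    have h1 : (W.subtype.comp Φ) = (MvPolynomial.aeval y : MvPolynomial (Fin 3) E →ₐ[E] N).toRingHom := by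
      apply MvPolynomial.ringHom_ext
      · intro e
        simp only [Φ, RingHom.coe_comp, Function.comp_apply, MvPolynomial.coe_eval₂Hom,
          MvPolynomial.eval₂_C, AlgHom.toRingHom_eq_coe, RingHom.coe_coe, MvPolynomial.algHom_C]
        rfl
      · intro i
        simp only [Φ, RingHom.coe_comp, Function.comp_apply, MvPolynomial.coe_eval₂Hom,
          MvPolynomial.eval₂_X, AlgHom.toRingHom_eq_coe, RingHom.coe_coe, MvPolynomial.aeval_X]
        rfl
    exact congrArg (fun F => F a) h1
  have hJ : ∀ a, a ∈ J.asIdeal ↔ π (Φ a) = 0 := by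
    intro a
    rw [hπ, hΦ, (hWJ a).2]
  have hDρ : ∀ z : Algebra.adjoin E (𝒟 : Set M), π (DW z) = κ (ρ z) := by
    intro z
    have h1 : π (DW z - ιE (ρ z)) = 0 := by
      rw [hπ]
      exact hρ z
    rw [map_sub, sub_eq_zero] at h1
    exact h1
  have hsub : Algebra.adjoin k' (𝒟 : Set M) ≤ (Algebra.adjoin E (𝒟 : Set M)).restrictScalars k' :=
    Algebra.adjoin_le Algebra.subset_adjoin
  have hlift : ∀ p : Polynomial M, (∀ m, p.coeff m ∈ Algebra.adjoin k' (𝒟 : Set M)) →
      ∃ P : Polynomial (Algebra.adjoin E (𝒟 : Set M)),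
        P.map (algebraMap (Algebra.adjoin E (𝒟 : Set M)) M) = p := by
    intro p hp
    have h1 : p ∈ Polynomial.lifts (algebraMap (Algebra.adjoin E (𝒟 : Set M)) M) := by
      rw [Polynomial.lifts_iff_coeff_lifts]
      intro m
      exact ⟨⟨p.coeff m, hsub (hp m)⟩, rfl⟩
    rw [Polynomial.lifts_iff_set_range] at h1
    exact h1
  choose P hP using fun i => hlift (n i) (h.cn i)
  obtain ⟨D, hDm⟩ := hlift δ h.cd
  have hev : ∀ Q : Polynomial (Algebra.adjoin E (𝒟 : Set M)),
      ((Q.eval₂ DW θW : W) : N) = Polynomial.aeval θ (Q.map (algebraMap (Algebra.adjoin E (𝒟 : Set M)) M)) := by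
    intro Q
    have h1 : (W.subtype.comp (Polynomial.eval₂RingHom DW θW)) =
        ((Polynomial.aeval θ : Polynomial M →ₐ[M] N).toRingHom.comp
          (Polynomial.mapRingHom (algebraMap (Algebra.adjoin E (𝒟 : Set M)) M))) := by
      apply Polynomial.ringHom_ext
      · intro a
        simp only [RingHom.coe_comp, Function.comp_apply, Polynomial.coe_eval₂RingHom,
          Polynomial.eval₂_C, AlgHom.toRingHom_eq_coe, RingHom.coe_coe, Polynomial.coe_mapRingHom,
          Polynomial.map_C, Polynomial.aeval_C]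
        rfl
      · simp only [RingHom.coe_comp, Function.comp_apply, Polynomial.coe_eval₂RingHom,
          Polynomial.eval₂_X, AlgHom.toRingHom_eq_coe, RingHom.coe_coe, Polynomial.coe_mapRingHom,
          Polynomial.map_X, Polynomial.aeval_X]
        rfl
    exact congrArg (fun F => F Q) h1
  have hred : ∀ Q : Polynomial (Algebra.adjoin E (𝒟 : Set M)),
      π (Q.eval₂ DW θW) = (Q.map (ρ : Algebra.adjoin E (𝒟 : Set M) →+* E)).eval₂ κ (π θW) := by
    intro Q
    rw [Polynomial.eval₂_map, Polynomial.hom_eval₂]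
    congr 1
    ext z
    exact hDρ z
  -- the denominator
  have hδW : ((D.eval₂ DW θW : W) : N) = Polynomial.aeval θ δ := by rw [hev, hDm]
  have hδ0 : π (D.eval₂ DW θW) ≠ 0 := by
    intro h1
    rw [hπ, hδW, ValuationSubring.mem_nonunits_iff_or] at h1
    rcases h1 with h1 | h1
    · have h2 : δ = 0 := by
        by_contra h3
        exact (transcendental_iff.mp h.th δ h1 |> h3)
      exact h.d0 h2
    · exact h1 hδi
  set δ' : Polynomial E := D.map (ρ : Algebra.adjoin E (𝒟 : Set M) →+* E) with hδ'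
  set n' : Fin 3 → Polynomial E := fun i => (P i).map (ρ : Algebra.adjoin E (𝒟 : Set M) →+* E) with hn'
  set t : IsLocalRing.ResidueField W := π θW with ht
  have hδt : δ'.eval₂ κ t ≠ 0 := by
    rw [hδ', ← hred]
    exact hδ0
  have hyt : ∀ i, π (yW i) * δ'.eval₂ κ t = (n' i).eval₂ κ t := by
    intro i
    rw [hδ', hn', ← hred, ← hred, ← map_mul]
    congr 1
    apply Subtype.ext
    rw [MulMemClass.coe_mul, hδW, hev, hP]
    exact h.y_eq i
  have hyt' : ∀ i, π (yW i) = (n' i).eval₂ κ t / δ'.eval₂ κ t := by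
    intro i
    rw [eq_div_iff hδt]
    exact hyt i
  -- transcendence
  have htr : ∀ q : Polynomial E, q ≠ 0 → q.eval₂ κ t ≠ 0 := by
    intro q hq h0
    obtain ⟨e, he⟩ := vcase_root κ t q hq h0
    have hev2 : ∀ r : Polynomial E, r.eval₂ κ t = κ (r.eval e) := by
      intro r
      rw [← he, Polynomial.eval₂_at_apply]
    let c : Fin 3 → E := fun i => (n' i).eval e / δ'.eval e
    have hc : ∀ i, π (yW i) = κ (c i) := by
      intro i
      rw [hyt', hev2, hev2, map_div₀]
    have hfac : π.comp Φ = κ.comp (MvPolynomial.eval c) := by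
      apply MvPolynomial.ringHom_ext
      · intro a
        simp only [Φ, RingHom.coe_comp, Function.comp_apply, MvPolynomial.coe_eval₂Hom,
          MvPolynomial.eval₂_C, MvPolynomial.eval_C]
        rfl
      · intro i
        simp only [Φ, RingHom.coe_comp, Function.comp_apply, MvPolynomial.coe_eval₂Hom,
          MvPolynomial.eval₂_X, MvPolynomial.eval_X]
        exact hc i
    apply hJm
    have hker : J.asIdeal = RingHom.ker (MvPolynomial.eval c : MvPolynomial (Fin 3) E →+* E) := by
      ext a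
      rw [hJ, RingHom.mem_ker]
      have h1 : π (Φ a) = κ (MvPolynomial.eval c a) := congrArg (fun F => F a) hfac
      rw [h1, map_eq_zero]
    rw [hker]
    apply RingHom.ker_isMaximal_of_surjective
    intro b
    exact ⟨MvPolynomial.C b, MvPolynomial.eval_C b⟩
  refine ⟨⟨n', δ', ?_, ?_, ?_, ?_⟩, ?_⟩
  · intro i m hmem
    have h1 : (P i).coeff m = ⟨(n i).coeff m, hmem⟩ := by
      apply Subtype.ext
      have h2 : algebraMap (Algebra.adjoin E (𝒟 : Set M)) M ((P i).coeff m) = (n i).coeff m := by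
        rw [← Polynomial.coeff_map, hP]
      exact h2
    rw [hn', Polynomial.coeff_map, h1]
    rfl
  · intro m hmem
    have h1 : D.coeff m = ⟨δ.coeff m, hmem⟩ := by
      apply Subtype.ext
      have h2 : algebraMap (Algebra.adjoin E (𝒟 : Set M)) M (D.coeff m) = δ.coeff m := by
        rw [← Polynomial.coeff_map, hDm]
      exact h2
    rw [hδ', Polynomial.coeff_map, h1]
    rfl
  · intro h1
    apply hδt
    rw [h1, Polynomial.eval₂_zero]
  · intro a
    have hinj : Function.Injective (Polynomial.eval₂RingHom κ t) := by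
      rw [injective_iff_map_eq_zero]
      intro q hq
      by_contra h1
      exact htr q h1 hq
    let ψ : RatFunc E →+* IsLocalRing.ResidueField W := IsFractionRing.lift hinj
    have hψ : ∀ q : Polynomial E, ψ (algebraMap (Polynomial E) (RatFunc E) q) = q.eval₂ κ t := by
      intro q
      exact IsFractionRing.lift_algebraMap hinj q
    have hfac : π.comp Φ = ψ.comp (MvPolynomial.aeval (fun i =>
        algebraMap (Polynomial E) (RatFunc E) (n' i) / algebraMap (Polynomial E) (RatFunc E) δ') :
        MvPolynomial (Fin 3) E →ₐ[E] RatFunc E).toRingHom := by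
      apply MvPolynomial.ringHom_ext
      · intro e
        simp only [Φ, RingHom.coe_comp, Function.comp_apply, MvPolynomial.coe_eval₂Hom,
          MvPolynomial.eval₂_C, AlgHom.toRingHom_eq_coe, RingHom.coe_coe, MvPolynomial.algHom_C]
        have h1 : algebraMap E (RatFunc E) e =
            algebraMap (Polynomial E) (RatFunc E) (Polynomial.C e) := by
          rw [IsScalarTower.algebraMap_apply E (Polynomial E) (RatFunc E)]
          rfl
        rw [h1, hψ, Polynomial.eval₂_C]
        rfl
      · intro i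
        simp only [Φ, RingHom.coe_comp, Function.comp_apply, MvPolynomial.coe_eval₂Hom,
          MvPolynomial.eval₂_X, AlgHom.toRingHom_eq_coe, RingHom.coe_coe, MvPolynomial.aeval_X]
        rw [map_div₀, hψ, hψ]
        exact hyt' i
    rw [hJ]
    have h1 : π (Φ a) = ψ (MvPolynomial.aeval (fun i =>
        algebraMap (Polynomial E) (RatFunc E) (n' i) / algebraMap (Polynomial E) (RatFunc E) δ') a) :=
      congrArg (fun F => F a) hfac
    rw [h1, map_eq_zero]
  · intro q hq h1
    apply htr q hq
    have h2 : ((q.eval₂ ιE θW : W) : N) = Polynomial.aeval θ q := by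
      have h3 : (W.subtype.comp (Polynomial.eval₂RingHom ιE θW)) =
          (Polynomial.aeval θ : Polynomial E →ₐ[E] N).toRingHom := by
        apply Polynomial.ringHom_ext
        · intro a
          simp only [RingHom.coe_comp, Function.comp_apply, Polynomial.coe_eval₂RingHom,
            Polynomial.eval₂_C, AlgHom.toRingHom_eq_coe, RingHom.coe_coe, Polynomial.aeval_C]
          rfl
        · simp only [RingHom.coe_comp, Function.comp_apply, Polynomial.coe_eval₂RingHom,
            Polynomial.eval₂_X, AlgHom.toRingHom_eq_coe, RingHom.coe_coe, Polynomial.aeval_X]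
          rfl
      exact congrArg (fun F => F q) h3
    rw [← h2, ← hπ, Polynomial.hom_eval₂] at h1
    exact h1

end

end Pool.Agent.RDP

end

section


namespace Pool.Agent.RDP

universe u v w

section

private theorem normval_int {M N : Type u} [Field M] [Field N] [Algebra M N]
    (V : ValuationSubring M) (z : N)
    (hz : ∀ W : ValuationSubring N, W.comap (algebraMap M N) = V → z ∈ W)
    [Algebra V N] [IsScalarTower V M N] : IsIntegral V z := by
  by_contra hni
  have hz0 : z ≠ 0 := by
    rintro rfl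
    exact hni isIntegral_zero
  letI : Invertible z⁻¹ := invertibleOfNonzero (inv_ne_zero hz0)
  have hne : (IsLocalRing.maximalIdeal V).map (algebraMap V (Algebra.adjoin V {z⁻¹})) ⊔
      Ideal.span {(⟨z⁻¹, Algebra.subset_adjoin rfl⟩ : Algebra.adjoin V {z⁻¹})} ≠ ⊤ := by
    intro eq
    obtain ⟨p, hp, hpx⟩ := Algebra.exists_aeval_invOf_eq_zero_of_idealMap_adjoin_sup_span_eq_top
      z⁻¹ (IsLocalRing.maximalIdeal V) (IsLocalRing.maximalIdeal.isMaximal V).ne_top eq
    have H : IsUnit p.leadingCoeff := by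
      by_contra h
      have h1 : p.leadingCoeff ∈ IsLocalRing.maximalIdeal V := (IsLocalRing.mem_maximalIdeal _).2 h
      have h2 := Ideal.sub_mem _ h1 hp
      rw [sub_sub_cancel] at h2
      exact (IsLocalRing.maximalIdeal.isMaximal V).ne_top ((Ideal.eq_top_iff_one _).2 h2)
    rw [invOf_eq_inv, inv_inv] at hpx
    refine hni ⟨.C H.unit⁻¹.1 * p, ?_, ?_⟩
    · simp [Polynomial.Monic]
    · rw [← Polynomial.aeval_def, map_mul, hpx, mul_zero]
  obtain ⟨W, hW1, hW2⟩ := Ideal.image_subset_nonunits_valuationSubring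
    (A := (Algebra.adjoin V {z⁻¹}).toSubring) _ hne
  have hVW : ∀ y : V, algebraMap M N (y : M) ∈ W := by
    intro y
    have h1 : algebraMap M N (y : M) = algebraMap V N y := by
      rw [IsScalarTower.algebraMap_apply V M N]
      rfl
    rw [h1]
    exact hW1 ((Algebra.adjoin V {z⁻¹}).algebraMap_mem y)
  have hmW : ∀ y : V, y ∈ IsLocalRing.maximalIdeal V → algebraMap M N (y : M) ∈ W.nonunits := by
    intro y hy
    have h1 : algebraMap M N (y : M) = algebraMap V N y := by
      rw [IsScalarTower.algebraMap_apply V M N]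
      rfl
    rw [h1]
    exact hW2 ⟨algebraMap V (Algebra.adjoin V {z⁻¹}) y,
      Ideal.mem_sup_left (Ideal.mem_map_of_mem _ hy), rfl⟩
  have hcom : W.comap (algebraMap M N) = V := by
    ext y
    change algebraMap M N y ∈ W ↔ y ∈ V
    constructor
    · intro hy
      by_contra hyV
      have hy0 : y ≠ 0 := by
        rintro rfl
        exact hyV V.zero_mem
      have h1 : y⁻¹ ∈ V.nonunits := V.inv_mem_nonunits_iff.2 (Or.inr hyV)
      obtain ⟨h2, h3⟩ := V.mem_nonunits_iff_exists_mem_maximalIdeal.1 h1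
      have h4 := hmW ⟨y⁻¹, h2⟩ h3
      change algebraMap M N y⁻¹ ∈ W.nonunits at h4
      rw [map_inv₀, W.inv_mem_nonunits_iff] at h4
      rcases h4 with h4 | h4
      · exact hy0 ((map_eq_zero (algebraMap M N)).1 h4)
      · exact h4 hy
    · intro hy
      exact hVW ⟨y, hy⟩
  have h5 := hz W hcom
  have h6 : z⁻¹ ∈ W.nonunits := hW2 ⟨⟨z⁻¹, Algebra.subset_adjoin rfl⟩,
    Ideal.mem_sup_right (Ideal.subset_span rfl), rfl⟩
  rw [W.inv_mem_nonunits_iff] at h6
  rcases h6 with h6 | h6
  · exact hz0 h6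
  · exact h6 h5

theorem normval {M N : Type u} [Field M] [Field N] [Algebra M N] [FiniteDimensional M N]
    (V : ValuationSubring M) (π : N) (hπ0 : π ≠ 0)
    (hπ : ∀ W : ValuationSubring N, W.comap (algebraMap M N) = V → π ∈ W) :
    Algebra.norm M π ∈ V ∧ (Algebra.norm M π ∈ V.nonunits ↔
      ∃ W : ValuationSubring N, W.comap (algebraMap M N) = V ∧ π ∈ W.nonunits) := by
  letI : Algebra V N := ((algebraMap M N).comp (algebraMap V M)).toAlgebra
  haveI : IsScalarTower V M N := IsScalarTower.of_algebraMap_eq (fun x => rfl)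
  have hnorm : ∀ z : N, (∀ W : ValuationSubring N, W.comap (algebraMap M N) = V → z ∈ W) →
      Algebra.norm M z ∈ V := by
    intro z hz
    obtain ⟨y, hy⟩ := IsIntegrallyClosed.isIntegral_iff.1
      (Algebra.isIntegral_norm M (normval_int V z hz))
    rw [← hy]
    exact y.2
  have hint : IsIntegral V π := normval_int V π hπ
  have hN := hnorm π hπ
  refine ⟨hN, ?_, ?_⟩
  · intro hNn
    by_contra h
    push Not at h
    have h1 : ∀ W : ValuationSubring N, W.comap (algebraMap M N) = V → π⁻¹ ∈ W := by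
      intro W hW
      have h2 := h W hW
      rw [W.mem_nonunits_iff_or] at h2
      push Not at h2
      exact h2.2
    have h3 := hnorm _ h1
    have h4 : Algebra.norm M π * Algebra.norm M π⁻¹ = 1 := by
      rw [← map_mul, mul_inv_cancel₀ hπ0, map_one]
    rw [V.mem_nonunits_iff_or] at hNn
    rcases hNn with h5 | h5
    · rw [h5, zero_mul] at h4
      exact zero_ne_one h4
    · rw [inv_eq_of_mul_eq_one_right h4] at h5
      exact h5 h3
  · rintro ⟨W, hW, hπW⟩
    have hVW : ∀ y : M, y ∈ V ↔ algebraMap M N y ∈ W := by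
      intro y
      rw [← hW]
      rfl
    have hq : minpoly M π = (minpoly V π).map (algebraMap V M) :=
      minpoly.isIntegrallyClosed_eq_field_fractions' M hint
    have hπW' : π ∈ W := W.nonunits_subset hπW
    have hmem : ∀ r : Polynomial V, Polynomial.aeval π r ∈ W := by
      intro r
      rw [Polynomial.aeval_eq_sum_range]
      refine sum_mem fun i _ => ?_
      rw [Algebra.smul_def]
      exact mul_mem ((hVW _).1 (r.coeff i).2) (pow_mem hπW' _)
    have hc : algebraMap M N ((minpoly V π).coeff 0 : V) =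
        π * (- Polynomial.aeval π (minpoly V π).divX) := by
      have h1 := minpoly.aeval V π
      rw [← Polynomial.X_mul_divX_add (minpoly V π), map_add, map_mul, Polynomial.aeval_X,
        Polynomial.aeval_C] at h1
      have h2 : algebraMap V N ((minpoly V π).coeff 0) =
        algebraMap M N ((minpoly V π).coeff 0 : V) := rfl
      rw [← h2]
      linear_combination h1
    have hcW : algebraMap M N ((minpoly V π).coeff 0 : V) ∈ W.nonunits := by
      rw [hc, W.mem_nonunits_iff, map_mul]
      have h1 : W.valuation (- Polynomial.aeval π (minpoly V π).divX) ≤ 1 :=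
        (W.valuation_le_one_iff _).2 (neg_mem (hmem _))
      calc W.valuation π * _ ≤ W.valuation π * 1 := mul_le_mul_right h1 _
        _ = W.valuation π := mul_one _
        _ < 1 := W.mem_nonunits_iff.1 hπW
    have hcV : V.valuation ((minpoly V π).coeff 0 : V) < 1 := by
      rw [← V.mem_nonunits_iff, V.mem_nonunits_iff_or]
      rw [W.mem_nonunits_iff_or] at hcW
      rcases hcW with h | h
      · left
        exact (map_eq_zero (algebraMap M N)).1 h
      · right
        rw [hVW, map_inv₀]
        exact h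
    have hM : IsIntegral M π := Algebra.IsIntegral.isIntegral π
    have hnc : Algebra.norm M (IntermediateField.AdjoinSimple.gen M π) =
        (-1) ^ (IntermediateField.adjoin.powerBasis hM).dim *
          (((minpoly V π).coeff 0 : V) : M) := by
      have h1 := Algebra.PowerBasis.norm_gen_eq_coeff_zero_minpoly
        (IntermediateField.adjoin.powerBasis hM)
      rw [IntermediateField.adjoin.powerBasis_gen hM, IntermediateField.minpoly_gen] at h1
      rw [h1, hq, Polynomial.coeff_map]
      rfl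
    rw [V.mem_nonunits_iff, Algebra.norm_eq_norm_adjoin, hnc, map_pow, map_mul, map_pow,
      Valuation.map_neg, map_one, one_pow, one_mul]
    haveI : FiniteDimensional (IntermediateField.adjoin M {π}) N :=
      FiniteDimensional.right M _ N
    exact pow_lt_one₀ zero_le hcV Module.finrank_pos.ne'

end

end Pool.Agent.RDP

end

section


namespace Pool.Agent.RDP

universe u v w

section

open MvPolynomial

/-- the substitution `X₂ = r` -/
noncomputable def lemB_phi {E : Type u} [Field E] (r : E) :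
    MvPolynomial (Fin 3) E →ₐ[E] MvPolynomial (Fin 2) E :=
  MvPolynomial.aeval ![X 0, X 1, C r]

theorem lemB_phi_rename {E : Type u} [Field E] (r : E) (h : MvPolynomial (Fin 2) E) :
    lemB_phi r (rename Fin.castSucc h) = h := by
  unfold lemB_phi
  rw [MvPolynomial.aeval_rename]
  have : (![X 0, X 1, C r] : Fin 3 → MvPolynomial (Fin 2) E) ∘ Fin.castSucc = X := by
    funext i
    fin_cases i <;> rfl
  rw [this, MvPolynomial.aeval_X_left_apply]

theorem lemB_phi_X2 {E : Type u} [Field E] (r : E) :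
    lemB_phi r (X 2) = C r := by
  unfold lemB_phi
  rw [MvPolynomial.aeval_X]
  rfl

theorem lemB_ker {E : Type u} [Field E] (s : E) (h : MvPolynomial (Fin 3) E) :
    h - rename Fin.castSucc (lemB_phi (-s) h) ∈
      Ideal.span {(X 2 + C s : MvPolynomial (Fin 3) E)} := by
  rw [← Ideal.Quotient.mk_eq_mk_iff_sub_mem]
  have h1 : (Ideal.Quotient.mkₐ E (Ideal.span {(X 2 + C s : MvPolynomial (Fin 3) E)})) =
      (Ideal.Quotient.mkₐ E (Ideal.span {(X 2 + C s : MvPolynomial (Fin 3) E)})).comp
        ((rename Fin.castSucc).comp (lemB_phi (-s))) := by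
    apply MvPolynomial.algHom_ext
    intro i
    rw [AlgHom.comp_apply, AlgHom.comp_apply]
    fin_cases i
    · change _ = Ideal.Quotient.mkₐ E _ (rename Fin.castSucc (lemB_phi (-s) (X 0)))
      unfold lemB_phi
      rw [MvPolynomial.aeval_X]
      change _ = Ideal.Quotient.mkₐ E _ (rename Fin.castSucc (X 0))
      rw [MvPolynomial.rename_X]
      rfl
    · change _ = Ideal.Quotient.mkₐ E _ (rename Fin.castSucc (lemB_phi (-s) (X 1)))
      unfold lemB_phi
      rw [MvPolynomial.aeval_X]
      change _ = Ideal.Quotient.mkₐ E _ (rename Fin.castSucc (X 1))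
      rw [MvPolynomial.rename_X]
      rfl
    · change Ideal.Quotient.mk _ (X 2) =
        Ideal.Quotient.mk _ (rename Fin.castSucc (lemB_phi (-s) (X 2)))
      rw [lemB_phi_X2, MvPolynomial.rename_C, Ideal.Quotient.mk_eq_mk_iff_sub_mem]
      have : (X 2 - C (-s) : MvPolynomial (Fin 3) E) = X 2 + C s := by
        rw [C_neg]; ring
      rw [this]
      exact Ideal.subset_span rfl
  exact congrArg (fun F => F h) h1

theorem lemB_phi_F {E : Type u} [Field E] (f g : MvPolynomial (Fin 2) E) (l r : E) :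
    lemB_phi r (sf f g l) = g * C (r ^ 2) - (f - C l * g) := by
  unfold sf
  rw [map_sub, map_mul, map_pow, lemB_phi_rename, lemB_phi_rename, lemB_phi_X2, C_pow]

theorem lemB_phi_F' {E : Type u} [Field E] (f g : MvPolynomial (Fin 2) E) (l s t : E)
    (hl : l = t - s ^ 2) : lemB_phi (-s) (sf f g l) = -(f - C t * g) := by
  rw [lemB_phi_F, hl, neg_sq, C_sub, C_pow]
  ring

/-- `F` does not divide `g` -/
theorem lemB_ndvd {E : Type u} [Field E] (f g : MvPolynomial (Fin 2) E) (l s t : E)
    (hl : l = t - s ^ 2) (hF : Irreducible (sf f g l)) (hg : g ≠ 0)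
    (hG : Irreducible (f - C t * g)) : ¬ sf f g l ∣ rename Fin.castSucc g := by
  intro hdvd
  have h1 : (f - C t * g) ∣ g := by
    have h2 := map_dvd (lemB_phi (-s)) hdvd
    rw [lemB_phi_F' f g l s t hl, lemB_phi_rename, neg_dvd] at h2
    exact h2
  have h3 : rename Fin.castSucc (f - C t * g) ∣ sf f g l := by
    unfold sf
    apply dvd_sub
    · exact Dvd.dvd.mul_right (map_dvd (rename Fin.castSucc : MvPolynomial (Fin 2) E →ₐ[E] _) h1) _
    · apply map_dvd (rename Fin.castSucc : MvPolynomial (Fin 2) E →ₐ[E] _)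
      have : f - C l * g = (f - C t * g) + C (t - l) * g := by rw [C_sub]; ring
      rw [this]
      exact dvd_add dvd_rfl (Dvd.dvd.mul_left h1 _)
  obtain ⟨u, hu⟩ := h3
  rcases hF.isUnit_or_isUnit hu with h4 | h4
  · apply hG.not_isUnit
    have h5 := h4.map (lemB_phi (E := E) 0)
    rw [lemB_phi_rename] at h5
    exact h5
  · obtain ⟨κ, _, hκ⟩ := MvPolynomial.isUnit_iff_eq_C_of_isReduced.1 h4
    rw [hκ] at hu
    have h6 := congrArg (lemB_phi (E := E) 0) hu
    have h7 := congrArg (lemB_phi (E := E) 1) hu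
    rw [lemB_phi_F, map_mul, lemB_phi_rename] at h6 h7
    have e0 : lemB_phi (E := E) 0 (C κ) = C κ := by
      unfold lemB_phi; simp
    have e1 : lemB_phi (E := E) 1 (C κ) = C κ := by
      unfold lemB_phi; simp
    rw [e0] at h6
    rw [e1] at h7
    apply hg
    have h8 := h7.trans h6.symm
    simp only [one_pow, map_one, mul_one, ne_eq, OfNat.ofNat_ne_zero, not_false_eq_true, zero_pow,
      map_zero, mul_zero] at h8
    linear_combination h8

theorem lemB_srf {E : Type u} [Field E] (f g : MvPolynomial (Fin 2) E) (l s t : E)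
    (hl : l = t - s ^ 2) (hF : Irreducible (sf f g l)) (hg : g ≠ 0)
    (hG : Irreducible (f - C t * g)) :
    Srf E (MvPolynomial (Fin 3) E ⧸ Ideal.span {sf f g l}) := by
  have hprime : (Ideal.span {sf f g l}).IsPrime :=
    (Ideal.span_singleton_prime hF.ne_zero).2 hF.prime
  have : IsDomain (MvPolynomial (Fin 3) E ⧸ Ideal.span {sf f g l}) :=
    Ideal.Quotient.isDomain _
  apply srf_trdeg inferInstance
  set A := MvPolynomial (Fin 3) E ⧸ Ideal.span {sf f g l} with hA
  let q : MvPolynomial (Fin 3) E →ₐ[E] A := Ideal.Quotient.mkₐ E (Ideal.span {sf f g l})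
  have hq : Function.Surjective q := Ideal.Quotient.mkₐ_surjective E _
  have hmem : ∀ h : MvPolynomial (Fin 2) E, q (rename Fin.castSucc h) ∈
      Algebra.adjoin E ({q (X 0), q (X 1)} : Set A) := by
    intro h
    have h1 : q (rename Fin.castSucc h) = MvPolynomial.aeval ![q (X 0), q (X 1)] h := by
      have h2 : (q.comp (rename Fin.castSucc)) = MvPolynomial.aeval ![q (X 0), q (X 1)] := by
        apply MvPolynomial.algHom_ext
        intro i
        rw [AlgHom.comp_apply, MvPolynomial.rename_X, MvPolynomial.aeval_X]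
        fin_cases i <;> rfl
      rw [← h2]
      rfl
    rw [h1]
    have h3 : MvPolynomial.aeval ![q (X 0), q (X 1)] h ∈
        Algebra.adjoin E (Set.range ![q (X 0), q (X 1)]) := by
      rw [Algebra.adjoin_range_eq_range_aeval]
      exact ⟨h, rfl⟩
    have h4 : Set.range ![q (X 0), q (X 1)] = ({q (X 0), q (X 1)} : Set A) := by
      ext z
      simp only [Set.mem_range, Set.mem_insert_iff, Set.mem_singleton_iff]
      constructor
      · rintro ⟨i, rfl⟩
        fin_cases i
        · exact Or.inl rfl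
        · exact Or.inr rfl
      · rintro (rfl | rfl)
        · exact ⟨0, rfl⟩
        · exact ⟨1, rfl⟩
    rw [h4] at h3
    exact h3
  have hgne : q (rename Fin.castSucc g) ≠ 0 := by
    intro h
    apply lemB_ndvd f g l s t hl hF hg hG
    rw [← Ideal.mem_span_singleton]
    exact Ideal.Quotient.eq_zero_iff_mem.1 h
  have halg : IsAlgebraic (Algebra.adjoin E ({q (X 0), q (X 1)} : Set A)) (q (X 2)) := by
    refine ⟨Polynomial.C ⟨_, hmem g⟩ * Polynomial.X ^ 2 -
      Polynomial.C ⟨_, hmem (f - C l * g)⟩, ?_, ?_⟩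
    · intro h
      have h1 := congrArg (fun P => Polynomial.coeff P 2) h
      simp only [Polynomial.coeff_sub, Polynomial.coeff_C_mul, Polynomial.coeff_X_pow,
        if_true, mul_one, Polynomial.coeff_zero] at h1
      rw [Polynomial.coeff_C_of_ne_zero (by norm_num)] at h1
      apply hgne
      rw [sub_zero] at h1
      exact congrArg Subtype.val h1
    · rw [map_sub, map_mul, map_pow, Polynomial.aeval_X, Polynomial.aeval_C, Polynomial.aeval_C]
      change q (rename Fin.castSucc g) * q (X 2) ^ 2 - q (rename Fin.castSucc (f - C l * g)) = 0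
      rw [← map_pow, ← map_mul, ← map_sub]
      exact Ideal.Quotient.eq_zero_iff_mem.2 (Ideal.subset_span rfl)
  have hall : Algebra.IsAlgebraic (Algebra.adjoin E ({q (X 0), q (X 1)} : Set A)) A := by
    constructor
    intro z
    apply IsAlgebraic.adjoin_of_forall_isAlgebraic (s := ({q (X 0), q (X 1), q (X 2)} : Set A))
    · intro x hx
      obtain ⟨hx1, hx2⟩ := hx
      simp only [Set.mem_insert_iff, Set.mem_singleton_iff] at hx1 hx2
      have : x = q (X 2) := by tauto
      rw [this]
      exact halg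
    · have hz : z ∈ Algebra.adjoin E ({q (X 0), q (X 1), q (X 2)} : Set A) := by
        obtain ⟨h, rfl⟩ := hq z
        have h1 : q h = MvPolynomial.aeval (fun i => q (X i)) h := by
          have h2 : q = MvPolynomial.aeval (fun i => q (X i)) := by
            apply MvPolynomial.algHom_ext
            intro i
            rw [MvPolynomial.aeval_X]
          exact congrArg (fun F => F h) h2
        rw [h1]
        have h3 : MvPolynomial.aeval (fun i => q (X i)) h ∈
            Algebra.adjoin E (Set.range (fun i => q (X i))) := by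
          rw [Algebra.adjoin_range_eq_range_aeval]
          exact ⟨h, rfl⟩
        refine Algebra.adjoin_mono ?_ h3
        rintro _ ⟨i, rfl⟩
        fin_cases i
        · exact Or.inl rfl
        · exact Or.inr (Or.inl rfl)
        · exact Or.inr (Or.inr rfl)
      exact isAlgebraic_algebraMap (⟨z, hz⟩ : Algebra.adjoin E _)
  refine (Algebra.IsAlgebraic.trdeg_le_cardinalMk E ({q (X 0), q (X 1)} : Set A)).trans ?_
  have : ({q (X 0), q (X 1)} : Set A) = insert (q (X 0)) {q (X 1)} := rfl
  refine (Cardinal.mk_insert_le).trans ?_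
  rw [Cardinal.mk_singleton]
  norm_num

theorem lemB_mem_c {E : Type u} [Field E] (f g : MvPolynomial (Fin 2) E) (l s t : E)
    (hl : l = t - s ^ 2) (h : MvPolynomial (Fin 3) E) :
    Ideal.Quotient.mk (Ideal.span {sf f g l}) h ∈
      Ideal.span {Ideal.Quotient.mk (Ideal.span {sf f g l}) (X 2 + C s)} ↔
      (f - C t * g) ∣ lemB_phi (-s) h := by
  have hc : lemB_phi (-s) (X 2 + C s) = 0 := by
    rw [map_add, lemB_phi_X2]
    have : lemB_phi (-s) (C s) = C s := by unfold lemB_phi; simp
    rw [this, C_neg]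
    ring
  constructor
  · intro hm
    rw [Ideal.mem_span_singleton'] at hm
    obtain ⟨u, hu⟩ := hm
    obtain ⟨u, rfl⟩ := Ideal.Quotient.mk_surjective u
    rw [← map_mul, Ideal.Quotient.mk_eq_mk_iff_sub_mem, Ideal.mem_span_singleton] at hu
    obtain ⟨v, hv⟩ := hu
    have h1 := congrArg (lemB_phi (-s)) hv
    rw [map_sub, map_mul, map_mul, hc, mul_zero, lemB_phi_F' f g l s t hl] at h1
    exact ⟨lemB_phi (-s) v, by linear_combination -h1⟩
  · rintro ⟨w, hw⟩
    have h1 := lemB_ker s h
    have h2 := lemB_ker s (rename Fin.castSucc (f - C t * g) + sf f g l)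
    rw [map_add, lemB_phi_rename, lemB_phi_F' f g l s t hl, add_neg_cancel, map_zero,
      sub_zero] at h2
    rw [hw, map_mul] at h1
    rw [Ideal.mem_span_singleton] at h1 h2 ⊢
    obtain ⟨a, ha⟩ := h1
    obtain ⟨b, hb⟩ := h2
    have hF0 : Ideal.Quotient.mk (Ideal.span {sf f g l}) (sf f g l) = 0 :=
      Ideal.Quotient.eq_zero_iff_mem.2 (Ideal.subset_span rfl)
    have e1 := congrArg (Ideal.Quotient.mk (Ideal.span {sf f g l})) ha
    have e2 := congrArg (Ideal.Quotient.mk (Ideal.span {sf f g l})) hb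
    simp only [map_sub, map_mul, map_add] at e1 e2 ⊢
    simp only [hF0, add_zero] at e2
    refine ⟨Ideal.Quotient.mk (Ideal.span {sf f g l}) a + Ideal.Quotient.mk _ b *
      Ideal.Quotient.mk _ (rename Fin.castSucc w), ?_⟩
    linear_combination e1 + Ideal.Quotient.mk _ (rename Fin.castSucc w) * e2

theorem lemB_prime {E : Type u} [Field E] (f g : MvPolynomial (Fin 2) E) (l s t : E)
    (hl : l = t - s ^ 2) (hG : Irreducible (f - C t * g)) :
    (Ideal.span {Ideal.Quotient.mk (Ideal.span {sf f g l}) (X 2 + C s)}).IsPrime := by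
  constructor
  · intro h
    rw [Ideal.eq_top_iff_one, ← map_one (Ideal.Quotient.mk (Ideal.span {sf f g l})),
      lemB_mem_c f g l s t hl, map_one] at h
    exact hG.not_isUnit (isUnit_of_dvd_one h)
  · intro x y hxy
    obtain ⟨x, rfl⟩ := Ideal.Quotient.mk_surjective x
    obtain ⟨y, rfl⟩ := Ideal.Quotient.mk_surjective y
    rw [← map_mul, lemB_mem_c f g l s t hl, map_mul] at hxy
    rw [lemB_mem_c f g l s t hl, lemB_mem_c f g l s t hl]
    exact hG.prime.dvd_or_dvd hxy

theorem lemB_notmax {E : Type u} [Field E] (f g : MvPolynomial (Fin 2) E) (l s t : E)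
    (hl : l = t - s ^ 2) (Q : Fin 2 → E)
    (hQ : MvPolynomial.eval Q (f - C t * g) = 0) :
    ¬ (Ideal.span {Ideal.Quotient.mk (Ideal.span {sf f g l}) (X 2 + C s)}).IsMaximal := by
  intro hmax
  have h1 : ∀ i : Fin 2, (f - C t * g) ∣ (X i - C (Q i)) := by
    intro i
    by_contra hnd
    have h2 : Ideal.Quotient.mk (Ideal.span {sf f g l}) (rename Fin.castSucc (X i - C (Q i))) ∉
        Ideal.span {Ideal.Quotient.mk (Ideal.span {sf f g l}) (X 2 + C s)} := by
      rw [lemB_mem_c f g l s t hl, lemB_phi_rename]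
      exact hnd
    obtain ⟨y, z, hz, hyz⟩ := hmax.exists_inv h2
    obtain ⟨y, rfl⟩ := Ideal.Quotient.mk_surjective y
    have h3 : Ideal.Quotient.mk (Ideal.span {sf f g l})
        (1 - y * rename Fin.castSucc (X i - C (Q i))) ∈
        Ideal.span {Ideal.Quotient.mk (Ideal.span {sf f g l}) (X 2 + C s)} := by
      rw [map_sub, map_one, map_mul, ← hyz, add_sub_cancel_left]
      exact hz
    rw [lemB_mem_c f g l s t hl, map_sub, map_one, map_mul, lemB_phi_rename] at h3
    obtain ⟨w, hw⟩ := h3
    have h4 := congrArg (MvPolynomial.eval Q) hw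
    rw [map_mul, hQ, zero_mul] at h4
    simp at h4
  obtain ⟨w0, hw0⟩ := h1 0
  obtain ⟨w1, hw1⟩ := h1 1
  have a00 := congrArg (fun P => MvPolynomial.eval Q (MvPolynomial.pderiv 0 P)) hw0
  have a01 := congrArg (fun P => MvPolynomial.eval Q (MvPolynomial.pderiv 1 P)) hw0
  have a11 := congrArg (fun P => MvPolynomial.eval Q (MvPolynomial.pderiv 1 P)) hw1
  simp only [MvPolynomial.pderiv_mul, map_add, map_mul, hQ, zero_mul, add_zero] at a00 a01 a11
  simp only [map_sub, MvPolynomial.pderiv_X_self, MvPolynomial.pderiv_C, map_one,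
    sub_zero] at a00 a11
  rw [map_sub, MvPolynomial.pderiv_X_of_ne (by decide), MvPolynomial.pderiv_C, sub_zero,
    map_zero] at a01
  rcases mul_eq_zero.1 a01.symm with h | h
  · rw [map_sub, map_sub] at h
    rw [h, zero_mul] at a11
    exact one_ne_zero a11
  · rw [h, mul_zero] at a00
    exact one_ne_zero a00

theorem lemB_lenpow {R : Type u} [CommRing R] (p : Ideal R) [p.IsPrime] (c x y : R) (i : ℕ)
    (hx : x = c ^ i * y) (hc : c ∉ p) :
    len p (R ⧸ Ideal.span {x}) = len p (R ⧸ Ideal.span {y}) := by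
  have hle : Ideal.span {x} ≤ Ideal.span {y} := by
    rw [Ideal.span_singleton_le_span_singleton, hx]
    exact Dvd.intro_left _ rfl
  apply len_li p (Ideal.Quotient.factorₐ R hle).toLinearMap
  · intro m hm
    obtain ⟨m, rfl⟩ := Ideal.Quotient.mk_surjective m
    refine ⟨c ^ i, fun h => hc (Ideal.IsPrime.mem_of_pow_mem inferInstance i h), ?_⟩
    have h1 : (Ideal.Quotient.mk (Ideal.span {y})) m = 0 := hm
    rw [Ideal.Quotient.eq_zero_iff_mem, Ideal.mem_span_singleton] at h1
    obtain ⟨u, hu⟩ := h1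
    rw [Algebra.smul_def]
    change Ideal.Quotient.mk _ (c ^ i) * Ideal.Quotient.mk _ m = 0
    rw [← map_mul, Ideal.Quotient.eq_zero_iff_mem, Ideal.mem_span_singleton]
    exact ⟨u, by rw [hu, hx]; ring⟩
  · intro n
    obtain ⟨n, rfl⟩ := Ideal.Quotient.mk_surjective n
    refine ⟨1, fun h => (Ideal.ne_top_iff_one p).1 (Ideal.IsPrime.ne_top inferInstance) h,
      Ideal.Quotient.mk _ n, ?_⟩
    rw [one_smul]
    rfl

theorem lemB_cy {E : Type u} [Field E] (F : MvPolynomial (Fin 3) E)
    (p : Ideal (MvPolynomial (Fin 3) E ⧸ Ideal.span {F})) (s : E) (Q : Fin 2 → E) :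
    cy (p.comap (Ideal.Quotient.mk (Ideal.span {F}))) s Q =
      len (mQ Q) ((MvPolynomial (Fin 3) E ⧸ Ideal.span {F}) ⧸
        (p ⊔ Ideal.span {Ideal.Quotient.mk (Ideal.span {F}) (X 2 + C s)})) := by
  unfold cy
  have h0 : ∀ a : MvPolynomial (Fin 3) E,
      a ∈ p.comap (Ideal.Quotient.mk (Ideal.span {F})) ⊔ Ideal.span {X 2 + C s} →
      ((Ideal.Quotient.mkₐ (MvPolynomial (Fin 2) E)
        (p ⊔ Ideal.span {Ideal.Quotient.mk (Ideal.span {F}) (X 2 + C s)})).comp
        (Ideal.Quotient.mkₐ (MvPolynomial (Fin 2) E) (Ideal.span {F}))) a = 0 := by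
    intro a ha
    change Ideal.Quotient.mk _ (Ideal.Quotient.mk _ a) = 0
    rw [Ideal.Quotient.eq_zero_iff_mem]
    rw [Submodule.mem_sup] at ha
    obtain ⟨b, hb, d, hd, rfl⟩ := ha
    rw [map_add (Ideal.Quotient.mk (Ideal.span {F})) b d]
    apply Ideal.add_mem
    · exact Ideal.mem_sup_left hb
    · apply Ideal.mem_sup_right
      rw [Ideal.mem_span_singleton] at hd ⊢
      exact map_dvd _ hd
  apply len_li (mQ Q) (Ideal.Quotient.liftₐ _ _ h0).toLinearMap
  · intro m hm
    obtain ⟨m, rfl⟩ := Ideal.Quotient.mk_surjective m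
    refine ⟨1, fun h => (Ideal.ne_top_iff_one (mQ Q)).1 (Ideal.IsPrime.ne_top inferInstance) h, ?_⟩
    rw [one_smul]
    have h1 : Ideal.Quotient.mk (p ⊔ Ideal.span {Ideal.Quotient.mk (Ideal.span {F}) (X 2 + C s)})
      (Ideal.Quotient.mk (Ideal.span {F}) m) = 0 := hm
    rw [Ideal.Quotient.eq_zero_iff_mem, Submodule.mem_sup] at h1
    obtain ⟨b, hb, d, hd, hbd⟩ := h1
    rw [Ideal.mem_span_singleton'] at hd
    obtain ⟨u, hu⟩ := hd
    obtain ⟨u, rfl⟩ := Ideal.Quotient.mk_surjective u
    rw [Ideal.Quotient.eq_zero_iff_mem, Submodule.mem_sup]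
    refine ⟨m - u * (X 2 + C s), ?_, u * (X 2 + C s), ?_, sub_add_cancel _ _⟩
    · rw [Ideal.mem_comap, map_sub, map_mul, hu, ← hbd, add_sub_cancel_right]
      exact hb
    · exact Ideal.mul_mem_left _ _ (Ideal.subset_span rfl)
  · intro n
    obtain ⟨n, rfl⟩ := Ideal.Quotient.mk_surjective n
    obtain ⟨n, rfl⟩ := Ideal.Quotient.mk_surjective n
    refine ⟨1, fun h => (Ideal.ne_top_iff_one (mQ Q)).1 (Ideal.IsPrime.ne_top inferInstance) h,
      Ideal.Quotient.mk _ n, ?_⟩
    rw [one_smul]
    rfl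

theorem lemB_oQ {E : Type u} [Field E] (f g : MvPolynomial (Fin 2) E) (l s t : E)
    (hl : l = t - s ^ 2) (a : MvPolynomial (Fin 3) E) (Q : Fin 2 → E) :
    len (mQ Q) ((MvPolynomial (Fin 3) E ⧸ Ideal.span {sf f g l}) ⧸
      (Ideal.span {Ideal.Quotient.mk (Ideal.span {sf f g l}) (X 2 + C s)} ⊔
        Ideal.span {Ideal.Quotient.mk (Ideal.span {sf f g l}) a})) =
      oQ (f - C t * g) (lemB_phi (-s) a) Q := by
  unfold oQ
  symm
  have hamap : ∀ x : MvPolynomial (Fin 2) E,
      algebraMap (MvPolynomial (Fin 2) E) ((MvPolynomial (Fin 3) E ⧸ Ideal.span {sf f g l}) ⧸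
      (Ideal.span {Ideal.Quotient.mk (Ideal.span {sf f g l}) (X 2 + C s)} ⊔
        Ideal.span {Ideal.Quotient.mk (Ideal.span {sf f g l}) a})) x =
      Ideal.Quotient.mk _ (Ideal.Quotient.mk _ (rename Fin.castSucc x)) := fun x => rfl
  have h0 : ∀ x : MvPolynomial (Fin 2) E, x ∈ Ideal.span {f - C t * g, lemB_phi (-s) a} →
      (Algebra.ofId (MvPolynomial (Fin 2) E)
      ((MvPolynomial (Fin 3) E ⧸ Ideal.span {sf f g l}) ⧸
      (Ideal.span {Ideal.Quotient.mk (Ideal.span {sf f g l}) (X 2 + C s)} ⊔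
        Ideal.span {Ideal.Quotient.mk (Ideal.span {sf f g l}) a}))) x = 0 := by
    intro x hx
    change algebraMap _ _ x = 0
    rw [Ideal.mem_span_pair] at hx
    obtain ⟨u, v, rfl⟩ := hx
    rw [hamap, Ideal.Quotient.eq_zero_iff_mem]
    have hsplit : Ideal.Quotient.mk (Ideal.span {sf f g l})
        (rename Fin.castSucc (u * (f - C t * g) + v * lemB_phi (-s) a)) =
        Ideal.Quotient.mk (Ideal.span {sf f g l}) (rename Fin.castSucc u) *
          Ideal.Quotient.mk (Ideal.span {sf f g l}) (rename Fin.castSucc (f - C t * g)) +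
        Ideal.Quotient.mk (Ideal.span {sf f g l}) (rename Fin.castSucc v) *
          Ideal.Quotient.mk (Ideal.span {sf f g l})
            (rename Fin.castSucc (lemB_phi (-s) a)) := by
      simp only [map_add, map_mul]
    rw [hsplit]
    apply Ideal.add_mem
    · apply Ideal.mul_mem_left
      apply Ideal.mem_sup_left
      rw [lemB_mem_c f g l s t hl, lemB_phi_rename]
    · apply Ideal.mul_mem_left
      have h1 := lemB_ker s a
      have h2 : Ideal.Quotient.mk (Ideal.span {sf f g l})
          (a - rename Fin.castSucc (lemB_phi (-s) a)) ∈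
          Ideal.span {Ideal.Quotient.mk (Ideal.span {sf f g l}) (X 2 + C s)} := by
        rw [Ideal.mem_span_singleton] at h1 ⊢
        exact map_dvd _ h1
      have h3 : Ideal.Quotient.mk (Ideal.span {sf f g l})
          (rename Fin.castSucc (lemB_phi (-s) a)) =
          Ideal.Quotient.mk (Ideal.span {sf f g l}) a -
          Ideal.Quotient.mk (Ideal.span {sf f g l})
          (a - rename Fin.castSucc (lemB_phi (-s) a)) := by
        rw [map_sub]; ring
      rw [h3]
      apply Ideal.sub_mem
      · exact Ideal.mem_sup_right (Ideal.subset_span rfl)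
      · exact Ideal.mem_sup_left h2
  apply len_li (mQ Q) (Ideal.Quotient.liftₐ _ _ h0).toLinearMap
  · intro m hm
    obtain ⟨m, rfl⟩ := Ideal.Quotient.mk_surjective m
    refine ⟨1, fun h => (Ideal.ne_top_iff_one (mQ Q)).1 (Ideal.IsPrime.ne_top inferInstance) h, ?_⟩
    rw [one_smul]
    have h1 : Ideal.Quotient.mk
      (Ideal.span {Ideal.Quotient.mk (Ideal.span {sf f g l}) (X 2 + C s)} ⊔
        Ideal.span {Ideal.Quotient.mk (Ideal.span {sf f g l}) a})
      (Ideal.Quotient.mk (Ideal.span {sf f g l}) (rename Fin.castSucc m)) = 0 := hm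
    rw [Ideal.Quotient.eq_zero_iff_mem, Submodule.mem_sup] at h1
    obtain ⟨b, hb, d, hd, hbd⟩ := h1
    rw [Ideal.mem_span_singleton'] at hd
    obtain ⟨v, hv⟩ := hd
    obtain ⟨v, rfl⟩ := Ideal.Quotient.mk_surjective v
    have h2 : Ideal.Quotient.mk (Ideal.span {sf f g l}) (rename Fin.castSucc m - v * a) ∈
        Ideal.span {Ideal.Quotient.mk (Ideal.span {sf f g l}) (X 2 + C s)} := by
      rw [map_sub, map_mul, hv, ← hbd, add_sub_cancel_right]
      exact hb
    rw [lemB_mem_c f g l s t hl, map_sub, map_mul, lemB_phi_rename] at h2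
    obtain ⟨w, hw⟩ := h2
    rw [Ideal.Quotient.eq_zero_iff_mem, Ideal.mem_span_pair]
    exact ⟨w, lemB_phi (-s) v, by linear_combination -hw⟩
  · intro n
    obtain ⟨n, rfl⟩ := Ideal.Quotient.mk_surjective n
    obtain ⟨n, rfl⟩ := Ideal.Quotient.mk_surjective n
    refine ⟨1, fun h => (Ideal.ne_top_iff_one (mQ Q)).1 (Ideal.IsPrime.ne_top inferInstance) h,
      Ideal.Quotient.mk _ (lemB_phi (-s) n), ?_⟩
    rw [one_smul]
    change Ideal.Quotient.mk _ (Ideal.Quotient.mk _ (rename Fin.castSucc (lemB_phi (-s) n))) =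
      Ideal.Quotient.mk _ (Ideal.Quotient.mk _ n)
    symm
    rw [Ideal.Quotient.mk_eq_mk_iff_sub_mem, ← map_sub]
    apply Ideal.mem_sup_left
    have h1 := lemB_ker s n
    rw [Ideal.mem_span_singleton] at h1 ⊢
    exact map_dvd _ h1

/-- `F` does not divide `X₂ + s` -/
theorem lemB_c_ne {E : Type u} [Field E] [Infinite E] (f g : MvPolynomial (Fin 2) E) (l s t : E)
    (hG : Irreducible (f - C t * g)) : ¬ sf f g l ∣ (X 2 + C s) := by
  classical
  intro hdvd
  have hC : ∀ r x : E, lemB_phi r (C x) = C x := by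
    intro r x
    unfold lemB_phi
    simp
  have key : ∀ r : E, r + s ≠ 0 → ∃ κ : E, g * C (r ^ 2) - (f - C l * g) = C κ := by
    intro r hr
    have h1 := map_dvd (lemB_phi r) hdvd
    rw [lemB_phi_F, map_add, lemB_phi_X2, hC, ← C_add] at h1
    have h2 : IsUnit (C (r + s) : MvPolynomial (Fin 2) E) :=
      (IsUnit.mk0 _ hr).map (C : E →+* MvPolynomial (Fin 2) E)
    obtain ⟨κ, _, hκ⟩ := MvPolynomial.isUnit_iff_eq_C_of_isReduced.1 (isUnit_of_dvd_unit h1 h2)
    exact ⟨κ, hκ⟩
  obtain ⟨r2, hr2⟩ := Infinite.exists_notMem_finset ({-s, 1 - s, -(1 - s)} : Finset E)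
  simp only [Finset.mem_insert, Finset.mem_singleton, not_or] at hr2
  obtain ⟨κ1, hκ1⟩ := key (1 - s) (by simp)
  obtain ⟨κ2, hκ2⟩ := key r2 (fun h => hr2.1 (eq_neg_of_add_eq_zero_left h))
  have hne : (1 - s) ^ 2 - r2 ^ 2 ≠ 0 := by
    intro h
    have h1 : (1 - s - r2) * (1 - s + r2) = 0 := by linear_combination h
    rcases mul_eq_zero.1 h1 with h | h
    · exact hr2.2.1 (by linear_combination -h)
    · exact hr2.2.2 (by linear_combination h)
  have hg1 : g = C ((κ1 - κ2) * ((1 - s) ^ 2 - r2 ^ 2)⁻¹) := by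
    have h1 : g * C ((1 - s) ^ 2 - r2 ^ 2) = C (κ1 - κ2) := by
      rw [C_sub, C_sub]
      linear_combination hκ1 - hκ2
    have h2 : (C ((1 - s) ^ 2 - r2 ^ 2) * C (((1 - s) ^ 2 - r2 ^ 2)⁻¹) :
        MvPolynomial (Fin 2) E) = 1 := by
      rw [← C_mul, mul_inv_cancel₀ hne, C_1]
    rw [C_mul, ← h1]
    linear_combination -g * h2
  generalize (κ1 - κ2) * ((1 - s) ^ 2 - r2 ^ 2)⁻¹ = γ at hg1
  have hf1 : f = C (γ * (1 - s) ^ 2 + l * γ - κ1) := by
    rw [C_sub, C_add, C_mul, C_mul, ← hg1]
    linear_combination -hκ1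
  have hGc : f - C t * g = C (γ * (1 - s) ^ 2 + l * γ - κ1 - t * γ) := by
    have e : (C (γ * (1 - s) ^ 2 + l * γ - κ1 - t * γ) : MvPolynomial (Fin 2) E) =
        C (γ * (1 - s) ^ 2 + l * γ - κ1) - C t * C γ := by
      rw [map_sub C, map_mul C t γ]
    rw [e, ← hg1, ← hf1]
  generalize γ * (1 - s) ^ 2 + l * γ - κ1 - t * γ = x at hGc
  rw [hGc] at hG
  by_cases hx : x = 0
  · rw [hx, C_0] at hG
    exact hG.ne_zero rfl
  · exact hG.not_isUnit ((IsUnit.mk0 _ hx).map (C : E →+* MvPolynomial (Fin 2) E))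

/-- the curve `w = - s` of the surface is the only nonmaximal prime which contains `w + s` -/
theorem lemB_all {E : Type u} [Field E] {B : Type u} [CommRing B] [Algebra E B] (hB : Srf E B)
    (c : B) (hP : (Ideal.span {c}).IsPrime) (hc : c ≠ 0) (p : Ideal B) (hp : p.IsPrime)
    (hcp : c ∈ p) : p.IsMaximal ∨ p = Ideal.span {c} := by
  by_cases hpe : p = Ideal.span {c}
  · exact Or.inr hpe
  · left
    have hle : Ideal.span {c} ≤ p := by
      rw [Ideal.span_le, Set.singleton_subset_iff]
      exact hcp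
    have hne : Ideal.span {c} ≠ ⊥ := by
      rw [Ne, Ideal.span_singleton_eq_bot]
      exact hc
    have hd := hB.d2 (Ideal.span {c}) hP hne
    have hsurj : Function.Surjective (Ideal.Quotient.mk (Ideal.span {c})) :=
      Ideal.Quotient.mk_surjective
    have hpm : (p.map (Ideal.Quotient.mk (Ideal.span {c}))).IsPrime :=
      Ideal.map_isPrime_of_surjective hsurj (by rw [Ideal.mk_ker]; exact hle)
    have hcm : (p.map (Ideal.Quotient.mk (Ideal.span {c}))).comap
        (Ideal.Quotient.mk (Ideal.span {c})) = p := by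
      rw [Ideal.comap_map_of_surjective' _ hsurj, Ideal.mk_ker]
      exact sup_eq_left.2 hle
    have hbot : p.map (Ideal.Quotient.mk (Ideal.span {c})) ≠ ⊥ := by
      intro h
      rw [h, ← RingHom.ker_eq_comap_bot, Ideal.mk_ker] at hcm
      exact hpe hcm.symm
    have hmax : (p.map (Ideal.Quotient.mk (Ideal.span {c}))).IsMaximal :=
      hd.maximalOfPrime hbot hpm
    rw [← hcm]
    exact Ideal.comap_isMaximal_of_surjective _ hsurj

end

section

theorem lemB {E : Type u} [Field E] [IsAlgClosed E] (f g : MvPolynomial (Fin 2) E) (l s t : E)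
    (hl : l = t - s ^ 2) (hF : Irreducible (sf f g l)) (hg : g ≠ 0)
    (hG : Irreducible (f - MvPolynomial.C t * g)) (a : MvPolynomial (Fin 3) E)
    (ha : ¬ sf f g l ∣ a) :
    ∃ D : (Fin 2 → E) → ℤ, Pri (f - MvPolynomial.C t * g) g D ∧
      ∀ 𝒥 : Finset (PrimeSpectrum (MvPolynomial (Fin 3) E)),
        (∀ J ∈ 𝒥, Cu (sf f g l) J ∧ MvPolynomial.X 2 + MvPolynomial.C s ∉ J.asIdeal) →
        (∀ J : PrimeSpectrum (MvPolynomial (Fin 3) E), Cu (sf f g l) J → a ∈ J.asIdeal →
          MvPolynomial.X 2 + MvPolynomial.C s ∉ J.asIdeal → J ∈ 𝒥) →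
        ∀ Q, Gp (f - MvPolynomial.C t * g) g Q →
          D Q = ∑ J ∈ 𝒥, ((oJ (sf f g l) J.asIdeal a).toNat : ℤ) * (cy J.asIdeal s Q).toNat := by
  classical
  have hinf : Infinite E := inferInstance
  have hprime : (Ideal.span {sf f g l}).IsPrime :=
    (Ideal.span_singleton_prime hF.ne_zero).2 hF.prime
  have hdom : IsDomain (MvPolynomial (Fin 3) E ⧸ Ideal.span {sf f g l}) :=
    Ideal.Quotient.isDomain _
  have hB := lemB_srf f g l s t hl hF hg hG
  have hP := lemB_prime f g l s t hl hG
  have hc0 : Ideal.Quotient.mk (Ideal.span {sf f g l}) (MvPolynomial.X 2 + MvPolynomial.C s) ≠ 0 := by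
    intro h
    exact lemB_c_ne f g l s t hG (Ideal.mem_span_singleton.1 (Ideal.Quotient.eq_zero_iff_mem.1 h))
  have hcu : ¬ IsUnit
      (Ideal.Quotient.mk (Ideal.span {sf f g l}) (MvPolynomial.X 2 + MvPolynomial.C s)) :=
    fun h => hP.ne_top (Ideal.span_singleton_eq_top.2 h)
  have ha0 : Ideal.Quotient.mk (Ideal.span {sf f g l}) a ≠ 0 := fun h =>
    ha (Ideal.mem_span_singleton.1 (Ideal.Quotient.eq_zero_iff_mem.1 h))
  obtain ⟨i, a1, hnd, hai⟩ := WfDvdMonoid.max_power_factor' ha0 hcu
  obtain ⟨a1, rfl⟩ := Ideal.Quotient.mk_surjective a1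
  have ha10 : Ideal.Quotient.mk (Ideal.span {sf f g l}) a1 ≠ 0 := by
    intro h
    rw [h, mul_zero] at hai
    exact ha0 hai
  have hna1 : Ideal.Quotient.mk (Ideal.span {sf f g l}) a1 ∉ Ideal.span
      {Ideal.Quotient.mk (Ideal.span {sf f g l}) (MvPolynomial.X 2 + MvPolynomial.C s)} :=
    fun h => hnd (Ideal.mem_span_singleton.1 h)
  have hG1 : ¬ (f - MvPolynomial.C t * g) ∣ lemB_phi (-s) a1 :=
    fun h => hna1 ((lemB_mem_c f g l s t hl a1).2 h)
  refine ⟨fun Q => ((oQ (f - MvPolynomial.C t * g) (lemB_phi (-s) a1) Q).toNat : ℤ),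
    pri_poly _ g _ hG hG1, ?_⟩
  intro 𝒥 h𝒥1 h𝒥2 Q hQ
  have hnotmax := lemB_notmax f g l s t hl Q hQ.1
  have hmem1 : ∀ p : PrimeSpectrum (MvPolynomial (Fin 3) E ⧸ Ideal.span {sf f g l}),
      Ideal.Quotient.mk (Ideal.span {sf f g l}) (MvPolynomial.X 2 + MvPolynomial.C s) ∉ p.asIdeal →
      (Ideal.Quotient.mk (Ideal.span {sf f g l}) a ∈ p.asIdeal ↔
        Ideal.Quotient.mk (Ideal.span {sf f g l}) a1 ∈ p.asIdeal) := by
    intro p hcp
    rw [hai]
    constructor
    · intro h
      rcases p.isPrime.mem_or_mem h with h | h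
      · exact absurd (p.isPrime.mem_of_pow_mem i h) hcp
      · exact h
    · exact fun h => Ideal.mul_mem_left _ _ h
  have hSb : Cur (Ideal.Quotient.mk (Ideal.span {sf f g l})
      (MvPolynomial.X 2 + MvPolynomial.C s))
      {(⟨_, hP⟩ : PrimeSpectrum (MvPolynomial (Fin 3) E ⧸ Ideal.span {sf f g l}))} := by
    constructor
    · intro p hp
      rw [Finset.mem_singleton] at hp
      rw [hp]
      exact ⟨Ideal.subset_span rfl, hnotmax⟩
    · intro p hcp
      rcases lemB_all hB _ hP hc0 p.asIdeal p.isPrime hcp with h | h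
      · exact Or.inl h
      · right
        rw [Finset.mem_singleton]
        exact PrimeSpectrum.ext h
    · intro p hp p' hp' _
      rw [Finset.mem_singleton] at hp hp'
      rw [hp, hp']
  obtain ⟨Sa, hSa⟩ := cur_ex hB (Ideal.Quotient.mk (Ideal.span {sf f g l}) a1) ha10
  have hd : ∀ p ∈ Sa, Ideal.Quotient.mk (Ideal.span {sf f g l})
      (MvPolynomial.X 2 + MvPolynomial.C s) ∉ p.asIdeal := by
    intro p hp hcp
    obtain ⟨h1, h2⟩ := hSa.mem p hp
    rcases lemB_all hB _ hP hc0 p.asIdeal p.isPrime hcp with h | h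
    · exact h2 h
    · rw [h] at h1
      exact hna1 h1
  have hcomm := comm hB Q _ _ ha10 hc0 Sa _ hSa hSb hd
  rw [Finset.sum_singleton] at hcomm
  have hres : len (⟨_, hP⟩ : PrimeSpectrum (MvPolynomial (Fin 3) E ⧸
      Ideal.span {sf f g l})).asIdeal ((MvPolynomial (Fin 3) E ⧸ Ideal.span {sf f g l}) ⧸
      Ideal.span {Ideal.Quotient.mk (Ideal.span {sf f g l})
        (MvPolynomial.X 2 + MvPolynomial.C s)}) = 1 := len_res _
  rw [hres, one_mul] at hcomm
  have hoQ := lemB_oQ f g l s t hl a1 Q
  have hcomm' := hcomm.trans hoQ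
  have hsum : ((∑ p ∈ Sa, (len p.asIdeal ((MvPolynomial (Fin 3) E ⧸ Ideal.span {sf f g l}) ⧸
      Ideal.span {Ideal.Quotient.mk (Ideal.span {sf f g l}) a1})).toNat *
      (len (mQ Q) ((MvPolynomial (Fin 3) E ⧸ Ideal.span {sf f g l}) ⧸ (p.asIdeal ⊔
      Ideal.span {Ideal.Quotient.mk (Ideal.span {sf f g l})
        (MvPolynomial.X 2 + MvPolynomial.C s)}))).toNat : ℕ) : ℕ∞) =
      oQ (f - MvPolynomial.C t * g) (lemB_phi (-s) a1) Q := by
    rw [← hcomm', Nat.cast_sum]
    apply Finset.sum_congr rfl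
    intro p hp
    rw [Nat.cast_mul]
    have hpb : p.asIdeal ≠ ⊥ := by
      intro h
      have h1 := (hSa.mem p hp).1
      rw [h, Ideal.mem_bot] at h1
      exact ha10 h1
    rw [ENat.natCast_toNat (len_fin1 hB _ ha10 p.asIdeal (hSa.mem p hp).2),
      ENat.natCast_toNat (len_fin2 hB Q p.asIdeal hpb _ (hd p hp))]
  have hnat := congrArg ENat.toNat hsum
  rw [ENat.toNat_natCast] at hnat
  change ((oQ (f - MvPolynomial.C t * g) (lemB_phi (-s) a1) Q).toNat : ℤ) = _
  rw [← hnat, Nat.cast_sum, ← Finset.sum_filter_add_sum_filter_not 𝒥 (fun J => a ∈ J.asIdeal)]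
  have hzero : ∑ J ∈ 𝒥.filter (fun J => ¬ a ∈ J.asIdeal),
      ((oJ (sf f g l) J.asIdeal a).toNat : ℤ) * (cy J.asIdeal s Q).toNat = 0 := by
    apply Finset.sum_eq_zero
    intro J hJ
    rw [Finset.mem_filter] at hJ
    have h1 : oJ (sf f g l) J.asIdeal a = 0 := by
      apply len_kill J.asIdeal a hJ.2
      intro m
      obtain ⟨m, rfl⟩ := Ideal.Quotient.mk_surjective m
      change Ideal.Quotient.mk _ (a * m) = 0
      rw [Ideal.Quotient.eq_zero_iff_mem]
      apply Ideal.mul_mem_right
      exact Ideal.subset_span (Set.mem_insert_of_mem _ rfl)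
    rw [h1]
    simp
  rw [hzero, add_zero]
  apply Finset.sum_nbij (fun p => PrimeSpectrum.comap
    (Ideal.Quotient.mk (Ideal.span {sf f g l})) p)
  · intro p hp
    rw [Finset.mem_filter]
    have hcp := hd p hp
    obtain ⟨h1, h2⟩ := hSa.mem p hp
    have hap : a ∈ (PrimeSpectrum.comap (Ideal.Quotient.mk (Ideal.span {sf f g l})) p).asIdeal :=
      (hmem1 p hcp).2 h1
    refine ⟨h𝒥2 _ ?_ hap hcp, hap⟩
    constructor
    · intro hmax
      apply h2
      have h3 : (p.asIdeal.comap (Ideal.Quotient.mk (Ideal.span {sf f g l}))).IsMaximal := hmax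
      have h4 := Ideal.map_comap_of_surjective (Ideal.Quotient.mk (Ideal.span {sf f g l}))
        Ideal.Quotient.mk_surjective p.asIdeal
      rw [← h4]
      rcases Ideal.map_eq_top_or_isMaximal_of_surjective
        (Ideal.Quotient.mk (Ideal.span {sf f g l})) Ideal.Quotient.mk_surjective h3 with h5 | h5
      · rw [h4] at h5
        exact absurd h5 p.isPrime.ne_top
      · exact h5
    · change Ideal.Quotient.mk (Ideal.span {sf f g l}) (sf f g l) ∈ p.asIdeal
      have h0 : Ideal.Quotient.mk (Ideal.span {sf f g l}) (sf f g l) = 0 :=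
        Ideal.Quotient.eq_zero_iff_mem.2 (Ideal.subset_span rfl)
      rw [h0]
      exact Ideal.zero_mem _
    · intro h
      have h3 : a ∈ Ideal.span {sf f g l} := by
        rw [← h]
        exact hap
      exact ha (Ideal.mem_span_singleton.1 h3)
  · intro p _ p' _ hpp
    exact PrimeSpectrum.comap_injective_of_surjective _ Ideal.Quotient.mk_surjective hpp
  · intro J hJ
    rw [Finset.mem_coe, Finset.mem_filter] at hJ
    obtain ⟨hJ1, haJ⟩ := hJ
    obtain ⟨hCu, hcJ⟩ := h𝒥1 J hJ1
    have hle : Ideal.span {sf f g l} ≤ J.asIdeal := by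
      rw [Ideal.span_le, Set.singleton_subset_iff]
      exact hCu.mem
    have hpm : (J.asIdeal.map (Ideal.Quotient.mk (Ideal.span {sf f g l}))).IsPrime :=
      Ideal.map_isPrime_of_surjective Ideal.Quotient.mk_surjective (by rw [Ideal.mk_ker]; exact hle)
    have hcm : (J.asIdeal.map (Ideal.Quotient.mk (Ideal.span {sf f g l}))).comap
        (Ideal.Quotient.mk (Ideal.span {sf f g l})) = J.asIdeal := by
      rw [Ideal.comap_map_of_surjective' _ Ideal.Quotient.mk_surjective, Ideal.mk_ker]
      exact sup_eq_left.2 hle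
    have hcp : Ideal.Quotient.mk (Ideal.span {sf f g l})
        (MvPolynomial.X 2 + MvPolynomial.C s) ∉
        J.asIdeal.map (Ideal.Quotient.mk (Ideal.span {sf f g l})) := by
      intro h
      apply hcJ
      rw [← hcm]
      exact h
    have hap : Ideal.Quotient.mk (Ideal.span {sf f g l}) a1 ∈
        J.asIdeal.map (Ideal.Quotient.mk (Ideal.span {sf f g l})) := by
      apply (hmem1 ⟨_, hpm⟩ hcp).1
      exact Ideal.mem_map_of_mem _ haJ
    refine ⟨⟨_, hpm⟩, ?_, PrimeSpectrum.ext hcm⟩
    rw [Finset.mem_coe]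
    rcases hSa.all ⟨_, hpm⟩ hap with h | h
    · exfalso
      apply hCu.nm
      rw [← hcm]
      have h' : (J.asIdeal.map (Ideal.Quotient.mk (Ideal.span {sf f g l}))).IsMaximal := h
      exact Ideal.comap_isMaximal_of_surjective _ Ideal.Quotient.mk_surjective
    · exact h
  · intro p hp
    have e1 : oJ (sf f g l) (PrimeSpectrum.comap
        (Ideal.Quotient.mk (Ideal.span {sf f g l})) p).asIdeal a =
        len p.asIdeal ((MvPolynomial (Fin 3) E ⧸ Ideal.span {sf f g l}) ⧸
      Ideal.span {Ideal.Quotient.mk (Ideal.span {sf f g l}) a1}) := by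
      exact (oJ_q (sf f g l) p.asIdeal (PrimeSpectrum.comap
        (Ideal.Quotient.mk (Ideal.span {sf f g l})) p).asIdeal rfl a).trans
        (lemB_lenpow p.asIdeal _ _ _ i hai (hd p hp))
    have e2 := lemB_cy (sf f g l) p.asIdeal s Q
    have e2' : cy (PrimeSpectrum.comap
        (Ideal.Quotient.mk (Ideal.span {sf f g l})) p).asIdeal s Q = _ := e2
    rw [e1, e2', Nat.cast_mul]

end

end Pool.Agent.RDP

end
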