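import Pool.Agent.RDM.Dpu
import Pool.Agent.TBM.Main

/-!
# The relation between a generic point and conjugate zero cycles
-/

set_option autoImplicit false

namespace Pool.Agent.RDP

open Pool.Agent.TBR

universe u

/-- The relation REL. `G = 0` is a curve over `k(z)`, `P` a generic point; the `E i` are finite sums
of points which are not algebraic over `k(z)`, defined over the field `L i`; `n₀ P + ∑ n i E i` is
principal up to points which are algebraic over `k(z)`. -/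
structure RelD (k : Type u) {Ω : Type u} [Field k] [Field Ω] [Algebra k Ω] (z : Ω)
    (P : Fin 2 → Ω) (G g : MvPolynomial (Fin 2) Ω) (n₀ : ℕ) {m : ℕ} (n : Fin m → ℤ)
    (E : Fin m → (Fin 2 → Ω) → ℕ) (L : Fin m → IntermediateField k Ω) : Prop where
  zt : Transcendental k z
  cfG : Cf (IntermediateField.adjoin k {z} : Set Ω) G
  cfg : Cf (IntermediateField.adjoin k {z} : Set Ω) g
  irr : Irreducible G
  gg : ¬ G ∣ g
  zero : MvPolynomial.eval P G = 0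
  gen : ¬ ∀ i, P i ∈ Acl k z
  pos : 0 < n₀
  fg : ∀ i, (L i).FG
  mem : ∀ i, z ∈ L i
  al : ∀ i, ∀ x : Ω, IsAlgebraic (L i) x
  inv : ∀ i, ∀ σ ∈ Fx k (L i : Set Ω), ∀ Q : Fin 2 → Ω, (¬ ∀ j, Q j ∈ Acl k z) →
    E i (fun j => σ (Q j)) = E i Q
  fin : ∀ i, {Q : Fin 2 → Ω | (¬ ∀ j, Q j ∈ Acl k z) ∧ E i Q ≠ 0}.Finite
  on : ∀ i, ∀ Q : Fin 2 → Ω, (¬ ∀ j, Q j ∈ Acl k z) → E i Q ≠ 0 → MvPolynomial.eval Q G = 0
  rel : ∃ D : (Fin 2 → Ω) → ℤ, Pri G g D ∧ ∀ Q : Fin 2 → Ω, MvPolynomial.eval Q G = 0 →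
    (¬ ∀ j, Q j ∈ Acl k z) → ((Q = P → D Q = n₀ + ∑ i, n i * (E i Q : ℤ)) ∧
      (Q ≠ P → D Q = ∑ i, n i * (E i Q : ℤ)))

end Pool.Agent.RDP
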