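import Pool.Agent.RDM.Rd
import Pool.Agent.RDM.Rel
import Pool.Agent.RDM.Len
import Pool.Agent.RDM.A1
import Pool.Agent.RDM.Dv
import Pool.Agent.RDM.A4
import Pool.Agent.RDM.A2
import Pool.Agent.RDM.B2

/-!
# Finiteness
-/

set_option autoImplicit false

section


namespace Pool.Agent.RDP

open Pool.Agent.TBR Polynomial Pool.Agent.TQU

universe u v w

section

theorem acl_tz {k E : Type u} [Field k] [Field E] [Algebra k E] (φ : k[X]) (z t : E)
    (hz : aeval z φ = t) (htt : Transcendental k t) :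
    Transcendental k z ∧ Acl k t = Acl k z ∧ t ∈ IntermediateField.adjoin k {z} := by
  have hmem : t ∈ IntermediateField.adjoin k {z} := by
    rw [← hz]
    exact (Algebra.adjoin_le_iff.mpr (Set.singleton_subset_iff.mpr (IntermediateField.mem_adjoin_simple_self k z)) : Algebra.adjoin k {z} ≤ (IntermediateField.adjoin k {z}).toSubalgebra) (aeval_mem_adjoin_singleton k z)
  have htz : Transcendental k z := by
    intro h
    apply htt
    have h1 : aeval z φ ∈ integralClosure k E :=
      (Algebra.adjoin_le_iff.mpr (Set.singleton_subset_iff.mpr h.isIntegral) :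
        Algebra.adjoin k {z} ≤ integralClosure k E) (aeval_mem_adjoin_singleton k z)
    rw [hz] at h1
    exact h1.isAlgebraic
  refine ⟨htz, ?_, hmem⟩
  have hzt : IsAlgebraic (IntermediateField.adjoin k {t}) z := by
    refine ⟨φ.map (algebraMap k (IntermediateField.adjoin k {t})) -
      C ⟨t, IntermediateField.mem_adjoin_simple_self k t⟩, ?_, ?_⟩
    · intro h0
      have h1 : φ.map (algebraMap k (IntermediateField.adjoin k {t})) =
          C ⟨t, IntermediateField.mem_adjoin_simple_self k t⟩ := sub_eq_zero.mp h0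
      have h2 := congrArg (fun p => p.coeff 0) h1
      simp only [coeff_map, coeff_C_zero] at h2
      have h3 := congrArg (algebraMap (IntermediateField.adjoin k {t}) E) h2
      apply htt
      have h4 : algebraMap k E (φ.coeff 0) = t := by
        rw [IsScalarTower.algebraMap_apply k (IntermediateField.adjoin k {t}) E]
        exact h3
      rw [← h4]
      exact isAlgebraic_algebraMap _
    · rw [map_sub, aeval_map_algebraMap, hz, aeval_C]
      exact sub_self _
  have hle : IntermediateField.adjoin k {t} ≤ IntermediateField.adjoin k {z} := by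
    rw [IntermediateField.adjoin_simple_le_iff]
    exact hmem
  ext y
  constructor
  · rintro ⟨p, hp0, hp⟩
    refine ⟨p.map (IntermediateField.inclusion hle).toRingHom, ?_, ?_⟩
    · exact (Polynomial.map_ne_zero_iff (IntermediateField.inclusion hle).toRingHom.injective).mpr hp0
    · rw [aeval_def, eval₂_map]
      exact hp
  · intro hy
    have hy' : IsAlgebraic (IntermediateField.adjoin k {z}) y := hy
    show IsAlgebraic (IntermediateField.adjoin k {t}) y
    set K := IntermediateField.adjoin k {t} with hK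
    set M := IntermediateField.adjoin K {z} with hM
    have halgM : Algebra.IsAlgebraic K M :=
      IntermediateField.isAlgebraic_adjoin_simple hzt.isIntegral
    have hle2 : IntermediateField.adjoin k {z} ≤ M.restrictScalars k := by
      rw [IntermediateField.adjoin_simple_le_iff]
      exact IntermediateField.mem_adjoin_simple_self K z
    have hyM : IsAlgebraic M y := by
      obtain ⟨p, hp0, hp⟩ := hy'
      refine ⟨p.map (IntermediateField.inclusion hle2).toRingHom, ?_, ?_⟩
      · exact (Polynomial.map_ne_zero_iff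
          (IntermediateField.inclusion hle2).toRingHom.injective).mpr hp0
      · rw [aeval_def, eval₂_map]
        exact hp
    exact hyM.restrictScalars K

end

end Pool.Agent.RDP

end

section


namespace Pool.Agent.RDP

open Pool.Agent.TBR Polynomial Pool.Agent.TQU

universe u v w

section

theorem alg2 {k E : Type u} [Field k] [Field E] [Algebra k E] (z : E) (P : Fin 2 → E)
    (hz : Transcendental k z) (hK : ∀ x : E, IsAlgebraic
      (IntermediateField.adjoin k ({z} ∪ Set.range P)) x)
    (hzP : IsAlgebraic (IntermediateField.adjoin k (Set.range P)) z) (L : IntermediateField k E)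
    (hzL : z ∈ L) (x : E) (hxL : x ∈ L) (hx : x ∉ Acl k z) (y : E) : IsAlgebraic L y := by
  classical
  have h1 : ∀ x : E, IsAlgebraic (Algebra.adjoin k (Set.range P)) x := by
    intro x
    have h2 := IntermediateField.isAlgebraic_adjoin_iff.mp (hK x)
    refine h2.adjoin_of_forall_isAlgebraic ?_
    rintro y ⟨hy, hyn⟩
    rcases hy with hy | hy
    · rw [Set.mem_singleton_iff.mp hy]
      exact IntermediateField.isAlgebraic_adjoin_iff.mp hzP
    · exact (hyn hy).elim
  have h3 : Algebra.IsAlgebraic (Algebra.adjoin k (Set.range P)) E := ⟨h1⟩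
  have h4 : Algebra.trdeg k E ≤ 2 := by
    refine (Algebra.IsAlgebraic.trdeg_le_cardinalMk k (Set.range P)).trans ?_
    have h41 : (Set.range P : Set E) = {P 0, P 1} := by
      ext e
      simp only [Set.mem_range, Fin.exists_fin_two, Set.mem_insert_iff, Set.mem_singleton_iff]
      constructor
      · rintro (h | h)
        · exact Or.inl h.symm
        · exact Or.inr h.symm
      · rintro (h | h)
        · exact Or.inl h.symm
        · exact Or.inr h.symm
    rw [h41]
    refine (Cardinal.mk_insert_le).trans ?_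
    rw [Cardinal.mk_singleton]
    norm_num
  have h5 : AlgebraicIndependent k (fun _ : Unit => z) :=
    algebraicIndependent_unique_type_iff.2 hz
  have h6 : Transcendental (Algebra.adjoin k (Set.range (fun _ : Unit => z))) x := by
    rw [Set.range_const]
    intro hcon
    exact hx (IntermediateField.isAlgebraic_adjoin_iff.mpr hcon)
  have h7 : AlgebraicIndependent k (fun o : Option Unit => o.elim x (fun _ => z)) :=
    (h5.option_iff_transcendental x).mpr h6
  have h8 : IsTranscendenceBasis k (fun o : Option Unit => o.elim x (fun _ => z)) := by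
    refine h7.isTranscendenceBasis_of_lift_trdeg_le_of_finite ?_
    have h9 : Cardinal.mk (Option Unit) = 2 := by simp
    rw [h9]
    simpa using h4
  have h10 := h8.isAlgebraic.isAlgebraic y
  have hle : Algebra.adjoin k (Set.range (fun o : Option Unit => o.elim x (fun _ => z))) ≤
      L.toSubalgebra := by
    rw [Algebra.adjoin_le_iff]
    rintro e ⟨o, rfl⟩
    cases o with
    | none => exact hxL
    | some _ => exact hzL
  exact h10.tower_top_of_subalgebra_le hle

end

end Pool.Agent.RDP

end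

section


namespace Pool.Agent.RDP

open Pool.Agent.TBR Polynomial Pool.Agent.TQU

universe u v w

section

private theorem cy_fin_lt {E : Type u} [Field E] {B : Type u} [CommRing B] [Algebra E B] [IsDomain B]
    (hfin : Algebra.trdeg E B < Cardinal.aleph0) (p : Ideal B) (hp : p.IsPrime) (hp0 : p ≠ ⊥) :
    Algebra.trdeg E (B ⧸ p) < Algebra.trdeg E B := by
  have := hp
  have : IsDomain (B ⧸ p) := Ideal.Quotient.isDomain p
  by_contra hcon
  rw [not_lt] at hcon
  obtain ⟨s, hs⟩ := exists_isTranscendenceBasis E (B ⧸ p)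
  have hcard := hs.cardinalMk_eq_trdeg
  choose x hx using fun i : s => Ideal.Quotient.mk_surjective (I := p) i.1
  have hcomp : ((Ideal.Quotient.mkₐ E p) ∘ x) = ((↑) : s → B ⧸ p) := by
    funext i
    exact hx i
  have hind : AlgebraicIndependent E x := by
    apply AlgebraicIndependent.of_comp (Ideal.Quotient.mkₐ E p)
    rw [hcomp]
    exact hs.1
  have hbas : IsTranscendenceBasis E x :=
    hind.isTranscendenceBasis_of_trdeg_le hfin (by rw [hcard]; exact hcon)
  have halg : Algebra.IsAlgebraic (Algebra.adjoin E (Set.range x)) B := hbas.isAlgebraic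
  obtain ⟨f, hfp, hf0⟩ := Submodule.exists_mem_ne_zero_of_ne_bot hp0
  obtain ⟨r, hr0, hr⟩ := (halg.isAlgebraic f).exists_nonzero_dvd (mem_nonZeroDivisors_of_ne_zero hf0)
  have hrp : (r : B) ∈ p := Ideal.mem_of_dvd p hr hfp
  have hr2 : (r : B) ∈ (MvPolynomial.aeval x : MvPolynomial s E →ₐ[E] B).range := by
    rw [← Algebra.adjoin_range_eq_range_aeval]
    exact r.2
  obtain ⟨P, hP⟩ := hr2
  have hP' : MvPolynomial.aeval x P = (r : B) := hP
  have h0 : MvPolynomial.aeval ((↑) : s → B ⧸ p) P = 0 := by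
    rw [← hcomp]
    have h1 : (MvPolynomial.aeval ((Ideal.Quotient.mkₐ E p) ∘ x)) P =
        (Ideal.Quotient.mkₐ E p) (MvPolynomial.aeval x P) :=
      (MvPolynomial.comp_aeval_apply (f := x) (φ := Ideal.Quotient.mkₐ E p) P).symm
    rw [h1, hP']
    exact Ideal.Quotient.eq_zero_iff_mem.2 hrp
  have hP0 : P = 0 := (algebraicIndependent_iff.1 hs.1) P h0
  rw [hP0, map_zero] at hP'
  exact hr0 (Subtype.ext hP'.symm)

/-- a domain with strictly decreasing degrees: degree zero -/
private theorem cy_fin_zero {c : Cardinal.{u}} (h : c < 1) : c = 0 := by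
  rwa [Cardinal.lt_one_iff] at h

private theorem cy_fin_lt_one {c d : Cardinal.{u}} (h1 : c < d) (h2 : d < 2) : c < 1 := by
  obtain ⟨n, hn⟩ := Cardinal.lt_aleph0.1 (lt_trans h2 (Cardinal.natCast_lt_aleph0 (n := 2)))
  rw [hn] at h1 h2
  have h3 : n < 2 := by exact_mod_cast h2
  have h4 : (n : Cardinal.{u}) ≤ 1 := by exact_mod_cast (show n ≤ 1 by omega)
  exact lt_of_lt_of_le h1 h4

private theorem cy_fin_A {E : Type u} [Field E] {D : Type u} [CommRing D] [IsDomain D]
    [Algebra E D] (x : Fin 3 → D) (hx : Algebra.adjoin E (Set.range x) = ⊤)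
    (h : MvPolynomial (Fin 2) E) (h0 : h ≠ 0) (hh : MvPolynomial.aeval ![x 0, x 1] h = 0)
    (a b : D) (ha : a ∈ Algebra.adjoin E {x 0, x 1}) (ha0 : a ≠ 0)
    (hb : b ∈ Algebra.adjoin E {x 0, x 1}) (hab : a * x 2 ^ 2 = b) : Algebra.trdeg E D ≤ 1 := by
  set S := Algebra.adjoin E ({x 0, x 1} : Set D) with hS
  have h2 : IsAlgebraic S (x 2) := by
    refine ⟨Polynomial.C ⟨a, ha⟩ * Polynomial.X ^ 2 - Polynomial.C ⟨b, hb⟩, ?_, ?_⟩
    · intro h3
      have h4 := congrArg (fun p => Polynomial.coeff p 2) h3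
      simp only [Polynomial.coeff_sub, Polynomial.coeff_C_mul, Polynomial.coeff_X_pow,
        if_true, mul_one, Polynomial.coeff_C, Polynomial.coeff_zero] at h4
      have h5 : (⟨a, ha⟩ : S) = 0 := by simpa using h4
      exact ha0 (congrArg Subtype.val h5)
    · simp only [map_sub, map_mul, Polynomial.aeval_C, map_pow, Polynomial.aeval_X]
      change a * x 2 ^ 2 - b = 0
      rw [hab, sub_self]
  have halg : Algebra.IsAlgebraic S D := by
    refine ⟨fun d => ?_⟩
    have hd : d ∈ Algebra.adjoin E (Set.range x) := by rw [hx]; trivial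
    induction hd using Algebra.adjoin_induction with
    | mem d hd =>
      obtain ⟨i, rfl⟩ := hd
      fin_cases i
      · exact isAlgebraic_algebraMap (⟨x 0, Algebra.subset_adjoin (Or.inl rfl)⟩ : S)
      · exact isAlgebraic_algebraMap (⟨x 1, Algebra.subset_adjoin (Or.inr rfl)⟩ : S)
      · exact h2
    | algebraMap e =>
      rw [IsScalarTower.algebraMap_apply E S D]
      exact isAlgebraic_algebraMap _
    | add y z _ _ hy hz => exact hy.add hz
    | mul y z _ _ hy hz => exact hy.mul hz
  obtain ⟨t, ht, hb⟩ := exists_isTranscendenceBasis_subset (R := E) ({x 0, x 1} : Set D)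
  rw [← hb.cardinalMk_eq_trdeg, Cardinal.mk_le_one_iff_set_subsingleton]
  intro c hc d hd
  by_contra hne
  have h01 : x 0 ≠ x 1 ∧ x 0 ∈ t ∧ x 1 ∈ t := by
    rcases ht hc with h3 | h3 <;> rcases ht hd with h4 | h4
    · exact absurd (h3.trans h4.symm) hne
    · rw [Set.mem_singleton_iff] at h4
      subst h3; subst h4
      exact ⟨hne, hc, hd⟩
    · rw [Set.mem_singleton_iff] at h3
      subst h3; subst h4
      exact ⟨fun h => hne h.symm, hd, hc⟩
    · rw [Set.mem_singleton_iff] at h3 h4
      exact absurd (h3.trans h4.symm) hne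
  have h5 := hb.1.comp (![⟨x 0, h01.2.1⟩, ⟨x 1, h01.2.2⟩] : Fin 2 → t) (by
    intro i j hij
    fin_cases i <;> fin_cases j
    · rfl
    · exact absurd (congrArg Subtype.val hij) h01.1
    · exact absurd (congrArg Subtype.val hij).symm h01.1
    · rfl)
  have h6 : (fun y : t => (y : D)) ∘ (![⟨x 0, h01.2.1⟩, ⟨x 1, h01.2.2⟩] : Fin 2 → t) =
      ![x 0, x 1] := by
    funext i
    fin_cases i <;> rfl
  rw [h6] at h5
  exact h0 ((algebraicIndependent_iff.1 h5) h hh)

private theorem cy_fin_C {E : Type u} [Field E] {D : Type u} [CommRing D] [IsDomain D]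
    [Algebra E D] (y : Fin 2 → D) (f g : MvPolynomial (Fin 2) E) (hfg : IsRelPrime f g)
    (hf : MvPolynomial.aeval y f = 0) (hg : MvPolynomial.aeval y g = 0) (i : Fin 2) :
    IsAlgebraic E (y i) := by
  classical
  have hf0 : f ≠ 0 := by
    rintro rfl
    have h1 : IsUnit g := hfg (dvd_zero g) dvd_rfl
    have h2 := h1.map (MvPolynomial.aeval y : MvPolynomial (Fin 2) E →ₐ[E] D)
    rw [hg] at h2
    exact not_isUnit_zero h2
  -- a prime factor of f which vanishes
  obtain ⟨r, hr, hrf, hr0⟩ : ∃ r, Prime r ∧ r ∣ f ∧ MvPolynomial.aeval y r = 0 := by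
    have h1 := UniqueFactorizationMonoid.factors_prod hf0
    have h2 : MvPolynomial.aeval y (UniqueFactorizationMonoid.factors f).prod = 0 := by
      obtain ⟨c, hc⟩ := h1.symm
      rw [← hc, map_mul, hf, zero_mul]
    have h3 : (RingHom.ker (MvPolynomial.aeval y : MvPolynomial (Fin 2) E →ₐ[E] D)).IsPrime :=
      RingHom.ker_isPrime _
    obtain ⟨r, hr, hr2⟩ := (h3.multiset_prod_mem_iff_exists_mem _).1 (RingHom.mem_ker.2 h2)
    exact ⟨r, UniqueFactorizationMonoid.prime_of_factor r hr,
      UniqueFactorizationMonoid.dvd_of_mem_factors hr, RingHom.mem_ker.1 hr2⟩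
  have hrg : ¬ r ∣ g := fun h => hr.not_isUnit (hfg hrf h)
  have hprime : (Ideal.span {r}).IsPrime := (Ideal.span_singleton_prime hr.ne_zero).2 hr
  have hle : ∀ a ∈ Ideal.span {r}, (MvPolynomial.aeval y : MvPolynomial (Fin 2) E →ₐ[E] D) a = 0 := by
    intro a ha
    obtain ⟨c, rfl⟩ := Ideal.mem_span_singleton.1 ha
    rw [map_mul, hr0, zero_mul]
  let φ : (MvPolynomial (Fin 2) E ⧸ Ideal.span {r}) →ₐ[E] D :=
    Ideal.Quotient.liftₐ (Ideal.span {r}) (MvPolynomial.aeval y) hle
  have hφ : ∀ a, φ (Ideal.Quotient.mk _ a) = MvPolynomial.aeval y a := fun a => rfl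
  have hdom : IsDomain (MvPolynomial (Fin 2) E ⧸ Ideal.span {r}) := Ideal.Quotient.isDomain _
  have hq : (RingHom.ker φ).IsPrime := RingHom.ker_isPrime _
  have hq0 : RingHom.ker φ ≠ ⊥ := by
    intro h
    have h1 : Ideal.Quotient.mk (Ideal.span {r}) g ∈ RingHom.ker φ := by
      rw [RingHom.mem_ker, hφ, hg]
    rw [h, Ideal.mem_bot, Ideal.Quotient.eq_zero_iff_mem, Ideal.mem_span_singleton] at h1
    exact hrg h1
  have ht2 : Algebra.trdeg E (MvPolynomial (Fin 2) E) = 2 := by
    rw [MvPolynomial.trdeg_of_isDomain]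
    simp
  have h1 : Algebra.trdeg E (MvPolynomial (Fin 2) E ⧸ Ideal.span {r}) < 2 := by
    rw [← ht2]
    refine cy_fin_lt ?_ _ hprime (fun h => hr.ne_zero (Ideal.span_singleton_eq_bot.1 h))
    rw [ht2]
    exact Cardinal.natCast_lt_aleph0 (n := 2)
  have h2 := cy_fin_lt (lt_trans h1 (Cardinal.natCast_lt_aleph0 (n := 2))) (RingHom.ker φ) hq hq0
  have h3 := cy_fin_zero (cy_fin_lt_one h2 h1)
  have hdom2 : IsDomain ((MvPolynomial (Fin 2) E ⧸ Ideal.span {r}) ⧸ RingHom.ker φ) :=
    Ideal.Quotient.isDomain _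
  have h4 : Algebra.IsAlgebraic E ((MvPolynomial (Fin 2) E ⧸ Ideal.span {r}) ⧸ RingHom.ker φ) :=
    _root_.trdeg_eq_zero_iff.1 h3
  have h5 := h4.isAlgebraic
    (Ideal.Quotient.mk (RingHom.ker φ) (Ideal.Quotient.mk (Ideal.span {r}) (MvPolynomial.X i)))
  have h6 := h5.algHom (Ideal.kerLiftAlg φ)
  have h7 : Ideal.kerLiftAlg φ (Ideal.Quotient.mk (RingHom.ker φ)
      (Ideal.Quotient.mk (Ideal.span {r}) (MvPolynomial.X i))) = y i := by
    change φ (Ideal.Quotient.mk (Ideal.span {r}) (MvPolynomial.X i)) = y i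
    rw [hφ, MvPolynomial.aeval_X]
  rwa [h7] at h6

private theorem cy_fin_B {E : Type u} [Field E] {D : Type u} [CommRing D] [IsDomain D]
    [Algebra E D] (x : Fin 3 → D) (hx : Algebra.adjoin E (Set.range x) = ⊤)
    (h0 : IsAlgebraic E (x 0)) (h1 : IsAlgebraic E (x 1)) : Algebra.trdeg E D ≤ 1 := by
  have halg : Algebra.IsAlgebraic (Algebra.adjoin E ({x 2} : Set D)) D := by
    refine ⟨fun d => ?_⟩
    have hd : d ∈ Algebra.adjoin E (Set.range x) := by rw [hx]; trivial
    induction hd using Algebra.adjoin_induction with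
    | mem d hd =>
      obtain ⟨i, rfl⟩ := hd
      fin_cases i
      · exact h0.extendScalars (algebraMap E (Algebra.adjoin E ({x 2} : Set D))).injective
      · exact h1.extendScalars (algebraMap E (Algebra.adjoin E ({x 2} : Set D))).injective
      · exact isAlgebraic_algebraMap
          (⟨x 2, Algebra.subset_adjoin rfl⟩ : Algebra.adjoin E ({x 2} : Set D))
    | algebraMap e =>
      rw [IsScalarTower.algebraMap_apply E (Algebra.adjoin E ({x 2} : Set D)) D]
      exact isAlgebraic_algebraMap _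
    | add y z _ _ hy hz => exact hy.add hz
    | mul y z _ _ hy hz => exact hy.mul hz
  refine (Algebra.IsAlgebraic.trdeg_le_cardinalMk E ({x 2} : Set D)).trans ?_
  rw [Cardinal.mk_singleton]

/-- a quotient of a curve by a nonzero element is finite -/
private theorem cy_fin_M {E : Type u} [Field E] {D : Type u} [CommRing D] [IsDomain D]
    [Algebra E D] [Algebra.FiniteType E D] (ht : Algebra.trdeg E D ≤ 1) {M : Type u} [CommRing M]
    [Algebra E M] (φ : D →ₐ[E] M) (hφ : Function.Surjective φ) (b : D) (hb : b ≠ 0)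
    (hφb : φ b = 0) : Module.Finite E M := by
  have hft : Algebra.FiniteType E M := Algebra.FiniteType.of_surjective φ hφ
  rw [Module.finite_iff_krullDimLE_zero E M, Ring.krullDimLE_zero_iff]
  intro P hP
  have h1 : (P.comap φ).IsPrime := Ideal.comap_isPrime φ P
  have h2 : P.comap φ ≠ ⊥ := by
    intro h
    have h3 : b ∈ P.comap φ := by
      rw [Ideal.mem_comap, hφb]
      exact P.zero_mem
    rw [h, Ideal.mem_bot] at h3
    exact hb h3
  have h3 := cy_fin_lt (lt_of_le_of_lt ht Cardinal.one_lt_aleph0) _ h1 h2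
  have h4 := cy_fin_zero (lt_of_lt_of_le h3 ht)
  have hdom : IsDomain (D ⧸ P.comap φ) := Ideal.Quotient.isDomain _
  have h5 : Algebra.IsAlgebraic E (D ⧸ P.comap φ) := _root_.trdeg_eq_zero_iff.1 h4
  have h6 : Algebra.IsIntegral E (D ⧸ P.comap φ) := Algebra.isAlgebraic_iff_isIntegral.1 h5
  have h7 : (P.comap φ).IsMaximal := by
    apply Ideal.Quotient.maximal_of_isField
    exact isField_of_isIntegral_of_isField' (Field.toIsField E)
  have h8 : (P.comap φ).map φ = P := Ideal.map_comap_of_surjective φ hφ P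
  rcases Ideal.map_eq_top_or_isMaximal_of_surjective φ hφ h7 with h9 | h9
  · rw [h8] at h9
    exact absurd h9 hP.ne_top
  · rwa [h8] at h9

/-- a finite module has finite localized length -/
private theorem cy_fin_len {R : Type u} [CommRing R] (p : Ideal R) [p.IsPrime] (M : Type v)
    [AddCommGroup M] [Module R M] [IsArtinian R M] [IsNoetherian R M] : len p M ≠ ⊤ := by
  let F : Submodule (Localization.AtPrime p) (LocalizedModule p.primeCompl M) → Submodule R M :=
    fun N => (N.restrictScalars R).comap (LocalizedModule.mkLinearMap p.primeCompl M)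
  have hFm : ∀ N m, m ∈ F N ↔ LocalizedModule.mk m 1 ∈ N := fun N m => Iff.rfl
  have hFs : ∀ N m (t : p.primeCompl), LocalizedModule.mk m t ∈ N ↔ m ∈ F N := by
    intro N m t
    rw [hFm]
    constructor
    · intro h
      have h1 := N.smul_mem (Localization.mk (t : R) 1) h
      rw [LocalizedModule.mk_smul_mk, one_mul] at h1
      have h2 : LocalizedModule.mk ((t : R) • m) t = LocalizedModule.mk m 1 := by
        rw [LocalizedModule.mk_eq]
        refine ⟨1, ?_⟩
        simp only [one_smul]
        rfl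
      rwa [h2] at h1
    · intro h
      have h1 := N.smul_mem (Localization.mk (1 : R) t) h
      rwa [LocalizedModule.mk_smul_mk, one_smul, mul_one] at h1
  have hF : ∀ N₁ N₂, F N₁ ≤ F N₂ → N₁ ≤ N₂ := by
    intro N₁ N₂ h x hx
    induction x using LocalizedModule.induction_on with
    | h m t => exact (hFs N₂ m t).2 (h ((hFs N₁ m t).1 hx))
  have hF' : ∀ N₁ N₂, N₁ ≤ N₂ → F N₁ ≤ F N₂ := fun N₁ N₂ h m hm => h hm
  have hmono : StrictMono F := by
    intro N₁ N₂ h
    rw [lt_iff_le_not_ge] at h ⊢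
    exact ⟨hF' _ _ h.1, fun h2 => h.2 (hF _ _ h2)⟩
  have hA : IsArtinian (Localization.AtPrime p) (LocalizedModule p.primeCompl M) :=
    hmono.wellFoundedLT
  have hN : IsNoetherian (Localization.AtPrime p) (LocalizedModule p.primeCompl M) := by
    rw [isNoetherian_iff']
    exact hmono.wellFoundedGT
  exact Module.length_ne_top

theorem cy_fin {E : Type u} [Field E] [IsAlgClosed E] (f g : MvPolynomial (Fin 2) E)
    (hfg : IsRelPrime f g) (s t : E)
    (J : Ideal (MvPolynomial (Fin 3) E)) (hJ : Sc f g (t - s ^ 2) s J) :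
    {Q : Fin 2 → E | cy J s Q ≠ 0}.Finite ∧ (∀ Q, cy J s Q ≠ ⊤) ∧
      ∀ Q, cy J s Q ≠ 0 → MvPolynomial.eval Q (f - MvPolynomial.C t * g) = 0 := by
  have := hJ.pr
  have hdom : IsDomain (MvPolynomial (Fin 3) E ⧸ J) := Ideal.Quotient.isDomain J
  set I : Ideal (MvPolynomial (Fin 3) E) :=
    J ⊔ Ideal.span {MvPolynomial.X 2 + MvPolynomial.C s} with hI
  -- the coordinates
  let x : Fin 3 → MvPolynomial (Fin 3) E ⧸ J := fun i => Ideal.Quotient.mk J (MvPolynomial.X i)
  have hmk : ∀ a : MvPolynomial (Fin 3) E, Ideal.Quotient.mk J a = MvPolynomial.aeval x a := by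
    intro a
    have h1 : (Ideal.Quotient.mkₐ E J) = MvPolynomial.aeval x := by
      ext i
      rw [MvPolynomial.aeval_X]
      rfl
    exact DFunLike.congr_fun h1 a
  have hren : ∀ a : MvPolynomial (Fin 2) E,
      Ideal.Quotient.mk J (MvPolynomial.rename Fin.castSucc a) =
        MvPolynomial.aeval ![x 0, x 1] a := by
    intro a
    have h1 : x ∘ Fin.castSucc = ![x 0, x 1] := by
      funext i
      fin_cases i <;> rfl
    rw [hmk, MvPolynomial.aeval_rename, h1]
  have hx : Algebra.adjoin E (Set.range x) = ⊤ := by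
    rw [Algebra.adjoin_range_eq_range_aeval, eq_top_iff]
    intro d _
    obtain ⟨a, rfl⟩ := Ideal.Quotient.mk_surjective d
    exact ⟨a, (hmk a).symm⟩
  have hft : Algebra.FiniteType E (MvPolynomial (Fin 3) E ⧸ J) :=
    Algebra.FiniteType.of_surjective (Ideal.Quotient.mkₐ E J) Ideal.Quotient.mk_surjective
  have hadj : ∀ a : MvPolynomial (Fin 2) E,
      MvPolynomial.aeval ![x 0, x 1] a ∈ Algebra.adjoin E {x 0, x 1} := by
    intro a
    have h1 : ({x 0, x 1} : Set (MvPolynomial (Fin 3) E ⧸ J)) = Set.range ![x 0, x 1] := by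
      rw [Matrix.range_cons, Matrix.range_cons, Matrix.range_empty, Set.union_empty]
      rfl
    rw [h1, Algebra.adjoin_range_eq_range_aeval]
    exact ⟨a, rfl⟩
  have hsf : MvPolynomial.aeval ![x 0, x 1] g * x 2 ^ 2 =
      MvPolynomial.aeval ![x 0, x 1] (f - MvPolynomial.C (t - s ^ 2) * g) := by
    have h1 := Ideal.Quotient.eq_zero_iff_mem.2 hJ.mem
    unfold sf at h1
    rw [map_sub, map_mul, map_pow, hren, hren, sub_eq_zero] at h1
    exact h1
  have htr : Algebra.trdeg E (MvPolynomial (Fin 3) E ⧸ J) ≤ 1 := by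
    obtain ⟨h, h0, hh⟩ := hJ.al
    have hh' : MvPolynomial.aeval ![x 0, x 1] h = 0 := by
      rw [← hren]
      exact Ideal.Quotient.eq_zero_iff_mem.2 hh
    by_cases hg : MvPolynomial.aeval ![x 0, x 1] g = 0
    · have hf : MvPolynomial.aeval ![x 0, x 1] f = 0 := by
        rw [map_sub, map_mul, hg, zero_mul, mul_zero, sub_zero] at hsf
        exact hsf.symm
      exact cy_fin_B x hx (cy_fin_C ![x 0, x 1] f g hfg hf hg 0)
        (cy_fin_C ![x 0, x 1] f g hfg hf hg 1)
    · exact cy_fin_A x hx h h0 hh' _ _ (hadj g) hg (hadj _) hsf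
  have hle : J ≤ I := le_sup_left
  let φ : (MvPolynomial (Fin 3) E ⧸ J) →ₐ[E] (MvPolynomial (Fin 3) E ⧸ I) :=
    Ideal.Quotient.factorₐ E hle
  have hφ : ∀ a, φ (Ideal.Quotient.mk J a) = Ideal.Quotient.mk I a := fun a => rfl
  have hb0 : Ideal.Quotient.mk J (MvPolynomial.X 2 + MvPolynomial.C s) ≠ 0 := fun h =>
    hJ.ne (Ideal.Quotient.eq_zero_iff_mem.1 h)
  have hbI : MvPolynomial.X 2 + MvPolynomial.C s ∈ I :=
    (le_sup_right : Ideal.span {MvPolynomial.X 2 + MvPolynomial.C s} ≤ I)
      (Ideal.mem_span_singleton_self _)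
  have hfin : Module.Finite E (MvPolynomial (Fin 3) E ⧸ I) := by
    refine cy_fin_M htr φ (fun y => ?_) _ hb0 ?_
    · obtain ⟨a, rfl⟩ := Ideal.Quotient.mk_surjective y
      exact ⟨Ideal.Quotient.mk J a, rfl⟩
    · rw [hφ]
      exact Ideal.Quotient.eq_zero_iff_mem.2 hbI
  have hsup : ∀ Q, cy J s Q ≠ 0 → ∀ a : MvPolynomial (Fin 2) E,
      MvPolynomial.rename Fin.castSucc a ∈ I → MvPolynomial.eval Q a = 0 := by
    intro Q hQ a ha
    by_contra hne
    refine hQ (len_kill (mQ Q) a (fun h => hne ((mem_mQ Q a).1 h)) fun m => ?_)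
    obtain ⟨b, rfl⟩ := Ideal.Quotient.mk_surjective m
    change Ideal.Quotient.mk I (a • b) = 0
    rw [Ideal.Quotient.eq_zero_iff_mem, Algebra.smul_def, alg23_apply]
    exact I.mul_mem_right _ ha
  refine ⟨?_, fun Q => ?_, fun Q hQ => ?_⟩
  · have h1 : ∀ i : Fin 2, ∃ p : Polynomial E, p ≠ 0 ∧
        MvPolynomial.rename Fin.castSucc (Polynomial.aeval (MvPolynomial.X i :
          MvPolynomial (Fin 2) E) p) ∈ I := by
      intro i
      obtain ⟨p, hp, hp0⟩ := Algebra.IsIntegral.isIntegral (R := E)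
        (Ideal.Quotient.mk I (MvPolynomial.X (Fin.castSucc i)))
      refine ⟨p, hp.ne_zero, ?_⟩
      rw [← Polynomial.aeval_algHom_apply, MvPolynomial.rename_X,
        ← Ideal.Quotient.eq_zero_iff_mem]
      have h2 := Polynomial.aeval_algHom_apply (Ideal.Quotient.mkₐ E I)
        (MvPolynomial.X (Fin.castSucc i)) p
      change _ = Ideal.Quotient.mk I _ at h2
      rw [← h2]
      exact hp0
    choose p hp0 hp using h1
    refine Set.Finite.subset (Set.Finite.pi' fun i => (p i).rootSet_finite E) ?_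
    intro Q hQ i
    rw [Polynomial.mem_rootSet]
    refine ⟨hp0 i, ?_⟩
    have h2 := hsup Q hQ _ (hp i)
    have h3 := Polynomial.aeval_algHom_apply (MvPolynomial.aeval Q :
      MvPolynomial (Fin 2) E →ₐ[E] E) (MvPolynomial.X i) (p i)
    rw [MvPolynomial.aeval_X] at h3
    rw [h3]
    rw [← MvPolynomial.aeval_eq_eval] at h2
    exact h2
  · have h1 : IsArtinian E (MvPolynomial (Fin 3) E ⧸ I) := inferInstance
    have h2 : IsNoetherian E (MvPolynomial (Fin 3) E ⧸ I) := inferInstance
    have h3 : IsScalarTower E (MvPolynomial (Fin 2) E) (MvPolynomial (Fin 3) E ⧸ I) :=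
      inferInstance
    have h4 : IsArtinian (MvPolynomial (Fin 2) E) (MvPolynomial (Fin 3) E ⧸ I) :=
      isArtinian_of_tower E h1
    have h5 : IsNoetherian (MvPolynomial (Fin 2) E) (MvPolynomial (Fin 3) E ⧸ I) :=
      isNoetherian_of_tower E h2
    exact cy_fin_len (mQ Q) _
  · refine hsup Q hQ _ ?_
    have h1 : MvPolynomial.rename Fin.castSucc (f - MvPolynomial.C t * g) =
        - sf f g (t - s ^ 2) + MvPolynomial.rename Fin.castSucc g *
          (MvPolynomial.X 2 - MvPolynomial.C s) * (MvPolynomial.X 2 + MvPolynomial.C s) := by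
      unfold sf
      simp only [map_sub, map_mul, map_pow, MvPolynomial.rename_C]
      ring
    rw [h1]
    exact I.add_mem (I.neg_mem (hle hJ.mem)) (I.mul_mem_left _ hbI)

end

end Pool.Agent.RDP

end

section


namespace Pool.Agent.RDP

open Pool.Agent.TBR Polynomial Pool.Agent.TQU

universe u v w

section

private theorem cy_inv_twist {R R' : Type u} [CommRing R] [CommRing R'] (e : R ≃+* R')
    (p : Ideal R) [p.IsPrime] (p' : Ideal R') [p'.IsPrime] (hp : p = p'.comap e)
    {M M' : Type v} [AddCommGroup M] [AddCommGroup M'] [Module R M] [Module R' M'] (φ : M ≃+ M')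
    (hφ : ∀ (r : R) (m : M), φ (r • m) = e r • φ m) : len p M = len p' M' := by
  let : Algebra R R' := e.toRingHom.toAlgebra
  let : Module R M' := Module.compHom M' e.toRingHom
  have : IsScalarTower R R' M' := ⟨fun r r' m => by
    change ((e r) * r') • m = (e r) • (r' • m)
    rw [mul_smul]⟩
  have h1 : len p M' = len p' M' := len_surj (R := R) (R' := R') e.surjective p' p hp M'
  rw [← h1]
  exact len_equiv p { φ with map_smul' := fun r m => hφ r m }

theorem cy_inv {k E : Type u} [Field k] [Field E] [Algebra k E]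
    (J : Ideal (MvPolynomial (Fin 3) E)) (s : E) (σ : E ≃ₐ[k] E) (hs : σ s = s)
    (hJ : ∀ h : MvPolynomial (Fin 3) E, h ∈ J ↔ MvPolynomial.map (σ : E →+* E) h ∈ J)
    (Q : Fin 2 → E) : cy J s (fun i => σ (Q i)) = cy J s Q := by
  unfold cy
  set I : Ideal (MvPolynomial (Fin 3) E) :=
    J ⊔ Ideal.span {MvPolynomial.X 2 + MvPolynomial.C s} with hI
  let e₂ : MvPolynomial (Fin 2) E ≃+* MvPolynomial (Fin 2) E :=
    MvPolynomial.mapEquiv (Fin 2) σ.toRingEquiv
  let e₃ : MvPolynomial (Fin 3) E ≃+* MvPolynomial (Fin 3) E :=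
    MvPolynomial.mapEquiv (Fin 3) σ.toRingEquiv
  have h₂ : ∀ h, e₂ h = MvPolynomial.map (σ : E →+* E) h := fun h => rfl
  have h₃ : ∀ h, e₃ h = MvPolynomial.map (σ : E →+* E) h := fun h => rfl
  have hJ' : J.map (e₃ : MvPolynomial (Fin 3) E →+* MvPolynomial (Fin 3) E) = J := by
    ext h
    rw [Ideal.mem_map_iff_of_surjective (e₃ : MvPolynomial (Fin 3) E →+* MvPolynomial (Fin 3) E)
      e₃.surjective]
    constructor
    · rintro ⟨x, hx, rfl⟩
      exact (hJ x).1 hx
    · intro hh
      refine ⟨e₃.symm h, (hJ _).2 ?_, e₃.apply_symm_apply h⟩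
      rw [← h₃, e₃.apply_symm_apply]
      exact hh
  have hI' : I = I.map (e₃ : MvPolynomial (Fin 3) E →+* MvPolynomial (Fin 3) E) := by
    have h4 : (e₃ : MvPolynomial (Fin 3) E →+* MvPolynomial (Fin 3) E)
        (MvPolynomial.X 2 + MvPolynomial.C s) = MvPolynomial.X 2 + MvPolynomial.C s := by
      change MvPolynomial.map (σ : E →+* E) _ = _
      rw [map_add, MvPolynomial.map_X, MvPolynomial.map_C]
      change _ + MvPolynomial.C (σ s) = _
      rw [hs]
    rw [hI, Ideal.map_sup, hJ', Ideal.map_span, Set.image_singleton, h4]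
  let φ : (MvPolynomial (Fin 3) E ⧸ I) ≃+* (MvPolynomial (Fin 3) E ⧸ I) :=
    Ideal.quotientEquiv I I e₃ hI'
  refine (cy_inv_twist e₂ (mQ Q) (mQ fun i => σ (Q i)) ?_ φ.toAddEquiv ?_).symm
  · ext h
    rw [Ideal.mem_comap, mem_mQ, mem_mQ, h₂, MvPolynomial.eval_map]
    have h5 : MvPolynomial.eval₂ (σ : E →+* E) (fun i => σ (Q i)) h =
        σ (MvPolynomial.eval Q h) := by
      have h6 := MvPolynomial.eval₂_comp_left (σ : E →+* E) (RingHom.id E) Q h
      exact h6.symm
    rw [h5]
    exact (map_eq_zero_iff σ σ.injective).symm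
  · intro r m
    obtain ⟨h, rfl⟩ := Ideal.Quotient.mk_surjective m
    change φ (Ideal.Quotient.mk I (r • h)) = e₂ r • φ (Ideal.Quotient.mk I h)
    change Ideal.Quotient.mk I (e₃ (r • h)) = Ideal.Quotient.mk I (e₂ r • e₃ h)
    congr 1
    rw [Algebra.smul_def, Algebra.smul_def, map_mul, alg23_apply, alg23_apply, h₂, h₃, h₃,
      MvPolynomial.map_rename]

end

end Pool.Agent.RDP

end

section


namespace Pool.Agent.RDP

open Pool.Agent.TBR Polynomial Pool.Agent.TQU

universe u v w

section

private theorem finorb_cf {k E : Type u} [Field k] [Field E] [Algebra k E]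
    (A : IntermediateField k E) (u : MvPolynomial (Fin 2) E) (h : Cf (A : Set E) u) :
    ∃ v : MvPolynomial (Fin 2) A, MvPolynomial.map (algebraMap A E) v = u := by
  have h1 : u ∈ Set.range (MvPolynomial.map (σ := Fin 2) (algebraMap A E)) := by
    rw [MvPolynomial.mem_range_map_iff_coeffs_subset]
    intro x hx
    rw [Finset.mem_coe, MvPolynomial.mem_coeffs_iff] at hx
    obtain ⟨m, -, rfl⟩ := hx
    exact ⟨⟨_, h m⟩, rfl⟩
  exact h1

private theorem finorb_eval {k E : Type u} [Field k] [Field E] [Algebra k E]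
    (A : IntermediateField k E) (x : E) (hx : Transcendental A x)
    (v : MvPolynomial (Fin 2) A) :
    MvPolynomial.eval (![x, 0] : Fin 2 → E) (MvPolynomial.map (algebraMap A E) v) = 0 ↔
      MvPolynomial.aeval (![X, 0] : Fin 2 → A[X]) v = 0 := by
  have h1 : MvPolynomial.eval (![x, 0] : Fin 2 → E) (MvPolynomial.map (algebraMap A E) v) =
      aeval x (MvPolynomial.aeval (![X, 0] : Fin 2 → A[X]) v) := by
    rw [MvPolynomial.eval_map]
    have h2 : (aeval x : A[X] →ₐ[A] E) (MvPolynomial.aeval (![X, 0] : Fin 2 → A[X]) v) =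
        MvPolynomial.aeval (fun i => (aeval x : A[X] →ₐ[A] E) ((![X, 0] : Fin 2 → A[X]) i)) v :=
      MvPolynomial.comp_aeval_apply _ _ _
    rw [h2, MvPolynomial.aeval_def]
    congr 1
    funext i
    fin_cases i
    · simp
    · simp
  rw [h1]
  constructor
  · intro h
    exact (transcendental_iff.1 hx) _ h
  · intro h
    rw [h, map_zero]

open scoped IntermediateField.algebraAdjoinAdjoin in
theorem finorb {k E : Type u} [Field k] [Field E] [IsAlgClosed E] [Algebra k E]
    (L : IntermediateField k E) (x : E) (h : {y : E | ∃ σ ∈ Fx k (L : Set E), σ x = y}.Finite) :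
    IsAlgebraic L x := by
  classical
  by_contra hx
  have hxt : Transcendental L x := hx
  have hs : AlgebraicIndepOn L id ({x} : Set E) :=
    (algebraicIndependent_singleton_iff (⟨x, rfl⟩ : ({x} : Set E))).2 hxt
  obtain ⟨t, hst, ht⟩ := exists_isTranscendenceBasis_superset hs
  have hxt' : x ∈ t := hst rfl
  have halg := ht.isAlgebraic_field
  rw [Subtype.range_coe] at halg
  let S : Set E := t \ {x}
  let A : IntermediateField k E := (IntermediateField.adjoin L S).restrictScalars k
  have hLA : L ≤ A := fun y hy => IntermediateField.algebraMap_mem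
    (IntermediateField.adjoin L S) (⟨y, hy⟩ : L)
  -- transcendence over A
  have htr1 : Transcendental (Algebra.adjoin L S) x := by
    have h1 := ht.1.transcendental_adjoin (s := {i : t | (i : E) ≠ x}) (i := ⟨x, hxt'⟩)
      (fun h0 => h0 rfl)
    have h2 : (Subtype.val '' {i : t | (i : E) ≠ x} : Set E) = S := by
      ext y
      constructor
      · rintro ⟨i, hi, rfl⟩
        exact ⟨i.2, hi⟩
      · rintro ⟨hy, hyx⟩
        exact ⟨⟨y, hy⟩, hyx, rfl⟩
    rw [h2] at h1
    exact h1
  have htr : Transcendental A x := by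
    intro h0
    exact htr1 ((IsFractionRing.isAlgebraic_iff (Algebra.adjoin L S)
      (IntermediateField.adjoin L S) E).2 h0)
  have hle : ∀ m : ℕ, 0 < m → ∀ y : E, IsAlgebraic (AA A (Set.range (![x ^ m, 0] : Fin 2 → E))) y := by
    intro m hm
    set B := AA A (Set.range (![x ^ m, 0] : Fin 2 → E)) with hB
    have hxB : IsAlgebraic B x := by
      have h1 : x ^ m ∈ B := (le_sup_right : _ ≤ B)
        (IntermediateField.subset_adjoin _ _ ⟨0, rfl⟩)
      exact IsAlgebraic.of_pow hm (isAlgebraic_algebraMap (⟨x ^ m, h1⟩ : B))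
    have hLB : L ≤ B := hLA.trans le_sup_left
    have hT : (IntermediateField.adjoin L t).restrictScalars k ≤
        (algebraicClosure B E).restrictScalars k := by
      let D : IntermediateField L E :=
        { (algebraicClosure B E).toSubfield with
          algebraMap_mem' := fun r => IsAlgebraic.isIntegral
            (isAlgebraic_algebraMap (⟨(r : E), hLB r.2⟩ : B)) }
      have h1 : IntermediateField.adjoin L t ≤ D := by
        rw [IntermediateField.adjoin_le_iff]
        intro y hy
        show y ∈ algebraicClosure B E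
        rw [mem_algebraicClosure_iff]
        by_cases hyx : y = x
        · rw [hyx]; exact hxB
        · have hyA : y ∈ A := IntermediateField.subset_adjoin L S ⟨hy, hyx⟩
          exact isAlgebraic_algebraMap (⟨y, (le_sup_left : A ≤ B) hyA⟩ : B)
      exact fun y hy => h1 hy
    intro y
    have h2 : IsAlgebraic ((IntermediateField.adjoin L t).restrictScalars k) y :=
      halg.isAlgebraic y
    have h3 : IsAlgebraic ((algebraicClosure B E).restrictScalars k) y := isAlg_mono hT h2
    have h4 : IsAlgebraic (algebraicClosure B E) y := h3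
    exact h4.restrictScalars B
  have haut : ∀ m : ℕ, 0 < m → ∃ σ ∈ Fx k (L : Set E), σ x = x ^ m := by
    intro m hm
    have hxm : Transcendental A (x ^ m) := fun h0 => htr (IsAlgebraic.of_pow hm h0)
    obtain ⟨τ, h1, h2⟩ := ext_aut A (AlgEquiv.refl : E ≃ₐ[k] E) (fun _ => Iff.rfl)
      (![x ^ 1, 0] : Fin 2 → E) (![x ^ m, 0] : Fin 2 → E) (hle 1 one_pos) (hle m hm) (by
        intro u hu
        obtain ⟨v, rfl⟩ := finorb_cf A u hu
        have h3 : MvPolynomial.map ((AlgEquiv.refl : E ≃ₐ[k] E) : E →+* E)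
            (MvPolynomial.map (algebraMap A E) v) = MvPolynomial.map (algebraMap A E) v := by
          rw [MvPolynomial.map_map]
          rfl
        rw [h3, pow_one, finorb_eval A x htr, finorb_eval A (x ^ m) hxm])
    refine ⟨τ, fun y hy => h1 y (hLA hy), ?_⟩
    have := h2 0
    simpa using this
  refine Set.infinite_of_injective_forall_mem (f := fun n : ℕ => x ^ (n + 1)) ?_ ?_ h
  · intro a b hab
    simp only at hab
    by_contra hne
    have key : ∀ a b : ℕ, a < b → x ^ (a + 1) ≠ x ^ (b + 1) := by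
      intro a b hlt he
      apply hxt
      refine ⟨X ^ (b + 1) - X ^ (a + 1), ?_, ?_⟩
      · intro h0
        have := congrArg (fun p : L[X] => p.coeff (b + 1)) h0
        simp only [coeff_sub, coeff_X_pow, coeff_zero] at this
        rw [if_pos trivial, if_neg (by omega), sub_zero] at this
        exact one_ne_zero this
      · simp [he]
    rcases lt_or_gt_of_ne hne with h1 | h1
    · exact key a b h1 hab
    · exact key b a h1 hab.symm
  · intro n
    obtain ⟨σ, hσ, hσx⟩ := haut (n + 1) (Nat.succ_pos n)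
    exact ⟨σ, hσ, hσx⟩

end

end Pool.Agent.RDP

end

section


namespace Pool.Agent.RDP

open Pool.Agent.TBR Polynomial Pool.Agent.TQU

universe u v w

section

theorem cy_A {k E : Type u} [Field k] [Field E] [IsAlgClosed E] [Algebra k E]
    (f g : MvPolynomial (Fin 2) E) (hfg : IsRelPrime f g) (s t z : E) (J : Ideal (MvPolynomial (Fin 3) E))
    (hJ : Sc f g (t - s ^ 2) s J) (κ : IntermediateField k E) (hκ : Alw k (t - s ^ 2) J κ)
    (hA : ∀ x ∈ κ, x ∈ Acl k z) (hs : s ∈ Acl k z) (Q : Fin 2 → E)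
    (hQ : ¬ ∀ i, Q i ∈ Acl k z) : cy J s Q = 0 := by
  by_contra hne
  apply hQ
  intro i
  obtain ⟨hfin, -, -⟩ := cy_fin f g hfg s t J hJ
  have horb : {y : E | ∃ σ ∈ Fx k ((κ ⊔ IntermediateField.adjoin k {s} : IntermediateField k E) :
      Set E), σ (Q i) = y}.Finite := by
    refine (hfin.image (fun Q' : Fin 2 → E => Q' i)).subset ?_
    rintro y ⟨σ, hσ, rfl⟩
    have hσ' : ∀ x ∈ (κ ⊔ IntermediateField.adjoin k {s} : IntermediateField k E), σ x = x :=
      fun x hx => hσ x hx
    have hs1 : σ s = s := by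
      apply hσ'
      have h1 : s ∈ IntermediateField.adjoin k ({s} : Set E) :=
        IntermediateField.subset_adjoin k _ (Set.mem_singleton s)
      exact (le_sup_right : IntermediateField.adjoin k {s} ≤ κ ⊔ IntermediateField.adjoin k {s}) h1
    have hκ1 : σ ∈ Fx k (κ : Set E) := by
      intro x hx
      exact hσ' x ((le_sup_left : κ ≤ κ ⊔ IntermediateField.adjoin k {s}) hx)
    refine ⟨fun j => σ (Q j), ?_, rfl⟩
    rw [Set.mem_ofPred, cy_inv J s σ hs1 (hκ.stab σ hκ1) Q]
    exact hne
  have halg := finorb _ (Q i) horb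
  have hLC : (κ ⊔ IntermediateField.adjoin k {s} : IntermediateField k E) ≤
      (algebraicClosure (IntermediateField.adjoin k ({z} : Set E)) E).restrictScalars k := by
    refine sup_le ?_ ?_
    · intro x hx
      exact (mem_algebraicClosure_iff).mpr (hA x hx)
    · rw [IntermediateField.adjoin_le_iff, Set.singleton_subset_iff]
      exact (mem_algebraicClosure_iff).mpr hs
  have hLC' : (κ ⊔ IntermediateField.adjoin k {s} : IntermediateField k E).toSubalgebra ≤
      ((algebraicClosure (IntermediateField.adjoin k ({z} : Set E)) E).restrictScalars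
        k).toSubalgebra := hLC
  have h2 := IsAlgebraic.tower_top_of_subalgebra_le hLC' halg
  have h3 : IsAlgebraic (algebraicClosure (IntermediateField.adjoin k ({z} : Set E)) E) (Q i) := h2
  exact h3.restrictScalars (IntermediateField.adjoin k ({z} : Set E))

end

end Pool.Agent.RDP

end

section


namespace Pool.Agent.RDP

open Pool.Agent.TBR Polynomial Pool.Agent.TQU

universe u v w

section

private theorem k12_A {k E : Type u} [Field k] [Field E] [Algebra k E] (t s : E)
    (hs : IsAlgebraic (IntermediateField.adjoin k {t}) s) :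
    Algebra.trdeg k (IntermediateField.adjoin k ({t, s} : Set E)) ≤ 1 := by
  refine T.trdeg_adjoin _ t (IntermediateField.subset_adjoin _ _ (Set.mem_insert _ _)) ?_
  have h1 : IntermediateField.adjoin k ({t, s} : Set E) ≤
      (algebraicClosure (IntermediateField.adjoin k {t}) E).restrictScalars k := by
    rw [IntermediateField.adjoin_le_iff]
    rintro y (rfl | hy)
    · show y ∈ algebraicClosure (IntermediateField.adjoin k {y}) E
      rw [mem_algebraicClosure_iff]
      exact isAlgebraic_algebraMap (⟨y, IntermediateField.mem_adjoin_simple_self k y⟩ :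
        IntermediateField.adjoin k {y})
    · rw [Set.mem_singleton_iff.1 hy]
      show s ∈ algebraicClosure (IntermediateField.adjoin k {t}) E
      rw [mem_algebraicClosure_iff]
      exact hs
  intro x hx
  exact (mem_algebraicClosure_iff (F := IntermediateField.adjoin k {t})).1 (h1 hx)

private theorem k12_B {k E : Type u} [Field k] [Field E] [Algebra k E]
    (κ : IntermediateField k E) (htd : Algebra.trdeg k κ ≤ 1) (S : Set E)
    (hS : ∀ x ∈ S, IsAlgebraic κ x) :
    Algebra.trdeg k (κ ⊔ IntermediateField.adjoin k S : IntermediateField k E) ≤ 1 := by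
  set K : IntermediateField k E := κ ⊔ IntermediateField.adjoin k S with hK
  have hle : κ ≤ K := le_sup_left
  have h1 : K ≤ (algebraicClosure κ E).restrictScalars k := by
    rw [hK, sup_le_iff]
    constructor
    · intro x hx
      show x ∈ algebraicClosure κ E
      rw [mem_algebraicClosure_iff]
      exact isAlgebraic_algebraMap (⟨x, hx⟩ : κ)
    · rw [IntermediateField.adjoin_le_iff]
      intro x hx
      show x ∈ algebraicClosure κ E
      rw [mem_algebraicClosure_iff]
      exact hS x hx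
  let : Algebra κ K := (IntermediateField.inclusion hle).toRingHom.toAlgebra
  have : IsScalarTower k κ K := IsScalarTower.of_algebraMap_eq' rfl
  have : IsScalarTower κ K E := IsScalarTower.of_algebraMap_eq' rfl
  have : FaithfulSMul κ K := (faithfulSMul_iff_algebraMap_injective κ K).2
    (IntermediateField.inclusion_injective hle)
  have : Algebra.IsAlgebraic κ K := ⟨fun x => by
    have h2 : IsAlgebraic κ (x : E) := mem_algebraicClosure_iff.1 (h1 x.2)
    exact (isAlgebraic_algebraMap_iff (algebraMap K E).injective).1 h2⟩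
  have h3 := trdeg_add_eq k κ (A := K)
  rw [trdeg_eq_zero (R := κ) (A := K), add_zero] at h3
  rw [← h3]
  exact htd

private theorem k12_pow {F E : Type u} [Field F] [Field E] [Algebra F E] {n : ℕ} (hn : 0 < n)
    (x : E) (a : F) (h : x ^ n = algebraMap F E a) : IsAlgebraic F x :=
  IsAlgebraic.of_pow hn (h ▸ isAlgebraic_algebraMap a)

theorem k12 {k E : Type u} [Field k] [Field E] [IsAlgClosed E] [Algebra k E] (φ : k[X])
    (hφ : (∃ N, 0 < N ∧ φ = X ^ N) ∨ (AddPoly φ ∧ φ ≠ 0)) (z s l : E)
    (hs : s ^ 2 = aeval z φ - l) (κ : IntermediateField k E) (hfg : κ.FG)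
    (htd : Algebra.trdeg k κ ≤ 1) (hl : l ∈ κ) :
    ∃ K₁ K₂ : IntermediateField k E, K₁.FG ∧ K₂.FG ∧ Algebra.trdeg k K₁ ≤ 1 ∧
      Algebra.trdeg k K₂ ≤ 1 ∧ κ ≤ K₁ ⊔ K₂ ∧ z ∈ K₁ ⊔ K₂ ∧ s ∈ K₁ ⊔ K₂ := by
  classical
  rcases hφ with ⟨N, hN, rfl⟩ | ⟨hadd, hφ0⟩
  · rw [map_pow, aeval_X] at hs
    by_cases hl0 : l = 0
    · refine ⟨κ, IntermediateField.adjoin k ({z, s} : Set E), hfg,
        IntermediateField.fg_adjoin_of_finite (by simp), htd, k12_A z s ?_, le_sup_left,
        (le_sup_right : _ ≤ κ ⊔ _) (IntermediateField.subset_adjoin _ _ (by simp)),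
        (le_sup_right : _ ≤ κ ⊔ _) (IntermediateField.subset_adjoin _ _ (by simp))⟩
      refine k12_pow two_pos s
        ((⟨z, IntermediateField.mem_adjoin_simple_self k z⟩ : IntermediateField.adjoin k {z}) ^ N) ?_
      rw [hs, hl0, sub_zero, map_pow]
      rfl
    · obtain ⟨m, hm⟩ := IsAlgClosed.exists_pow_nat_eq l hN
      obtain ⟨m', hm'⟩ := IsAlgClosed.exists_pow_nat_eq l two_pos
      have hm0 : m ≠ 0 := by
        rintro rfl
        rw [zero_pow hN.ne'] at hm
        exact hl0 hm.symm
      have hm'0 : m' ≠ 0 := by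
        rintro rfl
        rw [zero_pow two_ne_zero] at hm'
        exact hl0 hm'.symm
      set K₁ : IntermediateField k E := κ ⊔ IntermediateField.adjoin k ({m, m'} : Set E) with hK₁
      set K₂ : IntermediateField k E := IntermediateField.adjoin k ({z / m, s / m'} : Set E)
        with hK₂
      have hmK : m ∈ K₁ := (le_sup_right : _ ≤ K₁) (IntermediateField.subset_adjoin _ _ (by simp))
      have hmK' : m' ∈ K₁ := (le_sup_right : _ ≤ K₁) (IntermediateField.subset_adjoin _ _ (by simp))
      have hzK : z / m ∈ K₂ := IntermediateField.subset_adjoin _ _ (by simp)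
      have hsK : s / m' ∈ K₂ := IntermediateField.subset_adjoin _ _ (by simp)
      refine ⟨K₁, K₂, IntermediateField.fg_sup hfg (IntermediateField.fg_adjoin_of_finite (by simp)),
        IntermediateField.fg_adjoin_of_finite (by simp), k12_B κ htd _ ?_, k12_A _ _ ?_,
        le_sup_left.trans le_sup_left, ?_, ?_⟩
      · rintro x (rfl | hx)
        · exact k12_pow hN x (⟨l, hl⟩ : κ) hm
        · rw [Set.mem_singleton_iff.1 hx]
          exact k12_pow two_pos m' (⟨l, hl⟩ : κ) hm'
      · refine k12_pow two_pos (s / m') ((⟨z / m, IntermediateField.mem_adjoin_simple_self k _⟩ :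
          IntermediateField.adjoin k {z / m}) ^ N - 1) ?_
        rw [map_sub, map_pow, map_one]
        show (s / m') ^ 2 = (z / m) ^ N - 1
        rw [div_pow, div_pow, hs, hm, hm', sub_div, div_self hl0]
      · have : z = m * (z / m) := by field_simp
        rw [this]
        exact mul_mem ((le_sup_left : K₁ ≤ K₁ ⊔ K₂) hmK) ((le_sup_right : K₂ ≤ K₁ ⊔ K₂) hzK)
      · have : s = m' * (s / m') := by field_simp
        rw [this]
        exact mul_mem ((le_sup_left : K₁ ≤ K₁ ⊔ K₂) hmK') ((le_sup_right : K₂ ≤ K₁ ⊔ K₂) hsK)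
  · -- the additive case
    have hz0 : aeval (0 : E) φ = 0 := by
      have := hadd E 0 0
      rw [add_zero] at this
      exact left_eq_add.1 this
    have hinj := (algebraMap k E).injective
    have hdeg : (φ.map (algebraMap k E)).natDegree ≠ 0 := by
      intro h0
      rw [natDegree_map] at h0
      have h1 := eq_C_of_natDegree_eq_zero h0
      rw [h1, aeval_C] at hz0
      apply hφ0
      rw [h1, (map_eq_zero_iff _ hinj).1 hz0, C_0]
    obtain ⟨δ, hδ⟩ : ∃ δ : E, aeval δ φ = l := by
      have h1 : (φ.map (algebraMap k E) - C l).degree ≠ 0 := by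
        rw [degree_sub_C (natDegree_pos_iff_degree_pos.1 (Nat.pos_of_ne_zero hdeg))]
        intro h2
        exact hdeg (natDegree_eq_of_degree_eq_some h2)
      obtain ⟨δ, hδ⟩ := IsAlgClosed.exists_root _ h1
      refine ⟨δ, ?_⟩
      rw [IsRoot.def, eval_sub, eval_map, eval_C, ← aeval_def] at hδ
      exact sub_eq_zero.1 hδ
    have hδa : IsAlgebraic κ δ := by
      refine ⟨φ.map (algebraMap k κ) - C ⟨l, hl⟩, ?_, ?_⟩
      · intro h0
        have h1 : (φ.map (algebraMap k κ)).natDegree = 0 := by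
          rw [sub_eq_zero.1 h0, natDegree_C]
        rw [natDegree_map] at h1
        rw [natDegree_map] at hdeg
        exact hdeg h1
      · rw [map_sub, aeval_C, aeval_map_algebraMap, hδ]
        exact sub_self l
    have hsub : aeval (z - δ) φ = aeval z φ - aeval δ φ := by
      have := hadd E (z - δ) δ
      rw [sub_add_cancel] at this
      rw [this, add_sub_cancel_right]
    set K₁ : IntermediateField k E := κ ⊔ IntermediateField.adjoin k ({δ} : Set E) with hK₁
    set K₂ : IntermediateField k E := IntermediateField.adjoin k ({z - δ, s} : Set E) with hK₂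
    have hδK : δ ∈ K₁ := (le_sup_right : _ ≤ K₁) (IntermediateField.subset_adjoin _ _ (by simp))
    have hzK : z - δ ∈ K₂ := IntermediateField.subset_adjoin _ _ (by simp)
    have hsK : s ∈ K₂ := IntermediateField.subset_adjoin _ _ (by simp)
    refine ⟨K₁, K₂, IntermediateField.fg_sup hfg (IntermediateField.fg_adjoin_of_finite (by simp)),
      IntermediateField.fg_adjoin_of_finite (by simp), k12_B κ htd _ ?_, k12_A _ _ ?_,
      le_sup_left.trans le_sup_left, ?_, (le_sup_right : K₂ ≤ K₁ ⊔ K₂) hsK⟩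
    · intro x hx
      rw [Set.mem_singleton_iff.1 hx]
      exact hδa
    · refine k12_pow two_pos s (aeval (⟨z - δ, IntermediateField.mem_adjoin_simple_self k _⟩ :
          IntermediateField.adjoin k {z - δ}) φ) ?_
      rw [← aeval_algebraMap_apply]
      show s ^ 2 = aeval (z - δ) φ
      rw [hs, hsub, hδ]
    · have h1 : z = (z - δ) + δ := by ring
      rw [h1]
      exact add_mem ((le_sup_right : K₂ ≤ K₁ ⊔ K₂) hzK) ((le_sup_left : K₁ ≤ K₁ ⊔ K₂) hδK)

end

end Pool.Agent.RDP

end

section


namespace Pool.Agent.RDP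

universe u v w

section

open Polynomial

private lemma relDom_memE {E K : Type u} [Field E] [Field K] [Algebra E K]
    (V : ValuationSubring K) (hV : Ov E V) (e : E) (he : e ≠ 0) :
    V.valuation (algebraMap E K e) = 1 := by
  apply le_antisymm
  · exact (V.valuation_le_one_iff _).2 (hV e)
  · have h1 : V.valuation (algebraMap E K e⁻¹) ≤ 1 := (V.valuation_le_one_iff _).2 (hV e⁻¹)
    rw [map_inv₀, map_inv₀] at h1
    have h2 : V.valuation (algebraMap E K e) ≠ 0 := by
      rw [Valuation.ne_zero_iff]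
      exact (_root_.map_ne_zero _).2 he
    exact (inv_le_one₀ (zero_lt_iff.2 h2)).1 h1

private lemma relDom_memP {E K : Type u} [Field E] [Field K] [Algebra E K]
    (V : ValuationSubring K) (hV : Ov E V) (θ : K) (hθ : θ ∈ V) (p : E[X]) :
    aeval θ p ∈ V := by
  rw [aeval_eq_sum_range]
  refine sum_mem fun i _ => ?_
  rw [Algebra.smul_def]
  exact mul_mem (hV _) (pow_mem hθ _)

/-- a polynomial with the nonzero constant term is a unit at `θ = 0` -/
private lemma relDom_unit {E K : Type u} [Field E] [Field K] [Algebra E K]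
    (V : ValuationSubring K) (hV : Ov E V) (θ : K) (hθ : θ ∈ V.nonunits) (p : E[X])
    (hp : p.coeff 0 ≠ 0) : V.valuation (aeval θ p) = 1 := by
  have hmem : θ ∈ V := V.nonunits_subset hθ
  have h1 : aeval θ p = θ * aeval θ p.divX + algebraMap E K (p.coeff 0) := by
    conv_lhs => rw [← Polynomial.X_mul_divX_add p, map_add, map_mul, aeval_X, aeval_C]
  have h2 : V.valuation (θ * aeval θ p.divX) < 1 := by
    rw [map_mul]
    have h3 : V.valuation (aeval θ p.divX) ≤ 1 :=
      (V.valuation_le_one_iff _).2 (relDom_memP V hV θ hmem _)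
    calc V.valuation θ * V.valuation (aeval θ p.divX) ≤ V.valuation θ * 1 := by gcongr
      _ < 1 := by rw [mul_one]; exact V.mem_nonunits_iff.1 hθ
  rw [h1]
  have h4 := relDom_memE V hV (p.coeff 0) hp
  rw [← h4] at h2
  rw [Valuation.map_add_eq_of_lt_right _ h2, h4]

private lemma relDom_pow {E K : Type u} [Field E] [Field K] [Algebra E K]
    (θ : K) (p : E[X]) (hp : p ≠ 0) :
    ∃ n : ℕ, ∀ V : ValuationSubring K, Ov E V → θ ∈ V.nonunits →
      V.valuation (aeval θ p) = V.valuation θ ^ n := by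
  obtain ⟨q, hq, hnd⟩ := Polynomial.exists_eq_pow_rootMultiplicity_mul_and_not_dvd p hp 0
  refine ⟨rootMultiplicity 0 p, fun V hV hθ => ?_⟩
  rw [dvd_iff_isRoot, IsRoot, ← coeff_zero_eq_eval_zero] at hnd
  rw [hq, map_mul, map_mul, relDom_unit V hV θ hθ q hnd, mul_one, map_pow, map_pow]
  congr 2
  simp

/-- the valuation of `y` at `θ = 0` -/
private lemma relDom_zpow {E K : Type u} [Field E] [Field K] [Algebra E K]
    (θ : K) (h0 : θ ≠ 0) (hgen : IntermediateField.adjoin E {θ} = ⊤) (y : K) (hy : y ≠ 0) :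
    ∃ n : ℤ, ∀ V : ValuationSubring K, Ov E V → θ ∈ V.nonunits →
      V.valuation y = V.valuation θ ^ n := by
  have h1 : y ∈ IntermediateField.adjoin E {θ} := by rw [hgen]; trivial
  obtain ⟨r, s, hrs⟩ := (IntermediateField.mem_adjoin_simple_iff E y).1 h1
  have hr : r ≠ 0 := by
    rintro rfl
    apply hy
    rw [hrs]
    simp
  have hs : s ≠ 0 := by
    rintro rfl
    apply hy
    rw [hrs]
    simp
  obtain ⟨n, hn⟩ := relDom_pow θ r hr
  obtain ⟨m, hm⟩ := relDom_pow θ s hs
  refine ⟨(n : ℤ) - m, fun V hV hθ => ?_⟩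
  have hv0 : V.valuation θ ≠ 0 := by
    rw [Valuation.ne_zero_iff]
    exact h0
  rw [hrs, map_div₀, hn V hV hθ, hm V hV hθ, zpow_sub₀ hv0, zpow_natCast, zpow_natCast]

private lemma relDom_mem_iff {K : Type u} [Field K] (θ : K) (h0 : θ ≠ 0) (V : ValuationSubring K)
    (hθ : θ ∈ V.nonunits) (y : K) (n : ℤ) (h : V.valuation y = V.valuation θ ^ n) :
    y ∈ V ↔ 0 ≤ n := by
  have hv0 : 0 < V.valuation θ := by
    rw [zero_lt_iff, Valuation.ne_zero_iff]
    exact h0
  have hv1 : V.valuation θ < 1 := V.mem_nonunits_iff.1 hθ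
  rw [← V.valuation_le_one_iff, h, zpow_le_one_iff_right_of_lt_one₀ hv0 hv1]

/-- there is only one place with `θ = 0` -/
private lemma relDom_uniq {E K : Type u} [Field E] [Field K] [Algebra E K]
    (θ : K) (h0 : θ ≠ 0) (hgen : IntermediateField.adjoin E {θ} = ⊤)
    (V V' : ValuationSubring K) (hV : Ov E V) (hV' : Ov E V') (hθ : θ ∈ V.nonunits)
    (hθ' : θ ∈ V'.nonunits) : V = V' := by
  ext y
  by_cases hy : y = 0
  · rw [hy]
    exact iff_of_true V.zero_mem V'.zero_mem
  · obtain ⟨n, hn⟩ := relDom_zpow θ h0 hgen y hy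
    rw [relDom_mem_iff θ h0 V hθ y n (hn V hV hθ), relDom_mem_iff θ h0 V' hθ' y n (hn V' hV' hθ')]

private lemma relDom_o1 {L : Type u} [Field L] {V : ValuationSubring L} {o : L → ℤ} (h : Dv V o) :
    o 1 = 0 := by
  have := h.mul 1 1 one_ne_zero one_ne_zero
  rw [mul_one] at this
  omega

private lemma relDom_oinv {L : Type u} [Field L] {V : ValuationSubring L} {o : L → ℤ}
    (h : Dv V o) (x : L) (hx : x ≠ 0) : o x⁻¹ = - o x := by
  have := h.mul x x⁻¹ hx (inv_ne_zero hx)
  rw [mul_inv_cancel₀ hx, relDom_o1 h] at this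
  omega

private lemma relDom_opow {L : Type u} [Field L] {V : ValuationSubring L} {o : L → ℤ}
    (h : Dv V o) (x : L) (hx : x ≠ 0) (n : ℕ) : o (x ^ n) = n * o x := by
  induction n with
  | zero => simp [relDom_o1 h]
  | succ n ih =>
    rw [pow_succ, h.mul _ _ (pow_ne_zero n hx) hx, ih]
    push_cast
    ring

private lemma relDom_ozpow {L : Type u} [Field L] {V : ValuationSubring L} {o : L → ℤ}
    (h : Dv V o) (x : L) (hx : x ≠ 0) (n : ℤ) : o (x ^ n) = n * o x := by
  cases n with
  | ofNat n => simpa using relDom_opow h x hx n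
  | negSucc n =>
    rw [zpow_negSucc, relDom_oinv h _ (pow_ne_zero _ hx), relDom_opow h x hx, Int.negSucc_eq]
    push_cast
    ring

private lemma relDom_ounit {L : Type u} [Field L] {V : ValuationSubring L} {o : L → ℤ}
    (h : Dv V o) (x : L) (hx : x ≠ 0) (h1 : x ∈ V) (h2 : x⁻¹ ∈ V) : o x = 0 := by
  have h3 := (h.mem x hx).1 h1
  have h4 := (h.mem _ (inv_ne_zero hx)).1 h2
  rw [relDom_oinv h x hx] at h4
  omega

/-- `θ` is a uniformizer -/
private lemma relDom_unif {E K : Type u} [Field E] [Field K] [Algebra E K]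
    (θ : K) (h0 : θ ≠ 0) (hgen : IntermediateField.adjoin E {θ} = ⊤)
    (V : ValuationSubring K) (o : K → ℤ) (h : Dv V o) (hV : Ov E V) (hθ : θ ∈ V.nonunits) :
    o θ = 1 := by
  obtain ⟨u, hu0, hu⟩ := h.unif
  obtain ⟨n, hn⟩ := relDom_zpow θ h0 hgen u hu0
  have hn' := hn V hV hθ
  have hz : θ ^ n ≠ 0 := zpow_ne_zero n h0
  have h1 : V.valuation (u / θ ^ n) = 1 := by
    rw [map_div₀, map_zpow₀, hn', div_self]
    exact zpow_ne_zero n ((Valuation.ne_zero_iff _).2 h0)
  have h2 : o (u / θ ^ n) = 0 := by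
    refine relDom_ounit h _ (div_ne_zero hu0 hz) ?_ ?_
    · rw [← V.valuation_le_one_iff, h1]
    · rw [← V.valuation_le_one_iff, map_inv₀, h1, inv_one]
  rw [div_eq_mul_inv, h.mul _ _ hu0 (inv_ne_zero hz), relDom_oinv h _ hz, relDom_ozpow h θ h0,
    hu] at h2
  have h3 : 0 ≤ o θ := (h.mem θ h0).1 (V.nonunits_subset hθ)
  have h4 : n * o θ = 1 := by omega
  rcases Int.mul_eq_one_iff_eq_one_or_neg_one.1 h4 with h5 | h5
  · exact h5.2
  · omega

/-- the places of a rational function field over an algebraically closed field -/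
private lemma relDom_place {E K : Type u} [Field E] [IsAlgClosed E] [Field K] [Algebra E K]
    (θ : K) (hgen : IntermediateField.adjoin E {θ} = ⊤)
    (V : ValuationSubring K) (hV : Ov E V) (ht : V ≠ ⊤) :
    θ⁻¹ ∈ V.nonunits ∨ ∃ a : E, θ - algebraMap E K a ∈ V.nonunits := by
  by_cases hθ : θ ∈ V
  swap
  · left
    rw [← V.valuation_le_one_iff, not_le] at hθ
    rw [V.mem_nonunits_iff, map_inv₀]
    exact inv_lt_one_of_one_lt₀ hθ
  right
  obtain ⟨y, hy⟩ : ∃ y : K, y ∉ V := by
    by_contra hcon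
    push Not at hcon
    exact ht (top_unique fun y _ => hcon y)
  have h1 : y ∈ IntermediateField.adjoin E {θ} := by rw [hgen]; trivial
  obtain ⟨r, s, hrs⟩ := (IntermediateField.mem_adjoin_simple_iff E y).1 h1
  have hs : s ≠ 0 := by
    rintro rfl
    apply hy
    rw [hrs]
    simp
  have hvs : V.valuation (aeval θ s) < 1 := by
    by_contra hcon
    have h2 : V.valuation (aeval θ s) ≤ 1 :=
      (V.valuation_le_one_iff _).2 (relDom_memP V hV θ hθ _)
    have h3 : V.valuation (aeval θ s) = 1 := le_antisymm h2 (not_lt.1 hcon)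
    apply hy
    rw [← V.valuation_le_one_iff, hrs, map_div₀, h3, div_one]
    exact (V.valuation_le_one_iff _).2 (relDom_memP V hV θ hθ _)
  have key : ∀ (n : ℕ) (q : E[X]), q.natDegree = n → q ≠ 0 → V.valuation (aeval θ q) < 1 →
      ∃ a : E, θ - algebraMap E K a ∈ V.nonunits := by
    intro n
    induction n with
    | zero =>
      intro q hq hq0 hv
      exfalso
      rw [eq_C_of_natDegree_eq_zero hq] at hv hq0
      rw [aeval_C, relDom_memE V hV _ (fun h => hq0 (by rw [h, C_0]))] at hv
      exact lt_irrefl _ hv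
    | succ n ih =>
      intro q hq hq0 hv
      obtain ⟨a, ha⟩ := IsAlgClosed.exists_root q (by
        rw [degree_eq_natDegree hq0, hq]
        exact_mod_cast Nat.succ_ne_zero n)
      obtain ⟨q', hq'⟩ := dvd_iff_isRoot.2 ha
      have hq'0 : q' ≠ 0 := by
        rintro rfl
        exact hq0 (by rw [hq', mul_zero])
      have hdeg : q'.natDegree = n := by
        have h5 : q.natDegree = (X - C a).natDegree + q'.natDegree := by
          rw [hq', natDegree_mul (X_sub_C_ne_zero a) hq'0]
        rw [natDegree_X_sub_C, hq] at h5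
        omega
      by_cases h6 : V.valuation (θ - algebraMap E K a) < 1
      · exact ⟨a, V.mem_nonunits_iff.2 h6⟩
      · have h7 : V.valuation (θ - algebraMap E K a) ≤ 1 :=
          (V.valuation_le_one_iff _).2 (sub_mem hθ (hV a))
        have h8 : V.valuation (θ - algebraMap E K a) = 1 := le_antisymm h7 (not_lt.1 h6)
        refine ih q' hdeg hq'0 ?_
        rw [hq', map_mul, map_mul] at hv
        simp only [map_sub, aeval_X, aeval_C] at hv
        rwa [h8, one_mul] at hv
  exact key _ s rfl hs hvs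

/-- if `θ` is a rational function of `θ'` then `θ'` is a generator -/
private lemma relDom_gen {E K : Type u} [Field E] [Field K] [Algebra E K]
    (θ θ' : K) (hgen : IntermediateField.adjoin E {θ} = ⊤)
    (h : θ ∈ IntermediateField.adjoin E {θ'}) : IntermediateField.adjoin E {θ'} = ⊤ := by
  rw [eq_top_iff, ← hgen, IntermediateField.adjoin_simple_le_iff]
  exact h

/-- the function with the divisor `P - Q` on the projective line -/
private lemma relDom_psi {E K : Type u} [Field E] [IsAlgClosed E] [Field K] [Algebra E K]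
    (θ : K) (hgen : IntermediateField.adjoin E {θ} = ⊤)
    (V V' : ValuationSubring K) (hV : Ov E V) (ht : V ≠ ⊤) (hV' : Ov E V') (ht' : V' ≠ ⊤)
    (hne : V ≠ V') :
    ∃ ψ : K, ψ ≠ 0 ∧ IntermediateField.adjoin E {ψ} = ⊤ ∧ ψ ∈ V.nonunits ∧ ψ⁻¹ ∈ V'.nonunits := by
  -- a generator which vanishes at `V`
  have hinv : ∀ y : K, IntermediateField.adjoin E {y} = ⊤ →
      IntermediateField.adjoin E {y⁻¹} = ⊤ := by
    intro y hy
    refine relDom_gen y _ hy ?_
    have := inv_mem (IntermediateField.mem_adjoin_simple_self E y⁻¹)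
    rwa [inv_inv] at this
  have hsub : ∀ (y : K) (a : E), IntermediateField.adjoin E {y} = ⊤ →
      IntermediateField.adjoin E {y - algebraMap E K a} = ⊤ := by
    intro y a hy
    refine relDom_gen y _ hy ?_
    have := add_mem (IntermediateField.mem_adjoin_simple_self E (y - algebraMap E K a))
      ((IntermediateField.adjoin E {y - algebraMap E K a}).algebraMap_mem a)
    rwa [sub_add_cancel] at this
  -- no generator is in `E`
  have hnc : ∀ y : K, IntermediateField.adjoin E {y} = ⊤ → y ≠ 0 := by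
    rintro y hy rfl
    apply ht
    rw [eq_top_iff]
    intro x _
    have h1 : x ∈ IntermediateField.adjoin E {(0 : K)} := by rw [hy]; trivial
    rw [IntermediateField.adjoin_zero, IntermediateField.mem_bot] at h1
    obtain ⟨e, rfl⟩ := h1
    exact hV e
  obtain ⟨θ₁, hgen₁, hθ₁⟩ : ∃ θ₁ : K, IntermediateField.adjoin E {θ₁} = ⊤ ∧
      θ₁ ∈ V.nonunits := by
    rcases relDom_place θ hgen V hV ht with h1 | ⟨a, h1⟩
    · exact ⟨θ⁻¹, hinv θ hgen, h1⟩
    · exact ⟨_, hsub θ a hgen, h1⟩
  have h10 := hnc θ₁ hgen₁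
  rcases relDom_place θ₁ hgen₁ V' hV' ht' with h2 | ⟨b, h2⟩
  · exact ⟨θ₁, h10, hgen₁, hθ₁, h2⟩
  · have hb : b ≠ 0 := by
      rintro rfl
      rw [map_zero, sub_zero] at h2
      exact hne (relDom_uniq θ₁ h10 hgen₁ V V' hV hV' hθ₁ h2)
    have h30 := hnc _ (hsub θ₁ b hgen₁)
    have hvb : V.valuation (algebraMap E K b) = 1 := relDom_memE V hV b hb
    have hvb' : V'.valuation (algebraMap E K b) = 1 := relDom_memE V' hV' b hb
    have h3 : V.valuation (θ₁ - algebraMap E K b) = 1 := by
      rw [Valuation.map_sub_swap, ← hvb]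
      apply Valuation.map_sub_eq_of_lt_left
      rw [hvb]
      exact V.mem_nonunits_iff.1 hθ₁
    have h4 : V'.valuation θ₁ = 1 := by
      have h5 : θ₁ = (θ₁ - algebraMap E K b) + algebraMap E K b := by ring
      rw [h5, Valuation.map_add_eq_of_lt_right, hvb']
      rw [hvb']
      exact V'.mem_nonunits_iff.1 h2
    refine ⟨θ₁ / (θ₁ - algebraMap E K b), div_ne_zero h10 h30, ?_, ?_, ?_⟩
    · refine relDom_gen θ₁ _ hgen₁ ?_
      set ψ := θ₁ / (θ₁ - algebraMap E K b) with hψ
      have hψ1 : ψ - 1 ≠ 0 := by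
        rw [hψ, div_sub_one h30, sub_sub_cancel]
        exact div_ne_zero ((_root_.map_ne_zero _).2 hb) h30
      have h6 : θ₁ = algebraMap E K b * ψ / (ψ - 1) := by
        rw [eq_div_iff hψ1, hψ]
        field_simp
        ring
      rw [h6]
      exact div_mem (mul_mem (IntermediateField.algebraMap_mem _ b)
        (IntermediateField.mem_adjoin_simple_self E ψ))
        (sub_mem (IntermediateField.mem_adjoin_simple_self E ψ) (one_mem _))
    · rw [V.mem_nonunits_iff, map_div₀, h3, div_one]
      exact V.mem_nonunits_iff.1 hθ₁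
    · rw [V'.mem_nonunits_iff, map_inv₀, map_div₀, h4, one_div, inv_inv]
      exact V'.mem_nonunits_iff.1 h2

private lemma relDom_core {E K : Type u} [Field E] [IsAlgClosed E] [Field K] [Algebra E K]
    (θ : K) (hθ : IntermediateField.adjoin E {θ} = ⊤)
    (G g : MvPolynomial (Fin 2) E) (hG : Irreducible G) (x : Fin 2 → K)
    (hx : ∀ h : MvPolynomial (Fin 2) E, MvPolynomial.aeval x h = 0 ↔ G ∣ h)
    (hgen : IntermediateField.adjoin E (Set.range x) = ⊤) (P : Fin 2 → E) (hP : Gp G g P)
    (𝒜 : Set (Fin 2 → E)) (hA : ∃ Q₁ ∈ 𝒜, Gp G g Q₁) :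
    ∃ D : (Fin 2 → E) → ℤ, Pri G g D ∧ ∀ Q, Gp G g Q → Q ∉ 𝒜 →
      ((Q = P → D Q = 1) ∧ (Q ≠ P → D Q = 0)) := by
  by_cases hPA : P ∈ 𝒜
  · refine ⟨fun _ => 0, ⟨1, 1, fun h => hG.not_isUnit (isUnit_of_dvd_one h),
      fun h => hG.not_isUnit (isUnit_of_dvd_one h), fun Q _ => by simp⟩, fun Q _ hQA => ?_⟩
    exact ⟨fun h => absurd (h ▸ hPA) hQA, fun _ => rfl⟩
  obtain ⟨Q₁, hQ₁A, hQ₁⟩ := hA
  have hPQ : P ≠ Q₁ := fun h => hPA (h ▸ hQ₁A)
  -- different points have different places
  have hdiff : ∀ (Q Q' : Fin 2 → E) (V : ValuationSubring K), V ≠ ⊤ → Ov E V →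
      (∀ i, x i - algebraMap E K (Q i) ∈ V.nonunits) →
      (∀ i, x i - algebraMap E K (Q' i) ∈ V.nonunits) → Q = Q' := by
    intro Q Q' V _ hV h1 h2
    funext i
    by_contra hcon
    have h3 : V.valuation (algebraMap E K (Q' i - Q i)) = 1 :=
      relDom_memE V hV _ (sub_ne_zero.2 (Ne.symm hcon))
    have h4 : V.valuation (algebraMap E K (Q' i - Q i)) < 1 := by
      have h5 : algebraMap E K (Q' i - Q i) = (x i - algebraMap E K (Q i)) -
          (x i - algebraMap E K (Q' i)) := by
        rw [map_sub]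
        ring
      rw [h5]
      exact Valuation.map_sub_lt _ (V.mem_nonunits_iff.1 (h1 i)) (V.mem_nonunits_iff.1 (h2 i))
    rw [h3] at h4
    exact lt_irrefl _ h4
  obtain ⟨V, o, hDv, hVt, hVE, hVx, -, -, hVo⟩ := oQ_dv G g hG x hx hgen P hP
  obtain ⟨V₁, o₁, hDv₁, hVt₁, hVE₁, hVx₁, -, -, hVo₁⟩ := oQ_dv G g hG x hx hgen Q₁ hQ₁
  have hne : V ≠ V₁ := by
    rintro rfl
    exact hPQ (hdiff P Q₁ V hVt hVE hVx hVx₁)
  obtain ⟨ψ, hψ0, hψgen, hψV, hψV₁⟩ := relDom_psi θ hθ V V₁ hVE hVt hVE₁ hVt₁ hne
  have h1 : ψ ∈ IntermediateField.adjoin E (Set.range x) := by rw [hgen]; trivial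
  obtain ⟨R₁, R₂, hR⟩ := (IntermediateField.mem_adjoin_range_iff E x ψ).1 h1
  have hR₁0 : MvPolynomial.aeval x R₁ ≠ 0 := by
    intro h
    apply hψ0
    rw [hR, h, zero_div]
  have hR₂0 : MvPolynomial.aeval x R₂ ≠ 0 := by
    intro h
    apply hψ0
    rw [hR, h, div_zero]
  have hR₁ : ¬ G ∣ R₁ := fun h => hR₁0 ((hx R₁).2 h)
  have hR₂ : ¬ G ∣ R₂ := fun h => hR₂0 ((hx R₂).2 h)
  refine ⟨fun Q => ((oQ G R₁ Q).toNat : ℤ) - (oQ G R₂ Q).toNat,
    ⟨R₁, R₂, hR₁, hR₂, fun Q _ => rfl⟩, fun Q hQ hQA => ?_⟩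
  have hcomp : ∀ (W : ValuationSubring K) (oW : K → ℤ), Dv W oW →
      (∀ h : MvPolynomial (Fin 2) E, ¬ G ∣ h → oQ G h Q ≠ ⊤ ∧
        ((oQ G h Q).toNat : ℤ) = oW (MvPolynomial.aeval x h)) →
      ((oQ G R₁ Q).toNat : ℤ) - (oQ G R₂ Q).toNat = oW ψ := by
    intro W oW hW hWo
    rw [(hWo R₁ hR₁).2, (hWo R₂ hR₂).2, hR, div_eq_mul_inv,
      hW.mul _ _ hR₁0 (inv_ne_zero hR₂0), relDom_oinv hW _ hR₂0]
    ring
  constructor
  · rintro rfl
    show ((oQ G R₁ Q).toNat : ℤ) - (oQ G R₂ Q).toNat = 1
    rw [hcomp V o hDv hVo]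
    exact relDom_unif ψ hψ0 hψgen V o hDv hVE hψV
  · intro hQP
    obtain ⟨W, oW, hDvW, hWt, hWE, hWx, -, -, hWo⟩ := oQ_dv G g hG x hx hgen Q hQ
    show ((oQ G R₁ Q).toNat : ℤ) - (oQ G R₂ Q).toNat = 0
    rw [hcomp W oW hDvW hWo]
    have hWV : W ≠ V := by
      rintro rfl
      exact hQP (hdiff Q P W hWt hWE hWx hVx)
    have hWV₁ : W ≠ V₁ := by
      rintro rfl
      have := hdiff Q Q₁ W hWt hWE hWx hVx₁
      exact hQA (this ▸ hQ₁A)
    have hψ1 : ψ ∉ W.nonunits := fun h =>
      hWV (relDom_uniq ψ hψ0 hψgen W V hWE hVE h hψV)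
    have hinvgen : IntermediateField.adjoin E {ψ⁻¹} = ⊤ := by
      refine relDom_gen ψ _ hψgen ?_
      have := inv_mem (IntermediateField.mem_adjoin_simple_self E ψ⁻¹)
      rwa [inv_inv] at this
    have hψ2 : ψ⁻¹ ∉ W.nonunits := fun h =>
      hWV₁ (relDom_uniq ψ⁻¹ (inv_ne_zero hψ0) hinvgen W V₁ hWE hVE₁ h hψV₁)
    rw [W.mem_nonunits_iff, not_lt] at hψ1 hψ2
    refine relDom_ounit hDvW ψ hψ0 ?_ ?_
    · rw [← W.valuation_le_one_iff]
      rw [map_inv₀] at hψ2
      exact (one_le_inv₀ (lt_of_lt_of_le one_pos hψ1)).1 hψ2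
    · rw [← W.valuation_le_one_iff, map_inv₀]
      exact inv_le_one_of_one_le₀ hψ1

end

section

theorem relDom {E : Type u} [Field E] [IsAlgClosed E] (G g : MvPolynomial (Fin 2) E)
    (hG : Irreducible G) (hgG : ¬ G ∣ g) (hnd : ¬ ND G) (P : Fin 2 → E) (hP : Gp G g P)
    (𝒜 : Set (Fin 2 → E)) (hA : ∃ Q₁ ∈ 𝒜, Gp G g Q₁) :
    ∃ D : (Fin 2 → E) → ℤ, Pri G g D ∧ ∀ Q, Gp G g Q → Q ∉ 𝒜 →
      ((Q = P → D Q = 1) ∧ (Q ≠ P → D Q = 0)) := by
  unfold ND at hnd
  push Not at hnd
  obtain ⟨ξ, hξ, i₀, hi₀⟩ := hnd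
  have hnc : ¬ ∀ i, ∃ e : E, ξ i = algebraMap E (RatFunc E) e := by
    intro h
    obtain ⟨e, he⟩ := h i₀
    exact hi₀ e (by rw [he, RatFunc.algebraMap_eq_C])
  have htr : Td1 E (RatFunc E) := by
    intro t ht x
    have h1 : ¬ ∃ c, t = RatFunc.C c := by
      rintro ⟨c, rfl⟩
      apply ht
      rw [← RatFunc.algebraMap_eq_C]
      exact isAlgebraic_algebraMap c
    have := RatFunc.isAlgebraic_adjoin_simple_X' t h1
    exact this.isAlgebraic x
  obtain ⟨h₀, hirr, hh₀⟩ := plane_h htr ξ hnc
  have hxi : ∀ h : MvPolynomial (Fin 2) E, MvPolynomial.aeval ξ h = 0 ↔ G ∣ h := by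
    have h1 : h₀ ∣ G := (hh₀ G).1 hξ
    have h2 : Associated h₀ G := hirr.associated_of_dvd hG h1
    intro h
    rw [hh₀ h]
    exact h2.dvd_iff_dvd_left
  set F : IntermediateField E (RatFunc E) := IntermediateField.adjoin E (Set.range ξ) with hF
  have hFbot : F ≠ ⊥ := by
    intro h
    have h1 : ξ i₀ ∈ F := IntermediateField.subset_adjoin _ _ ⟨i₀, rfl⟩
    rw [h, IntermediateField.mem_bot] at h1
    obtain ⟨e, he⟩ := h1
    exact hi₀ e (by rw [← he, RatFunc.algebraMap_eq_C])
  have hmem : ∀ i, ξ i ∈ F := fun i => IntermediateField.subset_adjoin _ _ ⟨i, rfl⟩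
  let x : Fin 2 → F := fun i => ⟨ξ i, hmem i⟩
  have hxa : ∀ h : MvPolynomial (Fin 2) E,
      ((MvPolynomial.aeval x h : F) : RatFunc E) = MvPolynomial.aeval ξ h := by
    intro h
    have h1 : (F.val.comp (MvPolynomial.aeval x)) = MvPolynomial.aeval ξ := by
      ext i
      simp [x]
    exact congrArg (fun φ => φ h) h1
  have hx : ∀ h : MvPolynomial (Fin 2) E, MvPolynomial.aeval x h = 0 ↔ G ∣ h := by
    intro h
    rw [← hxi h, ← hxa h]
    exact (ZeroMemClass.coe_eq_zero).symm
  have hgenx : IntermediateField.adjoin E (Set.range x) = ⊤ := by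
    apply IntermediateField.lift_injective F
    rw [IntermediateField.lift_adjoin, IntermediateField.lift_top, ← Set.range_comp]
    exact hF.symm
  have hθ : IntermediateField.adjoin E
      {(⟨RatFunc.Luroth.generator F, RatFunc.Luroth.generator_mem⟩ : F)} = ⊤ := by
    apply IntermediateField.lift_injective F
    rw [IntermediateField.lift_adjoin_simple, IntermediateField.lift_top]
    exact RatFunc.Luroth.eq_adjoin_generator.symm
  exact relDom_core _ hθ G g hG x hx hgenx P hP 𝒜 hA

end

end Pool.Agent.RDP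

end

section


namespace Pool.Agent.RDP

open Pool.Agent.TBR Polynomial Pool.Agent.TQU

universe u v w

section

open scoped IntermediateField.algebraAdjoinAdjoin in
private theorem nonA_good_gen {k E : Type u} [Field k] [Field E] [Algebra k E] (t : E)
    (P : Fin 2 → E) (hP : AlgebraicIndependent k P)
    (h : ∀ i, IsAlgebraic (IntermediateField.adjoin k {t}) (P i)) : False := by
  have h1 : ∀ i, P i ∈ (AlgebraicIndependent.matroid k E).closure {t} := by
    intro i
    rw [AlgebraicIndependent.matroid_closure_eq]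
    have h2 := (IsFractionRing.isAlgebraic_iff (Algebra.adjoin k {t})
      (IntermediateField.adjoin k {t}) E).2 (h i)
    exact h2
  have h2 : (AlgebraicIndependent.matroid k E).Indep (Set.range P) :=
    AlgebraicIndependent.matroid_indep_iff.2 hP.to_subtype_range
  have h3 : Set.range P ⊆ (AlgebraicIndependent.matroid k E).closure {t} := by
    rintro _ ⟨i, rfl⟩
    exact h1 i
  have h4 := h2.encard_le_eRk_of_subset h3
  rw [Matroid.eRk_closure_eq] at h4
  have h5 := h4.trans ((AlgebraicIndependent.matroid k E).eRk_le_encard {t})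
  rw [Set.encard_singleton, ← Set.image_univ, hP.injective.injOn.encard_image,
    Set.encard_univ, ENat.card_eq_coe_fintype_card, Fintype.card_fin] at h5
  norm_num at h5

private theorem nonA_good_deg {E : Type u} [Field E] (G : MvPolynomial (Fin 2) E)
    (hG : Irreducible G) (i : Fin 2) (h : MvPolynomial.pderiv i G ≠ 0) :
    ¬ G ∣ MvPolynomial.pderiv i G := by
  intro hd
  obtain ⟨q, hq⟩ := hd
  have hq0 : q ≠ 0 := by
    rintro rfl
    rw [mul_zero] at hq
    exact h hq
  have h1 : G.totalDegree ≤ (MvPolynomial.pderiv i G).totalDegree := by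
    rw [hq, MvPolynomial.totalDegree_mul_of_isDomain hG.ne_zero hq0]
    exact Nat.le_add_right _ _
  obtain ⟨m, hm, hm'⟩ : ∃ m ∈ (MvPolynomial.pderiv i G).support,
      (m.sum fun _ e => e) = (MvPolynomial.pderiv i G).totalDegree := by
    have h2 : (MvPolynomial.pderiv i G).support.Nonempty :=
      MvPolynomial.support_nonempty.2 h
    obtain ⟨m, hm, hm'⟩ := Finset.exists_mem_eq_sup _ h2 (fun m => m.sum fun _ e => e)
    exact ⟨m, hm, hm'.symm⟩
  have h3 : m + Finsupp.single i 1 ∈ G.support := by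
    rw [MvPolynomial.mem_support_iff, MvPolynomial.coeff_pderiv] at hm
    exact MvPolynomial.mem_support_iff.2 (left_ne_zero_of_mul hm)
  have h4 := MvPolynomial.le_totalDegree h3
  rw [Finsupp.sum_add_index' (fun _ => rfl) (fun _ _ _ => rfl), Finsupp.sum_single_index rfl,
    hm'] at h4
  omega

private theorem nonA_good_pd {E : Type u} [Field E] [IsAlgClosed E] (G : MvPolynomial (Fin 2) E)
    (hG : Irreducible G) : ∃ i, MvPolynomial.pderiv i G ≠ 0 := by
  by_contra hc
  push Not at hc
  have h1 : ∀ m ∈ G.support, ∀ i, ((m i : ℕ) : E) = 0 := by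
    intro m hm i
    by_cases h0 : m i = 0
    · rw [h0, Nat.cast_zero]
    · have h2 := congrArg (MvPolynomial.coeff (m - Finsupp.single i 1)) (hc i)
      have h3 : m - Finsupp.single i 1 + Finsupp.single i 1 = m := by
        ext j
        by_cases hj : i = j
        · subst hj
          simp only [Finsupp.coe_add, Finsupp.coe_tsub, Pi.add_apply, Pi.sub_apply,
            Finsupp.single_eq_same]
          omega
        · simp [hj]
      rw [MvPolynomial.coeff_pderiv, h3, MvPolynomial.coeff_zero] at h2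
      rcases mul_eq_zero.1 h2 with h4 | h4
      · exact absurd h4 (MvPolynomial.mem_support_iff.1 hm)
      · rw [Finsupp.coe_tsub, Pi.sub_apply, Finsupp.single_eq_same] at h4
        have h5 : ((m i - 1 : ℕ) : E) + 1 = ((m i - 1 + 1 : ℕ) : E) := by push_cast; rfl
        rw [h5, Nat.sub_add_cancel (Nat.pos_of_ne_zero h0)] at h4
        exact h4
  obtain ⟨p, hp⟩ := CharP.exists E
  rcases CharP.char_is_prime_or_zero E p with hpp | rfl
  · have hpf : Fact p.Prime := ⟨hpp⟩
    have h2 : ∀ m ∈ G.support, ∀ i, p ∣ m i := fun m hm i =>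
      (CharP.cast_eq_zero_iff E p (m i)).1 (h1 m hm i)
    have h3 : ∀ c : E, ∃ d : E, d ^ p = c := fun c => IsAlgClosed.exists_pow_nat_eq c hpp.pos
    choose d hd using h3
    have h4 : G = (∑ m ∈ G.support, MvPolynomial.monomial
        (Finsupp.mapRange (fun e => e / p) (Nat.zero_div p) m) (d (MvPolynomial.coeff m G))) ^ p := by
      have hcp : CharP (MvPolynomial (Fin 2) E) p := inferInstance
      rw [sum_pow_char]
      conv_lhs => rw [MvPolynomial.as_sum G]
      refine Finset.sum_congr rfl fun m hm => ?_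
      rw [MvPolynomial.monomial_pow, hd]
      have h5 : p • Finsupp.mapRange (fun e => e / p) (Nat.zero_div p) m = m := by
        ext i
        rw [Finsupp.smul_apply, Finsupp.mapRange_apply, smul_eq_mul,
          Nat.mul_div_cancel' (h2 m hm i)]
      rw [h5]
    rw [h4] at hG
    exact not_irreducible_pow hpp.ne_one hG
  · have h2 : ∀ m ∈ G.support, m = 0 := by
      intro m hm
      ext i
      have := (CharP.cast_eq_zero_iff E 0 (m i)).1 (h1 m hm i)
      rw [Finsupp.coe_zero, Pi.zero_apply]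
      exact Nat.eq_zero_of_zero_dvd this
    have h3 : G = MvPolynomial.C (MvPolynomial.coeff 0 G) := by
      ext m
      rw [MvPolynomial.coeff_C]
      by_cases hm : 0 = m
      · rw [if_pos hm, hm]
      · rw [if_neg hm]
        by_contra h4
        exact hm (h2 m (MvPolynomial.mem_support_iff.2 h4)).symm
    rw [h3] at hG
    by_cases h4 : MvPolynomial.coeff 0 G = 0
    · rw [h4, map_zero] at hG
      exact hG.ne_zero rfl
    · exact hG.not_isUnit ((isUnit_iff_ne_zero.2 h4).map MvPolynomial.C)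

private theorem nonA_good_unit {A E : Type u} [Field A] [Field E] [Algebra A E]
    (a : MvPolynomial (Fin 2) A) (h : IsUnit (MvPolynomial.map (algebraMap A E) a)) :
    IsUnit a := by
  obtain ⟨r, hr, hr'⟩ := MvPolynomial.isUnit_iff_eq_C_of_isReduced.1 h
  refine MvPolynomial.isUnit_iff_eq_C_of_isReduced.2 ⟨MvPolynomial.coeff 0 a, ?_, ?_⟩
  · rw [isUnit_iff_ne_zero]
    intro h0
    have h1 := congrArg (MvPolynomial.coeff 0) hr'
    rw [MvPolynomial.coeff_map, h0, map_zero, MvPolynomial.coeff_C, if_pos rfl] at h1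
    exact hr.ne_zero h1.symm
  · ext m
    rw [MvPolynomial.coeff_C]
    by_cases hm : 0 = m
    · rw [if_pos hm, hm]
    · rw [if_neg hm]
      have h1 := congrArg (MvPolynomial.coeff m) hr'
      rw [MvPolynomial.coeff_map, MvPolynomial.coeff_C, if_neg hm] at h1
      exact (map_eq_zero _).1 h1

private theorem nonA_good_irr {A E : Type u} [Field A] [Field E] [Algebra A E]
    (a : MvPolynomial (Fin 2) A) (h : Irreducible (MvPolynomial.map (algebraMap A E) a)) :
    Irreducible a := by
  refine ⟨fun h1 => h.not_isUnit (h1.map _), fun b c hbc => ?_⟩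
  rw [hbc, map_mul] at h
  rcases h.isUnit_or_isUnit rfl with h1 | h1
  · exact Or.inl (nonA_good_unit b h1)
  · exact Or.inr (nonA_good_unit c h1)

private theorem nonA_good_trans {k E : Type u} [Field k] [Field E] [Algebra k E]
    (f g : MvPolynomial (Fin 2) k) (P : Fin 2 → E) (hP : AlgebraicIndependent k P) (t : E)
    (ht : t * MvPolynomial.aeval P g = MvPolynomial.aeval P f)
    (hG : Irreducible (MvPolynomial.map (algebraMap k E) f -
      MvPolynomial.C t * MvPolynomial.map (algebraMap k E) g)) : Transcendental k t := by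
  intro halg
  have hP' := hP.algebraicClosure
  obtain ⟨t', ht'⟩ : ∃ t' : algebraicClosure k E, (t' : E) = t :=
    ⟨⟨t, mem_algebraicClosure_iff.2 halg⟩, rfl⟩
  have h1 : MvPolynomial.aeval P (MvPolynomial.map (algebraMap k (algebraicClosure k E)) f -
      MvPolynomial.C t' * MvPolynomial.map (algebraMap k (algebraicClosure k E)) g) = 0 := by
    rw [map_sub, map_mul, MvPolynomial.aeval_map_algebraMap, MvPolynomial.aeval_map_algebraMap,
      MvPolynomial.aeval_C, ← ht, ← ht']
    exact sub_self _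
  have h2 := (algebraicIndependent_iff.1 hP') _ h1
  have h3 := congrArg (MvPolynomial.map (algebraMap (algebraicClosure k E) E)) h2
  rw [map_sub, map_mul, MvPolynomial.map_map, MvPolynomial.map_map, MvPolynomial.map_C,
    ← IsScalarTower.algebraMap_eq, map_zero] at h3
  apply hG.ne_zero
  rw [← ht']
  exact h3

end

section

theorem nonA_good {k E : Type u} [Field k] [Field E] [IsAlgClosed E] [Algebra k E]
    (h2 : (2 : k) ≠ 0) (f g : MvPolynomial (Fin 2) k) (P : Fin 2 → E) (hP : AlgebraicIndependent k P)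
    (hg : g ≠ 0) (t : E) (ht : t * MvPolynomial.aeval P g = MvPolynomial.aeval P f)
    (hG : Irreducible (MvPolynomial.map (algebraMap k E) f -
      MvPolynomial.C t * MvPolynomial.map (algebraMap k E) g)) :
    Transcendental k t ∧ P ∉ {Q : Fin 2 → E | ∀ i, Q i ∈ Acl k t} ∧
      (∀ Q : Fin 2 → E, MvPolynomial.eval Q (MvPolynomial.map (algebraMap k E) f - MvPolynomial.C t * MvPolynomial.map (algebraMap k E) g) = 0 →
        (¬ ∀ i, Q i ∈ Acl k t) →
        Gp (MvPolynomial.map (algebraMap k E) f - MvPolynomial.C t * MvPolynomial.map (algebraMap k E) g)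
          (MvPolynomial.map (algebraMap k E) g) Q) ∧
      ∃ Q₁ : Fin 2 → E, (∀ i, Q₁ i ∈ Acl k t) ∧
        Gp (MvPolynomial.map (algebraMap k E) f - MvPolynomial.C t * MvPolynomial.map (algebraMap k E) g)
          (MvPolynomial.map (algebraMap k E) g) Q₁ := by
  obtain ⟨G, hGdef⟩ : ∃ G, G = MvPolynomial.map (algebraMap k E) f -
      MvPolynomial.C t * MvPolynomial.map (algebraMap k E) g := ⟨_, rfl⟩
  have htr := nonA_good_trans f g P hP t ht hG
  have hsq := (sq f g P hP hg t ht hG 0).2
  rw [← hGdef] at hG ⊢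
  have hcl : IsAlgClosed (Az k t) := az_closed t
  have hAz : ∀ x : E, x ∈ Az k t ↔ x ∈ Acl k t := fun x => sit_az_mem t x
  have hle : IntermediateField.adjoin k {t} ≤ Az k t := by
    intro x hx
    rw [sit_az_mem]
    exact isAlgebraic_algebraMap (⟨x, hx⟩ : IntermediateField.adjoin k {t})
  have htA : t ∈ Az k t := hle (IntermediateField.subset_adjoin k {t} rfl)
  have hgA : Cf (Az k t : Set E) (MvPolynomial.map (algebraMap k E) g) := fun m => by
    rw [MvPolynomial.coeff_map]
    exact (Az k t).algebraMap_mem _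
  have hGA : Cf (Az k t : Set E) G := fun m => by
    rw [hGdef, MvPolynomial.coeff_sub, MvPolynomial.coeff_C_mul, MvPolynomial.coeff_map,
      MvPolynomial.coeff_map]
    exact sub_mem ((Az k t).algebraMap_mem _) (mul_mem htA ((Az k t).algebraMap_mem _))
  have hGg : ¬ G ∣ MvPolynomial.map (algebraMap k E) g := by
    intro hd
    apply hsq G hG hd
    have h1 : MvPolynomial.map (algebraMap k E) f =
        G + MvPolynomial.C t * MvPolynomial.map (algebraMap k E) g := by
      rw [hGdef]
      ring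
    rw [h1]
    exact dvd_add dvd_rfl (hd.mul_left _)
  obtain ⟨i, hi⟩ := nonA_good_pd G hG
  have hGi : ¬ G ∣ MvPolynomial.pderiv i G := nonA_good_deg G hG i hi
  have hiA : Cf (Az k t : Set E) (MvPolynomial.pderiv i G) := fun m => by
    rw [MvPolynomial.coeff_pderiv]
    exact mul_mem (hGA _) (add_mem (natCast_mem _ _) (one_mem _))
  refine ⟨htr, fun h => nonA_good_gen t P hP h, fun Q hQ hQA => ?_, ?_⟩
  · have hQA' : ¬ ∀ i, Q i ∈ Az k t := fun h => hQA fun i => (hAz _).1 (h i)
    exact ⟨hQ, fun h => hGg ((gen_iff (Az k t) G hGA hG Q hQ hQA' _ hgA).1 h),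
      i, fun h => hGi ((gen_iff (Az k t) G hGA hG Q hQ hQA' _ hiA).1 h)⟩
  · obtain ⟨G', hG'⟩ := (loc_unif_Cf (Az k t) _).1 hGA
    obtain ⟨g', hg'⟩ := (loc_unif_Cf (Az k t) _).1 hgA
    obtain ⟨d', hd'⟩ := (loc_unif_Cf (Az k t) _).1 hiA
    have hG'irr : Prime G' := by
      rw [← hG'] at hG
      exact (nonA_good_irr G' hG).prime
    have hnd : ¬ G' ∣ g' * d' := by
      intro h
      rcases hG'irr.dvd_or_dvd h with h | h
      · apply hGg
        rw [← hG', ← hg']
        exact map_dvd (MvPolynomial.map (algebraMap (Az k t) E)) h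
      · apply hGi
        rw [← hG'] at hd' ⊢
        rw [← hd']
        exact map_dvd (MvPolynomial.map (algebraMap (Az k t) E)) h
    have hprime : (Ideal.span {G'}).IsPrime := (Ideal.span_singleton_prime hG'irr.ne_zero).2 hG'irr
    obtain ⟨Q, hQ1, hQ2⟩ : ∃ Q : Fin 2 → Az k t, MvPolynomial.aeval Q G' = 0 ∧
        MvPolynomial.aeval Q (g' * d') ≠ 0 := by
      by_contra hc
      push Not at hc
      have h1 : g' * d' ∈ MvPolynomial.vanishingIdeal (Az k t)
          (MvPolynomial.zeroLocus (Az k t) (Ideal.span {G'})) := by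
        intro Q hQ
        exact hc Q (hQ G' (Ideal.mem_span_singleton_self G'))
      rw [MvPolynomial.vanishingIdeal_zeroLocus_eq_radical, hprime.radical,
        Ideal.mem_span_singleton] at h1
      exact hnd h1
    have hev : ∀ u : MvPolynomial (Fin 2) (Az k t),
        MvPolynomial.eval (fun i => (Q i : E)) (MvPolynomial.map (algebraMap (Az k t) E) u) =
          ((MvPolynomial.aeval Q u : Az k t) : E) := by
      intro u
      rw [MvPolynomial.eval_map, ← MvPolynomial.aeval_def]
      exact MvPolynomial.aeval_algebraMap_apply E Q u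
    rw [map_mul] at hQ2
    refine ⟨fun i => (Q i : E), fun i => (hAz _).1 (Q i).2, ?_, ?_, i, ?_⟩
    · rw [← hG', hev, hQ1]
      rfl
    · rw [← hg', hev]
      exact fun h => left_ne_zero_of_mul hQ2 (Subtype.ext h)
    · rw [← hd', hev]
      exact fun h => right_ne_zero_of_mul hQ2 (Subtype.ext h)

end

end Pool.Agent.RDP

end
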