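import Pool.Agent.RDM.Rel

/-!
# The relation on a smooth affine plane curve
-/

set_option autoImplicit false

namespace Pool.Agent.RDP

open Pool.Agent.TBR Pool.Agent.TQU

universe u

/-- the points of the curve `F = 0` are integral over a valuation ring if the value of `H` is
integral -/
def Hint {Ω : Type u} [Field Ω] (F H : MvPolynomial (Fin 2) Ω) : Prop :=
  ∀ (M : Type u) [Field M] [Algebra Ω M] (W : ValuationSubring M) (x : Fin 2 → M),
    (∀ a : Ω, algebraMap Ω M a ∈ W) → MvPolynomial.aeval x F = 0 →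
      MvPolynomial.aeval x H ∈ W → ∀ i, x i ∈ W

/-- `Q` is a point of `F = 0` which is not algebraic over `k(z)` -/
def Na (k : Type u) {Ω : Type u} [Field k] [Field Ω] [Algebra k Ω] (z : Ω)
    (F : MvPolynomial (Fin 2) Ω) (Q : Fin 2 → Ω) : Prop :=
  MvPolynomial.eval Q F = 0 ∧ ¬ ∀ i, Q i ∈ Az k z

/-- the zero cycle `Z` of points of `F = 0`, which are not algebraic over `k(z)`, is defined over
the field `L` -/
structure Cyc (k : Type u) {Ω : Type u} [Field k] [Field Ω] [Algebra k Ω] (z : Ω)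
    (F : MvPolynomial (Fin 2) Ω) (Z : Multiset (Fin 2 → Ω)) (L : IntermediateField k Ω) : Prop where
  fg : L.FG
  mem : z ∈ L
  al : ∀ x : Ω, IsAlgebraic L x
  na : ∀ Q ∈ Z, Na k z F Q
  inv : ∀ σ ∈ Fx k (L : Set Ω), Z.map (fun Q i => σ (Q i)) = Z

/-- the relation on the smooth affine plane curve `F = 0` over `k(z)`: the divisor of `U / W` is
`n₀ P + ∑ n i Z i` -/
structure RelC (k : Type u) {Ω : Type u} [Field k] [Field Ω] [Algebra k Ω] (z : Ω)
    (P : Fin 2 → Ω) (F η U W : MvPolynomial (Fin 2) Ω) (ZU ZW : Multiset (Fin 2 → Ω)) (n₀ : ℕ)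
    {ι : Type} [Fintype ι] (n : ι → ℤ) (Z : ι → Multiset (Fin 2 → Ω))
    (L : ι → IntermediateField k Ω) : Prop where
  zt : Transcendental k z
  ded : IsDedekindDomain (CR F)
  cf : Cf (IntermediateField.adjoin k {z} : Set Ω) F
  cfη : Cf (IntermediateField.adjoin k {z} : Set Ω) η
  hint : Hint F η
  na : Na k z F P
  pos : 0 < n₀
  cyc : ∀ i, Cyc k z F (Z i) (L i)
  naU : ∀ Q ∈ ZU, Na k z F Q
  naW : ∀ Q ∈ ZW, Na k z F Q
  facU : Ideal.span {Ideal.Quotient.mk (Ideal.span {F}) U} = (ZU.map (ptIdeal F)).prod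
  facW : Ideal.span {Ideal.Quotient.mk (Ideal.span {F}) W} = (ZW.map (ptIdeal F)).prod
  rel : ZU + ∑ i, (- n i).toNat • Z i =
    ZW + Multiset.replicate n₀ P + ∑ i, (n i).toNat • Z i

/-- `F = 0` is an open subset of the curve `G = 0`: `ψ` is the map to `G = 0`, the image is
`d ≠ 0`, and `φ / d` is the inverse map. The points of `B` are not in the image. -/
structure Mod (k : Type u) {Ω : Type u} [Field k] [Field Ω] [Algebra k Ω] (z : Ω)
    (G : MvPolynomial (Fin 2) Ω) (B : Set (Fin 2 → Ω)) (F η d : MvPolynomial (Fin 2) Ω)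
    (ψ φ : Fin 2 → MvPolynomial (Fin 2) Ω) : Prop where
  cf : Cf (IntermediateField.adjoin k {z} : Set Ω) F
  cfη : Cf (IntermediateField.adjoin k {z} : Set Ω) η
  cfd : Cf (IntermediateField.adjoin k {z} : Set Ω) d
  cfψ : ∀ i, Cf (IntermediateField.adjoin k {z} : Set Ω) (ψ i)
  cfφ : ∀ i, Cf (IntermediateField.adjoin k {z} : Set Ω) (φ i)
  comp : F = MvPolynomial.aeval ψ G
  inv1 : ∀ i, MvPolynomial.aeval ψ (φ i) = MvPolynomial.aeval ψ d * MvPolynomial.X i
  inv2 : ∀ Q : Fin 2 → Ω, MvPolynomial.eval Q d ≠ 0 → ∀ i,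
    MvPolynomial.eval (fun j => MvPolynomial.eval Q (φ j) / MvPolynomial.eval Q d) (ψ i) = Q i
  ded : IsDedekindDomain (CR F)
  hint : Hint F η
  ne : ∀ Q : Fin 2 → Ω, MvPolynomial.eval Q F = 0 →
    MvPolynomial.eval Q (MvPolynomial.aeval ψ d) ≠ 0
  alg : ∀ Q : Fin 2 → Ω, MvPolynomial.eval Q G = 0 → MvPolynomial.eval Q d = 0 →
    ∀ j, Q j ∈ Az k z
  bad : ∀ Q ∈ B, MvPolynomial.eval Q d = 0

end Pool.Agent.RDP
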