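import Pool.Agent.RDM.C1
import Pool.Agent.RDM.Mdl

set_option maxSynthPendingDepth 3

/-!
# The smooth affine model
-/

set_option autoImplicit false

namespace Pool.Agent.RDP

section

open Pool.Agent.TBR Pool.Agent.TQU
universe u v w

section

-- The points which are not algebraic over k(z) are good.
theorem na_gp {k Ω : Type u} [Field k] [Field Ω] [Algebra k Ω] [IsAlgClosed Ω] (z : Ω)
    (G g : MvPolynomial (Fin 2) Ω) (cfG : Cf (IntermediateField.adjoin k {z} : Set Ω) G)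
    (cfg : Cf (IntermediateField.adjoin k {z} : Set Ω) g) (hG : Irreducible G) (hg : ¬ G ∣ g)
    (Q : Fin 2 → Ω) (hQ : Na k z G Q) : Gp G g Q := by
  haveI := az_closed (k := k) z
  have hle : ∀ v : MvPolynomial (Fin 2) Ω,
      Cf (IntermediateField.adjoin k {z} : Set Ω) v → Cf (Az k z : Set Ω) v :=
    fun v hv m => adjoin_le_Az z (hv m)
  have hgi := fun u hu => gen_iff (Az k z) G (hle G cfG) hG Q hQ.1 hQ.2 u hu
  obtain ⟨i, hi⟩ := pd_ne G hG
  refine ⟨hQ.1, fun h0 => hg ((hgi g (hle g cfg)).1 h0), i, fun h0 => hi ((hgi _ ?_).1 h0)⟩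
  intro m
  rw [MvPolynomial.coeff_pderiv]
  have h1 := hle G cfG (m + Finsupp.single i 1)
  have h2 : ((m i : Ω) + 1) ∈ Az k z := add_mem (natCast_mem _ _) (one_mem _)
  exact mul_mem h1 h2

end

end

section

open Pool.Agent.TBR Pool.Agent.TQU
universe u v w

section

variable {k Ω : Type u} [Field k] [Field Ω] [Algebra k Ω]

private theorem mod1_inf (z : Ω) (hz : Transcendental k z) :
    (IntermediateField.adjoin k {z} : Set Ω).Infinite := by
  have hzL : z ∈ IntermediateField.adjoin k {z} := IntermediateField.subset_adjoin k {z} rfl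
  have hinj : Function.Injective (fun n : ℕ => z ^ n) := by
    intro m n h
    have h0 : Polynomial.aeval z (Polynomial.X ^ m : Polynomial k) =
        Polynomial.aeval z (Polynomial.X ^ n : Polynomial k) := by
      rw [map_pow, map_pow, Polynomial.aeval_X]
      exact h
    have h1 := transcendental_iff_injective.1 hz h0
    have h2 := congrArg Polynomial.natDegree h1
    rwa [Polynomial.natDegree_X_pow, Polynomial.natDegree_X_pow] at h2
  refine (Set.infinite_range_of_injective hinj).mono ?_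
  rintro _ ⟨n, rfl⟩
  exact pow_mem hzL n

/-- the restriction to a line `x = const` -/
private theorem mod1_col {A : Type u} [Field A] [Algebra A Ω] (G : MvPolynomial (Fin 2) A) (x : A)
    (y : Ω) : Polynomial.aeval y (MvPolynomial.aeval (![Polynomial.C x, Polynomial.X] :
      Fin 2 → Polynomial A) G) = MvPolynomial.aeval ![algebraMap A Ω x, y] G := by
  induction G using MvPolynomial.induction_on with
  | C a =>
    rw [MvPolynomial.aeval_C, MvPolynomial.aeval_C]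
    exact Polynomial.aeval_C y a
  | add p q hp hq => simp only [map_add, hp, hq]
  | mul_X p i hp =>
    rw [map_mul, map_mul, hp, map_mul, MvPolynomial.aeval_X, MvPolynomial.aeval_X]
    congr 1
    fin_cases i
    · exact Polynomial.aeval_C y x
    · exact Polynomial.aeval_X y

private theorem mod1_c (z : Ω) (hz : Transcendental k z) (G : MvPolynomial (Fin 2) Ω)
    (hX : ∀ x : Ω, ∃ y : Ω, MvPolynomial.eval ![x, y] G ≠ 0) (p : Polynomial Ω) (hp : p ≠ 0) :
    ∃ c ∈ IntermediateField.adjoin k {z}, ∀ x : Ω, p.eval x = 0 →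
      MvPolynomial.eval ![x, - c] G ≠ 0 := by
  classical
  have hfin : (⋃ x ∈ (p.roots.toFinset : Set Ω),
      {c : Ω | MvPolynomial.eval ![x, - c] G = 0}).Finite := by
    refine Set.Finite.biUnion (Finset.finite_toSet _) fun x _ => ?_
    obtain ⟨y, hy⟩ := hX x
    set q := MvPolynomial.aeval (![Polynomial.C x, Polynomial.X] : Fin 2 → Polynomial Ω) G with hq
    have hev : ∀ y : Ω, q.eval y = MvPolynomial.eval ![x, y] G := by
      intro y
      have := mod1_col (Ω := Ω) G x y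
      rw [Polynomial.coe_aeval_eq_eval] at this
      rw [hq, this]
      rfl
    have hq0 : q ≠ 0 := by
      intro h0
      apply hy
      rw [← hev, h0, Polynomial.eval_zero]
    refine ((q.roots.toFinset.finite_toSet).image fun c => - c).subset ?_
    intro c hc
    refine ⟨- c, ?_, neg_neg c⟩
    rw [Finset.mem_coe, Multiset.mem_toFinset, Polynomial.mem_roots hq0, Polynomial.IsRoot.def, hev]
    exact hc
  obtain ⟨c, hcL, hc⟩ := ((mod1_inf z hz).sdiff hfin).nonempty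
  refine ⟨c, hcL, fun x hx h0 => hc ?_⟩
  rw [Set.mem_iUnion₂]
  exact ⟨x, by
    rw [Finset.mem_coe, Multiset.mem_toFinset, Polynomial.mem_roots hp]
    exact hx, h0⟩

private theorem mod1_map (L : IntermediateField k Ω) (ψ' : Fin 2 → MvPolynomial (Fin 2) L)
    (ψ : Fin 2 → MvPolynomial (Fin 2) Ω)
    (h : ∀ i, MvPolynomial.map (algebraMap L Ω) (ψ' i) = ψ i) (g : MvPolynomial (Fin 2) L) :
    MvPolynomial.map (algebraMap L Ω) (MvPolynomial.aeval ψ' g) =
      MvPolynomial.aeval ψ (MvPolynomial.map (algebraMap L Ω) g) := by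
  induction g using MvPolynomial.induction_on with
  | C a =>
    rw [MvPolynomial.aeval_C, MvPolynomial.map_C, MvPolynomial.aeval_C, MvPolynomial.algebraMap_eq,
      MvPolynomial.map_C, MvPolynomial.algebraMap_eq]
  | add p q hp hq => simp only [map_add, hp, hq]
  | mul_X p i hp => simp only [map_mul, hp, MvPolynomial.map_X, MvPolynomial.aeval_X, h]

private theorem mod1_pmap (L : IntermediateField k Ω) (p : Polynomial L) :
    MvPolynomial.map (algebraMap L Ω) (Polynomial.aeval (MvPolynomial.X 0 : MvPolynomial (Fin 2) L) p)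
      = Polynomial.aeval (MvPolynomial.X 0 : MvPolynomial (Fin 2) Ω) (p.map (algebraMap L Ω)) := by
  rw [Polynomial.map_aeval_eq_aeval_map (φ := algebraMap L Ω)
    (ψ := MvPolynomial.map (algebraMap L Ω)) _ p (MvPolynomial.X 0), MvPolynomial.map_X]
  refine RingHom.ext fun a => ?_
  show MvPolynomial.C (algebraMap L Ω a) =
    MvPolynomial.map (algebraMap L Ω) (MvPolynomial.C a)
  rw [MvPolynomial.map_C]

private theorem mod1_eval (p : Polynomial Ω) (Q : Fin 2 → Ω) :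
    MvPolynomial.eval Q (Polynomial.aeval (MvPolynomial.X 0 : MvPolynomial (Fin 2) Ω) p) =
      p.eval (Q 0) := by
  have h1 := Polynomial.aeval_algHom_apply (MvPolynomial.aeval Q : MvPolynomial (Fin 2) Ω →ₐ[Ω] Ω)
    (MvPolynomial.X 0) p
  rw [MvPolynomial.aeval_X, Polynomial.coe_aeval_eq_eval] at h1
  rw [h1]
  rfl

private theorem mod1_cf (L : IntermediateField k Ω) (u : MvPolynomial (Fin 2) Ω)
    (h : ∃ v : MvPolynomial (Fin 2) L, MvPolynomial.map (algebraMap L Ω) v = u) :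
    Cf (L : Set Ω) u := by
  obtain ⟨v, rfl⟩ := h
  intro m
  rw [MvPolynomial.coeff_map]
  exact (MvPolynomial.coeff m v).2

variable [IsAlgClosed Ω]

private theorem mod1_nd (G : MvPolynomial (Fin 2) Ω) (hG : Irreducible G)
    (hX : ∀ x : Ω, ∃ y : Ω, MvPolynomial.eval ![x, y] G ≠ 0) (p : Polynomial Ω) (hp : p ≠ 0) :
    ¬ G ∣ Polynomial.aeval (MvPolynomial.X 0 : MvPolynomial (Fin 2) Ω) p := by
  intro h
  have hsp : p = Polynomial.C p.leadingCoeff * (p.roots.map (Polynomial.X - Polynomial.C ·)).prod :=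
    (IsAlgClosed.splits p).eq_prod_roots
  rw [hsp, map_mul, Polynomial.aeval_C, map_multiset_prod, Multiset.map_map] at h
  rcases hG.prime.dvd_or_dvd h with h | h
  · apply hG.not_isUnit
    refine isUnit_of_dvd_unit h ?_
    exact (isUnit_iff_ne_zero.2 (Polynomial.leadingCoeff_ne_zero.2 hp)).map
      (algebraMap Ω (MvPolynomial (Fin 2) Ω))
  · obtain ⟨r, -, hr⟩ := hG.prime.exists_mem_multiset_map_dvd h
    obtain ⟨y, hy⟩ := hX r
    have hr' : G ∣ Polynomial.aeval (MvPolynomial.X 0 : MvPolynomial (Fin 2) Ω)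
        (Polynomial.X - Polynomial.C r) := hr
    clear hr
    rw [map_sub, Polynomial.aeval_X, Polynomial.aeval_C, MvPolynomial.algebraMap_eq] at hr'
    obtain ⟨q, hq⟩ := hr'
    have hne : (MvPolynomial.X 0 - MvPolynomial.C r : MvPolynomial (Fin 2) Ω) ≠ 0 := by
      intro h0
      have h1 := congrArg (MvPolynomial.eval ![r + 1, y]) h0
      rw [map_sub, MvPolynomial.eval_X, MvPolynomial.eval_C, map_zero] at h1
      simp at h1
    have hq0 : q ≠ 0 := by
      rintro rfl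
      rw [mul_zero] at hq
      exact hne hq
    have hdG : G.totalDegree ≠ 0 := by
      intro h0
      rw [MvPolynomial.totalDegree_eq_zero_iff_eq_C] at h0
      rw [h0] at hG
      by_cases h1 : MvPolynomial.coeff 0 G = 0
      · rw [h1, map_zero] at hG
        exact hG.ne_zero rfl
      · exact hG.not_isUnit ((isUnit_iff_ne_zero.2 h1).map MvPolynomial.C)
    have hd : (MvPolynomial.X 0 - MvPolynomial.C r : MvPolynomial (Fin 2) Ω).totalDegree ≤ 1 := by
      refine (MvPolynomial.totalDegree_sub _ _).trans ?_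
      rw [MvPolynomial.totalDegree_X, MvPolynomial.totalDegree_C]
      norm_num
    rw [hq, MvPolynomial.totalDegree_mul_of_isDomain hG.ne_zero hq0] at hd
    have hq1 : q.totalDegree = 0 := by omega
    rw [MvPolynomial.totalDegree_eq_zero_iff_eq_C] at hq1
    have h2 := congrArg (MvPolynomial.eval ![r, y]) hq
    rw [map_sub, MvPolynomial.eval_X, MvPolynomial.eval_C, map_mul] at h2
    have h3 : (![r, y] : Fin 2 → Ω) 0 - r = 0 := sub_self r
    rw [h3] at h2
    rcases mul_eq_zero.1 h2.symm with h4 | h4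
    · exact hy h4
    · rw [hq1, MvPolynomial.eval_C] at h4
      apply hq0
      rw [hq1, h4, map_zero]

end

section

-- A smooth affine plane model without the points of B, if the curve does not contain a line x = const.
theorem mod1 {k Ω : Type u} [Field k] [Field Ω] [Algebra k Ω] [IsAlgClosed Ω] (z : Ω)
    (hz : Transcendental k z) (G : MvPolynomial (Fin 2) Ω)
    (cf : Cf (IntermediateField.adjoin k {z} : Set Ω) G) (hG : Irreducible G)
    (B : Set (Fin 2 → Ω)) (hB : B.Finite) (hBA : ∀ Q ∈ B, ∀ i, Q i ∈ Az k z)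
    (hs : ∀ Q : Fin 2 → Ω, MvPolynomial.eval Q G = 0 →
      (∀ i, MvPolynomial.eval Q (MvPolynomial.pderiv i G) = 0) → Q ∈ B)
    (hX : ∀ x : Ω, ∃ y : Ω, MvPolynomial.eval ![x, y] G ≠ 0) :
    ∃ (F η d : MvPolynomial (Fin 2) Ω) (ψ φ : Fin 2 → MvPolynomial (Fin 2) Ω),
      Mod k z G B F η d ψ φ := by
  classical
  obtain ⟨L, hL⟩ : ∃ L, L = IntermediateField.adjoin k {z} := ⟨_, rfl⟩
  have hcl : IsAlgClosed (Az k z) := az_closed z
  have hmem : ∀ x : Ω, x ∈ Az k z ↔ IsAlgebraic L x := fun x => by rw [hL]; exact sit_az_mem z x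
  have hLA : ∀ x ∈ L, x ∈ Az k z := fun x hx => by
    rw [hmem]
    exact isAlgebraic_algebraMap (⟨x, hx⟩ : L)
  rw [← hL] at cf
  -- the polynomial `p`
  obtain ⟨p₀, hp₀⟩ : ∃ p₀ : Polynomial L, p₀ = ∏ Q ∈ hB.toFinset, minpoly L (Q 0) := ⟨_, rfl⟩
  obtain ⟨p, hp⟩ : ∃ p : Polynomial Ω, p = p₀.map (algebraMap L Ω) := ⟨_, rfl⟩
  have hp₀m : p₀.Monic := by
    rw [hp₀]
    refine Polynomial.monic_prod_of_monic _ _ fun Q hQ => minpoly.monic ?_
    exact ((hmem _).1 (hBA Q (hB.mem_toFinset.1 hQ) 0)).isIntegral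
  have hpne : p ≠ 0 := by
    rw [hp]
    exact (hp₀m.map _).ne_zero
  have hpB : ∀ Q ∈ B, p.eval (Q 0) = 0 := by
    intro Q hQ
    rw [hp, Polynomial.eval_map, ← Polynomial.aeval_def, hp₀, map_prod]
    exact Finset.prod_eq_zero (hB.mem_toFinset.2 hQ) (minpoly.aeval L (Q 0))
  have hpA : ∀ x : Ω, p.eval x = 0 → x ∈ Az k z := by
    intro x hx
    rw [hmem]
    refine ⟨p₀, hp₀m.ne_zero, ?_⟩
    rwa [hp, Polynomial.eval_map, ← Polynomial.aeval_def] at hx
  obtain ⟨c, hcL, hc⟩ := mod1_c z hz G hX p hpne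
  rw [← hL] at hcL
  -- the model
  obtain ⟨d, hd⟩ : ∃ d : MvPolynomial (Fin 2) Ω, d = Polynomial.aeval (MvPolynomial.X 0) p :=
    ⟨_, rfl⟩
  obtain ⟨ψ, hψ⟩ : ∃ ψ : Fin 2 → MvPolynomial (Fin 2) Ω,
    ψ = ![MvPolynomial.X 0, d * MvPolynomial.X 1 - MvPolynomial.C c] := ⟨_, rfl⟩
  obtain ⟨φ, hφ⟩ : ∃ φ : Fin 2 → MvPolynomial (Fin 2) Ω,
    φ = ![d * MvPolynomial.X 0, MvPolynomial.X 1 + MvPolynomial.C c] := ⟨_, rfl⟩
  have hevd : ∀ Q : Fin 2 → Ω, MvPolynomial.eval Q d = p.eval (Q 0) := fun Q => by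
    rw [hd]; exact mod1_eval p Q
  have hψd : MvPolynomial.aeval ψ d = d := by
    have h1 := Polynomial.aeval_algHom_apply (MvPolynomial.aeval ψ :
      MvPolynomial (Fin 2) Ω →ₐ[Ω] MvPolynomial (Fin 2) Ω) (MvPolynomial.X 0) p
    rw [MvPolynomial.aeval_X, show ψ 0 = MvPolynomial.X 0 by rw [hψ]; rfl, ← hd] at h1
    exact h1.symm
  have inv1 : ∀ i, MvPolynomial.aeval ψ (φ i) = MvPolynomial.aeval ψ d * MvPolynomial.X i := by
    intro i
    rw [hψd]
    fin_cases i
    · show MvPolynomial.aeval ψ (φ 0) = d * MvPolynomial.X 0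
      rw [hφ]
      show MvPolynomial.aeval ψ (d * MvPolynomial.X 0) = _
      rw [map_mul, hψd, MvPolynomial.aeval_X, hψ]
      rfl
    · show MvPolynomial.aeval ψ (φ 1) = d * MvPolynomial.X 1
      rw [hφ]
      show MvPolynomial.aeval ψ (MvPolynomial.X 1 + MvPolynomial.C c) = _
      rw [map_add, MvPolynomial.aeval_X, MvPolynomial.aeval_C, hψ]
      show d * MvPolynomial.X 1 - MvPolynomial.C c + MvPolynomial.C c = _
      ring
  have inv2 : ∀ Q : Fin 2 → Ω, MvPolynomial.eval Q d ≠ 0 → ∀ i,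
      MvPolynomial.eval (fun j => MvPolynomial.eval Q (φ j) / MvPolynomial.eval Q d) (ψ i) =
        Q i := by
    intro Q hQ i
    have h0 : MvPolynomial.eval Q (φ 0) / MvPolynomial.eval Q d = Q 0 := by
      rw [hφ]
      show MvPolynomial.eval Q (d * MvPolynomial.X 0) / MvPolynomial.eval Q d = Q 0
      rw [map_mul, MvPolynomial.eval_X, mul_div_cancel_left₀ _ hQ]
    have h1 : MvPolynomial.eval Q (φ 1) / MvPolynomial.eval Q d =
        (Q 1 + c) / MvPolynomial.eval Q d := by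
      rw [hφ]
      show MvPolynomial.eval Q (MvPolynomial.X 1 + MvPolynomial.C c) / MvPolynomial.eval Q d = _
      rw [map_add, MvPolynomial.eval_X, MvPolynomial.eval_C]
    fin_cases i
    · show MvPolynomial.eval _ (ψ 0) = Q 0
      rw [hψ]
      show MvPolynomial.eval _ (MvPolynomial.X 0) = Q 0
      rw [MvPolynomial.eval_X]
      exact h0
    · show MvPolynomial.eval _ (ψ 1) = Q 1
      rw [hψ]
      show MvPolynomial.eval _ (d * MvPolynomial.X 1 - MvPolynomial.C c) = Q 1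
      rw [map_sub, map_mul, MvPolynomial.eval_X, MvPolynomial.eval_C, hevd, h0, h1, ← hevd,
        mul_div_cancel₀ _ hQ]
      ring
  have hsm := fun Q hQ => mod_sm G p c hc (fun Q hQ hQp => by
    by_contra hcon
    push Not at hcon
    exact hQp (hpB Q (hs Q hQ hcon))) ψ (by rw [hψ, hd]) Q hQ
  have hne : ∀ Q : Fin 2 → Ω, MvPolynomial.eval Q (MvPolynomial.aeval ψ G) = 0 →
      MvPolynomial.eval Q (MvPolynomial.aeval ψ d) ≠ 0 := by
    intro Q hQ
    rw [hψd, hevd]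
    exact (hsm Q hQ).1
  have hirr := (mod_irr G d ψ φ inv1 inv2 hG (by rw [hd]; exact mod1_nd G hG hX p hpne) hne).1
  have hded := ded_sm (MvPolynomial.aeval ψ G) hirr (fun Q hQ => (hsm Q hQ).2)
  obtain ⟨c', hc'L, hc'⟩ := ((mod1_inf z hz).sdiff
    (hint_lin (MvPolynomial.aeval ψ G) hirr.ne_zero)).nonempty
  rw [← hL] at hc'L
  have hHint : Hint (MvPolynomial.aeval ψ G) (MvPolynomial.X 0 + MvPolynomial.C c' *
      MvPolynomial.X 1) := not_not.1 hc'
  -- coefficients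
  obtain ⟨d₀, hd₀⟩ : ∃ d₀ : MvPolynomial (Fin 2) L, MvPolynomial.map (algebraMap L Ω) d₀ = d :=
    ⟨Polynomial.aeval (MvPolynomial.X 0) p₀, by rw [mod1_pmap, hd, hp]⟩
  obtain ⟨G₀, hG₀⟩ := (loc_unif_Cf L G).1 cf
  obtain ⟨ψ₀, hψ₀⟩ : ∃ ψ₀ : Fin 2 → MvPolynomial (Fin 2) L,
      ∀ i, MvPolynomial.map (algebraMap L Ω) (ψ₀ i) = ψ i := by
    refine ⟨![MvPolynomial.X 0, d₀ * MvPolynomial.X 1 - MvPolynomial.C ⟨c, hcL⟩],
      Fin.forall_fin_two.2 ⟨?_, ?_⟩⟩
    · rw [hψ, Matrix.cons_val_zero, Matrix.cons_val_zero]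
      exact MvPolynomial.map_X _ _
    · rw [hψ, Matrix.cons_val_one, Matrix.cons_val_one]
      simp only [Matrix.cons_val_fin_one]
      rw [map_sub, map_mul, hd₀, MvPolynomial.map_X, MvPolynomial.map_C]
      rfl
  have halg : ∀ Q : Fin 2 → Ω, MvPolynomial.eval Q G = 0 → MvPolynomial.eval Q d = 0 →
      ∀ j, Q j ∈ Az k z := by
    intro Q hQ hQd
    have h0 : Q 0 ∈ Az k z := hpA _ (by rwa [hevd] at hQd)
    obtain ⟨GA, hGA⟩ := (loc_unif_Cf (Az k z) G).1 fun m => hLA _ (cf m)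
    have hev : ∀ y : Ω, Polynomial.aeval y (MvPolynomial.aeval
        (![Polynomial.C ⟨Q 0, h0⟩, Polynomial.X] : Fin 2 → Polynomial (Az k z)) GA) =
        MvPolynomial.eval ![Q 0, y] G := by
      intro y
      rw [mod1_col GA ⟨Q 0, h0⟩ y, ← hGA, MvPolynomial.eval_map, ← MvPolynomial.aeval_def]
      rfl
    obtain ⟨y, hy⟩ := hX (Q 0)
    have hQ' : MvPolynomial.eval ![Q 0, Q 1] G = 0 := by
      rw [show (![Q 0, Q 1] : Fin 2 → Ω) = Q from by ext i; fin_cases i <;> rfl]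
      exact hQ
    have h1 : IsAlgebraic (Az k z) (Q 1) := by
      refine ⟨_, ?_, (hev (Q 1)).trans hQ'⟩
      intro h2
      apply hy
      rw [← hev, h2, map_zero]
    obtain ⟨e, he⟩ := minpoly.mem_range_of_degree_eq_one (Az k z) (Q 1)
      (IsAlgClosed.degree_eq_one_of_irreducible (Az k z) (minpoly.irreducible h1.isIntegral))
    intro j
    fin_cases j
    · exact h0
    · show Q 1 ∈ Az k z
      rw [← he]
      exact e.2
  refine ⟨MvPolynomial.aeval ψ G, MvPolynomial.X 0 + MvPolynomial.C c' * MvPolynomial.X 1, d, ψ, φ,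
    ?_, ?_, ?_, ?_, ?_, rfl, inv1, inv2, hded, hHint, hne, halg, fun Q hQ => by
      rw [hevd]; exact hpB Q hQ⟩
  · rw [← hL]
    exact mod1_cf L _ ⟨MvPolynomial.aeval ψ₀ G₀, by rw [mod1_map L ψ₀ ψ hψ₀, hG₀]⟩
  · rw [← hL]
    refine mod1_cf L _ ⟨MvPolynomial.X 0 + MvPolynomial.C ⟨c', hc'L⟩ * MvPolynomial.X 1, ?_⟩
    rw [map_add, map_mul, MvPolynomial.map_X, MvPolynomial.map_X, MvPolynomial.map_C]
    rfl
  · rw [← hL]
    exact mod1_cf L _ ⟨d₀, hd₀⟩
  · rw [← hL]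
    exact fun i => mod1_cf L _ ⟨ψ₀ i, hψ₀ i⟩
  · rw [← hL]
    refine Fin.forall_fin_two.2 ⟨?_, ?_⟩
    · refine mod1_cf L _ ⟨d₀ * MvPolynomial.X 0, ?_⟩
      rw [hφ, Matrix.cons_val_zero, map_mul, hd₀, MvPolynomial.map_X]
    · refine mod1_cf L _ ⟨MvPolynomial.X 1 + MvPolynomial.C ⟨c, hcL⟩, ?_⟩
      rw [hφ, Matrix.cons_val_one]
      simp only [Matrix.cons_val_fin_one]
      rw [map_add, MvPolynomial.map_X, MvPolynomial.map_C]
      rfl

end

end

section

open Pool.Agent.TBR Pool.Agent.TQU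
universe u v w

section

private theorem mod_ex_dvd {Ω : Type u} [Field Ω] [Infinite Ω] (G : MvPolynomial (Fin 2) Ω) (x₀ : Ω)
    (h : ∀ y : Ω, MvPolynomial.eval ![x₀, y] G = 0) :
    (MvPolynomial.X 0 - MvPolynomial.C x₀ : MvPolynomial (Fin 2) Ω) ∣ G := by
  set I : Ideal (MvPolynomial (Fin 2) Ω) :=
    Ideal.span {(MvPolynomial.X 0 - MvPolynomial.C x₀ : MvPolynomial (Fin 2) Ω)} with hI
  let v : Fin 2 → MvPolynomial (Fin 2) Ω := ![MvPolynomial.C x₀, MvPolynomial.X 1]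
  have h1 : MvPolynomial.aeval v G = 0 := by
    refine MvPolynomial.funext fun Q => ?_
    rw [map_zero, ← h (Q 1)]
    have h2 : MvPolynomial.eval Q (MvPolynomial.aeval v G) =
        MvPolynomial.eval (fun i => MvPolynomial.eval Q (v i)) G := by
      rw [← MvPolynomial.coe_aeval_eq_eval, ← MvPolynomial.coe_aeval_eq_eval]
      have h3 := congrArg (fun f : MvPolynomial (Fin 2) Ω →ₐ[Ω] Ω => f G)
        (MvPolynomial.comp_aeval (R := Ω) v (MvPolynomial.aeval Q))
      simpa using h3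
    rw [h2]
    congr 2
    funext i
    fin_cases i
    · simp [v]
    · simp [v]
  have h4 : (Ideal.Quotient.mkₐ Ω I) = (Ideal.Quotient.mkₐ Ω I).comp (MvPolynomial.aeval v) := by
    refine MvPolynomial.algHom_ext fun i => ?_
    fin_cases i
    · simp only [AlgHom.comp_apply, MvPolynomial.aeval_X, v]
      refine (Ideal.Quotient.eq).2 ?_
      exact Ideal.subset_span rfl
    · simp [v]
  have h5 : Ideal.Quotient.mk I G = 0 := by
    have h6 := congrArg (fun f => f G) h4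
    simp only [AlgHom.comp_apply, h1, map_zero] at h6
    exact h6
  exact Ideal.mem_span_singleton.1 (Ideal.Quotient.eq_zero_iff_mem.1 h5)

private theorem mod_ex_cf {k Ω : Type u} [Field k] [Field Ω] [Algebra k Ω]
    (A : IntermediateField k Ω) (s : Fin 2 → Fin 2) (G : MvPolynomial (Fin 2) Ω)
    (h : Cf (A : Set Ω) G) : Cf (A : Set Ω) (MvPolynomial.rename s G) := by
  have h1 : G ∈ Set.range (MvPolynomial.map (σ := Fin 2) (algebraMap A Ω)) := by
    rw [MvPolynomial.mem_range_map_iff_coeffs_subset]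
    intro c hc
    rw [Finset.mem_coe, MvPolynomial.mem_coeffs_iff] at hc
    obtain ⟨m, _, rfl⟩ := hc
    exact ⟨⟨_, h m⟩, rfl⟩
  obtain ⟨G₀, rfl⟩ := h1
  intro m
  rw [← MvPolynomial.map_rename, MvPolynomial.coeff_map]
  exact (MvPolynomial.coeff m (MvPolynomial.rename s G₀)).2

-- A smooth affine plane model without the points of B.
theorem mod_ex {k Ω : Type u} [Field k] [Field Ω] [Algebra k Ω] [IsAlgClosed Ω] (z : Ω)
    (hz : Transcendental k z) (G : MvPolynomial (Fin 2) Ω)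
    (cf : Cf (IntermediateField.adjoin k {z} : Set Ω) G) (hG : Irreducible G)
    (B : Set (Fin 2 → Ω)) (hB : B.Finite) (hBA : ∀ Q ∈ B, ∀ i, Q i ∈ Az k z)
    (hs : ∀ Q : Fin 2 → Ω, MvPolynomial.eval Q G = 0 →
      (∀ i, MvPolynomial.eval Q (MvPolynomial.pderiv i G) = 0) → Q ∈ B) :
    ∃ (F η d : MvPolynomial (Fin 2) Ω) (ψ φ : Fin 2 → MvPolynomial (Fin 2) Ω),
      Mod k z G B F η d ψ φ := by
  classical
  by_cases hX : ∀ x : Ω, ∃ y : Ω, MvPolynomial.eval ![x, y] G ≠ 0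
  · exact mod1 z hz G cf hG B hB hBA hs hX
  push Not at hX
  obtain ⟨x₀, hx₀⟩ := hX
  have : Infinite Ω := IsAlgClosed.instInfinite
  obtain ⟨H, hH⟩ := mod_ex_dvd G x₀ hx₀
  have hnu : ¬ IsUnit (MvPolynomial.X 0 - MvPolynomial.C x₀ : MvPolynomial (Fin 2) Ω) := by
    intro hu
    have h1 := hu.map (MvPolynomial.eval ![x₀, 0])
    simp at h1
  have hHu : IsUnit H := (hG.isUnit_or_isUnit hH).resolve_left hnu
  set s : Fin 2 → Fin 2 := (Equiv.swap (0 : Fin 2) 1 : Fin 2 → Fin 2) with hsdef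
  have hss : ∀ i, s (s i) = i := fun i => by rw [hsdef]; exact (Equiv.swap (0 : Fin 2) 1).apply_symm_apply i
  have hcomp : ∀ {α : Type u} (Q : Fin 2 → α), (Q ∘ s) ∘ s = Q := by
    intro α Q
    funext i
    simp [hss]
  have hinj : Function.Injective s := (Equiv.swap (0 : Fin 2) 1).injective
  have hev : ∀ (Q : Fin 2 → Ω) (f : MvPolynomial (Fin 2) Ω),
      MvPolynomial.eval Q (MvPolynomial.rename s f) = MvPolynomial.eval (Q ∘ s) f := fun Q f =>
    MvPolynomial.eval_rename s Q f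
  have hae : ∀ (ψ : Fin 2 → MvPolynomial (Fin 2) Ω) (f : MvPolynomial (Fin 2) Ω),
      MvPolynomial.aeval ψ (MvPolynomial.rename s f) = MvPolynomial.aeval (ψ ∘ s) f := fun ψ f =>
    MvPolynomial.aeval_rename s ψ f
  have hirr : Irreducible (MvPolynomial.rename s G) := by
    have h1 := (MulEquiv.irreducible_iff
      (MvPolynomial.renameEquiv Ω (Equiv.swap (0 : Fin 2) 1)).toMulEquiv (x := G)).2 hG
    exact h1
  have hBf : ({Q | Q ∘ s ∈ B} : Set (Fin 2 → Ω)).Finite := by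
    refine Set.Finite.preimage ?_ hB
    intro Q _ Q' _ h
    have h1 : (Q ∘ s) ∘ s = (Q' ∘ s) ∘ s := congrArg (fun R : Fin 2 → Ω => R ∘ s) h
    rwa [hcomp, hcomp] at h1
  obtain ⟨F, η, d, ψ, φ, M⟩ := mod1 z hz (MvPolynomial.rename s G)
    (mod_ex_cf (IntermediateField.adjoin k {z}) s G cf) hirr {Q | Q ∘ s ∈ B} hBf
    (by
      intro Q hQ i
      have h1 := hBA (Q ∘ s) hQ (s i)
      simpa [hss] using h1)
    (by
      intro Q h1 h2
      refine hs (Q ∘ s) (by rw [← hev]; exact h1) (fun i => ?_)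
      have h3 := h2 (s i)
      rw [MvPolynomial.pderiv_rename hinj, hev] at h3
      exact h3)
    (by
      intro x
      refine ⟨x₀ + 1, ?_⟩
      have h1 : (![x, x₀ + 1] : Fin 2 → Ω) ∘ s = ![x₀ + 1, x] := by
        funext i
        fin_cases i <;> simp [hsdef]
      rw [hev, h1, hH, map_mul]
      refine mul_ne_zero ?_ (hHu.map _).ne_zero
      simp)
  refine ⟨F, η, MvPolynomial.rename s d, ψ ∘ s, fun i => MvPolynomial.rename s (φ i), ?_⟩
  have haψ : ∀ f : MvPolynomial (Fin 2) Ω,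
      MvPolynomial.aeval (ψ ∘ s) (MvPolynomial.rename s f) = MvPolynomial.aeval ψ f := by
    intro f
    rw [hae, hcomp]
  exact {
    cf := M.cf
    cfη := M.cfη
    cfd := mod_ex_cf _ s d M.cfd
    cfψ := fun i => M.cfψ (s i)
    cfφ := fun i => mod_ex_cf _ s (φ i) (M.cfφ i)
    comp := by rw [M.comp, hae]
    inv1 := fun i => by rw [haψ, haψ]; exact M.inv1 i
    inv2 := by
      intro Q hQ i
      rw [hev] at hQ
      have h1 := M.inv2 (Q ∘ s) hQ (s i)
      simp only [hev, Function.comp_apply, hss] at h1 ⊢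
      exact h1
    ded := M.ded
    hint := M.hint
    ne := by
      intro Q hQ
      rw [haψ]
      exact M.ne Q hQ
    alg := by
      intro Q h1 h2 j
      rw [hev] at h2
      have h3 := M.alg (Q ∘ s) (by rw [hev, hcomp]; exact h1) h2 (s j)
      simpa [hss] using h3
    bad := by
      intro Q hQ
      rw [hev]
      refine M.bad (Q ∘ s) ?_
      show (Q ∘ s) ∘ s ∈ B
      rw [hcomp]
      exact hQ }

end

end

section

open Pool.Agent.TBR Pool.Agent.TQU

universe u v w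

section

private theorem mod_pt_comp {Ω : Type u} [Field Ω] (ψ : Fin 2 → MvPolynomial (Fin 2) Ω) (Q : Fin 2 → Ω)
    (u : MvPolynomial (Fin 2) Ω) : MvPolynomial.eval Q (MvPolynomial.aeval ψ u) =
      MvPolynomial.eval (fun i => MvPolynomial.eval Q (ψ i)) u := by
  induction u using MvPolynomial.induction_on with
  | C a => rw [MvPolynomial.aeval_C, MvPolynomial.algebraMap_eq, MvPolynomial.eval_C, MvPolynomial.eval_C]
  | add p q hp hq => rw [map_add, map_add, hp, hq, map_add]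
  | mul_X p i hp => rw [map_mul, map_mul, hp, MvPolynomial.aeval_X, map_mul, MvPolynomial.eval_X]

private theorem mod_pt_mem {k Ω : Type u} [Field k] [Field Ω] [Algebra k Ω] (z : Ω)
    (p : MvPolynomial (Fin 2) Ω) (hp : Cf (IntermediateField.adjoin k {z} : Set Ω) p)
    (Q : Fin 2 → Ω) (hQ : ∀ i, Q i ∈ Az k z) : MvPolynomial.eval Q p ∈ Az k z := by
  rw [MvPolynomial.eval_eq]
  refine sum_mem fun d _ => mul_mem (adjoin_le_Az z (hp d)) (prod_mem fun i _ => pow_mem (hQ i) _)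

-- The points of the model.
theorem mod_pt {k Ω : Type u} [Field k] [Field Ω] [Algebra k Ω] [IsAlgClosed Ω] (z : Ω)
    (G : MvPolynomial (Fin 2) Ω) (B : Set (Fin 2 → Ω)) (F η d : MvPolynomial (Fin 2) Ω)
    (ψ φ : Fin 2 → MvPolynomial (Fin 2) Ω) (h : Mod k z G B F η d ψ φ) :
    (∀ Q, MvPolynomial.eval Q F = 0 →
      MvPolynomial.eval (fun i => MvPolynomial.eval Q (ψ i)) G = 0 ∧
      MvPolynomial.eval (fun i => MvPolynomial.eval Q (ψ i)) d ≠ 0 ∧
      (fun j => MvPolynomial.eval (fun i => MvPolynomial.eval Q (ψ i)) (φ j) /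
        MvPolynomial.eval (fun i => MvPolynomial.eval Q (ψ i)) d) = Q) ∧
    (∀ Q, MvPolynomial.eval Q G = 0 → MvPolynomial.eval Q d ≠ 0 →
      MvPolynomial.eval (fun j => MvPolynomial.eval Q (φ j) / MvPolynomial.eval Q d) F = 0 ∧
      (fun i => MvPolynomial.eval (fun j => MvPolynomial.eval Q (φ j) / MvPolynomial.eval Q d)
        (ψ i)) = Q) ∧
    (∀ Q, Na k z F Q → Na k z G (fun i => MvPolynomial.eval Q (ψ i))) ∧
    ∀ Q, Na k z G Q → MvPolynomial.eval Q d ≠ 0 ∧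
      Na k z F (fun j => MvPolynomial.eval Q (φ j) / MvPolynomial.eval Q d) := by
  have h1 : ∀ Q, MvPolynomial.eval Q F = 0 →
      MvPolynomial.eval (fun i => MvPolynomial.eval Q (ψ i)) G = 0 ∧
      MvPolynomial.eval (fun i => MvPolynomial.eval Q (ψ i)) d ≠ 0 ∧
      (fun j => MvPolynomial.eval (fun i => MvPolynomial.eval Q (ψ i)) (φ j) /
        MvPolynomial.eval (fun i => MvPolynomial.eval Q (ψ i)) d) = Q := by
    intro Q hQ
    have hd : MvPolynomial.eval (fun i => MvPolynomial.eval Q (ψ i)) d ≠ 0 := by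
      rw [← mod_pt_comp]
      exact h.ne Q hQ
    refine ⟨by rw [← mod_pt_comp, ← h.comp]; exact hQ, hd, ?_⟩
    funext j
    rw [div_eq_iff hd, ← mod_pt_comp ψ Q (φ j), h.inv1 j, map_mul, MvPolynomial.eval_X, mod_pt_comp, mul_comm]
  have h2 : ∀ Q, MvPolynomial.eval Q G = 0 → MvPolynomial.eval Q d ≠ 0 →
      MvPolynomial.eval (fun j => MvPolynomial.eval Q (φ j) / MvPolynomial.eval Q d) F = 0 ∧
      (fun i => MvPolynomial.eval (fun j => MvPolynomial.eval Q (φ j) / MvPolynomial.eval Q d)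
        (ψ i)) = Q := by
    intro Q hQ hd
    have h3 : (fun i => MvPolynomial.eval (fun j => MvPolynomial.eval Q (φ j) / MvPolynomial.eval Q d)
        (ψ i)) = Q := funext fun i => h.inv2 Q hd i
    refine ⟨?_, h3⟩
    rw [h.comp, mod_pt_comp, h3]
    exact hQ
  refine ⟨h1, h2, fun Q hQ => ⟨(h1 Q hQ.1).1, fun hA => hQ.2 fun j => ?_⟩, fun Q hQ => ?_⟩
  · have h3 := congrFun (h1 Q hQ.1).2.2 j
    rw [← h3]
    exact div_mem (mod_pt_mem z _ (h.cfφ j) _ hA) (mod_pt_mem z _ h.cfd _ hA)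
  · have hd : MvPolynomial.eval Q d ≠ 0 := fun h0 => hQ.2 (h.alg Q hQ.1 h0)
    refine ⟨hd, (h2 Q hQ.1 hd).1, fun hA => hQ.2 fun i => ?_⟩
    have h3 := congrFun (h2 Q hQ.1 hd).2 i
    rw [← h3]
    exact mod_pt_mem z _ (h.cfψ i) _ hA

end

end

section

open Pool.Agent.TBR Pool.Agent.TQU
universe u v w

section

-- The cycle of E on the model.
open Classical in
theorem cyc_ex {k Ω : Type u} [Field k] [Field Ω] [Algebra k Ω] [IsAlgClosed Ω] (z : Ω)
    (G : MvPolynomial (Fin 2) Ω) (B : Set (Fin 2 → Ω)) (F η d : MvPolynomial (Fin 2) Ω)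
    (ψ φ : Fin 2 → MvPolynomial (Fin 2) Ω) (hM : Mod k z G B F η d ψ φ)
    (E : (Fin 2 → Ω) → ℕ) (L : IntermediateField k Ω) (fg : L.FG) (mem : z ∈ L)
    (al : ∀ x : Ω, IsAlgebraic L x)
    (inv : ∀ σ ∈ Fx k (L : Set Ω), ∀ Q : Fin 2 → Ω, (¬ ∀ j, Q j ∈ Acl k z) →
      E (fun j => σ (Q j)) = E Q)
    (fin : {Q : Fin 2 → Ω | (¬ ∀ j, Q j ∈ Acl k z) ∧ E Q ≠ 0}.Finite) :
    ∃ Z : Multiset (Fin 2 → Ω), Cyc k z F Z L ∧ ∀ Q, Na k z F Q →
      Z.count Q = E (fun i => MvPolynomial.eval Q (ψ i)) := by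
  obtain ⟨hp1, hp2, hp3, hp4⟩ := mod_pt z G B F η d ψ φ hM
  have hAz : ∀ y : Ω, y ∈ Acl k z ↔ y ∈ Az k z := fun y => mem_Az.symm
  obtain ⟨ψe, hψe⟩ : ∃ ψe : (Fin 2 → Ω) → (Fin 2 → Ω),
    ∀ Q, ψe Q = fun i => MvPolynomial.eval Q (ψ i) := ⟨_, fun _ => rfl⟩
  obtain ⟨T, hTdef⟩ : ∃ T : Set (Fin 2 → Ω), T = {Q | Na k z F Q ∧ E (ψe Q) ≠ 0} := ⟨_, rfl⟩
  have hTm : ∀ Q, Q ∈ T ↔ Na k z F Q ∧ E (ψe Q) ≠ 0 := fun Q => by rw [hTdef]; rfl
  have hT : T.Finite := by
    refine Set.Finite.of_finite_image (f := ψe) (fin.subset ?_) ?_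
    · rintro _ ⟨Q, hQ, rfl⟩
      rw [hTm] at hQ
      refine ⟨fun hc => (hp3 Q hQ.1).2 fun i => (hAz _).1 ?_, hQ.2⟩
      have := hc i
      rw [hψe] at this
      exact this
    · intro Q hQ Q' hQ' h
      rw [hTm] at hQ hQ'
      have e1 := (hp1 Q hQ.1.1).2.2
      have e2 := (hp1 Q' hQ'.1.1).2.2
      rw [hψe, hψe] at h
      rw [h] at e1
      exact e1.symm.trans e2
  obtain ⟨Z, hZ⟩ : ∃ Z : Multiset (Fin 2 → Ω),
    Z = ∑ Q ∈ hT.toFinset, Multiset.replicate (E (ψe Q)) Q := ⟨_, rfl⟩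
  have hcount : ∀ Q, Z.count Q = if Q ∈ T then E (ψe Q) else 0 := by
    intro Q
    rw [hZ, Multiset.count_sum']
    simp only [Multiset.count_replicate]
    rw [Finset.sum_ite_eq']
    simp only [Set.Finite.mem_toFinset]
  have hcount' : ∀ Q, Na k z F Q → Z.count Q = E (ψe Q) := by
    intro Q hQ
    rw [hcount]
    split_ifs with h1
    · rfl
    · rw [hTm] at h1
      by_contra h2
      exact h1 ⟨hQ, fun h3 => h2 h3.symm⟩
  have hcount0 : ∀ Q, ¬ Na k z F Q → Z.count Q = 0 := by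
    intro Q hQ
    rw [hcount, if_neg]
    intro h1
    exact hQ ((hTm Q).1 h1).1
  refine ⟨Z, ⟨fg, mem, al, ?_, ?_⟩, fun Q hQ => by rw [hcount' Q hQ, hψe]⟩
  · intro Q hQ
    by_contra h1
    exact (Multiset.count_pos.2 hQ).ne' (hcount0 Q h1)
  · intro σ hσ
    have hσz : σ ∈ Fx k {z} := by
      intro x hx
      rw [Set.mem_singleton_iff] at hx
      rw [hx]
      exact hσ z mem
    have hσev : ∀ u : MvPolynomial (Fin 2) Ω,
        Cf (IntermediateField.adjoin k {z} : Set Ω) u → ∀ Q : Fin 2 → Ω,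
        MvPolynomial.eval (fun i => σ (Q i)) u = σ (MvPolynomial.eval Q u) := by
      intro u hu Q
      have h1 : MvPolynomial.map (σ : Ω →+* Ω) u = u :=
        map_eq_of_cf hu (by rw [Fx_adjoin]; exact hσz)
      have h2 := MvPolynomial.map_eval (σ : Ω →+* Ω) Q u
      rw [h1] at h2
      exact h2.symm
    have hψσ : ∀ Q : Fin 2 → Ω, ψe (fun i => σ (Q i)) = fun i => σ (ψe Q i) := by
      intro Q
      rw [hψe, hψe]
      funext i
      exact hσev (ψ i) (hM.cfψ i) Q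
    have hNaσ : ∀ Q : Fin 2 → Ω, Na k z F (fun i => σ (Q i)) ↔ Na k z F Q := by
      intro Q
      unfold Na
      rw [hσev F hM.cf Q, map_eq_zero]
      refine and_congr Iff.rfl (not_congr (forall_congr' fun i => ?_))
      exact sit_az_stab z σ hσz (Q i)
    have hinj : Function.Injective (fun (Q : Fin 2 → Ω) i => σ (Q i)) := by
      intro Q Q' h
      funext i
      exact σ.injective (congrFun h i)
    ext Q
    obtain ⟨Q₀, rfl⟩ : ∃ Q₀ : Fin 2 → Ω, (fun i => σ (Q₀ i)) = Q :=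
      ⟨fun i => σ.symm (Q i), funext fun i => σ.apply_symm_apply (Q i)⟩
    rw [Multiset.count_map_eq_count' _ _ hinj]
    by_cases h0 : Na k z F Q₀
    · rw [hcount' Q₀ h0, hcount' _ ((hNaσ Q₀).2 h0), hψσ]
      refine (inv σ hσ (ψe Q₀) fun hc => (hp3 Q₀ h0).2 fun i => (hAz _).1 ?_).symm
      have := hc i
      rw [hψe] at this
      exact this
    · rw [hcount0 Q₀ h0, hcount0 _ (fun h1 => h0 ((hNaσ Q₀).1 h1))]

end

end

section

open Pool.Agent.TBR Pool.Agent.TQU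
universe u v w

section

-- The relation on the smooth model.
theorem dstep {k Ω : Type u} [Field k] [Field Ω] [Algebra k Ω] [IsAlgClosed Ω] (z : Ω)
    (P : Fin 2 → Ω) (G g : MvPolynomial (Fin 2) Ω) (n₀ : ℕ) {m : ℕ} (n : Fin m → ℤ)
    (E : Fin m → (Fin 2 → Ω) → ℕ) (L : Fin m → IntermediateField k Ω)
    (h : RelD k z P G g n₀ n E L) :
    ∃ (P' : Fin 2 → Ω) (F η U W : MvPolynomial (Fin 2) Ω) (ZU ZW : Multiset (Fin 2 → Ω))
      (Z : Fin m → Multiset (Fin 2 → Ω)), RelC k z P' F η U W ZU ZW n₀ n Z L ∧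
      IntermediateField.adjoin k ({z} ∪ Set.range P') =
        IntermediateField.adjoin k ({z} ∪ Set.range P) := by
  classical
  have hAz : ∀ y : Ω, y ∈ Acl k z ↔ y ∈ Az k z := fun y => mem_Az.symm
  have hev : ∀ (ψ : Fin 2 → MvPolynomial (Fin 2) Ω) (Q : Fin 2 → Ω) (u : MvPolynomial (Fin 2) Ω),
      MvPolynomial.eval Q (MvPolynomial.aeval ψ u) =
        MvPolynomial.eval (fun i => MvPolynomial.eval Q (ψ i)) u := by
    intro ψ Q u
    induction u using MvPolynomial.induction_on with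
    | C a => simp [MvPolynomial.algebraMap_eq]
    | add p q hp hq => rw [map_add, map_add, map_add, hp, hq]
    | mul_X p i hp => rw [map_mul, map_mul, map_mul, hp, MvPolynomial.aeval_X, MvPolynomial.eval_X]
  have evK : ∀ (K : IntermediateField k Ω), z ∈ K → ∀ u : MvPolynomial (Fin 2) Ω,
      Cf (IntermediateField.adjoin k {z} : Set Ω) u → ∀ Q : Fin 2 → Ω, (∀ i, Q i ∈ K) →
      MvPolynomial.eval Q u ∈ K := by
    intro K hzK u hu Q hQ
    have hle : IntermediateField.adjoin k {z} ≤ K := by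
      rw [IntermediateField.adjoin_le_iff, Set.singleton_subset_iff]
      exact hzK
    rw [MvPolynomial.eval_eq]
    exact sum_mem fun m _ => mul_mem (hle (hu m)) (prod_mem fun i _ => pow_mem (hQ i) _)
  have hzA : z ∈ Az k z := adjoin_le_Az z (IntermediateField.mem_adjoin_simple_self k z)
  obtain ⟨D, ⟨R₁, R₂, hR₁, hR₂, hPri⟩, hrel⟩ := h.rel
  obtain ⟨i₀, hi₀⟩ := pd_ne G h.irr
  obtain ⟨B, hB⟩ : ∃ B : Set (Fin 2 → Ω), B = {Q | (∀ i, Q i ∈ Az k z) ∧
    MvPolynomial.eval Q G = 0 ∧ (MvPolynomial.eval Q R₁ = 0 ∨ MvPolynomial.eval Q R₂ = 0 ∨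
      MvPolynomial.eval Q (MvPolynomial.pderiv i₀ G) = 0)} := ⟨_, rfl⟩
  have hBfin : B.Finite := by
    refine (((zfin G R₁ h.irr hR₁).union (zfin G R₂ h.irr hR₂)).union
      (zfin G _ h.irr hi₀)).subset ?_
    rw [hB]
    rintro Q ⟨-, h1, h2 | h2 | h2⟩
    · exact Or.inl (Or.inl ⟨h1, h2⟩)
    · exact Or.inl (Or.inr ⟨h1, h2⟩)
    · exact Or.inr ⟨h1, h2⟩
  have hsing : ∀ Q : Fin 2 → Ω, MvPolynomial.eval Q G = 0 →
      (∀ i, MvPolynomial.eval Q (MvPolynomial.pderiv i G) = 0) → Q ∈ B := by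
    intro Q h1 h2
    rw [hB]
    refine ⟨?_, h1, Or.inr (Or.inr (h2 i₀))⟩
    by_contra hA
    obtain ⟨-, -, i, hi⟩ := na_gp z G g h.cfG h.cfg h.irr h.gg Q ⟨h1, hA⟩
    exact hi (h2 i)
  obtain ⟨F, η, d, ψ, φ, hM⟩ := mod_ex z h.zt G h.cfG h.irr B hBfin
    (fun Q hQ => by rw [hB] at hQ; exact hQ.1) hsing
  have hded := hM.ded
  obtain ⟨hp1, hp2, hp3, hp4⟩ := mod_pt z G B F η d ψ φ hM
  have hPna : Na k z G P := ⟨h.zero, fun hc => h.gen fun i => (hAz _).2 (hc i)⟩
  obtain ⟨hdP, hP'⟩ := hp4 P hPna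
  have hψP := (hp2 P h.zero hdP).2
  obtain ⟨P', hP'def⟩ : ∃ P' : Fin 2 → Ω,
    P' = fun j => MvPolynomial.eval P (φ j) / MvPolynomial.eval P d := ⟨_, rfl⟩
  rw [← hP'def] at hP' hψP
  have hGd : ¬ G ∣ d := by
    rintro ⟨w, hw⟩
    apply hdP
    rw [hw, map_mul, h.zero, zero_mul]
  obtain ⟨hFirr, hFdvd⟩ := mod_irr G d ψ φ hM.inv1 hM.inv2 h.irr hGd
    (fun Q hQ => hM.ne Q (by rw [hM.comp]; exact hQ))
  rw [← hM.comp] at hFirr hFdvd
  have hU : ¬ F ∣ MvPolynomial.aeval ψ R₁ := fun hc => hR₁ ((hFdvd _).1 hc)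
  have hW : ¬ F ∣ MvPolynomial.aeval ψ R₂ := fun hc => hR₂ ((hFdvd _).1 hc)
  obtain ⟨ZU, hZU, facU⟩ := factor_pts F _ hU
  obtain ⟨ZW, hZW, facW⟩ := factor_pts F _ hW
  have hna : ∀ R : MvPolynomial (Fin 2) Ω, (R = R₁ ∨ R = R₂) → ∀ Q : Fin 2 → Ω,
      MvPolynomial.eval Q F = 0 → MvPolynomial.eval Q (MvPolynomial.aeval ψ R) = 0 →
      Na k z F Q := by
    intro R hR Q hQ hR0
    refine ⟨hQ, fun hA => ?_⟩
    obtain ⟨e1, e2, -⟩ := hp1 Q hQ
    apply e2
    apply hM.bad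
    rw [hB]
    refine ⟨fun i => evK (Az k z) hzA (ψ i) (hM.cfψ i) Q hA, e1, ?_⟩
    rw [hev] at hR0
    rcases hR with rfl | rfl
    · exact Or.inl hR0
    · exact Or.inr (Or.inl hR0)
  have naU : ∀ Q ∈ ZU, Na k z F Q := fun Q hQ => hna R₁ (Or.inl rfl) Q (hZU Q hQ).1 (hZU Q hQ).2
  have naW : ∀ Q ∈ ZW, Na k z F Q := fun Q hQ => hna R₂ (Or.inr rfl) Q (hZW Q hQ).1 (hZW Q hQ).2
  have hcyc : ∀ i, ∃ Z : Multiset (Fin 2 → Ω), Cyc k z F Z (L i) ∧ ∀ Q, Na k z F Q →
      Z.count Q = E i (fun i => MvPolynomial.eval Q (ψ i)) := by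
    intro i
    exact cyc_ex z G B F η d ψ φ hM (E i) (L i) (h.fg i) (h.mem i) (h.al i) (h.inv i) (h.fin i)
  choose Z hZ1 hZ2 using hcyc
  refine ⟨P', F, η, MvPolynomial.aeval ψ R₁, MvPolynomial.aeval ψ R₂, ZU, ZW, Z,
    ⟨h.zt, hM.ded, hM.cf, hM.cfη, hM.hint, hP', h.pos, hZ1, naU, naW, facU, facW, ?_⟩, ?_⟩
  · ext Q
    rw [Multiset.count_add, Multiset.count_add, Multiset.count_add, Multiset.count_sum',
      Multiset.count_sum', Multiset.count_replicate]
    simp only [Multiset.count_nsmul]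
    by_cases hQ : Na k z F Q
    · have hne : MvPolynomial.eval Q (MvPolynomial.aeval ψ d) ≠ 0 := hM.ne Q hQ.1
      obtain ⟨e1, e2, e3⟩ := hp1 Q hQ.1
      have hψna := hp3 Q hQ
      have hgp := na_gp z G g h.cfG h.cfg h.irr h.gg _ hψna
      have c1 : oQ F (MvPolynomial.aeval ψ R₁) Q = (ZU.count Q : ℕ) :=
        oQ_cnt F _ ZU (fun Q hQ => (hZU Q hQ).1) facU Q
      have c2 : oQ F (MvPolynomial.aeval ψ R₂) Q = (ZW.count Q : ℕ) :=
        oQ_cnt F _ ZW (fun Q hQ => (hZW Q hQ).1) facW Q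
      have t1 := oQ_tr G d ψ φ hM.inv1 hM.inv2 R₁ Q hne
      have t2 := oQ_tr G d ψ φ hM.inv1 hM.inv2 R₂ Q hne
      rw [← hM.comp, c1] at t1
      rw [← hM.comp, c2] at t2
      have hD := hPri _ hgp
      rw [← t1, ← t2, ENat.toNat_natCast, ENat.toNat_natCast] at hD
      have hcount : ∀ i, (Z i).count Q = E i (fun i => MvPolynomial.eval Q (ψ i)) :=
        fun i => hZ2 i Q hQ
      obtain ⟨r1, r2⟩ := hrel _ e1 (fun hc => hψna.2 fun i => (hAz _).1 (hc i))
      have hsum : ∀ i : Fin m, (n i * (E i (fun i => MvPolynomial.eval Q (ψ i)) : ℤ)) =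
          ((n i).toNat : ℤ) * ((Z i).count Q : ℤ) - ((- n i).toNat : ℤ) * ((Z i).count Q : ℤ) := by
        intro i
        rw [hcount i, ← sub_mul]
        congr 1
        omega
      rw [Finset.sum_congr rfl (fun i _ => hsum i), Finset.sum_sub_distrib] at r1 r2
      by_cases hQP : P' = Q
      · rw [if_pos hQP]
        have e4 : (fun i => MvPolynomial.eval Q (ψ i)) = P := by rw [← hQP]; exact hψP
        have r3 := r1 e4
        zify
        linarith
      · rw [if_neg hQP]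
        have e4 : (fun i => MvPolynomial.eval Q (ψ i)) ≠ P := by
          intro e4
          apply hQP
          rw [e4] at e3
          rw [hP'def]
          exact e3
        have r3 := r2 e4
        zify
        linarith
    · have z0 : ∀ T : Multiset (Fin 2 → Ω), (∀ R ∈ T, Na k z F R) → T.count Q = 0 := by
        intro T hT
        exact Multiset.count_eq_zero_of_notMem fun hc => hQ (hT Q hc)
      have z1 : ∀ i, (Z i).count Q = 0 := fun i => z0 _ (hZ1 i).na
      have z2 : P' ≠ Q := by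
        rintro rfl
        exact hQ hP'
      rw [z0 ZU naU, z0 ZW naW, if_neg z2]
      simp only [z1, mul_zero, Finset.sum_const_zero]
  · have hz1 : ∀ Q : Fin 2 → Ω, z ∈ IntermediateField.adjoin k ({z} ∪ Set.range Q) := fun Q =>
      IntermediateField.subset_adjoin k _ (Or.inl rfl)
    have hz2 : ∀ (Q : Fin 2 → Ω) i, Q i ∈ IntermediateField.adjoin k ({z} ∪ Set.range Q) :=
      fun Q i => IntermediateField.subset_adjoin k _ (Or.inr ⟨i, rfl⟩)
    apply le_antisymm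
    · rw [IntermediateField.adjoin_le_iff]
      rintro x (hx | ⟨i, rfl⟩)
      · rw [Set.mem_singleton_iff] at hx
        rw [hx]
        exact hz1 P
      · rw [hP'def]
        exact div_mem (evK _ (hz1 P) _ (hM.cfφ i) _ (hz2 P)) (evK _ (hz1 P) _ hM.cfd _ (hz2 P))
    · rw [IntermediateField.adjoin_le_iff]
      rintro x (hx | ⟨i, rfl⟩)
      · rw [Set.mem_singleton_iff] at hx
        rw [hx]
        exact hz1 P'
      · have e5 := congrFun hψP i
        rw [← e5]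
        exact evK _ (hz1 P') _ (hM.cfψ i) _ (hz2 P')

end

end

end Pool.Agent.RDP
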