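import Pool.Agent.RDM.Mdl
import Pool.Agent.RDM.Len

/-!
# The norm of the relation
-/

set_option autoImplicit false

namespace Pool.Agent.RDP

section

universe u v w

section

-- Representatives of a finite orbit.
theorem orb_ex {Γ : Type u} [Group Γ] {X : Type v} (N : Subgroup Γ) (f : Γ → X)
    (hf : ∀ ρ ∈ N, ∀ σ ∈ N, ∀ τ ∈ N, f σ = f τ → f (ρ * σ) = f (ρ * τ))
    (hfin : {x | ∃ σ ∈ N, f σ = x}.Finite) :
    ∃ (c : ℕ) (s : Fin c → Γ), 0 < c ∧ (∀ j, s j ∈ N) ∧
      ∀ ρ ∈ N, ∃ π : Equiv.Perm (Fin c), ∀ j, f (ρ * s j) = f (s (π j)) := by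
  classical
  obtain ⟨c, ⟨e⟩⟩ : ∃ c : ℕ, Nonempty ({x | ∃ σ ∈ N, f σ = x} ≃ Fin c) := by
    have := hfin.to_subtype
    exact Finite.exists_equiv_fin _
  have hs : ∀ j : Fin c, ∃ σ ∈ N, f σ = (e.symm j).1 := fun j => (e.symm j).2
  choose s hsN hsf using hs
  refine ⟨c, s, (e ⟨f 1, 1, N.one_mem, rfl⟩).pos, hsN, fun ρ hρ => ?_⟩
  let π : Fin c → Fin c := fun j => e ⟨f (ρ * s j), ρ * s j, N.mul_mem hρ (hsN j), rfl⟩
  have hπ : ∀ j, f (s (π j)) = f (ρ * s j) := by
    intro j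
    rw [hsf]
    simp only [π, Equiv.symm_apply_apply]
  have hinj : Function.Injective π := by
    intro j j' h
    have h1 : f (ρ * s j) = f (ρ * s j') := by rw [← hπ j, ← hπ j', h]
    have h2 := hf ρ⁻¹ (N.inv_mem hρ) _ (N.mul_mem hρ (hsN j)) _ (N.mul_mem hρ (hsN j')) h1
    rw [inv_mul_cancel_left, inv_mul_cancel_left, hsf, hsf] at h2
    exact e.symm.injective (Subtype.ext h2)
  exact ⟨Equiv.ofBijective π (Finite.injective_iff_bijective.1 hinj), fun j => (hπ j).symm⟩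

end

end

section

open Pool.Agent.TBR Pool.Agent.TQU

universe u v w

section

-- The action on the divisor of a polynomial.
theorem pt_act {k Ω : Type u} [Field k] [Field Ω] [Algebra k Ω] [IsAlgClosed Ω] (F U : MvPolynomial (Fin 2) Ω)
    (Z : Multiset (Fin 2 → Ω)) (σ : Ω ≃ₐ[k] Ω)
    (hF : MvPolynomial.map (σ : Ω →+* Ω) F = F)
    (h : Ideal.span {Ideal.Quotient.mk (Ideal.span {F}) U} = (Z.map (ptIdeal F)).prod) :
    Ideal.span {Ideal.Quotient.mk (Ideal.span {F}) (MvPolynomial.map (σ : Ω →+* Ω) U)} =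
      ((Z.map (fun Q i => σ (Q i))).map (ptIdeal F)).prod := by
  have hle : Ideal.span {F} ≤ Ideal.comap (MvPolynomial.map (σ : Ω →+* Ω)) (Ideal.span {F}) := by
    rw [Ideal.span_le]
    intro x hx
    rw [Set.mem_singleton_iff.1 hx, SetLike.mem_coe, Ideal.mem_comap, hF]
    exact Ideal.mem_span_singleton_self F
  obtain ⟨φ, hφ⟩ : ∃ φ : CR F →+* CR F, ∀ g, φ (Ideal.Quotient.mk (Ideal.span {F}) g) =
      Ideal.Quotient.mk (Ideal.span {F}) (MvPolynomial.map (σ : Ω →+* Ω) g) :=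
    ⟨Ideal.quotientMap (Ideal.span {F}) (MvPolynomial.map (σ : Ω →+* Ω)) hle, fun g => rfl⟩
  have h1 : Ideal.map φ (Ideal.span {Ideal.Quotient.mk (Ideal.span {F}) U}) =
      Ideal.span {Ideal.Quotient.mk (Ideal.span {F}) (MvPolynomial.map (σ : Ω →+* Ω) U)} := by
    rw [Ideal.map_span, Set.image_singleton, hφ]
  rw [← h1, h]
  have h2 := map_multiset_prod (Ideal.mapHom φ) (Z.map (ptIdeal F))
  rw [Multiset.map_map] at h2
  refine Eq.trans h2 ?_
  rw [Multiset.map_map]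
  congr 1
  refine Multiset.map_congr rfl fun R _ => ?_
  exact tn_smul_pt F (σ : Ω →+* Ω) hF φ hφ R

end

end

section

open Pool.Agent.TBR Pool.Agent.TQU

universe u v w

section

-- The conjugate of a cycle.
theorem cyc_act {k Ω : Type u} [Field k] [Field Ω] [Algebra k Ω] [IsAlgClosed Ω] (z : Ω)
    (F : MvPolynomial (Fin 2) Ω) (cf : Cf (IntermediateField.adjoin k {z} : Set Ω) F)
    (Z : Multiset (Fin 2 → Ω)) (L : IntermediateField k Ω) (h : Cyc k z F Z L)
    (σ : Ω ≃ₐ[k] Ω) (hσ : σ z = z) :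
    Cyc k z F (Z.map (fun Q i => σ (Q i))) (L.map (σ : Ω →ₐ[k] Ω)) ∧
      (∀ Q, Na k z F Q → Na k z F (fun i => σ (Q i))) := by
  classical
  have hσz : σ ∈ Fx k {z} := by
    intro x hx
    rw [Set.mem_singleton_iff.1 hx, hσ]
  have hFσ : MvPolynomial.map (σ : Ω →+* Ω) F = F := by
    refine map_eq_of_cf cf ?_
    rw [Fx_adjoin]
    exact hσz
  have hna : ∀ Q, Na k z F Q → Na k z F (fun i => σ (Q i)) := by
    intro Q hQ
    refine ⟨?_, fun hc => hQ.2 fun i => (sit_az_stab z σ hσz (Q i)).1 (hc i)⟩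
    have h1 := MvPolynomial.eval₂_comp_left (σ : Ω →+* Ω) (RingHom.id Ω) Q F
    have h2 : MvPolynomial.eval (fun i => σ (Q i)) (MvPolynomial.map (σ : Ω →+* Ω) F) =
        σ (MvPolynomial.eval Q F) := by
      rw [MvPolynomial.eval_map, MvPolynomial.eval, MvPolynomial.coe_eval₂Hom]
      exact h1.symm
    rw [hFσ, hQ.1, map_zero] at h2
    exact h2
  refine ⟨⟨?_, ⟨z, h.mem, hσ⟩, ?_, ?_, ?_⟩, hna⟩
  · obtain ⟨S, hS⟩ := h.fg
    refine ⟨S.image σ, ?_⟩
    rw [← hS, IntermediateField.adjoin_map, Finset.coe_image]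
    rfl
  · intro x
    obtain ⟨p, hp0, hp⟩ := h.al (σ.symm x)
    let f : L →+* (L.map (σ : Ω →ₐ[k] Ω)) :=
      { toFun := fun y => ⟨σ (y : Ω), ⟨y, y.2, rfl⟩⟩
        map_one' := by ext; exact map_one σ
        map_mul' := fun a b => by ext; exact map_mul σ _ _
        map_zero' := by ext; exact map_zero σ
        map_add' := fun a b => by ext; exact map_add σ _ _ }
    refine ⟨p.map f, (Polynomial.map_ne_zero_iff f.injective).2 hp0, ?_⟩
    rw [Polynomial.aeval_def, Polynomial.eval₂_map]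
    have h3 : (algebraMap (L.map (σ : Ω →ₐ[k] Ω)) Ω).comp f =
        (σ : Ω →+* Ω).comp (algebraMap L Ω) := RingHom.ext fun c => rfl
    rw [h3]
    have h4 := Polynomial.hom_eval₂ p (algebraMap L Ω) (σ : Ω →+* Ω) (σ.symm x)
    have h5 : (σ : Ω →+* Ω) (σ.symm x) = x := σ.apply_symm_apply x
    rw [h5] at h4
    rw [← h4]
    rw [Polynomial.aeval_def] at hp
    rw [hp, map_zero]
  · intro Q hQ
    obtain ⟨Q', h', rfl⟩ := Multiset.mem_map.1 hQ
    exact hna Q' (h.na Q' h')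
  · intro ρ hρ
    have hr : σ⁻¹ * ρ * σ ∈ Fx k (L : Set Ω) := by
      intro x hx
      have h6 : ρ (σ x) = σ x := hρ (σ x) ⟨x, hx, rfl⟩
      show σ.symm (ρ (σ x)) = x
      rw [h6]
      exact σ.symm_apply_apply x
    have h7 := congrArg (Multiset.map (fun (Q : Fin 2 → Ω) i => σ (Q i))) (h.inv _ hr)
    rw [Multiset.map_map] at h7
    rw [Multiset.map_map]
    refine Eq.trans ?_ h7
    refine Multiset.map_congr rfl fun Q _ => ?_
    funext i
    show ρ (σ (Q i)) = σ (σ.symm (ρ (σ (Q i))))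
    exact (σ.apply_symm_apply _).symm

end

end

section

open Pool.Agent.TBR Pool.Agent.TQU

universe u v w

section

-- T1 for a conjugate field.
theorem t1_map {k Ω : Type u} [Field k] [Field Ω] [Algebra k Ω] (L : IntermediateField k Ω)
    (σ : Ω ≃ₐ[k] Ω) (ℓ : ℕ) (hℓ : ℓ.Prime) (h : T1B.T1 k L ℓ) :
    T1B.T1 k (L.map (σ : Ω →ₐ[k] Ω)) ℓ := by
  let f : (L.map (σ : Ω →ₐ[k] Ω)) →ₐ[k] L :=
    { toFun := fun y => ⟨σ.symm (y : Ω), by
        obtain ⟨x, hx, hxy⟩ := y.2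
        have h1 : σ.symm (y : Ω) = x := by
          rw [← hxy]
          exact σ.symm_apply_apply x
        rw [h1]
        exact hx⟩
      map_one' := by ext; exact map_one σ.symm
      map_mul' := fun a b => by ext; exact map_mul σ.symm _ _
      map_zero' := by ext; exact map_zero σ.symm
      map_add' := fun a b => by ext; exact map_add σ.symm _ _
      commutes' := fun r => by ext; exact σ.symm.commutes r }
  have hf : Function.Surjective f := by
    intro x
    refine ⟨⟨σ x, ⟨x, x.2, rfl⟩⟩, ?_⟩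
    ext
    exact σ.symm_apply_apply (x : Ω)
  letI : Algebra (L.map (σ : Ω →ₐ[k] Ω)) L := f.toRingHom.toAlgebra
  haveI : IsScalarTower k (L.map (σ : Ω →ₐ[k] Ω)) L :=
    IsScalarTower.of_algebraMap_eq fun x => (f.commutes x).symm
  haveI : FiniteDimensional (L.map (σ : Ω →ₐ[k] Ω)) L :=
    Module.Finite.of_surjective (Algebra.linearMap (L.map (σ : Ω →ₐ[k] Ω)) L) hf
  exact T1B.T1.descend (F' := L) hℓ h

end

end

section

open Pool.Agent.TBR Pool.Agent.TQU
universe u v w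

section

-- The norm of the relation.
theorem cstep {k Ω : Type u} [Field k] [Field Ω] [Algebra k Ω] [IsAlgClosed Ω] (z : Ω)
    (P : Fin 2 → Ω) (F η U W : MvPolynomial (Fin 2) Ω) (ZU ZW : Multiset (Fin 2 → Ω)) (n₀ : ℕ)
    {ι : Type} [Fintype ι] (n : ι → ℤ) (Z : ι → Multiset (Fin 2 → Ω))
    (L : ι → IntermediateField k Ω) (h : RelC k z P F η U W ZU ZW n₀ n Z L)
    (hK : ∀ x : Ω, IsAlgebraic (IntermediateField.adjoin k ({z} ∪ Set.range P)) x) (ℓ : ℕ)
    (hℓ : ℓ.Prime) (hT : ∀ i, T1B.T1 k (L i) ℓ) :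
    ∃ (c : ℕ) (U' W' : MvPolynomial (Fin 2) Ω) (ZU' ZW' : Multiset (Fin 2 → Ω)) (n₀' : ℕ)
      (n' : ι × Fin c → ℤ) (Z' : ι × Fin c → Multiset (Fin 2 → Ω))
      (L' : ι × Fin c → IntermediateField k Ω), RelC k z P F η U' W' ZU' ZW' n₀' n' Z' L' ∧
      (∀ σ ∈ Ge k ({z} ∪ Set.range P), MvPolynomial.map (σ : Ω →+* Ω) U' = U') ∧
      (∀ σ ∈ Ge k ({z} ∪ Set.range P), MvPolynomial.map (σ : Ω →+* Ω) W' = W') ∧
      ∀ i, T1B.T1 k (L' i) ℓ := by
  classical
  have hded : IsDedekindDomain (CR F) := h.ded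
  have hirr : Irreducible F := Pool.Agent.TBR.W.irred_F F P h.na.1
  obtain ⟨hZ, -⟩ := sit_az z P F h.cf hirr h.na.1 h.na.2 hK
  have hmul : ∀ (σ τ : Ω ≃ₐ[k] Ω) (V : MvPolynomial (Fin 2) Ω),
      MvPolynomial.map ((σ * τ : Ω ≃ₐ[k] Ω) : Ω →+* Ω) V =
        MvPolynomial.map (σ : Ω →+* Ω) (MvPolynomial.map (τ : Ω →+* Ω) V) := by
    intro σ τ V
    rw [MvPolynomial.map_map]
    rfl
  let S : Finset Ω := U.support.image (fun m => U.coeff m) ∪ W.support.image (fun m => W.coeff m)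
  have hmap : ∀ (σ τ : Ω ≃ₐ[k] Ω) (V : MvPolynomial (Fin 2) Ω),
      (∀ m ∈ V.support, σ (V.coeff m) = τ (V.coeff m)) →
      MvPolynomial.map (σ : Ω →+* Ω) V = MvPolynomial.map (τ : Ω →+* Ω) V := by
    intro σ τ V hV
    ext m
    rw [MvPolynomial.coeff_map, MvPolynomial.coeff_map]
    by_cases hm : m ∈ V.support
    · exact hV m hm
    · rw [MvPolynomial.notMem_support_iff.1 hm, map_zero, map_zero]
  let f : (Ω ≃ₐ[k] Ω) → MvPolynomial (Fin 2) Ω × MvPolynomial (Fin 2) Ω := fun σ =>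
    (MvPolynomial.map (σ : Ω →+* Ω) U, MvPolynomial.map (σ : Ω →+* Ω) W)
  have hfin : {x | ∃ σ ∈ Ge k ({z} ∪ Set.range P), f σ = x}.Finite := by
    refine finite_range _ S (hZ.orb.mono le_rfl (Set.subset_univ _)) f ?_
    intro σ _ τ _ hag
    refine Prod.ext (hmap σ τ U fun m hm => ?_) (hmap σ τ W fun m hm => ?_)
    · exact hag _ (by
        rw [Finset.mem_coe]
        exact Finset.mem_union_left _ (Finset.mem_image_of_mem _ hm))
    · exact hag _ (by
        rw [Finset.mem_coe]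
        exact Finset.mem_union_right _ (Finset.mem_image_of_mem _ hm))
  obtain ⟨c, s, hc, hs, hperm⟩ := orb_ex (Ge k ({z} ∪ Set.range P)) f (by
    intro ρ _ σ _ τ _ hστ
    have h1 : MvPolynomial.map (σ : Ω →+* Ω) U = MvPolynomial.map (τ : Ω →+* Ω) U :=
      congrArg Prod.fst hστ
    have h2 : MvPolynomial.map (σ : Ω →+* Ω) W = MvPolynomial.map (τ : Ω →+* Ω) W :=
      congrArg Prod.snd hστ
    refine Prod.ext ?_ ?_
    · change MvPolynomial.map ((ρ * σ : Ω ≃ₐ[k] Ω) : Ω →+* Ω) U =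
        MvPolynomial.map ((ρ * τ : Ω ≃ₐ[k] Ω) : Ω →+* Ω) U
      rw [hmul, hmul, h1]
    · change MvPolynomial.map ((ρ * σ : Ω ≃ₐ[k] Ω) : Ω →+* Ω) W =
        MvPolynomial.map ((ρ * τ : Ω ≃ₐ[k] Ω) : Ω →+* Ω) W
      rw [hmul, hmul, h2]) hfin
  have hsz : ∀ j, s j z = z := fun j => (hs j).1 z (Or.inl rfl)
  have hsP : ∀ j, (fun i => s j (P i)) = P := fun j => by
    funext i
    exact (hs j).1 (P i) (Or.inr ⟨i, rfl⟩)
  have hsF : ∀ j, MvPolynomial.map (s j : Ω →+* Ω) F = F := by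
    intro j
    refine sit_az_mapF (s j) {z} ?_ F h.cf
    intro x hx
    rw [Set.mem_singleton_iff.1 hx]
    exact hsz j
  -- the action on the cycles
  let g : Fin c → (Fin 2 → Ω) → (Fin 2 → Ω) := fun j Q i => s j (Q i)
  let φ : Fin c → Multiset (Fin 2 → Ω) →+ Multiset (Fin 2 → Ω) :=
    fun j => Multiset.mapAddMonoidHom (g j)
  have hφ : ∀ j (Y : Multiset (Fin 2 → Ω)), φ j Y = Y.map (g j) := fun j Y => rfl
  have hCyc0 : Cyc k z F 0 (IntermediateField.adjoin k ({z} ∪ Set.range P)) :=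
    { fg := by
        rw [IntermediateField.fg_def]
        exact ⟨{z} ∪ Set.range P, (Set.finite_singleton z).union (Set.finite_range P), rfl⟩
      mem := IntermediateField.subset_adjoin k _ (Or.inl rfl)
      al := hK
      na := fun Q hQ => absurd hQ (Multiset.notMem_zero Q)
      inv := fun σ _ => Multiset.map_zero _ }
  have hNa : ∀ j Q, Na k z F Q → Na k z F (fun i => s j (Q i)) := fun j =>
    (cyc_act z F h.cf 0 _ hCyc0 (s j) (hsz j)).2
  have hnaS : ∀ Y : Multiset (Fin 2 → Ω), (∀ Q ∈ Y, Na k z F Q) →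
      ∀ Q ∈ ∑ j, Y.map (g j), Na k z F Q := by
    intro Y hY Q hQ
    rw [Multiset.mem_sum] at hQ
    obtain ⟨j, -, hQ⟩ := hQ
    obtain ⟨Q₀, hQ₀, rfl⟩ := Multiset.mem_map.1 hQ
    exact hNa j Q₀ (hY Q₀ hQ₀)
  have hfac : ∀ (V : MvPolynomial (Fin 2) Ω) (Y : Multiset (Fin 2 → Ω)),
      Ideal.span {Ideal.Quotient.mk (Ideal.span {F}) V} = (Y.map (ptIdeal F)).prod →
      Ideal.span {Ideal.Quotient.mk (Ideal.span {F}) (∏ j, MvPolynomial.map (s j : Ω →+* Ω) V)} =
        ((∑ j, Y.map (g j)).map (ptIdeal F)).prod := by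
    intro V Y hV
    have h1 : (∑ j, Y.map (g j)).map (ptIdeal F) = ∑ j, (Y.map (g j)).map (ptIdeal F) :=
      map_sum (Multiset.mapAddMonoidHom (ptIdeal F)) _ _
    rw [h1, Multiset.prod_sum, map_prod, ← Ideal.prod_span_singleton]
    refine Finset.prod_congr rfl fun j _ => ?_
    exact pt_act F V Y (s j) (hsF j) hV
  have hinv : ∀ ρ ∈ Ge k ({z} ∪ Set.range P),
      MvPolynomial.map (ρ : Ω →+* Ω) (∏ j, MvPolynomial.map (s j : Ω →+* Ω) U) =
        ∏ j, MvPolynomial.map (s j : Ω →+* Ω) U ∧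
      MvPolynomial.map (ρ : Ω →+* Ω) (∏ j, MvPolynomial.map (s j : Ω →+* Ω) W) =
        ∏ j, MvPolynomial.map (s j : Ω →+* Ω) W := by
    intro ρ hρ
    obtain ⟨π, hπ⟩ := hperm ρ hρ
    constructor
    · rw [map_prod, ← Equiv.prod_comp π (fun j => MvPolynomial.map (s j : Ω →+* Ω) U)]
      refine Finset.prod_congr rfl fun j _ => ?_
      rw [← hmul]
      exact congrArg Prod.fst (hπ j)
    · rw [map_prod, ← Equiv.prod_comp π (fun j => MvPolynomial.map (s j : Ω →+* Ω) W)]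
      refine Finset.prod_congr rfl fun j _ => ?_
      rw [← hmul]
      exact congrArg Prod.snd (hπ j)
  refine ⟨c, ∏ j, MvPolynomial.map (s j : Ω →+* Ω) U, ∏ j, MvPolynomial.map (s j : Ω →+* Ω) W,
    ∑ j, ZU.map (g j), ∑ j, ZW.map (g j), c * n₀, fun p => n p.1, fun p => (Z p.1).map (g p.2),
    fun p => (L p.1).map (s p.2 : Ω →ₐ[k] Ω), ?_, fun σ hσ => (hinv σ hσ).1,
    fun σ hσ => (hinv σ hσ).2, fun p => t1_map _ _ ℓ hℓ (hT p.1)⟩
  exact
    { zt := h.zt
      ded := h.ded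
      cf := h.cf
      cfη := h.cfη
      hint := h.hint
      na := h.na
      pos := Nat.mul_pos hc h.pos
      cyc := fun p => (cyc_act z F h.cf (Z p.1) (L p.1) (h.cyc p.1) (s p.2) (hsz p.2)).1
      naU := hnaS ZU h.naU
      naW := hnaS ZW h.naW
      facU := hfac U ZU h.facU
      facW := hfac W ZW h.facW
      rel := by
        have h1 : ∀ j, ZU.map (g j) + ∑ i, (- n i).toNat • (Z i).map (g j) =
            ZW.map (g j) + Multiset.replicate n₀ P + ∑ i, (n i).toNat • (Z i).map (g j) := by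
          intro j
          have h2 := congrArg (φ j) h.rel
          have hns : ∀ (m : ℕ) (Y : Multiset (Fin 2 → Ω)), φ j (m • Y) = m • Y.map (g j) :=
            fun m Y => by rw [map_nsmul, hφ]
          rw [map_add, map_add, map_add, map_sum, map_sum] at h2
          simp only [hns] at h2
          rw [hφ, hφ, hφ, Multiset.map_replicate] at h2
          have h3 : g j P = P := hsP j
          rw [h3] at h2
          exact h2
        have h4 : ∑ j, (ZU.map (g j) + ∑ i, (- n i).toNat • (Z i).map (g j)) =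
            ∑ j, (ZW.map (g j) + Multiset.replicate n₀ P +
              ∑ i, (n i).toNat • (Z i).map (g j)) := Finset.sum_congr rfl fun j _ => h1 j
        rw [Finset.sum_add_distrib, Finset.sum_add_distrib, Finset.sum_add_distrib,
          Finset.sum_const, Finset.card_univ, Fintype.card_fin, Multiset.nsmul_replicate] at h4
        rw [Fintype.sum_prod_type, Fintype.sum_prod_type, Finset.sum_comm, h4]
        congr 1
        exact Finset.sum_comm }

end

end

end Pool.Agent.RDP
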