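import Pool.Agent.RDM.Mdl

/-!
# The relation for cocycles
-/

set_option autoImplicit false

namespace Pool.Agent.RDP

section

open Pool.Agent.TBR Pool.Agent.TQU

universe u v w

section

-- Powers have coefficients in E.
theorem frob_cf {k Ω : Type u} [Field k] [Field Ω] [Algebra k Ω] (p : ℕ) [ExpChar Ω p]
    (E : IntermediateField k Ω) (U : MvPolynomial (Fin 2) Ω)
    (h : ∀ m, ∃ r : ℕ, (MvPolynomial.coeff m U) ^ p ^ r ∈ E) :
    ∃ r₁ : ℕ, ∀ r, r₁ ≤ r → Cf (E : Set Ω) (U ^ p ^ r) := by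
  classical
  choose r hr using h
  refine ⟨U.support.sup r, fun R hR m => ?_⟩
  have key : ∀ n ∈ U.support, (MvPolynomial.coeff n U) ^ p ^ R ∈ E := by
    intro n hn
    have h1 : r n ≤ R := le_trans (Finset.le_sup hn) hR
    have h2 : p ^ R = p ^ r n * p ^ (R - r n) := by
      rw [← pow_add]
      congr 1
      omega
    rw [h2, pow_mul]
    exact pow_mem (hr n) _
  have hpow : U ^ p ^ R = ∑ n ∈ U.support,
      MvPolynomial.monomial (p ^ R • n) ((MvPolynomial.coeff n U) ^ p ^ R) := by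
    rcases ‹ExpChar Ω p› with _ | hp
    · rw [one_pow, pow_one]
      conv_lhs => rw [MvPolynomial.as_sum U]
      refine Finset.sum_congr rfl fun n _ => ?_
      rw [one_smul, pow_one]
    · have : Fact p.Prime := ⟨hp⟩
      conv_lhs => rw [MvPolynomial.as_sum U]
      rw [sum_pow_char_pow]
      refine Finset.sum_congr rfl fun n _ => ?_
      rw [MvPolynomial.monomial_pow]
  rw [hpow, MvPolynomial.coeff_sum]
  refine sum_mem fun n hn => ?_
  rw [MvPolynomial.coeff_monomial]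
  split_ifs
  · exact key n hn
  · exact zero_mem E

end

end

section

open Pool.Agent.TBR Pool.Agent.TQU

universe u v w

section

private theorem hint_gr_ge {Ω M : Type*} [Field Ω] [Field M] [Algebra Ω M] {Γ : Type*}
    [LinearOrderedCommGroupWithZero Γ] (w : Valuation M Γ) (hw : ∀ a : Ω, w (algebraMap Ω M a) ≤ 1)
    (t : M) (ht : 1 < w t) :
    ∀ (N : ℕ) (b : Polynomial Ω), b.natDegree ≤ N → b ≠ 0 → 1 ≤ w (Polynomial.aeval t b) := by
  have hw1 : ∀ a : Ω, a ≠ 0 → w (algebraMap Ω M a) = 1 := by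
    intro a ha
    refine le_antisymm (hw a) ?_
    have h1 : w (algebraMap Ω M a) * w (algebraMap Ω M a⁻¹) = 1 := by
      rw [← map_mul, ← map_mul, mul_inv_cancel₀ ha, map_one, map_one]
    by_contra hc
    push Not at hc
    have h2 : w (algebraMap Ω M a) * w (algebraMap Ω M a⁻¹) ≤ w (algebraMap Ω M a) * 1 :=
      mul_le_mul_right (hw a⁻¹) _
    rw [h1, mul_one] at h2
    exact absurd hc (not_lt.2 h2)
  intro N
  induction N with
  | zero =>
    intro b hb hb0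
    obtain ⟨a, rfl⟩ : ∃ a, b = Polynomial.C a :=
      ⟨_, Polynomial.eq_C_of_natDegree_le_zero hb⟩
    rw [Polynomial.aeval_C, hw1 a (fun h => hb0 (by rw [h, map_zero]))]
  | succ N ih =>
    intro b hb hb0
    by_cases hd : b.divX = 0
    · have hbC : b = Polynomial.C (b.coeff 0) := by
        conv_lhs => rw [← Polynomial.divX_mul_X_add b, hd, zero_mul, zero_add]
      rw [hbC, Polynomial.aeval_C, hw1 _ (fun h => hb0 (by rw [hbC, h, map_zero]))]
    · have h1 : 1 ≤ w (Polynomial.aeval t b.divX) := by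
        refine ih _ ?_ hd
        rw [Polynomial.natDegree_divX_eq_natDegree_tsub_one]
        omega
      have h2 : Polynomial.aeval t b =
          Polynomial.aeval t b.divX * t + algebraMap Ω M (b.coeff 0) := by
        conv_lhs => rw [← Polynomial.divX_mul_X_add b]
        rw [map_add, map_mul, Polynomial.aeval_X, Polynomial.aeval_C]
      have h3 : 1 < w (Polynomial.aeval t b.divX * t) := by
        rw [map_mul]
        calc (1 : Γ) < w t := ht
          _ = 1 * w t := (one_mul _).symm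
          _ ≤ _ := mul_le_mul_left h1 _
      rw [h2, Valuation.map_add_eq_of_lt_left w (lt_of_le_of_lt (hw _) h3)]
      exact h3.le

private theorem hint_gr_le {Ω M : Type*} [Field Ω] [Field M] [Algebra Ω M] {Γ : Type*}
    [LinearOrderedCommGroupWithZero Γ] (w : Valuation M Γ) (hw : ∀ a : Ω, w (algebraMap Ω M a) ≤ 1)
    (t : M) (ht : 1 < w t) (b : Polynomial Ω) (e : ℕ) (hb : b.natDegree ≤ e) :
    w (Polynomial.aeval t b) ≤ w t ^ e := by
  rw [Polynomial.aeval_eq_sum_range]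
  refine Valuation.map_sum_le w fun i hi => ?_
  rw [Algebra.smul_def, map_mul, map_pow]
  calc w (algebraMap Ω M (b.coeff i)) * w t ^ i ≤ 1 * w t ^ i := mul_le_mul_left (hw _) _
    _ = w t ^ i := one_mul _
    _ ≤ w t ^ e := by
      refine pow_le_pow_right' ht.le ?_
      have := Finset.mem_range.1 hi
      omega

-- U (η^n - θ) has a pole at every place at infinity, for large n.
theorem hint_gr {Ω : Type u} [Field Ω] [IsAlgClosed Ω] (F η U : MvPolynomial (Fin 2) Ω)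
    [IsDedekindDomain (CR F)] (hη : Hint F η) (hU : ¬ F ∣ U) :
    ∃ n₁ : ℕ, ∀ n, n₁ ≤ n → ∀ θ : Ω, Hint F (U * (η ^ n - MvPolynomial.C θ)) := by
  classical
  have hdom : IsDomain (CR F) := inferInstance
  have hint : (W.phi F η).toRingHom.IsIntegral := W.int_phi F η hη
  set φ : Polynomial Ω →ₐ[Ω] CR F := W.phi F η with hφdef
  have hu : Ideal.Quotient.mk (Ideal.span {F}) U ≠ 0 := by
    intro h
    rw [Ideal.Quotient.eq_zero_iff_mem, Ideal.mem_span_singleton] at h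
    exact hU h
  -- a multiple of `U` in the image
  obtain ⟨a, v, ha0, hav⟩ : ∃ (a : Polynomial Ω) (v : CR F), φ a ≠ 0 ∧
      φ a = Ideal.Quotient.mk (Ideal.span {F}) U * v := by
    have hi : IsIntegral φ.toRingHom.range (Ideal.Quotient.mk (Ideal.span {F}) U) := by
      obtain ⟨p, hp, hpu⟩ := hint (Ideal.Quotient.mk (Ideal.span {F}) U)
      refine ⟨p.map φ.toRingHom.rangeRestrict, hp.map _, ?_⟩
      rw [Polynomial.eval₂_map]
      exact hpu
    have h1 := Ideal.comap_ne_bot_of_integral_mem (I := Ideal.span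
      {Ideal.Quotient.mk (Ideal.span {F}) U}) hu (Ideal.mem_span_singleton_self _) hi
    obtain ⟨⟨y, a, hya⟩, hy, hy0⟩ := Submodule.exists_mem_ne_zero_of_ne_bot h1
    obtain ⟨v, hv⟩ := Ideal.mem_span_singleton.1 (Ideal.mem_comap.1 hy)
    refine ⟨a, v, fun h => hy0 (Subtype.ext ?_), ?_⟩
    · exact hya.symm.trans h
    · exact hya.trans hv
  have ha : a ≠ 0 := by
    intro h
    rw [h, map_zero] at ha0
    exact ha0 rfl
  obtain ⟨q, hq, hqv⟩ := hint v
  refine ⟨(Finset.range q.natDegree).sup (fun j => (q.coeff j).natDegree) + 1, ?_⟩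
  set e : ℕ := (Finset.range q.natDegree).sup (fun j => (q.coeff j).natDegree) with he
  intro n hn θ M _ _ Wv x hC hF hH
  refine hη M Wv x hC hF ?_
  by_contra ht
  set w := Wv.valuation with hw
  have hwC : ∀ a : Ω, w (algebraMap Ω M a) ≤ 1 := fun a => (Wv.valuation_le_one_iff _).2 (hC a)
  set t : M := MvPolynomial.aeval x η with htdef
  have ht1 : 1 < w t := by
    rw [← not_le, hw, Wv.valuation_le_one_iff]
    exact ht
  -- evaluation on the curve
  have hker : ∀ g : MvPolynomial (Fin 2) Ω, g ∈ Ideal.span {F} → MvPolynomial.aeval x g = 0 := by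
    intro g hg
    obtain ⟨c, rfl⟩ := Ideal.mem_span_singleton.1 hg
    rw [map_mul, hF, zero_mul]
  let ev : CR F →ₐ[Ω] M := Ideal.Quotient.liftₐ (Ideal.span {F}) (MvPolynomial.aeval x) hker
  have hev : ∀ g, ev (Ideal.Quotient.mk (Ideal.span {F}) g) = MvPolynomial.aeval x g :=
    fun g => rfl
  have hevφ : ∀ b : Polynomial Ω, ev (φ b) = Polynomial.aeval t b := by
    intro b
    rw [hφdef, W.phi, ← Polynomial.aeval_algHom_apply, hev]
  have hle := hint_gr_le w hwC t ht1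
  have hge := hint_gr_ge w hwC t ht1
  have hge1 : (1 : Wv.ValueGroup) ≤ w t ^ e := one_le_pow₀ ht1.le
  set y : M := ev v with hy
  have hyle : w y ≤ w t ^ e := by
    by_contra hc
    push Not at hc
    have hy1 : 1 < w y := lt_of_le_of_lt hge1 hc
    have hy0 : 0 < w y := lt_trans zero_lt_one hy1
    have h1 : Polynomial.eval₂ (ev.toRingHom.comp φ.toRingHom) y q = 0 := by
      have h2 := congrArg ev.toRingHom hqv
      rw [Polynomial.hom_eval₂, map_zero] at h2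
      exact h2
    rw [Polynomial.eval₂_eq_sum_range, Finset.sum_range_succ] at h1
    have h3 : (ev.toRingHom.comp φ.toRingHom) (q.coeff q.natDegree) = 1 := by
      rw [Polynomial.coeff_natDegree, hq.leadingCoeff, map_one]
    rw [h3, one_mul] at h1
    have h4 : w (∑ i ∈ Finset.range q.natDegree,
        (ev.toRingHom.comp φ.toRingHom) (q.coeff i) * y ^ i) < w y ^ q.natDegree := by
      refine Valuation.map_sum_lt w (pow_ne_zero _ hy0.ne') fun i hi => ?_
      rw [map_mul, map_pow]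
      have h5 : w ((ev.toRingHom.comp φ.toRingHom) (q.coeff i)) ≤ w t ^ e := by
        have h6 : (ev.toRingHom.comp φ.toRingHom) (q.coeff i) =
            Polynomial.aeval t (q.coeff i) := hevφ _
        rw [h6]
        exact hle _ _ (Finset.le_sup (f := fun j => (q.coeff j).natDegree) hi)
      calc w ((ev.toRingHom.comp φ.toRingHom) (q.coeff i)) * w y ^ i
          ≤ w t ^ e * w y ^ i := mul_le_mul_left h5 _
        _ < w y * w y ^ i := mul_lt_mul_of_pos_right hc (pow_pos hy0 _)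
        _ = w y ^ (i + 1) := (pow_succ' _ _).symm
        _ ≤ w y ^ q.natDegree := pow_le_pow_right' hy1.le (Finset.mem_range.1 hi)
    rw [← map_pow, ← Valuation.map_neg, ← eq_neg_of_add_eq_zero_right h1] at h4
    exact lt_irrefl _ (lt_of_lt_of_eq h4 rfl)
  have hn1 : 1 < w t ^ n := one_lt_pow₀ ht1 (by omega)
  have hθ : w (t ^ n - algebraMap Ω M θ) = w t ^ n := by
    rw [sub_eq_add_neg, Valuation.map_add_eq_of_lt_left w, map_pow]
    rw [Valuation.map_neg, map_pow]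
    exact lt_of_le_of_lt (hwC θ) hn1
  have hHe : MvPolynomial.aeval x (U * (η ^ n - MvPolynomial.C θ)) =
      MvPolynomial.aeval x U * (t ^ n - algebraMap Ω M θ) := by
    rw [map_mul, map_sub, map_pow, MvPolynomial.aeval_C]
  have h7 : w (MvPolynomial.aeval x U) * w t ^ n ≤ 1 := by
    rw [← hθ, ← map_mul, ← hHe, hw, Wv.valuation_le_one_iff]
    exact hH
  have h8 : w (Polynomial.aeval t a) = w (MvPolynomial.aeval x U) * w y := by
    rw [← hevφ, hav, map_mul, map_mul, hev]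
  have h9 : (1 : Wv.ValueGroup) ≤ w (MvPolynomial.aeval x U) * w y := by
    rw [← h8]
    exact hge _ a le_rfl ha
  have h10 : 0 < w (MvPolynomial.aeval x U) := by
    rcases eq_or_ne (w (MvPolynomial.aeval x U)) 0 with h | h
    · rw [h, zero_mul] at h9
      exact absurd h9 (not_le.2 zero_lt_one)
    · exact zero_lt_iff.2 h
  have h11 : w t ^ e < w t ^ n := pow_lt_pow_right₀ ht1 (by omega)
  have h12 : w (MvPolynomial.aeval x U) * w y < 1 :=
    calc w (MvPolynomial.aeval x U) * w y ≤ w (MvPolynomial.aeval x U) * w t ^ e :=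
          mul_le_mul_right hyle _
      _ < w (MvPolynomial.aeval x U) * w t ^ n := mul_lt_mul_of_pos_left h11 h10
      _ ≤ 1 := h7
  exact absurd h9 (not_le.2 h12)

end

end

section

open Pool.Agent.TBR Pool.Agent.TQU

universe u v w

section

-- The zeros of η^n - θ are not algebraic over k(z).
theorem eta_fac {k Ω : Type u} [Field k] [Field Ω] [Algebra k Ω] [IsAlgClosed Ω] (z : Ω)
    (P : Fin 2 → Ω) (F η : MvPolynomial (Fin 2) Ω) [IsDedekindDomain (CR F)]
    (cfη : Cf (IntermediateField.adjoin k {z} : Set Ω) η) (hη : Hint F η) (na : Na k z F P)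
    (θ : Ω) (hθ : θ ∉ Az k z) (n : ℕ) (hn : 0 < n) :
    ∃ Z : Multiset (Fin 2 → Ω), (∀ Q ∈ Z, Na k z F Q) ∧
      Ideal.span {Ideal.Quotient.mk (Ideal.span {F}) (η ^ n - MvPolynomial.C θ)} =
        (Z.map (ptIdeal F)).prod := by
  classical
  have hF : ¬ F ∣ η ^ n - MvPolynomial.C θ := by
    intro hd
    have h1 : W.phi F η (Polynomial.X ^ n - Polynomial.C θ) = 0 := by
      have h2 : W.phi F η (Polynomial.X ^ n - Polynomial.C θ) =
          Ideal.Quotient.mk (Ideal.span {F}) (η ^ n - MvPolynomial.C θ) := by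
        rw [map_sub, map_pow, Polynomial.aeval_X, Polynomial.aeval_C, map_sub, map_pow]
        rfl
      rw [h2, Ideal.Quotient.eq_zero_iff_mem, Ideal.mem_span_singleton]
      exact hd
    have h3 := W.inj_phi F η hη P na.1 (h1.trans (map_zero _).symm)
    have h4 := congrArg Polynomial.natDegree h3
    rw [Polynomial.natDegree_X_pow_sub_C, Polynomial.natDegree_zero] at h4
    omega
  obtain ⟨Z, hZ, hfac⟩ := factor_pts F _ hF
  refine ⟨Z, fun Q hQ => ⟨(hZ Q hQ).1, fun hA => hθ ?_⟩, hfac⟩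
  have h1 := (hZ Q hQ).2
  rw [map_sub, map_pow, MvPolynomial.eval_C, sub_eq_zero] at h1
  rw [← h1]
  refine pow_mem ?_ n
  rw [MvPolynomial.eval_eq]
  exact sum_mem fun m _ => mul_mem (adjoin_le_Az z (cfη m)) (prod_mem fun i _ => pow_mem (hA i) _)

end

end

section

open Pool.Agent.TBR Pool.Agent.TQU
universe u v w

section

private theorem dat_ex_ring {k Ω : Type u} [Field k] [Field Ω] [Algebra k Ω]
    (L : IntermediateField k Ω) : ∃ R : Subring (MvPolynomial (Fin 2) Ω),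
    (∀ f, f ∈ R ↔ Cf (L : Set Ω) f) ∧ (∀ a ∈ L, MvPolynomial.C a ∈ R) := by
  refine ⟨(MvPolynomial.map (algebraMap L Ω) :
    MvPolynomial (Fin 2) L →+* MvPolynomial (Fin 2) Ω).range, ?_, ?_⟩
  · intro f
    constructor
    · rintro ⟨g, rfl⟩ m
      rw [MvPolynomial.coeff_map]
      exact (MvPolynomial.coeff m g).2
    · intro h
      refine ⟨∑ m ∈ f.support, MvPolynomial.monomial m (⟨MvPolynomial.coeff m f, h m⟩ : L), ?_⟩
      rw [map_sum]
      conv_rhs => rw [f.as_sum]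
      refine Finset.sum_congr rfl fun m _ => ?_
      rw [MvPolynomial.map_monomial]
      rfl
  · intro a ha
    exact ⟨MvPolynomial.C ⟨a, ha⟩, by rw [MvPolynomial.map_C]; rfl⟩

-- The data for the relation (structure Dat in TBM/Sit.lean; copy the end of the proof of main_plane in TBM/Main.lean).
theorem dat_ex {k Ω : Type u} [Field k] [Field Ω] [Algebra k Ω] [IsAlgClosed Ω] (z : Ω)
    (P : Fin 2 → Ω) (F η U : MvPolynomial (Fin 2) Ω) (ZU : Multiset (Fin 2 → Ω))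
    [IsDedekindDomain (CR F)] (cf : Cf (IntermediateField.adjoin k {z} : Set Ω) F)
    (cfη : Cf (IntermediateField.adjoin k {z} : Set Ω) η) (hη : Hint F η) (na : Na k z F P)
    (naU : ∀ Q ∈ ZU, Na k z F Q)
    (facU : Ideal.span {Ideal.Quotient.mk (Ideal.span {F}) U} = (ZU.map (ptIdeal F)).prod)
    (hU : ∀ σ ∈ Ge k ({z} ∪ Set.range P), MvPolynomial.map (σ : Ω →+* Ω) U = U)
    (hK : ∀ x : Ω, IsAlgebraic (IntermediateField.adjoin k ({z} ∪ Set.range P)) x)
    (p : ℕ) [ExpChar Ω p] (t : (Fin 2 → Ω) → Ω ≃ₐ[k] Ω)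
    (ht : ∀ Q, Na k z F Q → t Q ∈ Fx k (Az k z : Set Ω) ∧ ∀ i, t Q (P i) = Q i)
    (i₀ : Fin 2) (hi : P i₀ ∉ Az k z) :
    ∃ r₁ : ℕ, ∀ r, r₁ ≤ r → ∃ n₁ : ℕ, ∀ n, n₁ ≤ n → ∀ Zη : Multiset (Fin 2 → Ω),
      (∀ Q ∈ Zη, Na k z F Q) →
      Ideal.span {Ideal.Quotient.mk (Ideal.span {F}) (η ^ n - MvPolynomial.C (P i₀))} =
        (Zη.map (ptIdeal F)).prod →
      Dat (Az k z) (Ge k ({z} ∪ Set.range P)) P F
        (U ^ p ^ r * (η ^ n - MvPolynomial.C (P i₀))) (p ^ r • ZU + Zη) t := by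
  classical
  have hirr : Irreducible F := Pool.Agent.TBR.W.irred_F F P na.1
  have hAcl : IsAlgClosed (Az k z) := az_closed z
  obtain ⟨hZ, hS⟩ := sit_az z P F cf hirr na.1 na.2 hK
  obtain ⟨AP, hAP⟩ : ∃ AP, AP = AA (Az k z) (Set.range P) := ⟨_, rfl⟩
  have hAle : Az k z ≤ AP := by rw [hAP]; exact le_sup_left
  have hPle : ∀ i, P i ∈ AP := fun i => by
    rw [hAP]
    exact (le_sup_right : IntermediateField.adjoin k (Set.range P) ≤ AA (Az k z) (Set.range P))
      (IntermediateField.subset_adjoin k _ ⟨i, rfl⟩)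
  have hFU : ¬ F ∣ U := by
    intro hd
    have h0 : Ideal.span {Ideal.Quotient.mk (Ideal.span {F}) U} = ⊥ := by
      rw [Ideal.span_singleton_eq_bot, Ideal.Quotient.eq_zero_iff_mem, Ideal.mem_span_singleton]
      exact hd
    rw [facU] at h0
    have h1 : ∀ Z : Multiset (Fin 2 → Ω), (∀ Q ∈ Z, MvPolynomial.eval Q F = 0) →
        (Z.map (ptIdeal F)).prod ≠ ⊥ := by
      intro Z
      induction Z using Multiset.induction_on with
      | empty =>
        intro _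
        rw [Multiset.map_zero, Multiset.prod_zero, Ideal.one_eq_top]
        exact top_ne_bot
      | cons Q Z ih =>
        intro hZ'
        rw [Multiset.map_cons, Multiset.prod_cons, Ne, Ideal.mul_eq_bot, not_or]
        exact ⟨pt_ne_bot F Q (hZ' Q (Multiset.mem_cons_self _ _)),
          ih fun R hR => hZ' R (Multiset.mem_cons_of_mem hR)⟩
    exact h1 ZU (fun Q hQ => (naU Q hQ).1) h0
  have hfixc : ∀ m, ∀ σ ∈ Fx k (AP : Set Ω), σ (MvPolynomial.coeff m U) = MvPolynomial.coeff m U := by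
    intro m σ hσ
    have h1 : σ ∈ Ge k ({z} ∪ Set.range P) := by
      refine hS.geo fun x hx => ?_
      rcases hx with hx | ⟨i, rfl⟩
      · exact hσ x (hAle hx)
      · exact hσ _ (hPle i)
    have h2 := congrArg (MvPolynomial.coeff m) (hU σ h1)
    rw [MvPolynomial.coeff_map] at h2
    exact h2
  obtain ⟨r₁, hr₁⟩ := frob_cf p AP U (fun m => perf p AP (by rw [hAP]; exact hS.alg) _ (hfixc m))
  refine ⟨r₁, fun r hr => ?_⟩
  have hUr := hr₁ r hr
  have hFUr : ¬ F ∣ U ^ p ^ r := fun hc => hFU (hirr.prime.dvd_of_dvd_pow hc)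
  obtain ⟨n₁, hn₁⟩ := hint_gr F η (U ^ p ^ r) hη hFUr
  refine ⟨n₁, fun n hn Zη hZη facη => ?_⟩
  have hcfA : ∀ u : MvPolynomial (Fin 2) Ω, Cf (IntermediateField.adjoin k {z} : Set Ω) u →
      Cf (Az k z : Set Ω) u := fun u hu m => adjoin_le_Az z (hu m)
  have hmemZ : ∀ R ∈ p ^ r • ZU + Zη, Na k z F R := by
    intro R hR
    rcases Multiset.mem_add.1 hR with h1 | h1
    · exact naU R (Multiset.mem_of_mem_nsmul h1)
    · exact hZη R h1
  have hfac : Ideal.span {Ideal.Quotient.mk (Ideal.span {F})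
      (U ^ p ^ r * (η ^ n - MvPolynomial.C (P i₀)))} =
        ((p ^ r • ZU + Zη).map (ptIdeal F)).prod := by
    rw [Multiset.map_add, Multiset.prod_add, Multiset.map_nsmul, Multiset.prod_nsmul, ← facU,
      ← facη, Ideal.span_singleton_pow, Ideal.span_singleton_mul_span_singleton, map_mul, map_pow]
  have hfx : ∀ u : MvPolynomial (Fin 2) Ω, Cf (IntermediateField.adjoin k {z} : Set Ω) u →
      ∀ σ ∈ Ge k ({z} ∪ Set.range P), MvPolynomial.map (σ : Ω →+* Ω) u = u := by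
    intro u hu σ hσ
    refine map_eq_of_cf hu ?_
    rw [Fx_adjoin]
    exact Fx_mono Set.subset_union_left (mem_Ge.1 hσ).1
  refine ⟨hcfA F cf, ?_, hfx F cf, ?_, hn₁ n hn (P i₀), na.1, na.2, hfac,
    fun R hR => (hmemZ R hR).1, ?_, fun R hR => ht R (hmemZ R hR)⟩
  · rw [← hAP]
    obtain ⟨R, hR1, hR2⟩ := dat_ex_ring AP
    rw [← hR1]
    refine R.mul_mem ((hR1 _).2 hUr) (R.sub_mem (R.pow_mem ((hR1 _).2 fun m => ?_) n)
      (hR2 _ (hPle i₀)))
    exact hAle (hcfA η cfη m)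
  · intro σ hσ
    rw [map_mul, map_pow, map_sub, map_pow, hU σ hσ, hfx η cfη σ hσ, MvPolynomial.map_C]
    congr 3
    exact (mem_Ge.1 hσ).1 _ (Or.inr ⟨i₀, rfl⟩)
  · intro R hRA hRF
    exact eval_ne_of_fac F _ _ hfac (fun Q hQ => (hmemZ Q hQ).1) R hRF
      (fun hR => (hmemZ R hR).2 hRA)

end

end

section

open Pool.Agent.TBR Pool.Agent.TQU
universe u v w

section

-- The relation for the zeros of U and W.
theorem relZ {k Ω : Type u} [Field k] [Field Ω] [Algebra k Ω] [IsAlgClosed Ω] (z : Ω)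
    (P : Fin 2 → Ω) (F η U : MvPolynomial (Fin 2) Ω) (ZU : Multiset (Fin 2 → Ω))
    [IsDedekindDomain (CR F)] (cf : Cf (IntermediateField.adjoin k {z} : Set Ω) F)
    (cfη : Cf (IntermediateField.adjoin k {z} : Set Ω) η) (hη : Hint F η) (na : Na k z F P)
    (naU : ∀ Q ∈ ZU, Na k z F Q)
    (facU : Ideal.span {Ideal.Quotient.mk (Ideal.span {F}) U} = (ZU.map (ptIdeal F)).prod)
    (hU : ∀ σ ∈ Ge k ({z} ∪ Set.range P), MvPolynomial.map (σ : Ω →+* Ω) U = U)
    (hK : ∀ x : Ω, IsAlgebraic (IntermediateField.adjoin k ({z} ∪ Set.range P)) x)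
    (p : ℕ) [ExpChar Ω p] (t : (Fin 2 → Ω) → Ω ≃ₐ[k] Ω)
    (ht : ∀ Q, Na k z F Q → t Q ∈ Fx k (Az k z : Set Ω) ∧ ∀ i, t Q (P i) = Q i)
    (W : MvPolynomial (Fin 2) Ω) (ZW : Multiset (Fin 2 → Ω))
    (naW : ∀ Q ∈ ZW, Na k z F Q)
    (facW : Ideal.span {Ideal.Quotient.mk (Ideal.span {F}) W} = (ZW.map (ptIdeal F)).prod)
    (hW : ∀ σ ∈ Ge k ({z} ∪ Set.range P), MvPolynomial.map (σ : Ω →+* Ω) W = W) (ℓ : ℕ)
    (a : ℕ → (Ω ≃ₐ[k] Ω) → (Ω ≃ₐ[k] Ω) → Ωˣ) (ha : SysA (Az k z) z P ℓ a) (m : ℕ) :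
    ∃ r : ℕ, Tri (Ge k ({z} ∪ Set.range P)) (fun σ τ =>
      (Tn ZU t (a m σ τ) * (Tn ZW t (a m σ τ))⁻¹) ^ p ^ r) := by
  classical
  have hirr : Irreducible F := Pool.Agent.TBR.W.irred_F F P na.1
  obtain ⟨i₀, hi⟩ : ∃ i, P i ∉ Az k z := by
    by_contra hc
    push Not at hc
    exact na.2 hc
  have hAcl : IsAlgClosed (Az k z) := az_closed z
  obtain ⟨hZ, hS⟩ := sit_az z P F cf hirr na.1 na.2 hK
  obtain ⟨rU, hrU⟩ := dat_ex z P F η U ZU cf cfη hη na naU facU hU hK p t ht i₀ hi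
  obtain ⟨rW, hrW⟩ := dat_ex z P F η W ZW cf cfη hη na naW facW hW hK p t ht i₀ hi
  obtain ⟨r, hr1, hr2⟩ : ∃ r, rU ≤ r ∧ rW ≤ r := ⟨max rU rW, le_max_left _ _, le_max_right _ _⟩
  obtain ⟨nU, hnU⟩ := hrU r hr1
  obtain ⟨nW, hnW⟩ := hrW r hr2
  obtain ⟨n, hn1, hn2, hn3⟩ : ∃ n, nU ≤ n ∧ nW ≤ n ∧ 0 < n :=
    ⟨nU + nW + 1, by omega, by omega, by omega⟩
  obtain ⟨Zη, hZη1, hZη2⟩ := eta_fac z P F η cfη hη na (P i₀) hi n hn3
  have D1 := hnU n hn1 Zη hZη1 hZη2
  have D2 := hnW n hn2 Zη hZη1 hZη2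
  obtain ⟨κ, hκdef⟩ : ∃ κ, κ = algebraicClosure k Ω := ⟨_, rfl⟩
  have hκm : ∀ x : Ω, x ∈ κ ↔ IsAlgebraic k x := by
    intro x; rw [hκdef]; exact mem_algebraicClosure_iff
  have hκcl : IsAlgClosed κ := by
    rw [hκdef]
    exact (algebraicClosure.isAlgClosure k Ω).isAlgClosed
  have hκA : κ ≤ Az k z := fun x hx => hZ.alg x ((hκm x).1 hx)
  have hκN : Ge k ({z} ∪ Set.range P) ≤ Fx k (κ : Set Ω) := fun σ hσ x hx =>
    (mem_Ge.1 hσ).2 x ((hκm x).1 hx)
  have hκz : ∀ x ∈ Az k z, IsAlgebraic (AA κ {z}) x := by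
    intro x hx
    rw [mem_Az] at hx
    exact isAlg_mono le_sup_right hx
  obtain ⟨r1, T1⟩ := relA hS hZ D1 p κ hκA hκN hκz ℓ a ha m
  obtain ⟨r2, T2⟩ := relA hS hZ D2 p κ hκA hκN hκz ℓ a ha m
  refine ⟨r + (r1 + r2), ?_⟩
  refine ((T1.pow (p ^ r2)).mul (T2.pow (p ^ r1)).inv).congr fun σ _ τ _ => ?_
  generalize a m σ τ = f
  have e : ∀ Z : Multiset (Fin 2 → Ω), Tn (p ^ r • Z + Zη) t f = Tn Z t f ^ p ^ r * Tn Zη t f := by
    intro Z
    unfold Tn
    rw [Multiset.map_add, Multiset.prod_add, Multiset.map_nsmul, Multiset.prod_nsmul]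
  rw [e, e, ← pow_mul, ← pow_mul, ← pow_add, ← pow_add, add_comm r2 r1, ← inv_pow, ← mul_pow,
    mul_inv, mul_mul_mul_comm, mul_inv_cancel, mul_one, ← inv_pow, ← mul_pow, ← pow_mul, ← pow_add]

end

end

section

open Pool.Agent.TBR Pool.Agent.TQU
universe u v w

section

theorem relN_Tn_add {k Ω : Type u} [Field k] [Field Ω] [Algebra k Ω]
    (t : (Fin 2 → Ω) → Ω ≃ₐ[k] Ω) (f : Ωˣ) (A B : Multiset (Fin 2 → Ω)) :
    Tn (A + B) t f = Tn A t f * Tn B t f := by
  unfold Tn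
  rw [Multiset.map_add, Multiset.prod_add]

theorem relN_Tn_nsmul {k Ω : Type u} [Field k] [Field Ω] [Algebra k Ω]
    (t : (Fin 2 → Ω) → Ω ≃ₐ[k] Ω) (f : Ωˣ) (A : Multiset (Fin 2 → Ω)) (c : ℕ) :
    Tn (c • A) t f = Tn A t f ^ c := by
  induction c with
  | zero => rw [zero_nsmul, pow_zero]; unfold Tn; simp
  | succ c ih => rw [succ_nsmul, relN_Tn_add, ih, pow_succ]

theorem relN_Tn_sum {k Ω : Type u} [Field k] [Field Ω] [Algebra k Ω] {ι : Type}
    (t : (Fin 2 → Ω) → Ω ≃ₐ[k] Ω) (f : Ωˣ) (s : Finset ι) (c : ι → ℕ)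
    (Z : ι → Multiset (Fin 2 → Ω)) :
    Tn (∑ i ∈ s, c i • Z i) t f = ∏ i ∈ s, Tn (Z i) t f ^ c i := by
  classical
  induction s using Finset.induction_on with
  | empty => rw [Finset.sum_empty, Finset.prod_empty]; unfold Tn; simp
  | insert a s ha ih =>
    rw [Finset.sum_insert ha, Finset.prod_insert ha, relN_Tn_add, ih, relN_Tn_nsmul]

theorem relN_Tn_rep {k Ω : Type u} [Field k] [Field Ω] [Algebra k Ω]
    (t : (Fin 2 → Ω) → Ω ≃ₐ[k] Ω) (f : Ωˣ) (P : Fin 2 → Ω) (c : ℕ) :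
    Tn (Multiset.replicate c P) t f = (t P • f) ^ c := by
  unfold Tn
  rw [Multiset.map_replicate, Multiset.prod_replicate]

theorem relN_zpow (g : Type*) [CommGroup g] (x : g) (n : ℤ) :
    x ^ n * x ^ (-n).toNat = x ^ n.toNat := by
  have h := Int.toNat_sub_toNat_neg n
  rw [← zpow_natCast x (-n).toNat, ← zpow_natCast x n.toNat, ← zpow_add]
  congr 1
  omega

end

section

-- The relation for the cocycles.
theorem relN {k Ω : Type u} [Field k] [Field Ω] [Algebra k Ω] [IsAlgClosed Ω] (z : Ω)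
    (P : Fin 2 → Ω) (F η U W : MvPolynomial (Fin 2) Ω) (ZU ZW : Multiset (Fin 2 → Ω)) (n₀ : ℕ)
    {ι : Type} [Fintype ι] (n : ι → ℤ) (Z : ι → Multiset (Fin 2 → Ω))
    (L : ι → IntermediateField k Ω) (h : RelC k z P F η U W ZU ZW n₀ n Z L)
    (hU : ∀ σ ∈ Ge k ({z} ∪ Set.range P), MvPolynomial.map (σ : Ω →+* Ω) U = U)
    (hW : ∀ σ ∈ Ge k ({z} ∪ Set.range P), MvPolynomial.map (σ : Ω →+* Ω) W = W)
    (hK : ∀ x : Ω, IsAlgebraic (IntermediateField.adjoin k ({z} ∪ Set.range P)) x)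
    (p : ℕ) [ExpChar Ω p] (t : (Fin 2 → Ω) → Ω ≃ₐ[k] Ω)
    (ht : ∀ Q, Na k z F Q → t Q ∈ Fx k (Az k z : Set Ω) ∧ ∀ i, t Q (P i) = Q i) (ℓ : ℕ)
    (a : ℕ → (Ω ≃ₐ[k] Ω) → (Ω ≃ₐ[k] Ω) → Ωˣ) (ha : SysA (Az k z) z P ℓ a) (m : ℕ) :
    ∃ r : ℕ, Tri (Ge k ({z} ∪ Set.range P)) (fun σ τ =>
      a m σ τ ^ ((n₀ : ℤ) * p ^ r) * ∏ i, Tn (Z i) t (a m σ τ) ^ (n i * (p : ℤ) ^ r)) := by
  have := h.ded
  obtain ⟨r, hr⟩ := relZ z P F η U ZU h.cf h.cfη h.hint h.na h.naU h.facU hU hK p t ht W ZW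
    h.naW h.facW hW ℓ a ha m
  refine ⟨r, Tri.congr hr (fun σ _ τ _ => ?_)⟩
  obtain ⟨f, hf⟩ : ∃ f, f = a m σ τ := ⟨_, rfl⟩
  have hfix : t P • f = f := by
    rw [hf]
    apply ha.fix m σ τ (t P)
    obtain ⟨h1, h2⟩ := ht P h.na
    intro x hx
    rcases hx with hx | ⟨i, rfl⟩
    · exact h1 x hx
    · exact h2 i
  have hrel := congrArg (fun Y => Tn Y t f) h.rel
  simp only [relN_Tn_add, relN_Tn_sum, relN_Tn_rep, hfix] at hrel
  have hprod : (∏ i, Tn (Z i) t f ^ (n i)) * ∏ i, Tn (Z i) t f ^ (- n i).toNat =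
      ∏ i, Tn (Z i) t f ^ (n i).toNat := by
    rw [← Finset.prod_mul_distrib]
    exact Finset.prod_congr rfl fun i _ => relN_zpow _ _ _
  rw [← hprod] at hrel
  have key : Tn ZU t f * (Tn ZW t f)⁻¹ = f ^ n₀ * ∏ i, Tn (Z i) t f ^ (n i) := by
    have h3 : Tn ZU t f = Tn ZW t f * (f ^ n₀ * ∏ i, Tn (Z i) t f ^ (n i)) := by
      apply mul_right_cancel (b := ∏ i, Tn (Z i) t f ^ (- n i).toNat)
      rw [hrel]
      simp only [mul_assoc]
    rw [h3, mul_comm (Tn ZW t f), mul_inv_cancel_right]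
  rw [← hf, key, mul_pow, ← Finset.prod_pow]
  congr 1
  · rw [← pow_mul, ← zpow_natCast]
    congr 1
  · refine Finset.prod_congr rfl fun i _ => ?_
    rw [zpow_mul, ← zpow_natCast]
    congr 1

end

end

end Pool.Agent.RDP
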