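import Pool.Agent.RDM.Nm
import Pool.Agent.RDM.C2
import Pool.Agent.RDM.C3
import Pool.Agent.RDM.C4
import Pool.Agent.RDM.Mdl
import Pool.Agent.TBM.Main

/-!
# The main theorem of the relation
-/

set_option autoImplicit false

namespace Pool.Agent.RDP

section

open Pool.Agent.TBR
universe u
section
variable {k Ω : Type u} [Field k] [Field Ω] [Algebra k Ω]
theorem Tri.prod {ι : Type*} {D : Subgroup (Ω ≃ₐ[k] Ω)} (s : Finset ι)
    {c : ι → (Ω ≃ₐ[k] Ω) → (Ω ≃ₐ[k] Ω) → Ωˣ} (h : ∀ i ∈ s, Tri D (c i)) :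
    Tri D (fun σ τ => ∏ i ∈ s, c i σ τ) := by
  classical
  induction s using Finset.induction_on with
  | empty =>
    refine ⟨fun _ => 1, Lc1.const _ _, fun σ _ τ _ => ?_⟩
    show (∏ i ∈ (∅ : Finset ι), c i σ τ) * 1 = 1 * σ • 1
    rw [Finset.prod_empty, smul_one]
  | insert i s hi ih =>
    refine ((h i (Finset.mem_insert_self i s)).mul
      (ih fun j hj => h j (Finset.mem_insert_of_mem hj))).congr fun σ _ τ _ => ?_
    show c i σ τ * ∏ j ∈ s, c j σ τ = ∏ j ∈ insert i s, c j σ τ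
    rw [Finset.prod_insert hi]
end
/-- The relation for the cocycles and the Tate conjecture for the fields `L i` give the Tate
conjecture for `k(z,P)`. -/
theorem main_f {k Ω : Type u} [Field k] [Field Ω] [Algebra k Ω] [IsAlgClosed Ω] (z : Ω)
    (P : Fin 2 → Ω) (A : IntermediateField k Ω) [IsAlgClosed A] (hZ : SitZ A z P)
    (htrd : ∀ t : Ω, t ∉ A → ∀ x : Ω, IsAlgebraic (AA A {t}) x) (hPA : ¬ ∀ i, P i ∈ A)
    (hK : ∀ x : Ω, IsAlgebraic (IntermediateField.adjoin k ({z} ∪ Set.range P)) x)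
    (ℓ : ℕ) (hℓ : ℓ.Prime) (hℓk : (ℓ : k) ≠ 0)
    {ι : Type*} [Fintype ι] (E : ι → Multiset (Fin 2 → Ω)) (L : ι → IntermediateField k Ω)
    (hfg : ∀ i, (L i).FG) (hal : ∀ i, ∀ x : Ω, IsAlgebraic (L i) x)
    (t : (Fin 2 → Ω) → Ω ≃ₐ[k] Ω) (hE : ∀ i, Stb A z P (E i) (L i : Set Ω) t)
    (hT : ∀ i, T1B.T1 k (L i) ℓ)
    (n₀ : ℕ) (hn₀ : 0 < n₀) (n : ι → ℤ)
    (p : ℕ) [ExpChar Ω p]
    (hrel : ∀ a : ℕ → (Ω ≃ₐ[k] Ω) → (Ω ≃ₐ[k] Ω) → Ωˣ, SysA A z P ℓ a → ∀ m,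
      ∃ r : ℕ, Tri (Ge k ({z} ∪ Set.range P)) (fun σ τ =>
        a m σ τ ^ ((n₀ : ℤ) * p ^ r) * ∏ i, Tn (E i) t (a m σ τ) ^ (n i * (p : ℤ) ^ r))) :
    T1B.T1 k (IntermediateField.adjoin k ({z} ∪ Set.range P)) ℓ := by
  classical
  obtain ⟨K, hKdef⟩ : ∃ K, K = IntermediateField.adjoin k ({z} ∪ Set.range P) := ⟨_, rfl⟩
  rw [← hKdef]
  have hKa : ∀ x : Ω, IsAlgebraic K x := by rw [hKdef]; exact hK
  have hKalg : Algebra.IsAlgebraic K Ω := ⟨hKa⟩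
  have hpℓ : p.Coprime ℓ := by
    have hpe : ExpChar Ω p := inferInstance
    cases hpe with
    | zero => exact Nat.coprime_one_left ℓ
    | prime hpp =>
      rw [Nat.coprime_primes hpp hℓ]
      rintro rfl
      apply hℓk
      apply (algebraMap k Ω).injective
      rw [map_natCast, map_zero]
      exact CharP.cast_eq_zero Ω p
  -- the finite extension
  choose G hG using (fun i => (hfg i : ∃ S : Finset Ω, _))
  obtain ⟨S, hSdef⟩ : ∃ S : Finset Ω, S = Finset.univ.biUnion G := ⟨_, rfl⟩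
  let E' : IntermediateField K Ω := IntermediateField.adjoin K (S : Set Ω)
  have hEfin : FiniteDimensional K E' :=
    IntermediateField.finiteDimensional_adjoin (fun x _ => (hKa x).isIntegral)
  have hLE : ∀ i, ∀ x ∈ L i, x ∈ E' := by
    intro i x hx
    have h3 : L i ≤ E'.restrictScalars k := by
      rw [← hG i, IntermediateField.adjoin_le_iff]
      intro y hy
      refine IntermediateField.subset_adjoin K _ ?_
      rw [hSdef]
      exact Finset.mem_coe.2 (Finset.mem_biUnion.2 ⟨i, Finset.mem_univ i, hy⟩)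
    exact h3 hx
  obtain ⟨D, hDdef⟩ : ∃ D, D = Ge k ({z} ∪ Set.range P) ⊓ Fx k (E' : Set Ω) := ⟨_, rfl⟩
  have hDN : D ≤ Ge k ({z} ∪ Set.range P) := by rw [hDdef]; exact inf_le_left
  have hDE : D ≤ Fx k (E' : Set Ω) := by rw [hDdef]; exact inf_le_right
  have hDL : ∀ i, D ≤ Ge k (L i : Set Ω) := fun i σ hσ =>
    mem_Ge.2 ⟨fun x hx => hDE hσ x (hLE i x hx), (mem_Ge.1 (hDN hσ)).2⟩
  have hGK : Ge k (K : Set Ω) = Ge k ({z} ∪ Set.range P) := by rw [hKdef, Ge_adjoin]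
  have hDK : D ≤ Fx k (K : Set Ω) := by
    refine hDN.trans ?_
    rw [← hGK]
    exact inf_le_left
  have hNor : Normal K Ω := by
    have hcl : IsAlgClosure K Ω := ⟨inferInstance, hKalg⟩
    exact IsAlgClosure.normal K Ω
  rw [t1_iff k K Ω ℓ]
  intro c hc'
  obtain ⟨C, hC, hCc⟩ := sysK K hKa ℓ c hc'
  have hC' : SysU ({z} ∪ Set.range P) ℓ C := hC.of_eq (by rw [hKdef, Fx_adjoin])
  obtain ⟨a, ha, haC⟩ := mkA A z P hZ htrd hPA ℓ C hC'
  have hq : ∀ i, ∀ n, Tri (Ge k (L i : Set Ω)) (fun σ τ => Tn (E i) t (a n σ τ)) := by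
    intro i
    have hLalg : Algebra.IsAlgebraic (L i) Ω := ⟨hal i⟩
    exact sysL (L i) (hal i) ℓ _ (nm_sysG_aux hZ (hE i) ℓ a ha) ((t1_iff k (L i) Ω ℓ).1 (hT i))
  choose r hr using hrel a ha
  refine fin9 K hℓ c hc' E' (n₀ : ℤ) (by omega) p hpℓ r (fun m => ?_)
  have h5 : Tri D (fun σ τ => a m σ τ ^ ((n₀ : ℤ) * p ^ r m)) := by
    have hi : Tri D (fun σ τ => ∏ i, (Tn (E i) t (a m σ τ)) ^ (n i * (p : ℤ) ^ r m)) :=
      Tri.prod Finset.univ (c := fun i σ τ => (Tn (E i) t (a m σ τ)) ^ (n i * (p : ℤ) ^ r m))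
        (fun i _ => ((((hq i m).mono (hDL i)).zpow _)))
    refine (((hr m).mono hDN).mul hi.inv).congr (fun σ _ τ _ => ?_)
    rw [mul_inv_cancel_right]
  have h6 : Tri D (fun σ τ => C m σ τ ^ ((n₀ : ℤ) * p ^ r m)) := by
    refine (h5.mul (((haC m).mono hDN).zpow ((n₀ : ℤ) * p ^ r m)).inv).congr
      (fun σ _ τ _ => ?_)
    rw [mul_zpow, inv_zpow, mul_inv, inv_inv, ← mul_assoc, mul_inv_cancel, one_mul]
  rw [tri_iff K hKa D hDK] at h6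
  have h7 : D.comap (rsh K) = T1B.geo k K Ω ⊓ E'.fixingSubgroup := by
    ext σ
    rw [Subgroup.mem_comap, Subgroup.mem_inf, hDdef, ← hGK, Subgroup.mem_inf,
      IntermediateField.mem_fixingSubgroup_iff]
    refine and_congr ⟨fun h => (mem_Ge.1 h).2, fun h => mem_Ge.2 ⟨fun x hx => ?_, h⟩⟩ Iff.rfl
    exact σ.commutes ⟨x, hx⟩
  rw [h7] at h6
  refine h6.congr (fun σ _ τ _ => ?_)
  rw [hCc]

section

open Pool.Agent.TQU

theorem main_c {k Ω : Type u} [Field k] [Field Ω] [Algebra k Ω] [IsAlgClosed Ω] (z : Ω)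
    (P : Fin 2 → Ω) (F η U W : MvPolynomial (Fin 2) Ω) (ZU ZW : Multiset (Fin 2 → Ω)) (n₀ : ℕ)
    {ι : Type} [Fintype ι] (n : ι → ℤ) (Z : ι → Multiset (Fin 2 → Ω))
    (L : ι → IntermediateField k Ω) (h : RelC k z P F η U W ZU ZW n₀ n Z L)
    (hU : ∀ σ ∈ Ge k ({z} ∪ Set.range P), MvPolynomial.map (σ : Ω →+* Ω) U = U)
    (hW : ∀ σ ∈ Ge k ({z} ∪ Set.range P), MvPolynomial.map (σ : Ω →+* Ω) W = W)
    (hK : ∀ x : Ω, IsAlgebraic (IntermediateField.adjoin k ({z} ∪ Set.range P)) x)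
    (ℓ : ℕ) (hℓ : ℓ.Prime) (hℓk : (ℓ : k) ≠ 0) (hT : ∀ i, T1B.T1 k (L i) ℓ) :
    T1B.T1 k (IntermediateField.adjoin k ({z} ∪ Set.range P)) ℓ := by
  classical
  have hded := h.ded
  have hirr : Irreducible F := TBR.W.irred_F F P h.na.1
  have hAcl : IsAlgClosed (Az k z) := az_closed z
  obtain ⟨hZ, hS⟩ := sit_az z P F h.cf hirr h.na.1 h.na.2 hK
  have hcfA : Cf (Az k z : Set Ω) F := fun m => adjoin_le_Az z (h.cf m)
  have htr : ∀ R, Na k z F R → ∃ τ ∈ Fx k (Az k z : Set Ω), ∀ i, τ (P i) = R i := fun R hR =>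
    tgen (Az k z) hS.trd F hcfA hirr P R h.na.1 hR.1 h.na.2 hR.2
  choose! t ht1 ht2 using htr
  obtain ⟨p, hpe⟩ := ExpChar.exists Ω
  exact main_f z P (Az k z) hZ hS.trd h.na.2 hK ℓ hℓ hℓk Z L (fun i => (h.cyc i).fg)
    (fun i => (h.cyc i).al) t
    (fun i => ⟨(h.cyc i).mem, fun Q hQ => ⟨ht1 Q ((h.cyc i).na Q hQ), ht2 Q ((h.cyc i).na Q hQ)⟩,
      (h.cyc i).inv⟩) hT n₀ h.pos n p
    (fun a ha m => relN z P F η U W ZU ZW n₀ n Z L h hU hW hK p t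
      (fun Q hQ => ⟨ht1 Q hQ, ht2 Q hQ⟩) ℓ a ha m)

end

end

section

open Pool.Agent.TBR Pool.Agent.TQU
universe u v w

section

theorem main_rel {k Ω : Type u} [Field k] [Field Ω] [Algebra k Ω] [IsAlgClosed Ω] (z : Ω)
    (P : Fin 2 → Ω) (G g : MvPolynomial (Fin 2) Ω) (n₀ : ℕ) {m : ℕ} (n : Fin m → ℤ)
    (E : Fin m → (Fin 2 → Ω) → ℕ) (L : Fin m → IntermediateField k Ω)
    (h : RelD k z P G g n₀ n E L)
    (hK : ∀ x : Ω, IsAlgebraic (IntermediateField.adjoin k ({z} ∪ Set.range P)) x)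
    (ℓ : ℕ) (hℓ : ℓ.Prime) (hℓk : (ℓ : k) ≠ 0) (hT : ∀ i, T1B.T1 k (L i) ℓ) :
    T1B.T1 k (IntermediateField.adjoin k ({z} ∪ Set.range P)) ℓ := by
  obtain ⟨P', F, η, U, W, ZU, ZW, Z, hC, hadj⟩ := dstep z P G g n₀ n E L h
  have hK' : ∀ x : Ω, IsAlgebraic (IntermediateField.adjoin k ({z} ∪ Set.range P')) x := by
    rw [hadj]; exact hK
  obtain ⟨c, U', W', ZU', ZW', n₀', n', Z', L', hC', hU', hW', hT'⟩ :=
    cstep z P' F η U W ZU ZW n₀ n Z L hC hK' ℓ hℓ hT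
  have h1 := main_c z P' F η U' W' ZU' ZW' n₀' n' Z' L' hC' hU' hW' hK' ℓ hℓ hℓk hT'
  rw [hadj] at h1
  exact h1

end

end

end Pool.Agent.RDP
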