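import Pool.Agent.RDM.Lc

/-!
# Unirational double planes
-/

set_option autoImplicit false

namespace Pool.Agent.RDP

universe u

/-- the double plane `w² = f/g - l` is unirational over `K` -/
def DPU {k : Type u} [Field k] (f g : MvPolynomial (Fin 2) k) (K : Type u) [Field K]
    [Algebra k K] (l : K) : Prop :=
  ∃ (X : Fin 2 → FractionRing (MvPolynomial (Fin 2) K))
    (W : FractionRing (MvPolynomial (Fin 2) K)), AlgebraicIndependent K X ∧
    W ^ 2 * MvPolynomial.aeval X g = MvPolynomial.aeval X f -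
      algebraMap K (FractionRing (MvPolynomial (Fin 2) K)) l * MvPolynomial.aeval X g

/-- the elements which are algebraic over `k(t)` -/
def Acl (k : Type u) {E : Type u} [Field k] [Field E] [Algebra k E] (t : E) : Set E :=
  {y | IsAlgebraic (IntermediateField.adjoin k {t}) y}

/-- polynomial data of a parametrization along a line -/
structure Ln {k K 𝕂 : Type u} [Field k] [Field K] [Field 𝕂] [Algebra k K] [Algebra K 𝕂]
    [Algebra k 𝕂] (f g : MvPolynomial (Fin 2) k) (l : K) (P : Fin 2 → 𝕂) (s : 𝕂)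
    (N : Fin 2 → Polynomial 𝕂) (Nw D : Polynomial 𝕂) (q : Fin 2 → K) (qw : K) : Prop where
  d0 : D.eval 0 ≠ 0
  d1 : D.eval 1 ≠ 0
  n1 : ∀ i, (N i).eval 1 = P i * D.eval 1
  w1 : Nw.eval 1 = s * D.eval 1
  n0 : ∀ i, (N i).eval 0 = algebraMap K 𝕂 (q i) * D.eval 0
  w0 : Nw.eval 0 = algebraMap K 𝕂 qw * D.eval 0
  gq : MvPolynomial.aeval q g ≠ 0
  eq : ∀ (X : Fin 2 → RatFunc 𝕂) (W : RatFunc 𝕂),
    (∀ i, X i * algebraMap (Polynomial 𝕂) (RatFunc 𝕂) D =
      algebraMap (Polynomial 𝕂) (RatFunc 𝕂) (N i)) →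
    W * algebraMap (Polynomial 𝕂) (RatFunc 𝕂) D = algebraMap (Polynomial 𝕂) (RatFunc 𝕂) Nw →
    W ^ 2 * MvPolynomial.aeval X g = MvPolynomial.aeval X f -
      RatFunc.C (algebraMap K 𝕂 l) * MvPolynomial.aeval X g

end Pool.Agent.RDP
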