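import Pool.Agent.RDM.Rd
import Pool.Agent.RDM.B2
import Pool.Agent.RDM.Dv
import Pool.Agent.RDM.Len
import Pool.Agent.RDM.A2
import Pool.Agent.RDM.A1
import Pool.Agent.RDM.Lc
import Pool.Agent.RDM.A4

/-!
# Curves on the double planes, continued
-/

set_option autoImplicit false

section


namespace Pool.Agent.RDP

universe u v w

section
open Polynomial

theorem nrm2_core {P M : Type*} [CommRing P] [IsDomain P] [IsIntegrallyClosed P] [Field M]
    [Algebra P M] (hinj : Function.Injective (algebraMap P M)) (i2 : P) (h2 : i2 * 2 = 1)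
    (g H : P) (hg : g ≠ 0) (hH : H ≠ 0) (u : M)
    (hu : u ^ 2 * algebraMap P M g = algebraMap P M H) (w : M) (hw : IsIntegral P w) (a b c : P)
    (hc : c ≠ 0)
    (hrep : algebraMap P M c * w = algebraMap P M a + algebraMap P M b * u) :
    ∃ r v : P, w = algebraMap P M r + algebraMap P M v * (algebraMap P M g * u)⁻¹ := by
  have : FaithfulSMul P M := (faithfulSMul_iff_algebraMap_injective P M).2 hinj
  have : Module.IsTorsionFree P M := inferInstance
  have hc' : algebraMap P M c ≠ 0 := by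
    intro h; exact hc (hinj (by rw [h, map_zero]))
  have hH' : algebraMap P M H ≠ 0 := by
    intro h; exact hH (hinj (by rw [h, map_zero]))
  have hgu : algebraMap P M g * u ≠ 0 := by
    intro h
    apply hH'
    rw [← hu]
    calc u ^ 2 * algebraMap P M g = u * (algebraMap P M g * u) := by ring
      _ = 0 := by rw [h, mul_zero]
  set μ := minpoly P w with hμ
  have hmon : μ.Monic := minpoly.monic hw
  have hroot : aeval w μ = 0 := minpoly.aeval P w
  set p : P[X] := C g * (C c * X - C a) ^ 2 - C (b ^ 2 * H) with hp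
  have hpw : aeval w p = 0 := by
    rw [hp]
    simp only [map_sub, map_mul, map_pow, aeval_C, aeval_X]
    rw [hrep]
    rw [← hu]
    ring
  have hdvd : μ ∣ p := minpoly.isIntegrallyClosed_dvd hw hpw
  obtain ⟨q, hq⟩ := hdvd
  have hpexp : p = C (g * c ^ 2) * X ^ 2 + C (-2 * g * a * c) * X + C (g * a ^ 2 - b ^ 2 * H) := by
    rw [hp]
    simp only [map_sub, map_mul, map_pow, map_neg]
    have : (C (2 : P) : P[X]) = 2 := map_ofNat C 2
    rw [this]
    ring
  have hk2 : ∀ A B D : P, (C A * X ^ 2 + C B * X + C D : P[X]).coeff 2 = A := by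
    intro A B D; simp
  have hk1 : ∀ A B D : P, (C A * X ^ 2 + C B * X + C D : P[X]).coeff 1 = B := by
    intro A B D; simp
  have hgc : g * c ^ 2 ≠ 0 := mul_ne_zero hg (pow_ne_zero 2 hc)
  have hpdeg : p.natDegree = 2 := by
    rw [hpexp]
    exact natDegree_quadratic hgc
  have hp0 : p ≠ 0 := by
    intro h; rw [h] at hpdeg; simp at hpdeg
  have hq0 : q ≠ 0 := by
    rintro rfl
    exact hp0 (by rw [hq, mul_zero])
  have hdeg : μ.natDegree + q.natDegree = 2 := by
    rw [← hpdeg, hq, hmon.natDegree_mul' hq0]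
  have hμpos : 0 < μ.natDegree := minpoly.natDegree_pos hw
  rcases (show μ.natDegree = 1 ∨ μ.natDegree = 2 by omega) with h1 | h2'
  · -- degree one
    have hμe : μ = X + C (μ.coeff 0) := by
      exact hmon.eq_X_add_C h1
    have : w + algebraMap P M (μ.coeff 0) = 0 := by
      have h := hroot
      rw [hμe] at h
      simpa using h
    refine ⟨-μ.coeff 0, 0, ?_⟩
    simp only [map_neg, map_zero, zero_mul, add_zero]
    linear_combination this
  · have hqd : q.natDegree = 0 := by omega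
    obtain ⟨lam, hlam⟩ : ∃ lam, q = C lam := ⟨q.coeff 0, eq_C_of_natDegree_eq_zero hqd⟩
    set r := μ.coeff 1 with hr
    set s := μ.coeff 0 with hs
    have hμ2 : μ.coeff 2 = 1 := by
      have := hmon.coeff_natDegree
      rwa [h2'] at this
    have hcoef : ∀ i, p.coeff i = μ.coeff i * lam := by
      intro i
      rw [hq, hlam, coeff_mul_C]
    have e2 : g * c ^ 2 = lam := by
      have := hcoef 2
      rw [hμ2, one_mul, hpexp, hk2] at this
      exact this
    have e1 : -2 * g * a * c = r * lam := by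
      have := hcoef 1
      rw [hpexp, hk1] at this
      exact this
    have e1' : -2 * a = c * r := by
      have : (g * c) * (-2 * a) = (g * c) * (c * r) := by
        linear_combination e1 - r * e2
      exact mul_left_cancel₀ (mul_ne_zero hg hc) this
    have hquad : w ^ 2 + algebraMap P M r * w + algebraMap P M s = 0 := by
      have h := hroot
      rw [aeval_eq_sum_range, h2'] at h
      simp only [Finset.sum_range_succ, Finset.sum_range_zero, zero_add, pow_zero, pow_one] at h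
      rw [hμ2, Algebra.smul_def, Algebra.smul_def, Algebra.smul_def] at h
      rw [map_one, one_mul, mul_one] at h
      linear_combination h
    obtain ⟨ρ, hρ⟩ : ∃ ρ, ρ = i2 * r := ⟨_, rfl⟩
    have hρr : 2 * ρ = r := by
      rw [hρ]; linear_combination r * h2
    have hwp : algebraMap P M c * (w + algebraMap P M ρ) = algebraMap P M b * u := by
      have e3 : a + c * ρ = 0 := by
        have h3 : (-2) * (a + c * ρ) = 0 := by
          linear_combination e1' - c * hρr
        have h4 : i2 * ((-2) * (a + c * ρ)) = 0 := by rw [h3, mul_zero]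
        linear_combination (-1) * h4 - (a + c * ρ) * h2
      have e4 : algebraMap P M a + algebraMap P M c * algebraMap P M ρ = 0 := by
        rw [← map_mul, ← map_add, e3, map_zero]
      linear_combination hrep + e4
    have hsq : (w + algebraMap P M ρ) ^ 2 = algebraMap P M (ρ ^ 2 - s) := by
      have : algebraMap P M r = 2 * algebraMap P M ρ := by
        rw [← hρr, map_mul, map_ofNat]
      rw [map_sub, map_pow]
      rw [this] at hquad
      linear_combination hquad
    have e5 : c ^ 2 * ((ρ ^ 2 - s) * g) = b ^ 2 * H := by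
      apply hinj
      simp only [map_mul, map_pow]
      rw [← hsq, ← hu]
      linear_combination (algebraMap P M c * (w + algebraMap P M ρ) + algebraMap P M b * u) *
        algebraMap P M g * hwp
    have e6 : c ^ 2 ∣ (b * H) ^ 2 := by
      refine ⟨(ρ ^ 2 - s) * g * H, ?_⟩
      linear_combination (-H) * e5
    have e7 : c ∣ b * H := by
      exact (IsIntegrallyClosed.pow_dvd_pow_iff two_ne_zero).1 e6
    obtain ⟨v₀, hv₀⟩ := e7
    have e8 : (w + algebraMap P M ρ) * (algebraMap P M g * u) = algebraMap P M v₀ := by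
      apply mul_left_cancel₀ hc'
      rw [← map_mul (algebraMap P M) c v₀, ← hv₀, map_mul (algebraMap P M) b H, ← hu]
      linear_combination (algebraMap P M g * u) * hwp
    refine ⟨-ρ, v₀, ?_⟩
    rw [map_neg, ← e8, mul_assoc, mul_inv_cancel₀ hgu]
    ring

theorem nrm2_ic {P M : Type*} [CommRing P] [Field M] [Algebra P M] {R : Type*} [CommRing R]
    [Algebra R M] (N : M) (hN : IsIntegral P N)
    (hB : ∀ b : R, ∃ k : ℕ, IsIntegral P (N ^ k * algebraMap R M b)) (z : M)
    (hz : IsIntegral R z) : ∃ k : ℕ, IsIntegral P (N ^ k * z) := by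
  classical
  obtain ⟨p, hp, hpz⟩ := hz
  choose k hk using hB
  have mono : ∀ (b : R) (K : ℕ), k b ≤ K → IsIntegral P (N ^ K * algebraMap R M b) := by
    intro b K hK
    obtain ⟨j, rfl⟩ := Nat.exists_eq_add_of_le hK
    have : N ^ (k b + j) * algebraMap R M b = N ^ j * (N ^ (k b) * algebraMap R M b) := by ring
    rw [this]
    exact (hN.pow j).mul (hk b)
  set K := p.support.sup (fun i => k (p.coeff i)) with hK
  have hco : ∀ i, IsIntegral P (N ^ K * algebraMap R M (p.coeff i)) := by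
    intro i
    by_cases hi : i ∈ p.support
    · exact mono _ _ (Finset.le_sup (f := fun i => k (p.coeff i)) hi)
    · rw [Polynomial.notMem_support_iff.1 hi]
      simp only [map_zero, mul_zero]
      exact isIntegral_zero
  set q := p.map (algebraMap R M) with hq
  have hqm : q.Monic := hp.map _
  have hqz : q.eval z = 0 := by
    rw [hq, eval_map]; exact hpz
  set t := q.scaleRoots (N ^ K) with ht
  have htm : t.Monic := (monic_scaleRoots_iff (N ^ K)).2 hqm
  have htz : t.eval (N ^ K * z) = 0 := by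
    have := scaleRoots_eval₂_eq_zero (p := q) (f := RingHom.id M) (r := z) (s := N ^ K)
      (by simpa [eval₂_id] using hqz)
    simpa [eval₂_id] using this
  have htc : ∀ i, IsIntegral P (t.coeff i) := by
    intro i
    rw [ht, coeff_scaleRoots]
    by_cases hi : i < q.natDegree
    · obtain ⟨j, hj⟩ : ∃ j, q.natDegree - i = j + 1 := ⟨q.natDegree - i - 1, by omega⟩
      rw [hj, hq, coeff_map]
      have : algebraMap R M (p.coeff i) * (N ^ K) ^ (j + 1) =
          (N ^ K) ^ j * (N ^ K * algebraMap R M (p.coeff i)) := by ring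
      rw [this]
      exact ((hN.pow K).pow j).mul (hco i)
    · have h0 : q.natDegree - i = 0 := by omega
      rw [h0, pow_zero, mul_one]
      by_cases hi' : i = q.natDegree
      · rw [hi', hqm.coeff_natDegree]; exact isIntegral_one
      · rw [coeff_eq_zero_of_natDegree_lt (by omega)]; exact isIntegral_zero
  refine ⟨K, ?_⟩
  have hl : t ∈ lifts (algebraMap (integralClosure P M) M) := by
    rw [lifts_iff_coeff_lifts]
    intro i
    exact ⟨⟨t.coeff i, htc i⟩, rfl⟩
  obtain ⟨t', ht', -, ht'm⟩ := lifts_and_degree_eq_and_monic hl htm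
  have : IsIntegral (integralClosure P M) (N ^ K * z) := by
    refine ⟨t', ht'm, ?_⟩
    rw [← eval_map, ht']
    exact htz
  exact isIntegral_trans _ this

theorem nrm2_rep {P E M : Type*} [CommRing P] [IsDomain P] [Field E] [Field M]
    [Algebra E P] [Algebra E M] [Algebra P M] [IsScalarTower E P M]
    (hinj : Function.Injective (algebraMap P M)) 
    (g H : P) (hg : g ≠ 0) (u : M)
    (hu : u ^ 2 * algebraMap P M g = algebraMap P M H) (S : Set M)
    (hS : ∀ s ∈ S, s = u ∨ ∃ a, algebraMap P M a = s) (z : M)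
    (hz : z ∈ IntermediateField.adjoin E S) :
    ∃ a b c : P, c ≠ 0 ∧ algebraMap P M c * z = algebraMap P M a + algebraMap P M b * u := by
  have nz : ∀ a : P, a ≠ 0 → algebraMap P M a ≠ 0 := by
    intro a ha h; exact ha (hinj (by rw [h, map_zero]))
  induction hz using IntermediateField.adjoin_induction with
  | mem x hx =>
    rcases hS x hx with rfl | ⟨a, ha⟩
    · exact ⟨0, 1, 1, one_ne_zero, by simp⟩
    · exact ⟨a, 0, 1, one_ne_zero, by simp [ha]⟩
  | algebraMap e =>
    refine ⟨algebraMap E P e, 0, 1, one_ne_zero, ?_⟩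
    rw [← IsScalarTower.algebraMap_apply]; simp
  | add x y _ _ hx hy =>
    obtain ⟨a, b, c, hc, h⟩ := hx
    obtain ⟨a', b', c', hc', h'⟩ := hy
    refine ⟨a * c' + a' * c, b * c' + b' * c, c * c', mul_ne_zero hc hc', ?_⟩
    simp only [map_mul, map_add]
    linear_combination algebraMap P M c' * h + algebraMap P M c * h'
  | mul x y _ _ hx hy =>
    obtain ⟨a, b, c, hc, h⟩ := hx
    obtain ⟨a', b', c', hc', h'⟩ := hy
    refine ⟨g * (a * a') + b * b' * H, g * (a * b' + a' * b), g * (c * c'),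
      mul_ne_zero hg (mul_ne_zero hc hc'), ?_⟩
    simp only [map_mul, map_add]
    rw [← hu]
    linear_combination algebraMap P M g * (algebraMap P M c' * y) * h +
      algebraMap P M g * (algebraMap P M a + algebraMap P M b * u) * h'
  | inv x _ hx =>
    obtain ⟨a, b, c, hc, h⟩ := hx
    by_cases hx0 : x = 0
    · exact ⟨0, 0, 1, one_ne_zero, by simp [hx0]⟩
    have hq : algebraMap P M g * algebraMap P M c ^ 2 * x ^ 2 -
        2 * algebraMap P M g * algebraMap P M a * algebraMap P M c * x +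
        algebraMap P M (g * a ^ 2 - b ^ 2 * H) = 0 := by
      simp only [map_sub, map_mul, map_pow]
      rw [← hu]
      linear_combination algebraMap P M g * (algebraMap P M c * x - algebraMap P M a +
        algebraMap P M b * u) * h
    by_cases hs : g * a ^ 2 - b ^ 2 * H = 0
    · rw [hs, map_zero, add_zero] at hq
      have h3 : algebraMap P M c * x = 2 * algebraMap P M a := by
        have h4 : (algebraMap P M g * algebraMap P M c * x) * (algebraMap P M c * x) =
            (algebraMap P M g * algebraMap P M c * x) * (2 * algebraMap P M a) := by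
          linear_combination hq
        exact mul_left_cancel₀ (mul_ne_zero (mul_ne_zero (nz _ hg) (nz _ hc)) hx0) h4
      have ha : 2 * a ≠ 0 := by
        intro h5
        have : algebraMap P M c * x = 0 := by
          rw [h3]
          have : algebraMap P M (2 * a) = 0 := by rw [h5, map_zero]
          rwa [map_mul, map_ofNat] at this
        exact (mul_ne_zero (nz _ hc) hx0) this
      refine ⟨c, 0, 2 * a, ha, ?_⟩
      rw [map_mul, map_ofNat, ← h3, map_zero, zero_mul, add_zero, mul_assoc,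
        mul_inv_cancel₀ hx0, mul_one]
    · refine ⟨g * a * c, -(g * b * c), g * a ^ 2 - b ^ 2 * H, hs, ?_⟩
      have : algebraMap P M (g * a ^ 2 - b ^ 2 * H) =
          (2 * algebraMap P M g * algebraMap P M a * algebraMap P M c -
            algebraMap P M g * algebraMap P M c ^ 2 * x) * x := by
        linear_combination hq
      rw [this, mul_assoc, mul_inv_cancel₀ hx0, mul_one]
      simp only [map_mul, map_neg]
      linear_combination (-1) * algebraMap P M g * algebraMap P M c * h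
end

section

theorem nrm2 {E M : Type u} [Field E] [IsAlgClosed E] [Field M] [Algebra E M] (h2 : (2 : E) ≠ 0)
    (f g : MvPolynomial (Fin 2) E) (l : E) (hF : Irreducible (sf f g l)) (hg : g ≠ 0)
    (y : Fin 3 → M) (ai : AlgebraicIndependent E ![y 0, y 1])
    (heq : y 2 ^ 2 * MvPolynomial.aeval ![y 0, y 1] g = MvPolynomial.aeval ![y 0, y 1] f -
      algebraMap E M l * MvPolynomial.aeval ![y 0, y 1] g)
    (hgen : IntermediateField.adjoin E (Set.range y) = ⊤) (h₁ : MvPolynomial (Fin 3) E)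
    (hh : MvPolynomial.aeval y h₁ ≠ 0)
    (hd : MvPolynomial.rename Fin.castSucc g * MvPolynomial.X 2 ∣ h₁) (z : M)
    (hz : IsIntegral (Algebra.adjoin E (Set.range y ∪ {(MvPolynomial.aeval y h₁)⁻¹})) z) :
    z ∈ Algebra.adjoin E (Set.range y ∪ {(MvPolynomial.aeval y h₁)⁻¹}) :=  by
  classical
  set φ : MvPolynomial (Fin 2) E →ₐ[E] M := MvPolynomial.aeval ![y 0, y 1] with hφ
  have hinj : Function.Injective φ := ai
  letI : Algebra (MvPolynomial (Fin 2) E) M := φ.toRingHom.toAlgebra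
  have hal : ∀ a, algebraMap (MvPolynomial (Fin 2) E) M a = φ a := fun _ => rfl
  haveI : IsScalarTower E (MvPolynomial (Fin 2) E) M :=
    IsScalarTower.of_algebraMap_eq fun e => (φ.commutes e).symm
  have hinj' : Function.Injective (algebraMap (MvPolynomial (Fin 2) E) M) := hinj
  set B := Algebra.adjoin E (Set.range y ∪ {(MvPolynomial.aeval y h₁)⁻¹}) with hB
  have hyB : ∀ i, y i ∈ B := fun i => Algebra.subset_adjoin (Or.inl ⟨i, rfl⟩)
  have hhB : (MvPolynomial.aeval y h₁)⁻¹ ∈ B := Algebra.subset_adjoin (Or.inr rfl)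
  have hφB : ∀ a, φ a ∈ B := by
    intro a
    have : Algebra.adjoin E (Set.range ![y 0, y 1]) ≤ B := by
      apply Algebra.adjoin_le
      rintro _ ⟨i, rfl⟩
      fin_cases i
      · exact hyB 0
      · exact hyB 1
    apply this
    rw [Algebra.adjoin_range_eq_range_aeval]
    exact ⟨a, rfl⟩
  have hren : ∀ a : MvPolynomial (Fin 2) E,
      MvPolynomial.aeval y (MvPolynomial.rename Fin.castSucc a) = φ a := by
    intro a
    rw [MvPolynomial.aeval_rename, hφ]
    congr 2
    funext i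
    fin_cases i <;> rfl
  obtain ⟨t, ht⟩ := hd
  have htB : MvPolynomial.aeval y t ∈ B := by
    have : Algebra.adjoin E (Set.range y) ≤ B := Algebra.adjoin_mono Set.subset_union_left
    apply this
    rw [Algebra.adjoin_range_eq_range_aeval]
    exact ⟨t, rfl⟩
  have hh1 : MvPolynomial.aeval y h₁ = φ g * y 2 * MvPolynomial.aeval y t := by
    rw [ht, map_mul, map_mul, hren, MvPolynomial.aeval_X]
  have hG0 : φ g ≠ 0 := by
    intro h; exact hg (hinj (by rw [h, map_zero]))
  have hy2 : y 2 ≠ 0 := by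
    intro h; apply hh; rw [hh1, h]; ring
  have ht0 : MvPolynomial.aeval y t ≠ 0 := by
    intro h; apply hh; rw [hh1, h]; ring
  set H : MvPolynomial (Fin 2) E := f - MvPolynomial.C l * g with hH
  have hφH : φ H = MvPolynomial.aeval ![y 0, y 1] f - algebraMap E M l * φ g := by
    rw [hH, map_sub, map_mul]
    congr 2
    rw [hφ, MvPolynomial.aeval_C]
  have hu : y 2 ^ 2 * algebraMap (MvPolynomial (Fin 2) E) M g =
      algebraMap (MvPolynomial (Fin 2) E) M H := by
    rw [hal, hal, hφH]; exact heq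
  have hH0 : H ≠ 0 := by
    intro h
    rw [h, map_zero] at hu
    exact mul_ne_zero (pow_ne_zero 2 hy2) hG0 hu
  have hi2 : (MvPolynomial.C (2⁻¹ : E) : MvPolynomial (Fin 2) E) * 2 = 1 := by
    have : (2 : MvPolynomial (Fin 2) E) = MvPolynomial.C 2 := (map_ofNat MvPolynomial.C 2).symm
    rw [this, ← map_mul, inv_mul_cancel₀ h2, map_one]
  -- inverse elements in `B`
  have hGyB : (φ g * y 2)⁻¹ ∈ B := by
    have : (φ g * y 2)⁻¹ = MvPolynomial.aeval y t * (MvPolynomial.aeval y h₁)⁻¹ := by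
      rw [hh1]; field_simp
    rw [this]; exact B.mul_mem htB hhB
  have hGiB : (φ g)⁻¹ ∈ B := by
    have : (φ g)⁻¹ = y 2 * (φ g * y 2)⁻¹ := by field_simp
    rw [this]; exact B.mul_mem (hyB 2) hGyB
  -- integral elements
  have hiG : ∀ a, IsIntegral (MvPolynomial (Fin 2) E) (φ a) := fun a =>
    isIntegral_algebraMap (R := MvPolynomial (Fin 2) E) (A := M) (x := a)
  have hiGy : IsIntegral (MvPolynomial (Fin 2) E) (φ g * y 2) := by
    apply IsIntegral.of_pow (n := 2) (by norm_num)
    have : (φ g * y 2) ^ 2 = φ (g * H) := by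
      rw [map_mul, ← hal H, ← hu, hal]; ring
    rw [this]; exact hiG _
  have hiy : ∀ i : Fin 3, IsIntegral (MvPolynomial (Fin 2) E) (φ g * y i) := by
    intro i
    fin_cases i
    · have : y 0 = φ (MvPolynomial.X 0) := by rw [hφ, MvPolynomial.aeval_X]; rfl
      show IsIntegral _ (φ g * y 0)
      rw [this]; exact (hiG _).mul (hiG _)
    · have : y 1 = φ (MvPolynomial.X 1) := by rw [hφ, MvPolynomial.aeval_X]; rfl
      show IsIntegral _ (φ g * y 1)
      rw [this]; exact (hiG _).mul (hiG _)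
    · exact hiGy
  -- a power of `φ g` makes every polynomial value integral
  have hpow : ∀ p : MvPolynomial (Fin 3) E, ∃ k : ℕ,
      IsIntegral (MvPolynomial (Fin 2) E) (φ g ^ k * MvPolynomial.aeval y p) := by
    intro p
    induction p using MvPolynomial.induction_on with
    | C e =>
      refine ⟨0, ?_⟩
      rw [pow_zero, one_mul, MvPolynomial.aeval_C, ← φ.commutes]
      exact hiG _
    | add p q hp hq =>
      obtain ⟨k, hk⟩ := hp
      obtain ⟨j, hj⟩ := hq
      refine ⟨k + j, ?_⟩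
      have : φ g ^ (k + j) * MvPolynomial.aeval y (p + q) =
          φ g ^ j * (φ g ^ k * MvPolynomial.aeval y p) +
          φ g ^ k * (φ g ^ j * MvPolynomial.aeval y q) := by
        rw [map_add]; ring
      rw [this]
      exact (((hiG g).pow j).mul hk).add (((hiG g).pow k).mul hj)
    | mul_X p i hp =>
      obtain ⟨k, hk⟩ := hp
      refine ⟨k + 1, ?_⟩
      have : φ g ^ (k + 1) * MvPolynomial.aeval y (p * MvPolynomial.X i) =
          (φ g ^ k * MvPolynomial.aeval y p) * (φ g * y i) := by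
        rw [map_mul, MvPolynomial.aeval_X]; ring
      rw [this]
      exact hk.mul (hiy i)
  obtain ⟨k₀, hk₀⟩ := hpow h₁
  set N : M := φ g ^ (k₀ + 1) * MvPolynomial.aeval y h₁ with hN
  have hN0 : N ≠ 0 := mul_ne_zero (pow_ne_zero _ hG0) hh
  have hNeq : N = φ g * (φ g ^ k₀ * MvPolynomial.aeval y h₁) := by rw [hN]; ring
  have hNi : IsIntegral (MvPolynomial (Fin 2) E) N := by
    rw [hNeq]; exact (hiG g).mul hk₀
  have hBi : ∀ b : B, ∃ k : ℕ, IsIntegral (MvPolynomial (Fin 2) E) (N ^ k * algebraMap B M b) := by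
    rintro ⟨b, hb⟩
    show ∃ k : ℕ, IsIntegral (MvPolynomial (Fin 2) E) (N ^ k * b)
    induction hb using Algebra.adjoin_induction with
    | mem x hx =>
      rcases hx with ⟨i, rfl⟩ | hx
      · refine ⟨1, ?_⟩
        have : N ^ 1 * y i = (φ g ^ k₀ * MvPolynomial.aeval y h₁) * (φ g * y i) := by
          rw [hNeq]; ring
        rw [this]; exact hk₀.mul (hiy i)
      · rw [Set.mem_singleton_iff.1 hx]
        refine ⟨1, ?_⟩
        have : N ^ 1 * (MvPolynomial.aeval y h₁)⁻¹ = φ g ^ (k₀ + 1) := by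
          rw [pow_one, hN, mul_assoc, mul_inv_cancel₀ hh, mul_one]
        rw [this]; exact (hiG g).pow _
    | algebraMap e =>
      refine ⟨0, ?_⟩
      rw [pow_zero, one_mul, ← φ.commutes]
      exact hiG _
    | add p q _ _ hp hq =>
      obtain ⟨k, hk⟩ := hp
      obtain ⟨j, hj⟩ := hq
      refine ⟨k + j, ?_⟩
      have : N ^ (k + j) * (p + q) = N ^ j * (N ^ k * p) + N ^ k * (N ^ j * q) := by ring
      rw [this]
      exact ((hNi.pow j).mul hk).add ((hNi.pow k).mul hj)
    | mul p q _ _ hp hq =>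
      obtain ⟨k, hk⟩ := hp
      obtain ⟨j, hj⟩ := hq
      refine ⟨k + j, ?_⟩
      have : N ^ (k + j) * (p * q) = (N ^ k * p) * (N ^ j * q) := by ring
      rw [this]
      exact hk.mul hj
  obtain ⟨K, hK⟩ := nrm2_ic (P := MvPolynomial (Fin 2) E) (R := B) N hNi hBi z hz
  have hrep : ∃ a b c : MvPolynomial (Fin 2) E, c ≠ 0 ∧
      algebraMap (MvPolynomial (Fin 2) E) M c * (N ^ K * z) =
        algebraMap (MvPolynomial (Fin 2) E) M a +
          algebraMap (MvPolynomial (Fin 2) E) M b * y 2 := by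
    apply nrm2_rep (E := E) hinj' g H hg (y 2) hu (Set.range y)
    · rintro _ ⟨i, rfl⟩
      fin_cases i
      · right; exact ⟨MvPolynomial.X 0, by rw [hal, hφ, MvPolynomial.aeval_X]; rfl⟩
      · right; exact ⟨MvPolynomial.X 1, by rw [hal, hφ, MvPolynomial.aeval_X]; rfl⟩
      · left; rfl
    · rw [hgen]; trivial
  obtain ⟨a, b, c, hc, hrep⟩ := hrep
  obtain ⟨r, v, hrv⟩ := nrm2_core hinj' _ hi2 g H hg hH0 (y 2) hu _ hK a b c hc hrep
  have hw : N ^ K * z ∈ B := by
    rw [hrv, hal, hal, hal]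
    exact B.add_mem (hφB _) (B.mul_mem (hφB _) hGyB)
  have hNB : N⁻¹ ∈ B := by
    rw [hN, mul_inv, ← inv_pow]
    exact B.mul_mem (B.pow_mem hGiB _) hhB
  have : z = (N⁻¹) ^ K * (N ^ K * z) := by
    rw [← mul_assoc, ← mul_pow, inv_mul_cancel₀ hN0, one_pow, one_mul]
  rw [this]
  exact B.mul_mem (B.pow_mem hNB _) hw

end

end Pool.Agent.RDP

end

section


namespace Pool.Agent.RDP

universe u v w

private theorem valJ_surj {R : Type u} {R' : Type v} [CommRing R] [CommRing R'] [Algebra R R']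
    (p' : Ideal R') [p'.IsPrime] (p : Ideal R) [p.IsPrime] (hp : p = p'.comap (algebraMap R R'))
    (hs : ∀ x : R', ∃ s : R, s ∉ p ∧ ∃ r : R, algebraMap R R' s * x = algebraMap R R' r) :
    Function.Surjective (Localization.localRingHom p p' (algebraMap R R') hp) := by
  intro z
  obtain ⟨a, b, rfl⟩ := IsLocalization.exists_mk'_eq p'.primeCompl z
  obtain ⟨s, hs1, r, hr⟩ := hs a
  obtain ⟨s', hs1', r', hr'⟩ := hs b
  have hmem : ∀ x : R, x ∉ p → algebraMap R R' x ∉ p' := fun x hx h => hx (by rw [hp]; exact h)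
  have hr'p : r' ∉ p := by
    intro h
    rw [hp, Ideal.mem_comap, ← hr'] at h
    rcases Ideal.IsPrime.mem_or_mem ‹p'.IsPrime› h with h1 | h1
    · exact hmem s' hs1' h1
    · exact b.2 h1
  have h3 : s * r' ∉ p := fun h => (Ideal.IsPrime.mem_or_mem ‹p.IsPrime› h).elim hs1 hr'p
  refine ⟨IsLocalization.mk' _ (r * s') (⟨s * r', h3⟩ : p.primeCompl), ?_⟩
  rw [Localization.localRingHom_mk', IsLocalization.mk'_eq_iff_eq]
  congr 1
  simp only [map_mul]
  rw [← hr, ← hr']
  ring

private theorem valJ_len {R : Type u} {R' : Type v} [CommRing R] [CommRing R'] [Algebra R R']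
    (p' : Ideal R') [p'.IsPrime] (p : Ideal R) [p.IsPrime] (hp : p = p'.comap (algebraMap R R'))
    (hs : ∀ x : R', ∃ s : R, s ∉ p ∧ ∃ r : R, algebraMap R R' s * x = algebraMap R R' r)
    (N : Type w) [AddCommGroup N] [Module R' N] [Module R N] [IsScalarTower R R' N] :
    len p N = len p' N := by
  let ρ : Localization.AtPrime p →+* Localization.AtPrime p' :=
    Localization.localRingHom p p' (algebraMap R R') hp
  let _ : Algebra (Localization.AtPrime p) (Localization.AtPrime p') := ρ.toAlgebra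
  let _ : Module (Localization.AtPrime p) (LocalizedModule p'.primeCompl N) := Module.compHom _ ρ
  have htow : IsScalarTower (Localization.AtPrime p) (Localization.AtPrime p')
      (LocalizedModule p'.primeCompl N) := ⟨fun a b m => by
    rw [Algebra.smul_def, mul_smul]
    rfl⟩
  have htow2 : IsScalarTower R (Localization.AtPrime p) (LocalizedModule p'.primeCompl N) := ⟨fun a b m => by
    change ρ (a • b) • m = a • (ρ b • m)
    rw [Algebra.smul_def, map_mul, mul_smul]
    change Localization.localRingHom p p' (algebraMap R R') hp (algebraMap R _ a) • _ = _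
    rw [Localization.localRingHom_to_map, algebraMap_smul, algebraMap_smul]⟩
  have hsurj : Function.Surjective (algebraMap (Localization.AtPrime p) (Localization.AtPrime p')) :=
    valJ_surj p' p hp hs
  rw [len, len, ← Module.length_eq_of_surjective hsurj]
  let f : N →ₗ[R] LocalizedModule p'.primeCompl N :=
    { toFun := fun n => LocalizedModule.mkLinearMap p'.primeCompl N n
      map_add' := fun a b => map_add _ a b
      map_smul' := fun r n => by
        rw [← algebraMap_smul R' r n, map_smul, algebraMap_smul]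
        rfl }
  have hmem : ∀ x : R, x ∉ p → algebraMap R R' x ∉ p' := fun x hx h => hx (by rw [hp]; exact h)
  have hf : IsLocalizedModule p.primeCompl f := by
    refine ⟨fun s => ?_, fun y => ?_, fun {x₁ x₂} h => ?_⟩
    · have h1 := IsLocalizedModule.map_units (LocalizedModule.mkLinearMap p'.primeCompl N)
        (⟨algebraMap R R' s, hmem s s.2⟩ : p'.primeCompl)
      rw [Module.End.isUnit_iff] at h1 ⊢
      have h2 : ∀ z : LocalizedModule p'.primeCompl N,
          (algebraMap R (Module.End R (LocalizedModule p'.primeCompl N)) s) z =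
          (algebraMap R' (Module.End R' (LocalizedModule p'.primeCompl N)) (algebraMap R R' s)) z := by
        intro z
        rw [Module.algebraMap_end_apply, Module.algebraMap_end_apply, algebraMap_smul]
      rw [show ⇑(algebraMap R (Module.End R (LocalizedModule p'.primeCompl N)) s) =
        ⇑(algebraMap R' (Module.End R' (LocalizedModule p'.primeCompl N)) (algebraMap R R' s)) from funext h2]
      exact h1
    · obtain ⟨⟨n, s'⟩, hn⟩ := IsLocalizedModule.surj p'.primeCompl
        (LocalizedModule.mkLinearMap p'.primeCompl N) y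
      obtain ⟨s, hs1, r, hr⟩ := hs s'
      have hrp : r ∉ p := by
        intro h
        rw [hp, Ideal.mem_comap, ← hr] at h
        rcases Ideal.IsPrime.mem_or_mem ‹p'.IsPrime› h with h1 | h1
        · exact hmem s hs1 h1
        · exact s'.2 h1
      refine ⟨⟨s • n, ⟨r, hrp⟩⟩, ?_⟩
      change r • y = f (s • n)
      rw [map_smul]
      change _ = s • LocalizedModule.mkLinearMap p'.primeCompl N n
      rw [← hn]
      change _ = s • (s' : R') • y
      rw [← algebraMap_smul R' r y, ← hr, mul_smul, algebraMap_smul]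
    · have h1 : LocalizedModule.mkLinearMap p'.primeCompl N x₁ =
        LocalizedModule.mkLinearMap p'.primeCompl N x₂ := h
      obtain ⟨s', hs'⟩ := IsLocalizedModule.exists_of_eq (S := p'.primeCompl) h1
      obtain ⟨s, hs1, r, hr⟩ := hs s'
      have hrp : r ∉ p := by
        intro h
        rw [hp, Ideal.mem_comap, ← hr] at h
        rcases Ideal.IsPrime.mem_or_mem ‹p'.IsPrime› h with h1 | h1
        · exact hmem s hs1 h1
        · exact s'.2 h1
      refine ⟨⟨r, hrp⟩, ?_⟩
      change r • x₁ = r • x₂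
      have h2 : (s' : R') • x₁ = (s' : R') • x₂ := hs'
      rw [← algebraMap_smul R' r x₁, ← algebraMap_smul R' r x₂, ← hr, mul_smul, mul_smul, h2]
  exact ((IsLocalizedModule.linearEquiv p.primeCompl (LocalizedModule.mkLinearMap p.primeCompl N) f
    ).extendScalarsOfIsLocalization p.primeCompl (Localization.AtPrime p)).length_eq

/-- elements of the ring are fractions with a power of `H` as the denominator -/
private theorem valJ_frac {E M : Type u} [Field E] [Field M] [Algebra E M] (y : Fin 3 → M)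
    (h₁ : MvPolynomial (Fin 3) E) (hH : MvPolynomial.aeval y h₁ ≠ 0) (z : M)
    (hz : z ∈ Algebra.adjoin E (Set.range y ∪ {(MvPolynomial.aeval y h₁)⁻¹})) :
    ∃ (m : ℕ) (a : MvPolynomial (Fin 3) E), MvPolynomial.aeval y h₁ ^ m * z = MvPolynomial.aeval y a := by
  induction hz using Algebra.adjoin_induction with
  | mem x hx =>
    rcases hx with ⟨i, rfl⟩ | hx
    · exact ⟨0, MvPolynomial.X i, by rw [pow_zero, one_mul, MvPolynomial.aeval_X]⟩
    · rw [Set.mem_singleton_iff] at hx
      exact ⟨1, 1, by rw [hx, pow_one, mul_inv_cancel₀ hH, map_one]⟩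
  | algebraMap r =>
    exact ⟨0, MvPolynomial.C r, by rw [pow_zero, one_mul, MvPolynomial.aeval_C]⟩
  | add x x' _ _ hx hx' =>
    obtain ⟨m, a, h⟩ := hx
    obtain ⟨m', a', h'⟩ := hx'
    refine ⟨m + m', h₁ ^ m' * a + h₁ ^ m * a', ?_⟩
    rw [map_add, map_mul, map_mul, map_pow, map_pow, ← h, ← h', pow_add]
    ring
  | mul x x' _ _ hx hx' =>
    obtain ⟨m, a, h⟩ := hx
    obtain ⟨m', a', h'⟩ := hx'
    refine ⟨m + m', a * a', ?_⟩
    rw [map_mul, ← h, ← h', pow_add]
    ring

private theorem valJ_trdeg {E M : Type u} [Field E] [Field M] [Algebra E M]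
    (f g : MvPolynomial (Fin 2) E) (l : E) (hg : g ≠ 0)
    (y : Fin 3 → M) (ai : AlgebraicIndependent E ![y 0, y 1])
    (heq : y 2 ^ 2 * MvPolynomial.aeval ![y 0, y 1] g = MvPolynomial.aeval ![y 0, y 1] f -
      algebraMap E M l * MvPolynomial.aeval ![y 0, y 1] g)
    (hgen : IntermediateField.adjoin E (Set.range y) = ⊤) : Algebra.trdeg E M ≤ 2 := by
  have hmem : ∀ q : MvPolynomial (Fin 2) E, MvPolynomial.aeval ![y 0, y 1] q ∈
      Algebra.adjoin E ({y 0, y 1} : Set M) := by
    intro q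
    have h1 : MvPolynomial.aeval ![y 0, y 1] q ∈ Algebra.adjoin E (Set.range ![y 0, y 1]) := by
      rw [Algebra.adjoin_range_eq_range_aeval]
      exact ⟨q, rfl⟩
    rwa [Matrix.range_cons_cons_empty] at h1
  have hal : ∀ z ∈ Algebra.adjoin E ({y 0, y 1} : Set M),
      IsAlgebraic (Algebra.adjoin E ({y 0, y 1} : Set M)) z := fun z hz =>
    isAlgebraic_algebraMap (⟨z, hz⟩ : Algebra.adjoin E ({y 0, y 1} : Set M))
  have hg0 : MvPolynomial.aeval ![y 0, y 1] g ≠ 0 := by
    intro h
    exact hg (ai.eq_zero_of_aeval_eq_zero g h)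
  have hy2 : IsAlgebraic (Algebra.adjoin E ({y 0, y 1} : Set M)) (y 2) := by
    refine IsAlgebraic.of_pow (n := 2) (by norm_num) ?_
    have h1 : y 2 ^ 2 = (MvPolynomial.aeval ![y 0, y 1] (f - MvPolynomial.C l * g)) *
        (MvPolynomial.aeval ![y 0, y 1] g)⁻¹ := by
      rw [map_sub, map_mul, MvPolynomial.aeval_C, ← heq, mul_inv_cancel_right₀ hg0]
    rw [h1]
    exact (hal _ (hmem _)).mul (hal _ (hmem _)).inv
  have hyi : ∀ i, IsAlgebraic (Algebra.adjoin E ({y 0, y 1} : Set M)) (y i) := by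
    intro i
    fin_cases i
    · exact hal _ (Algebra.subset_adjoin (by simp))
    · exact hal _ (Algebra.subset_adjoin (by simp))
    · exact hy2
  have hpol : ∀ q : MvPolynomial (Fin 3) E,
      IsAlgebraic (Algebra.adjoin E ({y 0, y 1} : Set M)) (MvPolynomial.aeval y q) := by
    intro q
    induction q using MvPolynomial.induction_on with
    | C a =>
      rw [MvPolynomial.aeval_C]
      exact hal _ (Subalgebra.algebraMap_mem _ a)
    | add p q hp hq =>
      rw [map_add]
      exact hp.add hq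
    | mul_X p i hp =>
      rw [map_mul, MvPolynomial.aeval_X]
      exact hp.mul (hyi i)
  have halg : Algebra.IsAlgebraic (Algebra.adjoin E ({y 0, y 1} : Set M)) M := by
    refine ⟨fun z => ?_⟩
    have hz : z ∈ IntermediateField.adjoin E (Set.range y) := by
      rw [hgen]
      exact IntermediateField.mem_top
    rw [IntermediateField.mem_adjoin_range_iff] at hz
    obtain ⟨r, s, rfl⟩ := hz
    rw [div_eq_mul_inv]
    exact (hpol r).mul (hpol s).inv
  refine (Algebra.IsAlgebraic.trdeg_le_cardinalMk E ({y 0, y 1} : Set M)).trans ?_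
  refine Cardinal.mk_insert_le.trans ?_
  rw [Cardinal.mk_singleton]
  norm_num

section

theorem valJ {E M : Type u} [Field E] [IsAlgClosed E] [Field M] [Algebra E M] (h2 : (2 : E) ≠ 0)
    (f g : MvPolynomial (Fin 2) E) (l : E) (hF : Irreducible (sf f g l)) (hg : g ≠ 0)
    (y : Fin 3 → M) (ai : AlgebraicIndependent E ![y 0, y 1])
    (heq : y 2 ^ 2 * MvPolynomial.aeval ![y 0, y 1] g = MvPolynomial.aeval ![y 0, y 1] f -
      algebraMap E M l * MvPolynomial.aeval ![y 0, y 1] g)
    (hgen : IntermediateField.adjoin E (Set.range y) = ⊤) (h₁ : MvPolynomial (Fin 3) E)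
    (hd : MvPolynomial.rename Fin.castSucc g * MvPolynomial.X 2 ∣ h₁)
    (J : PrimeSpectrum (MvPolynomial (Fin 3) E)) (hJ : Cu (sf f g l) J) (hJh : h₁ ∉ J.asIdeal) :
    ∃ (V : ValuationSubring M) (o : M → ℤ), Dv V o ∧ V ≠ ⊤ ∧ Ov E V ∧
      (∀ z : M, z ∈ V ↔ ∃ a b : MvPolynomial (Fin 3) E, b ∉ J.asIdeal ∧
        z * MvPolynomial.aeval y b = MvPolynomial.aeval y a) ∧
      (∀ a : MvPolynomial (Fin 3) E, MvPolynomial.aeval y a ∈ V.nonunits ↔ a ∈ J.asIdeal) ∧
      ∀ a : MvPolynomial (Fin 3) E, ¬ sf f g l ∣ a →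
        ((oJ (sf f g l) J.asIdeal a).toNat : ℤ) = o (MvPolynomial.aeval y a) := by
  have hker := ker3 f g l hF hg y ai heq
  have hJF : ∀ a, sf f g l ∣ a → a ∈ J.asIdeal := fun a ha => Ideal.mem_of_dvd _ ha hJ.mem
  have hJp : J.asIdeal.IsPrime := J.isPrime
  have hH : MvPolynomial.aeval y h₁ ≠ 0 := fun h => hJh (hJF _ ((hker h₁).1 h))
  have hpow : ∀ m : ℕ, h₁ ^ m ∉ J.asIdeal := fun m h => hJh (hJp.mem_of_pow_mem m h)
  set H : M := MvPolynomial.aeval y h₁ with hHdef
  -- the ring
  let B : Subalgebra E M := Algebra.adjoin E (Set.range y ∪ {H⁻¹})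
  have hfracB : ∀ z : B, ∃ (m : ℕ) (a : MvPolynomial (Fin 3) E), H ^ m * (z : M) = MvPolynomial.aeval y a :=
    fun z => valJ_frac y h₁ hH z z.2
  let φ : MvPolynomial (Fin 3) E →ₐ[E] B := MvPolynomial.aeval fun i =>
    (⟨y i, Algebra.subset_adjoin (Or.inl ⟨i, rfl⟩)⟩ : B)
  have hφ : ∀ a, ((φ a : B) : M) = MvPolynomial.aeval y a := by
    intro a
    have h3 : (B.val.comp φ) = MvPolynomial.aeval y := by
      apply MvPolynomial.algHom_ext
      intro i
      simp [φ]
    exact DFunLike.congr_fun h3 a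
  have hft : Algebra.FiniteType E B :=
    (Subalgebra.fg_iff_finiteType B).1 (Subalgebra.fg_def.2
      ⟨_, (Set.finite_range y).union (Set.finite_singleton _), rfl⟩)
  have htr : Algebra.trdeg E B ≤ 2 :=
    (trdeg_le_of_injective B.val Subtype.val_injective).trans (valJ_trdeg f g l hg y ai heq hgen)
  have hsrf : Srf E B := srf_trdeg hft htr
  have hfr : ∀ x : M, ∃ a ∈ B, ∃ b ∈ B, b ≠ 0 ∧ x * b = a := by
    intro x
    have hx : x ∈ IntermediateField.adjoin E (Set.range y) := by
      rw [hgen]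
      exact IntermediateField.mem_top
    rw [IntermediateField.mem_adjoin_range_iff] at hx
    obtain ⟨r, s, rfl⟩ := hx
    by_cases hs : MvPolynomial.aeval y s = 0
    · exact ⟨0, B.zero_mem, 1, B.one_mem, one_ne_zero, by rw [hs, div_zero, zero_mul]⟩
    · refine ⟨MvPolynomial.aeval y r, ?_, MvPolynomial.aeval y s, ?_, hs, div_mul_cancel₀ _ hs⟩
      · rw [← hφ]
        exact (φ r).2
      · rw [← hφ]
        exact (φ s).2
  have hic : ∀ x : M, IsIntegral B x → x ∈ B := fun x hx =>
    nrm2 h2 f g l hF hg y ai heq hgen h₁ hH hd x hx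
  -- the prime ideal
  let p : Ideal B :=
    { carrier := {z | ∃ (m : ℕ) (a : MvPolynomial (Fin 3) E), a ∈ J.asIdeal ∧
        H ^ m * (z : M) = MvPolynomial.aeval y a}
      zero_mem' := ⟨0, 0, J.asIdeal.zero_mem, by rw [map_zero, ZeroMemClass.coe_zero, mul_zero]⟩
      add_mem' := by
        rintro z z' ⟨m, a, ha, h⟩ ⟨m', a', ha', h'⟩
        refine ⟨m + m', h₁ ^ m' * a + h₁ ^ m * a',
          J.asIdeal.add_mem (J.asIdeal.mul_mem_left _ ha) (J.asIdeal.mul_mem_left _ ha'), ?_⟩
        rw [map_add, map_mul, map_mul, map_pow, map_pow, ← h, ← h', ← hHdef, pow_add,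
          AddMemClass.coe_add]
        ring
      smul_mem' := by
        rintro c z ⟨m, a, ha, h⟩
        obtain ⟨m', a', h'⟩ := hfracB c
        refine ⟨m' + m, a' * a, J.asIdeal.mul_mem_left _ ha, ?_⟩
        rw [map_mul, ← h, ← h', pow_add, smul_eq_mul, MulMemClass.coe_mul]
        ring }
  have hmemp : ∀ z : B, z ∈ p ↔ ∃ (m : ℕ) (a : MvPolynomial (Fin 3) E), a ∈ J.asIdeal ∧
        H ^ m * (z : M) = MvPolynomial.aeval y a := fun z => Iff.rfl
  have hJeq : ∀ (m : ℕ) (a a' : MvPolynomial (Fin 3) E), a' ∈ J.asIdeal →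
      H ^ m * MvPolynomial.aeval y a = MvPolynomial.aeval y a' → a ∈ J.asIdeal := by
    intro m a a' ha' h
    have h3 : MvPolynomial.aeval y (h₁ ^ m * a - a') = 0 := by
      rw [map_sub, map_mul, map_pow, ← hHdef, h, sub_self]
    have h4 := hJF _ ((hker _).1 h3)
    have h5 := J.asIdeal.add_mem h4 ha'
    rw [sub_add_cancel] at h5
    exact (hJp.mem_or_mem h5).resolve_left (hpow m)
  have hpφ : ∀ a, φ a ∈ p ↔ a ∈ J.asIdeal := by
    intro a
    rw [hmemp]
    constructor
    · rintro ⟨m, a', ha', h⟩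
      rw [hφ] at h
      exact hJeq m a a' ha' h
    · intro ha
      exact ⟨0, a, ha, by rw [pow_zero, one_mul, hφ]⟩
  have hprime : p.IsPrime := by
    refine ⟨fun h => ?_, ?_⟩
    · have h3 : φ 1 ∈ p := by
        rw [h]
        exact Submodule.mem_top
      rw [hpφ] at h3
      exact hJp.ne_top ((Ideal.eq_top_iff_one _).2 h3)
    · intro z z' hzz
      obtain ⟨m, a, h⟩ := hfracB z
      obtain ⟨m', a', h'⟩ := hfracB z'
      rw [hmemp] at hzz
      obtain ⟨k, c, hc, h3⟩ := hzz
      have h4 : H ^ k * MvPolynomial.aeval y (a * a') = MvPolynomial.aeval y (h₁ ^ (m + m') * c) := by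
        rw [map_mul, map_mul, map_pow, ← h, ← h', ← h3, ← hHdef, MulMemClass.coe_mul, pow_add]
        ring
      have h5 := hJeq k _ _ (J.asIdeal.mul_mem_left _ hc) h4
      rcases hJp.mem_or_mem h5 with h6 | h6
      · exact Or.inl ((hmemp z).2 ⟨m, a, h6, h⟩)
      · exact Or.inr ((hmemp z').2 ⟨m', a', h6, h'⟩)
  have hpbot : p ≠ ⊥ := by
    intro h
    apply hJ.ne
    refine le_antisymm (fun a ha => ?_) ((Ideal.span_singleton_le_iff_mem _).2 hJ.mem)
    rw [Ideal.mem_span_singleton, ← hker, ← hφ]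
    have h3 := (hpφ a).2 ha
    rw [h, Ideal.mem_bot] at h3
    rw [h3]
    rfl
  have hpmax : ¬ p.IsMaximal := by
    intro hmax
    apply hJ.nm
    let _ : Field (B ⧸ p) := Ideal.Quotient.field p
    have hft' : Algebra.FiniteType E (B ⧸ p) :=
      Algebra.FiniteType.of_surjective (Ideal.Quotient.mkₐ E p) (Ideal.Quotient.mkₐ_surjective E p)
    have hfin : Module.Finite E (B ⧸ p) := finite_of_finite_type_of_isJacobsonRing E (B ⧸ p)
    let χ : MvPolynomial (Fin 3) E →ₐ[E] (B ⧸ p) := (Ideal.Quotient.mkₐ E p).comp φ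
    have hχ : χ.toRingHom.IsIntegral := by
      intro x
      have hx : IsIntegral E x := Algebra.IsIntegral.isIntegral x
      obtain ⟨q, hq, hq0⟩ := hx
      refine ⟨q.map (algebraMap E (MvPolynomial (Fin 3) E)), hq.map _, ?_⟩
      rw [Polynomial.eval₂_map]
      have h3 : χ.toRingHom.comp (algebraMap E (MvPolynomial (Fin 3) E)) = algebraMap E (B ⧸ p) :=
        χ.comp_algebraMap
      rw [h3]
      exact hq0
    have hbm : (⊥ : Ideal (B ⧸ p)).IsMaximal := Ideal.bot_isMaximal
    have h3 := Ideal.isMaximal_comap_of_isIntegral_of_isMaximal' χ.toRingHom hχ ⊥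
    have h4 : Ideal.comap χ.toRingHom ⊥ = J.asIdeal := by
      ext a
      rw [Ideal.mem_comap, Ideal.mem_bot, ← hpφ]
      exact Ideal.Quotient.eq_zero_iff_mem
    rwa [h4] at h3
  obtain ⟨V, o, hV, hVt, hVm, hVn, hVl⟩ := dvr B hsrf hfr hic p hpbot hpmax
  refine ⟨V, o, hV, hVt, fun e => ?_, fun z => ?_, fun a => ?_, fun a ha => ?_⟩
  · exact (hVm _).2 ⟨algebraMap E B e, 1, fun h => hprime.ne_top ((Ideal.eq_top_iff_one _).2 h), by
      rw [OneMemClass.coe_one, mul_one]
      rfl⟩
  · rw [hVm]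
    constructor
    · rintro ⟨a, b, hb, hab⟩
      obtain ⟨m, a', h⟩ := hfracB a
      obtain ⟨m', b', h'⟩ := hfracB b
      refine ⟨h₁ ^ m' * a', h₁ ^ m * b', fun h3 => ?_, ?_⟩
      · have h4 := (hJp.mem_or_mem h3).resolve_left (hpow m)
        exact hb ((hmemp b).2 ⟨m', b', h4, h'⟩)
      · rw [map_mul, map_mul, map_pow, map_pow, ← h, ← h', ← hab, ← hHdef]
        ring
    · rintro ⟨a, b, hb, hab⟩
      exact ⟨φ a, φ b, fun h => hb ((hpφ b).1 h), by rw [hφ, hφ, hab]⟩
  · rw [← hφ, hVn, hpφ]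
  · have hφa : φ a ≠ 0 := by
      intro h
      apply ha
      rw [← hker, ← hφ, h]
      rfl
    rw [← hφ, ← hVl _ hφa]
    congr 2
    let _ : Algebra (MvPolynomial (Fin 3) E) B := φ.toRingHom.toAlgebra
    have hcm : J.asIdeal = p.comap (algebraMap (MvPolynomial (Fin 3) E) B) := by
      ext b
      exact (hpφ b).symm
    have hs : ∀ x : B, ∃ s : MvPolynomial (Fin 3) E, s ∉ J.asIdeal ∧ ∃ r : MvPolynomial (Fin 3) E,
        algebraMap (MvPolynomial (Fin 3) E) B s * x = algebraMap (MvPolynomial (Fin 3) E) B r := by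
      intro x
      obtain ⟨m, b, h⟩ := hfracB x
      refine ⟨h₁ ^ m, hpow m, b, ?_⟩
      apply Subtype.ext
      change ((φ (h₁ ^ m) : B) : M) * (x : M) = ((φ b : B) : M)
      rw [hφ, hφ, map_pow, ← hHdef, h]
    rw [← valJ_len p J.asIdeal hcm hs (B ⧸ Ideal.span {φ a})]
    rw [oJ]
    let ψ : MvPolynomial (Fin 3) E →ₗ[MvPolynomial (Fin 3) E] (B ⧸ Ideal.span {φ a}) :=
      ((Ideal.Quotient.mkₐ (MvPolynomial (Fin 3) E) (Ideal.span {φ a})).toLinearMap).comp
        (Algebra.linearMap (MvPolynomial (Fin 3) E) B)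
    have hψ : ∀ b, ψ b = Ideal.Quotient.mk (Ideal.span {φ a}) (φ b) := fun b => rfl
    have hφF : φ (sf f g l) = 0 := by
      apply Subtype.ext
      rw [hφ]
      exact (hker _).2 dvd_rfl
    have hle : Ideal.span {sf f g l, a} ≤ LinearMap.ker ψ := by
      rw [Ideal.span_le]
      rintro b (rfl | hb)
      · rw [SetLike.mem_coe, LinearMap.mem_ker, hψ, hφF, map_zero]
      · rw [Set.mem_singleton_iff] at hb
        rw [SetLike.mem_coe, LinearMap.mem_ker, hψ, hb]
        exact Ideal.Quotient.eq_zero_iff_mem.2 (Ideal.mem_span_singleton_self _)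
    refine len_li J.asIdeal (Submodule.liftQ (Ideal.span {sf f g l, a}) ψ hle) (fun m hm => ?_) (fun n => ?_)
    · obtain ⟨b, rfl⟩ := Submodule.mkQ_surjective _ m
      rw [Submodule.mkQ_apply, Submodule.liftQ_apply, hψ, Ideal.Quotient.eq_zero_iff_mem,
        Ideal.mem_span_singleton'] at hm
      obtain ⟨x, hx⟩ := hm
      obtain ⟨k, c, hc⟩ := hfracB x
      refine ⟨h₁ ^ k, hpow k, ?_⟩
      rw [← map_smul, Submodule.mkQ_apply, Submodule.Quotient.mk_eq_zero, smul_eq_mul]
      have h3 : MvPolynomial.aeval y (h₁ ^ k * b - c * a) = 0 := by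
        have h4 := congrArg (Subtype.val : B → M) hx
        rw [MulMemClass.coe_mul, hφ, hφ] at h4
        rw [map_sub, map_mul, map_mul, map_pow, ← hHdef, ← hc, ← h4]
        ring
      obtain ⟨e, he⟩ := (hker _).1 h3
      have h5 : h₁ ^ k * b = e * sf f g l + c * a := by
        rw [mul_comm e, ← he]
        ring
      rw [h5]
      exact Ideal.add_mem _ (Ideal.mul_mem_left _ _ (Ideal.subset_span (Or.inl rfl)))
        (Ideal.mul_mem_left _ _ (Ideal.subset_span (Or.inr rfl)))
    · obtain ⟨x, rfl⟩ := Ideal.Quotient.mk_surjective n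
      obtain ⟨k, c, hc⟩ := hfracB x
      refine ⟨h₁ ^ k, hpow k, Submodule.Quotient.mk c, ?_⟩
      rw [Submodule.liftQ_apply, hψ]
      change _ = Ideal.Quotient.mk (Ideal.span {φ a}) (φ (h₁ ^ k) * x)
      congr 1
      apply Subtype.ext
      rw [MulMemClass.coe_mul, hφ, hφ, map_pow, ← hHdef, hc]

end

end Pool.Agent.RDP

end

section


namespace Pool.Agent.RDP

universe u v w

section

private theorem lemCB_trdeg {E : Type u} [Field E] (F : MvPolynomial (Fin 3) E) (hF : F ≠ 0)
    [IsDomain (MvPolynomial (Fin 3) E ⧸ Ideal.span {F})] :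
    Algebra.trdeg E (MvPolynomial (Fin 3) E ⧸ Ideal.span {F}) ≤ 2 := by
  by_contra hcon
  rw [not_le] at hcon
  let x : Fin 3 → (MvPolynomial (Fin 3) E ⧸ Ideal.span {F}) := fun i =>
    Ideal.Quotient.mk _ (MvPolynomial.X i)
  have hx : MvPolynomial.aeval x = Ideal.Quotient.mkₐ E (Ideal.span {F}) := by
    apply MvPolynomial.algHom_ext
    intro i
    rw [MvPolynomial.aeval_X]
    rfl
  have hsurj : Function.Surjective (MvPolynomial.aeval x : MvPolynomial (Fin 3) E →ₐ[E] _) := by
    rw [hx]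
    exact Ideal.Quotient.mkₐ_surjective E _
  have hmem : ∀ y, y ∈ Algebra.adjoin E (Set.range x) := by
    intro y
    rw [Algebra.adjoin_range_eq_range_aeval]
    obtain ⟨z, hz⟩ := hsurj y
    exact ⟨z, hz⟩
  have halg : Algebra.IsAlgebraic (Algebra.adjoin E (Set.range x))
      (MvPolynomial (Fin 3) E ⧸ Ideal.span {F}) := by
    constructor
    intro y
    exact isAlgebraic_algebraMap (R := Algebra.adjoin E (Set.range x))
      (A := MvPolynomial (Fin 3) E ⧸ Ideal.span {F}) ⟨y, hmem y⟩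
  have h3 : Cardinal.mk (ULift.{u} (Fin 3)) ≤
      Algebra.trdeg E (MvPolynomial (Fin 3) E ⧸ Ideal.span {F}) := by
    have h := Order.succ_le_of_lt hcon
    have h2 : Order.succ (2 : Cardinal.{u}) = Cardinal.mk (ULift.{u} (Fin 3)) := by
      have := Cardinal.succ_natCast.{u} 2
      simp only [Cardinal.mk_uLift, Cardinal.mk_fin, Cardinal.lift_natCast]
      rw [show (2 : Cardinal.{u}) = ((2 : ℕ) : Cardinal.{u}) from rfl, this]
      norm_num
    rw [← h2]
    exact h
  have halg' : Algebra.IsAlgebraic (Algebra.adjoin E (Set.range (fun i : ULift.{u} (Fin 3) => x i.down)))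
      (MvPolynomial (Fin 3) E ⧸ Ideal.span {F}) := by
    have hr : Set.range (fun i : ULift.{u} (Fin 3) => x i.down) = Set.range x := by
      ext y
      constructor
      · rintro ⟨i, rfl⟩
        exact ⟨i.down, rfl⟩
      · rintro ⟨i, rfl⟩
        exact ⟨ULift.up i, rfl⟩
    rw [hr]
    exact halg
  have htb := Algebra.IsAlgebraic.isTranscendenceBasis_of_le_trdeg_of_finite E
    (fun i : ULift.{u} (Fin 3) => x i.down) h3
  have hai : AlgebraicIndependent E x := by
    have h := htb.1.comp (fun i : Fin 3 => ULift.up.{u} i) (fun a b h => by simpa using h)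
    exact h
  apply hF
  apply hai
  rw [map_zero, hx]
  show Ideal.Quotient.mk _ F = 0
  rw [Ideal.Quotient.eq_zero_iff_mem]
  exact Ideal.mem_span_singleton_self F

private theorem lemCB_ne {E : Type u} [Field E] (f g : MvPolynomial (Fin 2) E) (l : E)
    (hg : g ≠ 0) (h : MvPolynomial (Fin 2) E) (hh : h ≠ 0) :
    ¬ sf f g l ∣ MvPolynomial.rename Fin.castSucc h := by
  intro hd
  let Φ : MvPolynomial (Fin 3) E →ₐ[E] Polynomial (MvPolynomial (Fin 2) E) :=
    MvPolynomial.aeval ![Polynomial.C (MvPolynomial.X 0), Polynomial.C (MvPolynomial.X 1),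
      Polynomial.X]
  have hΦ : ∀ q : MvPolynomial (Fin 2) E, Φ (MvPolynomial.rename Fin.castSucc q) =
      Polynomial.C q := by
    intro q
    have h1 : (Φ.comp (MvPolynomial.rename Fin.castSucc)) =
        (IsScalarTower.toAlgHom E (MvPolynomial (Fin 2) E) (Polynomial (MvPolynomial (Fin 2) E))) := by
      apply MvPolynomial.algHom_ext
      intro i
      rw [AlgHom.comp_apply, MvPolynomial.rename_X, MvPolynomial.aeval_X]
      fin_cases i
      · rfl
      · rfl
    exact DFunLike.congr_fun h1 q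
  have h2 : Φ (sf f g l) ∣ Polynomial.C h := by
    rw [← hΦ]
    exact map_dvd Φ hd
  have h3 : Φ (sf f g l) = Polynomial.C g * Polynomial.X ^ 2 -
      Polynomial.C (f - MvPolynomial.C l * g) := by
    unfold sf
    rw [map_sub, map_mul, map_pow, hΦ, hΦ, MvPolynomial.aeval_X]
    rfl
  rw [h3] at h2
  have h4 := Polynomial.natDegree_le_of_dvd h2 (Polynomial.C_ne_zero.2 hh)
  rw [Polynomial.natDegree_C, Polynomial.natDegree_sub_C, Polynomial.natDegree_C_mul_X_pow 2 g hg]
    at h4
  omega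

theorem lemCB {E : Type u} [Field E] [IsAlgClosed E] (f g : MvPolynomial (Fin 2) E) (l s t : E)
    (hl : l = t - s ^ 2) (hF : Irreducible (sf f g l)) (hg : g ≠ 0)
    (hG : Irreducible (f - MvPolynomial.C t * g)) (Ap : Ideal (MvPolynomial (Fin 3) E) → Prop)
    (J₀ : PrimeSpectrum (MvPolynomial (Fin 3) E)) (hJ₀ : Sc f g l s J₀.asIdeal)
    (a b : MvPolynomial (Fin 3) E) (ha : ¬ sf f g l ∣ a) (hb : ¬ sf f g l ∣ b)
    (hlt : (oJ (sf f g l) J₀.asIdeal b).toNat < (oJ (sf f g l) J₀.asIdeal a).toNat)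
    (hall : ∀ J : PrimeSpectrum (MvPolynomial (Fin 3) E), Cu (sf f g l) J → J ≠ J₀ →
      (oJ (sf f g l) J.asIdeal a).toNat ≠ (oJ (sf f g l) J.asIdeal b).toNat → Ap J.asIdeal) :
    ∃ (c₀ m : ℕ) (e : Fin m → ℤ) (J : Fin m → Ideal (MvPolynomial (Fin 3) E))
      (D : (Fin 2 → E) → ℤ), 0 < c₀ ∧ Pri (f - MvPolynomial.C t * g) g D ∧
      (∀ i, Sc f g l s (J i) ∧ Ap (J i)) ∧ ∀ Q, Gp (f - MvPolynomial.C t * g) g Q →
        (c₀ : ℤ) * (cy J₀.asIdeal s Q).toNat = D Q + ∑ i, e i * (cy (J i) s Q).toNat := by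
  classical
  have hF0 : sf f g l ≠ 0 := hF.ne_zero
  have hFp : Prime (sf f g l) := hF.prime
  have hspan : (Ideal.span {sf f g l}).IsPrime := (Ideal.span_singleton_prime hF0).2 hFp
  have hdom : IsDomain (MvPolynomial (Fin 3) E ⧸ Ideal.span {sf f g l}) :=
    Ideal.Quotient.isDomain _
  have hft : Algebra.FiniteType E (MvPolynomial (Fin 3) E ⧸ Ideal.span {sf f g l}) :=
    inferInstance
  have hsrf : Srf E (MvPolynomial (Fin 3) E ⧸ Ideal.span {sf f g l}) :=
    srf_trdeg hft (lemCB_trdeg _ hF0)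
  have hab : ¬ sf f g l ∣ a * b := fun h => (hFp.dvd_or_dvd h).elim ha hb
  let π : MvPolynomial (Fin 3) E →+* (MvPolynomial (Fin 3) E ⧸ Ideal.span {sf f g l}) :=
    Ideal.Quotient.mk _
  have hπab : π (a * b) ≠ 0 := by
    intro h
    apply hab
    rw [← Ideal.mem_span_singleton]
    exact Ideal.Quotient.eq_zero_iff_mem.1 h
  obtain ⟨T, hT⟩ := cur_ex hsrf (π (a * b)) hπab
  -- the curves containing ab
  let 𝒥₀ : Finset (PrimeSpectrum (MvPolynomial (Fin 3) E)) :=
    (T.image (PrimeSpectrum.comap π)).filter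
      (fun J => Cu (sf f g l) J ∧ MvPolynomial.X 2 + MvPolynomial.C s ∉ J.asIdeal)
  let 𝒥 : Finset (PrimeSpectrum (MvPolynomial (Fin 3) E)) := insert J₀ 𝒥₀
  have hCu₀ : Cu (sf f g l) J₀ := by
    refine ⟨hJ₀.nm, hJ₀.mem, ?_⟩
    intro heq
    obtain ⟨h, hh, hm⟩ := hJ₀.al
    rw [heq, Ideal.mem_span_singleton] at hm
    exact lemCB_ne f g l hg h hh hm
  have hJ1 : ∀ J ∈ 𝒥, Cu (sf f g l) J ∧ MvPolynomial.X 2 + MvPolynomial.C s ∉ J.asIdeal := by
    intro J hJ
    rcases Finset.mem_insert.1 hJ with rfl | hJ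
    · exact ⟨hCu₀, hJ₀.ne⟩
    · exact (Finset.mem_filter.1 hJ).2
  have hJ2 : ∀ J : PrimeSpectrum (MvPolynomial (Fin 3) E), Cu (sf f g l) J → a * b ∈ J.asIdeal →
      MvPolynomial.X 2 + MvPolynomial.C s ∉ J.asIdeal → J ∈ 𝒥 := by
    intro J hCu habJ hXJ
    apply Finset.mem_insert_of_mem
    apply Finset.mem_filter.2
    refine ⟨?_, hCu, hXJ⟩
    rw [Finset.mem_image]
    have hle : Ideal.span {sf f g l} ≤ J.asIdeal := by
      rw [Ideal.span_singleton_le_iff_mem]
      exact hCu.mem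
    have hker : RingHom.ker π ≤ J.asIdeal := by
      rw [Ideal.mk_ker]
      exact hle
    have hsurj : Function.Surjective π := Ideal.Quotient.mk_surjective
    have hmp : (J.asIdeal.map π).IsPrime := Ideal.map_isPrime_of_surjective hsurj hker
    have hcomap : (J.asIdeal.map π).comap π = J.asIdeal := by
      rw [Ideal.comap_map_of_surjective' π hsurj, sup_eq_left]
      exact hker
    refine ⟨⟨J.asIdeal.map π, hmp⟩, ?_, ?_⟩
    · rcases hT.all ⟨J.asIdeal.map π, hmp⟩ (Ideal.mem_map_of_mem π habJ) with hm | hm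
      · exfalso
        apply hCu.nm
        rw [← hcomap]
        have hm' : (J.asIdeal.map π).IsMaximal := hm
        exact Ideal.comap_isMaximal_of_surjective π hsurj
      · exact hm
    · apply PrimeSpectrum.ext
      exact hcomap
  obtain ⟨Da, hDa, hDa'⟩ := lemB f g l s t hl hF hg hG a ha
  obtain ⟨Db, hDb, hDb'⟩ := lemB f g l s t hl hF hg hG b hb
  have hA := hDa' 𝒥 hJ1 (fun J h1 h2 h3 => hJ2 J h1 (Ideal.mul_mem_right _ _ h2) h3)
  have hB := hDb' 𝒥 hJ1 (fun J h1 h2 h3 => hJ2 J h1 (Ideal.mul_mem_left _ _ h2) h3)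
  have hpri : Pri (f - MvPolynomial.C t * g) g (fun Q => Da Q + - Db Q) :=
    (pri_add _ g hG Da _ hDa (pri_add _ g hG Db Db hDb hDb).2.1).1
  let 𝒦 : Finset (PrimeSpectrum (MvPolynomial (Fin 3) E)) := (𝒥.erase J₀).filter
    (fun J => (oJ (sf f g l) J.asIdeal a).toNat ≠ (oJ (sf f g l) J.asIdeal b).toNat)
  refine ⟨(oJ (sf f g l) J₀.asIdeal a).toNat - (oJ (sf f g l) J₀.asIdeal b).toNat, 𝒦.card,
    fun i => -(((oJ (sf f g l) (𝒦.equivFin.symm i).1.asIdeal a).toNat : ℤ) -
      (oJ (sf f g l) (𝒦.equivFin.symm i).1.asIdeal b).toNat),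
    fun i => (𝒦.equivFin.symm i).1.asIdeal, fun Q => Da Q + - Db Q, ?_, hpri, ?_, ?_⟩
  · omega
  · intro i
    have hi : (𝒦.equivFin.symm i).1 ∈ 𝒦 := (𝒦.equivFin.symm i).2
    obtain ⟨h1, h2⟩ := Finset.mem_filter.1 hi
    obtain ⟨h3, h4⟩ := Finset.mem_erase.1 h1
    obtain ⟨h5, h6⟩ := hJ1 _ h4
    exact ⟨⟨(𝒦.equivFin.symm i).1.isPrime, h5.nm, h5.mem, cu_al f g l hF hg _ h5, h6⟩,
      hall _ h5 h3 h2⟩
  · intro Q hQ
    have h1 := hA Q hQ
    have h2 := hB Q hQ
    have hJ₀m : J₀ ∈ 𝒥 := Finset.mem_insert_self _ _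
    have h3 : Da Q - Db Q = ∑ J ∈ 𝒥, (((oJ (sf f g l) J.asIdeal a).toNat : ℤ) -
        (oJ (sf f g l) J.asIdeal b).toNat) * (cy J.asIdeal s Q).toNat := by
      rw [h1, h2, ← Finset.sum_sub_distrib]
      exact Finset.sum_congr rfl fun J _ => by ring
    rw [← Finset.add_sum_erase _ _ hJ₀m] at h3
    have h4 : ∑ J ∈ 𝒥.erase J₀, (((oJ (sf f g l) J.asIdeal a).toNat : ℤ) -
        (oJ (sf f g l) J.asIdeal b).toNat) * (cy J.asIdeal s Q).toNat =
        ∑ J ∈ 𝒦, (((oJ (sf f g l) J.asIdeal a).toNat : ℤ) -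
        (oJ (sf f g l) J.asIdeal b).toNat) * (cy J.asIdeal s Q).toNat := by
      symm
      apply Finset.sum_subset (Finset.filter_subset _ _)
      intro J hJ hJ'
      have h5 : (oJ (sf f g l) J.asIdeal a).toNat = (oJ (sf f g l) J.asIdeal b).toNat := by
        by_contra h6
        exact hJ' (Finset.mem_filter.2 ⟨hJ, h6⟩)
      rw [h5, sub_self, zero_mul]
    have h5 : ∑ i, -(((oJ (sf f g l) (𝒦.equivFin.symm i).1.asIdeal a).toNat : ℤ) -
        (oJ (sf f g l) (𝒦.equivFin.symm i).1.asIdeal b).toNat) *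
        (cy (𝒦.equivFin.symm i).1.asIdeal s Q).toNat =
        - ∑ J ∈ 𝒦, (((oJ (sf f g l) J.asIdeal a).toNat : ℤ) -
        (oJ (sf f g l) J.asIdeal b).toNat) * (cy J.asIdeal s Q).toNat := by
      rw [Equiv.sum_comp 𝒦.equivFin.symm (fun J : 𝒦 =>
        -(((oJ (sf f g l) J.1.asIdeal a).toNat : ℤ) - (oJ (sf f g l) J.1.asIdeal b).toNat) *
          (cy J.1.asIdeal s Q).toNat)]
      rw [← Finset.sum_coe_sort 𝒦, ← Finset.sum_neg_distrib]
      exact Finset.sum_congr rfl fun J _ => by ring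
    rw [h5, ← h4, Nat.cast_sub hlt.le]
    linarith

end

end Pool.Agent.RDP

end

section


namespace Pool.Agent.RDP

universe u v w

section

private theorem lemC_sp_fd {k' E M N : Type u} [Field k'] [Field E] [Field M] [Field N]
    [Algebra k' E] [Algebra E M] [Algebra M N] [Algebra E N] [Algebra k' N] [IsScalarTower E M N]
    [IsScalarTower k' E N] (𝒟 : Finset M) (θ : N) (y : Fin 3 → N)
    (gD : IntermediateField.adjoin E (𝒟 : Set M) = ⊤)
    (gen : IntermediateField.adjoin M {θ} = ⊤)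
    (alD : ∀ d ∈ 𝒟, IsAlgebraic (Algebra.adjoin k' (Set.range y)) (algebraMap M N d))
    (alT : IsAlgebraic (Algebra.adjoin k' (Set.range y)) θ) :
    FiniteDimensional (IntermediateField.adjoin E (Set.range y)) N := by
  classical
  set M₀ := IntermediateField.adjoin E (Set.range y) with hM₀
  have hle : ∀ x ∈ Algebra.adjoin k' (Set.range y), x ∈ M₀ := by
    intro x hx
    have h1 : Algebra.adjoin k' (Set.range y) ≤ M₀.toSubalgebra.restrictScalars k' := by
      apply Algebra.adjoin_le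
      intro z hz
      exact IntermediateField.subset_adjoin E _ hz
    exact h1 hx
  let φ : Algebra.adjoin k' (Set.range y) →+* M₀ :=
    { toFun := fun z => ⟨z.1, hle z.1 z.2⟩
      map_one' := rfl
      map_mul' := fun _ _ => rfl
      map_zero' := rfl
      map_add' := fun _ _ => rfl }
  let _ : Algebra (Algebra.adjoin k' (Set.range y)) M₀ := φ.toAlgebra
  have htow : IsScalarTower (Algebra.adjoin k' (Set.range y)) M₀ N :=
    IsScalarTower.of_algebraMap_eq (fun z => rfl)
  have hφ : Function.Injective φ := fun a b hab =>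
    Subtype.ext (congrArg (fun t : M₀ => (t : N)) hab)
  have hal : ∀ z : N, IsAlgebraic (Algebra.adjoin k' (Set.range y)) z → IsIntegral M₀ z :=
    fun z hz => (hz.extendScalars (S := M₀) hφ).isIntegral
  let S : Set N := insert θ (algebraMap M N '' (𝒟 : Set M))
  have hSf : Finite S := ((𝒟.finite_toSet.image _).insert θ).to_subtype
  have hS : ∀ x ∈ S, IsIntegral M₀ x := by
    rintro x (rfl | ⟨d, hd, rfl⟩)
    · exact hal _ alT
    · exact hal _ (alD d (by exact_mod_cast hd))
  have h3 : FiniteDimensional M₀ (IntermediateField.adjoin M₀ S) :=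
    IntermediateField.finiteDimensional_adjoin hS
  have hM : ∀ m : M, algebraMap M N m ∈ IntermediateField.adjoin M₀ S := by
    have h5 : IntermediateField.adjoin E (𝒟 : Set M) ≤
        ((IntermediateField.adjoin M₀ S).restrictScalars E).comap (IsScalarTower.toAlgHom E M N) := by
      rw [IntermediateField.adjoin_le_iff]
      intro d hd
      exact IntermediateField.subset_adjoin M₀ S (Or.inr ⟨d, hd, rfl⟩)
    intro m
    have hm : m ∈ IntermediateField.adjoin E (𝒟 : Set M) := by rw [gD]; trivial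
    exact h5 hm
  have h4 : IntermediateField.adjoin M₀ S = ⊤ := by
    rw [eq_top_iff]
    intro z _
    have h6 : IntermediateField.adjoin M {θ} ≤
        (IntermediateField.adjoin M₀ S).toSubfield.toIntermediateField hM := by
      rw [IntermediateField.adjoin_le_iff]
      intro t ht
      rw [Set.mem_singleton_iff] at ht
      rw [ht]
      exact IntermediateField.subset_adjoin M₀ S (Or.inl rfl)
    have hz : z ∈ IntermediateField.adjoin M {θ} := by rw [gen]; trivial
    exact h6 hz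
  rw [h4] at h3
  exact Module.Finite.equiv (IntermediateField.topEquiv (F := M₀) (E := N)).toLinearEquiv

private theorem lemC_sp_den {E M : Type u} [Field E] [Field M] [Algebra E M] (𝒟 : Set M)
    (gD : IntermediateField.adjoin E 𝒟 = ⊤) (p : Polynomial M) :
    ∃ c : M, c ≠ 0 ∧ ∀ i, c * p.coeff i ∈ Algebra.adjoin E 𝒟 := by
  classical
  have h1 : ∀ i : ℕ, ∃ s : M, s ≠ 0 ∧ s ∈ Algebra.adjoin E 𝒟 ∧
      s * p.coeff i ∈ Algebra.adjoin E 𝒟 := by
    intro i
    have h2 : p.coeff i ∈ IntermediateField.adjoin E 𝒟 := by rw [gD]; trivial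
    obtain ⟨r, hr, s, hs, hrs⟩ := IntermediateField.mem_adjoin_iff_div.1 h2
    by_cases hs0 : s = 0
    · refine ⟨1, one_ne_zero, one_mem _, ?_⟩
      rw [hrs, hs0, div_zero, mul_zero]
      exact zero_mem _
    · refine ⟨s, hs0, hs, ?_⟩
      rw [hrs, mul_div_cancel₀ _ hs0]
      exact hr
  choose s hs0 hs hsp using h1
  refine ⟨∏ i ∈ p.support, s i, Finset.prod_ne_zero_iff.2 fun i _ => hs0 i, fun i => ?_⟩
  by_cases hi : i ∈ p.support
  · rw [← Finset.mul_prod_erase _ _ hi, mul_comm (s i), mul_assoc]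
    exact mul_mem (prod_mem fun j _ => hs j) (hsp i)
  · rw [Polynomial.notMem_support_iff.1 hi, mul_zero]
    exact zero_mem _

private theorem lemC_sp_dv_one {L : Type u} [Field L] {V : ValuationSubring L} {o : L → ℤ}
    (h : Dv V o) : o 1 = 0 := by
  have h1 := h.mul 1 1 one_ne_zero one_ne_zero
  rw [mul_one] at h1
  linarith

private theorem lemC_sp_dv_inv {L : Type u} [Field L] {V : ValuationSubring L} {o : L → ℤ}
    (h : Dv V o) (x : L) (hx : x ≠ 0) : o x⁻¹ = - o x := by
  have h1 := h.mul x x⁻¹ hx (inv_ne_zero hx)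
  rw [mul_inv_cancel₀ hx, lemC_sp_dv_one h] at h1
  linarith

private theorem lemC_sp_dv_non {L : Type u} [Field L] {V : ValuationSubring L} {o : L → ℤ}
    (h : Dv V o) (x : L) (hx : x ≠ 0) : x ∈ V.nonunits ↔ 0 < o x := by
  rw [ValuationSubring.mem_nonunits_iff_or, or_iff_right hx, h.mem _ (inv_ne_zero hx),
    lemC_sp_dv_inv h x hx]
  constructor <;> intro h1 <;> omega

private theorem lemC_sp_non_mul {L : Type u} [Field L] (V : ValuationSubring L) (x z : L)
    (hx : x ∈ V.nonunits) (hz : z ∈ V) : z * x ∈ V.nonunits := by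
  rw [ValuationSubring.mem_nonunits_iff_or] at hx ⊢
  rcases hx with hx | hx
  · left
    rw [hx, mul_zero]
  · by_cases h0 : z * x = 0
    · exact Or.inl h0
    · right
      intro h1
      apply hx
      have hz0 : z ≠ 0 := left_ne_zero_of_mul h0
      have h2 : x⁻¹ = z * (z * x)⁻¹ := by
        rw [mul_inv, ← mul_assoc, mul_inv_cancel₀ hz0, one_mul]
      rw [h2]
      exact mul_mem hz h1

private theorem lemC_sp_comap {L L' : Type u} [Field L] [Field L'] [Algebra L L']
    (V : ValuationSubring L) (W : ValuationSubring L') (h : W.comap (algebraMap L L') = V) (x : L) :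
    (algebraMap L L' x ∈ W ↔ x ∈ V) ∧ (algebraMap L L' x ∈ W.nonunits ↔ x ∈ V.nonunits) := by
  have h1 : ∀ z : L, algebraMap L L' z ∈ W ↔ z ∈ V := fun z => by
    rw [← h, ValuationSubring.mem_comap]
  refine ⟨h1 x, ?_⟩
  rw [ValuationSubring.mem_nonunits_iff_or, ValuationSubring.mem_nonunits_iff_or, ← map_inv₀, h1,
    map_eq_zero_iff _ (algebraMap L L').injective]

end

section

variable {k' E M N : Type u} [Field k'] [Field E] [IsAlgClosed E] [Field M] [Field N] [Algebra k' E]
  [Algebra E M] [Algebra M N] [Algebra E N] [Algebra k' M] [Algebra k' N] [IsScalarTower E M N]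
  [IsScalarTower k' E M] [IsScalarTower k' E N] [IsScalarTower k' M N]
  {f g : MvPolynomial (Fin 2) E} {l : E} {𝒟 : Finset M} {θ : N} {n : Fin 3 → Polynomial M}
  {δ : Polynomial M} {y : Fin 3 → N}
theorem lemC_sp (h2 : (2 : E) ≠ 0) (hF : Irreducible (sf f g l)) (hg : g ≠ 0)
    (h : RD (k' := k') f g l 𝒟 θ n δ y) (h₀ h₁ : MvPolynomial (Fin 3) E) (hh : RH 𝒟 θ δ y h₀)
    (hh₁ : h₁ = h₀ * (MvPolynomial.rename Fin.castSucc g * MvPolynomial.X 2))
    (J₀ : PrimeSpectrum (MvPolynomial (Fin 3) E)) (hJ₀ : Cu (sf f g l) J₀)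
    (hn : h₁ ∉ J₀.asIdeal) :
    (∃ ρ : Algebra.adjoin E (𝒟 : Set M) →ₐ[E] E, FT ρ n δ J₀.asIdeal) ∨
      ∃ a b : MvPolynomial (Fin 3) E, ¬ sf f g l ∣ a ∧ ¬ sf f g l ∣ b ∧
        (oJ (sf f g l) J₀.asIdeal b).toNat < (oJ (sf f g l) J₀.asIdeal a).toNat ∧
        ∀ J : PrimeSpectrum (MvPolynomial (Fin 3) E), Cu (sf f g l) J → J ≠ J₀ →
          (oJ (sf f g l) J.asIdeal a).toNat ≠ (oJ (sf f g l) J.asIdeal b).toNat →
          h₁ ∈ J.asIdeal ∨ ∃ ρ : Algebra.adjoin E (𝒟 : Set M) →ₐ[E] E, FT ρ n δ J.asIdeal := by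
  classical
  set F := sf f g l with hFdef
  set M₀ : IntermediateField E N := IntermediateField.adjoin E (Set.range y) with hM₀
  have hfd : FiniteDimensional M₀ N := lemC_sp_fd (k' := k') 𝒟 θ y h.gD h.gen h.alD h.alT
  let y' : Fin 3 → M₀ := fun i => ⟨y i, IntermediateField.subset_adjoin E _ ⟨i, rfl⟩⟩
  have hy' : ∀ a : MvPolynomial (Fin 3) E,
      algebraMap M₀ N (MvPolynomial.aeval y' a) = MvPolynomial.aeval y a := by
    intro a
    rw [← MvPolynomial.aeval_algebraMap_apply]
    rfl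
  have hinj : Function.Injective (algebraMap M₀ N) := (algebraMap M₀ N).injective
  have hpair : ⇑M₀.val ∘ ![y' 0, y' 1] = ![y 0, y 1] := by
    funext i
    fin_cases i <;> rfl
  have ai' : AlgebraicIndependent E ![y' 0, y' 1] := by
    rw [← AlgHom.algebraicIndependent_iff M₀.val M₀.val.injective, hpair]
    exact h.ai
  have hpair2 : ∀ a : MvPolynomial (Fin 2) E,
      algebraMap M₀ N (MvPolynomial.aeval ![y' 0, y' 1] a) = MvPolynomial.aeval ![y 0, y 1] a := by
    intro a
    rw [← MvPolynomial.aeval_algebraMap_apply]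
    congr 2
  have heq' : y' 2 ^ 2 * MvPolynomial.aeval ![y' 0, y' 1] g = MvPolynomial.aeval ![y' 0, y' 1] f -
      algebraMap E M₀ l * MvPolynomial.aeval ![y' 0, y' 1] g := by
    apply hinj
    rw [map_mul, map_sub, map_mul, map_pow, hpair2, hpair2]
    exact h.eq
  have hgen' : IntermediateField.adjoin E (Set.range y') = ⊤ := by
    rw [eq_top_iff]
    intro z _
    have h1 : (IntermediateField.adjoin E (Set.range y')).map M₀.val = M₀ := by
      rw [IntermediateField.adjoin_map, ← Set.range_comp]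
      rfl
    have h2 : (z : N) ∈ (IntermediateField.adjoin E (Set.range y')).map M₀.val := by
      rw [h1]
      exact z.2
    obtain ⟨t, ht, htz⟩ := h2
    have h3 : t = z := Subtype.ext htz
    rw [← h3]
    exact ht
  have hd : MvPolynomial.rename Fin.castSucc g * MvPolynomial.X 2 ∣ h₁ := ⟨h₀, by rw [hh₁]; ring⟩
  have hh₀ : ∀ J : PrimeSpectrum (MvPolynomial (Fin 3) E), h₁ ∉ J.asIdeal → h₀ ∉ J.asIdeal := by
    intro J h1 h2
    apply h1
    rw [hh₁]
    exact J.asIdeal.mul_mem_right _ h2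
  -- the valuations of the curves
  have key := fun (J : PrimeSpectrum (MvPolynomial (Fin 3) E)) (hJ : Cu F J)
    (hJh : h₁ ∉ J.asIdeal) => valJ h2 f g l hF hg y' ai' heq' hgen' h₁ hd J hJ hJh
  -- the centre of a valuation ring over `V_J`
  have hov : ∀ (V : ValuationSubring M₀) (J : PrimeSpectrum (MvPolynomial (Fin 3) E))
      (W : ValuationSubring N), Ov E V →
      (∀ z : M₀, z ∈ V ↔ ∃ a b : MvPolynomial (Fin 3) E, b ∉ J.asIdeal ∧
        z * MvPolynomial.aeval y' b = MvPolynomial.aeval y' a) →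
      (∀ a : MvPolynomial (Fin 3) E, MvPolynomial.aeval y' a ∈ V.nonunits ↔ a ∈ J.asIdeal) →
      W.comap (algebraMap M₀ N) = V → Ov E W ∧
      ∀ a : MvPolynomial (Fin 3) E, MvPolynomial.aeval y a ∈ W ∧
        (MvPolynomial.aeval y a ∈ W.nonunits ↔ a ∈ J.asIdeal) := by
    intro V J W hEV hV1 hV2 hW
    refine ⟨fun e => ?_, fun a => ⟨?_, ?_⟩⟩
    · rw [IsScalarTower.algebraMap_apply E M₀ N]
      exact (lemC_sp_comap V W hW _).1.2 (hEV e)
    · rw [← hy']
      refine (lemC_sp_comap V W hW _).1.2 ((hV1 _).2 ⟨a, 1, ?_, by rw [map_one, mul_one]⟩)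
      exact fun h1 => J.isPrime.ne_top ((Ideal.eq_top_iff_one _).2 h1)
    · rw [← hy', (lemC_sp_comap V W hW _).2]
      exact hV2 a
  have hntop : ∀ (V : ValuationSubring M₀) (W : ValuationSubring N), V ≠ ⊤ →
      W.comap (algebraMap M₀ N) = V → W ≠ ⊤ := by
    rintro V W hV hW rfl
    apply hV
    rw [← hW]
    ext z
    simp [ValuationSubring.mem_comap]
  obtain ⟨V₀, o₀, hDv₀, hV₀t, hV₀E, hV₀m, hV₀n, hV₀o⟩ := key J₀ hJ₀ hn
  obtain ⟨W₀, hW₀'⟩ := vext (L' := N) V₀
  have hW₀ : W₀.comap (algebraMap M₀ N) = V₀ := by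
    ext z
    rw [ValuationSubring.mem_comap]
    exact hW₀' z
  obtain ⟨hEW₀, hcW₀⟩ := hov V₀ J₀ W₀ hV₀E hV₀m hV₀n hW₀
  obtain ⟨hθ₀, h𝒟₀, hft₀⟩ := vcase h h₀ hh J₀ hJ₀.nm (hh₀ J₀ hn) W₀ hEW₀ hcW₀
  by_cases hMW : ∃ m : M, algebraMap M N m ∉ W₀
  · obtain ⟨ρ, -, hρ, -⟩ := hft₀ hMW
    exact Or.inl ⟨ρ, hρ⟩
  right
  push Not at hMW
  obtain ⟨p, hpirr, hpW, hpu⟩ := hcase θ h.th h.gen W₀ hMW (hntop V₀ W₀ hV₀t hW₀) hθ₀
  obtain ⟨c, hc0, hc⟩ := lemC_sp_den (𝒟 : Set M) h.gD p
  set π : N := Polynomial.aeval θ (Polynomial.C c * p) with hπdef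
  have hπp : π = algebraMap M N c * Polynomial.aeval θ p := by
    rw [hπdef, map_mul, Polynomial.aeval_C]
  have hp0 : Polynomial.aeval θ p ≠ 0 := fun h1 =>
    h.th ⟨p, hpirr.ne_zero, h1⟩
  have hcN : algebraMap M N c ≠ 0 := by
    rw [Ne, map_eq_zero_iff _ (algebraMap M N).injective]
    exact hc0
  have hπ0 : π ≠ 0 := by
    rw [hπp]
    exact mul_ne_zero hcN hp0
  -- `π` is in all the valuation rings
  have hπW : ∀ W : ValuationSubring N, Ov E W → θ ∈ W → (∀ d ∈ 𝒟, algebraMap M N d ∈ W) →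
      π ∈ W := by
    intro W hEW hθ h𝒟
    have hA : ∀ m ∈ Algebra.adjoin E (𝒟 : Set M), algebraMap M N m ∈ W := by
      intro m hm
      induction hm using Algebra.adjoin_induction with
      | mem x hx => exact h𝒟 x (by exact_mod_cast hx)
      | algebraMap r =>
        rw [← IsScalarTower.algebraMap_apply]
        exact hEW r
      | add x z _ _ hx hz =>
        rw [map_add]
        exact add_mem hx hz
      | mul x z _ _ hx hz =>
        rw [map_mul]
        exact mul_mem hx hz
    rw [hπdef, Polynomial.aeval_eq_sum_range]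
    refine sum_mem fun i _ => ?_
    rw [Algebra.smul_def, Polynomial.coeff_C_mul]
    exact mul_mem (hA _ (hc i)) (pow_mem hθ i)
  -- the norm of `π`
  set ν : M₀ := Algebra.norm M₀ π with hνdef
  have hν0 : ν ≠ 0 := by
    rw [hνdef]
    exact Algebra.norm_ne_zero_iff.2 hπ0
  have hνmem : (ν : N) ∈ IntermediateField.adjoin E (Set.range y) := ν.2
  obtain ⟨a, b, hab⟩ := (IntermediateField.mem_adjoin_range_iff E y (ν : N)).1 hνmem
  have hνN : (ν : N) ≠ 0 := fun h1 => hν0 (Subtype.ext h1)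
  have ha0 : MvPolynomial.aeval y a ≠ 0 := by
    intro h1
    apply hνN
    rw [hab, h1, zero_div]
  have hb0 : MvPolynomial.aeval y b ≠ 0 := by
    intro h1
    apply hνN
    rw [hab, h1, div_zero]
  have haF : ¬ F ∣ a := fun h1 =>
    ha0 ((ker3 f g l hF hg y h.ai h.eq a).2 h1)
  have hbF : ¬ F ∣ b := fun h1 =>
    hb0 ((ker3 f g l hF hg y h.ai h.eq b).2 h1)
  have ha0' : MvPolynomial.aeval y' a ≠ 0 := fun h1 => ha0 (by rw [← hy', h1, map_zero])
  have hb0' : MvPolynomial.aeval y' b ≠ 0 := fun h1 => hb0 (by rw [← hy', h1, map_zero])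
  have hν' : ν * MvPolynomial.aeval y' b = MvPolynomial.aeval y' a := by
    apply hinj
    rw [map_mul, hy', hy']
    have h1 : algebraMap M₀ N ν = (ν : N) := rfl
    rw [h1, hab, div_mul_cancel₀ _ hb0]
  -- the order of the norm along a curve
  have hord : ∀ (V : ValuationSubring M₀) (o : M₀ → ℤ) (J : PrimeSpectrum (MvPolynomial (Fin 3) E)),
      Dv V o → (∀ a : MvPolynomial (Fin 3) E, ¬ F ∣ a →
        ((oJ F J.asIdeal a).toNat : ℤ) = o (MvPolynomial.aeval y' a)) →
      o ν = ((oJ F J.asIdeal a).toNat : ℤ) - ((oJ F J.asIdeal b).toNat : ℤ) := by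
    intro V o J hD ho
    rw [ho a haF, ho b hbF, ← hν', hD.mul _ _ hν0 hb0']
    ring
  have hallπ : ∀ (V : ValuationSubring M₀) (J : PrimeSpectrum (MvPolynomial (Fin 3) E)),
      Cu F J → h₁ ∉ J.asIdeal → Ov E V →
      (∀ z : M₀, z ∈ V ↔ ∃ a b : MvPolynomial (Fin 3) E, b ∉ J.asIdeal ∧
        z * MvPolynomial.aeval y' b = MvPolynomial.aeval y' a) →
      (∀ a : MvPolynomial (Fin 3) E, MvPolynomial.aeval y' a ∈ V.nonunits ↔ a ∈ J.asIdeal) →
      ∀ W : ValuationSubring N, W.comap (algebraMap M₀ N) = V → π ∈ W := by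
    intro V J hJ hJh hEV hV1 hV2 W hW
    obtain ⟨hEW, hcW⟩ := hov V J W hEV hV1 hV2 hW
    obtain ⟨hθ, h𝒟, -⟩ := vcase h h₀ hh J hJ.nm (hh₀ J hJh) W hEW hcW
    exact hπW W hEW hθ h𝒟
  refine ⟨a, b, haF, hbF, ?_, ?_⟩
  · -- the curve `J₀`
    obtain ⟨-, h1⟩ := normval V₀ π hπ0 (hallπ V₀ J₀ hJ₀ hn hV₀E hV₀m hV₀n)
    have h3 : π ∈ W₀.nonunits := (hpW _).2 (Dvd.intro_left _ rfl)
    have h4 : ν ∈ V₀.nonunits := h1.2 ⟨W₀, hW₀, h3⟩
    have h5 := (lemC_sp_dv_non hDv₀ ν hν0).1 h4
    rw [hord V₀ o₀ J₀ hDv₀ hV₀o] at h5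
    omega
  · intro J hJ hJne hJab
    by_contra hcon
    push Not at hcon
    obtain ⟨hJh, hnFT⟩ := hcon
    obtain ⟨V, o, hDv, hVt, hVE, hVm, hVn, hVo⟩ := key J hJ hJh
    obtain ⟨h0, h1⟩ := normval V π hπ0 (hallπ V J hJ hJh hVE hVm hVn)
    have h3 : 0 ≤ o ν := (hDv.mem ν hν0).1 h0
    have h4 := hord V o J hDv hVo
    have h5 : ν ∈ V.nonunits := (lemC_sp_dv_non hDv ν hν0).2 (by omega)
    obtain ⟨W, hW, hπn⟩ := h1.1 h5
    obtain ⟨hEW, hcW⟩ := hov V J W hVE hVm hVn hW
    obtain ⟨hθ, h𝒟, hft⟩ := vcase h h₀ hh J hJ.nm (hh₀ J hJh) W hEW hcW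
    by_cases hMW' : ∃ m : M, algebraMap M N m ∉ W
    · obtain ⟨ρ, -, hρ, -⟩ := hft hMW'
      exact hnFT ρ hρ
    · push Not at hMW'
      have h6 : Polynomial.aeval θ p ∈ W.nonunits := by
        have h7 : Polynomial.aeval θ p = algebraMap M N c⁻¹ * π := by
          rw [hπp, map_inv₀, ← mul_assoc, inv_mul_cancel₀ hcN, one_mul]
        rw [h7]
        exact lemC_sp_non_mul W _ _ hπn (hMW' _)
      have h8 : W = W₀ := hpu W hMW' (hntop V W hVt hW) h6
      have h9 : V = V₀ := by rw [← hW, ← hW₀, h8]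
      apply hJne
      apply PrimeSpectrum.ext
      ext t
      rw [← hVn t, ← hV₀n t, h9]

end

end Pool.Agent.RDP

end

section


namespace Pool.Agent.RDP

universe u v w

section

variable {k' E M N : Type u} [Field k'] [Field E] [IsAlgClosed E] [Field M] [Field N] [Algebra k' E]
  [Algebra E M] [Algebra M N] [Algebra E N] [Algebra k' M] [Algebra k' N] [IsScalarTower E M N]
  [IsScalarTower k' E M] [IsScalarTower k' E N] [IsScalarTower k' M N]
  {f g : MvPolynomial (Fin 2) E} {l : E} {𝒟 : Finset M} {θ : N} {n : Fin 3 → Polynomial M}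
  {δ : Polynomial M} {y : Fin 3 → N}
/-- algebraic over the field generated by `y` -/
private theorem lemC_gen_alg {k' E N : Type u} [Field k'] [Field E] [Field N] [Algebra k' E]
    [Algebra E N] [Algebra k' N] [IsScalarTower k' E N] (y : Fin 3 → N) (z : N)
    (hz : IsAlgebraic (Algebra.adjoin k' (Set.range y)) z) :
    IsAlgebraic (IntermediateField.adjoin E (Set.range y)) z := by
  have h0 : ∀ r : Algebra.adjoin k' (Set.range y),
      algebraMap (Algebra.adjoin k' (Set.range y)) N r ∈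
        (IntermediateField.adjoin E (Set.range y)).toSubfield := by
    rintro ⟨r, hr⟩
    show r ∈ IntermediateField.adjoin E (Set.range y)
    have h1 : Algebra.adjoin k' (Set.range y) ≤
        ((IntermediateField.adjoin E (Set.range y)).toSubalgebra.restrictScalars k') :=
      Algebra.adjoin_le (IntermediateField.subset_adjoin E _)
    exact h1 hr
  let φ : Algebra.adjoin k' (Set.range y) →+* IntermediateField.adjoin E (Set.range y) :=
    (algebraMap (Algebra.adjoin k' (Set.range y)) N).codRestrict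
      (IntermediateField.adjoin E (Set.range y)).toSubfield h0
  letI : Algebra (Algebra.adjoin k' (Set.range y)) (IntermediateField.adjoin E (Set.range y)) :=
    φ.toAlgebra
  haveI : IsScalarTower (Algebra.adjoin k' (Set.range y))
      (IntermediateField.adjoin E (Set.range y)) N := IsScalarTower.of_algebraMap_eq fun r => rfl
  refine IsAlgebraic.extendScalars (R := Algebra.adjoin k' (Set.range y)) ?_ hz
  intro a b hab
  have h1 := congrArg (algebraMap (IntermediateField.adjoin E (Set.range y)) N) hab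
  exact Subtype.ext h1

/-- `N` is finite over the field generated by `y` -/
private theorem lemC_gen_fin (h : RD (k' := k') f g l 𝒟 θ n δ y) :
    FiniteDimensional (IntermediateField.adjoin E (Set.range y)) N := by
  set M₀ := IntermediateField.adjoin E (Set.range y) with hM₀
  have h1 : ∀ z ∈ (insert θ ((algebraMap M N) '' (𝒟 : Set M)) : Set N), IsIntegral M₀ z := by
    intro z hz
    rcases hz with rfl | ⟨d, hd, rfl⟩
    · exact (lemC_gen_alg y _ h.alT).isIntegral
    · exact (lemC_gen_alg y _ (h.alD d hd)).isIntegral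
  haveI : Finite (insert θ ((algebraMap M N) '' (𝒟 : Set M)) : Set N) :=
    Set.Finite.to_subtype ((𝒟.finite_toSet.image _).insert θ)
  have h2 := IntermediateField.finiteDimensional_adjoin h1
  have h3 : IntermediateField.adjoin M₀ (insert θ ((algebraMap M N) '' (𝒟 : Set M)) : Set N) = ⊤ := by
    rw [eq_top_iff]
    intro z _
    set T := IntermediateField.adjoin M₀ (insert θ ((algebraMap M N) '' (𝒟 : Set M)) : Set N)
      with hT
    -- E ⊆ T
    have hE : ∀ e : E, algebraMap E N e ∈ T := by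
      intro e
      have : algebraMap E N e = algebraMap M₀ N (algebraMap E M₀ e) := rfl
      rw [this]
      exact T.algebraMap_mem _
    -- M ⊆ T
    have hM : ∀ m : M, algebraMap M N m ∈ T := by
      intro m
      have hm : m ∈ IntermediateField.adjoin E (𝒟 : Set M) := by
        rw [h.gD]; exact IntermediateField.mem_top
      have h4 : IntermediateField.adjoin E (𝒟 : Set M) ≤
          (T.restrictScalars E).comap (IsScalarTower.toAlgHom E M N) := by
        rw [IntermediateField.adjoin_le_iff]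
        intro d hd
        show algebraMap M N d ∈ T
        exact IntermediateField.subset_adjoin _ _ (Or.inr ⟨d, hd, rfl⟩)
      exact h4 hm
    have hz : z ∈ IntermediateField.adjoin M {θ} := by
      rw [h.gen]; exact IntermediateField.mem_top
    rw [IntermediateField.mem_adjoin_simple_iff] at hz
    obtain ⟨r, s, rfl⟩ := hz
    have hθ : θ ∈ T := IntermediateField.subset_adjoin _ _ (Or.inl rfl)
    have hr : ∀ r : Polynomial M, Polynomial.aeval θ r ∈ T := by
      intro r
      rw [Polynomial.aeval_eq_sum_range]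
      refine sum_mem fun i _ => ?_
      rw [Algebra.smul_def]
      exact mul_mem (hM _) (pow_mem hθ i)
    exact div_mem (hr r) (hr s)
  rw [h3] at h2
  exact (IntermediateField.topEquiv (F := M₀) (E := N)).toLinearEquiv.finiteDimensional

/-- the valuation rings over the curves, and norms -/
private theorem lemC_gen_norm (h2 : (2 : E) ≠ 0) (hF : Irreducible (sf f g l)) (hg : g ≠ 0)
    (h : RD (k' := k') f g l 𝒟 θ n δ y) (h₁ : MvPolynomial (Fin 3) E)
    (hd : MvPolynomial.rename Fin.castSucc g * MvPolynomial.X 2 ∣ h₁) :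
    ∃ 𝒲 : PrimeSpectrum (MvPolynomial (Fin 3) E) → Set (ValuationSubring N),
      (∀ J, Cu (sf f g l) J → h₁ ∉ J.asIdeal → (𝒲 J).Nonempty ∧ ∀ W ∈ 𝒲 J, Ov E W ∧ W ≠ ⊤ ∧
        ∀ a : MvPolynomial (Fin 3) E, MvPolynomial.aeval y a ∈ W ∧
          (MvPolynomial.aeval y a ∈ W.nonunits ↔ a ∈ J.asIdeal)) ∧
      ∀ π : N, π ≠ 0 → (∀ J, Cu (sf f g l) J → h₁ ∉ J.asIdeal → ∀ W ∈ 𝒲 J, π ∈ W) →
        ∃ a b : MvPolynomial (Fin 3) E, ¬ sf f g l ∣ a ∧ ¬ sf f g l ∣ b ∧
          ∀ J, Cu (sf f g l) J → h₁ ∉ J.asIdeal →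
            ((∃ W ∈ 𝒲 J, π ∈ W.nonunits) → (oJ (sf f g l) J.asIdeal b).toNat <
              (oJ (sf f g l) J.asIdeal a).toNat) ∧
            ((oJ (sf f g l) J.asIdeal a).toNat ≠ (oJ (sf f g l) J.asIdeal b).toNat →
              ∃ W ∈ 𝒲 J, π ∈ W.nonunits) := by
  classical
  haveI hfin := lemC_gen_fin h
  set M₀ := IntermediateField.adjoin E (Set.range y) with hM₀
  set y' : Fin 3 → M₀ := fun i => ⟨y i, IntermediateField.subset_adjoin E _ ⟨i, rfl⟩⟩ with hy'def
  have hinj : Function.Injective (algebraMap M₀ N) := (algebraMap M₀ N).injective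
  have hy' : ∀ a : MvPolynomial (Fin 3) E, algebraMap M₀ N (MvPolynomial.aeval y' a) =
      MvPolynomial.aeval y a := by
    intro a
    have h1 := MvPolynomial.comp_aeval_apply (f := y') (IntermediateField.val M₀) a
    exact h1
  have hy2' : ∀ a : MvPolynomial (Fin 2) E, algebraMap M₀ N (MvPolynomial.aeval ![y' 0, y' 1] a) =
      MvPolynomial.aeval ![y 0, y 1] a := by
    intro a
    have h1 := MvPolynomial.comp_aeval_apply (f := ![y' 0, y' 1]) (IntermediateField.val M₀) a
    have h3 : (fun i => (IntermediateField.val M₀) (![y' 0, y' 1] i)) = ![y 0, y 1] := by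
      funext i
      fin_cases i <;> rfl
    rw [h3] at h1
    exact h1
  have hai : AlgebraicIndependent E ![y' 0, y' 1] := by
    rw [algebraicIndependent_iff]
    intro p hp
    have h1 := h.ai
    rw [algebraicIndependent_iff] at h1
    refine h1 p ?_
    rw [← hy2', hp, map_zero]
  have heq : y' 2 ^ 2 * MvPolynomial.aeval ![y' 0, y' 1] g = MvPolynomial.aeval ![y' 0, y' 1] f -
      algebraMap E M₀ l * MvPolynomial.aeval ![y' 0, y' 1] g := by
    apply hinj
    rw [map_mul, map_sub, map_mul, hy2', hy2', map_pow]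
    exact h.eq
  have hgen : IntermediateField.adjoin E (Set.range y') = ⊤ := by
    apply IntermediateField.map_injective (IntermediateField.val M₀)
    rw [IntermediateField.adjoin_map]
    have h1 : (IntermediateField.val M₀) '' (Set.range y') = Set.range y := by
      rw [← Set.range_comp]
      rfl
    rw [h1]
    rw [← hM₀]
    ext x
    constructor
    · intro hx
      exact ⟨⟨x, hx⟩, IntermediateField.mem_top, rfl⟩
    · rintro ⟨x', _, rfl⟩
      exact x'.2
  have hV := fun J hJ hJh => valJ h2 f g l hF hg y' hai heq hgen h₁ hd J hJ hJh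
  have hker : ∀ a : MvPolynomial (Fin 3) E, MvPolynomial.aeval y' a = 0 ↔ sf f g l ∣ a :=
    fun a => ker3 f g l hF hg y' hai heq a
  set 𝒲 : PrimeSpectrum (MvPolynomial (Fin 3) E) → Set (ValuationSubring N) := fun J =>
    {W | ∀ z : M₀, algebraMap M₀ N z ∈ W ↔ ∃ a b : MvPolynomial (Fin 3) E, b ∉ J.asIdeal ∧
      z * MvPolynomial.aeval y' b = MvPolynomial.aeval y' a} with h𝒲
  refine ⟨𝒲, ?_, ?_⟩
  · intro J hJ hJh
    obtain ⟨V, o, hVo, hVt, hVE, hVm, hVn, hVo2⟩ := hV J hJ hJh
    refine ⟨?_, ?_⟩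
    · obtain ⟨W, hW⟩ := vext (L' := N) V
      exact ⟨W, fun z => (hW z).trans (hVm z)⟩
    · intro W hW
      have hWV : ∀ z : M₀, algebraMap M₀ N z ∈ W ↔ z ∈ V := fun z => (hW z).trans (hVm z).symm
      refine ⟨?_, ?_, ?_⟩
      · intro e
        have : algebraMap E N e = algebraMap M₀ N (algebraMap E M₀ e) := rfl
        rw [this, hWV]
        exact hVE e
      · intro hWt
        apply hVt
        rw [eq_top_iff]
        intro z _
        rw [← hWV, hWt]
        exact ValuationSubring.mem_top _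
      · intro a
        rw [← hy']
        refine ⟨?_, ?_⟩
        · rw [hW]
          exact ⟨a, 1, (Ideal.ne_top_iff_one _).1 J.isPrime.ne_top, by rw [map_one, mul_one]⟩
        · rw [← hVn a, ValuationSubring.mem_nonunits_iff_or, ValuationSubring.mem_nonunits_iff_or,
            ← map_inv₀, hWV, map_eq_zero]
  · intro π hπ0 hπ
    set ν := Algebra.norm M₀ π with hν
    have hν0 : ν ≠ 0 := Algebra.norm_ne_zero_iff.2 hπ0
    have hνm : ν ∈ IntermediateField.adjoin E (Set.range y') := by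
      rw [hgen]; exact IntermediateField.mem_top
    rw [IntermediateField.mem_adjoin_range_iff] at hνm
    obtain ⟨a, b, hab⟩ := hνm
    have hb0 : MvPolynomial.aeval y' b ≠ 0 := by
      intro hb
      rw [hb, div_zero] at hab
      exact hν0 hab
    have ha0 : MvPolynomial.aeval y' a ≠ 0 := by
      intro ha
      rw [ha, zero_div] at hab
      exact hν0 hab
    have haF : ¬ sf f g l ∣ a := fun hh => ha0 ((hker a).2 hh)
    have hbF : ¬ sf f g l ∣ b := fun hh => hb0 ((hker b).2 hh)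
    refine ⟨a, b, haF, hbF, ?_⟩
    intro J hJ hJh
    obtain ⟨V, o, hVo, hVt, hVE, hVm, hVn, hVo2⟩ := hV J hJ hJh
    have hcom : ∀ W : ValuationSubring N, W.comap (algebraMap M₀ N) = V ↔ W ∈ 𝒲 J := by
      intro W
      constructor
      · rintro rfl z
        rw [← hVm z]
        rfl
      · intro hW
        ext z
        rw [hVm z, ← hW z]
        rfl
    have hnv := normval V π hπ0 (fun W hW => hπ J hJ hJh W ((hcom W).1 hW))
    rw [← hν] at hnv
    have hoa := hVo2 a haF
    have hob := hVo2 b hbF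
    have hν1 : ν * MvPolynomial.aeval y' b = MvPolynomial.aeval y' a := by
      rw [hab, div_mul_cancel₀ _ hb0]
    have ho1 : o ν + o (MvPolynomial.aeval y' b) = o (MvPolynomial.aeval y' a) := by
      rw [← hVo.mul _ _ hν0 hb0, hν1]
    have ho2 : 0 ≤ o ν := (hVo.mem ν hν0).1 hnv.1
    have ho3 : ν ∈ V.nonunits ↔ 0 < o ν := by
      rw [ValuationSubring.mem_nonunits_iff_or]
      have h5 : o ν⁻¹ = - o ν := by
        have h6 := hVo.mul ν ν⁻¹ hν0 (inv_ne_zero hν0)
        have h7 := hVo.mul 1 1 one_ne_zero one_ne_zero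
        rw [mul_inv_cancel₀ hν0] at h6
        rw [one_mul] at h7
        linarith
      rw [hVo.mem _ (inv_ne_zero hν0), h5]
      constructor
      · rintro (h8 | h8)
        · exact absurd h8 hν0
        · omega
      · intro h8
        right
        omega
    refine ⟨?_, ?_⟩
    · rintro ⟨W, hW, hWπ⟩
      have h4 := ho3.1 (hnv.2.2 ⟨W, (hcom W).2 hW, hWπ⟩)
      omega
    · intro hne
      have h4 : 0 < o ν := by omega
      obtain ⟨W, hW, hWπ⟩ := hnv.2.1 (ho3.2 h4)
      exact ⟨W, (hcom W).1 hW, hWπ⟩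

private theorem lemC_gen_mul {N : Type u} [Field N] (W : ValuationSubring N) (x y : N)
    (hx : x ∈ W.nonunits) (hy : y ∈ W) : x * y ∈ W.nonunits := by
  rw [ValuationSubring.mem_nonunits_iff_or] at hx ⊢
  rcases hx with hx | hx
  · left; rw [hx, zero_mul]
  · by_cases hy0 : y = 0
    · left; rw [hy0, mul_zero]
    · right
      intro h1
      apply hx
      have h2 := mul_mem h1 hy
      rwa [mul_inv, mul_assoc, inv_mul_cancel₀ hy0, mul_one] at h2

private theorem lemC_gen_base {E N : Type u} [Field E] [Field N] [Algebra E N]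
    (W : ValuationSubring N) (hW : Ov E W) (e : E) (he : algebraMap E N e ∈ W.nonunits) :
    e = 0 := by
  by_contra h0
  rw [ValuationSubring.mem_nonunits_iff_or] at he
  rcases he with he | he
  · exact h0 ((map_eq_zero _).1 he)
  · apply he
    rw [← map_inv₀]
    exact hW _

/-- primitive polynomials -/
private theorem lemC_gen_prim {E M : Type u} [Field E] [Field M] [Algebra E M] (a₀ : M)
    (ha₀ : Transcendental E a₀) (hgen : IntermediateField.adjoin E {a₀} = ⊤) (p : Polynomial M)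
    (hp : p ≠ 0) : ∃ (P : Polynomial (Polynomial E)) (u : M), u ≠ 0 ∧
      P.map ((Polynomial.aeval a₀ : Polynomial E →ₐ[E] M) : Polynomial E →+* M) =
        Polynomial.C u * p ∧
      ∀ γ : E, P.map (Polynomial.evalRingHom γ) ≠ 0 := by
  classical
  set φ : Polynomial E →+* M := ((Polynomial.aeval a₀ : Polynomial E →ₐ[E] M) : Polynomial E →+* M)
    with hφ
  have hφi : ∀ d : Polynomial E, φ d = 0 → d = 0 := fun d hd =>
    (transcendental_iff.1 ha₀) d hd
  have h1 : ∀ p : Polynomial M, ∃ (d : Polynomial E) (P : Polynomial (Polynomial E)), d ≠ 0 ∧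
      P.map φ = Polynomial.C (φ d) * p := by
    intro p
    induction p using Polynomial.induction_on' with
    | add p q hp hq =>
      obtain ⟨d₁, P₁, hd₁, hP₁⟩ := hp
      obtain ⟨d₂, P₂, hd₂, hP₂⟩ := hq
      refine ⟨d₁ * d₂, Polynomial.C d₂ * P₁ + Polynomial.C d₁ * P₂, mul_ne_zero hd₁ hd₂, ?_⟩
      rw [Polynomial.map_add, Polynomial.map_mul, Polynomial.map_mul, hP₁, hP₂, Polynomial.map_C,
        Polynomial.map_C, map_mul, map_mul]
      ring
    | monomial n a =>
      have ha : a ∈ IntermediateField.adjoin E {a₀} := by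
        rw [hgen]; exact IntermediateField.mem_top
      rw [IntermediateField.mem_adjoin_simple_iff] at ha
      obtain ⟨r, s, hrs⟩ := ha
      by_cases hs : s = 0
      · refine ⟨1, 0, one_ne_zero, ?_⟩
        rw [hs, map_zero, div_zero] at hrs
        rw [hrs]
        simp
      · refine ⟨s, Polynomial.monomial n r, hs, ?_⟩
        have hs0 : φ s ≠ 0 := fun h => hs (hφi s h)
        rw [Polynomial.map_monomial, Polynomial.C_mul_monomial, hrs]
        congr 1
        exact (mul_div_cancel₀ (Polynomial.aeval a₀ r) hs0).symm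
  obtain ⟨d, P, hd, hP⟩ := h1 p
  letI : NormalizedGCDMonoid (Polynomial E) := Classical.choice inferInstance
  have hP0 : P ≠ 0 := by
    rintro rfl
    rw [Polynomial.map_zero] at hP
    rcases mul_eq_zero.1 hP.symm with h3 | h3
    · exact hd (hφi d (Polynomial.C_eq_zero.1 h3))
    · exact hp h3
  have hc0 : P.content ≠ 0 := fun h3 => hP0 (Polynomial.content_eq_zero_iff.1 h3)
  have hc1 : φ P.content ≠ 0 := fun h3 => hc0 (hφi _ h3)
  refine ⟨P.primPart, φ d / φ P.content, div_ne_zero (fun h3 => hd (hφi _ h3)) hc1, ?_, ?_⟩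
  · have h4 := P.eq_C_content_mul_primPart
    have h5 : P.map φ = Polynomial.C (φ P.content) * P.primPart.map φ := by
      conv_lhs => rw [h4]
      rw [Polynomial.map_mul, Polynomial.map_C]
    rw [h5] at hP
    have h6 : (Polynomial.C (φ P.content) : Polynomial M) ≠ 0 := fun h7 =>
      hc1 (Polynomial.C_eq_zero.1 h7)
    apply mul_left_cancel₀ h6
    rw [hP, ← mul_assoc, ← Polynomial.C_mul, mul_div_cancel₀ _ hc1]
  · intro γ hγ
    have h7 : Polynomial.C (Polynomial.X - Polynomial.C γ) ∣ P.primPart := by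
      rw [Polynomial.C_dvd_iff_dvd_coeff]
      intro i
      rw [Polynomial.dvd_iff_isRoot, Polynomial.IsRoot.def]
      have h8 := congrArg (fun Q => Polynomial.coeff Q i) hγ
      simpa using h8
    exact Polynomial.not_isUnit_X_sub_C γ (P.isPrimitive_primPart _ h7)

/-- congruences between polynomials -/
private theorem lemC_gen_cong {E M N : Type u} [Field E] [Field M] [Field N] [Algebra E M]
    [Algebra M N] [Algebra E N] [IsScalarTower E M N] (a₀ : M) (θ : N)
    (P : Polynomial (Polynomial E)) (W : ValuationSubring N) (hE : Ov E W) (hθ : θ ∈ W)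
    (ha : algebraMap M N a₀ ∈ W) :
    Polynomial.aeval θ
      (P.map ((Polynomial.aeval a₀ : Polynomial E →ₐ[E] M) : Polynomial E →+* M)) ∈ W ∧
    ∀ ρ : Algebra.adjoin E ((({a₀} : Finset M)) : Set M) →ₐ[E] E,
      (∀ z : Algebra.adjoin E ((({a₀} : Finset M)) : Set M),
        algebraMap M N z - algebraMap E N (ρ z) ∈ W.nonunits) → ∃ γ : E,
      Polynomial.aeval θ
        (P.map ((Polynomial.aeval a₀ : Polynomial E →ₐ[E] M) : Polynomial E →+* M)) -
        Polynomial.aeval θ (P.map (Polynomial.evalRingHom γ)) ∈ W.nonunits := by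
  have h1 : Polynomial.aeval θ
      (P.map ((Polynomial.aeval a₀ : Polynomial E →ₐ[E] M) : Polynomial E →+* M)) =
      ∑ i ∈ Finset.range (P.natDegree + 1),
        algebraMap M N (Polynomial.aeval a₀ (P.coeff i)) * θ ^ i := by
    rw [Polynomial.aeval_def, Polynomial.eval₂_map, Polynomial.eval₂_eq_sum_range]
    rfl
  have h2 : ∀ γ : E, Polynomial.aeval θ (P.map (Polynomial.evalRingHom γ)) =
      ∑ i ∈ Finset.range (P.natDegree + 1),
        algebraMap E N (Polynomial.eval γ (P.coeff i)) * θ ^ i := by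
    intro γ
    rw [Polynomial.aeval_def, Polynomial.eval₂_map, Polynomial.eval₂_eq_sum_range]
    rfl
  refine ⟨?_, ?_⟩
  · rw [h1]
    refine sum_mem fun i _ => mul_mem ?_ (pow_mem hθ i)
    have h3 : algebraMap M N (Polynomial.aeval a₀ (P.coeff i)) =
        Polynomial.aeval (algebraMap M N a₀) (P.coeff i) :=
      (Polynomial.aeval_algebraMap_apply N a₀ (P.coeff i)).symm
    rw [h3, Polynomial.aeval_eq_sum_range]
    refine sum_mem fun j _ => ?_
    rw [Algebra.smul_def]
    exact mul_mem (hE _) (pow_mem ha j)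
  · intro ρ hρ
    have ha' : a₀ ∈ Algebra.adjoin E ((({a₀} : Finset M)) : Set M) :=
      Algebra.subset_adjoin (by simp)
    set a' : Algebra.adjoin E ((({a₀} : Finset M)) : Set M) := ⟨a₀, ha'⟩ with ha'def
    refine ⟨ρ a', ?_⟩
    rw [h1, h2, ← Finset.sum_sub_distrib]
    refine sum_mem fun i _ => ?_
    rw [← sub_mul]
    refine lemC_gen_mul W _ _ ?_ (pow_mem hθ i)
    have h3 := hρ (Polynomial.aeval a' (P.coeff i))
    have h4 : ((Polynomial.aeval a' (P.coeff i) :
        Algebra.adjoin E ((({a₀} : Finset M)) : Set M)) : M) =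
        Polynomial.aeval a₀ (P.coeff i) := by
      have h5 := Polynomial.aeval_algHom_apply
        (Subalgebra.val (Algebra.adjoin E ((({a₀} : Finset M)) : Set M))) a' (P.coeff i)
      exact h5.symm
    have h6 : ρ (Polynomial.aeval a' (P.coeff i)) = Polynomial.eval (ρ a') (P.coeff i) := by
      rw [← Polynomial.aeval_algHom_apply, Polynomial.coe_aeval_eq_eval]
    rw [h4, h6] at h3
    exact h3

theorem lemC_gen (h2 : (2 : E) ≠ 0) (hF : Irreducible (sf f g l)) (hg : g ≠ 0) (a₀ : M)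
    (ha₀ : Transcendental E a₀) (h : RD (k' := k') f g l {a₀} θ n δ y)
    (h₀ h₁ : MvPolynomial (Fin 3) E) (hh : RH {a₀} θ δ y h₀)
    (hh₁ : h₁ = h₀ * (MvPolynomial.rename Fin.castSucc g * MvPolynomial.X 2))
    (J₀ : PrimeSpectrum (MvPolynomial (Fin 3) E)) (hJ₀ : Cu (sf f g l) J₀)
    (hn : h₁ ∉ J₀.asIdeal) :
    ∃ a b : MvPolynomial (Fin 3) E, ¬ sf f g l ∣ a ∧ ¬ sf f g l ∣ b ∧
      (oJ (sf f g l) J₀.asIdeal b).toNat < (oJ (sf f g l) J₀.asIdeal a).toNat ∧
      ∀ J : PrimeSpectrum (MvPolynomial (Fin 3) E), Cu (sf f g l) J → J ≠ J₀ →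
        (oJ (sf f g l) J.asIdeal a).toNat ≠ (oJ (sf f g l) J.asIdeal b).toNat →
        h₁ ∈ J.asIdeal := by
  classical
  obtain ⟨𝒲, h𝒲1, h𝒲2⟩ := lemC_gen_norm h2 hF hg h h₁ ⟨h₀, by rw [hh₁, mul_comm]⟩
  have hh0 : ∀ J : PrimeSpectrum (MvPolynomial (Fin 3) E), h₁ ∉ J.asIdeal → h₀ ∉ J.asIdeal := by
    intro J hJh hc
    apply hJh
    rw [hh₁]
    exact Ideal.mul_mem_right _ _ hc
  have hvc : ∀ J, Cu (sf f g l) J → h₁ ∉ J.asIdeal → ∀ W ∈ 𝒲 J,
      θ ∈ W ∧ algebraMap M N a₀ ∈ W ∧ (¬ Ov M W →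
        ∃ ρ : Algebra.adjoin E ((({a₀} : Finset M)) : Set M) →ₐ[E] E,
          (∀ z : Algebra.adjoin E ((({a₀} : Finset M)) : Set M),
            algebraMap M N z - algebraMap E N (ρ z) ∈ W.nonunits) ∧
          FT ρ n δ J.asIdeal ∧ ∀ q : Polynomial E, q ≠ 0 →
            Polynomial.aeval θ q ∉ W.nonunits) := by
    intro J hJ hJh W hW
    obtain ⟨hWE, hWt, hWJ⟩ := (h𝒲1 J hJ hJh).2 W hW
    obtain ⟨v1, v2, v3⟩ := vcase h h₀ hh J hJ.nm (hh0 J hJh) W hWE hWJ
    refine ⟨v1, v2 a₀ (by simp), fun hM => v3 ?_⟩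
    by_contra hc
    push Not at hc
    exact hM hc
  have hJJ : ∀ J, Cu (sf f g l) J → h₁ ∉ J.asIdeal → ∀ W, W ∈ 𝒲 J → W ∈ 𝒲 J₀ → J = J₀ := by
    intro J hJ hJh W hW hW0
    apply PrimeSpectrum.ext
    ext a
    rw [← (((h𝒲1 J hJ hJh).2 W hW).2.2 a).2, (((h𝒲1 J₀ hJ₀ hn).2 W hW0).2.2 a).2]
  obtain ⟨W₀, hW₀⟩ := (h𝒲1 J₀ hJ₀ hn).1
  obtain ⟨hE₀, ht₀, hWJ₀⟩ := (h𝒲1 J₀ hJ₀ hn).2 W₀ hW₀
  obtain ⟨hθ₀, haW₀, hv₀⟩ := hvc J₀ hJ₀ hn W₀ hW₀
  by_cases hM₀ : Ov M W₀
  · obtain ⟨p, hp1, hp2, hp3⟩ := hcase θ h.th h.gen W₀ hM₀ ht₀ hθ₀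
    have hgD : IntermediateField.adjoin E {a₀} = ⊤ := by
      have := h.gD
      rwa [Finset.coe_singleton] at this
    obtain ⟨P, u, hu, hPu, hPγ⟩ := lemC_gen_prim a₀ ha₀ hgD p hp1.ne_zero
    set q := P.map ((Polynomial.aeval a₀ : Polynomial E →ₐ[E] M) : Polynomial E →+* M) with hq
    have hπ0 : Polynomial.aeval θ q ≠ 0 := by
      intro h0
      have h5 := (transcendental_iff.1 h.th) q h0
      rw [h5] at hPu
      rcases mul_eq_zero.1 hPu.symm with h6 | h6
      · exact hu (Polynomial.C_eq_zero.1 h6)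
      · exact hp1.ne_zero h6
    obtain ⟨a, b, ha, hb, hab⟩ := h𝒲2 (Polynomial.aeval θ q) hπ0 (by
      intro J hJ hJh W hW
      obtain ⟨hWE, hWt, hWJ⟩ := (h𝒲1 J hJ hJh).2 W hW
      obtain ⟨w1, w2, w3⟩ := hvc J hJ hJh W hW
      exact (lemC_gen_cong a₀ θ P W hWE w1 w2).1)
    refine ⟨a, b, ha, hb, (hab J₀ hJ₀ hn).1 ⟨W₀, hW₀, (hp2 q).2 ⟨Polynomial.C u, ?_⟩⟩, ?_⟩
    · rw [hPu, mul_comm]
    · intro J hJ hJne hne
      by_contra hJh
      obtain ⟨W, hW, hWπ⟩ := (hab J hJ hJh).2 hne
      obtain ⟨hWE, hWt, hWJ⟩ := (h𝒲1 J hJ hJh).2 W hW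
      obtain ⟨w1, w2, w3⟩ := hvc J hJ hJh W hW
      by_cases hMW : Ov M W
      · have h7 : Polynomial.aeval θ p ∈ W.nonunits := by
          have h8 : Polynomial.aeval θ p = Polynomial.aeval θ q * algebraMap M N u⁻¹ := by
            rw [hPu, map_mul, Polynomial.aeval_C, mul_comm, ← mul_assoc, ← map_mul,
              inv_mul_cancel₀ hu, map_one, one_mul]
          rw [h8]
          exact lemC_gen_mul W _ _ hWπ (hMW _)
        have h9 := hp3 W hMW hWt h7
        rw [h9] at hW
        exact hJne (hJJ J hJ hJh W₀ hW hW₀)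
      · obtain ⟨ρ, hρ1, hρ2, hρ3⟩ := w3 hMW
        obtain ⟨γ, hγ⟩ := (lemC_gen_cong a₀ θ P W hWE w1 w2).2 ρ hρ1
        apply hρ3 _ (hPγ γ)
        have h8 := sub_mem hWπ hγ
        rwa [sub_sub_cancel] at h8
  · obtain ⟨ρ₀, hρ1, hρ2, hρ3⟩ := hv₀ hM₀
    have ha' : a₀ ∈ Algebra.adjoin E ((({a₀} : Finset M)) : Set M) :=
      Algebra.subset_adjoin (by simp)
    set a' : Algebra.adjoin E ((({a₀} : Finset M)) : Set M) := ⟨a₀, ha'⟩ with ha'def
    set m : M := a₀ - algebraMap E M (ρ₀ a') with hm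
    have hm0 : m ≠ 0 := by
      intro h0
      have h5 : Polynomial.aeval a₀ (Polynomial.X - Polynomial.C (ρ₀ a')) = 0 := by
        rw [map_sub, Polynomial.aeval_X, Polynomial.aeval_C]
        exact h0
      have h6 := (transcendental_iff.1 ha₀) _ h5
      exact Polynomial.X_sub_C_ne_zero _ h6
    have hmE : algebraMap M N m = algebraMap M N a₀ - algebraMap E N (ρ₀ a') := by
      rw [hm, map_sub, ← IsScalarTower.algebraMap_apply]
    have hπ0 : algebraMap M N m ≠ 0 := fun h0 => hm0 ((map_eq_zero _).1 h0)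
    obtain ⟨a, b, ha, hb, hab⟩ := h𝒲2 (algebraMap M N m) hπ0 (by
      intro J hJ hJh W hW
      obtain ⟨hWE, hWt, hWJ⟩ := (h𝒲1 J hJ hJh).2 W hW
      obtain ⟨w1, w2, w3⟩ := hvc J hJ hJh W hW
      rw [hmE]
      exact sub_mem w2 (hWE _))
    have hπ1 : algebraMap M N m ∈ W₀.nonunits := by
      rw [hmE]
      exact hρ1 a'
    refine ⟨a, b, ha, hb, (hab J₀ hJ₀ hn).1 ⟨W₀, hW₀, hπ1⟩, ?_⟩
    intro J hJ hJne hne
    by_contra hJh
    obtain ⟨W, hW, hWπ⟩ := (hab J hJ hJh).2 hne
    obtain ⟨hWE, hWt, hWJ⟩ := (h𝒲1 J hJ hJh).2 W hW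
    obtain ⟨w1, w2, w3⟩ := hvc J hJ hJh W hW
    have hMW : ¬ Ov M W := by
      intro hc
      rw [ValuationSubring.mem_nonunits_iff_or] at hWπ
      rcases hWπ with h5 | h5
      · exact hπ0 h5
      · apply h5
        rw [← map_inv₀]
        exact hc _
    obtain ⟨ρ, hr1, hr2, hr3⟩ := w3 hMW
    have hγ : ρ a' = ρ₀ a' := by
      have h5 := hr1 a'
      have h6 := sub_mem hWπ h5
      have h7 : algebraMap M N m - (algebraMap M N (a' : M) - algebraMap E N (ρ a')) =
          algebraMap E N (ρ a' - ρ₀ a') := by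
        rw [hmE, map_sub]
        ring
      rw [h7] at h6
      exact sub_eq_zero.1 (lemC_gen_base W hWE _ h6)
    have hρρ : ρ = ρ₀ := by
      apply AlgHom.adjoin_ext
      intro x hx
      have hx' : x = a₀ := by simpa using hx
      subst hx'
      exact hγ
    rw [hρρ] at hr2
    have hk : Algebra.adjoin k' ((({a₀} : Finset M)) : Set M) ≤
        (Algebra.adjoin E ((({a₀} : Finset M)) : Set M)).restrictScalars k' :=
      Algebra.adjoin_le Algebra.subset_adjoin
    apply hJne
    apply PrimeSpectrum.ext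
    exact ft_uniq ρ₀ n δ (fun i m => hk (h.cn i m)) (fun m => hk (h.cd m)) _ _ hr2 hρ2

end

end Pool.Agent.RDP

end
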