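import Pool.Agent.RDM.Ru
import Pool.Agent.RDM.B4
import Pool.Agent.RDM.A1

/-!
# Fields of definition of curves
-/

set_option autoImplicit false

namespace Pool.Agent.RDP

universe u v w

section

open Pool.Agent.TBR Polynomial

section

/-- the combination of monomials -/
private noncomputable def fod_A {E : Type u} [Field E] {n : ℕ} {κ : Type v}
    (a : κ → (Fin n →₀ ℕ)) (c : κ →₀ E) : MvPolynomial (Fin n) E :=
  Finsupp.linearCombination E (fun b => MvPolynomial.monomial (a b) (1 : E)) c

private theorem fod_map {k E : Type u} [Field k] [Field E] [Algebra k E] {n : ℕ} {κ : Type v}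
    (a : κ → (Fin n →₀ ℕ)) (σ : E ≃ₐ[k] E) (c : κ →₀ E) :
    MvPolynomial.map (σ : E →+* E) (fod_A a c) =
      fod_A a (c.mapRange σ (map_zero σ)) := by
  unfold fod_A
  rw [Finsupp.linearCombination_apply, Finsupp.linearCombination_apply,
    Finsupp.sum_mapRange_index (fun b => by rw [zero_smul]), Finsupp.sum, Finsupp.sum, map_sum]
  refine Finset.sum_congr rfl fun b _ => ?_
  rw [MvPolynomial.smul_monomial, MvPolynomial.smul_monomial, MvPolynomial.map_monomial,
    smul_eq_mul, smul_eq_mul, mul_one, mul_one]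
  rfl

private theorem fod_data {E : Type u} [Field E] {n : ℕ} (J : Ideal (MvPolynomial (Fin n) E)) :
    ∃ (κ : Type) (a : κ → (Fin n →₀ ℕ)) (c : (Fin n →₀ ℕ) → (κ →₀ E)),
      (∀ d : κ →₀ E, fod_A a d ∈ J → d = 0) ∧
      (∀ m, MvPolynomial.monomial m (1 : E) - fod_A a (c m) ∈ J) ∧
      J = Ideal.span (Set.range fun m => MvPolynomial.monomial m (1 : E) - fod_A a (c m)) := by
  let π : MvPolynomial (Fin n) E →ₗ[E] (MvPolynomial (Fin n) E ⧸ J) :=
    (Ideal.Quotient.mkₐ E J).toLinearMap
  have hπ : ∀ x, π x = 0 ↔ x ∈ J := fun x => Ideal.Quotient.eq_zero_iff_mem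
  obtain ⟨κ, a, -, hsp, hli⟩ := exists_linearIndependent' E
    (fun m : Fin n →₀ ℕ => π (MvPolynomial.monomial m (1 : E)))
  have hA : ∀ d : κ →₀ E, π (fod_A a d) = Finsupp.linearCombination E
      ((fun m : Fin n →₀ ℕ => π (MvPolynomial.monomial m (1 : E))) ∘ a) d := by
    intro d
    unfold fod_A
    rw [Finsupp.linearCombination_apply, Finsupp.linearCombination_apply, Finsupp.sum,
      Finsupp.sum, map_sum]
    refine Finset.sum_congr rfl fun b _ => ?_
    rw [map_smul]
    rfl
  have hc : ∀ m : Fin n →₀ ℕ, ∃ c : κ →₀ E, Finsupp.linearCombination E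
      ((fun m : Fin n →₀ ℕ => π (MvPolynomial.monomial m (1 : E))) ∘ a) c =
        π (MvPolynomial.monomial m (1 : E)) := by
    intro m
    have h1 : π (MvPolynomial.monomial m (1 : E)) ∈ Submodule.span E
        (Set.range ((fun m : Fin n →₀ ℕ => π (MvPolynomial.monomial m (1 : E))) ∘ a)) := by
      rw [hsp]
      exact Submodule.subset_span ⟨m, rfl⟩
    exact (Finsupp.mem_span_range_iff_exists_finsupp.mp h1).imp fun c hc => by
      rw [← hc, Finsupp.linearCombination_apply]
  choose c hc using hc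
  have h1 : ∀ d : κ →₀ E, fod_A a d ∈ J → d = 0 := by
    intro d hd
    have h2 := (hπ _).mpr hd
    rw [hA] at h2
    exact (linearIndependent_iff.mp hli) d h2
  have h2 : ∀ m, MvPolynomial.monomial m (1 : E) - fod_A a (c m) ∈ J := by
    intro m
    rw [← hπ, map_sub, hA, hc, sub_self]
  refine ⟨κ, a, c, h1, h2, le_antisymm ?_ ?_⟩
  · intro h hh
    have h3 : h = ∑ m ∈ h.support, h.coeff m • (MvPolynomial.monomial m (1 : E) - fod_A a (c m)) +
        fod_A a (∑ m ∈ h.support, h.coeff m • c m) := by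
      have h4 : fod_A a (∑ m ∈ h.support, h.coeff m • c m) =
          ∑ m ∈ h.support, h.coeff m • fod_A a (c m) := by
        unfold fod_A
        rw [map_sum]
        refine Finset.sum_congr rfl fun b _ => ?_
        rw [map_smul]
      rw [h4, ← Finset.sum_add_distrib]
      conv_lhs => rw [MvPolynomial.as_sum h]
      refine Finset.sum_congr rfl fun m _ => ?_
      rw [smul_sub, sub_add_cancel, MvPolynomial.smul_monomial, smul_eq_mul, mul_one]
    have h5 : ∑ m ∈ h.support, h.coeff m • (MvPolynomial.monomial m (1 : E) - fod_A a (c m)) ∈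
        Ideal.span (Set.range fun m => MvPolynomial.monomial m (1 : E) - fod_A a (c m)) := by
      refine Submodule.sum_mem _ fun m _ => ?_
      rw [MvPolynomial.smul_eq_C_mul]
      exact Ideal.mul_mem_left _ _ (Ideal.subset_span ⟨m, rfl⟩)
    have h6 : ∑ m ∈ h.support, h.coeff m • (MvPolynomial.monomial m (1 : E) - fod_A a (c m)) ∈ J := by
      refine Submodule.sum_mem _ fun m _ => ?_
      rw [MvPolynomial.smul_eq_C_mul]
      exact Ideal.mul_mem_left _ _ (h2 m)
    have h7 : fod_A a (∑ m ∈ h.support, h.coeff m • c m) ∈ J := by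
      have h8 : fod_A a (∑ m ∈ h.support, h.coeff m • c m) = h -
          ∑ m ∈ h.support, h.coeff m • (MvPolynomial.monomial m (1 : E) - fod_A a (c m)) :=
        eq_sub_of_add_eq' h3.symm
      rw [h8]
      exact Ideal.sub_mem _ hh h6
    rw [h1 _ h7] at h3
    rw [h3]
    refine Ideal.add_mem _ h5 ?_
    have h9 : fod_A a (0 : κ →₀ E) = 0 := by
      unfold fod_A
      rw [map_zero]
    rw [h9]
    exact Ideal.zero_mem _
  · rw [Ideal.span_le]
    rintro _ ⟨m, rfl⟩
    exact h2 m

theorem fod {k E : Type u} [Field k] [Field E] [IsAlgClosed E] [Algebra k E] {n : ℕ}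
    (J : Ideal (MvPolynomial (Fin n) E)) (κ₀ : IntermediateField k E)
    (hfin : {J' : Ideal (MvPolynomial (Fin n) E) | ∃ σ ∈ Fx k (κ₀ : Set E),
      J' = J.map (MvPolynomial.map (σ : E →+* E))}.Finite) :
    ∃ S : Finset E, (∀ x ∈ S, IsAlgebraic κ₀ x) ∧ ∀ σ ∈ Fx k ((κ₀ : Set E) ∪ S),
      ∀ h : MvPolynomial (Fin n) E, h ∈ J ↔ MvPolynomial.map (σ : E →+* E) h ∈ J := by
  classical
  obtain ⟨κ, a, c, h1, h2, h3⟩ := fod_data J
  have hfg : (Submodule.span (MvPolynomial (Fin n) E)
      (Set.range fun m => MvPolynomial.monomial m (1 : E) - fod_A a (c m))).FG :=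
    IsNoetherian.noetherian _
  obtain ⟨s', hs', hsp⟩ := (Submodule.fg_span_iff_fg_span_finset_subset _).mp hfg
  rw [← Set.image_univ, Finset.subset_set_image_iff] at hs'
  obtain ⟨T, -, hT⟩ := hs'
  have hsym : ∀ (σ : E ≃ₐ[k] E) (h : MvPolynomial (Fin n) E),
      MvPolynomial.map (σ.symm : E →+* E) (MvPolynomial.map (σ : E →+* E) h) = h := by
    intro σ h
    rw [MvPolynomial.map_map]
    have : ((σ.symm : E →+* E)).comp (σ : E →+* E) = RingHom.id E := by
      ext x
      exact σ.symm_apply_apply x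
    rw [this, MvPolynomial.map_id]
  refine ⟨T.biUnion fun m => (c m).support.image fun b => c m b, ?_, ?_⟩
  · intro x hx
    rw [Finset.mem_biUnion] at hx
    obtain ⟨m, -, hx⟩ := hx
    rw [Finset.mem_image] at hx
    obtain ⟨b, -, rfl⟩ := hx
    apply finorb (k := k)
    have key : ∀ σ τ : E ≃ₐ[k] E, J.map (MvPolynomial.map (σ : E →+* E)) =
        J.map (MvPolynomial.map (τ : E →+* E)) → σ (c m b) = τ (c m b) := by
      intro σ τ hst
      have hm : ∀ ρ : E ≃ₐ[k] E, MvPolynomial.monomial m (1 : E) -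
          fod_A a ((c m).mapRange ρ (map_zero ρ)) ∈ J.map (MvPolynomial.map (ρ : E →+* E)) := by
        intro ρ
        have := Ideal.mem_map_of_mem (MvPolynomial.map (ρ : E →+* E)) (h2 m)
        rwa [map_sub, MvPolynomial.map_monomial, map_one, fod_map] at this
      have h4 := Ideal.sub_mem _ (hm σ) (hst ▸ hm τ)
      rw [sub_sub_sub_cancel_left] at h4
      have h5 : fod_A a ((c m).mapRange τ (map_zero τ)) - fod_A a ((c m).mapRange σ (map_zero σ)) =
          fod_A a ((c m).mapRange τ (map_zero τ) - (c m).mapRange σ (map_zero σ)) := by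
        unfold fod_A
        rw [map_sub]
      rw [h5] at h4
      have hsur : Function.Surjective (MvPolynomial.map (σ := Fin n) (σ : E →+* E)) :=
        MvPolynomial.map_surjective _ σ.surjective
      rw [Ideal.mem_map_iff_of_surjective _ hsur] at h4
      obtain ⟨h, hh, he⟩ := h4
      have h6 := hsym σ h
      rw [he, fod_map] at h6
      rw [← h6] at hh
      have h7 := h1 _ hh
      have h8 := DFunLike.congr_fun h7 b
      rw [Finsupp.mapRange_apply, Finsupp.sub_apply, Finsupp.mapRange_apply,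
        Finsupp.mapRange_apply, Finsupp.zero_apply, EmbeddingLike.map_eq_zero_iff,
        sub_eq_zero] at h8
      exact h8.symm
    have hch : ∀ J' : {J' : Ideal (MvPolynomial (Fin n) E) | ∃ σ ∈ Fx k (κ₀ : Set E),
        J' = J.map (MvPolynomial.map (σ : E →+* E))}, ∃ σ : E ≃ₐ[k] E,
        (J' : Ideal (MvPolynomial (Fin n) E)) = J.map (MvPolynomial.map (σ : E →+* E)) := by
      rintro ⟨J', σ, -, hσ⟩
      exact ⟨σ, hσ⟩
    choose F hF using hch
    have : Finite {J' : Ideal (MvPolynomial (Fin n) E) | ∃ σ ∈ Fx k (κ₀ : Set E),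
        J' = J.map (MvPolynomial.map (σ : E →+* E))} := hfin
    refine (Set.finite_range fun J' => F J' (c m b)).subset ?_
    rintro y ⟨σ, hσ, rfl⟩
    refine ⟨⟨J.map (MvPolynomial.map (σ : E →+* E)), σ, hσ, rfl⟩, ?_⟩
    exact key _ _ (hF _).symm
  · have hfix : ∀ σ ∈ Fx k ((κ₀ : Set E) ∪ ((T.biUnion fun m => (c m).support.image fun b =>
        c m b : Finset E) : Set E)), ∀ h ∈ J, MvPolynomial.map (σ : E →+* E) h ∈ J := by
      intro σ hσ
      show J ≤ J.comap (MvPolynomial.map (σ : E →+* E))
      have h4 : J = Ideal.span (s' : Set (MvPolynomial (Fin n) E)) := by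
        rw [h3]; exact hsp
      conv_lhs => rw [h4]
      rw [Ideal.span_le]
      intro r hr
      rw [← hT, Finset.mem_coe, Finset.mem_image] at hr
      obtain ⟨m, hm, rfl⟩ := hr
      show MvPolynomial.map (σ : E →+* E) (MvPolynomial.monomial m (1 : E) - fod_A a (c m)) ∈ J
      rw [map_sub, MvPolynomial.map_monomial, map_one, fod_map]
      have h5 : (c m).mapRange σ (map_zero σ) = c m := by
        ext b
        rw [Finsupp.mapRange_apply]
        by_cases hb : c m b = 0
        · rw [hb, map_zero]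
        · apply hσ
          right
          rw [Finset.mem_coe, Finset.mem_biUnion]
          exact ⟨m, hm, Finset.mem_image.mpr ⟨b, Finsupp.mem_support_iff.mpr hb, rfl⟩⟩
      rw [h5]
      exact h2 m
    intro σ hσ h
    refine ⟨hfix σ hσ h, fun hh => ?_⟩
    have h4 := hfix σ⁻¹ (inv_mem hσ) _ hh
    have h5 : MvPolynomial.map ((σ⁻¹ : E ≃ₐ[k] E) : E →+* E)
        (MvPolynomial.map (σ : E →+* E) h) = h := hsym σ h
    rwa [h5] at h4

end

end

section

open Pool.Agent.TBR Polynomial

section

open scoped IntermediateField.algebraAdjoinAdjoin in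
private theorem alwk_td {κ Ω : Type u} [Field κ] [Field Ω] [Algebra κ Ω] (L : IntermediateField κ Ω)
    (t : Ω) (htL : t ∈ L) (h : ∀ x ∈ L, IsAlgebraic (IntermediateField.adjoin κ {t}) x) :
    Algebra.trdeg κ L ≤ 1 := by
  have hmap : (Algebra.adjoin κ {(⟨t, htL⟩ : L)}).map L.val = Algebra.adjoin κ {t} := by
    rw [AlgHom.map_adjoin]
    simp
  let f : Algebra.adjoin κ {(⟨t, htL⟩ : L)} →ₐ[κ] Algebra.adjoin κ {t} :=
    (L.val.comp (Subalgebra.val _)).codRestrict (Algebra.adjoin κ {t}) (fun z => by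
      rw [← hmap]
      exact ⟨z, z.2, rfl⟩)
  have hf : Function.Surjective f := by
    rintro ⟨y, hy⟩
    rw [← hmap] at hy
    obtain ⟨z, hz, hzy⟩ := hy
    exact ⟨⟨z, hz⟩, Subtype.ext hzy⟩
  have : Algebra.IsAlgebraic (Algebra.adjoin κ {(⟨t, htL⟩ : L)}) L := by
    refine ⟨fun x => ?_⟩
    refine IsAlgebraic.of_ringHom_of_comp_eq (S := Algebra.adjoin κ {t}) (B := Ω)
      (f : _ →+* _) (L.val : L →+* Ω) ?_ hf L.val.injective rfl
    have h1 := h (x : Ω) x.2
    exact (IsFractionRing.isAlgebraic_iff (Algebra.adjoin κ {t})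
      (IntermediateField.adjoin κ {t}) Ω).2 h1
  have h2 := Algebra.IsAlgebraic.trdeg_le_cardinalMk κ {(⟨t, htL⟩ : L)}
  simpa using h2

theorem alwk {k E : Type u} [Field k] [Field E] [Algebra k E] (l : E) (S : Finset E)
    (hS : ∀ x ∈ S, IsAlgebraic (IntermediateField.adjoin k {l}) x)
    (J : Ideal (MvPolynomial (Fin 3) E))
    (hJ : ∀ σ ∈ Fx k (insert l (S : Set E)), ∀ h : MvPolynomial (Fin 3) E,
      h ∈ J ↔ MvPolynomial.map (σ : E →+* E) h ∈ J) :
    ∃ κ : IntermediateField k E, Alw k l J κ := by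
  refine ⟨IntermediateField.adjoin k (insert l (S : Set E)),
    IntermediateField.fg_adjoin_of_finite (S.finite_toSet.insert l), ?_,
    IntermediateField.subset_adjoin _ _ (Set.mem_insert _ _), fun σ hσ h =>
      hJ σ (fun x hx => hσ x (IntermediateField.subset_adjoin _ _ hx)) h⟩
  refine alwk_td _ l (IntermediateField.subset_adjoin _ _ (Set.mem_insert _ _)) ?_
  have h1 : IntermediateField.adjoin k (insert l (S : Set E)) ≤
      (algebraicClosure (IntermediateField.adjoin k {l}) E).restrictScalars k := by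
    rw [IntermediateField.adjoin_le_iff]
    intro y hy
    rcases Set.mem_insert_iff.1 hy with hy | hy
    · show y ∈ algebraicClosure (IntermediateField.adjoin k {l}) E
      rw [mem_algebraicClosure_iff, hy]
      exact isAlgebraic_algebraMap (⟨l, IntermediateField.mem_adjoin_simple_self k l⟩ :
        IntermediateField.adjoin k {l})
    · show y ∈ algebraicClosure (IntermediateField.adjoin k {l}) E
      rw [mem_algebraicClosure_iff]
      exact hS y hy
  intro x hx
  exact (mem_algebraicClosure_iff (F := IntermediateField.adjoin k {l})).1 (h1 hx)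

end

end

section

open Pool.Agent.TBR Polynomial

section

private theorem cuA_td {E : Type u} [Field E] (F : MvPolynomial (Fin 3) E) (hF : F ≠ 0)
    (hp : (Ideal.span {F}).IsPrime) :
    Algebra.trdeg E (MvPolynomial (Fin 3) E ⧸ Ideal.span {F}) ≤ 2 := by
  classical
  have hdom : IsDomain (MvPolynomial (Fin 3) E ⧸ Ideal.span {F}) :=
    Ideal.Quotient.isDomain _
  let x : Fin 3 → MvPolynomial (Fin 3) E ⧸ Ideal.span {F} := fun i =>
    Ideal.Quotient.mk _ (MvPolynomial.X i)
  have hx : ∀ h : MvPolynomial (Fin 3) E, MvPolynomial.aeval x h =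
      Ideal.Quotient.mk (Ideal.span {F}) h := by
    intro h
    have h1 : MvPolynomial.aeval x = Ideal.Quotient.mkₐ E (Ideal.span {F}) := by
      apply MvPolynomial.algHom_ext
      intro i
      rw [MvPolynomial.aeval_X]
      rfl
    rw [h1]
    rfl
  have htop : Algebra.adjoin E (Set.range x) = ⊤ := by
    rw [eq_top_iff]
    rintro y -
    obtain ⟨h, rfl⟩ := Ideal.Quotient.mk_surjective y
    rw [← hx h, Algebra.adjoin_range_eq_range_aeval]
    exact ⟨h, rfl⟩
  have halg : Algebra.IsAlgebraic (Algebra.adjoin E (Set.range x))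
      (MvPolynomial (Fin 3) E ⧸ Ideal.span {F}) := by
    refine ⟨fun y => ?_⟩
    have hy : y ∈ Algebra.adjoin E (Set.range x) := htop ▸ Algebra.mem_top
    exact isAlgebraic_algebraMap (⟨y, hy⟩ : Algebra.adjoin E (Set.range x))
  obtain ⟨t, hts, ht⟩ := exists_isTranscendenceBasis_subset (R := E)
    (A := MvPolynomial (Fin 3) E ⧸ Ideal.span {F}) (Set.range x)
  rw [← ht.cardinalMk_eq_trdeg]
  have hfin : (Set.range x).Finite := Set.finite_range x
  have htf : t.Finite := hfin.subset hts
  have hrg : Set.range x = ((Finset.univ.image x : Finset _) : Set _) := by simp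
  have hnc : (Set.range x).ncard = (Finset.univ.image x).card := by
    rw [hrg, Set.ncard_coe_finset]
  have hle : t.ncard ≤ 2 := by
    by_contra hcon
    push Not at hcon
    have hc3 : (Finset.univ.image x).card ≤ 3 := Finset.card_image_le
    have h3 : (Set.range x).ncard ≤ t.ncard := by omega
    have hteq : t = Set.range x := Set.eq_of_subset_of_ncard_le hts h3 hfin
    have hinj : Function.Injective x := by
      have h4 : (Finset.univ.image x).card = (Finset.univ : Finset (Fin 3)).card := by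
        have h5 : t.ncard = (Finset.univ.image x).card := by rw [hteq, hnc]
        rw [Finset.card_univ, Fintype.card_fin]
        omega
      have h6 := Finset.card_image_iff.1 h4
      rwa [Finset.coe_univ, Set.injOn_univ] at h6
    rw [hteq] at ht
    have hai := (algebraicIndependent_subtype_range hinj).1 ht.1
    apply hF
    apply (algebraicIndependent_iff.1 hai) F
    rw [hx]
    exact Ideal.Quotient.eq_zero_iff_mem.2 (Ideal.mem_span_singleton_self F)
  rw [← Set.cast_ncard htf]
  exact_mod_cast hle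

private theorem cuA_fin {E : Type u} [Field E] (F : MvPolynomial (Fin 3) E) (hF : Irreducible F)
    (h₁ : MvPolynomial (Fin 3) E) (hd : ¬ F ∣ h₁) :
    {J : Ideal (MvPolynomial (Fin 3) E) | J.IsPrime ∧ ¬ J.IsMaximal ∧ F ∈ J ∧ h₁ ∈ J}.Finite := by
  classical
  have hp : (Ideal.span {F}).IsPrime :=
    (Ideal.span_singleton_prime hF.ne_zero).2 hF.prime
  have hdom : IsDomain (MvPolynomial (Fin 3) E ⧸ Ideal.span {F}) :=
    Ideal.Quotient.isDomain _
  have hft : Algebra.FiniteType E (MvPolynomial (Fin 3) E ⧸ Ideal.span {F}) :=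
    inferInstance
  have hS := srf_trdeg hft (cuA_td F hF.ne_zero hp)
  obtain ⟨S, hS⟩ := cur_ex hS (Ideal.Quotient.mk (Ideal.span {F}) h₁) (by
    intro h
    rw [Ideal.Quotient.eq_zero_iff_mem, Ideal.mem_span_singleton] at h
    exact hd h)
  refine Set.Finite.subset ((S.finite_toSet.image fun p => p.asIdeal.comap
    (Ideal.Quotient.mk (Ideal.span {F})))) ?_
  rintro J ⟨hJp, hJm, hJF, hJh⟩
  have hker : RingHom.ker (Ideal.Quotient.mk (Ideal.span {F})) ≤ J := by
    rw [Ideal.mk_ker, Ideal.span_singleton_le_iff_mem]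
    exact hJF
  have hcm : (J.map (Ideal.Quotient.mk (Ideal.span {F}))).comap
      (Ideal.Quotient.mk (Ideal.span {F})) = J := by
    rw [Ideal.comap_map_of_surjective' _ Ideal.Quotient.mk_surjective]
    exact sup_eq_left.2 hker
  have hpr : (J.map (Ideal.Quotient.mk (Ideal.span {F}))).IsPrime :=
    Ideal.map_isPrime_of_surjective Ideal.Quotient.mk_surjective hker
  refine ⟨⟨J.map (Ideal.Quotient.mk (Ideal.span {F})), hpr⟩, ?_, hcm⟩
  rcases hS.all ⟨J.map (Ideal.Quotient.mk (Ideal.span {F})), hpr⟩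
    (Ideal.mem_map_of_mem _ hJh) with hmx | hmem
  · exfalso
    apply hJm
    have := Ideal.comap_isMaximal_of_surjective (Ideal.Quotient.mk (Ideal.span {F}))
      Ideal.Quotient.mk_surjective (K := J.map (Ideal.Quotient.mk (Ideal.span {F})))
    rwa [hcm] at this
  · exact hmem

private theorem cuA_fix {k E : Type u} [Field k] [Field E] [Algebra k E] (T : Set E)
    (σ : E ≃ₐ[k] E) (hσ : ∀ x ∈ T, σ x = x) (x : E) (hx : x ∈ IntermediateField.adjoin k T) :
    σ x = x := by
  induction hx using IntermediateField.adjoin_induction with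
  | mem x hx => exact hσ x hx
  | algebraMap x => exact σ.commutes x
  | add x y hx hy h1 h2 => rw [map_add, h1, h2]
  | inv x hx h1 => rw [map_inv₀, h1]
  | mul x y hx hy h1 h2 => rw [map_mul, h1, h2]

theorem cuA {k E : Type u} [Field k] [Field E] [IsAlgClosed E] [Algebra k E]
    (f g : MvPolynomial (Fin 2) k) (hg : g ≠ 0) (l : E)
    (hF : Irreducible (sf (MvPolynomial.map (algebraMap k E) f)
      (MvPolynomial.map (algebraMap k E) g) l)) (h₁ : MvPolynomial (Fin 3) E)
    (hh : ∀ m, IsAlgebraic (IntermediateField.adjoin k {l}) (MvPolynomial.coeff m h₁))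
    (hd : ¬ sf (MvPolynomial.map (algebraMap k E) f) (MvPolynomial.map (algebraMap k E) g) l ∣ h₁)
    (J : PrimeSpectrum (MvPolynomial (Fin 3) E))
    (hJ : Cu (sf (MvPolynomial.map (algebraMap k E) f) (MvPolynomial.map (algebraMap k E) g) l) J)
    (hm : h₁ ∈ J.asIdeal) : ∃ κ : IntermediateField k E, Alw k l J.asIdeal κ := by
  classical
  set F := sf (MvPolynomial.map (algebraMap k E) f) (MvPolynomial.map (algebraMap k E) g) l with hFdef
  let T : Finset E := h₁.support.image fun m => MvPolynomial.coeff m h₁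
  let κ₀ : IntermediateField k E := IntermediateField.adjoin k (insert l (T : Set E))
  have hlκ : l ∈ κ₀ := IntermediateField.subset_adjoin _ _ (Set.mem_insert _ _)
  have hcT : ∀ m, MvPolynomial.coeff m h₁ ∈ κ₀ := by
    intro m
    by_cases hm0 : MvPolynomial.coeff m h₁ = 0
    · rw [hm0]
      exact zero_mem _
    · refine IntermediateField.subset_adjoin _ _ (Set.mem_insert_of_mem _ ?_)
      exact Finset.mem_coe.2 (Finset.mem_image_of_mem _ (MvPolynomial.mem_support_iff.2 hm0))
  have hσh : ∀ σ ∈ Fx k (κ₀ : Set E), MvPolynomial.map (σ : E →+* E) h₁ = h₁ := by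
    intro σ hσ
    ext m
    rw [MvPolynomial.coeff_map]
    exact hσ _ (hcT m)
  have hσF : ∀ σ ∈ Fx k (κ₀ : Set E), MvPolynomial.map (σ : E →+* E) F = F := by
    intro σ hσ
    have hcomp : ∀ q : MvPolynomial (Fin 2) k, MvPolynomial.map (σ : E →+* E)
        (MvPolynomial.map (algebraMap k E) q) = MvPolynomial.map (algebraMap k E) q := by
      intro q
      ext m
      rw [MvPolynomial.coeff_map, MvPolynomial.coeff_map]
      exact σ.commutes _
    have hl : (σ : E →+* E) l = l := hσ l hlκ
    rw [hFdef]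
    unfold sf
    rw [map_sub, map_mul, map_pow, MvPolynomial.map_X, MvPolynomial.map_rename, hcomp,
      MvPolynomial.map_rename, map_sub, map_mul, MvPolynomial.map_C, hcomp, hcomp, hl]
  have hfinJ : {J' : Ideal (MvPolynomial (Fin 3) E) | ∃ σ ∈ Fx k (κ₀ : Set E),
      J' = J.asIdeal.map (MvPolynomial.map (σ : E →+* E))}.Finite := by
    refine (cuA_fin F hF h₁ hd).subset ?_
    rintro _ ⟨σ, hσ, rfl⟩
    let e : MvPolynomial (Fin 3) E ≃+* MvPolynomial (Fin 3) E :=
      MvPolynomial.mapEquiv (Fin 3) (σ : E ≃+* E)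
    have he : (MvPolynomial.map (σ : E →+* E) : MvPolynomial (Fin 3) E →+* _) =
        (e : MvPolynomial (Fin 3) E →+* MvPolynomial (Fin 3) E) := by
      ext <;> simp [e]
    have hJp := J.isPrime
    refine ⟨?_, ?_, ?_, ?_⟩
    · rw [he]
      exact Ideal.map_isPrime_of_equiv e
    · intro hmx
      apply hJ.nm
      rw [he] at hmx
      have h1 : (J.asIdeal.map (e : MvPolynomial (Fin 3) E →+* MvPolynomial (Fin 3) E)).comap
          (e : MvPolynomial (Fin 3) E →+* MvPolynomial (Fin 3) E) = J.asIdeal :=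
        Ideal.comap_map_of_bijective _ e.bijective
      rw [← h1]
      exact Ideal.comap_isMaximal_of_surjective _ e.surjective
    · have := Ideal.mem_map_of_mem (MvPolynomial.map (σ : E →+* E)) hJ.mem
      rwa [hσF σ hσ] at this
    · have := Ideal.mem_map_of_mem (MvPolynomial.map (σ : E →+* E)) hm
      rwa [hσh σ hσ] at this
  obtain ⟨S', hS'alg, hS'⟩ := fod J.asIdeal κ₀ hfinJ
  have hT : ∀ x ∈ T, IsAlgebraic (IntermediateField.adjoin k {l}) x := by
    intro x hx
    obtain ⟨m, -, rfl⟩ := Finset.mem_image.1 hx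
    exact hh m
  have hκ₀ : κ₀ ≤ (algebraicClosure (IntermediateField.adjoin k {l}) E).restrictScalars k := by
    rw [IntermediateField.adjoin_le_iff]
    intro y hy
    rcases Set.mem_insert_iff.1 hy with hy | hy
    · show y ∈ algebraicClosure (IntermediateField.adjoin k {l}) E
      rw [mem_algebraicClosure_iff, hy]
      exact isAlgebraic_algebraMap (⟨l, IntermediateField.mem_adjoin_simple_self k l⟩ :
        IntermediateField.adjoin k {l})
    · show y ∈ algebraicClosure (IntermediateField.adjoin k {l}) E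
      rw [mem_algebraicClosure_iff]
      exact hT y hy
  have hS'l : ∀ x ∈ S', IsAlgebraic (IntermediateField.adjoin k {l}) x := by
    intro x hx
    obtain ⟨p, hp, hpx⟩ := hS'alg x hx
    have h2 : IsAlgebraic (algebraicClosure (IntermediateField.adjoin k {l}) E) x := by
      let ι : κ₀ →+* algebraicClosure (IntermediateField.adjoin k {l}) E :=
        (IntermediateField.inclusion hκ₀).toRingHom
      refine ⟨p.map ι, (Polynomial.map_ne_zero_iff ι.injective).2 hp, ?_⟩
      rw [Polynomial.aeval_def, Polynomial.eval₂_map]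
      exact hpx
    exact h2.restrictScalars _
  refine alwk l (S' ∪ T) ?_ J.asIdeal ?_
  · intro x hx
    rcases Finset.mem_union.1 hx with hx | hx
    · exact hS'l x hx
    · exact hT x hx
  · intro σ hσ h
    refine hS' σ ?_ h
    rintro x (hx | hx)
    · refine cuA_fix (insert l (T : Set E)) σ (fun y hy => hσ y ?_) x hx
      rcases Set.mem_insert_iff.1 hy with hy | hy
      · rw [hy]
        exact Set.mem_insert _ _
      · refine Set.mem_insert_of_mem _ ?_
        rw [Finset.coe_union]
        exact Or.inr hy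
    · refine hσ x (Set.mem_insert_of_mem _ ?_)
      rw [Finset.coe_union]
      exact Or.inl hx

end

end

section

open Pool.Agent.TBR Polynomial
open scoped IntermediateField.algebraAdjoinAdjoin

section

open scoped IntermediateField.algebraAdjoinAdjoin

private theorem ftA_trdeg {k K E : Type u} [Field k] [Field K] [Field E] [Algebra k K] [Algebra K E]
    [Algebra k E] [IsScalarTower k K E] (hK : Algebra.IsAlgebraic k K) (R : Subalgebra K E)
    (hR : Algebra.trdeg K R ≤ 1) (T : Set E) (hT : T ⊆ R) (κ : IntermediateField k E)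
    (hκ : ∀ x ∈ κ, x ∈ IntermediateField.adjoin K T) : Algebra.trdeg k κ ≤ 1 := by
  have h1 : Algebra.trdeg K (Algebra.adjoin K T) ≤ 1 :=
    (trdeg_le_of_injective (Subalgebra.inclusion (Algebra.adjoin_le hT))
      (Subalgebra.inclusion_injective _)).trans hR
  have h2 : Algebra.trdeg K (IntermediateField.adjoin K T) ≤ 1 := by
    have h := trdeg_add_eq K (Algebra.adjoin K T) (A := IntermediateField.adjoin K T)
    rw [trdeg_eq_zero (R := Algebra.adjoin K T), add_zero] at h
    rw [← h]
    exact h1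
  have h3 : Algebra.trdeg k (IntermediateField.adjoin K T) ≤ 1 := by
    have h := trdeg_add_eq k K (A := IntermediateField.adjoin K T)
    rw [trdeg_eq_zero (R := k) (A := K), zero_add] at h
    rw [← h]
    exact h2
  let ι : κ →ₐ[k] IntermediateField.adjoin K T :=
    { toFun := fun x => ⟨x, hκ x x.2⟩
      map_one' := rfl
      map_mul' := fun _ _ => rfl
      map_zero' := rfl
      map_add' := fun _ _ => rfl
      commutes' := fun r => by
        apply Subtype.ext
        rfl }
  refine (trdeg_le_of_injective ι (fun x x' (h : ι x = ι x') => Subtype.ext ?_)).trans h3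
  exact congrArg (fun z : IntermediateField.adjoin K T => (z : E)) h

private theorem ftA_stab {E : Type u} [Field E] (σ : E →+* E) (n' : Fin 3 → Polynomial E) (δ' : Polynomial E)
    (hn : ∀ i m, σ ((n' i).coeff m) = (n' i).coeff m) (hδ : ∀ m, σ (δ'.coeff m) = δ'.coeff m)
    (h : MvPolynomial (Fin 3) E) :
    MvPolynomial.aeval (fun i =>
      algebraMap (Polynomial E) (RatFunc E) (n' i) / algebraMap (Polynomial E) (RatFunc E) δ') h = 0 ↔
    MvPolynomial.aeval (fun i =>
      algebraMap (Polynomial E) (RatFunc E) (n' i) / algebraMap (Polynomial E) (RatFunc E) δ')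
        (MvPolynomial.map σ h) = 0 := by
  have hinj : Function.Injective (Polynomial.mapRingHom σ) := Polynomial.map_injective σ σ.injective
  let σ' : RatFunc E →+* RatFunc E := IsFractionRing.map (K := RatFunc E) (L := RatFunc E) hinj
  have hσ : ∀ p : Polynomial E, σ' (algebraMap (Polynomial E) (RatFunc E) p) =
      algebraMap (Polynomial E) (RatFunc E) (p.map σ) := fun p => IsLocalization.map_eq _ p
  have h1 : ∀ i, (n' i).map σ = n' i := fun i => by
    ext m
    rw [coeff_map, hn]
  have h2 : δ'.map σ = δ' := by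
    ext m
    rw [coeff_map, hδ]
  have h3 : σ' (MvPolynomial.aeval (fun i => algebraMap (Polynomial E) (RatFunc E) (n' i) /
      algebraMap (Polynomial E) (RatFunc E) δ') h) = MvPolynomial.aeval (fun i =>
      algebraMap (Polynomial E) (RatFunc E) (n' i) / algebraMap (Polynomial E) (RatFunc E) δ')
        (MvPolynomial.map σ h) := by
    induction h using MvPolynomial.induction_on with
    | C a =>
      rw [MvPolynomial.map_C, MvPolynomial.aeval_C, MvPolynomial.aeval_C,
        IsScalarTower.algebraMap_apply E (Polynomial E) (RatFunc E), hσ,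
        IsScalarTower.algebraMap_apply E (Polynomial E) (RatFunc E), Polynomial.algebraMap_eq, map_C]
    | add p q hp hq => rw [map_add, map_add, map_add, map_add, hp, hq]
    | mul_X p i hp =>
      rw [map_mul, map_mul, map_mul, map_mul, hp, MvPolynomial.map_X, MvPolynomial.aeval_X, map_div₀, hσ, hσ,
        h1, h2]
  rw [← h3]
  exact (map_eq_zero σ').symm

theorem ftA {k K E M : Type u} [Field k] [Field K] [Field E] [Field M] [Algebra k K] [Algebra K E]
    [Algebra k E] [IsScalarTower k K E] [Algebra E M] [Algebra K M] [IsScalarTower K E M]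
    (hK : Algebra.IsAlgebraic k K) (l : K) (𝒟 : Finset M)
    (htd : Algebra.trdeg K (Algebra.adjoin K (𝒟 : Set M)) ≤ 1) (n : Fin 3 → Polynomial M)
    (δ : Polynomial M) (cn : ∀ i m, (n i).coeff m ∈ Algebra.adjoin K (𝒟 : Set M))
    (cd : ∀ m, δ.coeff m ∈ Algebra.adjoin K (𝒟 : Set M))
    (ρ : Algebra.adjoin E (𝒟 : Set M) →ₐ[E] E) (J : Ideal (MvPolynomial (Fin 3) E))
    (h : FT ρ n δ J) : ∃ κ : IntermediateField k E, Alw k (algebraMap K E l) J κ := by
  classical
  have hle : ∀ x : M, x ∈ Algebra.adjoin K (𝒟 : Set M) → x ∈ Algebra.adjoin E (𝒟 : Set M) := by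
    have : Algebra.adjoin K (𝒟 : Set M) ≤ (Algebra.adjoin E (𝒟 : Set M)).restrictScalars K :=
      Algebra.adjoin_le Algebra.subset_adjoin
    exact fun x hx => this hx
  let ρ' : Algebra.adjoin K (𝒟 : Set M) →ₐ[K] E :=
    { toFun := fun x => ρ ⟨x, hle x x.2⟩
      map_one' := map_one ρ
      map_mul' := fun x y => map_mul ρ ⟨x, hle x x.2⟩ ⟨y, hle y y.2⟩
      map_zero' := map_zero ρ
      map_add' := fun x y => map_add ρ ⟨x, hle x x.2⟩ ⟨y, hle y y.2⟩
      commutes' := fun r => by
        have h1 := ρ.commutes (algebraMap K E r)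
        rw [Algebra.algebraMap_self_apply] at h1
        rw [← h1]
        congr 1
        apply Subtype.ext
        exact IsScalarTower.algebraMap_apply K E M r }
  have hR : Algebra.trdeg K ρ'.range ≤ 1 :=
    (trdeg_le_of_surjective ρ'.rangeRestrict ρ'.rangeRestrict_surjective).trans htd
  obtain ⟨n', δ', hn', hδ', -, hJ⟩ := h
  have h1 : ∀ i m, (n' i).coeff m ∈ ρ'.range := fun i m =>
    ⟨⟨_, cn i m⟩, (hn' i m (hle _ (cn i m))).symm⟩
  have h2 : ∀ m, δ'.coeff m ∈ ρ'.range := fun m => ⟨⟨_, cd m⟩, (hδ' m (hle _ (cd m))).symm⟩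
  let T : Finset E := (Finset.univ.biUnion fun i => (n' i).coeffs) ∪ δ'.coeffs
  have hT : ∀ x ∈ T, x ∈ ρ'.range := by
    intro x hx
    rcases Finset.mem_union.1 hx with hx | hx
    · obtain ⟨i, -, hx⟩ := Finset.mem_biUnion.1 hx
      obtain ⟨m, -, rfl⟩ := mem_coeffs_iff.1 hx
      exact h1 i m
    · obtain ⟨m, -, rfl⟩ := mem_coeffs_iff.1 hx
      exact h2 m
  have hTn : ∀ i m, (n' i).coeff m ≠ 0 → (n' i).coeff m ∈ T := fun i m hm =>
    Finset.mem_union_left _ (Finset.mem_biUnion.2 ⟨i, Finset.mem_univ _, coeff_mem_coeffs hm⟩)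
  have hTd : ∀ m, δ'.coeff m ≠ 0 → δ'.coeff m ∈ T := fun m hm =>
    Finset.mem_union_right _ (coeff_mem_coeffs hm)
  let κ : IntermediateField k E := IntermediateField.adjoin k
    ((insert (algebraMap K E l) T : Finset E) : Set E)
  have hκ : ∀ x ∈ T, x ∈ κ := fun x hx => IntermediateField.subset_adjoin k _
    (Finset.mem_coe.2 (Finset.mem_insert_of_mem hx))
  refine ⟨κ, ⟨⟨_, rfl⟩, ?_, ?_, ?_⟩⟩
  · refine ftA_trdeg hK ρ'.range hR (T : Set E) (fun x hx => hT x hx) κ ?_
    have h3 : κ ≤ (IntermediateField.adjoin K (T : Set E)).restrictScalars k := by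
      refine IntermediateField.adjoin_le_iff.2 fun x hx => ?_
      rcases Finset.mem_insert.1 (Finset.mem_coe.1 hx) with rfl | hx
      · exact (IntermediateField.adjoin K (T : Set E)).algebraMap_mem l
      · exact IntermediateField.subset_adjoin K _ hx
    exact fun x hx => h3 hx
  · exact IntermediateField.subset_adjoin k _
      (Finset.mem_coe.2 (Finset.mem_insert_self _ _))
  · intro σ hσ g
    rw [hJ, hJ]
    refine ftA_stab (σ : E →+* E) n' δ' (fun i m => ?_) (fun m => ?_) g
    · by_cases hm : (n' i).coeff m = 0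
      · rw [hm, map_zero]
      · exact hσ _ (hκ _ (hTn i m hm))
    · by_cases hm : δ'.coeff m = 0
      · rw [hm, map_zero]
      · exact hσ _ (hκ _ (hTd m hm))

end

end

end Pool.Agent.RDP
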