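import Pool.Agent.RDM.Ru
import Pool.Agent.RDM.A2

/-!
# Specialization of a unirational parametrization
-/

set_option autoImplicit false

namespace Pool.Agent.RDP

universe u v w

section

open Pool.Agent.TBR Polynomial

section

/-- exchange -/
private theorem place_trd {k Kt : Type u} [Field k] [Field Kt] [Algebra k Kt] (lam : Kt)
    (halg : ∀ x : Kt, IsAlgebraic (IntermediateField.adjoin k {lam}) x) (t : Kt)
    (ht : Transcendental k t) (x : Kt) : IsAlgebraic (IntermediateField.adjoin k {t}) x := by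
  have h1 : Algebra.IsAlgebraic (Algebra.adjoin k {lam}) Kt := by
    rw [← IntermediateField.isAlgebraic_adjoin_iff_top]
    exact ⟨halg⟩
  have htr : Algebra.trdeg k Kt ≤ 1 := by
    have h2 := Algebra.IsAlgebraic.trdeg_le_cardinalMk k {lam}
    simpa using h2
  have htt : AlgebraicIndependent k (fun _ : Unit => t) := by
    rw [algebraicIndependent_unique_type_iff]
    exact ht
  have hb := htt.isTranscendenceBasis_of_lift_trdeg_le_of_finite (by simpa using htr)
  have hfin := hb.isAlgebraic_field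
  rw [Set.range_const] at hfin
  exact hfin.isAlgebraic x

/-- integral elements are in the valuation ring -/
private theorem place_int {F Kt : Type*} [Field F] [Field Kt] [Algebra F Kt]
    (V : ValuationSubring Kt) (hV : ∀ y : F, algebraMap F Kt y ∈ V) (x : Kt)
    (hx : IsAlgebraic F x) : x ∈ V := by
  let g : F →+* V :=
    { toFun := fun y => ⟨algebraMap F Kt y, hV y⟩
      map_one' := by ext; simp
      map_mul' := fun x y => by ext; simp
      map_zero' := by ext; simp
      map_add' := fun x y => by ext; simp }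
  have h1 : IsIntegral V (RingHom.id Kt x) :=
    IsIntegral.map_of_comp_eq g (RingHom.id Kt) (by ext y; rfl) hx.isIntegral
  obtain ⟨y, hy⟩ := IsIntegrallyClosed.algebraMap_eq_of_integral (R := V) (K := Kt) h1
  have : x = y := hy.symm
  rw [this]
  exact y.2

/-- the valuation ring -/
private theorem place_val {k Kt : Type u} [Field k] [Field Kt] [Algebra k Kt] (lam : Kt)
    (hlam : Transcendental k lam) (p : k[X]) (hp : Irreducible p) :
    ∃ V : ValuationSubring Kt, (∀ x : k, algebraMap k Kt x ∈ V) ∧ lam ∈ V ∧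
      aeval lam p ∈ V.nonunits := by
  set A : Subring Kt := ((aeval lam : k[X] →ₐ[k] Kt) : k[X] →+* Kt).range with hA
  have hmem : ∀ q : k[X], aeval lam q ∈ A := fun q => ⟨q, rfl⟩
  set I : Ideal A := Ideal.span {(⟨aeval lam p, hmem p⟩ : A)} with hI
  have hI1 : I ≠ ⊤ := by
    intro h
    rw [Ideal.eq_top_iff_one, hI, Ideal.mem_span_singleton] at h
    obtain ⟨⟨c, ⟨q, hq⟩⟩, hc⟩ := h
    have h1 : (1 : Kt) = aeval lam p * c := congrArg Subtype.val hc
    have hq' : aeval lam q = c := hq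
    rw [← hq', ← map_mul] at h1
    have h2 : aeval lam (p * q - 1) = 0 := by
      rw [map_sub, map_one, ← h1, sub_self]
    have h3 := (transcendental_iff.1 hlam) _ h2
    have h4 : p * q = 1 := sub_eq_zero.1 h3
    exact hp.not_isUnit (IsUnit.of_mul_eq_one q h4)
  obtain ⟨V, hV1, hV2⟩ := Ideal.image_subset_nonunits_valuationSubring I hI1
  refine ⟨V, fun x => ?_, ?_, ?_⟩
  · have h1 : algebraMap k Kt x = aeval lam (C x) := by rw [aeval_C]
    rw [h1]
    exact hV1 (hmem _)
  · have h1 : lam = aeval lam (X : k[X]) := by rw [aeval_X]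
    have h2 := hV1 (hmem (X : k[X]))
    rwa [← h1] at h2
  · exact hV2 ⟨⟨aeval lam p, hmem p⟩, Ideal.mem_span_singleton_self _, rfl⟩

/-- the residue field is algebraic -/
private theorem place_res {k Kt : Type u} [Field k] [Field Kt] [Algebra k Kt] [IsAlgClosed Kt]
    (htrd : ∀ t : Kt, Transcendental k t → ∀ x : Kt, IsAlgebraic (IntermediateField.adjoin k {t}) x)
    (V : ValuationSubring Kt) (hV : ∀ x : k, algebraMap k Kt x ∈ V) (hVt : V ≠ ⊤) (v : Kt)
    (hv : v ∈ V) : ∃ α : Kt, IsAlgebraic k α ∧ v - α ∈ V.nonunits := by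
  by_contra! hcon
  have hvt : Transcendental k v := fun h => hcon v h (by rw [sub_self]; exact V.nonunits.zero_mem)
  have h1 : ∀ α : Kt, IsAlgebraic k α → V.valuation (v - α) = 1 := by
    intro α hα
    refine le_antisymm ((V.valuation_le_one_iff _).mpr (sub_mem hv (place_int V hV α hα)))
      (not_lt.mp ?_)
    intro h
    exact hcon α hα (V.mem_nonunits_iff.mpr h)
  have h0 : ∀ c : k, c ≠ 0 → V.valuation (algebraMap k Kt c) = 1 := by
    intro c hc
    refine le_antisymm ((V.valuation_le_one_iff _).mpr (hV c)) ?_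
    have h2 : V.valuation (algebraMap k Kt c⁻¹) ≤ 1 := (V.valuation_le_one_iff _).mpr (hV _)
    rw [map_inv₀, map_inv₀] at h2
    have h3 : V.valuation (algebraMap k Kt c) ≠ 0 := by
      rw [Ne, map_eq_zero, map_eq_zero]
      exact hc
    exact (inv_le_one₀ (zero_lt_iff.2 h3)).1 h2
  have h2 : ∀ r : k[X], r ≠ 0 → V.valuation (aeval v r) = 1 := by
    intro r hr
    have hs : (r.map (algebraMap k Kt)).Splits := IsAlgClosed.splits _
    have h3 : aeval v r = eval v (r.map (algebraMap k Kt)) := by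
      rw [eval_map]
      rfl
    rw [h3, hs.eval_eq_prod_roots, map_mul, leadingCoeff_map]
    rw [h0 _ (leadingCoeff_ne_zero.mpr hr), one_mul, map_multiset_prod, Multiset.map_map]
    refine Multiset.prod_eq_one fun y hy => ?_
    obtain ⟨α, hα, rfl⟩ := Multiset.mem_map.mp hy
    refine h1 α ⟨r, hr, ?_⟩
    rw [mem_roots', IsRoot.def, eval_map] at hα
    exact hα.2
  apply hVt
  rw [eq_top_iff]
  intro x _
  refine place_int (F := IntermediateField.adjoin k {v}) V ?_ x (htrd v hvt x)
  rintro ⟨y, hy⟩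
  show y ∈ V
  rw [IntermediateField.mem_adjoin_simple_iff] at hy
  obtain ⟨r, s, rfl⟩ := hy
  by_cases hr : r = 0
  · rw [hr, map_zero, zero_div]; exact V.zero_mem
  by_cases hs : s = 0
  · rw [hs, map_zero, div_zero]; exact V.zero_mem
  rw [← V.valuation_le_one_iff, map_div₀, h2 r hr, h2 s hs, div_one]

theorem place {k K Kt : Type u} [Field k] [Field K] [Field Kt] [Algebra k K] [Algebra k Kt]
    [IsAlgClosed K] [IsAlgClosed Kt] (hK : Algebra.IsAlgebraic k K) (lam : Kt)
    (hlam : Transcendental k lam)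
    (halg : ∀ x : Kt, IsAlgebraic (IntermediateField.adjoin k {lam}) x) (l : K) :
    ∃ (V : ValuationSubring Kt) (π : V →+* K) (hk : ∀ x : k, algebraMap k Kt x ∈ V)
      (hl : lam ∈ V), Function.Surjective π ∧ (∀ v : V, π v = 0 ↔ (v : Kt) ∈ V.nonunits) ∧
      (∀ x : k, π ⟨algebraMap k Kt x, hk x⟩ = algebraMap k K x) ∧ π ⟨lam, hl⟩ = l := by
  classical
  have hli : IsIntegral k l := (hK.isAlgebraic l).isIntegral
  obtain ⟨V, hk, hl, hpn⟩ := place_val lam hlam (minpoly k l) (minpoly.irreducible hli)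
  have hVt : V ≠ ⊤ := by
    rintro rfl
    rw [ValuationSubring.mem_nonunits_iff_or] at hpn
    rcases hpn with h | h
    · exact minpoly.ne_zero hli ((transcendental_iff.1 hlam) _ h)
    · exact h (ValuationSubring.mem_top _)
  have hres := place_res (place_trd lam halg) V hk hVt
  let g : k →+* V :=
    { toFun := fun y => ⟨algebraMap k Kt y, hk y⟩
      map_one' := by ext; simp
      map_mul' := fun x y => by ext; simp
      map_zero' := by ext; simp
      map_add' := fun x y => by ext; simp }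
  letI : Algebra k V := g.toAlgebra
  haveI : IsScalarTower k V Kt := IsScalarTower.of_algebraMap_eq fun y => rfl
  have hco : ∀ (v : V) (q : k[X]), ((aeval v q : V) : Kt) = aeval (v : Kt) q := fun v q =>
    (aeval_algebraMap_apply Kt v q).symm
  let κ := IsLocalRing.ResidueField V
  let res : V →ₐ[k] κ := IsScalarTower.toAlgHom k V κ
  have hres0 : ∀ v : V, res v = 0 ↔ (v : Kt) ∈ V.nonunits := by
    intro v
    rw [ValuationSubring.coe_mem_nonunits_iff]
    exact IsLocalRing.residue_eq_zero_iff v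
  have hκ : Algebra.IsAlgebraic k κ := by
    constructor
    intro z
    obtain ⟨v, rfl⟩ := IsLocalRing.residue_surjective z
    obtain ⟨α, hα, hαv⟩ := hres v v.2
    have hαV : α ∈ V := place_int V hk α hα
    obtain ⟨q, hq, hqα⟩ := hα
    refine ⟨q, hq, ?_⟩
    have h1 : res v = res ⟨α, hαV⟩ := by
      rw [← sub_eq_zero, ← map_sub, hres0]
      exact hαv
    have h2 : aeval (res v) q = res (aeval (⟨α, hαV⟩ : V) q) := by
      rw [h1, aeval_algHom_apply]
    have h3 : aeval (⟨α, hαV⟩ : V) q = 0 := by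
      apply Subtype.ext
      rw [hco]
      exact hqα
    rw [h3, map_zero] at h2
    exact h2
  have hmin : minpoly k (res ⟨lam, hl⟩) = minpoly k l := by
    symm
    refine minpoly.eq_of_irreducible_of_monic (minpoly.irreducible hli) ?_ (minpoly.monic hli)
    rw [aeval_algHom_apply, hres0, hco]
    exact hpn
  obtain ⟨φ, hφ⟩ := IntermediateField.exists_algHom_of_splits_of_aeval (F := k) (E := κ) (K := K)
    (x := res ⟨lam, hl⟩) (y := l)
    (fun s => ⟨(hκ.isAlgebraic s).isIntegral, IsAlgClosed.splits _⟩)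
    (by rw [hmin]; exact minpoly.aeval k l)
  let π : V →ₐ[k] K := φ.comp res
  refine ⟨V, (π : V →+* K), hk, hl, ?_, ?_, ?_, hφ⟩
  · -- surjectivity
    have hAV : ∀ x : algebraicClosure k Kt, (x : Kt) ∈ V := fun x =>
      place_int V hk x (mem_algebraicClosure_iff.1 x.2)
    let i : algebraicClosure k Kt →+* V :=
      { toFun := fun x => ⟨x, hAV x⟩
        map_one' := rfl
        map_mul' := fun x y => rfl
        map_zero' := rfl
        map_add' := fun x y => rfl }
    let j : algebraicClosure k Kt →+* K := (π : V →+* K).comp i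
    letI : Algebra (algebraicClosure k Kt) K := j.toAlgebra
    haveI : IsScalarTower k (algebraicClosure k Kt) K := IsScalarTower.of_algebraMap_eq fun y => by
      have h1 : algebraMap (algebraicClosure k Kt) K (algebraMap k (algebraicClosure k Kt) y) =
          π (algebraMap k V y) := rfl
      rw [h1, AlgHom.commutes]
    haveI : Algebra.IsAlgebraic (algebraicClosure k Kt) K :=
      Algebra.IsAlgebraic.tower_top (K := k) (algebraicClosure k Kt)
    haveI : IsAlgClosed (algebraicClosure k Kt) :=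
      (algebraicClosure.isAlgClosure k Kt).isAlgClosed
    intro z
    obtain ⟨x, hx⟩ := (IsAlgClosed.algebraMap_bijective_of_isIntegral
      (k := algebraicClosure k Kt) (K := K)).2 z
    exact ⟨i x, hx⟩
  · intro v
    rw [← hres0]
    show φ (res v) = 0 ↔ res v = 0
    rw [map_eq_zero]
  · intro x
    exact π.commutes x

end

end

section

open Pool.Agent.TBR Polynomial

section

theorem vgauss {Kt L : Type u} [Field Kt] [Field L] [Algebra Kt L] (V₀ : ValuationSubring Kt)
    (X : Fin 2 → L) (hX : AlgebraicIndependent Kt X) :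
    ∃ V : ValuationSubring L, (∀ x : Kt, algebraMap Kt L x ∈ V ↔ x ∈ V₀) ∧ (∀ i, X i ∈ V) ∧
      ∀ q : MvPolynomial (Fin 2) Kt, (∀ m, q.coeff m ∈ V₀) → (∃ m, q.coeff m ∉ V₀.nonunits) →
        MvPolynomial.aeval X q ∉ V.nonunits := by
  classical
  let R := MvPolynomial (Fin 2) V₀
  let φ : R →+* MvPolynomial (Fin 2) (IsLocalRing.ResidueField V₀) :=
    MvPolynomial.map (IsLocalRing.residue V₀)
  let P : Ideal R := RingHom.ker φ
  have hP : P.IsPrime := RingHom.ker_isPrime φ
  let ι : R →+* L := (MvPolynomial.aeval X : MvPolynomial (Fin 2) Kt →ₐ[Kt] L).toRingHom.comp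
    (MvPolynomial.map (algebraMap V₀ Kt))
  have hιd : ∀ r : R, ι r = MvPolynomial.aeval X (MvPolynomial.map (algebraMap V₀ Kt) r) :=
    fun _ => rfl
  have hι : Function.Injective ι := by
    intro a b hab
    rw [hιd, hιd] at hab
    exact MvPolynomial.map_injective (algebraMap V₀ Kt) Subtype.val_injective (hX hab)
  have hunit : ∀ s : P.primeCompl, IsUnit (ι s) := by
    intro s
    rw [isUnit_iff_ne_zero]
    intro h
    have h1 : (s : R) = 0 := hι (h.trans (map_zero ι).symm)
    exact s.2 (h1 ▸ P.zero_mem)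
  let f : Localization.AtPrime P →+* L := IsLocalization.lift (M := P.primeCompl) hunit
  have hf : ∀ r : R, f (algebraMap R _ r) = ι r := IsLocalization.lift_eq hunit
  obtain ⟨V, hV, hloc⟩ := IsLocalRing.exists_factor_valuationRing (R := Localization.AtPrime P) f
  have hPn : ∀ r ∈ P, ι r ∈ V.nonunits := by
    intro r hr
    rw [← hf, ValuationSubring.mem_nonunits_iff_exists_mem_maximalIdeal]
    refine ⟨hV _, ?_⟩
    rw [IsLocalRing.mem_maximalIdeal, mem_nonunits_iff]
    intro hu
    have h1 : IsUnit (algebraMap R (Localization.AtPrime P) r) := hloc.map_nonunit _ hu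
    exact (IsLocalization.AtPrime.isUnit_to_map_iff (Localization.AtPrime P) P r).mp h1 hr
  have hPu : ∀ r : R, r ∉ P → ι r ∉ V.nonunits := by
    intro r hr h
    obtain ⟨h1, h2⟩ := V.mem_nonunits_iff_exists_mem_maximalIdeal.mp h
    rw [IsLocalRing.mem_maximalIdeal, mem_nonunits_iff] at h2
    have h3 : IsUnit (algebraMap R (Localization.AtPrime P) r) :=
      (IsLocalization.AtPrime.isUnit_to_map_iff (Localization.AtPrime P) P r).mpr hr
    have h4 := h3.map (f.codRestrict V.toSubring hV)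
    have h5 : (f.codRestrict V.toSubring hV) (algebraMap R (Localization.AtPrime P) r) =
        (⟨ι r, h1⟩ : V) := Subtype.ext (hf r)
    exact h2 (h5 ▸ h4)
  have hιC : ∀ a : V₀, ι (MvPolynomial.C a) = algebraMap Kt L a := by
    intro a
    rw [hιd, MvPolynomial.map_C, MvPolynomial.aeval_C]
    rfl
  have hιV : ∀ r : R, ι r ∈ V := by
    intro r
    rw [← hf]
    exact hV _
  refine ⟨V, fun x => ⟨fun hx => ?_, fun hx => ?_⟩, fun i => ?_, ?_⟩
  · by_contra hxV
    have hx0 : x ≠ 0 := by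
      rintro rfl
      exact hxV V₀.zero_mem
    have h3 : x⁻¹ ∈ V₀.nonunits := V₀.inv_mem_nonunits_iff.mpr (Or.inr hxV)
    obtain ⟨h4, h5⟩ := V₀.mem_nonunits_iff_exists_mem_maximalIdeal.mp h3
    have h6 : (MvPolynomial.C ⟨x⁻¹, h4⟩ : R) ∈ P := by
      change φ (MvPolynomial.C ⟨x⁻¹, h4⟩) = 0
      change MvPolynomial.map (IsLocalRing.residue V₀) (MvPolynomial.C ⟨x⁻¹, h4⟩) = 0
      rw [MvPolynomial.map_C, (IsLocalRing.residue_eq_zero_iff _).mpr h5, MvPolynomial.C_0]
    have h7 := hPn _ h6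
    rw [hιC, map_inv₀] at h7
    rcases V.inv_mem_nonunits_iff.mp h7 with h8 | h8
    · exact hx0 ((algebraMap Kt L).injective (by rw [h8, map_zero]))
    · exact h8 hx
  · have h1 := hιV (MvPolynomial.C ⟨x, hx⟩)
    rwa [hιC] at h1
  · have h1 := hιV (MvPolynomial.X i)
    rwa [hιd, MvPolynomial.map_X, MvPolynomial.aeval_X] at h1
  · rintro q hq ⟨m, hm⟩
    have hq1 : q ∈ Set.range (MvPolynomial.map (σ := Fin 2) (algebraMap V₀ Kt)) := by
      rw [MvPolynomial.mem_range_map_iff_coeffs_subset]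
      intro c hc
      obtain ⟨m', -, rfl⟩ := MvPolynomial.mem_coeffs_iff.mp hc
      exact ⟨⟨_, hq m'⟩, rfl⟩
    obtain ⟨q₀, rfl⟩ := hq1
    have h1 : q₀ ∉ P := by
      intro h
      have h2 : MvPolynomial.map (IsLocalRing.residue V₀) q₀ = 0 := h
      have h3 := congrArg (MvPolynomial.coeff m) h2
      rw [MvPolynomial.coeff_map, MvPolynomial.coeff_zero, IsLocalRing.residue_eq_zero_iff] at h3
      apply hm
      rw [MvPolynomial.coeff_map]
      exact V₀.coe_mem_nonunits_iff.mpr h3
    exact hPu q₀ h1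

end

end

section

open Pool.Agent.TBR Polynomial

section

private theorem rres_lem1 {E k : Type u} [Field E] [Field k] (ρ : E →+* k)
    (h : Function.Surjective ρ) :
    ∃ ψ : k →+* RatFunc E, ∀ e, ψ (ρ e) = RatFunc.C e := by
  let f := RingEquiv.ofBijective ρ ⟨ρ.injective, h⟩
  refine ⟨(RatFunc.C : E →+* RatFunc E).comp (f.symm : k →+* E), fun e => ?_⟩
  show RatFunc.C (f.symm (f e)) = RatFunc.C e
  rw [f.symm_apply_apply]

private theorem rres_lem2 {E k : Type u} [Field E] [IsAlgClosed E] [Field k] [Algebra E k] (θ : k)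
    (h1 : ∀ e : E, θ ≠ algebraMap E k e)
    (h2 : ∀ y : k, ∃ a b, a ∈ Algebra.adjoin E {θ} ∧ b ∈ Algebra.adjoin E {θ} ∧ b ≠ 0 ∧
      y * b = a) :
    ∃ ψ : k →+* RatFunc E, ∀ e, ψ (algebraMap E k e) = RatFunc.C e := by
  have htr : Transcendental E θ := by
    intro halg
    have h3 := IsAlgClosed.degree_eq_one_of_irreducible E (minpoly.irreducible halg.isIntegral)
    obtain ⟨e, he⟩ := minpoly.mem_range_of_degree_eq_one E θ h3
    exact h1 e he.symm
  have hm : ∀ y : k, y ∈ IntermediateField.adjoin E {θ} := by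
    intro y
    obtain ⟨a, b, ha, hb, hb0, hy⟩ := h2 y
    have h4 : y = a / b := by
      rw [eq_div_iff hb0]
      exact hy
    rw [h4]
    exact div_mem (IntermediateField.algebra_adjoin_le_adjoin E {θ} ha)
      (IntermediateField.algebra_adjoin_le_adjoin E {θ} hb)
  let e := RatFunc.algEquivOfTranscendental θ htr
  let g : k →+* IntermediateField.adjoin E {θ} := (RingHom.id k).codRestrict _ hm
  refine ⟨((e.symm : IntermediateField.adjoin E {θ} ≃ₐ[E] RatFunc E) :
    IntermediateField.adjoin E {θ} →+* RatFunc E).comp g, fun x => ?_⟩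
  have h5 : g (algebraMap E k x) = algebraMap E (IntermediateField.adjoin E {θ}) x := rfl
  show e.symm (g (algebraMap E k x)) = _
  rw [h5, AlgEquiv.commutes, RatFunc.algebraMap_eq_C]

/-- the residue field of a valuation ring of an algebraically closed field is algebraically closed -/
private theorem rres_ac {K k : Type u} [Field K] [IsAlgClosed K] [Field k]
    (W : ValuationSubring K) (π : W →+* k) (hs : Function.Surjective π) : IsAlgClosed k := by
  refine IsAlgClosed.of_exists_root k fun p hp hirr => ?_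
  have hl : p ∈ Polynomial.lifts π := by
    obtain ⟨q, hq⟩ := Polynomial.map_surjective π hs p
    exact ⟨q, hq⟩
  obtain ⟨q, hq, hdeg, hmon⟩ := Polynomial.lifts_and_natDegree_eq_and_monic hl hp
  have hpd : 0 < p.natDegree := hirr.natDegree_pos
  have hd : (q.map (algebraMap W K)).degree ≠ 0 := by
    rw [Polynomial.degree_map_eq_of_injective (IsFractionRing.injective W K)]
    intro h
    have h9 : q.natDegree = 0 := Polynomial.natDegree_eq_of_degree_eq_some h
    omega
  obtain ⟨x, hx⟩ := IsAlgClosed.exists_root _ hd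
  have hx' : Polynomial.eval₂ (algebraMap W K) x q = 0 := by
    rw [Polynomial.eval₂_eq_eval_map]
    exact hx
  have hint : IsIntegral W x := ⟨q, hmon, hx'⟩
  obtain ⟨y, rfl⟩ := IsIntegrallyClosed.isIntegral_iff.mp hint
  refine ⟨π y, ?_⟩
  rw [Polynomial.eval₂_at_apply] at hx'
  have h0 : Polynomial.eval y q = 0 := by
    apply IsFractionRing.injective W K
    rw [hx', map_zero]
  rw [← hq, Polynomial.eval_map, Polynomial.eval₂_at_apply, h0, map_zero]

end

section

theorem rres {K₂ L : Type u} [Field K₂] [IsAlgClosed K₂] [Field L] [Algebra K₂ L] (τ : L)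
    (hτ : Transcendental K₂ τ) (hgen : IntermediateField.adjoin K₂ {τ} = ⊤)
    (V : ValuationSubring L) (k₁ : Type u) [Field k₁]
    (π₁ : (V.comap (algebraMap K₂ L)) →+* k₁) (hs : Function.Surjective π₁)
    (hk : ∀ c, π₁ c = 0 ↔ algebraMap K₂ L c ∈ V.nonunits) :
    ∃ Φ : V →+* RatFunc k₁,
      (∀ (c : K₂) (hc : algebraMap K₂ L c ∈ V), Φ ⟨algebraMap K₂ L c, hc⟩ =
        RatFunc.C (π₁ ⟨c, hc⟩)) ∧ ∀ v : V, Φ v = 0 ↔ (v : L) ∈ V.nonunits := by
  classical
  have hac : IsAlgClosed k₁ := rres_ac _ π₁ hs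
  let aL : K₂ →+* L := algebraMap K₂ L
  let W : ValuationSubring K₂ := V.comap aL
  let j : W →+* V := (aL.comp W.subtype).codRestrict V (fun c => c.2)
  let r : V →+* IsLocalRing.ResidueField V := IsLocalRing.residue V
  have hr : ∀ x y : V, ((x : L) - y) ∈ V.nonunits → r x = r y := by
    intro x y h
    have h1 : ((x - y : V) : L) ∈ V.nonunits := h
    rw [ValuationSubring.coe_mem_nonunits_iff] at h1
    rw [← sub_eq_zero, ← map_sub]
    exact (IsLocalRing.residue_eq_zero_iff _).mpr h1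
  have hr' : ∀ x y : V, r x = r y → ((x : L) - y) ∈ V.nonunits := by
    intro x y h
    rw [← sub_eq_zero, ← map_sub] at h
    have h1 := (IsLocalRing.residue_eq_zero_iff _).mp h
    rw [← ValuationSubring.coe_mem_nonunits_iff] at h1
    exact h1
  have hrs : Function.Surjective r := IsLocalRing.residue_surjective
  have hker : RingHom.ker π₁ ≤ RingHom.ker (r.comp j) := by
    intro c hc
    rw [RingHom.mem_ker] at hc ⊢
    have h1 := (hk c).mp hc
    have h2 := hr (j c) 0 (by
      show aL c - 0 ∈ V.nonunits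
      rw [sub_zero]
      exact h1)
    rw [map_zero] at h2
    exact h2
  let ρ : k₁ →+* IsLocalRing.ResidueField V :=
    RingHom.liftOfSurjective π₁ hs ⟨r.comp j, hker⟩
  have hρ : ∀ c, ρ (π₁ c) = r (j c) := fun c =>
    RingHom.liftOfRightInverse_comp_apply _ _ _ ⟨r.comp j, hker⟩ c
  have hψ : ∃ ψ : IsLocalRing.ResidueField V →+* RatFunc k₁, ∀ e, ψ (ρ e) = RatFunc.C e := by
    rcases gs τ hτ hgen V with h | ⟨θ, hθV, hθ, h⟩
    · apply rres_lem1
      intro y
      obtain ⟨x, rfl⟩ := hrs y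
      obtain ⟨d, hd⟩ := h x x.2
      have hdV : aL d ∈ V := by
        have h2 : aL d = (x : L) - ((x : L) - aL d) := by ring
        rw [h2]
        exact V.sub_mem x.2 (V.nonunits_le hd)
      refine ⟨π₁ ⟨d, hdV⟩, ?_⟩
      rw [hρ]
      exact (hr _ _ hd).symm
    · let := ρ.toAlgebra
      let θ' : V := ⟨θ, hθV⟩
      have claim : ∀ p : Polynomial K₂, (∀ n, aL (p.coeff n) ∈ V) →
          ∃ s : V, (s : L) = Polynomial.aeval θ p ∧
            r s ∈ Algebra.adjoin k₁ {r θ'} := by
        intro p hp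
        refine ⟨∑ n ∈ Finset.range (p.natDegree + 1), ⟨aL (p.coeff n), hp n⟩ * θ' ^ n, ?_, ?_⟩
        · rw [Polynomial.aeval_eq_sum_range]
          push_cast
          refine Finset.sum_congr rfl fun n _ => ?_
          rw [Algebra.smul_def]
        · rw [map_sum]
          refine Subalgebra.sum_mem _ fun n _ => ?_
          rw [map_mul, map_pow]
          refine Subalgebra.mul_mem _ ?_
            (Subalgebra.pow_mem _ (Algebra.self_mem_adjoin_singleton k₁ _) n)
          have h4 : r ⟨aL (p.coeff n), hp n⟩ = ρ (π₁ ⟨p.coeff n, hp n⟩) :=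
            (hρ ⟨p.coeff n, hp n⟩).symm
          rw [h4]
          exact Subalgebra.algebraMap_mem _ (π₁ ⟨p.coeff n, hp n⟩)
      apply rres_lem2 (r θ')
      · intro e he
        obtain ⟨c, rfl⟩ := hs e
        have h0 : r θ' = r (j c) := he.trans (hρ c)
        have h1 := hr' _ _ h0
        exact hθ c c.2 h1
      · intro y
        obtain ⟨x, rfl⟩ := hrs y
        obtain ⟨p, q, hp, hq, hq0, hx⟩ := h x x.2
        obtain ⟨sp, hsp, hsp'⟩ := claim p hp
        obtain ⟨sq, hsq, hsq'⟩ := claim q hq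
        refine ⟨r sp, r sq, hsp', hsq', ?_, ?_⟩
        · intro h0
          apply hq0
          have h1 := (IsLocalRing.residue_eq_zero_iff _).mp h0
          rw [← ValuationSubring.coe_mem_nonunits_iff, hsq] at h1
          exact h1
        · rw [← map_mul]
          apply hr
          push_cast
          rw [hsp, hsq]
          exact hx
  obtain ⟨ψ, hψ⟩ := hψ
  refine ⟨ψ.comp r, fun c hc => ?_, fun x => ⟨fun hx => ?_, fun hx => ?_⟩⟩
  · rw [← hψ, hρ]
    rfl
  · have h1 : ψ (r x) = ψ 0 := by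
      rw [map_zero]
      exact hx
    have h2 := ψ.injective h1
    have h3 := (IsLocalRing.residue_eq_zero_iff _).mp h2
    rw [← ValuationSubring.coe_mem_nonunits_iff] at h3
    exact h3
  · show ψ (r x) = 0
    have h3 : r x = 0 := by
      apply (IsLocalRing.residue_eq_zero_iff _).mpr
      rw [← ValuationSubring.coe_mem_nonunits_iff]
      exact hx
    rw [h3, map_zero]

end

end

section

open Pool.Agent.TBR Polynomial

section

open scoped IntermediateField.algebraAdjoinAdjoin in
private theorem restd_alg {k : Type u} {L : Type v} [Field k] [Field L] [Algebra k L] (u v : L)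
    (h : Transcendental k u → IsAlgebraic (IntermediateField.adjoin k {u}) v) :
    ∃ P : Polynomial (Polynomial k), P ≠ 0 ∧
      P.eval₂ (Polynomial.aeval (R := k) u).toRingHom v = 0 := by
  by_cases hu : IsAlgebraic k u
  · obtain ⟨q, hq, hq0⟩ := hu
    refine ⟨Polynomial.C q, by simpa using hq, ?_⟩
    rw [Polynomial.eval₂_C]
    exact hq0
  · have h1 := h hu
    have h2 : IsAlgebraic (Algebra.adjoin k {u}) v :=
      (IsFractionRing.isAlgebraic_iff (Algebra.adjoin k {u})
        (IntermediateField.adjoin k {u}) L).2 h1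
    obtain ⟨p, hp, hp0⟩ := h2
    have hmem : ∀ q : Polynomial k, Polynomial.aeval u q ∈ Algebra.adjoin k {u} := fun q => by
      rw [Algebra.adjoin_singleton_eq_range_aeval]
      exact ⟨q, rfl⟩
    let φ : Polynomial k →+* Algebra.adjoin k {u} :=
      ((Polynomial.aeval (R := k) u).codRestrict (Algebra.adjoin k {u}) hmem).toRingHom
    have hφ : Function.Surjective φ := by
      rintro ⟨y, hy⟩
      have hy' := hy
      rw [Algebra.adjoin_singleton_eq_range_aeval] at hy'
      obtain ⟨q, hq⟩ := hy'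
      exact ⟨q, Subtype.ext hq⟩
    obtain ⟨P, hP⟩ := Polynomial.map_surjective φ hφ p
    refine ⟨P, fun h0 => hp (by rw [← hP, h0, Polynomial.map_zero]), ?_⟩
    have h3 : Polynomial.aeval v p = P.eval₂ ((algebraMap (Algebra.adjoin k {u}) L).comp φ) v := by
      rw [← hP, Polynomial.aeval_def, Polynomial.eval₂_map]
    rw [hp0] at h3
    exact h3.symm

private theorem restd_scale {k : Type u} [Field k] (V : ValuationSubring k)
    (P : Polynomial (Polynomial k)) (hP : P ≠ 0) :
    ∃ (c : k) (P₂ : Polynomial (Polynomial V)) (i j : ℕ),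
      P₂.map (Polynomial.mapRingHom V.subtype) = Polynomial.C (Polynomial.C c) * P ∧
      (P₂.coeff i).coeff j = 1 := by
  classical
  let I : Finset (Σ _ : ℕ, ℕ) := P.support.sigma fun i => (P.coeff i).support
  have hI : I.Nonempty := by
    obtain ⟨i, hi⟩ := Polynomial.support_nonempty.2 hP
    obtain ⟨j, hj⟩ := Polynomial.support_nonempty.2 (Polynomial.mem_support_iff.1 hi)
    exact ⟨⟨i, j⟩, Finset.mem_sigma.2 ⟨hi, hj⟩⟩
  obtain ⟨⟨i, j⟩, hij, hmax⟩ := Finset.exists_max_image I
    (fun a => V.valuation ((P.coeff a.1).coeff a.2)) hI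
  have hc : (P.coeff i).coeff j ≠ 0 := Polynomial.mem_support_iff.1 (Finset.mem_sigma.1 hij).2
  have hall : ∀ a b, ((P.coeff i).coeff j)⁻¹ * (P.coeff a).coeff b ∈ V := by
    intro a b
    by_cases h0 : (P.coeff a).coeff b = 0
    · rw [h0, mul_zero]
      exact V.zero_mem
    · have hab : (⟨a, b⟩ : Σ _ : ℕ, ℕ) ∈ I := by
        refine Finset.mem_sigma.2 ⟨?_, Polynomial.mem_support_iff.2 h0⟩
        refine Polynomial.mem_support_iff.2 fun h1 => h0 ?_
        change P.coeff a = 0 at h1
        rw [h1, Polynomial.coeff_zero]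
      have h2 := hmax _ hab
      simp only at h2
      rw [← V.valuation_le_one_iff, map_mul, map_inv₀]
      have h3 : V.valuation ((P.coeff i).coeff j) ≠ 0 := (map_ne_zero V.valuation).2 hc
      calc (V.valuation ((P.coeff i).coeff j))⁻¹ * V.valuation ((P.coeff a).coeff b)
          ≤ (V.valuation ((P.coeff i).coeff j))⁻¹ * V.valuation ((P.coeff i).coeff j) :=
            mul_le_mul_right h2 _
        _ = 1 := inv_mul_cancel₀ h3
  have hl : Polynomial.C (Polynomial.C ((P.coeff i).coeff j)⁻¹) * P ∈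
      Polynomial.lifts (Polynomial.mapRingHom V.subtype) := by
    rw [Polynomial.lifts_iff_coeff_lifts]
    intro a
    have h4 : (Polynomial.C (Polynomial.C ((P.coeff i).coeff j)⁻¹) * P).coeff a ∈
        Polynomial.lifts V.subtype := by
      rw [Polynomial.lifts_iff_coeff_lifts]
      intro b
      rw [Polynomial.coeff_C_mul, Polynomial.coeff_C_mul]
      exact ⟨⟨_, hall a b⟩, rfl⟩
    obtain ⟨q, hq⟩ := h4
    exact ⟨q, hq⟩
  obtain ⟨P₂, hP₂⟩ := hl
  refine ⟨((P.coeff i).coeff j)⁻¹, P₂, i, j, hP₂, ?_⟩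
  apply Subtype.ext
  have h5 := congrArg (fun Q : Polynomial (Polynomial k) => (Q.coeff i).coeff j) hP₂
  simp only [Polynomial.coe_mapRingHom, Polynomial.coeff_map, Polynomial.coeff_C_mul] at h5
  rw [inv_mul_cancel₀ hc] at h5
  exact h5

theorem restd {K Kt K₂ k₁ : Type u} [Field K] [Field Kt] [Field K₂] [Field k₁] [Algebra Kt K₂]
    [Algebra K k₁] (htd : Td1 Kt K₂) (V₀ : ValuationSubring Kt) (π₀ : V₀ →+* K)
    (hs₀ : Function.Surjective π₀) (hk₀ : ∀ v : V₀, π₀ v = 0 ↔ (v : Kt) ∈ V₀.nonunits)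
    (V₁ : ValuationSubring K₂) (hV : ∀ x : Kt, x ∈ V₀ → algebraMap Kt K₂ x ∈ V₁)
    (π₁ : V₁ →+* k₁) (hs₁ : Function.Surjective π₁)
    (hc : ∀ x : V₀, π₁ ⟨algebraMap Kt K₂ x, hV x x.2⟩ = algebraMap K k₁ (π₀ x)) : Td1 K k₁ := by
  intro t ht x
  obtain ⟨u, rfl⟩ := hs₁ t
  obtain ⟨v, rfl⟩ := hs₁ x
  obtain ⟨P, hP, hP0⟩ := restd_alg (u : K₂) (v : K₂) (fun h => htd u h v)
  obtain ⟨c, P₂, i, j, hP₂, hij⟩ := restd_scale V₀ P hP
  let ι : V₀ →+* V₁ := ((algebraMap Kt K₂).comp V₀.subtype).codRestrict V₁.toSubring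
    fun x => hV x x.2
  let σ : Polynomial V₀ →+* V₁ := Polynomial.eval₂RingHom ι u
  have hσ : V₁.subtype.comp σ =
      ((Polynomial.aeval (R := Kt) (u : K₂)).toRingHom).comp
        (Polynomial.mapRingHom V₀.subtype) := by
    refine Polynomial.ringHom_ext (fun a => ?_) ?_
    · simp only [σ, RingHom.comp_apply, Polynomial.coe_eval₂RingHom, Polynomial.eval₂_C,
        Polynomial.coe_mapRingHom, Polynomial.map_C]
      change algebraMap Kt K₂ (a : Kt) = Polynomial.aeval (u : K₂) (Polynomial.C (a : Kt))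
      rw [Polynomial.aeval_C]
    · simp only [σ, RingHom.comp_apply, Polynomial.coe_eval₂RingHom, Polynomial.eval₂_X,
        Polynomial.coe_mapRingHom, Polynomial.map_X]
      change (u : K₂) = Polynomial.aeval (u : K₂) (Polynomial.X : Polynomial Kt)
      rw [Polynomial.aeval_X]
  have hσ1 : π₁.comp σ = ((Polynomial.aeval (R := K) (π₁ u)).toRingHom).comp
      (Polynomial.mapRingHom π₀) := by
    refine Polynomial.ringHom_ext (fun a => ?_) ?_
    · simp only [σ, RingHom.comp_apply, Polynomial.coe_eval₂RingHom, Polynomial.eval₂_C,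
        Polynomial.coe_mapRingHom, Polynomial.map_C]
      change π₁ (ι a) = Polynomial.aeval (π₁ u) (Polynomial.C (π₀ a))
      rw [Polynomial.aeval_C, ← hc a]
      rfl
    · simp only [σ, RingHom.comp_apply, Polynomial.coe_eval₂RingHom, Polynomial.eval₂_X,
        Polynomial.coe_mapRingHom, Polynomial.map_X]
      change π₁ u = Polynomial.aeval (π₁ u) (Polynomial.X : Polynomial K)
      rw [Polynomial.aeval_X]
  have h0 : P₂.eval₂ σ v = 0 := by
    apply Subtype.ext
    have h1 : V₁.subtype (P₂.eval₂ σ v) = P₂.eval₂ (V₁.subtype.comp σ) (v : K₂) :=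
      Polynomial.hom_eval₂ P₂ σ V₁.subtype v
    change V₁.subtype (P₂.eval₂ σ v) = 0
    rw [h1, hσ, ← Polynomial.eval₂_map, hP₂, Polynomial.eval₂_mul, hP0, mul_zero]
  have h2 : P₂.eval₂ (π₁.comp σ) (π₁ v) = 0 := by
    rw [← Polynomial.hom_eval₂, h0, map_zero]
  rw [hσ1, ← Polynomial.eval₂_map] at h2
  -- the polynomial over the field generated by the residue of `u`
  have hmem : ∀ q : Polynomial K, Polynomial.aeval (π₁ u) q ∈
      (IntermediateField.adjoin K {π₁ u}).toSubalgebra := fun q => by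
    have : Polynomial.aeval (π₁ u) q ∈ Algebra.adjoin K {π₁ u} := by
      rw [Algebra.adjoin_singleton_eq_range_aeval]
      exact ⟨q, rfl⟩
    exact IntermediateField.algebra_adjoin_le_adjoin K {π₁ u} this
  let φ : Polynomial K →+* IntermediateField.adjoin K {π₁ u} :=
    ((Polynomial.aeval (R := K) (π₁ u)).codRestrict
      (IntermediateField.adjoin K {π₁ u}).toSubalgebra hmem).toRingHom
  refine ⟨(P₂.map (Polynomial.mapRingHom π₀)).map φ, fun h3 => ?_, ?_⟩
  · have h4 := congrArg (fun Q => Polynomial.coeff Q i) h3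
    simp only [Polynomial.coeff_map, Polynomial.coeff_zero] at h4
    have h5 : Polynomial.aeval (π₁ u) ((P₂.coeff i).map π₀) = 0 := congrArg Subtype.val h4
    have h6 : (P₂.coeff i).map π₀ = 0 := by
      by_contra h7
      exact ht ⟨_, h7, h5⟩
    have h8 := congrArg (fun Q => Polynomial.coeff Q j) h6
    simp only [Polynomial.coeff_map, Polynomial.coeff_zero, hij, map_one] at h8
    exact one_ne_zero h8
  · rw [Polynomial.aeval_def, Polynomial.eval₂_map]
    exact h2

end

end

section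

open Pool.Agent.TBR Polynomial

section

theorem rgB_nu {L : Type u} [Field L] (V : ValuationSubring L) (x : L) :
    x ∈ V.nonunits ↔ x = 0 ∨ x⁻¹ ∉ V := by
  constructor
  · intro h
    by_cases hx : x = 0
    · exact Or.inl hx
    · right
      intro h1
      have h2 := (ValuationSubring.mem_nonunits_iff V).1 h
      have h3 := (V.valuation_le_one_iff x⁻¹).2 h1
      rw [map_inv₀, inv_le_one₀ (zero_lt_iff.2 ((map_ne_zero V.valuation).2 hx))] at h3
      exact absurd h2 (not_lt.2 h3)
  · rintro (rfl | h)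
    · rw [ValuationSubring.mem_nonunits_iff, map_zero]
      exact zero_lt_one
    · have hx : x ≠ 0 := by
        rintro rfl
        rw [inv_zero] at h
        exact h V.zero_mem
      rw [ValuationSubring.mem_nonunits_iff]
      by_contra h1
      apply h
      rw [← V.valuation_le_one_iff, map_inv₀, inv_le_one₀
        (zero_lt_iff.2 ((map_ne_zero V.valuation).2 hx))]
      exact not_lt.1 h1

theorem rgB_comap {K₂ L : Type u} [Field K₂] [Field L] [Algebra K₂ L] (V : ValuationSubring L)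
    (c : V.comap (algebraMap K₂ L)) :
    IsLocalRing.residue (V.comap (algebraMap K₂ L)) c = 0 ↔ algebraMap K₂ L c ∈ V.nonunits := by
  rw [IsLocalRing.residue_eq_zero_iff]
  have h1 : c ∈ IsLocalRing.maximalIdeal (V.comap (algebraMap K₂ L)) ↔
      (c : K₂) ∈ (V.comap (algebraMap K₂ L)).nonunits := by
    rw [ValuationSubring.mem_nonunits_iff_exists_mem_maximalIdeal]
    constructor
    · intro h
      exact ⟨c.2, h⟩
    · rintro ⟨_, h⟩
      exact h
  rw [h1, rgB_nu, rgB_nu, ValuationSubring.mem_comap, map_inv₀,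
    map_eq_zero_iff _ (algebraMap K₂ L).injective]

/-- the common denominator -/
theorem rgB_den {K k₁ : Type u} [Field K] [Field k₁] [Algebra K k₁] (y : Fin 3 → RatFunc k₁) :
    ∃ (𝒟 : Finset k₁) (n : Fin 3 → Polynomial k₁) (δ : Polynomial k₁),
      (∀ i m, (n i).coeff m ∈ Algebra.adjoin K (𝒟 : Set k₁)) ∧
      (∀ m, δ.coeff m ∈ Algebra.adjoin K (𝒟 : Set k₁)) ∧ δ ≠ 0 ∧
      ∀ i, y i * algebraMap (Polynomial k₁) (RatFunc k₁) δ =
        algebraMap (Polynomial k₁) (RatFunc k₁) (n i) := by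
  classical
  obtain ⟨b, hb⟩ := IsLocalization.exist_integer_multiples_of_finite
    (nonZeroDivisors (Polynomial k₁)) y
  choose n hn using hb
  let 𝒟 : Finset k₁ := (Finset.univ.biUnion fun i => (n i).support.image (n i).coeff) ∪
    (b : Polynomial k₁).support.image (b : Polynomial k₁).coeff
  refine ⟨𝒟, n, b, ?_, ?_, nonZeroDivisors.coe_ne_zero b, ?_⟩
  · intro i m
    by_cases hm : m ∈ (n i).support
    · refine Algebra.subset_adjoin ?_
      simp only [𝒟, Finset.coe_union, Set.mem_union, Finset.mem_coe, Finset.mem_biUnion,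
        Finset.mem_univ, true_and, Finset.mem_image]
      exact Or.inl ⟨i, m, hm, rfl⟩
    · rw [Polynomial.notMem_support_iff.1 hm]
      exact Subalgebra.zero_mem _
  · intro m
    by_cases hm : m ∈ (b : Polynomial k₁).support
    · refine Algebra.subset_adjoin ?_
      simp only [𝒟, Finset.coe_union, Set.mem_union, Finset.mem_coe, Finset.mem_image]
      exact Or.inr ⟨m, hm, rfl⟩
    · rw [Polynomial.notMem_support_iff.1 hm]
      exact Subalgebra.zero_mem _
  · intro i
    have h1 := hn i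
    rw [Algebra.smul_def] at h1
    rw [h1, mul_comm]

theorem rgB_am {K k₁ : Type u} [Field K] [Field k₁] [Algebra K k₁] (c : K) :
    algebraMap K (RatFunc k₁) c = RatFunc.C (algebraMap K k₁ c) := by
  rw [IsScalarTower.algebraMap_apply K (Polynomial k₁) (RatFunc k₁), Polynomial.algebraMap_apply,
    RatFunc.algebraMap_C]

theorem rgB_core {k K Kt K₂ L : Type u} [Field k] [Field K] [Field Kt] [Field K₂] [Field L]
    [Algebra k K] [Algebra k Kt] [Algebra Kt K₂] [Algebra K₂ L] [Algebra Kt L]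
    [IsScalarTower Kt K₂ L] [IsAlgClosed K₂]
    (f g : MvPolynomial (Fin 2) k) (hg : g ≠ 0)
    (htd : Td1 Kt K₂) (τ : L) (hτ : Transcendental K₂ τ)
    (hgen : IntermediateField.adjoin K₂ {τ} = ⊤)
    (lam : Kt) (l : K) (V₀ : ValuationSubring Kt) (π₀ : V₀ →+* K)
    (hk : ∀ x : k, algebraMap k Kt x ∈ V₀) (hl : lam ∈ V₀) (hs₀ : Function.Surjective π₀)
    (hk₀ : ∀ v : V₀, π₀ v = 0 ↔ (v : Kt) ∈ V₀.nonunits)
    (hc₀ : ∀ x : k, π₀ ⟨algebraMap k Kt x, hk x⟩ = algebraMap k K x)
    (hl₀ : π₀ ⟨lam, hl⟩ = l)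
    (X : Fin 2 → L) (hX : AlgebraicIndependent Kt X) (w : L)
    (hw : w ^ 2 * MvPolynomial.aeval X (MvPolynomial.map (algebraMap k Kt) g) =
      MvPolynomial.aeval X (MvPolynomial.map (algebraMap k Kt) f) - algebraMap Kt L lam *
        MvPolynomial.aeval X (MvPolynomial.map (algebraMap k Kt) g)) :
    ∃ (k₁ : Type u) (_ : Field k₁) (_ : Algebra K k₁) (𝒟 : Finset k₁) (n : Fin 3 → Polynomial k₁)
      (δ : Polynomial k₁) (y : Fin 3 → RatFunc k₁),
      RU (MvPolynomial.map (algebraMap k K) f) (MvPolynomial.map (algebraMap k K) g) l 𝒟 n δ y := by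
  obtain ⟨V, hV0, hXV, hVq⟩ := vgauss V₀ X hX
  have hV01 : ∀ x : Kt, x ∈ V₀ → algebraMap Kt K₂ x ∈ V.comap (algebraMap K₂ L) := by
    intro x hx
    rw [ValuationSubring.mem_comap, ← IsScalarTower.algebraMap_apply]
    exact (hV0 x).2 hx
  let V₁ : ValuationSubring K₂ := V.comap (algebraMap K₂ L)
  let k₁ : Type u := IsLocalRing.ResidueField V₁
  let π₁ : V₁ →+* k₁ := IsLocalRing.residue V₁
  have hs₁ : Function.Surjective π₁ := IsLocalRing.residue_surjective
  have hk₁ : ∀ c, π₁ c = 0 ↔ algebraMap K₂ L c ∈ V.nonunits := rgB_comap V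
  let i₀ : V₀ →+* V₁ :=
    (((algebraMap Kt K₂).comp V₀.subtype).codRestrict V₁.toSubring fun x => hV01 x x.2)
  have hi₀ : ∀ v : V₀, ((i₀ v : V₁) : K₂) = algebraMap Kt K₂ v := fun v => rfl
  have hnu : ∀ x : Kt, algebraMap Kt L x ∈ V.nonunits ↔ x ∈ V₀.nonunits := by
    intro x
    rw [rgB_nu, rgB_nu, ← map_inv₀, hV0, map_eq_zero_iff _ (algebraMap Kt L).injective]
  have hker : RingHom.ker π₀ ≤ RingHom.ker (π₁.comp i₀) := by
    intro v hv
    rw [RingHom.mem_ker] at hv ⊢
    rw [RingHom.comp_apply, hk₁, hi₀, ← IsScalarTower.algebraMap_apply, hnu]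
    exact (hk₀ v).1 hv
  let ρ : K →+* k₁ := (RingHom.liftOfSurjective π₀ hs₀) ⟨π₁.comp i₀, hker⟩
  have hρ : ∀ v : V₀, ρ (π₀ v) = π₁ (i₀ v) := fun v =>
    RingHom.liftOfRightInverse_comp_apply π₀ _ _ ⟨π₁.comp i₀, hker⟩ v
  let algK : Algebra K k₁ := ρ.toAlgebra
  have htd1 : Td1 K k₁ := restd htd V₀ π₀ hs₀ hk₀ V₁ hV01 π₁ hs₁ (fun v => (hρ v).symm)
  obtain ⟨Φ, hΦ, hΦk⟩ := rres τ hτ hgen V k₁ π₁ hs₁ hk₁
  let i₁ : V₀ →+* V :=
    (((algebraMap Kt L).comp V₀.subtype).codRestrict V.toSubring fun x => (hV0 x).2 x.2)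
  have hi₁ : ∀ v : V₀, ((i₁ v : V) : L) = algebraMap Kt L v := fun v => rfl
  let XV : Fin 2 → V := fun i => ⟨X i, hXV i⟩
  let Ψ : MvPolynomial (Fin 2) V₀ →+* V := MvPolynomial.eval₂Hom i₁ XV
  have hΨ1 : ∀ q, ((Ψ q : V) : L) = MvPolynomial.aeval X (MvPolynomial.map V₀.subtype q) := by
    intro q
    have h : (V.subtype : V →+* L).comp Ψ =
        (MvPolynomial.aeval X : MvPolynomial (Fin 2) Kt →ₐ[Kt] L).toRingHom.comp
          (MvPolynomial.map V₀.subtype) := by
      refine MvPolynomial.ringHom_ext ?_ ?_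
      · intro v
        simp only [RingHom.comp_apply, Ψ, MvPolynomial.eval₂Hom_C, MvPolynomial.map_C,
          AlgHom.toRingHom_eq_coe, RingHom.coe_coe, MvPolynomial.aeval_C]
        rfl
      · intro i
        simp only [RingHom.comp_apply, Ψ, MvPolynomial.eval₂Hom_X', MvPolynomial.map_X,
          AlgHom.toRingHom_eq_coe, RingHom.coe_coe, MvPolynomial.aeval_X]
        rfl
    exact RingHom.congr_fun h q
  let y' : Fin 2 → RatFunc k₁ := fun i => Φ (XV i)
  have hΦi : ∀ v : V₀, Φ (i₁ v) = algebraMap K (RatFunc k₁) (π₀ v) := by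
    intro v
    rw [rgB_am]
    have h1 : algebraMap K₂ L (algebraMap Kt K₂ v) ∈ V := hV01 v v.2
    have h2 : i₁ v = ⟨algebraMap K₂ L (algebraMap Kt K₂ v), h1⟩ := by
      apply Subtype.ext
      rw [hi₁]
      exact IsScalarTower.algebraMap_apply Kt K₂ L _
    rw [h2, hΦ]
    change RatFunc.C (π₁ (i₀ v)) = RatFunc.C (ρ (π₀ v))
    rw [hρ]
  have hΨ2 : ∀ q, Φ (Ψ q) = MvPolynomial.aeval y' (MvPolynomial.map π₀ q) := by
    intro q
    have h : Φ.comp Ψ =
        (MvPolynomial.aeval y' : MvPolynomial (Fin 2) K →ₐ[K] RatFunc k₁).toRingHom.comp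
          (MvPolynomial.map π₀) := by
      refine MvPolynomial.ringHom_ext ?_ ?_
      · intro v
        simp only [RingHom.comp_apply, Ψ, MvPolynomial.eval₂Hom_C, MvPolynomial.map_C,
          AlgHom.toRingHom_eq_coe, RingHom.coe_coe, MvPolynomial.aeval_C]
        exact hΦi v
      · intro i
        simp only [RingHom.comp_apply, Ψ, MvPolynomial.eval₂Hom_X', MvPolynomial.map_X,
          AlgHom.toRingHom_eq_coe, RingHom.coe_coe, MvPolynomial.aeval_X]
        rfl
    exact RingHom.congr_fun h q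
  -- lifts of the polynomials over k
  let kV : k →+* V₀ := ((algebraMap k Kt).codRestrict V₀.toSubring fun x => hk x)
  have hkV1 : V₀.subtype.comp kV = algebraMap k Kt := rfl
  have hkV2 : π₀.comp kV = algebraMap k K := RingHom.ext fun x => hc₀ x
  have hf1 : ∀ q : MvPolynomial (Fin 2) k, ((Ψ (MvPolynomial.map kV q) : V) : L) =
      MvPolynomial.aeval X (MvPolynomial.map (algebraMap k Kt) q) := by
    intro q
    rw [hΨ1, MvPolynomial.map_map, hkV1]
  have hf2 : ∀ q : MvPolynomial (Fin 2) k, Φ (Ψ (MvPolynomial.map kV q)) =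
      MvPolynomial.aeval y' (MvPolynomial.map (algebraMap k K) q) := by
    intro q
    rw [hΨ2, MvPolynomial.map_map, hkV2]
  -- elements of V₀[X] whose reduction is not zero are units
  have hunit : ∀ Q : MvPolynomial (Fin 2) V₀, MvPolynomial.map π₀ Q ≠ 0 →
      ((Ψ Q : V) : L) ∉ V.nonunits := by
    intro Q hQ
    rw [hΨ1]
    refine hVq _ (fun m => ?_) ?_
    · rw [MvPolynomial.coeff_map]
      exact (MvPolynomial.coeff m Q).2
    · obtain ⟨m, hm⟩ := MvPolynomial.ne_zero_iff.1 hQ
      refine ⟨m, ?_⟩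
      rw [MvPolynomial.coeff_map] at hm ⊢
      intro h
      exact hm ((hk₀ _).2 h)
  have hgu : ((Ψ (MvPolynomial.map kV g) : V) : L) ∉ V.nonunits := by
    refine hunit _ ?_
    rw [MvPolynomial.map_map, hkV2]
    intro h
    exact hg (MvPolynomial.map_injective _ (algebraMap k K).injective (by rw [h, map_zero]))
  have hw' : w ^ 2 * ((Ψ (MvPolynomial.map kV g) : V) : L) = ((Ψ (MvPolynomial.map kV f) : V) : L) -
      ((i₁ ⟨lam, hl⟩ : V) : L) * ((Ψ (MvPolynomial.map kV g) : V) : L) := by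
    rw [hf1, hf1]
    exact hw
  have hwV : w ∈ V := by
    rw [rgB_nu, not_or, not_not] at hgu
    have h1 : w ^ 2 ∈ V := by
      have h2 : w ^ 2 = (((Ψ (MvPolynomial.map kV f) : V) : L) -
          ((i₁ ⟨lam, hl⟩ : V) : L) * ((Ψ (MvPolynomial.map kV g) : V) : L)) *
            ((Ψ (MvPolynomial.map kV g) : V) : L)⁻¹ := by
        rw [← hw', mul_assoc, mul_inv_cancel₀ hgu.1, mul_one]
      rw [h2]
      exact V.mul_mem _ _ (sub_mem (Ψ _).2 (V.mul_mem _ _ (i₁ _).2 (Ψ _).2)) hgu.2
    by_contra h3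
    have h4 : w⁻¹ ∈ V := (V.mem_or_inv_mem w).resolve_left h3
    have hw0 : w ≠ 0 := by
      rintro rfl
      exact h3 V.zero_mem
    apply h3
    have h5 : w = w ^ 2 * w⁻¹ := by
      rw [pow_two, mul_assoc, mul_inv_cancel₀ hw0, mul_one]
    rw [h5]
    exact V.mul_mem _ _ h1 h4
  let y : Fin 3 → RatFunc k₁ := ![Φ (XV 0), Φ (XV 1), Φ ⟨w, hwV⟩]
  have hy' : ![y 0, y 1] = y' := by
    funext i
    fin_cases i <;> rfl
  obtain ⟨𝒟, n, δ, hcn, hcd, hd0, hye⟩ := rgB_den (K := K) y
  refine ⟨k₁, inferInstance, algK, 𝒟, n, δ, y, htd1, hcn, hcd, hd0, hye, ?_, ?_⟩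
  · rw [hy', algebraicIndependent_iff]
    intro q hq
    by_contra hq0
    obtain ⟨Q, hQ⟩ := MvPolynomial.map_surjective π₀ hs₀ q
    apply hunit Q (by rw [hQ]; exact hq0)
    rw [← hΦk, hΨ2, hQ]
    exact hq
  · rw [hy', ← hf2, ← hf2, ← hl₀, ← hΦi]
    change Φ ⟨w, hwV⟩ ^ 2 * _ = _
    rw [← map_pow, ← map_mul, ← map_mul, ← map_sub]
    congr 1
    apply Subtype.ext
    exact hw'

open scoped IntermediateField.algebraAdjoinAdjoin in
theorem rgB_td1 {E κ : Type u} [Field E] [Field κ] [Algebra E κ] (htr : Td1 E κ) {c : κ}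
    (hc : Transcendental E c) : Td1 E (AlgebraicClosure κ) := by
  have h1 : Algebra.IsAlgebraic (Algebra.adjoin E {c}) κ := by
    refine ⟨fun y => ?_⟩
    exact (IsFractionRing.isAlgebraic_iff (Algebra.adjoin E {c})
      (IntermediateField.adjoin E {c}) κ).mpr (htr c hc y)
  have h2 : Algebra.trdeg E κ ≤ 1 := by
    have := Algebra.IsAlgebraic.trdeg_le_cardinalMk E ({c} : Set κ)
    rwa [Cardinal.mk_singleton] at this
  have h3 : Algebra.trdeg κ (AlgebraicClosure κ) = 0 :=
    _root_.trdeg_eq_zero_iff.2 inferInstance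
  have h4 := _root_.trdeg_add_eq E κ (A := AlgebraicClosure κ)
  rw [h3, add_zero] at h4
  intro t ht x
  have h5 : AlgebraicIndependent E (fun _ : PUnit.{u+1} => t) :=
    algebraicIndependent_unique_type_iff.2 ht
  have h6 : IsTranscendenceBasis E (fun _ : PUnit.{u+1} => t) := by
    refine h5.isTranscendenceBasis_of_trdeg_le_of_finite ?_
    rw [← h4, Cardinal.mk_punit]
    exact h2
  have h7 := h6.isAlgebraic_field
  have h8 : Set.range (fun _ : PUnit.{u+1} => t) = {t} := Set.range_const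
  rw [h8] at h7
  exact h7.isAlgebraic x

open scoped IntermediateField.algebraAdjoinAdjoin in
theorem rgB_td0 (E : Type u) [Field E] : Td1 E (RatFunc E) := by
  intro t ht x
  have h5 : AlgebraicIndependent E (fun _ : PUnit.{u+1} => t) :=
    algebraicIndependent_unique_type_iff.2 ht
  have h1 : Algebra.IsAlgebraic (Algebra.adjoin E {(RatFunc.X : RatFunc E)}) (RatFunc E) := by
    refine ⟨fun y => ?_⟩
    have hy : y ∈ IntermediateField.adjoin E {(RatFunc.X : RatFunc E)} := by
      rw [RatFunc.adjoin_X]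
      trivial
    exact (IsFractionRing.isAlgebraic_iff (Algebra.adjoin E {(RatFunc.X : RatFunc E)})
      (IntermediateField.adjoin E {(RatFunc.X : RatFunc E)}) (RatFunc E)).mpr
        (isAlgebraic_algebraMap (⟨y, hy⟩ : IntermediateField.adjoin E {(RatFunc.X : RatFunc E)}))
  have h2 : Algebra.trdeg E (RatFunc E) ≤ 1 := by
    have := Algebra.IsAlgebraic.trdeg_le_cardinalMk E ({RatFunc.X} : Set (RatFunc E))
    rwa [Cardinal.mk_singleton] at this
  have h6 : IsTranscendenceBasis E (fun _ : PUnit.{u+1} => t) := by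
    refine h5.isTranscendenceBasis_of_trdeg_le_of_finite ?_
    rw [Cardinal.mk_punit]
    exact h2
  have h7 := h6.isAlgebraic_field
  have h8 : Set.range (fun _ : PUnit.{u+1} => t) = {t} := Set.range_const
  rw [h8] at h7
  exact h7.isAlgebraic x

/-- an embedding of the field of rational functions in two variables -/
theorem rgB_emb (Kt : Type u) [Field Kt] :
    ∃ j : MvPolynomial (Fin 2) Kt →ₐ[Kt] RatFunc (AlgebraicClosure (RatFunc Kt)),
      Function.Injective j := by
  let K₂ := AlgebraicClosure (RatFunc Kt)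
  let a : K₂ := algebraMap (RatFunc Kt) K₂ RatFunc.X
  have ha : Transcendental Kt a := by
    intro h
    exact RatFunc.transcendental_X ((isAlgebraic_algebraMap_iff
      (algebraMap (RatFunc Kt) K₂).injective).1 h)
  have h1 : Function.Injective (MvPolynomial.aeval (fun _ : Fin 1 => a) :
      MvPolynomial (Fin 1) Kt →ₐ[Kt] K₂) := by
    rw [← algebraicIndependent_iff_injective_aeval]
    exact algebraicIndependent_unique_type_iff.2 ha
  let j₁ : Polynomial (MvPolynomial (Fin 1) Kt) →ₐ[Kt] Polynomial K₂ :=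
    Polynomial.mapAlgHom (MvPolynomial.aeval (fun _ : Fin 1 => a))
  have hj₁ : Function.Injective j₁ := Polynomial.map_injective _ h1
  let j₂ : Polynomial K₂ →ₐ[Kt] RatFunc K₂ :=
    (IsScalarTower.toAlgHom Kt (Polynomial K₂) (RatFunc K₂))
  have hj₂ : Function.Injective j₂ := RatFunc.algebraMap_injective K₂
  refine ⟨(j₂.comp j₁).comp (MvPolynomial.finSuccEquiv Kt 1).toAlgHom, ?_⟩
  exact (hj₂.comp hj₁).comp (MvPolynomial.finSuccEquiv Kt 1).injective

theorem rgB {k K : Type u} [Field k] [Field K] [Algebra k K] [IsAlgClosed K]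
    (hK : Algebra.IsAlgebraic k K) (f g : MvPolynomial (Fin 2) k) (hg : g ≠ 0)
    (hR : DPU f g (AlgebraicClosure (RatFunc k))
      (algebraMap (RatFunc k) (AlgebraicClosure (RatFunc k)) RatFunc.X)) (l : K) :
    ∃ (k₁ : Type u) (_ : Field k₁) (_ : Algebra K k₁) (𝒟 : Finset k₁) (n : Fin 3 → Polynomial k₁)
      (δ : Polynomial k₁) (y : Fin 3 → RatFunc k₁),
      RU (MvPolynomial.map (algebraMap k K) f) (MvPolynomial.map (algebraMap k K) g) l 𝒟 n δ y := by
  let Kt : Type u := AlgebraicClosure (RatFunc k)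
  let lam : Kt := algebraMap (RatFunc k) Kt RatFunc.X
  have hlam : Transcendental k lam := by
    intro h
    exact RatFunc.transcendental_X ((isAlgebraic_algebraMap_iff
      (algebraMap (RatFunc k) Kt).injective).1 h)
  have halg : ∀ x : Kt, IsAlgebraic (IntermediateField.adjoin k {lam}) x :=
    rgB_td1 (rgB_td0 k) RatFunc.transcendental_X lam hlam
  obtain ⟨V₀, π₀, hk, hl, hs₀, hk₀, hc₀, hl₀⟩ := place hK lam hlam halg l
  obtain ⟨X, W, hX, hW⟩ := hR
  let K₂ : Type u := AlgebraicClosure (RatFunc Kt)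
  let L : Type u := RatFunc K₂
  obtain ⟨j₀, hj₀⟩ := rgB_emb Kt
  let j : FractionRing (MvPolynomial (Fin 2) Kt) →ₐ[Kt] L := IsFractionRing.liftAlgHom hj₀
  have htd : Td1 Kt K₂ := rgB_td1 (rgB_td0 Kt) RatFunc.transcendental_X
  have hX' : AlgebraicIndependent Kt (fun i => j (X i)) :=
    hX.map' (f := j) j.injective
  have hae : ∀ q : MvPolynomial (Fin 2) k, j (MvPolynomial.aeval X q) =
      MvPolynomial.aeval (fun i => j (X i)) (MvPolynomial.map (algebraMap k Kt) q) := by
    intro q
    have h1 : MvPolynomial.aeval X q = MvPolynomial.aeval X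
        (MvPolynomial.map (algebraMap k Kt) q) := by
      rw [MvPolynomial.aeval_map_algebraMap]
    rw [h1]
    exact MvPolynomial.comp_aeval_apply (f := X) j (MvPolynomial.map (algebraMap k Kt) q)
  refine rgB_core f g hg htd (RatFunc.X : L) RatFunc.transcendental_X RatFunc.adjoin_X lam l V₀ π₀
    hk hl hs₀ hk₀ hc₀ hl₀ (fun i => j (X i)) hX' (j W) ?_
  rw [← hae, ← hae, ← map_pow, ← map_mul, hW, map_sub, map_mul, j.commutes]

end

end

end Pool.Agent.RDP
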