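import Pool.Agent.RDM.Ru
import Pool.Agent.RDM.Lc
import Pool.Agent.TBM.Main
import Pool.Agent.RDM.Fod
import Pool.Agent.RDM.Ruled
import Pool.Agent.RDM.Spec
import Pool.Agent.RDM.B2
import Pool.Agent.RDM.B3
import Pool.Agent.RDM.A4
import Pool.Agent.RDM.B1

/-!
# Lemma C
-/

set_option autoImplicit false

namespace Pool.Agent.RDP

universe u v w

section

open Pool.Agent.TBR Polynomial

section

theorem lemC_core {k K E k₁ : Type u} [Field k] [Field K] [Field E] [IsAlgClosed E] [Algebra k K]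
    [Algebra K E] [Algebra k E] [IsScalarTower k K E] [Field k₁] [Algebra K k₁]
    (h2 : (2 : k) ≠ 0) (f g : MvPolynomial (Fin 2) k) (P : Fin 2 → E) (hP : AlgebraicIndependent k P)
    (hg : g ≠ 0) (t : E) (ht : t * MvPolynomial.aeval P g = MvPolynomial.aeval P f)
    (hG : Irreducible (MvPolynomial.map (algebraMap k E) f -
      MvPolynomial.C t * MvPolynomial.map (algebraMap k E) g)) (s : E) (l' : K)
    (hl : algebraMap K E l' = t - s ^ 2)
    (hKE : ∀ x : K, IsAlgebraic (IntermediateField.adjoin k {t - s ^ 2}) (algebraMap K E x))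
    {𝒟₁ : Finset k₁} {n₁ : Fin 3 → Polynomial k₁} {δ₁ : Polynomial k₁} {y₁ : Fin 3 → RatFunc k₁}
    (h : RU (MvPolynomial.map (algebraMap k K) f) (MvPolynomial.map (algebraMap k K) g) l' 𝒟₁
      n₁ δ₁ y₁)
    (hcase : (∃ a, 𝒟₁ = {a} ∧ Transcendental K a) ∨ Algebra.IsAlgebraic k K)
    (J₀ : Ideal (MvPolynomial (Fin 3) E))
    (hJ₀ : Sc (MvPolynomial.map (algebraMap k E) f) (MvPolynomial.map (algebraMap k E) g)
      (t - s ^ 2) s J₀) :
    ∃ (c₀ m : ℕ) (e : Fin m → ℤ) (J : Fin m → Ideal (MvPolynomial (Fin 3) E))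
      (D : (Fin 2 → E) → ℤ), 0 < c₀ ∧
      Pri (MvPolynomial.map (algebraMap k E) f - MvPolynomial.C t * MvPolynomial.map (algebraMap k E) g)
        (MvPolynomial.map (algebraMap k E) g) D ∧
      (∀ i, Sc (MvPolynomial.map (algebraMap k E) f) (MvPolynomial.map (algebraMap k E) g) (t - s ^ 2) s (J i) ∧
        ∃ κ : IntermediateField k E, Alw k (t - s ^ 2) (J i) κ) ∧
      ∀ Q, Gp (MvPolynomial.map (algebraMap k E) f - MvPolynomial.C t * MvPolynomial.map (algebraMap k E) g)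
        (MvPolynomial.map (algebraMap k E) g) Q →
        (c₀ : ℤ) * (cy J₀ s Q).toNat = D Q + ∑ i, e i * (cy (J i) s Q).toNat := by
  classical
  obtain ⟨f', hf'⟩ : ∃ f', f' = MvPolynomial.map (algebraMap k E) f := ⟨_, rfl⟩
  obtain ⟨g', hg'⟩ : ∃ g', g' = MvPolynomial.map (algebraMap k E) g := ⟨_, rfl⟩
  obtain ⟨l, hl0⟩ : ∃ l, l = t - s ^ 2 := ⟨_, rfl⟩
  obtain ⟨hF, -⟩ := sq f g P hP hg t ht hG l
  have hcu := cuA (k := k) f g hg l hF
  rw [← hf', ← hg'] at hG hF hcu
  rw [← hf', ← hg', ← hl0] at hJ₀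
  rw [← hf', ← hg', ← hl0]
  rw [← hl0] at hl hKE
  have h2E : (2 : E) ≠ 0 := by
    intro h0
    apply h2
    apply (algebraMap k E).injective
    rw [map_zero, map_ofNat, h0]
  have hg'0 : g' ≠ 0 := by
    rw [hg']
    intro h0
    exact hg (MvPolynomial.map_injective _ (algebraMap k E).injective (by rw [h0, map_zero]))
  have hgK : MvPolynomial.map (algebraMap k K) g ≠ 0 := fun h0 =>
    hg (MvPolynomial.map_injective _ (algebraMap k K).injective (by rw [h0, map_zero]))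
  -- the parametrization over `E`
  obtain ⟨M, N, iM, iN, iEM, iMN, iEN, iKM, iKN, tEMN, tKEM, tKEN, tKMN, 𝒟, θ, n, δ, y, hRD, htrD,
    hD⟩ := rdmk (E := E) _ _ hgK l' 𝒟₁ n₁ δ₁ y₁ h
  have e1 : MvPolynomial.map (algebraMap K E) (MvPolynomial.map (algebraMap k K) f) = f' := by
    rw [MvPolynomial.map_map, ← IsScalarTower.algebraMap_eq, hf']
  have e2 : MvPolynomial.map (algebraMap K E) (MvPolynomial.map (algebraMap k K) g) = g' := by
    rw [MvPolynomial.map_map, ← IsScalarTower.algebraMap_eq, hg']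
  rw [e1, e2, hl] at hRD
  obtain ⟨h₀, hRH⟩ := rdint hRD
  obtain ⟨h₁, hh₁⟩ : ∃ h₁ : MvPolynomial (Fin 3) E, h₁ = MvPolynomial.map (algebraMap K E) h₀ *
    (MvPolynomial.rename Fin.castSucc g' * MvPolynomial.X 2) := ⟨_, rfl⟩
  have hker := ker3 f' g' l hF hg'0 y hRD.ai hRD.eq
  have hren : ∀ q : MvPolynomial (Fin 2) E, MvPolynomial.aeval y
      (MvPolynomial.rename Fin.castSucc q : MvPolynomial (Fin 3) E) =
      MvPolynomial.aeval ![y 0, y 1] q := by
    intro q
    rw [MvPolynomial.aeval_rename]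
    congr 2
    funext i
    fin_cases i
    · rfl
    · rfl
  have hren0 : ∀ q : MvPolynomial (Fin 2) E, q ≠ 0 → MvPolynomial.aeval ![y 0, y 1] q ≠ 0 := by
    intro q hq h0
    exact hq (hRD.ai (by rw [h0, map_zero]))
  have hFr : ∀ q : MvPolynomial (Fin 2) E, q ≠ 0 → ¬ sf f' g' l ∣
      (MvPolynomial.rename Fin.castSucc q : MvPolynomial (Fin 3) E) := by
    intro q hq hd
    rw [← hker, hren] at hd
    exact hren0 q hq hd
  have hy2 : y 2 ≠ 0 := by
    intro h0
    have h3 := hRD.eq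
    rw [h0] at h3
    have h4 : MvPolynomial.aeval ![y 0, y 1] (f' - MvPolynomial.C l * g') = 0 := by
      rw [map_sub, map_mul, MvPolynomial.aeval_C, ← h3]
      ring
    have h5 : f' - MvPolynomial.C l * g' = 0 := by
      by_contra h6
      exact hren0 _ h6 h4
    have h6 : sf f' g' l = (MvPolynomial.rename Fin.castSucc g' * MvPolynomial.X 2) *
        MvPolynomial.X 2 := by
      unfold sf
      rw [h5, map_zero, sub_zero]
      ring
    have hX2 : ¬ IsUnit (MvPolynomial.X 2 : MvPolynomial (Fin 3) E) := by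
      intro hu
      have h7 := hu.map (MvPolynomial.eval (fun _ : Fin 3 => (0 : E)))
      rw [MvPolynomial.eval_X] at h7
      exact not_isUnit_zero h7
    rcases hF.isUnit_or_isUnit h6 with h7 | h7
    · exact hX2 (isUnit_of_mul_isUnit_right h7)
    · exact hX2 h7
  have hd₁ : ¬ sf f' g' l ∣ h₁ := by
    rw [← hker, hh₁, map_mul, map_mul, MvPolynomial.aeval_X, hren]
    exact mul_ne_zero hRH.1 (mul_ne_zero (hren0 _ hg'0) hy2)
  have hcoef : ∀ m, IsAlgebraic (IntermediateField.adjoin k {l}) (MvPolynomial.coeff m h₁) := by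
    intro m
    have h3 : h₁ = MvPolynomial.map (algebraMap K E) (h₀ * (MvPolynomial.rename Fin.castSucc
        (MvPolynomial.map (algebraMap k K) g) * MvPolynomial.X 2)) := by
      rw [map_mul, map_mul, MvPolynomial.map_X, MvPolynomial.map_rename, e2, hh₁]
    rw [h3, MvPolynomial.coeff_map]
    exact hKE _
  have hcuA : ∀ J : PrimeSpectrum (MvPolynomial (Fin 3) E), Cu (sf f' g' l) J → h₁ ∈ J.asIdeal →
      ∃ κ : IntermediateField k E, Alw k l J.asIdeal κ := fun J hJ hm => hcu h₁ hcoef hd₁ J hJ hm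
  -- the curve
  obtain ⟨J₀', hJ₀'⟩ : ∃ J₀' : PrimeSpectrum (MvPolynomial (Fin 3) E), J₀'.asIdeal = J₀ :=
    ⟨⟨J₀, hJ₀.pr⟩, rfl⟩
  rw [← hJ₀'] at hJ₀ ⊢
  have hCu : Cu (sf f' g' l) J₀' := by
    refine ⟨hJ₀.nm, hJ₀.mem, fun h0 => ?_⟩
    obtain ⟨q, hq0, hq⟩ := hJ₀.al
    rw [h0, Ideal.mem_span_singleton] at hq
    exact hFr q hq0 hq
  -- the trivial relation
  have htriv : (∃ κ : IntermediateField k E, Alw k l J₀'.asIdeal κ) →
      ∃ (c₀ m : ℕ) (e : Fin m → ℤ) (J : Fin m → Ideal (MvPolynomial (Fin 3) E))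
      (D : (Fin 2 → E) → ℤ), 0 < c₀ ∧
      Pri (f' - MvPolynomial.C t * g') g' D ∧
      (∀ i, Sc f' g' l s (J i) ∧ ∃ κ : IntermediateField k E, Alw k l (J i) κ) ∧
      ∀ Q, Gp (f' - MvPolynomial.C t * g') g' Q →
        (c₀ : ℤ) * (cy J₀'.asIdeal s Q).toNat = D Q + ∑ i, e i * (cy (J i) s Q).toNat := by
    intro hal
    have hp0 : Pri (f' - MvPolynomial.C t * g') g' (fun _ => 0) := by
      refine ⟨1, 1, ?_, ?_, fun Q _ => ?_⟩
      · intro h0; exact hG.not_isUnit (isUnit_of_dvd_one h0)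
      · intro h0; exact hG.not_isUnit (isUnit_of_dvd_one h0)
      · rw [sub_self]
    refine ⟨1, 1, fun _ => 1, fun _ => J₀'.asIdeal, fun _ => 0, one_pos, hp0,
      fun _ => ⟨hJ₀, hal⟩, fun Q _ => ?_⟩
    simp
  by_cases hn : h₁ ∈ J₀'.asIdeal
  · exact htriv (hcuA J₀' hCu hn)
  rcases hcase with ⟨a, ha, hat⟩ | hKalg
  · -- generic value
    obtain ⟨a₀, ha₀, ha₀t⟩ := hD a ha hat
    subst ha₀
    obtain ⟨u, v, hu, hv, hlt, hall⟩ := lemC_gen h2E hF hg'0 a₀ ha₀t hRD _ h₁ hRH hh₁ J₀' hCu hn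
    exact lemCB f' g' l s t hl0 hF hg'0 hG
      (fun J => ∃ κ : IntermediateField k E, Alw k l J κ) J₀' hJ₀ u v hu hv hlt
      (fun J hJ hne ho => hcuA J hJ (hall J hJ hne ho))
  · -- algebraic value
    have hft : ∀ (J : Ideal (MvPolynomial (Fin 3) E))
        (ρ : Algebra.adjoin E (𝒟 : Set M) →ₐ[E] E), FT ρ n δ J →
        ∃ κ : IntermediateField k E, Alw k l J κ := by
      intro J ρ hρ
      have h3 := ftA (k := k) (K := K) hKalg l' 𝒟 htrD n δ hRD.cn hRD.cd ρ J hρ
      rwa [hl] at h3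
    rcases lemC_sp h2E hF hg'0 hRD _ h₁ hRH hh₁ J₀' hCu hn with ⟨ρ, hρ⟩ |
      ⟨u, v, hu, hv, hlt, hall⟩
    · exact htriv (hft _ ρ hρ)
    · refine lemCB f' g' l s t hl0 hF hg'0 hG
        (fun J => ∃ κ : IntermediateField k E, Alw k l J κ) J₀' hJ₀ u v hu hv hlt
        (fun J hJ hne ho => ?_)
      rcases hall J hJ hne ho with h3 | ⟨ρ, hρ⟩
      · exact hcuA J hJ h3
      · exact hft _ ρ hρ

end

end

section

open Pool.Agent.TBR Polynomial

section

/-- algebraicity over a generated subalgebra is preserved and reflected by an embedding -/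
theorem lemC_all_tr {K A B : Type*} [Field K] [Field A] [Field B] [Algebra K A] [Algebra K B]
    (φ : A →ₐ[K] B) (S : Set A) (x : A) :
    IsAlgebraic (Algebra.adjoin K S) x ↔ IsAlgebraic (Algebra.adjoin K (φ '' S)) (φ x) := by
  have hS : Algebra.adjoin K (φ '' S) = (Algebra.adjoin K S).map φ :=
    (AlgHom.map_adjoin φ S).symm
  let f : Algebra.adjoin K S →+* Algebra.adjoin K (φ '' S) :=
    RingHom.codRestrict ((φ : A →+* B).comp (Algebra.adjoin K S).val.toRingHom)
      (Algebra.adjoin K (φ '' S)) (fun z => by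
        rw [hS]
        exact ⟨z, z.2, rfl⟩)
  have hf1 : Function.Injective f := fun a b hab => by
    have := congrArg (fun z : Algebra.adjoin K (φ '' S) => (z : B)) hab
    exact Subtype.ext (φ.injective this)
  have hf2 : Function.Surjective f := fun b => by
    have hb : (b : B) ∈ (Algebra.adjoin K S).map φ := hS ▸ b.2
    obtain ⟨a, ha, hab⟩ := hb
    exact ⟨⟨a, ha⟩, Subtype.ext hab⟩
  have hcomp : (algebraMap (Algebra.adjoin K (φ '' S)) B).comp f =
      (φ : A →+* B).comp (algebraMap (Algebra.adjoin K S) A) := rfl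
  constructor
  · intro h
    exact IsAlgebraic.ringHom_of_comp_eq f (φ : A →+* B) h hf1 hcomp
  · intro h
    exact IsAlgebraic.of_ringHom_of_comp_eq f (φ : A →+* B) h hf2 φ.injective hcomp

open scoped IntermediateField.algebraAdjoinAdjoin in
theorem lemC_all {k E : Type u} [Field k] [Field E] [IsAlgClosed E] [Algebra k E]
    (h2 : (2 : k) ≠ 0) (f g : MvPolynomial (Fin 2) k) (P : Fin 2 → E) (hP : AlgebraicIndependent k P)
    (hg : g ≠ 0) (t : E) (ht : t * MvPolynomial.aeval P g = MvPolynomial.aeval P f)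
    (hG : Irreducible (MvPolynomial.map (algebraMap k E) f -
      MvPolynomial.C t * MvPolynomial.map (algebraMap k E) g))
    (hR : DPU f g (AlgebraicClosure (RatFunc k))
      (algebraMap (RatFunc k) (AlgebraicClosure (RatFunc k)) RatFunc.X)) (s : E)
    (J₀ : Ideal (MvPolynomial (Fin 3) E))
    (hJ₀ : Sc (MvPolynomial.map (algebraMap k E) f) (MvPolynomial.map (algebraMap k E) g) (t - s ^ 2) s J₀) :
    ∃ (c₀ m : ℕ) (e : Fin m → ℤ) (J : Fin m → Ideal (MvPolynomial (Fin 3) E))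
      (D : (Fin 2 → E) → ℤ), 0 < c₀ ∧
      Pri (MvPolynomial.map (algebraMap k E) f - MvPolynomial.C t * MvPolynomial.map (algebraMap k E) g)
        (MvPolynomial.map (algebraMap k E) g) D ∧
      (∀ i, Sc (MvPolynomial.map (algebraMap k E) f) (MvPolynomial.map (algebraMap k E) g) (t - s ^ 2) s (J i) ∧
        ∃ κ : IntermediateField k E, Alw k (t - s ^ 2) (J i) κ) ∧
      ∀ Q, Gp (MvPolynomial.map (algebraMap k E) f - MvPolynomial.C t * MvPolynomial.map (algebraMap k E) g)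
        (MvPolynomial.map (algebraMap k E) g) Q →
        (c₀ : ℤ) * (cy J₀ s Q).toNat = D Q + ∑ i, e i * (cy (J i) s Q).toNat := by
  classical
  obtain ⟨l, hl0⟩ : ∃ l, l = t - s ^ 2 := ⟨_, rfl⟩
  have hcl : IsAlgClosed (Az k l) := az_closed l
  have hlm : l ∈ Az k l := adjoin_le_Az l (IntermediateField.mem_adjoin_simple_self k l)
  obtain ⟨K, hK⟩ : ∃ K, K = Az k l := ⟨_, rfl⟩
  have hKcl : IsAlgClosed K := by rw [hK]; exact hcl
  have hKE : ∀ x : K, IsAlgebraic (IntermediateField.adjoin k {t - s ^ 2}) (algebraMap K E x) := by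
    intro x
    rw [← hl0]
    exact mem_Az.1 (hK ▸ x.2)
  have hlK : l ∈ K := by rw [hK]; exact hlm
  by_cases hla : IsAlgebraic k l
  · -- algebraic value
    have hKalg : Algebra.IsAlgebraic k K := by
      refine ⟨fun x => ?_⟩
      have h1 : Algebra.IsAlgebraic k (IntermediateField.adjoin k {l}) :=
        IntermediateField.isAlgebraic_adjoin_simple hla.isIntegral
      have h3 := hKE x
      rw [← hl0] at h3
      have h2 : IsAlgebraic k (algebraMap K E x) := h3.restrictScalars k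
      exact (isAlgebraic_algebraMap_iff (algebraMap K E).injective).1 h2
    obtain ⟨k₁, i1, i2, 𝒟, n, δ, y, h⟩ := rgB hKalg f g hg hR (⟨l, hlK⟩ : K)
    exact lemC_core (K := K) h2 f g P hP hg t ht hG s ⟨l, hlK⟩ hl0 hKE h (Or.inr hKalg) J₀ hJ₀
  · have hlt : Transcendental k (⟨l, hlK⟩ : K) := by
      intro h1
      exact hla (h1.algebraMap (A := E))
    have halg : ∀ y : K, IsAlgebraic (IntermediateField.adjoin k {(⟨l, hlK⟩ : K)}) y := by
      intro y
      have h3 := hKE y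
      rw [← hl0] at h3
      have h4 : IsAlgebraic (Algebra.adjoin k {l}) (algebraMap K E y) :=
        (IsFractionRing.isAlgebraic_iff (Algebra.adjoin k {l})
          (IntermediateField.adjoin k {l}) E).mpr h3
      refine (IsFractionRing.isAlgebraic_iff (Algebra.adjoin k {(⟨l, hlK⟩ : K)})
          (IntermediateField.adjoin k {(⟨l, hlK⟩ : K)}) K).mp ?_
      rw [lemC_all_tr K.val, Set.image_singleton]
      exact h4
    have hD := dpu_gen f g hR K ⟨l, hlK⟩ hlt halg
    obtain ⟨n, δ, y, h⟩ := rgA f g (⟨l, hlK⟩ : K) hD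
    exact lemC_core (K := K) h2 f g P hP hg t ht hG s ⟨l, hlK⟩ hl0 hKE h
      (Or.inl ⟨RatFunc.X, rfl, RatFunc.transcendental_X⟩) J₀ hJ₀

end

end

end Pool.Agent.RDP
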