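import Pool.Agent.RDM.Rd
import Pool.Agent.RDM.Rel
import Pool.Agent.RDM.Dpu
import Pool.Agent.RDM.Lc
import Pool.Agent.RDM.B4
import Pool.Agent.RDM.B1
import Pool.Agent.RDM.A5
import Pool.Agent.RDM.LemC
import Pool.Agent.RDM.A4
import Pool.Agent.RDM.C5

/-!
# The main theorem
-/

set_option autoImplicit false

section


namespace Pool.Agent.RDP

open Pool.Agent.TBR Polynomial Pool.Agent.TQU

universe u v w

section

private theorem relD_ex_asm {k E : Type u} [Field k] [Field E] [IsAlgClosed E] [Algebra k E]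
    (z : E) (P : Fin 2 → E) (G g : MvPolynomial (Fin 2) E) (zt : Transcendental k z)
    (cfG : Cf (IntermediateField.adjoin k {z} : Set E) G)
    (cfg : Cf (IntermediateField.adjoin k {z} : Set E) g) (irr : Irreducible G) (gg : ¬ G ∣ g)
    (zero : MvPolynomial.eval P G = 0) (gen : ¬ ∀ i, P i ∈ Acl k z)
    (ι : Type) [Fintype ι] (n₀ : ℕ) (pos : 0 < n₀) (n : ι → ℤ) (Ei : ι → (Fin 2 → E) → ℕ)
    (K₁ K₂ : ι → IntermediateField k E)
    (hK : ∀ i, (K₁ i).FG ∧ (K₂ i).FG ∧ Algebra.trdeg k (K₁ i) ≤ 1 ∧ Algebra.trdeg k (K₂ i) ≤ 1)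
    (mem : ∀ i, z ∈ K₁ i ⊔ K₂ i)
    (al : ∀ i, ∀ x : E, IsAlgebraic (K₁ i ⊔ K₂ i : IntermediateField k E) x)
    (inv : ∀ i, ∀ σ ∈ Fx k ((K₁ i ⊔ K₂ i : IntermediateField k E) : Set E), ∀ Q : Fin 2 → E,
      (¬ ∀ j, Q j ∈ Acl k z) → Ei i (fun j => σ (Q j)) = Ei i Q)
    (fin : ∀ i, {Q : Fin 2 → E | (¬ ∀ j, Q j ∈ Acl k z) ∧ Ei i Q ≠ 0}.Finite)
    (on : ∀ i, ∀ Q : Fin 2 → E, (¬ ∀ j, Q j ∈ Acl k z) → Ei i Q ≠ 0 →
      MvPolynomial.eval Q G = 0)
    (rel : ∃ D : (Fin 2 → E) → ℤ, Pri G g D ∧ ∀ Q : Fin 2 → E, MvPolynomial.eval Q G = 0 →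
      (¬ ∀ j, Q j ∈ Acl k z) → ((Q = P → D Q = n₀ + ∑ i, n i * (Ei i Q : ℤ)) ∧
        (Q ≠ P → D Q = ∑ i, n i * (Ei i Q : ℤ)))) :
    ∃ (n₀ m : ℕ) (n : Fin m → ℤ) (Ei : Fin m → (Fin 2 → E) → ℕ)
      (K₁ K₂ : Fin m → IntermediateField k E), (∀ i, (K₁ i).FG ∧ (K₂ i).FG ∧
        Algebra.trdeg k (K₁ i) ≤ 1 ∧ Algebra.trdeg k (K₂ i) ≤ 1) ∧
      RelD k z P G g n₀ n Ei (fun i => K₁ i ⊔ K₂ i) := by
  classical
  let ε := Fintype.equivFin ι
  have hs : ∀ F : ι → ℤ, ∑ i : Fin (Fintype.card ι), F (ε.symm i) = ∑ i, F i := fun F =>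
    Equiv.sum_comp ε.symm F
  refine ⟨n₀, Fintype.card ι, fun i => n (ε.symm i), fun i => Ei (ε.symm i),
    fun i => K₁ (ε.symm i), fun i => K₂ (ε.symm i), fun i => hK _, ?_⟩
  obtain ⟨D, hD, hDQ⟩ := rel
  exact
    { zt := zt
      cfG := cfG
      cfg := cfg
      irr := irr
      gg := gg
      zero := zero
      gen := gen
      pos := pos
      fg := fun i => IntermediateField.fg_sup (hK _).1 (hK _).2.1
      mem := fun i => mem _
      al := fun i => al _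
      inv := fun i => inv _
      fin := fun i => fin _
      on := fun i => on _
      rel := by
        refine ⟨D, hD, fun Q hQ hQA => ?_⟩
        have h1 := hDQ Q hQ hQA
        rw [hs (fun i => n i * (Ei i Q : ℤ))]
        exact h1 }

private theorem relD_ex_comb {E : Type u} [Field E] [IsAlgClosed E] (G g : MvPolynomial (Fin 2) E)
    (hG : Irreducible G) (D : (Fin 2 → E) → ℤ) (hD : Pri G g D) (m : ℕ) (a : ℤ) (b : Fin m → ℤ)
    (D' : Fin m → (Fin 2 → E) → ℤ) (hD' : ∀ i, Pri G g (D' i)) :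
    Pri G g (fun Q => a * D Q + ∑ i, b i * D' i Q) := by
  have h1 := pri_sum G g hG ({()} : Finset Unit) (fun _ => a) (fun _ => D) (fun _ _ => hD)
  have h2 := pri_sum G g hG Finset.univ b D' (fun i _ => hD' i)
  have h3 := (pri_add G g hG _ _ h1 h2).1
  simpa only [Finset.sum_singleton] using h3

private theorem relD_ex_alg {k E : Type u} [Field k] [Field E] [Algebra k E]
    (f g : MvPolynomial (Fin 2) k) (P : Fin 2 → E) (hP : AlgebraicIndependent k P) (hg : g ≠ 0)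
    (t : E) (ht : t * MvPolynomial.aeval P g = MvPolynomial.aeval P f) (htt : Transcendental k t)
    (φ : k[X]) (z : E) (hz : aeval z φ = t) :
    IsAlgebraic (IntermediateField.adjoin k (Set.range P)) z := by
  have hmem : ∀ h : MvPolynomial (Fin 2) k,
      MvPolynomial.aeval P h ∈ IntermediateField.adjoin k (Set.range P) := by
    intro h
    apply IntermediateField.algebra_adjoin_le_adjoin
    rw [Algebra.adjoin_range_eq_range_aeval]
    exact ⟨h, rfl⟩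
  have hg0 : MvPolynomial.aeval P g ≠ 0 := fun h1 => hg (hP.eq_zero_of_aeval_eq_zero g h1)
  have htm : t ∈ IntermediateField.adjoin k (Set.range P) := by
    have h1 : t = MvPolynomial.aeval P f / MvPolynomial.aeval P g := by
      rw [eq_div_iff hg0]
      exact ht
    rw [h1]
    exact div_mem (hmem f) (hmem g)
  refine ⟨φ.map (algebraMap k (IntermediateField.adjoin k (Set.range P))) - C ⟨t, htm⟩, ?_, ?_⟩
  · intro h0
    apply htt
    have h1 : φ.map (algebraMap k (IntermediateField.adjoin k (Set.range P))) = C ⟨t, htm⟩ :=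
      sub_eq_zero.1 h0
    have h2 : φ.natDegree = 0 := by
      have h3 := congrArg Polynomial.natDegree h1
      rwa [Polynomial.natDegree_map, Polynomial.natDegree_C] at h3
    have h4 : φ = C (φ.coeff 0) := Polynomial.eq_C_of_natDegree_eq_zero h2
    rw [← hz, h4, Polynomial.aeval_C]
    exact isAlgebraic_algebraMap _
  · rw [map_sub, Polynomial.aeval_map_algebraMap, Polynomial.aeval_C, hz]
    exact sub_self _

end

section

theorem relD_ex {k E : Type u} [Field k] [Field E] [IsAlgClosed E] [Algebra k E]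
    (h2 : (2 : k) ≠ 0) (f g : MvPolynomial (Fin 2) k) (P : Fin 2 → E) (hP : AlgebraicIndependent k P)
    (hg : g ≠ 0) (t : E) (ht : t * MvPolynomial.aeval P g = MvPolynomial.aeval P f)
    (φ : k[X])
    (hφ : (∃ N, 0 < N ∧ φ = X ^ N) ∨ (AddPoly φ ∧ φ ≠ 0)) (z : E) (hz : aeval z φ = t)
    (hG : Irreducible (MvPolynomial.map (algebraMap k E) f -
      MvPolynomial.C t * MvPolynomial.map (algebraMap k E) g))
    (hR : DPU f g (AlgebraicClosure (RatFunc k))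
      (algebraMap (RatFunc k) (AlgebraicClosure (RatFunc k)) RatFunc.X))
    (hK : ∀ x : E, IsAlgebraic (IntermediateField.adjoin k ({z} ∪ Set.range P)) x) :
    ∃ (n₀ m : ℕ) (n : Fin m → ℤ) (Ei : Fin m → (Fin 2 → E) → ℕ)
      (K₁ K₂ : Fin m → IntermediateField k E), (∀ i, (K₁ i).FG ∧ (K₂ i).FG ∧
        Algebra.trdeg k (K₁ i) ≤ 1 ∧ Algebra.trdeg k (K₂ i) ≤ 1) ∧
      RelD k z P (MvPolynomial.map (algebraMap k E) f - MvPolynomial.C t * MvPolynomial.map (algebraMap k E) g)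
        (MvPolynomial.map (algebraMap k E) g) n₀ n Ei (fun i => K₁ i ⊔ K₂ i) := by
  classical
  obtain ⟨htt, hPA, hgood, Q₁, hQ₁A, hQ₁⟩ := nonA_good h2 f g P hP hg t ht hG
  obtain ⟨hzt, hAcl, htz⟩ := acl_tz φ z t hz htt
  have hev : ∀ h : MvPolynomial (Fin 2) k,
      MvPolynomial.eval P (MvPolynomial.map (algebraMap k E) h) = MvPolynomial.aeval P h :=
    fun h => by rw [MvPolynomial.eval_map, MvPolynomial.aeval_def]
  have hzero : MvPolynomial.eval P (MvPolynomial.map (algebraMap k E) f -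
      MvPolynomial.C t * MvPolynomial.map (algebraMap k E) g) = 0 := by
    rw [map_sub, map_mul, MvPolynomial.eval_C, hev, hev, ht, sub_self]
  have hcg : Cf (IntermediateField.adjoin k {z} : Set E)
      (MvPolynomial.map (algebraMap k E) g) := fun m => by
    rw [MvPolynomial.coeff_map]
    exact (IntermediateField.adjoin k {z}).algebraMap_mem _
  have hcG : Cf (IntermediateField.adjoin k {z} : Set E) (MvPolynomial.map (algebraMap k E) f -
      MvPolynomial.C t * MvPolynomial.map (algebraMap k E) g) := fun m => by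
    rw [MvPolynomial.coeff_sub, MvPolynomial.coeff_C_mul, MvPolynomial.coeff_map,
      MvPolynomial.coeff_map]
    exact sub_mem ((IntermediateField.adjoin k {z}).algebraMap_mem _)
      (mul_mem htz ((IntermediateField.adjoin k {z}).algebraMap_mem _))
  have hgg : ¬ (MvPolynomial.map (algebraMap k E) f -
      MvPolynomial.C t * MvPolynomial.map (algebraMap k E) g) ∣
        MvPolynomial.map (algebraMap k E) g := by
    rintro ⟨q, hq⟩
    apply hQ₁.2.1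
    rw [hq, map_mul, hQ₁.1, zero_mul]
  have hPt : ¬ ∀ i, P i ∈ Acl k t := hPA
  have hgen : ¬ ∀ i, P i ∈ Acl k z := by
    rw [← hAcl]
    exact hPt
  have hzP := relD_ex_alg f g P hP hg t ht htt φ z hz
  have hfg : IsRelPrime (MvPolynomial.map (algebraMap k E) f)
      (MvPolynomial.map (algebraMap k E) g) := by
    intro d hdf hdg
    have hdG := dvd_sub hdf (Dvd.dvd.mul_left hdg (MvPolynomial.C t))
    obtain ⟨c, hc⟩ := hdG
    rcases hG.isUnit_or_isUnit hc with h | h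
    · exact h
    · refine absurd (dvd_trans ?_ hdg) hgg
      rw [hc]
      exact (IsUnit.mul_right_dvd h).mpr dvd_rfl
  by_cases hnd : ND (MvPolynomial.map (algebraMap k E) f -
      MvPolynomial.C t * MvPolynomial.map (algebraMap k E) g)
  swap
  · obtain ⟨D, hD, hDQ⟩ := relDom _ _ hG hgg hnd P (hgood P hzero hPt)
      {Q | ∀ i, Q i ∈ Acl k t} ⟨Q₁, hQ₁A, hQ₁⟩
    refine relD_ex_asm z P _ _ hzt hcG hcg hG hgg hzero hgen (Fin 0) 1 one_pos (fun i => i.elim0)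
      (fun i => i.elim0) (fun i => i.elim0) (fun i => i.elim0) (fun i => i.elim0)
      (fun i => i.elim0) (fun i => i.elim0) (fun i => i.elim0) (fun i => i.elim0)
      (fun i => i.elim0) ⟨D, hD, fun Q hQ hQA => ?_⟩
    have hQA' : ¬ ∀ i, Q i ∈ Acl k t := by
      rw [hAcl]
      exact hQA
    have h1 := hDQ Q (hgood Q hQ hQA') hQA'
    refine ⟨fun h3 => ?_, fun h3 => ?_⟩
    · rw [h1.1 h3]
      simp
    · rw [h1.2 h3]
      simp
  obtain ⟨κ, L, _, _, _, _, _, _, s, τ, x, w, q, qw, hL⟩ := ld_ex h2 f g hg P hP t ht htt hR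
  obtain ⟨n, m, e, J, σ, D, hn, hSc, hD, hDQ⟩ := rel0 hL hG hnd
  have hall := fun i => lemC_all h2 f g P hP hg t ht hG hR (σ i) (J i) (hSc i)
  choose c₀ m' e' J' D' hc₀ hD' hJ' hcy using hall
  have hSc' := fun i j => (hJ' i j).1
  choose κ' hκ' using fun i j => (hJ' i j).2
  have hk12 := fun i j => k12 φ hφ z (σ i) (t - σ i ^ 2) (by rw [hz]; ring) (κ' i j) (hκ' i j).fg
    (hκ' i j).td (hκ' i j).mem
  choose K₁ K₂ hK₁ hK₂ ht₁ ht₂ hκK hzK hsK using hk12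
  -- the cofactors
  let Ci : Fin m → ℤ := fun i => ∏ j ∈ Finset.univ.erase i, (c₀ j : ℤ)
  have hCi : ∀ i, ((∏ j, c₀ j : ℕ) : ℤ) = (c₀ i : ℤ) * Ci i := fun i => by
    push_cast
    exact (Finset.mul_prod_erase _ _ (Finset.mem_univ i)).symm
  have hCpos : 0 < (∏ j, c₀ j) * n := Nat.mul_pos (Finset.prod_pos fun j _ => hc₀ j) hn
  refine relD_ex_asm z P _ _ hzt hcG hcg hG hgg hzero hgen
    {p : Σ i : Fin m, Fin (m' i) // ¬ ((∀ x ∈ κ' p.1 p.2, x ∈ Acl k z) ∧ σ p.1 ∈ Acl k z)}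
    ((∏ j, c₀ j) * n) hCpos (fun p => e p.1.1 * Ci p.1.1 * e' p.1.1 p.1.2)
    (fun p Q => (cy (J' p.1.1 p.1.2) (σ p.1.1) Q).toNat) (fun p => K₁ p.1.1 p.1.2)
    (fun p => K₂ p.1.1 p.1.2) (fun p => ⟨hK₁ _ _, hK₂ _ _, ht₁ _ _, ht₂ _ _⟩)
    (fun p => hzK _ _) ?_ ?_ ?_ ?_ ?_
  · rintro ⟨⟨i, j⟩, hp⟩ y
    dsimp only at hp ⊢
    have h3 : ∃ x ∈ K₁ i j ⊔ K₂ i j, x ∉ Acl k z := by
      by_contra hcon
      push Not at hcon
      exact hp ⟨fun x hx => hcon x (hκK i j hx), hcon _ (hsK i j)⟩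
    obtain ⟨x, hx, hxz⟩ := h3
    exact alg2 z P hzt hK hzP _ (hzK i j) x hx hxz y
  · rintro ⟨⟨i, j⟩, hp⟩ ρ hρ Q hQ
    dsimp only at hρ ⊢
    rw [cy_inv (J' i j) (σ i) ρ (hρ _ (hsK i j))
      ((hκ' i j).stab ρ (fun y hy => hρ y (hκK i j hy))) Q]
  · rintro ⟨⟨i, j⟩, hp⟩
    dsimp only
    refine (cy_fin _ _ hfg _ _ _ (hSc' i j)).1.subset ?_
    rintro Q ⟨-, hQ⟩ h0
    apply hQ
    rw [h0]
    rfl
  · rintro ⟨⟨i, j⟩, hp⟩ Q hQA hQ
    dsimp only at hQ
    refine (cy_fin _ _ hfg _ _ _ (hSc' i j)).2.2 Q fun h0 => hQ ?_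
    rw [h0]
    rfl
  · refine ⟨_, relD_ex_comb _ _ hG D hD m ((∏ j, c₀ j : ℕ) : ℤ) (fun i => - (e i * Ci i)) D' hD',
      fun Q hQ hQA => ?_⟩
    have hQA' : ¬ ∀ i, Q i ∈ Acl k t := by
      rw [hAcl]
      exact hQA
    have hgp := hgood Q hQ hQA'
    have h1 := hDQ Q hgp hQA'
    have h3 := fun i => hcy i Q hgp
    -- the sum over the remaining pairs
    have hsum : ∀ F : (Σ i : Fin m, Fin (m' i)) → ℤ,
        (∀ p, ((∀ x ∈ κ' p.1 p.2, x ∈ Acl k z) ∧ σ p.1 ∈ Acl k z) → F p = 0) →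
        ∑ p : {p : Σ i : Fin m, Fin (m' i) //
          ¬ ((∀ x ∈ κ' p.1 p.2, x ∈ Acl k z) ∧ σ p.1 ∈ Acl k z)}, F p.1 = ∑ p, F p := by
      intro F hF
      rw [← Finset.sum_subtype (Finset.univ.filter fun p : (Σ i : Fin m, Fin (m' i)) =>
        ¬ ((∀ x ∈ κ' p.1 p.2, x ∈ Acl k z) ∧ σ p.1 ∈ Acl k z)) (by simp)]
      apply Finset.sum_subset (Finset.filter_subset _ _)
      intro p _ hp
      apply hF
      by_contra h
      exact hp (by simpa using h)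
    have h4 : ∑ p : {p : Σ i : Fin m, Fin (m' i) //
          ¬ ((∀ x ∈ κ' p.1 p.2, x ∈ Acl k z) ∧ σ p.1 ∈ Acl k z)},
        e p.1.1 * Ci p.1.1 * e' p.1.1 p.1.2 * ((cy (J' p.1.1 p.1.2) (σ p.1.1) Q).toNat : ℤ) =
        ∑ i, e i * Ci i * ∑ j, e' i j * ((cy (J' i j) (σ i) Q).toNat : ℤ) := by
      rw [hsum (fun p => e p.1 * Ci p.1 * e' p.1 p.2 *
        ((cy (J' p.1 p.2) (σ p.1) Q).toNat : ℤ)), Fintype.sum_sigma]
      · refine Finset.sum_congr rfl fun i _ => ?_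
        rw [Finset.mul_sum]
        exact Finset.sum_congr rfl fun j _ => by ring
      · rintro ⟨i, j⟩ ⟨hp1, hp2⟩
        dsimp only at hp1 hp2 ⊢
        rw [cy_A _ _ hfg (σ i) t z (J' i j) (hSc' i j) (κ' i j) (hκ' i j) hp1 hp2 Q hQA]
        simp
    have h5 : ((∏ j, c₀ j : ℕ) : ℤ) * ∑ i, e i * ((cy (J i) (σ i) Q).toNat : ℤ) +
        ∑ i, -(e i * Ci i) * D' i Q =
        ∑ i, e i * Ci i * ∑ j, e' i j * ((cy (J' i j) (σ i) Q).toNat : ℤ) := by
      rw [Finset.mul_sum, ← Finset.sum_add_distrib]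
      refine Finset.sum_congr rfl fun i _ => ?_
      have h6 := h3 i
      have h7 : ((∏ j, c₀ j : ℕ) : ℤ) * (e i * ((cy (J i) (σ i) Q).toNat : ℤ)) =
          e i * Ci i * ((c₀ i : ℤ) * ((cy (J i) (σ i) Q).toNat : ℤ)) := by
        rw [hCi i]
        ring
      rw [h7, h6]
      ring
    rw [h4]
    refine ⟨fun hQP => ?_, fun hQP => ?_⟩
    · rw [h1.1 hQP, ← h5]
      push_cast
      ring
    · rw [h1.2 hQP, ← h5]

end

end Pool.Agent.RDP

end

section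


namespace Pool.Agent.RDP

open Pool.Agent.TBR Polynomial Pool.Agent.TQU

universe u

theorem final (k M : Type u) [Field k] [Field M] [Algebra k M] [IsAlgClosed M] (hk : (2 : k) ≠ 0)
    (f g : MvPolynomial (Fin 2) k) (hg : g ≠ 0)
    (hR : DPU f g (AlgebraicClosure (RatFunc k))
      (algebraMap (RatFunc k) (AlgebraicClosure (RatFunc k)) RatFunc.X)) (φ : k[X])
    (hφ : (∃ N, 0 < N ∧ φ = X ^ N) ∨ (AddPoly φ ∧ φ ≠ 0)) (P : Fin 2 → M)
    (hP : AlgebraicIndependent k P) (z : M)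
    (hz : aeval z φ * MvPolynomial.aeval P g = MvPolynomial.aeval P f)
    (hG : Irreducible (MvPolynomial.map (algebraMap k M) f -
      MvPolynomial.C (aeval z φ) * MvPolynomial.map (algebraMap k M) g))
    (K : IntermediateField k M) (hK : K = IntermediateField.adjoin k ({z} ∪ Set.range P))
    (hM : ∀ x : M, IsAlgebraic K x) :
    ∃ (m : ℕ) (K₁ K₂ : Fin m → IntermediateField k M), (∀ i, (K₁ i).FG ∧ (K₂ i).FG ∧
      Algebra.trdeg k (K₁ i) ≤ 1 ∧ Algebra.trdeg k (K₂ i) ≤ 1) ∧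
      ∀ ℓ : ℕ, ℓ.Prime → (ℓ : k) ≠ 0 →
        (∀ i, T1B.T1 k (K₁ i ⊔ K₂ i : IntermediateField k M) ℓ) → T1B.T1 k K ℓ := by
  subst hK
  obtain ⟨n₀, m, n, Ei, K₁, K₂, h1, h2⟩ := relD_ex hk f g P hP hg (aeval z φ) hz φ hφ z rfl hG hR hM
  exact ⟨m, K₁, K₂, h1, fun ℓ hℓ hℓk hT => main_rel z P _ _ n₀ n Ei _ h2 hM ℓ hℓ hℓk hT⟩

end Pool.Agent.RDP

end
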