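import Pool.Agent.RDM.Mdl
import Pool.Agent.RDM.Len
import Pool.Agent.RDM.Dv
import Pool.Agent.RDM.A1
import Pool.Agent.RDM.A2

/-!
# Plane curves: dimension, smoothness, lengths
-/

set_option autoImplicit false

namespace Pool.Agent.RDP

section

open Pool.Agent.TBR Pool.Agent.TQU

universe u v w

section

private lemma crdim_aux (a : WithBot ℕ∞) (h : a + 1 ≤ 2) : a ≤ ((1 : ℕ) : WithBot ℕ∞) := by
  induction a with
  | bot => simp
  | coe a =>
    have h' : ((a + 1 : ℕ∞) : WithBot ℕ∞) ≤ ((2 : ℕ∞) : WithBot ℕ∞) := h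
    rw [WithBot.coe_le_coe] at h'
    have h2 : (a : ℕ∞) ≤ 1 := by
      have h3 : a + 1 ≤ (1 : ℕ∞) + 1 := by
        refine h'.trans (le_of_eq ?_)
        norm_num
      exact (ENat.add_le_add_iff_right (by simp)).1 h3
    exact_mod_cast h2

-- A plane curve has dimension one.
theorem crdim {Ω : Type u} [Field Ω] (F : MvPolynomial (Fin 2) Ω) (hF : Irreducible F)
    (I : Ideal (CR F)) (hI : I ≠ ⊥) (hp : I.IsPrime) : I.IsMaximal := by
  have hpr : Prime F := hF.prime
  have hF0 : F ≠ 0 := hF.ne_zero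
  have hsp : (Ideal.span ({F} : Set (MvPolynomial (Fin 2) Ω))).IsPrime :=
    (Ideal.span_singleton_prime hF0).2 hpr
  have hdom : IsDomain (CR F) := by
    unfold CR
    exact (Ideal.Quotient.isDomain_iff_prime _).2 hsp
  have h2 : ringKrullDim (MvPolynomial (Fin 2) Ω) = 2 := by
    rw [MvPolynomial.ringKrullDim_of_isNoetherianRing, ringKrullDim_eq_zero_of_field]
    simp
  have h1 : ringKrullDim (CR F) + 1 ≤ 2 := by
    rw [← h2]
    unfold CR
    exact ringKrullDim_quotient_succ_le_of_nonZeroDivisor (mem_nonZeroDivisors_of_ne_zero hF0)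
  have h3 : Ring.KrullDimLE 1 (CR F) := by
    rw [Ring.krullDimLE_iff]
    exact crdim_aux _ h1
  exact Ideal.isMaximal_of_isPrime_of_ne_bot I hI

end

end

section

open Pool.Agent.TBR Pool.Agent.TQU
universe u v w

section

-- An irreducible curve and a curve which does not contain it meet in finitely many points.
theorem zfin {Ω : Type u} [Field Ω] (G h : MvPolynomial (Fin 2) Ω) (hG : Irreducible G)
    (hh : ¬ G ∣ h) :
    {Q : Fin 2 → Ω | MvPolynomial.eval Q G = 0 ∧ MvPolynomial.eval Q h = 0}.Finite := by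
  have hdom : IsDomain (CR G) := by
    have h1 : (Ideal.span {G}).IsPrime := (Ideal.span_singleton_prime hG.ne_zero).2 hG.prime
    exact Ideal.Quotient.isDomain _
  set I : Ideal (CR G) := Ideal.span {Ideal.Quotient.mk (Ideal.span {G}) h} with hI
  have hI0 : I ≠ ⊥ := by
    intro h1
    rw [hI, Ideal.span_singleton_eq_bot, Ideal.Quotient.eq_zero_iff_mem, Ideal.mem_span_singleton] at h1
    exact hh h1
  have hfin := Ideal.finite_minimalPrimes_of_isNoetherianRing (CR G) I
  refine Set.Finite.of_injOn (f := ptIdeal G) (t := I.minimalPrimes) (fun Q hQ => ?_)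
    (fun Q hQ Q' hQ' hQQ => pt_inj G Q Q' hQ.1 hQ'.1 hQQ) hfin
  have hmax := pt_max G Q hQ.1
  have hle : I ≤ ptIdeal G Q := by
    rw [hI, Ideal.span_singleton_le_iff_mem, mem_pt G Q hQ.1]
    exact hQ.2
  refine ⟨⟨hmax.isPrime, hle⟩, fun q hq hqQ => ?_⟩
  have hq0 : q ≠ ⊥ := by
    rintro rfl
    exact hI0 (le_bot_iff.1 hq.2)
  have hqmax := crdim G hG q hq0 hq.1
  exact (hqmax.eq_of_le hmax.ne_top hqQ).ge

end

end

section

open Pool.Agent.TBR Pool.Agent.TQU

universe u v w

section

-- A general linear form is a Noether normalization of a plane curve.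
theorem hint_lin {Ω : Type u} [Field Ω] (F : MvPolynomial (Fin 2) Ω) (hF : F ≠ 0) :
    {c : Ω | ¬ Hint F (MvPolynomial.X 0 + MvPolynomial.C c * MvPolynomial.X 1)}.Finite := by
  classical
  set N := F.totalDegree with hN
  have hdeg : ∀ m : Fin 2 →₀ ℕ, (m.sum fun _ e => e) = m 0 + m 1 := by
    intro m
    rw [Finsupp.sum_fintype _ _ (fun _ => rfl), Fin.sum_univ_two]
  have hle : ∀ m ∈ F.support, m 0 + m 1 ≤ N := by
    intro m hm
    rw [← hdeg m]
    exact MvPolynomial.le_totalDegree hm
  set T := F.support.filter (fun m => m 0 + m 1 = N) with hT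
  set P : Polynomial Ω := ∑ m ∈ T, Polynomial.C (F.coeff m) * (-Polynomial.X) ^ (m 0) with hPdef
  have hTne : T.Nonempty := by
    have hs : F.support.Nonempty := by
      rw [Finset.nonempty_iff_ne_empty, Ne, MvPolynomial.support_eq_empty]
      exact hF
    obtain ⟨m, hm, hm2⟩ := Finset.exists_mem_eq_sup F.support hs (fun s => s.sum fun _ e => e)
    refine ⟨m, Finset.mem_filter.2 ⟨hm, ?_⟩⟩
    rw [← hdeg m, ← hm2]
    rfl
  have hP : P ≠ 0 := by
    obtain ⟨m₀, hm₀⟩ := hTne
    intro h0
    have h1 : P.coeff (m₀ 0) = F.coeff m₀ * (-1) ^ (m₀ 0) := by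
      rw [hPdef, Polynomial.finsetSum_coeff, Finset.sum_eq_single m₀]
      · rw [neg_pow, ← Polynomial.C_1, ← Polynomial.C_neg, ← Polynomial.C_pow, ← mul_assoc, ← Polynomial.C_mul,
          Polynomial.coeff_C_mul_X_pow, if_pos rfl]
      · intro m hm hne
        rw [neg_pow, ← Polynomial.C_1, ← Polynomial.C_neg, ← Polynomial.C_pow, ← mul_assoc, ← Polynomial.C_mul,
          Polynomial.coeff_C_mul_X_pow, if_neg]
        intro heq
        apply hne
        have h2 := (Finset.mem_filter.1 hm).2
        have h3 := (Finset.mem_filter.1 hm₀).2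
        ext i
        fin_cases i
        · exact heq.symm
        · show m 1 = m₀ 1
          omega
      · intro h
        exact absurd hm₀ h
    rw [h0, Polynomial.coeff_zero] at h1
    have h2 : F.coeff m₀ ≠ 0 := MvPolynomial.mem_support_iff.1 (Finset.mem_filter.1 hm₀).1
    exact mul_ne_zero h2 (pow_ne_zero _ (by norm_num)) h1.symm
  refine (P.roots.toFinset.finite_toSet).subset ?_
  intro c hc
  rw [Finset.mem_coe, Multiset.mem_toFinset, Polynomial.mem_roots hP, Polynomial.IsRoot.def]
  by_contra hne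
  apply hc
  intro M _ _ W x hW hx hH
  have he : x 0 + algebraMap Ω M c * x 1 ∈ W := by
    have h1 : MvPolynomial.aeval x (MvPolynomial.X 0 + MvPolynomial.C c * MvPolynomial.X 1)
        = x 0 + algebraMap Ω M c * x 1 := by
      rw [map_add, map_mul, MvPolynomial.aeval_X, MvPolynomial.aeval_X, MvPolynomial.aeval_C]
    rwa [h1] at hH
  have key : x 1 ∈ W := by
    by_contra hy
    have hy0 : x 1 ≠ 0 := fun h => hy (h ▸ W.zero_mem)
    have hyi : (x 1)⁻¹ ∈ W := (W.mem_or_inv_mem (x 1)).resolve_left hy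
    let a : Ω →+* W := (algebraMap Ω M).codRestrict W.toSubring hW
    have ha : ∀ z, ((a z : W) : M) = algebraMap Ω M z := fun z => rfl
    let yi : W := ⟨(x 1)⁻¹, hyi⟩
    let e : W := ⟨_, he⟩
    let t : W := e * yi - a c
    have ht : (t : M) = x 0 * (x 1)⁻¹ := by
      change (x 0 + algebraMap Ω M c * x 1) * (x 1)⁻¹ - algebraMap Ω M c = _
      field_simp
      ring
    have hsum : ∑ m ∈ F.support, a (F.coeff m) * t ^ (m 0) * yi ^ (N - (m 0 + m 1)) = 0 := by
      apply Subtype.ext
      have h1 : ((∑ m ∈ F.support, a (F.coeff m) * t ^ (m 0) * yi ^ (N - (m 0 + m 1)) : W) : M)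
          = ∑ m ∈ F.support, algebraMap Ω M (F.coeff m) * (x 0 * (x 1)⁻¹) ^ (m 0) * ((x 1)⁻¹) ^ (N - (m 0 + m 1)) := by
        rw [← ht]
        have h2 := map_sum W.subtype (fun m => a (F.coeff m) * t ^ (m 0) * yi ^ (N - (m 0 + m 1))) F.support
        refine h2.trans (Finset.sum_congr rfl fun m _ => ?_)
        rw [map_mul, map_mul, map_pow, map_pow]
        rfl
      rw [h1]
      have h3 : ∀ m ∈ F.support, algebraMap Ω M (F.coeff m) * (x 0 * (x 1)⁻¹) ^ (m 0) * ((x 1)⁻¹) ^ (N - (m 0 + m 1))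
          = (algebraMap Ω M (F.coeff m) * ∏ i, x i ^ m i) * ((x 1)⁻¹) ^ N := by
        intro m hm
        have h4 := hle m hm
        rw [Fin.prod_univ_two]
        have h5 : ((x 1)⁻¹) ^ N = ((x 1)⁻¹) ^ (m 0) * ((x 1)⁻¹) ^ (m 1) * ((x 1)⁻¹) ^ (N - (m 0 + m 1)) := by
          rw [← pow_add, ← pow_add]
          congr 1
          omega
        have h6 : x 1 ^ m 1 * ((x 1)⁻¹) ^ m 1 = 1 := by
          rw [← mul_pow, mul_inv_cancel₀ hy0, one_pow]
        rw [h5, mul_pow]
        linear_combination (-(algebraMap Ω M (F.coeff m) * x 0 ^ m 0 * ((x 1)⁻¹) ^ (m 0)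
          * ((x 1)⁻¹) ^ (N - (m 0 + m 1)))) * h6
      rw [Finset.sum_congr rfl h3, ← Finset.sum_mul]
      have h7 : ∑ m ∈ F.support, algebraMap Ω M (F.coeff m) * ∏ i, x i ^ m i = 0 := by
        rw [MvPolynomial.aeval_def, MvPolynomial.eval₂_eq'] at hx
        exact hx
      rw [h7, zero_mul]
      rfl
    have hres := congrArg (IsLocalRing.residue W) hsum
    have hyi0 : IsLocalRing.residue W yi = 0 := by
      rw [IsLocalRing.residue_eq_zero_iff, IsLocalRing.mem_maximalIdeal, mem_nonunits_iff]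
      rintro ⟨u, hu⟩
      apply hy
      have h1 : ((u⁻¹ : Wˣ) : W) * yi = 1 := by rw [← hu, Units.inv_mul]
      have h2 : (((u⁻¹ : Wˣ) : W) : M) * (x 1)⁻¹ = 1 := congrArg Subtype.val h1
      have h3 : (((u⁻¹ : Wˣ) : W) : M) = x 1 := by
        field_simp at h2
        exact h2
      rw [← h3]
      exact Subtype.mem _
    rw [map_zero, map_sum, ← Finset.sum_filter_add_sum_filter_not F.support (fun m => m 0 + m 1 = N)] at hres
    have h8 : ∑ m ∈ F.support.filter (fun m => ¬ (m 0 + m 1 = N)),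
        IsLocalRing.residue W (a (F.coeff m) * t ^ (m 0) * yi ^ (N - (m 0 + m 1))) = 0 := by
      refine Finset.sum_eq_zero fun m hm => ?_
      have h9 := (Finset.mem_filter.1 hm).2
      have h10 := hle m (Finset.mem_filter.1 hm).1
      rw [map_mul, map_pow, hyi0, zero_pow (by omega), mul_zero]
    have h11 : ∑ m ∈ F.support.filter (fun m => m 0 + m 1 = N),
        IsLocalRing.residue W (a (F.coeff m) * t ^ (m 0) * yi ^ (N - (m 0 + m 1)))
        = IsLocalRing.residue W (a (P.eval c)) := by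
      rw [hPdef, Polynomial.eval_finsetSum, map_sum, map_sum]
      refine Finset.sum_congr rfl fun m hm => ?_
      have h9 := (Finset.mem_filter.1 hm).2
      have h12 : IsLocalRing.residue W t = - IsLocalRing.residue W (a c) := by
        change IsLocalRing.residue W (e * yi - a c) = _
        rw [map_sub, map_mul, hyi0, mul_zero, zero_sub]
      rw [h9, Nat.sub_self, pow_zero, mul_one, Polynomial.eval_mul, Polynomial.eval_C, Polynomial.eval_pow,
        Polynomial.eval_neg, Polynomial.eval_X]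
      simp only [map_mul, map_pow, map_neg, h12]
    rw [h11, h8, add_zero] at hres
    have hinj : Function.Injective ((IsLocalRing.residue W).comp a) := RingHom.injective _
    exact hne (hinj (by rw [RingHom.comp_apply, hres, map_zero]))
  intro i
  fin_cases i
  · have h1 : x 0 = (x 0 + algebraMap Ω M c * x 1) - algebraMap Ω M c * x 1 := by ring
    show x 0 ∈ W
    rw [h1]
    exact sub_mem he (mul_mem (hW c) key)
  · exact key

end

end

section

open Pool.Agent.TBR Pool.Agent.TQU

universe u v w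

section

-- An irreducible polynomial over a perfect field has a derivative which is not divisible by it.
theorem pd_ne {Ω : Type u} [Field Ω] [IsAlgClosed Ω] (G : MvPolynomial (Fin 2) Ω)
    (hG : Irreducible G) : ∃ i, ¬ G ∣ MvPolynomial.pderiv i G := by
  classical
  by_contra hcon
  push Not at hcon
  have hz : ∀ i, MvPolynomial.pderiv i G = 0 := by
    intro i
    by_contra h0
    have h1 := MvPolynomial.totalDegree_le_of_dvd_of_isDomain (hcon i) h0
    have hle : ∀ m ∈ (MvPolynomial.pderiv i G).support, (m.sum fun _ e => e) + 1 ≤ G.totalDegree := by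
      intro m hm
      rw [MvPolynomial.mem_support_iff, MvPolynomial.coeff_pderiv] at hm
      have h2 : m + Finsupp.single i 1 ∈ G.support := by
        rw [MvPolynomial.mem_support_iff]
        exact left_ne_zero_of_mul hm
      have h3 := MvPolynomial.le_totalDegree h2
      rw [Finsupp.sum_add_index' (fun _ => rfl) (fun _ _ _ => rfl), Finsupp.sum_single_index rfl] at h3
      exact h3
    obtain ⟨m, hm⟩ := MvPolynomial.support_nonempty.2 h0
    have h4 : 1 ≤ G.totalDegree := le_trans (Nat.le_add_left 1 _) (hle m hm)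
    have h5 : (MvPolynomial.pderiv i G).totalDegree ≤ G.totalDegree - 1 := by
      refine Finset.sup_le fun m' hm' => ?_
      have := hle m' hm'
      omega
    omega
  have hc : ∀ (m : Fin 2 →₀ ℕ) (i : Fin 2), MvPolynomial.coeff m G ≠ 0 → ((m i : ℕ) : Ω) = 0 := by
    intro m i hm
    by_cases hmi : m i = 0
    · rw [hmi]; simp
    · have e : m - Finsupp.single i 1 + Finsupp.single i 1 = m := by
        refine tsub_add_cancel_of_le ?_
        rw [Finsupp.single_le_iff]
        omega
      have h1 := MvPolynomial.coeff_pderiv (i := i) G (m - Finsupp.single i 1)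
      rw [hz i, MvPolynomial.coeff_zero, e] at h1
      have h2 := (mul_eq_zero.1 h1.symm).resolve_left hm
      have h3 : (m - Finsupp.single i 1 : Fin 2 →₀ ℕ) i = m i - 1 := by
        rw [Finsupp.tsub_apply, Finsupp.single_eq_same]
      rw [h3] at h2
      have h4 : ((m i - 1 : ℕ) : Ω) + 1 = ((m i : ℕ) : Ω) := by
        rw [← Nat.cast_succ]
        congr 1
        omega
      rw [← h4]
      exact h2
  obtain ⟨p, hp⟩ := CharP.exists Ω
  rcases CharP.char_is_prime_or_zero Ω p with hpp | hp0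
  · have : Fact p.Prime := ⟨hpp⟩
    have hroot : ∀ c : Ω, ∃ r : Ω, r ^ p = c := fun c => IsAlgClosed.exists_pow_nat_eq c hpp.pos
    choose r hr using hroot
    have hdv : ∀ m ∈ G.support, ∀ i, p ∣ m i := by
      intro m hm i
      exact (CharP.cast_eq_zero_iff Ω p _).1 (hc m i (MvPolynomial.mem_support_iff.1 hm))
    have e : G = (∑ m ∈ G.support, MvPolynomial.monomial (m.mapRange (fun n => n / p) (Nat.zero_div p))
        (r (MvPolynomial.coeff m G))) ^ p := by
      rw [sum_pow_char]
      conv_lhs => rw [MvPolynomial.as_sum G]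
      refine Finset.sum_congr rfl fun m hm => ?_
      rw [MvPolynomial.monomial_pow, hr]
      have e2 : m = p • (m.mapRange (fun n => n / p) (Nat.zero_div p)) := by
        ext i
        rw [Finsupp.smul_apply, Finsupp.mapRange_apply, smul_eq_mul]
        exact (Nat.mul_div_cancel' (hdv m hm i)).symm
      rw [← e2]
    rw [e] at hG
    exact not_irreducible_pow hpp.one_lt.ne' hG
  · subst hp0
    have : CharZero Ω := CharP.charP_to_charZero Ω
    have e : G = MvPolynomial.C (MvPolynomial.coeff 0 G) := by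
      ext m
      rw [MvPolynomial.coeff_C]
      split_ifs with h
      · rw [h]
      · by_contra hne
        apply h
        ext i
        have := hc m i hne
        rw [Nat.cast_eq_zero] at this
        rw [this]
        rfl
    have hne : MvPolynomial.coeff 0 G ≠ 0 := by
      intro h0
      rw [h0, map_zero] at e
      exact hG.ne_zero e
    apply hG.not_isUnit
    rw [e]
    exact (isUnit_iff_ne_zero.2 hne).map MvPolynomial.C

end

end

section

universe u v w

section

private theorem len_ri_aux {R : Type u} [CommRing R] (p : Ideal R) [p.IsPrime] (I : Ideal R) :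
    len p (R ⧸ I) =
      Order.coheight (I.map (algebraMap R (Localization.AtPrime p)) :
        Submodule (Localization.AtPrime p) (Localization.AtPrime p)) := by
  have hloc : IsLocalizedModule p.primeCompl (Algebra.linearMap R (Localization.AtPrime p)) :=
    (isLocalizedModule_iff_isLocalization' p.primeCompl (Localization.AtPrime p)).2 inferInstance
  have hq := IsLocalizedModule.toLocalizedQuotient' (Localization.AtPrime p) p.primeCompl
    (Algebra.linearMap R (Localization.AtPrime p)) I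
  let e := IsLocalizedModule.iso p.primeCompl
    (Submodule.toLocalizedQuotient' (Localization.AtPrime p) p.primeCompl
    (Algebra.linearMap R (Localization.AtPrime p)) I)
  have e' := LinearEquiv.extendScalarsOfIsLocalization p.primeCompl (Localization.AtPrime p) e
  unfold len
  rw [e'.length_eq, Module.length_quotient, Ideal.localized'_eq_map]

private theorem len_ri_bij {R R' : Type u} [CommRing R] [CommRing R'] (S : R →+* R') (p : Ideal R)
    [p.IsPrime] (p' : Ideal R') [p'.IsPrime] (hp : p = p'.comap S)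
    (hinj : ∀ a : R, S a = 0 → a = 0) (d : R) (hd : S d ∉ p')
    (hsur : ∀ b : R', ∃ (N : ℕ) (a : R), S d ^ N * b = S a) :
    Function.Bijective (Localization.localRingHom p p' S hp) := by
  have hden : ∀ t : R', t ∉ p' → ∀ (N : ℕ) (t' : R), S d ^ N * t = S t' → t' ∉ p := by
    intro t ht N t' h htp
    rw [hp, Ideal.mem_comap, ← h] at htp
    rcases Ideal.IsPrime.mem_or_mem inferInstance htp with h1 | h1
    · exact hd (Ideal.IsPrime.mem_of_pow_mem inferInstance N h1)
    · exact ht h1
  constructor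
  · rw [injective_iff_map_eq_zero]
    intro x hx
    obtain ⟨a, s, rfl⟩ := IsLocalization.exists_mk'_eq p.primeCompl x
    rw [Localization.localRingHom_mk', IsLocalization.mk'_eq_zero_iff] at hx
    obtain ⟨t, ht⟩ := hx
    obtain ⟨N, t', ht'⟩ := hsur t
    have h1 : t' ∉ p := hden t t.2 N t' ht'
    rw [IsLocalization.mk'_eq_zero_iff]
    refine ⟨⟨t', h1⟩, hinj _ ?_⟩
    rw [map_mul]
    change S t' * S a = 0
    rw [← ht', mul_assoc, ht, mul_zero]
  · intro y
    obtain ⟨b, t, rfl⟩ := IsLocalization.exists_mk'_eq p'.primeCompl y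
    obtain ⟨N, a, ha⟩ := hsur b
    obtain ⟨M, t', ht'⟩ := hsur t
    have h1 : t' ∉ p := hden t t.2 M t' ht'
    have hdp : d ∉ p := by rw [hp]; exact hd
    have h2 : d ^ N * t' ∉ p := by
      intro h
      rcases Ideal.IsPrime.mem_or_mem inferInstance h with h3 | h3
      · exact hdp (Ideal.IsPrime.mem_of_pow_mem inferInstance N h3)
      · exact h1 h3
    refine ⟨IsLocalization.mk' _ (d ^ M * a) (⟨d ^ N * t', h2⟩ : p.primeCompl), ?_⟩
    rw [Localization.localRingHom_mk', IsLocalization.mk'_eq_iff_eq]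
    congr 1
    change (t : R') * S (d ^ M * a) = S (d ^ N * t') * b
    rw [map_mul, map_mul, map_pow, map_pow, ← ha, ← ht']
    ring

-- The length at p and p' if R → R' is an isomorphism after inverting d.
theorem len_ri {R R' : Type u} [CommRing R] [CommRing R'] (S : R →+* R') (p : Ideal R)
    [p.IsPrime] (p' : Ideal R') [p'.IsPrime] (hp : p = p'.comap S)
    (hinj : ∀ a : R, S a = 0 → a = 0) (d : R) (hd : S d ∉ p')
    (hsur : ∀ b : R', ∃ (N : ℕ) (a : R), S d ^ N * b = S a) (I : Ideal R) :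
    len p (R ⧸ I) = len p' (R' ⧸ I.map S) := by
  have hbij := len_ri_bij S p p' hp hinj d hd hsur
  rw [len_ri_aux, len_ri_aux]
  let e : Localization.AtPrime p ≃+* Localization.AtPrime p' :=
    RingEquiv.ofBijective (Localization.localRingHom p p' S hp) hbij
  have h1 : ((I.map S).map (algebraMap R' (Localization.AtPrime p'))) =
      e.idealComapOrderIso.symm (I.map (algebraMap R (Localization.AtPrime p))) := by
    rw [RingEquiv.idealComapOrderIso_symm_apply, Ideal.map_map]
    change _ = (I.map (algebraMap R (Localization.AtPrime p))).map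
      (Localization.localRingHom p p' S hp)
    rw [Ideal.map_map]
    congr 1
    ext x
    change _ = Localization.localRingHom p p' S hp (algebraMap R (Localization.AtPrime p) x)
    rw [Localization.localRingHom_to_map]
    rfl
  rw [h1]
  exact (Order.coheight_orderIso e.idealComapOrderIso.symm _).symm

end

end

section

open Pool.Agent.TBR Pool.Agent.TQU

universe u v w

section

-- The map ψ is an isomorphism of the open sets d(ψ) ≠ 0 and d ≠ 0 of the plane.
theorem mod_loc {Ω : Type u} [Field Ω] [IsAlgClosed Ω] (d : MvPolynomial (Fin 2) Ω) (ψ φ : Fin 2 → MvPolynomial (Fin 2) Ω)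
    (inv1 : ∀ i, MvPolynomial.aeval ψ (φ i) = MvPolynomial.aeval ψ d * MvPolynomial.X i)
    (inv2 : ∀ Q : Fin 2 → Ω, MvPolynomial.eval Q d ≠ 0 → ∀ i,
      MvPolynomial.eval (fun j => MvPolynomial.eval Q (φ j) / MvPolynomial.eval Q d) (ψ i) = Q i)
    (hd : d ≠ 0) :
    (∀ f : MvPolynomial (Fin 2) Ω, MvPolynomial.aeval ψ f = 0 → f = 0) ∧
    ∀ f : MvPolynomial (Fin 2) Ω, ∃ (N : ℕ) (f' : MvPolynomial (Fin 2) Ω),
      MvPolynomial.aeval ψ d ^ N * f = MvPolynomial.aeval ψ f'
   := by
  constructor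
  · intro f hf
    have hcomp : ∀ (Q' : Fin 2 → Ω) (g : MvPolynomial (Fin 2) Ω),
        MvPolynomial.eval Q' (MvPolynomial.aeval ψ g) =
          MvPolynomial.eval (fun i => MvPolynomial.eval Q' (ψ i)) g := by
      intro Q' g
      induction g using MvPolynomial.induction_on with
      | C a => simp [MvPolynomial.algebraMap_eq]
      | add p q hp hq => rw [map_add, map_add, map_add, hp, hq]
      | mul_X p n hp => rw [map_mul, map_mul, map_mul, hp]; simp
    have hz : f * d = 0 := by
      apply MvPolynomial.funext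
      intro Q
      rw [map_mul, map_zero]
      by_cases hdQ : MvPolynomial.eval Q d = 0
      · rw [hdQ, mul_zero]
      · have h1 := hcomp (fun j => MvPolynomial.eval Q (φ j) / MvPolynomial.eval Q d) f
        rw [hf, map_zero] at h1
        have h2 : (fun i => MvPolynomial.eval
            (fun j => MvPolynomial.eval Q (φ j) / MvPolynomial.eval Q d) (ψ i)) = Q := by
          funext i
          exact inv2 Q hdQ i
        rw [h2] at h1
        rw [← h1, zero_mul]
    rcases mul_eq_zero.mp hz with h | h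
    · exact h
    · exact (hd h).elim
  · intro f
    induction f using MvPolynomial.induction_on with
    | C a =>
      refine ⟨0, MvPolynomial.C a, ?_⟩
      rw [pow_zero, one_mul, MvPolynomial.aeval_C, MvPolynomial.algebraMap_eq]
    | add p q hp hq =>
      obtain ⟨N, p', hp'⟩ := hp
      obtain ⟨M, q', hq'⟩ := hq
      refine ⟨N + M, d ^ M * p' + d ^ N * q', ?_⟩
      rw [map_add, map_mul, map_mul, map_pow, map_pow, ← hp', ← hq']
      ring
    | mul_X p n hp =>
      obtain ⟨N, p', hp'⟩ := hp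
      refine ⟨N + 1, p' * φ n, ?_⟩
      rw [map_mul, ← hp', inv1 n]
      ring

end

end

section

open Pool.Agent.TBR Pool.Agent.TQU
universe u v w

section

-- The open subset of the curve is given by an irreducible equation.
theorem mod_irr {Ω : Type u} [Field Ω] [IsAlgClosed Ω] (G d : MvPolynomial (Fin 2) Ω) (ψ φ : Fin 2 → MvPolynomial (Fin 2) Ω)
    (inv1 : ∀ i, MvPolynomial.aeval ψ (φ i) = MvPolynomial.aeval ψ d * MvPolynomial.X i)
    (inv2 : ∀ Q : Fin 2 → Ω, MvPolynomial.eval Q d ≠ 0 → ∀ i,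
      MvPolynomial.eval (fun j => MvPolynomial.eval Q (φ j) / MvPolynomial.eval Q d) (ψ i) = Q i)
    (hG : Irreducible G) (hd : ¬ G ∣ d)
    (ne : ∀ Q : Fin 2 → Ω, MvPolynomial.eval Q (MvPolynomial.aeval ψ G) = 0 →
      MvPolynomial.eval Q (MvPolynomial.aeval ψ d) ≠ 0) :
    Irreducible (MvPolynomial.aeval ψ G) ∧
      ∀ h : MvPolynomial (Fin 2) Ω, MvPolynomial.aeval ψ G ∣ MvPolynomial.aeval ψ h ↔ G ∣ h := by
  classical
  have hd0 : d ≠ 0 := fun h => hd (h ▸ dvd_zero G)
  obtain ⟨inj, loc⟩ := mod_loc d ψ φ inv1 inv2 hd0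
  have hGp : Prime G := UniqueFactorizationMonoid.irreducible_iff_prime.1 hG
  have inj2 : ∀ a b : MvPolynomial (Fin 2) Ω, MvPolynomial.aeval ψ a = MvPolynomial.aeval ψ b → a = b := by
    intro a b hab
    have : MvPolynomial.aeval ψ (a - b) = 0 := by rw [map_sub, hab, sub_self]
    exact sub_eq_zero.1 (inj _ this)
  have hev : ∀ (Q : Fin 2 → Ω) (h : MvPolynomial (Fin 2) Ω),
      MvPolynomial.eval Q (MvPolynomial.aeval ψ h) =
      MvPolynomial.eval (fun j => MvPolynomial.eval Q (ψ j)) h := by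
    intro Q h
    induction h using MvPolynomial.induction_on with
    | C a => simp
    | add p q hp hq => simp only [map_add, hp, hq]
    | mul_X p i hp => simp only [map_mul, hp, MvPolynomial.aeval_X, MvPolynomial.eval_X]
  -- coprimality
  have hcop : IsCoprime (MvPolynomial.aeval ψ G) (MvPolynomial.aeval ψ d) := by
    have htop : Ideal.span {MvPolynomial.aeval ψ G, MvPolynomial.aeval ψ d} = ⊤ := by
      by_contra hne
      obtain ⟨M, hM, hle⟩ := Ideal.exists_le_maximal _ hne
      obtain ⟨Q, hQ⟩ := (MvPolynomial.isMaximal_iff_eq_vanishingIdeal_singleton (I := M)).1 hM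
      have h1 : MvPolynomial.aeval ψ G ∈ M := hle (Ideal.subset_span (by simp))
      have h2 : MvPolynomial.aeval ψ d ∈ M := hle (Ideal.subset_span (by simp))
      rw [hQ, MvPolynomial.mem_vanishingIdeal_singleton_iff] at h1 h2
      rw [MvPolynomial.aeval_eq_eval] at h1 h2
      exact ne Q h1 h2
    have h1 : (1 : MvPolynomial (Fin 2) Ω) ∈ Ideal.span {MvPolynomial.aeval ψ G, MvPolynomial.aeval ψ d} := by
      rw [htop]; trivial
    obtain ⟨a, b, hab⟩ := Ideal.mem_span_pair.1 h1
    exact ⟨a, b, hab⟩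
  have hdiv : ∀ (N : ℕ) (f : MvPolynomial (Fin 2) Ω),
      MvPolynomial.aeval ψ G ∣ MvPolynomial.aeval ψ d ^ N * f → MvPolynomial.aeval ψ G ∣ f := by
    intro N f h
    exact (IsCoprime.pow_right hcop).dvd_of_dvd_mul_left h
  have hback : ∀ h : MvPolynomial (Fin 2) Ω, MvPolynomial.aeval ψ G ∣ MvPolynomial.aeval ψ h → G ∣ h := by
    intro h ⟨h1, hh1⟩
    obtain ⟨N, h1', e⟩ := loc h1
    have e2 : MvPolynomial.aeval ψ (d ^ N * h) = MvPolynomial.aeval ψ (G * h1') := by
      rw [map_mul, map_pow, map_mul, hh1, ← e]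
      ring
    have e3 := inj2 _ _ e2
    have e4 : G ∣ d ^ N * h := ⟨h1', e3⟩
    rcases hGp.dvd_or_dvd e4 with h5 | h5
    · exact absurd (hGp.dvd_of_dvd_pow h5) hd
    · exact h5
  have hprime : Prime (MvPolynomial.aeval ψ G) := by
    refine ⟨?_, ?_, ?_⟩
    · intro h0
      exact hG.ne_zero (inj _ h0)
    · intro hu
      have hex : ∃ Q : Fin 2 → Ω, MvPolynomial.eval Q G = 0 ∧ MvPolynomial.eval Q d ≠ 0 := by
        by_contra hcon
        push Not at hcon
        have hmem : d ∈ MvPolynomial.vanishingIdeal Ω (MvPolynomial.zeroLocus Ω (Ideal.span {G})) := by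
          rw [MvPolynomial.mem_vanishingIdeal_iff]
          intro Q hQ
          rw [MvPolynomial.mem_zeroLocus_iff] at hQ
          have := hQ G (Ideal.subset_span rfl)
          rw [MvPolynomial.aeval_eq_eval] at this ⊢
          exact hcon Q this
        rw [MvPolynomial.vanishingIdeal_zeroLocus_eq_radical] at hmem
        obtain ⟨n, hn⟩ := Ideal.mem_radical_iff.1 hmem
        rw [Ideal.mem_span_singleton] at hn
        exact hd (hGp.dvd_of_dvd_pow hn)
      obtain ⟨Q, hQG, hQd⟩ := hex
      have e : MvPolynomial.eval (fun j => MvPolynomial.eval Q (φ j) / MvPolynomial.eval Q d)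
          (MvPolynomial.aeval ψ G) = 0 := by
        rw [hev]
        have : (fun j => MvPolynomial.eval (fun j => MvPolynomial.eval Q (φ j) / MvPolynomial.eval Q d) (ψ j)) = Q := by
          funext i
          exact inv2 Q hQd i
        rw [this]
        exact hQG
      have hu2 := hu.map (MvPolynomial.eval (fun j => MvPolynomial.eval Q (φ j) / MvPolynomial.eval Q d))
      rw [e] at hu2
      exact not_isUnit_zero hu2
    · intro f1 f2 hf
      obtain ⟨N, f1', e1⟩ := loc f1
      obtain ⟨M, f2', e2⟩ := loc f2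
      have h3 : MvPolynomial.aeval ψ G ∣ MvPolynomial.aeval ψ (f1' * f2') := by
        rw [map_mul, ← e1, ← e2]
        obtain ⟨q, hq⟩ := hf
        exact ⟨MvPolynomial.aeval ψ d ^ N * MvPolynomial.aeval ψ d ^ M * q, by
          calc _ = MvPolynomial.aeval ψ d ^ N * MvPolynomial.aeval ψ d ^ M * (f1 * f2) := by ring
            _ = _ := by rw [hq]; ring⟩
      rcases hGp.dvd_or_dvd (hback _ h3) with h4 | h4
      · left
        apply hdiv N
        rw [e1]
        exact map_dvd _ h4
      · right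
        apply hdiv M
        rw [e2]
        exact map_dvd _ h4
  exact ⟨hprime.irreducible, fun h => ⟨hback h, fun h1 => map_dvd _ h1⟩⟩

end

end

section

open Pool.Agent.TBR Pool.Agent.TQU

universe u v w

section

-- The open subset of the curve is smooth.
theorem mod_sm {Ω : Type u} [Field Ω] (G : MvPolynomial (Fin 2) Ω) (p : Polynomial Ω) (c : Ω)
    (hc : ∀ x : Ω, p.eval x = 0 → MvPolynomial.eval ![x, - c] G ≠ 0)
    (hs : ∀ Q : Fin 2 → Ω, MvPolynomial.eval Q G = 0 → p.eval (Q 0) ≠ 0 →
      ∃ i, MvPolynomial.eval Q (MvPolynomial.pderiv i G) ≠ 0)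
    (ψ : Fin 2 → MvPolynomial (Fin 2) Ω)
    (hψ : ψ = ![MvPolynomial.X 0,
      Polynomial.aeval (MvPolynomial.X 0) p * MvPolynomial.X 1 - MvPolynomial.C c])
    (Q : Fin 2 → Ω) (hQ : MvPolynomial.eval Q (MvPolynomial.aeval ψ G) = 0) :
    p.eval (Q 0) ≠ 0 ∧ ∃ i, MvPolynomial.eval Q (MvPolynomial.pderiv i (MvPolynomial.aeval ψ G)) ≠ 0 := by
  classical
  have hev : ∀ h : MvPolynomial (Fin 2) Ω, MvPolynomial.eval Q (MvPolynomial.aeval ψ h) =
      MvPolynomial.eval (fun j => MvPolynomial.eval Q (ψ j)) h := by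
    intro h
    induction h using MvPolynomial.induction_on with
    | C a => simp
    | add p q hp hq => simp only [map_add, hp, hq]
    | mul_X p i hp => simp only [map_mul, hp, MvPolynomial.aeval_X, MvPolynomial.eval_X]
  have hch : ∀ (i : Fin 2) (h : MvPolynomial (Fin 2) Ω),
      MvPolynomial.pderiv i (MvPolynomial.aeval ψ h) =
        ∑ j, MvPolynomial.aeval ψ (MvPolynomial.pderiv j h) * MvPolynomial.pderiv i (ψ j) := by
    intro i h
    induction h using MvPolynomial.induction_on with
    | C a =>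
      have e : MvPolynomial.aeval ψ (MvPolynomial.C a) = (MvPolynomial.C a : MvPolynomial (Fin 2) Ω) := by
        rw [MvPolynomial.aeval_C]; rfl
      rw [e]
      simp
    | add p q hp hq =>
      simp only [map_add, hp, hq, add_mul, Finset.sum_add_distrib]
    | mul_X p k hp =>
      rw [Fin.sum_univ_two] at hp ⊢
      simp only [map_mul, MvPolynomial.aeval_X, Derivation.leibniz, hp, smul_eq_mul, map_add,
        MvPolynomial.pderiv_X]
      fin_cases k
      · simp
        ring
      · simp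
        ring
  have ep : MvPolynomial.eval Q (Polynomial.aeval (MvPolynomial.X 0) p) = p.eval (Q 0) := by
    rw [Polynomial.aeval_def, Polynomial.hom_eval₂, MvPolynomial.eval_X, Polynomial.eval₂_eq_eval_map]
    congr 1
    have : (MvPolynomial.eval Q).comp (algebraMap Ω (MvPolynomial (Fin 2) Ω)) = RingHom.id Ω := by
      ext a
      simp [MvPolynomial.algebraMap_eq]
    rw [this, Polynomial.map_id]
  have e0 : MvPolynomial.eval Q (ψ 0) = Q 0 := by
    rw [hψ]
    simp
  have e1 : MvPolynomial.eval Q (ψ 1) = p.eval (Q 0) * Q 1 - c := by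
    rw [hψ]
    simp only [Matrix.cons_val_one, Matrix.cons_val_fin_one, map_sub, map_mul, ep, MvPolynomial.eval_X,
      MvPolynomial.eval_C]
  have eR : (fun j => MvPolynomial.eval Q (ψ j)) = ![Q 0, p.eval (Q 0) * Q 1 - c] := by
    funext j
    fin_cases j
    · exact e0
    · exact e1
  rw [hev, eR] at hQ
  have hp0 : p.eval (Q 0) ≠ 0 := by
    intro h0
    refine hc (Q 0) h0 ?_
    rw [h0, zero_mul, zero_sub] at hQ
    exact hQ
  refine ⟨hp0, ?_⟩
  by_contra hcon
  push Not at hcon
  have d1p : MvPolynomial.pderiv (1 : Fin 2) (Polynomial.aeval (MvPolynomial.X 0 : MvPolynomial (Fin 2) Ω) p) = 0 := by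
    rw [Derivation.map_aeval]
    simp
  have d10 : MvPolynomial.pderiv (1 : Fin 2) (ψ 0) = 0 := by
    rw [hψ]
    simp
  have d00 : MvPolynomial.pderiv (0 : Fin 2) (ψ 0) = 1 := by
    rw [hψ]
    simp
  have d11 : MvPolynomial.pderiv (1 : Fin 2) (ψ 1) = Polynomial.aeval (MvPolynomial.X 0) p := by
    rw [hψ]
    simp only [Matrix.cons_val_one, Matrix.cons_val_fin_one, map_sub, Derivation.leibniz, d1p,
      MvPolynomial.pderiv_C, MvPolynomial.pderiv_X_self, smul_eq_mul, mul_one, mul_zero, add_zero,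
      sub_zero]
  have h1 := hcon 1
  have h0 := hcon 0
  rw [hch, Fin.sum_univ_two, map_add, map_mul, map_mul, hev, hev, eR] at h1 h0
  rw [d10, d11, ep, map_zero, mul_zero, zero_add] at h1
  rw [d00, map_one, mul_one] at h0
  have g1 := (mul_eq_zero.1 h1).resolve_right hp0
  rw [g1, zero_mul, add_zero] at h0
  obtain ⟨i, hi⟩ := hs ![Q 0, p.eval (Q 0) * Q 1 - c] hQ hp0
  fin_cases i
  · exact hi h0
  · exact hi g1

end

end

section

open Pool.Agent.TBR Pool.Agent.TQU
universe u v w

section

private theorem oQ_cnt_step {Ω : Type u} [Field Ω] (F : MvPolynomial (Fin 2) Ω)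
    [IsDedekindDomain (CR F)] (m I : Ideal (CR F)) (hI : I ≠ ⊥) (hm : m.IsMaximal) :
    ∃ (f : (CR F ⧸ m) →ₗ[MvPolynomial (Fin 2) Ω] (CR F ⧸ (m * I)))
      (g : (CR F ⧸ (m * I)) →ₗ[MvPolynomial (Fin 2) Ω] (CR F ⧸ I)),
      Function.Injective f ∧ Function.Surjective g ∧ Function.Exact f g := by
  have hJI : m * I ≤ I := Ideal.mul_le_right
  have hne : m * I ≠ I := by
    intro h
    have h1 : m * I = ⊤ * I := by rw [h, Ideal.top_mul]
    exact hm.ne_top (mul_right_cancel₀ hI h1)
  obtain ⟨x0, hx0I, hx0J⟩ : ∃ x ∈ I, x ∉ m * I := by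
    by_contra hcon
    push Not at hcon
    exact hne (le_antisymm hJI hcon)
  have hspan : Ideal.span {x0} ⊔ m * I = I := by
    have h1 : Ideal.span {x0} ⊔ m * I ≤ I :=
      sup_le ((Ideal.span_singleton_le_iff_mem I).2 hx0I) hJI
    obtain ⟨K, hK⟩ := Ideal.dvd_iff_le.2 h1
    have h2 : m ≤ K := by
      have h3 : I * m ≤ I * K := by
        rw [← hK, mul_comm I m]
        exact le_sup_right
      exact Ideal.dvd_iff_le.1 ((mul_dvd_mul_iff_left hI).1 (Ideal.dvd_iff_le.2 h3))
    rcases eq_or_ne K ⊤ with h3 | h3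
    · rw [hK, h3, Ideal.mul_top]
    · exfalso
      apply hx0J
      have h4 : Ideal.span {x0} ⊔ m * I = m * I := by
        rw [hK, ← hm.eq_of_le h3 h2, mul_comm]
      rw [← h4]
      exact Ideal.mem_sup_left (Ideal.mem_span_singleton_self x0)
  have hf0 : m ≤ Submodule.comap (LinearMap.mulLeft (CR F) x0) (m * I) := by
    intro y hy
    rw [Submodule.mem_comap, LinearMap.mulLeft_apply, mul_comm]
    exact Ideal.mul_mem_mul hy hx0I
  have hg0 : m * I ≤ Submodule.comap (LinearMap.id : CR F →ₗ[CR F] CR F) I := hJI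
  refine ⟨(Submodule.mapQ m (m * I) (LinearMap.mulLeft (CR F) x0) hf0).restrictScalars _,
    (Submodule.mapQ (m * I) I LinearMap.id hg0).restrictScalars _, ?_, ?_, ?_⟩
  · rw [injective_iff_map_eq_zero]
    intro y hy
    obtain ⟨y, rfl⟩ := Submodule.Quotient.mk_surjective _ y
    have hy' : Submodule.mapQ m (m * I) (LinearMap.mulLeft (CR F) x0) hf0
      (Submodule.Quotient.mk y) = 0 := hy
    rw [Submodule.mapQ_apply, Submodule.Quotient.mk_eq_zero, LinearMap.mulLeft_apply] at hy'
    rw [Submodule.Quotient.mk_eq_zero]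
    by_contra hym
    obtain ⟨a, b, hb, hab⟩ := hm.exists_inv hym
    apply hx0J
    have h1 : x0 = a * (x0 * y) + b * x0 := by
      linear_combination (-x0) * hab
    rw [h1]
    exact (m * I).add_mem ((m * I).mul_mem_left _ hy') (Ideal.mul_mem_mul hb hx0I)
  · intro y
    obtain ⟨y, rfl⟩ := Submodule.Quotient.mk_surjective _ y
    exact ⟨Submodule.Quotient.mk y, rfl⟩
  · intro y
    obtain ⟨y, rfl⟩ := Submodule.Quotient.mk_surjective _ y
    constructor
    · intro hy
      have hy' : (Submodule.Quotient.mk y : CR F ⧸ I) = 0 := hy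
      rw [Submodule.Quotient.mk_eq_zero, ← hspan, Ideal.mem_span_singleton_sup] at hy'
      obtain ⟨s, b, hb, hsb⟩ := hy'
      refine ⟨Submodule.Quotient.mk s, ?_⟩
      show (Submodule.Quotient.mk (x0 * s) : CR F ⧸ (m * I)) = Submodule.Quotient.mk y
      rw [Submodule.Quotient.eq, ← hsb]
      have h2 : x0 * s - (s * x0 + b) = - b := by ring
      rw [h2]
      exact (m * I).neg_mem hb
    · rintro ⟨w, hw⟩
      obtain ⟨w, rfl⟩ := Submodule.Quotient.mk_surjective _ w
      have hw' : (Submodule.Quotient.mk (x0 * w) : CR F ⧸ (m * I)) = Submodule.Quotient.mk y := hw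
      show (Submodule.Quotient.mk y : CR F ⧸ I) = 0
      rw [Submodule.Quotient.mk_eq_zero]
      rw [Submodule.Quotient.eq] at hw'
      have h3 := hJI hw'
      have h4 : y = x0 * w - (x0 * w - y) := by ring
      rw [h4]
      exact I.sub_mem (I.mul_mem_right _ hx0I) h3

private theorem oQ_cnt_equiv {Ω : Type u} [Field Ω] (F : MvPolynomial (Fin 2) Ω)
    (J : Ideal (CR F)) (K : Ideal (MvPolynomial (Fin 2) Ω))
    (h : ∀ g, Ideal.Quotient.mk (Ideal.span {F}) g ∈ J ↔ g ∈ K) :
    Nonempty ((MvPolynomial (Fin 2) Ω ⧸ K) ≃ₗ[MvPolynomial (Fin 2) Ω] (CR F ⧸ J)) := by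
  let φ : MvPolynomial (Fin 2) Ω →ₗ[MvPolynomial (Fin 2) Ω] (CR F ⧸ J) :=
    (J.mkQ.restrictScalars (MvPolynomial (Fin 2) Ω)).comp
      (Ideal.span {F} : Submodule (MvPolynomial (Fin 2) Ω) (MvPolynomial (Fin 2) Ω)).mkQ
  have hφ : Function.Surjective φ := by
    intro y
    obtain ⟨y, rfl⟩ := Submodule.Quotient.mk_surjective _ y
    obtain ⟨g, rfl⟩ := Ideal.Quotient.mk_surjective y
    exact ⟨g, rfl⟩
  have hker : LinearMap.ker φ = K := by
    ext g
    rw [LinearMap.mem_ker, ← h]
    exact Submodule.Quotient.mk_eq_zero J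
  exact ⟨(Submodule.quotEquivOfEq _ _ hker.symm).trans (φ.quotKerEquivOfSurjective hφ)⟩

-- The multiplicity of a point in the divisor of u on a smooth curve.
open Classical in
theorem oQ_cnt {Ω : Type u} [Field Ω] [IsAlgClosed Ω] (F u : MvPolynomial (Fin 2) Ω)
    [IsDedekindDomain (CR F)] (Z : Multiset (Fin 2 → Ω))
    (hZ : ∀ Q ∈ Z, MvPolynomial.eval Q F = 0)
    (h : Ideal.span {Ideal.Quotient.mk (Ideal.span {F}) u} = (Z.map (ptIdeal F)).prod)
    (Q : Fin 2 → Ω) : oQ F u Q = (Z.count Q : ℕ) := by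
  have hpt : ∀ Q₀ : Fin 2 → Ω, MvPolynomial.eval Q₀ F = 0 →
      len (mQ Q) (CR F ⧸ ptIdeal F Q₀) = ((if Q = Q₀ then 1 else 0 : ℕ) : ℕ∞) := by
    intro Q₀ hQ₀
    split_ifs with hQQ
    · rw [hQQ]
      obtain ⟨e⟩ := oQ_cnt_equiv F (ptIdeal F Q₀) (mQ Q₀) (fun g => by
        rw [mem_pt F Q₀ hQ₀, mem_mQ])
      rw [← len_equiv (mQ Q₀) e, len_res, Nat.cast_one]
    · obtain ⟨i, hi⟩ : ∃ i, Q i ≠ Q₀ i := by
        by_contra hc
        push Not at hc
        exact hQQ (funext hc)
      rw [Nat.cast_zero]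
      refine len_kill (mQ Q) (MvPolynomial.X i - MvPolynomial.C (Q₀ i)) ?_ ?_
      · rw [mem_mQ, map_sub, MvPolynomial.eval_X, MvPolynomial.eval_C, sub_eq_zero]
        exact hi
      · intro y
        obtain ⟨y, rfl⟩ := Submodule.Quotient.mk_surjective _ y
        obtain ⟨g, rfl⟩ := Ideal.Quotient.mk_surjective y
        show (Submodule.Quotient.mk (Ideal.Quotient.mk (Ideal.span {F})
          ((MvPolynomial.X i - MvPolynomial.C (Q₀ i)) * g)) : CR F ⧸ ptIdeal F Q₀) = 0
        rw [Submodule.Quotient.mk_eq_zero, mem_pt F Q₀ hQ₀, map_mul, map_sub,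
          MvPolynomial.eval_X, MvPolynomial.eval_C, sub_self, zero_mul]
  have hne : ∀ Z : Multiset (Fin 2 → Ω), (∀ Q ∈ Z, MvPolynomial.eval Q F = 0) →
      (Z.map (ptIdeal F)).prod ≠ ⊥ := by
    intro Z
    induction Z using Multiset.induction_on with
    | empty =>
      intro _
      rw [Multiset.map_zero, Multiset.prod_zero, Ideal.one_eq_top]
      exact top_ne_bot
    | cons Q Z ih =>
      intro hZ'
      rw [Multiset.map_cons, Multiset.prod_cons, Ne, Ideal.mul_eq_bot, not_or]
      exact ⟨pt_ne_bot F Q (hZ' Q (Multiset.mem_cons_self _ _)),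
        ih fun R hR => hZ' R (Multiset.mem_cons_of_mem hR)⟩
  have hmain : ∀ Z : Multiset (Fin 2 → Ω), (∀ Q ∈ Z, MvPolynomial.eval Q F = 0) →
      len (mQ Q) (CR F ⧸ (Z.map (ptIdeal F)).prod) = (Z.count Q : ℕ) := by
    intro Z
    induction Z using Multiset.induction_on with
    | empty =>
      intro _
      rw [Multiset.map_zero, Multiset.prod_zero, Ideal.one_eq_top, Multiset.count_zero,
        Nat.cast_zero]
      refine len_kill (mQ Q) 1 ?_ ?_
      · rw [mem_mQ, map_one]
        exact one_ne_zero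
      · intro y
        have : Subsingleton (CR F ⧸ (⊤ : Ideal (CR F))) := Ideal.Quotient.subsingleton_iff.2 rfl
        exact Subsingleton.elim _ _
    | cons Q₀ Z ih =>
      intro hZ'
      have h0 := hZ' Q₀ (Multiset.mem_cons_self _ _)
      have h1 : ∀ R ∈ Z, MvPolynomial.eval R F = 0 := fun R hR =>
        hZ' R (Multiset.mem_cons_of_mem hR)
      obtain ⟨f, g, hf, hg, hfg⟩ := oQ_cnt_step F (ptIdeal F Q₀) (Z.map (ptIdeal F)).prod
        (hne Z h1) (pt_max F Q₀ h0)
      rw [Multiset.map_cons, Multiset.prod_cons, len_exact (mQ Q) f g hf hg hfg, hpt Q₀ h0, ih h1,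
        Multiset.count_cons, ← Nat.cast_add, add_comm]
  obtain ⟨e⟩ := oQ_cnt_equiv F (Ideal.span {Ideal.Quotient.mk (Ideal.span {F}) u})
    (Ideal.span {F, u}) (fun g => by
      rw [Ideal.mem_span_singleton', Ideal.mem_span_pair]
      constructor
      · rintro ⟨c, hc⟩
        obtain ⟨c, rfl⟩ := Ideal.Quotient.mk_surjective c
        rw [← map_mul, eq_comm, Ideal.Quotient.eq, Ideal.mem_span_singleton] at hc
        obtain ⟨b, hb⟩ := hc
        exact ⟨b, c, by linear_combination -hb⟩
      · rintro ⟨b, c, hbc⟩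
        refine ⟨Ideal.Quotient.mk _ c, ?_⟩
        rw [← map_mul, Ideal.Quotient.eq, Ideal.mem_span_singleton]
        exact ⟨-b, by linear_combination hbc⟩)
  rw [oQ, len_equiv (mQ Q) e, h]
  exact hmain Z hZ

end

end

section

open Pool.Agent.TBR Pool.Agent.TQU
universe u v w

section

-- The multiplicities do not change.
theorem oQ_tr {Ω : Type u} [Field Ω] [IsAlgClosed Ω] (G d : MvPolynomial (Fin 2) Ω) (ψ φ : Fin 2 → MvPolynomial (Fin 2) Ω)
    (inv1 : ∀ i, MvPolynomial.aeval ψ (φ i) = MvPolynomial.aeval ψ d * MvPolynomial.X i)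
    (inv2 : ∀ Q : Fin 2 → Ω, MvPolynomial.eval Q d ≠ 0 → ∀ i,
      MvPolynomial.eval (fun j => MvPolynomial.eval Q (φ j) / MvPolynomial.eval Q d) (ψ i) = Q i)
    (h : MvPolynomial (Fin 2) Ω) (Q : Fin 2 → Ω)
    (hQ : MvPolynomial.eval Q (MvPolynomial.aeval ψ d) ≠ 0) :
    oQ (MvPolynomial.aeval ψ G) (MvPolynomial.aeval ψ h) Q =
      oQ G h (fun i => MvPolynomial.eval Q (ψ i)) := by
  have hd : d ≠ 0 := by
    rintro rfl
    simp at hQ
  obtain ⟨h1, h2⟩ := mod_loc d ψ φ inv1 inv2 hd
  have h3 : ∀ a : MvPolynomial (Fin 2) Ω, MvPolynomial.eval Q (MvPolynomial.aeval ψ a) =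
      MvPolynomial.eval (fun i => MvPolynomial.eval Q (ψ i)) a := by
    intro a
    induction a using MvPolynomial.induction_on with
    | C c => rw [MvPolynomial.aeval_C, MvPolynomial.algebraMap_eq, MvPolynomial.eval_C,
        MvPolynomial.eval_C]
    | add p q hp hq => rw [map_add, map_add, map_add, hp, hq]
    | mul_X p i hp => rw [map_mul, map_mul, map_mul, hp, MvPolynomial.aeval_X,
        MvPolynomial.eval_X]
  have h4 : mQ (fun i => MvPolynomial.eval Q (ψ i)) =
      (mQ Q).comap (MvPolynomial.aeval ψ : MvPolynomial (Fin 2) Ω →ₐ[Ω] _).toRingHom := by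
    ext a
    rw [mem_mQ, Ideal.mem_comap, mem_mQ]
    rw [← h3 a]
    rfl
  have h5 := len_ri (MvPolynomial.aeval ψ : MvPolynomial (Fin 2) Ω →ₐ[Ω] _).toRingHom
    (mQ (fun i => MvPolynomial.eval Q (ψ i))) (mQ Q) h4 (fun a ha => h1 a ha) d
    (fun hh => hQ ((mem_mQ _ _).1 hh)) (fun b => h2 b) (Ideal.span {G, h})
  rw [Ideal.map_span, Set.image_pair] at h5
  exact h5.symm

end

end

section

open Pool.Agent.TBR Pool.Agent.TQU
universe u v w

section

-- The coordinate ring of a smooth plane curve is a Dedekind domain.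
theorem ded_sm {Ω : Type u} [Field Ω] [IsAlgClosed Ω] (F : MvPolynomial (Fin 2) Ω)
    (hF : Irreducible F) (hs : ∀ Q : Fin 2 → Ω, MvPolynomial.eval Q F = 0 →
      ∃ i, MvPolynomial.eval Q (MvPolynomial.pderiv i F) ≠ 0) : IsDedekindDomain (CR F) := by
  have hprime : (Ideal.span {F}).IsPrime := (Ideal.span_singleton_prime hF.ne_zero).mpr hF.prime
  have hdom : IsDomain (CR F) := Ideal.Quotient.isDomain (Ideal.span {F})
  have hnoeth : IsNoetherian (CR F) (CR F) := inferInstanceAs (IsNoetherianRing (CR F))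
  have hdvr : IsDedekindDomainDvr (CR F) := by
    refine ⟨?_⟩
    intro P hP hp
    have hmax := crdim F hF P hP hp
    obtain ⟨Q, hQ, hPQ⟩ := max_is_pt F P hmax
    have hmQ : mQ Q = Ideal.span (Set.range fun i => MvPolynomial.X i - MvPolynomial.C (Q i)) := by
      ext g
      constructor
      · intro hg
        have h1 : MvPolynomial.eval Q g = 0 := hg
        have h2 := RF_sub_mem Q g
        rwa [h1, MvPolynomial.C_0, sub_zero] at h2
      · intro hg
        exact RF_eval_zero Q g hg
    have hm : P = Ideal.map (Ideal.Quotient.mk (Ideal.span {F})) (mQ Q) := by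
      rw [hmQ, hPQ]
      rfl
    exact smooth F hF Q hQ (hs Q hQ) P hm (Localization.AtPrime P)
  exact inferInstance

end

end

end Pool.Agent.RDP
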