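import Pool.Agent.TBM.Sit
import Pool.Agent.TBM.Base
import Pool.Agent.TBM.Coh

/-!
# Norms over a stable multiset of points
-/

set_option autoImplicit false

namespace Pool.Agent.RDP

open Pool.Agent.TBR

universe u

variable {k Ω : Type u} [Field k] [Field Ω] [Algebra k Ω]

/-- `E` is a multiset of conjugates of `P` over `A` which is stable under `Gal(Ω/k(L))`; `t Q` is an
automorphism over `A` which maps `P` to `Q` -/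
structure Stb (A : IntermediateField k Ω) (z : Ω) (P : Fin 2 → Ω) (E : Multiset (Fin 2 → Ω))
    (L : Set Ω) (t : (Fin 2 → Ω) → Ω ≃ₐ[k] Ω) : Prop where
  mem : z ∈ L
  tr : ∀ Q ∈ E, t Q ∈ Fx k (A : Set Ω) ∧ ∀ i, t Q (P i) = Q i
  perm : ∀ g ∈ Fx k L, E.map (fun Q i => g (Q i)) = E

section Tn

variable (Z : Multiset (Fin 2 → Ω)) (t : (Fin 2 → Ω) → Ω ≃ₐ[k] Ω)

/-- the product over the points, as a homomorphism -/
def tnHom : Ωˣ →* Ωˣ := MonoidHom.mk' (Tn Z t) (fun x y => by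
  unfold Tn
  rw [← Multiset.prod_map_mul]
  exact congrArg Multiset.prod (Multiset.map_congr rfl fun R _ => smul_mul' _ _ _))

theorem tnHom_apply (f : Ωˣ) : tnHom Z t f = Tn Z t f := rfl

theorem Tn.mul (f g : Ωˣ) : Tn Z t (f * g) = Tn Z t f * Tn Z t g := (tnHom Z t).map_mul f g

theorem Tn.inv (f : Ωˣ) : Tn Z t f⁻¹ = (Tn Z t f)⁻¹ := (tnHom Z t).map_inv f

theorem Tn.pow (f : Ωˣ) (n : ℕ) : Tn Z t (f ^ n) = Tn Z t f ^ n := (tnHom Z t).map_pow f n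

theorem Tn.zpow (f : Ωˣ) (n : ℤ) : Tn Z t (f ^ n) = Tn Z t f ^ n := (tnHom Z t).map_zpow f n

theorem Tn.one : Tn Z t (1 : Ωˣ) = 1 := (tnHom Z t).map_one

variable {Z t}

theorem Lc1.tn {T : Set Ω} {b : (Ω ≃ₐ[k] Ω) → Ωˣ} (hb : Lc1 T b) : Lc1 T (fun σ => Tn Z t (b σ)) :=
  hb.map (Tn Z t)

theorem Lc2.tn {T : Set Ω} {c : (Ω ≃ₐ[k] Ω) → (Ω ≃ₐ[k] Ω) → Ωˣ} (hc : Lc2 T c) :
    Lc2 T (fun σ τ => Tn Z t (c σ τ)) := hc.map (Tn Z t)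

end Tn

section

variable {A : IntermediateField k Ω} {z : Ω} {P : Fin 2 → Ω} {E : Multiset (Fin 2 → Ω)}
  {L : Set Ω} {t : (Fin 2 → Ω) → Ω ≃ₐ[k] Ω}

/-- automorphisms which agree on `S` agree on the elements fixed by `Fx k S` -/
theorem smul_eq_of_agree {S : Set Ω} (f : Ωˣ) (hf : ∀ s ∈ Fx k S, s • f = f) (g h : Ω ≃ₐ[k] Ω)
    (hgh : ∀ x ∈ S, g x = h x) : g • f = h • f := by
  have h1 : h⁻¹ * g ∈ Fx k S := by
    intro x hx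
    rw [AlgEquiv.mul_apply, hgh x hx]
    exact h.symm_apply_apply x
  have h2 : g = h * (h⁻¹ * g) := by group
  calc g • f = (h * (h⁻¹ * g)) • f := by rw [← h2]
    _ = h • f := by rw [mul_smul, hf _ h1]

theorem Stb.mem_map (hW : Stb A z P E L t) {g : Ω ≃ₐ[k] Ω} (hg : g ∈ Fx k L) {Q : Fin 2 → Ω}
    (hQ : Q ∈ E) : (fun i => g (Q i)) ∈ E := by
  have h := Multiset.mem_map_of_mem (fun (Q : Fin 2 → Ω) i => g (Q i)) hQ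
  rwa [hW.perm g hg] at h

theorem Stb.smul_pt (hZ : SitZ A z P) (hW : Stb A z P E L t) (g g' : Ω ≃ₐ[k] Ω)
    (hg : g ∈ Fx k L) (hg' : g' ∈ Fx k ({z} ∪ Set.range P)) (h : Ag (A : Set Ω) g g') (f : Ωˣ)
    (hf : ∀ s ∈ Fx k ((A : Set Ω) ∪ Set.range P), s • f = f) {Q : Fin 2 → Ω} (hQ : Q ∈ E) :
    g • t Q • f = t (fun i => g (Q i)) • g' • f := by
  have hgz : g ∈ Fx k {z} := by
    intro x hx
    rw [Set.mem_singleton_iff] at hx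
    rw [hx]; exact hg z hW.mem
  have hgA : ∀ x ∈ A, g x ∈ A := fun x hx => (hZ.stab g hgz x).2 hx
  have hg'P : ∀ i, g' (P i) = P i := fun i => hg' (P i) (Or.inr ⟨i, rfl⟩)
  have h1 := hW.tr Q hQ
  have h2 := hW.tr _ (hW.mem_map hg hQ)
  rw [← mul_smul, ← mul_smul]
  refine smul_eq_of_agree f hf _ _ ?_
  rintro x (hx | ⟨i, rfl⟩)
  · rw [AlgEquiv.mul_apply, AlgEquiv.mul_apply, h1.1 x hx, ← h x hx, h2.1 _ (hgA x hx)]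
  · rw [AlgEquiv.mul_apply, AlgEquiv.mul_apply, h1.2, hg'P, h2.2]

theorem Stb.smul (hZ : SitZ A z P) (hW : Stb A z P E L t) (g g' : Ω ≃ₐ[k] Ω) (hg : g ∈ Fx k L)
    (hg' : g' ∈ Fx k ({z} ∪ Set.range P)) (h : Ag (A : Set Ω) g g') (f : Ωˣ)
    (hf : ∀ s ∈ Fx k ((A : Set Ω) ∪ Set.range P), s • f = f) :
    g • Tn E t f = Tn E t (g' • f) := by
  have h1 : g • Tn E t f = (E.map fun R => g • t R • f).prod := by
    unfold Tn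
    rw [← MulDistribMulAction.toMonoidHom_apply, map_multiset_prod, Multiset.map_map]
    rfl
  have h2 : (E.map fun R => g • t R • f) = E.map fun R => t (fun i => g (R i)) • g' • f :=
    Multiset.map_congr rfl fun R hR => hW.smul_pt hZ g g' hg hg' h f hf hR
  have h3 : E.map (fun R => t (fun i => g (R i)) • g' • f) =
      (E.map (fun Q i => g (Q i))).map (fun R => t R • g' • f) := by
    rw [Multiset.map_map]
    rfl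
  rw [h1, h2, h3, hW.perm g hg]
  rfl

theorem Stb.lift (hZ : SitZ A z P) (hW : Stb A z P E L t) {g : Ω ≃ₐ[k] Ω}
    (hg : g ∈ Ge k L) : ∃ g' ∈ Ge k ({z} ∪ Set.range P), Ag (A : Set Ω) g g' := by
  have hgz : g ∈ Fx k {z} := by
    intro x hx
    rw [Set.mem_singleton_iff] at hx
    rw [hx]; exact hg.1 z hW.mem
  obtain ⟨g', h1, h2⟩ := hZ.lift g hgz
  refine ⟨g', ⟨h1, ?_⟩, h2⟩
  intro x hx
  rw [← h2 x (hZ.alg x hx)]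
  exact hg.2 x hx

theorem Stb.stabA (hZ : SitZ A z P) (hW : Stb A z P E L t) {g : Ω ≃ₐ[k] Ω}
    (hg : g ∈ Fx k L) (x : Ω) (hx : x ∈ (A : Set Ω)) : g x ∈ (A : Set Ω) := by
  refine (hZ.stab g ?_ x).2 hx
  intro y hy
  rw [Set.mem_singleton_iff] at hy
  rw [hy]
  exact hg z hW.mem

theorem lc2_eq {a : (Ω ≃ₐ[k] Ω) → (Ω ≃ₐ[k] Ω) → Ωˣ} (ha : Lc2 (A : Set Ω) a)
    {σ σ' τ τ' : Ω ≃ₐ[k] Ω} (h : Ag (A : Set Ω) σ σ') (h' : Ag (A : Set Ω) τ τ') :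
    a σ τ = a σ' τ' := by
  obtain ⟨S, h1, h2⟩ := ha
  exact h2 σ σ' τ τ' (h.mono h1) (h'.mono h1)

/-- the cocycle identity for elements of `Ge k L` in terms of a lift -/
theorem Stb.coc' (hZ : SitZ A z P) (hW : Stb A z P E L t)
    (a : (Ω ≃ₐ[k] Ω) → (Ω ≃ₐ[k] Ω) → Ωˣ) (ha : Lc2 (A : Set Ω) a)
    (hc : Coc (Ge k ({z} ∪ Set.range P)) a) (σ τ ρ : Ω ≃ₐ[k] Ω) (hσ : σ ∈ Ge k L)
    (hτ : τ ∈ Ge k L) (hρ : ρ ∈ Ge k L) :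
    ∃ σ' ∈ Ge k ({z} ∪ Set.range P), Ag (A : Set Ω) σ σ' ∧
      a σ τ * a (σ * τ) ρ = σ' • a τ ρ * a σ (τ * ρ) := by
  obtain ⟨σ', hσ', h1⟩ := hW.lift hZ hσ
  obtain ⟨τ', hτ', h2⟩ := hW.lift hZ hτ
  obtain ⟨ρ', hρ', h3⟩ := hW.lift hZ hρ
  refine ⟨σ', hσ', h1, ?_⟩
  have h12 : Ag (A : Set Ω) (σ * τ) (σ' * τ') := h1.mul h2 (hW.stabA hZ hτ.1)
  have h23 : Ag (A : Set Ω) (τ * ρ) (τ' * ρ') := h2.mul h3 (hW.stabA hZ hρ.1)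
  rw [lc2_eq ha h1 h2, lc2_eq ha h12 h3, lc2_eq ha h2 h3, lc2_eq ha h1 h23]
  exact hc σ' hσ' τ' hτ' ρ' hρ'

theorem Stb.coc (hZ : SitZ A z P) (hW : Stb A z P E L t)
    (a : (Ω ≃ₐ[k] Ω) → (Ω ≃ₐ[k] Ω) → Ωˣ) (ha : Lc2 (A : Set Ω) a)
    (hfix : ∀ σ τ, ∀ s ∈ Fx k ((A : Set Ω) ∪ Set.range P), s • a σ τ = a σ τ)
    (hc : Coc (Ge k ({z} ∪ Set.range P)) a) : Coc (Ge k L) (fun σ τ => Tn E t (a σ τ)) := by
  intro σ hσ τ hτ ρ hρ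
  obtain ⟨σ', hσ', h1, h2⟩ := hW.coc' hZ a ha hc σ τ ρ hσ hτ hρ
  show Tn E t (a σ τ) * Tn E t (a (σ * τ) ρ) = σ • Tn E t (a τ ρ) * Tn E t (a σ (τ * ρ))
  rw [hW.smul hZ σ σ' hσ.1 hσ'.1 h1 _ (hfix τ ρ), ← Tn.mul, h2, Tn.mul]

theorem Stb.cob (hZ : SitZ A z P) (hW : Stb A z P E L t)
    (a : (Ω ≃ₐ[k] Ω) → (Ω ≃ₐ[k] Ω) → Ωˣ) (ha : Lc2 (A : Set Ω) a) (b : (Ω ≃ₐ[k] Ω) → Ωˣ)
    (hb : Lc1 (A : Set Ω) b)
    (hfix : ∀ σ, ∀ s ∈ Fx k ((A : Set Ω) ∪ Set.range P), s • b σ = b σ)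
    (hc : Cob (Ge k ({z} ∪ Set.range P)) a b) :
    Cob (Ge k L) (fun σ τ => Tn E t (a σ τ)) (fun σ => Tn E t (b σ)) := by
  intro σ hσ τ hτ
  obtain ⟨σ', hσ', h1⟩ := hW.lift hZ hσ
  obtain ⟨τ', hτ', h2⟩ := hW.lift hZ hτ
  have h3 : Ag (A : Set Ω) (σ * τ) (σ' * τ') := h1.mul h2 (hW.stabA hZ hτ.1)
  have ea : a σ τ = a σ' τ' := lc2_eq ha h1 h2
  obtain ⟨S, hS1, hS2⟩ := hb
  have e1 : b σ = b σ' := hS2 _ _ (h1.mono hS1)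
  have e2 : b τ = b τ' := hS2 _ _ (h2.mono hS1)
  have e3 : b (σ * τ) = b (σ' * τ') := hS2 _ _ (h3.mono hS1)
  have key : a σ τ * b (σ * τ) = b σ * σ' • b τ := by
    rw [ea, e1, e2, e3]
    exact hc σ' hσ' τ' hτ'
  show Tn E t (a σ τ) * Tn E t (b (σ * τ)) = Tn E t (b σ) * σ • Tn E t (b τ)
  rw [hW.smul hZ σ σ' hσ.1 hσ'.1 h1 (b τ) (hfix τ), ← Tn.mul, key, Tn.mul]

theorem Stb.tri [IsAlgClosed Ω] (hZ : SitZ A z P) (hW : Stb A z P E L t)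
    (X : (Ω ≃ₐ[k] Ω) → (Ω ≃ₐ[k] Ω) → Ωˣ) (hX : Lc2 (A : Set Ω) X)
    (h1 : ∀ σ, X 1 σ = 1 ∧ X σ 1 = 1) (htri : Tri (Ge k ({z} ∪ Set.range P)) X) :
    Tri (Ge k L) (fun σ τ => Tn E t (X σ τ)) := by
  have hNA : ∀ σ ∈ Ge k ({z} ∪ Set.range P), ∀ x ∈ A, σ x ∈ A := by
    intro σ hσ x hx
    refine (hZ.stab σ ?_ x).2 hx
    intro y hy
    exact hσ.1 y (Or.inl hy)
  have hle : Fx k ((A : Set Ω) ∪ Set.range P) ≤ Ge k ({z} ∪ Set.range P) ⊓ Fx k (A : Set Ω) := by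
    intro s hs
    refine ⟨⟨?_, ?_⟩, ?_⟩
    · rintro x (hx | hx)
      · rw [Set.mem_singleton_iff] at hx
        rw [hx]
        exact hs z (Or.inl hZ.mem)
      · exact hs x (Or.inr hx)
    · intro x hx
      exact hs x (Or.inl (hZ.alg x hx))
    · intro x hx
      exact hs x (Or.inl hx)
  obtain ⟨b, hb, hbfix, hcob⟩ := injA A (Ge k ({z} ∪ Set.range P)) hNA hZ.orb hZ.clo X hX h1 htri
  have h2 := hW.cob hZ X hX b hb (fun σ s hs => hbfix σ s (hle hs)) hcob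
  exact ⟨fun σ => Tn E t (b σ), (Lc1.tn hb).mono (Set.subset_univ _), h2⟩

theorem Stb.inv [IsAlgClosed Ω] (hZ : SitZ A z P) (hW : Stb A z P E L t)
    (a : (Ω ≃ₐ[k] Ω) → (Ω ≃ₐ[k] Ω) → Ωˣ) (ha : Lc2 (A : Set Ω) a)
    (hfix : ∀ σ τ, ∀ s ∈ Fx k ((A : Set Ω) ∪ Set.range P), s • a σ τ = a σ τ)
    (h1 : ∀ σ, a 1 σ = 1 ∧ a σ 1 = 1)
    (hinv : ∀ g ∈ Fx k ({z} ∪ Set.range P), Tri (Ge k ({z} ∪ Set.range P))
      (fun σ τ => g • a (g⁻¹ * σ * g) (g⁻¹ * τ * g) * (a σ τ)⁻¹))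
    (g : Ω ≃ₐ[k] Ω) (hg : g ∈ Fx k L) :
    Tri (Ge k L) (fun σ τ => g • Tn E t (a (g⁻¹ * σ * g) (g⁻¹ * τ * g)) * (Tn E t (a σ τ))⁻¹) := by
  have hFz : ∀ σ ∈ Fx k L, σ ∈ Fx k {z} := by
    intro σ hσ x hx
    rw [Set.mem_singleton_iff.1 hx]
    exact hσ z hW.mem
  have hst : ∀ σ ∈ Fx k {z}, ∀ x ∈ (A : Set Ω), σ x ∈ (A : Set Ω) :=
    fun σ hσ x hx => (hZ.stab σ hσ x).2 hx
  obtain ⟨g', hg', hgg⟩ := hZ.lift g (hFz g hg)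
  have hg'z : g' ∈ Fx k {z} := Fx_mono Set.subset_union_left hg'
  obtain ⟨X, hX⟩ : ∃ X : (Ω ≃ₐ[k] Ω) → (Ω ≃ₐ[k] Ω) → Ωˣ, X = fun σ τ =>
      g' • a (g'⁻¹ * σ * g') (g'⁻¹ * τ * g') * (a σ τ)⁻¹ := ⟨_, rfl⟩
  have hXlc : Lc2 (A : Set Ω) X := by
    rw [hX]
    exact ((ha.conj g' (hst g' hg'z)).smul g').mul ha.inv
  have hX1 : ∀ σ, X 1 σ = 1 ∧ X σ 1 = 1 := by
    intro σ
    rw [hX]
    have e : g'⁻¹ * 1 * g' = 1 := by group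
    constructor
    · show g' • a (g'⁻¹ * 1 * g') (g'⁻¹ * σ * g') * (a 1 σ)⁻¹ = 1
      rw [e, (h1 _).1, (h1 _).1, smul_one, inv_one, mul_one]
    · show g' • a (g'⁻¹ * σ * g') (g'⁻¹ * 1 * g') * (a σ 1)⁻¹ = 1
      rw [e, (h1 _).2, (h1 _).2, smul_one, inv_one, mul_one]
  have hXtri : Tri (Ge k ({z} ∪ Set.range P)) X := by
    rw [hX]
    exact hinv g' hg'
  refine (hW.tri hZ X hXlc hX1 hXtri).congr ?_
  intro σ hσ τ hτ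
  have hinvag : Ag (A : Set Ω) g⁻¹ g'⁻¹ :=
    hgg.inv (hst g⁻¹ ((Fx k {z}).inv_mem (hFz g hg)))
  have hconj : ∀ σ ∈ Ge k L, Ag (A : Set Ω) (g⁻¹ * σ * g) (g'⁻¹ * σ * g') := by
    intro σ hσ
    refine (hinvag.mul (Ag.refl _ σ) (hst σ (hFz σ hσ.1))).mul hgg (hst g (hFz g hg))
  have ef : a (g⁻¹ * σ * g) (g⁻¹ * τ * g) = a (g'⁻¹ * σ * g') (g'⁻¹ * τ * g') :=
    lc2_eq ha (hconj σ hσ) (hconj τ hτ)
  rw [ef, hW.smul hZ g g' hg hg' hgg _ (hfix _ _), hX]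
  show Tn E t (g' • a (g'⁻¹ * σ * g') (g'⁻¹ * τ * g') * (a σ τ)⁻¹) = _
  rw [Tn.mul, Tn.inv]

theorem Lo1.piece {D : Subgroup (Ω ≃ₐ[k] Ω)} {T : Set Ω} {I M : Type*} [DecidableEq I]
    (κ : (Ω ≃ₐ[k] Ω) → I) (F : Finset I) (hF : ∀ σ ∈ D, κ σ ∈ F) (hκ : Lo1 D T κ)
    (G : I → (Ω ≃ₐ[k] Ω) → M) (hG : ∀ c ∈ F, Lo1 D T (G c)) : Lo1 D T (fun σ => G (κ σ) σ) := by
  classical
  obtain ⟨S, hS, hS'⟩ := hκ
  choose! U hU hU' using hG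
  refine ⟨S ∪ F.biUnion U, ?_, ?_⟩
  · rw [Finset.coe_union]
    refine Set.union_subset hS ?_
    intro x hx
    rw [Finset.mem_coe, Finset.mem_biUnion] at hx
    obtain ⟨c, hc, hx⟩ := hx
    exact hU c hc hx
  · intro σ hσ τ hτ h
    rw [Finset.coe_union] at h
    have e := hS' σ hσ τ hτ (h.mono Set.subset_union_left)
    show G (κ σ) σ = G (κ τ) τ
    rw [← e]
    refine hU' (κ σ) (hF σ hσ) σ hσ τ hτ (h.mono ?_)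
    intro x hx
    exact Or.inr (Finset.mem_coe.2 (Finset.mem_biUnion.2 ⟨κ σ, hF σ hσ, hx⟩))

theorem Lo1.prod {D : Subgroup (Ω ≃ₐ[k] Ω)} {T : Set Ω} {I : Type*} (E : Multiset I)
    (G : I → (Ω ≃ₐ[k] Ω) → Ωˣ) (hG : ∀ c ∈ E, Lo1 D T (G c)) :
    Lo1 D T (fun σ => (E.map (fun c => G c σ)).prod) := by
  classical
  choose! U hU hU' using hG
  refine ⟨E.toFinset.biUnion U, ?_, ?_⟩
  · intro x hx
    rw [Finset.mem_coe, Finset.mem_biUnion] at hx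
    obtain ⟨c, hc, hx⟩ := hx
    exact hU c (Multiset.mem_toFinset.1 hc) hx
  · intro σ hσ τ hτ h
    refine congrArg Multiset.prod (Multiset.map_congr rfl fun c hc => ?_)
    refine hU' c hc σ hσ τ hτ (h.mono ?_)
    intro x hx
    exact Finset.mem_coe.2 (Finset.mem_biUnion.2 ⟨c, Multiset.mem_toFinset.2 hc, hx⟩)

theorem lc1_tr {b : (Ω ≃ₐ[k] Ω) → Ωˣ} (hb : Lc1 Set.univ b) (g h : Ω ≃ₐ[k] Ω) :
    Lc1 Set.univ (fun σ => b (g * σ * h)) := by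
  classical
  obtain ⟨S, -, h2⟩ := hb
  refine ⟨S.image h, Set.subset_univ _, fun σ σ' hag => h2 _ _ fun x hx => ?_⟩
  have := hag (h x) (by rw [Finset.coe_image]; exact ⟨x, hx, rfl⟩)
  show g (σ (h x)) = g (σ' (h x))
  rw [this]

theorem lc2_l {a : (Ω ≃ₐ[k] Ω) → (Ω ≃ₐ[k] Ω) → Ωˣ} {T : Set Ω} (ha : Lc2 T a)
    (c : Ω ≃ₐ[k] Ω) : Lc1 Set.univ (fun σ => a σ c) := by
  obtain ⟨S, -, h2⟩ := ha
  exact ⟨S, Set.subset_univ _, fun σ σ' h => h2 σ σ' c c h (Ag.refl _ _)⟩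

theorem lc2_r {a : (Ω ≃ₐ[k] Ω) → (Ω ≃ₐ[k] Ω) → Ωˣ} {T : Set Ω} (ha : Lc2 T a)
    (c : Ω ≃ₐ[k] Ω) : Lc1 Set.univ (fun σ => a c σ) := by
  obtain ⟨S, -, h2⟩ := ha
  exact ⟨S, Set.subset_univ _, fun σ σ' h => h2 c c σ σ' (Ag.refl _ _) h⟩

/-- the class at one point is trivial on the stabilizer of the point -/
theorem Stb.loc (hZ : SitZ A z P) (hW : Stb A z P E L t)
    (a : (Ω ≃ₐ[k] Ω) → (Ω ≃ₐ[k] Ω) → Ωˣ) (ha : Lc2 (A : Set Ω) a)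
    (hunr : ∀ V : ValuationSubring Ω, (∀ x : k, algebraMap k Ω x ∈ V) → V ≠ ⊤ →
      Tri (Ge k ({z} ∪ Set.range P) ⊓ St k V) a)
    (V : ValuationSubring Ω) (hV : ∀ x : k, algebraMap k Ω x ∈ V) (hV' : V ≠ ⊤)
    {Q : Fin 2 → Ω} (hQ : Q ∈ E) :
    ∃ b : (Ω ≃ₐ[k] Ω) → Ωˣ, Lc1 Set.univ b ∧ ∀ s ∈ Ge k L ⊓ St k V, ∀ u ∈ Ge k L ⊓ St k V,
      (∀ i, s (Q i) = Q i) → (∀ i, u (Q i) = Q i) →
        t Q • a s u * b (s * u) = b s * s • b u := by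
  obtain ⟨t', ht'⟩ : ∃ t', t' = t Q := ⟨_, rfl⟩
  obtain ⟨htA, htP⟩ := hW.tr Q hQ
  rw [← ht'] at htA htP ⊢
  have hVt : ∀ x : k, algebraMap k Ω x ∈ V.comap (t' : Ω →+* Ω) := by
    intro x
    rw [ValuationSubring.mem_comap]
    have : (t' : Ω →+* Ω) (algebraMap k Ω x) = algebraMap k Ω x := t'.commutes x
    rw [this]; exact hV x
  have hVt' : V.comap (t' : Ω →+* Ω) ≠ ⊤ := by
    intro htop
    apply hV'
    rw [eq_top_iff]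
    intro x _
    have h1 : t'⁻¹ x ∈ V.comap (t' : Ω →+* Ω) := by rw [htop]; trivial
    rw [ValuationSubring.mem_comap] at h1
    have : (t' : Ω →+* Ω) (t'⁻¹ x) = x := t'.apply_symm_apply x
    rwa [this] at h1
  obtain ⟨b', hb', hcob'⟩ := hunr _ hVt hVt'
  have htA' : ∀ x ∈ (A : Set Ω), t'⁻¹ x = x := by
    intro x hx
    have h2 := t'.symm_apply_apply x
    rw [htA x hx] at h2
    exact h2
  have htt : ∀ x, t' (t'⁻¹ x) = x := fun x => t'.apply_symm_apply x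
  have htt' : ∀ x, t'⁻¹ (t' x) = x := fun x => t'.symm_apply_apply x
  have hgA : ∀ g ∈ Ge k L, ∀ x ∈ (A : Set Ω), g x ∈ (A : Set Ω) := fun g hg =>
    hW.stabA hZ hg.1
  have hconj : ∀ g ∈ Ge k L ⊓ St k V, (∀ i, g (Q i) = Q i) → t'⁻¹ * g * t' ∈
      Ge k ({z} ∪ Set.range P) ⊓ St k (V.comap (t' : Ω →+* Ω)) ∧
      Ag (A : Set Ω) g (t'⁻¹ * g * t') := by
    intro g hg hgQ
    refine ⟨⟨⟨?_, ?_⟩, ?_⟩, ?_⟩
    · rintro x (hx | ⟨i, rfl⟩)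
      · rw [Set.mem_singleton_iff] at hx
        rw [hx, AlgEquiv.mul_apply, AlgEquiv.mul_apply, htA z hZ.mem]
        rw [hg.1.1 z hW.mem, htA' z hZ.mem]
      · rw [AlgEquiv.mul_apply, AlgEquiv.mul_apply, htP, hgQ i, ← htP i, htt']
    · intro x hx
      have hxA : x ∈ (A : Set Ω) := hZ.alg x hx
      rw [AlgEquiv.mul_apply, AlgEquiv.mul_apply, htA x hxA, hg.1.2 x hx, htA' x hxA]
    · intro x
      rw [ValuationSubring.mem_comap, ValuationSubring.mem_comap]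
      show t' ((t'⁻¹ * g * t') x) ∈ V ↔ t' x ∈ V
      rw [AlgEquiv.mul_apply, AlgEquiv.mul_apply, htt]
      exact hg.2 (t' x)
    · intro x hx
      rw [AlgEquiv.mul_apply, AlgEquiv.mul_apply, htA x hx, htA' _ (hgA g hg.1 x hx)]
  refine ⟨fun σ => t' • b' (t'⁻¹ * σ * t'), (lc1_tr hb' t'⁻¹ t').smul t', ?_⟩
  intro σ hσ τ hτ hσQ hτQ
  obtain ⟨h3, h4⟩ := hconj σ hσ hσQ
  obtain ⟨h5, h6⟩ := hconj τ hτ hτQ
  have h7 := hcob' _ h3 _ h5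
  rw [← lc2_eq ha h4 h6] at h7
  have h8 : t'⁻¹ * σ * t' * (t'⁻¹ * τ * t') = t'⁻¹ * (σ * τ) * t' := by group
  rw [h8] at h7
  show t' • a σ τ * t' • b' (t'⁻¹ * (σ * τ) * t') =
    t' • b' (t'⁻¹ * σ * t') * σ • t' • b' (t'⁻¹ * τ * t')
  rw [← smul_mul', h7, smul_mul', ← mul_smul, ← mul_smul]
  congr 2
  group

theorem Stb.unr (hZ : SitZ A z P) (hW : Stb A z P E L t)
    (a : (Ω ≃ₐ[k] Ω) → (Ω ≃ₐ[k] Ω) → Ωˣ) (ha : Lc2 (A : Set Ω) a)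
    (hfix : ∀ σ τ, ∀ s ∈ Fx k ((A : Set Ω) ∪ Set.range P), s • a σ τ = a σ τ)
    (hc : Coc (Ge k ({z} ∪ Set.range P)) a)
    (hunr : ∀ V : ValuationSubring Ω, (∀ x : k, algebraMap k Ω x ∈ V) → V ≠ ⊤ →
      Tri (Ge k ({z} ∪ Set.range P) ⊓ St k V) a)
    (V : ValuationSubring Ω) (hV : ∀ x : k, algebraMap k Ω x ∈ V) (hV' : V ≠ ⊤) :
    Tri (Ge k L ⊓ St k V) (fun σ τ => Tn E t (a σ τ)) := by
  classical
  obtain ⟨D, hD⟩ : ∃ D, D = Ge k L ⊓ St k V := ⟨_, rfl⟩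
  rw [← hD]
  have hDL : ∀ g ∈ D, g ∈ Ge k L := fun g hg => by rw [hD] at hg; exact hg.1
  have hloc : ∀ Q : Fin 2 → Ω, ∃ b : (Ω ≃ₐ[k] Ω) → Ωˣ, Lc1 Set.univ b ∧ (Q ∈ E →
      ∀ s ∈ D, ∀ u ∈ D, (∀ i, s (Q i) = Q i) → (∀ i, u (Q i) = Q i) →
        t Q • a s u * b (s * u) = b s * s • b u) := by
    intro Q
    by_cases hQ : Q ∈ E
    · obtain ⟨b, h1, h2⟩ := hW.loc hZ a ha hunr V hV hV' hQ
      rw [← hD] at h2
      exact ⟨b, h1, fun _ => h2⟩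
    · exact ⟨fun _ => 1, Lc1.const _ _, fun h => absurd h hQ⟩
  choose b hb hloc' using hloc
  have hsm : ∀ (g : D) (R : Fin 2 → Ω), g • R = fun i => (g : Ω ≃ₐ[k] Ω) (R i) := fun g R => rfl
  have hmemE : ∀ (g : D) (R : Fin 2 → Ω), R ∈ E → g • R ∈ E := fun g R hR =>
    hW.mem_map (hDL g g.2).1 hR
  have hmemE' : ∀ (g : D) (R : Fin 2 → Ω), g • R ∈ E → R ∈ E := fun g R hR => by
    have := hmemE g⁻¹ _ hR
    rwa [inv_smul_smul] at this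
  -- representatives of the orbits
  obtain ⟨rep, hrep1, hrep2⟩ : ∃ rep : (Fin 2 → Ω) → (Fin 2 → Ω),
      (∀ R, ∃ g : D, g • rep R = R) ∧ ∀ (g : D) R, rep (g • R) = rep R := by
    refine ⟨fun R => (Quotient.mk (MulAction.orbitRel D (Fin 2 → Ω)) R).out, ?_, ?_⟩
    · intro R
      have h1 : (MulAction.orbitRel D (Fin 2 → Ω)) R
          (Quotient.mk (MulAction.orbitRel D (Fin 2 → Ω)) R).out :=
        (MulAction.orbitRel D (Fin 2 → Ω)).iseqv.symm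
          (Quotient.mk_out (s := MulAction.orbitRel D (Fin 2 → Ω)) R)
      rw [MulAction.orbitRel_apply] at h1
      exact h1
    · intro g R
      have h1 : Quotient.mk (MulAction.orbitRel D (Fin 2 → Ω)) (g • R) =
          Quotient.mk (MulAction.orbitRel D (Fin 2 → Ω)) R := by
        apply Quotient.sound
        exact ⟨g, rfl⟩
      show (Quotient.mk (MulAction.orbitRel D (Fin 2 → Ω)) (g • R)).out = _
      rw [h1]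
  choose r hr using hrep1
  let x : D → D → (Fin 2 → Ω) → Ωˣ := fun σ τ R => if R ∈ E then t R • a σ τ else 1
  have hxE : ∀ σ τ R, R ∈ E → x σ τ R = t R • a σ τ := fun σ τ R hR => if_pos hR
  have hxN : ∀ σ τ R, R ∉ E → x σ τ R = 1 := fun σ τ R hR => if_neg hR
  have hx : ∀ σ τ ρ R, x σ τ R * x (σ * τ) ρ R = σ • x τ ρ (σ⁻¹ • R) * x σ (τ * ρ) R := by
    intro σ τ ρ R
    by_cases hR : R ∈ E
    · have hR' : σ⁻¹ • R ∈ E := hmemE _ _ hR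
      obtain ⟨σ', hσ', hag, hid⟩ := hW.coc' hZ a ha hc σ τ ρ (hDL _ σ.2) (hDL _ τ.2) (hDL _ ρ.2)
      have h1 := hW.smul_pt hZ σ σ' (hDL _ σ.2).1 hσ'.1 hag (a τ ρ) (hfix _ _) hR'
      have h2 : (fun i => (σ : Ω ≃ₐ[k] Ω) ((σ⁻¹ • R) i)) = R := smul_inv_smul σ R
      rw [h2] at h1
      have hcoe1 : ((σ * τ : D) : Ω ≃ₐ[k] Ω) = (σ : Ω ≃ₐ[k] Ω) * τ := rfl
      have hcoe2 : ((τ * ρ : D) : Ω ≃ₐ[k] Ω) = (τ : Ω ≃ₐ[k] Ω) * ρ := rfl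
      rw [hxE _ _ _ hR, hxE _ _ _ hR, hxE _ _ _ hR', hxE _ _ _ hR, hcoe1, hcoe2, ← smul_mul', hid,
        smul_mul', ← h1]
      rfl
    · have hR' : σ⁻¹ • R ∉ E := fun h => hR (hmemE' _ _ h)
      rw [hxN _ _ _ hR, hxN _ _ _ hR, hxN _ _ _ hR', hxN _ _ _ hR, smul_one]
  obtain ⟨y, hy⟩ : ∃ y : D → (Fin 2 → Ω) → Ωˣ, y = fun σ R => shY x (fun σ : D => b (rep R) σ) r σ R :=
    ⟨_, rfl⟩
  have hkey : ∀ (σ τ : D) (R : Fin 2 → Ω), R ∈ E →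
      t R • a σ τ * y (σ * τ) R = y σ R * σ • y τ (σ⁻¹ • R) := by
    intro σ τ R hR
    have hrepE : rep R ∈ E := by
      apply hmemE' (r R)
      rw [hr R]
      exact hR
    have h1 := shap (D := D) (M := Ωˣ) (X := Fin 2 → Ω) (fun _ => ⊥)
      (by
        intro σ R m hm
        rw [Subgroup.mem_bot] at hm ⊢
        rw [hm, smul_one]) x hx (rep R) (fun σ : D => b (rep R) σ) (by
        intro s u hs hu
        have hs' : ∀ i, (s : Ω ≃ₐ[k] Ω) (rep R i) = rep R i := fun i => congrFun hs i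
        have hu' : ∀ i, (u : Ω ≃ₐ[k] Ω) (rep R i) = rep R i := fun i => congrFun hu i
        rw [Subgroup.mem_bot, hxE _ _ _ hrepE, mul_inv_eq_one]
        exact hloc' (rep R) hrepE s s.2 u u.2 hs' hu') r (by
        rintro R' ⟨g, hg⟩
        have h2 : rep R' = rep R := by
          rw [← hg]
          show rep (g • rep R) = rep R
          rw [hrep2]
          conv_rhs => rw [← hr R, hrep2]
        rw [← h2]
        exact hr R') σ τ R ⟨r R, hr R⟩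
    rw [Subgroup.mem_bot, mul_inv_eq_one, hxE _ _ _ hR] at h1
    rw [hy]
    beta_reduce
    rw [hrep2]
    exact h1
  -- the cochain on the whole group
  let Y : (Fin 2 → Ω) → (Ω ≃ₐ[k] Ω) → Ωˣ := fun R σ =>
    t R • a σ (r fun i => σ⁻¹ (R i)) *
      (t R • a (r R) (((r R : D) : Ω ≃ₐ[k] Ω)⁻¹ * σ * (r fun i => σ⁻¹ (R i))))⁻¹ *
      ((r R : D) : Ω ≃ₐ[k] Ω) •
        b (rep R) (((r R : D) : Ω ≃ₐ[k] Ω)⁻¹ * σ * (r fun i => σ⁻¹ (R i)))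
  have hY : ∀ (σ : D) (R : Fin 2 → Ω), R ∈ E → y σ R = Y R σ := by
    intro σ R hR
    rw [hy]
    show shY x (fun σ : D => b (rep R) σ) r σ R = _
    unfold shY
    rw [hxE _ _ _ hR, hxE _ _ _ hR]
    rfl
  have hYlc : ∀ R ∈ E, Lo1 D Set.univ (Y R) := by
    intro R hR
    refine Lo1.piece (D := D) (T := Set.univ) (fun σ : Ω ≃ₐ[k] Ω => fun i => σ⁻¹ (R i))
      E.toFinset ?_ ?_ (fun R' σ => t R • a σ (r R') *
      (t R • a (r R) (((r R : D) : Ω ≃ₐ[k] Ω)⁻¹ * σ * (r R')))⁻¹ *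
      ((r R : D) : Ω ≃ₐ[k] Ω) • b (rep R) (((r R : D) : Ω ≃ₐ[k] Ω)⁻¹ * σ * (r R'))) ?_
    · intro σ hσ
      rw [Multiset.mem_toFinset]
      exact hmemE (⟨σ, hσ⟩⁻¹ : D) R hR
    · refine ⟨E.toFinset.biUnion fun Q => Finset.univ.image Q, Set.subset_univ _, ?_⟩
      intro σ hσ τ hτ h
      funext i
      have h1 : (fun i => σ⁻¹ (R i)) ∈ E := hmemE (⟨σ, hσ⟩⁻¹ : D) R hR
      have h2 := h (σ⁻¹ (R i)) (Finset.mem_coe.2 (Finset.mem_biUnion.2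
        ⟨_, Multiset.mem_toFinset.2 h1, Finset.mem_image.2 ⟨i, Finset.mem_univ _, rfl⟩⟩))
      have h3 : σ (σ⁻¹ (R i)) = R i := σ.apply_symm_apply _
      rw [h3] at h2
      show σ⁻¹ (R i) = τ⁻¹ (R i)
      conv_rhs => rw [h2]
      exact (τ.symm_apply_apply _).symm
    · intro R' _
      refine (Lc1.lo ?_ D)
      exact (((lc2_l ha _).smul (t R)).mul ((lc1_tr (lc2_r ha (r R)) _ _).smul (t R)).inv).mul
        ((lc1_tr (hb (rep R)) _ _).smul _)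
  obtain ⟨B, hB, hB', -⟩ := (Lo1.prod E Y hYlc).extend
  have hBD : ∀ σ : D, B σ = (E.map fun R => y σ R).prod := by
    intro σ
    rw [hB' σ σ.2]
    exact congrArg Multiset.prod (Multiset.map_congr rfl fun R hR => (hY σ R hR).symm)
  refine ⟨B, hB, ?_⟩
  intro σ₀ hσ₀ τ₀ hτ₀
  obtain ⟨σ, rfl⟩ : ∃ σ : D, (σ : Ω ≃ₐ[k] Ω) = σ₀ := ⟨⟨σ₀, hσ₀⟩, rfl⟩
  obtain ⟨τ, rfl⟩ : ∃ τ : D, (τ : Ω ≃ₐ[k] Ω) = τ₀ := ⟨⟨τ₀, hτ₀⟩, rfl⟩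
  have h1 : B ((σ : Ω ≃ₐ[k] Ω) * τ) = (E.map fun R => y (σ * τ) R).prod := hBD (σ * τ)
  have h2 : (σ : Ω ≃ₐ[k] Ω) • B τ = (E.map fun R => σ • y τ (σ⁻¹ • R)).prod := by
    have h3 : E.map (fun R => σ⁻¹ • R) = E := hW.perm _ (hDL _ (σ⁻¹ : D).2).1
    rw [hBD τ]
    conv_lhs => rw [← h3, Multiset.map_map]
    rw [← MulDistribMulAction.toMonoidHom_apply, map_multiset_prod, Multiset.map_map]
    rfl
  show Tn E t (a σ τ) * B ((σ : Ω ≃ₐ[k] Ω) * τ) = B σ * (σ : Ω ≃ₐ[k] Ω) • B τ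
  rw [h1, h2, hBD σ, ← Multiset.prod_map_mul]
  unfold Tn
  rw [← Multiset.prod_map_mul]
  exact congrArg Multiset.prod (Multiset.map_congr rfl fun R hR => hkey σ τ R hR)

theorem nm_sysG_aux [IsAlgClosed Ω] (hZ : SitZ A z P) (hW : Stb A z P E L t) (ℓ : ℕ)
    (a : ℕ → (Ω ≃ₐ[k] Ω) → (Ω ≃ₐ[k] Ω) → Ωˣ) (ha : SysA A z P ℓ a) :
    SysU L ℓ (fun n σ τ => Tn E t (a n σ τ)) := by
  constructor
  · intro n
    exact Lc2.tn ((ha.lc n).mono (Set.subset_univ _))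
  · intro n
    exact hW.coc hZ (a n) (ha.lc n) (ha.fix n) (ha.sys.coc n)
  · exact hW.tri hZ (a 0) (ha.lc 0) (ha.one 0) ha.sys.zero
  · intro n
    have h1 := hW.tri hZ (fun σ τ => a (n + 1) σ τ ^ ℓ * (a n σ τ)⁻¹)
      (((ha.lc (n + 1)).pow ℓ).mul (ha.lc n).inv)
      (fun σ => by
        rw [(ha.one (n + 1) σ).1, (ha.one (n + 1) σ).2, (ha.one n σ).1, (ha.one n σ).2]
        simp)
      (ha.sys.step n)
    refine h1.congr ?_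
    intro σ _ τ _
    show Tn E t (a (n + 1) σ τ ^ ℓ * (a n σ τ)⁻¹) = Tn E t (a (n + 1) σ τ) ^ ℓ * (Tn E t (a n σ τ))⁻¹
    rw [Tn.mul, Tn.inv, Tn.pow]
  · intro n g hg
    exact hW.inv hZ (a n) (ha.lc n) (ha.fix n) (ha.one n) (ha.sys.inv n) g hg
  · intro n V hV hV'
    exact hW.unr hZ (a n) (ha.lc n) (ha.fix n) (ha.sys.coc n) (ha.sys.unr n) V hV hV'

end

/-- the norm from a zero cycle defined over `k(L)` -/
theorem nm_sysG {k Ω : Type u} [Field k] [Field Ω] [Algebra k Ω] [IsAlgClosed Ω]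
    {A : IntermediateField k Ω} {z : Ω} {P : Fin 2 → Ω} (hZ : SitZ A z P) {L : Set Ω} (hL : z ∈ L)
    (Z : Multiset (Fin 2 → Ω)) (hZL : ∀ σ ∈ Fx k L, Z.map (fun Q i => σ (Q i)) = Z)
    (t : (Fin 2 → Ω) → Ω ≃ₐ[k] Ω)
    (ht : ∀ Q ∈ Z, t Q ∈ Fx k (A : Set Ω) ∧ ∀ i, t Q (P i) = Q i) (ℓ : ℕ)
    (a : ℕ → (Ω ≃ₐ[k] Ω) → (Ω ≃ₐ[k] Ω) → Ωˣ) (ha : SysA A z P ℓ a) :
    SysU L ℓ (fun n σ τ => Tn Z t (a n σ τ)) :=
  nm_sysG_aux hZ ⟨hL, ht, hZL⟩ ℓ a ha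

end Pool.Agent.RDP
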