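import Pool.Agent.RDM.Dpu
import Pool.Agent.RDM.B4

/-!
# Double planes branched along a quartic are unirational
-/

set_option autoImplicit false


namespace Pool.Agent.RDG

open Polynomial

universe u v w

/-- the expansion of `F (p 0 + T, p 1 + m T)`: the outer variable is `T`, the inner one is `m` -/
noncomputable def ex {R : Type u} [CommRing R] (F : MvPolynomial (Fin 2) R) (p : Fin 2 → R) :
    R[X][X] :=
  MvPolynomial.eval₂ (C.comp C : R →+* R[X][X]) ![C (C (p 0)) + X, C (C (p 1)) + C X * X] F

/-- the cubic term -/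
noncomputable def c3 {R : Type u} [CommRing R] (F : MvPolynomial (Fin 2) R) (p : Fin 2 → R) :
    R[X] :=
  8 * C (MvPolynomial.eval p F) ^ 2 * (ex F p).coeff 3 - (ex F p).coeff 1 *
    (4 * C (MvPolynomial.eval p F) * (ex F p).coeff 2 - (ex F p).coeff 1 ^ 2)

/-- the quartic term -/
noncomputable def c4 {R : Type u} [CommRing R] (F : MvPolynomial (Fin 2) R) (p : Fin 2 → R) :
    R[X] :=
  64 * C (MvPolynomial.eval p F) ^ 3 * (ex F p).coeff 4 -
    (4 * C (MvPolynomial.eval p F) * (ex F p).coeff 2 - (ex F p).coeff 1 ^ 2) ^ 2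

/-- good points -/
structure Good {E : Type u} [Field E] (F : MvPolynomial (Fin 2) E) (p : Fin 2 → E) : Prop where
  ne : MvPolynomial.eval p F ≠ 0
  lead : (c3 F p).coeff 3 ≠ 0
  cop : IsCoprime (c3 F p) (c4 F p)

end Pool.Agent.RDG

section


namespace Pool.Agent.RDG

open Polynomial

universe u v w

section

theorem ex_map {R S : Type u} [CommRing R] [CommRing S] (φ : R →+* S)
    (F : MvPolynomial (Fin 2) R) (p : Fin 2 → R) :
    ex (MvPolynomial.map φ F) (fun i => φ (p i)) = (ex F p).map (mapRingHom φ) ∧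
    c3 (MvPolynomial.map φ F) (fun i => φ (p i)) = (c3 F p).map φ ∧
    c4 (MvPolynomial.map φ F) (fun i => φ (p i)) = (c4 F p).map φ := by
  have h1 : ex (MvPolynomial.map φ F) (fun i => φ (p i)) = (ex F p).map (mapRingHom φ) := by
    unfold ex
    rw [MvPolynomial.eval₂_map, ← coe_mapRingHom, MvPolynomial.eval₂_comp_left]
    congr 1
    · ext x
      simp
    · funext i
      fin_cases i
      · simp
      · simp
  have h2 : MvPolynomial.eval (fun i => φ (p i)) (MvPolynomial.map φ F) =
      φ (MvPolynomial.eval p F) := by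
    rw [MvPolynomial.eval_map, ← MvPolynomial.eval₂_id, MvPolynomial.eval₂_comp_left]
    rfl
  have h3 : ∀ n, (ex (MvPolynomial.map φ F) (fun i => φ (p i))).coeff n =
      ((ex F p).coeff n).map φ := by
    intro n
    rw [h1, coeff_map, coe_mapRingHom]
  refine ⟨h1, ?_, ?_⟩
  · unfold c3
    simp only [h2, h3, Polynomial.map_sub, Polynomial.map_mul, Polynomial.map_pow, map_C,
      Polynomial.map_ofNat]
  · unfold c4
    simp only [h2, h3, Polynomial.map_sub, Polynomial.map_mul, Polynomial.map_pow, map_C,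
      Polynomial.map_ofNat]

end

end Pool.Agent.RDG

end

section


namespace Pool.Agent.RDG

open Polynomial

universe u v w

section

theorem ex_eval {E B : Type u} [CommRing E] [CommRing B] [Algebra E B] (F : MvPolynomial (Fin 2) E)
    (p : Fin 2 → E) (m T : B) :
    MvPolynomial.aeval ![algebraMap E B (p 0) + T, algebraMap E B (p 1) + m * T] F =
      Polynomial.eval₂ ((aeval m : E[X] →ₐ[E] B) : E[X] →+* B) T (ex F p) := by
  have h1 : Polynomial.eval₂ ((aeval m : E[X] →ₐ[E] B) : E[X] →+* B) T (ex F p) =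
      Polynomial.eval₂RingHom ((aeval m : E[X] →ₐ[E] B) : E[X] →+* B) T (ex F p) := rfl
  rw [h1, ex, MvPolynomial.eval₂_comp_left, MvPolynomial.aeval_def]
  have h2 : (Polynomial.eval₂RingHom ((aeval m : E[X] →ₐ[E] B) : E[X] →+* B) T).comp
      (C.comp C : E →+* E[X][X]) = algebraMap E B := by
    refine RingHom.ext fun r => ?_
    rw [RingHom.comp_apply, RingHom.comp_apply, coe_eval₂RingHom, eval₂_C, RingHom.coe_coe,
      aeval_C]
  have h3 : (Polynomial.eval₂RingHom ((aeval m : E[X] →ₐ[E] B) : E[X] →+* B) T) ∘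
      (![C (C (p 0)) + X, C (C (p 1)) + C X * X] : Fin 2 → E[X][X]) =
      ![algebraMap E B (p 0) + T, algebraMap E B (p 1) + m * T] := by
    funext i
    fin_cases i
    · simp
    · simp
  rw [h2, h3]

end

end Pool.Agent.RDG

end

section


namespace Pool.Agent.RDG

open Polynomial

universe u v w

section

theorem ex_deg_add {E : Type u} [CommRing E] (F G : MvPolynomial (Fin 2) E) (p : Fin 2 → E) :
    ex (F + G) p = ex F p + ex G p := MvPolynomial.eval₂_add _ _

theorem ex_deg_mul {E : Type u} [CommRing E] (F G : MvPolynomial (Fin 2) E) (p : Fin 2 → E) :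
    ex (F * G) p = ex F p * ex G p := MvPolynomial.eval₂_mul _ _

theorem ex_deg_C {E : Type u} [CommRing E] (a : E) (p : Fin 2 → E) :
    ex (MvPolynomial.C a) p = C (C a) := MvPolynomial.eval₂_C _ _ _

theorem ex_deg_X {E : Type u} [CommRing E] (n : Fin 2) (p : Fin 2 → E) :
    ex (MvPolynomial.X n) p = (![C (C (p 0)) + X, C (C (p 1)) + C X * X] : Fin 2 → E[X][X]) n :=
  MvPolynomial.eval₂_X _ _ _

theorem ex_deg_X0 {E : Type u} [CommRing E] (p : Fin 2 → E) :
    ex (MvPolynomial.X 0) p = C (C (p 0)) + X := ex_deg_X 0 p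

theorem ex_deg_X1 {E : Type u} [CommRing E] (p : Fin 2 → E) :
    ex (MvPolynomial.X 1) p = C (C (p 1)) + C X * X := ex_deg_X 1 p

theorem ex_deg_tot {E : Type u} [CommRing E] (F : MvPolynomial (Fin 2) E) (p : Fin 2 → E) :
    (ex F p).natDegree ≤ F.totalDegree := by
  unfold ex
  rw [MvPolynomial.eval₂_eq']
  apply natDegree_sum_le_of_forall_le
  intro d hd
  have h1 : d 0 + d 1 ≤ F.totalDegree := by
    have h2 := MvPolynomial.le_totalDegree hd
    rw [Finsupp.sum_fintype _ _ (fun _ => rfl), Fin.sum_univ_two] at h2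
    exact h2
  refine le_trans ?_ h1
  rw [Fin.prod_univ_two]
  refine le_trans natDegree_mul_le ?_
  have h3 : ((C.comp C : E →+* E[X][X]) (MvPolynomial.coeff d F)).natDegree = 0 := natDegree_C _
  rw [h3, zero_add]
  refine le_trans natDegree_mul_le ?_
  have h4 : ((C (C (p 0)) + X : E[X][X])).natDegree ≤ 1 := by
    refine natDegree_add_le_of_degree_le ?_ natDegree_X_le
    rw [natDegree_C]
    exact Nat.zero_le _
  have h5 : ((C (C (p 1)) + C X * X : E[X][X])).natDegree ≤ 1 := by
    refine natDegree_add_le_of_degree_le ?_ ?_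
    · rw [natDegree_C]
      exact Nat.zero_le _
    · exact natDegree_C_mul_le _ _ |>.trans natDegree_X_le
  have h6 := natDegree_pow_le_of_le (d 0) h4
  have h7 := natDegree_pow_le_of_le (d 1) h5
  rw [mul_one] at h6 h7
  exact add_le_add h6 h7

theorem ex_deg_prod {E : Type u} [CommRing E] (f g : E[X][X]) (hf : ∀ i, (f.coeff i).natDegree ≤ i)
    (hg : ∀ i, (g.coeff i).natDegree ≤ i) : ∀ i, ((f * g).coeff i).natDegree ≤ i := by
  intro i
  rw [coeff_mul]
  apply natDegree_sum_le_of_forall_le
  intro x hx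
  refine natDegree_mul_le.trans ?_
  have h1 := Finset.HasAntidiagonal.mem_antidiagonal.1 hx
  have h2 := hf x.1
  have h3 := hg x.2
  omega

theorem ex_deg_C_le {E : Type u} [CommRing E] (a : E) :
    ∀ i, ((C (C a) : E[X][X]).coeff i).natDegree ≤ i := by
  intro i
  rw [coeff_C]
  split_ifs
  · rw [natDegree_C]
    exact Nat.zero_le _
  · rw [natDegree_zero]
    exact Nat.zero_le _

theorem ex_deg_X_le {E : Type u} [CommRing E] (n : Fin 2) (p : Fin 2 → E) :
    ∀ i, ((ex (MvPolynomial.X n) p).coeff i).natDegree ≤ i := by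
  intro i
  fin_cases n
  · show ((ex (MvPolynomial.X 0) p).coeff i).natDegree ≤ i
    rw [ex_deg_X0, coeff_add]
    refine natDegree_add_le_of_degree_le (ex_deg_C_le _ i) ?_
    rw [coeff_X]
    split_ifs
    · rw [natDegree_one]
      exact Nat.zero_le _
    · rw [natDegree_zero]
      exact Nat.zero_le _
  · show ((ex (MvPolynomial.X 1) p).coeff i).natDegree ≤ i
    rw [ex_deg_X1, coeff_add]
    refine natDegree_add_le_of_degree_le (ex_deg_C_le _ i) ?_
    rw [coeff_C_mul, coeff_X]
    split_ifs with h
    · rw [mul_one, ← h]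
      exact natDegree_X_le
    · rw [mul_zero, natDegree_zero]
      exact Nat.zero_le _

theorem ex_deg_coeff_le {E : Type u} [CommRing E] (F : MvPolynomial (Fin 2) E) (p : Fin 2 → E) :
    ∀ i, ((ex F p).coeff i).natDegree ≤ i := by
  induction F using MvPolynomial.induction_on with
  | C a =>
    rw [ex_deg_C]
    exact ex_deg_C_le a
  | add F G hF hG =>
    intro i
    rw [ex_deg_add, coeff_add]
    exact natDegree_add_le_of_degree_le (hF i) (hG i)
  | mul_X F n hF =>
    rw [ex_deg_mul]
    exact ex_deg_prod _ _ hF (ex_deg_X_le n p)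

theorem ex_deg_coeff_zero {E : Type u} [CommRing E] (F : MvPolynomial (Fin 2) E)
    (p : Fin 2 → E) : (ex F p).coeff 0 = C (MvPolynomial.eval p F) := by
  induction F using MvPolynomial.induction_on with
  | C a => rw [ex_deg_C, coeff_C_zero, MvPolynomial.eval_C]
  | add F G hF hG => rw [ex_deg_add, coeff_add, hF, hG, ← C_add, ← map_add]
  | mul_X F n hF =>
    rw [ex_deg_mul, mul_coeff_zero, hF, map_mul, C_mul, MvPolynomial.eval_X]
    congr 1
    fin_cases n
    · show (ex (MvPolynomial.X 0) p).coeff 0 = C (p 0)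
      rw [ex_deg_X0]
      simp
    · show (ex (MvPolynomial.X 1) p).coeff 0 = C (p 1)
      rw [ex_deg_X1]
      simp

theorem ex_deg_coeff_one {E : Type u} [CommRing E] (F : MvPolynomial (Fin 2) E)
    (p : Fin 2 → E) : (ex F p).coeff 1 = C (MvPolynomial.eval p (MvPolynomial.pderiv 0 F)) +
      C (MvPolynomial.eval p (MvPolynomial.pderiv 1 F)) * X := by
  induction F using MvPolynomial.induction_on with
  | C a =>
    rw [ex_deg_C, coeff_C, if_neg one_ne_zero, MvPolynomial.pderiv_C, MvPolynomial.pderiv_C,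
      map_zero, C_0, zero_mul, add_zero]
  | add F G hF hG =>
    rw [ex_deg_add, coeff_add, hF, hG]
    simp only [map_add]
    ring
  | mul_X F n hF =>
    rw [ex_deg_mul, mul_coeff_one, hF, ex_deg_coeff_zero, ex_deg_coeff_zero, Derivation.leibniz,
      Derivation.leibniz]
    simp only [smul_eq_mul, map_add, map_mul, MvPolynomial.eval_X]
    fin_cases n
    · have h1 : (ex (MvPolynomial.X 0) p).coeff 1 = 1 := by
        rw [ex_deg_X0]
        simp
      have h2 : MvPolynomial.eval p (MvPolynomial.pderiv (0 : Fin 2)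
          (MvPolynomial.X (0 : Fin 2) : MvPolynomial (Fin 2) E)) = 1 := by simp
      have h3 : MvPolynomial.eval p (MvPolynomial.pderiv (1 : Fin 2)
          (MvPolynomial.X (0 : Fin 2) : MvPolynomial (Fin 2) E)) = 0 := by simp
      simp only [Fin.zero_eta, h1, h2, h3]
      simp only [map_zero, map_one]
      ring
    · have h1 : (ex (MvPolynomial.X 1) p).coeff 1 = X := by
        rw [ex_deg_X1]
        simp
      have h2 : MvPolynomial.eval p (MvPolynomial.pderiv (0 : Fin 2)
          (MvPolynomial.X (1 : Fin 2) : MvPolynomial (Fin 2) E)) = 0 := by simp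
      have h3 : MvPolynomial.eval p (MvPolynomial.pderiv (1 : Fin 2)
          (MvPolynomial.X (1 : Fin 2) : MvPolynomial (Fin 2) E)) = 1 := by simp
      simp only [Fin.mk_one, h1, h2, h3]
      simp only [map_zero, map_one]
      ring

theorem ex_deg {E : Type u} [CommRing E] (F : MvPolynomial (Fin 2) E) (p : Fin 2 → E) :
    (ex F p).natDegree ≤ F.totalDegree ∧ (∀ i, ((ex F p).coeff i).natDegree ≤ i) ∧
    (ex F p).coeff 0 = C (MvPolynomial.eval p F) ∧
    (ex F p).coeff 1 = C (MvPolynomial.eval p (MvPolynomial.pderiv 0 F)) +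
      C (MvPolynomial.eval p (MvPolynomial.pderiv 1 F)) * X := by
  exact ⟨ex_deg_tot F p, ex_deg_coeff_le F p, ex_deg_coeff_zero F p, ex_deg_coeff_one F p⟩

end

end Pool.Agent.RDG

end

section


namespace Pool.Agent.RDG

open Polynomial

universe u v w

section

theorem ident {E B : Type u} [Field E] [CommRing B] [Algebra E B] (F : MvPolynomial (Fin 2) E)
    (hF : F.totalDegree ≤ 4) (p : Fin 2 → E) (m T : B) :
    64 * algebraMap E B (MvPolynomial.eval p F) ^ 3 *
      MvPolynomial.aeval ![algebraMap E B (p 0) + T, algebraMap E B (p 1) + m * T] F =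
    (8 * algebraMap E B (MvPolynomial.eval p F) ^ 2 +
      4 * algebraMap E B (MvPolynomial.eval p F) * aeval m ((ex F p).coeff 1) * T +
      (4 * algebraMap E B (MvPolynomial.eval p F) * aeval m ((ex F p).coeff 2) -
        aeval m ((ex F p).coeff 1) ^ 2) * T ^ 2) ^ 2 +
    T ^ 3 * (8 * algebraMap E B (MvPolynomial.eval p F) * aeval m (c3 F p) + aeval m (c4 F p) * T) := by
  obtain ⟨h1, -, h3, -⟩ := ex_deg F p
  have h4 : (ex F p).natDegree < 5 := by omega
  rw [ex_eval, Polynomial.eval₂_eq_sum_range' _ h4]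
  have h5 : ∀ q : E[X], ((aeval m : E[X] →ₐ[E] B) : E[X] →+* B) q = aeval m q := fun _ => rfl
  simp only [Finset.sum_range_succ, Finset.sum_range_zero, h5]
  have h6 : aeval m ((ex F p).coeff 0) = algebraMap E B (MvPolynomial.eval p F) := by
    rw [h3, aeval_C]
  unfold c3 c4
  simp only [map_sub, map_mul, map_pow, map_ofNat, aeval_C, h6]
  ring

end

end Pool.Agent.RDG

end

section


namespace Pool.Agent.RDG

open Polynomial

universe u v w

section

private theorem sing_dvd {R : Type u} [CommRing R] (c u d : R) (hcu : c ∣ u) (h : ℕ → R) (n : ℕ)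
    (hS : ∑ i ∈ Finset.range (n + 1), h i * u ^ i * d ^ (n - i) = 0) : c ∣ h 0 * d ^ n := by
  rw [Finset.sum_range_succ'] at hS
  have h1 : c ∣ ∑ i ∈ Finset.range n, h (i + 1) * u ^ (i + 1) * d ^ (n - (i + 1)) := by
    refine Finset.dvd_sum fun i _ => ?_
    refine Dvd.dvd.mul_right (Dvd.dvd.mul_left ?_ _) _
    exact hcu.trans (dvd_pow_self u (Nat.succ_ne_zero i))
  have h2 : h 0 * u ^ 0 * d ^ (n - 0) =
      -(∑ i ∈ Finset.range n, h (i + 1) * u ^ (i + 1) * d ^ (n - (i + 1))) := by
    linear_combination hS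
  rw [pow_zero, mul_one, Nat.sub_zero] at h2
  rw [h2]
  exact (dvd_neg).2 h1

theorem sing {E B : Type u} [Field E] [Field B] [Algebra E B] (F : MvPolynomial (Fin 2) E)
    (h2 : (2 : E) ≠ 0) (p : Fin 2 → E) (hp : Good F p) (τ T : B) (hτ : Transcendental E τ)
    (hT : aeval τ (c4 F p) * T = -8 * algebraMap E B (MvPolynomial.eval p F) * aeval τ (c3 F p))
    (H : MvPolynomial (Fin 2) E)
    (hH : MvPolynomial.aeval ![algebraMap E B (p 0) + T, algebraMap E B (p 1) + τ * T] H = 0) :
    MvPolynomial.eval p H = 0 ∧ MvPolynomial.eval p (MvPolynomial.pderiv 0 H) = 0 ∧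
      MvPolynomial.eval p (MvPolynomial.pderiv 1 H) = 0 := by
  obtain ⟨-, hdeg, hc0, hc1⟩ := ex_deg H p
  set A : E := MvPolynomial.eval p F with hA
  set n := (ex H p).natDegree with hn
  have hinj : Function.Injective (aeval τ : E[X] →ₐ[E] B) := transcendental_iff_injective.1 hτ
  have hev := ex_eval H p τ T
  rw [hH, eval₂_eq_sum_range] at hev
  have h8 : (8 : E) ≠ 0 := by
    have : (8 : E) = 2 ^ 3 := by norm_num
    rw [this]
    exact pow_ne_zero 3 h2
  have hA0 : A ≠ 0 := hp.ne
  have hc3 : c3 F p ≠ 0 := by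
    intro h
    apply hp.lead
    rw [h, coeff_zero]
  have hd3 : 3 ≤ (c3 F p).natDegree := le_natDegree_of_ne_zero hp.lead
  set u : E[X] := C (-8 * A) * c3 F p with hu
  have hu0 : u ≠ 0 := by
    refine mul_ne_zero ?_ hc3
    rw [Ne, C_eq_zero]
    exact mul_ne_zero (neg_ne_zero.2 h8) hA0
  have hcu : c3 F p ∣ u := Dvd.intro_left _ rfl
  have hφu : (aeval τ : E[X] →ₐ[E] B) u = aeval τ (c4 F p) * T := by
    rw [hT, hu, map_mul, aeval_C, map_mul, map_neg, map_ofNat]
  have hS : ∑ i ∈ Finset.range (n + 1), (ex H p).coeff i * u ^ i * c4 F p ^ (n - i) = 0 := by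
    apply hinj
    rw [map_zero, map_sum]
    have : ∀ i ∈ Finset.range (n + 1),
        (aeval τ : E[X] →ₐ[E] B) ((ex H p).coeff i * u ^ i * c4 F p ^ (n - i)) =
          aeval τ (c4 F p) ^ n * (((aeval τ : E[X] →ₐ[E] B) : E[X] →+* B) ((ex H p).coeff i) * T ^ i) := by
      intro i hi
      have hi' : i ≤ n := Nat.lt_succ_iff.1 (Finset.mem_range.1 hi)
      rw [map_mul, map_mul, map_pow, map_pow, hφu, mul_pow]
      have e : aeval τ (c4 F p) ^ n = aeval τ (c4 F p) ^ i * aeval τ (c4 F p) ^ (n - i) := by
        rw [← pow_add, Nat.add_sub_cancel' hi']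
      rw [e]
      simp only [AlgHom.coe_toRingHom]
      ring
    rw [Finset.sum_congr rfl this, ← Finset.mul_sum, ← hev, mul_zero]
  have hcop : ∀ k : ℕ, IsCoprime (c3 F p) (c4 F p ^ k) := fun k => hp.cop.pow_right
  have h0 : (ex H p).coeff 0 = 0 := by
    have h1 : c3 F p ∣ (ex H p).coeff 0 :=
      (hcop n).dvd_of_dvd_mul_right (sing_dvd _ u _ hcu (fun i => (ex H p).coeff i) n hS)
    refine eq_zero_of_dvd_of_natDegree_lt h1 ?_
    have := hdeg 0
    omega
  have h1 : (ex H p).coeff 1 = 0 := by
    rcases Nat.eq_zero_or_pos n with hn0 | hn0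
    · exact coeff_eq_zero_of_natDegree_lt (by omega)
    · obtain ⟨k, hk⟩ : ∃ k, n = k + 1 := ⟨n - 1, by omega⟩
      rw [hk, Finset.sum_range_succ', h0, zero_mul, zero_mul, add_zero] at hS
      have hS' : u * ∑ i ∈ Finset.range (k + 1),
          (ex H p).coeff (i + 1) * u ^ i * c4 F p ^ (k - i) = 0 := by
        rw [← hS, Finset.mul_sum]
        refine Finset.sum_congr rfl fun i _ => ?_
        rw [Nat.add_sub_add_right, pow_succ]
        ring
      have hS2 := (mul_eq_zero.1 hS').resolve_left hu0
      have h1 : c3 F p ∣ (ex H p).coeff 1 :=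
        (hcop k).dvd_of_dvd_mul_right
          (sing_dvd _ u _ hcu (fun i => (ex H p).coeff (i + 1)) k hS2)
      refine eq_zero_of_dvd_of_natDegree_lt h1 ?_
      have := hdeg 1
      omega
  have e0 : MvPolynomial.eval p H = 0 := by
    rw [hc0, C_eq_zero] at h0
    exact h0
  rw [hc1] at h1
  have e1 := congrArg (fun q : E[X] => q.coeff 0) h1
  have e2 := congrArg (fun q : E[X] => q.coeff 1) h1
  simp only [coeff_add, coeff_C_zero, coeff_C_mul, coeff_X_zero, mul_zero, add_zero,
    coeff_zero] at e1
  simp only [coeff_add, coeff_C_mul, coeff_X_one, mul_one, coeff_zero,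
    coeff_C_succ, zero_add] at e2
  exact ⟨e0, e1, e2⟩

end

end Pool.Agent.RDG

end

section


namespace Pool.Agent.RDG

open Polynomial

universe u v w

section

private theorem pt_dvd_max {K : Type u} [Field K] (H : MvPolynomial (Fin 2) K) (hH : Irreducible H)
    (P : Ideal (MvPolynomial (Fin 2) K)) [hP : P.IsPrime] (h1 : H ∈ P) (G : MvPolynomial (Fin 2) K)
    (h2 : G ∈ P) (h3 : ¬ H ∣ G) : P.IsMaximal := by
  have hHp : Prime H := hH.prime
  have i1 : (Ideal.span {H}).IsPrime := (Ideal.span_singleton_prime hHp.ne_zero).2 hHp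
  obtain ⟨M, hM, hPM⟩ := Ideal.exists_le_maximal P hP.ne_top
  rcases hPM.eq_or_lt with h | h
  · rw [h]
    exact hM
  · exfalso
    have i2 : M.IsPrime := hM.isPrime
    have i0 : (⊥ : Ideal (MvPolynomial (Fin 2) K)).IsPrime := Ideal.isPrime_bot
    have l1 : (⊥ : Ideal (MvPolynomial (Fin 2) K)) < Ideal.span {H} := by
      rw [bot_lt_iff_ne_bot, ne_eq, Ideal.span_singleton_eq_bot]
      exact hHp.ne_zero
    have l2 : Ideal.span {H} < P := by
      refine lt_of_le_of_ne ((Ideal.span_singleton_le_iff_mem _).2 h1) fun e => h3 ?_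
      rw [← e] at h2
      exact Ideal.mem_span_singleton.1 h2
    have a1 := Ideal.height_add_one_le_of_lt_of_isPrime l1
    have a2 := Ideal.height_add_one_le_of_lt_of_isPrime l2
    have a3 := Ideal.height_add_one_le_of_lt_of_isPrime h
    have a4 := Ideal.height_le_ringKrullDim_of_isPrime (I := M)
    rw [MvPolynomial.ringKrullDim_of_isNoetherianRing, ringKrullDim_eq_zero_of_field, zero_add,
      Nat.card_eq_fintype_card, Fintype.card_fin] at a4
    have a5 : M.height ≤ 2 := by
      have e : ((2 : ℕ) : WithBot ℕ∞) = ((2 : ℕ∞) : WithBot ℕ∞) := rfl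
      rw [e] at a4
      exact WithBot.coe_le_coe.1 a4
    have a6 : (3 : ℕ∞) ≤ M.height := by
      calc (3 : ℕ∞) = 0 + 1 + 1 + 1 := by norm_num
        _ ≤ (⊥ : Ideal (MvPolynomial (Fin 2) K)).height + 1 + 1 + 1 := by gcongr; exact zero_le
        _ ≤ (Ideal.span {H}).height + 1 + 1 := by gcongr
        _ ≤ P.height + 1 := by gcongr
        _ ≤ M.height := a3
    exact absurd (a6.trans a5) (by norm_num)

theorem pt_dvd {K E : Type u} [Field K] [IsAlgClosed K] [Field E] [Algebra K E]
    (H : MvPolynomial (Fin 2) K) (hH : Irreducible H) (q : Fin 2 → E)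
    (hq : ¬ ∀ i, q i ∈ Set.range (algebraMap K E)) (h0 : MvPolynomial.aeval q H = 0)
    (G : MvPolynomial (Fin 2) K) (hG : MvPolynomial.aeval q G = 0) : H ∣ G := by
  by_contra hcon
  refine hq fun i => ?_
  obtain ⟨P, hPdef⟩ : ∃ P : Ideal (MvPolynomial (Fin 2) K), P = RingHom.ker (MvPolynomial.aeval q :
    MvPolynomial (Fin 2) K →ₐ[K] E) := ⟨_, rfl⟩
  have hP : P.IsPrime := by
    rw [hPdef]
    exact RingHom.ker_isPrime _
  have hM : P.IsMaximal := pt_dvd_max H hH P (by rw [hPdef]; exact h0) G (by rw [hPdef]; exact hG) hcon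
  let _ : Field (MvPolynomial (Fin 2) K ⧸ P) := Ideal.Quotient.field P
  have hfin : Module.Finite K (MvPolynomial (Fin 2) K ⧸ P) :=
    finite_of_finite_type_of_isJacobsonRing K (MvPolynomial (Fin 2) K ⧸ P)
  have halg : Algebra.IsAlgebraic K (MvPolynomial (Fin 2) K ⧸ P) := Algebra.IsAlgebraic.of_finite _ _
  obtain ⟨c, hc⟩ := (IsAlgClosed.algebraMap_bijective_of_isIntegral (k := K)
    (K := MvPolynomial (Fin 2) K ⧸ P)).2 (Ideal.Quotient.mk P (MvPolynomial.X i))
  refine ⟨c, ?_⟩
  have h1 : Ideal.Quotient.mk P (MvPolynomial.C c) = Ideal.Quotient.mk P (MvPolynomial.X i) := hc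
  rw [Ideal.Quotient.eq, hPdef, RingHom.mem_ker, map_sub, sub_eq_zero] at h1
  have h2 : algebraMap K E c = MvPolynomial.aeval q (MvPolynomial.C c : MvPolynomial (Fin 2) K) :=
    (MvPolynomial.aeval_C q c).symm
  rw [h2]
  refine h1.trans ?_
  exact MvPolynomial.aeval_X q i

end

end Pool.Agent.RDG

end

section


namespace Pool.Agent.RDG

open Polynomial

universe u v w

section

theorem pd_irr {K : Type u} [Field K] [IsAlgClosed K] (H : MvPolynomial (Fin 2) K)
    (hH : Irreducible H) :
    (∀ i, H ∣ MvPolynomial.pderiv i H → MvPolynomial.pderiv i H = 0) ∧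
      ∃ i, MvPolynomial.pderiv i H ≠ 0 := by
  classical
  have hdeg : ∀ i, H ∣ MvPolynomial.pderiv i H → MvPolynomial.pderiv i H = 0 := by
    intro i hdv
    by_contra h0
    have h1 := MvPolynomial.totalDegree_le_of_dvd_of_isDomain hdv h0
    have hle : ∀ m ∈ (MvPolynomial.pderiv i H).support, (m.sum fun _ e => e) + 1 ≤ H.totalDegree := by
      intro m hm
      rw [MvPolynomial.mem_support_iff, MvPolynomial.coeff_pderiv] at hm
      have h2 : m + Finsupp.single i 1 ∈ H.support := by
        rw [MvPolynomial.mem_support_iff]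
        exact left_ne_zero_of_mul hm
      have h3 := MvPolynomial.le_totalDegree h2
      rw [Finsupp.sum_add_index' (fun _ => rfl) (fun _ _ _ => rfl), Finsupp.sum_single_index rfl] at h3
      exact h3
    obtain ⟨m, hm⟩ := MvPolynomial.support_nonempty.2 h0
    have h4 : 1 ≤ H.totalDegree := le_trans (Nat.le_add_left 1 _) (hle m hm)
    have h5 : (MvPolynomial.pderiv i H).totalDegree ≤ H.totalDegree - 1 := by
      refine Finset.sup_le fun m' hm' => ?_
      have := hle m' hm'
      omega
    omega
  refine ⟨hdeg, ?_⟩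
  by_contra hcon
  have hz : ∀ i, MvPolynomial.pderiv i H = 0 := fun i => by
    by_contra h
    exact hcon ⟨i, h⟩
  have hc : ∀ (m : Fin 2 →₀ ℕ) (i : Fin 2), MvPolynomial.coeff m H ≠ 0 → ((m i : ℕ) : K) = 0 := by
    intro m i hm
    by_cases hmi : m i = 0
    · rw [hmi]; simp
    · have e : m - Finsupp.single i 1 + Finsupp.single i 1 = m := by
        refine tsub_add_cancel_of_le ?_
        rw [Finsupp.single_le_iff]
        omega
      have h1 := MvPolynomial.coeff_pderiv (i := i) H (m - Finsupp.single i 1)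
      rw [hz i, MvPolynomial.coeff_zero, e] at h1
      have h2 := (mul_eq_zero.1 h1.symm).resolve_left hm
      have h3 : (m - Finsupp.single i 1 : Fin 2 →₀ ℕ) i = m i - 1 := by
        rw [Finsupp.tsub_apply, Finsupp.single_eq_same]
      rw [h3] at h2
      have h4 : ((m i - 1 : ℕ) : K) + 1 = ((m i : ℕ) : K) := by
        rw [← Nat.cast_succ]
        congr 1
        omega
      rw [← h4]
      exact h2
  obtain ⟨p, hp⟩ := CharP.exists K
  rcases CharP.char_is_prime_or_zero K p with hpp | hp0
  · have : Fact p.Prime := ⟨hpp⟩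
    have hroot : ∀ c : K, ∃ r : K, r ^ p = c := fun c => IsAlgClosed.exists_pow_nat_eq c hpp.pos
    choose r hr using hroot
    have hdv : ∀ m ∈ H.support, ∀ i, p ∣ m i := by
      intro m hm i
      exact (CharP.cast_eq_zero_iff K p _).1 (hc m i (MvPolynomial.mem_support_iff.1 hm))
    have e : H = (∑ m ∈ H.support, MvPolynomial.monomial (m.mapRange (fun n => n / p) (Nat.zero_div p))
        (r (MvPolynomial.coeff m H))) ^ p := by
      rw [sum_pow_char]
      conv_lhs => rw [MvPolynomial.as_sum H]
      refine Finset.sum_congr rfl fun m hm => ?_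
      rw [MvPolynomial.monomial_pow, hr]
      have e2 : m = p • (m.mapRange (fun n => n / p) (Nat.zero_div p)) := by
        ext i
        rw [Finsupp.smul_apply, Finsupp.mapRange_apply, smul_eq_mul]
        exact (Nat.mul_div_cancel' (hdv m hm i)).symm
      rw [← e2]
    rw [e] at hH
    exact not_irreducible_pow hpp.one_lt.ne' hH
  · subst hp0
    have : CharZero K := CharP.charP_to_charZero K
    have e : H = MvPolynomial.C (MvPolynomial.coeff 0 H) := by
      ext m
      rw [MvPolynomial.coeff_C]
      split_ifs with h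
      · rw [h]
      · by_contra hne
        apply h
        ext i
        have := hc m i hne
        rw [Nat.cast_eq_zero] at this
        rw [this]
        rfl
    have hne : MvPolynomial.coeff 0 H ≠ 0 := by
      intro h0
      rw [h0, map_zero] at e
      exact hH.ne_zero e
    apply hH.not_isUnit
    rw [e]
    exact (isUnit_iff_ne_zero.2 hne).map MvPolynomial.C

end

end Pool.Agent.RDG

end

section


namespace Pool.Agent.RDG

open Polynomial

universe u v w

section

theorem line_irr {K : Type u} [Field K] (F : MvPolynomial (Fin 2) K) (hF : Irreducible F)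
    (hd : 2 ≤ F.totalDegree) (a b : K) :
    MvPolynomial.aeval (![X, C a * X + C b] : Fin 2 → K[X]) F ≠ 0 := by
  classical
  intro h0
  set L : MvPolynomial (Fin 2) K := MvPolynomial.X 1 - (MvPolynomial.C a * MvPolynomial.X 0 + MvPolynomial.C b)
    with hL
  -- modulo `L` the polynomial `F` is `F (X 0, a X 0 + b)`
  have hdv : L ∣ F := by
    have h1 : Ideal.Quotient.mk (Ideal.span {L}) F = 0 := by
      have e1 : (Ideal.Quotient.mk (Ideal.span {L})) F =
          (MvPolynomial.aeval (fun i => Ideal.Quotient.mk (Ideal.span {L}) (MvPolynomial.X i)) :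
            MvPolynomial (Fin 2) K →ₐ[K] (MvPolynomial (Fin 2) K ⧸ Ideal.span {L})) F := by
        have : (Ideal.Quotient.mkₐ K (Ideal.span {L})) =
          (MvPolynomial.aeval (fun i => Ideal.Quotient.mk (Ideal.span {L}) (MvPolynomial.X i)) :
            MvPolynomial (Fin 2) K →ₐ[K] (MvPolynomial (Fin 2) K ⧸ Ideal.span {L})) := by
          apply MvPolynomial.algHom_ext
          intro i
          rw [MvPolynomial.aeval_X]
          rfl
        rw [← this]
        rfl
      have hX1 : Ideal.Quotient.mk (Ideal.span {L}) (MvPolynomial.X 1) =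
          Ideal.Quotient.mk (Ideal.span {L}) (MvPolynomial.C a * MvPolynomial.X 0 + MvPolynomial.C b) := by
        rw [Ideal.Quotient.eq]
        exact Ideal.subset_span rfl
      have e2 : (MvPolynomial.aeval (fun i => Ideal.Quotient.mk (Ideal.span {L}) (MvPolynomial.X i)) :
            MvPolynomial (Fin 2) K →ₐ[K] (MvPolynomial (Fin 2) K ⧸ Ideal.span {L})) =
          (Polynomial.aeval (Ideal.Quotient.mk (Ideal.span {L}) (MvPolynomial.X 0))).comp
            (MvPolynomial.aeval (![X, C a * X + C b] : Fin 2 → K[X])) := by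
        apply MvPolynomial.algHom_ext
        intro i
        rw [MvPolynomial.aeval_X, AlgHom.comp_apply, MvPolynomial.aeval_X]
        fin_cases i
        · simp
        · simp only [Fin.mk_one, Fin.isValue, Matrix.cons_val_one, Matrix.cons_val_fin_one, map_add,
            map_mul, Polynomial.aeval_X, Polynomial.aeval_C]
          rw [hX1, map_add, map_mul]
          rfl
      rw [e1, e2, AlgHom.comp_apply, h0, map_zero]
    rw [Ideal.Quotient.eq_zero_iff_mem, Ideal.mem_span_singleton] at h1
    exact h1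
  have hLdeg : L.totalDegree ≤ 1 := by
    rw [hL]
    refine le_trans (MvPolynomial.totalDegree_sub _ _) ?_
    refine max_le ?_ ?_
    · rw [MvPolynomial.totalDegree_X]
    · refine le_trans (MvPolynomial.totalDegree_add _ _) (max_le ?_ ?_)
      · refine le_trans (MvPolynomial.totalDegree_mul _ _) ?_
        rw [MvPolynomial.totalDegree_C, MvPolynomial.totalDegree_X]
      · rw [MvPolynomial.totalDegree_C]
        exact Nat.zero_le _
  have hLunit : ¬ IsUnit L := by
    intro hu
    have h1 := hu.map (MvPolynomial.aeval (![X, C a * X + C b] : Fin 2 → K[X]))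
    have h2 : MvPolynomial.aeval (![X, C a * X + C b] : Fin 2 → K[X]) L = 0 := by
      rw [hL]
      simp [Polynomial.C_eq_algebraMap]
    rw [h2] at h1
    exact not_isUnit_zero h1
  obtain ⟨G, hG⟩ := hdv
  rcases hF.isUnit_or_isUnit hG with h | h
  · exact hLunit h
  · have hGd : G.totalDegree = 0 := by
      obtain ⟨c, -, rfl⟩ := MvPolynomial.isUnit_iff_eq_C_of_isReduced.1 h
      exact MvPolynomial.totalDegree_C _
    have := MvPolynomial.totalDegree_mul L G
    rw [← hG, hGd] at this
    omega

end

end Pool.Agent.RDG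

end

section


namespace Pool.Agent.RDG

open Polynomial

universe u v w

section

theorem lin_top {K E : Type u} [Field K] [IsAlgClosed K] [Field E] [Algebra K E]
    (F : MvPolynomial (Fin 2) K) (hF : F ≠ 0) (a b : E)
    (h : (MvPolynomial.aeval (![X, C a * X + C b] : Fin 2 → E[X]) F).natDegree < F.totalDegree) :
    a ∈ Set.range (algebraMap K E) := by
  classical
  set d := F.totalDegree with hd
  -- the coefficient of one monomial
  have hco : ∀ (m : Fin 2 →₀ ℕ), m 0 + m 1 ≤ d →
      ((X : E[X]) ^ m 0 * (C a * X + C b) ^ m 1).coeff d = if m 0 + m 1 = d then a ^ m 1 else 0 := by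
    intro m hm
    have hdeg : (C a * X + C b : E[X]).natDegree ≤ 1 := Polynomial.natDegree_linear_le
    rw [Polynomial.coeff_X_pow_mul', if_pos (by omega)]
    split_ifs with h1
    · have e : d - m 0 = m 1 * 1 := by omega
      rw [e, Polynomial.coeff_pow_of_natDegree_le hdeg]
      simp
    · refine Polynomial.coeff_eq_zero_of_natDegree_lt ?_
      refine lt_of_le_of_lt (Polynomial.natDegree_pow_le_of_le (m 1) hdeg) ?_
      omega
  have hsum : ∀ m ∈ F.support, m 0 + m 1 ≤ d := by
    intro m hm
    have h3 := MvPolynomial.le_totalDegree hm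
    rw [Finsupp.sum_fintype _ _ (fun _ => rfl), Fin.sum_univ_two] at h3
    exact h3
  have hexp : (MvPolynomial.aeval (![X, C a * X + C b] : Fin 2 → E[X]) F).coeff d =
      ∑ m ∈ F.support, if m 0 + m 1 = d then algebraMap K E (MvPolynomial.coeff m F) * a ^ m 1 else 0 := by
    rw [MvPolynomial.aeval_def, MvPolynomial.eval₂_eq', Polynomial.finset_sum_coeff]
    refine Finset.sum_congr rfl fun m hm => ?_
    rw [Fin.prod_univ_two, IsScalarTower.algebraMap_apply K E E[X], Polynomial.algebraMap_eq,
      Polynomial.coeff_C_mul]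
    have h1 := hco m (hsum m hm)
    simp only [Matrix.cons_val_zero, Matrix.cons_val_one, Matrix.cons_val_fin_one] at h1 ⊢
    rw [h1]
    split_ifs
    · rfl
    · rw [mul_zero]
  have hzero : (MvPolynomial.aeval (![X, C a * X + C b] : Fin 2 → E[X]) F).coeff d = 0 :=
    Polynomial.coeff_eq_zero_of_natDegree_lt h
  -- the polynomial `h`
  set g : K[X] := ∑ m ∈ F.support, if m 0 + m 1 = d then C (MvPolynomial.coeff m F) * X ^ m 1 else 0
    with hg
  have hga : Polynomial.aeval a g = 0 := by
    rw [hg, map_sum, ← hzero, hexp]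
    refine Finset.sum_congr rfl fun m hm => ?_
    split_ifs
    · rw [map_mul, Polynomial.aeval_C, map_pow, Polynomial.aeval_X]
    · rw [map_zero]
  have hg0 : g ≠ 0 := by
    obtain ⟨m, hm, hmd⟩ : ∃ m ∈ F.support, m 0 + m 1 = d := by
      obtain ⟨m, hm, hmd⟩ := Finset.exists_mem_eq_sup F.support (MvPolynomial.support_nonempty.2 hF)
        (fun s => s.sum fun _ e => e)
      refine ⟨m, hm, ?_⟩
      rw [Finsupp.sum_fintype _ _ (fun _ => rfl), Fin.sum_univ_two] at hmd
      rw [hd, MvPolynomial.totalDegree]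
      exact hmd.symm
    intro h0
    have h1 : g.coeff (m 1) = MvPolynomial.coeff m F := by
      rw [hg, Polynomial.finset_sum_coeff]
      rw [Finset.sum_eq_single m]
      · rw [if_pos hmd, Polynomial.coeff_C_mul, Polynomial.coeff_X_pow, if_pos rfl, mul_one]
      · intro m' hm' hne
        split_ifs with h2
        · rw [Polynomial.coeff_C_mul, Polynomial.coeff_X_pow, if_neg, mul_zero]
          intro h3
          apply hne
          ext i
          fin_cases i
          · change m' 0 = m 0
            omega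
          · change m' 1 = m 1
            exact h3.symm
        · rw [Polynomial.coeff_zero]
      · intro h2
        exact absurd hm h2
    rw [h0, Polynomial.coeff_zero] at h1
    exact (MvPolynomial.mem_support_iff.1 hm) h1.symm
  have halg : IsAlgebraic K a := ⟨g, hg0, hga⟩
  have hirr := minpoly.irreducible halg.isIntegral
  have h1 := minpoly.mem_range_of_degree_eq_one K a (IsAlgClosed.degree_eq_one_of_irreducible K hirr)
  exact h1

end

end Pool.Agent.RDG

end

section


namespace Pool.Agent.RDG

open Polynomial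

universe u v w

section

private theorem lin_const_sub {K E : Type u} [Field K] [CommRing E]
    (φ : K[X] →+* E) (a0 : K) (G : MvPolynomial (Fin 2) K) :
    mapRingHom φ (MvPolynomial.eval₂Hom ((C : K[X] →+* K[X][X]).comp (C : K →+* K[X]))
      (![X, C (C a0) * X + C X] : Fin 2 → K[X][X]) G) =
    MvPolynomial.eval₂Hom ((C : E →+* E[X]).comp (φ.comp (C : K →+* K[X])))
      (![X, C (φ (C a0)) * X + C (φ X)] : Fin 2 → E[X]) G := by
  induction G using MvPolynomial.induction_on with
  | C k => simp
  | add p q hp hq => rw [map_add, map_add, map_add, hp, hq]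
  | mul_X p i hp =>
    rw [map_mul, map_mul, map_mul, hp]
    congr 1
    fin_cases i <;> simp

private theorem lin_const_eval {K : Type u} [Field K] (g : Fin 2 → K[X]) (x : K)
    (G : MvPolynomial (Fin 2) K) :
    Polynomial.eval x (MvPolynomial.aeval g G) =
      MvPolynomial.eval (fun i => Polynomial.eval x (g i)) G := by
  induction G using MvPolynomial.induction_on with
  | C k => simp
  | add p q hp hq => rw [map_add, map_add, eval_add, hp, hq]
  | mul_X p i hp => rw [map_mul, map_mul, eval_mul, hp, MvPolynomial.aeval_X,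
      MvPolynomial.eval_X]

theorem lin_const {K E : Type u} [Field K] [IsAlgClosed K] [Field E] [Algebra K E]
    (F : MvPolynomial (Fin 2) K) (hF : Irreducible F) (hd : 2 ≤ F.totalDegree) (a b c : E)
    (h : MvPolynomial.aeval (![X, C a * X + C b] : Fin 2 → E[X]) F = C c) :
    a ∈ Set.range (algebraMap K E) ∧ b ∈ Set.range (algebraMap K E) := by
  classical
  have h1 : a ∈ Set.range (algebraMap K E) := by
    apply lin_top F hF.ne_zero a b
    rw [h, natDegree_C]
    omega
  refine ⟨h1, ?_⟩
  obtain ⟨a0, rfl⟩ := h1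
  by_contra hb
  have htr : ∀ P : K[X], aeval b P = 0 → P = 0 := by
    intro P hP
    by_contra hP0
    have halg : IsAlgebraic K b := ⟨P, hP0, hP⟩
    have hint := halg.isIntegral
    have hirr := minpoly.irreducible hint
    have hdeg := IsAlgClosed.degree_eq_one_of_irreducible K hirr
    have hmem := minpoly.mem_range_of_degree_eq_one K b hdeg
    exact hb (by simpa using hmem)
  set Q : K[X][X] := MvPolynomial.eval₂Hom ((C : K[X] →+* K[X][X]).comp (C : K →+* K[X]))
      (![X, C (C a0) * X + C X] : Fin 2 → K[X][X]) F with hQ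
  have hE : mapRingHom (aeval b : K[X] →ₐ[K] E).toRingHom Q = C c := by
    rw [hQ, lin_const_sub, ← h]
    rw [MvPolynomial.aeval_def, MvPolynomial.coe_eval₂Hom]
    congr 1
    · ext x
      simp
    · simp
  have hcoef : ∀ i : ℕ, 1 ≤ i → Q.coeff i = 0 := by
    intro i hi
    apply htr
    have h2 := congrArg (fun p => Polynomial.coeff p i) hE
    simpa [coeff_C, show i ≠ 0 by omega] using h2
  have hQC : Q = C (Q.coeff 0) := by
    ext i : 1
    rcases Nat.eq_zero_or_pos i with rfl | hi
    · simp
    · rw [hcoef i hi, coeff_C, if_neg (by omega)]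
  have hline : ∀ y0 : K, MvPolynomial.aeval (![X, C a0 * X + C y0] : Fin 2 → K[X]) F =
      C ((Q.coeff 0).eval y0) := by
    intro y0
    have h3 : mapRingHom (evalRingHom y0) Q =
        MvPolynomial.aeval (![X, C a0 * X + C y0] : Fin 2 → K[X]) F := by
      rw [hQ, lin_const_sub]
      rw [MvPolynomial.aeval_def, MvPolynomial.coe_eval₂Hom]
      congr 1
      · ext x
        simp
      · simp
    rw [← h3, hQC]
    simp
  have hroot : ∀ y0 : K, (Q.coeff 0).eval y0 ≠ 0 := by
    intro y0 h0
    apply line_irr F hF hd a0 y0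
    rw [hline y0, h0, C_0]
  have hdeg0 : (Q.coeff 0).degree = 0 := by
    by_contra hne
    obtain ⟨x, hx⟩ := IsAlgClosed.exists_root (Q.coeff 0) hne
    exact hroot x hx
  have hP : Q.coeff 0 = C ((Q.coeff 0).coeff 0) := eq_C_of_degree_eq_zero hdeg0
  set p : K := (Q.coeff 0).coeff 0 with hp
  have hconst : F = MvPolynomial.C p := by
    have : Infinite K := IsAlgClosed.instInfinite
    apply MvPolynomial.funext
    intro x
    have h4 := hline (x 1 - a0 * x 0)
    rw [hP, eval_C] at h4
    have h5 := congrArg (Polynomial.eval (x 0)) h4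
    rw [eval_C] at h5
    rw [MvPolynomial.eval_C, ← h5]
    rw [lin_const_eval]
    congr 2
    funext i
    fin_cases i <;> simp
  rw [hconst] at hd
  simp at hd

end

end Pool.Agent.RDG

end

section


namespace Pool.Agent.RDG

open Polynomial

universe u v w

section

theorem hom4 {K : Type u} [Field K] [IsAlgClosed K] (F : MvPolynomial (Fin 2) K)
    (hF : Irreducible F) (q : Fin 2 → K) (h : ∀ i, i ≠ 4 → (ex F q).coeff i = 0) : False := by
  classical
  have hex : ex F q = C ((ex F q).coeff 4) * X ^ 4 := by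
    refine Polynomial.ext fun i => ?_
    rw [coeff_C_mul, coeff_X_pow]
    by_cases hi : i = 4
    · simp [hi]
    · simp [hi, h i hi]
  have key : ∀ m0 : K, MvPolynomial.aeval
      (![X, C m0 * X + C (q 1 - m0 * q 0)] : Fin 2 → K[X]) F =
      C (((ex F q).coeff 4).eval m0) * (X - C (q 0)) ^ 4 := by
    intro m0
    have h1 := ex_eval F q (C m0 : K[X]) (X - C (q 0))
    have h2 : (![algebraMap K K[X] (q 0) + (X - C (q 0)),
        algebraMap K K[X] (q 1) + C m0 * (X - C (q 0))] : Fin 2 → K[X]) =
        ![X, C m0 * X + C (q 1 - m0 * q 0)] := by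
      funext i
      fin_cases i
      · simp [Polynomial.algebraMap_eq]
      · simp only [Polynomial.algebraMap_eq, Fin.mk_one, Matrix.cons_val_one,
          Matrix.cons_val_fin_one, C_sub, C_mul]
        ring
    rw [h2, hex, eval₂_mul, eval₂_C, eval₂_X_pow] at h1
    rw [h1]
    congr 1
    have h3 : (aeval (C m0 : K[X]) : K[X] →ₐ[K] K[X]) ((ex F q).coeff 4) =
        C (((ex F q).coeff 4).eval m0) := by
      have := Polynomial.aeval_algebraMap_apply (A := K) K[X] m0 ((ex F q).coeff 4)
      rw [Polynomial.algebraMap_eq] at this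
      rw [this, coe_aeval_eq_eval]
    exact h3
  -- the field of fractions
  have hinj : Function.Injective (algebraMap (MvPolynomial (Fin 2) K)
      (FractionRing (MvPolynomial (Fin 2) K))) := IsFractionRing.injective _ _
  set L := FractionRing (MvPolynomial (Fin 2) K) with hL
  set ι := algebraMap (MvPolynomial (Fin 2) K) L with hι
  have hιC : ∀ c : K, algebraMap K L c = ι (MvPolynomial.C c) := by
    intro c
    rw [IsScalarTower.algebraMap_apply K (MvPolynomial (Fin 2) K) L,
      MvPolynomial.algebraMap_eq]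
  have hT : ι (MvPolynomial.X 0 - MvPolynomial.C (q 0)) ≠ 0 := by
    intro h0
    rw [map_eq_zero_iff ι hinj] at h0
    have h1 := congrArg (MvPolynomial.eval (fun _ => q 0 + 1)) h0
    simp at h1
  obtain ⟨m, hm⟩ : ∃ m : L, m * ι (MvPolynomial.X 0 - MvPolynomial.C (q 0)) =
      ι (MvPolynomial.X 1 - MvPolynomial.C (q 1)) := ⟨_, div_mul_cancel₀ _ hT⟩
  have hF2 : ι F = aeval m ((ex F q).coeff 4) *
      ι (MvPolynomial.X 0 - MvPolynomial.C (q 0)) ^ 4 := by
    have h1 := ex_eval F q m (ι (MvPolynomial.X 0 - MvPolynomial.C (q 0)))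
    have h2 : (![algebraMap K L (q 0) + ι (MvPolynomial.X 0 - MvPolynomial.C (q 0)),
        algebraMap K L (q 1) + m * ι (MvPolynomial.X 0 - MvPolynomial.C (q 0))] : Fin 2 → L) =
        (ι ∘ MvPolynomial.X) := by
      funext i
      fin_cases i
      · simp [hιC]
      · simp only [Fin.mk_one, Matrix.cons_val_one, Matrix.cons_val_fin_one, Function.comp_apply]
        rw [hm, hιC, ← map_add]
        congr 1
        ring
    rw [h2, hex, eval₂_mul, eval₂_C, eval₂_X_pow] at h1
    rw [MvPolynomial.aeval_algebraMap_apply, MvPolynomial.aeval_X_left_apply] at h1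
    exact h1
  by_cases hdeg : ((ex F q).coeff 4).degree = 0
  · rw [eq_C_of_degree_eq_zero hdeg, aeval_C, hιC, ← map_pow, ← map_mul] at hF2
    have hF3 := hinj hF2
    have hu : ¬ IsUnit (MvPolynomial.X 0 - MvPolynomial.C (q 0) : MvPolynomial (Fin 2) K) := by
      intro hu
      have := hu.map (MvPolynomial.eval q)
      simp at this
    have hF4 : F = (MvPolynomial.C (((ex F q).coeff 4).coeff 0) *
        (MvPolynomial.X 0 - MvPolynomial.C (q 0)) ^ 3) *
        (MvPolynomial.X 0 - MvPolynomial.C (q 0)) := by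
      conv_lhs => rw [hF3]
      ring
    rcases hF.isUnit_or_isUnit hF4 with h5 | h5
    · have h6 := isUnit_of_mul_isUnit_right h5
      rw [isUnit_pow_iff (by norm_num)] at h6
      exact hu h6
    · exact hu h5
  · obtain ⟨m0, hm0⟩ := IsAlgClosed.exists_root _ hdeg
    have h1 := key m0
    rw [hm0, C_0, zero_mul] at h1
    have h2 : ¬ 2 ≤ F.totalDegree := fun h2 => line_irr F hF h2 _ _ h1
    have h3 := (ex_deg F q).1
    have h4 : (ex F q).coeff 4 = 0 := coeff_eq_zero_of_natDegree_lt (by omega)
    rw [h4, map_zero, zero_mul] at hF2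
    exact hF.ne_zero ((map_eq_zero_iff ι hinj).1 hF2)

end

end Pool.Agent.RDG

end

section


namespace Pool.Agent.RDG

open Polynomial

universe u v w

section

theorem hom_line {K E : Type u} [Field K] [IsAlgClosed K] [Field E] [Algebra K E]
    (F : MvPolynomial (Fin 2) K) (hF : Irreducible F) (q : Fin 2 → K) (a c : E)
    (ha : a ∉ Set.range (algebraMap K E))
    (h : MvPolynomial.aeval (![X, C a * X + C (algebraMap K E (q 1) - a * algebraMap K E (q 0))] :
      Fin 2 → E[X]) F = C c * (X - C (algebraMap K E (q 0))) ^ 4) : False := by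
  have hcoef : ∀ i, i ≠ 4 → aeval a ((ex F q).coeff i) = 0 := by
    intro i hi
    have h1 := ex_eval (B := E[X]) F q (C a) (X - C (algebraMap K E (q 0)))
    have h2 : (![algebraMap K E[X] (q 0) + (X - C (algebraMap K E (q 0))),
        algebraMap K E[X] (q 1) + C a * (X - C (algebraMap K E (q 0)))] : Fin 2 → E[X]) =
        ![X, C a * X + C (algebraMap K E (q 1) - a * algebraMap K E (q 0))] := by
      have hc : ∀ y : K, algebraMap K E[X] y = C (algebraMap K E y) := fun y => rfl
      funext i
      fin_cases i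
      · simp [hc]
      · simp only [hc, Fin.mk_one, Matrix.cons_val_one,
          Matrix.cons_val_fin_one, C_sub, C_mul]
        ring
    rw [h2, h] at h1
    have h3 : (((aeval (C a) : K[X] →ₐ[K] E[X]) : K[X] →+* E[X])) =
        (C : E →+* E[X]).comp ((aeval a : K[X] →ₐ[K] E) : K[X] →+* E) := by
      apply Polynomial.ringHom_ext
      · intro y
        simp only [AlgHom.coe_toRingHom, aeval_C, RingHom.comp_apply]
        rfl
      · simp
    rw [h3, ← eval₂_map] at h1
    have h4 : ((ex F q).map ((aeval a : K[X] →ₐ[K] E) : K[X] →+* E)).comp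
        (X - C (algebraMap K E (q 0))) = (C c * X ^ 4).comp (X - C (algebraMap K E (q 0))) := by
      rw [mul_comp, C_comp, X_pow_comp]
      exact h1.symm
    have h5 := congrArg (fun P : E[X] => P.comp (X + C (algebraMap K E (q 0)))) h4
    simp only [comp_assoc, sub_comp, X_comp, C_comp, add_sub_cancel_right, comp_X] at h5
    have h6 := congrArg (fun P : E[X] => P.coeff i) h5
    simp only [coeff_map, coeff_C_mul, coeff_X_pow, if_neg hi, mul_zero] at h6
    exact h6
  have htr : ∀ P : K[X], aeval a P = 0 → P = 0 := by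
    intro P hP
    by_contra hP0
    have halg : IsAlgebraic K a := ⟨P, hP0, hP⟩
    have h1 := IsAlgClosed.degree_eq_one_of_irreducible K (minpoly.irreducible halg.isIntegral)
    exact ha (minpoly.mem_range_of_degree_eq_one K a h1)
  exact hom4 F hF q fun i hi => htr _ (hcoef i hi)

end

end Pool.Agent.RDG

end

section


namespace Pool.Agent.RDG

open Polynomial

universe u v w

section

theorem der_ex {K E : Type u} [Field K] [IsAlgClosed K] [Field E] [Algebra K E] (a b : E)
    (h : ¬ (a ∈ Set.range (algebraMap K E) ∧ b ∈ Set.range (algebraMap K E))) :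
    ∃ (k0 : IntermediateField K E) (a0 b0 : k0) (D : Derivation K k0 k0), (a0 : E) = a ∧
      (b0 : E) = b ∧ (D a0 ≠ 0 ∨ D b0 ≠ 0) := by
  classical
  by_contra hno
  apply h
  have ha : a ∈ IntermediateField.adjoin K ({a, b} : Set E) :=
    IntermediateField.subset_adjoin _ _ (by simp)
  have hb : b ∈ IntermediateField.adjoin K ({a, b} : Set E) :=
    IntermediateField.subset_adjoin _ _ (by simp)
  have hD : ∀ D : Derivation K (IntermediateField.adjoin K ({a, b} : Set E))
      (IntermediateField.adjoin K ({a, b} : Set E)), D = 0 := by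
    intro D
    have h1 : D ⟨a, ha⟩ = 0 := by
      by_contra h1
      exact hno ⟨_, ⟨a, ha⟩, ⟨b, hb⟩, D, rfl, rfl, Or.inl h1⟩
    have h1' : D ⟨b, hb⟩ = 0 := by
      by_contra h1
      exact hno ⟨_, ⟨a, ha⟩, ⟨b, hb⟩, D, rfl, rfl, Or.inr h1⟩
    have h2 : ∀ x (hx : x ∈ IntermediateField.adjoin K ({a, b} : Set E)), D ⟨x, hx⟩ = 0 := by
      intro x hx
      induction hx using IntermediateField.adjoin_induction with
      | mem x hx =>
        rcases hx with rfl | hx
        · exact h1
        · rw [Set.mem_singleton_iff] at hx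
          subst hx
          exact h1'
      | algebraMap x => exact D.map_algebraMap x
      | add x y hx hy h3 h4 =>
        have h5 : (⟨x + y, add_mem hx hy⟩ : IntermediateField.adjoin K ({a, b} : Set E)) =
          ⟨x, hx⟩ + ⟨y, hy⟩ := rfl
        rw [h5, map_add, h3, h4, add_zero]
      | inv x hx h3 =>
        have h5 : (⟨x⁻¹, inv_mem hx⟩ : IntermediateField.adjoin K ({a, b} : Set E)) =
          (⟨x, hx⟩ : IntermediateField.adjoin K ({a, b} : Set E))⁻¹ := rfl
        rw [h5, Derivation.leibniz_inv, h3, smul_zero]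
      | mul x y hx hy h3 h4 =>
        have h5 : (⟨x * y, mul_mem hx hy⟩ : IntermediateField.adjoin K ({a, b} : Set E)) =
          ⟨x, hx⟩ * ⟨y, hy⟩ := rfl
        rw [h5, Derivation.leibniz, h3, h4, smul_zero, smul_zero, add_zero]
    ext x
    rw [h2 x.1 x.2]
    rfl
  have hsub : Subsingleton (Ω[IntermediateField.adjoin K ({a, b} : Set E)⁄K]) := by
    refine ⟨fun x y => ?_⟩
    rw [← sub_eq_zero,
      ← Module.forall_dual_apply_eq_zero_iff (IntermediateField.adjoin K ({a, b} : Set E))]
    intro φ
    have h3 : φ = 0 := by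
      apply (KaehlerDifferential.linearMapEquivDerivation K
        (IntermediateField.adjoin K ({a, b} : Set E))).injective
      rw [map_zero]
      exact hD _
    rw [h3]
    rfl
  have : Algebra.FormallyUnramified K (IntermediateField.adjoin K ({a, b} : Set E)) := ⟨hsub⟩
  have : Algebra.EssFiniteType K (IntermediateField.adjoin K ({a, b} : Set E)) :=
    IntermediateField.essFiniteType_iff.2 (IntermediateField.fg_adjoin_of_finite
      (Set.toFinite _))
  have hsep := (Algebra.FormallyUnramified.iff_isSeparable (K := K)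
    (IntermediateField.adjoin K ({a, b} : Set E))).1 inferInstance
  have hmem : ∀ x (hx : x ∈ IntermediateField.adjoin K ({a, b} : Set E)),
      x ∈ Set.range (algebraMap K E) := by
    intro x hx
    have h4 : IsIntegral K (⟨x, hx⟩ : IntermediateField.adjoin K ({a, b} : Set E)) :=
      Algebra.IsSeparable.isIntegral K _
    have h5 := IsAlgClosed.degree_eq_one_of_irreducible K (minpoly.irreducible h4)
    obtain ⟨y, hy⟩ := minpoly.mem_range_of_degree_eq_one K _ h5
    exact ⟨y, congrArg Subtype.val hy⟩
  exact ⟨hmem a ha, hmem b hb⟩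

end

end Pool.Agent.RDG

end

section


namespace Pool.Agent.RDG

open Polynomial

universe u v w

section

theorem sing_K {K E : Type u} [Field K] [IsAlgClosed K] [Field E] [Algebra K E]
    (F : MvPolynomial (Fin 2) K) (hF : Irreducible F) (q : Fin 2 → E)
    (h : MvPolynomial.aeval q F = 0) (h0 : MvPolynomial.aeval q (MvPolynomial.pderiv 0 F) = 0)
    (h1 : MvPolynomial.aeval q (MvPolynomial.pderiv 1 F) = 0) :
    ∀ i, q i ∈ Set.range (algebraMap K E) := by
  by_contra hq
  have hd : ∀ i, F ∣ MvPolynomial.pderiv i F := by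
    intro i
    fin_cases i
    · exact pt_dvd F hF q hq h _ h0
    · exact pt_dvd F hF q hq h _ h1
  obtain ⟨hz, i, hi⟩ := pd_irr F hF
  exact hi (hz i (hd i))

end

end Pool.Agent.RDG

end

section


namespace Pool.Agent.RDG

open Polynomial

universe u v w

section

/-- coefficientwise derivation -/
noncomputable def cD {K k : Type u} [Field K] [Field k] [Algebra K k] (D : Derivation K k k) :
    Derivation K k[X] k[X] :=
  PolynomialModule.equivPolynomialSelf.compDer D.mapCoeffs

theorem cD_C {K k : Type u} [Field K] [Field k] [Algebra K k] (D : Derivation K k k) (x : k) :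
    cD D (C x) = C (D x) := by
  ext i
  show D ((C x).coeff i) = (C (D x)).coeff i
  rw [coeff_C, coeff_C]
  split_ifs <;> simp

theorem cD_X {K k : Type u} [Field K] [Field k] [Algebra K k] (D : Derivation K k k) :
    cD D (X : k[X]) = 0 := by
  ext i
  show D ((X : k[X]).coeff i) = 0
  rw [coeff_X]
  split_ifs <;> simp

theorem chain {K A : Type u} [Field K] [CommRing A] [Algebra K A] (Δ : Derivation K A A)
    (v : Fin 2 → A) (F : MvPolynomial (Fin 2) K) :
    Δ (MvPolynomial.aeval v F) = MvPolynomial.aeval v (MvPolynomial.pderiv 0 F) * Δ (v 0) +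
      MvPolynomial.aeval v (MvPolynomial.pderiv 1 F) * Δ (v 1) := by
  induction F using MvPolynomial.induction_on with
  | C c => simp
  | add p q hp hq => simp only [map_add, hp, hq]; ring
  | mul_X p i hp =>
    simp only [map_mul, Derivation.leibniz, MvPolynomial.aeval_X, hp, smul_eq_mul, map_add,
      MvPolynomial.pderiv_X]
    fin_cases i <;> simp <;> ring

theorem sqrt_desc {k E : Type u} [Field k] [Field E] [Algebra k E] (h2 : (2 : k) ≠ 0) (G : k[X])
    (S : E[X]) (hS : S ≠ 0) (hd : G.natDegree ≤ 4) (h : G.map (algebraMap k E) = S ^ 2) :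
    ∃ (c : k) (S1 : k[X]), c ≠ 0 ∧ S1.Monic ∧ S1.natDegree = S.natDegree ∧
      G = C c * S1 ^ 2 := by
  have h2E : (2 : E) ≠ 0 := by
    intro h0
    apply h2
    apply (algebraMap k E).injective
    rw [map_zero, map_ofNat, h0]
  have hG0 : G ≠ 0 := by
    rintro rfl
    rw [Polynomial.map_zero] at h
    exact hS (pow_eq_zero_iff two_ne_zero |>.1 h.symm)
  set c := G.leadingCoeff with hc
  have hc0 : c ≠ 0 := leadingCoeff_ne_zero.2 hG0
  have hlc : algebraMap k E c = S.leadingCoeff ^ 2 := by
    rw [hc, ← leadingCoeff_map (algebraMap k E), h, leadingCoeff_pow]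
  have hnd : G.natDegree = 2 * S.natDegree := by
    rw [← natDegree_map (algebraMap k E), h, natDegree_pow]
  have hl0 : S.leadingCoeff ≠ 0 := leadingCoeff_ne_zero.2 hS
  -- the monic square root
  set S' : E[X] := C (S.leadingCoeff)⁻¹ * S with hS'
  have hm : S'.Monic := by
    rw [Monic, hS', leadingCoeff_mul, leadingCoeff_C, inv_mul_cancel₀ hl0]
  have hn' : S'.natDegree = S.natDegree := by
    rw [hS', natDegree_C_mul (inv_ne_zero hl0)]
  have hGS : G.map (algebraMap k E) = C (algebraMap k E c) * S' ^ 2 := by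
    rw [h, hlc, hS', mul_pow, ← mul_assoc, ← C_pow, ← C_mul, ← mul_pow, mul_inv_cancel₀ hl0, one_pow,
      C_1, one_mul]
  have key : ∃ S1 : k[X], S1.Monic ∧ S1.natDegree = S.natDegree ∧ S1.map (algebraMap k E) = S' := by
    have hle : S.natDegree ≤ 2 := by omega
    have hcE : algebraMap k E c ≠ 0 := by
      rw [hlc]; exact pow_ne_zero 2 hl0
    interval_cases hn : S.natDegree
    · refine ⟨1, monic_one, natDegree_one, ?_⟩
      rw [Polynomial.map_one]
      exact ((hm.natDegree_eq_zero).1 hn').symm
    · -- degree one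
      set s' := S'.coeff 0 with hs'
      have e : S' = X + C s' := hm.eq_X_add_C hn'
      have h1 : algebraMap k E (G.coeff 1) = algebraMap k E c * (2 * s') := by
        have := congrArg (fun p => coeff p 1) hGS
        simp only [coeff_map] at this
        rw [this, coeff_C_mul]
        congr 1
        rw [e]
        have : (X + C s' : E[X]) ^ 2 = X ^ 2 + C (2 * s') * X + C (s' ^ 2) := by
          simp only [C_mul, C_pow, C_ofNat]; ring
        rw [this]
        simp only [coeff_add, coeff_C_mul, coeff_X_pow, coeff_X, coeff_C]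
        norm_num
      refine ⟨X + C (G.coeff 1 / (2 * c)), monic_X_add_C _, natDegree_X_add_C _, ?_⟩
      rw [e, Polynomial.map_add, map_X, map_C]
      congr 2
      rw [map_div₀, h1, map_mul, map_ofNat]
      field_simp
    · -- degree two
      set s' := S'.coeff 1 with hs'
      set t' := S'.coeff 0 with ht'
      have e : S' = X ^ 2 + C s' * X + C t' := by
        have h2 : S'.coeff 2 = 1 := by
          have := hm.coeff_natDegree
          rwa [hn'] at this
        ext i
        rcases i with _ | _ | _ | i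
        · simp [ht']
        · simp [hs', coeff_X, coeff_C]
        · simp [h2, coeff_X, coeff_C]
        · rw [coeff_eq_zero_of_natDegree_lt (by omega)]
          simp [coeff_X, coeff_C, coeff_X_pow]
      have eq : (X ^ 2 + C s' * X + C t' : E[X]) ^ 2 = X ^ 4 + C (2 * s') * X ^ 3 +
          C (s' ^ 2 + 2 * t') * X ^ 2 + C (2 * s' * t') * X + C (t' ^ 2) := by
        simp only [C_mul, C_pow, C_ofNat, C_add]; ring
      have h3 : algebraMap k E (G.coeff 3) = algebraMap k E c * (2 * s') := by
        have := congrArg (fun p => coeff p 3) hGS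
        simp only [coeff_map] at this
        rw [this, coeff_C_mul]
        congr 1
        rw [e, eq]
        simp only [coeff_add, coeff_C_mul, coeff_X_pow, coeff_X, coeff_C]
        norm_num
      have h4 : algebraMap k E (G.coeff 2) = algebraMap k E c * (s' ^ 2 + 2 * t') := by
        have := congrArg (fun p => coeff p 2) hGS
        simp only [coeff_map] at this
        rw [this, coeff_C_mul]
        congr 1
        rw [e, eq]
        simp only [coeff_add, coeff_C_mul, coeff_X_pow, coeff_X, coeff_C]
        norm_num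
      set s := G.coeff 3 / (2 * c) with hs
      have es : algebraMap k E s = s' := by
        rw [hs, map_div₀, h3, map_mul, map_ofNat]
        field_simp
      set t := (G.coeff 2 / c - s ^ 2) / 2 with ht
      have et : algebraMap k E t = t' := by
        rw [ht, map_div₀, map_sub, map_div₀, h4, map_pow, es, map_ofNat]
        field_simp
        ring
      refine ⟨X ^ 2 + C s * X + C t, ?_, ?_, ?_⟩
      · monicity!
      · compute_degree!
      · rw [e]
        simp [es, et]
  obtain ⟨S1, hS1, hn1, hm1⟩ := key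
  refine ⟨c, S1, hc0, hS1, hn1, ?_⟩
  apply map_injective _ (algebraMap k E).injective
  rw [hGS, Polynomial.map_mul, map_C, Polynomial.map_pow, hm1]

theorem line_deg {K k : Type u} [Field K] [Field k] [Algebra K k] (F : MvPolynomial (Fin 2) K)
    (a b : k) :
    (MvPolynomial.aeval (![X, C a * X + C b] : Fin 2 → k[X]) F).natDegree ≤ F.totalDegree := by
  rw [MvPolynomial.aeval_def, MvPolynomial.eval₂_eq']
  refine natDegree_sum_le_of_forall_le _ _ fun d hd => ?_
  have h1 : d 0 + d 1 ≤ F.totalDegree := by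
    have := MvPolynomial.le_totalDegree hd
    rw [Finsupp.sum_fintype _ _ (fun _ => rfl)] at this
    simpa using this
  have h3 : (C a * X + C b : k[X]).natDegree ≤ 1 := natDegree_linear_le
  have h2 : (((![X, C a * X + C b] : Fin 2 → k[X]) 0) ^ d 0 *
      ((![X, C a * X + C b] : Fin 2 → k[X]) 1) ^ d 1).natDegree ≤ d 0 + d 1 := by
    refine natDegree_mul_le_of_le ?_ ?_
    · show (X ^ d 0 : k[X]).natDegree ≤ d 0
      exact natDegree_X_pow_le _
    · show ((C a * X + C b : k[X]) ^ d 1).natDegree ≤ d 1
      calc _ ≤ d 1 * (C a * X + C b : k[X]).natDegree := natDegree_pow_le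
        _ ≤ d 1 * 1 := Nat.mul_le_mul_left _ h3
        _ = d 1 := mul_one _
  rw [Fin.prod_univ_two]
  refine le_trans (natDegree_mul_le_of_le (m := 0) ?_ h2) (by omega)
  show (C (algebraMap K k (F.coeff d)) : k[X]).natDegree ≤ 0
  exact natDegree_C _ |>.le

/-- the values of the derivatives on a line -/
theorem claimC_aux {K k : Type u} [Field K] [IsAlgClosed K] (h2 : (2 : K) ≠ 0) [Field k]
    [Algebra K k] (F : MvPolynomial (Fin 2) K) (hF : Irreducible F) (hd : 3 ≤ F.totalDegree)
    (D : Derivation K k k) (a b : k) (hD : D a ≠ 0 ∨ D b ≠ 0) (c : k) (hc : c ≠ 0) (S : k[X])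
    (hS : S.Monic) (hS0 : 0 < S.natDegree) (hS2 : S.natDegree ≤ 2)
    (hG : MvPolynomial.aeval (![X, C a * X + C b] : Fin 2 → k[X]) F = C c * S ^ 2) : False := by
  set v : Fin 2 → k[X] := ![X, C a * X + C b] with hv
  set Fx : k[X] := MvPolynomial.aeval v (MvPolynomial.pderiv 0 F) with hFx
  set Fy : k[X] := MvPolynomial.aeval v (MvPolynomial.pderiv 1 F) with hFy
  -- the two derivatives of the restriction
  have e1 : cD D (C c * S ^ 2) = Fy * (C (D a) * X + C (D b)) := by
    rw [← hG, chain (cD D) v F]
    have h0 : cD D (v 0) = 0 := cD_X D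
    have h1 : cD D (v 1) = C (D a) * X + C (D b) := by
      show cD D (C a * X + C b) = _
      rw [map_add, Derivation.leibniz, cD_X, cD_C, cD_C, smul_zero, zero_add, smul_eq_mul, mul_comm]
    rw [h0, h1, mul_zero, zero_add]
  have e2 : derivative (C c * S ^ 2) = Fx + C a * Fy := by
    have := chain ((Polynomial.derivative' (R := k)).restrictScalars K) v F
    have h0 : ((Polynomial.derivative' (R := k)).restrictScalars K) (v 0) = 1 := by
      show derivative (X : k[X]) = 1
      exact derivative_X
    have h1 : ((Polynomial.derivative' (R := k)).restrictScalars K) (v 1) = C a := by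
      show derivative (C a * X + C b : k[X]) = C a
      simp
    rw [h0, h1, mul_one, hG] at this
    rw [mul_comm (C a) Fy]
    exact this
  -- roots
  have root : ∀ (Ω : Type u) [Field Ω] [Algebra k Ω] [Algebra K Ω] [IsScalarTower K k Ω] (ξ : Ω),
      aeval ξ S = 0 → algebraMap k Ω (D a) * ξ + algebraMap k Ω (D b) = 0 := by
    intro Ω _ _ _ _ ξ hξ
    by_contra hne
    have f1 : aeval ξ Fy = 0 := by
      have h := congrArg (aeval ξ) e1
      rw [Derivation.leibniz, Derivation.leibniz_pow] at h
      simp only [smul_eq_mul, map_add, map_mul, aeval_C, aeval_X, hξ, map_pow, map_nsmul] at h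
      have : aeval ξ Fy * (algebraMap k Ω (D a) * ξ + algebraMap k Ω (D b)) = 0 := by
        rw [← h]; simp
      exact (mul_eq_zero.1 this).resolve_right hne
    have f2 : aeval ξ Fx = 0 := by
      have h := congrArg (aeval ξ) e2
      simp only [map_add, map_mul, aeval_C, f1, mul_zero, add_zero] at h
      rw [← h]
      rw [derivative_mul, derivative_pow]
      simp [hξ]
    set q : Fin 2 → Ω := ![ξ, algebraMap k Ω a * ξ + algebraMap k Ω b] with hq
    have hval : ∀ H : MvPolynomial (Fin 2) K,
        aeval ξ (MvPolynomial.aeval v H) = MvPolynomial.aeval q H := by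
      intro H
      have : ((aeval ξ : k[X] →ₐ[k] Ω).restrictScalars K).comp (MvPolynomial.aeval v) =
          MvPolynomial.aeval q := by
        apply MvPolynomial.algHom_ext
        intro i
        fin_cases i <;> simp [hv, hq]
      exact DFunLike.congr_fun this H
    have g0 : MvPolynomial.aeval q F = 0 := by
      rw [← hval, hG]; simp [hξ]
    have g1 : MvPolynomial.aeval q (MvPolynomial.pderiv 0 F) = 0 := by rw [← hval]; exact f2
    have g2 : MvPolynomial.aeval q (MvPolynomial.pderiv 1 F) = 0 := by rw [← hval]; exact f1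
    have hs := sing_K F hF q g0 g1 g2
    obtain ⟨x1, hx1⟩ := hs 0
    obtain ⟨y1, hy1⟩ := hs 1
    have hx : ξ = algebraMap K Ω x1 := hx1.symm
    have hy : algebraMap k Ω a * ξ + algebraMap k Ω b = algebraMap K Ω y1 := hy1.symm
    apply hne
    have : a * algebraMap K k x1 + b = algebraMap K k y1 := by
      apply (algebraMap k Ω).injective
      rw [map_add, map_mul, ← IsScalarTower.algebraMap_apply, ← IsScalarTower.algebraMap_apply,
        ← hx, hy]
    have h3 := congrArg D this
    rw [map_add, Derivation.leibniz, Derivation.map_algebraMap, Derivation.map_algebraMap,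
      smul_zero, zero_add, smul_eq_mul] at h3
    rw [hx, IsScalarTower.algebraMap_apply K k Ω, ← map_mul, ← map_add, mul_comm, h3, map_zero]
  -- D a is not 0
  obtain ⟨ξ, hξ⟩ := IsAlgClosed.exists_aeval_eq_zero (AlgebraicClosure k) S
    (by rw [degree_eq_natDegree hS.ne_zero]; exact_mod_cast hS0.ne')
  have hr := root (AlgebraicClosure k) ξ hξ
  have hDa : D a ≠ 0 := by
    intro h0
    rw [h0, map_zero, zero_mul, zero_add] at hr
    rcases hD with h | h
    · exact h h0
    · exact h ((algebraMap k (AlgebraicClosure k)).injective (by rw [hr, map_zero]))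
  set ξ0 : k := - D b / D a with hξ0
  have hDa' : algebraMap k (AlgebraicClosure k) (D a) ≠ 0 := by
    intro h0; exact hDa ((algebraMap k (AlgebraicClosure k)).injective (by rw [h0, map_zero]))
  have hξ' : ξ = algebraMap k (AlgebraicClosure k) ξ0 := by
    rw [hξ0, map_div₀, map_neg, eq_div_iff hDa']
    linear_combination hr
  have hroot : S.eval ξ0 = 0 := by
    rw [hξ', aeval_algebraMap_apply] at hξ
    exact (algebraMap k (AlgebraicClosure k)).injective (by rw [map_zero]; exact hξ)
  have ha : a ∉ Set.range (algebraMap K k) := by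
    rintro ⟨a1, rfl⟩
    exact hDa (D.map_algebraMap a1)
  obtain ⟨R, hR⟩ := dvd_iff_isRoot.2 hroot
  have hRm : R.Monic := (monic_X_sub_C ξ0).of_mul_monic_left (by rw [← hR]; exact hS)
  have hRd : S.natDegree = 1 + R.natDegree := by
    rw [hR, (monic_X_sub_C ξ0).natDegree_mul hRm, natDegree_X_sub_C]
  rcases Nat.eq_zero_or_pos R.natDegree with h0 | h0
  · -- degree one
    apply ha
    refine lin_top F hF.ne_zero a b ?_
    rw [← hv, hG]
    have : (C c * S ^ 2 : k[X]).natDegree = 2 := by
      rw [natDegree_C_mul hc, natDegree_pow, hRd, h0]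
    omega
  · have hR1 : R.natDegree = 1 := by omega
    have eR : R = X - C ξ0 := by
      have e := hRm.eq_X_add_C hR1
      have hz : aeval (-(R.coeff 0)) S = 0 := by
        rw [hR]
        conv_lhs => rw [e]
        simp
      have := root k (-(R.coeff 0)) hz
      simp only [Algebra.algebraMap_self, RingHom.id_apply] at this
      rw [e]
      have : R.coeff 0 = - ξ0 := by
        rw [hξ0]
        field_simp
        linear_combination -this
      rw [this, C_neg, sub_eq_add_neg]
    have eS : S = (X - C ξ0) ^ 2 := by rw [hR, eR, sq]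
    have hxy : C (D a) * X + C (D b) = C (D a) * (X - C ξ0 : k[X]) := by
      rw [mul_sub, ← C_mul, hξ0]
      have : D a * (-D b / D a) = - D b := by field_simp
      rw [this, C_neg, sub_neg_eq_add]
    have e4 : C c * S ^ 2 = C c * (X - C ξ0 : k[X]) ^ 4 := by rw [eS]; ring
    -- F_y vanishes
    have e5 : cD D (C c * (X - C ξ0 : k[X]) ^ 4) =
        (X - C ξ0) * ((X - C ξ0) * ((X - C ξ0) * (C (D c) * (X - C ξ0) - 4 * C c * C (D ξ0)))) := by
      rw [Derivation.leibniz, Derivation.leibniz_pow, map_sub, cD_X, cD_C, cD_C]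
      simp only [smul_eq_mul, nsmul_eq_mul]
      push_cast
      ring
    have e6 : Fy * C (D a) = (X - C ξ0) * ((X - C ξ0) * (C (D c) * (X - C ξ0) - 4 * C c * C (D ξ0))) := by
      have h := e1
      rw [e4, e5, hxy] at h
      apply mul_left_cancel₀ (X_sub_C_ne_zero ξ0)
      rw [h]; ring
    have f1 : Fy.eval ξ0 = 0 := by
      have := congrArg (eval ξ0) e6
      simp only [eval_mul, eval_C, eval_sub, eval_X, sub_self, zero_mul] at this
      exact (mul_eq_zero.1 this).resolve_right hDa
    have f2 : Fx.eval ξ0 = 0 := by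
      have := congrArg (eval ξ0) e2
      rw [e4, derivative_mul, derivative_pow] at this
      simp [f1] at this
      exact this.symm
    set q : Fin 2 → k := ![ξ0, a * ξ0 + b] with hq
    have hval : ∀ H : MvPolynomial (Fin 2) K,
        eval ξ0 (MvPolynomial.aeval v H) = MvPolynomial.aeval q H := by
      intro H
      have : ((aeval ξ0 : k[X] →ₐ[k] k).restrictScalars K).comp (MvPolynomial.aeval v) =
          MvPolynomial.aeval q := by
        apply MvPolynomial.algHom_ext
        intro i
        fin_cases i <;> simp [hv, hq]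
      exact DFunLike.congr_fun this H
    have g0 : MvPolynomial.aeval q F = 0 := by
      rw [← hval, hG, eval_mul, eval_pow, hroot]; simp
    have g1 : MvPolynomial.aeval q (MvPolynomial.pderiv 0 F) = 0 := by rw [← hval]; exact f2
    have g2 : MvPolynomial.aeval q (MvPolynomial.pderiv 1 F) = 0 := by rw [← hval]; exact f1
    have hs := sing_K F hF q g0 g1 g2
    obtain ⟨x1, hx1⟩ := hs 0
    obtain ⟨y1, hy1⟩ := hs 1
    have hx : algebraMap K k x1 = ξ0 := hx1
    have hy : algebraMap K k y1 = a * ξ0 + b := hy1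
    refine hom_line F hF ![x1, y1] a c ha ?_
    have eb : algebraMap K k ((![x1, y1] : Fin 2 → K) 1) - a * algebraMap K k ((![x1, y1] : Fin 2 → K) 0) = b := by
      show algebraMap K k y1 - a * algebraMap K k x1 = b
      rw [hx, hy]; ring
    rw [eb]
    show MvPolynomial.aeval v F = C c * (X - C (algebraMap K k x1)) ^ 4
    rw [hx, hG, e4]

end

section

theorem claimC {K E : Type u} [Field K] [IsAlgClosed K] (h2 : (2 : K) ≠ 0) [Field E] [Algebra K E]
    (F : MvPolynomial (Fin 2) K) (hF : Irreducible F) (hd : 3 ≤ F.totalDegree)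
    (hd4 : F.totalDegree ≤ 4) (a b : E) (S : E[X])
    (h : MvPolynomial.aeval (![X, C a * X + C b] : Fin 2 → E[X]) F = S ^ 2) :
    a ∈ Set.range (algebraMap K E) ∧ b ∈ Set.range (algebraMap K E) := by
  by_contra hn
  obtain ⟨k0, a0, b0, D, ha0, hb0, hD⟩ := der_ex a b hn
  have h2k : (2 : k0) ≠ 0 := by
    intro h0
    apply h2
    apply (algebraMap K k0).injective
    rw [map_zero, map_ofNat, h0]
  have hG : (MvPolynomial.aeval (![X, C a0 * X + C b0] : Fin 2 → k0[X]) F).map (algebraMap k0 E) =
      S ^ 2 := by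
    rw [← h]
    have : ((mapAlgHom (Algebra.ofId k0 E : k0 →ₐ[k0] E)).restrictScalars K).comp
        (MvPolynomial.aeval (![X, C a0 * X + C b0] : Fin 2 → k0[X])) =
          MvPolynomial.aeval (![X, C a * X + C b] : Fin 2 → E[X]) := by
      apply MvPolynomial.algHom_ext
      intro i
      fin_cases i
      · simp
      · simp only [AlgHom.comp_apply, MvPolynomial.aeval_X]
        show (C a0 * X + C b0 : k0[X]).map (algebraMap k0 E) = C a * X + C b
        rw [Polynomial.map_add, Polynomial.map_mul, map_X, map_C, map_C]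
        rw [← ha0, ← hb0]
        rfl
    exact DFunLike.congr_fun this F
  rcases Nat.eq_zero_or_pos S.natDegree with h0 | h0
  · apply hn
    obtain ⟨s, hs⟩ := natDegree_eq_zero.1 h0
    refine lin_const F hF (by omega) a b (s ^ 2) ?_
    rw [h, ← hs, C_pow]
  · have hS0 : S ≠ 0 := by
      rintro rfl
      simp at h0
    have hdeg : (MvPolynomial.aeval (![X, C a0 * X + C b0] : Fin 2 → k0[X]) F).natDegree ≤ 4 :=
      le_trans (line_deg F a0 b0) hd4
    obtain ⟨c, S1, hc, hm, hn1, hG1⟩ := sqrt_desc h2k _ S hS0 hdeg hG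
    have hS2 : S1.natDegree ≤ 2 := by
      have : (C c * S1 ^ 2 : k0[X]).natDegree = 2 * S1.natDegree := by
        rw [natDegree_C_mul hc, natDegree_pow]
      rw [← hG1] at this
      omega
    exact claimC_aux h2 F hF hd D a0 b0 hD c hc S1 hm (by omega) hS2 hG1

end

end Pool.Agent.RDG

end

section


namespace Pool.Agent.RDG

open Polynomial

universe u v w

section

theorem lead {K : Type u} [Field K] [IsAlgClosed K] (F : MvPolynomial (Fin 2) K) (hF : Irreducible F)
    (hy : MvPolynomial.pderiv 1 F ≠ 0) :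
    (c3 (MvPolynomial.map MvPolynomial.C F) (MvPolynomial.X : Fin 2 → MvPolynomial (Fin 2) K)).coeff
      3 ≠ 0 := by
  have hev : ∀ G : MvPolynomial (Fin 2) K,
      MvPolynomial.eval (MvPolynomial.X : Fin 2 → MvPolynomial (Fin 2) K)
        (MvPolynomial.map MvPolynomial.C G) = G := by
    intro G
    rw [MvPolynomial.eval_map, MvPolynomial.eval₂_eta]
  have hpd : ∀ i : Fin 2, MvPolynomial.eval (MvPolynomial.X : Fin 2 → MvPolynomial (Fin 2) K)
      (MvPolynomial.pderiv i (MvPolynomial.map MvPolynomial.C F)) = MvPolynomial.pderiv i F := by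
    intro i
    rw [MvPolynomial.pderiv_map, hev]
  obtain ⟨-, hdeg, -, h1⟩ := ex_deg (MvPolynomial.map MvPolynomial.C F)
    (MvPolynomial.X : Fin 2 → MvPolynomial (Fin 2) K)
  rw [hpd, hpd] at h1
  have hd1 := hdeg 1
  have hd2 := hdeg 2
  intro h
  unfold c3 at h
  rw [hev] at h
  set A1 := (ex (MvPolynomial.map MvPolynomial.C F)
    (MvPolynomial.X : Fin 2 → MvPolynomial (Fin 2) K)).coeff 1 with hA1
  set A2 := (ex (MvPolynomial.map MvPolynomial.C F)
    (MvPolynomial.X : Fin 2 → MvPolynomial (Fin 2) K)).coeff 2 with hA2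
  set A3 := (ex (MvPolynomial.map MvPolynomial.C F)
    (MvPolynomial.X : Fin 2 → MvPolynomial (Fin 2) K)).coeff 3 with hA3
  have hsq : (A1 ^ 2).coeff 2 = (A1.coeff 1) ^ 2 := by
    have h11 := Polynomial.coeff_mul_add_eq_of_natDegree_le hd1 hd1
    rw [pow_two, pow_two]
    exact h11
  have hsqd : (A1 ^ 2).natDegree ≤ 2 :=
    Polynomial.natDegree_pow_le.trans (by omega)
  have e4 : (4 : (MvPolynomial (Fin 2) K)[X]) * C F * A2 = C (4 * F) * A2 := by
    rw [C_mul, map_ofNat]
  have e8 : (8 : (MvPolynomial (Fin 2) K)[X]) * C F ^ 2 * A3 = C (8 * F ^ 2) * A3 := by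
    rw [C_mul, C_pow, map_ofNat]
  have h4d : (C (4 * F) * A2).natDegree ≤ 2 :=
    (Polynomial.natDegree_C_mul_le _ _).trans hd2
  have hBd : (C (4 * F) * A2 - A1 ^ 2).natDegree ≤ 2 :=
    (Polynomial.natDegree_sub_le _ _).trans (max_le h4d hsqd)
  have h12 : (A1 * (C (4 * F) * A2 - A1 ^ 2)).coeff 3 =
      A1.coeff 1 * (C (4 * F) * A2 - A1 ^ 2).coeff 2 :=
    Polynomial.coeff_mul_add_eq_of_natDegree_le hd1 hBd
  rw [e4, e8, Polynomial.coeff_sub, Polynomial.coeff_C_mul, h12, Polynomial.coeff_sub,
    Polynomial.coeff_C_mul, hsq] at h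
  have hA11 : A1.coeff 1 = MvPolynomial.pderiv 1 F := by
    rw [h1]
    simp [Polynomial.coeff_C]
  rw [hA11] at h
  have hdvd : F ∣ (MvPolynomial.pderiv 1 F) ^ 3 :=
    ⟨-(8 * F * A3.coeff 3) + MvPolynomial.pderiv 1 F * (4 * A2.coeff 2),
      by linear_combination h⟩
  have hprime : Prime F := UniqueFactorizationMonoid.irreducible_iff_prime.1 hF
  exact hy ((pd_irr F hF).1 1 (hprime.dvd_of_dvd_pow hdvd))

end

end Pool.Agent.RDG

end

section


namespace Pool.Agent.RDG

open Polynomial

universe u v w

section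

theorem cop {K E : Type u} [Field K] [IsAlgClosed K] (h2 : (2 : K) ≠ 0) [Field E] [Algebra K E]
    (F : MvPolynomial (Fin 2) K) (hF : Irreducible F) (hd : 3 ≤ F.totalDegree)
    (hd4 : F.totalDegree ≤ 4) (p : Fin 2 → E) (h0 : MvPolynomial.aeval p F ≠ 0)
    (hl : ∀ a b : K, p 1 ≠ algebraMap K E a * p 0 + algebraMap K E b) :
    IsCoprime (c3 (MvPolynomial.map (algebraMap K E) F) p)
      (c4 (MvPolynomial.map (algebraMap K E) F) p) := by
  classical
  by_contra hcop
  set F' := MvPolynomial.map (algebraMap K E) F with hF'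
  -- a common root in the algebraic closure
  obtain ⟨a, ha3, ha4⟩ : ∃ a : AlgebraicClosure E, aeval a (c3 F' p) = 0 ∧
      aeval a (c4 F' p) = 0 := by
    by_contra hno
    push Not at hno
    apply hcop
    refine (Polynomial.isCoprime_iff_aeval_ne_zero_of_isAlgClosed E (AlgebraicClosure E) _ _).2 ?_
    intro a
    by_cases h3 : aeval a (c3 F' p) = 0
    · exact Or.inr (hno a h3)
    · exact Or.inl h3
  have h2E : (2 : AlgebraicClosure E) ≠ 0 := by
    intro h
    apply h2
    have hinj : Function.Injective (algebraMap K (AlgebraicClosure E)) :=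
      (algebraMap K (AlgebraicClosure E)).injective
    apply hinj
    rw [map_ofNat, map_zero, h]
  have hdeg : F'.totalDegree ≤ 4 := by
    refine le_trans ?_ hd4
    rw [hF']
    exact Finset.sup_mono (MvPolynomial.support_map_subset _ _)
  have hev : MvPolynomial.eval p F' = MvPolynomial.aeval p F := by
    rw [hF', MvPolynomial.eval_map, MvPolynomial.aeval_def]
  set v : AlgebraicClosure E := algebraMap E (AlgebraicClosure E) (MvPolynomial.aeval p F) with hv
  have hv0 : v ≠ 0 := by
    rw [hv]
    intro h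
    exact h0 ((algebraMap E (AlgebraicClosure E)).injective (by rw [h, map_zero]))
  -- a square root of 64 v^3
  obtain ⟨s, hs⟩ := IsAlgClosed.exists_pow_nat_eq (64 * v ^ 3) (n := 2) (by norm_num)
  have hs0 : s ≠ 0 := by
    rintro rfl
    have h64 : (64 : AlgebraicClosure E) ≠ 0 := by
      have : (64 : AlgebraicClosure E) = 2 ^ 6 := by norm_num
      rw [this]; exact pow_ne_zero _ h2E
    rw [zero_pow two_ne_zero] at hs
    exact mul_ne_zero h64 (pow_ne_zero 3 hv0) hs.symm
  have hid := ident (B := (AlgebraicClosure E)[X]) F' hdeg p (C a)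
    (X - C (algebraMap E (AlgebraicClosure E) (p 0)))
  have hmapC : ∀ x : E, algebraMap E (AlgebraicClosure E)[X] x =
      C (algebraMap E (AlgebraicClosure E) x) := fun x => rfl
  have haev : ∀ q : E[X], aeval (C a : (AlgebraicClosure E)[X]) q = C (aeval a q) := by
    intro q
    have : (C a : (AlgebraicClosure E)[X]) = algebraMap (AlgebraicClosure E) _ a := rfl
    rw [this, Polynomial.aeval_algebraMap_apply]
    rfl
  rw [haev (c3 F' p), haev (c4 F' p), ha3, ha4, map_zero, mul_zero, zero_mul, add_zero, mul_zero,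
    add_zero, hev] at hid
  set P0 : AlgebraicClosure E := algebraMap E (AlgebraicClosure E) (p 0) with hP0
  set P1 : AlgebraicClosure E := algebraMap E (AlgebraicClosure E) (p 1) with hP1
  set W := 8 * (algebraMap E (AlgebraicClosure E)[X]) ((MvPolynomial.aeval p) F) ^ 2 +
    4 * (algebraMap E (AlgebraicClosure E)[X]) ((MvPolynomial.aeval p) F) *
      (aeval (C a : (AlgebraicClosure E)[X])) ((ex F' p).coeff 1) * (X - C P0) +
    (4 * (algebraMap E (AlgebraicClosure E)[X]) ((MvPolynomial.aeval p) F) *
      (aeval (C a : (AlgebraicClosure E)[X])) ((ex F' p).coeff 2) -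
      (aeval (C a : (AlgebraicClosure E)[X])) ((ex F' p).coeff 1) ^ 2) * (X - C P0) ^ 2 with hW
  have hvec : (![(algebraMap E (AlgebraicClosure E)[X]) (p 0) + (X - C P0),
      (algebraMap E (AlgebraicClosure E)[X]) (p 1) + C a * (X - C P0)] :
        Fin 2 → (AlgebraicClosure E)[X]) = ![X, C a * X + C (P1 - a * P0)] := by
    rw [hmapC, hmapC, ← hP0, ← hP1]
    congr 1
    · ring
    · congr 1
      rw [C_sub, C_mul]; ring
  have haevF : ∀ g : Fin 2 → (AlgebraicClosure E)[X], MvPolynomial.aeval g F' =
      MvPolynomial.aeval g F := by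
    intro g
    rw [hF', MvPolynomial.aeval_map_algebraMap]
  rw [hvec, haevF, hmapC, ← hv] at hid
  have hkey : MvPolynomial.aeval (![X, C a * X + C (P1 - a * P0)] :
      Fin 2 → (AlgebraicClosure E)[X]) F = (C s⁻¹ * W) ^ 2 := by
    have h1 : (64 : (AlgebraicClosure E)[X]) * C v ^ 3 = C s ^ 2 := by
      have h1' := congrArg (C : AlgebraicClosure E → (AlgebraicClosure E)[X]) hs
      rw [C_pow, C_mul, C_pow, map_ofNat] at h1'
      exact h1'.symm
    rw [h1] at hid
    rw [mul_pow, ← hid, ← mul_assoc, ← mul_pow, ← C_mul, inv_mul_cancel₀ hs0, C_1, one_pow,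
      one_mul]
  obtain ⟨⟨a0, ha0⟩, ⟨b0, hb0⟩⟩ := claimC h2 F hF hd hd4 a (P1 - a * P0) (C s⁻¹ * W) hkey
  apply hl a0 b0
  apply (algebraMap E (AlgebraicClosure E)).injective
  rw [map_add, map_mul, ← IsScalarTower.algebraMap_apply, ← IsScalarTower.algebraMap_apply, ha0,
    hb0]
  ring

end

end Pool.Agent.RDG

end

section


namespace Pool.Agent.RDG

open Polynomial

universe u v w

section

theorem good_ex {K : Type u} [Field K] [IsAlgClosed K] (h2 : (2 : K) ≠ 0)
    (F : MvPolynomial (Fin 2) K) (hF : Irreducible F) (hd : 3 ≤ F.totalDegree)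
    (hd4 : F.totalDegree ≤ 4) (hy : MvPolynomial.pderiv 1 F ≠ 0) : ∃ p : Fin 2 → K, Good F p := by
  have hK : Infinite K := IsAlgClosed.instInfinite
  let R := MvPolynomial (Fin 2) K
  let Q := FractionRing R
  let ι : R →+* Q := algebraMap R Q
  have hι : Function.Injective ι := IsFractionRing.injective R Q
  have hKQ : algebraMap K Q = ι.comp (MvPolynomial.C : K →+* R) := by
    rw [IsScalarTower.algebraMap_eq K R Q]
    rfl
  have hmap : MvPolynomial.map (algebraMap K Q) F =
      MvPolynomial.map ι (MvPolynomial.map (MvPolynomial.C : K →+* R) F) := by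
    rw [MvPolynomial.map_map, hKQ]
  have h0 : MvPolynomial.aeval (fun i => ι (MvPolynomial.X i : R)) F ≠ 0 := by
    have h1 : MvPolynomial.aeval (fun i => ι (MvPolynomial.X i : R)) F = ι F := by
      rw [MvPolynomial.aeval_def, hKQ]
      have h2 := MvPolynomial.eval₂_comp_left ι (MvPolynomial.C : K →+* R) MvPolynomial.X F
      rw [MvPolynomial.eval₂_eta] at h2
      exact h2.symm
    rw [h1]
    intro h2
    exact hF.ne_zero (hι (by rw [h2, map_zero]))
  have hl : ∀ a b : K, ι (MvPolynomial.X 1 : R) ≠
      algebraMap K Q a * ι (MvPolynomial.X 0 : R) + algebraMap K Q b := by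
    intro a b h1
    have h2 : (MvPolynomial.X 1 : R) = MvPolynomial.C a * MvPolynomial.X 0 + MvPolynomial.C b := by
      apply hι
      rw [h1, hKQ, map_add, map_mul]
      rfl
    have h3 := congrArg (MvPolynomial.pderiv (1 : Fin 2)) h2
    rw [MvPolynomial.pderiv_X_self, map_add, MvPolynomial.pderiv_C_mul, MvPolynomial.pderiv_C,
      MvPolynomial.pderiv_X_of_ne (by decide : (0 : Fin 2) ≠ 1)] at h3
    simp at h3
  obtain ⟨u, v, huv⟩ := cop (E := Q) h2 F hF hd hd4 (fun i => ι (MvPolynomial.X i : R)) h0 hl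
  obtain ⟨-, hc3, hc4⟩ := ex_map ι (MvPolynomial.map (MvPolynomial.C : K →+* R) F)
    (MvPolynomial.X : Fin 2 → R)
  rw [hmap, hc3, hc4] at huv
  obtain ⟨b, hb, hbu⟩ := IsLocalization.integerNormalization_spec (nonZeroDivisors R) u
  obtain ⟨b', hb', hbv⟩ := IsLocalization.integerNormalization_spec (nonZeroDivisors R) v
  set u' : R[X] := IsLocalization.integerNormalization (nonZeroDivisors R) u with hu'
  set v' : R[X] := IsLocalization.integerNormalization (nonZeroDivisors R) v with hv'
  set d3 : R[X] := c3 (MvPolynomial.map (MvPolynomial.C : K →+* R) F)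
    (MvPolynomial.X : Fin 2 → R) with hd3
  set d4 : R[X] := c4 (MvPolynomial.map (MvPolynomial.C : K →+* R) F)
    (MvPolynomial.X : Fin 2 → R) with hd4'
  have hb0 : b ≠ 0 := nonZeroDivisors.ne_zero hb
  have hb0' : b' ≠ 0 := nonZeroDivisors.ne_zero hb'
  have hbu' : u'.map ι = C (ι b) * u := by
    rw [hbu, ← Polynomial.smul_eq_C_mul]
    exact (algebraMap_smul Q b u).symm
  have hbv' : v'.map ι = C (ι b') * v := by
    rw [hbv, ← Polynomial.smul_eq_C_mul]
    exact (algebraMap_smul Q b' v).symm
  have key : (C b' * u') * d3 + (C b * v') * d4 = C (b * b') := by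
    apply Polynomial.map_injective ι hι
    rw [Polynomial.map_add, Polynomial.map_mul, Polynomial.map_mul, Polynomial.map_mul,
      Polynomial.map_mul, Polynomial.map_C, Polynomial.map_C, Polynomial.map_C, hbu', hbv',
      map_mul, Polynomial.C_mul]
    linear_combination (C (ι b) * C (ι b')) * huv
  have hg3 : d3.coeff 3 ≠ 0 := lead F hF hy
  obtain ⟨p, hp⟩ : ∃ p : Fin 2 → K, MvPolynomial.eval p (F * d3.coeff 3 * (b * b')) ≠ 0 := by
    by_contra hcon
    push Not at hcon
    have h1 : F * d3.coeff 3 * (b * b') = 0 := MvPolynomial.funext fun x => by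
      rw [hcon x, map_zero]
    exact mul_ne_zero (mul_ne_zero hF.ne_zero hg3) (mul_ne_zero hb0 hb0') h1
  have hp1 : MvPolynomial.eval p F ≠ 0 := by
    intro h1
    apply hp
    rw [map_mul, map_mul, h1, zero_mul, zero_mul]
  have hp2 : MvPolynomial.eval p (d3.coeff 3) ≠ 0 := by
    intro h1
    apply hp
    rw [map_mul, map_mul, h1, mul_zero, zero_mul]
  have hp3 : MvPolynomial.eval p (b * b') ≠ 0 := by
    intro h1
    apply hp
    rw [map_mul (MvPolynomial.eval p) (F * d3.coeff 3), h1, mul_zero]
  obtain ⟨-, he3, he4⟩ := ex_map (MvPolynomial.eval p)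
    (MvPolynomial.map (MvPolynomial.C : K →+* R) F) (MvPolynomial.X : Fin 2 → R)
  have hback : MvPolynomial.map (MvPolynomial.eval p)
      (MvPolynomial.map (MvPolynomial.C : K →+* R) F) = F := by
    rw [MvPolynomial.map_map]
    have h1 : (MvPolynomial.eval p).comp (MvPolynomial.C : K →+* R) = RingHom.id K := by
      ext x
      simp
    rw [h1, MvPolynomial.map_id]
  have hpX : (fun i => MvPolynomial.eval p (MvPolynomial.X i : R)) = p := by
    funext i
    exact MvPolynomial.eval_X i
  rw [hback, hpX, ← hd3] at he3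
  rw [hback, hpX, ← hd4'] at he4
  refine ⟨p, hp1, ?_, ?_⟩
  · rw [he3, Polynomial.coeff_map]
    exact hp2
  · rw [he3, he4]
    have h1 := congrArg (Polynomial.map (MvPolynomial.eval p)) key
    rw [Polynomial.map_add, Polynomial.map_mul (p := C b' * u'), Polynomial.map_mul (p := C b * v'),
      Polynomial.map_C] at h1
    refine ⟨C (MvPolynomial.eval p (b * b'))⁻¹ * (C b' * u').map (MvPolynomial.eval p),
      C (MvPolynomial.eval p (b * b'))⁻¹ * (C b * v').map (MvPolynomial.eval p), ?_⟩
    have h2 : C (MvPolynomial.eval p (b * b'))⁻¹ * C (MvPolynomial.eval p (b * b')) = (1 : K[X]) := by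
      rw [← Polynomial.C_mul, inv_mul_cancel₀ hp3, Polynomial.C_1]
    rw [← h2, ← h1]
    ring

end

end Pool.Agent.RDG

end

section


namespace Pool.Agent.RDG

open Polynomial

universe u v w

section

theorem good_next {K B : Type u} [Field K] [IsAlgClosed K] (h2 : (2 : K) ≠ 0) [Field B]
    [Algebra K B] (F : MvPolynomial (Fin 2) K) (hF : Irreducible F) (hd : 3 ≤ F.totalDegree)
    (hd4 : F.totalDegree ≤ 4) (p : Fin 2 → K) (hp : Good F p) (τ T : B) (hτ : Transcendental K τ)
    (hT : aeval τ (c4 F p) * T = -8 * algebraMap K B (MvPolynomial.eval p F) * aeval τ (c3 F p)) :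
    Good (MvPolynomial.map (algebraMap K B) F)
      ![algebraMap K B (p 0) + T, algebraMap K B (p 1) + τ * T] ∧
    ¬ ∀ i, (![algebraMap K B (p 0) + T, algebraMap K B (p 1) + τ * T] : Fin 2 → B) i ∈
      Set.range (algebraMap K B) := by
  set p' : Fin 2 → B := ![algebraMap K B (p 0) + T, algebraMap K B (p 1) + τ * T] with hp'
  have hs := fun H hH => sing F h2 p hp τ T hτ hT H hH
  have h0 : MvPolynomial.aeval p' F ≠ 0 := fun h => hp.ne (hs F h).1
  have hl : ∀ a b : K, p' 1 ≠ algebraMap K B a * p' 0 + algebraMap K B b := by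
    intro a b hab
    have h1 := (hs (MvPolynomial.X 1 - MvPolynomial.C a * MvPolynomial.X 0 - MvPolynomial.C b) (by
      show MvPolynomial.aeval p' _ = 0
      rw [map_sub, map_sub, map_mul, MvPolynomial.aeval_X, MvPolynomial.aeval_X,
        MvPolynomial.aeval_C, MvPolynomial.aeval_C, hab]
      ring)).2.2
    simp [MvPolynomial.pderiv_X] at h1
  -- the coefficient of the cubic form as a polynomial in the point
  let FC : MvPolynomial (Fin 2) (MvPolynomial (Fin 2) K) := MvPolynomial.map MvPolynomial.C F
  let g : (MvPolynomial (Fin 2) K)[X] := c3 FC MvPolynomial.X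
  have hg1 : c3 (MvPolynomial.map (algebraMap K B) F) p' =
      g.map (MvPolynomial.aeval p' : MvPolynomial (Fin 2) K →ₐ[K] B).toRingHom := by
    have h1 := (ex_map (MvPolynomial.aeval p' : MvPolynomial (Fin 2) K →ₐ[K] B).toRingHom FC
      MvPolynomial.X).2.1
    have h3 : MvPolynomial.map (MvPolynomial.aeval p' : MvPolynomial (Fin 2) K →ₐ[K] B).toRingHom
        FC = MvPolynomial.map (algebraMap K B) F := by
      show MvPolynomial.map _ (MvPolynomial.map MvPolynomial.C F) = _
      rw [MvPolynomial.map_map]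
      have h5 : ((MvPolynomial.aeval p' : MvPolynomial (Fin 2) K →ₐ[K] B).toRingHom).comp
          MvPolynomial.C = algebraMap K B := by
        refine RingHom.ext fun x => ?_
        show MvPolynomial.aeval p' (MvPolynomial.C x) = _
        rw [MvPolynomial.aeval_C]
      rw [h5]
    have h4 : (fun i => (MvPolynomial.aeval p' : MvPolynomial (Fin 2) K →ₐ[K] B).toRingHom
        (MvPolynomial.X i)) = p' := by
      funext i
      show MvPolynomial.aeval p' (MvPolynomial.X i) = _
      rw [MvPolynomial.aeval_X]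
    rw [h3, h4] at h1
    exact h1
  have hg2 : c3 F p = g.map (MvPolynomial.eval p) := by
    have h1 := (ex_map (MvPolynomial.eval p) FC MvPolynomial.X).2.1
    have h3 : MvPolynomial.map (MvPolynomial.eval p) FC = F := by
      show MvPolynomial.map _ (MvPolynomial.map MvPolynomial.C F) = _
      rw [MvPolynomial.map_map]
      have h5 : (MvPolynomial.eval p).comp MvPolynomial.C = RingHom.id K := by
        ext x
        simp
      rw [h5, MvPolynomial.map_id]
    have h4 : (fun i => MvPolynomial.eval p (MvPolynomial.X i)) = p := by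
      funext i
      rw [MvPolynomial.eval_X]
    rw [h3, h4] at h1
    exact h1
  refine ⟨⟨?_, ?_, ?_⟩, ?_⟩
  · rw [MvPolynomial.eval_map]
    exact h0
  · rw [hg1, coeff_map]
    intro h
    have h1 := (hs (g.coeff 3) h).1
    apply hp.lead
    rw [hg2, coeff_map]
    exact h1
  · exact cop h2 F hF hd hd4 p' h0 hl
  · intro h
    obtain ⟨a, ha⟩ := h 0
    have h1 := (hs (MvPolynomial.X 0 - MvPolynomial.C a) (by
      show MvPolynomial.aeval p' _ = 0
      rw [map_sub, MvPolynomial.aeval_X, MvPolynomial.aeval_C, ha, sub_self])).2.1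
    simp [MvPolynomial.pderiv_X] at h1

end

end Pool.Agent.RDG

end

section


namespace Pool.Agent.RDG

open Polynomial

universe u v w

section

theorem indep {K E B : Type u} [Field K] [IsAlgClosed K] (h2 : (2 : K) ≠ 0) [Field E] [Field B]
    [Algebra K E] [Algebra E B] [Algebra K B] [IsScalarTower K E B] (F : MvPolynomial (Fin 2) K)
    (p : Fin 2 → E) (hp : Good (MvPolynomial.map (algebraMap K E) F) p)
    (hK : ¬ ∀ i, p i ∈ Set.range (algebraMap K E)) (τ T : B) (hτ : Transcendental E τ)
    (hT : aeval τ (c4 (MvPolynomial.map (algebraMap K E) F) p) * T =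
      -8 * algebraMap E B (MvPolynomial.aeval p F) *
        aeval τ (c3 (MvPolynomial.map (algebraMap K E) F) p)) :
    AlgebraicIndependent K
      (![algebraMap E B (p 0) + T, algebraMap E B (p 1) + τ * T] : Fin 2 → B) := by
  have h2E : (2 : E) ≠ 0 := by
    intro h
    apply h2
    apply (algebraMap K E).injective
    rw [map_ofNat, map_zero]; exact h
  have hev : ∀ G : MvPolynomial (Fin 2) K,
      MvPolynomial.eval p (MvPolynomial.map (algebraMap K E) G) = MvPolynomial.aeval p G := by
    intro G
    rw [MvPolynomial.eval_map, MvPolynomial.aeval_def]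
  rw [algebraicIndependent_iff]
  intro G hG0
  by_contra hGne
  obtain ⟨f, hf, hprod⟩ := WfDvdMonoid.exists_factors G hGne
  have hz : MvPolynomial.aeval
      (![algebraMap E B (p 0) + T, algebraMap E B (p 1) + τ * T] : Fin 2 → B) f.prod = 0 := by
    obtain ⟨u, hu⟩ := hprod.symm
    rw [← hu, map_mul, hG0, zero_mul]
  rw [map_multiset_prod, Multiset.prod_eq_zero_iff, Multiset.mem_map] at hz
  obtain ⟨H, hHf, hH0⟩ := hz
  have hH := hf H hHf
  have key := sing (MvPolynomial.map (algebraMap K E) F) h2E p hp τ T hτ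
    (by rw [hev]; exact hT) (MvPolynomial.map (algebraMap K E) H)
    (by rw [MvPolynomial.aeval_map_algebraMap]; exact hH0)
  obtain ⟨k0, k1, k2⟩ := key
  rw [hev] at k0
  rw [MvPolynomial.pderiv_map, hev] at k1 k2
  obtain ⟨hd, i, hi⟩ := pd_irr H hH
  apply hi
  apply hd
  apply pt_dvd H hH p hK k0
  fin_cases i
  · exact k1
  · exact k2

end

end Pool.Agent.RDG

end

section


namespace Pool.Agent.RDG

open Polynomial

universe u v w

section

private theorem conic_alg {K : Type u} [Field K]
    (M : IntermediateField K (FractionRing (MvPolynomial (Fin 2) K)))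
    (h : ∀ i, IsAlgebraic M (algebraMap (MvPolynomial (Fin 2) K)
      (FractionRing (MvPolynomial (Fin 2) K)) (MvPolynomial.X i))) :
    Algebra.IsAlgebraic M (FractionRing (MvPolynomial (Fin 2) K)) := by
  have hp : ∀ a : MvPolynomial (Fin 2) K, algebraMap (MvPolynomial (Fin 2) K)
      (FractionRing (MvPolynomial (Fin 2) K)) a ∈
      algebraicClosure M (FractionRing (MvPolynomial (Fin 2) K)) := by
    intro a
    induction a using MvPolynomial.induction_on with
    | C c =>
      have hc : algebraMap (MvPolynomial (Fin 2) K)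
          (FractionRing (MvPolynomial (Fin 2) K)) (MvPolynomial.C c) =
          algebraMap M (FractionRing (MvPolynomial (Fin 2) K)) (algebraMap K M c) := by
        rw [← IsScalarTower.algebraMap_apply K M, ← MvPolynomial.algebraMap_eq,
          ← IsScalarTower.algebraMap_apply]
      rw [hc]
      exact (algebraicClosure M _).algebraMap_mem _
    | add a b ha hb => rw [map_add]; exact add_mem ha hb
    | mul_X a i ha =>
      rw [map_mul]
      exact mul_mem ha (mem_algebraicClosure_iff.2 (h i))
  constructor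
  intro z
  obtain ⟨a, b, hb, rfl⟩ := IsFractionRing.div_surjective (A := MvPolynomial (Fin 2) K) z
  exact mem_algebraicClosure_iff.1 (div_mem (hp a) (hp b))

private theorem conic_indep {K : Type u} [Field K]
    (Y : Fin 2 → FractionRing (MvPolynomial (Fin 2) K))
    (h : ∀ i, IsAlgebraic (IntermediateField.adjoin K (Set.range Y))
      (algebraMap (MvPolynomial (Fin 2) K)
      (FractionRing (MvPolynomial (Fin 2) K)) (MvPolynomial.X i))) :
    AlgebraicIndependent K Y := by
  have h1 := conic_alg _ h
  open scoped IntermediateField.algebraAdjoinAdjoin in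
  have h2 : Algebra.IsAlgebraic (Algebra.adjoin K (Set.range Y))
      (FractionRing (MvPolynomial (Fin 2) K)) :=
    Algebra.IsAlgebraic.trans _ (IntermediateField.adjoin K (Set.range Y)) _
  have h3 : AlgebraicIndependent K (fun i : Fin 2 => algebraMap (MvPolynomial (Fin 2) K)
      (FractionRing (MvPolynomial (Fin 2) K)) (MvPolynomial.X i)) := by
    have := (MvPolynomial.algebraicIndependent_X (Fin 2) K).map'
      (f := IsScalarTower.toAlgHom K (MvPolynomial (Fin 2) K)
        (FractionRing (MvPolynomial (Fin 2) K)))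
      (IsFractionRing.injective (MvPolynomial (Fin 2) K)
        (FractionRing (MvPolynomial (Fin 2) K)))
    exact this
  exact (Algebra.IsAlgebraic.isTranscendenceBasis_of_lift_le_trdeg_of_finite K Y
    h3.lift_cardinalMk_le_trdeg).1

end

section

theorem conic {K : Type u} [Field K] [IsAlgClosed K] (h2 : (2 : K) ≠ 0)
    (F : MvPolynomial (Fin 2) K) (hd : F.totalDegree ≤ 2) :
    ∃ (X : Fin 2 → FractionRing (MvPolynomial (Fin 2) K))
      (W : FractionRing (MvPolynomial (Fin 2) K)), AlgebraicIndependent K X ∧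
      W ^ 2 = MvPolynomial.aeval X F := by
  classical
  set L := FractionRing (MvPolynomial (Fin 2) K) with hL
  by_cases hF : F = 0
  · refine ⟨fun i => algebraMap (MvPolynomial (Fin 2) K) L (MvPolynomial.X i), 0, ?_, ?_⟩
    · apply conic_indep
      intro i
      have hi : algebraMap (MvPolynomial (Fin 2) K) L (MvPolynomial.X i) ∈
          IntermediateField.adjoin K (Set.range fun i : Fin 2 =>
            algebraMap (MvPolynomial (Fin 2) K) L (MvPolynomial.X i)) :=
        IntermediateField.subset_adjoin _ _ ⟨i, rfl⟩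
      exact isAlgebraic_algebraMap (⟨_, hi⟩ : IntermediateField.adjoin K (Set.range
        fun i : Fin 2 => algebraMap (MvPolynomial (Fin 2) K) L (MvPolynomial.X i)))
    · rw [hF, map_zero]; ring
  obtain ⟨p, hp⟩ : ∃ p : Fin 2 → K, MvPolynomial.eval p F ≠ 0 := by
    by_contra hcon
    push Not at hcon
    exact hF (MvPolynomial.funext (fun x => by rw [hcon x, map_zero]))
  obtain ⟨w, hw⟩ := IsAlgClosed.exists_pow_nat_eq (MvPolynomial.eval p F) (n := 2) (by norm_num)
  have hw0 : w ≠ 0 := by
    rintro rfl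
    apply hp
    rw [← hw]; ring
  obtain ⟨hdeg, -, hc0, -⟩ := ex_deg F p
  set A1 := (ex F p).coeff 1 with hA1
  set A2 := (ex F p).coeff 2 with hA2
  set m : L := algebraMap (MvPolynomial (Fin 2) K) L (MvPolynomial.X 0) with hm
  set n : L := algebraMap (MvPolynomial (Fin 2) K) L (MvPolynomial.X 1) with hn
  have hinj : Function.Injective (algebraMap (MvPolynomial (Fin 2) K) L) :=
    IsFractionRing.injective _ _
  have hmA : ∀ A : K[X], Polynomial.aeval m A =
      algebraMap (MvPolynomial (Fin 2) K) L (Polynomial.aeval (MvPolynomial.X 0) A) := by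
    intro A
    rw [hm, Polynomial.aeval_algebraMap_apply]
  have hKL : ∀ c : K, algebraMap K L c =
      algebraMap (MvPolynomial (Fin 2) K) L (MvPolynomial.C c) := by
    intro c
    rw [← MvPolynomial.algebraMap_eq, ← IsScalarTower.algebraMap_apply]
  have hden : n ^ 2 - Polynomial.aeval m A2 ≠ 0 := by
    rw [hmA, hn, ← map_pow, ← map_sub]
    intro h0
    have h1 := hinj (h0.trans (map_zero _).symm)
    obtain ⟨t, ht⟩ := IsAlgClosed.exists_pow_nat_eq (A2.eval 0 + 1) (n := 2) (by norm_num)
    have h2' := congrArg (MvPolynomial.eval (![0, t] : Fin 2 → K)) h1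
    have h3 : MvPolynomial.eval (![0, t] : Fin 2 → K)
        (Polynomial.aeval (MvPolynomial.X 0) A2) = A2.eval 0 := by
      have := Polynomial.hom_eval₂ A2 (algebraMap K (MvPolynomial (Fin 2) K))
        (MvPolynomial.eval (![0, t] : Fin 2 → K)) (MvPolynomial.X 0)
      rw [Polynomial.aeval_def, this]
      simp [Polynomial.eval₂_eq_eval_map, MvPolynomial.algebraMap_eq]
    rw [map_sub, map_pow, MvPolynomial.eval_X, h3, map_zero] at h2'
    simp only [Matrix.cons_val_one, Matrix.cons_val_fin_one] at h2'
    rw [ht] at h2'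
    simp at h2'
  have hnum : Polynomial.aeval m A1 - 2 * algebraMap K L w * n ≠ 0 := by
    rw [hmA, hn, hKL]
    intro h0
    have h0' : algebraMap (MvPolynomial (Fin 2) K) L
        (Polynomial.aeval (MvPolynomial.X 0) A1 - 2 * MvPolynomial.C w * MvPolynomial.X 1) =
        algebraMap (MvPolynomial (Fin 2) K) L 0 := by
      rw [map_zero, map_sub, map_mul, map_mul, map_ofNat]; exact h0
    have h1 := hinj h0'
    set t : K := (A1.eval 0 - 1) / (2 * w) with ht
    have h2' := congrArg (MvPolynomial.eval (![0, t] : Fin 2 → K)) h1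
    have h3 : MvPolynomial.eval (![0, t] : Fin 2 → K)
        (Polynomial.aeval (MvPolynomial.X 0) A1) = A1.eval 0 := by
      have := Polynomial.hom_eval₂ A1 (algebraMap K (MvPolynomial (Fin 2) K))
        (MvPolynomial.eval (![0, t] : Fin 2 → K)) (MvPolynomial.X 0)
      rw [Polynomial.aeval_def, this]
      simp [Polynomial.eval₂_eq_eval_map, MvPolynomial.algebraMap_eq]
    rw [map_sub, map_mul, map_mul, map_ofNat, MvPolynomial.eval_X, MvPolynomial.eval_C, h3,
      map_zero] at h2'
    simp only [Matrix.cons_val_one, Matrix.cons_val_fin_one] at h2'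
    have h4 : 2 * w * t = A1.eval 0 - 1 := by
      rw [ht]; field_simp
    rw [h4] at h2'
    simp at h2'
  set T : L := (Polynomial.aeval m A1 - 2 * algebraMap K L w * n) /
    (n ^ 2 - Polynomial.aeval m A2) with hT
  have hT0 : T ≠ 0 := div_ne_zero hnum hden
  have hTe : (n ^ 2 - Polynomial.aeval m A2) * T =
      Polynomial.aeval m A1 - 2 * algebraMap K L w * n := by
    rw [hT]; exact mul_div_cancel₀ _ hden
  refine ⟨![algebraMap K L (p 0) + T, algebraMap K L (p 1) + m * T],
    algebraMap K L w + n * T, ?_, ?_⟩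
  · apply conic_indep
    set Y : Fin 2 → L := ![algebraMap K L (p 0) + T, algebraMap K L (p 1) + m * T] with hY
    set M := IntermediateField.adjoin K (Set.range Y) with hM
    have hY0 : Y 0 ∈ M := IntermediateField.subset_adjoin _ _ ⟨0, rfl⟩
    have hY1 : Y 1 ∈ M := IntermediateField.subset_adjoin _ _ ⟨1, rfl⟩
    have hTM : T ∈ M := by
      have : T = Y 0 - algebraMap K L (p 0) := by simp [hY]
      rw [this]
      exact sub_mem hY0 (M.algebraMap_mem _)
    have hmM : m ∈ M := by
      have : m = (Y 1 - algebraMap K L (p 1)) / T := by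
        have : Y 1 = algebraMap K L (p 1) + m * T := by simp [hY]
        rw [this, add_sub_cancel_left, mul_div_cancel_right₀ m hT0]
      rw [this]
      exact div_mem (sub_mem hY1 (M.algebraMap_mem _)) hTM
    have hAM : ∀ A : K[X], Polynomial.aeval m A ∈ M := by
      intro A
      have : Polynomial.aeval m A =
          ((Polynomial.aeval (⟨m, hmM⟩ : M) A : M) : L) := by
        rw [← IntermediateField.algebraMap_apply, ← Polynomial.aeval_algebraMap_apply]
        rfl
      rw [this]
      exact SetLike.coe_mem _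
    intro i
    fin_cases i
    · exact isAlgebraic_algebraMap (⟨m, hmM⟩ : M)
    · refine ⟨C (⟨T, hTM⟩ : M) * X ^ 2 + C (⟨2 * algebraMap K L w, ?_⟩ : M) * X -
        C (⟨Polynomial.aeval m A1 + Polynomial.aeval m A2 * T, ?_⟩ : M), ?_, ?_⟩
      · have h22 : (2 : L) ∈ M := by
          have := M.algebraMap_mem (2 : K)
          rwa [map_ofNat] at this
        exact mul_mem h22 (M.algebraMap_mem _)
      · exact add_mem (hAM _) (mul_mem (hAM _) hTM)
      · intro h0
        have := congrArg (fun q : M[X] => q.coeff 2) h0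
        simp [Polynomial.coeff_X, Polynomial.coeff_C] at this
        exact hT0 (congrArg Subtype.val this)
      · simp only [map_sub, map_add, map_mul, map_pow, Polynomial.aeval_C, Polynomial.aeval_X]
        change T * n ^ 2 + 2 * algebraMap K L w * n -
          (Polynomial.aeval m A1 + Polynomial.aeval m A2 * T) = 0
        linear_combination hTe
  · rw [ex_eval, Polynomial.eval₂_eq_sum_range' _ (lt_of_le_of_lt (hdeg.trans hd) (by norm_num :
      2 < 3))]
    rw [Finset.sum_range_succ, Finset.sum_range_succ, Finset.sum_range_one, hc0, ← hA1, ← hA2]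
    have h1 : ((Polynomial.aeval m : K[X] →ₐ[K] L) : K[X] →+* L)
        (C (MvPolynomial.eval p F)) = algebraMap K L w ^ 2 := by
      rw [← hw, RingHom.coe_coe, Polynomial.aeval_C, map_pow]
    rw [h1]
    simp only [RingHom.coe_coe, pow_zero, mul_one, pow_one]
    linear_combination T * hTe

end

end Pool.Agent.RDG

end

section


namespace Pool.Agent.RDG

open Polynomial

universe u v w

section

open scoped IntermediateField.algebraAdjoinAdjoin in
private theorem quart_tr {K B : Type u} [Field K] [Field B] [Algebra K B] (x : Fin 2 → B)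
    (hx : AlgebraicIndependent K x) :
    Transcendental (IntermediateField.adjoin K (x '' {0} : Set B)) (x 1) := by
  have h1 : Transcendental (Algebra.adjoin K (x '' {0})) (x 1) :=
    hx.transcendental_adjoin (by simp)
  intro h
  exact h1 ((IsFractionRing.isAlgebraic_iff (Algebra.adjoin K (x '' {0}))
    (IntermediateField.adjoin K (x '' {0} : Set B)) B).2 h)

private theorem quart_c4 {E : Type u} [Field E] (F : MvPolynomial (Fin 2) E) (p : Fin 2 → E)
    (h : Good F p) : c4 F p ≠ 0 := by
  intro h0
  have h1 := h.cop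
  rw [h0, isCoprime_zero_right] at h1
  have h2 := Polynomial.natDegree_eq_zero_of_isUnit h1
  exact h.lead (Polynomial.coeff_eq_zero_of_natDegree_lt (by omega))

private theorem quart_sq {E : Type u} [Field E] (h2 : (2 : E) ≠ 0) (f g S : E) (hf : f ≠ 0)
    (h : 64 * f ^ 3 * g = S ^ 2) : g = (S / (8 * f ^ 2)) ^ 2 * f := by
  have h8 : (8 : E) ≠ 0 := by
    have : (8 : E) = 2 ^ 3 := by norm_num
    rw [this]
    exact pow_ne_zero _ h2
  rw [div_pow, ← h]
  field_simp
  ring

private theorem quart_deg {K E : Type u} [Field K] [Field E] (f : K →+* E)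
    (F : MvPolynomial (Fin 2) K) (h : F.totalDegree ≤ 4) :
    (MvPolynomial.map f F).totalDegree ≤ 4 := by
  refine le_trans ?_ h
  unfold MvPolynomial.totalDegree
  exact Finset.sup_mono (MvPolynomial.support_map_subset _ _)

private theorem quart_main {K E B : Type u} [Field K] [IsAlgClosed K] (h2 : (2 : K) ≠ 0) [Field E]
    [Field B] [Algebra K E] [Algebra E B] [Algebra K B] [IsScalarTower K E B]
    (F : MvPolynomial (Fin 2) K) (hF : Irreducible F) (hd : 3 ≤ F.totalDegree)
    (hd4 : F.totalDegree ≤ 4) (hy : MvPolynomial.pderiv 1 F ≠ 0) (τ1 : E)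
    (hτ1 : Transcendental K τ1) (τ2 : B) (hτ2 : Transcendental E τ2) :
    ∃ (X : Fin 2 → B) (W : B), AlgebraicIndependent K X ∧ W ^ 2 = MvPolynomial.aeval X F := by
  obtain ⟨p0, hp0⟩ := good_ex h2 F hF hd hd4 hy
  obtain ⟨T1, hT1⟩ : ∃ T1 : E, aeval τ1 (c4 F p0) * T1 =
      -8 * algebraMap K E (MvPolynomial.eval p0 F) * aeval τ1 (c3 F p0) := by
    have hne : aeval τ1 (c4 F p0) ≠ 0 := fun h => hτ1 ⟨_, quart_c4 F p0 hp0, h⟩
    exact ⟨_, mul_div_cancel₀ _ hne⟩
  obtain ⟨hg1, hn1⟩ := good_next h2 F hF hd hd4 p0 hp0 τ1 T1 hτ1 hT1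
  set p1 : Fin 2 → E := ![algebraMap K E (p0 0) + T1, algebraMap K E (p0 1) + τ1 * T1] with hp1
  obtain ⟨T2, hT2⟩ : ∃ T2 : B,
      aeval τ2 (c4 (MvPolynomial.map (algebraMap K E) F) p1) * T2 =
      -8 * algebraMap E B (MvPolynomial.aeval p1 F) *
        aeval τ2 (c3 (MvPolynomial.map (algebraMap K E) F) p1) := by
    have hne : aeval τ2 (c4 (MvPolynomial.map (algebraMap K E) F) p1) ≠ 0 :=
      fun h => hτ2 ⟨_, quart_c4 _ p1 hg1, h⟩
    exact ⟨_, mul_div_cancel₀ _ hne⟩
  have hX := indep h2 F p1 hg1 hn1 τ2 T2 hτ2 hT2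
  have hev : MvPolynomial.eval p1 (MvPolynomial.map (algebraMap K E) F) =
      MvPolynomial.aeval p1 F := by
    rw [MvPolynomial.eval_map, MvPolynomial.aeval_def]
  have hdeg : (MvPolynomial.map (algebraMap K E) F).totalDegree ≤ 4 :=
    quart_deg _ F hd4
  have i1 := ident (B := E) F hd4 p0 τ1 T1
  have i2 := ident (B := B) _ hdeg p1 τ2 T2
  rw [← hp1] at i1
  have j1 : 8 * algebraMap K E (MvPolynomial.eval p0 F) * aeval τ1 (c3 F p0) +
      aeval τ1 (c4 F p0) * T1 = 0 := by
    rw [hT1]; ring
  have j2 : 8 * algebraMap E B (MvPolynomial.eval p1 (MvPolynomial.map (algebraMap K E) F)) *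
      aeval τ2 (c3 (MvPolynomial.map (algebraMap K E) F) p1) +
      aeval τ2 (c4 (MvPolynomial.map (algebraMap K E) F) p1) * T2 = 0 := by
    rw [hT2, hev]; ring
  rw [j1, mul_zero, add_zero] at i1
  rw [j2, mul_zero, add_zero] at i2
  rw [hev, MvPolynomial.aeval_map_algebraMap] at i2
  have hE2 : (2 : E) ≠ 0 := by
    intro h
    apply h2
    apply (algebraMap K E).injective
    rw [map_ofNat, map_zero, h]
  have hB2 : (2 : B) ≠ 0 := by
    intro h
    apply hE2
    apply (algebraMap E B).injective
    rw [map_ofNat, map_zero, h]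
  have hf0 : algebraMap K E (MvPolynomial.eval p0 F) ≠ 0 := by
    rw [Ne, map_eq_zero]
    exact hp0.ne
  have hf1 : MvPolynomial.aeval p1 F ≠ 0 := by
    rw [← hev]
    exact hg1.ne
  have hf1' : algebraMap E B (MvPolynomial.aeval p1 F) ≠ 0 := by
    rw [Ne, map_eq_zero]
    exact hf1
  have k1 := quart_sq hE2 _ _ _ hf0 i1
  have k2 := quart_sq hB2 _ _ _ hf1' i2
  obtain ⟨s, hs⟩ := IsAlgClosed.exists_pow_nat_eq (MvPolynomial.eval p0 F) (n := 2) (by norm_num)
  refine ⟨_, ?_, hX, ?_⟩
  rotate_left
  · rw [k2, k1, ← hs, map_mul, map_pow, map_pow, map_pow, ← mul_pow, ← mul_pow]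

end

section

theorem quart {K : Type u} [Field K] [IsAlgClosed K] (h2 : (2 : K) ≠ 0)
    (F : MvPolynomial (Fin 2) K) (hF : Irreducible F) (hd4 : F.totalDegree ≤ 4) :
    ∃ (X : Fin 2 → FractionRing (MvPolynomial (Fin 2) K))
      (W : FractionRing (MvPolynomial (Fin 2) K)), AlgebraicIndependent K X ∧
      W ^ 2 = MvPolynomial.aeval X F := by
  classical
  have hX : AlgebraicIndependent K (fun i : Fin 2 =>
      algebraMap (MvPolynomial (Fin 2) K) (FractionRing (MvPolynomial (Fin 2) K))
        (MvPolynomial.X i)) :=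
    (MvPolynomial.algebraicIndependent_X (Fin 2) K).map' (f := IsScalarTower.toAlgHom K
      (MvPolynomial (Fin 2) K) (FractionRing (MvPolynomial (Fin 2) K)))
      (IsFractionRing.injective (MvPolynomial (Fin 2) K)
        (FractionRing (MvPolynomial (Fin 2) K)))
  set x : Fin 2 → FractionRing (MvPolynomial (Fin 2) K) := fun i =>
      algebraMap (MvPolynomial (Fin 2) K) (FractionRing (MvPolynomial (Fin 2) K))
        (MvPolynomial.X i) with hx
  have hτ2 := quart_tr x hX
  have hmem : x 0 ∈ IntermediateField.adjoin K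
      (x '' {0} : Set (FractionRing (MvPolynomial (Fin 2) K))) :=
    IntermediateField.subset_adjoin _ _ ⟨0, rfl, rfl⟩
  have hτ1 : Transcendental K (⟨x 0, hmem⟩ : IntermediateField.adjoin K
      (x '' {0} : Set (FractionRing (MvPolynomial (Fin 2) K)))) := by
    intro h
    exact (hX.transcendental 0) (h.algebraMap (A := FractionRing (MvPolynomial (Fin 2) K)))
  by_cases hd : F.totalDegree ≤ 2
  · exact conic h2 F hd
  push Not at hd
  obtain ⟨i, hi⟩ := (pd_irr F hF).2
  by_cases h1 : MvPolynomial.pderiv 1 F = 0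
  · have hi0 : i = 0 := by
      fin_cases i
      · rfl
      · exact absurd h1 hi
    subst hi0
    set σ : Fin 2 ≃ Fin 2 := Equiv.swap 0 1 with hσ
    have hF' : Irreducible (MvPolynomial.rename σ F) := by
      have := (MulEquiv.irreducible_iff (MvPolynomial.renameEquiv K σ).toMulEquiv
        (x := F)).2 hF
      exact this
    have hdeg : (MvPolynomial.rename σ F).totalDegree = F.totalDegree :=
      MvPolynomial.totalDegree_renameEquiv σ F
    have hy : MvPolynomial.pderiv 1 (MvPolynomial.rename σ F) ≠ 0 := by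
      have h3 : MvPolynomial.pderiv (σ 0) (MvPolynomial.rename σ F) =
          MvPolynomial.rename σ (MvPolynomial.pderiv 0 F) :=
        MvPolynomial.pderiv_rename σ.injective 0 F
      have h4 : σ 0 = 1 := by simp [hσ]
      rw [h4] at h3
      rw [h3]
      intro h5
      exact hi (MvPolynomial.rename_injective σ σ.injective (by rw [h5, map_zero]))
    obtain ⟨X, W, hXi, hW⟩ := quart_main h2 (MvPolynomial.rename σ F) hF' (by omega) (by omega) hy
      _ hτ1 _ hτ2
    refine ⟨X ∘ σ, W, hXi.comp σ σ.injective, ?_⟩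
    rw [hW, MvPolynomial.aeval_rename]
  · exact quart_main h2 F hF (by omega) hd4 h1 _ hτ1 _ hτ2

end

end Pool.Agent.RDG

end

section


namespace Pool.Agent.RDG

open Polynomial

universe u v w

section

private theorem irr_desc_unit {K M : Type u} [Field K] [Field M] (ι : K →+* M)
    (a : MvPolynomial (Fin 2) K) (h : IsUnit (MvPolynomial.map ι a)) : IsUnit a := by
  rw [MvPolynomial.isUnit_iff_totalDegree_of_isReduced] at h ⊢
  obtain ⟨h1, h2⟩ := h
  refine ⟨?_, ?_⟩
  · rw [MvPolynomial.coeff_map, isUnit_iff_ne_zero] at h1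
    rw [isUnit_iff_ne_zero]
    intro h0
    apply h1
    rw [h0, map_zero]
  · rw [MvPolynomial.totalDegree, MvPolynomial.support_map_of_injective _ ι.injective] at h2
    exact h2

theorem irr_desc {K M : Type u} [Field K] [Field M] (ι : K →+* M) (F : MvPolynomial (Fin 2) K)
    (h : Irreducible (MvPolynomial.map ι F)) : Irreducible F := by
  constructor
  · intro hu
    exact h.not_isUnit (hu.map (MvPolynomial.map ι))
  · intro a b hab
    have h1 : MvPolynomial.map ι F = MvPolynomial.map ι a * MvPolynomial.map ι b := by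
      rw [hab, map_mul]
    rcases h.isUnit_or_isUnit h1 with h2 | h2
    · exact Or.inl (irr_desc_unit ι a h2)
    · exact Or.inr (irr_desc_unit ι b h2)

end

end Pool.Agent.RDG

end

section


namespace Pool.Agent.RDG

open Polynomial Pool.Agent.RDP Polynomial

universe u v w

section

private theorem geis_deg {R S : Type u} [CommSemiring R] [CommSemiring S] (φ : R →+* S)
    (F : MvPolynomial (Fin 2) R) : (MvPolynomial.map φ F).totalDegree ≤ F.totalDegree := by
  unfold MvPolynomial.totalDegree
  exact Finset.sup_mono (MvPolynomial.support_map_subset φ F)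

private theorem geis_emb {k M : Type u} [Field k] [Field M] [IsAlgClosed M]
    [Algebra k M] (t : M) (ht : Transcendental k t) :
    ∃ ι : AlgebraicClosure (RatFunc k) →+* M,
      ι (algebraMap (RatFunc k) (AlgebraicClosure (RatFunc k)) RatFunc.X) = t ∧
      ι.comp (algebraMap k (AlgebraicClosure (RatFunc k))) = algebraMap k M := by
  have hinj : Function.Injective (Polynomial.aeval t : k[X] →ₐ[k] M) := by
    rw [transcendental_iff_injective] at ht
    exact ht
  have hle : nonZeroDivisors k[X] ≤
      Submonoid.comap (Polynomial.aeval t : k[X] →ₐ[k] M) (nonZeroDivisors M) :=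
    nonZeroDivisors_le_comap_nonZeroDivisors_of_injective _ hinj
  let g0 : RatFunc k →ₐ[k] M := RatFunc.liftAlgHom (Polynomial.aeval t) hle
  have hg0 : g0 RatFunc.X = t := by
    have h1 : (RatFunc.X : RatFunc k) = algebraMap k[X] (RatFunc k) X /
        algebraMap k[X] (RatFunc k) 1 := by
      rw [RatFunc.algebraMap_X, map_one, div_one]
    rw [h1]
    show RatFunc.liftAlgHom (Polynomial.aeval t) hle (algebraMap k[X] (RatFunc k) X /
        algebraMap k[X] (RatFunc k) 1) = t
    rw [RatFunc.liftAlgHom_apply_div, Polynomial.aeval_X, map_one, div_one]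
  let _ : Algebra (RatFunc k) M := (g0 : RatFunc k →+* M).toAlgebra
  let ι0 : AlgebraicClosure (RatFunc k) →ₐ[RatFunc k] M := IsAlgClosed.lift
  refine ⟨(ι0 : AlgebraicClosure (RatFunc k) →+* M), ?_, ?_⟩
  · have h1 := ι0.commutes (RatFunc.X : RatFunc k)
    have h2 : (algebraMap (RatFunc k) M) RatFunc.X = t := hg0
    rw [h2] at h1
    exact h1
  · ext a
    have h1 : algebraMap k (AlgebraicClosure (RatFunc k)) a =
      algebraMap (RatFunc k) (AlgebraicClosure (RatFunc k)) (algebraMap k (RatFunc k) a) :=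
      IsScalarTower.algebraMap_apply k (RatFunc k) (AlgebraicClosure (RatFunc k)) a
    have h2 := ι0.commutes (algebraMap k (RatFunc k) a)
    have h3 : (algebraMap (RatFunc k) M) (algebraMap k (RatFunc k) a) = algebraMap k M a :=
      g0.commutes a
    rw [h3] at h2
    rw [RingHom.comp_apply, h1]
    exact h2

theorem geis {k M : Type u} [Field k] (h2 : (2 : k) ≠ 0) (f q : MvPolynomial (Fin 2) k)
    (hq : q ≠ 0) (hf : f.totalDegree ≤ 4) (hq2 : q.totalDegree ≤ 2) [Field M] [IsAlgClosed M]
    [Algebra k M] (t : M) (ht : Transcendental k t)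
    (hG : Irreducible (MvPolynomial.map (algebraMap k M) f -
      MvPolynomial.C t * MvPolynomial.map (algebraMap k M) (q ^ 2))) :
    DPU f (q ^ 2) (AlgebraicClosure (RatFunc k))
      (algebraMap (RatFunc k) (AlgebraicClosure (RatFunc k)) RatFunc.X) := by
  obtain ⟨ι, hι1, hι2⟩ := geis_emb t ht
  set K0 := AlgebraicClosure (RatFunc k) with hK0
  set l : K0 := algebraMap (RatFunc k) (AlgebraicClosure (RatFunc k)) RatFunc.X with hl
  set F0 : MvPolynomial (Fin 2) K0 := MvPolynomial.map (algebraMap k K0) f -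
    MvPolynomial.C l * MvPolynomial.map (algebraMap k K0) (q ^ 2) with hF0
  have hmap : MvPolynomial.map ι F0 = MvPolynomial.map (algebraMap k M) f -
      MvPolynomial.C t * MvPolynomial.map (algebraMap k M) (q ^ 2) := by
    rw [hF0, map_sub, map_mul, MvPolynomial.map_map, MvPolynomial.map_map, hι2,
      MvPolynomial.map_C, hι1]
  have hirr : Irreducible F0 := by
    apply irr_desc ι F0
    rw [hmap]
    exact hG
  have hdeg : F0.totalDegree ≤ 4 := by
    refine (MvPolynomial.totalDegree_sub _ _).trans (max_le ?_ ?_)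
    · exact (geis_deg _ _).trans hf
    · refine (MvPolynomial.totalDegree_mul _ _).trans ?_
      rw [MvPolynomial.totalDegree_C, zero_add]
      refine (geis_deg _ _).trans ?_
      refine (MvPolynomial.totalDegree_pow _ _).trans ?_
      omega
  have h20 : (2 : K0) ≠ 0 := by
    have h3 : algebraMap k K0 2 = 2 := map_ofNat (algebraMap k K0) 2
    rw [← h3]
    exact (_root_.map_ne_zero _).2 h2
  obtain ⟨X, W, hX, hW⟩ := quart h20 F0 hirr hdeg
  have hfX : MvPolynomial.aeval X (MvPolynomial.map (algebraMap k K0) f) =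
      MvPolynomial.aeval X f := MvPolynomial.aeval_map_algebraMap _ _ _
  have hqX : MvPolynomial.aeval X (MvPolynomial.map (algebraMap k K0) q) =
      MvPolynomial.aeval X q := MvPolynomial.aeval_map_algebraMap _ _ _
  have hq0 : MvPolynomial.aeval X q ≠ 0 := by
    rw [← hqX]
    intro h0
    have h3 : MvPolynomial.map (algebraMap k K0) q = 0 := by
      apply hX
      rw [h0, map_zero]
    apply hq
    apply MvPolynomial.map_injective _ (algebraMap k K0).injective
    rw [h3, map_zero]
  refine ⟨X, W / MvPolynomial.aeval X q, hX, ?_⟩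
  have hW2 : W ^ 2 = MvPolynomial.aeval X f -
      algebraMap K0 (FractionRing (MvPolynomial (Fin 2) K0)) l * MvPolynomial.aeval X q ^ 2 := by
    rw [hW, hF0, map_sub, map_mul, map_pow, map_pow, hfX, hqX, MvPolynomial.aeval_C]
  rw [map_pow, div_pow, div_mul_cancel₀ _ (pow_ne_zero 2 hq0), hW2]

end

end Pool.Agent.RDG

end

namespace Pool.Agent.RDP

universe u

open Pool.Agent.RDG

theorem quartic_dpu {k M : Type u} [Field k] [Field M] [Algebra k M] [IsAlgClosed M]
    (hk : (2 : k) ≠ 0) (f q : MvPolynomial (Fin 2) k) (hq0 : q ≠ 0) (hf : f.totalDegree ≤ 4)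
    (hq : q.totalDegree ≤ 2) (t : M) (P : Fin 2 → M) (hP : AlgebraicIndependent k P)
    (ht : t * MvPolynomial.aeval P (q ^ 2) = MvPolynomial.aeval P f)
    (hG : Irreducible (MvPolynomial.map (algebraMap k M) f -
      MvPolynomial.C t * MvPolynomial.map (algebraMap k M) (q ^ 2))) :
    DPU f (q ^ 2) (AlgebraicClosure (RatFunc k))
      (algebraMap (RatFunc k) (AlgebraicClosure (RatFunc k)) RatFunc.X) :=
  geis hk f q hq0 hf hq t (nonA_good hk f (q ^ 2) P hP (pow_ne_zero 2 hq0) t ht hG).1 hG

end Pool.Agent.RDP
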