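import Pool.Agent.RDM.Dpu
import Pool.Agent.TBM.Base

/-!
# Curves on the double plane, and ruled parametrizations
-/

set_option autoImplicit false

namespace Pool.Agent.RDP

open Pool.Agent.TBR

universe u

/-- the multiplicity of the curve `J` in the divisor of `a` on the surface `F = 0` -/
noncomputable def oJ {E : Type u} [Field E] (F : MvPolynomial (Fin 3) E)
    (J : Ideal (MvPolynomial (Fin 3) E)) [J.IsPrime] (a : MvPolynomial (Fin 3) E) : ℕ∞ :=
  len J (MvPolynomial (Fin 3) E ⧸ Ideal.span {F, a})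

/-- `J` is a curve on the surface `F = 0` -/
structure Cu {E : Type u} [Field E] (F : MvPolynomial (Fin 3) E)
    (J : PrimeSpectrum (MvPolynomial (Fin 3) E)) : Prop where
  nm : ¬ J.asIdeal.IsMaximal
  mem : F ∈ J.asIdeal
  ne : J.asIdeal ≠ Ideal.span {F}

/-- a ruled parametrization `y` of the double plane `w² = f/g - l`: the coordinates are functions of
`θ` with coefficients in `k'[𝒟]` -/
structure RD {k' E M N : Type u} [Field k'] [Field E] [Field M] [Field N] [Algebra k' E]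
    [Algebra E M] [Algebra M N] [Algebra E N] [Algebra k' M] [Algebra k' N]
    (f g : MvPolynomial (Fin 2) E) (l : E) (𝒟 : Finset M) (θ : N) (n : Fin 3 → Polynomial M)
    (δ : Polynomial M) (y : Fin 3 → N) : Prop where
  td : Td1 E M
  gD : IntermediateField.adjoin E (𝒟 : Set M) = ⊤
  th : Transcendental M θ
  gen : IntermediateField.adjoin M {θ} = ⊤
  cn : ∀ i m, (n i).coeff m ∈ Algebra.adjoin k' (𝒟 : Set M)
  cd : ∀ m, δ.coeff m ∈ Algebra.adjoin k' (𝒟 : Set M)
  d0 : δ ≠ 0
  y_eq : ∀ i, y i * Polynomial.aeval θ δ = Polynomial.aeval θ (n i)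
  ai : AlgebraicIndependent E ![y 0, y 1]
  eq : y 2 ^ 2 * MvPolynomial.aeval ![y 0, y 1] g = MvPolynomial.aeval ![y 0, y 1] f -
    algebraMap E N l * MvPolynomial.aeval ![y 0, y 1] g
  alD : ∀ d ∈ 𝒟, IsAlgebraic (Algebra.adjoin k' (Set.range y)) (algebraMap M N d)
  alT : IsAlgebraic (Algebra.adjoin k' (Set.range y)) θ

/-- the surface with the function field `E(y)` is finite over the complement of `h₀ = 0` -/
def RH {E M N : Type u} [Field E] [Field M] [Field N] [Algebra E M] [Algebra M N] [Algebra E N]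
    (𝒟 : Finset M) (θ : N) (δ : Polynomial M) (y : Fin 3 → N) (h₀ : MvPolynomial (Fin 3) E) :
    Prop :=
  MvPolynomial.aeval y h₀ ≠ 0 ∧ ∀ z : N, (z = θ ∨ z = (Polynomial.aeval θ δ)⁻¹ ∨
    ∃ d ∈ 𝒟, z = algebraMap M N d) →
    IsIntegral (Algebra.adjoin E (Set.range y ∪ {(MvPolynomial.aeval y h₀)⁻¹})) z

/-- `J` is the image of a fibre: the coefficients are specialized by `ρ` -/
def FT {E M : Type u} [Field E] [Field M] [Algebra E M] {𝒟 : Finset M}
    (ρ : Algebra.adjoin E (𝒟 : Set M) →ₐ[E] E)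
    (n : Fin 3 → Polynomial M) (δ : Polynomial M) (J : Ideal (MvPolynomial (Fin 3) E)) : Prop :=
  ∃ (n' : Fin 3 → Polynomial E) (δ' : Polynomial E),
    (∀ i m (h : (n i).coeff m ∈ Algebra.adjoin E (𝒟 : Set M)), (n' i).coeff m = ρ ⟨_, h⟩) ∧
    (∀ m (h : δ.coeff m ∈ Algebra.adjoin E (𝒟 : Set M)), δ'.coeff m = ρ ⟨_, h⟩) ∧ δ' ≠ 0 ∧
    ∀ h : MvPolynomial (Fin 3) E, h ∈ J ↔ MvPolynomial.aeval (fun i =>
      algebraMap (Polynomial E) (RatFunc E) (n' i) / algebraMap (Polynomial E) (RatFunc E) δ') h = 0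

/-- `J` is stable under the automorphisms which fix `κ`, a finitely generated field of transcendence
degree at most one over `k` which contains `l` -/
structure Alw (k : Type u) {E : Type u} [Field k] [Field E] [Algebra k E] (l : E)
    (J : Ideal (MvPolynomial (Fin 3) E)) (κ : IntermediateField k E) : Prop where
  fg : κ.FG
  td : Algebra.trdeg k κ ≤ 1
  mem : l ∈ κ
  stab : ∀ σ ∈ Fx k (κ : Set E), ∀ h : MvPolynomial (Fin 3) E,
    h ∈ J ↔ MvPolynomial.map (σ : E →+* E) h ∈ J

end Pool.Agent.RDP
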