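import Pool.Agent.RDM.Rd

/-!
# Ruled parametrizations over the field of definition
-/

set_option autoImplicit false

namespace Pool.Agent.RDP

universe u

/-- a parametrization `y` of the double plane `w² = f/g - l` over `K` by functions of `X` with
coefficients in `K[𝒟]`, where `𝒟` is in a field `k₁` of transcendence degree one over `K` -/
structure RU {K k₁ : Type u} [Field K] [Field k₁] [Algebra K k₁] (f g : MvPolynomial (Fin 2) K)
    (l : K) (𝒟 : Finset k₁) (n : Fin 3 → Polynomial k₁) (δ : Polynomial k₁)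
    (y : Fin 3 → RatFunc k₁) : Prop where
  td : Td1 K k₁
  cn : ∀ i m, (n i).coeff m ∈ Algebra.adjoin K (𝒟 : Set k₁)
  cd : ∀ m, δ.coeff m ∈ Algebra.adjoin K (𝒟 : Set k₁)
  d0 : δ ≠ 0
  y_eq : ∀ i, y i * algebraMap (Polynomial k₁) (RatFunc k₁) δ =
    algebraMap (Polynomial k₁) (RatFunc k₁) (n i)
  ai : AlgebraicIndependent K ![y 0, y 1]
  eq : y 2 ^ 2 * MvPolynomial.aeval ![y 0, y 1] g = MvPolynomial.aeval ![y 0, y 1] f -
    algebraMap K (RatFunc k₁) l * MvPolynomial.aeval ![y 0, y 1] g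

end Pool.Agent.RDP
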